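import Pool.Agent.Lib.MP_14b623_gt.GBern

/-! Soundness of the whole check. -/

namespace Pool.Agent.Lib.MP_14b623_gt

open Finset

theorem gjob_bd_mono {w V e e' : ℕ} (h : Bd w V e) (he : e ≤ e') : Bd w V e' :=
  fun k => lt_of_lt_of_le (h k) (Nat.pow_le_pow_right (by norm_num) he)

theorem gjob_bd_iter {w s : ℕ} (r : ℕ) : ∀ {V e : ℕ}, Bd w V e → e + r ≤ w →
    Bd w ((dbl (w * s))^[r] V) (e + r) := by
  induction r with
  | zero => intro V e h _; exact h
  | succ r ih =>
    intro V e h he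
    rw [Function.iterate_succ_apply]
    have h1 := ih (bd_dbl (by omega) h s) (by omega)
    exact gjob_bd_mono h1 (by omega)

theorem gjob_dig_iter {w s : ℕ} (r : ℕ) : ∀ {V e : ℕ}, Bd w V e → e + r ≤ w → ∀ k,
    (dig w ((dbl (w * s))^[r] V) k : ℝ) = (op s 1 1)^[r] (fun k => (dig w V k : ℝ)) k := by
  induction r with
  | zero => intro V e _ _ k; rfl
  | succ r ih =>
    intro V e h he k
    rw [Function.iterate_succ_apply, Function.iterate_succ_apply,
      ih (bd_dbl (by omega) h s) (by omega)]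
    have h1 : (fun k => (dig w (dbl (w * s) V) k : ℝ))
        = op s 1 1 (fun k => (dig w V k : ℝ)) := by
      funext j
      rw [dig_dbl (by omega) h s j]
      simp [op]
    rw [h1]

theorem gjob_op_sub (s : ℕ) (α β : ℝ) (r : ℕ) : ∀ (c d : ℕ → ℝ) (k : ℕ),
    (op s α β)^[r] (fun j => c j - d j) k = (op s α β)^[r] c k - (op s α β)^[r] d k := by
  induction r with
  | zero => intro c d k; rfl
  | succ r ih =>
    intro c d k
    rw [Function.iterate_succ_apply, Function.iterate_succ_apply, Function.iterate_succ_apply,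
      ← ih]
    have h1 : op s α β (fun j => c j - d j) = fun j => op s α β c j - op s α β d j := by
      funext j
      simp only [op]
      ring
    rw [h1]

theorem gjob_bd_lev {w s C n V e : ℕ} (h : Bd w V e) (he : e + n ≤ w) :
    Bd w (lev (dbl (w * s)) C (w * s) n V) (e + n) :=
  bd_lev _ _ _ _ _ _ fun r hr => gjob_bd_mono (gjob_bd_iter r h (by omega)) (by omega)

theorem gjob_dig_lev {w s C n V e k r : ℕ} (hb : Base w C s n k) (h : Bd w V e) (he : e + n ≤ w)
    (hr : r ≤ n) :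
    (dig w (lev (dbl (w * s)) C (w * s) n V) (k + r * s) : ℝ)
      = (op s 1 1)^[r] (fun k => (dig w V k : ℝ)) k := by
  rw [dig_lev _ hb _ r hr, gjob_dig_iter r h (by omega)]

theorem gjob_conv_eq (n m w Sw Cx Cy V : ℕ) : conv n m w Sw Cx Cy V =
    lev (dbl (w * 1)) Cy (w * 1) m
      (lev (dbl Sw) Cx Sw n (wgt Cy (w * 1) m m (wgt Cx Sw n n V))) := by
  rw [Nat.mul_one]
  rfl

/-- Digit bound after the conversion. -/
theorem bd_conv {n m w e g Cx Cy V : ℕ} (hn : n.factorial < 2 ^ g) (hm : m.factorial < 2 ^ g)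
    (hw : e + g + g + n + m + 2 ≤ w) (hV : Bd w V e) :
    Bd w (conv n m w (w * (m + 1)) Cx Cy V) (e + g + g + n + m) := by
  rw [gjob_conv_eq]
  exact gjob_bd_lev (gjob_bd_lev (bd_wgt (bd_wgt hV hn (by omega)) hm (by omega)) (by omega))
    (by omega)

theorem gjob_idx (n m b i : ℕ) :
    b * ((n + 1) * (m + 1)) + i * (m + 1) = (b * (n + 1) + i) * (m + 1) := by
  ring

theorem gjob_row_lt {n nb b i : ℕ} (hb : b < nb) (hi : i ≤ n) :
    b * (n + 1) + i < nb * (n + 1) := by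
  have h1 : (b + 1) * (n + 1) ≤ nb * (n + 1) := Nat.mul_le_mul_right _ hb
  have h2 : (b + 1) * (n + 1) = b * (n + 1) + (n + 1) := by ring
  omega

/-- The digits after the two weighting steps. -/
theorem gjob_dig_wgt {n m nb w e g V b i j : ℕ} (hn : n.factorial < 2 ^ g)
    (hm : m.factorial < 2 ^ g) (hw : e + g + g ≤ w) (hV : Bd w V e) (hb : b < nb) (hi : i ≤ n)
    (hj : j ≤ m) :
    (dig w (wgt (mskY n m nb w) (w * 1) m m (wgt (mskX n m nb w) (w * (m + 1)) n n V))
        (b * ((n + 1) * (m + 1)) + j * 1 + i * (m + 1)) : ℝ)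
      = dig w V (b * ((n + 1) * (m + 1)) + (i * (m + 1) + j))
        * ((i.factorial : ℝ) * (n - i).factorial) * ((j.factorial : ℝ) * (m - j).factorial) := by
  have e1 : b * ((n + 1) * (m + 1)) + j * 1 + i * (m + 1)
      = (b * (n + 1) + i) * (m + 1) + j * 1 := by ring
  have e2 : (b * (n + 1) + i) * (m + 1) + j * 1
      = b * ((n + 1) * (m + 1)) + j + i * (m + 1) := by ring
  have e3 : b * ((n + 1) * (m + 1)) + j + i * (m + 1)
      = b * ((n + 1) * (m + 1)) + (i * (m + 1) + j) := by ring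
  rw [e1, dig_wgt (base_mskY n m nb _ (gjob_row_lt hb hi)) (bd_wgt hV hn (by omega)) hm
    (by omega) j hj, e2, dig_wgt (base_mskX n m nb b j hb hj) hV hn (by omega) i hi, e3]
  push_cast
  ring

/-- For `P, R` with digits `< 2^e`, write `c₀ = dig P - dig R` (real sequences), `c₁, c₂` for the
same difference after the two `wgt` steps, `c₃, c₄` after the two `lev (dbl _)` steps. Then
`D_x^n D_y^m c₄ ≤ D_x^n (1 + y E_1)^m c₃ = (1 + y E_1)^m D_x^n c₃ ≤ (1 + y E_1)^m (1 + x E_S)^n c₂`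
by `op_left` with `α = β = 1`, `op_mono`, `op_comm`; expand with `op_binom` and use
`choose n i * i ! * (n - i)! = n !`. -/
theorem conv_le {n m nb w e g P R : ℕ} (hn : n.factorial < 2 ^ g) (hm : m.factorial < 2 ^ g)
    (hw : e + g + g + n + m + 2 ≤ w) (hP : Bd w P e) (hR : Bd w R e) (b : ℕ) (hb : b < nb)
    (x y : ℝ) (hx0 : 0 ≤ x) (hx1 : x ≤ 1) (hy0 : 0 ≤ y) (hy1 : y ≤ 1) :
    (op (m + 1) (1 - x) x)^[n] ((op 1 (1 - y) y)^[m] fun k =>
        (dig w (conv n m w (w * (m + 1)) (mskX n m nb w) (mskY n m nb w) P) k : ℝ)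
        - dig w (conv n m w (w * (m + 1)) (mskX n m nb w) (mskY n m nb w) R) k)
      (b * ((n + 1) * (m + 1)))
    ≤ (n.factorial : ℝ) * m.factorial * ∑ i ∈ range (n + 1), ∑ j ∈ range (m + 1),
      ((dig w P (b * ((n + 1) * (m + 1)) + (i * (m + 1) + j)) : ℝ)
        - dig w R (b * ((n + 1) * (m + 1)) + (i * (m + 1) + j))) * x ^ i * y ^ j := by
  rw [gjob_conv_eq, gjob_conv_eq]
  have hP2 := bd_wgt (C := mskY n m nb w) (s := 1)
    (bd_wgt (C := mskX n m nb w) (s := m + 1) hP hn (by omega)) hm (by omega)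
  have hR2 := bd_wgt (C := mskY n m nb w) (s := 1)
    (bd_wgt (C := mskX n m nb w) (s := m + 1) hR hn (by omega)) hm (by omega)
  have dP := fun i j => gjob_dig_wgt (i := i) (j := j) hn hm (by omega) hP hb
  have dR := fun i j => gjob_dig_wgt (i := i) (j := j) hn hm (by omega) hR hb
  generalize wgt (mskY n m nb w) (w * 1) m m (wgt (mskX n m nb w) (w * (m + 1)) n n P) = P2
    at hP2 dP ⊢
  generalize wgt (mskY n m nb w) (w * 1) m m (wgt (mskX n m nb w) (w * (m + 1)) n n R) = R2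
    at hR2 dR ⊢
  have hP3 := gjob_bd_lev (s := m + 1) (C := mskX n m nb w) (n := n) hP2 (by omega)
  have hR3 := gjob_bd_lev (s := m + 1) (C := mskX n m nb w) (n := n) hR2 (by omega)
  have lP := fun j r (hj : j ≤ m) (hr : r ≤ n) =>
    gjob_dig_lev (base_mskX n m nb b j hb hj) hP2 (by omega) hr
  have lR := fun j r (hj : j ≤ m) (hr : r ≤ n) =>
    gjob_dig_lev (base_mskX n m nb b j hb hj) hR2 (by omega) hr
  generalize lev (dbl (w * (m + 1))) (mskX n m nb w) (w * (m + 1)) n P2 = P3 at hP3 lP ⊢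
  generalize lev (dbl (w * (m + 1))) (mskX n m nb w) (w * (m + 1)) n R2 = R3 at hR3 lR ⊢
  have stepA : ∀ i ≤ n, (op 1 (1 - y) y)^[m] (fun k =>
        (dig w (lev (dbl (w * 1)) (mskY n m nb w) (w * 1) m P3) k : ℝ)
        - dig w (lev (dbl (w * 1)) (mskY n m nb w) (w * 1) m R3) k)
        (b * ((n + 1) * (m + 1)) + i * (m + 1))
      ≤ (op 1 1 y)^[m] (fun k => (dig w P3 k : ℝ) - dig w R3 k)
        (b * ((n + 1) * (m + 1)) + i * (m + 1)) := by
    intro i hi
    have h1 := op_left (s := 1) (α := 1) (β := 1) hy0 hy1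
      (c := fun k => (dig w P3 k : ℝ) - dig w R3 k)
      (l := fun k => (dig w (lev (dbl (w * 1)) (mskY n m nb w) (w * 1) m P3) k : ℝ)
        - dig w (lev (dbl (w * 1)) (mskY n m nb w) (w * 1) m R3) k) m
      (b * ((n + 1) * (m + 1)) + i * (m + 1)) (by
        intro r hr
        have hbase := base_mskY (w := w) n m nb _ (gjob_row_lt hb hi)
        rw [gjob_idx, gjob_op_sub, gjob_dig_lev hbase hP3 (by omega) hr,
          gjob_dig_lev hbase hR3 (by omega) hr])
    rwa [mul_one y, sub_add_cancel] at h1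
  have stepB : ∀ j ≤ m, (op (m + 1) (1 - x) x)^[n] (fun k => (dig w P3 k : ℝ) - dig w R3 k)
        (b * ((n + 1) * (m + 1)) + j * 1)
      ≤ (op (m + 1) 1 x)^[n] (fun k => (dig w P2 k : ℝ) - dig w R2 k)
        (b * ((n + 1) * (m + 1)) + j * 1) := by
    intro j hj
    have h1 := op_left (s := m + 1) (α := 1) (β := 1) hx0 hx1
      (c := fun k => (dig w P2 k : ℝ) - dig w R2 k)
      (l := fun k => (dig w P3 k : ℝ) - dig w R3 k) n
      (b * ((n + 1) * (m + 1)) + j * 1) (by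
        intro r hr
        rw [Nat.mul_one, gjob_op_sub, lP j r hj hr, lR j r hj hr])
    rwa [mul_one x, sub_add_cancel] at h1
  refine (op_mono (sub_nonneg.2 hx1) hx0 n _ stepA).trans ?_
  rw [op_comm]
  refine (op_mono zero_le_one hy0 m _ stepB).trans ?_
  rw [op_binom, Finset.sum_comm, Finset.mul_sum]
  refine le_of_eq (Finset.sum_congr rfl fun j hj => ?_)
  have hj' : j ≤ m := Nat.lt_succ_iff.1 (mem_range.1 hj)
  rw [op_binom, Finset.mul_sum, Finset.mul_sum]
  refine Finset.sum_congr rfl fun i hi => ?_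
  have hi' : i ≤ n := Nat.lt_succ_iff.1 (mem_range.1 hi)
  have c1 : (n.factorial : ℝ) = n.choose i * i.factorial * (n - i).factorial := by
    exact_mod_cast (Nat.choose_mul_factorial_mul_factorial hi').symm
  have c2 : (m.factorial : ℝ) = m.choose j * j.factorial * (m - j).factorial := by
    exact_mod_cast (Nat.choose_mul_factorial_mul_factorial hj').symm
  rw [dP i j hi' hj', dR i j hi' hj', c1, c2]
  ring

theorem gjob_bd_cat {w s e : ℕ} (hs : 0 < s) (l : List ℕ) (hl : ∀ v ∈ l, v < 2 ^ (w * s))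
    (hd : ∀ v ∈ l, Bd w v e) : Bd w (cat (w * s) l) e := by
  intro k
  have h1 : k = k / s * s + k % s := (Nat.div_add_mod' k s).symm
  rw [h1, dig_cat l hl _ _ (Nat.mod_lt _ hs)]
  by_cases ht : k / s < l.length
  · rw [List.getD_eq_getElem _ _ ht]
    exact hd _ (List.getElem_mem ht) _
  · rw [List.getD_eq_default _ _ (not_lt.1 ht)]
    simp [dig]

/-- `Ex.kron`, `dig_cat`, `dig_sub`, `dig_add`, `chk_sound`, `op_sub_const`, `conv_le`. -/
theorem job_sound {n m w e g : ℕ} {Es : List Ex} {t : BTr} (h : job n m w e g Es t = true)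
    (x y : ℝ) (hx0 : 0 ≤ x) (hx1 : x ≤ 1) (hy0 : 0 ≤ y) (hy1 : y ≤ 1) :
    ∃ E ∈ Es, 0 ≤ E.r x y := by
  simp only [job, Bool.and_eq_true, Nat.blt_eq, Nat.ble_eq, List.all_eq_true] at h
  obtain ⟨⟨⟨⟨hn, hm⟩, hw⟩, hE⟩, hchk⟩ := h
  have hK := fun E (hmem : E ∈ Es) => Ex.kron E n m w e (by omega) (hE E hmem)
  have hN : 0 < (n + 1) * (m + 1) := by positivity
  have hl1 : ∀ v ∈ Es.map fun E => (E.n (2 ^ (w * (m + 1))) (2 ^ w)).1,
      v < 2 ^ (w * ((n + 1) * (m + 1))) := by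
    intro v hv
    obtain ⟨E, hmem, rfl⟩ := List.mem_map.1 hv
    exact (hK E hmem).2.2.1
  have hl2 : ∀ v ∈ Es.map fun E => (E.n (2 ^ (w * (m + 1))) (2 ^ w)).2,
      v < 2 ^ (w * ((n + 1) * (m + 1))) := by
    intro v hv
    obtain ⟨E, hmem, rfl⟩ := List.mem_map.1 hv
    exact (hK E hmem).2.2.2.1
  have hP := gjob_bd_cat (e := e) hN _ hl1 (by
    intro v hv
    obtain ⟨E, hmem, rfl⟩ := List.mem_map.1 hv
    exact (hK E hmem).1)
  have hR := gjob_bd_cat (e := e) hN _ hl2 (by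
    intro v hv
    obtain ⟨E, hmem, rfl⟩ := List.mem_map.1 hv
    exact (hK E hmem).2.1)
  have dP := dig_cat _ hl1
  have dR := dig_cat _ hl2
  unfold start at hchk
  generalize cat (w * ((n + 1) * (m + 1)))
    (Es.map fun E => (E.n (2 ^ (w * (m + 1))) (2 ^ w)).1) = P at hP dP hchk
  generalize cat (w * ((n + 1) * (m + 1)))
    (Es.map fun E => (E.n (2 ^ (w * (m + 1))) (2 ^ w)).2) = R at hR dR hchk
  have hP4 := bd_conv (Cx := mskX n m Es.length w) (Cy := mskY n m Es.length w) hn hm hw hP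
  have hR4 := bd_conv (Cx := mskX n m Es.length w) (Cy := mskY n m Es.length w) hn hm hw hR
  have hR0 : ∀ k, Es.length * ((n + 1) * (m + 1)) ≤ k →
      dig w (conv n m w (w * (m + 1)) (mskX n m Es.length w) (mskY n m Es.length w) R) k = 0 := by
    intro k hk
    rw [gjob_conv_eq]
    refine dig_lev_zero _ (fun d hd _ => ?_) _
    rw [Nat.mul_one]
    exact mskY_zero n m _ k d hk hd
  have hle := fun b hb => conv_le (nb := Es.length) hn hm hw hP hR b hb x y hx0 hx1 hy0 hy1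
  generalize conv n m w (w * (m + 1)) (mskX n m Es.length w) (mskY n m Es.length w) P = P4
    at hP4 hchk hle
  generalize conv n m w (w * (m + 1)) (mskX n m Es.length w) (mskY n m Es.length w) R = R4
    at hR4 hR0 hchk hle
  obtain ⟨u, rfl⟩ : ∃ u, w = u + 2 := ⟨w - 2, by omega⟩
  have hpow : 2 ^ (e + g + g + n + m) ≤ 2 ^ u := Nat.pow_le_pow_right (by norm_num) (by omega)
  have hu2 : 2 ^ (u + 2) = 4 * 2 ^ u := by ring
  have hu1 : 2 ^ (u + 2 - 1) = 2 * 2 ^ u := by
    rw [show u + 2 - 1 = u + 1 by omega]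
    ring
  have hu0 : 0 < 2 ^ u := by positivity
  have dQ := dig_rep_one (w := u + 2) (d := 2 ^ (u + 2 - 2))
    (by rw [Nat.add_sub_cancel]; omega) (Es.length * ((n + 1) * (m + 1)))
  generalize rep (2 ^ (u + 2 - 2)) (u + 2) (Es.length * ((n + 1) * (m + 1))) = Q at dQ hchk
  rw [Nat.add_sub_cancel] at dQ
  have hQ1 : ∀ k, dig (u + 2) Q k ≤ 2 ^ u := by
    intro k
    rw [dQ]
    split_ifs <;> omega
  have hQ2 : ∀ k, dig (u + 2) R4 k ≤ dig (u + 2) Q k := by
    intro k
    rw [dQ]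
    split_ifs with hk
    · have := hR4 k
      omega
    · rw [hR0 k (not_lt.1 hk)]
  have dV : ∀ k, dig (u + 2) (P4 + (Q - R4)) k
      = dig (u + 2) P4 k + (dig (u + 2) Q k - dig (u + 2) R4 k) := by
    intro k
    rw [dig_add, dig_sub hQ2]
    intro k'
    rw [dig_sub hQ2]
    have h1 := hP4 k'
    have h2 := hQ1 k'
    omega
  have hV : Bd (u + 2) (P4 + (Q - R4)) (u + 2 - 1) := by
    intro k
    rw [dV]
    have h1 := hP4 k
    have h2 := hQ1 k
    omega
  obtain ⟨b, hb, hval⟩ :=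
    chk_sound n m Es.length (u + 2) (by omega) t (P4 + (Q - R4)) hV hchk x y hx0 hx1 hy0 hy1
  rw [Nat.add_sub_cancel] at hval
  have hdiff : ∀ k, (dig (u + 2) (P4 + (Q - R4)) k : ℝ) - 2 ^ u
      ≤ (dig (u + 2) P4 k : ℝ) - dig (u + 2) R4 k := by
    intro k
    have h1 : (dig (u + 2) Q k : ℝ) ≤ 2 ^ u := by exact_mod_cast hQ1 k
    rw [dV, Nat.cast_add, Nat.cast_sub (hQ2 k)]
    linarith
  have hmain : (0 : ℝ) ≤ (op (m + 1) (1 - x) x)^[n] ((op 1 (1 - y) y)^[m] fun k =>
      (dig (u + 2) P4 k : ℝ) - dig (u + 2) R4 k) (b * ((n + 1) * (m + 1))) := by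
    have h1 := sub_nonneg.2 hval
    unfold bval at h1
    rw [← op_sub_const] at h1
    refine h1.trans (op_mono (sub_nonneg.2 hx1) hx0 n _ fun i _ => ?_)
    rw [← op_sub_const]
    exact op_mono (sub_nonneg.2 hy1) hy0 m _ fun j _ => hdiff _
  have hfin := hmain.trans (hle b hb)
  refine ⟨Es[b], List.getElem_mem hb, ?_⟩
  have hpos : (0 : ℝ) < (n.factorial : ℝ) * m.factorial := by positivity
  refine le_of_le_of_eq (nonneg_of_mul_nonneg_right hfin hpos) ?_
  rw [(hK _ (List.getElem_mem hb)).2.2.2.2 x y]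
  refine Finset.sum_congr rfl fun i hi => Finset.sum_congr rfl fun j hj => ?_
  have hij : i * (m + 1) + j < (n + 1) * (m + 1) := by
    have h1 : (i + 1) * (m + 1) ≤ (n + 1) * (m + 1) :=
      Nat.mul_le_mul_right _ (mem_range.1 hi)
    have h2 : (i + 1) * (m + 1) = i * (m + 1) + (m + 1) := by ring
    have h3 := mem_range.1 hj
    omega
  rw [dP b _ hij, dR b _ hij, List.getD_eq_getElem _ _ (by simpa using hb),
    List.getD_eq_getElem _ _ (by simpa using hb), List.getElem_map, List.getElem_map]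

end Pool.Agent.Lib.MP_14b623_gt
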