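import Pool.Agent.Lib.MP_14b623_gt.ATm
import Pool.Agent.Lib.MP_14b623_gt.ARun
import Pool.Agent.Lib.MP_14b623_gt.GJob

/-! The boundary inequalities in the variable `ξ`. -/

namespace Pool.Agent.Lib.MP_14b623_gt

open Real

lemma TM.Ok.dist {F : TM} {f : ℝ → ℝ} (h : F.Ok S0 f) {L : List ℤ} {d : ℕ}
    (hd : F.dist L ≤ 2 ^ 52 * d) : TM.Ok (2 ^ 28) (L, d) f := by
  obtain ⟨c₀, c₁, e, h0, h1, h2⟩ := Nm.add (nm_ev1 (lAdd F.1 (L.map ((-2 ^ 52) * ·)))) h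
  have h3 : ((lN (lAdd F.1 (L.map ((-2 ^ 52) * ·))) : ℝ) + F.2) ≤ 2 ^ 52 * d := by
    exact_mod_cast hd
  refine ⟨c₀ / 2 ^ 52, c₁ / 2 ^ 52, e / 2 ^ 52, by positivity, ?_, fun x hx => ?_⟩
  · rw [abs_div, abs_div, abs_of_pos (by positivity : (0 : ℝ) < 2 ^ 52)]
    change _ ≤ (d : ℝ)
    linarith
  · have h4 := h2 x hx
    beta_reduce at h4
    rw [ev1_lAdd, ev1_map, abs_le] at h4
    simp only [S0] at h4
    push_cast at h4 ⊢
    rw [abs_le]
    constructor <;> linarith [h4.1, h4.2]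

/-- Height. -/
noncomputable def fz (τ ξ : ℝ) : ℝ := τ + 195 / 256 * ξ

/-- Squared distance from the axis on the sphere. -/
noncomputable def fρ (τ ξ : ℝ) : ℝ := τ * τ * (1 + (τ * τ - 1)⁻¹) - fz τ ξ * fz τ ξ

/-- `p - Ψ`. -/
noncomputable def fP (τ ξ : ℝ) : ℝ := 692 / 1024 - fρ τ ξ * D0.ψ (fρ τ ξ) (fz τ ξ)

/-- The auxiliary square. -/
noncomputable def fH (ξ : ℝ) : ℝ := (1 + 136 / 1024 * ξ + 139 / 1024 * ξ ^ 2 + 95 / 1024 * ξ ^ 3) ^ 2

/-- The boundary term times `1 / cosh τ`. -/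
noncomputable def fB (τ ξ : ℝ) : ℝ :=
  (1 - τ⁻¹ * τ⁻¹) * τ⁻¹ * (D0.A (fρ τ ξ) (fz τ ξ) * fρ τ ξ + D0.B (fρ τ ξ) (fz τ ξ) * fz τ ξ) +
    fP τ ξ * (((1 - τ⁻¹ * τ⁻¹) * fH ξ + (fρ τ ξ * fH ξ)⁻¹) / 2)

theorem bd_main {τ : ℝ} (t1 : 1.199675 < τ) (t2 : τ < 1.199685) (t3 : τ * sinh τ = cosh τ) :
    ∃ κ : ℝ, -0.2773 ≤ κ ∧ κ ≤ -0.2768 ∧ ∀ ξ : ℝ, |ξ| ≤ 1 →
      0 ≤ fP τ ξ ∧ fρ τ ξ * fH ξ ≠ 0 ∧ fB τ ξ ≤ fB τ 0 + κ * ξ + 0.20651 * ξ ^ 2 := by
  obtain ⟨s1, s2⟩ := tau_sharp t1 t2 t3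
  obtain ⟨r1, r2, r3, r4, r5⟩ := run_res
  have hS : 0 < S0 := by simp [S0]
  have h3 : τ * τ - 1 ≠ 0 := ne_of_gt (by nlinarith only [t1])
  have one : tOne.Ok S0 fun _ => 1 := TM.ok_const (by simp [S0])
  have tau : tTau.Ok S0 fun _ => τ := TM.ok_const (by
    simp only [S0]
    rw [abs_le]
    constructor <;> push_cast <;> linarith)
  have it : tIt.Ok S0 fun _ => τ⁻¹ := (tau.inv hS r1).2
  have m0 : tM0.Ok S0 fun _ => τ * τ - 1 :=
    ((tau.mul hS tau).add (one.smul (-1))).congr fun _ _ => by push_cast; ring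
  have mu : tMu.Ok S0 fun _ => (τ * τ - 1)⁻¹ := (m0.inv hS r2).2
  have rr : tR2.Ok S0 fun _ => τ * τ * (1 + (τ * τ - 1)⁻¹) := (tau.mul hS tau).mul hS (one.add mu)
  have ss : tS2.Ok S0 fun _ => 1 - τ⁻¹ * τ⁻¹ :=
    (one.add ((it.mul hS it).smul (-1))).congr fun _ _ => by push_cast; ring
  have z : tZ.Ok S0 (fz τ) := (tau.add (TM.ok_poly hS _)).congr fun x _ => by
    simp only [fz, ev1, S0]
    push_cast
    ring
  have ex := TM.ok_exp hS le_rfl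
  have he : exp (2 * τ) = (τ + 1) * (τ + 1) * (τ * τ - 1)⁻¹ := by
    have h1 := tcat_f_eq τ
    rw [t3, sub_self] at h1
    have h2 : (τ - 1) * exp (2 * τ) - (τ + 1) = 0 := by
      exact (mul_eq_zero.1 ((div_eq_zero_iff.1 h1.symm).resolve_right two_ne_zero)).resolve_right
        (exp_pos _).ne'
    rw [← div_eq_mul_inv, eq_div_iff h3]
    linear_combination (τ + 1) * h2
  have den : tDen.Ok S0 fun ξ => exp (2 * fz τ ξ) + 1 :=
    (((((tau.add one).mul hS (tau.add one)).mul hS mu).mul hS (ex.mul hS ex)).add one).congr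
      fun x _ => by
        rw [← he, ← exp_add, ← exp_add, fz]
        congr 2
        ring
  have t : tT1.Ok S0 fun ξ => tanh (fz τ ξ) :=
    (one.add ((den.inv hS r3).2.smul (-2))).congr fun x _ => by
      rw [tanh_eq, two_mul, exp_add, exp_neg]
      have := exp_pos (fz τ x)
      push_cast
      field_simp
      ring
  have tt : tT2.Ok S0 fun ξ => tanh (fz τ ξ) ^ 2 := (t.mul hS t).congr fun _ _ => sq _
  have ρ : tRho.Ok S0 (fρ τ) :=
    (rr.add ((z.mul hS z).smul (-1))).congr fun _ _ => by push_cast; rw [fρ]; ring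
  have w : tW.Ok S0 fun ξ => fρ τ ξ * (1 - tanh (fz τ ξ) ^ 2) :=
    (ρ.mul hS (one.add (tt.smul (-1)))).congr fun _ _ => by push_cast; ring
  have ev : ∀ L : List (List ℤ), (∀ r ∈ L, r.length ≤ 6) → (tEv L).Ok S0 fun ξ =>
      ev2 L (fρ τ ξ * (1 - tanh (fz τ ξ) ^ 2) - 1) (tanh (fz τ ξ) ^ 2) := fun L hL =>
    ((w.add (one.smul (-1))).hor hS (g := fun ξ => tanh (fz τ ξ) ^ 2) (L := L) (by
      rw [List.forall₂_map_right_iff, List.forall₂_same]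
      exact fun r hr => (TM.ok_lin hS tt r (hL r hr) one).congr fun _ _ => (one_mul _).symm)).congr
      fun _ _ => by push_cast; rw [neg_one_mul, sub_eq_add_neg]
  have n1 : tN1.Ok S0 _ := ((ρ.mul hS (ev D0.a (by decide))).add
    ((t.mul hS z).mul hS (ev D0.b (by decide)))).div (by positivity)
  have n2 : tN2.Ok S0 _ := ((ρ.mul hS t).mul hS (ev D0.c (by decide))).div (by positivity)
  obtain ⟨w0, iw⟩ := w.inv hS r4
  have h : tH.Ok S0 fun ξ => 1 + 136 / 1024 * ξ + 139 / 1024 * ξ ^ 2 + 95 / 1024 * ξ ^ 3 :=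
    (TM.ok_poly hS _).congr fun x _ => by
      simp only [ev1, S0]
      push_cast
      ring
  have hh : (TM.mul S0 60 tH tH).Ok S0 fH := (h.mul hS h).congr fun _ _ => sq _
  obtain ⟨j0, j⟩ := TM.Ok.inv (F := tJ0) hS (ρ.mul hS hh) r5
  have hs : (D0.s : ℝ) = ((2 ^ 40 : ℕ) : ℝ) := by norm_num [D0]
  have p : tP.Ok S0 (fP τ) := (((TM.ok_const (c := 692 / 1024) (by norm_num [S0])).add
    (((ρ.mul hS t).add z).smul (-1))).add ((n2.mul hS (iw.mul hS iw)).smul (-1))).congr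
      fun x hx => by
        have := left_ne_zero_of_mul (w0 x hx)
        simp only [fP, AD.ψ, aF, hs, div_eq_mul_inv, mul_inv, sq]
        push_cast
        field_simp
        ring
  have b : tB.Ok S0 (fB τ) := ((tau.add ((((ss.mul hS it).mul hS n1).mul hS (iw.mul hS iw)))).add
    (p.mul hS (((ss.mul hS hh).add j).div (k := 2) two_pos))).congr fun x hx => by
      have h4 : (1 - τ⁻¹ * τ⁻¹) * τ⁻¹ * (fρ τ x + fz τ x * fz τ x) = τ := by
        have h5 := mul_inv_cancel₀ (show τ ≠ 0 by linarith)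
        have h6 := mul_inv_cancel₀ h3
        rw [fρ, sub_add_cancel]
        linear_combination τ⁻¹ * h6 + (τ - (1 + (τ * τ - 1)⁻¹) * τ⁻¹ * (τ⁻¹ * τ + 1)) * h5
      simp only [fB, AD.A, AD.B, aF, hs, div_eq_mul_inv, mul_inv, sq]
      push_cast
      linear_combination h4
  obtain ⟨κ, k1, k2⟩ := (b.dist run_tm.1).upper (by positivity)
  have c1 := job_sound run_jB
  have c2 := job_sound run_jP
  rw [abs_le] at k1
  push_cast at k1 k2
  refine ⟨κ, by linarith [k1.1], by linarith [k1.2], fun ξ hξ => ⟨?_, j0 ξ hξ, ?_⟩⟩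
  · have h1 := (p.dist run_tm.2).lower ξ hξ
    obtain ⟨E, hE, h2⟩ := c2 ((ξ + 1) / 2) 0 (by linarith [(abs_le.1 hξ).1])
      (by linarith [(abs_le.1 hξ).2]) le_rfl zero_le_one
    rw [List.mem_singleton] at hE
    subst hE
    simp only [Ex.r, Ex.sub, xH, ev2] at h2
    push_cast at h1 h2
    rw [show 2 * ((ξ + 1) / 2) + -1 = ξ by ring] at h2
    linarith
  · have h1 := k2 ξ hξ
    obtain ⟨E, hE, h2⟩ := c1 ((ξ + 1) / 2) 0 (by linarith [(abs_le.1 hξ).1])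
      (by linarith [(abs_le.1 hξ).2]) le_rfl zero_le_one
    rw [List.mem_singleton] at hE
    subst hE
    simp only [Ex.r, Ex.sub, xH, ev2] at h2
    push_cast at h2
    rw [show 2 * ((ξ + 1) / 2) + -1 = ξ by ring] at h2
    have h4 := mul_nonneg h2 (sq_nonneg ξ)
    have h5 := sq_nonneg ξ
    generalize ev1 cB ξ = y at h1 h4
    linarith

end Pool.Agent.Lib.MP_14b623_gt
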