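import Pool.Agent.Lib.MP_14b623_gt.GCDefs

set_option autoImplicit false

/-! One shared copy of some automatically generated unfolding lemmas. -/

theorem Pool.Agent.Lib.MP_14b623_gt.Ex.r_eq1Shared : type_of% @Pool.Agent.Lib.MP_14b623_gt.Ex.r.eq_1 :=
  @Pool.Agent.Lib.MP_14b623_gt.Ex.r.eq_1

theorem Pool.Agent.Lib.MP_14b623_gt.Ex.r_eq2Shared : type_of% @Pool.Agent.Lib.MP_14b623_gt.Ex.r.eq_2 :=
  @Pool.Agent.Lib.MP_14b623_gt.Ex.r.eq_2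

theorem Pool.Agent.Lib.MP_14b623_gt.Ex.r_eq3Shared : type_of% @Pool.Agent.Lib.MP_14b623_gt.Ex.r.eq_3 :=
  @Pool.Agent.Lib.MP_14b623_gt.Ex.r.eq_3

theorem Pool.Agent.Lib.MP_14b623_gt.Ex.r_eq4Shared : type_of% @Pool.Agent.Lib.MP_14b623_gt.Ex.r.eq_4 :=
  @Pool.Agent.Lib.MP_14b623_gt.Ex.r.eq_4

theorem Pool.Agent.Lib.MP_14b623_gt.Ex.r_eq5Shared : type_of% @Pool.Agent.Lib.MP_14b623_gt.Ex.r.eq_5 :=
  @Pool.Agent.Lib.MP_14b623_gt.Ex.r.eq_5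

theorem Pool.Agent.Lib.MP_14b623_gt.Ex.r_eq6Shared : type_of% @Pool.Agent.Lib.MP_14b623_gt.Ex.r.eq_6 :=
  @Pool.Agent.Lib.MP_14b623_gt.Ex.r.eq_6

theorem Pool.Agent.Lib.MP_14b623_gt.Ex.r_eq7Shared : type_of% @Pool.Agent.Lib.MP_14b623_gt.Ex.r.eq_7 :=
  @Pool.Agent.Lib.MP_14b623_gt.Ex.r.eq_7

theorem Pool.Agent.Lib.MP_14b623_gt.Ex.r_eqdefShared : type_of% @Pool.Agent.Lib.MP_14b623_gt.Ex.r.eq_def :=
  @Pool.Agent.Lib.MP_14b623_gt.Ex.r.eq_def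

theorem Pool.Agent.Lib.MP_14b623_gt.ev1_eq1Shared : type_of% @Pool.Agent.Lib.MP_14b623_gt.ev1.eq_1 :=
  @Pool.Agent.Lib.MP_14b623_gt.ev1.eq_1

theorem Pool.Agent.Lib.MP_14b623_gt.ev1_eq2Shared : type_of% @Pool.Agent.Lib.MP_14b623_gt.ev1.eq_2 :=
  @Pool.Agent.Lib.MP_14b623_gt.ev1.eq_2

theorem Pool.Agent.Lib.MP_14b623_gt.ev1_eqdefShared : type_of% @Pool.Agent.Lib.MP_14b623_gt.ev1.eq_def :=
  @Pool.Agent.Lib.MP_14b623_gt.ev1.eq_def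

theorem Pool.Agent.Lib.MP_14b623_gt.ev2_eq1Shared : type_of% @Pool.Agent.Lib.MP_14b623_gt.ev2.eq_1 :=
  @Pool.Agent.Lib.MP_14b623_gt.ev2.eq_1

theorem Pool.Agent.Lib.MP_14b623_gt.ev2_eq2Shared : type_of% @Pool.Agent.Lib.MP_14b623_gt.ev2.eq_2 :=
  @Pool.Agent.Lib.MP_14b623_gt.ev2.eq_2

theorem Pool.Agent.Lib.MP_14b623_gt.ev2_eqdefShared : type_of% @Pool.Agent.Lib.MP_14b623_gt.ev2.eq_def :=
  @Pool.Agent.Lib.MP_14b623_gt.ev2.eq_def
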