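import Pool.Agent.Lib.MP_14b623_gt.GCDefs
import Pool.Agent.Lib.MP_14b623_gt.GCDefsEq

/-! Axially symmetric vector fields with nonnegative divergence along every plane. -/

namespace Pool.Agent.Lib.MP_14b623_gt

open scoped InnerProductSpace

/-- The field `a Y + b n` with `a, b` polynomials in `u = ⟪Y, n⟫ / ‖Y‖²`, `q = 1 / ‖Y‖²`. -/
noncomputable def fld (a b : List (List ℤ)) (n Y : E3) : E3 :=
  ev2 a (⟪Y, n⟫_ℝ / ‖Y‖ ^ 2) (1 / ‖Y‖ ^ 2) • Y + ev2 b (⟪Y, n⟫_ℝ / ‖Y‖ ^ 2) (1 / ‖Y‖ ^ 2) • n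

theorem gField_wt1 (L : List ℤ) (k : ℤ) (q : ℝ) :
    ev1 (wt1 (k + 1) L) q = ev1 (wt1 k L) q + ev1 L q := by
  induction L generalizing k with
  | nil => simp [wt1, ev1]
  | cons c cs ih => simp only [wt1, ev1, ih]; push_cast; ring

theorem gField_map (L : List ℤ) (j : ℤ) (q : ℝ) : ev1 (L.map fun c => j * c) q = j * ev1 L q := by
  induction L with
  | nil => simp [ev1]
  | cons c cs ih => simp only [List.map_cons, ev1, ih]; push_cast; ring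

theorem gField_wJ (L : List (List ℤ)) (j : ℤ) (u q : ℝ) :
    ev2 (wJ (j + 1) L) u q = ev2 (wJ j L) u q + ev2 L u q := by
  induction L generalizing j with
  | nil => simp [wJ, ev2]
  | cons r rs ih => simp only [wJ, ev2, ih, gField_map]; push_cast; ring

theorem gField_ev1 (L : List ℤ) {q : E3 → ℝ} {C : E3 →L[ℝ] ℝ} {Y : E3}
    (hq : HasFDerivAt q (q Y • C) Y) :
    HasFDerivAt (fun Z => ev1 L (q Z)) (ev1 (wt1 0 L) (q Y) • C) Y := by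
  induction L with
  | nil => simpa [wt1, ev1] using hasFDerivAt_const (0 : ℝ) Y
  | cons c cs ih =>
    refine ((hq.mul ih).const_add (c : ℝ)).congr_fderiv ?_
    simp only [wt1, ev1, gField_wt1]
    push_cast
    module

/-- Logarithmic chain rule. One variable first: `ev1 (wt1 (k+1) L) q = ev1 (wt1 k L) q + ev1 L q`,
similarly for `wJ`. -/
theorem hasFDerivAt_ev2 (L : List (List ℤ)) {u q : E3 → ℝ} {A C : E3 →L[ℝ] ℝ} {Y : E3}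
    (hu : HasFDerivAt u (u Y • A) Y) (hq : HasFDerivAt q (q Y • C) Y) :
    HasFDerivAt (fun Z => ev2 L (u Z) (q Z))
      (ev2 (wJ 0 L) (u Y) (q Y) • A + ev2 (wK L) (u Y) (q Y) • C) Y := by
  induction L with
  | nil => simpa [wJ, wK, ev2] using hasFDerivAt_const (0 : ℝ) Y
  | cons r rs ih =>
    refine ((gField_ev1 r hq).add (hu.mul ih)).congr_fderiv ?_
    simp only [wJ, wK, List.map_cons, ev2, gField_wJ, gField_map]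
    push_cast
    module

theorem gField_cd1 (L : List ℤ) {q : E3 → ℝ} {Y : E3} (hq : ContDiffAt ℝ 1 q Y) :
    ContDiffAt ℝ 1 (fun Z => ev1 L (q Z)) Y := by
  induction L with
  | nil => exact contDiffAt_const
  | cons c cs ih => exact contDiffAt_const.add (hq.mul ih)

theorem gField_cd2 (L : List (List ℤ)) {u q : E3 → ℝ} {Y : E3} (hu : ContDiffAt ℝ 1 u Y)
    (hq : ContDiffAt ℝ 1 q Y) : ContDiffAt ℝ 1 (fun Z => ev2 L (u Z) (q Z)) Y := by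
  induction L with
  | nil => exact contDiffAt_const
  | cons r rs ih => exact (gField_cd1 r hq).add (hu.mul ih)

theorem contDiffAt_fld (a b : List (List ℤ)) (n : E3) {Y : E3} (hY : Y ≠ 0) :
    ContDiffAt ℝ 1 (fld a b n) Y := by
  have h0 : ‖Y‖ ^ 2 ≠ 0 := pow_ne_zero 2 (norm_ne_zero_iff.2 hY)
  have h1 : ContDiffAt ℝ 1 (fun Z : E3 => ‖Z‖ ^ 2) Y := (contDiff_norm_sq ℝ).contDiffAt
  have hu : ContDiffAt ℝ 1 (fun Z : E3 => ⟪Z, n⟫_ℝ / ‖Z‖ ^ 2) Y :=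
    (contDiffAt_id.inner ℝ contDiffAt_const).div h1 h0
  have hq : ContDiffAt ℝ 1 (fun Z : E3 => 1 / ‖Z‖ ^ 2) Y := contDiffAt_const.div h1 h0
  exact ((gField_cd2 a hu hq).smul contDiffAt_id).add ((gField_cd2 b hu hq).smul contDiffAt_const)

theorem gField_form {A B C : ℝ} (hA : 0 ≤ A) (hC : 0 ≤ C) (h : B ^ 2 ≤ 4 * A * C) (x y : E3) :
    0 ≤ A * ⟪x, x⟫_ℝ + B * ⟪x, y⟫_ℝ + C * ⟪y, y⟫_ℝ := by
  have h1 := real_inner_mul_inner_self_le x y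
  have h2 : 0 ≤ ⟪x, x⟫_ℝ := real_inner_self_nonneg
  have h3 : 0 ≤ ⟪y, y⟫_ℝ := real_inner_self_nonneg
  generalize ⟪x, x⟫_ℝ = s at *
  generalize ⟪y, y⟫_ℝ = r at *
  generalize ⟪x, y⟫_ℝ = t at *
  have h4 : (B * t) ^ 2 ≤ (A * s + C * r) ^ 2 := by
    have h5 : B ^ 2 * (t * t) ≤ 4 * A * C * (s * r) :=
      mul_le_mul h h1 (mul_self_nonneg t) (by positivity)
    nlinarith [sq_nonneg (A * s - C * r)]
  linarith [(abs_le_of_sq_le_sq' h4 (by positivity)).1]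

theorem gField_proj {v₁ v₂ : E3} (hv₁ : ‖v₁‖ = 1) (hv₂ : ‖v₂‖ = 1) (hv : ⟪v₁, v₂⟫_ℝ = 0)
    (x y : E3) : ⟪x - ⟪x, v₁⟫_ℝ • v₁ - ⟪x, v₂⟫_ℝ • v₂, y - ⟪y, v₁⟫_ℝ • v₁ - ⟪y, v₂⟫_ℝ • v₂⟫_ℝ =
      ⟪x, y⟫_ℝ - ⟪x, v₁⟫_ℝ * ⟪y, v₁⟫_ℝ - ⟪x, v₂⟫_ℝ * ⟪y, v₂⟫_ℝ := by
  have h1 : ⟪v₁, v₁⟫_ℝ = 1 := by rw [real_inner_self_eq_norm_sq, hv₁, one_pow]
  have h2 : ⟪v₂, v₂⟫_ℝ = 1 := by rw [real_inner_self_eq_norm_sq, hv₂, one_pow]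
  have h3 : ⟪v₂, v₁⟫_ℝ = 0 := by rw [real_inner_comm, hv]
  simp only [inner_sub_left, inner_sub_right, real_inner_smul_left, real_inner_smul_right, h1, h2,
    h3, hv, real_inner_comm y v₁, real_inner_comm y v₂]
  ring

/-- With `σ = ⟪Y, n⟫`, `W = ‖Y‖²`: `du = u (dσ / σ - dW / W)`, `dq = - q dW / W`, so
`D(fld) v = a v + (aJ ⟪n,v⟫ / σ - 2 p q ⟪Y,v⟫) Y + (bJ ⟪n,v⟫ / σ - 2 (bJ + bK) q ⟪Y,v⟫) n`.
The sum over `v₁, v₂` is `2 a + P Σ αᵢ² + Q Σ αᵢ βᵢ + R Σ βᵢ²` with `αᵢ = ⟪Y,vᵢ⟫`, `βᵢ = ⟪n,vᵢ⟫`,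
`P = -2 q p`, `Q = k / σ`, `R = bJ / σ`. For the components `Y', n'` orthogonal to `v₁, v₂`:
`Σ αᵢ² = W - ‖Y'‖²` and so on, hence the sum is
`(2 a - 2 p + k + q bJ / u) - (P ‖Y'‖² + Q ⟪Y',n'⟫ + R ‖n'‖²)`; Cauchy-Schwarz and `Q² ≤ 4 P R`. -/
theorem fld_div (a b : List (List ℤ)) {n Y : E3} (hn : ‖n‖ = 1) (hσ : 0 < ⟪Y, n⟫_ℝ)
    {u q a0 aJ aK bJ bK : ℝ} (hu : u = ⟪Y, n⟫_ℝ / ‖Y‖ ^ 2) (hq : q = 1 / ‖Y‖ ^ 2)
    (h0 : a0 = ev2 a u q) (h1 : aJ = ev2 (wJ 0 a) u q) (h2 : aK = ev2 (wK a) u q)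
    (h3 : bJ = ev2 (wJ 0 b) u q) (h4 : bK = ev2 (wK b) u q)
    (hp : 0 ≤ aJ + aK) (hr : 0 ≤ -bJ)
    (hd : 0 ≤ 8 * u * (aJ + aK) * (-bJ) - (aJ - 2 * u * (bJ + bK)) ^ 2)
    (hE : 0 ≤ u * (2 * a0 - aJ - 2 * aK - 2 * u * (bJ + bK)) + q * bJ)
    {v₁ v₂ : E3} (hv₁ : ‖v₁‖ = 1) (hv₂ : ‖v₂‖ = 1) (hv : ⟪v₁, v₂⟫_ℝ = 0) :
    0 ≤ ⟪fderiv ℝ (fld a b n) Y v₁, v₁⟫_ℝ + ⟪fderiv ℝ (fld a b n) Y v₂, v₂⟫_ℝ := by
  have hY : Y ≠ 0 := fun e => by simp [e] at hσ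
  have hW : 0 < ‖Y‖ ^ 2 := pow_pos (norm_pos_iff.2 hY) 2
  have d1 : HasFDerivAt (fun Z : E3 => ⟪Z, n⟫_ℝ) (innerSL ℝ n) Y := by
    simp only [real_inner_comm n]
    exact (innerSL ℝ n).hasFDerivAt
  have d2 : HasFDerivAt (fun Z : E3 => 1 / ‖Z‖ ^ 2)
      ((1 / ‖Y‖ ^ 2) • ((-2 / ‖Y‖ ^ 2) • innerSL ℝ Y)) Y := by
    simp only [one_div]
    refine ((hasDerivAt_inv hW.ne').comp_hasFDerivAt Y
      (hasStrictFDerivAt_norm_sq Y).hasFDerivAt).congr_fderiv ?_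
    ext v
    simp only [smul_apply, smul_eq_mul, nsmul_eq_mul]
    push_cast
    field_simp
  have d3 : HasFDerivAt (fun Z : E3 => ⟪Z, n⟫_ℝ / ‖Z‖ ^ 2) ((⟪Y, n⟫_ℝ / ‖Y‖ ^ 2) •
      ((⟪Y, n⟫_ℝ)⁻¹ • innerSL ℝ n + (-2 / ‖Y‖ ^ 2) • innerSL ℝ Y)) Y := by
    simp only [div_eq_mul_one_div ⟪_, n⟫_ℝ]
    refine (d1.mul d2).congr_fderiv ?_
    ext v
    simp only [smul_apply, add_apply, smul_eq_mul]
    field_simp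
    ring
  have d4 := (((hasFDerivAt_ev2 a d3 d2).smul (hasFDerivAt_id Y)).add
    ((hasFDerivAt_ev2 b d3 d2).smul_const n)).fderiv
  simp only [← hu, ← hq, ← h0, ← h1, ← h2, ← h3, ← h4] at d4
  have key : ∀ v : E3, ‖v‖ = 1 → ⟪fderiv ℝ (fld a b n) Y v, v⟫_ℝ =
      a0 - (2 * q * (aJ + aK) * (⟪Y, v⟫_ℝ * ⟪Y, v⟫_ℝ) +
        -((aJ - 2 * u * (bJ + bK)) / ⟪Y, n⟫_ℝ) * (⟪Y, v⟫_ℝ * ⟪n, v⟫_ℝ) +
        -bJ / ⟪Y, n⟫_ℝ * (⟪n, v⟫_ℝ * ⟪n, v⟫_ℝ)) := fun v hv => by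
    rw [show fderiv ℝ (fld a b n) Y = _ from d4]
    simp only [smul_apply, add_apply, smul_eq_mul,
      ContinuousLinearMap.smulRight_apply, ContinuousLinearMap.id_apply, id, innerSL_apply_apply,
      inner_add_left, real_inner_smul_left, real_inner_self_eq_norm_sq, hv, hu, hq]
    field_simp
    ring
  have hq0 : 0 < q := hq ▸ one_div_pos.2 hW
  have hu0 : 0 < u := hu ▸ div_pos hσ hW
  have e1 : q * ‖Y‖ ^ 2 = 1 := by rw [hq, one_div_mul_cancel hW.ne']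
  have e2 : q * ⟪Y, n⟫_ℝ = u := by rw [hq, hu]; ring
  have f := gField_form (A := 2 * q * (aJ + aK)) (B := -((aJ - 2 * u * (bJ + bK)) / ⟪Y, n⟫_ℝ))
    (C := -bJ / ⟪Y, n⟫_ℝ) (by positivity) (by positivity) (by
      rw [neg_sq, div_pow, div_le_iff₀ (pow_pos hσ 2)]
      have : 4 * (2 * q * (aJ + aK)) * (-bJ / ⟪Y, n⟫_ℝ) * ⟪Y, n⟫_ℝ ^ 2 =
          8 * u * (aJ + aK) * -bJ := by rw [← e2]; field_simp; ring
      linarith)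
    (Y - ⟪Y, v₁⟫_ℝ • v₁ - ⟪Y, v₂⟫_ℝ • v₂) (n - ⟪n, v₁⟫_ℝ • v₁ - ⟪n, v₂⟫_ℝ • v₂)
  rw [gField_proj hv₁ hv₂ hv, gField_proj hv₁ hv₂ hv, gField_proj hv₁ hv₂ hv,
    real_inner_self_eq_norm_sq, real_inner_self_eq_norm_sq, hn] at f
  have g : 0 ≤ 2 * a0 - (2 * q * (aJ + aK) * ‖Y‖ ^ 2 +
      -((aJ - 2 * u * (bJ + bK)) / ⟪Y, n⟫_ℝ) * ⟪Y, n⟫_ℝ + -bJ / ⟪Y, n⟫_ℝ) := by
    refine nonneg_of_mul_nonneg_right (hE.trans_eq ?_) hu0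
    have e3 : u * (bJ / ⟪Y, n⟫_ℝ) = q * bJ := by rw [← e2]; field_simp
    rw [neg_mul, div_mul_cancel₀ _ hσ.ne', neg_div]
    linear_combination (2 * u * (aJ + aK)) * e1 - e3
  rw [key v₁ hv₁, key v₂ hv₂]
  linarith

end Pool.Agent.Lib.MP_14b623_gt
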