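import Pool.Agent.Lib.MP_14b623_gt.GEx

/-! The expressions submitted to the checker for fields symmetric about the vertical axis. -/

namespace Pool.Agent.Lib.MP_14b623_gt

/-- Derivative in the outer variable. -/
def dU (L : List (List ℤ)) : List (List ℤ) := wJ 1 L.tail

/-- Derivative in the inner variable. -/
def dQ (L : List (List ℤ)) : List (List ℤ) := L.map fun r => wt1 1 r.tail

/-- The height `z = 2 x - 1`. -/
def vZ : Ex := (Ex.mul (.c 2) .x).sub (.c 1)

/-- `1 - z²`. -/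
def vS : Ex := .mul (.mul (.c 4) .x) ((Ex.c 1).sub .x)

/-- The squared distance from the axis. -/
def vP : Ex := .mul vS .y

/-- Vertical normal. -/
def vA (a : List (List ℤ)) (W : Ex) : Ex :=
  (Ex.mul (.c 2) (.add (.hor a vP vZ) (.hor (wJ 0 a) vP vZ))).sub W

/-- Radial normal. -/
def vC (a b : List (List ℤ)) (W : Ex) : Ex := (Ex.add (.hor a vP vZ) (.hor (dQ b) vP vZ)).sub W

/-- Angular normal. -/
def vE (a b : List (List ℤ)) (W : Ex) : Ex :=
  .add (vC a b W) (.mul (.c 2) (.hor (wJ 0 a) vP vZ))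

/-- Trace. -/
def vT (a b : List (List ℤ)) (W : Ex) : Ex := .add (vA a W) (vC a b W)

/-- Mixed term. -/
def vK (a b : List (List ℤ)) : Ex :=
  .add (.hor (dQ a) vP vZ) (.mul (.c 2) (.hor (dU b) vP vZ))

/-- Determinant. -/
def vD (a b : List (List ℤ)) (W : Ex) : Ex :=
  (Ex.mul (.mul (.c 4) (vA a W)) (vC a b W)).sub (.mul vP (.mul (vK a b) (vK a b)))

/-- Parabola minus boundary value. -/
def vB (a b : List (List ℤ)) (al be ga : ℤ) : Ex :=
  (Ex.add (.c al) (.mul vZ (.add (.c be) (.mul (.c ga) vZ)))).sub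
    (.add (.mul (.hor a vS vZ) vS) (.mul (.hor b vS vZ) vZ))

/-- The weight of a node. -/
def vW (k₀ k₁ k₂ n : ℤ) : Ex :=
  ((Ex.c k₀).sub (.mul (.c k₁) vP)).sub
    (.mul (.c k₂) (.mul ((Ex.mul (.c 100) vZ).sub (.c n)) ((Ex.mul (.c 100) vZ).sub (.c n))))

end Pool.Agent.Lib.MP_14b623_gt
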