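import Pool.Agent.Lib.MP_14b623_gt.BDefs
import Pool.Agent.Lib.MP_14b623_gt.GField
import Pool.Agent.Lib.MP_14b623_gt.PDefs

/-! Polynomial fields, symmetric about the vertical axis. -/

namespace Pool.Agent.Lib.MP_14b623_gt

open scoped InnerProductSpace

theorem pf_wt (L : List ℤ) (q : ℝ) : ev1 (wt1 0 L) q = q * ev1 (wt1 1 L.tail) q := by
  cases L with
  | nil => simp [wt1, ev1]
  | cons c cs => simp [wt1, ev1]

theorem pf_wJ (L : List (List ℤ)) (u q : ℝ) : ev2 (wJ 0 L) u q = u * ev2 (dU L) u q := by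
  cases L with
  | nil => simp [wJ, dU, ev2]
  | cons r rs =>
    have h := gField_map r 0 q
    simp only [wJ, dU, ev2, List.tail_cons, h]
    simp

theorem pf_ev1 {E : Type} [NormedAddCommGroup E] [NormedSpace ℝ E] (L : List ℤ) {q : E → ℝ}
    {C : E →L[ℝ] ℝ} {Y : E} (hq : HasFDerivAt q C Y) :
    HasFDerivAt (fun Z => ev1 L (q Z)) (ev1 (wt1 1 L.tail) (q Y) • C) Y := by
  induction L with
  | nil => simpa [wt1, ev1] using hasFDerivAt_const (0 : ℝ) Y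
  | cons c cs ih =>
    refine ((hq.mul ih).const_add (c : ℝ)).congr_fderiv ?_
    have h := gField_wt1 cs 0 (q Y)
    rw [zero_add, pf_wt] at h
    rw [List.tail_cons, h]
    module

theorem pf_ev2 (L : List (List ℤ)) {u q : E3 → ℝ} {A C : E3 →L[ℝ] ℝ} {Y : E3}
    (hu : HasFDerivAt u A Y) (hq : HasFDerivAt q C Y) :
    HasFDerivAt (fun Z => ev2 L (u Z) (q Z))
      (ev2 (dU L) (u Y) (q Y) • A + ev2 (dQ L) (u Y) (q Y) • C) Y := by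
  induction L with
  | nil => simpa [wJ, dU, dQ, ev2] using hasFDerivAt_const (0 : ℝ) Y
  | cons r rs ih =>
    refine ((pf_ev1 r hq).add (hu.mul ih)).congr_fderiv ?_
    have h := gField_wJ rs 0 (u Y) (q Y)
    rw [zero_add, pf_wJ] at h
    simp only [dU, dQ, List.tail_cons, List.map_cons, ev2] at h ⊢
    rw [h]
    module

/-- The vertical unit vector. -/
noncomputable def ez : E3 := EuclideanSpace.single 2 1

/-- The field `a Y + b e`, with `Y` the horizontal part of the position vector. -/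
noncomputable def pfl (a b : List (List ℤ)) (x : E3) : E3 :=
  ev2 a (rho x) (x 2) • (x - x 2 • ez) + ev2 b (rho x) (x 2) • ez

theorem pf_inner (x y : E3) : ⟪x, y⟫_ℝ = x 0 * y 0 + x 1 * y 1 + x 2 * y 2 := by
  simp only [PiLp.inner_apply, Fin.sum_univ_three, RCLike.inner_apply, conj_trivial]
  ring

theorem pf_norm {x : E3} (h : ‖x‖ = 1) : x 0 ^ 2 + x 1 ^ 2 + x 2 ^ 2 = 1 := by
  have h1 := real_inner_self_eq_norm_sq x
  rw [pf_inner, h] at h1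
  linarith

theorem pf_norm_sq (x : E3) : ‖x‖ ^ 2 = rho x + x 2 ^ 2 := by
  rw [← real_inner_self_eq_norm_sq, pf_inner, rho]
  ring

theorem pf_coord (i : Fin 3) : ContDiff ℝ 1 fun x : E3 => x i :=
  (EuclideanSpace.proj (𝕜 := ℝ) i).contDiff

theorem contDiff_pfl (a b : List (List ℤ)) : ContDiff ℝ 1 (pfl a b) := by
  have hr : ContDiff ℝ 1 rho := ((pf_coord 0).pow 2).add ((pf_coord 1).pow 2)
  refine contDiff_iff_contDiffAt.2 fun x => ?_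
  exact ((gField_cd2 a hr.contDiffAt (pf_coord 2).contDiffAt).smul
    (contDiffAt_id.sub ((pf_coord 2).contDiffAt.smul contDiffAt_const))).add
    ((gField_cd2 b hr.contDiffAt (pf_coord 2).contDiffAt).smul contDiffAt_const)

theorem pfl_bdry (a b : List (List ℤ)) (x : E3) :
    ⟪pfl a b x, x⟫_ℝ = ev2 a (rho x) (x 2) * rho x + ev2 b (rho x) (x 2) * x 2 := by
  simp [pf_inner, pfl, ez, rho]
  ring

theorem pfl_quad (a b : List (List ℤ)) (x v : E3) : ⟪fderiv ℝ (pfl a b) x v, v⟫_ℝ =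
    ev2 a (rho x) (x 2) * (v 0 ^ 2 + v 1 ^ 2) +
      2 * ev2 (dU a) (rho x) (x 2) * (x 0 * v 0 + x 1 * v 1) ^ 2 +
      (ev2 (dQ a) (rho x) (x 2) + 2 * ev2 (dU b) (rho x) (x 2)) * ((x 0 * v 0 + x 1 * v 1) * v 2) +
      ev2 (dQ b) (rho x) (x 2) * v 2 ^ 2 := by
  have d : ∀ i : Fin 3, HasFDerivAt (fun Z : E3 => Z i) (EuclideanSpace.proj (𝕜 := ℝ) i) x :=
    fun i => (EuclideanSpace.proj (𝕜 := ℝ) i).hasFDerivAt
  have dr : HasFDerivAt rho ((2 * x 0) • EuclideanSpace.proj (𝕜 := ℝ) (0 : Fin 3) +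
      (2 * x 1) • EuclideanSpace.proj (𝕜 := ℝ) (1 : Fin 3)) x := by
    refine (((d 0).pow 2).add ((d 1).pow 2)).congr_fderiv ?_
    simp
  have d4 := (((pf_ev2 a dr (d 2)).smul ((hasFDerivAt_id x).sub ((d 2).smul_const ez))).add
    ((pf_ev2 b dr (d 2)).smul_const ez)).fderiv
  rw [show fderiv ℝ (pfl a b) x = _ from d4]
  simp [pf_inner, ez]
  ring

theorem pf_form {A B C : ℝ} (hA : 0 ≤ A) (hC : 0 ≤ C) (h : B ^ 2 ≤ 4 * A * C) (s t : ℝ) :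
    0 ≤ A * s ^ 2 + B * (s * t) + C * t ^ 2 := by
  have h4 : (B * (s * t)) ^ 2 ≤ (A * s ^ 2 + C * t ^ 2) ^ 2 := by
    have h5 : B ^ 2 * (s * t) ^ 2 ≤ 4 * A * C * (s * t) ^ 2 :=
      mul_le_mul_of_nonneg_right h (sq_nonneg _)
    nlinarith [sq_nonneg (A * s ^ 2 - C * t ^ 2)]
  linarith [(abs_le_of_sq_le_sq' h4 (by positivity)).1]

theorem pf_pos {A C : ℝ} (h : 0 ≤ A + C) (h' : 0 ≤ A * C) : 0 ≤ A ∧ 0 ≤ C := by
  constructor <;> by_contra h1 <;> nlinarith [not_le.1 h1]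

theorem pf_cross {u0 u1 u2 v0 v1 v2 n0 n1 n2 : ℝ} (hu : u0 ^ 2 + u1 ^ 2 + u2 ^ 2 = 1)
    (hv : v0 ^ 2 + v1 ^ 2 + v2 ^ 2 = 1) (huv : u0 * v0 + u1 * v1 + u2 * v2 = 0)
    (h0 : n0 = u1 * v2 - u2 * v1) (h1 : n1 = u2 * v0 - u0 * v2) (h2 : n2 = u0 * v1 - u1 * v0) :
    u0 ^ 2 + v0 ^ 2 = 1 - n0 ^ 2 ∧ u1 ^ 2 + v1 ^ 2 = 1 - n1 ^ 2 ∧ u2 ^ 2 + v2 ^ 2 = 1 - n2 ^ 2 ∧
      u0 * u1 + v0 * v1 = -(n0 * n1) ∧ u0 * u2 + v0 * v2 = -(n0 * n2) ∧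
      u1 * u2 + v1 * v2 = -(n1 * n2) := by
  subst h0 h1 h2
  refine ⟨?_, ?_, ?_, ?_, ?_, ?_⟩
  · linear_combination (v1 ^ 2 + v2 ^ 2) * hu + (1 - u0 ^ 2) * hv -
      (u1 * v1 + u2 * v2 - u0 * v0) * huv
  · linear_combination (v0 ^ 2 + v2 ^ 2) * hu + (1 - u1 ^ 2) * hv -
      (u0 * v0 + u2 * v2 - u1 * v1) * huv
  · linear_combination (v0 ^ 2 + v1 ^ 2) * hu + (1 - u2 ^ 2) * hv -
      (u0 * v0 + u1 * v1 - u2 * v2) * huv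
  · linear_combination (-(v0 * v1)) * hu - (u0 * u1) * hv + (u0 * v1 + u1 * v0) * huv
  · linear_combination (-(v0 * v2)) * hu - (u0 * u2) * hv + (u0 * v2 + u2 * v0) * huv
  · linear_combination (-(v1 * v2)) * hu - (u1 * u2) * hv + (u1 * v2 + u2 * v1) * huv

theorem pf_alg {a ap bz K w x0 x1 u0 u1 u2 v0 v1 v2 : ℝ} (hu : u0 ^ 2 + u1 ^ 2 + u2 ^ 2 = 1)
    (hv : v0 ^ 2 + v1 ^ 2 + v2 ^ 2 = 1) (huv : u0 * v0 + u1 * v1 + u2 * v2 = 0)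
    (hE : 0 ≤ a + bz - w + 2 * ((x0 ^ 2 + x1 ^ 2) * ap))
    (hT : 0 ≤ 2 * (a + (x0 ^ 2 + x1 ^ 2) * ap) - w + (a + bz - w))
    (hD : 0 ≤ 4 * (2 * (a + (x0 ^ 2 + x1 ^ 2) * ap) - w) * (a + bz - w) -
      (x0 ^ 2 + x1 ^ 2) * (K * K)) :
    w ≤ (a * (u0 ^ 2 + u1 ^ 2) + 2 * ap * (x0 * u0 + x1 * u1) ^ 2 + K * ((x0 * u0 + x1 * u1) * u2) +
        bz * u2 ^ 2) +
      (a * (v0 ^ 2 + v1 ^ 2) + 2 * ap * (x0 * v0 + x1 * v1) ^ 2 + K * ((x0 * v0 + x1 * v1) * v2) +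
        bz * v2 ^ 2) := by
  obtain ⟨n0, h0⟩ : ∃ n0, n0 = u1 * v2 - u2 * v1 := ⟨_, rfl⟩
  obtain ⟨n1, h1⟩ : ∃ n1, n1 = u2 * v0 - u0 * v2 := ⟨_, rfl⟩
  obtain ⟨n2, h2⟩ : ∃ n2, n2 = u0 * v1 - u1 * v0 := ⟨_, rfl⟩
  obtain ⟨e00, e11, e22, e01, e02, e12⟩ := pf_cross hu hv huv h0 h1 h2
  have en : n0 ^ 2 + n1 ^ 2 + n2 ^ 2 = 1 := by linarith only [hu, hv, e00, e11, e22]
  clear h0 h1 h2
  obtain ⟨p, hp⟩ : ∃ p, p = x0 ^ 2 + x1 ^ 2 := ⟨_, rfl⟩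
  obtain ⟨t, ht⟩ : ∃ t, t = x0 * n0 + x1 * n1 := ⟨_, rfl⟩
  rw [← hp] at hE hT hD
  have hp0 : 0 ≤ p := by rw [hp]; positivity
  obtain ⟨A, hA⟩ : ∃ A, A = 2 * (a + p * ap) - w := ⟨_, rfl⟩
  obtain ⟨C, hC⟩ : ∃ C, C = a + bz - w := ⟨_, rfl⟩
  rw [← hA, ← hC] at hT hD
  rw [← hC] at hE
  obtain ⟨hA0, hC0⟩ := pf_pos hT (by linarith only [hD, mul_nonneg hp0 (mul_self_nonneg K)])
  have key : (a * (u0 ^ 2 + u1 ^ 2) + 2 * ap * (x0 * u0 + x1 * u1) ^ 2 +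
        K * ((x0 * u0 + x1 * u1) * u2) + bz * u2 ^ 2) +
      (a * (v0 ^ 2 + v1 ^ 2) + 2 * ap * (x0 * v0 + x1 * v1) ^ 2 + K * ((x0 * v0 + x1 * v1) * v2) +
        bz * v2 ^ 2) - w =
      (C + 2 * (p * ap)) * (n0 ^ 2 + n1 ^ 2) + A * n2 ^ 2 - 2 * ap * t ^ 2 - K * (t * n2) := by
    rw [hA, hC, hp, ht]
    linear_combination (a + 2 * ap * x0 ^ 2) * e00 + (a + 2 * ap * x1 ^ 2) * e11 + bz * e22 +
      4 * ap * x0 * x1 * e01 + K * x0 * e02 + K * x1 * e12 -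
      (2 * a + bz - w + 2 * (x0 ^ 2 + x1 ^ 2) * ap) * en
  rw [← sub_nonneg, key]
  rcases hp0.eq_or_lt with h | h
  · have h3 : x0 = 0 := pow_eq_zero_iff two_ne_zero |>.1
      (le_antisymm (by linarith only [hp, h, sq_nonneg x1]) (sq_nonneg _))
    have h4 : x1 = 0 := pow_eq_zero_iff two_ne_zero |>.1
      (le_antisymm (by linarith only [hp, h, sq_nonneg x0]) (sq_nonneg _))
    have h5 : t = 0 := by rw [ht, h3, h4]; ring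
    rw [h5]
    refine (add_nonneg (mul_nonneg hE (add_nonneg (sq_nonneg n0) (sq_nonneg n1)))
      (mul_nonneg hA0 (sq_nonneg n2))).trans_eq ?_
    ring
  · refine nonneg_of_mul_nonneg_right ?_ h
    have f := pf_form (A := C) (B := -(K * p)) (C := A * p) hC0 (mul_nonneg hA0 hp0)
      (by linarith only [mul_nonneg hD hp0]) t n2
    have g := mul_nonneg hE (sq_nonneg (x0 * n1 - x1 * n0))
    have e : p * (n0 ^ 2 + n1 ^ 2) = t ^ 2 + (x0 * n1 - x1 * n0) ^ 2 := by rw [hp, ht]; ring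
    refine (add_nonneg f g).trans_eq ?_
    linear_combination (-(C + 2 * (p * ap))) * e

theorem pfl_div (a b : List (List ℤ)) (x : E3) {w a0 aJ az bp bz : ℝ}
    (h0 : a0 = ev2 a (rho x) (x 2)) (h1 : aJ = ev2 (wJ 0 a) (rho x) (x 2))
    (h2 : az = ev2 (dQ a) (rho x) (x 2)) (h3 : bp = ev2 (dU b) (rho x) (x 2))
    (h4 : bz = ev2 (dQ b) (rho x) (x 2)) (hE : 0 ≤ a0 + bz - w + 2 * aJ)
    (hT : 0 ≤ 2 * (a0 + aJ) - w + (a0 + bz - w))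
    (hD : 0 ≤ 4 * (2 * (a0 + aJ) - w) * (a0 + bz - w) - rho x * ((az + 2 * bp) * (az + 2 * bp)))
    {u v : E3} (hu : ‖u‖ = 1) (hv : ‖v‖ = 1) (huv : ⟪u, v⟫_ℝ = 0) :
    w ≤ ⟪fderiv ℝ (pfl a b) x u, u⟫_ℝ + ⟪fderiv ℝ (pfl a b) x v, v⟫_ℝ := by
  rw [pf_wJ] at h1
  rw [pfl_quad, pfl_quad, ← h0, ← h2, ← h3, ← h4]
  rw [pf_inner] at huv
  subst h1
  exact pf_alg (pf_norm hu) (pf_norm hv) huv hE hT hD

end Pool.Agent.Lib.MP_14b623_gt
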