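import Pool.Agent.Lib.MP_14b623_gt.ADefs
import Pool.Agent.Lib.MP_14b623_gt.PField

/-! From the matrix inequality to the sign of `dd`. -/

namespace Pool.Agent.Lib.MP_14b623_gt

open Real
open scoped InnerProductSpace

theorem af_tanh (z : ℝ) : HasDerivAt tanh (1 - tanh z ^ 2) z := by
  rw [funext tanh_eq_sinh_div_cosh]
  have h := (cosh_pos z).ne'
  refine ((hasDerivAt_sinh z).div (hasDerivAt_cosh z) h).congr_deriv ?_
  field_simp

theorem af_cd : ContDiff ℝ 1 tanh := by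
  rw [funext tanh_eq_sinh_div_cosh]
  exact contDiff_sinh.div contDiff_cosh fun z => (cosh_pos z).ne'

theorem af_vec (f g h : E3 → ℝ) : (fun x => (!₂[f x, g x, h x] : E3)) = fun x =>
    f x • EuclideanSpace.single 0 1 + g x • EuclideanSpace.single 1 1 +
      h x • EuclideanSpace.single 2 1 := by
  funext x
  ext i
  fin_cases i <;> simp

theorem af_inner {f g h : E3 → ℝ} {f' g' h' : E3 →L[ℝ] ℝ} {x : E3} (hf : HasFDerivAt f f' x)
    (hg : HasFDerivAt g g' x) (hh : HasFDerivAt h h' x) (u v : E3) :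
    ⟪fderiv ℝ (fun x => (!₂[f x, g x, h x] : E3)) x u, v⟫_ℝ =
      f' u * v 0 + g' u * v 1 + h' u * v 2 := by
  rw [af_vec, (((hf.smul_const _).fun_add (hg.smul_const _)).fun_add (hh.smul_const _)).fderiv]
  simp [pf_inner]

theorem af_cd3 {f g h : E3 → ℝ} {x : E3} (hf : ContDiffAt ℝ 1 f x) (hg : ContDiffAt ℝ 1 g x)
    (hh : ContDiffAt ℝ 1 h x) : ContDiffAt ℝ 1 (fun x => (!₂[f x, g x, h x] : E3)) x := by
  rw [af_vec]
  exact ((hf.smul contDiffAt_const).add (hg.smul contDiffAt_const)).add (hh.smul contDiffAt_const)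

theorem af_cdF {s : ℤ} (hs : 0 < s) (L : List (List ℤ)) {p z : E3 → ℝ} {x : E3}
    (hp : ContDiffAt ℝ 1 p x) (hz : ContDiffAt ℝ 1 z x) (h : 0 < p x) :
    ContDiffAt ℝ 1 (fun y => aF s L (p y) (z y)) x := by
  have hT := (af_cd.contDiffAt.comp x hz).pow 2
  have hw := hp.mul (contDiffAt_const (c := (1 : ℝ)).sub hT)
  have h1 := sub_pos.2 (tanh_sq_lt_one (z x))
  exact (gField_cd2 L (hw.sub contDiffAt_const) hT).div (contDiffAt_const.mul (hw.pow 2))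
    (by positivity)

theorem AD.contDiffAt (D : AD) (hs : 0 < D.s) {R : ℝ} (hR : 0 < R) {x : E3} (hx : 0 < rho x) :
    ContDiffAt ℝ 1 (D.ζ R) x ∧ ContDiffAt ℝ 1 (D.α R) x := by
  have c : ∀ i, ContDiffAt ℝ 1 (fun y : E3 => y i) x := fun i => (pf_coord i).contDiffAt
  have hp : ContDiffAt ℝ 1 (fun y => R ^ 2 * rho y) x :=
    contDiffAt_const.mul (((c 0).pow 2).add ((c 1).pow 2))
  have hz : ContDiffAt ℝ 1 (fun y : E3 => R * y 2) x := contDiffAt_const.mul (c 2)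
  have h : 0 < R ^ 2 * rho x := by positivity
  have ht := af_cd.contDiffAt.comp x hz
  have hA := (contDiffAt_const (c := (1 : ℝ))).add (af_cdF hs D.a hp hz h)
  have hψ := (ht.add (hz.div hp h.ne')).add (ht.mul (af_cdF hs D.c hp hz h))
  exact ⟨af_cd3 (hA.mul (c 0)) (hA.mul (c 1))
    ((hz.add (ht.mul (af_cdF hs D.b hp hz h))).div_const R),
    af_cd3 (hψ.mul (c 1)).neg (hψ.mul (c 0)) contDiffAt_const⟩

theorem af_out (L : List (List ℤ)) : dU L = dOut L := by cases L <;> rfl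

theorem af_in (L : List (List ℤ)) : dQ L = dIn L :=
  List.map_congr_left fun r _ => by cases r <;> rfl

theorem af_F {s : ℤ} (hs : 0 < s) (L : List (List ℤ)) {p z : E3 → ℝ} {P Z : E3 →L[ℝ] ℝ} {x : E3}
    (hp : HasFDerivAt p P x) (hz : HasFDerivAt z Z x) (h : 0 < p x) {t T q : ℝ}
    (ht : t = tanh (z x)) (hT : T = t ^ 2) (hq : q = p x * (1 - T) - 1) :
    HasFDerivAt (fun y => aF s L (p y) (z y))
      (((yD .x .y L).r T q / (s * (1 + q) ^ 2 * p x)) • P +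
        (2 * t * (yZ .x .y L).r T q / (s * (1 + q) ^ 2)) • Z) x := by
  have h1 := sub_pos.2 (tanh_sq_lt_one (z x))
  have dT := ((af_tanh (z x)).comp_hasFDerivAt x hz).pow 2
  have dw := hp.mul (dT.const_sub 1)
  have hs' : (0 : ℝ) < s := by exact_mod_cast hs
  have dv := (hasDerivAt_inv (x := s * (p x * (1 - tanh (z x) ^ 2)) ^ 2)
    (by positivity)).comp_hasFDerivAt x ((dw.pow 2).const_mul (s : ℝ))
  have d := (pf_ev2 L (dw.sub_const 1) dT).mul dv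
  refine (d.congr_fderiv ?_).congr_of_eventuallyEq (.of_forall fun y => div_eq_mul_inv _ _)
  subst hq hT ht
  ext v
  simp [yZ, yD, yS, yW, Ex.sub, Ex.r, af_out, af_in]
  field_simp
  ring

theorem af_psd {p00 p01 p11 p02 p12 p22 t T : ℝ} (hT : T = t ^ 2) (h0 : 0 < p00)
    (hM : 0 < p00 * p11 - T * (p01 * p01))
    (hG : 0 ≤ 4 * p00 * (p11 * p22 - T * (p12 * p12)) +
      4 * T * p01 * (p12 * p02 - p01 * p22) - p11 * (p02 * p02)) (y m : ℝ) :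
    0 ≤ p00 * y ^ 2 - 2 * t * p01 * y * m + p11 * m ^ 2 - p02 * y + 2 * t * p12 * m + p22 := by
  subst hT
  refine nonneg_of_mul_nonneg_right ?_ (mul_pos h0 hM)
  have e := add_nonneg (add_nonneg
    (mul_nonneg hM.le (sq_nonneg (2 * p00 * y - 2 * t * p01 * m - p02))) (sq_nonneg
      (2 * (p00 * p11 - t ^ 2 * (p01 * p01)) * m + t * (2 * p12 * p00 - p01 * p02)))) (mul_nonneg h0.le hG)
  linarith

theorem af_dd {A B ψ : E3 → ℝ} {R Ar Az Br Bz ψr ψz : ℝ} (hR : R ≠ 0) {P Z : E3 →L[ℝ] ℝ}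
    {x u v : E3} (hP : ∀ v, P v = 2 * R ^ 2 * (x 0 * v 0 + x 1 * v 1)) (hZ : ∀ v, Z v = R * v 2)
    (dA : HasFDerivAt A (Ar • P + Az • Z) x) (dB : HasFDerivAt B (Br • P + Bz • Z) x)
    (dψ : HasFDerivAt ψ (ψr • P + ψz • Z) x) (huv : ON u v) :
    ∃ a m : ℝ, a ^ 2 ≤ R ^ 2 * rho x * (1 - m ^ 2) ∧
      dd (fun y => !₂[A y * y 0, A y * y 1, B y / R]) (fun y => !₂[-(ψ y * y 1), ψ y * y 0, 0])
        x u v = A x * (1 + m ^ 2) + 2 * Ar * (R ^ 2 * rho x - a ^ 2) - (Az + 2 * Br) * a * m +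
          Bz * (1 - m ^ 2) - ψz * a + 2 * (ψ x + R ^ 2 * rho x * ψr) * m := by
  have d : ∀ i : Fin 3, HasFDerivAt (fun y : E3 => y i) (EuclideanSpace.proj (𝕜 := ℝ) i) x :=
    fun i => (EuclideanSpace.proj (𝕜 := ℝ) i).hasFDerivAt
  have hu := pf_norm huv.1
  have hv := pf_norm huv.2.1
  have h3 := huv.2.2
  rw [pf_inner] at h3
  obtain ⟨n0, h0⟩ : ∃ n0, n0 = u 1 * v 2 - u 2 * v 1 := ⟨_, rfl⟩
  obtain ⟨n1, h1⟩ : ∃ n1, n1 = u 2 * v 0 - u 0 * v 2 := ⟨_, rfl⟩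
  obtain ⟨m, h2⟩ : ∃ m, m = u 0 * v 1 - u 1 * v 0 := ⟨_, rfl⟩
  obtain ⟨e00, e11, e22, e01, e02, e12⟩ := pf_cross hu hv h3 h0 h1 h2
  have en : 1 - m ^ 2 = n0 ^ 2 + n1 ^ 2 := by linarith only [hu, hv, e00, e11, e22]
  refine ⟨R * (x 0 * n0 + x 1 * n1), m, ?_, ?_⟩
  · rw [en, rho]
    linarith [mul_nonneg (sq_nonneg R) (sq_nonneg (x 0 * n1 - x 1 * n0))]
  · simp only [dd, div_eq_mul_inv, af_inner (dA.fun_mul (d 0)) (dA.fun_mul (d 1)) (dB.mul_const _),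
      af_inner (dψ.fun_mul (d 1)).fun_neg (dψ.fun_mul (d 0)) (hasFDerivAt_const (0 : ℝ) x)]
    simp [hP, hZ, rho]
    field_simp
    linear_combination (A x + 2 * Ar * R ^ 2 * x 0 ^ 2) * e00 +
      (A x + 2 * Ar * R ^ 2 * x 1 ^ 2) * e11 + Bz * e22 + 4 * Ar * R ^ 2 * x 0 * x 1 * e01 +
      (Az + 2 * Br) * R * (x 0 * e02 + x 1 * e12) + A x * en + ψz * R * (x 0 * h0 + x 1 * h1) -
      2 * (ψ x + R ^ 2 * (x 0 ^ 2 + x 1 ^ 2) * ψr) * h2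

/-- With `n = u × v`, `m = n₂`, `a = R (x₀ n₀ + x₁ n₁) = w y`, `θ = 1 - m² - a² / ρ ≥ 0`:
`s w² dd = yK θ + y00 y² - 2 t y01 y m + y11 m² - y02 y + 2 t y12 m + y22`. -/
theorem AD.dd_nonneg (D : AD) (hs : 0 < D.s) {R : ℝ} (hR : 0 < R) {x u v : E3} (hx : 0 < rho x)
    (huv : ON u v) (h : D.LMI (tanh (R * x 2) ^ 2)
      (R ^ 2 * rho x * (1 - tanh (R * x 2) ^ 2) - 1)) : 0 ≤ dd (D.ζ R) (D.α R) x u v := by
  have d : ∀ i : Fin 3, HasFDerivAt (fun y : E3 => y i) (EuclideanSpace.proj (𝕜 := ℝ) i) x :=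
    fun i => (EuclideanSpace.proj (𝕜 := ℝ) i).hasFDerivAt
  obtain ⟨P, dp, hP⟩ : ∃ P : E3 →L[ℝ] ℝ, HasFDerivAt (fun y => R ^ 2 * rho y) P x ∧
      ∀ v, P v = 2 * R ^ 2 * (x 0 * v 0 + x 1 * v 1) :=
    ⟨_, (((d 0).pow 2).add ((d 1).pow 2)).const_mul _, fun v => by simp; ring⟩
  obtain ⟨Z, dz, hZ⟩ : ∃ Z : E3 →L[ℝ] ℝ, HasFDerivAt (fun y : E3 => R * y 2) Z x ∧
      ∀ v, Z v = R * v 2 := ⟨_, (d 2).const_mul _, fun v => by simp⟩
  have hp : 0 < R ^ 2 * rho x := by positivity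
  have dt := (af_tanh (R * x 2)).comp_hasFDerivAt x dz
  have di := (hasDerivAt_inv hp.ne').comp_hasFDerivAt x dp
  have h1 := sub_pos.2 (tanh_sq_lt_one (R * x 2))
  obtain ⟨t, ht⟩ : ∃ t, t = tanh (R * x 2) := ⟨_, rfl⟩
  obtain ⟨T, hT⟩ : ∃ T, T = t ^ 2 := ⟨_, rfl⟩
  obtain ⟨q, hq⟩ : ∃ q, q = R ^ 2 * rho x * (1 - T) - 1 := ⟨_, rfl⟩
  have f := fun L => af_F hs L dp dz hp ht hT hq
  obtain ⟨S, hS⟩ : ∃ S : ℝ, S = D.s * (1 + q) ^ 2 := ⟨_, rfl⟩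
  obtain ⟨ρ, hρ⟩ : ∃ ρ, ρ = R ^ 2 * rho x := ⟨_, rfl⟩
  have g : ∀ L, aF D.s L ρ (R * x 2) = ev2 L q T / S := fun L => by
    rw [aF, hρ, ← ht, ← hT, ← hq, hS, hq, add_sub_cancel]
  rw [← ht, ← hT] at h1
  rw [← ht, ← hT, ← hq] at h
  simp only [← hS, ← hρ] at f
  obtain ⟨a, m, k, e⟩ := af_dd (A := fun y => D.A (R ^ 2 * rho y) (R * y 2))
    (B := fun y => D.B (R ^ 2 * rho y) (R * y 2)) (ψ := fun y => D.ψ (R ^ 2 * rho y) (R * y 2))
    (Br := t * (yD .x .y D.b).r T q / (S * ρ)) (Bz := 1 + (yO .x .y D.b).r T q / S)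
    (ψr := t * (yD .x .y D.c).r T q / (S * ρ) - R * x 2 / ρ ^ 2)
    (ψz := 1 - T + 1 / ρ + (yO .x .y D.c).r T q / S) hR.ne' hP hZ ((f D.a).const_add 1)
    ((dz.add (dt.mul (f D.b))).congr_fderiv (by
      simp only [Function.comp, g, ← ht, ← hρ, yO, yS, Ex.sub, Ex.r, hT]
      match_scalars <;> ring))
    (((dt.add (dz.mul di)).add (dt.mul (f D.c))).congr_fderiv (by
      simp only [Function.comp, g, ← ht, ← hρ, yO, yS, Ex.sub, Ex.r, hT]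
      match_scalars <;> ring)) huv
  refine le_of_le_of_eq ?_ e.symm
  obtain ⟨k0, k1, k2, k3⟩ := h
  have hs' : (0 : ℝ) < D.s := by exact_mod_cast hs
  rw [← hρ] at hp hq k
  have hw : 0 < 1 + q := by rw [hq, add_sub_cancel]; positivity
  obtain ⟨y, rfl⟩ : ∃ y, a = (1 + q) * y := ⟨a / (1 + q), by field_simp⟩
  have hθ : 0 ≤ 1 - m ^ 2 - (1 + q) * (1 - T) * y ^ 2 := by
    refine nonneg_of_mul_nonneg_right ?_ hp
    rw [hq] at k ⊢
    linarith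
  simp only [yM, yG, Ex.sub, Ex.r, ← sub_eq_add_neg, Int.cast_ofNat] at k2 k3
  have p := af_psd hT k1 k2 k3 y m
  refine nonneg_of_mul_nonneg_right ((add_nonneg (mul_nonneg k0 hθ) p).trans_eq ?_)
    (show 0 < S by rw [hS]; positivity)
  simp only [AD.A, AD.ψ, g, ← ht, ← hρ, y00, y01, y11, y02, y12, y22, yK, y1, yW, yS, Ex.sub, Ex.r]
  obtain rfl : ρ = (1 + q) / (1 - T) := by rw [hq]; field_simp; ring
  subst hS
  push_cast
  field_simp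
  ring

end Pool.Agent.Lib.MP_14b623_gt
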