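import Pool.Agent.Lib.MP_14b623_gt.AEx

/-! Kernel checks for the matrix inequality. -/

namespace Pool.Agent.Lib.MP_14b623_gt

set_option maxRecDepth 100000

theorem akP : job 21 0 219 64 66
    [aDer 1]
    (.h (.l 0) (.l 0)) = true := by
  decide +kernel

theorem akN : job 21 0 219 64 66
    [aDer (-1)]
    (.h (.h (.h (.h (.h (.l 0) (.l 0)) (.l 0)) (.h (.l 0) (.l 0))) (.h (.l 0) (.l 0))) (.h (.h (.l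
    0) (.l 0)) (.h (.h (.l 0) (.l 0)) (.h (.l 0) (.h (.h (.l 0) (.l 0)) (.l 0)))))) = true := by
  decide +kernel

theorem akS : job 41 0 490 117 165
    [aSq]
    (.h (.l 0) (.h (.l 0) (.h (.l 0) (.h (.l 0) (.l 0))))) = true := by
  decide +kernel

theorem akUK : job 17 6 180 57 49
    [yK D0 .x aU, aOut aU]
    (.v (.v (.h (.l 0) (.h (.v (.v (.h (.l 0) (.v (.h (.v (.l 0) (.h (.l 0) (.h (.l 0) (.v (.h (.l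
    0) (.v (.h (.l 0) (.l 1)) (.l 1))) (.h (.h (.v (.l 0) (.v (.l 0) (.l 1))) (.l 1)) (.l 1))))))
    (.v (.h (.h (.h (.v (.l 0) (.v (.h (.l 0) (.l 1)) (.l 1))) (.l 1)) (.l 1)) (.l 1)) (.l 1)))
    (.h (.v (.h (.l 0) (.h (.v (.v (.l 0) (.h (.l 0) (.h (.l 0) (.l 1)))) (.h (.v (.l 0) (.h (.l
    0) (.l 1))) (.l 1))) (.l 1))) (.h (.h (.l 0) (.h (.l 0) (.v (.v (.l 0) (.v (.l 0) (.h (.l 0)
    (.l 1)))) (.v (.v (.h (.l 0) (.l 1)) (.l 1)) (.l 1))))) (.l 1))) (.l 1)))) (.h (.h (.l 0) (.h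
    (.l 0) (.v (.v (.l 0) (.v (.l 0) (.h (.l 0) (.v (.l 0) (.h (.l 0) (.h (.l 0) (.l 1))))))) (.v
    (.h (.l 0) (.v (.v (.h (.l 0) (.v (.h (.l 0) (.l 1)) (.l 1))) (.h (.h (.l 0) (.v (.l 0) (.l
    1))) (.l 1))) (.h (.v (.h (.l 0) (.l 1)) (.l 1)) (.l 1)))) (.h (.v (.h (.l 0) (.h (.v (.l 0)
    (.h (.l 0) (.l 1))) (.l 1))) (.h (.v (.h (.l 0) (.v (.l 0) (.l 1))) (.h (.h (.l 0) (.l 1)) (.l
    1))) (.l 1))) (.l 1)))))) (.v (.h (.h (.v (.v (.h (.l 0) (.v (.h (.h (.l 0) (.l 1)) (.l 1))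
    (.l 1))) (.h (.h (.l 0) (.h (.v (.l 0) (.v (.l 0) (.l 1))) (.l 1))) (.l 1))) (.v (.h (.h (.h
    (.l 0) (.v (.v (.l 0) (.l 1)) (.l 1))) (.l 1)) (.l 1)) (.l 1))) (.l 1)) (.l 1)) (.l 1)))) (.h
    (.v (.h (.v (.l 0) (.h (.l 0) (.v (.l 0) (.h (.l 0) (.h (.v (.l 0) (.h (.l 0) (.l 1))) (.v (.h
    (.v (.l 0) (.l 1)) (.l 1)) (.l 1))))))) (.h (.v (.v (.h (.l 0) (.v (.h (.l 0) (.v (.l 0) (.h
    (.l 0) (.l 1)))) (.h (.v (.l 0) (.h (.l 0) (.v (.l 0) (.l 1)))) (.v (.h (.v (.l 0) (.l 1)) (.l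
    1)) (.l 1))))) (.h (.v (.l 0) (.h (.l 0) (.h (.v (.l 0) (.v (.l 0) (.l 1))) (.l 1)))) (.v (.h
    (.v (.h (.l 0) (.l 1)) (.l 1)) (.l 1)) (.l 1)))) (.v (.h (.v (.h (.v (.l 0) (.h (.l 0) (.l
    1))) (.l 1)) (.l 1)) (.l 1)) (.l 1))) (.l 1))) (.h (.h (.l 0) (.v (.v (.h (.h (.l 0) (.v (.l
    0) (.l 1))) (.l 1)) (.l 1)) (.l 1))) (.l 1))) (.l 1))) (.l 1))) (.h (.v (.h (.l 0) (.l 0)) (.h
    (.l 0) (.l 0))) (.l 1))) (.h (.l 0) (.l 1))) = true := by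
  decide +kernel

theorem akUA : job 17 7 186 62 49
    [(y00 D0 .x aU).sub (.c 1), aOut aU]
    (.h (.v (.v (.l 0) (.h (.l 0) (.v (.h (.l 0) (.h (.v (.l 0) (.v (.l 0) (.v (.l 0) (.v (.l 0)
    (.h (.l 0) (.l 1)))))) (.v (.v (.l 0) (.h (.l 0) (.v (.l 0) (.l 1)))) (.v (.v (.h (.l 0) (.l
    1)) (.l 1)) (.l 1))))) (.h (.v (.l 0) (.h (.l 0) (.h (.v (.l 0) (.h (.h (.l 0) (.v (.l 0) (.l
    1))) (.h (.v (.l 0) (.l 1)) (.l 1)))) (.h (.v (.v (.l 0) (.l 1)) (.l 1)) (.l 1))))) (.v (.h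
    (.h (.v (.v (.l 0) (.h (.l 0) (.l 1))) (.v (.h (.l 0) (.l 1)) (.l 1))) (.l 1)) (.l 1)) (.l
    1)))))) (.h (.h (.v (.l 0) (.h (.v (.l 0) (.v (.v (.l 0) (.h (.l 0) (.l 1))) (.l 1))) (.v (.v
    (.v (.l 0) (.h (.l 0) (.h (.v (.l 0) (.l 1)) (.l 1)))) (.v (.h (.h (.l 0) (.v (.l 0) (.l 1)))
    (.l 1)) (.l 1))) (.l 1)))) (.v (.v (.v (.l 0) (.v (.l 0) (.h (.l 0) (.h (.l 0) (.h (.l 0) (.h
    (.v (.l 0) (.l 1)) (.l 1))))))) (.h (.v (.l 0) (.h (.v (.l 0) (.v (.l 0) (.h (.l 0) (.l 1))))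
    (.h (.v (.h (.l 0) (.v (.l 0) (.l 1))) (.l 1)) (.l 1)))) (.h (.v (.v (.v (.l 0) (.h (.l 0) (.v
    (.l 0) (.l 1)))) (.v (.h (.l 0) (.l 1)) (.l 1))) (.l 1)) (.l 1)))) (.h (.h (.h (.h (.h (.h (.v
    (.v (.v (.l 0) (.l 1)) (.l 1)) (.l 1)) (.l 1)) (.l 1)) (.l 1)) (.l 1)) (.l 1)) (.l 1)))) (.h
    (.h (.v (.v (.v (.h (.v (.l 0) (.v (.l 0) (.v (.l 0) (.v (.l 0) (.h (.l 0) (.l 1)))))) (.v (.h
    (.l 0) (.v (.l 0) (.l 1))) (.v (.v (.h (.v (.l 0) (.l 1)) (.l 1)) (.l 1)) (.l 1)))) (.v (.v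
    (.h (.h (.l 0) (.l 1)) (.l 1)) (.l 1)) (.l 1))) (.l 1)) (.l 1)) (.l 1)) (.l 1)))) (.h (.v (.v
    (.h (.v (.v (.l 0) (.v (.l 0) (.v (.l 0) (.v (.l 0) (.h (.l 0) (.h (.l 0) (.h (.l 0) (.l
    1)))))))) (.h (.v (.l 0) (.h (.l 0) (.v (.l 0) (.l 1)))) (.h (.v (.v (.l 0) (.v (.l 0) (.l
    1))) (.l 1)) (.l 1)))) (.v (.h (.v (.h (.l 0) (.v (.v (.l 0) (.v (.l 0) (.h (.l 0) (.h (.l 0)
    (.l 1))))) (.v (.h (.v (.l 0) (.h (.l 0) (.l 1))) (.l 1)) (.l 1)))) (.v (.h (.h (.l 0) (.h (.v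
    (.l 0) (.l 1)) (.l 1))) (.l 1)) (.l 1))) (.h (.h (.h (.v (.v (.v (.v (.l 0) (.v (.l 0) (.l
    1))) (.l 1)) (.l 1)) (.l 1)) (.l 1)) (.l 1)) (.l 1))) (.l 1))) (.l 1)) (.l 1)) (.l 1))) = true
    := by
  decide +kernel

theorem akLK : job 17 6 172 49 49
    [yK D0 .x aL, aOut aL, aTube aL]
    (.v (.h (.l 0) (.v (.h (.h (.l 0) (.h (.l 0) (.v (.v (.h (.v (.h (.v (.h (.l 0) (.h (.l 0) (.l
    1))) (.l 0)) (.l 1)) (.h (.l 0) (.h (.v (.h (.l 0) (.l 1)) (.l 0)) (.l 1)))) (.l 1)) (.h (.v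
    (.h (.l 0) (.v (.h (.l 0) (.h (.l 0) (.l 1))) (.l 0))) (.l 0)) (.v (.l 1) (.h (.v (.l 1) (.h
    (.l 0) (.l 1))) (.l 1))))) (.h (.l 0) (.v (.v (.h (.h (.l 0) (.v (.l 1) (.h (.l 0) (.l 1))))
    (.l 1)) (.h (.l 0) (.v (.l 1) (.h (.v (.l 1) (.l 0)) (.l 1))))) (.v (.h (.l 0) (.h (.l 0) (.l
    1))) (.l 0))))))) (.l 1)) (.h (.l 0) (.h (.h (.v (.h (.v (.h (.h (.l 0) (.v (.l 1) (.v (.v (.l
    1) (.l 0)) (.l 0)))) (.l 1)) (.h (.l 0) (.v (.h (.v (.v (.l 1) (.l 0)) (.l 0)) (.l 1)) (.v (.v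
    (.h (.l 0) (.l 1)) (.l 0)) (.l 0))))) (.l 1)) (.h (.l 0) (.v (.h (.v (.v (.l 1) (.h (.l 0) (.l
    1))) (.l 0)) (.l 1)) (.v (.h (.l 0) (.h (.l 0) (.l 1))) (.l 0))))) (.l 1)) (.l 1))))) (.v (.h
    (.l 0) (.v (.h (.l 0) (.h (.v (.h (.l 0) (.h (.h (.l 0) (.l 1)) (.l 1))) (.l 0)) (.l 1))) (.l
    0))) (.h (.v (.l 0) (.v (.l 0) (.l 0))) (.v (.l 0) (.v (.l 0) (.h (.l 0) (.v (.l 0) (.v (.l 0)
    (.h (.l 0) (.h (.l 0) (.h (.h (.l 0) (.l 1)) (.l 1)))))))))))) = true := by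
  decide +kernel

theorem akLA : job 17 7 176 52 49
    [(y00 D0 .x aL).sub (.c 1), aOut aL, aTube aL]
    (.h (.v (.l 0) (.v (.l 0) (.v (.l 0) (.v (.l 0) (.v (.l 0) (.v (.v (.l 0) (.h (.l 2) (.h (.l
    2) (.l 0)))) (.l 2))))))) (.v (.h (.v (.h (.l 0) (.h (.l 0) (.v (.v (.h (.h (.l 0) (.v (.l 1)
    (.h (.l 0) (.l 1)))) (.l 1)) (.h (.l 0) (.v (.l 1) (.v (.l 1) (.h (.h (.l 0) (.l 1)) (.l
    1)))))) (.v (.h (.l 0) (.h (.l 0) (.v (.l 1) (.h (.l 0) (.l 1))))) (.l 0))))) (.l 0)) (.v (.l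
    1) (.h (.h (.v (.h (.v (.h (.l 0) (.l 1)) (.l 0)) (.l 1)) (.v (.v (.h (.l 0) (.h (.l 0) (.l
    1))) (.l 0)) (.l 0))) (.l 1)) (.l 1)))) (.v (.h (.l 0) (.h (.v (.v (.h (.l 0) (.h (.l 0) (.l
    1))) (.l 0)) (.l 0)) (.l 1))) (.v (.h (.l 0) (.h (.l 0) (.h (.l 0) (.l 1)))) (.v (.h (.l 0)
    (.h (.l 0) (.h (.l 0) (.l 1)))) (.h (.v (.l 0) (.v (.l 0) (.v (.v (.l 0) (.h (.l 2) (.v (.l 0)
    (.v (.l 0) (.l 2))))) (.l 2)))) (.h (.v (.l 0) (.v (.l 0) (.v (.v (.l 0) (.h (.v (.l 0) (.v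
    (.l 0) (.h (.v (.l 0) (.l 2)) (.l 0)))) (.l 0))) (.v (.v (.h (.v (.h (.l 2) (.v (.l 0) (.v (.l
    0) (.l 2)))) (.l 2)) (.l 0)) (.h (.l 2) (.h (.l 2) (.l 0)))) (.l 2))))) (.v (.h (.l 0) (.l 1))
    (.h (.v (.l 0) (.v (.l 0) (.v (.l 0) (.v (.l 0) (.l 2))))) (.h (.v (.l 0) (.v (.l 0) (.v (.l
    0) (.h (.v (.v (.l 0) (.v (.l 0) (.v (.l 0) (.v (.l 0) (.h (.l 0) (.h (.l 0) (.l 1))))))) (.v
    (.v (.v (.h (.l 2) (.h (.v (.v (.l 0) (.l 2)) (.l 2)) (.l 1))) (.l 2)) (.l 2)) (.l 2))) (.l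
    1))))) (.l 1))))))))))) = true := by
  decide +kernel

end Pool.Agent.Lib.MP_14b623_gt
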