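import Pool.Agent.Lib.MP_14b623_gt.ASplit

/-! Kernel checks for the matrix inequality. -/

namespace Pool.Agent.Lib.MP_14b623_gt

set_option maxRecDepth 100000

theorem akLG4 :
    jobAt 17 20 324 [yG D0 .x aL, aOut aL, aTube aL] [.vr, .hr, .hl, .vl, .hr, .vr, .hr] (.v (.h
    (.v (.h (.l 0) (.v (.h (.l 0) (.h (.l 0) (.v (.l 1) (.v (.l 1) (.l 0))))) (.l 0))) (.l 0)) (.h
    (.v (.v (.l 1) (.h (.v (.l 1) (.h (.v (.l 1) (.l 0)) (.l 1))) (.l 1))) (.v (.h (.v (.h (.l 0)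
    (.l 1)) (.l 0)) (.l 1)) (.h (.l 0) (.v (.l 1) (.h (.l 0) (.l 1)))))) (.l 1))) (.h (.l 0) (.v
    (.h (.v (.h (.l 0) (.v (.h (.l 0) (.l 1)) (.l 0))) (.l 0)) (.v (.l 1) (.h (.v (.l 1) (.h (.l
    0) (.l 1))) (.l 1)))) (.h (.l 0) (.v (.h (.v (.h (.l 0) (.l 1)) (.l 0)) (.l 1)) (.h (.l 0) (.v
    (.l 1) (.h (.l 0) (.l 1))))))))) = true ∧
    jobAt 17 20 324 [yG D0 .x aL, aOut aL, aTube aL] [.hr, .vl, .hr, .vr, .hr] (.l 1) = true ∧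
    jobAt 17 20 324 [yG D0 .x aL, aOut aL, aTube aL] [.vl, .hl, .vr, .hr, .vr, .hr] (.h (.l 0) (.v
    (.h (.l 0) (.v (.h (.l 0) (.v (.h (.l 0) (.v (.h (.l 0) (.v (.l 1) (.l 0))) (.l 0))) (.l 0)))
    (.l 0))) (.l 0))) = true ∧
    jobAt 17 20 324 [yG D0 .x aL, aOut aL, aTube aL] [.vl, .vr, .hl, .vr, .hr, .vr, .hr] (.l 0) =
    true ∧
    jobAt 17 20 324 [yG D0 .x aL, aOut aL, aTube aL] [.vl, .vr, .vr, .hl, .vr, .hr, .vr, .hr] (.l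
    0) = true ∧
    jobAt 17 20 324 [yG D0 .x aL, aOut aL, aTube aL] [.vl, .vr, .vr, .vr, .hl, .vr, .hr, .vr, .hr]
    (.l 0) = true ∧
    jobAt 17 20 324 [yG D0 .x aL, aOut aL, aTube aL] [.vl, .vr, .vr, .vr, .vr, .hl, .vr, .hr, .vr,
    .hr] (.v (.l 0) (.v (.l 0) (.h (.h (.v (.v (.l 0) (.h (.v (.h (.v (.l 0) (.l 2)) (.l 0)) (.h
    (.l 2) (.v (.l 0) (.l 2)))) (.l 0))) (.h (.l 2) (.v (.v (.l 0) (.h (.l 2) (.l 0))) (.l 2))))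
    (.v (.l 0) (.v (.l 0) (.h (.v (.l 0) (.h (.v (.l 0) (.l 2)) (.l 0))) (.l 0))))) (.l 0)))) =
    true := by
  decide +kernel

end Pool.Agent.Lib.MP_14b623_gt
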