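import Pool.Agent.Lib.MP_14b623_gt.ASplit

/-! Kernel checks for the matrix inequality. -/

namespace Pool.Agent.Lib.MP_14b623_gt

set_option maxRecDepth 100000

theorem akLG6 :
    jobAt 17 20 324 [yG D0 .x aL, aOut aL, aTube aL] [.vr, .hl, .vr, .hr, .vr, .hr, .vr, .hr] (.v
    (.h (.l 0) (.h (.l 0) (.v (.v (.h (.v (.h (.l 0) (.h (.l 0) (.l 1))) (.l 0)) (.l 1)) (.h (.l
    0) (.v (.l 1) (.h (.h (.l 0) (.l 1)) (.l 1))))) (.h (.l 0) (.v (.v (.h (.v (.h (.l 0) (.l 1))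
    (.l 0)) (.l 1)) (.h (.l 0) (.v (.l 1) (.h (.l 0) (.l 1))))) (.v (.h (.l 0) (.h (.l 0) (.l 1)))
    (.l 0))))))) (.v (.l 0) (.v (.l 0) (.v (.h (.v (.l 0) (.v (.l 0) (.h (.v (.h (.v (.l 0) (.h
    (.v (.l 0) (.l 2)) (.l 0))) (.l 0)) (.h (.l 2) (.v (.l 0) (.l 2)))) (.l 0)))) (.l 0)) (.v (.h
    (.v (.h (.l 2) (.v (.h (.v (.h (.l 2) (.l 0)) (.l 2)) (.l 0)) (.l 2))) (.l 2)) (.v (.l 0) (.h
    (.l 2) (.h (.v (.h (.v (.l 0) (.l 2)) (.l 0)) (.l 2)) (.l 0))))) (.l 2)))))) = true ∧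
    jobAt 17 20 324 [yG D0 .x aL, aOut aL, aTube aL] [.hr, .vr, .hr, .vr, .hr, .vr, .hr] (.v (.l
    1) (.v (.l 1) (.h (.h (.v (.h (.v (.h (.v (.v (.l 1) (.l 0)) (.l 0)) (.l 1)) (.l 0)) (.l 1))
    (.v (.l 0) (.v (.l 0) (.v (.h (.l 0) (.h (.l 0) (.l 1))) (.h (.l 2) (.v (.v (.h (.h (.l 2) (.v
    (.h (.l 2) (.h (.l 2) (.l 1))) (.l 2))) (.l 1)) (.l 2)) (.l 2))))))) (.l 1)) (.l 1)))) = true := by
  decide +kernel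

end Pool.Agent.Lib.MP_14b623_gt
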