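import Pool.Agent.Lib.MP_14b623_gt.ASplit

/-! Kernel checks for the matrix inequality. -/

namespace Pool.Agent.Lib.MP_14b623_gt

set_option maxRecDepth 100000

theorem akLM1 :
    jobAt 17 14 236 [(yM D0 .x aL).sub (.c 1), aOut aL, aTube aL] [.vl, .hr, .hr] (.h (.v (.l 1)
    (.h (.v (.h (.v (.h (.v (.h (.v (.h (.v (.h (.l 0) (.l 1)) (.l 0)) (.l 1)) (.h (.l 0) (.v (.v
    (.l 1) (.h (.l 0) (.l 1))) (.v (.h (.l 0) (.l 1)) (.l 0))))) (.l 1)) (.h (.l 0) (.v (.v (.l 1)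
    (.h (.h (.l 0) (.l 1)) (.l 1))) (.h (.l 0) (.v (.l 1) (.h (.l 0) (.l 1))))))) (.l 1)) (.h (.l
    0) (.v (.h (.v (.v (.l 1) (.h (.h (.l 0) (.l 1)) (.l 1))) (.h (.l 0) (.v (.l 1) (.v (.l 1) (.l
    0))))) (.l 1)) (.h (.l 0) (.h (.v (.v (.l 1) (.v (.l 1) (.l 0))) (.l 0)) (.l 1)))))) (.l 1))
    (.h (.l 0) (.v (.h (.v (.v (.l 1) (.h (.h (.l 0) (.l 1)) (.l 1))) (.h (.l 0) (.v (.l 1) (.h
    (.l 0) (.l 1))))) (.l 1)) (.h (.l 0) (.v (.v (.l 1) (.h (.h (.l 0) (.l 1)) (.l 1))) (.h (.l 0)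
    (.v (.l 1) (.v (.l 1) (.l 0))))))))) (.l 1))) (.l 1)) = true ∧
    jobAt 17 14 236 [(yM D0 .x aL).sub (.c 1), aOut aL, aTube aL] [.vr, .hr, .hr] (.v (.h (.h (.l
    0) (.v (.h (.v (.h (.v (.v (.l 1) (.h (.l 0) (.l 1))) (.v (.h (.l 0) (.l 1)) (.l 0))) (.l 1))
    (.h (.l 0) (.v (.v (.l 1) (.h (.l 0) (.l 1))) (.v (.h (.l 0) (.l 1)) (.l 0))))) (.l 1)) (.h
    (.l 0) (.v (.h (.v (.h (.l 0) (.l 1)) (.l 0)) (.l 1)) (.v (.h (.l 0) (.h (.l 0) (.l 1))) (.l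
    0)))))) (.l 1)) (.h (.v (.l 0) (.v (.l 0) (.v (.l 0) (.v (.l 0) (.v (.v (.l 0) (.h (.v (.l 0)
    (.h (.v (.h (.v (.l 0) (.h (.v (.h (.l 2) (.l 0)) (.l 2)) (.v (.l 0) (.h (.l 2) (.l 0))))) (.l
    0)) (.h (.l 2) (.v (.h (.v (.l 0) (.l 2)) (.l 0)) (.l 2)))) (.l 0))) (.l 0))) (.v (.h (.h (.l
    2) (.v (.v (.h (.v (.h (.l 2) (.l 0)) (.l 2)) (.l 0)) (.l 2)) (.l 2))) (.v (.l 0) (.h (.l 2)
    (.l 0)))) (.l 2))))))) (.v (.h (.h (.v (.h (.v (.h (.l 0) (.l 1)) (.l 0)) (.l 1)) (.v (.h (.l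
    0) (.h (.l 0) (.l 1))) (.l 0))) (.l 1)) (.l 1)) (.h (.v (.h (.l 0) (.v (.h (.h (.l 0) (.v (.l
    1) (.h (.l 0) (.l 1)))) (.l 1)) (.h (.l 0) (.v (.l 1) (.h (.h (.l 0) (.l 1)) (.l 1)))))) (.v
    (.h (.l 0) (.h (.l 0) (.h (.l 0) (.v (.v (.l 1) (.v (.l 1) (.h (.h (.l 0) (.l 1)) (.l 1))))
    (.h (.l 0) (.v (.v (.l 1) (.v (.l 1) (.h (.l 0) (.l 1)))) (.v (.h (.l 0) (.l 1)) (.l 0))))))))
    (.v (.l 0) (.v (.l 0) (.v (.l 0) (.v (.h (.v (.v (.l 0) (.l 2)) (.l 2)) (.v (.l 0) (.h (.l 2)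
    (.l 0)))) (.l 2))))))) (.v (.l 1) (.v (.l 1) (.h (.h (.v (.h (.v (.h (.v (.v (.l 1) (.l 0))
    (.l 0)) (.l 1)) (.l 0)) (.l 1)) (.v (.l 0) (.v (.l 0) (.v (.v (.l 0) (.v (.l 0) (.h (.l 0) (.h
    (.l 0) (.l 1))))) (.v (.v (.h (.l 2) (.v (.h (.v (.h (.l 2) (.v (.v (.l 0) (.l 2)) (.l 2)))
    (.l 2)) (.l 1)) (.l 2))) (.l 2)) (.l 2)))))) (.l 1)) (.l 1)))))))) = true := by
  decide +kernel

end Pool.Agent.Lib.MP_14b623_gt
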