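import Pool.Agent.Lib.MP_14b623_gt.ASplit

/-! Kernel checks for the matrix inequality. -/

namespace Pool.Agent.Lib.MP_14b623_gt

set_option maxRecDepth 100000

theorem akUG0 :
    jobPre 17 20 349 186 62 [yG D0 .x aU, aOut aU] = true ∧
    jobAt 17 20 349 [yG D0 .x aU, aOut aU] [.vl, .hl] (.v (.h (.l 0) (.l 0)) (.h (.h (.l 0) (.l
    0)) (.v (.h (.l 0) (.v (.h (.l 0) (.h (.l 0) (.v (.v (.l 0) (.h (.l 0) (.l 1))) (.v (.h (.l 0)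
    (.l 1)) (.l 1))))) (.h (.v (.l 0) (.h (.l 0) (.v (.l 0) (.h (.l 0) (.l 1))))) (.v (.h (.v (.h
    (.l 0) (.l 1)) (.l 1)) (.l 1)) (.l 1))))) (.h (.h (.l 0) (.v (.l 0) (.h (.v (.l 0) (.h (.v (.l
    0) (.h (.l 0) (.l 1))) (.v (.h (.l 0) (.l 1)) (.l 1)))) (.v (.h (.v (.l 0) (.l 1)) (.l 1)) (.l
    1))))) (.v (.h (.h (.v (.v (.l 0) (.h (.l 0) (.l 1))) (.v (.h (.v (.l 0) (.l 1)) (.l 1)) (.l
    1))) (.l 1)) (.l 1)) (.l 1)))))) = true ∧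
    jobAt 17 20 349 [yG D0 .x aU, aOut aU] [.hl, .hl, .vr, .hl] (.v (.l 0) (.h (.h (.v (.l 0) (.v
    (.h (.l 0) (.h (.v (.l 0) (.h (.l 0) (.l 1))) (.v (.v (.l 0) (.h (.v (.l 0) (.l 1)) (.l 1)))
    (.l 1)))) (.l 1))) (.v (.v (.l 0) (.v (.l 0) (.v (.l 0) (.v (.l 0) (.h (.h (.l 0) (.h (.l 0)
    (.v (.l 0) (.l 1)))) (.l 1)))))) (.v (.h (.v (.h (.v (.h (.v (.l 0) (.h (.v (.l 0) (.l 1)) (.l
    1))) (.v (.h (.v (.l 0) (.v (.l 0) (.l 1))) (.v (.v (.l 0) (.l 1)) (.l 1))) (.l 1))) (.l 1))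
    (.l 1)) (.l 1)) (.l 1)) (.l 1)))) (.v (.v (.h (.l 0) (.v (.h (.l 0) (.v (.v (.l 0) (.h (.l 0)
    (.h (.l 0) (.l 1)))) (.h (.v (.l 0) (.v (.h (.l 0) (.l 1)) (.l 1))) (.l 1)))) (.v (.h (.h (.l
    0) (.v (.v (.l 0) (.l 1)) (.l 1))) (.l 1)) (.l 1)))) (.v (.h (.h (.l 0) (.v (.h (.l 0) (.l 1))
    (.l 1))) (.l 1)) (.l 1))) (.l 1)))) = true ∧
    jobAt 17 20 349 [yG D0 .x aU, aOut aU] [.vl, .vl, .hr, .hl, .vr, .hl] (.h (.l 0) (.v (.l 0)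
    (.h (.l 0) (.v (.h (.l 0) (.v (.l 0) (.h (.l 0) (.v (.l 0) (.h (.l 0) (.l 1)))))) (.h (.v (.v
    (.l 0) (.h (.l 0) (.v (.l 0) (.h (.l 0) (.l 1))))) (.v (.h (.l 0) (.v (.h (.v (.l 0) (.l 1))
    (.l 1)) (.l 1))) (.h (.h (.v (.l 0) (.v (.h (.l 0) (.l 1)) (.l 1))) (.l 1)) (.l 1)))) (.v (.h
    (.v (.v (.l 0) (.h (.l 0) (.l 1))) (.l 1)) (.l 1)) (.l 1))))))) = true := by
  decide +kernel

end Pool.Agent.Lib.MP_14b623_gt
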