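import Pool.Agent.Lib.MP_14b623_gt.ASplit

/-! Kernel checks for the matrix inequality. -/

namespace Pool.Agent.Lib.MP_14b623_gt

set_option maxRecDepth 100000

theorem akUG2 :
    jobAt 17 20 349 [yG D0 .x aU, aOut aU] [.hl, .vl, .hl, .vl, .vl, .hr] (.h (.l 0) (.v (.l 0)
    (.h (.l 0) (.v (.l 0) (.h (.v (.l 0) (.h (.v (.l 0) (.h (.l 0) (.v (.l 0) (.l 1)))) (.v (.h
    (.v (.l 0) (.h (.l 0) (.l 1))) (.l 1)) (.l 1)))) (.v (.h (.v (.l 0) (.h (.v (.l 0) (.l 1)) (.l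
    1))) (.v (.h (.v (.l 0) (.l 1)) (.l 1)) (.l 1))) (.l 1))))))) = true ∧
    jobAt 17 20 349 [yG D0 .x aU, aOut aU] [.hr, .vl, .hl, .vl, .vl, .hr] (.v (.v (.h (.h (.l 0)
    (.h (.l 0) (.v (.v (.l 0) (.h (.l 0) (.h (.l 0) (.v (.l 0) (.h (.l 0) (.l 1)))))) (.v (.h (.l
    0) (.v (.h (.h (.l 0) (.v (.l 0) (.l 1))) (.l 1)) (.l 1))) (.h (.h (.v (.l 0) (.h (.l 0) (.l
    1))) (.l 1)) (.l 1)))))) (.v (.h (.h (.h (.v (.h (.l 0) (.v (.v (.l 0) (.h (.l 0) (.l 1))) (.v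
    (.h (.l 0) (.l 1)) (.l 1)))) (.v (.h (.h (.v (.l 0) (.l 1)) (.l 1)) (.l 1)) (.l 1))) (.l 1))
    (.l 1)) (.l 0)) (.l 1))) (.h (.h (.h (.l 0) (.v (.l 0) (.h (.l 0) (.v (.l 0) (.h (.l 0) (.l
    1)))))) (.v (.h (.v (.h (.l 0) (.h (.l 0) (.v (.h (.l 0) (.l 1)) (.l 1)))) (.h (.h (.l 0) (.v
    (.l 0) (.l 1))) (.l 1))) (.l 1)) (.l 1))) (.l 0))) (.h (.v (.h (.v (.h (.h (.l 0) (.v (.l 0)
    (.h (.l 0) (.l 1)))) (.v (.h (.h (.l 0) (.l 1)) (.l 1)) (.l 1))) (.h (.h (.v (.h (.l 0) (.v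
    (.l 0) (.l 1))) (.l 1)) (.l 1)) (.l 1))) (.l 0)) (.l 1)) (.l 0))) = true ∧
    jobAt 17 20 349 [yG D0 .x aU, aOut aU] [.vr, .hl, .vl, .vl, .hr] (.h (.h (.v (.h (.l 0) (.v
    (.l 0) (.h (.l 0) (.v (.v (.l 0) (.h (.l 0) (.v (.l 0) (.h (.l 0) (.l 1))))) (.h (.v (.l 0)
    (.h (.l 0) (.l 1))) (.h (.v (.v (.l 0) (.l 1)) (.l 1)) (.l 1))))))) (.h (.v (.l 0) (.h (.l 0)
    (.v (.h (.l 0) (.l 1)) (.l 1)))) (.v (.h (.v (.h (.l 0) (.v (.h (.l 0) (.l 1)) (.l 1))) (.l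
    1)) (.l 1)) (.l 1)))) (.v (.h (.v (.h (.v (.l 0) (.h (.l 0) (.v (.l 0) (.h (.v (.l 0) (.h (.l
    0) (.l 1))) (.l 1))))) (.v (.h (.v (.l 0) (.h (.l 0) (.v (.l 0) (.h (.l 0) (.l 1))))) (.v (.h
    (.l 0) (.v (.l 0) (.l 1))) (.h (.v (.h (.l 0) (.l 1)) (.l 1)) (.l 1)))) (.h (.v (.h (.v (.l 0)
    (.l 1)) (.l 1)) (.l 1)) (.l 1)))) (.h (.v (.h (.v (.h (.l 0) (.v (.l 0) (.l 1))) (.l 1)) (.l
    1)) (.l 1)) (.l 1))) (.l 1)) (.l 1))) (.l 0)) = true ∧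
    jobAt 17 20 349 [yG D0 .x aU, aOut aU] [.hr, .vl, .vl, .hr] (.l 1) = true ∧
    jobAt 17 20 349 [yG D0 .x aU, aOut aU] [.vr, .vl, .hr] (.l 1) = true ∧
    jobAt 17 20 349 [yG D0 .x aU, aOut aU] [.vr, .hr] (.l 1) = true := by
  decide +kernel

end Pool.Agent.Lib.MP_14b623_gt
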