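import Pool.Agent.Lib.MP_14b623_gt.GCert
import Pool.Agent.Lib.MP_14b623_gt.AField
import Pool.Agent.Lib.MP_14b623_gt.ARun1
import Pool.Agent.Lib.MP_14b623_gt.ARun2
import Pool.Agent.Lib.MP_14b623_gt.ARun3
import Pool.Agent.Lib.MP_14b623_gt.ARun4
import Pool.Agent.Lib.MP_14b623_gt.ARun5
import Pool.Agent.Lib.MP_14b623_gt.ARun6
import Pool.Agent.Lib.MP_14b623_gt.ARun7
import Pool.Agent.Lib.MP_14b623_gt.ARun8
import Pool.Agent.Lib.MP_14b623_gt.ARun9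
import Pool.Agent.Lib.MP_14b623_gt.ARun10
import Pool.Agent.Lib.MP_14b623_gt.ARun11
import Pool.Agent.Lib.MP_14b623_gt.ARun12
import Pool.Agent.Lib.MP_14b623_gt.ARun13
import Pool.Agent.Lib.MP_14b623_gt.ARun14

/-! The matrix inequality holds in the ball outside the tube. -/

namespace Pool.Agent.Lib.MP_14b623_gt

open Real

theorem cov_akUM : Cov [(yM D0 .x aU).sub (.c 1), aOut aU] :=
  cov_of_job (job_of akUM0.1 akUM0.2)

theorem cov_akLM : Cov [(yM D0 .x aL).sub (.c 1), aOut aL, aTube aL] :=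
  cov_of_job (job_of akLM0.1 (jobAt_h akLM0.2.1 (jobAt_h (jobAt_v akLM0.2.2.1 akLM0.2.2.2)
  (jobAt_v akLM1.1 akLM1.2))))

theorem cov_akUG : Cov [yG D0 .x aU, aOut aU] :=
  cov_of_job (job_of akUG0.1 (jobAt_h (jobAt_v akUG0.2.1 (jobAt_h (jobAt_h akUG0.2.2.1 (jobAt_v
  (jobAt_v akUG0.2.2.2 (jobAt_h akUG1.1 akUG1.2.1)) akUG1.2.2.1)) akUG1.2.2.2)) (jobAt_v (jobAt_v
  (jobAt_h (jobAt_v (jobAt_h akUG2.1 akUG2.2.1) akUG2.2.2.1) akUG2.2.2.2.1) akUG2.2.2.2.2.1)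
  akUG2.2.2.2.2.2)))

theorem cov_akLG : Cov [yG D0 .x aL, aOut aL, aTube aL] :=
  cov_of_job (job_of akLG0.1 (jobAt_h akLG0.2.1 (jobAt_v (jobAt_h (jobAt_v (jobAt_h akLG0.2.2.1
  (jobAt_h akLG0.2.2.2.1 (jobAt_v (jobAt_v akLG0.2.2.2.2.1 akLG0.2.2.2.2.2.1) (jobAt_h
  akLG0.2.2.2.2.2.2 (jobAt_h akLG1.1 akLG1.2.1))))) akLG1.2.2.1) (jobAt_v akLG1.2.2.2 (jobAt_h
  (jobAt_h (jobAt_v akLG2.1 akLG2.2.1) akLG2.2.2.1) akLG2.2.2.2))) (jobAt_h akLG3.1 (jobAt_v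
  (jobAt_h (jobAt_h akLG3.2.1 (jobAt_v akLG3.2.2 akLG4.1)) akLG4.2.1) (jobAt_h (jobAt_v
  akLG4.2.2.1 (jobAt_v akLG4.2.2.2.1 (jobAt_v akLG4.2.2.2.2.1 (jobAt_v akLG4.2.2.2.2.2.1 (jobAt_v
  akLG4.2.2.2.2.2.2 akLG5.1))))) (jobAt_v akLG5.2.1 (jobAt_h (jobAt_v akLG5.2.2 akLG6.1)
  akLG6.2))))))))

theorem al_mono {σ : ℤ} (h : Cov [aDer σ]) :
    Monotone fun z : ℝ => 16777216 * z + σ * (tanh z * ev1 zP (tanh z ^ 2)) := by
  refine monotone_of_hasDerivAt_nonneg (f' := fun z => (aDer σ).r (tanh z ^ 2) 0) (fun z => ?_)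
    fun z => h.head (sq_nonneg _) (tanh_sq_lt_one z).le le_rfl zero_le_one (by simp)
  have d := (pf_ev1 zP ((af_tanh z).fun_pow 2).hasFDerivAt).hasDerivAt
  refine (((hasDerivAt_id' z).const_mul _).fun_add
    (((af_tanh z).fun_mul d).const_mul _)).congr_deriv ?_
  rw [show wt1 1 zP.tail = d1 zP from rfl]
  simp [aDer, yS, xH, Ex.sub, Ex.r, ev2_single, -mul_eq_mul_left_iff, -add_right_inj]
  ring

theorem al_sq (z : ℝ) : ev1 zZ (tanh z ^ 2) ≤ 262144 * z ^ 2 := by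
  have k := (cov_of_job akS).head (sq_nonneg (tanh z)) (tanh_sq_lt_one z).le le_rfl zero_le_one
    (by simp)
  simp only [aSq, xH, Ex.sub, Ex.r, ev2_single] at k
  have p := al_mono (cov_of_job akP)
  have n := al_mono (cov_of_job akN)
  have e : 0 ≤ (16777216 * z + tanh z * ev1 zP (tanh z ^ 2)) *
      (16777216 * z - tanh z * ev1 zP (tanh z ^ 2)) := by
    rcases le_total 0 z with h | h
    · exact mul_nonneg (by simpa using p h) (by simpa using n h)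
    · exact mul_nonneg_of_nonpos_of_nonpos (by simpa using p h) (by simpa using n h)
  push_cast at k
  linarith

theorem al_lmi {D : AD} {Q : Ex} {Es : List Ex} (hK : Cov (yK D .x Q :: Es))
    (hA : Cov ((y00 D .x Q).sub (.c 1) :: Es)) (hM : Cov ((yM D .x Q).sub (.c 1) :: Es))
    (hG : Cov (yG D .x Q :: Es)) {T y : ℝ} (h1 : 0 ≤ T) (h2 : T ≤ 1) (h3 : 0 ≤ y) (h4 : y ≤ 1)
    (hn : ∀ F ∈ Es, F.r T y < 0) : D.LMI T (Q.r T y) := by
  have a := hA.head h1 h2 h3 h4 hn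
  have m := hM.head h1 h2 h3 h4 hn
  simp only [Ex.sub, Ex.r, Int.cast_one] at a m
  exact ⟨hK.head h1 h2 h3 h4 hn, show 0 < (y00 D .x Q).r T y by linarith,
    show 0 < (yM D .x Q).r T y by linarith, hG.head h1 h2 h3 h4 hn⟩

theorem lmi_dom {R rho z : ℝ} (h0 : 47159 / 10000 ≤ R ^ 2) (h0' : R ^ 2 ≤ 4716 / 1000)
    (h1 : (9 / 100) ^ 2 * R ^ 2 ≤ rho) (h2 : rho + z ^ 2 ≤ R ^ 2) :
    D0.LMI (tanh z ^ 2) (rho * (1 - tanh z ^ 2) - 1) := by
  have k := al_sq z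
  have t0 := sq_nonneg (tanh z)
  have t1 := sub_pos.2 (tanh_sq_lt_one z)
  generalize tanh z ^ 2 = T at k t0 t1
  have o : ∀ (Q : Ex) (y : ℝ), Q.r T y = rho * (1 - T) - 1 →
      (aOut Q).r T y < 0 ∧ (aTube Q).r T y < 0 := fun Q y e => by
    simp only [aOut, aTube, yW, yS, xH, Ex.sub, Ex.r, ev2_single, e]
    push_cast
    constructor
    · linarith [mul_pos (show 0 < 1236297 - ev1 zZ T - 262144 * rho by linarith) t1]
    · linarith [mul_pos (show 0 < 10000 * rho - 381 by linarith) t1]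
  rcases le_total 0 (rho * (1 - T) - 1) with h | h
  · have e : aU.r T ((rho * (1 - T) - 1) / 4) = rho * (1 - T) - 1 := by
      simp only [aU, Ex.r]
      push_cast
      ring
    refine e ▸ al_lmi (cov_of_job akUK) (cov_of_job akUA) cov_akUM cov_akUG t0
      (by linarith) (by linarith) ?_ fun F hF => ?_
    · linarith [mul_nonneg (show 0 ≤ rho by linarith) t0, sq_nonneg z]
    · exact List.mem_singleton.1 hF ▸ (o _ _ e).1
  · have e : aL.r T (-(rho * (1 - T) - 1)) = rho * (1 - T) - 1 := neg_neg _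
    refine e ▸ al_lmi (cov_of_job akLK) (cov_of_job akLA) cov_akLM cov_akLG t0
      (by linarith) (by linarith) ?_ fun F hF => ?_
    · linarith [mul_nonneg (show 0 ≤ rho by linarith) t1.le]
    · rcases List.mem_cons.1 hF with rfl | hF
      · exact (o _ _ e).1
      · exact List.mem_singleton.1 hF ▸ (o _ _ e).2

end Pool.Agent.Lib.MP_14b623_gt
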