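import Pool.Agent.Lib.MP_14b623_gt.AFin
import Pool.Agent.Lib.MP_14b623_gt.AField
import Pool.Agent.Lib.MP_14b623_gt.ALmi

/-! The certificate near the critical catenoid. -/

namespace Pool.Agent.Lib.MP_14b623_gt

open Real Set
open scoped InnerProductSpace

lemma acert_sq (x : E3) : ‖x‖ ^ 2 = rho x + x 2 ^ 2 := by
  rw [← real_inner_self_eq_norm_sq, tcat_inner, rho]
  ring

theorem axisCert : AxisCert := by
  intro τ t1 t2 t3
  obtain ⟨κ, k1, k2, hb⟩ := bd_main t1 t2 t3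
  have hτ : 1 < τ := by linarith
  have h4 : 0 < τ * τ - 1 := by nlinarith only [hτ]
  have hm := mul_inv_cancel₀ h4.ne'
  obtain ⟨R, R0, hR⟩ : ∃ R : ℝ, 0 < R ∧ R ^ 2 = τ * τ * (1 + (τ * τ - 1)⁻¹) :=
    ⟨√_, sqrt_pos.2 (by positivity), sq_sqrt (by positivity)⟩
  obtain ⟨s1, s2⟩ := tau_sharp t1 t2 t3
  have q1 : τ * τ < 1.4392289 := by nlinarith only [s1, s2]
  have q2 : 1.4392288 < τ * τ := by nlinarith only [s1, s2]
  have m0 := inv_pos.2 h4
  have r1 : 47159 / 10000 ≤ R ^ 2 := by nlinarith only [hR, hm, mul_pos m0 (sub_pos.2 q1), q2]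
  have r2 : R ^ 2 ≤ 4716 / 1000 := by nlinarith only [hR, hm, mul_pos m0 (sub_pos.2 q2), q1]
  have r3 : R ≤ 2.17164 := by nlinarith only [r2, R0]
  have r4 : 2.1716 ≤ R := by nlinarith only [r1, R0]
  have hs : 0 < D0.s := by decide
  have e3 : 1 - τ⁻¹ * τ⁻¹ = (τ / R) ^ 2 := by
    have h5 : τ ^ 2 - 1 ≠ 0 := by rw [sq]; exact h4.ne'
    rw [div_pow, hR, ← sq τ, show 1 + (τ ^ 2 - 1)⁻¹ = τ ^ 2 / (τ ^ 2 - 1) by field_simp; ring]
    field_simp
  set P := 692 / 1024 * τ / R ^ 2 with hP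
  set K := κ * (256 / 195) with hK
  set G := 0.20651 * (256 / 195) ^ 2 * τ with hG
  have main : ∀ (x T : E3) (s y : ℝ), ‖x‖ = 1 → s ^ 2 = x 2 ^ 2 →
      s ∈ Icc (22 / 100 : ℝ) (9025 / 10000) → ‖T‖ = 1 → y ^ 2 = (rot x T / rho x) ^ 2 →
      D0.A (R ^ 2 * rho x) (R * s) * rho x + D0.B (R ^ 2 * rho x) (R * s) / R * s +
        (P / τ - rho x * D0.ψ (R ^ 2 * rho x) (R * s)) * y ≤
      (P * τ - K * τ + G * τ) / τ - (2 * G * R - K * R) / τ * s + G * R ^ 2 / τ ^ 2 * s ^ 2 := by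
    intro x T s y hx h1 h2 hT hy
    have x1 := acert_sq x
    have x2 := acert_sq T
    rw [hx, ← h1] at x1
    rw [hT] at x2
    have x3 : 0 < rho x := by nlinarith only [x1, h2.1, h2.2]
    have x4 : R ^ 2 - (R * s) ^ 2 = R ^ 2 * rho x := by linear_combination R ^ 2 * x1
    have x5 : rot x T ^ 2 ≤ rho x := by
      have : rho T ≤ 1 := by nlinarith only [x2, sq_nonneg (T 2)]
      have h5 : rot x T ^ 2 ≤ rho x * rho T := by
        unfold rot rho
        nlinarith only [sq_nonneg (x 0 * T 0 + x 1 * T 1)]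
      nlinarith only [this, h5, x3]
    have := afin_bd (z := R * s) (y := y / R) hτ R0 hR (abs_le.2
      ⟨by nlinarith only [h2.1, r4, t2], by nlinarith only [h2.2, r3, t1, R0]⟩) hb
      (by rw [x4]; positivity) (by
        rw [x4, div_pow, hy, div_pow]
        field_simp
        exact x5)
    rw [x4, afin_zero hτ t3, e3] at this
    refine le_of_mul_le_mul_left (a := τ) ((le_of_eq_of_le ?_ this).trans_eq ?_) (by linarith)
    · simp only [hP]
      field_simp
    · simp only [hP, hK, hG]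
      field_simp
      ring
  refine ⟨D0.ζ R, D0.α R, P / τ, (P * τ - K * τ + G * τ) / τ, (2 * G * R - K * R) / τ,
    G * R ^ 2 / τ ^ 2, fun x hx => D0.contDiffAt hs R0 hx, fun x h1 h2 u v huv => ?_,
    fun x T h1 h2 h3 => ?_, fun x T h1 h2 h3 => ?_, by positivity, by positivity,
    fun l₀ l₁ c hA h1 h2 h3 => afin_value t1 t2 hm hR R0 r3 hA h1 h2 h3 (by positivity)
      (by linarith) (by positivity) (by linarith)⟩
  · refine D0.dd_nonneg hs R0 (by linarith) huv (lmi_dom r1 r2 (by nlinarith only [h2, r1]) ?_)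
    have h5 := acert_sq x
    have h6 : ‖x‖ ^ 2 ≤ 1 := pow_le_one₀ (norm_nonneg x) h1
    nlinarith only [h5, h6, r1]
  · have x3 : 0 < rho x := by
      have x1 := acert_sq x
      rw [h1] at x1
      nlinarith only [x1, h2.1, h2.2]
    refine le_of_eq_of_le ?_ (main x T (x 2) (-(rot x T / rho x)) h1 rfl h2 h3 (neg_sq _))
    simp only [tcat_inner, AD.ζ, AD.α, Matrix.cons_val_zero, Matrix.cons_val_one, Matrix.cons_val]
    field_simp
    unfold rot rho
    ring
  · have x3 : 0 < rho x := by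
      have x1 := acert_sq x
      rw [h1] at x1
      nlinarith only [x1, h2.1, h2.2]
    refine (le_of_eq_of_le ?_ (main x T (-x 2) (rot x T / rho x) h1 (neg_sq _) h2 h3 rfl)).trans_eq
      (by ring)
    simp only [tcat_inner, AD.ζ, AD.α, Matrix.cons_val_zero, Matrix.cons_val_one, Matrix.cons_val,
      AD.A, AD.B, AD.ψ, mul_neg, afin_even, tanh_neg]
    field_simp
    unfold rot rho
    ring

end Pool.Agent.Lib.MP_14b623_gt
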