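import Pool.Agent.Lib.MP_14b623_gt.ADefs

/-! Coefficients of the certificate near the critical catenoid. -/

namespace Pool.Agent.Lib.MP_14b623_gt

/-- The certificate. -/
def D0 : AD where
  s := 1099511627776
  a := [[0, -1286932179896, 651226424936, -3068734829608, 2548016754774, 633666426546],
    [-199124179092, -2817255794921, 1981112606333, -6996704505982, 6423014210991, 1267332853092],
    [-236170427299, -984276327648, -1602014803411, 949759149936, 1964760812706, 633666426546],
    [-55684063199, 1496325198009, -8103661587956, 14061254672774, -7317980183297],
    [-55366601817, 513972766554, -4552106400282, 9715049784115, -6226005810766],
    [-17671405935, -473758906315, 1219024821916, -156490956606, -572476011476],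
    [17555484653, -36117680559, 605229549320, -697729566657, 249785285276]]
  b := [[-1286932179896, 651226424936, -3068734829608, 2548016754774, 633666426546],
    [-2164091833136, 294174232240, -8549250349667, 14560957455375, -2900885255352],
    [-74608227171, -3547861145471, -4794533302969, 27903201859681, -16696571453575],
    [596987776712, -2709674343163, -278368177010, 26692921325985, -26918545044550],
    [-581922234264, 2188717827510, -2932244574782, 12352797834129, -17807652067345],
    [-250226833402, 1279933123111, -1018992152089, -133909726229, -3777190850075],
    [125193296796, -421101058002, 933567776284, -1669045981603, 268645221589]]
  c := [[-1286932179896, 651226424936, -3068734829608, 2548016754774, 633666426546],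
    [-1719749922280, -1328069031961, -5002331348302, 13305127506869, -10081653335622, 4485051321717],
    [29797122050, -5120055083915, 3129038489770, 14706673102031, -21528785470511, 8970102643434],
    [81419091092, -285086704304, -2896656141484, 15991729706161, -19170296442449, 4485051321717],
    [-480744241509, 3152676604662, -10050486403086, 16799376759516, -12555337369399],
    [-52783342059, 32926752476, -730302301504, 3018591648400, -3843199031327],
    [55214422030, -295039634808, 1401673182524, -1760448898302, 358831660862]]
  k := [[-1041714448132, -972954376114, -4623573538302, 16626252573491, -19794429456246, 6118603723977],
    [-2105484951420, -2749062770179, -9693765366929, 45273930705670, -55433453865854, 12237207447950],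
    [-940113194765, 205495429176, -20434542566960, 66079574985365, -69397741960116, 6118603723975],
    [-237551859050, 6723227550934, -42010756141710, 85161502347629, -64300493198534],
    [-586800885911, 4388316432894, -26937953570430, 53109351792857, -34301207740209],
    [-22112751803, -1932064774664, 8890738935330, -8767971718472, 3896354005072],
    [203767809167, -1561593360493, 9118927034756, -14071763464830, 7625667377915]]

end Pool.Agent.Lib.MP_14b623_gt
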