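import Pool.Agent.Lib.MP_14b623_gt.GCDefs

/-! The expressions submitted to the checker. -/

namespace Pool.Agent.Lib.MP_14b623_gt

/-- Difference of expressions. -/
def Ex.sub (a b : Ex) : Ex := .add a (.neg b)

/-- `u = τ y`. -/
def xU : Ex := .mul .x .y

/-- `q = τ² y`. -/
def xQ : Ex := .mul .x (.mul .x .y)

/-- First inequality of `LMI`. -/
def xP (a : List (List ℤ)) : Ex := .add (.hor (wJ 0 a) xU xQ) (.hor (wK a) xU xQ)

/-- Second inequality of `LMI`. -/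
def xR (b : List (List ℤ)) : Ex := .neg (.hor (wJ 0 b) xU xQ)

/-- The mixed term. -/
def xK (a b : List (List ℤ)) : Ex :=
  (Ex.hor (wJ 0 a) xU xQ).sub (.mul (.mul (.c 2) xU) (xP b))

/-- Third inequality of `LMI`. -/
def xD (a b : List (List ℤ)) : Ex :=
  (Ex.mul (.mul (.mul (.c 8) xU) (xP a)) (xR b)).sub (.mul (xK a b) (xK a b))

/-- Fourth inequality of `LMI`. -/
def xE (a b : List (List ℤ)) : Ex :=
  .add (.mul xU ((((Ex.mul (.c 2) (.hor a xU xQ)).sub (.hor (wJ 0 a) xU xQ)).sub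
    (.mul (.c 2) (.hor (wK a) xU xQ))).sub (.mul (.mul (.c 2) xU) (xP b))))
    (.mul xQ (.hor (wJ 0 b) xU xQ))

/-- Negative on the ball of parameter `n₀ / 128`. -/
def xBall (n₀ : ℤ) : Ex :=
  (Ex.add (.c (2 * n₀)) (.mul (.c (256 - 2 * n₀)) xQ)).sub (.mul (.c 257) xU)

/-- `u = δ + (1 - δ) q`. -/
def xS (d q : Ex) : Ex := (Ex.add d q).sub (.mul d q)

/-- `1 - 2 δ`. -/
def xT (d : Ex) : Ex := (Ex.c 1).sub (.mul (.c 2) d)

/-- A polynomial in one variable. -/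
def xH (L : List ℤ) (d : Ex) : Ex := .hor [L] (.c 0) d

/-- Interpolation between two fields. -/
def xI (n₀ n₁ : ℤ) (a₀ a₁ : List (List ℤ)) (d q : Ex) : Ex :=
  .add (.mul ((Ex.c n₁).sub (.mul (.c 128) d)) (.hor a₀ (xS d q) q))
    (.mul ((Ex.mul (.c 128) d).sub (.c n₀)) (.hor a₁ (xS d q) q))

/-- `bdG` times the common denominator. -/
def xG (n₀ n₁ : ℤ) (a₀ b₀ a₁ b₁ : List (List ℤ)) (be : List ℤ) (d q : Ex) : Ex :=
  .add (.add (.mul (.c ((n₁ - n₀) * 1048576)) (.mul q d))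
    (.mul (xI n₀ n₁ a₀ a₁ d q) ((xS d q).sub (.mul (.c 2) d))))
    (.mul ((xI n₀ n₁ b₀ b₁ d q).sub (.mul (.c (n₁ - n₀)) (.mul (.mul d d) (xH be d))))
      (q.sub (.mul (.mul (.c 2) d) (xS d q))))

/-- `4 Ω`. -/
def xO (d q : Ex) : Ex := (Ex.mul (.mul (.c 4) (xT d)) ((Ex.c 1).sub q)).sub q

/-- The second boundary inequality times the common denominator. -/
def xG2 (n₀ n₁ : ℤ) (a₀ b₀ a₁ b₁ : List (List ℤ)) (be ah bh : List ℤ) (d q : Ex) : Ex :=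
  .add (.mul (.mul (.c 80) q) (xG n₀ n₁ a₀ b₀ a₁ b₁ be d q))
    (.mul (.c (n₁ - n₀)) (.add
      ((Ex.mul (.mul (.mul (.c 20) (.mul (xT d) (xT d))) (xH bh d)) (.mul (xO d q) q)).sub
        (.mul (.mul (.c 80) (.mul q q)) (xH ah d)))
      (.mul (.mul (.mul (.c 12) (.mul d d)) (xH bh d)) (.mul (xO d q) (xO d q)))))

/-- Negative for `n₀ / 128 < δ < n₁ / 128`. -/
def xRg (n₀ n₁ : ℤ) (d : Ex) : Ex :=
  .mul ((Ex.mul (.c 128) d).sub (.c n₀)) ((Ex.mul (.c 128) d).sub (.c n₁))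

/-- Negative on the sphere. -/
def xPh (d q : Ex) : Ex :=
  (Ex.mul (.c 256) ((Ex.mul d d).sub (.mul (.mul ((Ex.c 1).sub d) ((Ex.c 1).sub d)) q))).sub q

/-- The value inequality. -/
def xV (ah : List ℤ) (d : Ex) : Ex :=
  (Ex.mul (.mul (.c 10000000000) (.mul (xH ah d) (xH ah d)))
    ((Ex.mul (.c 4) (.mul (xT d) (xT d))).sub (.mul d d))).sub
    (.mul (.c (16 * 83356 ^ 2 * 1048576 ^ 2)) (.mul (.mul (xT d) (xT d)) (.mul (xT d) (xT d))))

end Pool.Agent.Lib.MP_14b623_gt
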