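import Pool.Agent.Lib.MP_14b623_gt.BDefs
import Pool.Agent.Lib.MP_14b623_gt.GEx

/-! The fields of the certificate near the critical catenoid. In scaled coordinates
`z = R x₂`, `ρ = R² rho x`, put `t = tanh z`, `T = t²`, `w = ρ (1 - T)`, `q = w - 1`; the catenoid is
`q = 0`. Coefficient tables have outer index for `q`, inner index for `T`. -/

namespace Pool.Agent.Lib.MP_14b623_gt

open Real
open scoped InnerProductSpace

/-- Derivative of a coefficient list. -/
def d1 : List ℤ → List ℤ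
  | [] => []
  | _ :: cs => wt1 1 cs

/-- Derivative in the inner variable. -/
def dIn (L : List (List ℤ)) : List (List ℤ) := L.map d1

/-- Derivative in the outer variable. -/
def dOut : List (List ℤ) → List (List ℤ)
  | [] => []
  | _ :: rs => wJ 1 rs

/-- The common denominator and the four tables. -/
structure AD where
  s : ℤ
  a : List (List ℤ)
  b : List (List ℤ)
  c : List (List ℤ)
  k : List (List ℤ)

/-- `L (T, q) / (s w²)` at the point `(ρ, z)`. -/
noncomputable def aF (s : ℤ) (L : List (List ℤ)) (ρ z : ℝ) : ℝ :=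
  ev2 L (ρ * (1 - tanh z ^ 2) - 1) (tanh z ^ 2) / (s * (ρ * (1 - tanh z ^ 2)) ^ 2)

/-- Horizontal coefficient. -/
noncomputable def AD.A (D : AD) (ρ z : ℝ) : ℝ := 1 + aF D.s D.a ρ z

/-- Vertical coefficient. -/
noncomputable def AD.B (D : AD) (ρ z : ℝ) : ℝ := z + tanh z * aF D.s D.b ρ z

/-- Rotational coefficient. -/
noncomputable def AD.ψ (D : AD) (ρ z : ℝ) : ℝ := tanh z + z / ρ + tanh z * aF D.s D.c ρ z

/-- The vector field. -/
noncomputable def AD.ζ (D : AD) (R : ℝ) (x : E3) : E3 :=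
  !₂[D.A (R ^ 2 * rho x) (R * x 2) * x 0, D.A (R ^ 2 * rho x) (R * x 2) * x 1,
    D.B (R ^ 2 * rho x) (R * x 2) / R]

/-- The one form. -/
noncomputable def AD.α (D : AD) (R : ℝ) (x : E3) : E3 :=
  !₂[-(D.ψ (R ^ 2 * rho x) (R * x 2) * x 1), D.ψ (R ^ 2 * rho x) (R * x 2) * x 0, 0]

section

variable (D : AD) (T q : Ex)

/-- `w = 1 + q`. -/
def yW : Ex := .add (.c 1) q

/-- `1 - T`. -/
def yS : Ex := (Ex.c 1).sub T

/-- `w f_q - 2 f`, the numerator of `w ∂_w`. -/
def yD (L : List (List ℤ)) : Ex :=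
  (Ex.mul (yW q) (.hor (dOut L) q T)).sub (.mul (.c 2) (.hor L q T))

/-- `(1 - T) f_T - (w f_q - 2 f)`, the numerator of `∂_z / (2 t)`. -/
def yZ (L : List (List ℤ)) : Ex := (Ex.mul (yS T) (.hor (dIn L) q T)).sub (yD T q L)

/-- `(1 - T) f + 2 T f^z`, the numerator of `∂_z (t f)`. -/
def yO (L : List (List ℤ)) : Ex :=
  .add (.mul (yS T) (.hor L q T)) (.mul (.mul (.c 2) T) (yZ T q L))

/-- `s w²`. -/
def y1 : Ex := .mul (.c D.s) (.mul (yW q) (yW q))

/-- `κ - A`. -/
def yK : Ex := (Ex.add (y1 D q) (.hor D.k q T)).sub (.hor D.a q T)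

/-- Entry `(0, 0)`. -/
def y00 : Ex := .mul (.mul (yW q) (yS T)) ((yK D T q).sub (.mul (.c 2) (yD T q D.a)))

/-- Entry `(0, 1)` is `- t` times this. -/
def y01 : Ex := .add (.mul (yW q) (yZ T q D.a)) (.mul (yS T) (yD T q D.b))

/-- Entry `(1, 1)`. -/
def y11 : Ex := (Ex.add (y1 D q) (.hor D.k q T)).sub (yO T q D.b)

/-- Entry `(0, 2)` is `- 1 / 2` times this. -/
def y02 : Ex :=
  .mul (yW q) (.add (.mul (.mul (yS T) (.add (yW q) (.c 1))) (.mul (.c D.s) (yW q))) (yO T q D.c))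

/-- Entry `(1, 2)` is `t` times this. -/
def y12 : Ex := .add (.add (y1 D q) (.hor D.c q T)) (yD T q D.c)

/-- Entry `(2, 2)`. -/
def y22 : Ex :=
  (Ex.add (.add (y1 D q) (.mul (.c 2) (.add (.hor D.a q T) (yD T q D.a)))) (yO T q D.b)).sub
    (.hor D.k q T)

/-- The second principal minor. -/
def yM : Ex := (Ex.mul (y00 D T q) (y11 D T q)).sub (.mul T (.mul (y01 D T q) (y01 D T q)))

/-- Four times the determinant. -/
def yG : Ex :=
  (Ex.add (.mul (.mul (.c 4) (y00 D T q))
      ((Ex.mul (y11 D T q) (y22 D T q)).sub (.mul T (.mul (y12 D T q) (y12 D T q)))))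
    (.mul (.mul (.mul (.c 4) T) (y01 D T q))
      ((Ex.mul (y12 D T q) (y02 D T q)).sub (.mul (y01 D T q) (y22 D T q))))).sub
    (.mul (y11 D T q) (.mul (y02 D T q) (y02 D T q)))

end

/-- The matrix inequality at the point `(T, q)`. -/
def AD.LMI (D : AD) (T q : ℝ) : Prop :=
  0 ≤ (yK D .x .y).r T q ∧ 0 < (y00 D .x .y).r T q ∧ 0 < (yM D .x .y).r T q ∧
    0 ≤ (yG D .x .y).r T q

/-- Second order expansion at `0` of total size at most `d`, on `[-1, 1]`. -/
def Nm (f : ℝ → ℝ) (d : ℝ) : Prop :=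
  ∃ c₀ c₁ e : ℝ, 0 ≤ e ∧ |c₀| + |c₁| + e ≤ d ∧ ∀ x : ℝ, |x| ≤ 1 → |f x - c₀ - c₁ * x| ≤ e * x ^ 2

/-- A polynomial with an error bound. -/
abbrev TM := List ℤ × ℕ

/-- `F` encloses `f`, at scale `S`. -/
def TM.Ok (S : ℕ) (F : TM) (f : ℝ → ℝ) : Prop := Nm (fun x => S * f x - ev1 F.1 x) F.2

/-- Sum of coefficient lists. -/
def lAdd : List ℤ → List ℤ → List ℤ
  | [], M => M
  | a :: L, [] => a :: L
  | a :: L, b :: M => (a + b) :: lAdd L M

/-- Product of coefficient lists. -/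
def lMul : List ℤ → List ℤ → List ℤ
  | [], _ => []
  | a :: L, M => lAdd (M.map (a * ·)) (0 :: lMul L M)

/-- Sum of absolute values. -/
def lN : List ℤ → ℕ
  | [] => 0
  | a :: L => a.natAbs + lN L

/-- `k n`, after evaluation of `n`. -/
noncomputable def fN {α : Type} (n : ℕ) (k : ℕ → α) : α :=
  Nat.rec (k 0) (fun m _ => k (Nat.succ m)) n

/-- `k z`, after evaluation of `z`. -/
noncomputable def fZ {α : Type} (z : ℤ) (k : ℤ → α) : α :=
  Int.rec (fun n => fN n fun m => k (Int.ofNat m)) (fun n => fN n fun m => k (Int.negSucc m)) z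

/-- `k (L.map f)`, after evaluation of the list. -/
noncomputable def fM {α : Type} (f : ℤ → ℤ) (L : List ℤ) : (List ℤ → α) → α :=
  List.rec (fun k => k []) (fun a _ ih k => fZ (f a) fun c => ih fun R => k (c :: R)) L

/-- `k (lAdd L M)`, after evaluation of the list. -/
noncomputable def fA {α : Type} (L : List ℤ) : List ℤ → (List ℤ → α) → α :=
  List.rec (fun M k => fM (fun c => c) M k) (fun a _ ih M k =>
    List.rec (fZ a fun c => ih [] fun R => k (c :: R))
      (fun b M' _ => fZ (Int.add a b) fun c => ih M' fun R => k (c :: R)) M) L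

/-- Length. -/
noncomputable def qL (L : List ℤ) : ℕ := List.rec 0 (fun _ _ ih => Nat.succ ih) L

/-- Sum of absolute values. -/
noncomputable def qN (L : List ℤ) : ℕ :=
  List.rec 0 (fun a _ ih => Int.rec (fun n => Nat.add n ih) (fun n => Nat.add (Nat.succ n) ih) a) L

/-- Value at `B` of the positive part. -/
noncomputable def qP (B : ℕ) (L : List ℤ) : ℕ :=
  List.rec 0 (fun a _ ih => Int.rec (fun n => Nat.add n (Nat.mul B ih)) (fun _ => Nat.mul B ih) a) L

/-- Value at `B` of the negative part. -/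
noncomputable def qM (B : ℕ) (L : List ℤ) : ℕ :=
  List.rec 0 (fun a _ ih =>
    Int.rec (fun _ => Nat.mul B ih) (fun n => Nat.add (Nat.succ n) (Nat.mul B ih)) a) L

/-- The first `t` digits of `N` in base `B`, divided by `S` and shifted by `H`. -/
noncomputable def qH {α : Type} (B S H t : ℕ) : ℕ → (List ℤ → ℕ → α) → α :=
  Nat.rec (fun N k => k [] N) (fun _ ih N k =>
    fZ (Int.subNatNat (Nat.div (Nat.mod N B) S) H) fun c => fN (Nat.div N B) fun N' =>
      ih N' fun R N'' => k (c :: R) N'') t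

/-- Sum of the distances to `H` of the first `t` digits of `N` in base `B`. -/
noncomputable def qT (B H t : ℕ) : ℕ → ℕ :=
  Nat.rec (fun _ => 0) (fun _ ih N => Nat.add
    (Nat.add (Nat.sub (Nat.mod N B) H) (Nat.sub H (Nat.mod N B))) (fN (Nat.div N B) ih)) t

/-- Sum. -/
noncomputable def TM.add (F G : TM) : TM :=
  fA F.1 G.1 fun L => fN (Nat.add F.2 G.2) fun d => (L, d)

/-- Integer multiple. -/
noncomputable def TM.smul (k : ℤ) (F : TM) : TM :=
  fZ k fun k => fM (Int.mul k) F.1 fun L => fN (Nat.mul k.natAbs F.2) fun d => (L, d)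

/-- Product, keeping `n` coefficients, by Kronecker substitution. -/
noncomputable def TM.mul (S n : ℕ) (F G : TM) : TM :=
  Prod.rec (fun L d => Prod.rec (fun M e =>
  fN S fun S => fN n fun n => fN (qN L) fun a => fN (qN M) fun b =>
  fN (Nat.succ (Nat.div (Nat.mul a b) S)) fun H => fN (Nat.mul S H) fun K =>
  fN (Nat.mul 2 K) fun B =>
  fN (Nat.rec 0 (fun l _ => Nat.succ (Nat.add l (Nat.pred (qL M)))) (qL L)) fun m =>
  fN (Int.toNat (Int.add (Int.mul (Int.subNatNat (qP B L) (qM B L)) (Int.subNatNat (qP B M) (qM B M)))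
    (Int.ofNat (Nat.mul K (Nat.div (Nat.pred (Nat.pow B m)) (Nat.pred B)))))) fun N =>
  qH B S H (Nat.sub m (Nat.sub m n)) N fun R N' =>
  fN (Nat.succ (Nat.add (Nat.div (Nat.add (Nat.add (Nat.add (qT B K (Nat.sub m n) N') (Nat.mul a e))
    (Nat.mul b d)) (Nat.mul d e)) S) n)) fun r => (R, r)) G) F

/-- Division by a positive integer. -/
noncomputable def TM.div (k : ℕ) (F : TM) : TM :=
  fN k fun k => fM (fun c => Int.ediv c (Int.ofNat k)) F.1 fun L =>
    fN (Nat.succ (Nat.add (Nat.div F.2 k) (qL L))) fun d => (L, d)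

/-- Size of `S (f g - 1)` for a guess `g = G / S` of the inverse. -/
noncomputable def TM.res (S n : ℕ) (F : TM) (G : List ℤ) : ℕ :=
  Nat.add (fA (TM.mul S n F (G, 0)).1 [-(S : ℤ)] qN) (TM.mul S n F (G, 0)).2

/-- Inverse from a guess; valid when `4 * res ≤ S`. -/
noncomputable def TM.inv (S n : ℕ) (F : TM) (G : List ℤ) : TM :=
  fN (Nat.succ (Nat.div (Nat.mul (Nat.mul 4 (qN G)) (TM.res S n F G)) S)) fun d => (G, d)

/-- Horner scheme. -/
noncomputable def TM.hor (S n : ℕ) (X : TM) : List TM → TM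
  | [] => ([], 0)
  | C :: L => C.add (TM.mul S n X (TM.hor S n X L))

/-- Integer linear combination. -/
noncomputable def TM.lin : List ℤ → List TM → TM
  | a :: L, P :: Ps => (P.smul a).add (TM.lin L Ps)
  | _, _ => ([], 0)

/-- The list `P, P X, P X², …`. -/
noncomputable def TM.pw (S n : ℕ) (X : TM) : ℕ → TM → List TM
  | 0, _ => []
  | m + 1, P => P :: TM.pw S n X m (TM.mul S n P X)

/-- Taylor coefficients of `exp (195 / 256 * x)` times `25 ! * 256 ^ 25`. -/
def expC : List ℤ :=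
  (List.range 26).map fun k => (195 ^ k * 256 ^ (25 - k) * (Nat.factorial 25 / Nat.factorial k) : ℕ)

/-- Enclosure of `exp (195 / 256 * x)`. -/
noncomputable def TM.exp (S : ℕ) : TM :=
  (TM.div (Nat.factorial 25 * 256 ^ 25) (expC.map ((S : ℤ) * ·), 0)).add ([], 1)

end Pool.Agent.Lib.MP_14b623_gt
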