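import Pool.Agent.Lib.MP_14b623_gt.AData

/-! The expressions which describe the domain of the matrix inequality. -/

namespace Pool.Agent.Lib.MP_14b623_gt

/-- `t zP (t²) / 2 ^ 24` is below the inverse of `tanh`. -/
def zP : List ℤ :=
  [16776377, 4778938, 78115062, -3237303010, 80588709216, -1284615734864, 14061164124530,
  -110691819114970, 647185069167777, -2874492157607115, 9850111659663448, -26298892009685953,
  54974953529978265, -89980428878230552, 114720974036813491, -112625359480230472,
  83427532317004334, -45073342358591913, 16752113115548824, -3827726237876371, 405209268800760]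

/-- `zZ (t²) / 2 ^ 18` is below the square of the inverse of `tanh`. -/
def zZ : List ℤ :=
  [-304, 255406, 837651, -25993106, 538544939, -6679547076, 54155538542, -302131809718,
  1198617211949, -3448836187743, 7264068296617, -11191662448661, 12463080798986, -9760756621675,
  5097484243851, -1593244752346, 225394080767]

/-- The derivative of `2 ^ 24 z + σ t zP (t²)`. -/
def aDer (σ : ℤ) : Ex :=
  .add (.c 16777216) (.mul (.c σ)
    (.mul (yS .x) (.add (xH zP .x) (.mul (.mul (.c 2) .x) (xH (d1 zP) .x)))))

/-- Comparison of the two polynomials. -/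
def aSq : Ex :=
  (Ex.mul .x (.mul (xH zP .x) (xH zP .x))).sub (.mul (.c 1073741824) (xH zZ .x))

/-- Negative in the ball. -/
def aOut (q : Ex) : Ex :=
  (Ex.mul (.c 262144) (yW q)).sub (.mul ((Ex.c 1236297).sub (xH zZ .x)) (yS .x))

/-- Negative outside the tube. -/
def aTube (q : Ex) : Ex := (Ex.mul (.c 381) (yS .x)).sub (.mul (.c 10000) (yW q))

/-- Outside the catenoid. -/
def aU : Ex := .mul (.c 4) .y

/-- Inside the catenoid. -/
def aL : Ex := .neg .y

end Pool.Agent.Lib.MP_14b623_gt
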