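import Pool.Agent.Lib.MP_14b623_gt.ABd

/-! The value inequality and the boundary inequalities on the sphere. -/

namespace Pool.Agent.Lib.MP_14b623_gt

open Real
open scoped InnerProductSpace

lemma afin_num {m u₀ u₁ v e₀ e₁ P κ G : ℝ} (m1 : 2.2766 ≤ m) (m2 : m ≤ 2.2769)
    (h0 : -0.02827 ≤ u₀) (h1 : u₀ ≤ u₁) (h2 : u₀ + u₁ < 0) (v1 : -1 < v) (v2 : v ≤ 0.05325)
    (he₀ : e₀ * (1 + u₀) = (v - u₀) ^ 2) (he₁ : e₁ * (1 + u₁) = (v - u₁) ^ 2)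
    (hD : 0 ≤ 2 * (v - u₀) + e₀ + m * (2 * u₀ + 3 * u₀ ^ 2 + u₀ ^ 3)) (hP : 0 ≤ P)
    (hκ : κ ≤ -0.3633) (G0 : 0 ≤ G) (G1 : G ≤ 0.427) :
    P * (u₀ + u₁) + κ * (2 * v - (u₀ + u₁)) +
      G * (e₀ + (2 * (v - u₀) + e₀ + m * (2 * u₀ + 3 * u₀ ^ 2 + u₀ ^ 3)) / 3 +
        (e₁ + (2 * (v - u₁) + e₁ + m * (2 * u₁ + 3 * u₁ ^ 2 + u₁ ^ 3)) / 3)) < 0 := by
  have a0 : u₀ < 0 := by linarith
  have a1 : -1.11 * u₀ ≤ v := by
    by_contra h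
    have b1 : m * (2 * u₀ + 3 * u₀ ^ 2 + u₀ ^ 3) ≤ 4.36 * u₀ := by
      have : 4.36 ≤ m * (2 + 3 * u₀ + u₀ ^ 2) := by nlinarith
      nlinarith
    have b2 : 0 ≤ (2 * (v - u₀) + e₀ + 4.36 * u₀) * (1 + u₀) :=
      mul_nonneg (by linarith) (by linarith)
    nlinarith [mul_pos (sub_pos.2 (not_le.1 h)) (show 0 < v + 2 + u₀ - 2.11 * u₀ by linarith)]
  have key : ∀ {u e : ℝ}, u₀ ≤ u → u ≤ -u₀ → e * (1 + u) = (v - u) ^ 2 →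
      e + (2 * (v - u) + e + m * (2 * u + 3 * u ^ 2 + u ^ 3)) / 3 ≤
        0.8335 * v + (2 / 3 * (m - 1) - 2.7444 * v) * u := fun {u e} b1 b2 b3 => by
    have c0 : 0 ≤ e := nonneg_of_mul_nonneg_left (b3 ▸ sq_nonneg _) (by linarith)
    have c1 : e ≤ 1.0291 * (v - u) ^ 2 := by nlinarith
    have c2 : u ^ 2 ≤ 0.02547 * v := by nlinarith
    have c3 : v ^ 2 ≤ 0.05325 * v := by nlinarith
    have c4 : m * (3 * u ^ 2 + u ^ 3) ≤ 6.896 * u ^ 2 := by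
      have : m * (3 + u) ≤ 6.896 := by nlinarith
      nlinarith
    nlinarith
  have k0 := key le_rfl (by linarith) he₀
  have k1 := key h1 (by linarith) he₁
  have k2 : (2 / 3 * (m - 1) - 2.7444 * v) * (u₀ + u₁) ≤ 0 :=
    mul_nonpos_of_nonneg_of_nonpos (by linarith) h2.le
  have k3 := mul_le_mul_of_nonneg_left (show _ ≤ 1.667 * v from (add_le_add k0 k1).trans
    (by linarith)) G0
  nlinarith

lemma afin_PF {τ m R l c P κ G : ℝ} (hτ : 0 < τ) (hl : 0 < l) (hm : (τ * τ - 1) * m = 1)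
    (hR : R ^ 2 = τ * τ * (1 + m)) :
    τ * PF l c ((P * τ - κ * τ + G * τ) / τ) ((2 * G * R - κ * R) / τ) (G * R ^ 2 / τ ^ 2) - P =
      P * (l * τ - 1) + κ * (R * c - l * τ) + G * ((R * c - l * τ) ^ 2 / (l * τ) +
        R ^ 2 * (l * Df l c) / τ / 3) ∧
    R ^ 2 * (l * Df l c) / τ = 2 * (R * c - 1 - (l * τ - 1)) + (R * c - l * τ) ^ 2 / (l * τ) +
      m * (2 * (l * τ - 1) + 3 * (l * τ - 1) ^ 2 + (l * τ - 1) ^ 3) := by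
  unfold PF Df
  constructor
  · field_simp
    ring
  · field_simp
    linear_combination (l ^ 4 - l ^ 2) * hR + (-l ^ 4 * τ ^ 2) * hm

theorem afin_value {τ m R l₀ l₁ c P κ G : ℝ} (t1 : 1.199675 < τ) (t2 : τ < 1.199685)
    (hm : (τ * τ - 1) * m = 1) (hR : R ^ 2 = τ * τ * (1 + m)) (R0 : 0 < R) (R1 : R ≤ 2.17164)
    (hA : Adm l₀ l₁ c) (hl : 81 / 100 ≤ l₀) (hc : c ≤ 485 / 1000) (hs : l₀ + l₁ < 2 / τ)
    (hP : 0 ≤ P) (hκ : κ ≤ -0.3633) (G0 : 0 ≤ G) (G1 : G ≤ 0.427) :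
    PF l₀ c ((P * τ - κ * τ + G * τ) / τ) ((2 * G * R - κ * R) / τ) (G * R ^ 2 / τ ^ 2) +
      PF l₁ c ((P * τ - κ * τ + G * τ) / τ) ((2 * G * R - κ * R) / τ) (G * R ^ 2 / τ ^ 2) <
        2 * (P / τ) := by
  have hτ : 0 < τ := by linarith
  have l0 : 0 < l₀ := by linarith
  have l1 : 0 < l₁ := l0.trans_le hA.le
  rw [lt_div_iff₀ hτ] at hs
  have q1 : τ * τ < 1.4392442 := by nlinarith
  have q2 : 1.43922 < τ * τ := by nlinarith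
  have m0 : 0 < m := pos_of_mul_pos_right (a := τ * τ - 1) (by linarith) (by linarith)
  have m1 : 2.2766 ≤ m := by nlinarith
  have m2 : m ≤ 2.2769 := by nlinarith
  have u0 : -0.02827 ≤ l₀ * τ - 1 := by nlinarith
  have u1 : l₀ * τ - 1 ≤ l₁ * τ - 1 := by nlinarith [hA.le]
  have v2 : R * c - 1 ≤ 0.05325 := by nlinarith [hA.pos]
  obtain ⟨a1, a2⟩ := afin_PF (c := c) (P := P) (κ := κ) (G := G) hτ l0 hm hR
  obtain ⟨b1, b2⟩ := afin_PF (c := c) (P := P) (κ := κ) (G := G) hτ l1 hm hR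
  have := afin_num (e₀ := (R * c - l₀ * τ) ^ 2 / (l₀ * τ)) (e₁ := (R * c - l₁ * τ) ^ 2 / (l₁ * τ))
    m1 m2 u0 u1 (by linarith) (by linarith [mul_pos R0 hA.pos]) v2 (by field_simp; ring)
    (by field_simp; ring) (a2 ▸ by have := hA.d0; positivity) hP hκ G0 G1
  rw [← a2, ← b2] at this
  rw [mul_div_assoc', lt_div_iff₀ hτ]
  linarith

lemma afin_even (s : ℤ) (L : List (List ℤ)) (ρ z : ℝ) : aF s L ρ (-z) = aF s L ρ z := by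
  simp only [aF, tanh_neg, neg_sq]

/-- The boundary inequality at height `z`, for an angular speed `y`. -/
lemma afin_bd {τ R κ z y : ℝ} (hτ : 1 < τ) (R0 : 0 < R)
    (hR : R ^ 2 = τ * τ * (1 + (τ * τ - 1)⁻¹)) (hz : |(z - τ) * (256 / 195)| ≤ 1)
    (h : ∀ ξ : ℝ, |ξ| ≤ 1 →
      0 ≤ fP τ ξ ∧ fρ τ ξ * fH ξ ≠ 0 ∧ fB τ ξ ≤ fB τ 0 + κ * ξ + 0.20651 * ξ ^ 2)
    (hρ : 0 < R ^ 2 - z ^ 2) (hy : y ^ 2 * (R ^ 2 - z ^ 2) ≤ 1) :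
    τ * ((D0.A (R ^ 2 - z ^ 2) z * (R ^ 2 - z ^ 2) + D0.B (R ^ 2 - z ^ 2) z * z) / R ^ 2 +
      (692 / 1024 - (R ^ 2 - z ^ 2) * D0.ψ (R ^ 2 - z ^ 2) z) * (y / R)) ≤
      fB τ 0 + κ * ((z - τ) * (256 / 195)) + 0.20651 * ((z - τ) * (256 / 195)) ^ 2 := by
  obtain ⟨h1, h2, h3⟩ := h _ hz
  refine le_trans ?_ h3
  have e1 : fz τ ((z - τ) * (256 / 195)) = z := by rw [fz]; ring
  have e2 : fρ τ ((z - τ) * (256 / 195)) = R ^ 2 - z ^ 2 := by rw [fρ, e1, hR, sq]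
  have h4 : τ * τ - 1 ≠ 0 := ne_of_gt (by nlinarith only [hτ])
  have e3 : 1 - τ⁻¹ * τ⁻¹ = (τ / R) ^ 2 := by
    have h5 : τ ^ 2 - 1 ≠ 0 := by rwa [sq]
    rw [div_pow, hR, ← sq τ, show 1 + (τ ^ 2 - 1)⁻¹ = τ ^ 2 / (τ ^ 2 - 1) by field_simp; ring]
    field_simp
  rw [fB, e3]
  rw [fP] at h1 ⊢
  rw [e2] at h2
  rw [e1, e2] at h1 ⊢
  have h5 : 0 < fH ((z - τ) * (256 / 195)) :=
    lt_of_le_of_ne (sq_nonneg _) (right_ne_zero_of_mul h2).symm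
  generalize fH _ = H at h5
  generalize R ^ 2 - z ^ 2 = ρ at *
  have h6 : τ / R * y ≤ ((τ / R) ^ 2 * H + (ρ * H)⁻¹) / 2 := by
    have h7 : y ^ 2 / H ≤ (ρ * H)⁻¹ := by
      rw [mul_inv, div_eq_mul_inv]
      exact mul_le_mul_of_nonneg_right (by rwa [← one_div, le_div_iff₀ hρ]) (by positivity)
    have h8 : (τ / R) ^ 2 * H + y ^ 2 / H - 2 * (τ / R * y) = (τ / R * H - y) ^ 2 / H := by
      field_simp
      ring
    have h9 : 0 ≤ (τ / R * H - y) ^ 2 / H := by positivity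
    linarith
  refine le_of_eq_of_le ?_ (add_le_add le_rfl (mul_le_mul_of_nonneg_left h6 h1))
  field_simp

lemma afin_zero {τ : ℝ} (hτ : 1 < τ) (t3 : τ * sinh τ = cosh τ) :
    fB τ 0 = 692 / 1024 * (1 - τ⁻¹ * τ⁻¹) := by
  have h4 : τ ^ 2 - 1 ≠ 0 := ne_of_gt (by nlinarith only [hτ])
  have h5 : τ ≠ 0 := by linarith
  have e1 : fz τ 0 = τ := by simp [fz]
  have e2 : tanh τ = τ⁻¹ := by
    have := sinh_pos_iff.2 (show 0 < τ by linarith)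
    rw [tanh_eq_sinh_div_cosh, ← t3]
    field_simp
  have e3 : fρ τ 0 = (1 - τ⁻¹ * τ⁻¹)⁻¹ := by
    rw [fρ, e1, ← sq τ]
    field_simp
    ring
  have e4 : (1 - τ⁻¹ * τ⁻¹)⁻¹ * (1 - τ⁻¹ ^ 2) = 1 := by field_simp
  have e5 : ∀ r L, ev2 (r :: L) 0 (τ⁻¹ ^ 2) = ev1 r (τ⁻¹ ^ 2) := fun r L => by simp [ev2]
  simp only [fB, fP, fH, AD.A, AD.B, AD.ψ, aF, e1, e2, e3, e4, sub_self, D0, e5]
  rw [ev1]
  generalize ev1 _ _ = y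
  field_simp
  ring

end Pool.Agent.Lib.MP_14b623_gt
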