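import Pool.Agent.Lib.MP_14b623_gt.AEx

/-! A check of a subdivision tree can be cut into checks of its subtrees. -/

namespace Pool.Agent.Lib.MP_14b623_gt

/-- The four halves of a box. -/
inductive Dr where
  | hl : Dr
  | hr : Dr
  | vl : Dr
  | vr : Dr

/-- The packed coefficients on the box at the end of a path (last step first). -/
def desc (n m w Sw M Cx Cy V : ℕ) : List Dr → ℕ
  | [] => V
  | .hl :: p => lev (avg M Sw) Cx Sw n (desc n m w Sw M Cx Cy V p)
  | .hr :: p => rig (avg M Sw) Cx Sw n (desc n m w Sw M Cx Cy V p)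
  | .vl :: p => lev (avg M w) Cy w m (desc n m w Sw M Cx Cy V p)
  | .vr :: p => rig (avg M w) Cy w m (desc n m w Sw M Cx Cy V p)

/-- The size conditions of a check. -/
def jobPre (n m w e g : ℕ) (Es : List Ex) : Bool :=
  Nat.blt (Nat.factorial n) (2 ^ g) && Nat.blt (Nat.factorial m) (2 ^ g) &&
  Nat.ble (e + g + g + n + m + 2) w &&
  Es.all (exOk w (w * (m + 1)) (w * ((n + 1) * (m + 1))) e)

/-- The check of a subtree at the end of a path. -/
def jobAt (n m w : ℕ) (Es : List Ex) (p : List Dr) (t : BTr) : Bool :=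
  chk n m Es.length w (w * (m + 1)) (w * ((n + 1) * (m + 1)))
    (rep (2 ^ (w - 1) - 1) w (Es.length * ((n + 1) * (m + 1))))
    (mskX n m Es.length w) (mskY n m Es.length w) (rep (2 ^ (w - 2)) w ((n + 1) * (m + 1))) t
    (desc n m w (w * (m + 1)) (rep (2 ^ (w - 1) - 1) w (Es.length * ((n + 1) * (m + 1))))
      (mskX n m Es.length w) (mskY n m Es.length w) (start n m w Es) p)

variable {n m w e g : ℕ} {Es : List Ex} {p : List Dr} {s t : BTr}

theorem jobAt_h (h1 : jobAt n m w Es (.hl :: p) s = true) (h2 : jobAt n m w Es (.hr :: p) t = true) :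
    jobAt n m w Es p (.h s t) = true :=
  (Bool.and_eq_true _ _).mpr ⟨h1, h2⟩

theorem jobAt_v (h1 : jobAt n m w Es (.vl :: p) s = true) (h2 : jobAt n m w Es (.vr :: p) t = true) :
    jobAt n m w Es p (.v s t) = true :=
  (Bool.and_eq_true _ _).mpr ⟨h1, h2⟩

theorem job_of (h1 : jobPre n m w e g Es = true) (h2 : jobAt n m w Es [] t = true) :
    job n m w e g Es t = true :=
  (Bool.and_eq_true _ _).mpr ⟨h1, h2⟩

end Pool.Agent.Lib.MP_14b623_gt
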