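import Pool.Agent.Lib.MP_14b623_gt.ADefs
import Pool.Agent.Lib.MP_14b623_gt.GCDefsEq

/-! Soundness of the arithmetic of polynomial enclosures. -/

namespace Pool.Agent.Lib.MP_14b623_gt

open Real

lemma Nm.mono {f : ℝ → ℝ} {d d' : ℝ} (h : Nm f d) (hd : d ≤ d') : Nm f d' := by
  obtain ⟨a, b, e, h1, h2, h3⟩ := h
  exact ⟨a, b, e, h1, h2.trans hd, h3⟩

lemma Nm.congr {f g : ℝ → ℝ} {d : ℝ} (h : Nm f d) (e : ∀ x, |x| ≤ 1 → g x = f x) : Nm g d := by
  obtain ⟨a, b, e, h1, h2, h3⟩ := h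
  exact ⟨a, b, e, h1, h2, fun x hx => by rw [‹∀ x, |x| ≤ 1 → g x = f x› x hx]; exact h3 x hx⟩

lemma Nm.add {f g : ℝ → ℝ} {d d' : ℝ} (h : Nm f d) (h' : Nm g d') :
    Nm (fun x => f x + g x) (d + d') := by
  obtain ⟨a, b, e, h1, h2, h3⟩ := h
  obtain ⟨a', b', e', h1', h2', h3'⟩ := h'
  refine ⟨a + a', b + b', e + e', add_nonneg h1 h1', ?_, fun x hx => ?_⟩
  · linarith [abs_add_le a a', abs_add_le b b']
  · have h4 := abs_add_le (f x - a - b * x) (g x - a' - b' * x)
    rw [show f x + g x - (a + a') - (b + b') * x = f x - a - b * x + (g x - a' - b' * x) by ring]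
    linarith [h3 x hx, h3' x hx]

lemma atm_lin {a b x : ℝ} (hx : |x| ≤ 1) : |a + b * x| ≤ |a| + |b| := by
  refine (abs_add_le _ _).trans (add_le_add_right ?_ _)
  rw [abs_mul]
  exact mul_le_of_le_one_right (abs_nonneg _) hx

lemma Nm.mul {f g : ℝ → ℝ} {d d' : ℝ} (h : Nm f d) (h' : Nm g d') :
    Nm (fun x => f x * g x) (d * d') := by
  obtain ⟨a, b, e, h1, h2, h3⟩ := h
  obtain ⟨a', b', e', h1', h2', h3'⟩ := h'
  refine ⟨a * a', a * b' + b * a', |b| * |b'| + (|a| + |b|) * e' + (|a'| + |b'|) * e + e * e',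
    by positivity, ?_, fun x hx => ?_⟩
  · have h4 := mul_le_mul h2 h2' (by positivity) (le_trans (by positivity) h2)
    have h5 := abs_add_le (a * b') (b * a')
    simp only [abs_mul] at h5 ⊢
    linarith
  · have hx2 : x ^ 2 ≤ 1 := (sq_le_one_iff_abs_le_one x).2 hx
    have k1 := mul_le_mul (atm_lin (a := a) (b := b) hx) (h3' x hx) (abs_nonneg _) (by positivity)
    have k2 := mul_le_mul (atm_lin (a := a') (b := b') hx) (h3 x hx) (abs_nonneg _) (by positivity)
    have k3 := mul_le_mul ((h3 x hx).trans (mul_le_of_le_one_right h1 hx2)) (h3' x hx)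
      (abs_nonneg _) h1
    have k4 : |b * b' * x ^ 2| = |b| * |b'| * x ^ 2 := by rw [abs_mul, abs_mul, abs_sq]
    rw [← abs_mul] at k1 k2 k3
    rw [show f x * g x - a * a' - (a * b' + b * a') * x = b * b' * x ^ 2 +
      (a + b * x) * (g x - a' - b' * x) + (a' + b' * x) * (f x - a - b * x) +
        (f x - a - b * x) * (g x - a' - b' * x) by ring]
    refine (abs_add_le _ _).trans ((add_le_add_left (abs_add_three _ _ _) _).trans ?_)
    linarith

lemma Nm.bound {f : ℝ → ℝ} {d : ℝ} (h : Nm f d) {x : ℝ} (hx : |x| ≤ 1) : |f x| ≤ d := by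
  obtain ⟨a, b, e, h1, h2, h3⟩ := h
  have h4 := abs_add_le (a + b * x) (f x - a - b * x)
  rw [show a + b * x + (f x - a - b * x) = f x by ring] at h4
  linarith [atm_lin (a := a) (b := b) hx, h3 x hx,
    mul_le_of_le_one_right h1 ((sq_le_one_iff_abs_le_one x).2 hx)]

lemma nm_const (c : ℝ) : Nm (fun _ => c) |c| := ⟨c, 0, 0, le_rfl, by simp, fun x _ => by simp⟩

lemma nm_id : Nm (fun x => x) 1 := ⟨0, 1, 0, le_rfl, by simp, fun x _ => by simp⟩

lemma nm_pow (n : ℕ) : Nm (fun x => x ^ n) 1 := by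
  induction n with
  | zero => simpa using nm_const 1
  | succ n ih => simpa only [mul_one, pow_succ] using ih.mul nm_id

lemma nm_ev1 (L : List ℤ) : Nm (ev1 L) (lN L) := by
  induction L with
  | nil => exact (nm_const 0).mono (by simp)
  | cons c L ih =>
    refine (((nm_const c).add (nm_id.mul ih)).congr fun _ _ => rfl).mono (le_of_eq ?_)
    rw [lN, Nat.cast_add, Nat.cast_natAbs, Int.cast_abs, one_mul]

lemma Nm.inv {E : ℝ → ℝ} (h : Nm E (1 / 4)) :
    (∀ x, |x| ≤ 1 → 0 < 1 + E x) ∧ Nm (fun x => (1 + E x)⁻¹) 4 := by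
  have h0 : ∀ x, |x| ≤ 1 → 3 / 4 ≤ 1 + E x := fun x hx => by linarith [(abs_le.1 (h.bound hx)).1]
  refine ⟨fun x hx => by linarith [h0 x hx], ?_⟩
  obtain ⟨c, b, e, h1, h2, h3⟩ := h
  have hc := abs_le.1 (show |c| ≤ 1 / 4 by linarith [abs_nonneg b])
  have hb : |b| ≤ 1 / 4 := by linarith [abs_nonneg c]
  have he : |b| + e ≤ 1 / 4 := by linarith [abs_nonneg c]
  have ha : 0 < 1 + c := by linarith
  have ha2 : 9 / 16 ≤ (1 + c) ^ 2 := by nlinarith
  refine ⟨(1 + c)⁻¹, -(b / (1 + c) ^ 2), 1, zero_le_one, ?_, fun x hx => ?_⟩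
  · have k1 : (1 + c)⁻¹ ≤ 2 := by
      rw [inv_le_comm₀ ha two_pos]
      linarith
    have k2 : |b| / (1 + c) ^ 2 ≤ 1 := (div_le_one (by positivity)).2 (by linarith)
    rw [abs_neg, abs_div, abs_of_pos (inv_pos.2 ha), abs_sq]
    linarith
  · have k0 := h0 x hx
    have k1 := h3 x hx
    have hx2 : x ^ 2 ≤ |x| := by
      rw [← sq_abs, sq]
      exact mul_le_of_le_one_right (abs_nonneg x) hx
    have k2 : |b * x + (E x - c - b * x)| ≤ 1 / 4 * |x| := by
      refine (abs_add_le _ _).trans ?_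
      rw [abs_mul]
      linarith [mul_le_mul_of_nonneg_left hx2 h1, mul_le_mul_of_nonneg_right he (abs_nonneg x)]
    have k3 : |(1 + c) * (E x - c - b * x)| ≤ 5 / 4 * (1 / 4 * x ^ 2) := by
      rw [abs_mul, abs_of_pos ha]
      exact mul_le_mul (by linarith) (k1.trans (mul_le_mul_of_nonneg_right
        (by linarith [abs_nonneg b]) (sq_nonneg x))) (abs_nonneg _) (by norm_num)
    have k4 : |b * x * (b * x + (E x - c - b * x))| ≤ 1 / 4 * |x| * (1 / 4 * |x|) := by
      rw [abs_mul, abs_mul]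
      exact mul_le_mul (mul_le_mul_of_nonneg_right hb (abs_nonneg x)) k2 (abs_nonneg _)
        (by positivity)
    have k5 : 27 / 64 ≤ (1 + c) ^ 2 * (1 + E x) := by nlinarith
    have k6 : 0 < 1 + E x := by linarith
    rw [show (1 + E x)⁻¹ - (1 + c)⁻¹ - -(b / (1 + c) ^ 2) * x =
      (b * x * (b * x + (E x - c - b * x)) - (1 + c) * (E x - c - b * x)) /
        ((1 + c) ^ 2 * (1 + E x)) by field_simp; ring, abs_div, abs_of_pos (mul_pos (by positivity) k6),
      div_le_iff₀ (by positivity)]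
    have k7 := mul_le_mul_of_nonneg_left k5 (sq_nonneg x)
    have k8 := abs_mul_abs_self x
    linarith [abs_sub (b * x * (b * x + (E x - c - b * x))) ((1 + c) * (E x - c - b * x)),
      sq_nonneg x]

lemma ev1_lAdd (L M : List ℤ) (x : ℝ) : ev1 (lAdd L M) x = ev1 L x + ev1 M x := by
  induction L generalizing M with
  | nil => simp [lAdd, ev1]
  | cons a L ih =>
    cases M with
    | nil => simp [lAdd, ev1]
    | cons b M =>
      simp only [lAdd, ev1, ih, Int.cast_add]
      ring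

lemma ev1_map (k : ℤ) (L : List ℤ) (x : ℝ) : ev1 (L.map (k * ·)) x = k * ev1 L x := by
  induction L with
  | nil => simp [ev1]
  | cons a L ih =>
    simp only [List.map_cons, ev1, ih, Int.cast_mul]
    ring

lemma ev1_lMul (L M : List ℤ) (x : ℝ) : ev1 (lMul L M) x = ev1 L x * ev1 M x := by
  induction L with
  | nil => simp [lMul, ev1]
  | cons a L ih =>
    simp only [lMul, ev1_lAdd, ev1_map, ev1, ih, Int.cast_zero]
    ring

lemma ev1_take (n : ℕ) (L : List ℤ) (x : ℝ) :
    ev1 L x = ev1 (L.take n) x + x ^ n * ev1 (L.drop n) x := by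
  induction n generalizing L with
  | zero => simp [ev1]
  | succ n ih =>
    cases L with
    | nil => simp [ev1]
    | cons a L =>
      simp only [List.take_succ_cons, List.drop_succ_cons, ev1]
      rw [ih L]
      ring

lemma ev1_range (c : ℕ → ℤ) (n : ℕ) (x : ℝ) :
    ev1 ((List.range n).map c) x = ∑ k ∈ Finset.range n, c k * x ^ k := by
  induction n generalizing c with
  | zero => simp [ev1]
  | succ n ih =>
    rw [List.range_succ_eq_map, List.map_cons, List.map_map, ev1, ih, Finset.sum_range_succ',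
      Finset.mul_sum, pow_zero, mul_one, add_comm]
    exact congrArg (· + _) (Finset.sum_congr rfl fun k _ => by simp only [Function.comp]; ring)

lemma atm_round {k : ℕ} (hk : 0 < k) (L : List ℤ) :
    Nm (fun x => ev1 L x / k - ev1 (L.map (· / (k : ℤ))) x) L.length := by
  have hk' : (0 : ℝ) < k := Nat.cast_pos.2 hk
  induction L with
  | nil => simpa [ev1] using nm_const 0
  | cons c L ih =>
    refine (((nm_const (c / k - (c / (k : ℤ) : ℤ))).add (nm_id.mul ih)).congr fun x _ => ?_).mono ?_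
    · simp only [List.map_cons, ev1]
      ring
    · have h1 : ((c / (k : ℤ) : ℤ) : ℝ) * k ≤ c := by
        exact_mod_cast Int.ediv_mul_le c (Int.natCast_pos.2 hk).ne'
      have h2 : (c : ℝ) < ((c / (k : ℤ) : ℤ) + 1) * k := by
        exact_mod_cast Int.lt_ediv_add_one_mul_self c (Int.natCast_pos.2 hk)
      have h3 := (le_div_iff₀ hk').2 h1
      have h4 := (div_lt_iff₀ hk').2 h2
      rw [abs_of_nonneg (sub_nonneg.2 h3), List.length_cons]
      push_cast at h4 ⊢
      linarith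

lemma atm_div {k : ℕ} (hk : 0 < k) (a : ℕ) : (a : ℝ) * |(k : ℝ)⁻¹| ≤ (a / k : ℕ) + 1 := by
  have hk' : (0 : ℝ) < k := Nat.cast_pos.2 hk
  rw [abs_of_pos (inv_pos.2 hk'), mul_inv_le_iff₀' hk']
  exact_mod_cast (Nat.lt_mul_div_succ a hk).le

lemma fN_eq {α : Type} (n : ℕ) (k : ℕ → α) : fN n k = k n := by cases n <;> rfl

lemma fZ_eq {α : Type} (z : ℤ) (k : ℤ → α) : fZ z k = k z := by
  cases z with
  | ofNat n => exact fN_eq n fun m => k (Int.ofNat m)
  | negSucc n => exact fN_eq n fun m => k (Int.negSucc m)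

lemma fM_eq {α : Type} (f : ℤ → ℤ) (L : List ℤ) (k : List ℤ → α) : fM f L k = k (L.map f) := by
  induction L generalizing k with
  | nil => rfl
  | cons a L ih => exact (fZ_eq (f a) fun c => fM f L fun R => k (c :: R)).trans (ih _)

lemma lAdd_nil (L : List ℤ) : lAdd L [] = L := by cases L <;> rfl

lemma fA_eq {α : Type} (L M : List ℤ) (k : List ℤ → α) : fA L M k = k (lAdd L M) := by
  induction L generalizing M k with
  | nil => exact (fM_eq _ _ _).trans (by rw [List.map_id']; rfl)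
  | cons a L ih =>
    cases M with
    | nil =>
      exact (fZ_eq a fun c => fA L [] fun R => k (c :: R)).trans
        ((ih _ _).trans (by rw [lAdd_nil, lAdd_nil]))
    | cons b M => exact (fZ_eq (a + b) fun c => fA L M fun R => k (c :: R)).trans (ih _ _)

lemma qL_eq (L : List ℤ) : qL L = L.length := by
  induction L with
  | nil => rfl
  | cons a L ih => exact congrArg Nat.succ ih

lemma qN_eq (L : List ℤ) : qN L = lN L := by
  induction L with
  | nil => rfl
  | cons a L ih => cases a <;> exact congrArg (_ + ·) ih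

lemma qP_eq (B : ℕ) (L : List ℤ) : (qP B L : ℝ) - qM B L = ev1 L B := by
  induction L with
  | nil => exact sub_self _
  | cons a L ih =>
    rw [ev1, ← ih]
    cases a with
    | ofNat n =>
      change ((n + B * qP B L : ℕ) : ℝ) - (B * qM B L : ℕ) = ((n : ℤ) : ℝ) + _
      push_cast
      ring
    | negSucc n =>
      change ((B * qP B L : ℕ) : ℝ) - (n + 1 + B * qM B L : ℕ) = _
      push_cast
      ring

/-- The number with digits `c + K`. -/
def atmOff (K : ℕ) : List ℤ → ℕ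
  | [] => 0
  | c :: P => (c + K).toNat + 2 * K * atmOff K P

lemma atmOff_eq {K : ℕ} {P : List ℤ} (h : lN P < K) : (atmOff K P : ℝ) =
    ev1 P (2 * K : ℕ) + (K * ∑ i ∈ Finset.range P.length, (2 * K) ^ i : ℕ) := by
  induction P with
  | nil => simp [atmOff, ev1]
  | cons c P ih =>
    rw [lN] at h
    have h1 : (((c + K).toNat : ℤ) : ℝ) = (c + K : ℤ) := by rw [Int.toNat_of_nonneg (by omega)]
    rw [atmOff, Nat.cast_add, Nat.cast_mul, ih (by omega), List.length_cons, Finset.sum_range_succ',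
      ev1]
    simp only [pow_succ', ← Finset.mul_sum]
    push_cast at h1 ⊢
    rw [h1]
    ring

lemma atm_dig {K : ℕ} {c : ℤ} {P : List ℤ} (h : lN (c :: P) < K) :
    atmOff K (c :: P) % (2 * K) = (c + K).toNat ∧ atmOff K (c :: P) / (2 * K) = atmOff K P := by
  rw [lN] at h
  have h1 : (c + K).toNat < 2 * K := by omega
  rw [atmOff, Nat.add_mul_mod_self_left, Nat.add_mul_div_left _ _ (by omega), Nat.mod_eq_of_lt h1,
    Nat.div_eq_of_lt h1, zero_add]
  exact ⟨rfl, rfl⟩

lemma qH_eq {α : Type} {S H : ℕ} (hS : 0 < S) (t : ℕ) {P : List ℤ} (ht : t ≤ P.length)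
    (h : lN P < S * H) (k : List ℤ → ℕ → α) : qH (2 * (S * H)) S H t (atmOff (S * H) P) k =
      k ((P.take t).map (· / (S : ℤ))) (atmOff (S * H) (P.drop t)) := by
  induction t generalizing P k with
  | zero => rfl
  | succ t ih =>
    obtain _ | ⟨c, P⟩ := P
    · simp at ht
    obtain ⟨h1, h2⟩ := atm_dig h
    rw [lN] at h
    change fZ (Int.subNatNat (atmOff (S * H) (c :: P) % (2 * (S * H)) / S) H) (fun c' =>
      fN (atmOff (S * H) (c :: P) / (2 * (S * H))) fun N' =>
        qH (2 * (S * H)) S H t N' fun R N => k (c' :: R) N) = _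
    rw [fZ_eq, fN_eq, h1, h2, ih (Nat.le_of_succ_le_succ ht) (by omega), Int.subNatNat_eq_coe, Int.natCast_ediv,
      Int.toNat_of_nonneg (by omega), Nat.cast_mul,
      Int.add_mul_ediv_left _ _ (Int.natCast_pos.2 hS).ne', add_sub_cancel_right]
    rfl

lemma qT_eq {K : ℕ} {P : List ℤ} (h : lN P < K) : qT (2 * K) K P.length (atmOff K P) = lN P := by
  induction P with
  | nil => rfl
  | cons c P ih =>
    obtain ⟨h1, h2⟩ := atm_dig h
    change atmOff K (c :: P) % (2 * K) - K + (K - atmOff K (c :: P) % (2 * K)) +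
      fN (atmOff K (c :: P) / (2 * K)) (qT (2 * K) K P.length) = _
    rw [lN] at h ⊢
    rw [fN_eq, h1, h2, ih (by omega)]
    omega

lemma lN_lAdd (L M : List ℤ) : lN (lAdd L M) ≤ lN L + lN M := by
  induction L generalizing M with
  | nil => simp [lAdd]
  | cons a L ih =>
    cases M with
    | nil => simp [lAdd]
    | cons b M =>
      have := ih M
      simp only [lAdd, lN]
      omega

lemma lN_map (k : ℤ) (L : List ℤ) : lN (L.map (k * ·)) = k.natAbs * lN L := by
  induction L with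
  | nil => rfl
  | cons a L ih => rw [List.map_cons, lN, lN, ih, Int.natAbs_mul, mul_add]

lemma lN_lMul (L M : List ℤ) : lN (lMul L M) ≤ lN L * lN M := by
  induction L with
  | nil => simp [lMul, lN]
  | cons a L ih =>
    refine (lN_lAdd _ _).trans ?_
    rw [lN_map, lN, lN, add_mul, Int.natAbs_zero, zero_add]
    exact Nat.add_le_add_left ih _

lemma lN_drop (n : ℕ) (L : List ℤ) : lN (L.drop n) ≤ lN L := by
  induction n generalizing L with
  | zero => rfl
  | succ n ih =>
    cases L with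
    | nil => rfl
    | cons a L => exact (ih L).trans (Nat.le_add_left _ _)

lemma length_lAdd (L M : List ℤ) : (lAdd L M).length = max L.length M.length := by
  induction L generalizing M with
  | nil => simp [lAdd]
  | cons a L ih => cases M <;> simp [lAdd, ih]

lemma length_lMul (L M : List ℤ) :
    Nat.rec 0 (fun l _ => l + (M.length - 1) + 1) L.length = (lMul L M).length := by
  induction L with
  | nil => rfl
  | cons a L ih =>
    rw [lMul, length_lAdd, List.length_map, List.length_cons (a := 0), ← ih]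
    cases L <;> simp only [List.length_cons, List.length_nil, Nat.rec_zero] <;> omega

lemma TM.add_eq (F G : TM) : F.add G = (lAdd F.1 G.1, F.2 + G.2) :=
  (fA_eq _ _ _).trans (fN_eq _ _)

lemma TM.smul_eq (k : ℤ) (F : TM) : F.smul k = (F.1.map (k * ·), k.natAbs * F.2) :=
  (fZ_eq _ _).trans ((fM_eq _ _ _).trans (fN_eq _ _))

lemma TM.div_eq (k : ℕ) (F : TM) :
    F.div k = (F.1.map (· / (k : ℤ)), F.2 / k + F.1.length + 1) := by
  refine (fN_eq _ _).trans ((fM_eq _ _ _).trans ((fN_eq _ _).trans ?_))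
  rw [qL_eq, List.length_map]
  rfl

lemma TM.mul_eq {S : ℕ} (hS : 0 < S) (n : ℕ) (F G : TM) : TM.mul S n F G =
    (((lMul F.1 G.1).take n).map (· / (S : ℤ)),
      (lN ((lMul F.1 G.1).drop n) + lN F.1 * G.2 + lN G.1 * F.2 + F.2 * G.2) / S + n + 1) := by
  obtain ⟨L, d⟩ := F
  obtain ⟨M, e⟩ := G
  have h1 : lN (lMul L M) < S * (lN L * lN M / S + 1) :=
    (lN_lMul L M).trans_lt (Nat.lt_mul_div_succ _ hS)
  simp only [TM.mul, fN_eq, qL_eq, qN_eq, length_lMul, Nat.add_eq, Nat.mul_eq, Nat.sub_eq,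
    Nat.pow_eq, Nat.succ_eq_add_one, Nat.pred_eq_sub_one]
  generalize hP : lMul L M = P at h1 ⊢
  have e1 : ∀ a b : ℕ, a.div b = a / b := fun _ _ => rfl
  simp only [e1]
  generalize lN L * lN M / S + 1 = H at h1 ⊢
  have h2 : (((Int.subNatNat (qP (2 * (S * H)) L) (qM (2 * (S * H)) L)).mul
      (Int.subNatNat (qP (2 * (S * H)) M) (qM (2 * (S * H)) M))).add
      (Int.ofNat (S * H * (((2 * (S * H)) ^ P.length - 1) / (2 * (S * H) - 1))))).toNat =
      atmOff (S * H) P := by
    rw [← Nat.geomSum_eq (by omega), ← Int.toNat_natCast (atmOff _ _)]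
    refine congrArg _ (Int.cast_injective (α := ℝ) ?_)
    rw [Int.cast_natCast, atmOff_eq h1, ← hP, ev1_lMul, ← qP_eq, ← qP_eq, Int.subNatNat_eq_coe,
      Int.subNatNat_eq_coe]
    change (((_ : ℤ) * _ + ((_ : ℕ) : ℤ) : ℤ) : ℝ) = _
    push_cast
    rfl
  have h3 : P.take (P.length - (P.length - n)) = P.take n := by
    rw [List.take_eq_take_iff]
    omega
  have h4 : P.drop (P.length - (P.length - n)) = P.drop n := by
    rw [List.drop_eq_drop_iff]
    omega
  rw [h2, qH_eq hS _ (Nat.sub_le _ _) h1, h3, h4, ← List.length_drop,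
    qT_eq ((lN_drop n P).trans_lt h1)]

lemma TM.res_eq (S n : ℕ) (F : TM) (G : List ℤ) : TM.res S n F G =
    lN (lAdd (TM.mul S n F (G, 0)).1 [-(S : ℤ)]) + (TM.mul S n F (G, 0)).2 := by
  rw [TM.res, fA_eq, qN_eq]
  rfl

lemma TM.inv_eq (S n : ℕ) (F : TM) (G : List ℤ) :
    TM.inv S n F G = (G, 4 * lN G * TM.res S n F G / S + 1) := by
  rw [TM.inv, fN_eq, qN_eq]
  rfl

variable {S n : ℕ} {F G : TM} {f g : ℝ → ℝ}

lemma TM.Ok.congr (h : F.Ok S f) (e : ∀ x, |x| ≤ 1 → g x = f x) : F.Ok S g :=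
  Nm.congr h fun x hx => by rw [e x hx]

lemma TM.ok_poly (hS : 0 < S) (L : List ℤ) : TM.Ok S (L, 0) fun x => ev1 L x / S := by
  have hS' : (S : ℝ) ≠ 0 := Nat.cast_ne_zero.2 hS.ne'
  refine ((nm_const 0).congr fun x _ => ?_).mono (by simp)
  rw [mul_div_cancel₀ _ hS', sub_self]

lemma TM.ok_const {c : ℝ} {k : ℤ} {d : ℕ} (h : |S * c - k| ≤ d) : TM.Ok S ([k], d) fun _ => c :=
  ((nm_const _).congr fun x _ => by simp [ev1]).mono h

lemma TM.Ok.add (h : F.Ok S f) (h' : G.Ok S g) : (F.add G).Ok S fun x => f x + g x :=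
  ((Nm.add h h').congr fun x _ => by simp only [TM.add_eq, ev1_lAdd]; ring).mono
    (by rw [TM.add_eq, Nat.cast_add])

lemma TM.Ok.smul (k : ℤ) (h : F.Ok S f) : (F.smul k).Ok S fun x => k * f x :=
  (((nm_const k).mul h).congr fun x _ => by simp only [TM.smul_eq, ev1_map]; ring).mono
    (by rw [TM.smul_eq, Nat.cast_mul, Nat.cast_natAbs, Int.cast_abs])

lemma TM.Ok.mul (hS : 0 < S) (h : F.Ok S f) (h' : G.Ok S g) :
    (TM.mul S n F G).Ok S fun x => f x * g x := by
  have hS' : (S : ℝ) ≠ 0 := Nat.cast_ne_zero.2 hS.ne'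
  have h1 := (atm_round hS ((lMul F.1 G.1).take n)).add
    (((((((nm_pow n).mul (nm_ev1 ((lMul F.1 G.1).drop n))).add ((nm_ev1 F.1).mul h')).add
      ((nm_ev1 G.1).mul h)).add (Nm.mul h h'))).mul (nm_const (S : ℝ)⁻¹))
  refine (h1.congr fun x _ => ?_).mono ?_
  · have e1 := ev1_take n (lMul F.1 G.1) x
    rw [ev1_lMul] at e1
    simp only [TM.mul_eq hS]
    field_simp
    linear_combination e1
  · have e1 := atm_div hS (lN ((lMul F.1 G.1).drop n) + lN F.1 * G.2 + lN G.1 * F.2 + F.2 * G.2)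
    have e2 : (((lMul F.1 G.1).take n).length : ℝ) ≤ n := Nat.cast_le.2 (List.length_take_le _ _)
    simp only [TM.mul_eq hS, Nat.cast_add, Nat.cast_mul, Nat.cast_one] at e1 ⊢
    linarith

lemma TM.Ok.div {k : ℕ} (hk : 0 < k) (h : F.Ok S f) : (F.div k).Ok S fun x => f x / k := by
  refine (((atm_round hk F.1).add (Nm.mul h (nm_const (k : ℝ)⁻¹))).congr fun x _ => ?_).mono ?_
  · simp only [TM.div_eq]
    ring
  · have e1 := atm_div hk F.2
    simp only [TM.div_eq, Nat.cast_add, Nat.cast_one]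
    linarith

lemma TM.Ok.inv (hS : 0 < S) (h : F.Ok S f) {L : List ℤ} (hr : 4 * TM.res S n F L ≤ S) :
    (∀ x, |x| ≤ 1 → f x ≠ 0) ∧ (TM.inv S n F L).Ok S fun x => (f x)⁻¹ := by
  have hS' : (0 : ℝ) < S := Nat.cast_pos.2 hS
  have h1 : Nm (fun x => f x * (ev1 L x / S) - 1) (TM.res S n F L * |(S : ℝ)⁻¹|) := by
    refine ((((nm_ev1 (lAdd (TM.mul S n F (L, 0)).1 [-(S : ℤ)])).add
      (h.mul (n := n) hS (TM.ok_poly hS L))).mul (nm_const (S : ℝ)⁻¹)).congr fun x _ => ?_).mono
        (by rw [TM.res_eq, Nat.cast_add])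
    simp only [ev1_lAdd, ev1, Int.cast_neg, Int.cast_natCast]
    field_simp
    ring
  obtain ⟨h2, h3⟩ := (h1.mono (by
    have : (4 : ℝ) * TM.res S n F L ≤ S := by exact_mod_cast hr
    rw [abs_of_pos (inv_pos.2 hS'), mul_inv_le_iff₀' hS']
    linarith)).inv
  have h4 : ∀ x, |x| ≤ 1 → f x ≠ 0 := fun x hx e => by simpa [e] using h2 x hx
  refine ⟨h4, (((nm_const (-1)).mul (((nm_ev1 L).mul h1).mul h3)).congr fun x hx => ?_).mono ?_⟩
  · have e1 := h4 x hx
    have e2 : ev1 L x ≠ 0 := fun e => by simpa [e] using h2 x hx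
    simp only [TM.inv_eq, add_sub_cancel]
    field_simp
    ring
  · have e1 := atm_div hS (4 * lN L * TM.res S n F L)
    simp only [TM.inv_eq, Nat.cast_add, Nat.cast_mul, Nat.cast_one, Nat.cast_ofNat, abs_neg,
      abs_one] at e1 ⊢
    linarith

lemma atm_nil : TM.Ok S ([], 0) fun _ => 0 :=
  ((nm_const 0).congr fun x _ => by simp [ev1]).mono (by simp)

/-- Horner scheme for `ev2`: the rows are enclosed by `Cs`. -/
lemma TM.Ok.hor (hS : 0 < S) (h : F.Ok S f) {L : List (List ℤ)} {Cs : List TM}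
    (hC : List.Forall₂ (fun (r : List ℤ) (C : TM) => C.Ok S fun x => ev1 r (g x)) L Cs) :
    (TM.hor S n F Cs).Ok S fun x => ev2 L (f x) (g x) := by
  induction hC with
  | nil => exact atm_nil
  | cons h1 _ ih => exact h1.add (h.mul hS ih)

/-- Linear combinations of `p, p g, p g², …`. -/
lemma TM.ok_lin (hS : 0 < S) (h : G.Ok S g) (r : List ℤ) {m : ℕ} (hl : r.length ≤ m) {P : TM}
    {p : ℝ → ℝ} (hP : P.Ok S p) :
    (TM.lin r (TM.pw S n G m P)).Ok S fun x => p x * ev1 r (g x) := by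
  induction r generalizing m P p with
  | nil => exact atm_nil.congr fun x _ => mul_zero _
  | cons a r ih =>
    cases m with
    | zero => simp at hl
    | succ m =>
      refine ((hP.smul a).add (ih (Nat.le_of_succ_le_succ hl) (hP.mul hS h))).congr fun x _ => ?_
      rw [ev1]
      ring

/-- `Real.exp_bound` with 26 terms. -/
lemma TM.ok_exp (hS : 0 < S) (hS' : S ≤ 2 ^ 80) :
    (TM.exp S).Ok S fun x => Real.exp (195 / 256 * x) := by
  have h1 : TM.Ok S (expC.map ((S : ℤ) * ·), 0) (ev1 expC) :=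
    ((nm_const 0).congr fun x _ => by simp [ev1_map]).mono (by simp)
  have h2 : ∀ x : ℝ, ev1 expC x / (Nat.factorial 25 * 256 ^ 25 : ℕ) =
      ∑ k ∈ Finset.range 26, (195 / 256 * x) ^ k / k.factorial := fun x => by
    rw [expC, ev1_range, Finset.sum_div]
    refine Finset.sum_congr rfl fun k hk => ?_
    have hk' : k ≤ 25 := Nat.lt_succ_iff.1 (Finset.mem_range.1 hk)
    have e1 : (k.factorial : ℝ) ≠ 0 := by positivity
    have e2 : (256 : ℝ) ^ 25 = 256 ^ (25 - k) * 256 ^ k := by rw [← pow_add, Nat.sub_add_cancel hk']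
    rw [Int.cast_natCast, Nat.cast_mul, Nat.cast_mul, Nat.cast_mul,
      Nat.cast_div (Nat.factorial_dvd_factorial hk') e1, Nat.cast_pow, Nat.cast_pow, Nat.cast_pow,
      Nat.cast_ofNat, Nat.cast_ofNat, e2, mul_pow, div_pow]
    field_simp
  have h3 : TM.Ok S ([], 1) fun x => Real.exp (195 / 256 * x) -
      ∑ k ∈ Finset.range 26, (195 / 256 * x) ^ k / k.factorial := by
    refine ⟨0, 0, 1, zero_le_one, by simp, fun x hx => ?_⟩
    have e1 : |195 / 256 * x| ≤ |x| := by
      rw [abs_mul]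
      exact mul_le_of_le_one_left (abs_nonneg x) (by rw [abs_of_pos] <;> norm_num)
    have e2 := Real.exp_bound (e1.trans hx) (n := 26) (by norm_num)
    have e3 : |195 / 256 * x| ^ 26 ≤ x ^ 2 := by
      rw [← sq_abs x]
      exact (pow_le_pow_left₀ (abs_nonneg _) e1 26).trans
        (pow_le_pow_of_le_one (abs_nonneg x) hx (by norm_num))
    have e4 : (S : ℝ) ≤ 2 ^ 80 := by exact_mod_cast hS'
    simp only [ev1, sub_zero, zero_mul]
    rw [abs_mul, Nat.abs_cast]
    refine (mul_le_mul e4 (e2.trans (mul_le_mul_of_nonneg_right e3 (by positivity)))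
      (abs_nonneg _) (by positivity)).trans ?_
    rw [mul_left_comm, mul_comm]
    exact mul_le_mul_of_nonneg_right (by norm_num [Nat.factorial]) (sq_nonneg x)
  exact ((h1.div (by positivity)).add h3).congr fun x _ => by rw [h2, add_sub_cancel]

/-- Upper bound of second order. -/
lemma TM.Ok.upper (hS : 0 < S) {k₀ k₁ : ℤ} {L : List ℤ} {d : ℕ} (h : TM.Ok S (k₀ :: k₁ :: L, d) f) :
    ∃ κ : ℝ, |S * κ - k₁| ≤ d ∧
      ∀ x, |x| ≤ 1 → S * (f x - f 0 - κ * x) ≤ (ev1 L x + d) * x ^ 2 := by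
  have hS' : (S : ℝ) ≠ 0 := Nat.cast_ne_zero.2 hS.ne'
  obtain ⟨a, b, e, h1, h2, h3⟩ := h
  have h4 : (S : ℝ) * ((k₁ + b) / S) = k₁ + b := mul_div_cancel₀ _ hS'
  refine ⟨(k₁ + b) / S, ?_, fun x hx => ?_⟩
  · rw [h4, add_sub_cancel_left]
    exact le_trans (by linarith [abs_nonneg a]) h2
  · have h5 := abs_le.1 (h3 0 (by simp))
    have h6 := (abs_le.1 (h3 x hx)).2
    have h7 : e * x ^ 2 ≤ d * x ^ 2 := mul_le_mul_of_nonneg_right
      (le_trans (by linarith [abs_nonneg a, abs_nonneg b]) h2) (sq_nonneg x)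
    simp only [ev1] at h5 h6
    linear_combination h5.1 + h6 + h7 - x * h4

/-- Lower bound of order zero. -/
lemma TM.Ok.lower (h : F.Ok S f) (x : ℝ) (hx : |x| ≤ 1) : ev1 F.1 x - F.2 ≤ S * f x := by
  linarith [(abs_le.1 (Nm.bound h hx)).1]

theorem tau_sharp {τ : ℝ} (t1 : 1.199675 < τ) (t2 : τ < 1.199685) (t3 : τ * sinh τ = cosh τ) :
    1.19967864025773383391 < τ ∧ τ < 1.19967864025773383392 := by
  have h0 := tcat_f_eq τ
  rw [t3, sub_self, eq_comm, div_eq_zero_iff, mul_eq_zero] at h0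
  have h1 := (h0.resolve_right two_ne_zero).resolve_right (exp_pos _).ne'
  have e : exp (2 * τ) = exp (τ / 2) ^ 4 := by
    rw [← exp_nat_mul]
    congr 1
    push_cast
    ring
  constructor
  · by_contra h
    have h2 := Real.exp_bound' (x := 1.19967864025773383391 / 2) (by norm_num) (by norm_num)
      (n := 22) (by norm_num)
    have h3 : exp (τ / 2) ≤ 1.8218260460969640016312 := by
      refine (exp_le_exp.2 (by linarith)).trans (h2.trans ?_)
      simp only [Finset.sum_range_succ, Finset.sum_range_zero, Nat.factorial]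
      norm_num
    have h4 : exp (2 * τ) ≤ 11.0160938466854227975 :=
      e ▸ (pow_le_pow_left₀ (exp_pos _).le h3 4).trans (by norm_num)
    have h5 := mul_le_mul_of_nonneg_left h4 (by linarith : 0 ≤ τ - 1)
    linarith
  · by_contra h
    have h2 := Real.sum_le_exp_of_nonneg (x := 1.19967864025773383392 / 2) (by norm_num) 22
    have h3 : 1.8218260460969640016402 ≤ exp (τ / 2) := by
      refine le_trans ?_ (h2.trans (exp_le_exp.2 (by linarith)))
      simp only [Finset.sum_range_succ, Finset.sum_range_zero, Nat.factorial]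
      norm_num
    have h4 : 11.0160938466854227974 ≤ exp (2 * τ) :=
      e ▸ le_trans (by norm_num) (pow_le_pow_left₀ (by norm_num) h3 4)
    have h5 := mul_le_mul_of_nonneg_left h4 (by linarith : 0 ≤ τ - 1)
    linarith

end Pool.Agent.Lib.MP_14b623_gt
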