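import Pool.Agent.Lib.MP_14b623_gt.Main

/-! Every free boundary minimal annulus in the unit ball, given in isothermal coordinates, has at
least the area of the critical catenoid. -/

namespace Pool.Agent.Lib.MP_14b623_gt.AnnulusArea

open Pool.Agent.Lib.MP_14b623_gt

theorem result : ∃ c τ : ℝ, 0 < c ∧ IsFBMAnnulus (-τ) τ (catenoid c) ∧
    ∀ (A B : ℝ) (X : ℝ × ℝ → E3), IsFBMAnnulus A B X → IsConformal A B X →
      area (-τ) τ (catenoid c) ≤ area A B X :=
  main_result

end Pool.Agent.Lib.MP_14b623_gt.AnnulusArea
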