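import Pool.Agent.Lib.MP_14b623_gt.BDefs

/-! The lower density bound of the area measure at an interior point. -/

namespace Pool.Agent.Lib.MP_14b623_gt

open Set MeasureTheory Filter Topology Function Real Metric
open scoped InnerProductSpace Manifold ContDiff

/-- An injective linear map of the plane becomes an isometry after a change of basis. -/
lemma bdens_iso {A : E2 →L[ℝ] E3} (hA : Injective A) :
    ∃ B : E2 →L[ℝ] E2, (∀ z, ‖A (B z)‖ = ‖z‖) ∧ |B.det| * jac (A (ev 0)) (A (ev 1)) = 1 := by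
  have e := (stdOrthonormalBasis ℝ (LinearMap.range (A : E2 →ₗ[ℝ] E3))).reindex
    (finCongr (by rw [LinearMap.finrank_range_of_inj hA]; simp : _ = 2))
  let B : E2 →ₗ[ℝ] E2 :=
    (LinearEquiv.ofInjective (A : E2 →ₗ[ℝ] E3) hA).symm.toLinearMap ∘ₗ
      e.repr.symm.toLinearEquiv.toLinearMap
  have h1 : ∀ z, A (B z) = (e.repr.symm z : E3) := fun z =>
    LinearEquiv.ofInjective_symm_apply (f := (A : E2 →ₗ[ℝ] E3)) (h := hA) (e.repr.symm z)
  have h2 : ∀ z w, ⟪A (B z), A (B w)⟫_ℝ = ⟪z, w⟫_ℝ := fun z w => by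
    rw [h1, h1, ← Submodule.coe_inner, LinearIsometryEquiv.inner_map_map]
  refine ⟨LinearMap.toContinuousLinearMap B, fun z => ?_, ?_⟩
  · rw [norm_eq_sqrt_real_inner, norm_eq_sqrt_real_inner z]
    exact congrArg _ (h2 z z)
  · rw [← jac_comp, jac]
    simp only [LinearMap.coe_toContinuousLinearMap', h2]
    simp [EuclideanSpace.inner_single_left]

/-- A symmetric set has at least half of its area in the half plane. -/
lemma bdens_half {E : Set E2} (hE : -E = E) : volume E ≤ 2 * volume (E ∩ HP) := by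
  have h1 : E ⊆ E ∩ HP ∪ -(E ∩ HP) := fun z hz => by
    rcases le_total 0 (z 0) with h | h
    · exact .inl ⟨hz, h⟩
    · exact .inr ⟨(hE.symm ▸ hz : z ∈ -E), neg_nonneg.2 h⟩
  refine (measure_mono h1).trans ((measure_union_le _ _).trans_eq ?_)
  rw [Measure.measure_neg, two_mul]

/-- The density bound in a chart; `W` is the whole plane or the half plane. -/
lemma bdens_chart {T : Set E2} {X : E2 → E3} (P : Patch T X) {y : E2} (hy : y ∈ T) {V W : Set E2}
    (hV : V ∈ 𝓝[HP] y) (hW : MeasurableSet W) (hW' : ∀ᶠ z in 𝓝 y, z - y ∈ W → z ∈ HP)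
    {n : ENNReal} (hn : ∀ E : Set E2, -E = E → volume E ≤ n * volume (E ∩ W)) {θ : ℝ}
    (hθ : θ < π) : ∀ᶠ σ in 𝓝[>] (0 : ℝ), ENNReal.ofReal (θ * σ) ≤
      n * ∫⁻ z in {z ∈ V | ‖X z - X y‖ ^ 2 < σ}, ENNReal.ofReal (areaEl X z) := by
  have hD := rel_hasFDeriv P.nhds P.smooth one_le_two hy
  have hC := (P.contDiffOn_areaEl.continuousOn y hy).mono_of_mem_nhdsWithin (P.nhds y hy)
  obtain ⟨B, hB, hJ⟩ := bdens_iso (P.inj y hy)
  have hJ0 : 0 < areaEl X y := jac_pos (P.inj y hy)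
  change |B.det| * areaEl X y = 1 at hJ
  set A := fderivWithin ℝ X HP y
  obtain ⟨r, hr0, hr1, hr⟩ : ∃ r : ℝ, 0 < r ∧ r < 1 ∧ θ < r ^ 3 * π := by
    have h1 : ∀ᶠ r in 𝓝 (1 : ℝ), θ < r ^ 3 * π :=
      (by fun_prop : Continuous fun r : ℝ => r ^ 3 * π).continuousAt.eventually
        (lt_mem_nhds (by simpa using hθ))
    obtain ⟨r, h2, h3⟩ := ((h1.filter_mono nhdsWithin_le_nhds).and
      (Ioo_mem_nhdsLT (zero_lt_one' ℝ))).exists
    exact ⟨r, h3.1, h3.2, h2⟩
  have hB0 : 0 < ‖B‖ + 1 := by positivity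
  have h1 := hD.isLittleO.bound (c := (1 - r) / (‖B‖ + 1)) (div_pos (sub_pos.2 hr1) hB0)
  have h2 : ∀ᶠ z in 𝓝[HP] y, r * areaEl X y < areaEl X z :=
    hC.eventually (lt_mem_nhds (mul_lt_of_lt_one_left hJ0 hr1))
  obtain ⟨δ, hδ, hb⟩ := Metric.eventually_nhds_iff_ball.1
    ((eventually_nhdsWithin_iff.1 ((h1.and h2).and hV)).and hW')
  filter_upwards [Ioo_mem_nhdsGT (pow_pos (div_pos hδ hB0) 2)] with σ hσ
  have hs := sqrt_pos.2 hσ.1
  have hs' : √σ * (‖B‖ + 1) < δ := (lt_div_iff₀ hB0).1 ((sqrt_lt' (div_pos hδ hB0)).2 hσ.2)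
  have hsub : ∀ z ∈ ball (0 : E2) (r * √σ), ‖B z‖ ≤ √σ * (‖B‖ + 1) := fun z hz => by
    have e1 := mem_ball_zero_iff.1 hz
    have e2 := B.le_opNorm z
    have e3 := mul_le_of_le_one_left hs.le hr1.le
    have e4 := mul_le_mul_of_nonneg_left (e1.le.trans e3) (norm_nonneg B)
    linarith
  have hin : ∀ z ∈ ball (0 : E2) (r * √σ), y + B z ∈ ball y δ := fun z hz => by
    rw [mem_ball_iff_norm, add_sub_cancel_left]
    exact (hsub z hz).trans_lt hs'
  have hS : (fun z => y + z) '' (B '' ball 0 (r * √σ) ∩ W) ⊆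
      {z ∈ V | ‖X z - X y‖ ^ 2 < σ} ∩ {z | r * areaEl X y < areaEl X z} := by
    rintro _ ⟨_, ⟨⟨z, hz, rfl⟩, hz'⟩, rfl⟩
    obtain ⟨⟨e1, e2⟩, e3⟩ := (hb _ (hin z hz)).1
      ((hb _ (hin z hz)).2 (by rwa [add_sub_cancel_left]))
    refine ⟨⟨e3, (lt_sqrt (norm_nonneg _)).1 ?_⟩, e2⟩
    rw [add_sub_cancel_left] at e1
    have e4 := norm_add_le (X (y + B z) - X y - A (B z)) (A (B z))
    rw [sub_add_cancel, hB] at e4
    have e5 := mul_le_mul_of_nonneg_left (hsub z hz) (div_pos (sub_pos.2 hr1) hB0).le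
    rw [mul_comm √σ, ← mul_assoc, div_mul_cancel₀ _ hB0.ne'] at e5
    have e6 := mem_ball_zero_iff.1 hz
    linarith
  refine le_trans ?_ (mul_le_mul_right (lintegral_mono_set (hS.trans inter_subset_left)) n)
  refine le_trans ?_ (mul_le_mul_right (setLIntegral_mono_ae'
    (f := fun _ => ENNReal.ofReal (r * areaEl X y)) ?_
    (Eventually.of_forall fun z hz => ENNReal.ofReal_le_ofReal (hS hz).2.le)) n)
  · rw [setLIntegral_const, image_add_left, measure_preimage_add, mul_left_comm]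
    refine le_trans ?_ (mul_le_mul_right (hn _ (by rw [← image_neg, neg_ball, neg_zero])) _)
    rw [Measure.addHaar_image_continuousLinearMap, EuclideanSpace.volume_ball_fin_two,
      ← ENNReal.ofReal_pow (by positivity), ← ENNReal.ofReal_mul (by positivity),
      ← ENNReal.ofReal_mul (by positivity), ← ENNReal.ofReal_mul (by positivity)]
    refine ENNReal.ofReal_le_ofReal ?_
    rw [mul_pow, sq_sqrt hσ.1.le]
    have e1 := mul_le_mul_of_nonneg_right hr.le hσ.1.le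
    linear_combination e1 - r ^ 3 * π * σ * hJ
  · have hi : Injective B := fun z w h => by
      rw [← sub_eq_zero, ← norm_eq_zero, ← hB, map_sub, h, sub_self, map_zero, norm_zero]
    exact (measurableEmbedding_addLeft y).measurableSet_image.2
      (((B.continuous.measurableEmbedding hi).measurableSet_image.2 measurableSet_ball).inter hW)

variable {M : Type} [TopologicalSpace M] [ChartedSpace (EuclideanHalfSpace 2) M]
  [IsManifold (𝓡∂ 2) ∞ M] [T2Space M] [CompactSpace M] [MeasurableSpace M] [BorelSpace M]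

lemma IsFBMS.bdens_aux {φ : M → E3} (h : IsFBMS φ) {p : M} {U : Set M} (hU : IsOpen U)
    (hpU : p ∈ U) {W : Set E2} (hW : MeasurableSet W)
    (hW' : ∀ᶠ z in 𝓝 (ch p p), z - ch p p ∈ W → z ∈ HP) {n : ℕ}
    (hn : ∀ E : Set E2, -E = E → volume E ≤ n * volume (E ∩ W)) {θ : ℝ} (hθ : θ < π) :
    ∀ᶠ σ in 𝓝[>] (0 : ℝ), θ * σ ≤ n * (areaMeasure φ).real ({x | ‖φ x - φ p‖ ^ 2 < σ} ∩ U) := by
  have := areaMeasure_finite h
  have hs := mem_extChartAt_source (I := 𝓡∂ 2) p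
  have hV : (ch p).target ∩ (ch p).symm ⁻¹' U ∈ 𝓝[HP] (ch p p) :=
    inter_mem (ch_nhds p _ (mem_extChartAt_target p)) (nhdsWithin_le_nhds
      (extChartAt_preimage_mem_nhds (hU.mem_nhds hpU)))
  filter_upwards [bdens_chart (h.patch p) (mem_extChartAt_target p) hV hW hW' hn hθ] with σ hσ
  have hm : MeasurableSet ({x | ‖φ x - φ p‖ ^ 2 < σ} ∩ U) :=
    ((isOpen_lt (((h.smooth.continuous.sub continuous_const).norm).pow 2)
      continuous_const).inter hU).measurableSet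
  rw [Measure.real, ← ENNReal.toReal_natCast, ← ENNReal.toReal_mul]
  refine (ENNReal.ofReal_le_iff_le_toReal (ENNReal.mul_ne_top (ENNReal.natCast_ne_top n)
    (measure_ne_top _ _))).1 (hσ.trans (mul_le_mul_right ?_ _))
  refine le_trans ?_ (Measure.restrict_le_self (s := (ch p).source) _)
  rw [areaMeasure_restrict h p, chartArea_apply φ p hm]
  refine lintegral_mono_set fun z hz => ⟨(ch p).symm z, ⟨⟨?_, hz.1.2⟩, (ch p).map_target hz.1.1⟩,
    (ch p).right_inv hz.1.1⟩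
  have e : inChart φ p (ch p p) = φ p := congrArg φ ((ch p).left_inv hs)
  have h2 := hz.2
  rw [e] at h2
  exact h2

/-- The area measure has density at least one at every interior point. -/
theorem IsFBMS.dens {φ : M → E3} (h : IsFBMS φ) {p : M} (hp : p ∉ (𝓡∂ 2).boundary M)
    {U : Set M} (hU : IsOpen U) (hpU : p ∈ U) {θ : ℝ} (hθ : θ < π) :
    ∀ᶠ σ in 𝓝[>] (0 : ℝ), θ * σ ≤ (areaMeasure φ).real ({x | ‖φ x - φ p‖ ^ 2 < σ} ∩ U) := by
  have h0 : 0 < ch p p 0 := lt_of_le_of_ne (gchart_mem p p) fun e =>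
    hp ((bdry_iff (mem_extChartAt_source p)).2 e.symm)
  simpa only [Nat.cast_one, one_mul] using h.bdens_aux hU hpU (n := 1) MeasurableSet.univ
    (mem_of_superset (HP_mem_nhds h0) fun z hz _ => hz) (fun E _ => by simp) hθ

/-- The area measure has density at least one half at every point. -/
theorem IsFBMS.dens_half {φ : M → E3} (h : IsFBMS φ) {p : M} {U : Set M} (hU : IsOpen U)
    (hpU : p ∈ U) {θ : ℝ} (hθ : θ < π) :
    ∀ᶠ σ in 𝓝[>] (0 : ℝ), θ * σ ≤ 2 * (areaMeasure φ).real ({x | ‖φ x - φ p‖ ^ 2 < σ} ∩ U) :=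
  h.bdens_aux hU hpU (n := 2) isClosed_HP.measurableSet
    (Eventually.of_forall fun z (hz : 0 ≤ z 0 - ch p p 0) =>
      (le_trans (gchart_mem p p) (sub_nonneg.1 hz) : 0 ≤ z 0))
    (fun _ => bdens_half) hθ

end Pool.Agent.Lib.MP_14b623_gt
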