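import Pool.Agent.Lib.MP_14b623_gt.SLoc

/-! The exact first variation formula and the formula of Stokes. -/

namespace Pool.Agent.Lib.MP_14b623_gt

open Set MeasureTheory Filter Topology Function
open scoped InnerProductSpace Manifold ContDiff

lemma jac_orth {u v : E3} (hu : ‖u‖ = 1) (hv : ‖v‖ = 1) (h : ⟪u, v⟫_ℝ = 0) :
    ⟪u, u⟫_ℝ * ⟪v, v⟫_ℝ - ⟪u, v⟫_ℝ ^ 2 = 1 ∧ jac u v = 1 ∧ wv0 u v = u ∧ wv1 u v = v := by
  simp [jac, wv0, wv1, hu, hv, h]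

lemma norm_cr {u v : E3} (hu : ‖u‖ = 1) (hv : ‖v‖ = 1) (h : ⟪u, v⟫_ℝ = 0) : ‖cr u v‖ = 1 :=
  GLin_norm ((inner_cr_self u v).trans (jac_orth hu hv h).1)

/-- The trace on a plane, in an orthonormal frame. -/
lemma trace_frame {u v n : E3} (hu : ‖u‖ = 1) (hv : ‖v‖ = 1) (h : ⟪u, v⟫_ℝ = 0) (hn : ‖n‖ = 1)
    (h1 : ⟪n, u⟫_ℝ = 0) (h2 : ⟪n, v⟫_ℝ = 0) (L : E3 →L[ℝ] E3) :
    ⟪L u, u⟫_ℝ + ⟪L v, v⟫_ℝ = tr3 L - ⟪L n, n⟫_ℝ := by
  obtain ⟨e0, e1, e2, e3⟩ := jac_orth hu hv h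
  have := trace_wv (by rw [e0]; exact one_pos) hn h1 h2 L
  rwa [e1, e2, e3, mul_one] at this

lemma cr_cr (a b c : E3) : cr a (cr b c) = ⟪a, c⟫_ℝ • b - ⟪a, b⟫_ℝ • c := by
  refine ext3 ?_ ?_ ?_ <;>
    simp only [cr0, cr1, cr2, PiLp.sub_apply, PiLp.smul_apply, smul_eq_mul, inner3] <;> ring

/-- A vector orthogonal to the unit normal is tangent. -/
lemma tangent_of_orth {A : E2 →L[ℝ] E3} (hA : Injective A) {n w : E3} (hn : ‖n‖ = 1)
    (h : ∀ v, ⟪n, A v⟫_ℝ = 0) (hw : ⟪n, w⟫_ℝ = 0) : ∃ v, A v = w := by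
  obtain ⟨v, hv⟩ := exists_tan hA w
  have h1 : ∀ i, ⟪w - A v, A (ev i)⟫_ℝ = 0 := fun i => by rw [inner_sub_left, hv, sub_self]
  have h2 := smul_normal (h1 0) (h1 1)
  rw [(normal_eq (gram_pos hA) hn (h _) (h _)).2, real_inner_smul_right, real_inner_comm n,
    inner_sub_right, hw, h, sub_zero, mul_zero, zero_smul, smul_eq_zero] at h2
  exact ⟨v, (sub_eq_zero.1 (h2.resolve_left (gram_pos hA).ne')).symm⟩

variable {M : Type} [TopologicalSpace M] [ChartedSpace (EuclideanHalfSpace 2) M]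

/-- `n` is a unit normal vector of `φ` at `x`. -/
def IsNrm (φ : M → E3) (x : M) (n : E3) : Prop :=
  ‖n‖ = 1 ∧ ∀ v, ⟪n, mder (𝓡∂ 2) φ x v⟫_ℝ = 0

/-- A choice of unit normal at every point (not continuous in general). -/
noncomputable def nrm (φ : M → E3) (x : M) : E3 :=
  (areaEl (inChart φ x) (ch x x))⁻¹ • cr (pd 0 (inChart φ x) (ch x x)) (pd 1 (inChart φ x) (ch x x))

/-- The trace of `L` on the tangent plane at `x`. -/
noncomputable def tanTr (φ : M → E3) (x : M) (L : E3 →L[ℝ] E3) : ℝ :=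
  tr3 L - ⟪L (nrm φ x), nrm φ x⟫_ℝ

variable [IsManifold (𝓡∂ 2) ∞ M] {φ : M → E3}

lemma IsFBMS.mder_eq (h : IsFBMS φ) (x : M) (v : E2) :
    mder (𝓡∂ 2) φ x v = fderivWithin ℝ (inChart φ x) HP (ch x x) v := mfderiv_eq h.smooth x v

lemma IsFBMS.chart_der (h : IsFBMS φ) {p x : M} (hx : x ∈ (ch p).source) (v : E2) :
    fderivWithin ℝ (inChart φ p) HP (ch p x) v =
      mder (𝓡∂ 2) φ x (fderivWithin ℝ (ch x ∘ (ch p).symm) HP (ch p x) v) := by
  rw [h.mder_eq]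
  exact DFunLike.congr_fun (ch_chain (f := φ) hx (mem_extChartAt_source x)
    (rel_hasFDeriv (ch_nhds x) (h.patch x).smooth (by norm_num)
      (mem_extChartAt_target x)).differentiableWithinAt) v

lemma IsNrm.chart (h : IsFBMS φ) {q : M} {y : E2} (hy : y ∈ (ch q).target) {n : E3}
    (hn : IsNrm φ ((ch q).symm y) n) : ‖n‖ = 1 ∧ ∀ i, ⟪n, pd i (inChart φ q) y⟫_ℝ = 0 := by
  refine ⟨hn.1, fun i => ?_⟩
  have := h.chart_der ((ch q).map_target hy) (ev i)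
  rw [(ch q).right_inv hy] at this
  rw [pd_eq, this]
  exact hn.2 _

lemma IsFBMS.isNrm (h : IsFBMS φ) (x : M) : IsNrm φ x (nrm φ x) := by
  have hi := (h.patch x).inj _ (mem_extChartAt_target x)
  refine ⟨GLin_norm ?_, fun v => ?_⟩
  · have h1 := (jac_pos hi).ne'
    rw [nrm, real_inner_smul_left, real_inner_smul_right, inner_cr_self, areaEl_eq]
    simp only [pd_eq]
    rw [← jac_sq hi]
    field_simp
  · rw [h.mder_eq, GLin_map, nrm]
    simp only [inner_add_right, real_inner_smul_left, real_inner_smul_right, pd_eq, inner_cr_left,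
      inner_cr_right, mul_zero, add_zero]

omit [IsManifold (𝓡∂ 2) ∞ M] in
lemma IsNrm.bdry (h : IsFBMS φ) {x : M} (hx : x ∈ (𝓡∂ 2).boundary M) {n : E3}
    (hn : IsNrm φ x n) : ⟪n, φ x⟫_ℝ = 0 := by
  obtain ⟨v, hv⟩ := h.orth x hx
  rw [← hv]
  exact hn.2 v

lemma IsNrm.tangent (h : IsFBMS φ) {x : M} {n w : E3} (hn : IsNrm φ x n) (hw : ⟪n, w⟫_ℝ = 0) :
    ∃ v, mder (𝓡∂ 2) φ x v = w := by
  simp only [h.mder_eq]
  exact tangent_of_orth ((h.patch x).inj _ (mem_extChartAt_target x)) hn.1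
    (fun v => h.mder_eq x v ▸ hn.2 v) hw

/-- An orthonormal tangent frame adapted to a unit normal. -/
lemma IsNrm.frame (h : IsFBMS φ) {x : M} {n : E3} (hn : IsNrm φ x n) :
    ∃ u v : E3, ‖u‖ = 1 ∧ ‖v‖ = 1 ∧ ⟪u, v⟫_ℝ = 0 ∧ cr u v = n ∧ ⟪n, u⟫_ℝ = 0 ∧ ⟪n, v⟫_ℝ = 0 := by
  set a := mder (𝓡∂ 2) φ x (ev 0) with ha
  have h0 : a ≠ 0 := fun e => by
    have := GLin_ev ((h.patch x).inj _ (mem_extChartAt_target x)) 0
    rw [← h.mder_eq, ← ha, e, inner_zero_left] at this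
    exact this.false
  have h1 : ‖‖a‖⁻¹ • a‖ = 1 := norm_smul_inv_norm h0
  have h2 : ⟪n, ‖a‖⁻¹ • a⟫_ℝ = 0 := by rw [real_inner_smul_right, hn.2, mul_zero]
  refine ⟨‖a‖⁻¹ • a, cr n (‖a‖⁻¹ • a), h1, norm_cr hn.1 h1 h2, ?_, ?_, h2, ?_⟩
  · rw [real_inner_comm, inner_cr_right]
  · rw [cr_cr, real_inner_self_eq_norm_sq, h1, real_inner_comm, h2]
    simp
  · rw [real_inner_comm, inner_cr_left]

lemma IsNrm.tanTr_chart (h : IsFBMS φ) {q : M} {y : E2} (hy : y ∈ (ch q).target) {n : E3}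
    (hn : IsNrm φ ((ch q).symm y) n) (L : E3 →L[ℝ] E3) :
    tr3 L - ⟪L n, n⟫_ℝ = (⟪L (pd 0 (inChart φ q) y),
      wv0 (pd 0 (inChart φ q) y)
        (pd 1 (inChart φ q) y)⟫_ℝ +
      ⟪L (pd 1 (inChart φ q) y),
        wv1 (pd 0 (inChart φ q) y)
          (pd 1 (inChart φ q) y)⟫_ℝ) / areaEl (inChart φ q) y := by
  have h1 := hn.chart h hy
  rw [trace_wv ((h.patch q).gdiv_pos hy) h1.1 (h1.2 0) (h1.2 1) L]
  exact (mul_div_cancel_right₀ _ (jac_pos ((h.patch q).inj y hy)).ne').symm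

lemma IsNrm.tanTr_eq (h : IsFBMS φ) {x : M} {n : E3} (hn : IsNrm φ x n) (L : E3 →L[ℝ] E3) :
    tanTr φ x L = tr3 L - ⟪L n, n⟫_ℝ := by
  have e : (ch x).symm (ch x x) = x := extChartAt_to_inv x
  exact (IsNrm.tanTr_chart h (mem_extChartAt_target x) (by rw [e]; exact h.isNrm x) L).trans
    (IsNrm.tanTr_chart h (mem_extChartAt_target x) (by rw [e]; exact hn) L).symm

/-- An orthonormal tangent frame which computes the tangential trace. -/
lemma IsFBMS.frame (h : IsFBMS φ) (x : M) :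
    ∃ u v : E3, ‖u‖ = 1 ∧ ‖v‖ = 1 ∧ ⟪u, v⟫_ℝ = 0 ∧ (∃ w, mder (𝓡∂ 2) φ x w = u) ∧
      (∃ w, mder (𝓡∂ 2) φ x w = v) ∧
      ∀ L : E3 →L[ℝ] E3, tanTr φ x L = ⟪L u, u⟫_ℝ + ⟪L v, v⟫_ℝ := by
  obtain ⟨u, v, h1, h2, h3, -, h5, h6⟩ := (h.isNrm x).frame h
  exact ⟨u, v, h1, h2, h3, (h.isNrm x).tangent h h5, (h.isNrm x).tangent h h6, fun L =>
    (trace_frame h1 h2 h3 (h.isNrm x).1 h5 h6 L).symm⟩

lemma IsFBMS.continuous_tanTr (h : IsFBMS φ) {L : M → E3 →L[ℝ] E3} (hL : Continuous L) :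
    Continuous fun x => tanTr φ x (L x) := by
  refine continuous_iff_continuousAt.2 fun q => ?_
  have P := h.patch q
  have c : ContinuousOn (fun y => L ((ch q).symm y)) (ch q).target :=
    hL.comp_continuousOn (continuousOn_extChartAt_symm q)
  have c1 := (((c.clm_apply (P.contDiffOn_pd 0).continuousOn).inner
    P.contDiffOn_w0.continuousOn).add ((c.clm_apply (P.contDiffOn_pd 1).continuousOn).inner
      P.contDiffOn_w1.continuousOn)).div P.contDiffOn_areaEl.continuousOn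
        fun y hy => (jac_pos (P.inj y hy)).ne'
  refine ((c1.comp (continuousOn_extChartAt (I := 𝓡∂ 2) q) fun x hx =>
    (ch q).map_source hx).congr fun x hx => ?_).continuousAt (extChartAt_source_mem_nhds q)
  have e := (ch q).left_inv hx
  have := IsNrm.tanTr_chart h ((ch q).map_source hx) (n := nrm φ x) (by rw [e]; exact h.isNrm x)
    (L x)
  simp only [comp_apply, Pi.div_apply, Pi.add_apply, e]
  exact this

section field

variable (h : IsFBMS φ) {ζ : E3 → E3} (hζ : ∀ x, ContDiffAt ℝ 1 ζ (φ x))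
include h hζ

omit [IsManifold (𝓡∂ 2) ∞ M] in
lemma IsFBMS.continuous_field : Continuous fun x => ζ (φ x) :=
  continuous_iff_continuousAt.2 fun x =>
    (hζ x).continuousAt.comp h.smooth.continuous.continuousAt

omit [IsManifold (𝓡∂ 2) ∞ M] in
lemma IsFBMS.continuous_fderiv : Continuous fun x => fderiv ℝ ζ (φ x) :=
  continuous_iff_continuousAt.2 fun x =>
    ((hζ x).fderiv_right (m := 0) (by norm_num)).continuousAt.comp h.smooth.continuous.continuousAt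

/-- The divergence of an ambient field along the surface. -/
theorem IsFBMS.isDiv_field : IsDiv φ (fun x => ζ (φ x)) fun x => tanTr φ x (fderiv ℝ ζ (φ x)) :=
  ⟨h.continuous_field hζ, h.continuous_tanTr (h.continuous_fderiv hζ), fun q =>
    (h.patch q).divOn_field (fun _ _ => hζ _) (n := fun y => nrm φ ((ch q).symm y))
      fun _ hy => (h.isNrm _).chart h hy⟩

/-- The divergence of the rotated field `ζ × N` is the normal part of the curl. -/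
theorem IsFBMS.isDiv_curl {N : M → E3} (hN : Continuous N) (hn : ∀ x, IsNrm φ x (N x)) :
    IsDiv φ (fun x => cr (ζ (φ x)) (N x)) fun x => ⟪curl (fderiv ℝ ζ (φ x)), N x⟫_ℝ :=
  ⟨continuous_cr (h.continuous_field hζ) hN,
    (continuous_curl.comp (h.continuous_fderiv hζ)).inner hN, fun q =>
    (h.patch q).divOn_curl (fun _ _ => hζ _) (n := fun y => N ((ch q).symm y))
      (fun _ hy => (hn _).chart h hy) (hN.comp_continuousOn (continuousOn_extChartAt_symm q))⟩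

end field

/-- The velocity of a boundary curve is tangent to the surface and to the sphere. -/
lemma IsFBMS.good_orth (h : IsFBMS φ) {γ : ℝ → M} {g' : ℝ → E3} (hg : h.atlas.Good γ g') (t : ℝ) :
    ⟪g' t, φ (γ t)⟫_ℝ = 0 ∧ ∀ n, IsNrm φ (γ t) n → ⟪g' t, n⟫_ℝ = 0 := by
  constructor
  · have h1 := (hg.der t).inner ℝ (hg.der t)
    have h2 : (fun t => ⟪φ (γ t), φ (γ t)⟫_ℝ) = fun _ => 1 := funext fun t => by
      rw [real_inner_self_eq_norm_sq, h.bdry _ (hg.mem t), one_pow]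
    rw [h2] at h1
    have h3 := h1.unique (hasDerivAt_const t (1 : ℝ))
    rw [real_inner_comm (g' t)] at h3
    linarith
  · intro n hn
    obtain ⟨s, hs, e, -⟩ := h.atlas.cover _ (hg.mem t)
    obtain ⟨k, hk, hk'⟩ := hg.loc (γ t) t ⟨s, hs, e⟩
    obtain ⟨h1, h2⟩ := hk'.self_of_nhds
    have h3 : g' t = deriv k t • h.atlas.v (γ t) (k t) :=
      (hg.der t).unique (((h.atlas.der _ _ h1).scomp t hk.hasDerivAt).congr_of_eventuallyEq
        (hk'.mono fun r hr => congrArg φ hr.2))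
    rw [h3, real_inner_smul_left, real_inner_comm]
    rw [h2] at hn
    exact mul_eq_zero_of_right _ ((IsNrm.chart h h1 hn).2 1)

/-- The orientation of a boundary curve with respect to a continuous unit normal. -/
lemma IsFBMS.sign_nrm (h : IsFBMS φ) {N : M → E3} (hN : Continuous N) (hn : ∀ x, IsNrm φ x (N x))
    {γ : ℝ → M} {g' : ℝ → E3} (hg : h.atlas.Good γ g') :
    ∃ ε : ℝ, (ε = 1 ∨ ε = -1) ∧ ∀ t, ‖g' t‖ • cr (N (γ t)) (φ (γ t)) = ε • g' t := by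
  have h0 : ∀ t, ‖g' t‖ ≠ 0 := fun t => norm_ne_zero_iff.2 (hg.ne t)
  set σ : ℝ → ℝ := fun t => ⟪‖g' t‖⁻¹ • g' t, cr (N (γ t)) (φ (γ t))⟫_ℝ with hσ
  have h1 : ∀ t, σ t ^ 2 = 1 ∧ ‖g' t‖ • cr (N (γ t)) (φ (γ t)) = σ t • g' t := fun t => by
    obtain ⟨e0, e1, -⟩ := jac_orth (hn _).1 (h.bdry _ (hg.mem t)) ((hn _).bdry h (hg.mem t))
    obtain ⟨a1, a2⟩ := normal_eq (n := ‖g' t‖⁻¹ • g' t) (by rw [e0]; exact one_pos)
      (norm_smul_inv_norm (𝕜 := ℝ) (hg.ne t))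
      (by rw [real_inner_smul_left, (h.good_orth hg t).2 _ (hn _), mul_zero])
      (by rw [real_inner_smul_left, (h.good_orth hg t).1, mul_zero])
    rw [e1, div_one] at a1
    refine ⟨a1, ?_⟩
    conv_lhs => rw [a2]
    rw [smul_comm, smul_inv_smul₀ (h0 t)]
  have h2 : Continuous σ := ((hg.cont.norm.inv₀ h0).smul hg.cont).inner
    (continuous_cr (hN.comp hg.continuous) (h.smooth.continuous.comp hg.continuous))
  rcases isPreconnected_univ.eq_one_or_eq_neg_one_of_sq_eq h2.continuousOn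
    (fun t _ => (h1 t).1) with e | e
  · exact ⟨1, .inl rfl, fun t => by rw [(h1 t).2, e (mem_univ t)]; rfl⟩
  · exact ⟨-1, .inr rfl, fun t => by rw [(h1 t).2, e (mem_univ t)]; rfl⟩

variable [T2Space M] [CompactSpace M] [MeasurableSpace M] [BorelSpace M]

lemma IsFBMS.integrable (h : IsFBMS φ) {f : M → ℝ} (hf : Continuous f) :
    Integrable f (areaMeasure φ) := by
  have := areaMeasure_finite h
  exact hf.integrable_of_hasCompactSupport (HasCompactSupport.of_compactSpace f)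

/-- First variation without boundary curves: a flux at most `c` gives at most `c` times the
boundary length `2 |M|`. -/
theorem IsFBMS.fv_le_area (h : IsFBMS φ) {ζ : E3 → E3} (hζ : ∀ x, ContDiffAt ℝ 1 ζ (φ x))
    {f : M → ℝ} (hf : Integrable f (areaMeasure φ))
    (hle : ∀ x, ∀ u v : E3, ‖u‖ = 1 → ‖v‖ = 1 → ⟪u, v⟫_ℝ = 0 → (∃ w, mder (𝓡∂ 2) φ x w = u) →
      (∃ w, mder (𝓡∂ 2) φ x w = v) →
      f x ≤ ⟪fderiv ℝ ζ (φ x) u, u⟫_ℝ + ⟪fderiv ℝ ζ (φ x) v, v⟫_ℝ) {c : ℝ}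
    (hb : ∀ x ∈ (𝓡∂ 2).boundary M, ⟪ζ (φ x), φ x⟫_ℝ ≤ c) :
    ∫ x, f x ∂areaMeasure φ ≤ 2 * c * surfaceArea φ := by
  have := areaMeasure_finite h
  have D := h.isDiv_field (ζ := fun z => c • z - ζ z) fun x =>
    (contDiffAt_id.const_smul c).sub (hζ x)
  have h1 := D.nonneg h fun x hx => by
    rw [inner_sub_left, real_inner_smul_left, real_inner_self_eq_norm_sq, h.bdry x hx]
    linarith [hb x hx]
  have h2 := integral_mono (h.integrable D.cf) ((integrable_const (2 * c)).sub hf) fun x => by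
    obtain ⟨u, v, a1, a2, a3, a4, a5, a6⟩ := h.frame x
    have h3 : HasFDerivAt (fun z => c • z - ζ z)
        (c • ContinuousLinearMap.id ℝ E3 - fderiv ℝ ζ (φ x)) (φ x) :=
      ((hasFDerivAt_id _).const_smul c).sub ((hζ x).differentiableAt one_ne_zero).hasFDerivAt
    have h4 := hle x u v a1 a2 a3 a4 a5
    simp only [a6, h3.fderiv, sub_apply, smul_apply, ContinuousLinearMap.id_apply, inner_sub_left,
      real_inner_smul_left, real_inner_self_eq_norm_sq, a1, a2, Pi.sub_apply]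
    linarith
  have h3 := integral_sub (integrable_const (2 * c)) hf
  rw [integral_const, smul_eq_mul, mul_comm _ (2 * c)] at h3
  have h4 := (h1.trans h2).trans_eq h3
  exact sub_nonneg.1 h4

variable (h : IsFBMS φ) {ι : Type*} [Fintype ι] {γ : ι → ℝ → M} {g' : ι → ℝ → E3}
  (hg : ∀ i, h.atlas.Good (γ i) (g' i)) (hd : ∀ i j, i ≠ j → ∀ s t, γ i s ≠ γ j t)
  (hK : ∀ x ∈ (𝓡∂ 2).boundary M, ∃ i t, γ i t = x)
include hg hd hK

/-- The exact first variation formula. -/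
theorem IsFBMS.fv_eq {ζ : E3 → E3} (hζ : ∀ x, ContDiffAt ℝ 1 ζ (φ x)) :
    ∫ x, tanTr φ x (fderiv ℝ ζ (φ x)) ∂areaMeasure φ =
      ∑ i, ∫ t in (0 : ℝ)..1, ⟪ζ (φ (γ i t)), φ (γ i t)⟫_ℝ * ‖g' i t‖ :=
  (h.isDiv_field hζ).curves h hg hd hK

/-- The first variation formula as an inequality; no orientation is needed. -/
theorem IsFBMS.fv_le {ζ : E3 → E3} (hζ : ∀ x, ContDiffAt ℝ 1 ζ (φ x)) {f : M → ℝ}
    (hf : Integrable f (areaMeasure φ))
    (hle : ∀ x, ∀ u v : E3, ‖u‖ = 1 → ‖v‖ = 1 → ⟪u, v⟫_ℝ = 0 → (∃ w, mder (𝓡∂ 2) φ x w = u) →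
      (∃ w, mder (𝓡∂ 2) φ x w = v) →
      f x ≤ ⟪fderiv ℝ ζ (φ x) u, u⟫_ℝ + ⟪fderiv ℝ ζ (φ x) v, v⟫_ℝ) :
    ∫ x, f x ∂areaMeasure φ ≤
      ∑ i, ∫ t in (0 : ℝ)..1, ⟪ζ (φ (γ i t)), φ (γ i t)⟫_ℝ * ‖g' i t‖ := by
  rw [← h.fv_eq hg hd hK hζ]
  refine integral_mono hf (h.integrable (h.isDiv_field hζ).cf) fun x => ?_
  obtain ⟨u, v, h1, h2, h3, h4, h5, h6⟩ := h.frame x
  simp only [h6]
  exact hle x u v h1 h2 h3 h4 h5

/-- The boundary length is twice the area. -/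
theorem IsFBMS.length_eq : ∑ i, ∫ t in (0 : ℝ)..1, ‖g' i t‖ = 2 * surfaceArea φ := by
  have := areaMeasure_finite h
  have h1 := h.fv_eq hg hd hK (ζ := id) fun _ => contDiffAt_id
  have h2 : ∀ x, tanTr φ x (fderiv ℝ id (φ x)) = 2 := fun x => by
    obtain ⟨u, v, a1, a2, -, -, -, a6⟩ := h.frame x
    simp only [a6, fderiv_id, ContinuousLinearMap.id_apply, real_inner_self_eq_norm_sq, a1, a2]
    norm_num
  have h3 : ∀ i t, ⟪id (φ (γ i t)), φ (γ i t)⟫_ℝ = 1 := fun i t => by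
    rw [id, real_inner_self_eq_norm_sq, h.bdry _ ((hg i).mem t), one_pow]
  simp only [h2, h3, one_mul, integral_const, smul_eq_mul] at h1
  rw [← h1, mul_comm]
  rfl

/-- The balancing formula. -/
theorem IsFBMS.balance (e : E3) :
    ∑ i, ∫ t in (0 : ℝ)..1, ⟪e, φ (γ i t)⟫_ℝ * ‖g' i t‖ = 0 := by
  rw [← h.fv_eq hg hd hK (ζ := fun _ => e) fun _ => contDiffAt_const]
  simp [tanTr, tr3]

/-- The formula of Stokes. -/
theorem IsFBMS.stokes {N : M → E3} (hN : Continuous N) (hn : ∀ x, IsNrm φ x (N x)) :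
    ∃ ε : ι → ℝ, (∀ i, ε i = 1 ∨ ε i = -1) ∧ ∀ A : E3 → E3, (∀ x, ContDiffAt ℝ 1 A (φ x)) →
      ∫ x, ⟪curl (fderiv ℝ A (φ x)), N x⟫_ℝ ∂areaMeasure φ =
        ∑ i, ε i * ∫ t in (0 : ℝ)..1, ⟪A (φ (γ i t)), g' i t⟫_ℝ := by
  choose ε h1 h2 using fun i => h.sign_nrm hN hn (hg i)
  refine ⟨ε, h1, fun A hA => ((h.isDiv_curl hA hN hn).curves h hg hd hK).trans ?_⟩
  refine Finset.sum_congr rfl fun i _ => ?_
  rw [← intervalIntegral.integral_const_mul]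
  refine intervalIntegral.integral_congr fun t _ => ?_
  rw [inner_cr_assoc, mul_comm, ← real_inner_smul_right, h2, real_inner_smul_right]

/-- First variation and Stokes together, as an inequality. -/
theorem IsFBMS.stokes_le {N : M → E3} (hN : Continuous N) (hn : ∀ x, IsNrm φ x (N x)) :
    ∃ ε : ι → ℝ, (∀ i, ε i = 1 ∨ ε i = -1) ∧ ∀ ζ A : E3 → E3, (∀ x, ContDiffAt ℝ 1 ζ (φ x)) →
      (∀ x, ContDiffAt ℝ 1 A (φ x)) → ∀ f : M → ℝ, Integrable f (areaMeasure φ) →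
      (∀ x, ∀ u v : E3, ‖u‖ = 1 → ‖v‖ = 1 → ⟪u, v⟫_ℝ = 0 → cr u v = N x →
        f x ≤ ⟪fderiv ℝ ζ (φ x) u, u⟫_ℝ + ⟪fderiv ℝ ζ (φ x) v, v⟫_ℝ -
          (⟪fderiv ℝ A (φ x) u, v⟫_ℝ - ⟪fderiv ℝ A (φ x) v, u⟫_ℝ)) →
      ∫ x, f x ∂areaMeasure φ ≤ ∑ i, ∫ t in (0 : ℝ)..1,
        (⟪ζ (φ (γ i t)), φ (γ i t)⟫_ℝ * ‖g' i t‖ - ε i * ⟪A (φ (γ i t)), g' i t⟫_ℝ) := by
  obtain ⟨ε, h1, h2⟩ := h.stokes hg hd hK hN hn
  refine ⟨ε, h1, fun ζ A hζ hA f hf hle => ?_⟩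
  have i1 := h.integrable (h.isDiv_field hζ).cf
  have i2 := h.integrable (h.isDiv_curl hA hN hn).cf
  have e : ∀ i, ∫ t in (0 : ℝ)..1,
      (⟪ζ (φ (γ i t)), φ (γ i t)⟫_ℝ * ‖g' i t‖ - ε i * ⟪A (φ (γ i t)), g' i t⟫_ℝ) =
      (∫ t in (0 : ℝ)..1, ⟪ζ (φ (γ i t)), φ (γ i t)⟫_ℝ * ‖g' i t‖) -
        ε i * ∫ t in (0 : ℝ)..1, ⟪A (φ (γ i t)), g' i t⟫_ℝ := fun i => by
    have c1 := ((((h.continuous_field hζ).inner (𝕜 := ℝ) h.smooth.continuous).comp
      (hg i).continuous).mul (hg i).cont.norm).intervalIntegrable (μ := volume) 0 1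
    have c2 := ((((h.continuous_field hA).comp (hg i).continuous).inner (𝕜 := ℝ)
      (hg i).cont).intervalIntegrable (μ := volume) 0 1).const_mul (ε i)
    rw [← intervalIntegral.integral_const_mul]
    exact intervalIntegral.integral_sub c1 c2
  simp only [e]
  rw [Finset.sum_sub_distrib, ← h2 A hA, ← h.fv_eq hg hd hK hζ, ← integral_sub i1 i2]
  refine integral_mono hf (i1.sub i2) fun x => ?_
  obtain ⟨u, v, a1, a2, a3, a4, a5, a6⟩ := (hn x).frame h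
  have := hle x u v a1 a2 a3 a4
  rw [trace_frame a1 a2 a3 (hn x).1 a5 a6, ← (hn x).tanTr_eq h, ← inner_curl, a4] at this
  exact this

end Pool.Agent.Lib.MP_14b623_gt
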