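import Pool.Agent.Lib.MP_14b623_gt.BDefs
import Pool.Agent.Lib.MP_14b623_gt.SMain

/-! The divergence of `ζ + α × N` in a chart. -/

namespace Pool.Agent.Lib.MP_14b623_gt

open Set MeasureTheory Filter Topology Function Real
open scoped InnerProductSpace Manifold ContDiff

lemma crs_eq : crs = cr := rfl

/-- For a unit normal `n` of the plane of `a = A e₀, b = A e₁`: `a × b = σ J n`, `σ = ± 1`. -/
lemma crs_sign {A : E2 →L[ℝ] E3} (hA : Injective A) {n : E3} (hn : ‖n‖ = 1)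
    (h0 : ⟪n, A (ev 0)⟫_ℝ = 0) (h1 : ⟪n, A (ev 1)⟫_ℝ = 0) :
    (⟪n, crs (A (ev 0)) (A (ev 1))⟫_ℝ / jac (A (ev 0)) (A (ev 1))) ^ 2 = 1 ∧
    crs (A (ev 0)) (A (ev 1)) = ⟪n, crs (A (ev 0)) (A (ev 1))⟫_ℝ • n :=
  normal_eq (gram_pos hA) hn h0 h1

/-- `⟪z × n, w₀⟫ = σ ⟪z, b⟫`, `⟪z × n, w₁⟫ = - σ ⟪z, a⟫`. -/
lemma crs_wv {A : E2 →L[ℝ] E3} (hA : Injective A) {n : E3} (hn : ‖n‖ = 1)
    (h0 : ⟪n, A (ev 0)⟫_ℝ = 0) (h1 : ⟪n, A (ev 1)⟫_ℝ = 0) (z : E3) :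
    ⟪crs z n, wv0 (A (ev 0)) (A (ev 1))⟫_ℝ =
      ⟪n, crs (A (ev 0)) (A (ev 1))⟫_ℝ / jac (A (ev 0)) (A (ev 1)) * ⟪z, A (ev 1)⟫_ℝ ∧
    ⟪crs z n, wv1 (A (ev 0)) (A (ev 1))⟫_ℝ =
      -(⟪n, crs (A (ev 0)) (A (ev 1))⟫_ℝ / jac (A (ev 0)) (A (ev 1)) * ⟪z, A (ev 0)⟫_ℝ) :=
  inner_cr_wv h0 h1 z

/-- Expand `a = a₁ u + a₂ v`, `b = b₁ u + b₂ v` in the orthonormal basis `u, v = n × u, n`;
`⟪n, a × b⟫ = a₁ b₂ - a₂ b₁ = σ J`. -/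
lemma frame_trace {A : E2 →L[ℝ] E3} (hA : Injective A) {n u : E3} (hn : ‖n‖ = 1) (hu : ‖u‖ = 1)
    (hnu : ⟪n, u⟫_ℝ = 0) (h0 : ⟪n, A (ev 0)⟫_ℝ = 0) (h1 : ⟪n, A (ev 1)⟫_ℝ = 0)
    (L : E3 →L[ℝ] E3) :
    (⟪L u, u⟫_ℝ + ⟪L (crs n u), crs n u⟫_ℝ) * jac (A (ev 0)) (A (ev 1)) =
      ⟪L (A (ev 0)), wv0 (A (ev 0)) (A (ev 1))⟫_ℝ + ⟪L (A (ev 1)), wv1 (A (ev 0)) (A (ev 1))⟫_ℝ ∧
    (⟪L u, crs n u⟫_ℝ - ⟪L (crs n u), u⟫_ℝ) * jac (A (ev 0)) (A (ev 1)) =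
      ⟪n, crs (A (ev 0)) (A (ev 1))⟫_ℝ / jac (A (ev 0)) (A (ev 1)) *
        (⟪L (A (ev 0)), A (ev 1)⟫_ℝ - ⟪L (A (ev 1)), A (ev 0)⟫_ℝ) := by
  have a1 : ⟪u, cr n u⟫_ℝ = 0 := by rw [real_inner_comm, inner_cr_right]
  have a2 : ⟪n, cr n u⟫_ℝ = 0 := by rw [real_inner_comm, inner_cr_left]
  have a3 : cr u (cr n u) = n := by
    rw [cr_cr, real_inner_self_eq_norm_sq, hu, real_inner_comm, hnu]
    simp
  obtain ⟨b1, b2⟩ := normal_eq (gram_pos hA) hn h0 h1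
  have hJ := (jac_pos hA).ne'
  rw [crs_eq, trace_frame hu (norm_cr hn hu hnu) a1 hn hnu a2, trace_wv (gram_pos hA) hn h0 h1,
    ← inner_curl, ← inner_curl, a3]
  refine ⟨rfl, ?_⟩
  nth_rewrite 2 [b2]
  rw [div_pow, div_eq_one_iff_eq (pow_ne_zero 2 hJ)] at b1
  rw [real_inner_smul_right]
  field_simp
  linear_combination (-⟪curl L, n⟫_ℝ) * b1

lemma on_crs {n u : E3} (hn : ‖n‖ = 1) (hu : ‖u‖ = 1) (hnu : ⟪n, u⟫_ℝ = 0) : ON u (crs n u) :=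
  ⟨hu, norm_cr hn hu hnu, (real_inner_comm _ _).trans (inner_cr_right n u)⟩

lemma dd_eq {ζ α : E3 → E3} {x n u : E3} (hn : ‖n‖ = 1) (hu : ‖u‖ = 1) (hnu : ⟪n, u⟫_ℝ = 0) :
    dd ζ α x u (crs n u) = tr3 (fderiv ℝ ζ x) - ⟪fderiv ℝ ζ x n, n⟫_ℝ +
      ⟪curl (fderiv ℝ α x), n⟫_ℝ := by
  have a3 : cr u (cr n u) = n := by
    rw [cr_cr, real_inner_self_eq_norm_sq, hu, real_inner_comm, hnu]
    simp
  rw [dd, crs_eq, trace_frame hu (norm_cr hn hu hnu) ((real_inner_comm _ _).trans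
    (inner_cr_right n u)) hn hnu ((real_inner_comm _ _).trans (inner_cr_left n u)),
    ← inner_curl, a3]

/-- In a patch, with `σ y = ⟪n y, X₀ × X₁⟫ / J` continuous on `T` with values `± 1`, hence locally
constant: `⟪Z, w₀⟫ = ⟪ζ X, w₀⟫ + σ ⟪α X, X₁⟫`, `⟪Z, w₁⟫ = ⟪ζ X, w₁⟫ - σ ⟪α X, X₀⟫` (`crs_wv`).
Differentiate as in `Patch.glocal_deriv`; `div_w`, `pd_symm`, `frame_trace`. The continuity
follows from `frame_trace`: `dd` is a quotient of continuous functions by `J > 0`. -/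
theorem Patch.loc_div {T : Set E2} {X : E2 → E3} (P : Patch T X) {n u : E2 → E3}
    (hc : ContinuousOn n T) (hn : ∀ y ∈ T, ‖n y‖ = 1)
    (ho : ∀ y ∈ T, ∀ i, ⟪n y, pd i X y⟫_ℝ = 0) (hu : ∀ y ∈ T, ‖u y‖ = 1 ∧ ⟪n y, u y⟫_ℝ = 0)
    {ζ α : E3 → E3} (hζ : ∀ y ∈ T, ContDiffAt ℝ 1 ζ (X y)) (hα : ∀ y ∈ T, ContDiffAt ℝ 1 α (X y)) :
    ContinuousOn (fun y => dd ζ α (X y) (u y) (crs (n y) (u y))) T ∧
    ContDiffOn ℝ 1 (fun y => ⟪ζ (X y) + crs (α (X y)) (n y), wv0 (pd 0 X y) (pd 1 X y)⟫_ℝ) T ∧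
    ContDiffOn ℝ 1 (fun y => ⟪ζ (X y) + crs (α (X y)) (n y), wv1 (pd 0 X y) (pd 1 X y)⟫_ℝ) T ∧
    ∀ y ∈ T, 0 < y 0 →
      fderivWithin ℝ (fun y => ⟪ζ (X y) + crs (α (X y)) (n y), wv0 (pd 0 X y) (pd 1 X y)⟫_ℝ)
          HP y (ev 0) +
        fderivWithin ℝ (fun y => ⟪ζ (X y) + crs (α (X y)) (n y), wv1 (pd 0 X y) (pd 1 X y)⟫_ℝ)
          HP y (ev 1) =
      dd ζ α (X y) (u y) (crs (n y) (u y)) * areaEl X y := by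
  have hn' : ∀ y ∈ T, ‖n y‖ = 1 ∧ ∀ i, ⟪n y, pd i X y⟫_ℝ = 0 := fun y hy => ⟨hn y hy, ho y hy⟩
  have D1 := P.divOn_field hζ hn'
  have D2 := P.divOn_curl hα hn' hc
  have e : ∀ y ∈ T, dd ζ α (X y) (u y) (crs (n y) (u y)) =
      tr3 (fderiv ℝ ζ (X y)) - ⟪fderiv ℝ ζ (X y) (n y), n y⟫_ℝ +
        ⟪curl (fderiv ℝ α (X y)), n y⟫_ℝ := fun y hy => dd_eq (hn y hy) (hu y hy).1 (hu y hy).2
  have c : ∀ {η : E3 → E3}, (∀ y ∈ T, ContDiffAt ℝ 1 η (X y)) →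
      ContinuousOn (fun y => fderiv ℝ η (X y)) T := fun h y hy =>
    ((h y hy).fderiv_right (m := 0) (by norm_num)).continuousAt.comp_continuousWithinAt
      (P.smooth.continuousOn y hy)
  have s : ∀ {a b : E2 → ℝ}, ContDiffOn ℝ 1 a T → ContDiffOn ℝ 1 b T → ∀ y ∈ T,
      fderivWithin ℝ (fun y => a y + b y) HP y = fderivWithin ℝ a HP y + fderivWithin ℝ b HP y :=
    fun ha hb y hy => ((rel_hasFDeriv P.nhds ha le_rfl hy).add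
      (rel_hasFDeriv P.nhds hb le_rfl hy)).fderivWithin (uniqueDiffOn_HP y (P.sub hy))
  simp only [inner_add_left]
  refine ⟨(((continuous_tr3.comp_continuousOn (c hζ)).sub (((c hζ).clm_apply hc).inner hc)).add
    ((continuous_curl.comp_continuousOn (c hα)).inner hc)).congr e, D1.c0.add D2.c0,
    D1.c1.add D2.c1, fun y hy h0 => ?_⟩
  rw [e y hy, crs_eq, s D1.c0 D2.c0 y hy, s D1.c1 D2.c1 y hy, add_apply, add_apply, add_mul,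
    ← D1.eq y hy h0, ← D2.eq y hy h0]
  ring

end Pool.Agent.Lib.MP_14b623_gt
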