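import Pool.Agent.Lib.MP_14b623_gt.BGlob
import Pool.Agent.Lib.MP_14b623_gt.BLoc
import Pool.Agent.Lib.MP_14b623_gt.BDens

/-! From the surface to the configuration. -/

namespace Pool.Agent.Lib.MP_14b623_gt

open Set MeasureTheory Filter Topology Function Real
open scoped InnerProductSpace Manifold ContDiff

theorem bcover_cont {M : Type*} [TopologicalSpace M] {φ : M → E3} {K : Set M}
    {L : LineAtlas φ K} {γ : ℝ → M} {g' : ℝ → E3} (h : L.Good γ g') : Continuous γ :=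
  continuous_iff_continuousAt.2 fun t => by
    obtain ⟨s, hs, hb, -⟩ := L.cover _ (h.mem t)
    obtain ⟨k, hk, hk'⟩ := h.loc (γ t) t ⟨s, hs, hb⟩
    exact (((L.cont _).continuousAt ((L.opn _).mem_nhds hk'.self_of_nhds.1)).comp
      hk.continuousAt).congr (hk'.mono fun r hr => hr.2.symm)

theorem bcover_map {M : Type*} [TopologicalSpace M] {φ : M → E3} {K : Set M}
    {L : LineAtlas φ K} {γ : ℝ → M} {g' : ℝ → E3} (h : L.Good γ g') {q : M} {s t : ℝ}
    (hs : s ∈ L.I q) (ht : L.β q s = γ t) : ∀ᶠ σ in 𝓝 s, L.β q σ ∈ range γ := by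
  set S : Set ℝ := {t | γ t ∈ L.β q '' L.I q} with hS
  set k : ℝ → ℝ := fun t => invFunOn (L.β q) (L.I q) (γ t) with hk
  have h1 : ∀ t ∈ S, k t ∈ L.I q ∧ L.β q (k t) = γ t := fun t ht => invFunOn_pos ht
  have h2 : ∀ t ∈ S, S ∈ 𝓝 t ∧ DifferentiableAt ℝ k t := fun t ht => by
    obtain ⟨j, hj, hj'⟩ := h.loc q t ht
    refine ⟨?_, hj.congr_of_eventuallyEq ?_⟩
    · filter_upwards [hj'] with r h3
      exact ⟨_, h3.1, h3.2.symm⟩
    · filter_upwards [hj'] with r h3
      simp only [hk, h3.2]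
      exact (L.inj q).leftInvOn_invFunOn h3.1
  have h4 : ∀ t ∈ S, g' t = deriv k t • L.v q (k t) := fun t ht => by
    refine (h.der t).unique (((L.der q _ (h1 t ht).1).scomp t
      (h2 t ht).2.hasDerivAt).congr_of_eventuallyEq ?_)
    filter_upwards [(h2 t ht).1] with r hr
    simp only [comp_apply, (h1 r hr).2]
  have h5 : ∀ t ∈ S, ⟪L.v q (k t), g' t⟫_ℝ / ‖L.v q (k t)‖ ^ 2 = deriv k t := fun t ht => by
    rw [h4 t ht, real_inner_smul_right, real_inner_self_eq_norm_sq, mul_div_cancel_right₀ _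
      (pow_ne_zero _ (norm_ne_zero_iff.2 (L.vne q _ (h1 t ht).1)))]
  have hS' : t ∈ S := ⟨s, hs, ht⟩
  have h6 : ContinuousAt (fun r => L.v q (k r)) t :=
    ((L.vc q).continuousAt ((L.opn q).mem_nhds (h1 t hS').1)).comp (h2 t hS').2.continuousAt
  have h7 : ContinuousAt (deriv k) t :=
    ((h6.inner h.cont.continuousAt).div (h6.norm.pow 2)
      (pow_ne_zero _ (norm_ne_zero_iff.2 (L.vne q _ (h1 t hS').1)))).congr
      (mem_of_superset (h2 t hS').1 h5)
  have h8 := (hasStrictDerivAt_of_hasDerivAt_of_continuousAt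
    (mem_of_superset (h2 t hS').1 fun r hr => (h2 r hr).2.hasDerivAt) h7).map_nhds_eq
    fun h0 => h.ne t (by rw [h4 t hS', h0, zero_smul])
  rw [L.inj q hs (h1 t hS').1 (ht.trans (h1 t hS').2.symm), ← h8, eventually_map]
  filter_upwards [(h2 t hS').1] with r hr
  exact ⟨r, (h1 r hr).2.symm⟩

/-- The image of a good curve is open in `K`: near `t`, `γ r = β b (k r)` for `b = γ t`, with `k`
continuous near `t` (as in `Good.integral_eq`, `k = invFunOn _ _ ∘ γ`) and `k' t ≠ 0` because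
`g' t ≠ 0`, so `k` maps neighbourhoods of `t` onto neighbourhoods of `k t`; `L.cover`. It is also
compact. So the set of `s` with `δ s ∈ range γ` is open and closed in `ℝ`. -/
theorem LineAtlas.Good.disjoint {M : Type*} [TopologicalSpace M] [T2Space M] {φ : M → E3}
    {K : Set M} {L : LineAtlas φ K} {γ δ : ℝ → M} {g' d' : ℝ → E3} (h : L.Good γ g')
    (h' : L.Good δ d') (h0 : ∀ t, δ 0 ≠ γ t) : ∀ s t, δ s ≠ γ t := by
  have h1 : IsClosed (δ ⁻¹' range γ) :=
    (h.per.compact_of_continuous one_ne_zero (bcover_cont h)).isClosed.preimage (bcover_cont h')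
  have h2 : IsOpen (δ ⁻¹' range γ) := isOpen_iff_mem_nhds.2 fun s ⟨t, ht⟩ => by
    obtain ⟨σ, hσ, hb, -⟩ := L.cover _ (h'.mem s)
    obtain ⟨k, hk, hk'⟩ := h'.loc (δ s) s ⟨σ, hσ, hb⟩
    have h3 := bcover_map h hk'.self_of_nhds.1 (hk'.self_of_nhds.2.symm.trans ht.symm)
    filter_upwards [hk', hk.continuousAt.eventually h3] with r h4 h5
    rwa [← h4.2] at h5
  intro s t hs
  obtain ⟨r, hr⟩ := (IsClopen.eq_univ ⟨h1, h2⟩ ⟨s, t, hs.symm⟩).ge (mem_univ 0)
  exact h0 r hr.symm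

/-- Reparametrisation proportional to arc length, in the direction `ε = ± 1` (as in the proof of
`curve_bound`, GCurve): `k σ = S⁻¹ (ε l σ)`. -/
theorem exists_repar {g g' : ℝ → E3} (hd : ∀ t, HasDerivAt g (g' t) t) (hc : Continuous g')
    (hp : Periodic g 1) (h1 : ∀ t, ‖g t‖ = 1) (h0 : ∀ t, g' t ≠ 0) {ε : ℝ} (hε : ε = 1 ∨ ε = -1)
    {l : ℝ} (hl : 2 * π * l = ∫ t in (0 : ℝ)..1, ‖g' t‖) :
    ∃ k : ℝ → ℝ, Continuous k ∧ Surjective k ∧
      Loop (fun σ => g (k σ)) (fun σ => (ε * l * ‖g' (k σ)‖⁻¹) • g' (k σ)) l ∧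
      ∀ F : ℝ → ℝ, Continuous F → Periodic F 1 →
        ∫ t in (0 : ℝ)..1, F t * ‖g' t‖ = ∫ σ in (0 : ℝ)..(2 * π), F (k σ) * l := by
  have hu : Continuous fun t => ‖g' t‖ := hc.norm
  have hpos : ∀ t, 0 < ‖g' t‖ := fun t => norm_pos_iff.2 (h0 t)
  have hp' : Periodic g' 1 := fun t => by
    have h2 := (hd (t + 1)).comp_add_const t 1
    have h3 : (fun x => g (x + 1)) = g := funext hp
    rw [h3] at h2
    exact h2.unique (hd t)
  set P := ∫ t in (0 : ℝ)..1, ‖g' t‖ with hPdef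
  have hP : 0 < P := intervalIntegral.intervalIntegral_pos_of_pos (hu.intervalIntegrable _ _)
    hpos one_pos
  have hl0 : 0 < l := (mul_pos_iff_of_pos_left two_pi_pos).1 (hl ▸ hP)
  set S : ℝ → ℝ := fun t => ∫ x in (0 : ℝ)..t, ‖g' x‖ with hSdef
  have hS : ∀ t, HasDerivAt S ‖g' t‖ t := fun t => (hu.integral_hasStrictDerivAt 0 t).hasDerivAt
  have hS0 : S 0 = 0 := by simp [hSdef]
  have hSp : ∀ t, S (t + 1) = S t + P := fun t => by
    have hpu : Periodic (fun t => ‖g' t‖) 1 := fun t => by simp only [hp' t]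
    have h2 := hpu.intervalIntegral_add_eq t 0
    rw [zero_add] at h2
    simp only [hSdef]
    rw [← intervalIntegral.integral_add_adjacent_intervals (b := t) (hu.intervalIntegrable _ _)
      (hu.intervalIntegrable _ _), h2]
  have hm : StrictMono S := strictMono_of_deriv_pos fun t => by rw [(hS t).deriv]; exact hpos t
  have hcS : Continuous S := continuous_iff_continuousAt.2 fun t => (hS t).continuousAt
  have hper : Periodic (fun t => S t - P * t) 1 := fun t => by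
    beta_reduce
    rw [hSp]; ring
  have hn : ∀ n : ℤ, S n = n * P := fun n => by
    have := hper.int_mul_eq n
    beta_reduce at this
    rw [hS0, mul_one] at this
    linarith
  have hsurj : Surjective S := by
    refine hcS.surjective (hm.monotone.tendsto_atTop_atTop fun b => ?_)
      (hm.monotone.tendsto_atBot_atBot fun b => ?_)
    · refine ⟨_, le_of_le_of_eq ?_ (hn ⌈b / P⌉).symm⟩
      exact (div_le_iff₀ hP).1 (Int.le_ceil _)
    · refine ⟨_, (hn ⌊b / P⌋).trans_le ?_⟩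
      exact (le_div_iff₀ hP).1 (Int.floor_le _)
  let E : ℝ ≃o ℝ := hm.orderIsoOfSurjective S hsurj
  have hr : ∀ σ, S (E.symm σ) = σ := fun σ => E.apply_symm_apply σ
  have hli : ∀ t, E.symm (S t) = t := fun t => E.symm_apply_apply t
  have hcE : Continuous E.symm := E.symm.continuous
  have hdE : ∀ σ, HasDerivAt E.symm (‖g' (E.symm σ)‖⁻¹) σ := fun σ =>
    HasDerivAt.of_local_left_inverse hcE.continuousAt (hS (E.symm σ)) (hpos _).ne'
      (Filter.Eventually.of_forall hr)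
  have hEp : ∀ σ, E.symm (σ + P) = E.symm σ + 1 := fun σ => by
    conv_lhs => rw [← hr σ, ← hSp, hli]
  have hε0 : ε * l ≠ 0 := mul_ne_zero (by rcases hε with rfl | rfl <;> norm_num) hl0.ne'
  have hck : Continuous fun σ => E.symm (ε * l * σ) := hcE.comp (by fun_prop)
  have hgp : Periodic (fun σ => g (E.symm σ)) P := fun σ => by simp only [hEp, hp _]
  refine ⟨fun σ => E.symm (ε * l * σ), hck, E.symm.surjective.comp (mul_left_surjective₀ hε0),
    ⟨fun σ => ?_, (continuous_const.mul ((hu.comp hck).inv₀ fun σ => (hpos _).ne')).smul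
      (hc.comp hck), fun σ => ?_, fun σ => h1 _, fun σ => ?_, hl0⟩, fun F hF hFp => ?_⟩
  · have h2 := (hdE (ε * l * σ)).comp σ ((hasDerivAt_id σ).const_mul (ε * l))
    rw [mul_one, mul_comm _ (ε * l)] at h2
    exact (hd _).scomp σ h2
  · rcases hε with rfl | rfl
    · exact (congrArg (fun u => g (E.symm u)) (by linarith)).trans (hgp (1 * l * σ))
    · exact (congrArg (fun u => g (E.symm u)) (by linarith)).trans (hgp.sub_eq (-1 * l * σ))
  · have h2 : |ε| = 1 := by rcases hε with rfl | rfl <;> norm_num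
    rw [norm_smul, norm_mul, norm_inv, norm_norm, inv_mul_cancel_right₀ (hpos _).ne', norm_mul,
      Real.norm_eq_abs, Real.norm_eq_abs, h2, one_mul, abs_of_pos hl0]
  · have h5 := intervalIntegral.integral_comp_mul_deriv (a := 0) (b := 1)
      (g := fun σ => F (E.symm σ)) (fun t _ => hS t) hu.continuousOn (hF.comp hcE)
    have h6 : S 1 = P := rfl
    rw [hS0, h6] at h5
    simp only [comp_apply, hli] at h5
    have h7 : Periodic (fun σ => F (E.symm σ)) P := fun σ => by simp only [hEp, hFp _]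
    rw [h5, intervalIntegral.integral_mul_const, intervalIntegral.integral_comp_mul_left
      (fun σ => F (E.symm σ)) hε0, mul_zero, smul_eq_mul]
    rcases hε with rfl | rfl
    · rw [show 1 * l * (2 * π) = P by linarith]
      field_simp
    · have h8 := h7.intervalIntegral_add_eq (-P) 0
      rw [neg_add_cancel, zero_add] at h8
      rw [show -1 * l * (2 * π) = -P by linarith, intervalIntegral.integral_symm (-P) 0, h8]
      field_simp

lemma bcoverb_inner (a b : E3) : ⟪a, b⟫_ℝ = a 0 * b 0 + a 1 * b 1 + a 2 * b 2 := by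
  simp only [PiLp.inner_apply, Fin.sum_univ_three, RCLike.inner_apply, conj_trivial]
  ring

lemma bcoverb_swap (a n x : E3) : ⟪crs a n, x⟫_ℝ = ⟪a, crs n x⟫_ℝ := by
  simp only [bcoverb_inner, crs]
  simp
  ring

lemma bcoverb_cont {X : Type*} [TopologicalSpace X] {a b : X → E3} (ha : Continuous a)
    (hb : Continuous b) : Continuous fun x => crs (a x) (b x) := by
  unfold crs
  fun_prop

lemma bcoverb_par {n x w : E3} (hn : ‖n‖ = 1) (hx : ‖x‖ = 1) (h1 : ⟪n, x⟫_ℝ = 0)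
    (h2 : ⟪n, w⟫_ℝ = 0) (h3 : ⟪x, w⟫_ℝ = 0) : ⟪w, crs n x⟫_ℝ • crs n x = w := by
  have h4 : ⟪n, n⟫_ℝ = 1 := by rw [real_inner_self_eq_norm_sq, hn, one_pow]
  have h5 : ⟪x, x⟫_ℝ = 1 := by rw [real_inner_self_eq_norm_sq, hx, one_pow]
  rw [bcoverb_inner] at h1 h2 h3 h4 h5 ⊢
  ext i
  fin_cases i <;> simp [crs]
  · linear_combination w 0 * (x 0 * x 0 + x 1 * x 1 + x 2 * x 2) * h4 + w 0 * h5 -
      w 0 * (n 0 * x 0 + n 1 * x 1 + n 2 * x 2) * h1 -
      ((n 2 * x 0 - n 0 * x 2) * n 2 - (n 0 * x 1 - n 1 * x 0) * n 1) * h3 +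
      ((n 2 * x 0 - n 0 * x 2) * x 2 - (n 0 * x 1 - n 1 * x 0) * x 1) * h2
  · linear_combination w 1 * (x 0 * x 0 + x 1 * x 1 + x 2 * x 2) * h4 + w 1 * h5 -
      w 1 * (n 0 * x 0 + n 1 * x 1 + n 2 * x 2) * h1 -
      ((n 0 * x 1 - n 1 * x 0) * n 0 - (n 1 * x 2 - n 2 * x 1) * n 2) * h3 +
      ((n 0 * x 1 - n 1 * x 0) * x 0 - (n 1 * x 2 - n 2 * x 1) * x 2) * h2
  · linear_combination w 2 * (x 0 * x 0 + x 1 * x 1 + x 2 * x 2) * h4 + w 2 * h5 -
      w 2 * (n 0 * x 0 + n 1 * x 1 + n 2 * x 2) * h1 -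
      ((n 1 * x 2 - n 2 * x 1) * n 1 - (n 2 * x 0 - n 0 * x 2) * n 0) * h3 +
      ((n 1 * x 2 - n 2 * x 1) * x 1 - (n 2 * x 0 - n 0 * x 2) * x 0) * h2

variable {M : Type} [TopologicalSpace M] [ChartedSpace (EuclideanHalfSpace 2) M]
  [IsManifold (𝓡∂ 2) ∞ M] [T2Space M] [CompactSpace M] [MeasurableSpace M] [BorelSpace M]

omit [T2Space M] [CompactSpace M] [MeasurableSpace M] [BorelSpace M] in
/-- The normal is orthogonal to the coordinate vectors of every chart (`ch_chain`, `mfderiv_eq`,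
as `key` in `IsFBMS.patch`). -/
theorem IsFBMS.normal_pd {φ N : M → E3} (h : IsFBMS φ) (hN : IsNormal φ N) (q : M) {y : E2}
    (hy : y ∈ (ch q).target) (i : Fin 2) :
    ⟪N ((ch q).symm y), pd i (inChart φ q) y⟫_ℝ = 0 := by
  obtain ⟨x, hx, rfl⟩ : ∃ x ∈ (ch q).source, ch q x = y :=
    ⟨_, (ch q).map_target hy, (ch q).right_inv hy⟩
  have h1 := DFunLike.congr_fun (ch_chain (f := φ) hx (mem_extChartAt_source x)
    (rel_hasFDeriv (ch_nhds x) (h.patch x).smooth (by norm_num)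
      (mem_extChartAt_target x)).differentiableWithinAt) (ev i)
  rw [(ch q).left_inv hx, pd_eq, inChart, h1]
  exact (congrArg _ (mfderiv_eq h.smooth x _).symm).trans (hN.orth x _)

omit [T2Space M] [CompactSpace M] [MeasurableSpace M] [BorelSpace M] in
/-- `N × φ` and `g' / ‖g'‖` are unit vectors orthogonal to the orthonormal pair `N, φ` (`h.orth`;
`g' t` is a multiple of `pd 1 (inChart φ b)` by `loc`, `mfderiv_eq`), so their inner product is a
continuous function with values `± 1`. -/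
theorem IsFBMS.sign {φ N : M → E3} (h : IsFBMS φ) (hN : IsNormal φ N) {γ : ℝ → M} {g' : ℝ → E3}
    (hg : h.atlas.Good γ g') : ∃ ε : ℝ, (ε = 1 ∨ ε = -1) ∧
      ∀ t, ‖g' t‖ • crs (N (γ t)) (φ (γ t)) = ε • g' t := by
  have hφ : Continuous fun t => φ (γ t) := h.smooth.continuous.comp hg.continuous
  have h1 : ∀ t, ‖φ (γ t)‖ = 1 := fun t => h.bdry _ (hg.mem t)
  have h2 : ∀ t, ⟪N (γ t), φ (γ t)⟫_ℝ = 0 := fun t => by
    obtain ⟨v, hv⟩ := h.orth _ (hg.mem t)
    rw [← hv, hN.orth]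
  have h3 : ∀ t, ⟪N (γ t), g' t⟫_ℝ = 0 := fun t => by
    obtain ⟨s, hs, e, -⟩ := h.atlas.cover _ (hg.mem t)
    obtain ⟨k, hk, hk'⟩ := hg.loc (γ t) t ⟨s, hs, e⟩
    obtain ⟨a1, a2⟩ := hk'.self_of_nhds
    have h4 := (hg.der t).unique (((h.atlas.der _ _ a1).scomp t hk.hasDerivAt).congr_of_eventuallyEq
      (hk'.mono fun r hr => congrArg φ hr.2))
    rw [h4, inner_smul_right]
    exact mul_eq_zero_of_right _ ((congrArg (fun z => ⟪N z, _⟫_ℝ) a2).trans
      (h.normal_pd hN (γ t) a1 1))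
  have h4 : ∀ t, ⟪φ (γ t), g' t⟫_ℝ = 0 := fun t => by
    have h5 := (hg.der t).norm_sq
    simp only [h1] at h5
    linarith [h5.unique (hasDerivAt_const t _)]
  have h5 := fun t => bcoverb_par (hN.unit _) (h1 t) (h2 t) (h3 t) (h4 t)
  set s := fun t => ⟪g' t, crs (N (γ t)) (φ (γ t))⟫_ℝ with hs
  have h6 : Continuous s := hg.cont.inner (bcoverb_cont (hN.cont.comp hg.continuous) hφ)
  have h7 : ∀ t, ‖g' t‖ = |s t| := fun t => by
    conv_lhs => rw [← h5 t]
    rw [norm_smul, (on_crs (hN.unit _) (h1 t) (h2 t)).2.1, mul_one, Real.norm_eq_abs]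
  have h8 : ∀ t, s t ≠ 0 := fun t h0 => hg.ne t (norm_eq_zero.1 (by rw [h7, h0, abs_zero]))
  have h9 : ∀ a b, s a < 0 → s b < 0 := fun a b ha => not_le.1 fun hb => by
    obtain ⟨t, ht⟩ := intermediate_value_univ a b h6 ⟨ha.le, hb⟩
    exact h8 t ht
  rcases (h8 0).lt_or_gt with h0 | h0
  · exact ⟨-1, .inr rfl, fun t => by
      rw [h7, abs_of_neg (h9 0 t h0), neg_smul, h5, neg_smul, one_smul]⟩
  · exact ⟨1, .inl rfl, fun t => by
      rw [h7, abs_of_nonneg (not_lt.1 fun ht => h0.not_gt (h9 t 0 ht)), h5, one_smul]⟩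

/-- `u x` is the normalised `mder _ φ x (ev 0)`, `v x = crs (N x) (u x)`, `g i = φ ∘ γ i ∘ k i` from
`exists_repar` with the sign of `IsFBMS.sign`. For `dt`: `IsFBMS.div_thm` with
`Z x = ζ (φ x) + crs (α (φ x)) (N x)`, `Patch.loc_div`, and
`⟪crs a n, x⟫ = ⟪a, crs n x⟫`. For `dens`: `IsFBMS.dens` with `U = univ`. -/
theorem IsFBMS.exists_cfg {φ N : M → E3} (h : IsFBMS φ) (hN : IsNormal φ N)
    {γ : Fin 2 → ℝ → M} {g' : Fin 2 → ℝ → E3} (hg : ∀ i, h.atlas.Good (γ i) (g' i))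
    (hdj : ∀ i j, i ≠ j → ∀ s t, γ i s ≠ γ j t)
    (hc : ∀ x ∈ (𝓡∂ 2).boundary M, ∃ i t, γ i t = x) :
    ∃ C : Cfg M, C.μ = areaMeasure φ ∧ ∀ i, 2 * π * C.l i = ∫ t in (0 : ℝ)..1, ‖g' i t‖ := by
  have hφ := h.smooth.continuous
  have := areaMeasure_finite h
  obtain ⟨u, hu⟩ : ∃ u : M → E3, ∀ x, ‖u x‖ = 1 ∧ ⟪N x, u x⟫_ℝ = 0 := by
    refine ⟨fun x => ‖mder (𝓡∂ 2) φ x (ev 0)‖⁻¹ • mder (𝓡∂ 2) φ x (ev 0), fun x => ⟨?_, ?_⟩⟩
    · refine norm_smul_inv_norm (𝕜 := ℝ) fun h0 => ?_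
      have h1 : ev 0 = 0 :=
        h.immersion x (h0.trans (map_zero (mfderiv (𝓡∂ 2) 𝓘(ℝ, E3) φ x)).symm)
      simp at h1
    · rw [inner_smul_right, hN.orth, mul_zero]
  choose ε hε hs using fun i => h.sign hN (hg i)
  have hl : ∀ i, 2 * π * ((∫ t in (0 : ℝ)..1, ‖g' i t‖) / (2 * π)) = ∫ t in (0 : ℝ)..1, ‖g' i t‖ :=
    fun i => mul_div_cancel₀ _ two_pi_pos.ne'
  choose k k1 k2 k3 k4 using fun i => exists_repar (hg i).der (hg i).cont
    (fun t => congrArg φ ((hg i).per t)) (fun t => h.bdry _ ((hg i).mem t)) (hg i).ne (hε i) (hl i)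
  refine ⟨⟨φ, u, fun x => crs (N x) (u x), areaMeasure φ, _, _, _, this, hφ.measurable, h.inBall,
    fun x => on_crs (hN.unit x) (hu x).1 (hu x).2, k3, fun i t => ⟨_, rfl⟩, fun ζ α hζ hα => ?_,
    fun p hp θ hθ => ?_⟩, rfl, hl⟩
  · have H := fun q => (h.patch q).loc_div (n := fun y => N ((ch q).symm y))
      (u := fun y => u ((ch q).symm y))
      (hN.cont.comp_continuousOn (continuousOn_extChartAt_symm q)) (fun _ _ => hN.unit _)
      (fun y hy => h.normal_pd hN q hy) (fun _ _ => hu _) (fun _ _ => hζ _) fun _ _ => hα _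
    have hf : Continuous fun x => dd ζ α (φ x) (u x) (crs (N x) (u x)) :=
      continuous_iff_continuousAt.2 fun q =>
        ((((H q).1.comp (continuousOn_extChartAt q) fun x hx => (ch q).map_source hx).congr
          fun x hx => by simp only [comp_apply, inChart, (ch q).left_inv hx]).continuousAt
          (extChartAt_source_mem_nhds q))
    have hZ : Continuous fun x => ζ (φ x) + crs (α (φ x)) (N x) :=
      (continuous_iff_continuousAt.2 fun x => (hζ x).continuousAt.comp hφ.continuousAt).add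
        (bcoverb_cont (continuous_iff_continuousAt.2 fun x =>
          (hα x).continuousAt.comp hφ.continuousAt) hN.cont)
    refine ⟨integrableOn_univ.1 (hf.continuousOn.integrableOn_compact isCompact_univ), ?_⟩
    rw [h.div_thm hZ hf (fun q => (H q).2.1) (fun q => (H q).2.2.1) (fun q => (H q).2.2.2) hg hdj hc]
    refine Finset.sum_congr rfl fun i _ => ?_
    refine (k4 i _ ((hZ.comp (hg i).continuous).inner (hφ.comp (hg i).continuous))
      fun t => by simp only [comp_apply, (hg i).per t]).trans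
      (intervalIntegral.integral_congr fun σ _ => ?_)
    have h1 := congrArg (fun z => ⟪α (φ (γ i (k i σ))), z⟫_ℝ) (hs i (k i σ))
    have h2 := norm_ne_zero_iff.2 ((hg i).ne (k i σ))
    simp only [inner_smul_right] at h1
    simp only [comp_apply, inner_add_left, bcoverb_swap, inner_smul_right]
    rw [eq_comm, ← inv_mul_eq_iff_eq_mul₀ h2] at h1
    rw [← h1]
    ring
  · have h1 : p ∉ (𝓡∂ 2).boundary M := fun hb => by
      obtain ⟨i, t, rfl⟩ := hc p hb
      obtain ⟨σ, rfl⟩ := k2 i t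
      exact hp i σ rfl
    simpa only [inter_univ] using h.dens h1 isOpen_univ (mem_univ p) hθ

end Pool.Agent.Lib.MP_14b623_gt
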