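import Pool.Agent.Lib.MP_14b623_gt.GMain

/-! Internal definitions for surfaces with two boundary curves. -/

namespace Pool.Agent.Lib.MP_14b623_gt

open Set MeasureTheory Filter Topology Function Real
open scoped InnerProductSpace Manifold ContDiff

/-- Divergence of `ζ` along the plane of `u, v` plus the exterior derivative of the one form `α`
on `(u, v)`. -/
noncomputable def dd (ζ α : E3 → E3) (x u v : E3) : ℝ :=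
  ⟪fderiv ℝ ζ x u, u⟫_ℝ + ⟪fderiv ℝ ζ x v, v⟫_ℝ +
    (⟪fderiv ℝ α x u, v⟫_ℝ - ⟪fderiv ℝ α x v, u⟫_ℝ)

/-- Cross product. -/
noncomputable def crs (a b : E3) : E3 :=
  !₂[a 1 * b 2 - a 2 * b 1, a 2 * b 0 - a 0 * b 2, a 0 * b 1 - a 1 * b 0]

/-- Squared distance from the vertical axis. -/
def rho (x : E3) : ℝ := x 0 ^ 2 + x 1 ^ 2

/-- The rotation field about the vertical axis, paired with `T`. -/
def rot (x T : E3) : ℝ := x 0 * T 1 - x 1 * T 0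

/-- An orthonormal pair. -/
def ON (u v : E3) : Prop := ‖u‖ = 1 ∧ ‖v‖ = 1 ∧ ⟪u, v⟫_ℝ = 0

/-- A closed `C¹` curve on the unit sphere, of period `2 π` and constant speed `l`. -/
structure Loop (g g' : ℝ → E3) (l : ℝ) : Prop where
  der : ∀ t, HasDerivAt g (g' t) t
  cont : Continuous g'
  per : Periodic g (2 * π)
  sph : ∀ t, ‖g t‖ = 1
  speed : ∀ t, ‖g' t‖ = l
  pos : 0 < l

/-- The data of a two sided free boundary minimal surface with two boundary curves. -/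
structure Cfg (M : Type) [MeasurableSpace M] where
  φ : M → E3
  u : M → E3
  v : M → E3
  μ : Measure M
  g : Fin 2 → ℝ → E3
  g' : Fin 2 → ℝ → E3
  l : Fin 2 → ℝ
  fin : IsFiniteMeasure μ
  meas : Measurable φ
  ball : ∀ p, ‖φ p‖ ≤ 1
  fr : ∀ p, ON (u p) (v p)
  loop : ∀ i, Loop (g i) (g' i) (l i)
  mem : ∀ i t, ∃ p, φ p = g i t
  dt : ∀ ζ α : E3 → E3, (∀ p, ContDiffAt ℝ 1 ζ (φ p)) → (∀ p, ContDiffAt ℝ 1 α (φ p)) →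
    Integrable (fun p => dd ζ α (φ p) (u p) (v p)) μ ∧
    ∫ p, dd ζ α (φ p) (u p) (v p) ∂μ =
      ∑ i, ∫ t in (0 : ℝ)..(2 * π), (⟪ζ (g i t), g i t⟫_ℝ * l i + ⟪α (g i t), g' i t⟫_ℝ)
  dens : ∀ p, (∀ i t, g i t ≠ φ p) → ∀ θ < π, ∀ᶠ σ in 𝓝[>] (0 : ℝ),
    θ * σ ≤ μ.real {x | ‖φ x - φ p‖ ^ 2 < σ}

/-- The Fourier defect of a curve of speed `l` and mean height `c / l`. -/
noncomputable def Df (l c : ℝ) : ℝ := (c / l) ^ 2 + l ^ 2 - 1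

/-- The heights allowed for a curve of speed `l` and mean height `c / l`. -/
def Band (l c s : ℝ) : Prop :=
  l ≤ 1 → |s - c / l| ≤ Df l c / (2 * (c / l)) + √(3 * Df l c / 2)

/-- Upper bound for `l` times the mean of `a - b s + g s²`. -/
noncomputable def PF (l c a b g : ℝ) : ℝ :=
  l * a - b * c + g * (c ^ 2 / l + (c ^ 2 / l - l + l ^ 3) / 3)

/-- A certificate using the first variation only. -/
def Pure (w : E3 → ℝ) (B l₀ l₁ c : ℝ) : Prop :=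
  ∃ (ζ : E3 → E3) (a₀ b₀ g₀ a₁ b₁ g₁ : ℝ), ContDiff ℝ 1 ζ ∧
    (∀ x : E3, ‖x‖ ≤ 1 → ∀ u v : E3, ‖u‖ = 1 → ‖v‖ = 1 → ⟪u, v⟫_ℝ = 0 →
      w x ≤ ⟪fderiv ℝ ζ x u, u⟫_ℝ + ⟪fderiv ℝ ζ x v, v⟫_ℝ) ∧
    (∀ x : E3, ‖x‖ = 1 → Band l₀ c (x 2) → ⟪ζ x, x⟫_ℝ ≤ a₀ - b₀ * x 2 + g₀ * x 2 ^ 2) ∧
    (∀ x : E3, ‖x‖ = 1 → Band l₁ c (-x 2) → ⟪ζ x, x⟫_ℝ ≤ a₁ + b₁ * x 2 + g₁ * x 2 ^ 2) ∧
    0 ≤ g₀ ∧ 0 ≤ g₁ ∧ (g₁ = 0 ∨ l₁ ≤ 1) ∧ PF l₀ c a₀ b₀ g₀ + PF l₁ c a₁ b₁ g₁ < B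

/-- The admissible parameters. -/
structure Adm (l₀ l₁ c : ℝ) : Prop where
  lo : 6367 / 10000 ≤ l₀
  le : l₀ ≤ l₁
  sum : l₀ + l₁ ≤ 166712 / 100000
  pos : 0 < c
  cle : c ≤ l₀
  d0 : 0 ≤ Df l₀ c
  d1 : l₁ ≤ 1 → 0 ≤ Df l₁ c

/-- Certificates away from the critical catenoid. -/
def FarCert : Prop :=
  ∀ l₀ l₁ c : ℝ, Adm l₀ l₁ c → l₀ < 81 / 100 ∨ 485 / 1000 < c → Pure (fun _ => 0) 0 l₀ l₁ c

/-- Certificates for surfaces meeting the tube around the axis. -/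
def TubeCert : Prop :=
  ∀ l₀ l₁ c : ℝ, Adm l₀ l₁ c → 81 / 100 ≤ l₀ → c ≤ 485 / 1000 →
    ∀ y : E3, ‖y‖ ≤ 1 → rho y ≤ (9 / 100) ^ 2 →
      Pure (fun x => max 0 (1 - ‖x - y‖ ^ 2 / (34 / 100) ^ 2)) ((34 / 100) ^ 2 / 4) l₀ l₁ c

/-- The certificate for surfaces avoiding the tube around the axis. -/
def AxisCert : Prop :=
  ∀ τ : ℝ, 1.199675 < τ → τ < 1.199685 → τ * sinh τ = cosh τ →
  ∃ (ζ α : E3 → E3) (p a b g : ℝ),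
    (∀ x : E3, 0 < rho x → ContDiffAt ℝ 1 ζ x ∧ ContDiffAt ℝ 1 α x) ∧
    (∀ x : E3, ‖x‖ ≤ 1 → (9 / 100) ^ 2 ≤ rho x → ∀ u v : E3, ON u v → 0 ≤ dd ζ α x u v) ∧
    (∀ x T : E3, ‖x‖ = 1 → x 2 ∈ Icc (22 / 100 : ℝ) (9025 / 10000) → ‖T‖ = 1 →
      ⟪ζ x, x⟫_ℝ + ⟪α x, T⟫_ℝ - p * (rot x T / rho x) ≤ a - b * x 2 + g * x 2 ^ 2) ∧
    (∀ x T : E3, ‖x‖ = 1 → -x 2 ∈ Icc (22 / 100 : ℝ) (9025 / 10000) → ‖T‖ = 1 →
      ⟪ζ x, x⟫_ℝ + ⟪α x, T⟫_ℝ + p * (rot x T / rho x) ≤ a + b * x 2 + g * x 2 ^ 2) ∧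
    0 ≤ p ∧ 0 ≤ g ∧
    ∀ l₀ l₁ c : ℝ, Adm l₀ l₁ c → 81 / 100 ≤ l₀ → c ≤ 485 / 1000 → l₀ + l₁ < 2 / τ →
      PF l₀ c a b g + PF l₁ c a b g < 2 * p

variable {M : Type} [TopologicalSpace M] [ChartedSpace (EuclideanHalfSpace 2) M]

/-- A continuous unit normal field along `φ`. -/
structure IsNormal (φ N : M → E3) : Prop where
  cont : Continuous N
  unit : ∀ x, ‖N x‖ = 1
  orth : ∀ x v, ⟪N x, mder (𝓡∂ 2) φ x v⟫_ℝ = 0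

end Pool.Agent.Lib.MP_14b623_gt
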