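import Pool.Agent.Lib.MP_14b623_gt.GField

/-! From polynomial inequalities to the certificate for one value of the length. -/

namespace Pool.Agent.Lib.MP_14b623_gt

open scoped InnerProductSpace

/-- The hypotheses of `fld_div` on the ball of parameter `δ₀`. -/
def LMI (a b : List (List ℤ)) (δ₀ : ℝ) : Prop :=
  ∀ u q : ℝ, 0 < u → u ^ 2 ≤ q → q ≤ 1 → δ₀ + (1 - δ₀) * q ≤ u →
    0 ≤ ev2 (wJ 0 a) u q + ev2 (wK a) u q ∧ 0 ≤ -ev2 (wJ 0 b) u q ∧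
    0 ≤ 8 * u * (ev2 (wJ 0 a) u q + ev2 (wK a) u q) * (-ev2 (wJ 0 b) u q)
      - (ev2 (wJ 0 a) u q - 2 * u * (ev2 (wJ 0 b) u q + ev2 (wK b) u q)) ^ 2 ∧
    0 ≤ u * (2 * ev2 a u q - ev2 (wJ 0 a) u q - 2 * ev2 (wK a) u q
      - 2 * u * (ev2 (wJ 0 b) u q + ev2 (wK b) u q)) + q * ev2 (wJ 0 b) u q

/-- `2 δ q ψ` on the sphere of parameter `δ`. -/
noncomputable def bdG (a₀ b₀ a₁ b₁ : List (List ℤ)) (w₀ w₁ β δ q : ℝ) : ℝ :=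
  q * δ + (w₀ * ev2 a₀ (δ + (1 - δ) * q) q + w₁ * ev2 a₁ (δ + (1 - δ) * q) q)
      * (δ + (1 - δ) * q - 2 * δ)
    + (w₀ * ev2 b₀ (δ + (1 - δ) * q) q + w₁ * ev2 b₁ (δ + (1 - δ) * q) q - β)
      * (q - 2 * δ * (δ + (1 - δ) * q))

/-- The parameter `δ = χ / (1 + 2 χ)`, `χ² = 2 (1 - √(1 - l²))`. -/
noncomputable def delOf (l : ℝ) : ℝ :=
  √(2 * (1 - √(1 - l ^ 2))) / (1 + 2 * √(2 * (1 - √(1 - l ^ 2))))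

lemma gfam_geom (ε : ℝ) {e x : E3} (he : ‖e‖ = 1) :
    ⟪ε⁻¹ • x + (1 + ε⁻¹) • -e, -e⟫_ℝ = 1 + ε⁻¹ - ε⁻¹ * ⟪x, e⟫_ℝ ∧
    ‖ε⁻¹ • x + (1 + ε⁻¹) • -e‖ ^ 2 =
      ε⁻¹ ^ 2 * ‖x‖ ^ 2 - 2 * (1 + ε⁻¹) * (ε⁻¹ * ⟪x, e⟫_ℝ) + (1 + ε⁻¹) ^ 2 := by
  have h1 : ⟪e, e⟫_ℝ = 1 := by rw [real_inner_self_eq_norm_sq, he]; norm_num
  constructor
  · simp only [inner_add_left, real_inner_smul_left, inner_neg_left, inner_neg_right, h1]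
    ring
  · rw [← real_inner_self_eq_norm_sq, ← real_inner_self_eq_norm_sq]
    simp only [inner_add_left, inner_add_right, real_inner_smul_left, real_inner_smul_right,
      inner_neg_left, inner_neg_right, h1, real_inner_comm x e]
    ring

lemma gfam_reg {ε δ : ℝ} (hε : 0 < ε) (hδ : δ = ε / (2 * (1 + ε))) {e x Y : E3} (he : ‖e‖ = 1)
    (hx : ‖x‖ ≤ 1) (hY : Y = ε⁻¹ • x + (1 + ε⁻¹) • -e) :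
    1 ≤ ⟪Y, -e⟫_ℝ ∧ 1 ≤ ‖Y‖ ^ 2 ∧ (⟪Y, -e⟫_ℝ / ‖Y‖ ^ 2) ^ 2 ≤ 1 / ‖Y‖ ^ 2 ∧
      δ + (1 - δ) * (1 / ‖Y‖ ^ 2) ≤ ⟪Y, -e⟫_ℝ / ‖Y‖ ^ 2 ∧
      (‖x‖ = 1 → ⟪Y, -e⟫_ℝ / ‖Y‖ ^ 2 = δ + (1 - δ) * (1 / ‖Y‖ ^ 2)) := by
  obtain ⟨h1, h2⟩ := gfam_geom ε (x := x) he
  rw [← hY] at h1 h2
  have hi : 0 < ε⁻¹ := inv_pos.2 hε
  have h3 : ⟪x, e⟫_ℝ ≤ 1 := (real_inner_le_norm x e).trans (by rwa [he, mul_one])
  have h4 : 1 ≤ ⟪Y, -e⟫_ℝ := by nlinarith [mul_le_mul_of_nonneg_left h3 hi.le]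
  have h5 : ⟪Y, -e⟫_ℝ ≤ ‖Y‖ := (real_inner_le_norm Y (-e)).trans (by rw [norm_neg, he, mul_one])
  have h6 : ⟪Y, -e⟫_ℝ ^ 2 ≤ ‖Y‖ ^ 2 := by gcongr
  have h7 : 1 ≤ ‖Y‖ ^ 2 := by nlinarith
  have h8 : 0 < ‖Y‖ ^ 2 := by linarith
  have h9 : ⟪Y, -e⟫_ℝ / ‖Y‖ ^ 2 - (δ + (1 - δ) * (1 / ‖Y‖ ^ 2)) =
      δ * ε⁻¹ ^ 2 * (1 - ‖x‖ ^ 2) / ‖Y‖ ^ 2 := by
    have : ⟪Y, -e⟫_ℝ - (δ * ‖Y‖ ^ 2 + (1 - δ)) = δ * ε⁻¹ ^ 2 * (1 - ‖x‖ ^ 2) := by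
      rw [h1, h2, hδ]
      field_simp
      ring
    rw [← this]
    generalize ‖Y‖ ^ 2 = W at h8 ⊢
    field_simp
  have h10 : 0 ≤ 1 - ‖x‖ ^ 2 := by nlinarith [norm_nonneg x]
  refine ⟨h4, h7, ?_, ?_, fun h => ?_⟩
  · rw [div_pow, div_le_div_iff₀ (by positivity) h8]
    nlinarith
  · have : 0 ≤ δ * ε⁻¹ ^ 2 * (1 - ‖x‖ ^ 2) / ‖Y‖ ^ 2 := by rw [hδ]; positivity
    linarith
  · rw [h] at h9
    simp only [one_pow, sub_self, mul_zero, zero_div] at h9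
    linarith

lemma gfam_div {a b : List (List ℤ)} {δ δ₀ : ℝ} (hL : LMI a b δ₀) (h1 : δ₀ ≤ δ) {n Y : E3}
    (hn : ‖n‖ = 1) (hσ : 1 ≤ ⟪Y, n⟫_ℝ) (hW : 1 ≤ ‖Y‖ ^ 2)
    (hu : (⟪Y, n⟫_ℝ / ‖Y‖ ^ 2) ^ 2 ≤ 1 / ‖Y‖ ^ 2)
    (hq : δ + (1 - δ) * (1 / ‖Y‖ ^ 2) ≤ ⟪Y, n⟫_ℝ / ‖Y‖ ^ 2) {v₁ v₂ : E3} (hv₁ : ‖v₁‖ = 1)
    (hv₂ : ‖v₂‖ = 1) (hv : ⟪v₁, v₂⟫_ℝ = 0) :
    0 ≤ ⟪fderiv ℝ (fld a b n) Y v₁, v₁⟫_ℝ + ⟪fderiv ℝ (fld a b n) Y v₂, v₂⟫_ℝ := by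
  have h2 : 1 / ‖Y‖ ^ 2 ≤ 1 := (div_le_one (by linarith)).2 hW
  obtain ⟨k1, k2, k3, k4⟩ := hL (⟪Y, n⟫_ℝ / ‖Y‖ ^ 2) (1 / ‖Y‖ ^ 2)
    (div_pos (by linarith) (by linarith)) hu h2 (by nlinarith)
  exact fld_div a b hn (by linarith) rfl rfl rfl rfl rfl rfl rfl k1 k2 k3 k4 hv₁ hv₂ hv

/-- Sketch. `s₀ = √(1 - l²)`, `χ = √(2 (1 - s₀))`, `ε = 2 χ = 2 δ / (1 - 2 δ)`,
`d = 1 / (2 δ) = 1 + 1 / ε`, `n = -e`, `Y x = ε⁻¹ • x + d • n`,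
`z x = ε⁻¹ • (w₀ • fld a₀ b₀ n (Y x) + w₁ • fld a₁ b₁ n (Y x) - β • n)`.
For `‖x‖ ≤ 1`: `σ = ⟪Y, n⟫ = d - ⟪x, e⟫ / ε ≥ 1`, `W = ‖Y‖² ≥ σ²`, `W - 2 d σ + 2 d - 1 ≤ 0`, that is
`δ + (1 - δ) q ≤ u` for `u = σ / W`, `q = 1 / W`, with equality when `‖x‖ = 1`; then
`u² - q = (q - 1) ((1 - δ)² q - δ²)` gives `δ² ≤ (1 - δ)² q`. On the sphere
`2 δ q (1/2 - ⟪z x, x⟫) = bdG`, and `⟪x, e⟫ - s₀ = -(ε² / 2) Ω / q` with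
`Ω = (1 - 2 δ)(1 - q) - q / 4`. Take `A = Ah / (2 δ)`, `B = 2 (1 - 2 δ) Bh / ε³`;
`l² = χ² (1 - χ² / 4)` gives `(l A)² = Ah² ((1 - 2 δ)² - δ² / 4) / (4 (1 - 2 δ)⁴)`. -/
theorem fam_cert (a₀ b₀ a₁ b₁ : List (List ℤ)) {l δ δ₀ w₀ w₁ β Ah Bh : ℝ} (hl0 : 0 < l)
    (hl1 : l < 1) (hδ : δ = delOf l) (h0 : 0 ≤ δ₀) (h1 : δ₀ ≤ δ) (hw₀ : 0 ≤ w₀) (hw₁ : 0 ≤ w₁)
    (hL₀ : LMI a₀ b₀ δ₀) (hL₁ : LMI a₁ b₁ δ₀) (hB : 0 ≤ Bh) (hA0 : 0 ≤ Ah)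
    (hA : 4 * (83356 / 100000) ^ 2 * (1 - 2 * δ) ^ 4 ≤ Ah ^ 2 * ((1 - 2 * δ) ^ 2 - δ ^ 2 / 4))
    (hG : ∀ q : ℝ, 0 < q → q ≤ 1 → δ ^ 2 ≤ (1 - δ) ^ 2 * q →
      0 ≤ bdG a₀ b₀ a₁ b₁ w₀ w₁ β δ q ∧
      0 ≤ q * bdG a₀ b₀ a₁ b₁ w₀ w₁ β δ q - q ^ 2 * Ah
        + (1 - 2 * δ) ^ 2 * Bh * ((1 - 2 * δ) * (1 - q) - q / 4) * q
        + 12 / 5 * δ ^ 2 * Bh * ((1 - 2 * δ) * (1 - q) - q / 4) ^ 2)
    (e : E3) (he : ‖e‖ = 1) : ∃ (z : E3 → E3) (A B : ℝ),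
    (∀ x : E3, ‖x‖ ≤ 1 → ContDiffAt ℝ 1 z x) ∧
    (∀ x : E3, ‖x‖ ≤ 1 → ∀ u v : E3, ‖u‖ = 1 → ‖v‖ = 1 → ⟪u, v⟫_ℝ = 0 →
      0 ≤ ⟪fderiv ℝ z x u, u⟫_ℝ + ⟪fderiv ℝ z x v, v⟫_ℝ) ∧ 0 ≤ B ∧ 83356 / 100000 ≤ l * A ∧
    ∀ x : E3, ‖x‖ = 1 → 0 ≤ 1 / 2 - ⟪z x, x⟫_ℝ ∧
      A + B * ((⟪x, e⟫_ℝ - √(1 - l ^ 2)) - 6 / 5 * (⟪x, e⟫_ℝ - √(1 - l ^ 2)) ^ 2) ≤
        1 / 2 - ⟪z x, x⟫_ℝ := by
  set s₀ := √(1 - l ^ 2) with hs₀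
  have hs1 : s₀ ^ 2 = 1 - l ^ 2 := Real.sq_sqrt (by nlinarith)
  have hs2 : s₀ < 1 := by
    by_contra h
    nlinarith [not_lt.1 h]
  set χ := √(2 * (1 - s₀)) with hχ
  have hχ0 : 0 < χ := Real.sqrt_pos.2 (by linarith)
  have hχ1 : χ ^ 2 = 2 * (1 - s₀) := Real.sq_sqrt (by linarith)
  obtain ⟨ε, hε⟩ : ∃ ε, ε = 2 * χ := ⟨_, rfl⟩
  have hε0 : 0 < ε := by linarith
  have hδ' : δ = ε / (2 * (1 + ε)) := by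
    rw [hδ, hε]
    change χ / (1 + 2 * χ) = _
    field_simp
  have hs3 : s₀ = 1 - ε ^ 2 / 8 := by rw [hε]; linarith
  have hδ0 : 0 < δ := by rw [hδ']; positivity
  have hδ1 : 1 - 2 * δ = 1 / (1 + ε) := by rw [hδ']; field_simp; ring
  have hδ2 : 0 < 1 - 2 * δ := by rw [hδ1]; positivity
  have hn : ‖-e‖ = 1 := by rw [norm_neg, he]
  set Y : E3 → E3 := fun x => ε⁻¹ • x + (1 + ε⁻¹) • -e with hY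
  have hR := fun (x : E3) (hx : ‖x‖ ≤ 1) => gfam_reg hε0 hδ' he hx (Y := Y x) rfl
  have hY0 : ∀ x : E3, ‖x‖ ≤ 1 → Y x ≠ 0 := fun x hx h => by
    have := (hR x hx).2.1
    rw [h, norm_zero] at this
    norm_num at this
  have hYc : ContDiff ℝ 1 Y := (contDiff_id.const_smul ε⁻¹).add contDiff_const
  have hYd : ∀ x, HasFDerivAt Y (ε⁻¹ • ContinuousLinearMap.id ℝ E3) x := fun x =>
    ((hasFDerivAt_id x).const_smul ε⁻¹).add_const _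
  refine ⟨fun x => ε⁻¹ • (w₀ • fld a₀ b₀ (-e) (Y x) + w₁ • fld a₁ b₁ (-e) (Y x) - β • -e),
    Ah / (2 * δ), 2 * (1 - 2 * δ) * Bh / ε ^ 3, fun x hx => ?_, fun x hx u v hu hv huv => ?_,
    by positivity, ?_, fun x hx => ?_⟩
  · exact (((((contDiffAt_fld a₀ b₀ (-e) (hY0 x hx)).comp x hYc.contDiffAt).const_smul w₀).add
      (((contDiffAt_fld a₁ b₁ (-e) (hY0 x hx)).comp x hYc.contDiffAt).const_smul w₁)).sub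
        contDiffAt_const).const_smul ε⁻¹
  · have d0 := (((contDiffAt_fld a₀ b₀ (-e) (hY0 x hx)).differentiableAt
      one_ne_zero).hasFDerivAt.comp x (hYd x)).const_smul w₀
    have d1 := (((contDiffAt_fld a₁ b₁ (-e) (hY0 x hx)).differentiableAt
      one_ne_zero).hasFDerivAt.comp x (hYd x)).const_smul w₁
    have d2 : HasFDerivAt
        (fun x => ε⁻¹ • (w₀ • fld a₀ b₀ (-e) (Y x) + w₁ • fld a₁ b₁ (-e) (Y x) - β • -e)) _ x :=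
      ((d0.add d1).sub_const (β • -e)).const_smul ε⁻¹
    obtain ⟨r1, r2, r3, r4, -⟩ := hR x hx
    have k0 := gfam_div hL₀ h1 hn r1 r2 r3 r4 hu hv huv
    have k1 := gfam_div hL₁ h1 hn r1 r2 r3 r4 hu hv huv
    simp only [d2.fderiv, smul_apply, add_apply, ContinuousLinearMap.comp_apply,
      ContinuousLinearMap.id_apply, map_smul, inner_add_left, real_inner_smul_left]
    have := mul_nonneg (sq_nonneg ε⁻¹) (add_nonneg (mul_nonneg hw₀ k0) (mul_nonneg hw₁ k1))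
    linarith
  · refine abs_le_of_sq_le_sq' ?_ (by positivity) |>.2
    have e1 : (l * (Ah / (2 * δ))) ^ 2 =
        Ah ^ 2 * ((1 - 2 * δ) ^ 2 - δ ^ 2 / 4) / (4 * (1 - 2 * δ) ^ 4) := by
      have : l ^ 2 = 1 - (1 - ε ^ 2 / 8) ^ 2 := by rw [← hs3]; linarith
      rw [mul_pow, this, hδ1, hδ']
      field_simp
      ring
    rw [e1, le_div_iff₀ (by positivity)]
    linarith
  · obtain ⟨r1, r2, r3, -, r5⟩ := hR x hx.le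
    have r5 := r5 hx
    have hW : 0 < ‖Y x‖ ^ 2 := by linarith
    obtain ⟨q, hq⟩ : ∃ q, q = 1 / ‖Y x‖ ^ 2 := ⟨_, rfl⟩
    have hq0 : 0 < q := by rw [hq]; positivity
    have hq1 : q ≤ 1 := by rw [hq]; exact (div_le_one hW).2 r2
    have hW' : ‖Y x‖ ^ 2 = 1 / q := by rw [hq, one_div_one_div]
    rw [r5, ← hq] at r3
    have hσ : ⟪Y x, -e⟫_ℝ = (δ + (1 - δ) * q) / q := by
      rw [hq, ← r5]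
      generalize ‖Y x‖ ^ 2 = W at hW ⊢
      field_simp
    have hq2 : δ ^ 2 ≤ (1 - δ) ^ 2 * q := by
      rcases hq1.eq_or_lt with h | h
      · rw [h]; nlinarith
      · by_contra h2
        nlinarith [mul_pos (sub_pos.2 h) (sub_pos.2 (not_le.1 h2))]
    obtain ⟨G1, G2⟩ := hG q hq0 hq1 hq2
    have hx' : x = ε • (Y x - (1 + ε⁻¹) • -e) := by
      rw [hY, add_sub_cancel_right, smul_inv_smul₀ hε0.ne']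
    have h11 : ⟪-e, -e⟫_ℝ = 1 := by rw [real_inner_self_eq_norm_sq, hn]; norm_num
    have k1 : ⟪Y x, x⟫_ℝ = ε * (1 / q - (1 + ε⁻¹) * ((δ + (1 - δ) * q) / q)) := by
      conv_lhs => enter [3]; rw [hx']
      rw [real_inner_smul_right, inner_sub_right, real_inner_smul_right,
        real_inner_self_eq_norm_sq, hW', hσ]
    have k2 : ⟪-e, x⟫_ℝ = ε * ((δ + (1 - δ) * q) / q - (1 + ε⁻¹)) := by
      conv_lhs => enter [3]; rw [hx']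
      rw [real_inner_smul_right, inner_sub_right, real_inner_smul_right, real_inner_comm, hσ, h11,
        mul_one]
    have e2 : 1 / 2 - ⟪ε⁻¹ • (w₀ • fld a₀ b₀ (-e) (Y x) + w₁ • fld a₁ b₁ (-e) (Y x) - β • -e),
        x⟫_ℝ = bdG a₀ b₀ a₁ b₁ w₀ w₁ β δ q / (2 * δ * q) := by
      simp only [fld, r5, ← hq, bdG, real_inner_smul_left, inner_add_left, inner_sub_left, k1, k2]
      generalize ev2 a₀ (δ + (1 - δ) * q) q = A0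
      generalize ev2 a₁ (δ + (1 - δ) * q) q = A1
      generalize ev2 b₀ (δ + (1 - δ) * q) q = B0
      generalize ev2 b₁ (δ + (1 - δ) * q) q = B1
      rw [hδ']
      field_simp
      ring
    have e3 : ⟪x, e⟫_ℝ - s₀ = -(ε ^ 2 / 2) * ((1 - 2 * δ) * (1 - q) - q / 4) / q := by
      have : ⟪x, e⟫_ℝ = -⟪-e, x⟫_ℝ := by rw [inner_neg_left, neg_neg, real_inner_comm]
      rw [this, k2, hs3, hδ']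
      field_simp
      ring
    rw [e2, e3]
    refine ⟨by positivity, sub_nonneg.1 ?_⟩
    generalize bdG a₀ b₀ a₁ b₁ w₀ w₁ β δ q = G at G2 ⊢
    generalize (1 - 2 * δ) * (1 - q) - q / 4 = Ω at G2 ⊢
    have e4 : G / (2 * δ * q) - (Ah / (2 * δ) + 2 * (1 - 2 * δ) * Bh / ε ^ 3 *
        (-(ε ^ 2 / 2) * Ω / q - 6 / 5 * (-(ε ^ 2 / 2) * Ω / q) ^ 2)) =
        (q * G - q ^ 2 * Ah + (1 - 2 * δ) ^ 2 * Bh * Ω * q + 12 / 5 * δ ^ 2 * Bh * Ω ^ 2) /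
          (2 * δ * q ^ 2) := by
      rw [hδ1, hδ']
      field_simp
      ring
    rw [e4]
    positivity

theorem delOf_range {l : ℝ} (hl0 : 0 < l) (hl1 : l ≤ 6367 / 10000) :
    0 < delOf l ∧ delOf l < 37 / 128 := by
  have h1 : 771 / 1000 < √(1 - l ^ 2) := Real.lt_sqrt_of_sq_lt (by nlinarith)
  have h2 : √(1 - l ^ 2) < 1 := (Real.sqrt_lt' one_pos).2 (by nlinarith)
  have h3 : 0 < √(2 * (1 - √(1 - l ^ 2))) := Real.sqrt_pos.2 (by linarith)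
  have h4 : √(2 * (1 - √(1 - l ^ 2))) < 37 / 54 := (Real.sqrt_lt' (by norm_num)).2 (by linarith)
  refine ⟨div_pos h3 (by linarith), ?_⟩
  rw [delOf, div_lt_iff₀ (by linarith)]
  linarith

end Pool.Agent.Lib.MP_14b623_gt
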