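import Pool.Agent.Lib.MP_14b623_gt.GEx
import Pool.Agent.Lib.MP_14b623_gt.GData

/-! Kernel checks for family 1. -/

namespace Pool.Agent.Lib.MP_14b623_gt

set_option maxRecDepth 100000

theorem jB1 : job 13 13 163 69 33
    [xG2 0 16 cA10 cB10 cA11 cB11 cE1 cH1 cS1 .x .y, xRg 0 16 .x, xPh .x .y]
    (.h (.h (.h (.v (.l 0) (.v (.l 0) (.v (.l 0) (.l 0)))) (.l 1)) (.l 1)) (.l 1)) = true := by
  decide +kernel

theorem jD10 : job 22 22 272 86 70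
    [xD cA10 cB10, xBall 0]
    (.v (.h (.h (.v (.l 0) (.l 0)) (.v (.v (.l 0) (.l 0)) (.l 0))) (.v (.v (.v (.l 0) (.l 0)) (.l
    0)) (.l 0))) (.h (.h (.h (.l 0) (.l 0)) (.l 0)) (.v (.h (.l 0) (.l 0)) (.h (.l 0) (.v (.h (.l
    0) (.h (.l 0) (.v (.l 0) (.l 0)))) (.h (.l 0) (.v (.v (.l 0) (.l 0)) (.l 0)))))))) = true := by
  decide +kernel

theorem jD11 : job 22 22 272 86 70
    [xD cA11 cB11, xBall 0]
    (.v (.h (.h (.v (.l 0) (.l 0)) (.v (.l 0) (.l 0))) (.v (.l 0) (.l 0))) (.h (.h (.h (.h (.l 0)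
    (.l 0)) (.l 0)) (.l 0)) (.v (.h (.l 0) (.v (.l 0) (.l 0))) (.h (.l 0) (.v (.h (.h (.l 0) (.l
    0)) (.h (.l 0) (.v (.l 0) (.l 0)))) (.h (.h (.l 0) (.l 0)) (.v (.v (.l 0) (.l 0)) (.l
    0)))))))) = true := by
  decide +kernel

theorem jE10 : job 12 12 127 43 29
    [xE cA10 cB10]
    (.l 0) = true := by
  decide +kernel

theorem jE11 : job 12 12 127 43 29
    [xE cA11 cB11]
    (.l 0) = true := by
  decide +kernel

theorem jF1 : job 37 13 403 63 144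
    [xG 0 16 cA10 cB10 cA11 cB11 cE1 (.mul .x .y) (.mul .x .x), xPh (.mul .x .y) (.mul .x .x),
    (Ex.mul (.c 8) .x).sub (.c 1)]
    (.h (.h (.h (.l 0) (.l 2)) (.l 2)) (.l 2)) = true := by
  decide +kernel

theorem jG1 : job 13 12 156 63 33
    [xG 0 16 cA10 cB10 cA11 cB11 cE1 .x .y, xRg 0 16 .x, xPh .x .y, (Ex.c 1).sub (.mul (.c 65)
    .y)]
    (.h (.h (.v (.h (.v (.v (.v (.h (.v (.v (.v (.l 3) (.l 0)) (.l 0)) (.l 0)) (.l 0)) (.l 0)) (.l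
    0)) (.l 0)) (.l 1)) (.l 0)) (.l 1)) (.l 1)) = true := by
  decide +kernel

theorem jH1 : job 2 0 30 22 2
    [xH cH1 .x, xRg 0 16 .x]
    (.h (.l 0) (.l 1)) = true := by
  decide +kernel

theorem jP10 : job 11 11 118 42 26
    [xP cA10, xBall 0]
    (.v (.l 0) (.h (.l 0) (.h (.l 0) (.v (.v (.l 0) (.l 0)) (.v (.h (.l 0) (.h (.l 0) (.h (.l 0)
    (.l 0)))) (.l 0)))))) = true := by
  decide +kernel

theorem jP11 : job 11 11 118 42 26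
    [xP cA11, xBall 0]
    (.h (.l 0) (.v (.v (.l 0) (.l 0)) (.h (.l 0) (.v (.h (.l 0) (.v (.l 0) (.l 0))) (.v (.h (.l 0)
    (.h (.l 0) (.v (.h (.l 0) (.l 0)) (.l 0)))) (.l 0)))))) = true := by
  decide +kernel

theorem jR10 : job 10 10 106 40 22
    [xR cB10, xBall 0]
    (.v (.h (.l 0) (.v (.l 0) (.l 0))) (.h (.h (.h (.l 0) (.l 0)) (.l 0)) (.v (.l 0) (.h (.l 0)
    (.v (.h (.h (.l 0) (.h (.l 0) (.l 0))) (.l 0)) (.h (.h (.l 0) (.l 0)) (.l 0))))))) = true := by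
  decide +kernel

theorem jR11 : job 10 10 106 40 22
    [xR cB11, xBall 0]
    (.v (.h (.l 0) (.v (.l 0) (.l 0))) (.h (.h (.h (.h (.l 0) (.l 0)) (.l 0)) (.l 0)) (.v (.l 0)
    (.h (.l 0) (.v (.h (.h (.l 0) (.l 0)) (.l 0)) (.h (.v (.h (.h (.l 0) (.l 0)) (.l 0)) (.l 0))
    (.l 0))))))) = true := by
  decide +kernel

theorem jS1 : job 2 0 34 26 2
    [xH cS1 .x, xRg 0 16 .x]
    (.l 0) = true := by
  decide +kernel

theorem jV1 : job 6 0 112 84 10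
    [xV cH1 .x, xRg 0 16 .x]
    (.h (.h (.h (.l 0) (.l 1)) (.l 1)) (.l 1)) = true := by
  decide +kernel

end Pool.Agent.Lib.MP_14b623_gt
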