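import Pool.Agent.Lib.MP_14b623_gt.GEx
import Pool.Agent.Lib.MP_14b623_gt.GData

/-! Kernel checks for family 2. -/

namespace Pool.Agent.Lib.MP_14b623_gt

set_option maxRecDepth 100000

theorem jB2 : job 13 13 166 72 33
    [xG2 14 32 cA20 cB20 cA21 cB21 cE2 cH2 cS2 .x .y, xRg 14 32 .x, xPh .x .y]
    (.h (.h (.v (.l 0) (.v (.h (.l 0) (.l 0)) (.h (.h (.l 1) (.h (.l 1) (.h (.l 1) (.l 0)))) (.l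
    0)))) (.l 1)) (.l 1)) = true := by
  decide +kernel

theorem jD20 : job 22 22 275 89 70
    [xD cA20 cB20, xBall 14]
    (.v (.v (.l 1) (.h (.h (.l 1) (.h (.v (.l 1) (.h (.h (.l 1) (.v (.l 1) (.h (.v (.l 1) (.h (.l
    1) (.l 0))) (.l 0)))) (.l 0))) (.l 0))) (.v (.l 1) (.h (.l 0) (.h (.l 0) (.l 1)))))) (.h (.v
    (.h (.h (.l 1) (.h (.v (.l 1) (.h (.l 1) (.v (.l 1) (.l 0)))) (.v (.h (.v (.l 1) (.v (.l 1)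
    (.h (.l 1) (.l 0)))) (.v (.v (.l 1) (.h (.l 1) (.v (.l 1) (.h (.l 1) (.l 0))))) (.h (.v (.h
    (.l 1) (.l 0)) (.l 0)) (.l 0)))) (.l 0)))) (.h (.h (.h (.v (.v (.v (.h (.l 1) (.v (.l 1) (.l
    0))) (.h (.v (.h (.l 1) (.l 0)) (.l 0)) (.l 0))) (.l 0)) (.l 0)) (.l 0)) (.l 0)) (.l 0))) (.h
    (.h (.h (.l 1) (.h (.l 1) (.v (.l 1) (.h (.l 1) (.h (.l 1) (.l 0)))))) (.h (.h (.v (.h (.l 1)
    (.l 0)) (.l 0)) (.l 0)) (.l 0))) (.h (.h (.l 0) (.l 0)) (.l 0)))) (.v (.h (.l 0) (.h (.l 0)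
    (.h (.v (.h (.l 0) (.h (.l 0) (.l 1))) (.l 0)) (.v (.l 1) (.h (.v (.l 1) (.h (.v (.h (.l 0)
    (.h (.l 0) (.l 1))) (.l 0)) (.v (.l 1) (.v (.l 1) (.h (.h (.l 0) (.l 1)) (.l 1)))))) (.l
    1)))))) (.v (.h (.l 0) (.h (.l 0) (.v (.h (.l 0) (.v (.h (.h (.l 0) (.v (.h (.l 0) (.l 1)) (.l
    0))) (.l 1)) (.l 0))) (.l 0)))) (.h (.l 0) (.v (.h (.l 0) (.h (.l 0) (.v (.l 0) (.h (.l 0) (.h
    (.l 0) (.h (.l 0) (.h (.l 0) (.l 1)))))))) (.l 0))))))) = true := by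
  decide +kernel

theorem jD21 : job 22 22 280 94 70
    [xD cA21 cB21, xBall 14]
    (.v (.v (.l 1) (.h (.h (.l 1) (.v (.l 1) (.h (.h (.h (.l 1) (.v (.l 1) (.v (.l 1) (.h (.h (.l
    1) (.v (.l 1) (.l 0))) (.l 0))))) (.v (.h (.l 1) (.v (.l 1) (.l 0))) (.h (.v (.v (.l 1) (.l
    0)) (.l 0)) (.l 0)))) (.l 0)))) (.v (.l 1) (.h (.h (.l 0) (.v (.h (.v (.v (.l 1) (.h (.l 0)
    (.h (.h (.l 0) (.v (.l 1) (.l 0))) (.v (.l 1) (.h (.l 0) (.v (.l 1) (.l 0))))))) (.l 0)) (.v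
    (.l 1) (.v (.h (.v (.h (.h (.l 0) (.v (.v (.l 1) (.l 0)) (.l 0))) (.h (.v (.l 1) (.h (.l 0)
    (.h (.l 0) (.l 1)))) (.l 1))) (.l 0)) (.v (.l 1) (.h (.v (.l 1) (.h (.l 0) (.l 1))) (.l 1))))
    (.h (.l 0) (.v (.h (.l 0) (.h (.l 0) (.l 1))) (.l 0)))))) (.l 0))) (.h (.v (.v (.l 1) (.h (.v
    (.l 1) (.v (.l 1) (.l 0))) (.l 1))) (.l 0)) (.l 1)))))) (.h (.h (.h (.h (.l 1) (.h (.l 1) (.v
    (.l 1) (.h (.l 1) (.v (.l 1) (.h (.l 1) (.v (.l 1) (.h (.l 1) (.v (.l 1) (.h (.v (.l 1) (.h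
    (.l 1) (.v (.l 1) (.l 0)))) (.v (.h (.l 1) (.v (.l 1) (.h (.h (.l 1) (.l 0)) (.l 0)))) (.h (.v
    (.h (.h (.l 1) (.l 0)) (.l 0)) (.l 0)) (.l 0))))))))))))) (.h (.v (.v (.l 1) (.h (.l 1) (.v
    (.l 1) (.h (.h (.l 1) (.v (.l 1) (.h (.l 1) (.v (.l 1) (.h (.l 1) (.v (.l 1) (.h (.l 1) (.l
    0)))))))) (.h (.v (.l 1) (.h (.v (.h (.l 1) (.v (.l 1) (.h (.l 1) (.h (.l 1) (.l 0))))) (.h
    (.v (.v (.l 1) (.l 0)) (.l 0)) (.l 0))) (.v (.h (.v (.l 1) (.l 0)) (.l 0)) (.l 0)))) (.v (.h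
    (.v (.l 1) (.h (.v (.l 1) (.v (.l 1) (.l 0))) (.v (.v (.l 1) (.l 0)) (.l 0)))) (.v (.v (.l 1)
    (.h (.h (.l 1) (.v (.l 1) (.l 0))) (.l 0))) (.l 0))) (.l 0))))))) (.h (.v (.h (.l 1) (.v (.h
    (.l 1) (.v (.l 1) (.h (.l 1) (.v (.l 1) (.h (.l 1) (.v (.l 1) (.h (.l 1) (.l 0)))))))) (.h (.v
    (.l 1) (.h (.v (.l 1) (.h (.v (.l 1) (.h (.l 1) (.h (.l 1) (.l 0)))) (.v (.h (.l 1) (.l 0))
    (.l 0)))) (.v (.h (.v (.l 1) (.h (.l 1) (.l 0))) (.l 0)) (.l 0)))) (.v (.h (.v (.h (.l 1) (.v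
    (.l 1) (.h (.l 1) (.l 0)))) (.h (.v (.l 1) (.l 0)) (.l 0))) (.v (.h (.v (.h (.l 1) (.l 0)) (.l
    0)) (.l 0)) (.l 0))) (.l 0))))) (.h (.v (.h (.v (.l 1) (.h (.l 1) (.v (.l 1) (.h (.l 1) (.v
    (.l 1) (.h (.h (.l 1) (.l 0)) (.l 0))))))) (.v (.h (.l 1) (.v (.h (.l 1) (.v (.l 1) (.h (.h
    (.l 1) (.l 0)) (.l 0)))) (.h (.v (.h (.l 1) (.l 0)) (.l 0)) (.l 0)))) (.h (.v (.h (.v (.l 1)
    (.h (.l 1) (.l 0))) (.v (.h (.h (.l 1) (.l 0)) (.l 0)) (.l 0))) (.l 0)) (.l 0)))) (.h (.h (.v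
    (.v (.l 1) (.h (.h (.l 1) (.v (.l 1) (.h (.l 1) (.l 0)))) (.h (.v (.v (.l 1) (.l 0)) (.l 0))
    (.l 0)))) (.h (.v (.h (.v (.h (.l 1) (.l 0)) (.l 0)) (.l 0)) (.l 0)) (.l 0))) (.v (.h (.v (.h
    (.v (.l 1) (.l 0)) (.l 0)) (.l 0)) (.l 0)) (.l 0))) (.l 0))) (.l 0))) (.v (.h (.v (.h (.v (.h
    (.l 1) (.v (.l 1) (.h (.l 1) (.v (.l 1) (.h (.h (.l 1) (.l 0)) (.l 0)))))) (.h (.v (.h (.l 1)
    (.v (.l 1) (.h (.l 1) (.l 0)))) (.h (.v (.h (.l 1) (.l 0)) (.l 0)) (.l 0))) (.v (.h (.v (.h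
    (.h (.l 1) (.l 0)) (.l 0)) (.l 0)) (.l 0)) (.l 0)))) (.v (.h (.v (.h (.l 1) (.v (.l 1) (.h (.l
    1) (.l 0)))) (.h (.v (.v (.l 1) (.l 0)) (.l 0)) (.l 0))) (.v (.h (.v (.h (.l 1) (.l 0)) (.l
    0)) (.l 0)) (.l 0))) (.l 0))) (.l 0)) (.l 0)) (.l 0)))) (.v (.v (.h (.v (.l 1) (.h (.l 1) (.v
    (.l 1) (.h (.l 1) (.v (.l 1) (.h (.l 1) (.v (.l 1) (.h (.v (.l 1) (.l 0)) (.l 0))))))))) (.v
    (.h (.l 1) (.v (.l 1) (.h (.l 1) (.v (.l 1) (.h (.l 1) (.h (.l 1) (.v (.l 1) (.l 0)))))))) (.h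
    (.v (.h (.l 1) (.v (.l 1) (.h (.l 1) (.v (.l 1) (.l 0))))) (.h (.v (.h (.l 1) (.v (.l 1) (.h
    (.v (.l 1) (.l 0)) (.l 0)))) (.h (.h (.v (.v (.l 1) (.l 0)) (.l 0)) (.l 0)) (.l 0))) (.h (.v
    (.h (.v (.v (.l 1) (.l 0)) (.l 0)) (.l 0)) (.l 0)) (.l 0)))) (.v (.v (.h (.h (.l 1) (.v (.l 1)
    (.l 0))) (.h (.h (.v (.h (.l 1) (.l 0)) (.l 0)) (.l 0)) (.l 0))) (.l 0)) (.l 0))))) (.h (.v
    (.h (.v (.h (.l 1) (.v (.l 1) (.h (.l 1) (.h (.l 1) (.v (.l 1) (.v (.l 1) (.l 0))))))) (.h (.v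
    (.l 1) (.h (.h (.l 1) (.v (.l 1) (.v (.l 1) (.l 0)))) (.v (.h (.l 1) (.h (.v (.l 1) (.l 0))
    (.l 0))) (.l 0)))) (.v (.h (.v (.l 1) (.h (.v (.l 1) (.l 0)) (.l 0))) (.h (.v (.h (.v (.l 1)
    (.l 0)) (.l 0)) (.l 0)) (.l 0))) (.l 0)))) (.v (.h (.v (.h (.l 1) (.v (.l 1) (.h (.h (.l 1)
    (.v (.l 1) (.l 0))) (.l 0)))) (.h (.v (.h (.l 1) (.v (.l 1) (.l 0))) (.l 0)) (.l 0))) (.h (.v
    (.h (.v (.v (.l 1) (.l 0)) (.l 0)) (.l 0)) (.l 0)) (.l 0))) (.l 0))) (.h (.h (.v (.h (.v (.h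
    (.v (.h (.h (.l 1) (.l 0)) (.l 0)) (.l 0)) (.l 0)) (.l 0)) (.l 0)) (.l 0)) (.l 0)) (.l 0)))
    (.l 0))) (.l 0)))) (.h (.h (.h (.v (.v (.v (.h (.v (.l 1) (.h (.v (.l 1) (.h (.h (.v (.l 1)
    (.l 0)) (.l 0)) (.l 0))) (.v (.h (.v (.l 1) (.l 0)) (.l 0)) (.l 0)))) (.v (.v (.l 1) (.h (.v
    (.l 1) (.l 0)) (.l 0))) (.l 0))) (.l 0)) (.l 0)) (.l 0)) (.l 0)) (.l 0)) (.l 0))) (.v (.h (.l
    0) (.h (.v (.h (.l 0) (.v (.h (.l 0) (.h (.l 0) (.v (.l 1) (.v (.h (.l 0) (.v (.l 1) (.h (.l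
    0) (.l 1)))) (.l 0))))) (.l 0))) (.l 0)) (.v (.h (.v (.h (.v (.l 1) (.h (.v (.l 1) (.h (.v (.l
    1) (.h (.l 0) (.l 1))) (.l 1))) (.l 1))) (.l 1)) (.h (.v (.h (.v (.h (.l 0) (.v (.h (.h (.l 0)
    (.l 1)) (.l 1)) (.h (.l 0) (.h (.l 0) (.l 1))))) (.l 0)) (.v (.l 1) (.h (.h (.v (.h (.l 0) (.l
    1)) (.l 0)) (.v (.l 1) (.h (.l 0) (.l 1)))) (.l 1)))) (.h (.l 0) (.v (.h (.l 0) (.v (.h (.l 0)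
    (.l 1)) (.l 0))) (.l 0)))) (.v (.l 1) (.h (.v (.l 1) (.h (.h (.l 0) (.v (.l 1) (.h (.l 0) (.l
    1)))) (.l 1))) (.l 1))))) (.l 1)) (.h (.v (.h (.l 0) (.v (.h (.v (.h (.l 0) (.v (.v (.l 1) (.h
    (.l 0) (.l 1))) (.v (.h (.l 0) (.l 1)) (.l 0)))) (.l 0)) (.v (.l 1) (.h (.v (.l 1) (.h (.l 0)
    (.l 1))) (.l 1)))) (.h (.l 0) (.v (.h (.l 0) (.v (.l 1) (.h (.l 0) (.l 1)))) (.l 0))))) (.l
    0)) (.v (.l 1) (.h (.l 0) (.l 1))))))) (.h (.v (.l 0) (.h (.l 0) (.v (.l 0) (.l 0)))) (.v (.h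
    (.l 0) (.h (.l 0) (.h (.l 0) (.v (.h (.v (.l 1) (.h (.v (.l 1) (.h (.l 0) (.l 1))) (.l 1)))
    (.l 1)) (.h (.l 0) (.v (.l 1) (.l 0))))))) (.v (.h (.l 0) (.l 0)) (.l 0))))))) = true := by
  decide +kernel

theorem jE20 : job 12 12 128 44 29
    [xE cA20 cB20]
    (.l 0) = true := by
  decide +kernel

theorem jE21 : job 12 12 131 47 29
    [xE cA21 cB21]
    (.l 0) = true := by
  decide +kernel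

theorem jG2 : job 13 12 158 65 33
    [xG 14 32 cA20 cB20 cA21 cB21 cE2 .x .y, xRg 14 32 .x, xPh .x .y]
    (.h (.h (.v (.v (.h (.h (.l 1) (.h (.l 1) (.h (.l 1) (.v (.v (.v (.v (.l 0) (.l 0)) (.l 0))
    (.l 0)) (.l 0))))) (.v (.v (.h (.v (.h (.l 0) (.l 2)) (.l 0)) (.v (.l 2) (.h (.h (.l 0) (.l
    2)) (.l 2)))) (.h (.l 0) (.h (.l 0) (.v (.h (.l 0) (.v (.l 2) (.h (.l 0) (.l 2)))) (.l 0)))))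
    (.l 0))) (.h (.h (.l 1) (.h (.l 1) (.v (.l 0) (.h (.l 1) (.l 0))))) (.v (.l 0) (.l 0)))) (.v
    (.h (.h (.l 1) (.l 0)) (.l 0)) (.l 0))) (.l 1)) (.l 1)) = true := by
  decide +kernel

theorem jH2 : job 2 0 30 22 2
    [xH cH2 .x, xRg 14 32 .x]
    (.h (.l 0) (.l 1)) = true := by
  decide +kernel

theorem jP20 : job 11 11 119 43 26
    [xP cA20, xBall 14]
    (.v (.v (.l 1) (.h (.l 0) (.h (.l 0) (.l 0)))) (.h (.h (.h (.h (.l 1) (.v (.l 1) (.h (.l 1)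
    (.v (.l 1) (.h (.l 1) (.l 0)))))) (.l 0)) (.l 0)) (.h (.l 0) (.v (.h (.l 0) (.h (.l 0) (.v (.l
    1) (.v (.l 1) (.h (.h (.l 0) (.v (.l 1) (.v (.l 1) (.h (.h (.l 0) (.l 1)) (.l 1))))) (.l
    1)))))) (.v (.h (.l 0) (.v (.h (.l 0) (.v (.h (.v (.h (.l 0) (.h (.l 0) (.l 1))) (.l 0)) (.l
    1)) (.l 0))) (.l 0))) (.h (.l 0) (.v (.v (.l 0) (.h (.l 0) (.h (.l 0) (.h (.l 0) (.h (.l 0)
    (.h (.l 0) (.l 1))))))) (.l 0)))))))) = true := by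
  decide +kernel

theorem jP21 : job 11 11 122 46 26
    [xP cA21, xBall 14]
    (.v (.v (.l 1) (.h (.h (.l 1) (.v (.l 1) (.l 0))) (.v (.l 1) (.h (.l 0) (.h (.l 0) (.l 1))))))
    (.h (.h (.h (.h (.l 1) (.v (.l 1) (.h (.l 1) (.v (.l 1) (.h (.l 1) (.v (.l 1) (.h (.l 1) (.v
    (.l 1) (.h (.l 1) (.v (.h (.l 1) (.v (.l 1) (.h (.l 1) (.v (.h (.l 1) (.l 0)) (.l 0))))) (.h
    (.v (.l 1) (.h (.l 1) (.l 0))) (.v (.h (.v (.h (.l 1) (.l 0)) (.l 0)) (.l 0)) (.l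
    0))))))))))))) (.h (.v (.v (.l 1) (.h (.l 1) (.v (.l 1) (.h (.v (.l 1) (.h (.l 1) (.v (.l 1)
    (.h (.l 1) (.l 0))))) (.v (.h (.l 1) (.l 0)) (.l 0)))))) (.h (.v (.h (.l 1) (.v (.v (.l 1) (.h
    (.l 1) (.v (.l 1) (.h (.l 1) (.h (.l 1) (.l 0)))))) (.h (.v (.l 1) (.h (.v (.l 1) (.h (.v (.l
    1) (.h (.l 1) (.l 0))) (.l 0))) (.v (.h (.h (.l 1) (.l 0)) (.l 0)) (.l 0)))) (.v (.h (.v (.h
    (.l 1) (.h (.l 1) (.l 0))) (.l 0)) (.l 0)) (.l 0))))) (.h (.v (.h (.v (.l 1) (.h (.l 1) (.v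
    (.l 1) (.h (.l 1) (.v (.l 1) (.h (.h (.l 1) (.l 0)) (.l 0))))))) (.v (.h (.l 1) (.v (.h (.l 1)
    (.v (.l 1) (.l 0))) (.h (.v (.h (.l 1) (.l 0)) (.l 0)) (.l 0)))) (.h (.v (.h (.v (.l 1) (.h
    (.l 1) (.l 0))) (.l 0)) (.l 0)) (.l 0)))) (.h (.v (.h (.v (.l 1) (.h (.v (.l 1) (.h (.l 1) (.h
    (.l 1) (.l 0)))) (.v (.h (.v (.l 1) (.l 0)) (.l 0)) (.l 0)))) (.v (.h (.v (.h (.l 1) (.l 0))
    (.l 0)) (.l 0)) (.l 0))) (.h (.v (.h (.v (.h (.h (.l 1) (.l 0)) (.l 0)) (.l 0)) (.l 0)) (.l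
    0)) (.l 0))) (.l 0))) (.l 0))) (.v (.v (.h (.h (.v (.v (.l 1) (.h (.l 1) (.l 0))) (.v (.h (.h
    (.l 1) (.l 0)) (.l 0)) (.l 0))) (.l 0)) (.l 0)) (.l 0)) (.l 0)))) (.v (.h (.v (.v (.l 1) (.h
    (.l 1) (.h (.l 1) (.l 0)))) (.v (.h (.v (.h (.l 1) (.l 0)) (.l 0)) (.l 0)) (.l 0))) (.l 0))
    (.l 0)))) (.l 0)) (.v (.h (.l 0) (.h (.l 0) (.v (.h (.v (.v (.l 1) (.h (.v (.l 1) (.h (.h (.l
    0) (.l 1)) (.l 1))) (.l 1))) (.h (.v (.h (.l 0) (.v (.l 1) (.h (.l 0) (.l 1)))) (.l 0)) (.v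
    (.l 1) (.h (.v (.l 1) (.h (.v (.h (.l 0) (.l 1)) (.l 0)) (.l 1))) (.l 1))))) (.l 1)) (.h (.v
    (.h (.l 0) (.v (.h (.v (.h (.l 0) (.v (.h (.l 0) (.l 1)) (.l 0))) (.l 0)) (.v (.l 1) (.h (.v
    (.l 1) (.h (.l 0) (.l 1))) (.l 1)))) (.h (.l 0) (.v (.h (.l 0) (.v (.l 1) (.h (.l 0) (.l 1))))
    (.l 0))))) (.l 0)) (.v (.l 1) (.l 0)))))) (.h (.l 0) (.v (.h (.l 0) (.h (.h (.l 0) (.l 0)) (.l
    0))) (.h (.v (.h (.l 0) (.l 0)) (.l 0)) (.v (.h (.l 0) (.h (.l 0) (.l 0))) (.l 0)))))))) = true := by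
  decide +kernel

theorem jR20 : job 10 10 107 41 22
    [xR cB20, xBall 14]
    (.v (.v (.l 1) (.h (.h (.l 1) (.v (.l 1) (.l 0))) (.h (.l 0) (.h (.l 0) (.l 1))))) (.h (.h (.h
    (.h (.l 1) (.v (.l 1) (.h (.l 1) (.l 0)))) (.v (.h (.h (.l 1) (.l 0)) (.l 0)) (.l 0))) (.v (.h
    (.h (.l 0) (.l 0)) (.l 0)) (.h (.h (.v (.l 0) (.l 0)) (.l 0)) (.l 0)))) (.v (.h (.l 0) (.h (.l
    0) (.h (.l 0) (.v (.l 1) (.v (.l 1) (.h (.v (.h (.l 0) (.l 1)) (.l 0)) (.l 1))))))) (.h (.h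
    (.l 0) (.v (.l 0) (.h (.l 0) (.l 0)))) (.v (.l 0) (.l 0)))))) = true := by
  decide +kernel

theorem jR21 : job 10 10 110 44 22
    [xR cB21, xBall 14]
    (.h (.v (.v (.l 1) (.h (.l 1) (.v (.l 1) (.l 0)))) (.h (.h (.h (.l 1) (.v (.l 1) (.h (.l 1)
    (.l 0)))) (.v (.h (.h (.l 1) (.l 0)) (.l 0)) (.l 0))) (.h (.l 0) (.l 0)))) (.v (.v (.l 1) (.h
    (.l 0) (.h (.l 0) (.l 1)))) (.v (.h (.l 0) (.l 0)) (.h (.l 0) (.h (.l 0) (.v (.l 0) (.l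
    0))))))) = true := by
  decide +kernel

theorem jS2 : job 2 0 36 28 2
    [xH cS2 .x, xRg 14 32 .x]
    (.h (.h (.l 0) (.l 0)) (.l 0)) = true := by
  decide +kernel

theorem jV2 : job 6 0 112 84 10
    [xV cH2 .x, xRg 14 32 .x]
    (.h (.h (.h (.l 0) (.l 0)) (.l 1)) (.l 1)) = true := by
  decide +kernel

end Pool.Agent.Lib.MP_14b623_gt
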