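import Pool.Agent.Lib.MP_14b623_gt.GEx
import Pool.Agent.Lib.MP_14b623_gt.GData

/-! Kernel checks for family 3. -/

namespace Pool.Agent.Lib.MP_14b623_gt

set_option maxRecDepth 100000

theorem jB3 : job 13 13 170 76 33
    [xG2 30 37 cA30 cB30 cA31 cB31 cE3 cH3 cS3 .x .y, xRg 30 37 .x, xPh .x .y]
    (.h (.v (.v (.h (.l 0) (.l 0)) (.h (.l 0) (.h (.h (.v (.l 0) (.h (.l 0) (.h (.l 0) (.l 1))))
    (.l 1)) (.l 1)))) (.h (.v (.l 0) (.h (.l 1) (.h (.l 1) (.h (.l 1) (.h (.l 1) (.v (.l 0) (.l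
    0))))))) (.h (.v (.h (.h (.l 0) (.h (.h (.l 0) (.l 1)) (.l 1))) (.l 1)) (.l 0)) (.l 1)))) (.l
    1)) = true := by
  decide +kernel

theorem jD30 : job 22 22 287 101 70
    [xD cA30 cB30, xBall 30]
    (.v (.l 1) (.h (.h (.l 1) (.v (.l 1) (.h (.v (.h (.l 1) (.v (.l 1) (.h (.l 1) (.v (.l 1) (.h
    (.l 1) (.v (.l 1) (.h (.l 1) (.h (.l 1) (.l 0))))))))) (.h (.v (.l 1) (.h (.l 1) (.h (.l 1)
    (.v (.l 1) (.h (.v (.l 1) (.h (.l 1) (.v (.l 1) (.h (.l 1) (.v (.l 1) (.l 0)))))) (.v (.h (.l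
    1) (.v (.l 1) (.h (.l 1) (.v (.l 1) (.l 0))))) (.h (.v (.h (.l 1) (.v (.l 1) (.l 0))) (.l 0))
    (.l 0)))))))) (.v (.h (.v (.l 1) (.h (.l 1) (.v (.h (.l 1) (.v (.l 1) (.h (.l 1) (.h (.l 1)
    (.l 0))))) (.h (.h (.l 1) (.v (.l 1) (.h (.l 1) (.l 0)))) (.h (.v (.h (.l 1) (.l 0)) (.l 0))
    (.l 0)))))) (.v (.h (.v (.l 1) (.h (.l 1) (.v (.h (.l 1) (.l 0)) (.l 0)))) (.v (.h (.v (.l 1)
    (.l 0)) (.l 0)) (.l 0))) (.h (.v (.h (.v (.h (.h (.l 1) (.l 0)) (.l 0)) (.l 0)) (.l 0)) (.l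
    0)) (.l 0)))) (.h (.h (.v (.h (.v (.l 1) (.h (.l 1) (.v (.l 1) (.h (.v (.l 1) (.h (.l 1) (.l
    0))) (.v (.h (.l 1) (.l 0)) (.l 0)))))) (.v (.h (.l 1) (.v (.l 1) (.h (.v (.l 1) (.h (.l 1)
    (.l 0))) (.v (.h (.l 1) (.l 0)) (.l 0))))) (.h (.v (.h (.v (.l 1) (.h (.l 1) (.l 0))) (.v (.h
    (.l 1) (.l 0)) (.l 0))) (.l 0)) (.l 0)))) (.h (.v (.h (.v (.h (.l 1) (.v (.h (.l 1) (.l 0))
    (.l 0))) (.l 0)) (.l 0)) (.l 0)) (.l 0))) (.v (.h (.v (.h (.v (.h (.v (.l 1) (.h (.l 1) (.l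
    0))) (.l 0)) (.l 0)) (.l 0)) (.l 0)) (.l 0)) (.l 0))) (.l 0))))) (.h (.v (.v (.h (.l 1) (.v
    (.l 1) (.h (.l 1) (.l 0)))) (.h (.v (.h (.l 1) (.v (.l 1) (.l 0))) (.h (.v (.h (.l 1) (.l 0))
    (.l 0)) (.l 0))) (.l 0))) (.v (.l 0) (.h (.l 0) (.l 0)))) (.l 0))))) (.h (.v (.v (.l 1) (.v
    (.l 1) (.h (.l 0) (.h (.l 0) (.v (.h (.l 0) (.l 1)) (.l 0)))))) (.v (.l 0) (.h (.l 0) (.v (.l
    0) (.l 0))))) (.h (.v (.v (.l 1) (.h (.v (.l 1) (.v (.l 1) (.l 0))) (.l 1))) (.v (.h (.l 0)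
    (.v (.h (.l 0) (.v (.h (.l 0) (.l 1)) (.l 0))) (.l 0))) (.v (.l 0) (.l 0)))) (.v (.l 1) (.v
    (.h (.v (.h (.v (.l 1) (.h (.v (.l 1) (.l 0)) (.l 1))) (.l 1)) (.h (.l 0) (.v (.v (.l 1) (.h
    (.h (.l 0) (.h (.l 0) (.l 1))) (.l 1))) (.v (.h (.l 0) (.h (.l 0) (.l 1))) (.l 0))))) (.v (.l
    1) (.v (.l 1) (.h (.v (.l 1) (.l 0)) (.l 1))))) (.h (.v (.l 0) (.l 0)) (.h (.v (.l 0) (.l 0))
    (.v (.h (.v (.l 1) (.h (.l 0) (.v (.l 1) (.h (.l 0) (.l 1))))) (.l 1)) (.h (.l 0) (.v (.v (.h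
    (.h (.l 0) (.l 1)) (.l 1)) (.l 0)) (.l 0)))))))))))) = true := by
  decide +kernel

theorem jD31 : job 22 22 284 98 70
    [xD cA31 cB31, xBall 30]
    (.v (.l 1) (.h (.h (.l 1) (.v (.l 1) (.h (.v (.h (.l 1) (.v (.l 1) (.h (.l 1) (.v (.l 1) (.l
    0))))) (.h (.h (.l 1) (.v (.l 1) (.h (.l 1) (.v (.l 1) (.h (.h (.l 1) (.v (.l 1) (.h (.l 1)
    (.v (.l 1) (.h (.l 1) (.v (.l 1) (.v (.l 1) (.l 0)))))))) (.h (.v (.l 1) (.h (.v (.l 1) (.h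
    (.v (.h (.l 1) (.l 0)) (.l 0)) (.l 0))) (.v (.v (.l 1) (.l 0)) (.l 0)))) (.v (.h (.l 1) (.l
    0)) (.l 0)))))))) (.h (.v (.h (.l 1) (.v (.l 1) (.l 0))) (.h (.h (.v (.h (.l 1) (.l 0)) (.l
    0)) (.l 0)) (.l 0))) (.l 0)))) (.v (.v (.h (.v (.l 1) (.h (.l 1) (.h (.l 1) (.v (.l 1) (.h (.v
    (.l 1) (.h (.v (.l 1) (.l 0)) (.l 0))) (.h (.v (.h (.l 1) (.l 0)) (.l 0)) (.l 0))))))) (.h (.v
    (.v (.l 1) (.h (.l 1) (.v (.l 1) (.l 0)))) (.h (.h (.v (.v (.l 1) (.l 0)) (.l 0)) (.l 0)) (.l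
    0))) (.l 0))) (.h (.h (.l 0) (.h (.v (.v (.v (.h (.l 1) (.h (.v (.l 1) (.l 0)) (.l 0))) (.l
    0)) (.l 0)) (.l 0)) (.l 0))) (.l 0))) (.h (.l 0) (.l 0)))))) (.h (.v (.v (.l 1) (.v (.l 1) (.h
    (.h (.v (.l 1) (.l 0)) (.l 0)) (.h (.v (.v (.l 1) (.l 0)) (.l 0)) (.l 0))))) (.v (.h (.l 0)
    (.l 0)) (.v (.h (.h (.l 0) (.l 0)) (.l 0)) (.h (.h (.h (.l 0) (.l 0)) (.l 0)) (.h (.l 0) (.l
    0)))))) (.h (.v (.v (.l 1) (.h (.v (.l 1) (.v (.l 1) (.l 0))) (.l 1))) (.v (.h (.l 0) (.v (.h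
    (.l 0) (.v (.h (.l 0) (.l 1)) (.l 0))) (.l 0))) (.v (.l 0) (.l 0)))) (.v (.l 1) (.v (.h (.v
    (.h (.v (.l 1) (.h (.v (.l 1) (.l 0)) (.l 1))) (.l 1)) (.h (.v (.h (.l 0) (.v (.h (.l 0) (.v
    (.l 1) (.h (.l 0) (.l 1)))) (.l 0))) (.l 0)) (.v (.h (.v (.l 1) (.v (.h (.v (.l 1) (.h (.l 0)
    (.l 1))) (.l 1)) (.h (.l 0) (.v (.l 1) (.h (.l 0) (.l 1)))))) (.l 1)) (.h (.l 0) (.v (.v (.l
    1) (.l 0)) (.l 0)))))) (.h (.v (.l 1) (.v (.l 1) (.h (.h (.v (.l 1) (.l 0)) (.l 1)) (.l 1))))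
    (.l 1))) (.h (.v (.l 0) (.l 0)) (.v (.h (.h (.l 0) (.v (.h (.v (.l 1) (.l 0)) (.l 1)) (.l 0)))
    (.h (.v (.l 1) (.v (.l 1) (.h (.l 0) (.v (.l 1) (.h (.l 0) (.l 1)))))) (.l 1))) (.h (.l 0) (.v
    (.h (.l 0) (.v (.v (.l 1) (.l 0)) (.l 0))) (.l 0))))))))))) = true := by
  decide +kernel

theorem jE30 : job 12 12 134 50 29
    [xE cA30 cB30]
    (.l 0) = true := by
  decide +kernel

theorem jE31 : job 12 12 133 49 29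
    [xE cA31 cB31]
    (.l 0) = true := by
  decide +kernel

theorem jG3 : job 13 12 162 69 33
    [xG 30 37 cA30 cB30 cA31 cB31 cE3 .x .y, xRg 30 37 .x, xPh .x .y]
    (.h (.v (.v (.h (.h (.l 1) (.h (.l 1) (.h (.l 1) (.h (.l 1) (.v (.v (.l 2) (.h (.v (.h (.v (.l
    2) (.v (.l 2) (.l 0))) (.l 2)) (.l 0)) (.l 0))) (.l 0)))))) (.h (.v (.l 0) (.h (.v (.h (.l 0)
    (.v (.l 0) (.h (.h (.l 0) (.l 1)) (.l 1)))) (.h (.l 0) (.h (.h (.l 0) (.l 1)) (.l 1)))) (.l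
    1))) (.l 0))) (.h (.h (.l 1) (.v (.h (.l 1) (.h (.l 1) (.h (.l 1) (.l 0)))) (.l 0))) (.h (.h
    (.v (.v (.h (.l 0) (.h (.h (.l 0) (.l 1)) (.l 1))) (.l 0)) (.l 0)) (.l 1)) (.l 1)))) (.h (.h
    (.l 1) (.l 0)) (.h (.l 0) (.l 1)))) (.l 1)) = true := by
  decide +kernel

theorem jH3 : job 2 0 31 23 2
    [xH cH3 .x, xRg 30 37 .x]
    (.h (.l 0) (.l 1)) = true := by
  decide +kernel

theorem jP30 : job 11 11 125 49 26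
    [xP cA30, xBall 30]
    (.v (.l 1) (.h (.h (.l 1) (.v (.l 1) (.h (.v (.h (.l 1) (.l 0)) (.l 0)) (.l 0)))) (.v (.v (.l
    1) (.v (.l 1) (.h (.l 0) (.v (.l 1) (.l 0))))) (.h (.v (.l 0) (.v (.l 0) (.l 0))) (.h (.v (.h
    (.l 0) (.l 0)) (.v (.l 0) (.l 0))) (.v (.l 0) (.h (.v (.l 0) (.l 0)) (.v (.l 0) (.l 0))))))))) = true := by
  decide +kernel

theorem jP31 : job 11 11 124 48 26
    [xP cA31, xBall 30]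
    (.v (.l 1) (.h (.h (.l 1) (.v (.l 1) (.h (.l 0) (.v (.h (.v (.h (.l 0) (.v (.l 1) (.h (.l 1)
    (.v (.l 1) (.h (.v (.l 1) (.h (.v (.l 1) (.l 0)) (.l 0))) (.v (.v (.l 1) (.l 0)) (.l 0)))))))
    (.h (.l 0) (.v (.h (.v (.v (.h (.l 1) (.h (.v (.l 1) (.l 0)) (.l 0))) (.l 0)) (.l 0)) (.l 0))
    (.l 0)))) (.v (.h (.v (.h (.l 1) (.v (.l 1) (.v (.l 1) (.l 0)))) (.h (.v (.h (.v (.l 1) (.l
    0)) (.l 0)) (.l 0)) (.l 0))) (.l 0)) (.l 0))) (.l 0))))) (.v (.v (.l 1) (.v (.l 1) (.h (.h (.h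
    (.v (.l 1) (.l 0)) (.l 0)) (.l 0)) (.h (.l 0) (.l 0))))) (.h (.v (.l 0) (.h (.l 0) (.v (.l 0)
    (.v (.h (.l 0) (.l 0)) (.l 0))))) (.v (.h (.h (.l 0) (.v (.h (.l 0) (.l 0)) (.h (.l 0) (.l
    0)))) (.l 0)) (.h (.l 0) (.v (.l 0) (.l 0)))))))) = true := by
  decide +kernel

theorem jR30 : job 10 10 113 47 22
    [xR cB30, xBall 30]
    (.v (.l 1) (.h (.h (.l 1) (.v (.l 0) (.h (.l 0) (.v (.l 0) (.h (.v (.l 0) (.l 0)) (.l 0))))))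
    (.v (.v (.l 1) (.v (.l 1) (.h (.l 0) (.l 0)))) (.h (.v (.l 0) (.h (.l 0) (.l 0))) (.v (.l 0)
    (.h (.l 0) (.v (.h (.l 0) (.l 0)) (.l 0)))))))) = true := by
  decide +kernel

theorem jR31 : job 10 10 112 46 22
    [xR cB31, xBall 30]
    (.v (.l 1) (.h (.h (.l 1) (.v (.l 1) (.v (.h (.v (.l 1) (.l 0)) (.v (.h (.h (.l 1) (.v (.l 1)
    (.h (.l 1) (.l 0)))) (.v (.h (.h (.l 1) (.l 0)) (.l 0)) (.l 0))) (.l 0))) (.l 0)))) (.v (.v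
    (.l 1) (.h (.h (.v (.l 1) (.h (.v (.l 1) (.l 0)) (.l 0))) (.l 0)) (.l 0))) (.h (.v (.l 0) (.h
    (.h (.l 0) (.l 0)) (.l 0))) (.v (.h (.l 0) (.l 0)) (.h (.l 0) (.h (.l 0) (.l 0)))))))) = true := by
  decide +kernel

theorem jS3 : job 2 0 38 30 2
    [xH cS3 .x, xRg 30 37 .x]
    (.h (.h (.l 0) (.l 0)) (.l 0)) = true := by
  decide +kernel

theorem jV3 : job 6 0 113 85 10
    [xV cH3 .x, xRg 30 37 .x]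
    (.h (.h (.l 0) (.h (.h (.h (.l 0) (.h (.h (.l 0) (.l 1)) (.l 1))) (.l 1)) (.l 1))) (.l 1)) = true := by
  decide +kernel

end Pool.Agent.Lib.MP_14b623_gt
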