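import Pool.Agent.Lib.MP_14b623_gt.GJob
import Pool.Agent.Lib.MP_14b623_gt.GFam
import Pool.Agent.Lib.MP_14b623_gt.GRun1
import Pool.Agent.Lib.MP_14b623_gt.GRun2
import Pool.Agent.Lib.MP_14b623_gt.GRun3

/-! The certificates for all lengths up to `2 π · 0.6367`. -/

namespace Pool.Agent.Lib.MP_14b623_gt

open scoped InnerProductSpace

/-- At each point of the unit square one of the expressions is nonnegative. -/
def Cov (Es : List Ex) : Prop :=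
  ∀ x y : ℝ, 0 ≤ x → x ≤ 1 → 0 ≤ y → y ≤ 1 → ∃ E ∈ Es, 0 ≤ E.r x y

theorem cov_of_job {n m w e g : ℕ} {Es : List Ex} {t : BTr} (h : job n m w e g Es t = true) :
    Cov Es := fun x y h1 h2 h3 h4 => job_sound h x y h1 h2 h3 h4

theorem Cov.head {E : Ex} {Es : List Ex} (h : Cov (E :: Es)) {x y : ℝ} (h1 : 0 ≤ x) (h2 : x ≤ 1)
    (h3 : 0 ≤ y) (h4 : y ≤ 1) (hn : ∀ F ∈ Es, F.r x y < 0) : 0 ≤ E.r x y := by
  obtain ⟨F, hF, h0⟩ := h x y h1 h2 h3 h4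
  rcases List.mem_cons.1 hF with rfl | hF
  · exact h0
  · exact absurd h0 (not_le.2 (hn F hF))

theorem lmi_of_cov (a b : List (List ℤ)) (n₀ : ℤ) (h0 : 0 ≤ n₀) (hP : Cov [xP a, xBall n₀])
    (hR : Cov [xR b, xBall n₀]) (hD : Cov [xD a b, xBall n₀]) (hE : Cov [xE a b]) :
    LMI a b (n₀ / 128) := by
  intro u q hu huq hq hb
  have hq0 : 0 < q := lt_of_lt_of_le (by positivity) huq
  have hn : (0 : ℝ) ≤ n₀ := by exact_mod_cast h0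
  have hqu : q ≤ u := by nlinarith [mul_nonneg hn (sub_nonneg.2 hq)]
  have e1 : q / u * (u ^ 2 / q) = u := by field_simp
  have e2 : q / u * u = q := by field_simp
  have t0 : 0 ≤ q / u := by positivity
  have t1 : q / u ≤ 1 := (div_le_one hu).2 hqu
  have y0 : 0 ≤ u ^ 2 / q := by positivity
  have y1 : u ^ 2 / q ≤ 1 := (div_le_one hq0).2 huq
  have hB : ∀ F ∈ [xBall n₀], F.r (q / u) (u ^ 2 / q) < 0 := by
    intro F hF
    rw [List.mem_singleton.1 hF]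
    simp only [xBall, Ex.sub, xU, xQ, Ex.r, e1, e2]
    push_cast
    linarith
  have p1 := hP.head t0 t1 y0 y1 hB
  have p2 := hR.head t0 t1 y0 y1 hB
  have p3 := hD.head t0 t1 y0 y1 hB
  have p4 := hE.head t0 t1 y0 y1 (by simp)
  simp only [xD, xE, xK, xP, xR, Ex.sub, xU, xQ, Ex.r, e1, e2] at p1 p2 p3 p4
  push_cast at p3 p4
  refine ⟨p1, p2, by linarith, by linarith⟩

theorem ev2_single (L : List ℤ) (u q : ℝ) : ev2 [L] u q = ev1 L q := by simp [ev2]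

theorem xG_r (n₀ n₁ : ℤ) (hn : n₀ < n₁) (a₀ b₀ a₁ b₁ : List (List ℤ)) (be : List ℤ) (d q : Ex)
    (x y : ℝ) : (xG n₀ n₁ a₀ b₀ a₁ b₁ be d q).r x y = ((n₁ - n₀) * 1048576) *
      bdG a₀ b₀ a₁ b₁ ((n₁ - 128 * d.r x y) / ((n₁ - n₀) * 1048576))
        ((128 * d.r x y - n₀) / ((n₁ - n₀) * 1048576))
        (d.r x y ^ 2 * ev1 be (d.r x y) / 1048576) (d.r x y) (q.r x y) := by
  have h : (n₁ - n₀ : ℝ) ≠ 0 := sub_ne_zero.2 (by exact_mod_cast hn.ne')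
  have e : d.r x y + q.r x y + -(d.r x y * q.r x y) = d.r x y + (1 - d.r x y) * q.r x y := by ring
  simp only [xG, xI, xS, xH, Ex.sub, Ex.r, ev2_single, e, bdG]
  push_cast
  field_simp
  ring

theorem xRg_neg {n₀ n₁ : ℤ} {δ y : ℝ} (h0 : (n₀ : ℝ) / 128 < δ) (h1 : δ < n₁ / 128) :
    (xRg n₀ n₁ .x).r δ y < 0 := by
  simp only [xRg, Ex.sub, Ex.r]
  push_cast
  exact mul_neg_of_pos_of_neg (by linarith) (by linarith)

theorem xPh_neg {d q : Ex} {x y : ℝ} (hq : 0 < q.r x y)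
    (h : d.r x y ^ 2 ≤ (1 - d.r x y) ^ 2 * q.r x y) : (xPh d q).r x y < 0 := by
  simp only [xPh, Ex.sub, Ex.r]
  push_cast
  nlinarith

/-- One family. -/
theorem cert_of_cov (n₀ n₁ : ℤ) (h0 : 0 ≤ n₀) (hn : n₀ < n₁) (h1 : n₁ ≤ 64)
    (a₀ b₀ a₁ b₁ : List (List ℤ)) (be ah bh : List ℤ) (hL₀ : LMI a₀ b₀ (n₀ / 128))
    (hL₁ : LMI a₁ b₁ (n₀ / 128)) (hH : Cov [xH ah .x, xRg n₀ n₁ .x])
    (hS : Cov [xH bh .x, xRg n₀ n₁ .x]) (hV : Cov [xV ah .x, xRg n₀ n₁ .x])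
    (hB : Cov [xG2 n₀ n₁ a₀ b₀ a₁ b₁ be ah bh .x .y, xRg n₀ n₁ .x, xPh .x .y])
    (hG : ∀ δ q : ℝ, (n₀ : ℝ) / 128 < δ → δ < n₁ / 128 → 0 < q → q ≤ 1 →
      δ ^ 2 ≤ (1 - δ) ^ 2 * q → 0 ≤ (xG n₀ n₁ a₀ b₀ a₁ b₁ be .x .y).r δ q)
    {l : ℝ} (hl0 : 0 < l) (hl1 : l < 1) (d0 : (n₀ : ℝ) / 128 < delOf l) (d1 : delOf l < n₁ / 128)
    (e : E3) (he : ‖e‖ = 1) : ∃ (z : E3 → E3) (A B : ℝ),
    (∀ x : E3, ‖x‖ ≤ 1 → ContDiffAt ℝ 1 z x) ∧
    (∀ x : E3, ‖x‖ ≤ 1 → ∀ u v : E3, ‖u‖ = 1 → ‖v‖ = 1 → ⟪u, v⟫_ℝ = 0 →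
      0 ≤ ⟪fderiv ℝ z x u, u⟫_ℝ + ⟪fderiv ℝ z x v, v⟫_ℝ) ∧ 0 ≤ B ∧ 83356 / 100000 ≤ l * A ∧
    ∀ x : E3, ‖x‖ = 1 → 0 ≤ 1 / 2 - ⟪z x, x⟫_ℝ ∧
      A + B * ((⟪x, e⟫_ℝ - √(1 - l ^ 2)) - 6 / 5 * (⟪x, e⟫_ℝ - √(1 - l ^ 2)) ^ 2) ≤
        1 / 2 - ⟪z x, x⟫_ℝ := by
  set δ := delOf l with hδ
  have hn0 : (0 : ℝ) ≤ n₀ := by exact_mod_cast h0
  have hn1 : (n₁ : ℝ) ≤ 64 := by exact_mod_cast h1
  have hlt : (0 : ℝ) < n₁ - n₀ := sub_pos.2 (by exact_mod_cast hn)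
  have x0 : 0 ≤ δ := by linarith
  have x1 : δ ≤ 1 := by linarith
  have hR : ∀ y : ℝ, ∀ F ∈ [xRg n₀ n₁ .x], F.r δ y < 0 := fun y F hF => by
    rw [List.mem_singleton.1 hF]; exact xRg_neg d0 d1
  have p1 := hH.head x0 x1 le_rfl zero_le_one (hR 0)
  have p2 := hS.head x0 x1 le_rfl zero_le_one (hR 0)
  have p3 := hV.head x0 x1 le_rfl zero_le_one (hR 0)
  simp only [xV, xH, xT, Ex.sub, Ex.r, ev2_single] at p1 p2 p3
  push_cast at p3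
  refine fam_cert a₀ b₀ a₁ b₁ (δ₀ := n₀ / 128)
    (w₀ := (n₁ - 128 * δ) / ((n₁ - n₀) * 1048576)) (w₁ := (128 * δ - n₀) / ((n₁ - n₀) * 1048576))
    (β := δ ^ 2 * ev1 be δ / 1048576) (Ah := ev1 ah δ / 1048576) (Bh := ev1 bh δ / 1048576)
    hl0 hl1 hδ (by positivity) d0.le (div_nonneg (by linarith) (by positivity))
    (div_nonneg (by linarith) (by positivity)) hL₀ hL₁ (by positivity) (by positivity)
    (by linarith) (fun q q0 q1 hq => ?_) e he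
  have g1 := hG δ q d0 d1 q0 q1 hq
  have g2 := hB.head x0 x1 q0.le q1 (by
    intro F hF
    rcases List.mem_cons.1 hF with rfl | hF
    · exact xRg_neg d0 d1
    · rw [List.mem_singleton.1 hF]; exact xPh_neg q0 hq)
  rw [xG_r n₀ n₁ hn] at g1
  simp only [xG2, Ex.sub, Ex.r, xG_r n₀ n₁ hn, xO, xT, xH, ev2_single] at g1 g2
  push_cast at g2
  have hc : (0 : ℝ) < (n₁ - n₀) * 1048576 := by positivity
  refine ⟨(mul_nonneg_iff_of_pos_left hc).1 g1, ?_⟩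
  refine (mul_nonneg_iff_of_pos_left (c := (80 : ℝ) * ((n₁ - n₀) * 1048576)) (by positivity)).1 ?_
  refine g2.trans_eq ?_
  ring

theorem hG_of_cov {n₀ n₁ : ℤ} {E : Ex} (h0 : 0 ≤ n₀) (h1 : n₁ ≤ 64)
    (h : Cov [E, xRg n₀ n₁ .x, xPh .x .y]) (δ q : ℝ) (d0 : (n₀ : ℝ) / 128 < δ)
    (d1 : δ < n₁ / 128) (q0 : 0 < q) (q1 : q ≤ 1) (hq : δ ^ 2 ≤ (1 - δ) ^ 2 * q) : 0 ≤ E.r δ q := by
  have hn0 : (0 : ℝ) ≤ n₀ := by exact_mod_cast h0
  have hn1 : (n₁ : ℝ) ≤ 64 := by exact_mod_cast h1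
  refine h.head (by linarith) (by linarith) q0.le q1 fun F hF => ?_
  rcases List.mem_cons.1 hF with rfl | hF
  · exact xRg_neg d0 d1
  · rw [List.mem_singleton.1 hF]; exact xPh_neg q0 hq

theorem hG_one (δ q : ℝ) (d0 : ((0 : ℤ) : ℝ) / 128 < δ) (d1 : δ < ((16 : ℤ) : ℝ) / 128)
    (q0 : 0 < q) (q1 : q ≤ 1) (hq : δ ^ 2 ≤ (1 - δ) ^ 2 * q) :
    0 ≤ (xG 0 16 cA10 cB10 cA11 cB11 cE1 .x .y).r δ q := by
  have d0' : 0 < δ := by simpa using d0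
  have d1' : δ < 16 / 128 := by simpa using d1
  rcases le_or_gt (1 / 64) q with h | h
  · refine (cov_of_job jG1).head d0'.le (by linarith) q0.le q1 fun F hF => ?_
    rcases List.mem_cons.1 hF with rfl | hF
    · exact xRg_neg d0 d1
    rcases List.mem_cons.1 hF with rfl | hF
    · exact xPh_neg q0 hq
    · rw [List.mem_singleton.1 hF]
      simp only [Ex.sub, Ex.r]
      push_cast
      linarith
  · have t0 : 0 < √q := Real.sqrt_pos.2 q0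
    have e2 : √q * √q = q := Real.mul_self_sqrt q0.le
    have e1 : √q * (δ / √q) = δ := by field_simp
    have t1 : √q < 1 / 8 := by nlinarith
    have y1 : δ / √q ≤ 1 := by
      rw [div_le_one t0]
      refine Real.le_sqrt_of_sq_le (hq.trans ?_)
      have : (1 - δ) ^ 2 ≤ 1 := by nlinarith
      nlinarith
    have g := (cov_of_job jF1).head t0.le (by linarith) (by positivity : 0 ≤ δ / √q) y1 (by
      intro F hF
      rcases List.mem_cons.1 hF with rfl | hF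
      · refine xPh_neg ?_ ?_ <;> simp only [Ex.r, e1, e2] <;> assumption
      · rw [List.mem_singleton.1 hF]
        simp only [Ex.sub, Ex.r]
        push_cast
        linarith)
    rw [xG_r 0 16 (by norm_num)] at g ⊢
    simpa only [Ex.r, e1, e2] using g

theorem cert (l : ℝ) (hl0 : 0 < l) (hl1 : l ≤ 6367 / 10000) (e : E3) (he : ‖e‖ = 1) :
    ∃ (z : E3 → E3) (A B : ℝ),
    (∀ x : E3, ‖x‖ ≤ 1 → ContDiffAt ℝ 1 z x) ∧
    (∀ x : E3, ‖x‖ ≤ 1 → ∀ u v : E3, ‖u‖ = 1 → ‖v‖ = 1 → ⟪u, v⟫_ℝ = 0 →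
      0 ≤ ⟪fderiv ℝ z x u, u⟫_ℝ + ⟪fderiv ℝ z x v, v⟫_ℝ) ∧ 0 ≤ B ∧ 83356 / 100000 ≤ l * A ∧
    ∀ x : E3, ‖x‖ = 1 → 0 ≤ 1 / 2 - ⟪z x, x⟫_ℝ ∧
      A + B * ((⟪x, e⟫_ℝ - √(1 - l ^ 2)) - 6 / 5 * (⟪x, e⟫_ℝ - √(1 - l ^ 2)) ^ 2) ≤
        1 / 2 - ⟪z x, x⟫_ℝ := by
  obtain ⟨d0, d1⟩ := delOf_range hl0 hl1
  have hl : l < 1 := by linarith
  rcases lt_or_ge (delOf l) (1 / 8) with h1 | h1
  · exact cert_of_cov 0 16 le_rfl (by norm_num) (by norm_num) cA10 cB10 cA11 cB11 cE1 cH1 cS1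
      (lmi_of_cov _ _ 0 le_rfl (cov_of_job jP10) (cov_of_job jR10) (cov_of_job jD10)
        (cov_of_job jE10))
      (lmi_of_cov _ _ 0 le_rfl (cov_of_job jP11) (cov_of_job jR11) (cov_of_job jD11)
        (cov_of_job jE11))
      (cov_of_job jH1) (cov_of_job jS1) (cov_of_job jV1) (cov_of_job jB1) hG_one hl0 hl
      (by simpa using d0) (by push_cast; linarith) e he
  rcases lt_or_ge (delOf l) (1 / 4) with h2 | h2
  · exact cert_of_cov 14 32 (by norm_num) (by norm_num) (by norm_num) cA20 cB20 cA21 cB21 cE2 cH2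
      cS2
      (lmi_of_cov _ _ 14 (by norm_num) (cov_of_job jP20) (cov_of_job jR20) (cov_of_job jD20)
        (cov_of_job jE20))
      (lmi_of_cov _ _ 14 (by norm_num) (cov_of_job jP21) (cov_of_job jR21) (cov_of_job jD21)
        (cov_of_job jE21))
      (cov_of_job jH2) (cov_of_job jS2) (cov_of_job jV2) (cov_of_job jB2)
      (hG_of_cov (by norm_num) (by norm_num) (cov_of_job jG2)) hl0 hl
      (by push_cast; linarith) (by push_cast; linarith) e he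
  · exact cert_of_cov 30 37 (by norm_num) (by norm_num) (by norm_num) cA30 cB30 cA31 cB31 cE3 cH3
      cS3
      (lmi_of_cov _ _ 30 (by norm_num) (cov_of_job jP30) (cov_of_job jR30) (cov_of_job jD30)
        (cov_of_job jE30))
      (lmi_of_cov _ _ 30 (by norm_num) (cov_of_job jP31) (cov_of_job jR31) (cov_of_job jD31)
        (cov_of_job jE31))
      (cov_of_job jH3) (cov_of_job jS3) (cov_of_job jV3) (cov_of_job jB3)
      (hG_of_cov (by norm_num) (by norm_num) (cov_of_job jG3)) hl0 hl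
      (by push_cast; linarith) (by push_cast; linarith) e he

end Pool.Agent.Lib.MP_14b623_gt
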