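import Pool.Agent.Lib.MP_14b623_gt.BMono
import Pool.Agent.Lib.MP_14b623_gt.BDens
import Pool.Agent.Lib.MP_14b623_gt.SMain

/-! A free boundary minimal surface of area less than `2 π` is embedded. -/

namespace Pool.Agent.Lib.MP_14b623_gt

open Set MeasureTheory Filter Topology Function Real
open scoped InnerProductSpace Manifold ContDiff

lemma ninj_cd {σ : ℝ} (hσ : 0 < σ) (y : E3) :
    ContDiff ℝ 1 fun x : E3 => (bmonoM σ (‖x - y‖ ^ 2))⁻¹ • (x - y) := by
  have h1 : ContDiff ℝ 1 fun x : E3 => x - y := by fun_prop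
  have h2 : ContDiff ℝ 1 (bmonoM σ) := contDiff_const.add
    (((bmono_pos_sq_cd.comp (f := fun s : ℝ => s - σ) (by fun_prop)).add contDiff_const).sqrt
      fun s => (bmono_rad hσ s).ne')
  exact ((h2.comp (h1.norm_sq ℝ)).inv fun x => (bmonoM_pos hσ _).ne').smul h1

lemma ninj_point {σ : ℝ} (hσ : 0 < σ) {x y u v : E3} (h : ON u v) :
    2 * (if ‖x - y‖ ^ 2 < σ then (σ + σ ^ 2)⁻¹ else 0) ≤
      ⟪fderiv ℝ (fun x : E3 => (bmonoM σ (‖x - y‖ ^ 2))⁻¹ • (x - y)) x u, u⟫_ℝ +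
        ⟪fderiv ℝ (fun x : E3 => (bmonoM σ (‖x - y‖ ^ 2))⁻¹ • (x - y)) x v, v⟫_ℝ := by
  obtain ⟨m', h1, h2, h3, h4⟩ := bmonoM_der hσ (‖x - y‖ ^ 2)
  have hm := bmonoM_pos hσ (‖x - y‖ ^ 2)
  have h5 := bmono_radial (F := fun s => (bmonoM σ s)⁻¹) (h1.inv hm.ne')
    (div_nonpos_of_nonpos_of_nonneg (neg_nonpos.2 h2) (sq_nonneg _)) h
  simp only [dd, fderiv_fun_const, Pi.zero_apply, zero_apply, inner_zero_left, sub_self,
    add_zero] at h5
  refine le_trans (mul_le_mul_of_nonneg_left ?_ zero_le_two) h5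
  split_ifs with h6
  · rw [h4 h6, bmonoM_small h6, neg_zero, zero_div, zero_mul, add_zero]
  · have h7 := bmonoM_ge σ (‖x - y‖ ^ 2)
    have h8 := mul_le_of_le_one_left (sq_nonneg ‖x - y‖) h3
    generalize bmonoM σ (‖x - y‖ ^ 2) = m at hm h7 ⊢
    have e : m⁻¹ + -m' / m ^ 2 * ‖x - y‖ ^ 2 = (m - m' * ‖x - y‖ ^ 2) / m ^ 2 := by
      field_simp
      ring
    rw [e]
    exact div_nonneg (by linarith) (sq_nonneg _)

/-- The squared distance to the reflected point, times `‖y‖²`. -/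
noncomputable def ninjQ (y x : E3) : ℝ := ‖y‖ ^ 2 * ‖x‖ ^ 2 - 2 * ⟪y, x⟫_ℝ + 1

lemma ninjQ_pos {y x : E3} (hy : ‖y‖ < 1) (hx : ‖x‖ ≤ 1) : 0 < ninjQ y x := by
  have h1 := real_inner_le_norm y x
  have h2 := mul_le_of_le_one_right (norm_nonneg y) hx
  have h3 : 0 < (1 - ‖y‖ * ‖x‖) ^ 2 := pow_pos (by linarith) 2
  rw [ninjQ]
  linarith

lemma ninjQ_cd (y : E3) : ContDiff ℝ 1 (ninjQ y) :=
  ((contDiff_const.mul (contDiff_norm_sq ℝ)).sub
    (contDiff_const.mul (contDiff_const.inner ℝ contDiff_id))).add contDiff_const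

/-- The field of the reflected point has non negative divergence along every plane. -/
lemma ninj_refl {y x u v : E3} (hQ : 0 < ninjQ y x) (h : ON u v) :
    0 ≤ ⟪fderiv ℝ (fun x : E3 => (ninjQ y x)⁻¹ • (‖y‖ ^ 2 • x - y)) x u, u⟫_ℝ +
      ⟪fderiv ℝ (fun x : E3 => (ninjQ y x)⁻¹ • (‖y‖ ^ 2 • x - y)) x v, v⟫_ℝ := by
  have h1 : HasFDerivAt (fun x : E3 => ‖y‖ ^ 2 • x - y) (‖y‖ ^ 2 • ContinuousLinearMap.id ℝ E3) x :=
    ((hasFDerivAt_id x).const_smul (‖y‖ ^ 2)).sub_const y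
  have h2 : HasFDerivAt (ninjQ y) (2 • innerSL ℝ (‖y‖ ^ 2 • x - y)) x := by
    refine (((((hasFDerivAt_id x).norm_sq.const_mul (‖y‖ ^ 2)).sub
      (((innerSL ℝ y).hasFDerivAt).const_mul 2)).add_const 1).congr_fderiv ?_)
    ext w
    simp
    ring
  have h3 : fderiv ℝ (fun x : E3 => (ninjQ y x)⁻¹ • (‖y‖ ^ 2 • x - y)) x = _ :=
    (((hasDerivAt_inv hQ.ne').comp_hasFDerivAt x h2).smul h1).fderiv
  have h4 := bmono_bessel h (‖y‖ ^ 2 • x - y)
  have h5 : ‖‖y‖ ^ 2 • x - y‖ ^ 2 = ‖y‖ ^ 2 * ninjQ y x := by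
    rw [norm_sub_sq_real, real_inner_smul_left, norm_smul, norm_pow, norm_norm, ninjQ,
      real_inner_comm]
    ring
  obtain ⟨hu, hv, -⟩ := h
  rw [h3]
  rw [h5] at h4
  generalize ‖y‖ ^ 2 • x - y = w at h4 ⊢
  simp only [add_apply, smul_apply, ContinuousLinearMap.smulRight_apply,
    ContinuousLinearMap.id_apply, comp_apply, inner_add_left, real_inner_smul_left,
    real_inner_self_eq_norm_sq, hu, hv, innerSL_apply_apply, smul_eq_mul, nsmul_eq_mul]
  generalize ninjQ y x = Q at hQ h4 ⊢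
  have h6 := mul_nonneg (inv_pos.2 (pow_pos hQ 2)).le (sub_nonneg.2 h4)
  refine le_of_le_of_eq (mul_nonneg zero_le_two h6) ?_
  field_simp
  push_cast
  ring

variable {M : Type} [TopologicalSpace M] [ChartedSpace (EuclideanHalfSpace 2) M]
  [IsManifold (𝓡∂ 2) ∞ M] [T2Space M] [CompactSpace M] [MeasurableSpace M] [BorelSpace M]

lemma IsFBMS.ninj_core {φ : M → E3} (h : IsFBMS φ) (y : E3) {κ : ℝ} (hκ : 0 ≤ κ) {η : E3 → E3}
    (h1 : ∀ x, ContDiffAt ℝ 1 η (φ x))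
    (h2 : ∀ x u v, ON u v → 0 ≤ ⟪fderiv ℝ η (φ x) u, u⟫_ℝ + ⟪fderiv ℝ η (φ x) v, v⟫_ℝ)
    (h3 : ∀ x : E3, ‖x‖ = 1 → ∀ m, 0 < m → ‖x - y‖ ^ 2 ≤ m →
      κ * (m⁻¹ * ⟪x - y, x⟫_ℝ) + ⟪η x, x⟫_ℝ ≤ 1)
    (h4 : ∀ θ < π, ∀ᶠ σ in 𝓝[>] (0 : ℝ),
      2 * (θ * σ) ≤ κ * (areaMeasure φ).real {x | ‖φ x - y‖ ^ 2 < σ}) :
    2 * π ≤ surfaceArea φ := by
  have := areaMeasure_finite h
  have key : π ≤ surfaceArea φ / 2 := by
    refine le_of_forall_lt_imp_le_of_dense fun θ hθ => ?_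
    have h5 : Tendsto (fun σ : ℝ => θ / (1 + σ)) (𝓝[>] 0) (𝓝 (θ / (1 + 0))) :=
      (ContinuousAt.tendsto (by fun_prop (disch := norm_num))).mono_left nhdsWithin_le_nhds
    rw [add_zero, div_one] at h5
    refine le_of_tendsto h5 ?_
    filter_upwards [h4 θ hθ, self_mem_nhdsWithin] with σ h6 (hσ : 0 < σ)
    have hS : MeasurableSet {x | ‖φ x - y‖ ^ 2 < σ} :=
      (isOpen_lt (((h.smooth.continuous.sub continuous_const).norm).pow 2)
        continuous_const).measurableSet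
    have h7 := h.fv_le_area (ζ := fun x => κ • (bmonoM σ (‖x - y‖ ^ 2))⁻¹ • (x - y) + η x) (c := 1)
      (fun x => ((ninj_cd hσ y).contDiffAt.const_smul κ).add (h1 x))
      ((((integrable_const (σ + σ ^ 2)⁻¹).indicator hS).const_mul 2).const_mul κ)
      (fun x u v hu hv huv _ _ => by
        have e1 := mul_le_mul_of_nonneg_left (ninj_point hσ (x := φ x) (y := y) ⟨hu, hv, huv⟩) hκ
        have e2 := h2 x u v ⟨hu, hv, huv⟩
        have e3 : fderiv ℝ (fun x => κ • (bmonoM σ (‖x - y‖ ^ 2))⁻¹ • (x - y) + η x) (φ x) = _ :=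
          (((((ninj_cd hσ y).differentiable one_ne_zero) (φ x)).hasFDerivAt.const_smul κ).add
            ((h1 x).differentiableAt one_ne_zero).hasFDerivAt).fderiv
        rw [e3]
        simp only [add_apply, smul_apply, inner_add_left, real_inner_smul_left]
        refine le_trans (le_of_eq_of_le rfl e1) ?_
        linarith)
      fun x hx => by
        rw [inner_add_left, real_inner_smul_left, real_inner_smul_left]
        exact h3 _ (h.bdry x hx) _ (bmonoM_pos hσ _) (bmonoM_ge _ _)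
    rw [integral_const_mul, integral_const_mul, integral_indicator_const _ hS, smul_eq_mul] at h7
    have h8 := mul_le_mul_of_nonneg_right h6 (by positivity : 0 ≤ (σ + σ ^ 2)⁻¹)
    have h9 : θ * σ * (σ + σ ^ 2)⁻¹ = θ / (1 + σ) := by field_simp
    linarith
  linarith

/-- A surface of area less than `2 π` is embedded. -/
theorem IsFBMS.inj {φ : M → E3} (h : IsFBMS φ) (hA : surfaceArea φ < 2 * π) : Injective φ := by
  intro p q hpq
  by_contra hne
  have := areaMeasure_finite h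
  obtain ⟨U, V, hU, hV, hp, hq, hd⟩ := t2_separation hne
  have hm : ∀ S : Set M, (areaMeasure φ).real (S ∩ U) + (areaMeasure φ).real (S ∩ V) ≤
      (areaMeasure φ).real S := fun S => by
    rw [← measureReal_inter_add_sdiff (s := S) hU.measurableSet]
    exact add_le_add_right (measureReal_mono (inter_subset_inter_right S
      hd.symm.subset_compl_right)) _
  refine hA.not_ge ?_
  rcases (h.inBall p).eq_or_lt with hy | hy
  · refine h.ninj_core (φ p) zero_le_two (η := fun _ => 0) (fun _ => contDiffAt_const)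
      (fun x u v _ => by simp) (fun x hx m h1 h2 => ?_) fun θ hθ => ?_
    · rw [norm_sub_sq_real, hx, hy] at h2
      rw [inner_zero_left, add_zero, inner_sub_left, real_inner_self_eq_norm_sq, hx,
        real_inner_comm, mul_left_comm, inv_mul_le_iff₀ h1]
      linarith
    · filter_upwards [h.dens_half hU hp hθ, h.dens_half hV hq hθ] with σ h1 h2
      rw [← hpq] at h2
      linarith [hm {x | ‖φ x - φ p‖ ^ 2 < σ}]
  · refine h.ninj_core (φ p) zero_le_one
      (η := fun x : E3 => (ninjQ (φ p) x)⁻¹ • (‖φ p‖ ^ 2 • x - φ p))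
      (fun x => ((ninjQ_cd _).contDiffAt.inv (ninjQ_pos hy (h.inBall x)).ne').smul (by fun_prop))
      (fun x u v huv => ninj_refl (ninjQ_pos hy (h.inBall x)) huv) (fun x hx m h1 h2 => ?_)
      fun θ hθ => ?_
    · have e1 := ninjQ_pos hy hx.le
      have e2 : ‖x - φ p‖ ^ 2 = ninjQ (φ p) x := by
        rw [norm_sub_sq_real, ninjQ, hx, real_inner_comm]
        ring
      have e3 : 0 ≤ 1 - ⟪φ p, x⟫_ℝ := by
        have := real_inner_le_norm (φ p) x
        rw [hx] at this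
        linarith
      have e4 := mul_le_mul_of_nonneg_right (inv_anti₀ e1 (e2 ▸ h2)) e3
      have e5 : (ninjQ (φ p) x)⁻¹ * (1 - ⟪φ p, x⟫_ℝ + (‖φ p‖ ^ 2 - ⟪φ p, x⟫_ℝ)) = 1 := by
        rw [inv_mul_eq_one₀ e1.ne', ninjQ, hx]
        ring
      rw [real_inner_smul_left, inner_sub_left, inner_sub_left, real_inner_smul_left,
        real_inner_self_eq_norm_sq, hx]
      linarith
    · filter_upwards [h.dens (fun e => hy.ne (h.bdry p e)) hU hp hθ,
        h.dens (fun e => hy.ne (hpq ▸ h.bdry q e)) hV hq hθ] with σ h1 h2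
      rw [← hpq] at h2
      linarith [hm {x | ‖φ x - φ p‖ ^ 2 < σ}]

end Pool.Agent.Lib.MP_14b623_gt
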