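import Pool.Agent.Lib.MP_14b623_gt.GBase

/-! Transport of signs along rays: an almost continuous line field on a ball is orientable. -/

namespace Pool.Agent.Lib.MP_14b623_gt

open Set Filter Topology Function Metric
open scoped InnerProductSpace

variable {F : Type*} [NormedAddCommGroup F] [InnerProductSpace ℝ F]

lemma ntrans_gram {a b c : F} (ha : ‖a‖ = 1) (hb : ‖b‖ = 1) (hc : ‖c‖ = 1)
    (h1 : 1 / 2 < ⟪a, c⟫_ℝ ^ 2) (h2 : 1 / 2 < ⟪b, c⟫_ℝ ^ 2) :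
    0 < ⟪a, b⟫_ℝ * (⟪a, c⟫_ℝ * ⟪b, c⟫_ℝ) := by
  have h := real_inner_mul_inner_self_le (a - ⟪a, c⟫_ℝ • c) (b - ⟪b, c⟫_ℝ • c)
  simp only [inner_sub_left, inner_sub_right, real_inner_smul_left, real_inner_smul_right,
    real_inner_self_eq_norm_sq, ha, hb, hc, real_inner_comm a c, real_inner_comm b c, norm_smul,
    Real.norm_eq_abs, mul_one, sq_abs] at h
  generalize ⟪a, c⟫_ℝ = α at *
  generalize ⟪b, c⟫_ℝ = β at *
  generalize ⟪a, b⟫_ℝ = γ at *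
  have h3 : (γ - α * β) ^ 2 ≤ (1 - α ^ 2) * (1 - β ^ 2) := by linarith
  nlinarith [sq_nonneg γ]

lemma ntrans_step {s t a b c d f1 f2 f3 f4 : ℝ} (h : 0 < s * t * a) (h12 : 0 < a * (f1 * f2))
    (h13 : 0 < b * (f1 * f3)) (h24 : 0 < c * (f2 * f4)) (h34 : 0 < d * (f3 * f4)) :
    0 < s * b * (t * c) * d := by
  have g := mul_pos (mul_pos (mul_pos (mul_pos h h12) h13) h24) h34
  refine pos_of_mul_pos_left (b := (a * (f1 * f2 * f3 * f4)) ^ 2) ?_ (sq_nonneg _)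
  linarith

lemma ntrans_leb {K : Set E3} (hK : IsCompact K) {U : E3 → Set E3} (hU : ∀ x ∈ K, U x ∈ 𝓝[K] x) :
    ∃ δ > 0, ∀ x ∈ K, ∃ z ∈ K, ∀ y ∈ K, dist x y < δ → y ∈ U z := by
  obtain ⟨δ, h0, h⟩ := uniformity_basis_dist.lebesgue_number_lemma_nhdsWithin'
    (U := fun x _ => U x) hK hU
  refine ⟨δ, h0, fun x hx => ?_⟩
  obtain ⟨z, hz⟩ := h x hx
  exact ⟨z, z.2, fun y hy hd => hz ⟨hd, hy⟩⟩

theorem ntrans_sign {v : E3 → F} (h1 : ∀ x ∈ closedBall (0 : E3) 1, ‖v x‖ = 1)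
    (h2 : ∀ x ∈ closedBall (0 : E3) 1,
      ∀ᶠ y in 𝓝[closedBall (0 : E3) 1] x, 1 / 2 < ⟪v y, v x⟫_ℝ ^ 2) :
    ∃ δ > 0, ∃ s : E3 → ℝ, ∀ x ∈ closedBall (0 : E3) 1, ∀ y ∈ closedBall (0 : E3) 1,
      dist x y < δ → 0 < s x * s y * ⟪v x, v y⟫_ℝ := by
  obtain ⟨δ, h0, h⟩ := ntrans_leb (isCompact_closedBall 0 1) h2
  obtain ⟨n, hn⟩ := exists_nat_one_div_lt (half_pos h0)
  set τ : ℝ := 1 / ((n : ℝ) + 1) with hτ
  have hτ0 : 0 < τ := by positivity
  have hm : ∀ k : ℕ, k ≤ n + 1 → ∀ x ∈ closedBall (0 : E3) 1,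
      (k * τ) • x ∈ closedBall (0 : E3) 1 ∧ (k : ℝ) * τ ≤ 1 := fun k hk x hx => by
    have h3 : (k : ℝ) * τ ≤ 1 := by
      rw [hτ, mul_one_div, div_le_one (by positivity)]
      exact_mod_cast hk
    rw [mem_closedBall_zero_iff] at hx ⊢
    rw [norm_smul, Real.norm_of_nonneg (by positivity)]
    exact ⟨mul_le_one₀ h3 (norm_nonneg _) hx, h3⟩
  have hd : ∀ k : ℕ, k ≤ n + 1 → ∀ x ∈ closedBall (0 : E3) 1, ∀ y,
      dist ((k * τ) • x) ((k * τ) • y) ≤ dist x y := fun k hk x hx y => by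
    rw [dist_smul₀, Real.norm_of_nonneg (by positivity)]
    exact mul_le_of_le_one_left dist_nonneg (hm k hk x hx).2
  have key : ∀ x ∈ closedBall (0 : E3) 1, ∀ y ∈ closedBall (0 : E3) 1, dist x y < δ / 2 →
      ∀ k : ℕ, k ≤ n + 1 →
        0 < (∏ j ∈ Finset.range k, ⟪v ((j * τ) • x), v (((j + 1 : ℕ) * τ) • x)⟫_ℝ) *
          (∏ j ∈ Finset.range k, ⟪v ((j * τ) • y), v (((j + 1 : ℕ) * τ) • y)⟫_ℝ) *
          ⟪v ((k * τ) • x), v ((k * τ) • y)⟫_ℝ := by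
    intro x hx y hy hxy k
    induction k with
    | zero =>
      intro _
      simp [h1 0 (mem_closedBall_self zero_le_one)]
    | succ k ih =>
      intro hk
      have ih := ih (by omega)
      rw [Finset.prod_range_succ, Finset.prod_range_succ]
      have m1 := (hm k (by omega) x hx).1
      have m2 := (hm k (by omega) y hy).1
      have m3 := (hm (k + 1) hk x hx).1
      have m4 := (hm (k + 1) hk y hy).1
      obtain ⟨z, hz, hz'⟩ := h _ m1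
      have d3 : dist ((k * τ) • x) (((k + 1 : ℕ) * τ) • x) < δ / 2 := by
        rw [dist_comm, dist_eq_norm, ← sub_smul, norm_smul, Nat.cast_succ, add_mul,
          add_sub_cancel_left, one_mul, Real.norm_of_nonneg hτ0.le]
        exact (mul_le_of_le_one_right hτ0.le (mem_closedBall_zero_iff.1 hx)).trans_lt hn
      have a1 := hz' _ m1 (by rwa [dist_self])
      have a2 := hz' _ m2 (by linarith [hd k (by omega) x hx y])
      have a3 := hz' _ m3 (by linarith)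
      have a4 := hz' _ m4 (by
        linarith [hd (k + 1) hk x hx y, dist_triangle ((k * τ) • x) (((k + 1 : ℕ) * τ) • x)
          (((k + 1 : ℕ) * τ) • y)])
      have g12 := ntrans_gram (h1 _ m1) (h1 _ m2) (h1 z hz) a1 a2
      have g13 := ntrans_gram (h1 _ m1) (h1 _ m3) (h1 z hz) a1 a3
      have g24 := ntrans_gram (h1 _ m2) (h1 _ m4) (h1 z hz) a2 a4
      have g34 := ntrans_gram (h1 _ m3) (h1 _ m4) (h1 z hz) a3 a4
      exact ntrans_step ih g12 g13 g24 g34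
  refine ⟨δ / 2, half_pos h0, fun x => ∏ j ∈ Finset.range (n + 1),
    ⟪v ((j * τ) • x), v (((j + 1 : ℕ) * τ) • x)⟫_ℝ, fun x hx y hy hxy => ?_⟩
  have h3 := key x hx y hy hxy (n + 1) le_rfl
  have h4 : ((n + 1 : ℕ) : ℝ) * τ = 1 := by
    rw [hτ, Nat.cast_succ]
    field_simp
  rwa [h4, one_smul, one_smul] at h3

end Pool.Agent.Lib.MP_14b623_gt
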