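import Pool.Agent.Lib.MP_14b623_gt.BDefs
import Pool.Agent.Lib.MP_14b623_gt.SMain
import Pool.Agent.Lib.MP_14b623_gt.NTrans

/-! An embedded free boundary minimal surface is two sided. -/

namespace Pool.Agent.Lib.MP_14b623_gt

open Set Filter Topology Function Metric
open scoped InnerProductSpace Manifold ContDiff

/-- In a patch, secants of nearby points are almost orthogonal to the normal. -/
lemma Patch.nside_secant {T : Set E2} {X : E2 → E3} (P : Patch T X) {y₀ : E2} (hy : y₀ ∈ T)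
    {n : E3} (hn : ‖n‖ = 1) (ho : ∀ v, ⟪n, fderivWithin ℝ X HP y₀ v⟫_ℝ = 0) :
    ∃ C ∈ 𝓝[HP] y₀, ∀ y ∈ C, ∀ z ∈ C, |⟪X y - X z, n⟫_ℝ| ≤ ‖X y - X z‖ / 20 := by
  set A := fderivWithin ℝ X HP y₀ with hA
  obtain ⟨K, hK, hK'⟩ := (A : E2 →ₗ[ℝ] E3).injective_iff_antilipschitz.1 (P.inj y₀ hy)
  have hK0 : (0 : ℝ) < K := hK
  have hb : ∀ v, ‖v‖ ≤ K * ‖A v‖ := fun v => ZeroHomClass.bound_of_antilipschitz _ hK' v
  have hc := (rel_contDiff P.sub P.nhds (m := 0) P.smooth (by norm_num)).continuousOn y₀ hy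
  have h1 : ∀ᶠ y in 𝓝[HP] y₀, y ∈ T ∧ ‖fderivWithin ℝ X HP y - A‖ ≤ 1 / (21 * K) := by
    rw [← rel_nhds P.sub P.nhds hy]
    filter_upwards [self_mem_nhdsWithin, Metric.tendsto_nhds.1 hc (1 / (21 * K)) (by positivity)]
      with y h1 h2 using ⟨h1, ((dist_eq_norm _ _).symm.trans_lt h2).le⟩
  obtain ⟨ρ, hρ, h2⟩ := Metric.mem_nhdsWithin_iff.1 h1
  refine ⟨Metric.ball y₀ ρ ∩ HP, inter_mem (nhdsWithin_le_nhds (ball_mem_nhds _ hρ))
    self_mem_nhdsWithin, fun y h3 z h4 => ?_⟩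
  have h5 := Convex.norm_image_sub_le_of_norm_hasFDerivWithin_le' (f := X) (φ := A)
    (fun x hx => (rel_hasFDeriv P.nhds P.smooth (by norm_num) (h2 hx).1).mono inter_subset_right)
    (fun x hx => (h2 hx).2) ((convex_ball y₀ ρ).inter convex_HP) h4 h3
  have h6 : 1 / (21 * K) * ‖y - z‖ ≤ ‖A (y - z)‖ / 21 := by
    rw [one_div_mul_eq_div, div_le_div_iff₀ (by positivity) (by norm_num)]
    nlinarith [hb (y - z)]
  have h7 : ⟪X y - X z, n⟫_ℝ = ⟪X y - X z - A (y - z), n⟫_ℝ := by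
    rw [inner_sub_left (X y - X z), real_inner_comm n (A _), ho, sub_zero]
  have h8 := abs_real_inner_le_norm (X y - X z - A (y - z)) n
  have h9 := norm_sub_norm_le (A (y - z)) (X y - X z)
  rw [norm_sub_rev (A _)] at h9
  rw [hn] at h8
  rw [h7]
  linarith

variable {M : Type} [TopologicalSpace M] [ChartedSpace (EuclideanHalfSpace 2) M]
  [IsManifold (𝓡∂ 2) ∞ M] {φ : M → E3}

/-- Two unit normals at the same point agree up to sign. -/
lemma IsNrm.eq_or (h : IsFBMS φ) {x : M} {n m : E3} (hn : IsNrm φ x n) (hm : IsNrm φ x m) :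
    m = n ∨ m = -n := by
  obtain ⟨u, v, h1, h2, h3, h4, h5, h6⟩ := hn.frame h
  obtain ⟨a, ha⟩ := hn.tangent h h5
  obtain ⟨b, hb⟩ := hn.tangent h h6
  obtain ⟨e0, e1, -⟩ := jac_orth h1 h2 h3
  obtain ⟨e2, e3⟩ := normal_eq (by rw [e0]; exact one_pos) hm.1 (ha ▸ hm.2 a) (hb ▸ hm.2 b)
  rw [e1, div_one, h4] at e2
  rw [h4] at e3
  rcases sq_eq_one_iff.1 e2 with e | e <;> rw [e] at e3
  · exact .inl (by rw [e3, one_smul])
  · exact .inr (by rw [e3, neg_one_smul, neg_neg])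

/-- A local continuous unit normal. -/
lemma IsFBMS.local_normal (h : IsFBMS φ) (p : M) :
    ∃ ν : M → E3, ContinuousAt ν p ∧ ∀ᶠ x in 𝓝 p, IsNrm φ x (ν x) := by
  have P := h.patch p
  refine ⟨fun x => (areaEl (inChart φ p) (ch p x))⁻¹ •
    cr (pd 0 (inChart φ p) (ch p x)) (pd 1 (inChart φ p) (ch p x)), ?_, ?_⟩
  · have c := (P.contDiffOn_areaEl.continuousOn.inv₀ fun y hy => (jac_pos (P.inj y hy)).ne').smul
      ((continuous_cr continuous_fst continuous_snd).comp_continuousOn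
        ((P.contDiffOn_pd 0).continuousOn.prodMk (P.contDiffOn_pd 1).continuousOn))
    exact (c.comp (continuousOn_extChartAt (I := 𝓡∂ 2) p) fun x hx =>
      (ch p).map_source hx).continuousAt (extChartAt_source_mem_nhds p)
  · filter_upwards [extChartAt_source_mem_nhds (I := 𝓡∂ 2) p] with x hx
    have hi := P.inj _ ((ch p).map_source hx)
    refine ⟨GLin_norm ?_, fun v => ?_⟩
    · have h1 := (jac_pos hi).ne'
      rw [real_inner_smul_left, real_inner_smul_right, inner_cr_self, areaEl_eq]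
      simp only [pd_eq]
      rw [← jac_sq hi]
      field_simp
    · obtain ⟨w, rfl⟩ := (ch_trans_bij hx (mem_extChartAt_source x)).2 v
      rw [← h.chart_der hx, GLin_map]
      simp only [inner_add_right, real_inner_smul_left, real_inner_smul_right, pd_eq,
        inner_cr_left, inner_cr_right, mul_zero, add_zero]

/-- Normals and secants near a point. -/
lemma IsFBMS.nside_local (h : IsFBMS φ) (p : M) : ∃ U ∈ 𝓝 p, ∀ x ∈ U, ∀ y ∈ U, ∀ n m : E3,
    IsNrm φ x n → IsNrm φ y m →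
      9 / 10 < |⟪n, m⟫_ℝ| ∧ |⟪φ x - φ y, n⟫_ℝ| ≤ ‖φ x - φ y‖ / 10 := by
  obtain ⟨ν, h1, h2⟩ := h.local_normal p
  have h0 := h2.self_of_nhds
  obtain ⟨C, hC, h3⟩ := (h.patch p).nside_secant (mem_extChartAt_target p) h0.1
    fun v => h.mder_eq p v ▸ h0.2 v
  have h4 : ∀ᶠ x in 𝓝 p, ch p x ∈ C :=
    (tendsto_nhdsWithin_iff.2 ⟨continuousAt_extChartAt p, .of_forall (gchart_mem p)⟩).eventually hC
  have h5 : ∀ᶠ x in 𝓝 p, dist (ν x) (ν p) < 1 / 20 := Metric.tendsto_nhds.1 h1 _ (by norm_num)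
  refine ⟨_, h2.and (h4.and (h5.and (extChartAt_source_mem_nhds (I := 𝓡∂ 2) p))), ?_⟩
  rintro x ⟨a1, a2, a3, a4⟩ y ⟨b1, b2, b3, b4⟩ n m hn hm
  have e1 : ∀ w, |⟪w, n⟫_ℝ| = |⟪w, ν x⟫_ℝ| := fun w => by
    rcases a1.eq_or h hn with e | e <;> simp [e]
  have e2 : ∀ w, |⟪w, m⟫_ℝ| = |⟪w, ν y⟫_ℝ| := fun w => by
    rcases b1.eq_or h hm with e | e <;> simp [e]
  constructor
  · rw [e2, real_inner_comm, e1]
    refine lt_of_lt_of_le ?_ (le_abs_self _)
    have h6 := dist_triangle_right (ν y) (ν x) (ν p)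
    have h7 := norm_sub_sq_real (ν y) (ν x)
    rw [a1.1, b1.1] at h7
    rw [dist_eq_norm] at h6
    have h8 : ‖ν y - ν x‖ < 1 / 10 := by linarith
    nlinarith [norm_nonneg (ν y - ν x)]
  · have h6 := h3 _ a2 _ b2
    have e3 : inChart φ p (ch p x) = φ x := congrArg φ ((ch p).left_inv a4)
    have e4 : inChart φ p (ch p y) = φ y := congrArg φ ((ch p).left_inv b4)
    rw [e3, e4] at h6
    have h7 := abs_real_inner_le_norm (φ x - φ y) (ν x - ν p)
    have h8 := abs_sub_abs_le_abs_sub ⟪φ x - φ y, ν x⟫_ℝ ⟪φ x - φ y, ν p⟫_ℝ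
    rw [← inner_sub_right] at h8
    rw [dist_eq_norm] at a3
    rw [e1]
    nlinarith [norm_nonneg (φ x - φ y)]

/-- From a nearest point of the surface, a point of the ball is seen in a normal direction. -/
lemma IsFBMS.nside_near (h : IsFBMS φ) {x : E3} (hx : ‖x‖ ≤ 1) {p : M}
    (hp : ∀ q, dist x (φ p) ≤ dist x (φ q)) : ∃ n, IsNrm φ p n ∧ x - φ p = dist x (φ p) • n := by
  rcases eq_or_ne x (φ p) with e | e
  · exact ⟨_, h.isNrm p, by simp [e]⟩
  have P := h.patch p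
  have hy : ch p p ∈ (ch p).target := mem_extChartAt_target p
  have e0 : inChart φ p (ch p p) = φ p := congrArg φ (extChartAt_to_inv p)
  have h1 := ((hasFDerivWithinAt_const x _ _).fun_sub
    (rel_hasFDeriv P.nhds P.smooth (by norm_num) hy)).norm_sq
  have h2 : IsLocalMinOn (fun z => ‖x - inChart φ p z‖ ^ 2) HP (ch p p) :=
    .of_forall fun z => by
      beta_reduce
      rw [e0, ← dist_eq_norm, ← dist_eq_norm]
      exact pow_le_pow_left₀ dist_nonneg (hp _) 2
  have h3 : ∀ u : E2, 0 ≤ ch p p 0 + u 0 → u ∈ posTangentConeAt HP (ch p p) := fun u hu =>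
    mem_posTangentConeAt_of_segment_subset (convex_HP.segment_subset (P.sub hy) hu)
  have h4 : ∀ u : E2, 0 ≤ ch p p 0 + u 0 →
      ⟪x - φ p, fderivWithin ℝ (inChart φ p) HP (ch p p) u⟫_ℝ ≤ 0 := fun u hu => by
    have := h2.hasFDerivWithinAt_nonneg h1 (h3 u hu)
    simp only [smul_apply, ContinuousLinearMap.comp_apply, innerSL_apply_apply, nsmul_eq_mul,
      Nat.cast_ofNat, zero_sub, neg_apply, inner_neg_right, e0] at this
    linarith
  have h0 : 0 ≤ ch p p 0 := P.sub hy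
  have hb : ⟪x - φ p, pd 1 (inChart φ p) (ch p p)⟫_ℝ = 0 := by
    have a1 := h4 (ev 1) (by simpa using h0)
    have a2 := h4 (-ev 1) (by simpa using h0)
    rw [map_neg, inner_neg_right] at a2
    exact le_antisymm a1 (neg_nonpos.1 a2)
  have ha : ⟪x - φ p, pd 0 (inChart φ p) (ch p p)⟫_ℝ = 0 := by
    refine le_antisymm (h4 (ev 0) (by simpa using add_nonneg h0 zero_le_one)) ?_
    rcases h0.eq_or_lt with e1 | e1
    · have a1 := congrArg (fun w => ⟪x - φ p, w⟫_ℝ) (P.w0_bdry hy e1.symm)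
      have a2 : ⟪x - φ p, φ p⟫_ℝ ≤ 0 := by
        have a3 := real_inner_le_norm x (φ p)
        have a4 := P.bdry _ hy e1.symm
        rw [e0] at a4
        rw [inner_sub_left, real_inner_self_eq_norm_sq, a4]
        rw [a4] at a3
        linarith
      simp only [wv0, real_inner_smul_right, inner_sub_right, inner_neg_right, hb, mul_zero,
        sub_zero, e0] at a1
      have a5 := mul_nonpos_of_nonneg_of_nonpos (norm_nonneg (pd 1 (inChart φ p) (ch p p))) a2
      rw [← neg_nonneg, ← a1] at a5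
      exact nonneg_of_mul_nonneg_right (nonneg_of_mul_nonneg_right a5
        (inv_pos.2 (jac_pos (P.inj _ hy)))) (GLin_ev (P.inj _ hy) 1)
    · have a2 := h4 (-(ch p p 0) • ev 0) (by simp)
      rw [map_smul, real_inner_smul_right, neg_mul, neg_nonpos] at a2
      exact nonneg_of_mul_nonneg_right a2 e1
  have h5 : ‖x - φ p‖ ≠ 0 := norm_ne_zero_iff.2 (sub_ne_zero.2 e)
  refine ⟨‖x - φ p‖⁻¹ • (x - φ p), ⟨norm_smul_inv_norm (𝕜 := ℝ) (sub_ne_zero.2 e), fun v => ?_⟩,
    by rw [dist_eq_norm, smul_inv_smul₀ h5]⟩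
  rw [h.mder_eq, GLin_map, real_inner_smul_left, inner_add_right, real_inner_smul_right,
    real_inner_smul_right, ← pd_eq, ← pd_eq, ha, hb]
  simp

variable [CompactSpace M]

lemma IsFBMS.nside_unif (h : IsFBMS φ) (hi : Injective φ) : ∃ r > 0, ∀ x y, dist (φ x) (φ y) < r →
    ∀ n m : E3, IsNrm φ x n → IsNrm φ y m →
      9 / 10 < |⟪n, m⟫_ℝ| ∧ |⟪φ x - φ y, n⟫_ℝ| ≤ ‖φ x - φ y‖ / 10 := by
  choose U hU H using h.nside_local
  have he := h.smooth.continuous.isClosedEmbedding hi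
  obtain ⟨r, hr, h1⟩ := ntrans_leb (isCompact_range h.smooth.continuous)
    (U := fun z => ⋃ p ∈ φ ⁻¹' {z}, φ '' U p) (by
      rintro _ ⟨p, rfl⟩
      rw [← he.isEmbedding.map_nhds_eq]
      exact mem_of_superset (image_mem_map (hU p)) (subset_biUnion_of_mem (u := fun p => φ '' U p)
        (mem_preimage.2 rfl)))
  refine ⟨r, hr, fun x y hxy => ?_⟩
  obtain ⟨_, ⟨p, rfl⟩, h2⟩ := h1 _ (mem_range_self x)
  have h3 : ∀ z, dist (φ x) (φ z) < r → z ∈ U p := fun z hz => by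
    obtain ⟨q, hq, w, hw, e⟩ := mem_iUnion₂.1 (h2 _ (mem_range_self z) hz)
    rw [← hi e, ← hi hq]
    exact hw
  exact H p x (h3 x (by rwa [dist_self])) y (h3 y hxy)

/-- The line spanned by `(a n, b)`, where `n` is the direction from a nearest point of the surface
and `(a, b)` turns from `(1, 0)` to `(0, 1)` as the distance grows, is almost continuous on the
ball, hence orientable. -/
theorem IsFBMS.two_sided (h : IsFBMS φ) (hi : Injective φ) : ∃ N, IsNormal φ N := by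
  rcases isEmpty_or_nonempty M with hM | hM
  · exact ⟨0, continuous_const, fun x => hM.elim x, fun x => hM.elim x⟩
  obtain ⟨r, hr, hu⟩ := h.nside_unif hi
  set d : E3 → ℝ := fun x => infDist x (range φ) with hd
  have hd0 : ∀ x, 0 ≤ d x := fun x => infDist_nonneg
  have hdc : Continuous d := continuous_infDist_pt _
  have hn : ∀ x ∈ closedBall (0 : E3) 1, ∃ p n, IsNrm φ p n ∧ x - φ p = d x • n := fun x hx => by
    obtain ⟨_, ⟨p, rfl⟩, e⟩ := (isCompact_range h.smooth.continuous).exists_infDist_eq_dist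
      (range_nonempty φ) x
    obtain ⟨n, h1, h2⟩ := h.nside_near (mem_closedBall_zero_iff.1 hx) (p := p) fun q =>
      e ▸ infDist_le_dist_of_mem (mem_range_self q)
    exact ⟨p, n, h1, h2.trans (congrArg (· • n) e.symm)⟩
  choose! p n hn1 hn2 using hn
  set b : E3 → ℝ := fun x => min (d x / (r / 3)) 1 with hb
  set a : E3 → ℝ := fun x => √(1 - b x ^ 2) with ha
  have hbc : Continuous b := (hdc.div_const _).min continuous_const
  have hac : Continuous a := (continuous_const.sub (hbc.pow 2)).sqrt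
  have hb0 : ∀ x, 0 ≤ b x := fun x => le_min (div_nonneg (hd0 x) (by positivity)) zero_le_one
  have ha0 : ∀ x, 0 ≤ a x := fun x => Real.sqrt_nonneg _
  have hab : ∀ x, a x ^ 2 + b x ^ 2 = 1 := fun x => by
    rw [ha, Real.sq_sqrt (sub_nonneg.2 (pow_le_one₀ (hb0 x) (min_le_right _ _))), sub_add_cancel]
  set v : E3 → WithLp 2 (E3 × ℝ) := fun x => WithLp.toLp 2 (a x • n x, b x) with hv
  have hvi : ∀ x y, ⟪v x, v y⟫_ℝ = a x * a y * ⟪n x, n y⟫_ℝ + b x * b y := fun x y => by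
    simp only [hv, WithLp.prod_inner_apply, real_inner_smul_left, real_inner_smul_right,
      Real.inner_apply]
    ring
  obtain ⟨δ, hδ, s, hs⟩ := ntrans_sign (v := v) (fun x hx => by
    rw [norm_eq_sqrt_real_inner, hvi, real_inner_self_eq_norm_sq, (hn1 x hx).1, Real.sqrt_eq_one]
    linarith [hab x]) (fun x hx => by
    have h1 : ∀ᶠ y in 𝓝 x, 9 / 10 < a y * a x + b y * b x :=
      ((hac.mul continuous_const).add (hbc.mul continuous_const)).continuousAt.eventually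
        (lt_mem_nhds (by show _ < a x * a x + b x * b x; linarith [hab x]))
    rcases le_or_gt (r / 3) (d x) with h2 | h2
    · have h3 : a x = 0 := by
        simp only [ha, hb, min_eq_right ((one_le_div (by positivity)).2 h2)]
        simp
      filter_upwards [nhdsWithin_le_nhds h1] with y hy
      rw [hvi]
      rw [h3, mul_zero, zero_add] at hy
      rw [h3, mul_zero, zero_mul, zero_add]
      nlinarith
    have h3 : ∀ᶠ y in 𝓝 x, d y < r / 3 := hdc.continuousAt.eventually (gt_mem_nhds h2)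
    have h4 : ∀ y ∈ closedBall (0 : E3) 1, φ (p y) - φ (p x) = y - x - d y • n y + d x • n x :=
      fun y hy => by rw [← hn2 x hx, ← hn2 y hy]; abel
    have h5 : ∀ y ∈ closedBall (0 : E3) 1, ‖φ (p y) - φ (p x)‖ ≤ ‖y - x‖ + d y + d x :=
      fun y hy => by
        rw [h4 y hy]
        refine (norm_add_le _ _).trans (add_le_add ((norm_sub_le _ _).trans ?_) ?_) <;>
          simp [norm_smul, (hn1 x hx).1, (hn1 y hy).1, abs_of_nonneg (hd0 _)]
    have h6 : ∀ᶠ y in 𝓝[closedBall (0 : E3) 1] x, y ∈ closedBall (0 : E3) 1 ∧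
        9 / 10 < |⟪n y, n x⟫_ℝ| ∧ |⟪φ (p y) - φ (p x), n y⟫_ℝ| ≤ ‖φ (p y) - φ (p x)‖ / 10 := by
      filter_upwards [self_mem_nhdsWithin, nhdsWithin_le_nhds h3,
        nhdsWithin_le_nhds (ball_mem_nhds x (show 0 < r / 3 by positivity))] with y a1 a2 a3
      refine ⟨a1, hu _ _ ?_ _ _ (hn1 y a1) (hn1 x hx)⟩
      rw [mem_ball, dist_eq_norm] at a3
      rw [dist_eq_norm]
      linarith [h5 y a1]
    rcases (hd0 x).eq_or_lt with h7 | h7
    · have h8 : b x = 0 := by simp [hb, ← h7]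
      filter_upwards [nhdsWithin_le_nhds h1, h6] with y a1 ⟨_, a2, _⟩
      rw [h8, mul_zero, add_zero] at a1
      rw [hvi, h8, mul_zero, add_zero, mul_pow, ← sq_abs ⟪n y, n x⟫_ℝ]
      have a3 : (9 / 10 : ℝ) ^ 2 < (a y * a x) ^ 2 := by gcongr
      have a4 : (9 / 10 : ℝ) ^ 2 < |⟪n y, n x⟫_ℝ| ^ 2 := by gcongr
      nlinarith
    · filter_upwards [nhdsWithin_le_nhds h1, h6,
        nhdsWithin_le_nhds (ball_mem_nhds x (half_pos h7))] with y a1 ⟨a0, a2, a3⟩ a4
      rw [mem_ball, dist_eq_norm] at a4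
      rcases lt_abs.1 a2 with a5 | a5
      · rw [hvi]
        have a6 := mul_nonneg (ha0 y) (ha0 x)
        have a7 : a y * a x ≤ 1 := by nlinarith [hab x, hab y, sq_nonneg (a y - a x)]
        have a8 : 8 / 10 < a y * a x * ⟪n y, n x⟫_ℝ + b y * b x := by nlinarith
        nlinarith
      · have a6 := neg_le_abs ⟪φ (p y) - φ (p x), n y⟫_ℝ
        have a7 := real_inner_le_norm (y - x) (n y)
        nth_rewrite 1 [h4 y a0] at a6
        simp only [inner_add_left, inner_sub_left (y - x), real_inner_smul_left,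
          real_inner_self_eq_norm_sq, (hn1 y a0).1, real_inner_comm (n y) (n x)] at a6 a7
        nlinarith [h5 y a0, hd0 y])
  have hB : ∀ q, φ q ∈ closedBall (0 : E3) 1 := fun q => mem_closedBall_zero_iff.2 (h.inBall q)
  have hdq : ∀ q, d (φ q) = 0 := fun q => infDist_zero_of_mem (mem_range_self q)
  have hnq : ∀ q, IsNrm φ q (n (φ q)) := fun q => by
    have h1 := hn2 _ (hB q)
    rw [hdq, zero_smul, sub_eq_zero] at h1
    nth_rewrite 1 [hi h1]
    exact hn1 _ (hB q)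
  have hsq : ∀ q q', dist (φ q) (φ q') < δ → 0 < s (φ q) * s (φ q') * ⟪n (φ q), n (φ q')⟫_ℝ :=
    fun q q' hq => by simpa [hvi, ha, hb, hdq] using hs _ (hB q) _ (hB q') hq
  have hs0 : ∀ q, s (φ q) ≠ 0 := fun q e => by
    simpa [e] using hsq q q (by rwa [dist_self])
  set N : M → E3 := fun q => (s (φ q) / |s (φ q)|) • n (φ q) with hN
  have hN1 : ∀ q, IsNrm φ q (N q) := fun q => ⟨by
    rw [norm_smul, (hnq q).1, mul_one, Real.norm_eq_abs, abs_div, abs_abs,
      div_self (abs_ne_zero.2 (hs0 q))], fun w => by rw [real_inner_smul_left, (hnq q).2, mul_zero]⟩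
  have hN2 : ∀ q q', dist (φ q) (φ q') < δ → 0 < ⟪N q, N q'⟫_ℝ := fun q q' hq => by
    rw [real_inner_smul_left, real_inner_smul_right, ← mul_assoc, div_mul_div_comm,
      div_mul_eq_mul_div]
    exact div_pos (hsq q q' hq) (mul_pos (abs_pos.2 (hs0 q)) (abs_pos.2 (hs0 q')))
  refine ⟨N, continuous_iff_continuousAt.2 fun q => ?_, fun q => (hN1 q).1, fun q => (hN1 q).2⟩
  obtain ⟨ν, h1, h2⟩ : ∃ ν : M → E3, ContinuousAt ν q ∧ ν q = N q ∧
      ∀ᶠ x in 𝓝 q, IsNrm φ x (ν x) := by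
    obtain ⟨ν, h1, h2⟩ := h.local_normal q
    rcases h2.self_of_nhds.eq_or h (hN1 q) with e | e
    · exact ⟨ν, h1, e.symm, h2⟩
    · exact ⟨-ν, h1.neg, e.symm, h2.mono fun x hx =>
        ⟨(norm_neg _).trans hx.1, fun w => by rw [Pi.neg_apply, inner_neg_left, hx.2, neg_zero]⟩⟩
  refine h1.congr ?_
  have h3 : ∀ᶠ x in 𝓝 q, 0 < ⟪ν x, N q⟫_ℝ := (h1.inner continuousAt_const).eventually
    (lt_mem_nhds (by simp [h2.1, (hN1 q).1]))
  filter_upwards [h2.2, h3, Metric.tendsto_nhds.1 h.smooth.continuous.continuousAt δ hδ]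
    with x a1 a2 a3
  refine ((a1.eq_or h (hN1 x)).resolve_right fun e => ?_).symm
  have := hN2 x q a3
  rw [e, inner_neg_left] at this
  linarith

end Pool.Agent.Lib.MP_14b623_gt
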