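import Pool.Agent.Lib.MP_14b623_gt.PField

/-! Certificates with global parabolas, and convexity in the parameters. -/

namespace Pool.Agent.Lib.MP_14b623_gt

open Set
open scoped InnerProductSpace

/-- A field with divergence at least `w` and two parabolas above its boundary values. -/
def PCert (w : E3 → ℝ) (a₀ b₀ g₀ a₁ b₁ g₁ : ℝ) : Prop :=
  ∃ ζ : E3 → E3, ContDiff ℝ 1 ζ ∧
    (∀ x : E3, ‖x‖ ≤ 1 → ∀ u v : E3, ‖u‖ = 1 → ‖v‖ = 1 → ⟪u, v⟫_ℝ = 0 →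
      w x ≤ ⟪fderiv ℝ ζ x u, u⟫_ℝ + ⟪fderiv ℝ ζ x v, v⟫_ℝ) ∧
    (∀ x : E3, ‖x‖ = 1 → ⟪ζ x, x⟫_ℝ ≤ a₀ - b₀ * x 2 + g₀ * x 2 ^ 2) ∧
    (∀ x : E3, ‖x‖ = 1 → ⟪ζ x, x⟫_ℝ ≤ a₁ + b₁ * x 2 + g₁ * x 2 ^ 2) ∧ 0 ≤ g₀ ∧ 0 ≤ g₁

variable {w w' : E3 → ℝ} {a₀ b₀ g₀ a₁ b₁ g₁ a₀' b₀' g₀' a₁' b₁' g₁' : ℝ}

theorem PCert.pure (h : PCert w a₀ b₀ g₀ a₁ b₁ g₁) {B l₀ l₁ c : ℝ} (hg : g₁ = 0 ∨ l₁ ≤ 1)
    (hB : PF l₀ c a₀ b₀ g₀ + PF l₁ c a₁ b₁ g₁ < B) : Pure w B l₀ l₁ c := by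
  obtain ⟨ζ, h1, h2, h3, h4, h5, h6⟩ := h
  exact ⟨ζ, a₀, b₀, g₀, a₁, b₁, g₁, h1, h2, fun x hx _ => h3 x hx, fun x hx _ => h4 x hx, h5, h6,
    hg, hB⟩

theorem PCert.mono (h : PCert w a₀ b₀ g₀ a₁ b₁ g₁) (hw : ∀ x, w' x ≤ w x) :
    PCert w' a₀ b₀ g₀ a₁ b₁ g₁ := by
  obtain ⟨ζ, h1, h2, h3⟩ := h
  exact ⟨ζ, h1, fun x hx u v hu hv huv => (hw x).trans (h2 x hx u v hu hv huv), h3⟩

theorem PCert.comb (h : PCert w a₀ b₀ g₀ a₁ b₁ g₁) (h' : PCert w' a₀' b₀' g₀' a₁' b₁' g₁')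
    {s t : ℝ} (hs : 0 ≤ s) (ht : 0 ≤ t) :
    PCert (fun x => s * w x + t * w' x) (s * a₀ + t * a₀') (s * b₀ + t * b₀') (s * g₀ + t * g₀')
      (s * a₁ + t * a₁') (s * b₁ + t * b₁') (s * g₁ + t * g₁') := by
  obtain ⟨ζ, h1, h2, h3, h4, h5, h6⟩ := h
  obtain ⟨ξ, k1, k2, k3, k4, k5, k6⟩ := h'
  refine ⟨fun x => s • ζ x + t • ξ x, (h1.const_smul s).add (k1.const_smul t),
    fun x hx u v hu hv huv => ?_, fun x hx => ?_, fun x hx => ?_, by positivity, by positivity⟩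
  · have d := ((((h1.differentiable one_ne_zero) x).hasFDerivAt.const_smul s).add
      (((k1.differentiable one_ne_zero) x).hasFDerivAt.const_smul t)).fderiv
    rw [show fderiv ℝ (fun x => s • ζ x + t • ξ x) x = _ from d]
    have p1 := mul_le_mul_of_nonneg_left (h2 x hx u v hu hv huv) hs
    have p2 := mul_le_mul_of_nonneg_left (k2 x hx u v hu hv huv) ht
    simp only [add_apply, smul_apply, inner_add_left, real_inner_smul_left]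
    linarith
  · have p1 := mul_le_mul_of_nonneg_left (h3 x hx) hs
    have p2 := mul_le_mul_of_nonneg_left (k3 x hx) ht
    simp only [inner_add_left, real_inner_smul_left]
    linarith
  · have p1 := mul_le_mul_of_nonneg_left (h4 x hx) hs
    have p2 := mul_le_mul_of_nonneg_left (k4 x hx) ht
    simp only [inner_add_left, real_inner_smul_left]
    linarith

/-- The reflection in the horizontal plane. -/
noncomputable def rfz : E3 →L[ℝ] E3 :=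
  ContinuousLinearMap.id ℝ E3 - ((2 : ℝ) • EuclideanSpace.proj (𝕜 := ℝ) (2 : Fin 3)).smulRight ez

theorem rfz_0 (x : E3) : rfz x 0 = x 0 := by simp [rfz, ez]

theorem rfz_1 (x : E3) : rfz x 1 = x 1 := by simp [rfz, ez]

theorem rfz_2 (x : E3) : rfz x 2 = -x 2 := by
  simp [rfz, ez]
  ring

theorem rfz_symm (x y : E3) : ⟪rfz x, y⟫_ℝ = ⟪x, rfz y⟫_ℝ := by
  simp only [pf_inner, rfz_0, rfz_1, rfz_2]
  ring

theorem rfz_inner (x y : E3) : ⟪rfz x, rfz y⟫_ℝ = ⟪x, y⟫_ℝ := by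
  simp only [pf_inner, rfz_0, rfz_1, rfz_2]
  ring

theorem rfz_norm (x : E3) : ‖rfz x‖ = ‖x‖ := by
  rw [norm_eq_sqrt_real_inner, rfz_inner, ← norm_eq_sqrt_real_inner]

theorem PCert.refl (h : PCert w a₀ b₀ g₀ a₁ b₁ g₁) :
    PCert (fun x => w (rfz x)) a₁ b₁ g₁ a₀ b₀ g₀ := by
  obtain ⟨ζ, h1, h2, h3, h4, h5, h6⟩ := h
  refine ⟨fun x => rfz (ζ (rfz x)), rfz.contDiff.comp (h1.comp rfz.contDiff),
    fun x hx u v hu hv huv => ?_, fun x hx => ?_, fun x hx => ?_, h6, h5⟩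
  · have d := (rfz.hasFDerivAt.comp x
      (((h1.differentiable one_ne_zero) (rfz x)).hasFDerivAt.comp x rfz.hasFDerivAt)).fderiv
    rw [show fderiv ℝ (fun x => rfz (ζ (rfz x))) x = _ from d]
    simp only [ContinuousLinearMap.comp_apply, rfz_symm]
    exact h2 _ (by rwa [rfz_norm]) _ _ (by rwa [rfz_norm]) (by rwa [rfz_norm])
      (by rwa [rfz_inner])
  · have := h4 (rfz x) (by rwa [rfz_norm])
    rw [rfz_2] at this
    rw [rfz_symm]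
    linarith
  · have := h3 (rfz x) (by rwa [rfz_norm])
    rw [rfz_2] at this
    rw [rfz_symm]
    linarith

theorem PF_comb (l c a b g a' b' g' s t : ℝ) :
    PF l c (s * a + t * a') (s * b + t * b') (s * g + t * g') =
      s * PF l c a b g + t * PF l c a' b' g' := by
  simp only [PF]
  ring

theorem PF_conv {l l' c c' a b g s t : ℝ} (hl : 0 < l) (hl' : 0 < l') (hg : 0 ≤ g) (hs : 0 ≤ s)
    (ht : 0 ≤ t) (hst : s + t = 1) :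
    PF (s * l + t * l') (s * c + t * c') a b g ≤ s * PF l c a b g + t * PF l' c' a b g := by
  have hm : 0 < s * l + t * l' := by
    rcases hs.eq_or_lt with h | h
    · have : t = 1 := by linarith
      rw [← h, this]; linarith
    · positivity
  have h1 : (s * c + t * c') ^ 2 / (s * l + t * l') ≤ s * (c ^ 2 / l) + t * (c' ^ 2 / l') := by
    rw [div_le_iff₀ hm]
    have e : (s * (c ^ 2 / l) + t * (c' ^ 2 / l')) * (s * l + t * l') - (s * c + t * c') ^ 2 =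
        s * t * ((c * l' - c' * l) ^ 2 / (l * l')) := by
      field_simp
      ring
    have : 0 ≤ s * t * ((c * l' - c' * l) ^ 2 / (l * l')) := by positivity
    linarith
  have h2 : (s * l + t * l') ^ 3 ≤ s * l ^ 3 + t * l' ^ 3 := by
    have e : s * l ^ 3 + t * l' ^ 3 - (s * l + t * l') ^ 3 =
        s * t * ((l - l') ^ 2 * ((1 + s) * l + (1 + t) * l')) := by
      obtain rfl : t = 1 - s := by linarith
      ring
    have : 0 ≤ s * t * ((l - l') ^ 2 * ((1 + s) * l + (1 + t) * l')) := by positivity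
    linarith
  have h3 := mul_le_mul_of_nonneg_left h1 hg
  have h4 := mul_le_mul_of_nonneg_left h2 hg
  simp only [PF]
  linarith

/-- The sum of the two boundary bounds. -/
noncomputable def PG (a₀ b₀ g₀ a₁ b₁ g₁ l₀ l₁ c : ℝ) : ℝ := PF l₀ c a₀ b₀ g₀ + PF l₁ c a₁ b₁ g₁

theorem PG_seg {B l₀ l₁ c l₀' l₁' c' s t : ℝ} (hg₀ : 0 ≤ g₀) (hg₁ : 0 ≤ g₁) (h0 : 0 < l₀)
    (h1 : 0 < l₁) (h0' : 0 < l₀') (h1' : 0 < l₁') (hs : 0 ≤ s) (ht : 0 ≤ t) (hst : s + t = 1)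
    (h : PG a₀ b₀ g₀ a₁ b₁ g₁ l₀ l₁ c < B) (h' : PG a₀ b₀ g₀ a₁ b₁ g₁ l₀' l₁' c' < B) :
    PG a₀ b₀ g₀ a₁ b₁ g₁ (s * l₀ + t * l₀') (s * l₁ + t * l₁') (s * c + t * c') < B := by
  have p0 := PF_conv (c := c) (c' := c') (a := a₀) (b := b₀) h0 h0' hg₀ hs ht hst
  have p1 := PF_conv (c := c) (c' := c') (a := a₁) (b := b₁) h1 h1' hg₁ hs ht hst
  have p2 := (convex_Iio B) h h' hs ht hst
  simp only [PG, mem_Iio, smul_eq_mul] at p2 ⊢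
  linarith

/-- The four vertices above a value of the shorter length. -/
def Vx (a₀ b₀ g₀ a₁ b₁ g₁ B l c d : ℝ) : Prop :=
  PG a₀ b₀ g₀ a₁ b₁ g₁ l l c < B ∧ PG a₀ b₀ g₀ a₁ b₁ g₁ l l d < B ∧
  PG a₀ b₀ g₀ a₁ b₁ g₁ l (166712 / 100000 - l) c < B ∧
  PG a₀ b₀ g₀ a₁ b₁ g₁ l (166712 / 100000 - l) d < B

theorem PG_box {B p q cp cq dp dq l₀ l₁ c s t : ℝ} (hg₀ : 0 ≤ g₀) (hg₁ : 0 ≤ g₁) (hp : 0 < p)
    (hq : 0 < q) (hp1 : p ≤ 1) (hq1 : q ≤ 1) (hs : 0 ≤ s) (ht : 0 ≤ t) (hst : s + t = 1)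
    (hl : s * p + t * q = l₀) (h01 : l₀ ≤ l₁) (hsum : l₀ + l₁ ≤ 166712 / 100000)
    (hc : s * cp + t * cq ≤ c) (hd : c ≤ s * dp + t * dq)
    (vp : Vx a₀ b₀ g₀ a₁ b₁ g₁ B p cp dp) (vq : Vx a₀ b₀ g₀ a₁ b₁ g₁ B q cq dq) :
    PG a₀ b₀ g₀ a₁ b₁ g₁ l₀ l₁ c < B := by
  obtain ⟨s', t', hs', ht', hst', e'⟩ := (Convex.mem_Icc (hc.trans hd)).1 ⟨hc, hd⟩
  obtain ⟨s'', t'', hs'', ht'', hst'', e''⟩ :=
    (Convex.mem_Icc (show l₀ ≤ 166712 / 100000 - l₀ by linarith)).1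
      (show l₁ ∈ Icc l₀ (166712 / 100000 - l₀) from ⟨h01, by linarith⟩)
  have hp' : 0 < 166712 / 100000 - p := by linarith
  have hq' : 0 < 166712 / 100000 - q := by linarith
  have one : ∀ {l c d : ℝ}, 0 < l → 0 < 166712 / 100000 - l → Vx a₀ b₀ g₀ a₁ b₁ g₁ B l c d →
      0 < s'' * l + t'' * (166712 / 100000 - l) ∧
      PG a₀ b₀ g₀ a₁ b₁ g₁ l (s'' * l + t'' * (166712 / 100000 - l)) (s' * c + t' * d) < B := by
    intro l c d hl hl' v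
    have e1 : ∀ x : ℝ, s' * x + t' * x = x := fun x => by rw [← add_mul, hst', one_mul]
    have e2 : ∀ x : ℝ, s'' * x + t'' * x = x := fun x => by rw [← add_mul, hst'', one_mul]
    have k1 := PG_seg hg₀ hg₁ hl hl hl hl hs' ht' hst' v.1 v.2.1
    have k2 := PG_seg hg₀ hg₁ hl hl' hl hl' hs' ht' hst' v.2.2.1 v.2.2.2
    rw [e1] at k1
    rw [e1, e1] at k2
    have k3 := PG_seg hg₀ hg₁ hl hl hl hl' hs'' ht'' hst'' k1 k2
    rw [e2, e2] at k3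
    exact ⟨(convex_Ioi (0 : ℝ)) hl hl' hs'' ht'' hst'', k3⟩
  obtain ⟨m1, k1⟩ := one hp hp' vp
  obtain ⟨m2, k2⟩ := one hq hq' vq
  have k3 := PG_seg hg₀ hg₁ hp m1 hq m2 hs ht hst k1 k2
  have f1 : s * (s'' * p + t'' * (166712 / 100000 - p)) +
      t * (s'' * q + t'' * (166712 / 100000 - q)) = l₁ := by
    rw [← e'', ← hl]
    linear_combination (t'' * (166712 / 100000)) * hst
  have f2 : s * (s' * cp + t' * dp) + t * (s' * cq + t' * dq) = c := by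
    rw [← e']
    ring
  rwa [hl, f1, f2] at k3

theorem chord_le {p q cp cq l c s t : ℝ} (hp : 1 / 2 ≤ p) (hq : 1 / 2 ≤ q) (hs : 0 ≤ s)
    (ht : 0 ≤ t) (hst : s + t = 1) (hl : s * p + t * q = l) (h1 : cp ^ 2 ≤ p ^ 2 - p ^ 4)
    (h2 : cq ^ 2 ≤ q ^ 2 - q ^ 4) (hc : 0 < c) (hD : 0 ≤ Df l c) : s * cp + t * cq ≤ c := by
  have hl2 : 1 / 2 ≤ l := hl ▸ (convex_Ici (1 / 2 : ℝ)) hp hq hs ht hst
  have hl0 : 0 < l := by linarith
  have h3 : l ^ 2 - l ^ 4 ≤ c ^ 2 := by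
    have := mul_nonneg hD (sq_nonneg l)
    have e : Df l c * l ^ 2 = c ^ 2 - (l ^ 2 - l ^ 4) := by
      rw [Df]
      field_simp
      ring
    linarith
  have k : ∀ x : ℝ, 1 / 2 ≤ x → x ^ 2 - x ^ 4 ≤ l ^ 2 - l ^ 4 + (2 * l - 4 * l ^ 3) * (x - l) := by
    intro x hx
    have : 0 ≤ x ^ 2 + 2 * x * l + 3 * l ^ 2 - 1 := by nlinarith
    nlinarith [mul_nonneg (sq_nonneg (x - l)) this]
  have k1 := mul_le_mul_of_nonneg_left (h1.trans (k p hp)) hs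
  have k2 := mul_le_mul_of_nonneg_left (h2.trans (k q hq)) ht
  have k3 : s * (l ^ 2 - l ^ 4 + (2 * l - 4 * l ^ 3) * (p - l)) +
      t * (l ^ 2 - l ^ 4 + (2 * l - 4 * l ^ 3) * (q - l)) = l ^ 2 - l ^ 4 := by
    linear_combination (l ^ 2 - l ^ 4 - (2 * l - 4 * l ^ 3) * l) * hst + (2 * l - 4 * l ^ 3) * hl
  have k4 : (s * cp + t * cq) ^ 2 ≤ s * cp ^ 2 + t * cq ^ 2 := by
    obtain rfl : t = 1 - s := by linarith
    nlinarith [mul_nonneg (mul_nonneg hs ht) (sq_nonneg (cp - cq))]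
  exact (abs_le_of_sq_le_sq' (by linarith) hc.le).2

end Pool.Agent.Lib.MP_14b623_gt
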