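import Pool.Agent.Lib.MP_14b623_gt.GCert
import Pool.Agent.Lib.MP_14b623_gt.PConv
import Pool.Agent.Lib.MP_14b623_gt.PRun1
import Pool.Agent.Lib.MP_14b623_gt.PRun2
import Pool.Agent.Lib.MP_14b623_gt.PRun3

/-! The certificates which use the first variation only. -/

namespace Pool.Agent.Lib.MP_14b623_gt

open Set
open scoped InnerProductSpace

theorem pc_square {x : E3} (hx : ‖x‖ ≤ 1) : ∃ s t : ℝ, 0 ≤ s ∧ s ≤ 1 ∧ 0 ≤ t ∧ t ≤ 1 ∧
    vZ.r s t = x 2 ∧ vP.r s t = rho x ∧ vS.r s t = 1 - x 2 ^ 2 := by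
  have h1 : rho x + x 2 ^ 2 ≤ 1 := by
    rw [← pf_norm_sq]
    exact pow_le_one₀ (norm_nonneg _) hx
  have h2 : 0 ≤ rho x := add_nonneg (sq_nonneg _) (sq_nonneg _)
  have h3 := abs_le_of_sq_le_sq' (show x 2 ^ 2 ≤ 1 ^ 2 by linarith) zero_le_one
  have h4 : 0 ≤ 1 - x 2 ^ 2 := by linarith
  refine ⟨(x 2 + 1) / 2, rho x / (1 - x 2 ^ 2), by linarith [h3.1], by linarith [h3.2],
    div_nonneg h2 h4, div_le_one_of_le₀ (by linarith) h4, ?_, ?_, ?_⟩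
  · simp only [vZ, Ex.sub, Ex.r]
    push_cast
    ring
  · simp only [vP, vS, Ex.sub, Ex.r]
    push_cast
    have e : 4 * ((x 2 + 1) / 2) * (1 + -((x 2 + 1) / 2)) = 1 - x 2 ^ 2 := by ring
    rw [e]
    rcases h4.eq_or_lt with h | h
    · rw [← h, zero_mul]
      linarith
    · exact mul_div_cancel₀ _ h.ne'
  · simp only [vS, Ex.sub, Ex.r]
    push_cast
    ring

theorem pc_div (a b : List (List ℤ)) (W : Ex) {x : E3} {s t : ℝ} (hz : vZ.r s t = x 2)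
    (hp : vP.r s t = rho x) (hE : 0 ≤ (vE a b W).r s t) (hT : 0 ≤ (vT a b W).r s t)
    (hD : 0 ≤ (vD a b W).r s t) {u v : E3} (hu : ‖u‖ = 1) (hv : ‖v‖ = 1) (huv : ⟪u, v⟫_ℝ = 0) :
    W.r s t ≤ ⟪fderiv ℝ (pfl a b) x u, u⟫_ℝ + ⟪fderiv ℝ (pfl a b) x v, v⟫_ℝ := by
  simp only [vE, vT, vD, vA, vC, vK, Ex.sub, Ex.r, hz, hp] at hE hT hD
  push_cast at hE hT hD
  exact pfl_div a b x rfl rfl rfl rfl rfl (by linarith) (by linarith) (by linarith) hu hv huv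

theorem pc_bdry {a b : List (List ℤ)} {al be ga : ℤ} (h : Cov [vB a b al be ga]) {x : E3}
    (hx : ‖x‖ = 1) : ⟪pfl a b x, x⟫_ℝ ≤ al + be * x 2 + ga * x 2 ^ 2 := by
  obtain ⟨s, t, h1, h2, h3, h4, hz, -, hs⟩ := pc_square hx.le
  have k := h.head h1 h2 h3 h4 (by simp)
  have e : 1 - x 2 ^ 2 = rho x := by
    have := pf_norm_sq x
    rw [hx] at this
    linarith
  simp only [vB, Ex.sub, Ex.r, hz, hs, e] at k
  rw [pfl_bdry]
  linarith

theorem pc_zero {a b : List (List ℤ)} {a₀ b₀ g₀ a₁ b₁ g₁ : ℤ} (hE : Cov [vE a b (.c 0)])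
    (hT : Cov [vT a b (.c 0)]) (hD : Cov [vD a b (.c 0)]) (h0 : Cov [vB a b a₀ (-b₀) g₀])
    (h1 : Cov [vB a b a₁ b₁ g₁]) (hg₀ : 0 ≤ g₀) (hg₁ : 0 ≤ g₁) {w : E3 → ℝ}
    (hw : ∀ x : E3, ‖x‖ ≤ 1 → 0 < w x → ∀ u v : E3, ‖u‖ = 1 → ‖v‖ = 1 → ⟪u, v⟫_ℝ = 0 →
      w x ≤ ⟪fderiv ℝ (pfl a b) x u, u⟫_ℝ + ⟪fderiv ℝ (pfl a b) x v, v⟫_ℝ) :
    PCert (fun x => max 0 (w x)) a₀ b₀ g₀ a₁ b₁ g₁ := by
  refine ⟨pfl a b, contDiff_pfl a b, fun x hx u v hu hv huv => ?_, fun x hx => ?_,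
    fun x hx => pc_bdry h1 hx, by exact_mod_cast hg₀, by exact_mod_cast hg₁⟩
  · rcases lt_or_ge 0 (w x) with h | h
    · exact (max_eq_right h.le).trans_le (hw x hx h u v hu hv huv)
    · obtain ⟨s, t, k1, k2, k3, k4, hz, hp, -⟩ := pc_square hx
      have k := pc_div a b (.c 0) hz hp (hE.head k1 k2 k3 k4 (by simp))
        (hT.head k1 k2 k3 k4 (by simp)) (hD.head k1 k2 k3 k4 (by simp)) hu hv huv
      simp only [Ex.r, Int.cast_zero] at k
      exact (max_eq_left h).trans_le k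
  · have := pc_bdry h0 hx
    push_cast at this
    linarith

theorem far_one {a b : List (List ℤ)} {a₀ b₀ g₀ a₁ b₁ g₁ : ℤ} (hE : Cov [vE a b (.c 0)])
    (hT : Cov [vT a b (.c 0)]) (hD : Cov [vD a b (.c 0)]) (h0 : Cov [vB a b a₀ (-b₀) g₀])
    (h1 : Cov [vB a b a₁ b₁ g₁]) (hg₀ : 0 ≤ g₀) (hg₁ : 0 ≤ g₁) {l₀ l₁ c : ℝ} (h : Adm l₀ l₁ c)
    (hg : (g₁ : ℝ) = 0 ∨ l₁ ≤ 1) {p q cp cq dp dq : ℝ} (hp : 1 / 2 ≤ p) (hq : q ≤ 1)
    (hl : l₀ ∈ Icc p q)
    (hc : (cp ≤ c ∧ cq ≤ c) ∨ (cp ^ 2 ≤ p ^ 2 - p ^ 4 ∧ cq ^ 2 ≤ q ^ 2 - q ^ 4))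
    (hd : (c ≤ dp ∧ c ≤ dq) ∨ (dp = p ∧ dq = q)) (vp : Vx a₀ b₀ g₀ a₁ b₁ g₁ 0 p cp dp)
    (vq : Vx a₀ b₀ g₀ a₁ b₁ g₁ 0 q cq dq) : Pure (fun _ => 0) 0 l₀ l₁ c := by
  have hpq := hl.1.trans hl.2
  obtain ⟨s, t, hs, ht, hst, e⟩ := (Convex.mem_Icc hpq).1 hl
  refine ((pc_zero (w := fun _ => 0) hE hT hD h0 h1 hg₀ hg₁
    fun x _ h => absurd h (lt_irrefl _)).mono fun x => le_max_left _ _).pure hg ?_
  refine PG_box (by exact_mod_cast hg₀) (by exact_mod_cast hg₁) (by linarith) (by linarith)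
    (by linarith) hq hs ht hst e h.le h.sum ?_ ?_ vp vq
  · rcases hc with hc | hc
    · exact (convex_Iic c) hc.1 hc.2 hs ht hst
    · exact chord_le hp (by linarith) hs ht hst e hc.1 hc.2 h.pos h.d0
  · rcases hd with hd | hd
    · exact (convex_Ici c) hd.1 hd.2 hs ht hst
    · rw [hd.1, hd.2, e]
      exact h.cle

theorem farCert : FarCert := by
  intro l₀ l₁ c h hf
  have h1 := h.lo
  have h2 := h.le
  have h3 := h.sum
  rcases le_total l₀ (70 / 100) with k1 | k1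
  · exact far_one (cov_of_job kEF1) (cov_of_job kTF1) (cov_of_job kDF1) (cov_of_job kB0F1)
      (cov_of_job kB1F1) (by norm_num) (by norm_num) h (Or.inl (by norm_num))
      (p := 6367 / 10000) (q := 70 / 100) (cp := 4909 / 10000) (cq := 4998 / 10000) (by norm_num)
      (by norm_num) ⟨h1, k1⟩ (Or.inr (by norm_num)) (Or.inr ⟨rfl, rfl⟩)
      (by norm_num [Vx, PG, PF]) (by norm_num [Vx, PG, PF])
  have h4 : l₁ ≤ 1 := by linarith
  rcases le_total l₀ (77 / 100) with k2 | k2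
  · exact far_one (cov_of_job kEF2) (cov_of_job kTF2) (cov_of_job kDF2) (cov_of_job kB0F2)
      (cov_of_job kB1F2) (by norm_num) (by norm_num) h (Or.inr h4)
      (p := 70 / 100) (q := 77 / 100) (cp := 4998 / 10000) (cq := 4912 / 10000) (by norm_num)
      (by norm_num) ⟨k1, k2⟩ (Or.inr (by norm_num)) (Or.inr ⟨rfl, rfl⟩)
      (by norm_num [Vx, PG, PF]) (by norm_num [Vx, PG, PF])
  have h5 : l₀ ≤ 83356 / 100000 := by linarith
  rcases le_total (1 / 2) c with k3 | k3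
  · exact far_one (cov_of_job kEF3) (cov_of_job kTF3) (cov_of_job kDF3) (cov_of_job kB0F3)
      (cov_of_job kB1F3) (by norm_num) (by norm_num) h (Or.inr h4)
      (p := 77 / 100) (q := 83356 / 100000) (cp := 1 / 2) (cq := 1 / 2) (by norm_num)
      (by norm_num) ⟨k2, h5⟩ (Or.inl ⟨k3, k3⟩) (Or.inr ⟨rfl, rfl⟩)
      (by norm_num [Vx, PG, PF]) (by norm_num [Vx, PG, PF])
  rcases le_total l₀ (81 / 100) with k4 | k4
  · exact far_one (cov_of_job kEF4) (cov_of_job kTF4) (cov_of_job kDF4) (cov_of_job kB0F4)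
      (cov_of_job kB1F4) (by norm_num) (by norm_num) h (Or.inr h4)
      (p := 77 / 100) (q := 81 / 100) (cp := 4912 / 10000) (cq := 4750 / 10000) (dp := 1 / 2)
      (dq := 1 / 2) (by norm_num) (by norm_num) ⟨k2, k4⟩ (Or.inr (by norm_num)) (Or.inl ⟨k3, k3⟩)
      (by norm_num [Vx, PG, PF]) (by norm_num [Vx, PG, PF])
  have k5 : 485 / 1000 ≤ c := by
    rcases hf with hf | hf <;> linarith
  exact far_one (cov_of_job kEF5) (cov_of_job kTF5) (cov_of_job kDF5) (cov_of_job kB0F5)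
    (cov_of_job kB1F5) (by norm_num) (by norm_num) h (Or.inr h4)
    (p := 81 / 100) (q := 83356 / 100000) (cp := 485 / 1000) (cq := 485 / 1000) (dp := 1 / 2)
    (dq := 1 / 2) (by norm_num) (by norm_num) ⟨k4, h5⟩ (Or.inl ⟨k5, k5⟩) (Or.inl ⟨k3, k3⟩)
    (by norm_num [Vx, PG, PF]) (by norm_num [Vx, PG, PF])

/-- The weight of the node at height `n / 100` with radius `m / 100`. -/
noncomputable def ndW (n m : ℝ) (x : E3) : ℝ :=
  1345 + m ^ 2 - 7000 * rho x - (100 * x 2 - n) ^ 2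

/-- A field for one node. -/
def Node (n m l₀ l₁ c : ℝ) : Prop :=
  ∃ a₀ b₀ g₀ a₁ b₁ g₁ : ℝ, PCert (fun x => max 0 (16384 * ndW n m x)) a₀ b₀ g₀ a₁ b₁ g₁ ∧
    PG a₀ b₀ g₀ a₁ b₁ g₁ l₀ l₁ c < 18939904 * (289 / 10000)

theorem node_one {a b : List (List ℤ)} {a₀ b₀ g₀ a₁ b₁ g₁ k n : ℤ} (m : ℝ)
    (hE : Cov [vE a b (.c 0)]) (hT : Cov [vT a b (.c 0)]) (hD : Cov [vD a b (.c 0)])
    (h0 : Cov [vB a b a₀ (-b₀) g₀]) (h1 : Cov [vB a b a₁ b₁ g₁])
    (hE' : Cov [vE a b (vW k 114688000 16384 n), .neg (vW k 114688000 16384 n)])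
    (hT' : Cov [vT a b (vW k 114688000 16384 n), .neg (vW k 114688000 16384 n)])
    (hD' : Cov [vD a b (vW k 114688000 16384 n), .neg (vW k 114688000 16384 n)])
    (hk : (k : ℝ) = 16384 * (1345 + m ^ 2)) (hg₀ : 0 ≤ g₀) (hg₁ : 0 ≤ g₁)
    (v1 : Vx a₀ b₀ g₀ a₁ b₁ g₁ (18939904 * (289 / 10000)) (81 / 100) (4750 / 10000) (485 / 1000))
    (v2 : Vx a₀ b₀ g₀ a₁ b₁ g₁ (18939904 * (289 / 10000)) (83356 / 100000) (4604 / 10000)
      (485 / 1000))
    (v3 : Vx a₁ b₁ g₁ a₀ b₀ g₀ (18939904 * (289 / 10000)) (81 / 100) (4750 / 10000) (485 / 1000))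
    (v4 : Vx a₁ b₁ g₁ a₀ b₀ g₀ (18939904 * (289 / 10000)) (83356 / 100000) (4604 / 10000)
      (485 / 1000))
    {l₀ l₁ c : ℝ} (h : Adm l₀ l₁ c) (hl : 81 / 100 ≤ l₀) (hc : c ≤ 485 / 1000) :
    Node n m l₀ l₁ c ∧ Node (-n) m l₀ l₁ c := by
  have P := pc_zero (w := fun x => 16384 * ndW n m x) hE hT hD h0 h1 hg₀ hg₁ (by
    intro x hx hw u v hu hv huv
    obtain ⟨s, t, k1, k2, k3, k4, hz, hp, -⟩ := pc_square hx
    have e : (vW k 114688000 16384 n).r s t = 16384 * ndW n m x := by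
      simp only [vW, Ex.sub, Ex.r, hz, hp, hk, ndW]
      push_cast
      ring
    have hn : ∀ F ∈ [Ex.neg (vW k 114688000 16384 n)], F.r s t < 0 := fun F hF => by
      rw [List.mem_singleton.1 hF, Ex.r, e]
      linarith
    exact e ▸ pc_div a b _ hz hp (hE'.head k1 k2 k3 k4 hn) (hT'.head k1 k2 k3 k4 hn)
      (hD'.head k1 k2 k3 k4 hn) hu hv huv)
  have h5 : l₀ ≤ 83356 / 100000 := by linarith [h.le, h.sum]
  obtain ⟨s, t, hs, ht, hst, e⟩ := (Convex.mem_Icc (hl.trans h5)).1 ⟨hl, h5⟩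
  have c1 : s * (4750 / 10000) + t * (4604 / 10000) ≤ c :=
    chord_le (by norm_num) (by norm_num) hs ht hst e (by norm_num) (by norm_num) h.pos h.d0
  have c2 : c ≤ s * (485 / 1000) + t * (485 / 1000) := (convex_Ici c) hc hc hs ht hst
  have g0 : (0 : ℝ) ≤ g₀ := by exact_mod_cast hg₀
  have g1 : (0 : ℝ) ≤ g₁ := by exact_mod_cast hg₁
  refine ⟨⟨_, _, _, _, _, _, P, PG_box g0 g1 (by norm_num) (by norm_num) (by norm_num)
    (by norm_num) hs ht hst e h.le h.sum c1 c2 v1 v2⟩, _, _, _, _, _, _, P.refl.mono fun x => ?_,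
    PG_box g1 g0 (by norm_num) (by norm_num) (by norm_num) (by norm_num) hs ht hst e h.le h.sum c1
      c2 v3 v4⟩
  refine le_of_eq ?_
  simp only [ndW, rho, rfz_0, rfz_1, rfz_2]
  congr 2
  ring

theorem node_two {n m n' m' l₀ l₁ c : ℝ} (h : Node n m l₀ l₁ c) (h' : Node n' m' l₀ l₁ c)
    (hm : n' - n = m + m') (h1 : l₁ ≤ 1) {y : E3} (hy : rho y ≤ (9 / 100) ^ 2)
    (hn : n ≤ 100 * y 2) (hn' : 100 * y 2 ≤ n') :
    Pure (fun x => max 0 (1 - ‖x - y‖ ^ 2 / (34 / 100) ^ 2)) ((34 / 100) ^ 2 / 4) l₀ l₁ c := by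
  obtain ⟨a₀, b₀, g₀, a₁, b₁, g₁, P, B⟩ := h
  obtain ⟨a₀', b₀', g₀', a₁', b₁', g₁', P', B'⟩ := h'
  obtain ⟨s, t, hs, ht, hst, e⟩ := (Convex.mem_Icc (hn.trans hn')).1 ⟨hn, hn'⟩
  refine ((P.comb P' (s := s / 18939904) (t := t / 18939904) (by positivity)
    (by positivity)).mono fun x => ?_).pure (Or.inr h1) ?_
  · refine max_le (by positivity) ?_
    have p1 := mul_le_mul_of_nonneg_left (le_max_right 0 (16384 * ndW n m x)) hs
    have p2 := mul_le_mul_of_nonneg_left (le_max_right 0 (16384 * ndW n' m' x)) ht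
    have p3 : 1156 - 10000 * ‖x - y‖ ^ 2 ≤ s * ndW n m x + t * ndW n' m' x := by
      have q1 : 7000 * rho x - 189 ≤ 10000 * rho (x - y) := by
        simp only [rho, PiLp.sub_apply] at hy ⊢
        nlinarith [sq_nonneg (3 * x 0 - 10 * y 0), sq_nonneg (3 * x 1 - 10 * y 1)]
      have q2 : s * ndW n m x + t * ndW n' m' x = 1345 - 7000 * rho x -
          10000 * (x 2 - y 2) ^ 2 + (s * m - t * m') ^ 2 := by
        obtain rfl : t = 1 - s := by linarith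
        obtain rfl : n' = n + m + m' := by linarith
        have e' : y 2 = (s * n + (1 - s) * (n + m + m')) / 100 := by linarith
        simp only [ndW, e']
        ring
      rw [q2, pf_norm_sq, PiLp.sub_apply]
      linarith [sq_nonneg (s * m - t * m')]
    rw [show ‖x - y‖ ^ 2 / (34 / 100) ^ 2 = 10000 / 1156 * ‖x - y‖ ^ 2 by ring]
    linarith
  · have p := (convex_Iio (18939904 * (289 / 10000) : ℝ)) B B' hs ht hst
    simp only [PG, mem_Iio, smul_eq_mul] at p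
    rw [PF_comb, PF_comb]
    linarith

theorem tubeCert : TubeCert := by
  intro l₀ l₁ c h hl hc y hy hr
  have h1 : l₁ ≤ 1 := by linarith [h.sum]
  have h2 : y 2 ^ 2 ≤ 1 ^ 2 := by
    have := pow_le_one₀ (n := 2) (norm_nonneg y) hy
    rw [pf_norm_sq] at this
    linarith [show 0 ≤ rho y from add_nonneg (sq_nonneg _) (sq_nonneg _)]
  have h3 := abs_le_of_sq_le_sq' h2 zero_le_one
  obtain ⟨p1, q1⟩ := node_one 12 (cov_of_job kET1) (cov_of_job kTT1) (cov_of_job kDT1)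
    (cov_of_job kB0T1) (cov_of_job kB1T1) (cov_of_job kEWT1) (cov_of_job kTWT1) (cov_of_job kDWT1)
    (by norm_num) (by norm_num) (by norm_num) (by norm_num [Vx, PG, PF]) (by norm_num [Vx, PG, PF])
    (by norm_num [Vx, PG, PF]) (by norm_num [Vx, PG, PF]) h hl hc
  obtain ⟨p2, q2⟩ := node_one 14 (cov_of_job kET2) (cov_of_job kTT2) (cov_of_job kDT2)
    (cov_of_job kB0T2) (cov_of_job kB1T2) (cov_of_job kEWT2) (cov_of_job kTWT2) (cov_of_job kDWT2)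
    (by norm_num) (by norm_num) (by norm_num) (by norm_num [Vx, PG, PF]) (by norm_num [Vx, PG, PF])
    (by norm_num [Vx, PG, PF]) (by norm_num [Vx, PG, PF]) h hl hc
  obtain ⟨p3, q3⟩ := node_one 12 (cov_of_job kET3) (cov_of_job kTT3) (cov_of_job kDT3)
    (cov_of_job kB0T3) (cov_of_job kB1T3) (cov_of_job kEWT3) (cov_of_job kTWT3) (cov_of_job kDWT3)
    (by norm_num) (by norm_num) (by norm_num) (by norm_num [Vx, PG, PF]) (by norm_num [Vx, PG, PF])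
    (by norm_num [Vx, PG, PF]) (by norm_num [Vx, PG, PF]) h hl hc
  obtain ⟨p4, q4⟩ := node_one 24 (cov_of_job kET4) (cov_of_job kTT4) (cov_of_job kDT4)
    (cov_of_job kB0T4) (cov_of_job kB1T4) (cov_of_job kEWT4) (cov_of_job kTWT4) (cov_of_job kDWT4)
    (by norm_num) (by norm_num) (by norm_num) (by norm_num [Vx, PG, PF]) (by norm_num [Vx, PG, PF])
    (by norm_num [Vx, PG, PF]) (by norm_num [Vx, PG, PF]) h hl hc
  push_cast at p1 p2 p3 p4 q1 q2 q3 q4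
  rcases le_total (100 * y 2) (-64) with k1 | k1
  · exact node_two q4 q3 (by norm_num) h1 hr (by linarith [h3.1]) k1
  rcases le_total (100 * y 2) (-38) with k2 | k2
  · exact node_two q3 q2 (by norm_num) h1 hr k1 k2
  rcases le_total (100 * y 2) (-12) with k3 | k3
  · exact node_two q2 q1 (by norm_num) h1 hr k2 k3
  rcases le_total (100 * y 2) 12 with k4 | k4
  · exact node_two q1 p1 (by norm_num) h1 hr k3 k4
  rcases le_total (100 * y 2) 38 with k5 | k5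
  · exact node_two p1 p2 (by norm_num) h1 hr k4 k5
  rcases le_total (100 * y 2) 64 with k6 | k6
  · exact node_two p2 p3 (by norm_num) h1 hr k5 k6
  · exact node_two p3 p4 (by norm_num) h1 hr k6 (by linarith [h3.2])

end Pool.Agent.Lib.MP_14b623_gt
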