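import Pool.Agent.Lib.MP_14b623_gt.BMain
import Pool.Agent.Lib.MP_14b623_gt.NInj
import Pool.Agent.Lib.MP_14b623_gt.NSide
import Pool.Agent.Lib.MP_14b623_gt.GCert
import Pool.Agent.Lib.MP_14b623_gt.PCert
import Pool.Agent.Lib.MP_14b623_gt.ACert

/-! Surfaces with disconnected boundary. -/

namespace Pool.Agent.Lib.MP_14b623_gt

open Set MeasureTheory Filter Topology Function Real
open scoped InnerProductSpace Manifold ContDiff

lemma two_le_card {X : Type} [TopologicalSpace X] {K : Set X} (h : ¬ IsPreconnected K) :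
    2 ≤ ENat.card (ConnectedComponents K) := by
  by_contra h2
  have h3 : Subsingleton (ConnectedComponents K) :=
    ENat.card_le_one_iff_subsingleton _ |>.1 (Order.le_of_lt_add_one (not_le.1 h2))
  refine h (isPreconnected_iff_preconnectedSpace.2 ⟨?_⟩)
  rcases isEmpty_or_nonempty K with he | ⟨⟨x⟩⟩
  · exact subsingleton_of_subsingleton.isPreconnected
  · have : connectedComponent x = univ := eq_univ_of_forall fun y =>
      ConnectedComponents.coe_eq_coe'.1 (Subsingleton.elim _ _)
    exact this ▸ isPreconnected_connectedComponent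

theorem disconnected_boundary : ∃ c τ : ℝ, 0 < c ∧ IsFBMAnnulus (-τ) τ (catenoid c) ∧
    ∀ (M : Type) [TopologicalSpace M] [T2Space M] [CompactSpace M]
      [ChartedSpace (EuclideanHalfSpace 2) M] [IsManifold (𝓡∂ 2) ∞ M]
      [MeasurableSpace M] [BorelSpace M] (φ : M → E3), IsFBMS φ →
      ¬ IsPreconnected ((𝓡∂ 2).boundary M) → area (-τ) τ (catenoid c) ≤ surfaceArea φ := by
  obtain ⟨τ, t1, t2, t3⟩ := exists_tau
  have h0 : 0 < τ := by linarith
  refine ⟨_, τ, div_pos (sinh_pos_iff.2 h0) (pow_pos (cosh_pos τ) 2), catenoid_isFBM h0 t3,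
    fun M _ _ _ _ _ _ _ φ h hb => ?_⟩
  rw [catenoid_area h0 t3]
  by_cases hA : surfaceArea φ < 2 * π
  · obtain ⟨N, hN⟩ := h.two_sided (h.inj hA)
    exact h.two hN cert farCert tubeCert axisCert (two_le_card hb) t1 t2 t3
  · exact (div_le_self (by positivity) (by linarith)).trans (not_lt.1 hA)

end Pool.Agent.Lib.MP_14b623_gt
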