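import Pool.Agent.Lib.MP_14b623_gt.GAtlas

/-! The divergence theorem on a free boundary minimal surface. -/

namespace Pool.Agent.Lib.MP_14b623_gt

open Set MeasureTheory Filter Topology Function
open scoped InnerProductSpace Manifold ContDiff

/-- In the patch `X`, the function `f` is the divergence of the field `Z`. -/
structure DivOn (T : Set E2) (X Z : E2 → E3) (f : E2 → ℝ) : Prop where
  c0 : ContDiffOn ℝ 1 (fun y => ⟪Z y, wv0 (pd 0 X y) (pd 1 X y)⟫_ℝ) T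
  c1 : ContDiffOn ℝ 1 (fun y => ⟪Z y, wv1 (pd 0 X y) (pd 1 X y)⟫_ℝ) T
  eq : ∀ y ∈ T, 0 < y 0 →
    fderivWithin ℝ (fun y => ⟪Z y, wv0 (pd 0 X y) (pd 1 X y)⟫_ℝ) HP y (ev 0) +
      fderivWithin ℝ (fun y => ⟪Z y, wv1 (pd 0 X y) (pd 1 X y)⟫_ℝ) HP y (ev 1) = f y * areaEl X y

lemma Patch.fderiv_mul {T : Set E2} {X : E2 → E3} (P : Patch T X) {r a : E2 → ℝ}
    (hr : ContDiffOn ℝ 1 r T) (ha : ContDiffOn ℝ 1 a T) {y : E2} (hy : y ∈ T) (v : E2) :
    fderivWithin ℝ (fun y => r y * a y) HP y v =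
      fderivWithin ℝ r HP y v * a y + r y * fderivWithin ℝ a HP y v := by
  have h4 := ((rel_hasFDeriv P.nhds hr le_rfl hy).mul
    (rel_hasFDeriv P.nhds ha le_rfl hy)).fderivWithin (uniqueDiffOn_HP y (P.sub hy))
  refine (DFunLike.congr_fun h4 v).trans ?_
  simp only [add_apply, smul_apply, smul_eq_mul]
  ring

theorem Patch.local_div {T K : Set E2} {X Z : E2 → E3} {f r : E2 → ℝ} (P : Patch T X)
    (D : DivOn T X Z f) (hr : ContDiffOn ℝ 1 r T) (hK : IsCompact K) (hKT : K ⊆ T)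
    (hz : ∀ y ∈ T \ K, r y = 0) :
    ∫ s in {s : ℝ | ln s ∈ T}, r (ln s) * ⟪Z (ln s), X (ln s)⟫_ℝ * ‖pd 1 X (ln s)‖ =
      ∫ y in T, (r y * f y + dv (fderivWithin ℝ X HP y) (fderivWithin ℝ r HP y) (Z y)) *
        areaEl X y := by
  have hT := rel_meas P.sub P.nhds
  have z : ∀ f : E2 → ℝ, ∀ y ∈ T \ K, r y * f y = 0 := fun f y hy => by rw [hz y hy, zero_mul]
  have hg := green_half P.sub P.nhds hK hKT (hr.mul D.c0) (hr.mul D.c1) (z _) (z _)
  have hl : ∫ s in {s : ℝ | ln s ∈ T}, r (ln s) * ⟪Z (ln s), X (ln s)⟫_ℝ * ‖pd 1 X (ln s)‖ =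
      -∫ s in {s : ℝ | ln s ∈ T},
        r (ln s) * ⟪Z (ln s), wv0 (pd 0 X (ln s)) (pd 1 X (ln s))⟫_ℝ := by
    rw [← integral_neg]
    refine setIntegral_congr_fun (rel_line_open P.sub P.nhds).measurableSet fun s hs => ?_
    simp only [P.w0_bdry hs (ln_zero s), inner_neg_right, inner_smul_right]
    ring
  rw [hl, ← hg]
  refine integral_congr_ae ?_
  filter_upwards [ae_pos_of_sub hT P.sub] with y ⟨hy, h0⟩
  rw [P.fderiv_mul hr D.c0 hy, P.fderiv_mul hr D.c1 hy]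
  have a1 := D.eq y hy h0
  have a3 := div_mul_cancel₀ (fderivWithin ℝ r HP y (ev 0) *
    ⟪Z y, wv0 (pd 0 X y) (pd 1 X y)⟫_ℝ + fderivWithin ℝ r HP y (ev 1) *
      ⟪Z y, wv1 (pd 0 X y) (pd 1 X y)⟫_ℝ) (jac_pos (P.inj y hy)).ne'
  simp only [pd_eq, areaEl_eq, dv] at a1 a3 ⊢
  linear_combination r y * a1 - a3

variable {M : Type} [TopologicalSpace M] [ChartedSpace (EuclideanHalfSpace 2) M]

/-- The continuous function `f` is the divergence of the continuous field `Z` along `φ`. -/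
structure IsDiv (φ Z : M → E3) (f : M → ℝ) : Prop where
  cZ : Continuous Z
  cf : Continuous f
  loc : ∀ q, DivOn (ch q).target (inChart φ q) (Z ∘ (ch q).symm) (f ∘ (ch q).symm)

variable [IsManifold (𝓡∂ 2) ∞ M] [T2Space M] [CompactSpace M] [MeasurableSpace M] [BorelSpace M]

omit [T2Space M] in
lemma IsDiv.chart {φ Z : M → E3} {f : M → ℝ} (h : IsFBMS φ) (D : IsDiv φ Z f) {ρ : M → ℝ}
    (hρ : ContMDiff (𝓡∂ 2) 𝓘(ℝ, ℝ) ∞ ρ) {q : M} (hs : tsupport ρ ⊆ (ch q).source) :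
    Integrable (fun x => ρ x * f x + dM φ (fun _ => Z x) ρ x) (areaMeasure φ) ∧
    ∫ s in {s : ℝ | ln s ∈ (ch q).target},
      ρ ((ch q).symm (ln s)) * ⟪Z ((ch q).symm (ln s)), φ ((ch q).symm (ln s))⟫_ℝ *
        ‖pd 1 (inChart φ q) (ln s)‖ =
      ∫ x, (ρ x * f x + dM φ (fun _ => Z x) ρ x) ∂areaMeasure φ := by
  have P := h.patch q
  have hr : ContDiffOn ℝ 1 (ρ ∘ (ch q).symm) (ch q).target :=
    (contDiffOn_ch le_rfl hρ q).of_le (by simp)
  have hK : IsCompact (ch q '' tsupport ρ) :=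
    (isClosed_tsupport ρ).isCompact.image_of_continuousOn
      ((continuousOn_extChartAt (I := 𝓡∂ 2) q).mono hs)
  have hKT : ch q '' tsupport ρ ⊆ (ch q).target := by
    rintro _ ⟨x, hx, rfl⟩
    exact (ch q).map_source (hs hx)
  have hz : ∀ y ∈ (ch q).target \ ch q '' tsupport ρ, (ρ ∘ (ch q).symm) y = 0 := by
    rintro y ⟨hy, hy'⟩
    exact image_eq_zero_of_notMem_tsupport (f := ρ) fun hc => hy' ⟨_, hc, (ch q).right_inv hy⟩
  have hloc := P.local_div (D.loc q) hr hK hKT hz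
  have hL : ContinuousOn (fderivWithin ℝ (ρ ∘ (ch q).symm) HP) (ch q).target :=
    (rel_contDiff P.sub P.nhds (m := 0) hr (by norm_num)).continuousOn
  have hdv : ContinuousOn (fun y => dv (fderivWithin ℝ (inChart φ q) HP y)
      (fderivWithin ℝ (ρ ∘ (ch q).symm) HP y) (Z ((ch q).symm y))) (ch q).target :=
    (((hL.clm_apply continuousOn_const).mul (D.loc q).c0.continuousOn).add
      ((hL.clm_apply continuousOn_const).mul (D.loc q).c1.continuousOn)).div
        P.contDiffOn_areaEl.continuousOn fun y hy => (jac_pos (P.inj y hy)).ne'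
  have key : ∀ y ∈ (ch q).target, dM φ (fun _ => Z ((ch q).symm y)) ρ ((ch q).symm y) =
      dv (fderivWithin ℝ (inChart φ q) HP y) (fderivWithin ℝ (ρ ∘ (ch q).symm) HP y)
        (Z ((ch q).symm y)) := by
    intro y hy
    rw [dM_eq h _ hρ ((ch q).map_target hy), (ch q).right_inv hy]
  have hmeas : MeasurableSet (ch q).target := rel_meas (ch_sub q) (ch_nhds q)
  have hcont : ContinuousOn (fun x => ρ x * f x + dM φ (fun _ => Z x) ρ x) (ch q).source := by
    refine (hρ.continuous.mul D.cf).continuousOn.add ?_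
    refine (hdv.comp (continuousOn_extChartAt (I := 𝓡∂ 2) q)
      fun x hx => (ch q).map_source hx).congr fun x hx => ?_
    have := key _ ((ch q).map_source hx)
    rw [(ch q).left_inv hx] at this
    simp only [comp_apply, (ch q).left_inv hx]
    exact this
  have hzero : ∀ x ∉ (ch q).source, ρ x * f x + dM φ (fun _ => Z x) ρ x = 0 := by
    intro x hx
    have hx' : x ∉ tsupport ρ := fun hc => hx (hs hc)
    rw [image_eq_zero_of_notMem_tsupport hx', dM_zero φ _ hx', zero_mul, add_zero]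
  have hint : IntegrableOn (fun y => (ρ ((ch q).symm y) * f ((ch q).symm y) +
      dM φ (fun _ => Z ((ch q).symm y)) ρ ((ch q).symm y)) * areaEl (inChart φ q) y)
        (ch q).target := by
    refine integrableOn_of_compact hmeas hK hKT ?_ ?_
    · refine (((hr.continuousOn.mul (D.cf.comp_continuousOn
        (continuousOn_extChartAt_symm q))).add hdv).mul
          P.contDiffOn_areaEl.continuousOn).congr fun y hy => ?_
      simp only [key y hy]
      rfl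
    · intro y hy
      have h1 : ρ ((ch q).symm y) = 0 := hz y hy
      rw [key y hy.1, fderivWithin_zero_off (ch_nhds q) hK hz hy, dv_zero, h1, zero_mul,
        add_zero, zero_mul]
  obtain ⟨i1, i2⟩ := integral_chart h q hcont hzero hint
  refine ⟨i1, ?_⟩
  rw [i2]
  refine hloc.trans (setIntegral_congr_fun hmeas fun y hy => ?_)
  simp only [key y hy]
  rfl

/-- The divergence theorem, with the boundary integral written with a partition of unity. -/
theorem IsDiv.pou {φ Z : M → E3} {f : M → ℝ} (h : IsFBMS φ) (D : IsDiv φ Z f) {F : Finset M}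
    {ρ : M → M → ℝ} (hρ : ∀ q, ContMDiff (𝓡∂ 2) 𝓘(ℝ, ℝ) ∞ (ρ q))
    (hs : ∀ q, tsupport (ρ q) ⊆ (ch q).source) (h1 : ∀ x, ∑ q ∈ F, ρ q x = 1) :
    ∑ q ∈ F, ∫ s in {s : ℝ | ln s ∈ (ch q).target},
      ρ q ((ch q).symm (ln s)) * ⟪Z ((ch q).symm (ln s)), φ ((ch q).symm (ln s))⟫_ℝ *
        ‖pd 1 (inChart φ q) (ln s)‖ = ∫ x, f x ∂areaMeasure φ := by
  have H := fun q => D.chart h (hρ q) (hs q)
  rw [Finset.sum_congr rfl fun q _ => (H q).2, ← integral_finsetSum _ fun q _ => (H q).1]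
  refine integral_congr_ae (Eventually.of_forall fun x => ?_)
  simp only [Finset.sum_add_distrib, ← Finset.sum_mul, h1, dM_sum φ _ hρ h1, add_zero, one_mul]

/-- If the boundary flux is nonnegative, then so is the integral of the divergence. -/
theorem IsDiv.nonneg {φ Z : M → E3} {f : M → ℝ} (h : IsFBMS φ) (D : IsDiv φ Z f)
    (h0 : ∀ x ∈ (𝓡∂ 2).boundary M, 0 ≤ ⟪Z x, φ x⟫_ℝ) : 0 ≤ ∫ x, f x ∂areaMeasure φ := by
  obtain ⟨F, ρ, hρ, hρ0, hs, h1⟩ := exists_pou (M := M)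
  rw [← D.pou h hρ hs h1]
  refine Finset.sum_nonneg fun q _ => setIntegral_nonneg
    (rel_line_open (ch_sub q) (ch_nhds q)).measurableSet fun s hs => ?_
  exact mul_nonneg (mul_nonneg (hρ0 q _) (h0 _ (bdry_ln hs))) (norm_nonneg _)

end Pool.Agent.Lib.MP_14b623_gt

namespace Pool.Agent.Lib.MP_14b623_gt.LineAtlas

open Set MeasureTheory Filter Topology Function
open scoped InnerProductSpace

variable {M : Type*} [TopologicalSpace M] {φ : M → E3} {K : Set M} {L : LineAtlas φ K}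

lemma Good.integral_eq' {γ : ℝ → M} {g' : ℝ → E3} (h : L.Good γ g') (q : M) {F : M → ℝ}
    (hz : ∀ x ∈ K, x ∉ L.β q '' L.I q → F x = 0) :
    ∃ W : Set ℝ, MeasurableSet W ∧ W ⊆ L.I q ∧ (∀ s ∈ W, ∃ t, L.β q s = γ t) ∧
      (∀ s ∈ L.I q, ∀ t ∈ Ioo (0 : ℝ) 1, L.β q s = γ t → s ∈ W) ∧
      ∫ t in (0 : ℝ)..1, F (γ t) * ‖g' t‖ = ∫ s in W, F (L.β q s) * ‖L.v q s‖ := by
  set S : Set ℝ := {t | t ∈ Ioo (0 : ℝ) 1 ∧ γ t ∈ L.β q '' L.I q} with hS
  set k : ℝ → ℝ := fun t => invFunOn (L.β q) (L.I q) (γ t) with hk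
  have h1 : ∀ t ∈ S, k t ∈ L.I q ∧ L.β q (k t) = γ t := fun t ht => invFunOn_pos ht.2
  have h2 : ∀ t ∈ S, S ∈ 𝓝 t ∧ DifferentiableAt ℝ k t := fun t ht => by
    obtain ⟨j, hj, hj'⟩ := h.loc q t ht.2
    refine ⟨?_, hj.congr_of_eventuallyEq ?_⟩
    · filter_upwards [hj', isOpen_Ioo.mem_nhds ht.1] with r h3 h4
      exact ⟨h4, _, h3.1, h3.2.symm⟩
    · filter_upwards [hj'] with r h3
      simp only [hk, h3.2]
      exact (L.inj q).leftInvOn_invFunOn h3.1
  have hO : IsOpen S := isOpen_iff_mem_nhds.2 fun t ht => (h2 t ht).1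
  have h3 : InjOn k S := fun a ha b hb hab =>
    h.inj (Ioo_subset_Ico_self ha.1) (Ioo_subset_Ico_self hb.1)
      (by rw [← (h1 a ha).2, ← (h1 b hb).2, hab])
  have h4 : ∀ t ∈ S, g' t = deriv k t • L.v q (k t) := fun t ht => by
    refine (h.der t).unique (((L.der q _ (h1 t ht).1).scomp t
      (h2 t ht).2.hasDerivAt).congr_of_eventuallyEq ?_)
    filter_upwards [(h2 t ht).1] with r hr
    simp only [comp_apply, (h1 r hr).2]
  refine ⟨k '' S, hO.measurableSet.image_of_continuousOn_injOn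
    (fun t ht => (h2 t ht).2.continuousAt.continuousWithinAt) h3, ?_, ?_, ?_, ?_⟩
  · rintro _ ⟨t, ht, rfl⟩
    exact (h1 t ht).1
  · rintro _ ⟨t, ht, rfl⟩
    exact ⟨t, (h1 t ht).2⟩
  · intro s hs t ht e
    have h5 : t ∈ S := ⟨ht, s, hs, e⟩
    exact ⟨t, h5, L.inj q (h1 t h5).1 hs ((h1 t h5).2.trans e.symm)⟩
  · rw [integral_image_eq_integral_abs_deriv_smul hO.measurableSet
      (fun t ht => (h2 t ht).2.hasDerivAt.hasDerivWithinAt) h3,
      intervalIntegral.integral_of_le zero_le_one, integral_Ioc_eq_integral_Ioo,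
      setIntegral_eq_of_subset_of_forall_sdiff_eq_zero (s := S) measurableSet_Ioo
        (fun t ht => ht.1) fun t ht => by
          rw [hz _ (h.mem t) fun h5 => ht.2 ⟨ht.1, h5⟩, zero_mul]]
    refine setIntegral_congr_fun hO.measurableSet fun t ht => ?_
    simp only [h4 t ht, (h1 t ht).2, norm_smul, Real.norm_eq_abs, smul_eq_mul]
    ring

/-- Integrals over disjoint curves which exhaust `K`. -/
theorem sum_eq {ι : Type*} [Fintype ι] {γ : ι → ℝ → M} {g' : ι → ℝ → E3}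
    (h : ∀ i, L.Good (γ i) (g' i)) (hd : ∀ i j, i ≠ j → ∀ s t, γ i s ≠ γ j t)
    (hK : ∀ x ∈ K, ∃ i t, γ i t = x) (q : M) {F : M → ℝ}
    (hz : ∀ x ∈ K, x ∉ L.β q '' L.I q → F x = 0)
    (hi : IntegrableOn (fun s => F (L.β q s) * ‖L.v q s‖) (L.I q)) :
    ∑ i, ∫ t in (0 : ℝ)..1, F (γ i t) * ‖g' i t‖ = ∫ s in L.I q, F (L.β q s) * ‖L.v q s‖ := by
  choose W h1 h2 h3 h5 h4 using fun i => (h i).integral_eq' q hz
  simp only [h4]
  rw [← integral_iUnion_fintype h1 (fun i j hij => disjoint_left.2 fun s hs hs' => ?_)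
    fun i => hi.mono_set (h2 i)]
  · refine setIntegral_congr_set (ae_eq_set.2 ⟨?_, ?_⟩)
    · rw [sdiff_eq_empty.2 (iUnion_subset h2), measure_empty]
    · refine Set.Finite.measure_zero (Set.Finite.of_finite_image (f := L.β q)
        ((finite_range fun i => γ i 0).subset ?_) ((L.inj q).mono sdiff_subset)) _
      rintro _ ⟨s, hs, rfl⟩
      obtain ⟨i, t, e⟩ := hK _ (L.mem q s hs.1)
      obtain ⟨u, hu, e'⟩ := (h i).per.exists_mem_Ico₀ one_pos t
      rcases hu.1.eq_or_lt with rfl | h6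
      · exact ⟨i, e'.symm.trans e⟩
      · exact (hs.2 (mem_iUnion.2 ⟨i, h5 i s hs.1 u ⟨h6, hu.2⟩ (e.symm.trans e')⟩)).elim
  · obtain ⟨a, ha⟩ := h3 i s hs
    obtain ⟨b, hb⟩ := h3 j s hs'
    exact hd i j hij a b (ha.symm.trans hb)

end Pool.Agent.Lib.MP_14b623_gt.LineAtlas

namespace Pool.Agent.Lib.MP_14b623_gt

open Set MeasureTheory Filter Topology Function
open scoped InnerProductSpace Manifold ContDiff

variable {M : Type} [TopologicalSpace M] [ChartedSpace (EuclideanHalfSpace 2) M]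
  [IsManifold (𝓡∂ 2) ∞ M] [T2Space M] [CompactSpace M] [MeasurableSpace M] [BorelSpace M]

/-- The divergence theorem, for boundary curves which exhaust the boundary. -/
theorem IsDiv.curves {φ Z : M → E3} {f : M → ℝ} (h : IsFBMS φ) (D : IsDiv φ Z f)
    {ι : Type*} [Fintype ι] {γ : ι → ℝ → M} {g' : ι → ℝ → E3}
    (hg : ∀ i, h.atlas.Good (γ i) (g' i)) (hd : ∀ i j, i ≠ j → ∀ s t, γ i s ≠ γ j t)
    (hK : ∀ x ∈ (𝓡∂ 2).boundary M, ∃ i t, γ i t = x) :
    ∫ x, f x ∂areaMeasure φ = ∑ i, ∫ t in (0 : ℝ)..1, ⟪Z (γ i t), φ (γ i t)⟫_ℝ * ‖g' i t‖ := by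
  obtain ⟨F, ρ, hρ, -, hs, h1⟩ := exists_pou (M := M)
  have hψ : Continuous fun x => ⟪Z x, φ x⟫_ℝ := D.cZ.inner h.smooth.continuous
  rw [← D.pou h hρ hs h1]
  have e : ∀ i, ∫ t in (0 : ℝ)..1, ⟪Z (γ i t), φ (γ i t)⟫_ℝ * ‖g' i t‖ =
      ∑ q ∈ F, ∫ t in (0 : ℝ)..1, ρ q (γ i t) * ⟪Z (γ i t), φ (γ i t)⟫_ℝ * ‖g' i t‖ :=
    fun i => by
      have hi : ∀ q ∈ F, IntervalIntegrable
          (fun t => ρ q (γ i t) * ⟪Z (γ i t), φ (γ i t)⟫_ℝ * ‖g' i t‖) volume 0 1 :=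
        fun q _ => ((((hρ q).continuous.mul hψ).comp (hg i).continuous).mul
          (hg i).cont.norm).intervalIntegrable 0 1
      rw [← intervalIntegral.integral_finsetSum hi]
      refine intervalIntegral.integral_congr fun t _ => ?_
      simp only [← Finset.sum_mul, h1, one_mul]
  simp only [e]
  rw [Finset.sum_comm]
  refine Finset.sum_congr rfl fun q _ => ?_
  refine (LineAtlas.sum_eq hg hd hK q (F := fun x => ρ q x * ⟪Z x, φ x⟫_ℝ)
    (fun x hx hx' => ?_) ?_).symm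
  · rw [image_eq_zero_of_notMem_tsupport (f := ρ q) (x := x) fun h2 => hx' ?_, zero_mul]
    exact ⟨_, (bdry_eq (hs q h2) hx).1, (bdry_eq (hs q h2) hx).2.symm⟩
  · refine integrableOn_line (K := ch q '' tsupport (ρ q))
      (f := fun y => ρ q ((ch q).symm y) * ⟪Z ((ch q).symm y), φ ((ch q).symm y)⟫_ℝ *
        ‖pd 1 (inChart φ q) y‖) (rel_meas (ch_sub q) (ch_nhds q))
      ((isClosed_tsupport _).isCompact.image_of_continuousOn
        ((continuousOn_extChartAt q).mono (hs q))) ?_ ?_ fun y hy => ?_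
    · rintro _ ⟨x, hx, rfl⟩
      exact (ch q).map_source (hs q hx)
    · exact (((hρ q).continuous.mul hψ).comp_continuousOn (continuousOn_extChartAt_symm q)).mul
        ((h.patch q).contDiffOn_pd 1).continuousOn.norm
    · rw [image_eq_zero_of_notMem_tsupport fun h2 => hy.2 ⟨_, h2, (ch q).right_inv hy.1⟩,
        zero_mul, zero_mul]

end Pool.Agent.Lib.MP_14b623_gt
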