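import Pool.Agent.Lib.MP_14b623_gt.BDefs
import Pool.Agent.Lib.MP_14b623_gt.SDiv

/-! The divergence theorem on the surface. -/

namespace Pool.Agent.Lib.MP_14b623_gt

open Set MeasureTheory Filter Topology Function Real
open scoped InnerProductSpace Manifold ContDiff

/-- One chart. As `Patch.local_fv` (GLocal): `green_half` for `Aᵢ = r aᵢ`, product rule,
`w0_bdry` on the line, `ae_pos_of_sub`; `dv A L z * jac = L e₀ ⟪z, w₀⟫ + L e₁ ⟪z, w₁⟫`. -/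
theorem Patch.local_eq {T K : Set E2} {X : E2 → E3} (P : Patch T X) {r f : E2 → ℝ} {Z : E2 → E3}
    (hr : ContDiffOn ℝ 1 r T) (hK : IsCompact K) (hKT : K ⊆ T) (hz : ∀ y ∈ T \ K, r y = 0)
    (h0 : ContDiffOn ℝ 1 (fun y => ⟪Z y, wv0 (pd 0 X y) (pd 1 X y)⟫_ℝ) T)
    (h1 : ContDiffOn ℝ 1 (fun y => ⟪Z y, wv1 (pd 0 X y) (pd 1 X y)⟫_ℝ) T)
    (hd : ∀ y ∈ T, 0 < y 0 →
      fderivWithin ℝ (fun y => ⟪Z y, wv0 (pd 0 X y) (pd 1 X y)⟫_ℝ) HP y (ev 0) +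
        fderivWithin ℝ (fun y => ⟪Z y, wv1 (pd 0 X y) (pd 1 X y)⟫_ℝ) HP y (ev 1) =
      f y * areaEl X y) :
    ∫ s in {s : ℝ | ln s ∈ T}, r (ln s) * ⟪Z (ln s), X (ln s)⟫_ℝ * ‖pd 1 X (ln s)‖ =
      ∫ y in T, (r y * f y + dv (fderivWithin ℝ X HP y) (fderivWithin ℝ r HP y) (Z y)) *
        areaEl X y :=
  P.local_div ⟨h0, h1, hd⟩ hr hK hKT hz

variable {M : Type} [TopologicalSpace M] [ChartedSpace (EuclideanHalfSpace 2) M]
  [IsManifold (𝓡∂ 2) ∞ M] [T2Space M] [CompactSpace M] [MeasurableSpace M] [BorelSpace M]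

/-- As `first_variation` (GFirst) and `IsFBMS.key` (GAtlas), with equalities: partition of unity
`exists_pou`; `dM` with the vector `Z x` in place of `η (φ x)` (`dM φ (fun _ => Z x) ρ x` is that
number, so `dM_eq`, `dM_zero`, `dM_sum` apply as they stand with `η = fun _ => Z x`);
`Patch.local_eq`, `integral_chart`, `LineAtlas.sum_eq`. -/
theorem IsFBMS.div_thm {φ : M → E3} (h : IsFBMS φ) {Z : M → E3} {f : M → ℝ} (hZ : Continuous Z)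
    (hf : Continuous f)
    (h0 : ∀ q, ContDiffOn ℝ 1 (fun y => ⟪Z ((ch q).symm y),
      wv0 (pd 0 (inChart φ q) y) (pd 1 (inChart φ q) y)⟫_ℝ) (ch q).target)
    (h1 : ∀ q, ContDiffOn ℝ 1 (fun y => ⟪Z ((ch q).symm y),
      wv1 (pd 0 (inChart φ q) y) (pd 1 (inChart φ q) y)⟫_ℝ) (ch q).target)
    (hd : ∀ q, ∀ y ∈ (ch q).target, 0 < y 0 →
      fderivWithin ℝ (fun y => ⟪Z ((ch q).symm y),
          wv0 (pd 0 (inChart φ q) y) (pd 1 (inChart φ q) y)⟫_ℝ) HP y (ev 0) +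
        fderivWithin ℝ (fun y => ⟪Z ((ch q).symm y),
          wv1 (pd 0 (inChart φ q) y) (pd 1 (inChart φ q) y)⟫_ℝ) HP y (ev 1) =
      f ((ch q).symm y) * areaEl (inChart φ q) y)
    {ι : Type*} [Fintype ι] {γ : ι → ℝ → M} {g' : ι → ℝ → E3}
    (hg : ∀ i, h.atlas.Good (γ i) (g' i)) (hdj : ∀ i j, i ≠ j → ∀ s t, γ i s ≠ γ j t)
    (hc : ∀ x ∈ (𝓡∂ 2).boundary M, ∃ i t, γ i t = x) :
    ∫ x, f x ∂areaMeasure φ =
      ∑ i, ∫ t in (0 : ℝ)..1, ⟪Z (γ i t), φ (γ i t)⟫_ℝ * ‖g' i t‖ :=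
  IsDiv.curves h ⟨hZ, hf, fun q => ⟨h0 q, h1 q, hd q⟩⟩ hg hdj hc

end Pool.Agent.Lib.MP_14b623_gt
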