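import Pool.Agent.Lib.MP_14b623_gt.BDefs

/-! The monotonicity bound at a point of the surface far from the boundary curves. -/

namespace Pool.Agent.Lib.MP_14b623_gt

open Set MeasureTheory Filter Topology Function Real
open scoped InnerProductSpace

lemma bmono_pos_sq (r : ℝ) : HasDerivAt (fun r : ℝ => max r 0 ^ 2) (2 * max r 0) r := by
  rcases lt_trichotomy r 0 with h | rfl | h
  · rw [max_eq_right h.le, mul_zero]
    refine (hasDerivAt_const r (0 : ℝ)).congr_of_eventuallyEq ?_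
    filter_upwards [Iio_mem_nhds h] with s hs
    rw [max_eq_right (le_of_lt hs), zero_pow two_ne_zero]
  · rw [max_self, mul_zero, hasDerivAt_iff_isLittleO_nhds_zero]
    refine Asymptotics.IsBigO.trans_isLittleO (g := fun s : ℝ => s ^ 2)
      (Asymptotics.IsBigO.of_bound 1 (Eventually.of_forall fun s => ?_))
      (Asymptotics.isLittleO_pow_id one_lt_two)
    rcases le_total s 0 with hs | hs
    · simp [max_eq_right hs, sq_nonneg]
    · simp [max_eq_left hs]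
  · rw [max_eq_left h.le]
    refine (by simpa using hasDerivAt_pow 2 r : HasDerivAt (fun s : ℝ => s ^ 2) (2 * r) r)
      |>.congr_of_eventuallyEq ?_
    filter_upwards [Ioi_mem_nhds h] with s hs
    rw [max_eq_left (le_of_lt hs)]

lemma bmono_pos_sq_cd : ContDiff ℝ 1 (fun r : ℝ => max r 0 ^ 2) := by
  rw [contDiff_one_iff_deriv]
  refine ⟨fun r => (bmono_pos_sq r).differentiableAt, ?_⟩
  rw [funext fun r => (bmono_pos_sq r).deriv]
  fun_prop

lemma bmono_bessel {u v : E3} (h : ON u v) (w : E3) : ⟪w, u⟫_ℝ ^ 2 + ⟪w, v⟫_ℝ ^ 2 ≤ ‖w‖ ^ 2 := by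
  obtain ⟨hu, hv, huv⟩ := h
  have h1 : 0 ≤ ⟪w - ⟪w, u⟫_ℝ • u - ⟪w, v⟫_ℝ • v, w - ⟪w, u⟫_ℝ • u - ⟪w, v⟫_ℝ • v⟫_ℝ :=
    real_inner_self_nonneg
  have h2 : ⟪u, u⟫_ℝ = 1 := by rw [real_inner_self_eq_norm_sq, hu, one_pow]
  have h3 : ⟪v, v⟫_ℝ = 1 := by rw [real_inner_self_eq_norm_sq, hv, one_pow]
  simp only [inner_sub_left, inner_sub_right, real_inner_smul_left, real_inner_smul_right,
    real_inner_comm w u, real_inner_comm w v, real_inner_comm u v, huv, h2, h3] at h1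
  rw [← real_inner_self_eq_norm_sq]
  linarith

/-- Divergence of a radial field along a plane. -/
lemma bmono_radial {F : ℝ → ℝ} {F' : ℝ} {x y u v : E3} (hF : HasDerivAt F F' (‖x - y‖ ^ 2))
    (h0 : F' ≤ 0) (h : ON u v) :
    2 * (F (‖x - y‖ ^ 2) + F' * ‖x - y‖ ^ 2) ≤
      dd (fun x => F (‖x - y‖ ^ 2) • (x - y)) (fun _ => 0) x u v := by
  have h1 : HasFDerivAt (fun x : E3 => x - y) (ContinuousLinearMap.id ℝ E3) x :=
    (hasFDerivAt_id x).sub_const y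
  have h2 := (hF.comp_hasFDerivAt x h1.norm_sq).smul h1
  have h3 : fderiv ℝ (fun x => F (‖x - y‖ ^ 2) • (x - y)) x = _ := h2.fderiv
  have h4 := mul_le_mul_of_nonpos_left (bmono_bessel h (x - y)) h0
  obtain ⟨hu, hv, -⟩ := h
  rw [dd, h3]
  simp [inner_add_left, real_inner_smul_left, hu, hv, ← inner_sub_left]
  linarith

/-- A smoothing of `max s σ` from above. -/
noncomputable def bmonoM (σ s : ℝ) : ℝ := σ + √(max (s - σ) 0 ^ 2 + (σ ^ 2) ^ 2)

/-- The cut off. -/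
noncomputable def bmonoH (d s : ℝ) : ℝ := max (1 - s / d ^ 2) 0 ^ 2

lemma bmono_rad {σ : ℝ} (hσ : 0 < σ) (s : ℝ) : 0 < max (s - σ) 0 ^ 2 + (σ ^ 2) ^ 2 := by
  positivity

lemma bmonoM_pos {σ : ℝ} (hσ : 0 < σ) (s : ℝ) : 0 < bmonoM σ s :=
  add_pos_of_pos_of_nonneg hσ (sqrt_nonneg _)

lemma bmono_le_sqrt (σ s : ℝ) : max (s - σ) 0 ≤ √(max (s - σ) 0 ^ 2 + (σ ^ 2) ^ 2) :=
  le_sqrt_of_sq_le (le_add_of_nonneg_right (sq_nonneg _))

lemma bmonoM_ge (σ s : ℝ) : s ≤ bmonoM σ s := by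
  have h1 := bmono_le_sqrt σ s
  have h2 := le_max_left (s - σ) 0
  rw [bmonoM]
  linarith

lemma bmonoM_small {σ s : ℝ} (h : s < σ) : bmonoM σ s = σ + σ ^ 2 := by
  rw [bmonoM, max_eq_right (sub_neg.2 h).le, zero_pow two_ne_zero, zero_add, sqrt_sq (sq_nonneg _)]

lemma bmonoM_der {σ : ℝ} (hσ : 0 < σ) (s : ℝ) :
    ∃ m', HasDerivAt (bmonoM σ) m' s ∧ 0 ≤ m' ∧ m' ≤ 1 ∧ (s < σ → m' = 0) := by
  have h1 := (((bmono_pos_sq (s - σ)).comp s ((hasDerivAt_id s).sub_const σ)).add_const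
    ((σ ^ 2) ^ 2)).sqrt (bmono_rad hσ s).ne'
  have h2 := sqrt_pos.2 (bmono_rad hσ s)
  have h3 := bmono_le_sqrt σ s
  have h4 := le_max_right (s - σ) 0
  refine ⟨_, h1.const_add σ, ?_, ?_, fun h => ?_⟩
  · positivity
  · refine (div_le_one (mul_pos two_pos h2)).2 ?_
    change 2 * max (s - σ) 0 * 1 ≤ 2 * √(max (s - σ) 0 ^ 2 + (σ ^ 2) ^ 2)
    linarith
  · rw [max_eq_right (sub_neg.2 h).le]
    simp

lemma bmonoH_der (d s : ℝ) :
    HasDerivAt (bmonoH d) (-(2 / d ^ 2) * max 0 (1 - s / d ^ 2)) s := by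
  have h1 := (bmono_pos_sq (1 - s / d ^ 2)).comp s
    (((hasDerivAt_id s).div_const (d ^ 2)).const_sub 1)
  refine h1.congr_deriv ?_
  rw [max_comm]
  ring

lemma bmonoF_cd (d : ℝ) {σ : ℝ} (hσ : 0 < σ) :
    ContDiff ℝ 1 fun s => bmonoH d s / bmonoM σ s := by
  refine ContDiff.div (bmono_pos_sq_cd.comp (by fun_prop)) (contDiff_const.add ?_)
    fun s => (bmonoM_pos hσ s).ne'
  exact ((bmono_pos_sq_cd.comp (f := fun s : ℝ => s - σ) (by fun_prop)).add contDiff_const).sqrt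
    fun s => (bmono_rad hσ s).ne'

/-- The pointwise lower bound of the divergence. -/
lemma bmono_point {d σ : ℝ} (hd : 0 < d) (hσ : 0 < σ) (hσd : σ ≤ d ^ 2) {x y u v : E3}
    (h : ON u v) :
    2 * ((if ‖x - y‖ ^ 2 < σ then (1 - σ / d ^ 2) ^ 2 / (σ + σ ^ 2) else 0) -
        2 / d ^ 2 * max 0 (1 - ‖x - y‖ ^ 2 / d ^ 2)) ≤
      dd (fun x => (bmonoH d (‖x - y‖ ^ 2) / bmonoM σ (‖x - y‖ ^ 2)) • (x - y)) (fun _ => 0)
        x u v := by
  obtain ⟨m', h1, h2, h3, h4⟩ := bmonoM_der hσ (‖x - y‖ ^ 2)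
  have hm := bmonoM_pos hσ (‖x - y‖ ^ 2)
  have hs := bmonoM_ge σ (‖x - y‖ ^ 2)
  have hm0 := @bmonoM_small σ (‖x - y‖ ^ 2)
  have h5 := (bmonoH_der d (‖x - y‖ ^ 2)).div h1 hm.ne'
  have hH : 0 ≤ bmonoH d (‖x - y‖ ^ 2) := sq_nonneg _
  have hk : 0 ≤ 2 / d ^ 2 * max 0 (1 - ‖x - y‖ ^ 2 / d ^ 2) :=
    mul_nonneg (by positivity) (le_max_left _ _)
  have hH' : ‖x - y‖ ^ 2 < σ → (1 - σ / d ^ 2) ^ 2 ≤ bmonoH d (‖x - y‖ ^ 2) := fun h => by
    have e1 : 0 ≤ 1 - σ / d ^ 2 := sub_nonneg.2 ((div_le_one (by positivity)).2 hσd)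
    have e2 : ‖x - y‖ ^ 2 / d ^ 2 ≤ σ / d ^ 2 := by gcongr
    exact pow_le_pow_left₀ e1 (le_max_of_le_left (by linarith)) 2
  have hs0 : 0 ≤ ‖x - y‖ ^ 2 := sq_nonneg _
  refine le_trans ?_ (bmono_radial (F := fun s => bmonoH d s / bmonoM σ s) h5 ?_ h)
  · rw [neg_mul]
    generalize 2 / d ^ 2 * max 0 (1 - ‖x - y‖ ^ 2 / d ^ 2) = k at hk ⊢
    generalize bmonoH d (‖x - y‖ ^ 2) = H at hH hH' ⊢
    generalize bmonoM σ (‖x - y‖ ^ 2) = m at hm hs hm0 ⊢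
    generalize ‖x - y‖ ^ 2 = s at hs hs0 hH' h4 hm0 ⊢
    have e1 : H / m + (-k * m - H * m') / m ^ 2 * s = H * (m - m' * s) / m ^ 2 - k * (s / m) := by
      field_simp
      ring
    have e2 : k * (s / m) ≤ k := mul_le_of_le_one_right hk ((div_le_one hm).2 hs)
    have e3 : (if s < σ then (1 - σ / d ^ 2) ^ 2 / (σ + σ ^ 2) else 0) ≤
        H * (m - m' * s) / m ^ 2 := by
      split_ifs with h
      · rw [h4 h, ← hm0 h, zero_mul, sub_zero, sq m, mul_div_mul_right _ _ hm.ne']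
        exact div_le_div_of_nonneg_right (hH' h) hm.le
      · have e4 : m' * s ≤ s := mul_le_of_le_one_left hs0 h3
        exact div_nonneg (mul_nonneg hH (by linarith)) (sq_nonneg _)
    rw [e1]
    linarith
  · refine div_nonpos_of_nonpos_of_nonneg ?_ (sq_nonneg _)
    have e1 := mul_nonneg hk hm.le
    have e2 := mul_nonneg hH h2
    linarith

variable {M : Type} [MeasurableSpace M]

lemma Cfg.bmono_integrable (C : Cfg M) (y : E3) (d : ℝ) :
    Integrable (fun x => max 0 (1 - ‖C.φ x - y‖ ^ 2 / d ^ 2)) C.μ := by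
  have := C.fin
  have h1 : Continuous fun z : E3 => max 0 (1 - ‖z - y‖ ^ 2 / d ^ 2) := by fun_prop
  refine Integrable.of_bound (h1.measurable.comp C.meas).aestronglyMeasurable 1
    (Eventually.of_forall fun x => ?_)
  rw [norm_of_nonneg (le_max_left _ _)]
  refine max_le zero_le_one (sub_le_self _ (by positivity))

lemma Cfg.bmono_step (C : Cfg M) (y : E3) {d σ : ℝ} (hd : 0 < d) (hσ : 0 < σ) (hσd : σ ≤ d ^ 2)
    (hb : ∀ i t, d ≤ ‖C.g i t - y‖) :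
    (1 - σ / d ^ 2) ^ 2 / (σ + σ ^ 2) * C.μ.real {x | ‖C.φ x - y‖ ^ 2 < σ} ≤
      2 / d ^ 2 * ∫ x, max 0 (1 - ‖C.φ x - y‖ ^ 2 / d ^ 2) ∂C.μ := by
  have := C.fin
  have h1 : ContDiff ℝ 1 fun x : E3 => x - y := by fun_prop
  obtain ⟨h2, h3⟩ := C.dt (fun x => (bmonoH d (‖x - y‖ ^ 2) / bmonoM σ (‖x - y‖ ^ 2)) • (x - y))
    (fun _ => 0) (fun _ => (((bmonoF_cd d hσ).comp (h1.norm_sq ℝ)).smul h1).contDiffAt)
    fun _ => contDiffAt_const
  have h4 : ∀ i t, bmonoH d (‖C.g i t - y‖ ^ 2) = 0 := fun i t => by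
    have e1 : 1 ≤ ‖C.g i t - y‖ ^ 2 / d ^ 2 :=
      (one_le_div (by positivity)).2 (pow_le_pow_left₀ hd.le (hb i t) 2)
    rw [bmonoH, max_eq_right (sub_nonpos.2 e1), zero_pow two_ne_zero]
  simp only [h4, zero_div, zero_smul, inner_zero_left, zero_mul, add_zero,
    intervalIntegral.integral_zero, Finset.sum_const_zero] at h3
  have hS : MeasurableSet {x | ‖C.φ x - y‖ ^ 2 < σ} :=
    measurableSet_lt ((by fun_prop : Continuous fun z : E3 => ‖z - y‖ ^ 2).measurable.comp C.meas)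
      measurable_const
  have h5 := (integrable_const (μ := C.μ) ((1 - σ / d ^ 2) ^ 2 / (σ + σ ^ 2))).indicator hS
  have h6 := (C.bmono_integrable y d).const_mul (2 / d ^ 2)
  have h7 := integral_mono ((h5.sub h6).const_mul 2) h2 fun x => bmono_point hd hσ hσd (C.fr x)
  rw [h3, integral_const_mul] at h7
  have h8 := integral_sub h5 h6
  rw [integral_indicator_const _ hS, integral_const_mul, smul_eq_mul, mul_comm] at h8
  have h9 := h8.symm.trans_le (nonpos_of_mul_nonpos_right h7 two_pos)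
  linarith

/-- The monotonicity bound. -/
theorem Cfg.mono (C : Cfg M) (p : M) {d : ℝ} (hd : 0 < d) (hb : ∀ i t, d ≤ ‖C.g i t - C.φ p‖) :
    π * d ^ 2 / 2 ≤ ∫ x, max 0 (1 - ‖C.φ x - C.φ p‖ ^ 2 / d ^ 2) ∂C.μ := by
  have key : π ≤ 2 / d ^ 2 * ∫ x, max 0 (1 - ‖C.φ x - C.φ p‖ ^ 2 / d ^ 2) ∂C.μ := by
    refine le_of_forall_lt_imp_le_of_dense fun θ hθ => ?_
    have h1 : Tendsto (fun σ : ℝ => (1 - σ / d ^ 2) ^ 2 / (1 + σ) * θ) (𝓝[>] 0)
        (𝓝 ((1 - 0 / d ^ 2) ^ 2 / (1 + 0) * θ)) :=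
      (ContinuousAt.tendsto (by fun_prop (disch := norm_num))).mono_left nhdsWithin_le_nhds
    rw [zero_div, sub_zero, add_zero, one_pow, div_one, one_mul] at h1
    refine le_of_tendsto h1 ?_
    have h2 : ∀ i t, C.g i t ≠ C.φ p := fun i t h => by
      have := hb i t
      rw [h, sub_self, norm_zero] at this
      exact this.not_gt hd
    filter_upwards [C.dens p h2 θ hθ, Ioc_mem_nhdsGT (pow_pos hd 2)] with σ h3 h4
    refine le_trans ?_ (C.bmono_step _ hd h4.1 h4.2 hb)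
    have h5 := h4.1
    refine le_trans (le_of_eq ?_) (mul_le_mul_of_nonneg_left h3 (by positivity))
    field_simp
  rw [div_mul_eq_mul_div, le_div_iff₀ (by positivity)] at key
  linarith

end Pool.Agent.Lib.MP_14b623_gt
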