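import Pool.Agent.Lib.MP_14b623_gt.BDefs

/-! Normal form of a configuration, and the Fourier estimates for its curves. -/

namespace Pool.Agent.Lib.MP_14b623_gt

open Set MeasureTheory Filter Topology Function Real
open scoped InnerProductSpace Manifold ContDiff

variable {M : Type} [MeasurableSpace M]

/-- Exchange the two curves (`Fin.sum_univ_two`, `add_comm`). -/
theorem Cfg.exists_swap (C : Cfg M) : ∃ D : Cfg M, D.μ = C.μ ∧ D.l 0 = C.l 1 ∧ D.l 1 = C.l 0 := by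
  refine ⟨⟨C.φ, C.u, C.v, C.μ, fun i => C.g i.rev, fun i => C.g' i.rev, fun i => C.l i.rev, C.fin,
    C.meas, C.ball, C.fr, fun i => C.loop _, fun i => C.mem _, fun ζ α h1 h2 =>
    ⟨(C.dt ζ α h1 h2).1, ?_⟩, fun p h => C.dens p fun i t => ?_⟩, rfl, rfl, rfl⟩
  · rw [(C.dt ζ α h1 h2).2, Fin.sum_univ_two, Fin.sum_univ_two, add_comm]
    rfl
  · simpa using h i.rev t

lemma brot_fd (R : E3 ≃ₗᵢ[ℝ] E3) (ζ : E3 → E3) (x a b : E3) :
    ⟪fderiv ℝ (R.symm ∘ ζ ∘ R) x a, b⟫_ℝ = ⟪fderiv ℝ ζ (R x) (R a), R b⟫_ℝ := by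
  have h1 := R.symm.toContinuousLinearEquiv.comp_fderiv (f := ζ ∘ R) (x := x)
  have h2 := R.toContinuousLinearEquiv.comp_right_fderiv (f := ζ) (x := x)
  simp only [LinearIsometryEquiv.coe_toContinuousLinearEquiv] at h1 h2
  rw [h1, h2]
  exact R.symm.inner_map_eq_flip _ _

lemma brot_cd (R : E3 ≃ₗᵢ[ℝ] E3) {ζ : E3 → E3} {x : E3} (h : ContDiffAt ℝ 1 ζ (R x)) :
    ContDiffAt ℝ 1 (R.symm ∘ ζ ∘ R) x :=
  R.symm.contDiff.contDiffAt.comp x (h.comp x R.contDiff.contDiffAt)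

/-- Move everything by a linear isometry `R`: for `dt` apply `C.dt` to `R.symm ∘ ζ ∘ R` and
`R.symm ∘ α ∘ R`. -/
theorem Cfg.exists_map (C : Cfg M) (R : E3 ≃ₗᵢ[ℝ] E3) :
    ∃ D : Cfg M, D.μ = C.μ ∧ D.l = C.l ∧ ∀ i t, D.g i t = R (C.g i t) := by
  refine ⟨⟨fun p => R (C.φ p), fun p => R (C.u p), fun p => R (C.v p), C.μ,
    fun i t => R (C.g i t), fun i t => R (C.g' i t), C.l, C.fin,
    R.continuous.measurable.comp C.meas, fun p => (R.norm_map _).trans_le (C.ball p),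
    fun p => ⟨(R.norm_map _).trans (C.fr p).1, (R.norm_map _).trans (C.fr p).2.1,
      (R.inner_map_map _ _).trans (C.fr p).2.2⟩,
    fun i => ⟨fun t => R.toContinuousLinearEquiv.hasFDerivAt.comp_hasDerivAt t ((C.loop i).der t),
      R.continuous.comp (C.loop i).cont, fun t => congrArg R ((C.loop i).per t),
      fun t => (R.norm_map _).trans ((C.loop i).sph t),
      fun t => (R.norm_map _).trans ((C.loop i).speed t), (C.loop i).pos⟩,
    fun i t => (C.mem i t).imp fun p h => congrArg R h, fun ζ α h1 h2 => ?_,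
    fun p h => ?_⟩, rfl, rfl, fun _ _ => rfl⟩
  · have h := C.dt _ _ (fun p => brot_cd R (h1 p)) fun p => brot_cd R (h2 p)
    simp only [dd, brot_fd, comp_apply, R.symm.inner_map_eq_flip,
      LinearIsometryEquiv.symm_symm] at h
    exact h
  · simpa only [← map_sub, R.norm_map] using C.dens p fun i t e => h i t (congrArg R e)

lemma brot_rot (C : Cfg M) : ∃ D : Cfg M, D.μ = C.μ ∧ D.l = C.l ∧
    ∫ t in (0 : ℝ)..(2 * π), D.g 0 t 0 = 0 ∧ ∫ t in (0 : ℝ)..(2 * π), D.g 0 t 1 = 0 ∧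
    0 ≤ ∫ t in (0 : ℝ)..(2 * π), D.g 0 t 2 := by
  obtain ⟨e, he, hm⟩ := gcurve_dir (∫ t in (0 : ℝ)..(2 * π), C.g 0 t)
  obtain ⟨b, rfl⟩ := gcurve_basis he
  obtain ⟨D, h1, h2, h3⟩ := C.exists_map b.repr
  have hc : Continuous (C.g 0) :=
    continuous_iff_continuousAt.2 fun t => ((C.loop 0).der t).continuousAt
  have k : ∀ j, ∫ t in (0 : ℝ)..(2 * π), D.g 0 t j =
      ‖∫ t in (0 : ℝ)..(2 * π), C.g 0 t‖ * ⟪b j, b 2⟫_ℝ := fun j => by
    have h := (innerSL ℝ (b j)).intervalIntegral_comp_comm (μ := volume)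
      (hc.intervalIntegrable 0 (2 * π))
    simp only [innerSL_apply_apply] at h
    simp only [h3, b.repr_apply_apply]
    rw [h, ← real_inner_smul_right, ← hm]
  refine ⟨D, h1, h2, ?_, ?_, ?_⟩
  · rw [k, b.orthonormal.2 (by decide), mul_zero]
  · rw [k, b.orthonormal.2 (by decide), mul_zero]
  · rw [k]
    exact mul_nonneg (norm_nonneg _) real_inner_self_nonneg

/-- `gcurve_dir`, `gcurve_basis` for the mean of the shorter curve, `R = b.repr`. -/
theorem Cfg.normal_form (C : Cfg M) : ∃ D : Cfg M, D.μ = C.μ ∧ D.l 0 ≤ D.l 1 ∧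
    D.l 0 + D.l 1 = C.l 0 + C.l 1 ∧ (D.l 0 = C.l 0 ∨ D.l 0 = C.l 1) ∧
    ∫ t in (0 : ℝ)..(2 * π), D.g 0 t 0 = 0 ∧ ∫ t in (0 : ℝ)..(2 * π), D.g 0 t 1 = 0 ∧
    0 ≤ ∫ t in (0 : ℝ)..(2 * π), D.g 0 t 2 := by
  rcases le_total (C.l 0) (C.l 1) with h | h
  · obtain ⟨D, h1, h2, h3⟩ := brot_rot C
    exact ⟨D, h1, h2 ▸ h, h2 ▸ rfl, .inl (h2 ▸ rfl), h3⟩
  · obtain ⟨E, e1, e2, e3⟩ := C.exists_swap
    obtain ⟨D, h1, h2, h3⟩ := brot_rot E
    refine ⟨D, h1.trans e1, ?_, ?_, .inr ?_, h3⟩ <;> rw [h2]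
    · rwa [e2, e3]
    · rw [e2, e3, add_comm]
    · exact e2

/-- `C.dt` for `ζ = id`, `α = 0`. -/
theorem Cfg.area (C : Cfg M) : C.μ.real univ = π * (C.l 0 + C.l 1) := by
  have h := (C.dt id (fun _ => 0) (fun _ => contDiffAt_id) fun _ => contDiffAt_const).2
  have h1 : ∀ p, dd id (fun _ => 0) (C.φ p) (C.u p) (C.v p) = 2 := fun p => by
    simp [dd, (C.fr p).1, (C.fr p).2.1]
    norm_num
  have h2 : ∀ i t, ⟪id (C.g i t), C.g i t⟫_ℝ * C.l i + ⟪(0 : E3), C.g' i t⟫_ℝ = C.l i :=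
    fun i t => by simp [(C.loop i).sph t]
  simp only [h1, h2, integral_const, intervalIntegral.integral_const, Fin.sum_univ_two,
    smul_eq_mul] at h
  linarith

/-- `C.dt` for a constant `ζ`, `α = 0`. -/
theorem Cfg.balance (C : Cfg M) (j : Fin 3) :
    C.l 0 * (∫ t in (0 : ℝ)..(2 * π), C.g 0 t j) + C.l 1 * ∫ t in (0 : ℝ)..(2 * π), C.g 1 t j = 0 := by
  have h := (C.dt (fun _ => EuclideanSpace.single j 1) (fun _ => 0) (fun _ => contDiffAt_const)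
    fun _ => contDiffAt_const).2
  simp [dd, EuclideanSpace.inner_single_left] at h
  linarith

theorem brot_co {g g' : ℝ → E3} {l ε : ℝ} (h : Loop g g' l) (hε : ε ^ 2 = 1) :
    ∃ γ γ' : ℝ → V, (∀ σ, HasDerivAt γ (γ' σ) σ) ∧ Continuous γ' ∧ Periodic γ (2 * π) ∧
      (∀ σ, dot (γ σ) (γ σ) = 1) ∧ (∀ σ, dot (γ' σ) (γ' σ) = l ^ 2) ∧
      ∀ σ, γ σ 0 = g σ 0 ∧ γ σ 1 = g σ 1 ∧ γ σ 2 = ε * g σ 2 := by
  have e : ∀ x : E3, dot (fun i => ![1, 1, ε] i * x i) (fun i => ![1, 1, ε] i * x i) = ‖x‖ ^ 2 :=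
    fun x => by
      simp only [dot, EuclideanSpace.real_norm_sq_eq, Fin.sum_univ_three, Matrix.cons_val]
      linear_combination x 2 ^ 2 * hε
  have := h.cont
  exact ⟨fun σ i => ![1, 1, ε] i * g σ i, fun σ i => ![1, 1, ε] i * g' σ i,
    fun σ => hasDerivAt_pi.2 fun i => ((EuclideanSpace.proj i : E3 →L[ℝ] ℝ).hasFDerivAt.comp_hasDerivAt
      σ (h.der σ)).const_mul _, by fun_prop, fun σ => by simp only [h.per σ],
    fun σ => by rw [e, h.sph, one_pow], fun σ => by rw [e, h.speed], fun σ => by simp⟩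

theorem Loop.mean_ne {g g' : ℝ → E3} {l : ℝ} (h : Loop g g' l) (hl : l < 1)
    (h0 : ∫ t in (0 : ℝ)..(2 * π), g t 0 = 0) (h1 : ∫ t in (0 : ℝ)..(2 * π), g t 1 = 0) :
    ∫ t in (0 : ℝ)..(2 * π), g t 2 ≠ 0 := fun h2 => by
  obtain ⟨γ, γ', a1, a2, a3, a4, a5, a6⟩ := brot_co h (one_pow 2)
  have := gcurve_wirt0 γ γ' l a1 a2 a3 a4 a5 fun i => by
    fin_cases i <;> simp [av, a6, h0, h1, h2]
  nlinarith [h.pos]

/-- The Fourier estimates. -/
theorem Loop.fourier {g g' : ℝ → E3} {l c ε : ℝ} (h : Loop g g' l) (hε : ε = 1 ∨ ε = -1)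
    (hc : 0 < c) (h0 : ∫ t in (0 : ℝ)..(2 * π), g t 0 = 0)
    (h1 : ∫ t in (0 : ℝ)..(2 * π), g t 1 = 0)
    (h2 : l * ∫ t in (0 : ℝ)..(2 * π), ε * g t 2 = 2 * π * c) :
    c ≤ l ∧ (l ≤ 1 → 0 ≤ Df l c) ∧ (∀ t, Band l c (ε * g t 2)) ∧
    ∀ a b γ : ℝ, 0 ≤ γ → γ = 0 ∨ l ≤ 1 →
      l * ∫ t in (0 : ℝ)..(2 * π), (a - b * (ε * g t 2) + γ * g t 2 ^ 2) ≤
        2 * π * PF l c a b γ := by
  have e2 : ε ^ 2 = 1 := by rcases hε with rfl | rfl <;> norm_num
  have l0 := h.pos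
  have p0 := two_pi_pos
  have cg : Continuous g := continuous_iff_continuousAt.2 fun t => (h.der t).continuousAt
  obtain ⟨s, hs⟩ : ∃ s : ℝ → ℝ, s = fun t => ε * g t 2 := ⟨_, rfl⟩
  have cs : Continuous s := by rw [hs]; fun_prop
  have s2 : ∀ t, g t 2 ^ 2 = s t ^ 2 := fun t => by rw [hs, mul_pow, e2, one_mul]
  have m : ∫ t in (0 : ℝ)..(2 * π), s t = 2 * π * (c / l) := by
    rw [hs, ← mul_div_assoc, ← h2, mul_div_cancel_left₀ _ l0.ne']
  obtain ⟨G, G', a1, a2, a3, a4, a5, a6⟩ := brot_co h e2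
  have k := fun hl : l ≤ 1 => curve_fourier G G' l (c / l) a1 a2 a3 a4 a5 (by nlinarith)
    (div_pos hc l0) (by simp [av, a6, h0]) (by simp [av, a6, h1]) (by
      simp only [av, a6, ← hs, m, mul_div_cancel_left₀ _ p0.ne'])
  simp only [a6, av, s2, show ∀ t, ε * g t 2 = s t from fun t => by rw [hs]] at k ⊢
  refine ⟨?_, fun hl => (k hl).1, fun t hl => (k hl).2.2 t, fun a b γ hγ hl => ?_⟩
  · have := intervalIntegral.integral_mono_on p0.le (cs.intervalIntegrable (μ := volume) _ _)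
      (continuous_const (y := (1 : ℝ)).intervalIntegrable _ _) fun t _ => by
        have := EuclideanSpace.real_norm_sq_eq (g t)
        rw [h.sph, Fin.sum_univ_three, s2] at this
        nlinarith [sq_nonneg (g t 0), sq_nonneg (g t 1)]
    rw [m, intervalIntegral.integral_const, sub_zero, smul_eq_mul] at this
    exact (div_le_one l0).1 (le_of_mul_le_mul_left this p0)
  have e : ∀ t, a - b * s t + γ * s t ^ 2 =
      a - γ * (c / l) ^ 2 + (2 * γ * (c / l) - b) * s t + γ * (s t - c / l) ^ 2 := fun t => by ring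
  simp only [e]
  rw [intervalIntegral.integral_add (Continuous.intervalIntegrable (by fun_prop) _ _)
      (Continuous.intervalIntegrable (by fun_prop) _ _),
    intervalIntegral.integral_add (Continuous.intervalIntegrable (by fun_prop) _ _)
      (Continuous.intervalIntegrable (by fun_prop) _ _), intervalIntegral.integral_const,
    intervalIntegral.integral_const_mul, intervalIntegral.integral_const_mul, m]
  have b1 : γ * ∫ t in (0 : ℝ)..(2 * π), (s t - c / l) ^ 2 ≤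
      γ * (((c / l) ^ 2 + l ^ 2 - 1) / 3 * (2 * π)) := hl.elim (fun z => by simp [z]) fun hl =>
    mul_le_mul_of_nonneg_left ((div_le_iff₀ p0).1 (k hl).2.1) hγ
  refine (mul_le_mul_of_nonneg_left (add_le_add_right b1 _) l0.le).trans (le_of_eq ?_)
  simp only [PF, sub_zero, smul_eq_mul]
  field_simp
  ring

end Pool.Agent.Lib.MP_14b623_gt
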