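import Pool.Agent.Lib.MP_14b623_gt.BDefs

/-! Winding numbers about the vertical axis. -/

namespace Pool.Agent.Lib.MP_14b623_gt

open Set MeasureTheory Filter Topology Function Real
open scoped InnerProductSpace Manifold ContDiff

lemma Loop.bwind_der {g g' : ℝ → E3} {l : ℝ} (h : Loop g g' l) (i : Fin 3) (t : ℝ) :
    HasDerivAt (fun t => g t i) (g' t i) t :=
  (EuclideanSpace.proj i : E3 →L[ℝ] ℝ).hasFDerivAt.comp_hasDerivAt t (h.der t)

lemma Loop.bwind_cont {g g' : ℝ → E3} {l : ℝ} (h : Loop g g' l) (hr : ∀ t, 0 < rho (g t)) :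
    Continuous fun t => rot (g t) (g' t) / rho (g t) := by
  have := h.cont
  have : Continuous g := continuous_iff_continuousAt.2 fun t => (h.der t).continuousAt
  exact Continuous.div (by unfold rot; fun_prop) (by unfold rho; fun_prop) fun t => (hr t).ne'

/-- The angle: with `Θ t = ∫₀ᵗ rot / rho` and `r = √rho`, the functions
`(g₀ cos Θ + g₁ sin Θ) / r` and `(g₁ cos Θ - g₀ sin Θ) / r` have derivative zero. -/
theorem Loop.angle {g g' : ℝ → E3} {l : ℝ} (h : Loop g g' l) (hr : ∀ t, 0 < rho (g t)) :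
    ∃ θ : ℝ → ℝ, (∀ t, HasDerivAt θ (rot (g t) (g' t) / rho (g t)) t) ∧
      ∀ t, g t 0 = √(rho (g t)) * cos (θ t) ∧ g t 1 = √(rho (g t)) * sin (θ t) := by
  have hc := h.bwind_cont hr
  have dΘ := fun t => (hc.deriv_integral _ 0 t ▸ ((intervalIntegral.differentiable_integral_of_continuous
    hc (a := 0)) t).hasDerivAt : HasDerivAt (fun u => ∫ x in (0 : ℝ)..u, rot (g x) (g' x) / rho (g x)) _ t)
  set Θ := fun u => ∫ x in (0 : ℝ)..u, rot (g x) (g' x) / rho (g x)
  have d := h.bwind_der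
  have dr := fun t => (((d 0 t).fun_pow 2).fun_add ((d 1 t).fun_pow 2)).sqrt (hr t).ne'
  have r0 := fun t => (sqrt_pos.2 (hr t)).ne'
  have r2 := fun t => sq_sqrt (hr t).le
  have key : ∀ {F : ℝ → ℝ}, (∀ t, HasDerivAt F 0 t) → ∀ t, F t = F 0 := fun h t =>
    is_const_of_deriv_eq_zero (fun t => (h t).differentiableAt) (fun t => (h t).deriv) t 0
  have hA := key (F := fun t => (g t 0 * cos (Θ t) + g t 1 * sin (Θ t)) / √(rho (g t))) fun t =>
    ((((d 0 t).fun_mul (dΘ t).cos).fun_add ((d 1 t).fun_mul (dΘ t).sin)).fun_div (dr t)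
      (r0 t)).congr_deriv (by
      have := r0 t; have e := r2 t
      simp only [rho, rot] at *
      generalize √(g t 0 ^ 2 + g t 1 ^ 2) = r at *
      rw [← e]
      field_simp
      linear_combination (2 * (g' t 0 * cos (Θ t) + g' t 1 * sin (Θ t))) * e)
  have hB := key (F := fun t => (g t 1 * cos (Θ t) - g t 0 * sin (Θ t)) / √(rho (g t))) fun t =>
    ((((d 1 t).fun_mul (dΘ t).cos).fun_sub ((d 0 t).fun_mul (dΘ t).sin)).fun_div (dr t)
      (r0 t)).congr_deriv (by
      have := r0 t; have e := r2 t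
      simp only [rho, rot] at *
      generalize √(g t 0 ^ 2 + g t 1 ^ 2) = r at *
      rw [← e]
      field_simp
      linear_combination (2 * (g' t 1 * cos (Θ t) - g' t 0 * sin (Θ t))) * e)
  generalize hx : (g 0 0 * cos (Θ 0) + g 0 1 * sin (Θ 0)) / √(rho (g 0)) = A at hA
  generalize hy : (g 0 1 * cos (Θ 0) - g 0 0 * sin (Θ 0)) / √(rho (g 0)) = B at hB
  have n : ‖(⟨A, B⟩ : ℂ)‖ = 1 := by
    rw [← sq_eq_sq₀ (norm_nonneg _) zero_le_one, Complex.sq_norm, Complex.normSq_mk, ← hx, ← hy]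
    have := r0 0
    field_simp
    rw [r2, rho]
    linear_combination (g 0 0 ^ 2 + g 0 1 ^ 2) * sin_sq_add_cos_sq (Θ 0)
  have c := Complex.norm_mul_cos_arg ⟨A, B⟩
  have s := Complex.norm_mul_sin_arg ⟨A, B⟩
  rw [n, one_mul] at c s
  refine ⟨fun t => Θ t + Complex.arg ⟨A, B⟩, fun t => (dΘ t).add_const _, fun t => ?_⟩
  have a := (div_eq_iff (r0 t)).1 (hA t)
  have b := (div_eq_iff (r0 t)).1 (hB t)
  simp only [cos_add, sin_add, c, s]
  exact ⟨by linear_combination cos (Θ t) * a - sin (Θ t) * b - g t 0 * sin_sq_add_cos_sq (Θ t),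
    by linear_combination sin (Θ t) * a + cos (Θ t) * b - g t 1 * sin_sq_add_cos_sq (Θ t)⟩

theorem Loop.wind_int {g g' : ℝ → E3} {l : ℝ} (h : Loop g g' l) (hr : ∀ t, 0 < rho (g t)) :
    ∃ k : ℤ, ∫ t in (0 : ℝ)..(2 * π), rot (g t) (g' t) / rho (g t) = 2 * π * k := by
  obtain ⟨θ, d, e⟩ := h.angle hr
  rw [intervalIntegral.integral_eq_sub_of_hasDerivAt (fun t _ => d t)
    ((h.bwind_cont hr).intervalIntegrable _ _)]
  have p : g (2 * π) = g 0 := by simpa using h.per 0
  obtain ⟨a, b⟩ := e (2 * π)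
  rw [p] at a b
  have r0 := (sqrt_pos.2 (hr 0)).ne'
  obtain ⟨k, hk⟩ := (cos_eq_one_iff (θ (2 * π) - θ 0)).1 (by
    rw [cos_sub, mul_left_cancel₀ r0 (a.symm.trans (e 0).1), mul_left_cancel₀ r0 (b.symm.trans (e 0).2)]
    linear_combination sin_sq_add_cos_sq (θ 0))
  exact ⟨k, by rw [← hk, mul_comm]⟩

/-- The total variation of a periodic `C¹` function is at least twice its oscillation. -/
lemma osc_le {G G' : ℝ → ℝ} (hd : ∀ t, HasDerivAt G (G' t) t) (hc : Continuous G')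
    (hp : G (2 * π) = G 0) {a b : ℝ} (ha : a ∈ Icc 0 (2 * π)) (hb : b ∈ Icc 0 (2 * π)) :
    2 * (G b - G a) ≤ ∫ t in (0 : ℝ)..(2 * π), |G' t| := by
  have k : ∀ {x y}, x ≤ y → |G y - G x| ≤ ∫ t in x..y, |G' t| := fun h => by
    rw [← intervalIntegral.integral_eq_sub_of_hasDerivAt (fun t _ => hd t) (hc.intervalIntegrable _ _)]
    exact intervalIntegral.abs_integral_le_integral_abs h
  have s := fun x y z => intervalIntegral.integral_add_adjacent_intervals
    (hc.abs.intervalIntegrable (μ := volume) x y) (hc.abs.intervalIntegrable y z)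
  rcases le_total a b with h | h
  · linarith [abs_le.1 (k ha.1), abs_le.1 (k h), abs_le.1 (k hb.2), s 0 a b, s 0 b (2 * π)]
  · linarith [abs_le.1 (k hb.1), abs_le.1 (k h), abs_le.1 (k ha.2), s 0 b a, s 0 a (2 * π)]

lemma bwind_num {C r s : ℝ} (h1 : -1 ≤ C) (h2 : C ≤ 1) (hr : 0 < r) (e : r ^ 2 + s ^ 2 = 1)
    (hs : s ∈ Icc (22 / 100 : ℝ) (9025 / 10000)) :
    1 + C ≤ r * (137 / 100 + 132 / 10 * (s - 45 / 100) ^ 2) + 7 / 5 * (r ^ 2 * C) := by
  obtain ⟨s1, s2⟩ := hs
  have a : 115 / 100 - 8 / 10 * s ≤ r := by nlinarith [mul_nonneg (sub_nonneg.2 s1) (sub_nonneg.2 s2)]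
  have b : r ≤ 976 / 1000 := by nlinarith
  have p : 2 - 7 / 5 * r ^ 2 ≤ r * (137 / 100 + 132 / 10 * (s - 45 / 100) ^ 2) := by
    have := mul_le_mul_of_nonneg_right a (by positivity : 0 ≤ 137 / 100 + 132 / 10 * (s - 45 / 100) ^ 2)
    nlinarith [mul_nonneg (sub_nonneg.2 s2) (sq_nonneg (s - 655 / 1000)), sq_nonneg (s - 655 / 1000)]
  have q : 7 / 5 * r ^ 2 ≤ r * (137 / 100 + 132 / 10 * (s - 45 / 100) ^ 2) := by
    nlinarith [mul_nonneg hr.le (sq_nonneg (s - 45 / 100))]
  nlinarith [mul_le_mul_of_nonneg_left p (by linarith : 0 ≤ 1 + C),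
    mul_le_mul_of_nonneg_left q (sub_nonneg.2 h2)]

/-- Suppose the integral vanishes, so `θ (2π) = θ 0`. Let `m ± a` be the maximum and minimum of
`θ` on `[0, 2π]`. `∫ r cos (θ - m) = 0` by `h0, h1`, so `a ≥ π / 2`. For
`G = θ - m + sin (θ - m)`: `2 π + 4 ≤ 4 a + 4 sin a ≤ ∫ |G'|` (`osc_le`, `x + sin x` is monotone),
`|G'| ≤ (1 + cos (θ - m)) l / r` as `|rot| ≤ r l`. Finally
`(1 + C) / r - (7 / 5) r C ≤ max (2 / r - (7 / 5) r) ((7 / 5) r) ≤ 1.37 + 13.2 (s - 0.45)²` for
`|C| ≤ 1`, `r² + s² = 1`, `s ∈ [0.22, 0.9025]`. -/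
theorem Loop.wind_ne {g g' : ℝ → E3} {l : ℝ} (h : Loop g g' l)
    (h0 : ∫ t in (0 : ℝ)..(2 * π), g t 0 = 0) (h1 : ∫ t in (0 : ℝ)..(2 * π), g t 1 = 0)
    (hb : ∀ t, g t 2 ∈ Icc (22 / 100 : ℝ) (9025 / 10000))
    (hv : l * ∫ t in (0 : ℝ)..(2 * π), (137 / 100 + 132 / 10 * (g t 2 - 45 / 100) ^ 2) <
      2 * π + 4) :
    ∫ t in (0 : ℝ)..(2 * π), rot (g t) (g' t) / rho (g t) ≠ 0 := by
  intro hz
  have sp : ∀ t, rho (g t) + g t 2 ^ 2 = 1 := fun t => by
    have := EuclideanSpace.real_norm_sq_eq (g t)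
    rw [h.sph, Fin.sum_univ_three] at this
    rw [rho]; linarith
  have hr : ∀ t, 0 < rho (g t) := fun t => by nlinarith [sp t, (hb t).1, (hb t).2]
  obtain ⟨θ, d, e⟩ := h.angle hr
  have hc := h.bwind_cont hr
  rw [intervalIntegral.integral_eq_sub_of_hasDerivAt (fun t _ => d t) (hc.intervalIntegrable _ _),
    sub_eq_zero] at hz
  have cθ : Continuous θ := continuous_iff_continuousAt.2 fun t => (d t).continuousAt
  have cg : ∀ i, Continuous fun t => g t i := fun i =>
    continuous_iff_continuousAt.2 fun t => (h.bwind_der i t).continuousAt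
  have ne : (Icc 0 (2 * π)).Nonempty := nonempty_Icc.2 two_pi_pos.le
  obtain ⟨a, ha, mn⟩ := isCompact_Icc.exists_isMinOn ne cθ.continuousOn
  obtain ⟨b, hb', mx⟩ := isCompact_Icc.exists_isMaxOn ne cθ.continuousOn
  obtain ⟨m, hm⟩ : ∃ m, m = (θ b + θ a) / 2 := ⟨_, rfl⟩
  have q : ∀ t, cos m * g t 0 + sin m * g t 1 = √(rho (g t)) * cos (θ t - m) := fun t => by
    rw [cos_sub]; linear_combination cos m * (e t).1 + sin m * (e t).2
  have c1 : Continuous fun t => cos m * g t 0 + sin m * g t 1 :=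
    ((cg 0).const_mul _).add ((cg 1).const_mul _)
  have c2 : Continuous fun t => l * (137 / 100 + 132 / 10 * (g t 2 - 45 / 100) ^ 2) :=
    (continuous_const.add ((((cg 2).sub continuous_const).pow 2).const_mul _)).const_mul _
  have z : ∫ t in (0 : ℝ)..(2 * π), (cos m * g t 0 + sin m * g t 1) = 0 := by
    rw [intervalIntegral.integral_add (((cg 0).const_mul _).intervalIntegrable _ _)
      (((cg 1).const_mul _).intervalIntegrable _ _), intervalIntegral.integral_const_mul,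
      intervalIntegral.integral_const_mul, h0, h1]
    simp
  have big : π / 2 ≤ θ b - m := by
    by_contra c
    refine (intervalIntegral.intervalIntegral_pos_of_pos_on (c1.intervalIntegrable _ _)
      (fun t ht => ?_) two_pi_pos).ne' z
    have m1 : θ a ≤ θ t := mn (Ioo_subset_Icc_self ht)
    have m2 : θ t ≤ θ b := mx (Ioo_subset_Icc_self ht)
    rw [q]
    exact mul_pos (sqrt_pos.2 (hr t)) (cos_pos_of_mem_Ioo ⟨by linarith, by linarith⟩)
  have cG := hc.add ((continuous_cos.comp (cθ.sub (continuous_const (y := m)))).mul hc)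
  have o := osc_le (G := fun t => θ t + sin (θ t - m)) (fun t => (d t).fun_add ((d t).sub_const m).sin)
    cG (by simp only [hz]) ha hb'
  have w := (abs_le.1 (abs_sin_sub_sin_le (θ b - m) (π / 2))).1
  rw [sin_pi_div_two, abs_of_nonneg (sub_nonneg.2 big)] at w
  rw [show θ a - m = -(θ b - m) by linarith, sin_neg] at o
  have f := intervalIntegral.integral_mono_on two_pi_pos.le (μ := volume)
    (f := fun t => |rot (g t) (g' t) / rho (g t) + cos (θ t - m) * (rot (g t) (g' t) / rho (g t))|)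
    (g := fun t => l * (137 / 100 + 132 / 10 * (g t 2 - 45 / 100) ^ 2) +
      l * (7 / 5) * (cos m * g t 0 + sin m * g t 1))
    (cG.abs.intervalIntegrable _ _) ((c2.add (c1.const_mul _)).intervalIntegrable _ _)
    fun t _ => by
      have r0 := sqrt_pos.2 (hr t)
      have r2 := sq_sqrt (hr t).le
      have n := EuclideanSpace.real_norm_sq_eq (g' t)
      rw [h.speed, Fin.sum_univ_three] at n
      have u : |rot (g t) (g' t)| ≤ √(rho (g t)) * l :=
        abs_le_of_sq_le_sq (by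
          rw [mul_pow, r2, n, rot, rho]
          nlinarith [sq_nonneg (g t 0 * g' t 0 + g t 1 * g' t 1), sq_nonneg (g t 0 * g' t 2),
            sq_nonneg (g t 1 * g' t 2)]) (mul_pos r0 h.pos).le
      have v := bwind_num (neg_one_le_cos (θ t - m)) (cos_le_one _) r0 (by rw [r2, sp]) (hb t)
      rw [q, ← one_add_mul, abs_mul, abs_div, abs_of_pos (hr t),
        abs_of_nonneg (by linarith [neg_one_le_cos (θ t - m)]), ← mul_div_assoc, div_le_iff₀ (hr t)]
      generalize √(rho (g t)) = r at *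
      rw [← r2]
      nlinarith [mul_le_mul_of_nonneg_left u (by linarith [neg_one_le_cos (θ t - m)] : 0 ≤ 1 + cos (θ t - m)),
        mul_le_mul_of_nonneg_left v (mul_pos r0 h.pos).le]
  rw [intervalIntegral.integral_add (c2.intervalIntegrable _ _) ((c1.const_mul _).intervalIntegrable _ _),
    intervalIntegral.integral_const_mul, intervalIntegral.integral_const_mul, z] at f
  linarith

end Pool.Agent.Lib.MP_14b623_gt
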