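import Pool.Agent.Lib.MP_14b623_gt.BCover
import Pool.Agent.Lib.MP_14b623_gt.BMono
import Pool.Agent.Lib.MP_14b623_gt.BWind
import Pool.Agent.Lib.MP_14b623_gt.BRot

/-! From the certificates to the area bound. -/

namespace Pool.Agent.Lib.MP_14b623_gt

open Set MeasureTheory Filter Topology Function Real
open scoped InnerProductSpace Manifold ContDiff

/-- On the near range the bands lie in `[0.22, 0.9025]`: `w = c / l`, `D = w² + l² - 1 ∈ [0, 0.055]`;
upper side `w ≤ 0.6`; use `√(3 D / 2) ≤ 3 D / (4 k) + k / 2` with `k = 7 / 25`. -/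
lemma band_near {l c s : ℝ} (h1 : 81 / 100 ≤ l) (h2 : l ≤ 85712 / 100000) (hc : 0 < c)
    (hc' : c ≤ 485 / 1000) (hD : 0 ≤ Df l c) (hs : Band l c s) :
    s ∈ Icc (22 / 100 : ℝ) (9025 / 10000) := by
  have l0 : 0 < l := by linarith
  have hb := abs_le.1 (hs (by linarith))
  have e : c / l * l = c := div_mul_cancel₀ c l0.ne'
  have w0 : 0 < c / l := div_pos hc l0
  have eD : Df l c = (c / l) ^ 2 + l ^ 2 - 1 := rfl
  have eq : Df l c / (2 * (c / l)) * (2 * (c / l)) = Df l c := div_mul_cancel₀ _ (by positivity)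
  have q0 : 0 ≤ Df l c / (2 * (c / l)) := by positivity
  have r1 : √(3 * Df l c / 2) ≤ 75 / 28 * Df l c + 14 / 100 := by
    nlinarith [sq_sqrt (show 0 ≤ 3 * Df l c / 2 by positivity),
      sq_nonneg (√(3 * Df l c / 2) - 7 / 25)]
  generalize Df l c / (2 * (c / l)) = q at *
  generalize √(3 * Df l c / 2) = r at *
  generalize Df l c = D at *
  generalize c / l = w at *
  clear hs
  have l2 : l ^ 2 ≤ 7346547 / 10000000 := by nlinarith only [h2, l0]
  have w1 : 515 / 1000 ≤ w := le_of_sq_le_sq (by linarith) w0.le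
  have w2 : w ≤ 6 / 10 := by nlinarith only [e, h1, hc', w0]
  have q2 := mul_le_mul_of_nonneg_left w1 q0
  rcases le_total w (566 / 1000) with h | h
  · have d0 := mul_nonneg (sub_nonneg.2 w1) (sub_nonneg.2 h)
    have q1 : q ≤ 487 / 10000 := le_of_mul_le_mul_right (by linarith) w0
    constructor <;> linarith [hb.1, hb.2]
  · have l3 : l ≤ 1423 / 1000 - w := le_of_mul_le_mul_right
      (by linarith [mul_nonneg (sub_nonneg.2 w2) (sub_nonneg.2 h)]) w0
    have l4 := pow_le_pow_left₀ l0.le l3 2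
    have q3 := mul_le_mul_of_nonneg_left h q0
    constructor <;> linarith [hb.1, hb.2, mul_nonneg (sub_nonneg.2 w2) (sub_nonneg.2 h)]

/-- The angle form about the vertical axis is closed. -/
lemma bmain_form : ∃ α : E3 → E3, (∀ x, 0 < rho x → ContDiffAt ℝ 1 α x ∧
    ∀ u v, dd (fun _ => 0) α x u v = 0) ∧ ∀ x T, ⟪α x, T⟫_ℝ = rot x T / rho x := by
  let P : Fin 3 → E3 →L[ℝ] ℝ := fun i => EuclideanSpace.proj i
  let J : E3 →L[ℝ] E3 := (P 0).smulRight (EuclideanSpace.single 1 1) -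
    (P 1).smulRight (EuclideanSpace.single 0 1)
  have hJ : ∀ x T, ⟪J x, T⟫_ℝ = rot x T := fun x T => by
    simp [J, P, rot, inner_sub_left, real_inner_smul_left, EuclideanSpace.inner_single_left]
  refine ⟨fun x => (rho x)⁻¹ • J x, fun x hx => ⟨?_, fun u v => ?_⟩, fun x T => by
    rw [real_inner_smul_left, hJ, div_eq_inv_mul]⟩
  · exact ((((P 0).contDiff.pow 2).add ((P 1).contDiff.pow 2)).contDiffAt.inv hx.ne').smul
      J.contDiff.contDiffAt
  · have h1 : HasFDerivAt rho _ x := ((P 0).hasFDerivAt.pow 2).add ((P 1).hasFDerivAt.pow 2)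
    have h2 : HasFDerivAt (fun x => (rho x)⁻¹ • J x) _ x :=
      ((hasDerivAt_inv hx.ne').comp_hasFDerivAt x h1).smul J.hasFDerivAt
    simp only [dd, h2.fderiv]
    simp [inner_add_left, real_inner_smul_left, hJ, P]
    field_simp
    simp only [rot, rho]
    ring

/-- The boundary inequality integrated along one curve. -/
lemma bmain_curve {g g' : ℝ → E3} {l q ε : ℝ} (h : Loop g g' l) (hε : ε = 1 ∨ ε = -1)
    (hr : ∀ t, 0 < rho (g t)) {ζ α : E3 → E3} (hζ : ∀ t, ContinuousAt ζ (g t))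
    (hα : ∀ t, ContinuousAt α (g t)) {f : ℝ → ℝ} (hf : Continuous f)
    (H : ∀ t T, ‖T‖ = 1 → ⟪ζ (g t), g t⟫_ℝ + ⟪α (g t), T⟫_ℝ - q * (rot (g t) T / rho (g t)) ≤ f t) :
    ∫ t in (0 : ℝ)..(2 * π), (⟪ζ (g t), g t⟫_ℝ * l + ⟪ε • α (g t), g' t⟫_ℝ) ≤
      l * (∫ t in (0 : ℝ)..(2 * π), f t) +
        q * ε * ∫ t in (0 : ℝ)..(2 * π), rot (g t) (g' t) / rho (g t) := by
  have c0 : Continuous g := continuous_iff_continuousAt.2 fun t => (h.der t).continuousAt
  have c1 : Continuous fun t => ζ (g t) :=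
    continuous_iff_continuousAt.2 fun t => (hζ t).comp c0.continuousAt
  have c2 : Continuous fun t => α (g t) :=
    continuous_iff_continuousAt.2 fun t => (hα t).comp c0.continuousAt
  have c3 := h.cont
  have c4 : Continuous fun t => q * ε * (rot (g t) (g' t) / rho (g t)) :=
    continuous_const.mul (Continuous.div (by unfold rot; fun_prop) (by unfold rho; fun_prop)
      fun t => (hr t).ne')
  have c5 : Continuous fun t => l * f t := by fun_prop
  rw [← intervalIntegral.integral_const_mul, ← intervalIntegral.integral_const_mul,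
    ← intervalIntegral.integral_add (c5.intervalIntegrable _ _) (c4.intervalIntegrable _ _)]
  refine intervalIntegral.integral_mono_on two_pi_pos.le (Continuous.intervalIntegrable
    (((c1.inner c0).mul continuous_const).add ((c2.const_smul ε).inner c3)) _ _) ((c5.add c4).intervalIntegrable _ _) fun t _ => ?_
  have h1 := mul_le_mul_of_nonneg_left (H t ((ε / l) • g' t) (by
    rw [norm_smul, h.speed, norm_div, Real.norm_of_nonneg h.pos.le, div_mul_cancel₀ _ h.pos.ne']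
    rcases hε with rfl | rfl <;> simp)) h.pos.le
  have h2 : rot (g t) ((ε / l) • g' t) = ε / l * rot (g t) (g' t) := by
    simp only [rot, PiLp.smul_apply, smul_eq_mul]
    ring
  rw [real_inner_smul_right, h2] at h1
  rw [real_inner_smul_left]
  refine le_of_le_of_eq (le_of_eq_of_le ?_ (add_le_add_left h1 _)) rfl
  have := h.pos.ne'
  field_simp
  ring

lemma bmain_pf {l c : ℝ} (h1 : 81 / 100 ≤ l) (h2 : l ≤ 83356 / 100000) (hc : 0 < c)
    (hc' : c ≤ 485 / 1000) (hD : 0 ≤ Df l c) :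
    PF l c (4043 / 1000) (1188 / 100) (132 / 10) ≤ 8 / 5 := by
  obtain ⟨w, rfl⟩ : ∃ w, c = w * l := ⟨c / l, (div_mul_cancel₀ _ (by linarith)).symm⟩
  have h0 : l ≠ 0 := by linarith
  rw [Df, mul_div_cancel_right₀ _ h0] at hD
  have h3 : w ≤ 3 / 5 := by nlinarith
  have h4 : 0 < w := pos_of_mul_pos_left hc (by linarith)
  have h5 : 55 / 100 ≤ w := by nlinarith
  have h6 : PF l (w * l) (4043 / 1000) (1188 / 100) (132 / 10) =
      l * (137 / 100 + 132 / 10 * ((w - 45 / 100) ^ 2 + (w ^ 2 + l ^ 2 - 1) / 3)) := by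
    rw [PF]
    field_simp
    ring
  have h7 : (w - 45 / 100) ^ 2 + (w ^ 2 + l ^ 2 - 1) / 3 ≤ 41 / 1000 := by nlinarith
  rw [h6]
  nlinarith

section

variable {M : Type} [MeasurableSpace M] (C : Cfg M) {c : ℝ} (hc : 0 < c)
  (h0 : ∀ i, ∫ t in (0 : ℝ)..(2 * π), C.g i t 0 = 0)
  (h1 : ∀ i, ∫ t in (0 : ℝ)..(2 * π), C.g i t 1 = 0)
  (h2 : C.l 0 * ∫ t in (0 : ℝ)..(2 * π), C.g 0 t 2 = 2 * π * c)
  (h3 : C.l 1 * ∫ t in (0 : ℝ)..(2 * π), -C.g 1 t 2 = 2 * π * c)
include hc h0 h1 h2 h3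

/-- `C.dt` with `α = 0`, `integral_mono`, `Loop.fourier` for both curves. -/
theorem Cfg.pure {w : E3 → ℝ} (hw : Continuous w) {B : ℝ} (hl : C.l 0 ≤ 1)
    (h : Pure w B (C.l 0) (C.l 1) c) : ∫ p, w (C.φ p) ∂C.μ < 2 * π * B := by
  obtain ⟨ζ, a₀, b₀, g₀, a₁, b₁, g₁, z1, z2, z3, z4, z5, z6, z7, z8⟩ := h
  obtain ⟨d1, d2⟩ := C.dt ζ (fun _ => 0) (fun _ => z1.contDiffAt) fun _ => contDiffAt_const
  obtain ⟨-, -, f1, f2⟩ := (C.loop 0).fourier (Or.inl rfl) hc (h0 0) (h1 0)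
    (by simpa only [one_mul] using h2)
  obtain ⟨-, -, f3, f4⟩ := (C.loop 1).fourier (Or.inr rfl) hc (h0 1) (h1 1)
    (by simpa only [neg_one_mul] using h3)
  have := C.fin
  obtain ⟨K, hK⟩ := (isCompact_closedBall (0 : E3) 1).exists_bound_of_continuousOn hw.continuousOn
  have i1 : Integrable (fun p => w (C.φ p)) C.μ := Integrable.of_bound
    (hw.measurable.comp C.meas).aestronglyMeasurable K
    (Eventually.of_forall fun p => hK _ (mem_closedBall_zero_iff.2 (C.ball p)))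
  have key : ∀ (i : Fin 2) (a b γ ε : ℝ), (∀ t, ⟪ζ (C.g i t), C.g i t⟫_ℝ ≤
      a - b * (ε * C.g i t 2) + γ * C.g i t 2 ^ 2) →
      ∫ t in (0 : ℝ)..(2 * π), (⟪ζ (C.g i t), C.g i t⟫_ℝ * C.l i + ⟪(0 : E3), C.g' i t⟫_ℝ) ≤
        C.l i * ∫ t in (0 : ℝ)..(2 * π), (a - b * (ε * C.g i t 2) + γ * C.g i t 2 ^ 2) :=
    fun i a b γ ε hb => by
    have c1 : Continuous (C.g i) := continuous_iff_continuousAt.2 fun t =>
      ((C.loop i).der t).continuousAt
    have c2 := z1.continuous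
    simp only [inner_zero_left, add_zero, intervalIntegral.integral_mul_const, mul_comm (C.l i)]
    exact mul_le_mul_of_nonneg_right (intervalIntegral.integral_mono_on two_pi_pos.le
      (Continuous.intervalIntegrable (by fun_prop) _ _)
      (Continuous.intervalIntegrable (by fun_prop) _ _) fun t _ => hb t) (C.loop i).pos.le
  have k0 := (key 0 a₀ b₀ g₀ 1 fun t => by
    simpa only [one_mul] using z3 _ ((C.loop 0).sph t) (by simpa only [one_mul] using f1 t)).trans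
    (f2 a₀ b₀ g₀ z5 (Or.inr hl))
  have k1 := (key 1 a₁ b₁ g₁ (-1) fun t => by
    simpa only [neg_one_mul, mul_neg, sub_neg_eq_add] using z4 _ ((C.loop 1).sph t)
      (by simpa only [neg_one_mul] using f3 t)).trans (f4 a₁ b₁ g₁ z6 z7)
  refine (integral_mono i1 d1 fun p => ?_).trans_lt ?_
  · simpa [dd] using z2 _ (C.ball p) _ _ (C.fr p).1 (C.fr p).2.1 (C.fr p).2.2
  · rw [d2, Fin.sum_univ_two]
    nlinarith [pi_pos]

/-- The surface avoids the tube: the winding numbers of the curves are opposite and nonzero. -/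
theorem Cfg.axis (hA : Adm (C.l 0) (C.l 1) c) (hl : 81 / 100 ≤ C.l 0) (hc' : c ≤ 485 / 1000)
    (ht : ∀ x, (9 / 100) ^ 2 ≤ rho (C.φ x)) {ζ α : E3 → E3} {p a b g : ℝ}
    (a1 : ∀ x : E3, 0 < rho x → ContDiffAt ℝ 1 ζ x ∧ ContDiffAt ℝ 1 α x)
    (a2 : ∀ x : E3, ‖x‖ ≤ 1 → (9 / 100) ^ 2 ≤ rho x → ∀ u v : E3, ON u v → 0 ≤ dd ζ α x u v)
    (a3 : ∀ x T : E3, ‖x‖ = 1 → x 2 ∈ Icc (22 / 100 : ℝ) (9025 / 10000) → ‖T‖ = 1 →
      ⟪ζ x, x⟫_ℝ + ⟪α x, T⟫_ℝ - p * (rot x T / rho x) ≤ a - b * x 2 + g * x 2 ^ 2)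
    (a4 : ∀ x T : E3, ‖x‖ = 1 → -x 2 ∈ Icc (22 / 100 : ℝ) (9025 / 10000) → ‖T‖ = 1 →
      ⟪ζ x, x⟫_ℝ + ⟪α x, T⟫_ℝ + p * (rot x T / rho x) ≤ a + b * x 2 + g * x 2 ^ 2)
    (hp : 0 ≤ p) (hg : 0 ≤ g) : 2 * p ≤ PF (C.l 0) c a b g + PF (C.l 1) c a b g := by
  have hρ : ∀ x, 0 < rho (C.φ x) := fun x => lt_of_lt_of_le (by norm_num) (ht x)
  have hr : ∀ i t, 0 < rho (C.g i t) := fun i t => (C.mem i t).elim fun x e => e ▸ hρ x
  have hc0 : ∀ i, Continuous (C.g i) := fun i =>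
    continuous_iff_continuousAt.2 fun t => ((C.loop i).der t).continuousAt
  have l0 := hA.le
  have l1 := hA.sum
  obtain ⟨-, -, B0, F0⟩ := (C.loop 0).fourier (.inl rfl) hc (h0 0) (h1 0) (by simpa using h2)
  obtain ⟨-, -, B1, F1⟩ := (C.loop 1).fourier (.inr rfl) hc (h0 1) (h1 1) (by simpa using h3)
  simp only [one_mul, neg_mul, mul_neg, sub_neg_eq_add] at B0 B1 F0 F1
  have b0 := fun t => band_near hl (by linarith) hc hc' hA.d0 (B0 t)
  have b1 := fun t => band_near (hl.trans l0) (by linarith) hc hc' (hA.d1 (by linarith)) (B1 t)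
  obtain ⟨β, w1, w2⟩ := bmain_form
  have e1 := (C.dt (fun _ => 0) β (fun _ => contDiffAt_const) fun x => (w1 _ (hρ x)).1).2
  simp only [(w1 _ (hρ _)).2, w2, integral_zero, inner_zero_left, zero_mul, zero_add,
    Fin.sum_univ_two] at e1
  obtain ⟨k, hk⟩ := (C.loop 0).wind_int (hr 0)
  have hk0 := (C.loop 0).wind_ne (h0 0) (h1 0) b0 (by
    have f1 := F0 (4043 / 1000) (1188 / 100) (132 / 10) (by norm_num) (.inr (by linarith))
    have f2 := bmain_pf hl (by linarith) hc hc' hA.d0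
    rw [intervalIntegral.integral_congr (g := fun t => 4043 / 1000 - 1188 / 100 * C.g 0 t 2 +
      132 / 10 * C.g 0 t 2 ^ 2) fun t _ => by ring]
    nlinarith [pi_pos, pi_lt_d2])
  obtain ⟨ε, hε, hεk⟩ : ∃ ε : ℝ, (ε = 1 ∨ ε = -1) ∧ ε * k ≤ -1 := by
    have : k ≠ 0 := fun e => hk0 (by simp [hk, e])
    rcases (show k ≤ -1 ∨ 1 ≤ k by omega) with h | h
    · exact ⟨1, .inl rfl, by rw [one_mul]; exact_mod_cast h⟩
    · exact ⟨-1, .inr rfl, by rw [neg_one_mul, neg_le_neg_iff]; exact_mod_cast h⟩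
  have e2 := (C.dt ζ (fun x => ε • α x) (fun x => (a1 _ (hρ x)).1)
    fun x => (a1 _ (hρ x)).2.const_smul ε).2
  have e3 : 0 ≤ ∫ x, dd ζ (fun x => ε • α x) (C.φ x) (C.u x) (C.v x) ∂C.μ := by
    refine integral_nonneg fun x => ?_
    obtain ⟨f1, f2, f3⟩ := C.fr x
    rcases hε with rfl | rfl
    · simpa using a2 _ (C.ball x) (ht x) _ _ (C.fr x)
    · have := a2 _ (C.ball x) (ht x) _ _ ⟨f2, f1, real_inner_comm (C.u x) _ ▸ f3⟩
      simp only [dd, neg_smul, one_smul, fderiv_fun_neg, neg_apply,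
        inner_neg_left, Pi.zero_apply] at this ⊢
      linarith
  have k0 := bmain_curve (C.loop 0) hε (hr 0) (fun t => (a1 _ (hr 0 t)).1.continuousAt)
    (fun t => (a1 _ (hr 0 t)).2.continuousAt) (by have := hc0 0; fun_prop)
    fun t T => a3 _ T ((C.loop 0).sph t) (b0 t)
  have k1 := bmain_curve (q := -p) (C.loop 1) hε (hr 1) (fun t => (a1 _ (hr 1 t)).1.continuousAt)
    (fun t => (a1 _ (hr 1 t)).2.continuousAt)
    (f := fun t => a + b * C.g 1 t 2 + g * C.g 1 t 2 ^ 2) (by have := hc0 1; fun_prop)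
    fun t T hT => by simpa using a4 _ T ((C.loop 1).sph t) (b1 t) hT
  rw [e2, Fin.sum_univ_two] at e3
  rw [eq_neg_of_add_eq_zero_right e1.symm, hk] at k1
  rw [hk] at k0
  have f0 := F0 a b g hg (.inr (by linarith))
  have f1 := F1 a b g hg (.inr (by linarith))
  have f2 := mul_le_mul_of_nonneg_left hεk (mul_nonneg hp pi_pos.le)
  refine le_of_mul_le_mul_left ?_ two_pi_pos
  linarith

/-- The surface meets the tube at `C.φ p`: the curves have `rho ≥ 1 - 0.9025²`, so they stay at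
distance `≥ 0.34` from `C.φ p`; `Cfg.mono` contradicts `Cfg.pure`. -/
theorem Cfg.tube (hT : TubeCert) (hA : Adm (C.l 0) (C.l 1) c) (hl : 81 / 100 ≤ C.l 0)
    (hc' : c ≤ 485 / 1000) (x : M) : (9 / 100) ^ 2 ≤ rho (C.φ x) := by
  by_contra hx
  have a1 := hA.le
  have a2 := hA.sum
  have p1 := C.pure hc h0 h1 h2 h3 (by fun_prop) (by linarith)
    (hT _ _ c hA hl hc' _ (C.ball x) (not_le.1 hx).le)
  have b0 := fun t => band_near hl (by linarith) hc hc' hA.d0 (((C.loop 0).fourier (Or.inl rfl) hc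
    (h0 0) (h1 0) (by simpa only [one_mul] using h2)).2.2.1 t)
  have b1 := fun t => band_near (hl.trans a1) (by linarith) hc hc' (hA.d1 (by linarith))
    (((C.loop 1).fourier (Or.inr rfl) hc (h0 1) (h1 1)
      (by simpa only [neg_one_mul] using h3)).2.2.1 t)
  have b2 : ∀ i t, C.g i t 2 ^ 2 ≤ (9025 / 10000) ^ 2 := Fin.forall_fin_two.2
    ⟨fun t => by nlinarith [(b0 t).1, (b0 t).2], fun t => by nlinarith [(b1 t).1, (b1 t).2]⟩
  have p2 := C.mono x (d := 34 / 100) (by norm_num) fun i t => by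
    have e1 := EuclideanSpace.real_norm_sq_eq (C.g i t)
    rw [(C.loop i).sph, Fin.sum_univ_three] at e1
    refine le_of_sq_le_sq ?_ (norm_nonneg _)
    rw [EuclideanSpace.real_norm_sq_eq, Fin.sum_univ_three]
    simp only [PiLp.sub_apply]
    rw [rho] at hx
    nlinarith [b2 i t, sq_nonneg (21 / 100 * C.g i t 0 - C.φ x 0),
      sq_nonneg (21 / 100 * C.g i t 1 - C.φ x 1), sq_nonneg (C.g i t 2 - C.φ x 2)]
  linarith

end

/-- `normal_form`, `balance`, `mean_ne`; `2 π c = l₀ ∫ g₀ 2`; `Adm` from `Loop.fourier`. -/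
theorem Cfg.main {M : Type} [MeasurableSpace M] (C : Cfg M) (hF : FarCert) (hT : TubeCert)
    (hA : AxisCert) (hl : ∀ i, 6367 / 10000 ≤ C.l i) {τ : ℝ} (t1 : 1.199675 < τ)
    (t2 : τ < 1.199685) (t3 : τ * sinh τ = cosh τ) : 2 * π / τ ≤ C.μ.real univ := by
  obtain ⟨D, hμ, hle, -, hor, m0, m1, m2⟩ := C.normal_form
  by_contra hlt
  rw [not_le, ← hμ, D.area, mul_comm 2 π, mul_div_assoc] at hlt
  have hτ : 0 < τ := by linarith
  have hs : D.l 0 + D.l 1 < 2 / τ := lt_of_mul_lt_mul_left hlt pi_pos.le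
  have hs' : 2 / τ ≤ 166712 / 100000 := by
    rw [div_le_iff₀ hτ]
    linarith
  have hlo : 6367 / 10000 ≤ D.l 0 := by
    rcases hor with e | e <;> rw [e] <;> exact hl _
  have hl1 : D.l 0 < 1 := by linarith
  have p0 := (D.loop 0).pos
  have p1 := (D.loop 1).pos
  have m3 := lt_of_le_of_ne m2 ((D.loop 0).mean_ne hl1 m0 m1).symm
  obtain ⟨c, h2⟩ : ∃ c, D.l 0 * ∫ t in (0 : ℝ)..(2 * π), D.g 0 t 2 = 2 * π * c :=
    ⟨_, (mul_div_cancel₀ _ two_pi_pos.ne').symm⟩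
  have hc : 0 < c := (mul_pos_iff_of_pos_left two_pi_pos).1 (h2 ▸ mul_pos p0 m3)
  have hz : ∀ j, ∫ t in (0 : ℝ)..(2 * π), D.g 0 t j = 0 →
      ∀ i, ∫ t in (0 : ℝ)..(2 * π), D.g i t j = 0 := fun j hj => by
    have hb := D.balance j
    rw [hj, mul_zero, zero_add, mul_eq_zero, or_iff_right p1.ne'] at hb
    exact Fin.forall_fin_two.2 ⟨hj, hb⟩
  have h3 : D.l 1 * ∫ t in (0 : ℝ)..(2 * π), -D.g 1 t 2 = 2 * π * c := by
    have hb := D.balance 2
    rw [intervalIntegral.integral_neg]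
    linarith
  obtain ⟨f1, f2, -⟩ := (D.loop 0).fourier (Or.inl rfl) hc m0 m1 (by simpa only [one_mul] using h2)
  obtain ⟨-, f3, -⟩ := (D.loop 1).fourier (Or.inr rfl) hc (hz 0 m0 1) (hz 1 m1 1)
    (by simpa only [neg_mul, one_mul] using h3)
  have hAd : Adm (D.l 0) (D.l 1) c := ⟨hlo, hle, by linarith, hc, f1, f2 hl1.le, f3⟩
  by_cases hfar : D.l 0 < 81 / 100 ∨ 485 / 1000 < c
  · have := D.pure hc (hz 0 m0) (hz 1 m1) h2 h3 continuous_const hl1.le (hF _ _ _ hAd hfar)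
    simp at this
  · rw [not_or, not_lt, not_lt] at hfar
    obtain ⟨ζ, α, p, a, b, g, a1, a2, a3, a4, hp, hg, a5⟩ := hA τ t1 t2 t3
    exact (D.axis hc (hz 0 m0) (hz 1 m1) h2 h3 hAd hfar.1 hfar.2
      (D.tube hc (hz 0 m0) (hz 1 m1) h2 h3 hT hAd hfar.1 hfar.2) a1 a2 a3 a4 hp hg).not_gt
      (a5 _ _ _ hAd hfar.1 hfar.2 hs)

variable {M : Type} [TopologicalSpace M] [ChartedSpace (EuclideanHalfSpace 2) M]
  [IsManifold (𝓡∂ 2) ∞ M] [T2Space M] [CompactSpace M] [MeasurableSpace M] [BorelSpace M]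

/-- Three disjoint good curves (the proof of `IsFBMS.three`). -/
theorem IsFBMS.three' {φ : M → E3} (h : IsFBMS φ) (hc : CertUpTo (6367 / 10000))
    {γ : Fin 3 → ℝ → M} {g' : Fin 3 → ℝ → E3} (hg : ∀ i, h.atlas.Good (γ i) (g' i))
    (hd : ∀ i j, i ≠ j → ∀ s t, γ i s ≠ γ j t) : 2 * π * (83356 / 100000) ≤ surfaceArea φ := by
  by_contra hlt
  have h1 := h.sum_length hg hd
  have h2 : ∀ i, 2 * π * (6367 / 10000) < ∫ t in (0 : ℝ)..1, ‖g' i t‖ := fun i =>
    not_le.1 fun hi => hlt (h.short hc (by norm_num) (hg i) hi)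
  rw [Fin.sum_univ_three] at h1
  nlinarith [h2 0, h2 1, h2 2, pi_pos, not_le.1 hlt]

/-- `exists_curves` with `n = 2`. If the curves do not cover the boundary, `exists_good` and
`Good.disjoint` give a third curve. If one is short, `IsFBMS.short`. Otherwise `exists_cfg` and
`Cfg.main`. `2 π / τ ≤ 2 π * 0.83356` as in `exists_cat`. -/
theorem IsFBMS.two {φ N : M → E3} (h : IsFBMS φ) (hN : IsNormal φ N)
    (hc : CertUpTo (6367 / 10000)) (hF : FarCert) (hT : TubeCert) (hA : AxisCert)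
    (h2 : 2 ≤ ENat.card (ConnectedComponents ((𝓡∂ 2).boundary M))) {τ : ℝ} (t1 : 1.199675 < τ)
    (t2 : τ < 1.199685) (t3 : τ * sinh τ = cosh τ) : 2 * π / τ ≤ surfaceArea φ := by
  obtain ⟨γ, g', hg, hd⟩ := h.exists_curves (n := 2) h2
  have hτ : 0 < τ := by linarith
  have hcat : 2 * π / τ ≤ 2 * π * (83356 / 100000) := by
    rw [div_le_iff₀ hτ, mul_assoc (2 * π)]
    exact le_mul_of_one_le_right (by positivity) (by linarith)
  by_cases hcov : ∀ x ∈ (𝓡∂ 2).boundary M, ∃ i t, γ i t = x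
  · by_cases hsh : ∃ i, ∫ t in (0 : ℝ)..1, ‖g' i t‖ ≤ 2 * π * (6367 / 10000)
    · obtain ⟨i, hi⟩ := hsh
      exact hcat.trans (h.short hc (by norm_num) (hg i) hi)
    · obtain ⟨C, hμ, hl⟩ := h.exists_cfg hN hg hd hcov
      have := C.main hF hT hA (fun i => le_of_mul_le_mul_left
        ((not_le.1 fun hi => hsh ⟨i, hi⟩).le.trans (hl i).ge) two_pi_pos) t1 t2 t3
      rwa [hμ] at this
  · push Not at hcov
    obtain ⟨x, hx, hn⟩ := hcov
    have hK : IsCompact ((𝓡∂ 2).boundary M) :=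
      (ModelWithCorners.isClosed_boundary (I := 𝓡∂ 2) (M := M) (n := ∞) (by simp)).isCompact
    obtain ⟨δ, d', h0, -, hδ⟩ := h.atlas.exists_good hK hx
    have hdj : ∀ i s t, δ s ≠ γ i t := fun i =>
      (hg i).disjoint hδ fun t e => hn i t (e.symm.trans h0)
    refine hcat.trans (h.three' hc (γ := Fin.cons δ γ) (g' := Fin.cons d' g')
      (fun i => Fin.cases hδ hg i) fun i j => ?_)
    refine Fin.cases ?_ (fun i => ?_) i <;> refine Fin.cases ?_ (fun j => ?_) j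
    · exact fun e => (e rfl).elim
    · exact fun _ => hdj j
    · exact fun _ s t => (hdj i t s).symm
    · exact fun e => hd i j fun e' => e (congrArg _ e')

end Pool.Agent.Lib.MP_14b623_gt
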