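import Mathlib.Analysis.InnerProductSpace.PiL2
import Mathlib.Analysis.Calculus.ContDiff.Defs
import Mathlib.Analysis.SpecialFunctions.Trigonometric.DerivHyp
import Mathlib.MeasureTheory.Integral.IntervalIntegral.Basic

/-!
Free boundary minimal annuli in the closed unit ball of `ℝ³`, parametrised on the cylinder
`[A, B] × ℝ / 2π`.
-/

namespace Pool.Agent.Lib.MP_14b623_gt

open Set Real
open scoped InnerProductSpace

/-- Euclidean three-space. -/
abbrev E3 := EuclideanSpace ℝ (Fin 3)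

/-- Partial derivative in the first variable `t`. -/
noncomputable def dT (X : ℝ × ℝ → E3) (p : ℝ × ℝ) : E3 := fderiv ℝ X p (1, 0)

/-- Partial derivative in the second variable `θ`. -/
noncomputable def dS (X : ℝ × ℝ → E3) (p : ℝ × ℝ) : E3 := fderiv ℝ X p (0, 1)

/-- First fundamental form, coefficient `E`. -/
noncomputable def gE (X : ℝ × ℝ → E3) (p : ℝ × ℝ) : ℝ := ⟪dT X p, dT X p⟫_ℝ

/-- First fundamental form, coefficient `F`. -/
noncomputable def gF (X : ℝ × ℝ → E3) (p : ℝ × ℝ) : ℝ := ⟪dT X p, dS X p⟫_ℝ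

/-- First fundamental form, coefficient `G`. -/
noncomputable def gG (X : ℝ × ℝ → E3) (p : ℝ × ℝ) : ℝ := ⟪dS X p, dS X p⟫_ℝ

/-- `X`, restricted to `[A, B] × ℝ / 2π`, is an immersed free boundary minimal annulus in the
closed unit ball: a `C²` immersion into the ball with both boundary circles on the unit sphere,
vanishing mean curvature (`E g - 2 F f + G e = 0` for the second fundamental form `e, f, g` taken
with respect to any normal vector `N`), and conormal (the component of `X_t` orthogonal to the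
boundary tangent `X_θ`) normal to the sphere along the boundary. -/
structure IsFBMAnnulus (A B : ℝ) (X : ℝ × ℝ → E3) : Prop where
  lt : A < B
  smooth : ContDiff ℝ 2 X
  periodic : ∀ t θ : ℝ, X (t, θ + 2 * π) = X (t, θ)
  immersion : ∀ p : ℝ × ℝ, p.1 ∈ Icc A B → 0 < gE X p * gG X p - gF X p ^ 2
  inBall : ∀ p : ℝ × ℝ, p.1 ∈ Icc A B → ‖X p‖ ≤ 1
  bdry : ∀ p : ℝ × ℝ, p.1 = A ∨ p.1 = B → ‖X p‖ = 1
  minimal : ∀ p : ℝ × ℝ, p.1 ∈ Icc A B → ∀ N : E3, ⟪N, dT X p⟫_ℝ = 0 → ⟪N, dS X p⟫_ℝ = 0 →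
    gE X p * ⟪N, dS (dS X) p⟫_ℝ - 2 * gF X p * ⟪N, dS (dT X) p⟫_ℝ
      + gG X p * ⟪N, dT (dT X) p⟫_ℝ = 0
  orth : ∀ p : ℝ × ℝ, p.1 = A ∨ p.1 = B →
    ∃ c : ℝ, dT X p - (gF X p / gG X p) • dS X p = c • X p

/-- The coordinates `(t, θ)` are isothermal on `[A, B] × ℝ`. -/
def IsConformal (A B : ℝ) (X : ℝ × ℝ → E3) : Prop :=
  ∀ p : ℝ × ℝ, p.1 ∈ Icc A B → gE X p = gG X p ∧ gF X p = 0

/-- Area of the parametrised annulus in the induced metric. -/
noncomputable def area (A B : ℝ) (X : ℝ × ℝ → E3) : ℝ :=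
  ∫ t in A..B, ∫ θ in (0 : ℝ)..(2 * π), √(gE X (t, θ) * gG X (t, θ) - gF X (t, θ) ^ 2)

/-- The catenoid `√(x₁² + x₂²) = c cosh (x₃ / c)` in its standard parametrisation. -/
noncomputable def catenoid (c : ℝ) (p : ℝ × ℝ) : E3 :=
  !₂[c * cosh p.1 * cos p.2, c * cosh p.1 * sin p.2, c * p.1]

end Pool.Agent.Lib.MP_14b623_gt
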