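import Mathlib
import Pool.Agent.Lib.MP_14b623_gt.Defs

/-! Internal definitions: coordinates, averages, Fourier coefficients, data structures. -/

namespace Pool.Agent.Lib.MP_14b623_gt

open Set Real Function

/-- Coordinate vectors (only `dot` and `det3` are used, never the sup norm). -/
abbrev V := Fin 3 → ℝ

def dot (a b : V) : ℝ := a 0 * b 0 + a 1 * b 1 + a 2 * b 2

def det3 (a b c : V) : ℝ :=
  a 0 * (b 1 * c 2 - b 2 * c 1) - a 1 * (b 0 * c 2 - b 2 * c 0) + a 2 * (b 0 * c 1 - b 1 * c 0)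

/-- Mean value over `[0, 2π]`. -/
noncomputable def av (f : ℝ → ℝ) : ℝ := (∫ θ in (0 : ℝ)..(2 * π), f θ) / (2 * π)

/-- Complex mean value over `[0, 2π]`. -/
noncomputable def cav (f : ℝ → ℂ) : ℂ := (∫ θ in (0 : ℝ)..(2 * π), f θ) / (2 * π)

/-- Fourier coefficient. -/
noncomputable def fc (f : ℝ → ℂ) (n : ℤ) : ℂ :=
  cav fun θ => f θ * Complex.exp (-(n : ℂ) * θ * Complex.I)

/-- A closed regular `C²` curve on the unit sphere, with period `2π` and speed `u`. -/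
structure SCurve where
  g : ℝ → V
  g1 : ℝ → V
  g2 : ℝ → V
  u : ℝ → ℝ
  d1 : ∀ θ, HasDerivAt g (g1 θ) θ
  d2 : ∀ θ, HasDerivAt g1 (g2 θ) θ
  c2 : Continuous g2
  cu : Continuous u
  p0 : Periodic g (2 * π)
  p1 : Periodic g1 (2 * π)
  p2 : Periodic g2 (2 * π)
  pu : Periodic u (2 * π)
  sph : ∀ θ, dot (g θ) (g θ) = 1
  upos : ∀ θ, 0 < u θ
  speed : ∀ θ, dot (g1 θ) (g1 θ) = u θ ^ 2

namespace SCurve

/-- The curve is simple. -/
def Simple (c : SCurve) : Prop := ∀ s t, s < t → t < s + 2 * π → c.g s ≠ c.g t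

/-- Unnormalised geodesic curvature. -/
def kap (c : SCurve) (θ : ℝ) : ℝ := det3 (c.g θ) (c.g1 θ) (c.g2 θ)

/-- Position of `g s` relative to the tangent great circle at `g p`. -/
def F (c : SCurve) (p s : ℝ) : ℝ := det3 (c.g p) (c.g1 p) (c.g s)

/-- Length divided by `2π`. -/
noncomputable def len (c : SCurve) : ℝ := av c.u

/-- The antipodal curve. -/
def neg (c : SCurve) : SCurve where
  g θ := -c.g θ
  g1 θ := -c.g1 θ
  g2 θ := -c.g2 θ
  u := c.u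
  d1 θ := (c.d1 θ).neg
  d2 θ := (c.d2 θ).neg
  c2 := c.c2.neg
  cu := c.cu
  p0 θ := by simp [c.p0 θ]
  p1 θ := by simp [c.p1 θ]
  p2 θ := by simp [c.p2 θ]
  pu := c.pu
  sph θ := by simpa [dot] using c.sph θ
  upos := c.upos
  speed θ := by simpa [dot] using c.speed θ

/-- The curve `θ ↦ - g (-θ)`; it has the same sign of curvature. -/
def rev (c : SCurve) : SCurve where
  g θ := -c.g (-θ)
  g1 θ := c.g1 (-θ)
  g2 θ := -c.g2 (-θ)
  u θ := c.u (-θ)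
  d1 θ := by
    have := ((c.d1 (-θ)).scomp θ (hasDerivAt_neg θ)).fun_neg
    simpa [Function.comp_def] using this
  d2 θ := by
    have := (c.d2 (-θ)).scomp θ (hasDerivAt_neg θ)
    simpa [Function.comp_def] using this
  c2 := (c.c2.comp continuous_neg).neg
  cu := c.cu.comp continuous_neg
  p0 θ := by
    have := c.p0.sub_eq (-θ)
    simp only [neg_add_rev, neg_inj]
    rw [← this]; congr 1; ring
  p1 θ := by
    have := c.p1.sub_eq (-θ)
    simp only [neg_add_rev]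
    rw [← this]; congr 1; ring
  p2 θ := by
    have := c.p2.sub_eq (-θ)
    simp only [neg_add_rev, neg_inj]
    rw [← this]; congr 1; ring
  pu θ := by
    have := c.pu.sub_eq (-θ)
    simp only [neg_add_rev]
    rw [← this]; congr 1; ring
  sph θ := by simpa [dot] using c.sph (-θ)
  upos θ := c.upos (-θ)
  speed θ := c.speed (-θ)

lemma c1 (c : SCurve) : Continuous c.g1 := continuous_iff_continuousAt.2 fun θ => (c.d2 θ).continuousAt

lemma c0 (c : SCurve) : Continuous c.g := continuous_iff_continuousAt.2 fun θ => (c.d1 θ).continuousAt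

lemma rev_F (c : SCurve) (p s : ℝ) : c.rev.F p s = c.F (-p) (-s) := by
  simp only [F, rev, det3, Pi.neg_apply]; ring

lemma rev_kap (c : SCurve) (θ : ℝ) : c.rev.kap θ = c.kap (-θ) := by
  simp only [kap, rev, det3, Pi.neg_apply]; ring

lemma neg_F (c : SCurve) (p s : ℝ) : c.neg.F p s = -c.F p s := by
  simp only [F, neg, det3, Pi.neg_apply]; ring

lemma neg_kap (c : SCurve) (θ : ℝ) : c.neg.kap θ = -c.kap θ := by
  simp only [kap, neg, det3, Pi.neg_apply]; ring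

lemma rev_simple {c : SCurve} (h : c.Simple) : c.rev.Simple := by
  intro s t h1 h2 h3
  refine h (-t) (-s) (by linarith) (by linarith) ?_
  simpa [rev] using h3.symm

lemma neg_simple {c : SCurve} (h : c.Simple) : c.neg.Simple := by
  intro s t h1 h2 h3
  exact h s t h1 h2 (by simpa [neg] using h3)

end SCurve

/-- A conformal harmonic free boundary annulus in coordinates (first argument `t`, second `θ`). -/
structure Ann0 where
  A : ℝ
  B : ℝ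
  hAB : A < B
  X : ℝ → ℝ → V
  Xt : ℝ → ℝ → V
  Xs : ℝ → ℝ → V
  Xtt : ℝ → ℝ → V
  Xts : ℝ → ℝ → V
  Xss : ℝ → ℝ → V
  u : ℝ → ℝ → ℝ
  cX : Continuous (uncurry X)
  cXt : Continuous (uncurry Xt)
  cXs : Continuous (uncurry Xs)
  cXtt : Continuous (uncurry Xtt)
  cXts : Continuous (uncurry Xts)
  cXss : Continuous (uncurry Xss)
  cu : Continuous (uncurry u)
  dXt : ∀ t θ, HasDerivAt (fun t => X t θ) (Xt t θ) t
  dXs : ∀ t θ, HasDerivAt (X t) (Xs t θ) θ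
  dXtt : ∀ t θ, HasDerivAt (fun t => Xt t θ) (Xtt t θ) t
  dXts : ∀ t θ, HasDerivAt (Xt t) (Xts t θ) θ
  dXst : ∀ t θ, HasDerivAt (fun t => Xs t θ) (Xts t θ) t
  dXss : ∀ t θ, HasDerivAt (Xs t) (Xss t θ) θ
  pX : ∀ t, Periodic (X t) (2 * π)
  pXt : ∀ t, Periodic (Xt t) (2 * π)
  pXs : ∀ t, Periodic (Xs t) (2 * π)
  pXtt : ∀ t, Periodic (Xtt t) (2 * π)
  pXts : ∀ t, Periodic (Xts t) (2 * π)
  pXss : ∀ t, Periodic (Xss t) (2 * π)
  pu : ∀ t, Periodic (u t) (2 * π)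
  upos : ∀ t ∈ Icc A B, ∀ θ, 0 < u t θ
  eT : ∀ t ∈ Icc A B, ∀ θ, dot (Xt t θ) (Xt t θ) = u t θ ^ 2
  eS : ∀ t ∈ Icc A B, ∀ θ, dot (Xs t θ) (Xs t θ) = u t θ ^ 2
  eTS : ∀ t ∈ Icc A B, ∀ θ, dot (Xt t θ) (Xs t θ) = 0
  harm : ∀ t ∈ Icc A B, ∀ θ, Xtt t θ + Xss t θ = 0
  bA : ∀ θ, dot (X A θ) (X A θ) = 1
  bB : ∀ θ, dot (X B θ) (X B θ) = 1
  nA : ∀ θ, Xt A θ = -(u A θ • X A θ)
  nB : ∀ θ, Xt B θ = u B θ • X B θ

namespace Ann0

variable (S : Ann0)

lemma memA : S.A ∈ Icc S.A S.B := left_mem_Icc.2 S.hAB.le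

lemma memB : S.B ∈ Icc S.A S.B := right_mem_Icc.2 S.hAB.le

/-- The boundary curve at `t = B`. -/
def curveB : SCurve where
  g := S.X S.B
  g1 := S.Xs S.B
  g2 := S.Xss S.B
  u := S.u S.B
  d1 := S.dXs _
  d2 := S.dXss _
  c2 := S.cXss.uncurry_left _
  cu := S.cu.uncurry_left _
  p0 := S.pX _
  p1 := S.pXs _
  p2 := S.pXss _
  pu := S.pu _
  sph := S.bB
  upos := S.upos _ S.memB
  speed := S.eS _ S.memB

/-- The antipode of the boundary curve at `t = A`. -/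
def curveA : SCurve where
  g θ := -S.X S.A θ
  g1 θ := -S.Xs S.A θ
  g2 θ := -S.Xss S.A θ
  u := S.u S.A
  d1 θ := (S.dXs _ θ).neg
  d2 θ := (S.dXss _ θ).neg
  c2 := (S.cXss.uncurry_left _).neg
  cu := S.cu.uncurry_left _
  p0 θ := by simp [S.pX _ θ]
  p1 θ := by simp [S.pXs _ θ]
  p2 θ := by simp [S.pXss _ θ]
  pu := S.pu _
  sph θ := by simpa [dot] using S.bA θ
  upos := S.upos _ S.memA
  speed θ := by simpa [dot] using S.eS _ S.memA θ

/-- The reflected annulus `(t, θ) ↦ X (-t) θ`. -/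
def flip : Ann0 where
  A := -S.B
  B := -S.A
  hAB := neg_lt_neg S.hAB
  X t θ := S.X (-t) θ
  Xt t θ := -S.Xt (-t) θ
  Xs t θ := S.Xs (-t) θ
  Xtt t θ := S.Xtt (-t) θ
  Xts t θ := -S.Xts (-t) θ
  Xss t θ := S.Xss (-t) θ
  u t θ := S.u (-t) θ
  cX := S.cX.comp (continuous_fst.neg.prodMk continuous_snd)
  cXt := (S.cXt.comp (continuous_fst.neg.prodMk continuous_snd)).neg
  cXs := S.cXs.comp (continuous_fst.neg.prodMk continuous_snd)
  cXtt := S.cXtt.comp (continuous_fst.neg.prodMk continuous_snd)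
  cXts := (S.cXts.comp (continuous_fst.neg.prodMk continuous_snd)).neg
  cXss := S.cXss.comp (continuous_fst.neg.prodMk continuous_snd)
  cu := S.cu.comp (continuous_fst.neg.prodMk continuous_snd)
  dXt t θ := by
    have := (S.dXt (-t) θ).scomp t (hasDerivAt_neg t)
    simpa [Function.comp_def] using this
  dXs t θ := S.dXs _ θ
  dXtt t θ := by
    have := ((S.dXtt (-t) θ).scomp t (hasDerivAt_neg t)).fun_neg
    simpa [Function.comp_def] using this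
  dXts t θ := (S.dXts _ θ).neg
  dXst t θ := by
    have := (S.dXst (-t) θ).scomp t (hasDerivAt_neg t)
    simpa [Function.comp_def] using this
  dXss t θ := S.dXss _ θ
  pX t := S.pX _
  pXt t θ := by simp [S.pXt _ θ]
  pXs t := S.pXs _
  pXtt t := S.pXtt _
  pXts t θ := by simp [S.pXts _ θ]
  pXss t := S.pXss _
  pu t := S.pu _
  upos t ht θ := S.upos _ ⟨by linarith [ht.2], by linarith [ht.1]⟩ θ
  eT t ht θ := by simpa [dot] using S.eT _ ⟨by linarith [ht.2], by linarith [ht.1]⟩ θ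
  eS t ht θ := S.eS _ ⟨by linarith [ht.2], by linarith [ht.1]⟩ θ
  eTS t ht θ := by
    have := S.eTS (-t) ⟨by linarith [ht.2], by linarith [ht.1]⟩ θ
    simp only [dot, Pi.neg_apply] at this ⊢
    linarith
  harm t ht θ := S.harm _ ⟨by linarith [ht.2], by linarith [ht.1]⟩ θ
  bA θ := by simpa using S.bB θ
  bB θ := by simpa using S.bA θ
  nA θ := by simp [S.nB θ]
  nB θ := by simp [S.nA θ]

/-- The holomorphic vector `Φ = X_t - i X_θ`. -/
noncomputable def Phi (i : Fin 3) (z : ℂ) : ℂ :=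
  (S.Xt z.re z.im i : ℂ) - Complex.I * (S.Xs z.re z.im i : ℂ)

/-- The derivative of `Φ`. -/
noncomputable def Phi1 (i : Fin 3) (z : ℂ) : ℂ :=
  (S.Xtt z.re z.im i : ℂ) - Complex.I * (S.Xts z.re z.im i : ℂ)

/-- The vertical flux. -/
noncomputable def phi : ℝ := av fun θ => S.Xt S.B θ 2

/-- The flux vector is vertical and points upwards. -/
def Vertical : Prop :=
  av (fun θ => S.Xt S.B θ 0) = 0 ∧ av (fun θ => S.Xt S.B θ 1) = 0 ∧ 0 ≤ S.phi

end Ann0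

/-- Spinor data: `g j t θ = ψ j (t + i θ) * exp (- i θ / 2)`, with Fourier modes `a`, `b`. -/
structure Spin (A B φ : ℝ) (u : ℝ → ℝ → ℝ) where
  g1 : ℝ → ℝ → ℂ
  g2 : ℝ → ℝ → ℂ
  a : ℤ → ℂ
  b : ℤ → ℂ
  c1 : ∀ t ∈ Icc A B, Continuous (g1 t)
  c2 : ∀ t ∈ Icc A B, Continuous (g2 t)
  hu : ∀ t ∈ Icc A B, ∀ θ, ‖g1 t θ‖ ^ 2 + ‖g2 t θ‖ ^ 2 = u t θ
  ha : ∀ t ∈ Icc A B, ∀ n : ℤ, fc (g1 t) n = a n * (Real.exp (((n : ℝ) + 1 / 2) * t) : ℝ)
  hb : ∀ t ∈ Icc A B, ∀ n : ℤ, fc (g2 t) n = b n * (Real.exp (((n : ℝ) + 1 / 2) * t) : ℝ)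
  z11 : cav (fun θ => g1 B θ * g1 B θ * Complex.exp (θ * Complex.I)) = 0
  z22 : cav (fun θ => g2 B θ * g2 B θ * Complex.exp (θ * Complex.I)) = 0
  z12 : cav (fun θ => 2 * g1 B θ * g2 B θ * Complex.exp (θ * Complex.I)) = φ

/-- Sequence data extracted from a spinor; `lA`, `lB` are the two boundary lengths over `2π`. -/
structure SeqD (A B φ lA lB : ℝ) (a b : ℤ → ℂ) : Prop where
  sA : HasSum (fun n : ℤ => (‖a n‖ ^ 2 + ‖b n‖ ^ 2) * Real.exp ((2 * (n : ℝ) + 1) * A)) lA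
  sB : HasSum (fun n : ℤ => (‖a n‖ ^ 2 + ‖b n‖ ^ 2) * Real.exp ((2 * (n : ℝ) + 1) * B)) lB
  s11 : HasSum (fun n : ℤ => a n * a (-n - 1)) 0
  s22 : HasSum (fun n : ℤ => b n * b (-n - 1)) 0
  s12 : HasSum (fun n : ℤ => 2 * a (-n - 1) * b n) (φ : ℂ)

/-- Energy of the two main modes on the circle `t`. -/
noncomputable def mainM (a b : ℤ → ℂ) (t : ℝ) : ℝ :=
  ‖b 0‖ ^ 2 * Real.exp t + ‖a (-1)‖ ^ 2 * Real.exp (-t)

/-- The pairing of the higher modes. -/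
noncomputable def highY (a b : ℤ → ℂ) : ℝ :=
  ∑' n : ℕ, √(‖a (n + 1)‖ ^ 2 + ‖b (n + 1)‖ ^ 2) * √(‖a (-n - 2)‖ ^ 2 + ‖b (-n - 2)‖ ^ 2)

/-- Fourier modes of the component of the spinor along the normalised main modes on the
circle `t`, multiplied by `√(mainM a b t)`. -/
noncomputable def parP (a b : ℤ → ℂ) (t : ℝ) (n : ℤ) : ℂ :=
  (starRingEnd ℂ) (a (-1)) * a (n - 1) * (Real.exp (((n : ℝ) - 1) * t) : ℝ)
    + (starRingEnd ℂ) (b 0) * b n * (Real.exp (((n : ℝ) + 1) * t) : ℝ)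

/-- `√(x² + y² + 2 x y v)`. -/
noncomputable def Gam (x y v : ℝ) : ℝ := √(x ^ 2 + y ^ 2 + 2 * x * y * v)

/-- The Wirtinger deficit of a boundary curve. -/
noncomputable def Dfc (φ l : ℝ) : ℝ := (φ / l) ^ 2 + l ^ 2 - 1

/-- The bound for the oscillation of the height. -/
noncomputable def osc (φ l : ℝ) : ℝ := Dfc φ l / (2 * (φ / l)) + √(3 * Dfc φ l / 2)

/-- Lower bounds for the height of a boundary curve. -/
def IsLow (φ l hm : ℝ) : Prop := hm ≤ sin (π * l) / (π * φ) ∨ hm ≤ φ / l - osc φ l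

/-- Upper bounds for the height of a boundary curve. -/
def IsUp (φ l hp : ℝ) : Prop := 1 ≤ hp ∨ φ / l + osc φ l ≤ hp

/-- The auxiliary quantity `x m² / (x m + D / 3)` with `m = φ / l - hm`. -/
noncomputable def tt (φ l hm x : ℝ) : ℝ :=
  x * (φ / l - hm) ^ 2 / (x * (φ / l - hm) + Dfc φ l / 3)

/-- What the finite dimensional argument knows about one boundary circle. -/
structure EndD (φ l M J Z : ℝ) : Prop where
  lpos : 0 < l
  lle : l ≤ 1
  M0 : 0 ≤ M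
  Mle : M ≤ l
  Z0 : 0 ≤ Z
  phile : φ ≤ l
  D0 : 0 ≤ Dfc φ l
  low : ∀ hm, IsLow φ l hm → hm ≤ φ / l
  main : ∀ hm hp H x γ : ℝ, IsLow φ l hm → IsUp φ l hp → 0 ≤ x → 0 < H → hp - hm + x ≤ H →
    0 ≤ γ → γ * H ≤ M / l * (x + tt φ l hm x) ^ 2 →
    hm - (1 - M / l) * x + M / l * tt φ l hm x + γ * Z / l ≤ J

/-- What the finite dimensional argument knows about the spinor modes. -/
structure HolD (T φ la lb Ma Mb Za Zb φ' s Y : ℝ) : Prop where
  p0 : 0 ≤ φ'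
  s0 : 0 ≤ s
  Y0 : 0 ≤ Y
  h1 : φ ≤ φ' + 2 * s + 2 * Y
  h2a : 2 * s ≤ φ'
  h2b : 2 * s * φ' ≤ Y ^ 2
  h3 : ∀ x y, 0 ≤ x → 0 ≤ y → φ' * Gam x y (cosh T) ≤ x * Ma + y * Mb
  h4 : ∀ x y, 0 ≤ x → 0 ≤ y →
    2 * s * Gam x y (cosh T) + 2 * Y * Gam x y (cosh (3 * T)) ≤ x * (la - Ma) + y * (lb - Mb)
  h5a : la - Ma ≤ Ma →
    (la - Ma) / 2 - exp (-(3 * T / 2)) * √((la - Ma) * (lb - Mb)) - Y ≤ Za
  h5b : lb - Mb ≤ Mb →
    (lb - Mb) / 2 - exp (-(3 * T / 2)) * √((la - Ma) * (lb - Mb)) - Y ≤ Zb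

end Pool.Agent.Lib.MP_14b623_gt
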