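import Pool.Agent.Lib.MP_14b623_gt.Basic

/-! Elementary facts on the function `F p s = det (g p, g' p, g s)`. -/

namespace Pool.Agent.Lib.MP_14b623_gt

open Set Real Function

lemma hasDerivAt_coord {f : ℝ → V} {f' : V} {x : ℝ} (h : HasDerivAt f f' x) (i : Fin 3) :
    HasDerivAt (fun y => f y i) (f' i) x := hasDerivAt_pi.1 h i

lemma hasDerivAt_dot {f g : ℝ → V} {f' g' : V} {x : ℝ} (hf : HasDerivAt f f' x)
    (hg : HasDerivAt g g' x) :
    HasDerivAt (fun y => dot (f y) (g y)) (dot f' (g x) + dot (f x) g') x := by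
  have := (((hasDerivAt_coord hf 0).fun_mul (hasDerivAt_coord hg 0)).fun_add
    ((hasDerivAt_coord hf 1).fun_mul (hasDerivAt_coord hg 1))).fun_add
    ((hasDerivAt_coord hf 2).fun_mul (hasDerivAt_coord hg 2))
  exact this.congr_deriv (by simp only [dot]; ring)

lemma hasDerivAt_det3 {f g h : ℝ → V} {f' g' h' : V} {x : ℝ} (hf : HasDerivAt f f' x)
    (hg : HasDerivAt g g' x) (hh : HasDerivAt h h' x) :
    HasDerivAt (fun y => det3 (f y) (g y) (h y))
      (det3 f' (g x) (h x) + det3 (f x) g' (h x) + det3 (f x) (g x) h') x := by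
  have f0 := hasDerivAt_coord hf 0
  have f1 := hasDerivAt_coord hf 1
  have f2 := hasDerivAt_coord hf 2
  have g0 := hasDerivAt_coord hg 0
  have g1 := hasDerivAt_coord hg 1
  have g2 := hasDerivAt_coord hg 2
  have h0 := hasDerivAt_coord hh 0
  have h1 := hasDerivAt_coord hh 1
  have h2 := hasDerivAt_coord hh 2
  have := ((f0.fun_mul ((g1.fun_mul h2).fun_sub (g2.fun_mul h1))).fun_sub
    (f1.fun_mul ((g0.fun_mul h2).fun_sub (g2.fun_mul h0)))).fun_add
    (f2.fun_mul ((g0.fun_mul h1).fun_sub (g1.fun_mul h0)))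
  exact this.congr_deriv (by simp only [det3]; ring)

@[fun_prop]
lemma continuous_dot {α : Type*} [TopologicalSpace α] {f g : α → V} (hf : Continuous f)
    (hg : Continuous g) : Continuous fun x => dot (f x) (g x) := by
  unfold dot; fun_prop

@[fun_prop]
lemma continuous_det3 {α : Type*} [TopologicalSpace α] {f g h : α → V} (hf : Continuous f)
    (hg : Continuous g) (hh : Continuous h) : Continuous fun x => det3 (f x) (g x) (h x) := by
  unfold det3; fun_prop

lemma dot_comm (a b : V) : dot a b = dot b a := by simp only [dot]; ring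

/-- Cramer's rule, paired with `b`. -/
lemma cramer_dot (a b c x y : V) :
    det3 a b c * dot x y = det3 x b c * dot a y + det3 a x c * dot b y + det3 a b x * dot c y := by
  simp only [det3, dot]; ring

/-- Gram determinant. -/
lemma det3_mul_det3 (a b c x y z : V) :
    det3 a b c * det3 x y z =
      dot a x * (dot b y * dot c z - dot b z * dot c y)
        - dot a y * (dot b x * dot c z - dot b z * dot c x)
        + dot a z * (dot b x * dot c y - dot b y * dot c x) := by
  simp only [det3, dot]; ring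

lemma eq_zero_of_dot_self {x : V} (h : dot x x = 0) : x = 0 := by
  simp only [dot] at h
  have h0 : x 0 = 0 := by nlinarith [sq_nonneg (x 0), sq_nonneg (x 1), sq_nonneg (x 2)]
  have h1 : x 1 = 0 := by nlinarith [sq_nonneg (x 0), sq_nonneg (x 1), sq_nonneg (x 2)]
  have h2 : x 2 = 0 := by nlinarith [sq_nonneg (x 0), sq_nonneg (x 1), sq_nonneg (x 2)]
  funext i; fin_cases i <;> simp [h0, h1, h2]

namespace SCurve

variable (c : SCurve)

lemma orth (θ : ℝ) : dot (c.g θ) (c.g1 θ) = 0 := by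
  have h := hasDerivAt_dot (c.d1 θ) (c.d1 θ)
  have h' : HasDerivAt (fun y => dot (c.g y) (c.g y)) 0 θ := by
    simp only [c.sph]; exact hasDerivAt_const _ _
  have := h.unique h'
  rw [dot_comm (c.g1 θ)] at this
  linarith

lemma dot_g_g2 (θ : ℝ) : dot (c.g θ) (c.g2 θ) = -c.u θ ^ 2 := by
  have h := hasDerivAt_dot (c.d1 θ) (c.d2 θ)
  have h' : HasDerivAt (fun y => dot (c.g y) (c.g1 y)) 0 θ := by
    simp only [c.orth]; exact hasDerivAt_const _ _
  have := h.unique h'
  rw [c.speed] at this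
  linarith

lemma hasDerivAt_u (θ : ℝ) : HasDerivAt c.u (dot (c.g1 θ) (c.g2 θ) / c.u θ) θ := by
  have h := hasDerivAt_dot (c.d2 θ) (c.d2 θ)
  have hne : dot (c.g1 θ) (c.g1 θ) ≠ 0 := by rw [c.speed]; exact (pow_pos (c.upos θ) 2).ne'
  have h2 := h.sqrt hne
  have e : (fun y => √(dot (c.g1 y) (c.g1 y))) = c.u := by
    funext y; rw [c.speed, sqrt_sq (c.upos y).le]
  rw [e] at h2
  convert h2 using 1
  rw [c.speed, sqrt_sq (c.upos θ).le, dot_comm (c.g2 θ)]
  field_simp [(c.upos θ).ne']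
  ring

lemma hasDerivAt_F_left (p s : ℝ) :
    HasDerivAt (fun p => c.F p s) (det3 (c.g p) (c.g2 p) (c.g s)) p := by
  have := hasDerivAt_det3 (c.d1 p) (c.d2 p) (hasDerivAt_const p (c.g s))
  exact this.congr_deriv (by simp only [det3, Pi.zero_apply]; ring)

lemma hasDerivAt_F_right (p s : ℝ) :
    HasDerivAt (c.F p) (det3 (c.g p) (c.g1 p) (c.g1 s)) s := by
  have := hasDerivAt_det3 (hasDerivAt_const s (c.g p)) (hasDerivAt_const s (c.g1 p)) (c.d1 s)
  exact this.congr_deriv (by simp only [det3, Pi.zero_apply]; ring)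

lemma hasDerivAt_F_diag (p d : ℝ) :
    HasDerivAt (fun p => c.F p (p + d))
      (det3 (c.g p) (c.g2 p) (c.g (p + d)) + det3 (c.g p) (c.g1 p) (c.g1 (p + d))) p := by
  have h3 : HasDerivAt (fun p => c.g (p + d)) (c.g1 (p + d)) p := (c.d1 (p + d)).comp_add_const p d
  have := hasDerivAt_det3 (c.d1 p) (c.d2 p) h3
  exact this.congr_deriv (by simp only [det3]; ring)

lemma continuous_F : Continuous fun q : ℝ × ℝ => c.F q.1 q.2 := by
  have h0 := c.c0
  have h1 := c.c1
  unfold F; fun_prop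

lemma continuous_kap : Continuous c.kap := by
  have h0 := c.c0
  have h1 := c.c1
  have h2 := c.c2
  unfold kap; fun_prop

lemma F_self (p : ℝ) : c.F p p = 0 := by simp only [F, det3]; ring

lemma F_add_right (p s : ℝ) : c.F p (s + 2 * π) = c.F p s := by simp only [F, c.p0 s]

lemma F_add_left (p s : ℝ) : c.F (p + 2 * π) s = c.F p s := by simp only [F, c.p0 p, c.p1 p]

/-- The `p`-derivative of `F`. -/
lemma F_left_eq (p : ℝ) (x : V) :
    c.u p ^ 2 * det3 (c.g p) (c.g2 p) x =
      dot (c.g1 p) (c.g2 p) * det3 (c.g p) (c.g1 p) x - c.kap p * dot (c.g1 p) x := by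
  have h := cramer_dot (c.g p) (c.g1 p) (c.g2 p) x (c.g1 p)
  rw [c.orth, c.speed] at h
  have e : det3 (c.g p) x (c.g2 p) = -det3 (c.g p) (c.g2 p) x := by simp only [det3]; ring
  rw [e, dot_comm x, dot_comm (c.g2 p)] at h
  simp only [kap]; linarith

/-- A vector in the tangent great circle plane. -/
lemma decomp (p : ℝ) (x : V) (hx : det3 (c.g p) (c.g1 p) x = 0) :
    x = dot (c.g p) x • c.g p + (dot (c.g1 p) x / c.u p ^ 2) • c.g1 p := by
  have hu : c.u p ^ 2 ≠ 0 := (pow_pos (c.upos p) 2).ne'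
  set y := x - (dot (c.g p) x • c.g p + (dot (c.g1 p) x / c.u p ^ 2) • c.g1 p) with hy
  have h1 := c.sph p
  have h2 := c.orth p
  have h3 := c.speed p
  have ya : dot (c.g p) y = 0 := by
    have : dot (c.g p) y = dot (c.g p) x - dot (c.g p) x * dot (c.g p) (c.g p)
        - dot (c.g1 p) x / c.u p ^ 2 * dot (c.g p) (c.g1 p) := by
      simp only [hy, dot, Pi.sub_apply, Pi.add_apply, Pi.smul_apply, smul_eq_mul]; ring
    rw [this, h1, h2]; ring
  have yb : dot (c.g1 p) y = 0 := by
    have : dot (c.g1 p) y = dot (c.g1 p) x - dot (c.g p) x * dot (c.g p) (c.g1 p)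
        - dot (c.g1 p) x / c.u p ^ 2 * dot (c.g1 p) (c.g1 p) := by
      simp only [hy, dot, Pi.sub_apply, Pi.add_apply, Pi.smul_apply, smul_eq_mul]; ring
    rw [this, h2, h3, div_mul_cancel₀ _ hu]; ring
  have yc : det3 (c.g p) (c.g1 p) y = 0 := by
    have : det3 (c.g p) (c.g1 p) y = det3 (c.g p) (c.g1 p) x := by
      simp only [hy, det3, Pi.sub_apply, Pi.add_apply, Pi.smul_apply, smul_eq_mul]; ring
    rw [this, hx]
  have hg := det3_mul_det3 (c.g p) (c.g1 p) y (c.g p) (c.g1 p) y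
  rw [yc, h1, h2, h3, ya, yb, dot_comm (c.g1 p) (c.g p), h2, dot_comm y (c.g p), ya,
    dot_comm y (c.g1 p), yb] at hg
  have : dot y y = 0 := by
    have : c.u p ^ 2 * dot y y = 0 := by linarith
    exact (mul_eq_zero.1 this).resolve_left hu
  exact sub_eq_zero.1 (eq_zero_of_dot_self this)

/-- A point of the sphere on the tangent great circle, orthogonal to the tangent, is `± g p`. -/
lemma eq_or_eq_neg (p : ℝ) (x : V) (hx1 : dot x x = 1) (hx : det3 (c.g p) (c.g1 p) x = 0)
    (hx' : dot (c.g1 p) x = 0) : x = c.g p ∨ x = -c.g p := by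
  have h := c.decomp p x hx
  rw [hx', zero_div, zero_smul, add_zero] at h
  set α := dot (c.g p) x
  have h2 : α * α = 1 := by
    have : dot x x = α * α * dot (c.g p) (c.g p) := by
      conv_lhs => rw [h]
      simp only [dot, Pi.smul_apply, smul_eq_mul]; ring
    rw [c.sph, hx1] at this; linarith
  rcases mul_self_eq_one_iff.1 h2 with h3 | h3
  · left; rw [h, h3, one_smul]
  · right; rw [h, h3, neg_smul, one_smul]

/-- Uniform local convexity. -/
lemma cvx_local (hk : ∀ θ, 0 < c.kap θ) :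
    ∃ δ > 0, ∀ p s, s ≠ p → |s - p| ≤ δ → 0 < c.F p s := by
  have h0 := c.c0
  have h1 := c.c1
  have h2 := c.c2
  have hcont : Continuous fun q : ℝ × ℝ => det3 (c.g q.1) (c.g1 q.1) (c.g2 (q.1 + q.2)) := by
    fun_prop
  have hO : IsOpen {q : ℝ × ℝ | 0 < det3 (c.g q.1) (c.g1 q.1) (c.g2 (q.1 + q.2))} :=
    isOpen_lt continuous_const hcont
  obtain ⟨u, v, -, hv, hu1, hv1, huv⟩ := generalized_tube_lemma (isCompact_Icc (a := 0) (b := 2 * π))
    (isCompact_singleton (x := (0 : ℝ))) hO (by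
      rintro ⟨p, d⟩ ⟨-, hd⟩
      obtain rfl : d = 0 := hd
      simpa [kap] using hk p)
  obtain ⟨ε, hε, hεv⟩ := Metric.isOpen_iff.1 hv 0 (hv1 rfl)
  have key : ∀ p d, |d| ≤ ε / 2 → 0 < det3 (c.g p) (c.g1 p) (c.g2 (p + d)) := by
    intro p d hd
    have hd' : d ∈ v := hεv (by simp only [Metric.mem_ball, dist_zero_right, norm_eq_abs]; linarith)
    have hp : toIcoMod two_pi_pos 0 p ∈ Icc (0 : ℝ) (2 * π) := by
      have := toIcoMod_mem_Ico two_pi_pos 0 p
      rw [zero_add] at this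
      exact Ico_subset_Icc_self this
    have := huv (show (toIcoMod two_pi_pos 0 p, d) ∈ u ×ˢ v from ⟨hu1 hp, hd'⟩)
    simp only [mem_ofPred_eq, toIcoMod] at this
    rwa [c.p0.sub_zsmul_eq, c.p1.sub_zsmul_eq, sub_add_eq_add_sub, c.p2.sub_zsmul_eq] at this
  refine ⟨ε / 2, by positivity, fun p s hs hsp => ?_⟩
  have hD : ∀ s, HasDerivAt (fun s => det3 (c.g p) (c.g1 p) (c.g1 s))
      (det3 (c.g p) (c.g1 p) (c.g2 s)) s := by
    intro s
    have := hasDerivAt_det3 (hasDerivAt_const s (c.g p)) (hasDerivAt_const s (c.g1 p)) (c.d2 s)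
    exact this.congr_deriv (by simp only [det3, Pi.zero_apply]; ring)
  have hmono : StrictMonoOn (fun s => det3 (c.g p) (c.g1 p) (c.g1 s))
      (Icc (p - ε / 2) (p + ε / 2)) := by
    refine strictMonoOn_of_deriv_pos (convex_Icc _ _)
      (fun s _ => (hD s).continuousAt.continuousWithinAt) fun s hs => ?_
    rw [(hD s).deriv]
    have hs' := interior_subset hs
    have := key p (s - p) (abs_le.2 ⟨by linarith [hs'.1], by linarith [hs'.2]⟩)
    rwa [add_sub_cancel] at this
  have hz : det3 (c.g p) (c.g1 p) (c.g1 p) = 0 := by simp only [det3]; ring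
  have hpm : p ∈ Icc (p - ε / 2) (p + ε / 2) := ⟨by linarith, by linarith⟩
  obtain ⟨hs1, hs2⟩ := abs_le.1 hsp
  rcases lt_or_gt_of_ne hs with h | h
  · obtain ⟨ξ, hξ, hξ'⟩ := exists_hasDerivAt_eq_slope (c.F p) _ h
      (fun x _ => (c.hasDerivAt_F_right p x).continuousAt.continuousWithinAt)
      (fun x _ => c.hasDerivAt_F_right p x)
    have := hmono ⟨by linarith [hξ.1], by linarith [hξ.2]⟩ hpm hξ.2
    simp only [hz] at this
    rw [hξ', c.F_self, div_neg_iff] at this
    rcases this with h' | h' <;> linarith [h'.1, h'.2]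
  · obtain ⟨ξ, hξ, hξ'⟩ := exists_hasDerivAt_eq_slope (c.F p) _ h
      (fun x _ => (c.hasDerivAt_F_right p x).continuousAt.continuousWithinAt)
      (fun x _ => c.hasDerivAt_F_right p x)
    have := hmono hpm ⟨by linarith [hξ.1], by linarith [hξ.2]⟩ hξ.1
    simp only [hz] at this
    rw [hξ', c.F_self, div_pos_iff] at this
    rcases this with h' | h' <;> linarith [h'.1, h'.2]

end SCurve

end Pool.Agent.Lib.MP_14b623_gt
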