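import Pool.Agent.Lib.MP_14b623_gt.IBas

/-! Pointwise minimality; parametrised free boundary minimal discs. -/

namespace Pool.Agent.Lib.MP_14b623_gt

open Set Real Filter Topology
open scoped ContDiff InnerProductSpace

variable {V : Type} [NormedAddCommGroup V] [NormedSpace ℝ V]

/-- Second derivative along `u`, then `v`. -/
noncomputable def d2 (X : V → E3) (p u v : V) : E3 := fderiv ℝ (fun q => fderiv ℝ X q u) p v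

/-- The minimal surface equation at `p` for the pair of vectors `u, v`. -/
def MinAt (X : V → E3) (p u v : V) : Prop :=
  ∀ N : E3, ⟪N, fderiv ℝ X p u⟫_ℝ = 0 → ⟪N, fderiv ℝ X p v⟫_ℝ = 0 →
    ⟪fderiv ℝ X p u, fderiv ℝ X p u⟫_ℝ * ⟪N, d2 X p v v⟫_ℝ
      - 2 * ⟪fderiv ℝ X p u, fderiv ℝ X p v⟫_ℝ * ⟪N, d2 X p u v⟫_ℝ
      + ⟪fderiv ℝ X p v, fderiv ℝ X p v⟫_ℝ * ⟪N, d2 X p u u⟫_ℝ = 0

/-- The closed unit disc in Cartesian coordinates. -/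
def Dsc : Set (ℝ × ℝ) := {p | p.1 ^ 2 + p.2 ^ 2 ≤ 1}

/-- A smooth parametrised free boundary minimal disc. -/
structure IsFBMDisc (X : ℝ × ℝ → E3) : Prop where
  smooth : ContDiff ℝ ∞ X
  immersion : ∀ p ∈ Dsc, 0 < gE X p * gG X p - gF X p ^ 2
  inBall : ∀ p ∈ Dsc, ‖X p‖ ≤ 1
  bdry : ∀ p : ℝ × ℝ, p.1 ^ 2 + p.2 ^ 2 = 1 → ‖X p‖ = 1
  minimal : ∀ p ∈ Dsc, ∀ N : E3, ⟪N, dT X p⟫_ℝ = 0 → ⟪N, dS X p⟫_ℝ = 0 →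
    gE X p * ⟪N, dS (dS X) p⟫_ℝ - 2 * gF X p * ⟪N, dS (dT X) p⟫_ℝ
      + gG X p * ⟪N, dT (dT X) p⟫_ℝ = 0
  orth : ∀ p : ℝ × ℝ, p.1 ^ 2 + p.2 ^ 2 = 1 → ∃ v, fderiv ℝ X p v = X p

theorem minAt_iff (X : ℝ × ℝ → E3) (p : ℝ × ℝ) : MinAt X p (1, 0) (0, 1) ↔
    ∀ N : E3, ⟪N, dT X p⟫_ℝ = 0 → ⟪N, dS X p⟫_ℝ = 0 →
      gE X p * ⟪N, dS (dS X) p⟫_ℝ - 2 * gF X p * ⟪N, dS (dT X) p⟫_ℝ
        + gG X p * ⟪N, dT (dT X) p⟫_ℝ = 0 := Iff.rfl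

end Pool.Agent.Lib.MP_14b623_gt
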