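import Pool.Agent.Lib.MP_14b623_gt.IDefs
import Pool.Agent.Lib.MP_14b623_gt.MDefs

/-! Polar coordinates and an auxiliary vector field on the disc. -/

namespace Pool.Agent.Lib.MP_14b623_gt

open Set Real Filter Topology
open scoped ContDiff InnerProductSpace

/-- Polar coordinates. -/
noncomputable def pol (p : ℝ × ℝ) : ℝ × ℝ := (p.1 * cos p.2, p.1 * sin p.2)

/-- A vector field that is radial at the origin and tangent to the unit circle. -/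
def dW (p : ℝ × ℝ) : ℝ × ℝ :=
  ((1 - (p.1 ^ 2 + p.2 ^ 2)) * p.1 - (p.1 ^ 2 + p.2 ^ 2) * p.2,
    (1 - (p.1 ^ 2 + p.2 ^ 2)) * p.2 + (p.1 ^ 2 + p.2 ^ 2) * p.1)

/-- The form `dθ + μ dt` on the field `dW`. -/
noncomputable def dH (μ : ℝ × ℝ → ℂ) (p : ℝ × ℝ) : ℂ := zf (μ p) (dW p)

/-- The regularised logarithmic energy density. -/
noncomputable def dE (F : ℝ × ℝ → ℂ) (δ : ℝ) (p : ℝ × ℝ) : ℝ :=
  (‖pT F p‖ ^ 2 + ‖pS F p‖ ^ 2) / (‖F p‖ ^ 2 + δ)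

theorem sm_pol : ContDiff ℝ ∞ pol := by
  unfold pol
  fun_prop

theorem pol_sq (p : ℝ × ℝ) : (pol p).1 ^ 2 + (pol p).2 ^ 2 = p.1 ^ 2 := by
  simp only [pol]
  linear_combination p.1 ^ 2 * cos_sq_add_sin_sq p.2

theorem per_pol : Per2 pol := fun t θ => by simp [pol]

theorem sm_dH {μ : ℝ × ℝ → ℂ} (hμ : ContDiff ℝ ∞ μ) : ContDiff ℝ ∞ (dH μ) := by
  have h : ContDiff ℝ ∞ dW := by
    unfold dW
    fun_prop
  exact (Complex.ofRealCLM.contDiff.comp h.snd).add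
    (hμ.mul (Complex.ofRealCLM.contDiff.comp h.fst))

theorem dH_zero (μ : ℝ × ℝ → ℂ) : dH μ 0 = 0 := by simp [dH, dW, zf]

theorem dH_bdry (μ : ℝ × ℝ → ℂ) {p : ℝ × ℝ} (hp : p.1 ^ 2 + p.2 ^ 2 = 1) :
    dH μ p = zf (μ p) (-p.2, p.1) := by simp [dH, dW, hp]

theorem dsc_compact : IsCompact Dsc := by
  refine (isCompact_closedBall (0 : ℝ × ℝ) 1).of_isClosed_subset
    (isClosed_le (by fun_prop) continuous_const) fun p (hp : p.1 ^ 2 + p.2 ^ 2 ≤ 1) => ?_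
  rw [mem_closedBall_zero_iff, Prod.norm_def, max_le_iff, Real.norm_eq_abs, Real.norm_eq_abs,
    ← sq_le_one_iff_abs_le_one, ← sq_le_one_iff_abs_le_one]
  constructor <;> nlinarith [sq_nonneg p.1, sq_nonneg p.2]

theorem dsc_convex : Convex ℝ Dsc := by
  intro p (hp : p.1 ^ 2 + p.2 ^ 2 ≤ 1) q (hq : q.1 ^ 2 + q.2 ^ 2 ≤ 1) a b ha hb hab
  change (a * p.1 + b * q.1) ^ 2 + (a * p.2 + b * q.2) ^ 2 ≤ 1
  obtain rfl : b = 1 - a := by linarith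
  nlinarith [mul_nonneg (mul_nonneg ha hb) (sq_nonneg (p.1 - q.1)),
    mul_nonneg (mul_nonneg ha hb) (sq_nonneg (p.2 - q.2)), mul_le_mul_of_nonneg_left hp ha,
    mul_le_mul_of_nonneg_left hq hb]

end Pool.Agent.Lib.MP_14b623_gt
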