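import Pool.Agent.Lib.MP_14b623_gt.IFrC
import Pool.Agent.Lib.MP_14b623_gt.DDefs

/-! The Hopf function along the boundary circle. -/

namespace Pool.Agent.Lib.MP_14b623_gt

open Set Real Filter Topology
open scoped ContDiff InnerProductSpace

theorem dbd_curve {f g : ℝ × ℝ → E3} (hf : ContDiff ℝ ∞ f) (hg : ContDiff ℝ ∞ g) {c : ℝ}
    (h : ∀ p : ℝ × ℝ, p.1 ^ 2 + p.2 ^ 2 = 1 → ⟪f p, g p⟫_ℝ = c) {p : ℝ × ℝ}
    (hp : p.1 ^ 2 + p.2 ^ 2 = 1) :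
    ⟪f p, fderiv ℝ g p (-p.2, p.1)⟫_ℝ + ⟪fderiv ℝ f p (-p.2, p.1), g p⟫_ℝ = 0 := by
  obtain ⟨γ, hγ⟩ : ∃ γ : ℝ → ℝ × ℝ,
      γ = fun s => (p.1 * cos s - p.2 * sin s, p.1 * sin s + p.2 * cos s) := ⟨_, rfl⟩
  have h0 : γ 0 = p := by simp [hγ]
  have h1 : HasDerivAt γ (-p.2, p.1) 0 := by
    have h2 := (((hasDerivAt_cos 0).const_mul p.1).sub ((hasDerivAt_sin 0).const_mul p.2)).prodMk
      (((hasDerivAt_sin 0).const_mul p.1).add ((hasDerivAt_cos 0).const_mul p.2))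
    rw [hγ]
    exact h2.congr_deriv (by simp)
  have h2 := ((sm_diff hf (γ 0)).hasFDerivAt.comp_hasDerivAt 0 h1).inner ℝ
    ((sm_diff hg (γ 0)).hasFDerivAt.comp_hasDerivAt 0 h1)
  have h3 : (fun s => ⟪(f ∘ γ) s, (g ∘ γ) s⟫_ℝ) = fun _ => c := funext fun s => h _ (by
    simp only [hγ]
    linear_combination (p.1 ^ 2 + p.2 ^ 2) * cos_sq_add_sin_sq s + hp)
  rw [h3] at h2
  simpa only [Function.comp, h0] using h2.unique (hasDerivAt_const _ _)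

theorem IsFBMDisc.bd_im {X : ℝ × ℝ → E3} (h : IsFBMDisc X) (Φ : Fr0 X) (hU : Dsc ⊆ Φ.U)
    {p : ℝ × ℝ} (hp : p.1 ^ 2 + p.2 ^ 2 = 1) :
    (Φ.q p * zf (Φ.μ p) (-p.2, p.1) ^ 2).im = 0 := by
  have h1 : ∀ p ∈ Dsc, ∀ v, fderiv ℝ X p v = (Φ.ρ p * (v.2 + Φ.m₁ p * v.1)) • Φ.e₁ p +
      (Φ.ρ p * (Φ.m₂ p * v.1)) • Φ.e₂ p := fun p hp v => by
    rw [fderiv_eq_pT_pS, Φ.hT p (hU hp), Φ.hS p (hU hp)]
    module
  have h2 : ∀ p ∈ Dsc, ∀ v, ⟪Φ.N p, fderiv ℝ X p v⟫_ℝ = 0 := fun p hp v => by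
    simp [h1 p hp, inner_add_right, inner_smul_right, Φ.oN1, Φ.oN2]
  have h3 : ∀ p : ℝ × ℝ, p.1 ^ 2 + p.2 ^ 2 = 1 → ⟪Φ.N p, X p⟫_ℝ = 0 := fun p hp => by
    obtain ⟨v, hv⟩ := h.orth p hp
    exact hv ▸ h2 p hp.le v
  have h4 : ∀ p : ℝ × ℝ, p.1 ^ 2 + p.2 ^ 2 = 1 → ⟪X p, X p⟫_ℝ = 1 := fun p hp => by
    rw [real_inner_self_eq_norm_sq, h.bdry p hp, one_pow]
  have h5 := dbd_curve Φ.sN h.smooth h3 hp
  have h6 := dbd_curve h.smooth h.smooth h4 hp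
  have h7 := Φ.parseval p (X p) (X p)
  rw [h2 p hp.le, Φ.parseval p, fderiv_eq_pT_pS] at h5
  rw [real_inner_comm (X p) (fderiv ℝ X p _), h1 p hp.le] at h6
  rw [h4 p hp] at h7
  have h8 := Φ.l_eq0 h.smooth (hU hp.le) (h.minimal p hp.le)
  obtain ⟨k1, k2⟩ := Φ.ifrb_k p
  obtain ⟨l1, l2⟩ := Φ.ifrb_l p
  simp only [h8, Complex.mul_re, Complex.mul_im, Φ.μ_re, Φ.μ_im] at l1 l2
  simp only [inner_add_left, inner_add_right, real_inner_smul_left, real_inner_smul_right,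
    real_inner_comm (Φ.N p) (X p), h3 p hp, neg_eq_iff_eq_neg.1 k1.symm, ← k2,
    neg_eq_iff_eq_neg.1 l1.symm, ← l2] at h5 h6 h7
  simp only [Fr0.q, zf, sq, Complex.mul_re, Complex.mul_im, Complex.add_re, Complex.add_im,
    Complex.ofReal_re, Complex.ofReal_im, Φ.μ_re, Φ.μ_im]
  generalize ⟪X p, Φ.e₁ p⟫_ℝ = α, ⟪X p, Φ.e₂ p⟫_ℝ = β, (Φ.k p).re = u, (Φ.k p).im = v at *
  have h9 : ∀ a b r : ℝ, -(u * a - v * b) * α + (u * b + v * a) * β = 0 →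
      r * (a * α + b * β) = 0 → r * ((u * a - v * b) * b + (u * b + v * a) * a) = 0 :=
    fun a b r h5 h6 => by
      linear_combination r * ((u * a - v * b) * b + (u * b + v * a) * a) * h7 +
        (α * (u * b + v * a) + β * (u * a - v * b)) * h6 + r * (a * β - b * α) * h5
  linear_combination h9 (p.1 - Φ.m₁ p * p.2) (-Φ.m₂ p * p.2) (Φ.ρ p) (by linear_combination h5)
    (by linear_combination h6 / 2)

end Pool.Agent.Lib.MP_14b623_gt
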