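import Pool.Agent.Lib.MP_14b623_gt.IZa
import Pool.Agent.Lib.MP_14b623_gt.DDefs

/-! The energy bound on the disc. -/

namespace Pool.Agent.Lib.MP_14b623_gt

open Set Real Filter Topology
open scoped ContDiff InnerProductSpace

theorem de_chain {F : ℝ × ℝ → ℂ} (hF : ContDiff ℝ ∞ F) (t θ : ℝ) :
    pT (F ∘ pol) (t, θ) = cos θ • pT F (pol (t, θ)) + sin θ • pS F (pol (t, θ)) ∧
    pS (F ∘ pol) (t, θ) = (t * -sin θ) • pT F (pol (t, θ)) + (t * cos θ) • pS F (pol (t, θ)) :=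
  ⟨(pT_of_hasDerivAt (sm_diff (hF.comp sm_pol) _) ((sm_diff hF _).hasFDerivAt.comp_hasDerivAt t
      ((hasDerivAt_mul_const (cos θ)).prodMk (hasDerivAt_mul_const (sin θ))))).trans
      (fderiv_eq_pT_pS F _ _),
    (pS_of_hasDerivAt (sm_diff (hF.comp sm_pol) _) ((sm_diff hF _).hasFDerivAt.comp_hasDerivAt θ
      (((hasDerivAt_cos θ).const_mul t).prodMk ((hasDerivAt_sin θ).const_mul t)))).trans
      (fderiv_eq_pT_pS F _ _)⟩

theorem de_jac {F : ℝ × ℝ → ℂ} (hF : ContDiff ℝ ∞ F) (h0 : F 0 = 0)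
    (h1 : ∀ p : ℝ × ℝ, p.1 ^ 2 + p.2 ^ 2 = 1 → (F p).im = 0) {δ : ℝ} (hδ : 0 < δ) :
    ∫ t in (0 : ℝ)..1, ∫ θ in (0 : ℝ)..(2 * π),
      t * (((pT F (pol (t, θ))).im * (pS F (pol (t, θ))).re -
        (pT F (pol (t, θ))).re * (pS F (pol (t, θ))).im) / (‖F (pol (t, θ))‖ ^ 2 + δ)) = 0 := by
  have hq := hF.comp sm_pol
  have h5 := z_jac (A := 0) (B := 1) (u := fun p => Complex.reCLM ((F ∘ pol) p))
    (v := fun p => Complex.imCLM ((F ∘ pol) p)) (Complex.reCLM.contDiff.comp hq)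
    (Complex.imCLM.contDiff.comp hq) (fun t θ => by simp only [Function.comp, per_pol t θ])
    (fun t θ => by simp only [Function.comp, per_pol t θ])
    (fun θ => by simp [show pol (0, θ) = 0 by simp [pol], h0])
    (fun θ => h1 _ ((pol_sq _).trans (one_pow 2))) hδ
  simp only [fun L p => (iza_clm hq L p).1, fun L p => (iza_clm hq L p).2,
    fun t θ => (de_chain hF t θ).1, fun t θ => (de_chain hF t θ).2] at h5
  rw [← h5]
  congr 1
  funext t
  congr 1
  funext θ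
  rw [Complex.sq_norm, Complex.normSq_apply, ← mul_div_assoc]
  simp only [map_add, map_smul, Complex.reCLM_apply, Complex.imCLM_apply, smul_eq_mul,
    Function.comp, sq]
  congr 1
  linear_combination -t * ((pT F (pol (t, θ))).im * (pS F (pol (t, θ))).re -
    (pT F (pol (t, θ))).re * (pS F (pol (t, θ))).im) * cos_sq_add_sin_sq θ

theorem de_energy {F μ : ℝ × ℝ → ℂ} (hF : ContDiff ℝ ∞ F) (hμ : Continuous μ)
    (him : ∀ p, 0 < (μ p).im) {K : ℝ} (hb : ∀ p : ℝ × ℝ, p.1 ^ 2 + p.2 ^ 2 < 1 →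
      ‖pT F p - μ p * pS F p‖ ≤ K * ‖F p‖) (h0 : F 0 = 0)
    (h1 : ∀ p : ℝ × ℝ, p.1 ^ 2 + p.2 ^ 2 = 1 → (F p).im = 0) :
    ∃ C : ℝ, ∀ δ : ℝ, 0 < δ → ∫ t in (0 : ℝ)..1, ∫ θ in (0 : ℝ)..(2 * π),
      t * dE F δ (pol (t, θ)) ≤ C := by
  obtain ⟨p₀, -, h2⟩ := dsc_compact.exists_isMinOn ⟨0, by simp [Dsc]⟩
    (Complex.continuous_im.comp hμ).continuousOn
  obtain ⟨K₁, h3⟩ := dsc_compact.exists_bound_of_continuousOn hμ.continuousOn
  obtain ⟨M, M', hM, h4⟩ := z_alg (K := max K₁ |K|) (him p₀)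
  refine ⟨2 * π * M', fun δ hδ => ?_⟩
  have c0 := hF.continuous
  have c1 := (sm_pT hF).continuous
  have c2 := (sm_pS hF).continuous
  have c3 := sm_pol.continuous
  have hp : ∀ p, 0 < ‖F p‖ ^ 2 + δ := fun p => by positivity
  obtain ⟨J, hJ⟩ : ∃ J : ℝ × ℝ → ℝ, J = fun p => ((pT F p).im * (pS F p).re -
      (pT F p).re * (pS F p).im) / (‖F p‖ ^ 2 + δ) := ⟨_, rfl⟩
  have cJ : Continuous J := hJ ▸ Continuous.div (by fun_prop) (by fun_prop) fun p => (hp p).ne'
  have cE : Continuous (dE F δ) := Continuous.div (by fun_prop) (by fun_prop) fun p => (hp p).ne'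
  have h6 : ∀ p : ℝ × ℝ, p.1 ^ 2 + p.2 ^ 2 < 1 → dE F δ p ≤ M * J p + M' := fun p h => by
    have h7 := h4 _ ((pT F p - μ p * pS F p) / F p) (F p) (pS F p) (pT F p) (h2 h.le)
      ((h3 p h.le).trans (le_max_left _ _)) (le_max_of_le_right (by
        rw [norm_div]
        exact div_le_of_le_mul₀ (norm_nonneg _) (abs_nonneg _)
          ((hb p h).trans (by gcongr; exact le_abs_self K)))) (by
        by_cases h8 : F p = 0
        · simpa [h8, sub_eq_zero] using hb p h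
        · rw [div_mul_cancel₀ _ h8, add_sub_cancel])
    simp only [dE, hJ]
    rw [div_le_iff₀ (hp p), add_mul, mul_assoc, div_mul_cancel₀ _ (hp p).ne']
    nlinarith [mul_nonneg hM hδ.le]
  have h7 : ∫ t in (0 : ℝ)..1, ∫ θ in (0 : ℝ)..(2 * π), t * J (pol (t, θ)) = 0 := by
    simpa only [hJ] using de_jac hF h0 h1 hδ
  have cI : ∀ {f : ℝ × ℝ → ℝ}, Continuous f →
      Continuous fun t => ∫ θ in (0 : ℝ)..(2 * π), t * f (pol (t, θ)) := fun {f} hf =>
    intervalIntegral.continuous_parametric_intervalIntegral_of_continuous'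
      (f := fun t θ => t * f (pol (t, θ))) (by fun_prop) _ _
  have h8 : ∀ t ∈ Ioo (0 : ℝ) 1, ∫ θ in (0 : ℝ)..(2 * π), t * dE F δ (pol (t, θ)) ≤
      M * (∫ θ in (0 : ℝ)..(2 * π), t * J (pol (t, θ))) + 2 * π * M' := fun t ht => by
    refine (intervalIntegral.integral_mono_on (g := fun θ => M * (t * J (pol (t, θ))) + M')
      two_pi_pos.le (Continuous.intervalIntegrable (by fun_prop) _ _)
      (Continuous.intervalIntegrable (by fun_prop) _ _) fun θ _ => ?_).trans_eq ?_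
    · have h9 := mul_le_mul_of_nonneg_left (h6 (pol (t, θ))
        ((pol_sq _).trans_lt (pow_lt_one₀ ht.1.le ht.2 two_ne_zero))) ht.1.le
      linarith [mul_le_of_le_one_left hM ht.2.le]
    rw [intervalIntegral.integral_add (Continuous.intervalIntegrable (by fun_prop) _ _)
      intervalIntegrable_const, intervalIntegral.integral_const_mul]
    simp
  have cJ' := cI cJ
  have h9 := intervalIntegral.integral_mono_on_of_le_Ioo (μ := MeasureTheory.volume) zero_le_one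
    ((cI cE).intervalIntegrable _ _) (Continuous.intervalIntegrable (by fun_prop) _ _) h8
  rw [intervalIntegral.integral_add (Continuous.intervalIntegrable (by fun_prop) _ _)
    intervalIntegrable_const, intervalIntegral.integral_const_mul, h7] at h9
  simpa using h9

end Pool.Agent.Lib.MP_14b623_gt
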