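import Pool.Agent.Lib.MP_14b623_gt.IFrA
import Pool.Agent.Lib.MP_14b623_gt.DDefs

/-! A frame adapted to a disc. -/

namespace Pool.Agent.Lib.MP_14b623_gt

open Set Real Filter Topology
open scoped ContDiff InnerProductSpace

theorem dfr_squeeze {s : ℝ} (hs : 1 < s) : ∃ σ : ℝ × ℝ → ℝ × ℝ, ContDiff ℝ ∞ σ ∧
    (∀ p, s⁻¹ • σ p ∈ Dsc) ∧ ∀ p : ℝ × ℝ, p.1 ^ 2 + p.2 ^ 2 < (1 + s ^ 2) / 2 → σ p = p := by
  have h1 : 1 < s ^ 2 := one_lt_pow₀ hs two_ne_zero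
  let β : ContDiffBump (0 : ℝ) := ⟨(1 + s ^ 2) / 2, s ^ 2, by linarith, by linarith⟩
  refine ⟨fun p => β (p.1 ^ 2 + p.2 ^ 2) • p, (β.contDiff.comp (by fun_prop)).smul contDiff_id,
    fun p => ?_, fun p hp => ?_⟩
  · have h2 : 0 ≤ p.1 ^ 2 + p.2 ^ 2 := by positivity
    by_cases h : p.1 ^ 2 + p.2 ^ 2 < s ^ 2
    · have h3 : β (p.1 ^ 2 + p.2 ^ 2) ^ 2 ≤ 1 := pow_le_one₀ β.nonneg β.le_one
      have h4 := (div_le_one (zero_lt_one.trans h1)).2 ((mul_le_of_le_one_left h2 h3).trans h.le)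
      refine le_of_eq_of_le ?_ h4
      simp only [Prod.smul_fst, Prod.smul_snd, smul_eq_mul]
      ring
    · have h3 : β (p.1 ^ 2 + p.2 ^ 2) = 0 := β.zero_of_le_dist (by
        rw [dist_zero_right, norm_of_nonneg h2]
        exact not_lt.1 h)
      simp [Dsc, h3]
  · have h3 : β (p.1 ^ 2 + p.2 ^ 2) = 1 := β.one_of_mem_closedBall (by
      rw [mem_closedBall_zero_iff, norm_of_nonneg (by positivity)]
      exact hp.le)
    simp [h3]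

theorem IsFBMDisc.exists_fr0 {X : ℝ × ℝ → E3} (h : IsFBMDisc X) : ∃ Φ : Fr0 X, Dsc ⊆ Φ.U := by
  have sT := sm_pT h.smooth
  have sS := sm_pS h.smooth
  obtain ⟨D, hD⟩ : ∃ D : ℝ × ℝ → ℝ, D = fun p => ⟪pT X p, pT X p⟫_ℝ * ⟪pS X p, pS X p⟫_ℝ -
    ⟪pT X p, pS X p⟫_ℝ ^ 2 := ⟨_, rfl⟩
  have cD : Continuous D :=
    hD ▸ (((sT.inner ℝ sT).mul (sS.inner ℝ sS)).sub ((sT.inner ℝ sS).pow 2)).continuous
  have h1 : ∀ᶠ s : ℝ in 𝓝 1, ∀ p ∈ Dsc, 0 < D (s • p) :=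
    dsc_compact.eventually_forall_of_forall_eventually fun p hp =>
      ContinuousAt.eventually_lt (f := fun _ => 0) continuousAt_const (by fun_prop)
        (by rw [one_smul, hD]; exact h.immersion p hp)
  obtain ⟨s, h2, hs⟩ := ((h1.filter_mono nhdsWithin_le_nhds).and
    (self_mem_nhdsWithin (s := Ioi 1))).exists
  obtain ⟨σ, sσ, h3, h4⟩ := dfr_squeeze hs
  obtain ⟨Φ, hU, -⟩ := Pool.Agent.Lib.MP_14b623_gt.exists_fr0 (X := X) (sT.comp sσ) (sS.comp sσ)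
    (fun p => by simpa [hD, smul_smul, (zero_lt_one.trans hs).ne'] using h2 _ (h3 p))
    (isOpen_lt (f := fun p : ℝ × ℝ => p.1 ^ 2 + p.2 ^ 2) (g := fun _ => (1 + s ^ 2) / 2)
      (by fun_prop) continuous_const)
    fun p hp => by simp only [Function.comp, h4 p hp, and_self]
  refine ⟨Φ, fun p (hp : p.1 ^ 2 + p.2 ^ 2 ≤ 1) => ?_⟩
  rw [hU, mem_ofPred_eq]
  linarith [one_lt_pow₀ (show 1 < s from hs) two_ne_zero]

end Pool.Agent.Lib.MP_14b623_gt
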