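import Pool.Agent.Lib.MP_14b623_gt.IDefs

/-! Integrals over a cone in the cylinder. -/

namespace Pool.Agent.Lib.MP_14b623_gt

open Set Real Filter Topology
open scoped ContDiff InnerProductSpace

theorem z_cone_int {A B : ℝ} {e : ℝ × ℝ → ℝ} (he : Continuous e) (pe : Per2 e)
    (h0 : ∀ p, 0 ≤ e p) {t₀ θ₀ d h a r₁ : ℝ} (h1 : t₀ ∈ Icc A B) (h2 : t₀ + d ∈ Icc A B)
    (ha : a ∈ Icc 0 (2 * π)) (hr : r₁ ∈ Icc (0 : ℝ) 1) :
    |d| * ∫ r in r₁..1, ∫ σ in (0 : ℝ)..a, r * e (t₀ + r * d, θ₀ + r * (h + σ)) ≤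
      ∫ t in A..B, ∫ θ in (0 : ℝ)..(2 * π), e (t, θ) := by
  set G : ℝ → ℝ := fun t => ∫ θ in (0 : ℝ)..(2 * π), e (t, θ) with hG
  have cG : Continuous G :=
    intervalIntegral.continuous_parametric_intervalIntegral_of_continuous' (by fun_prop) _ _
  have G0 : ∀ t, 0 ≤ G t := fun t =>
    intervalIntegral.integral_nonneg two_pi_pos.le fun θ _ => h0 _
  have k1 : ∀ r ∈ Icc r₁ 1, ∫ σ in (0 : ℝ)..a, r * e (t₀ + r * d, θ₀ + r * (h + σ)) ≤
      G (t₀ + d * r) := fun r hr' => by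
    have r0 := hr.1.trans hr'.1
    have e1 := intervalIntegral.smul_integral_comp_add_mul (a := 0) (b := a)
      (fun x => e (t₀ + d * r, x)) r (θ₀ + r * h)
    have e2 := (pe.periodic (t₀ + d * r)).intervalIntegral_add_eq (θ₀ + r * h) 0
    rw [zero_add] at e2
    rw [mul_zero, add_zero, smul_eq_mul] at e1
    simp only [intervalIntegral.integral_const_mul, mul_add, ← add_assoc, mul_comm r d]
    rw [e1, hG]
    refine le_of_le_of_eq (intervalIntegral.integral_mono_interval le_rfl ?_ ?_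
      (Eventually.of_forall fun x => h0 _) (Continuous.intervalIntegrable (by fun_prop) _ _)) e2
    · linarith [mul_nonneg r0 ha.1]
    · nlinarith [hr'.2, ha.1, ha.2]
  have k2 := intervalIntegral.integral_mono_on (μ := MeasureTheory.volume) hr.2
    (Continuous.intervalIntegrable
      (intervalIntegral.continuous_parametric_intervalIntegral_of_continuous' (by fun_prop) _ _) _ _)
    (Continuous.intervalIntegrable (by fun_prop) _ _) k1
  refine (mul_le_mul_of_nonneg_left k2 (abs_nonneg d)).trans ?_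
  have e3 := intervalIntegral.smul_integral_comp_add_mul (a := r₁) (b := 1) G d t₀
  rw [smul_eq_mul, mul_one] at e3
  have mono : ∀ x y, A ≤ x → x ≤ y → y ≤ B → ∫ t in x..y, G t ≤ ∫ t in A..B, G t :=
    fun x y a1 a2 a3 => intervalIntegral.integral_mono_interval a1 a2 a3
      (Eventually.of_forall G0) (cG.intervalIntegrable _ _)
  rcases le_total 0 d with hd | hd
  · rw [abs_of_nonneg hd, e3]
    exact mono _ _ (by nlinarith [h1.1, hr.1]) (by nlinarith [hr.2]) h2.2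
  · rw [abs_of_nonpos hd, neg_mul, e3, ← intervalIntegral.integral_symm]
    exact mono _ _ h2.1 (by nlinarith [hr.2]) (by nlinarith [h1.2, hr.1])

theorem izb_alg {r δ D : ℝ} (hr : 0 < r) (hδ : 0 < δ) {v : ℝ × ℝ} (hD : v.1 ^ 2 + v.2 ^ 2 ≤ D)
    {x y a b : ℂ} (h : y = v.1 • a + v.2 • b) : 2 * ⟪x, y⟫_ℝ / (‖x‖ ^ 2 + δ) - r⁻¹ ≤
      D * (r * ((‖a‖ ^ 2 + ‖b‖ ^ 2) / (‖x‖ ^ 2 + δ))) := by
  have h1 : ‖y‖ ≤ |v.1| * ‖a‖ + |v.2| * ‖b‖ := by
    rw [h]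
    exact (norm_add_le _ _).trans (by rw [norm_smul, norm_smul]; rfl)
  have h2 : ‖y‖ ^ 2 ≤ D * (‖a‖ ^ 2 + ‖b‖ ^ 2) := by
    have h3 := pow_le_pow_left₀ (norm_nonneg _) h1 2
    have h4 := mul_le_mul_of_nonneg_right hD (by positivity : 0 ≤ ‖a‖ ^ 2 + ‖b‖ ^ 2)
    rw [← sq_abs v.1, ← sq_abs v.2] at h4
    nlinarith [sq_nonneg (|v.1| * ‖b‖ - |v.2| * ‖a‖)]
  have h5 := real_inner_le_norm x y
  have h6 : 0 < ‖x‖ ^ 2 + δ := by positivity
  have h7 : 2 * ⟪x, y⟫_ℝ * r ≤ ‖x‖ ^ 2 + δ + D * (‖a‖ ^ 2 + ‖b‖ ^ 2) * r ^ 2 := by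
    nlinarith [sq_nonneg (‖x‖ - r * ‖y‖), mul_le_mul_of_nonneg_right h2 (sq_nonneg r),
      mul_le_mul_of_nonneg_right h5 hr.le]
  rw [sub_le_iff_le_add, div_le_iff₀ h6, ← mul_le_mul_iff_left₀ hr]
  refine h7.trans_eq ?_
  field_simp
  ring

theorem z_ray {q : ℝ × ℝ → ℂ} (hq : ContDiff ℝ ∞ q) (p v : ℝ × ℝ) {D δ r₁ : ℝ} (hδ : 0 < δ)
    (hD : v.1 ^ 2 + v.2 ^ 2 ≤ D) (hr : r₁ ∈ Ioc (0 : ℝ) 1) :
    Real.log (‖q (p + v)‖ ^ 2 + δ) - Real.log (‖q (p + r₁ • v)‖ ^ 2 + δ) ≤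
      D * (∫ r in r₁..1, r * ((‖pT q (p + r • v)‖ ^ 2 + ‖pS q (p + r • v)‖ ^ 2) /
        (‖q (p + r • v)‖ ^ 2 + δ))) - Real.log r₁ := by
  have pos : ∀ r : ℝ, 0 < ‖q (p + r • v)‖ ^ 2 + δ := fun r => by positivity
  have d1 : ∀ r : ℝ, HasDerivAt (fun r : ℝ => q (p + r • v)) (fderiv ℝ q (p + r • v) v) r :=
    fun r => (sm_diff hq _).hasFDerivAt.comp_hasDerivAt r (by
      simpa using ((hasDerivAt_id r).smul_const v).const_add p)
  have d2 : ∀ r ∈ Icc r₁ 1, HasDerivAt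
      (fun r : ℝ => Real.log (‖q (p + r • v)‖ ^ 2 + δ) - Real.log r)
      (2 * ⟪q (p + r • v), fderiv ℝ q (p + r • v) v⟫_ℝ / (‖q (p + r • v)‖ ^ 2 + δ) - r⁻¹) r :=
    fun r h => (((d1 r).norm_sq.add_const δ).log (pos r).ne').sub
      (Real.hasDerivAt_log (hr.1.trans_le h.1).ne')
  have c1 := hq.continuous
  have c2 := (sm_pT hq).continuous
  have c3 := (sm_pS hq).continuous
  have c4 : Continuous fun r : ℝ => D * (r * ((‖pT q (p + r • v)‖ ^ 2 + ‖pS q (p + r • v)‖ ^ 2) /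
      (‖q (p + r • v)‖ ^ 2 + δ))) :=
    continuous_const.mul (continuous_id.mul
      (Continuous.div (by fun_prop) (by fun_prop) fun r => (pos r).ne'))
  have h := intervalIntegral.sub_le_integral_of_hasDeriv_right_of_le hr.2
    (fun r h => (d2 r h).continuousAt.continuousWithinAt)
    (fun r h => (d2 r (Ioo_subset_Icc_self h)).hasDerivWithinAt) c4.integrableOn_Icc
    fun r h => izb_alg (hr.1.trans h.1) hδ hD (fderiv_eq_pT_pS q _ v)
  rw [intervalIntegral.integral_const_mul, one_smul, Real.log_one] at h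
  linarith

end Pool.Agent.Lib.MP_14b623_gt
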