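import Pool.Agent.Lib.MP_14b623_gt.CvxBasic

namespace Pool.Agent.Lib.MP_14b623_gt

open Set Real Function
open scoped ComplexConjugate InnerProductSpace

lemma tdiv_swap {f : ℝ → ℝ → ℝ} (cf : Continuous (uncurry f)) (a b c d : ℝ) :
    ∫ t in a..b, ∫ θ in c..d, f t θ = ∫ θ in c..d, ∫ t in a..b, f t θ := by
  apply MeasureTheory.intervalIntegral_intervalIntegral_swap
  have h : MeasureTheory.IntegrableOn (uncurry f) (uIcc a b ×ˢ uIcc c d) :=
    cf.continuousOn.integrableOn_compact (isCompact_uIcc.prod isCompact_uIcc)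
  exact h.mono_set (prod_mono uIoc_subset_uIcc uIoc_subset_uIcc)

theorem div_strip {ft fs ftt fss : ℝ → ℝ → ℝ} (cft : Continuous (uncurry ft))
    (cftt : Continuous (uncurry ftt)) (cfss : Continuous (uncurry fss))
    (dtt : ∀ t θ, HasDerivAt (fun t => ft t θ) (ftt t θ) t)
    (dss : ∀ t θ, HasDerivAt (fs t) (fss t θ) θ) (ps : ∀ t, fs t (2 * π) = fs t 0) (a b : ℝ) :
    ∫ t in a..b, ∫ θ in (0 : ℝ)..(2 * π), (ftt t θ + fss t θ) =
      (∫ θ in (0 : ℝ)..(2 * π), ft b θ) - ∫ θ in (0 : ℝ)..(2 * π), ft a θ := by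
  have h1 : ∀ t, ∫ θ in (0 : ℝ)..(2 * π), (ftt t θ + fss t θ) =
      ∫ θ in (0 : ℝ)..(2 * π), ftt t θ := by
    intro t
    rw [intervalIntegral.integral_add ((cftt.uncurry_left t).intervalIntegrable _ _)
      ((cfss.uncurry_left t).intervalIntegrable _ _),
      intervalIntegral.integral_eq_sub_of_hasDerivAt (fun θ _ => dss t θ)
        ((cfss.uncurry_left t).intervalIntegrable _ _), ps t, sub_self, add_zero]
  simp only [h1]
  rw [tdiv_swap cftt]
  have h2 : ∀ θ, ∫ t in a..b, ftt t θ = ft b θ - ft a θ := fun θ =>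
    intervalIntegral.integral_eq_sub_of_hasDerivAt (f := fun t => ft t θ) (fun t _ => dtt t θ)
      ((cftt.uncurry_right θ).intervalIntegrable _ _)
  simp only [h2]
  exact intervalIntegral.integral_sub ((cft.uncurry_left b).intervalIntegrable _ _)
    ((cft.uncurry_left a).intervalIntegrable _ _)

lemma tdiv_cont_dot {f g : ℝ → ℝ → V} (hf : Continuous (uncurry f)) (hg : Continuous (uncurry g)) :
    Continuous (uncurry fun t θ => dot (f t θ) (g t θ)) :=
  continuous_dot (f := uncurry f) (g := uncurry g) hf hg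

lemma tdiv_cont_coord {f : ℝ → ℝ → V} (hf : Continuous (uncurry f)) (i : Fin 3) :
    Continuous (uncurry fun t θ => f t θ i) :=
  (continuous_apply i).comp hf

theorem Ann0.area_eq (S : Ann0) :
    ∫ t in S.A..S.B, ∫ θ in (0 : ℝ)..(2 * π), S.u t θ ^ 2 = π * (S.curveA.len + S.curveB.len) := by
  have h := div_strip (ft := fun t θ => dot (S.X t θ) (S.Xt t θ))
    (fs := fun t θ => dot (S.X t θ) (S.Xs t θ))
    (ftt := fun t θ => dot (S.Xt t θ) (S.Xt t θ) + dot (S.X t θ) (S.Xtt t θ))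
    (fss := fun t θ => dot (S.Xs t θ) (S.Xs t θ) + dot (S.X t θ) (S.Xss t θ))
    (tdiv_cont_dot S.cX S.cXt)
    ((tdiv_cont_dot S.cXt S.cXt).add (tdiv_cont_dot S.cX S.cXtt))
    ((tdiv_cont_dot S.cXs S.cXs).add (tdiv_cont_dot S.cX S.cXss))
    (fun t θ => hasDerivAt_dot (S.dXt t θ) (S.dXtt t θ))
    (fun t θ => hasDerivAt_dot (S.dXs t θ) (S.dXss t θ))
    (fun t => by
      have h1 := S.pX t 0
      have h2 := S.pXs t 0
      rw [zero_add] at h1 h2
      simp only [h1, h2]) S.A S.B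
  have e1 : ∫ t in S.A..S.B, ∫ θ in (0 : ℝ)..(2 * π),
      ((dot (S.Xt t θ) (S.Xt t θ) + dot (S.X t θ) (S.Xtt t θ)) +
        (dot (S.Xs t θ) (S.Xs t θ) + dot (S.X t θ) (S.Xss t θ))) =
      ∫ t in S.A..S.B, 2 * ∫ θ in (0 : ℝ)..(2 * π), S.u t θ ^ 2 := by
    refine intervalIntegral.integral_congr fun t ht => ?_
    rw [uIcc_of_le S.hAB.le] at ht
    rw [← intervalIntegral.integral_const_mul]
    refine intervalIntegral.integral_congr fun θ _ => ?_
    have h0 : dot (S.X t θ) (S.Xtt t θ) + dot (S.X t θ) (S.Xss t θ) = 0 := by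
      have hh := S.harm t ht θ
      have : dot (S.X t θ) (S.Xtt t θ) + dot (S.X t θ) (S.Xss t θ) =
          dot (S.X t θ) (S.Xtt t θ + S.Xss t θ) := by
        simp only [dot, Pi.add_apply]; ring
      rw [this, hh]; simp [dot]
    simp only [S.eT t ht θ, S.eS t ht θ]
    linarith
  have eB : ∀ θ, dot (S.X S.B θ) (S.Xt S.B θ) = S.u S.B θ := by
    intro θ
    have : dot (S.X S.B θ) (S.u S.B θ • S.X S.B θ) = S.u S.B θ * dot (S.X S.B θ) (S.X S.B θ) := by
      simp only [dot, Pi.smul_apply, smul_eq_mul]; ring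
    rw [S.nB θ, this, S.bB θ, mul_one]
  have eA : ∀ θ, dot (S.X S.A θ) (S.Xt S.A θ) = -S.u S.A θ := by
    intro θ
    have : dot (S.X S.A θ) (-(S.u S.A θ • S.X S.A θ)) =
        -(S.u S.A θ * dot (S.X S.A θ) (S.X S.A θ)) := by
      simp only [dot, Pi.neg_apply, Pi.smul_apply, smul_eq_mul]; ring
    rw [S.nA θ, this, S.bA θ, mul_one]
  rw [e1, intervalIntegral.integral_const_mul] at h
  simp only [eA, eB, intervalIntegral.integral_neg] at h
  have lA : S.curveA.len = (∫ θ in (0 : ℝ)..(2 * π), S.u S.A θ) / (2 * π) := rfl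
  have lB : S.curveB.len = (∫ θ in (0 : ℝ)..(2 * π), S.u S.B θ) / (2 * π) := rfl
  rw [lA, lB]
  have hp : π ≠ 0 := pi_ne_zero
  field_simp
  linarith

theorem Ann0.flux_const (S : Ann0) (t : ℝ) (ht : t ∈ Icc S.A S.B) (i : Fin 3) :
    av (fun θ => S.Xt t θ i) = av fun θ => S.Xt S.B θ i := by
  have h := div_strip (ft := fun t θ => S.Xt t θ i) (fs := fun t θ => S.Xs t θ i)
    (ftt := fun t θ => S.Xtt t θ i) (fss := fun t θ => S.Xss t θ i)
    (tdiv_cont_coord S.cXt i) (tdiv_cont_coord S.cXtt i) (tdiv_cont_coord S.cXss i)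
    (fun t θ => hasDerivAt_coord (S.dXtt t θ) i) (fun t θ => hasDerivAt_coord (S.dXss t θ) i)
    (fun t => by
      have h2 := S.pXs t 0
      rw [zero_add] at h2
      simp only [h2]) t S.B
  have e1 : ∫ s in t..S.B, ∫ θ in (0 : ℝ)..(2 * π), (S.Xtt s θ i + S.Xss s θ i) =
      ∫ _ in t..S.B, (0 : ℝ) := by
    refine intervalIntegral.integral_congr fun s hs => ?_
    rw [uIcc_of_le ht.2] at hs
    have hs' : s ∈ Icc S.A S.B := ⟨ht.1.trans hs.1, hs.2⟩
    have : ∀ θ, S.Xtt s θ i + S.Xss s θ i = 0 := fun θ => congrFun (S.harm s hs' θ) i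
    simp only [this, intervalIntegral.integral_zero]
  rw [e1, intervalIntegral.integral_zero] at h
  unfold av
  rw [← sub_eq_zero.1 h.symm]

theorem Ann0.closing (S : Ann0) (i : Fin 3) :
    av (fun θ => S.X S.B θ i) - av (fun θ => S.X S.A θ i) =
      (S.B - S.A) * av fun θ => S.Xt S.B θ i := by
  have h := div_strip (ft := fun t θ => S.X t θ i) (fs := fun _ _ => 0)
    (ftt := fun t θ => S.Xt t θ i) (fss := fun _ _ => 0)
    (tdiv_cont_coord S.cX i) (tdiv_cont_coord S.cXt i) continuous_const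
    (fun t θ => hasDerivAt_coord (S.dXt t θ) i) (fun t θ => hasDerivAt_const _ _)
    (fun _ => rfl) S.A S.B
  have hp : (2 * π) ≠ 0 := two_pi_pos.ne'
  have e1 : ∫ s in S.A..S.B, ∫ θ in (0 : ℝ)..(2 * π), (S.Xt s θ i + 0) =
      ∫ _ in S.A..S.B, (∫ θ in (0 : ℝ)..(2 * π), S.Xt S.B θ i) := by
    refine intervalIntegral.integral_congr fun s hs => ?_
    rw [uIcc_of_le S.hAB.le] at hs
    have := S.flux_const s hs i
    unfold av at this
    simp only [add_zero]
    exact (div_left_inj' hp).1 this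
  rw [e1, intervalIntegral.integral_const, smul_eq_mul] at h
  unfold av
  rw [← sub_div, ← h, mul_div_assoc]

end Pool.Agent.Lib.MP_14b623_gt
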