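import Pool.Agent.Lib.MP_14b623_gt.IZa
import Pool.Agent.Lib.MP_14b623_gt.IZb
import Pool.Agent.Lib.MP_14b623_gt.TDiv

/-! No zeros: a solution of the Beltrami equation, real on the boundary, has no zero. -/

namespace Pool.Agent.Lib.MP_14b623_gt

open Set Real Filter Topology
open scoped ContDiff InnerProductSpace

theorem izc_seg {A B : ℝ} (hAB : A < B) {q : ℝ × ℝ → ℂ} (hq : Continuous q) (t₀ : ℝ) {p' : ℝ × ℝ}
    (hp' : p'.1 ∈ Icc A B) (h0 : q p' ≠ 0) : ∃ t₁ ∈ Icc A B, t₁ ≠ t₀ ∧ ∃ a ∈ Ioc 0 (2 * π),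
      ∃ c : ℝ, 0 < c ∧ ∀ σ ∈ Icc 0 a, c ≤ ‖q (t₁, p'.2 + σ)‖ := by
  have h1 := half_lt_self (norm_pos_iff.2 h0)
  obtain ⟨ε, hε, h2⟩ := Metric.eventually_nhds_iff.1
    (hq.norm.continuousAt.eventually_const_le h1)
  obtain ⟨t₁, h3, h4, h5⟩ : ∃ t₁ ∈ Icc A B, t₁ ≠ t₀ ∧ |t₁ - p'.1| < ε := by
    have h3 : max A (p'.1 - ε) < min B (p'.1 + ε) := by
      simp only [max_lt_iff, lt_min_iff]
      exact ⟨⟨hAB, by linarith [hp'.2]⟩, by linarith [hp'.1], by linarith⟩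
    obtain ⟨t₁, h4, h5⟩ := (Ioo_infinite h3).exists_notMem_finite (finite_singleton t₀)
    simp only [mem_Ioo, max_lt_iff, lt_min_iff] at h4
    exact ⟨t₁, ⟨h4.1.1.le, h4.2.1.le⟩, h5, abs_lt.2 ⟨by linarith [h4.1.2], by linarith [h4.2.2]⟩⟩
  refine ⟨t₁, h3, h4, min (ε / 2) (2 * π), ⟨lt_min (half_pos hε) two_pi_pos, min_le_right _ _⟩, _,
    half_pos (norm_pos_iff.2 h0), fun σ hσ => h2 ?_⟩
  rw [Prod.dist_eq, max_lt_iff, Real.dist_eq, Real.dist_eq, add_sub_cancel_left,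
    abs_of_nonneg hσ.1]
  exact ⟨h5, (hσ.2.trans (min_le_left _ _)).trans_lt (half_lt_self hε)⟩

theorem izc_lip {q : ℝ × ℝ → ℂ} (hq : ContDiff ℝ ∞ q) {p : ℝ × ℝ} (h0 : q p = 0) (R : ℝ) :
    ∃ L : ℝ, ∀ v : ℝ × ℝ, ‖v‖ ≤ R → ∀ r ∈ Icc (0 : ℝ) 1, ‖q (p + r • v)‖ ≤ L * r := by
  obtain ⟨C, hC⟩ := (isCompact_closedBall p R).exists_bound_of_continuousOn
    ((sm_one hq).continuous_fderiv one_ne_zero).continuousOn
  refine ⟨max C 0 * R, fun v hv r hr => ?_⟩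
  have h1 : ‖r • v‖ ≤ R * r := by
    rw [norm_smul, Real.norm_of_nonneg hr.1, mul_comm]
    exact mul_le_mul_of_nonneg_right hv hr.1
  have hR := (norm_nonneg _).trans hv
  have h2 := (convex_closedBall p R).norm_image_sub_le_of_norm_fderiv_le
    (fun x _ => sm_diff hq x) (fun x hx => (hC x hx).trans (le_max_left C 0))
    (Metric.mem_closedBall_self hR) (y := p + r • v) (by
      rw [mem_closedBall_iff_norm, add_sub_cancel_left]
      exact h1.trans (mul_le_of_le_one_right hR hr.2))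
  rw [h0, sub_zero, add_sub_cancel_left] at h2
  rw [mul_assoc]
  exact h2.trans (mul_le_mul_of_nonneg_left h1 (le_max_right _ _))

theorem z_cone {A B : ℝ} (hAB : A < B) {q : ℝ × ℝ → ℂ} (hq : ContDiff ℝ ∞ q) (pq : Per2 q) {C : ℝ}
    (hC : ∀ δ : ℝ, 0 < δ → ∫ t in A..B, ∫ θ in (0 : ℝ)..(2 * π),
      (‖pT q (t, θ)‖ ^ 2 + ‖pS q (t, θ)‖ ^ 2) / (‖q (t, θ)‖ ^ 2 + δ) ≤ C)
    {p p' : ℝ × ℝ} (hp : p.1 ∈ Icc A B) (hp' : p'.1 ∈ Icc A B) (h0 : q p = 0) : q p' = 0 := by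
  by_contra h1
  obtain ⟨t₁, ht₁, hne, a, ha, c, hc, h2⟩ := izc_seg hAB hq.continuous p.1 hp' h1
  obtain ⟨d, rfl⟩ : ∃ d, t₁ = p.1 + d := ⟨t₁ - p.1, by ring⟩
  have hd : 0 < |d| := abs_pos.2 fun h => hne (by rw [h, add_zero])
  obtain ⟨h, hh⟩ : ∃ h, p'.2 = p.2 + h := ⟨p'.2 - p.2, by ring⟩
  obtain ⟨R, hR⟩ : ∃ R, R = |d| + |h| + a := ⟨_, rfl⟩
  have h3 : ∀ σ ∈ Icc 0 a, |d| ≤ R ∧ |h + σ| ≤ R := fun σ hσ =>
    ⟨by linarith [abs_nonneg h, ha.1], (abs_add_le _ _).trans (by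
      rw [abs_of_nonneg hσ.1]
      linarith [hσ.2])⟩
  obtain ⟨L, hL⟩ := izc_lip hq h0 R
  obtain ⟨n, hn⟩ := exists_nat_gt
    (Real.log (L ^ 2 + 1) - Real.log (c ^ 2) + 2 * R ^ 2 * (C / |d|) / a)
  obtain ⟨r₁, hr₁⟩ : ∃ r₁, r₁ = Real.exp (-n) := ⟨_, rfl⟩
  have h4 : r₁ ∈ Ioc (0 : ℝ) 1 :=
    hr₁ ▸ ⟨Real.exp_pos _, Real.exp_le_one_iff.2 (neg_nonpos.2 n.cast_nonneg)⟩
  have h5 : Real.log r₁ = -n := by rw [hr₁, Real.log_exp]
  have hδ : 0 < r₁ ^ 2 := pow_pos h4.1 2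
  obtain ⟨e, he⟩ : ∃ e : ℝ × ℝ → ℝ,
      e = fun p => (‖pT q p‖ ^ 2 + ‖pS q p‖ ^ 2) / (‖q p‖ ^ 2 + r₁ ^ 2) := ⟨_, rfl⟩
  have c0 := hq.continuous
  have c1 := (sm_pT hq).continuous
  have c2 := (sm_pS hq).continuous
  have ce : Continuous e := he ▸ Continuous.div (by fun_prop) (by fun_prop) fun p => by positivity
  have h6 := z_cone_int (θ₀ := p.2) (h := h) ce
    (fun t θ => by simp only [he, pq t θ, pq.pT t θ, pq.pS t θ])
    (fun p => by rw [he]; positivity) hp ht₁ ⟨ha.1.le, ha.2⟩ ⟨h4.1.le, h4.2⟩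
  have h7 : ∫ t in A..B, ∫ θ in (0 : ℝ)..(2 * π), e (t, θ) ≤ C := he ▸ hC _ hδ
  rw [tdiv_swap (f := fun r σ => r * e (p.1 + r * d, p.2 + r * (h + σ))) (by fun_prop)] at h6
  have h8 : ∀ σ ∈ Icc 0 a, Real.log (c ^ 2) - Real.log (L ^ 2 + 1) + n ≤
      2 * R ^ 2 * ∫ r in r₁..1, r * e (p.1 + r * d, p.2 + r * (h + σ)) := fun σ hσ => by
    obtain ⟨h9, h10⟩ := h3 σ hσ
    have h11 := z_ray hq p (d, h + σ) (D := 2 * R ^ 2) hδ
      (by nlinarith [sq_abs d, sq_abs (h + σ), abs_nonneg d, abs_nonneg (h + σ)]) h4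
    have h12 : Real.log (c ^ 2) ≤ Real.log (‖q (p + (d, h + σ))‖ ^ 2 + r₁ ^ 2) := by
      refine Real.log_le_log (by positivity) (le_add_of_le_of_nonneg ?_ hδ.le)
      have h13 := h2 σ hσ
      rw [hh, add_assoc] at h13
      exact pow_le_pow_left₀ hc.le h13 2
    have h13 : Real.log (‖q (p + r₁ • (d, h + σ))‖ ^ 2 + r₁ ^ 2) ≤
        Real.log (L ^ 2 + 1) + 2 * Real.log r₁ := by
      have h14 := pow_le_pow_left₀ (norm_nonneg _)
        (hL (d, h + σ) (max_le h9 h10) r₁ ⟨h4.1.le, h4.2⟩) 2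
      refine (Real.log_le_log (y := (L ^ 2 + 1) * r₁ ^ 2) (by positivity)
        (by linarith)).trans_eq ?_
      rw [Real.log_mul (by positivity) hδ.ne', Real.log_pow, Nat.cast_ofNat]
    have h14 : ∀ r : ℝ, p + r • (d, h + σ) = (p.1 + r * d, p.2 + r * (h + σ)) := fun r => rfl
    simp only [h14] at h11 h13
    simp only [he]
    linarith
  have cI : Continuous fun σ => ∫ r in r₁..1, r * e (p.1 + r * d, p.2 + r * (h + σ)) :=
    intervalIntegral.continuous_parametric_intervalIntegral_of_continuous'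
      (f := fun σ r => r * e (p.1 + r * d, p.2 + r * (h + σ))) (by fun_prop) _ _
  have h9 := intervalIntegral.integral_mono_on (μ := MeasureTheory.volume) ha.1.le
    intervalIntegrable_const (Continuous.intervalIntegrable (by fun_prop) _ _) h8
  rw [intervalIntegral.integral_const, intervalIntegral.integral_const_mul, sub_zero,
    smul_eq_mul] at h9
  have h10 := mul_le_mul_of_nonneg_left ((le_div_iff₀' hd).2 (h6.trans h7))
    (show 0 ≤ 2 * R ^ 2 by positivity)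
  have h11 := (le_div_iff₀' ha.1).2 (h9.trans h10)
  linarith

end Pool.Agent.Lib.MP_14b623_gt
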