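import Pool.Agent.Lib.MP_14b623_gt.IFrC
import Pool.Agent.Lib.MP_14b623_gt.IZc
import Pool.Agent.Lib.MP_14b623_gt.DDefs

/-! The Beltrami inequality for the Hopf differential on the auxiliary field. -/

namespace Pool.Agent.Lib.MP_14b623_gt

open Set Real Filter Topology
open scoped ContDiff InnerProductSpace

theorem dh_zf {m K : ℝ} (hm : 0 < m) {μ : ℂ} (h1 : m ≤ μ.im) (h2 : ‖μ‖ ≤ K) (v : ℝ × ℝ) :
    m * |v.1| ≤ ‖zf μ v‖ ∧ m * |v.2| ≤ (m + K) * ‖zf μ v‖ := by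
  have h3 : m * |v.1| ≤ ‖zf μ v‖ := by
    refine le_trans ?_ (Complex.abs_im_le_norm _)
    simp only [zf, Complex.add_im, Complex.mul_im, Complex.ofReal_im, Complex.ofReal_re, mul_zero,
      zero_add, abs_mul, abs_of_pos (hm.trans_le h1)]
    exact mul_le_mul_of_nonneg_right h1 (abs_nonneg _)
  have h4 : |v.2| ≤ ‖zf μ v‖ + K * |v.1| := by
    have h5 := norm_sub_le (zf μ v) (μ * v.1)
    rw [show zf μ v - μ * v.1 = v.2 by simp [zf], norm_mul, Complex.norm_real, Complex.norm_real,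
      Real.norm_eq_abs, Real.norm_eq_abs] at h5
    linarith [mul_le_mul_of_nonneg_right h2 (abs_nonneg v.1)]
  refine ⟨h3, ?_⟩
  linarith [mul_le_mul_of_nonneg_left h4 hm.le,
    mul_le_mul_of_nonneg_left h3 ((norm_nonneg _).trans h2)]

theorem dh_W (p : ℝ × ℝ) : ‖p‖ ≤ 2 * (|(dW p).1| + |(dW p).2|) := by
  have h1 : ‖p‖ ^ 2 ≤ p.1 ^ 2 + p.2 ^ 2 := by
    rw [Prod.norm_def, max_def, Real.norm_eq_abs, Real.norm_eq_abs]
    split_ifs <;> rw [sq_abs] <;> linarith [sq_nonneg p.1, sq_nonneg p.2]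
  have h2 : (dW p).1 ^ 2 + (dW p).2 ^ 2 =
      (1 / 2 + 2 * (p.1 ^ 2 + p.2 ^ 2 - 1 / 2) ^ 2) * (p.1 ^ 2 + p.2 ^ 2) := by
    simp only [dW]
    ring
  have h3 : 0 ≤ (p.1 ^ 2 + p.2 ^ 2 - 1 / 2) ^ 2 * (p.1 ^ 2 + p.2 ^ 2) := by positivity
  refine (sq_le_sq₀ (norm_nonneg _) (by positivity)).1 ?_
  nlinarith [sq_abs (dW p).1, sq_abs (dW p).2, mul_nonneg (abs_nonneg (dW p).1)
    (abs_nonneg (dW p).2), sq_nonneg ‖p‖]

theorem dh_low {μ : ℝ × ℝ → ℂ} (hμ : Continuous μ) (him : ∀ p, 0 < (μ p).im) :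
    ∃ c : ℝ, 0 < c ∧ ∀ p ∈ Dsc, c * ‖p‖ ≤ ‖dH μ p‖ := by
  obtain ⟨p₀, -, h1⟩ := dsc_compact.exists_isMinOn ⟨0, by simp [Dsc]⟩
    (Complex.continuous_im.comp hμ).continuousOn
  obtain ⟨K, h2⟩ := dsc_compact.exists_bound_of_continuousOn hμ.continuousOn
  have hK : 0 ≤ K := (norm_nonneg _).trans (h2 0 (by simp [Dsc]))
  have hm := him p₀
  refine ⟨(μ p₀).im / (2 * (1 + (μ p₀).im + K)), by positivity, fun p hp => ?_⟩
  obtain ⟨h3, h4⟩ := dh_zf hm (h1 hp) (h2 p hp) (dW p)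
  rw [div_mul_eq_mul_div, div_le_iff₀ (by positivity), dH]
  linarith [mul_le_mul_of_nonneg_left (dh_W p) hm.le]

theorem dh_bel {μ : ℝ × ℝ → ℂ} (hμ : ContDiff ℝ ∞ μ) (him : ∀ p, 0 < (μ p).im) :
    ∃ K : ℝ, ∀ p ∈ Dsc, ‖pT (dH μ) p - μ p * pS (dH μ) p‖ ≤ K * ‖dH μ p‖ := by
  obtain ⟨c, hc, h1⟩ := dh_low hμ.continuous him
  have sh := sm_dH hμ
  have hW : HasFDerivAt dW (ContinuousLinearMap.id ℝ (ℝ × ℝ)) 0 := by
    have h2 := hasFDerivAt_fst (𝕜 := ℝ) (p := (0 : ℝ × ℝ))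
    have h3 := hasFDerivAt_snd (𝕜 := ℝ) (p := (0 : ℝ × ℝ))
    have h4 := (h2.pow 2).add (h3.pow 2)
    exact ((((h4.const_sub 1).mul h2).sub (h4.mul h3)).prodMk
      (((h4.const_sub 1).mul h3).add (h4.mul h2))).congr_fderiv (by ext <;> simp)
  have h2 : ∀ v, fderiv ℝ (dH μ) 0 v = zf (μ 0) v := fun v => by
    have h3 := ((Complex.ofRealCLM.hasFDerivAt.comp 0 hW.snd).add ((sm_diff hμ 0).hasFDerivAt.mul
      (Complex.ofRealCLM.hasFDerivAt.comp 0 hW.fst))).fderiv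
    refine (congrArg (· v) h3).trans ?_
    simp [zf, dW]
  obtain ⟨L, h3⟩ := izc_lip ((sm_pT sh).sub (hμ.mul (sm_pS sh))) (p := 0)
    (by simp [pT, pS, h2, zf]) 1
  refine ⟨max L 0 / c, fun p hp => ?_⟩
  have h4 : ‖p‖ ≤ 1 := by
    have h5 : p.1 ^ 2 + p.2 ^ 2 ≤ 1 := hp
    rw [Prod.norm_def, max_le_iff, Real.norm_eq_abs, Real.norm_eq_abs,
      ← sq_le_one_iff_abs_le_one, ← sq_le_one_iff_abs_le_one]
    constructor <;> linarith [sq_nonneg p.1, sq_nonneg p.2]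
  have h5 := h3 (‖p‖⁻¹ • p) (by
    rw [norm_smul, norm_inv, norm_norm]
    exact inv_mul_le_one) ‖p‖ ⟨norm_nonneg _, h4⟩
  have h6 : ‖p‖ • ‖p‖⁻¹ • p = p := by
    by_cases h : p = 0
    · simp [h]
    · exact smul_inv_smul₀ (norm_ne_zero_iff.2 h) p
  rw [h6, zero_add] at h5
  rw [div_mul_eq_mul_div, le_div_iff₀ hc]
  linarith [mul_le_mul_of_nonneg_left (h1 p hp) (le_max_right L 0), mul_le_mul_of_nonneg_right
    (h5.trans (mul_le_mul_of_nonneg_right (le_max_left L 0) (norm_nonneg p))) hc.le]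

theorem dh_ineq {q μ : ℝ × ℝ → ℂ} (hq : ContDiff ℝ ∞ q) (hμ : ContDiff ℝ ∞ μ)
    (him : ∀ p, 0 < (μ p).im) (hb : ∀ p : ℝ × ℝ, p.1 ^ 2 + p.2 ^ 2 < 1 →
      pT q p = μ p * pS q p + 2 * pS μ p * q p) :
    ∃ K : ℝ, ∀ p : ℝ × ℝ, p.1 ^ 2 + p.2 ^ 2 < 1 → ‖pT (fun s => q s * dH μ s ^ 2) p -
      μ p * pS (fun s => q s * dH μ s ^ 2) p‖ ≤ K * ‖q p * dH μ p ^ 2‖ := by
  obtain ⟨K, h1⟩ := dh_bel hμ him
  obtain ⟨M, h2⟩ := dsc_compact.exists_bound_of_continuousOn (sm_pS hμ).continuous.continuousOn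
  have sh := sm_dH hμ
  refine ⟨2 * M + 2 * K, fun p hp => ?_⟩
  have h3 : pT (fun s => q s * dH μ s ^ 2) p - μ p * pS (fun s => q s * dH μ s ^ 2) p =
      2 * pS μ p * (q p * dH μ p ^ 2) +
        2 * (q p * dH μ p) * (pT (dH μ) p - μ p * pS (dH μ) p) := by
    have h4 := hb p hp
    simp only [pT, pS, sq, ifrc_mul hq (sh.mul sh), ifrc_mul sh sh] at h4 ⊢
    linear_combination dH μ p * dH μ p * h4
  rw [h3]
  refine (norm_add_le _ _).trans ?_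
  simp only [norm_mul, norm_pow, Complex.norm_ofNat]
  linarith [mul_le_mul_of_nonneg_right (h2 p hp.le)
    (show 0 ≤ ‖q p‖ * ‖dH μ p‖ ^ 2 by positivity), mul_le_mul_of_nonneg_left (h1 p hp.le)
    (show 0 ≤ ‖q p‖ * ‖dH μ p‖ by positivity)]

end Pool.Agent.Lib.MP_14b623_gt
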