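import Pool.Agent.Lib.MP_14b623_gt.IZc
import Pool.Agent.Lib.MP_14b623_gt.DDefs

/-! A zero at the origin costs infinite energy. -/

namespace Pool.Agent.Lib.MP_14b623_gt

open Set Real Filter Topology
open scoped ContDiff InnerProductSpace

theorem dr_int {e : ℝ × ℝ → ℝ} (he : Continuous e) (h0 : ∀ p, 0 ≤ e p) {t₁ θ₀ a r₁ : ℝ}
    (h1 : t₁ ∈ Icc (0 : ℝ) 1) (ha : a ∈ Icc 0 (2 * π)) (hr : r₁ ∈ Icc (0 : ℝ) 1) :
    ∫ σ in (0 : ℝ)..a, t₁ ^ 2 * ∫ r in r₁..1, r * e (r • pol (t₁, θ₀ + σ)) ≤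
      ∫ t in (0 : ℝ)..1, ∫ θ in (0 : ℝ)..(2 * π), t * e (pol (t, θ)) := by
  have cp := sm_pol.continuous
  obtain ⟨G, hG⟩ : ∃ G : ℝ → ℝ, G = fun t => ∫ θ in (0 : ℝ)..(2 * π), t * e (pol (t, θ)) :=
    ⟨_, rfl⟩
  have cG : Continuous G := hG ▸
    intervalIntegral.continuous_parametric_intervalIntegral_of_continuous' (by fun_prop) _ _
  have k0 : ∀ r σ, t₁ ^ 2 * (r * e (r • pol (t₁, θ₀ + σ))) =
      t₁ * (t₁ * r * e (pol (t₁ * r, θ₀ + σ))) := fun r σ => by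
    rw [show r • pol (t₁, θ₀ + σ) = pol (t₁ * r, θ₀ + σ) by ext <;> simp [pol] <;> ring]
    ring
  have k1 : ∀ r ∈ Icc r₁ 1, ∫ σ in (0 : ℝ)..a, t₁ * (t₁ * r * e (pol (t₁ * r, θ₀ + σ))) ≤
      t₁ * G (t₁ * r) := fun r hr' => by
    have r0 := mul_nonneg h1.1 (hr.1.trans hr'.1)
    have e2 := Function.Periodic.intervalIntegral_add_eq (T := 2 * π)
      (f := fun θ => t₁ * r * e (pol (t₁ * r, θ))) (fun θ => by simp only [per_pol _ θ]) θ₀ 0
    rw [zero_add] at e2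
    rw [intervalIntegral.integral_const_mul, hG,
      intervalIntegral.integral_comp_add_left (fun θ => t₁ * r * e (pol (t₁ * r, θ))), add_zero]
    exact mul_le_mul_of_nonneg_left (le_of_le_of_eq (intervalIntegral.integral_mono_interval le_rfl
      (by linarith [ha.1]) (by linarith [ha.2]) (Eventually.of_forall fun x => mul_nonneg r0 (h0 _))
      (Continuous.intervalIntegrable (by fun_prop) _ _)) e2) h1.1
  have k2 := intervalIntegral.integral_mono_on (μ := MeasureTheory.volume) hr.2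
    (Continuous.intervalIntegrable
      (intervalIntegral.continuous_parametric_intervalIntegral_of_continuous' (by fun_prop) _ _) _ _)
    (Continuous.intervalIntegrable (by fun_prop) _ _) k1
  simp only [← intervalIntegral.integral_const_mul, k0]
  rw [← tdiv_swap (f := fun r σ => t₁ * (t₁ * r * e (pol (t₁ * r, θ₀ + σ)))) (by fun_prop)]
  refine k2.trans ?_
  rw [intervalIntegral.integral_const_mul, intervalIntegral.mul_integral_comp_mul_left, mul_one,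
    ← hG]
  refine intervalIntegral.integral_mono_interval (mul_nonneg h1.1 hr.1)
    (mul_le_of_le_one_right h1.1 hr.2) h1.2 ?_ (cG.intervalIntegrable _ _)
  refine MeasureTheory.ae_restrict_of_forall_mem measurableSet_Ioc fun t ht => ?_
  exact hG ▸ intervalIntegral.integral_nonneg two_pi_pos.le fun θ _ => mul_nonneg ht.1.le (h0 _)

theorem dr_pol {p : ℝ × ℝ} (hp : p ∈ Dsc) : ∃ p' : ℝ × ℝ, p'.1 ∈ Icc (0 : ℝ) 1 ∧ pol p' = p := by
  refine ⟨(‖(⟨p.1, p.2⟩ : ℂ)‖, Complex.arg ⟨p.1, p.2⟩), ⟨norm_nonneg _, ?_⟩,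
    Prod.ext (Complex.norm_mul_cos_arg _) (Complex.norm_mul_sin_arg _)⟩
  rw [← sq_le_one_iff₀ (norm_nonneg _), Complex.sq_norm, Complex.normSq_mk, ← sq, ← sq]
  exact hp

theorem dr_zero {F : ℝ × ℝ → ℂ} (hF : ContDiff ℝ ∞ F) {C : ℝ}
    (hC : ∀ δ : ℝ, 0 < δ → ∫ t in (0 : ℝ)..1, ∫ θ in (0 : ℝ)..(2 * π),
      t * dE F δ (pol (t, θ)) ≤ C) (h0 : F 0 = 0) {p : ℝ × ℝ} (hp : p ∈ Dsc) : F p = 0 := by
  by_contra h1
  obtain ⟨p', hp', rfl⟩ := dr_pol hp
  have cp := sm_pol.continuous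
  obtain ⟨t₁, ht₁, -, a, ha, c, hc, h2⟩ := izc_seg one_pos (hF.continuous.comp cp) 0 hp' h1
  obtain ⟨L, hL⟩ := izc_lip hF h0 1
  obtain ⟨n, hn⟩ := exists_nat_gt (Real.log (L ^ 2 + 1) - Real.log (c ^ 2) + C / a)
  obtain ⟨r₁, hr₁⟩ : ∃ r₁, r₁ = Real.exp (-n) := ⟨_, rfl⟩
  have h4 : r₁ ∈ Ioc (0 : ℝ) 1 :=
    hr₁ ▸ ⟨Real.exp_pos _, Real.exp_le_one_iff.2 (neg_nonpos.2 n.cast_nonneg)⟩
  have h5 : Real.log r₁ = -n := by rw [hr₁, Real.log_exp]
  have hδ : 0 < r₁ ^ 2 := pow_pos h4.1 2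
  have c0 := hF.continuous
  have c1 := (sm_pT hF).continuous
  have c2 := (sm_pS hF).continuous
  have ce : Continuous (dE F (r₁ ^ 2)) :=
    Continuous.div (by fun_prop) (by fun_prop) fun p => by positivity
  have h6 := (dr_int (θ₀ := p'.2) ce (fun p => by rw [dE]; positivity) ht₁ ⟨ha.1.le, ha.2⟩
    ⟨h4.1.le, h4.2⟩).trans (hC _ hδ)
  have h8 : ∀ σ ∈ Icc 0 a, Real.log (c ^ 2) - Real.log (L ^ 2 + 1) + n ≤
      t₁ ^ 2 * ∫ r in r₁..1, r * dE F (r₁ ^ 2) (r • pol (t₁, p'.2 + σ)) := fun σ hσ => by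
    have h9 := pol_sq (t₁, p'.2 + σ)
    have h11 := z_ray hF 0 _ hδ h9.le h4
    have h12 : Real.log (c ^ 2) ≤ Real.log (‖F (pol (t₁, p'.2 + σ))‖ ^ 2 + r₁ ^ 2) :=
      Real.log_le_log (by positivity)
        (le_add_of_le_of_nonneg (pow_le_pow_left₀ hc.le (h2 σ hσ) 2) hδ.le)
    have h13 : Real.log (‖F (0 + r₁ • pol (t₁, p'.2 + σ))‖ ^ 2 + r₁ ^ 2) ≤
        Real.log (L ^ 2 + 1) + 2 * Real.log r₁ := by
      have h10 : ‖pol (t₁, p'.2 + σ)‖ ≤ 1 := by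
        have h10 := pow_le_one₀ (n := 2) ht₁.1 ht₁.2
        rw [Prod.norm_def, max_le_iff, Real.norm_eq_abs, Real.norm_eq_abs,
          ← sq_le_one_iff_abs_le_one, ← sq_le_one_iff_abs_le_one]
        constructor <;> linarith [sq_nonneg (pol (t₁, p'.2 + σ)).1, sq_nonneg (pol (t₁, p'.2 + σ)).2]
      have h14 := pow_le_pow_left₀ (norm_nonneg _) (hL _ h10 r₁ ⟨h4.1.le, h4.2⟩) 2
      refine (Real.log_le_log (y := (L ^ 2 + 1) * r₁ ^ 2) (by positivity)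
        (by linarith)).trans_eq ?_
      rw [Real.log_mul (by positivity) hδ.ne', Real.log_pow, Nat.cast_ofNat]
    simp only [zero_add] at h11 h13
    simp only [dE]
    linarith
  have cI : Continuous fun σ => ∫ r in r₁..1, r * dE F (r₁ ^ 2) (r • pol (t₁, p'.2 + σ)) :=
    intervalIntegral.continuous_parametric_intervalIntegral_of_continuous'
      (f := fun σ r => r * dE F (r₁ ^ 2) (r • pol (t₁, p'.2 + σ))) (by fun_prop) _ _
  have h9 := intervalIntegral.integral_mono_on (μ := MeasureTheory.volume) ha.1.le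
    intervalIntegrable_const (Continuous.intervalIntegrable (by fun_prop) _ _) h8
  rw [intervalIntegral.integral_const, sub_zero, smul_eq_mul] at h9
  have h11 := (le_div_iff₀' ha.1).2 (h9.trans h6)
  linarith

end Pool.Agent.Lib.MP_14b623_gt
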