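import Pool.Agent.Lib.MP_14b623_gt.DFr
import Pool.Agent.Lib.MP_14b623_gt.DBd
import Pool.Agent.Lib.MP_14b623_gt.DH
import Pool.Agent.Lib.MP_14b623_gt.DE
import Pool.Agent.Lib.MP_14b623_gt.DR

/-! Nitsche's theorem: a free boundary minimal disc is flat. -/

namespace Pool.Agent.Lib.MP_14b623_gt

open Set Real Filter Topology
open scoped ContDiff InnerProductSpace

theorem IsFBMDisc.q_zero {X : ℝ × ℝ → E3} (h : IsFBMDisc X) (Φ : Fr0 X) (hU : Dsc ⊆ Φ.U)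
    {p : ℝ × ℝ} (hp : p ∈ Dsc) : Φ.q p = 0 := by
  have him : ∀ p, 0 < (Φ.μ p).im := fun p => Φ.μ_im p ▸ Φ.m₂_pos p
  have sF : ContDiff ℝ ∞ fun s => Φ.q s * dH Φ.μ s ^ 2 := Φ.sq.mul ((sm_dH Φ.sμ).pow 2)
  obtain ⟨K, hK⟩ := dh_ineq Φ.sq Φ.sμ him fun p hp => Φ.beltrami0 h.smooth (hU hp.le) (by
    have h1 : ∀ᶠ s in 𝓝 p.2, p.1 ^ 2 + s ^ 2 < 1 :=
      ContinuousAt.eventually_lt (by fun_prop) continuousAt_const hp
    exact h1.mono fun s hs => Φ.l_eq0 h.smooth (hU hs.le) (h.minimal _ hs.le))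
  have h0 : Φ.q 0 * dH Φ.μ 0 ^ 2 = 0 := by simp [dH_zero]
  obtain ⟨C, hC⟩ := de_energy sF Φ.sμ.continuous him hK h0 fun p hp => by
    rw [dH_bdry _ hp]
    exact h.bd_im Φ hU hp
  obtain ⟨c, hc, h1⟩ := dh_low Φ.sμ.continuous him
  have h2 : ∀ p ∈ Dsc, p ≠ 0 → Φ.q p = 0 := fun p hp h2 =>
    (mul_eq_zero.1 (dr_zero sF hC h0 hp)).resolve_right (pow_ne_zero 2 (norm_pos_iff.1
      ((mul_pos hc (norm_pos_iff.2 h2)).trans_le (h1 p hp))))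
  by_cases h3 : p = 0
  · have h4 : ContinuousAt (fun t : ℝ => Φ.q (t, 0)) 0 :=
      (Φ.sq.continuous.comp (by fun_prop)).continuousAt
    have h5 : (fun t : ℝ => Φ.q (t, 0)) =ᶠ[𝓝[>] 0] fun _ => 0 := by
      filter_upwards [Ioo_mem_nhdsGT one_pos] with t ht
      refine h2 _ (show t ^ 2 + 0 ^ 2 ≤ (1 : ℝ) by nlinarith [ht.1, ht.2]) fun h6 => ?_
      exact ht.1.ne' (congrArg Prod.fst h6)
    rw [h3]
    exact tendsto_nhds_unique_of_eventuallyEq (h4.tendsto.mono_left nhdsWithin_le_nhds)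
      tendsto_const_nhds h5
  · exact h2 p hp h3

theorem dmain_const {V : Type} [NormedAddCommGroup V] [NormedSpace ℝ V] {f : ℝ × ℝ → V}
    (hf : ContDiff ℝ ∞ f) (h : ∀ p ∈ Dsc, pT f p = 0 ∧ pS f p = 0) {p p' : ℝ × ℝ} (hp : p ∈ Dsc)
    (hp' : p' ∈ Dsc) : f p = f p' := by
  have h1 := dsc_convex.norm_image_sub_le_of_norm_fderiv_le (C := 0) (fun x _ => sm_diff hf x)
    (fun x hx => (ContinuousLinearMap.opNorm_le_iff le_rfl).2 fun v => by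
      simp [fderiv_eq_pT_pS, h x hx]) hp' hp
  simpa [sub_eq_zero] using h1

theorem IsFBMDisc.flat {X : ℝ × ℝ → E3} (h : IsFBMDisc X) :
    ∃ e : E3, e ≠ 0 ∧ ∀ p ∈ Dsc, ⟪e, X p⟫_ℝ = 0 := by
  obtain ⟨Φ, hU⟩ := h.exists_fr0
  have h1 : ∀ p ∈ Dsc, pT Φ.N p = 0 ∧ pS Φ.N p = 0 := fun p hp => by
    have hk : Φ.k p = 0 := (mul_eq_zero.1 (h.q_zero Φ hU hp)).resolve_left
      (Complex.ofReal_ne_zero.2 (Φ.ρ_pos p).ne')
    have hl : Φ.l p = 0 := by rw [Φ.l_eq0 h.smooth (hU hp) (h.minimal p hp), hk, mul_zero]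
    obtain ⟨h2, h3⟩ := Φ.ifrb_k p
    obtain ⟨h4, h5⟩ := Φ.ifrb_l p
    rw [hk, Complex.zero_re, zero_eq_neg] at h2
    rw [hl, Complex.zero_re, zero_eq_neg] at h4
    rw [hk, Complex.zero_im] at h3
    rw [hl, Complex.zero_im] at h5
    constructor
    · rw [← inner_self_eq_zero (𝕜 := ℝ), Φ.parseval p, h4, ← h5, (Φ.rel_T p).2.2.1]
      ring
    · rw [← inner_self_eq_zero (𝕜 := ℝ), Φ.parseval p, h2, ← h3, (Φ.rel_S p).2.2.1]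
      ring
  have h2 : ∀ p ∈ Dsc, ⟪Φ.N p, pT X p⟫_ℝ = 0 ∧ ⟪Φ.N p, pS X p⟫_ℝ = 0 := fun p hp => by
    simp [Φ.hT p (hU hp), Φ.hS p (hU hp), inner_add_right, inner_smul_right, Φ.oN1, Φ.oN2]
  have h3 : ((1, 0) : ℝ × ℝ) ∈ Dsc := by simp [Dsc]
  have h4 : ∀ p ∈ Dsc, ⟪Φ.N p, X p⟫_ℝ = ⟪Φ.N (1, 0), X (1, 0)⟫_ℝ := fun p hp =>
    dmain_const (Φ.sN.inner ℝ h.smooth) (fun p hp => by
      simp [pT_inner Φ.sN h.smooth, pS_inner Φ.sN h.smooth, h1 p hp, h2 p hp]) hp h3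
  obtain ⟨v, hv⟩ := h.orth (1, 0) (by simp)
  refine ⟨Φ.N (1, 0), fun h5 => by simpa [h5] using Φ.oNN (1, 0), fun p hp => ?_⟩
  rw [dmain_const Φ.sN h1 h3 hp, h4 p hp, ← hv, fderiv_eq_pT_pS]
  simp [inner_add_right, inner_smul_right, h2 _ h3]

end Pool.Agent.Lib.MP_14b623_gt
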