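import Pool.Agent.Lib.MP_14b623_gt.FinDef

/-! Certificates, checked by the kernel. -/

namespace Pool.Agent.Lib.MP_14b623_gt.Chk

def tr0 : Tr :=
  (.lN 2583000 6110000 2610000 5548000 5590000 0 1408901)

theorem ok0 : check tr0 0 3000000 0 100 2900000 8335600 2700000 8335600 = true := by
  decide +kernel

def tr30 : Tr :=
  (.lN 3130000 6286000 2768000 5655000 5122000 0 1408901)

theorem ok30 : check tr30 3000000 4500000 0 100 2900000 8335600 2700000 8335600 = true := by
  decide +kernel

def tr45 : Tr :=
  (.lN 3759000 7213000 3006000 6001000 5413000 0 704451)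

theorem ok45 : check tr45 4500000 6000000 0 100 2900000 8335600 2700000 8335600 = true := by
  decide +kernel

def tr60 : Tr :=
  (.sL 5610000 (.lN 3590000 8735000 2461000 7082000 5794000 0 1408901) (.sP 5510000 (.lN 17000
  94000 17000 73000 0 6886000 1405001) (.sX 40 (.lN 4709000 9081000 3116000 6509000 7287000 0
  353201) (.lN 4243000 8219000 3561000 7162000 7380000 0 176601))))

theorem ok60 : check tr60 6000000 7000000 0 100 2900000 8335600 2700000 8335600 = true := by
  decide +kernel

def tr70 : Tr :=
  (.sX 40 (.sL 5610000 (.lN 5227000 9974000 3215000 6920000 8312000 0 1408901) (.sP 5510000 (.lN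
  1890000 3519000 1082000 2060000 0 2529000 1405001) (.lN 4928000 9222000 3022000 6399000
  7190000 0 176601))) (.sL 5610000 (.lN 4362000 8512000 3744000 7307000 7846000 0 1408901) (.sP
  5510000 (.lN 563000 1470000 563000 1094000 0 5575000 1405001) (.lN 4384000 8475000 3739000
  7299000 7829000 0 176601))))

theorem ok70 : check tr70 7000000 8000000 0 100 2900000 8335600 2700000 8335600 = true := by
  decide +kernel

def tr80 : Tr :=
  (.sX 40 (.sL 5610000 (.lN 5247000 9858000 2881000 6336000 7515000 0 1408901) (.sP 5510000 (.lN
  3378000 5974000 1889000 3746000 1240000 0 1405001) (.lN 5352000 9438000 2885000 6093000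
  7196000 0 176601))) (.sL 5610000 (.lN 4780000 9418000 3867000 7813000 9030000 0 1408901) (.sP
  5510000 (.lN 3684000 6970000 2971000 5568000 4589000 0 1405001) (.lN 4846000 9505000 3959000
  7831000 9221000 0 353201))))

theorem ok80 : check tr80 8000000 9000000 0 100 2900000 8335600 2700000 8335600 = true := by
  decide +kernel

def tr90 : Tr :=
  (.sX 40 (.sL 5610000 (.lN 5065000 10381000 2744000 5641000 7023000 0 1408901) (.sX 16 (.sT
  9500000 (.lN 5501000 9709000 2621000 5786000 7320000 0 704451) (.lN 5911000 9325000 2660000
  5226000 7076000 0 704451)) (.lN 5657000 9636000 3185000 6210000 7922000 0 704451))) (.lN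
  6103000 10821000 4675000 8737000 12459000 0 704451))

theorem ok90 : check tr90 9000000 10000000 0 100 2900000 8335600 2700000 8335600 = true := by
  decide +kernel

end Pool.Agent.Lib.MP_14b623_gt.Chk
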