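import Pool.Agent.Lib.MP_14b623_gt.FinDef

/-! Certificates, checked by the kernel. -/

namespace Pool.Agent.Lib.MP_14b623_gt.Chk

def tr100 : Tr :=
  (.sX 40 (.sL 5610000 (.lN 5112000 10789000 2719000 5326000 7065000 0 1408901) (.sX 16 (.sT
  10500000 (.lN 6049000 9409000 2514000 5103000 7026000 0 704451) (.lN 6283000 9484000 2458000
  4908000 7115000 0 352226)) (.lN 5920000 10010000 2992000 6303000 8341000 0 704451))) (.lN
  8170000 13680000 7302000 11681000 21942000 0 1408901))

theorem ok100 : check tr100 10000000 11000000 0 100 2900000 8335600 2700000 8335600 = true := by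
  decide +kernel

def tr110 : Tr :=
  (.sX 40 (.sL 5610000 (.lN 6191000 11493000 2557000 6240000 8682000 0 1408901) (.sX 16 (.sT
  11500000 (.lN 6572000 10527000 2368000 5338000 8357000 0 352226) (.sP 5510000 (.lN 6602000
  9402000 2253000 4447000 6885000 0 1405001) (.lN 6731000 10536000 2287000 5111000 8323000 0
  353201))) (.lN 8485000 12900000 5002000 8856000 16098000 0 704451))) (.lN 6587000 10010000
  6455000 7615000 15417000 0 1408901))

theorem ok110 : check tr110 11000000 12000000 0 100 2900000 8335600 2700000 8335600 = true := by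
  decide +kernel

def tr120 : Tr :=
  (.sX 40 (.sX 16 (.sL 5610000 (.lN 7011000 10058000 2313000 4343000 7686000 0 1408901) (.sT
  12500000 (.sL 6970000 (.lN 6548000 10000000 2112000 4561000 7250000 0 704451) (.lN 6907000
  10111000 2263000 4558000 7837000 0 352226)) (.sP 5510000 (.lN 6455000 9423000 1890000 4203000
  6239000 0 1405001) (.lN 7541000 10798000 2336000 4694000 9233000 0 353201)))) (.lN 9188000
  14167000 6538000 10689000 21139000 0 1408901)) (.lN 6063000 11173000 4703000 6370000 13174000
  0 1408901))

theorem ok120 : check tr120 12000000 13000000 0 100 2900000 8335600 2700000 8335600 = true := by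
  decide +kernel

end Pool.Agent.Lib.MP_14b623_gt.Chk
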