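import Pool.Agent.Lib.MP_14b623_gt.FinDef

/-! Certificates, checked by the kernel. -/

namespace Pool.Agent.Lib.MP_14b623_gt.Chk

def tr130 : Tr :=
  (.sX 40 (.sX 16 (.sL 5610000 (.lN 6797000 10137000 2020000 3919000 7094000 0 1408901) (.sP
  5510000 (.sP 4100000 (.lN 0 0 0 0 0 14000000 2725600) (.sP 4800000 (.lN 4788000 5846000
  1264000 2345000 0 683000 681401) (.sP 5150000 (.lN 5901000 8736000 1431000 3997000 4238000 0
  170351) (.lN 6796000 9236000 1875000 3763000 6027000 0 170351)))) (.lN 7429000 10342000
  1932000 4507000 8186000 0 353201))) (.lN 8523000 11775000 5908000 8215000 17448000 0 1408901))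
  (.lN 5921000 7852000 3502000 5087000 8679000 0 1408901))

theorem ok130 : check tr130 13000000 14000000 0 100 2900000 8335600 2700000 8335600 = true := by
  decide +kernel

def tr140 : Tr :=
  (.sX 40 (.sX 16 (.sL 5610000 (.lN 6661000 10246000 1791000 3518000 6680000 0 1408901) (.sP
  5510000 (.sP 4100000 (.lN 0 0 0 0 0 15000000 2725600) (.sP 4800000 (.lN 4615000 5765000
  1176000 1919000 0 1602000 681401) (.sP 5150000 (.lN 6846000 9220000 1572000 3599000 5699000 0
  170351) (.lG 6886000 9037000 1776000 3515000 99000 195000 928000 1329000 5528000 0 1263000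
  2239000 2780000 2965000 4708000 818000 1688000 2102000 2327000 3050000 170351)))) (.lN 8461000
  11327000 2369000 3907000 10499000 0 353201))) (.lN 7226000 10781000 3729000 7762000 13521000 0
  1408901)) (.lN 7121000 10016000 3271000 5418000 11416000 0 704451))

theorem ok140 : check tr140 14000000 15000000 0 100 2900000 8335600 2700000 8335600 = true := by
  decide +kernel

def tr150 : Tr :=
  (.sX 40 (.sX 16 (.sL 5610000 (.lN 6014000 10882000 1380000 3566000 6148000 0 1408901) (.sP
  5510000 (.sP 4100000 (.lN 0 0 0 0 0 16000000 2725600) (.sP 4800000 (.lN 4653000 5616000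
  1056000 1676000 0 2301000 681401) (.sP 5150000 (.lG 7071000 8524000 1509000 3373000 124000
  277000 1958000 1540000 4807000 0 1076000 2641000 2971000 3003000 3318000 583000 1516000
  1604000 2128000 2913000 170351) (.lG 7303000 8907000 1692000 3316000 141000 275000 1819000
  1894000 5622000 0 1254000 2705000 2923000 3669000 4744000 791000 2109000 2132000 2366000
  3025000 170351)))) (.lN 8404000 11074000 2023000 3603000 9930000 0 353201))) (.lN 6758000
  9596000 4588000 4840000 11549000 0 704451)) (.lN 5741000 8506000 3108000 5287000 11010000 0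
  1408901))

theorem ok150 : check tr150 15000000 16000000 0 100 2900000 8335600 2700000 8335600 = true := by
  decide +kernel

end Pool.Agent.Lib.MP_14b623_gt.Chk
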