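import Pool.Agent.Lib.MP_14b623_gt.FinDef

/-! Certificates, checked by the kernel. -/

namespace Pool.Agent.Lib.MP_14b623_gt.Chk

def tr160 : Tr :=
  (.sX 40 (.sX 16 (.sX 6 (.sL 5610000 (.lN 7110000 10602000 1350000 3268000 7265000 0 1408901)
  (.sP 5510000 (.sP 4100000 (.lN 0 0 0 0 0 17000000 2725600) (.sP 4800000 (.lN 4857000 5452000
  981000 1463000 0 2759000 681401) (.sP 5150000 (.sP 4970000 (.lG 6630000 7411000 1463000
  2404000 166000 272000 2511000 2157000 2402000 0 1281000 2157000 2706000 2993000 3299000 733000
  1674000 2162000 2697000 3318000 85176) (.lG 6895000 8727000 1384000 3082000 143000 318000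
  1835000 2846000 4532000 0 1119000 2644000 2773000 3025000 3662000 590000 1471000 2213000
  2696000 3025000 85176)) (.sP 5330000 (.lG 7177000 9183000 1416000 3292000 142000 330000
  2076000 2677000 5543000 0 1280000 2754000 3049000 3302000 4771000 684000 1975000 2491000
  2750000 3025000 85176) (.lN 8724000 10867000 1763000 3138000 10015000 0 170351))))) (.lN
  9834000 11724000 2093000 3357000 12758000 0 706401))) (.lN 9051000 13772000 6106000 10208000
  20289000 0 1408901)) (.lN 8028000 7709000 3139000 4967000 10217000 0 704451)) (.lN 7295000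
  9882000 2726000 4586000 11669000 0 1408901))

theorem ok160 : check tr160 16000000 17000000 0 100 2900000 8335600 2700000 8335600 = true := by
  decide +kernel

def tr170 : Tr :=
  (.sX 40 (.sX 16 (.sX 6 (.sL 5610000 (.lN 7344000 10704000 1329000 2855000 7621000 0 1408901)
  (.sP 5510000 (.sP 4100000 (.lN 0 0 0 0 0 18000000 2725600) (.sP 4800000 (.lN 5016000 5342000
  964000 1210000 0 3168000 681401) (.sP 5150000 (.sP 4970000 (.sL 6970000 (.lN 7350000 9699000
  585000 5417000 6302000 0 170001) (.lN 6457000 6538000 1375000 1376000 614000 0 85351)) (.sP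
  5060000 (.lG 7481000 7995000 1259000 2758000 141000 307000 2657000 2632000 4162000 0 1047000
  3314000 3559000 3632000 3971000 770000 1726000 2692000 2986000 3009000 85176) (.lG 7648000
  9101000 1410000 3014000 188000 401000 2645000 4363000 5943000 0 1099000 2927000 3609000
  3608000 4309000 578000 1915000 3022000 3589000 4022000 85176))) (.lG 8437000 9547000 1595000
  3116000 216000 422000 3338000 4373000 7733000 0 1074000 3326000 3979000 4327000 4694000 757000
  1932000 2711000 3302000 3631000 170351)))) (.lN 10535000 12153000 2200000 2850000 14336000 0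
  706401))) (.lN 8591000 11458000 4958000 7552000 15982000 0 1408901)) (.lN 8764000 7096000
  4454000 3855000 12094000 0 1408901)) (.lN 8291000 9451000 2572000 4086000 12171000 0 1408901))

theorem ok170 : check tr170 17000000 18000000 0 100 2900000 8335600 2700000 8335600 = true := by
  decide +kernel

end Pool.Agent.Lib.MP_14b623_gt.Chk
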