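import Pool.Agent.Lib.MP_14b623_gt.FinSide

/-! Soundness of the certificates. -/

namespace Pool.Agent.Lib.MP_14b623_gt.Chk

open Real

variable {τ T φ la lb Ma Mb Ja Jb Za Zb φ' s Y x : ℝ}

lemma Bad.box (B : Bad τ T φ la lb Ma Mb Ja Jb Za Zb φ' s Y x) {ea eb : ℕ → ℕ → ℕ → ℕ → ℕ}
    {Qa Qb : ℝ} {Cp Cm : ℕ}
    (ha : ∀ l1 l2 p1 p2, 0 < l1 → l2 ≤ 10000000 → 0 < p1 → R l1 ≤ la → la ≤ R l2 → R p1 ≤ φ →
      φ ≤ R p2 → R (ea l1 l2 p1 p2) ≤ 8 + Qa)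
    (hb : ∀ l1 l2 p1 p2, 0 < l1 → l2 ≤ 10000000 → 0 < p1 → R l1 ≤ lb → lb ≤ R l2 → R p1 ≤ φ →
      φ ≤ R p2 → R (eb l1 l2 p1 p2) ≤ 8 + Qb)
    (hQ : Qa + Qb + (R Cp - R Cm) * φ ≤ 0) :
    ∀ l1 l2 p1 p2, 0 < l1 → l2 ≤ 10000000 → 0 < p1 → R l1 ≤ lb → lb ≤ R l2 → R p1 ≤ φ →
      φ ≤ R p2 → boxok ea eb Cp Cm l1 l2 p1 p2 = true → False := by
  intro l1 l2 p1 p2 a1 a2 a3 b1 b2 b3 b4 h
  unfold boxok box1 at h
  simp only [Bool.or_eq_true] at h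
  have h1 : 160000000 + mU Cm p2 <
      ea l1 (mn 10000000 (16671200 - l1)) p1 p2 + eb l1 l2 p1 p2 + mD Cp p1 := by
    rcases h with h | h | h
    · have h2 : l2 < p1 := Nat.blt_eq.mp h
      have := R_lt.2 h2
      linarith [B.hb.phile]
    · have h2 : 160000000 + mU Cm p2 < eb l1 l2 p1 p2 := Nat.blt_eq.mp h
      omega
    · exact Nat.blt_eq.mp h
  have h2 := R_lt.2 h1
  have h3 := ha l1 (mn 10000000 (16671200 - l1)) p1 p2 a1 (by rw [mn_eq]; omega) a3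
    (b1.trans B.hab) (by
      rw [R_mn, R_U]
      refine le_min B.ha.lle (le_trans ?_ (R_sub_ge _ _))
      have : R 16671200 = 1.66712 := by unfold R; norm_num
      linarith [B.sum_le]) b3 b4
  have h4 := hb l1 l2 p1 p2 a1 a2 a3 b1 b2 b3 b4
  have h5 := mU_bound (c' := Cm) le_rfl B.hφ.le b4
  have h6 := mD_bound (g' := Cp) le_rfl b3
  have h7 : R 160000000 = 16 := by unfold R; norm_num
  simp only [R_add] at h2
  linarith

lemma rng_sound {ca cb ka kb l1 l2 p1 : ℕ} (h : rng ca cb ka kb l1 l2 p1 = true) :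
    R ca ≤ 8 ∧ R cb ≤ 8 ∧ R ka ≤ 8 ∧ R kb ≤ 8 ∧ 0 < l1 ∧ l2 ≤ 10000000 ∧ 0 < p1 := by
  unfold rng at h
  simp only [Bool.and_eq_true, Nat.ble_eq, Nat.blt_eq] at h
  have h8 : R 80000000 = 8 := by unfold R; norm_num
  rw [← h8]
  simp only [R_le]
  tauto

lemma Bad.check_sound (B : Bad τ T φ la lb Ma Mb Ja Jb Za Zb φ' s Y x)
    (okC : fine boxC 100000 24 8200000 8471200 4604000 4700000 = true) (t : Tr) :
    ∀ T1 T2 x1 x2 l1 l2 p1 p2 : ℕ, R T1 ≤ T → T ≤ R T2 → (x1 / 100 : ℝ) ≤ x → x ≤ x2 / 100 →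
      R l1 ≤ lb → lb ≤ R l2 → R p1 ≤ φ → φ ≤ R p2 →
      check t T1 T2 x1 x2 l1 l2 p1 p2 = true → False := by
  induction t with
  | sT c a b iha ihb =>
    intro T1 T2 x1 x2 l1 l2 p1 p2 h1 h2 h3 h4 h5 h6 h7 h8 h
    simp only [check, Bool.and_eq_true] at h
    rcases le_total T (R c) with h' | h'
    · exact iha _ _ _ _ _ _ _ _ h1 h' h3 h4 h5 h6 h7 h8 h.1
    · exact ihb _ _ _ _ _ _ _ _ h' h2 h3 h4 h5 h6 h7 h8 h.2
  | sX c a b iha ihb =>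
    intro T1 T2 x1 x2 l1 l2 p1 p2 h1 h2 h3 h4 h5 h6 h7 h8 h
    simp only [check, Bool.and_eq_true] at h
    rcases le_total x (c / 100) with h' | h'
    · exact iha _ _ _ _ _ _ _ _ h1 h2 h3 h' h5 h6 h7 h8 h.1
    · exact ihb _ _ _ _ _ _ _ _ h1 h2 h' h4 h5 h6 h7 h8 h.2
  | sL c a b iha ihb =>
    intro T1 T2 x1 x2 l1 l2 p1 p2 h1 h2 h3 h4 h5 h6 h7 h8 h
    simp only [check, Bool.and_eq_true] at h
    rcases le_total lb (R c) with h' | h'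
    · exact iha _ _ _ _ _ _ _ _ h1 h2 h3 h4 h5 h' h7 h8 h.1
    · exact ihb _ _ _ _ _ _ _ _ h1 h2 h3 h4 h' h6 h7 h8 h.2
  | sP c a b iha ihb =>
    intro T1 T2 x1 x2 l1 l2 p1 p2 h1 h2 h3 h4 h5 h6 h7 h8 h
    simp only [check, Bool.and_eq_true] at h
    rcases le_total φ (R c) with h' | h'
    · exact iha _ _ _ _ _ _ _ _ h1 h2 h3 h4 h5 h6 h7 h' h.1
    · exact ihb _ _ _ _ _ _ _ _ h1 h2 h3 h4 h5 h6 h' h8 h.2
  | lN ca cb ka kb Cp Cm thr =>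
    intro T1 T2 x1 x2 l1 l2 p1 p2 h1 h2 h3 h4 h5 h6 h7 h8 h
    simp only [check, Bool.and_eq_true] at h
    obtain ⟨r1, r2, r3, r4, r5, r6, r7⟩ := rng_sound h.1.1
    have hQ := B.tok_sound (k2a := 0) (k2b := 0) (ga := 0) (gb := 0) h.1.2 h1 h2 h3 h4
    refine fine_sound thr (B.box ?_ ?_ hQ) 24 _ _ _ _ r5 r6 r7 h5 h6 h7 h8 h.2
    · exact fun _ _ _ _ => evN_sound (B.qa (R_nonneg _) (R_nonneg _) (R_nonneg _) r1 r3)
    · exact fun _ _ _ _ => evN_sound (B.qb (R_nonneg _) (R_nonneg _) (R_nonneg _) r2 r4)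
  | lG ca cb ka kb k2a k2b ga gb Cp Cm a0 a1 a2 a3 a4 b0 b1 b2 b3 b4 thr =>
    intro T1 T2 x1 x2 l1 l2 p1 p2 h1 h2 h3 h4 h5 h6 h7 h8 h
    simp only [check, Bool.and_eq_true] at h
    obtain ⟨r1, r2, r3, r4, r5, r6, r7⟩ := rng_sound h.1.1
    have hQ := B.tok_sound h.1.2 h1 h2 h3 h4
    refine fine_sound thr (B.box ?_ ?_ hQ) 24 _ _ _ _ r5 r6 r7 h5 h6 h7 h8 h.2
    · exact fun _ _ _ _ =>
        evG_sound (B.qa (R_nonneg _) (R_nonneg _) (R_nonneg _) r1 r3) _ _ _ _ _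
    · exact fun _ _ _ _ =>
        evG_sound (B.qb (R_nonneg _) (R_nonneg _) (R_nonneg _) r2 r4) _ _ _ _ _
  | nc =>
    intro T1 T2 x1 x2 l1 l2 p1 p2 h1 h2 h3 h4 h5 h6 h7 h8 h
    simp only [check, Bool.and_eq_true, Nat.ble_eq] at h
    have e1 := R_le.2 h.1.1
    have e2 : (x2 : ℝ) ≤ 10 := by exact_mod_cast h.1.2
    have e3 := R_le.2 h.2.1
    have e4 := R_le.2 h.2.2
    have f1 : R 23000000 = 2.3 := by unfold R; norm_num
    have f3 : R 8200000 = 0.82 := by unfold R; norm_num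
    have f4 : R 4700000 = 0.47 := by unfold R; norm_num
    exact B.nc okC (by linarith) (by linarith) (by linarith) (by linarith)

lemma Bad.slab (B : Bad τ T φ la lb Ma Mb Ja Jb Za Zb φ' s Y x) (hx : φ' = 0 → x = 0)
    (okC : fine boxC 100000 24 8200000 8471200 4604000 4700000 = true) {t : Tr} {T1 T2 : ℕ}
    (h : check t T1 T2 0 100 2900000 8335600 2700000 8335600 = true) (h1 : R T1 ≤ T) :
    R T2 ≤ T := by
  by_contra h2
  have f1 : R 2900000 = 0.29 := by unfold R; norm_num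
  have f2 : R 8335600 = 0.83356 := by unfold R; norm_num
  have f3 : R 2700000 = 0.27 := by unfold R; norm_num
  refine B.check_sound okC t _ _ _ _ _ _ _ _ h1 (not_le.1 h2).le ?_ ?_ ?_ ?_ ?_ ?_ h
  · simpa using B.x0
  · simpa using B.x_le hx
  · rw [f1]; exact B.lb_ge
  · rw [f2]; exact B.lb_le
  · rw [f3]; exact B.phi_ge
  · rw [f2]; exact B.hb.phile.trans B.lb_le

end Pool.Agent.Lib.MP_14b623_gt.Chk
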