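import Pool.Agent.Lib.MP_14b623_gt.CvxBasic
import Pool.Agent.Lib.MP_14b623_gt.FinTree
import Pool.Agent.Lib.MP_14b623_gt.FinD1
import Pool.Agent.Lib.MP_14b623_gt.FinD2
import Pool.Agent.Lib.MP_14b623_gt.FinD3
import Pool.Agent.Lib.MP_14b623_gt.FinD4
import Pool.Agent.Lib.MP_14b623_gt.FinD5
import Pool.Agent.Lib.MP_14b623_gt.FinD6

namespace Pool.Agent.Lib.MP_14b623_gt

open Set Real Function
open scoped ComplexConjugate InnerProductSpace

open Chk in
lemma fin_bad {τ T φ la lb Ma Mb Ja Jb Za Zb φ' s Y x : ℝ}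
    (B : Bad τ T φ la lb Ma Mb Ja Jb Za Zb φ' s Y x) (hx : φ' = 0 → x = 0) : False := by
  have t0 : R 0 ≤ T := by rw [R_zero]; exact B.hT.le
  have t1 := B.slab hx okC ok0 t0
  have t2 := B.slab hx okC ok30 t1
  have t3 := B.slab hx okC ok45 t2
  have t4 := B.slab hx okC ok60 t3
  have t5 := B.slab hx okC ok70 t4
  have t6 := B.slab hx okC ok80 t5
  have t7 := B.slab hx okC ok90 t6
  have t8 := B.slab hx okC ok100 t7
  have t9 := B.slab hx okC ok110 t8
  have t10 := B.slab hx okC ok120 t9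
  have t11 := B.slab hx okC ok130 t10
  have t12 := B.slab hx okC ok140 t11
  have t13 := B.slab hx okC ok150 t12
  have t14 := B.slab hx okC ok160 t13
  have t15 := B.slab hx okC ok170 t14
  have t16 := B.slab hx okC ok180 t15
  have t17 := B.slab hx okC ok190 t16
  have t18 := B.slab hx okC ok200 t17
  have t19 := B.slab hx okC ok210 t18
  have t20 := B.slab hx okC ok220 t19
  have t21 := B.slab hx okC ok225 t20
  have t22 := B.slab hx okC ok230 t21
  have t23 := B.slab hx okC ok240 t22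
  have f1 : R 2900000 = 0.29 := by unfold R; norm_num
  have f2 : R 8335600 = 0.83356 := by unfold R; norm_num
  have f3 : R 2700000 = 0.27 := by unfold R; norm_num
  have f4 : R 30000000 = 3 := by unfold R; norm_num
  refine B.check_sound okC _ _ _ _ _ _ _ _ _ t23 ?_ ?_ ?_ ?_ ?_ ?_ ?_ ok250
  · rw [f4]; exact B.T_le
  · simpa using B.x0
  · simpa using B.x_le hx
  · rw [f1]; exact B.lb_ge
  · rw [f2]; exact B.lb_le
  · rw [f3]; exact B.phi_ge
  · rw [f2]; exact B.hb.phile.trans B.lb_le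

lemma fin_ord {τ T φ la lb Ma Mb Ja Jb Za Zb φ' s Y : ℝ} (h1 : 1.199675 < τ)
    (h2 : τ < 1.199685) (hτ : τ * sinh τ = cosh τ) (hT : 0 < T) (hφ : 0 < φ)
    (ha : EndD φ la Ma Ja Za) (hb : EndD φ lb Mb Jb Zb) (hh : HolD T φ la lb Ma Mb Za Zb φ' s Y)
    (hJ : φ * T = Ja + Jb) (hab : lb ≤ la) : 2 / τ ≤ la + lb := by
  by_contra hn
  have p0 := hh.p0
  have s0 := hh.s0
  refine fin_bad (x := √(2 * s / φ'))
    ⟨h1, h2, hτ, hT, hφ, ha, hb, hh, hJ, hab, not_le.1 hn, sqrt_nonneg _, ?_, ?_⟩ ?_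
  · rw [sq_sqrt (by positivity)]
    rcases p0.eq_or_lt with h | h
    · rw [← h]; linarith [hh.h2a]
    · field_simp
  · apply Chk.le_of_sq _ hh.Y0
    rw [mul_pow, sq_sqrt (by positivity)]
    refine le_trans (le_of_eq ?_) hh.h2b
    rcases p0.eq_or_lt with h | h
    · rw [← h]; simp
    · field_simp
  · intro h; rw [h]; simp

lemma Gam_comm (x y v : ℝ) : Gam x y v = Gam y x v := by
  unfold Gam; congr 1; ring

lemma HolD.swap {T φ la lb Ma Mb Za Zb φ' s Y : ℝ} (h : HolD T φ la lb Ma Mb Za Zb φ' s Y) :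
    HolD T φ lb la Mb Ma Zb Za φ' s Y where
  p0 := h.p0
  s0 := h.s0
  Y0 := h.Y0
  h1 := h.h1
  h2a := h.h2a
  h2b := h.h2b
  h3 x y hx hy := by rw [Gam_comm]; linarith [h.h3 y x hy hx]
  h4 x y hx hy := by rw [Gam_comm, Gam_comm x y]; linarith [h.h4 y x hy hx]
  h5a := by rw [mul_comm (lb - Mb)]; exact h.h5b
  h5b := by rw [mul_comm (lb - Mb)]; exact h.h5a

theorem fin_main {τ T φ la lb Ma Mb Ja Jb Za Zb φ' s Y : ℝ} (h1 : 1.199675 < τ)
    (h2 : τ < 1.199685) (hτ : τ * sinh τ = cosh τ) (hT : 0 < T) (hφ : 0 < φ)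
    (ha : EndD φ la Ma Ja Za) (hb : EndD φ lb Mb Jb Zb) (hh : HolD T φ la lb Ma Mb Za Zb φ' s Y)
    (hJ : φ * T = Ja + Jb) : 2 / τ ≤ la + lb := by
  rcases le_total lb la with h | h
  · exact fin_ord h1 h2 hτ hT hφ ha hb hh hJ h
  · rw [add_comm]
    exact fin_ord h1 h2 hτ hT hφ hb ha hh.swap (by rw [hJ, add_comm]) h

end Pool.Agent.Lib.MP_14b623_gt
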