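import Mathlib.Data.Nat.Basic

/-! Integer arithmetic (fixed point, unit `10^7`) for the certified branch and bound. -/

namespace Pool.Agent.Lib.MP_14b623_gt.Chk

def mD (a b : ℕ) : ℕ := Nat.div (Nat.mul a b) (nat_lit 10000000)
def mU (a b : ℕ) : ℕ := Nat.succ (Nat.div (Nat.mul a b) (nat_lit 10000000))
def dD (a b : ℕ) : ℕ := Nat.div (Nat.mul a (nat_lit 10000000)) b
def dU (a b : ℕ) : ℕ := Nat.succ (Nat.div (Nat.mul a (nat_lit 10000000)) b)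
def mn (a b : ℕ) : ℕ := Nat.sub a (Nat.sub a b)
def mx (a b : ℕ) : ℕ := Nat.add a (Nat.sub b a)
def nw (n g : ℕ) : ℕ := Nat.div (Nat.add (Nat.add g (Nat.div n g)) (nat_lit 2)) (nat_lit 2)
def sq0 (n : ℕ) : ℕ :=
  nw n (nw n (nw n (Nat.pow (nat_lit 2) (Nat.succ (Nat.div (Nat.log2 n) (nat_lit 2))))))
def sqU1 (n g : ℕ) : ℕ := bif Nat.ble n (Nat.mul g g) then g else Nat.succ n
def sqU (n : ℕ) : ℕ := sqU1 n (sq0 n)
def sqL1 (n g : ℕ) : ℕ := bif Nat.ble (Nat.mul g g) n then g else nat_lit 0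
def sqL (n : ℕ) : ℕ := sqL1 n (Nat.div n (nw n (sq0 n)))

/-- Lower bound for `y - 1.645 y ^ 3`. -/
def sF (y : ℕ) : ℕ :=
  Nat.sub y (Nat.succ (Nat.div (Nat.mul (mU (mU y y) y) (nat_lit 1645)) (nat_lit 1000)))

def sqs (q l : ℕ) : ℕ := Nat.succ (Nat.div (Nat.add (Nat.mul q q) (Nat.mul l l)) (nat_lit 10000000))

def bnd4 (kont : ℕ → ℕ → ℕ → ℕ → ℕ) (w1 hm V hp : ℕ) : ℕ := kont hm (Nat.sub w1 hm) V hp

def bnd3 (kont : ℕ → ℕ → ℕ → ℕ → ℕ) (l1 l2 p2 w1 q1 D sup : ℕ) : ℕ :=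
  bnd4 kont w1
    (mx (Nat.sub w1 sup)
      (dD (mn (sF (Nat.sub (nat_lit 10000000) l1)) (sF (Nat.sub (nat_lit 10000000) l2))) p2))
    (Nat.succ (Nat.div D (nat_lit 3))) (mn (nat_lit 10000000) (Nat.add q1 sup))

def bnd2 (kont : ℕ → ℕ → ℕ → ℕ → ℕ) (l1 l2 p2 w1 q1 D : ℕ) : ℕ :=
  bnd3 kont l1 l2 p2 w1 q1 D
    (Nat.add (dU D (Nat.mul (nat_lit 2) w1)) (sqU (Nat.mul D (nat_lit 15000000))))

def bnd1 (kont : ℕ → ℕ → ℕ → ℕ → ℕ) (l1 l2 p2 w1 q1 dm : ℕ) : ℕ :=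
  bif Nat.blt dm (nat_lit 10000000) then nat_lit 1000000000000
  else bnd2 kont l1 l2 p2 w1 q1 (Nat.sub dm (nat_lit 10000000))

def bnd0 (kont : ℕ → ℕ → ℕ → ℕ → ℕ) (l1 l2 p1 p2 q1 : ℕ) : ℕ :=
  bnd1 kont l1 l2 p2 (dD p1 l2) q1 (mx (sqs q1 l1) (sqs (dU p2 l2) l2))

/-- Bounds for the geometry of one end on a box, passed to a continuation. -/
def bnd (kont : ℕ → ℕ → ℕ → ℕ → ℕ) (l1 l2 p1 p2 : ℕ) : ℕ := bnd0 kont l1 l2 p1 p2 (dU p2 l1)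

def tf1 (m V a : ℕ) : ℕ := Nat.div (Nat.mul m a) (Nat.add a V)
def tf (m V x : ℕ) : ℕ := tf1 m V (mD x m)

def ep (hm cl kl x t gam r : ℕ) : ℕ :=
  Nat.div (Nat.sub
    (Nat.add (Nat.add (Nat.mul (nat_lit 100) (Nat.add hm (nat_lit 80000000))) (Nat.mul r t))
      (Nat.div (Nat.mul (Nat.sub (nat_lit 100) r) gam) (nat_lit 2)))
    (Nat.add (Nat.mul (Nat.sub (nat_lit 100) r) (Nat.add x kl)) (Nat.mul r cl))) (nat_lit 100)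

def pe (hm cl kl x t gam r1 r2 : ℕ) : ℕ := mn (ep hm cl kl x t gam r1) (ep hm cl kl x t gam r2)

def gm1 (gc H a r : ℕ) : ℕ := mn gc (Nat.div (Nat.mul (Nat.div (Nat.mul a a) H) r) (nat_lit 100))
def gm (gc hm hp x t r : ℕ) : ℕ := gm1 gc (Nat.succ (Nat.sub (Nat.add hp x) hm)) (Nat.add x t) r

def pc1 (cl kl gc hm hp x t r1 r2 : ℕ) : ℕ := pe hm cl kl x t (gm gc hm hp x t r1) r1 r2
def pc (cl kl gc hm m V hp x r1 r2 : ℕ) : ℕ := pc1 cl kl gc hm hp x (tf m V x) r1 r2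
def pc0 (cl kl hm m V x r2 : ℕ) : ℕ := pe hm cl kl x (tf m V x) (nat_lit 0) (nat_lit 0) r2

/-- A heuristic choice of the free parameter. -/
def hx2 (m V Dl A B E : ℕ) : ℕ :=
  bif Nat.ble B A then
    Nat.div (Nat.mul (Nat.mul (nat_lit 2) Dl) V)
      (Nat.add (Nat.sub A B) (sq0 (Nat.add (Nat.mul (Nat.sub A B) (Nat.sub A B)) E)))
  else dD (Nat.add (Nat.sub B A) (sq0 (Nat.add (Nat.mul (Nat.sub B A) (Nat.sub B A)) E)))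
    (Nat.mul (nat_lit 2) m)
def hx1 (m V Dl B : ℕ) : ℕ :=
  hx2 m V Dl (Nat.add V (mD m m)) B (Nat.succ (Nat.mul (Nat.mul (nat_lit 4) B) V))
def hx0 (m V Dl : ℕ) : ℕ := hx1 m V Dl (mD Dl m)

def kN (cl kl hm m V _hp : ℕ) : ℕ :=
  pc0 cl kl hm m V (hx0 (Nat.succ m) V (Nat.sub cl kl)) (nat_lit 100)

def kG (x0 x1 x2 x3 x4 cl kl gc hm m V hp : ℕ) : ℕ :=
  mn (mn (mn (pc0 cl kl hm m V x0 (nat_lit 50))
    (pc cl kl gc hm m V hp x1 (nat_lit 50) (nat_lit 70)))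
    (mn (pc cl kl gc hm m V hp x2 (nat_lit 70) (nat_lit 82))
    (pc cl kl gc hm m V hp x3 (nat_lit 82) (nat_lit 92))))
    (pc cl kl gc hm m V hp x4 (nat_lit 92) (nat_lit 100))

def kC1 (cl kl gc hm hp x t : ℕ) : ℕ :=
  ep hm cl kl x t (gm gc hm hp x t (nat_lit 92)) (nat_lit 92)

def kC (x0 x1 x2 x3 x4 cl kl gc hm m V hp : ℕ) : ℕ :=
  mn (mn (mn (pc0 cl kl hm m V x0 (nat_lit 50))
    (pc cl kl gc hm m V hp x1 (nat_lit 50) (nat_lit 70)))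
    (mn (pc cl kl gc hm m V hp x2 (nat_lit 70) (nat_lit 82))
    (pc cl kl gc hm m V hp x3 (nat_lit 82) (nat_lit 92))))
    (kC1 cl kl gc hm hp x4 (tf m V x4))

def evN (c k l1 l2 p1 p2 : ℕ) : ℕ := bnd (kN (mU c l2) (mU k l2)) l1 l2 p1 p2

def evG (c k g x0 x1 x2 x3 x4 l1 l2 p1 p2 : ℕ) : ℕ :=
  bnd (kG x0 x1 x2 x3 x4 (mU c l2) (mU k l2) (mD g l1)) l1 l2 p1 p2

def evC (l1 l2 p1 p2 : ℕ) : ℕ :=
  bnd (kC (nat_lit 550000) (nat_lit 1250000) (nat_lit 2050000) (nat_lit 3650000) (nat_lit 4500000)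
    (mU (nat_lit 6627700) l2) (mU (nat_lit 1090000) l2) (mD (nat_lit 5000000) l1)) l1 l2 p1 p2

def box1 (ea : ℕ → ℕ → ℕ → ℕ → ℕ) (Cp l1 p1 p2 rhs eb : ℕ) : Bool :=
  Nat.blt rhs eb ||
    Nat.blt rhs (Nat.add (Nat.add
      (ea l1 (mn (nat_lit 10000000) (Nat.sub (nat_lit 16671200) l1)) p1 p2) eb) (mD Cp p1))

def boxok (ea eb : ℕ → ℕ → ℕ → ℕ → ℕ) (Cp Cm l1 l2 p1 p2 : ℕ) : Bool :=
  Nat.blt l2 p1 || box1 ea Cp l1 p1 p2 (Nat.add (nat_lit 160000000) (mU Cm p2)) (eb l1 l2 p1 p2)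

def boxC (l1 l2 p1 p2 : ℕ) : Bool :=
  Nat.ble (nat_lit 97338048) (Nat.add (evC l1 l2 p1 p2) (mD (nat_lit 20800000) l1))

def fstep (P ih : ℕ → ℕ → ℕ → ℕ → Bool) (thr l1 l2 p1 p2 : ℕ) : Bool :=
  ((Nat.ble (Nat.sub l2 l1) thr && Nat.ble (Nat.sub p2 p1) thr) && P l1 l2 p1 p2) ||
    bif Nat.ble (Nat.sub p2 p1) (Nat.sub l2 l1) then
      (ih l1 (Nat.div (Nat.add l1 l2) (nat_lit 2)) p1 p2 &&
        ih (Nat.div (Nat.add l1 l2) (nat_lit 2)) l2 p1 p2)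
    else
      (ih l1 l2 p1 (Nat.div (Nat.add p1 p2) (nat_lit 2)) &&
        ih l1 l2 (Nat.div (Nat.add p1 p2) (nat_lit 2)) p2)

/-- Adaptive bisection. -/
noncomputable def fine (P : ℕ → ℕ → ℕ → ℕ → Bool) (thr n : ℕ) : ℕ → ℕ → ℕ → ℕ → Bool :=
  Nat.rec (motive := fun _ => ℕ → ℕ → ℕ → ℕ → Bool) P (fun _ ih => fstep P ih thr) n

noncomputable def sqIt (n : ℕ) : ℕ → ℕ :=
  Nat.rec (motive := fun _ => ℕ → ℕ) (fun a => a)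
    (fun _ ih a => ih (Nat.div (Nat.mul a a) (nat_lit 1000000000000000000))) n

/-- Lower bound for the exponential function. -/
noncomputable def expL (x : ℕ) : ℕ :=
  Nat.div (sqIt (nat_lit 24) (Nat.add (nat_lit 1000000000000000000)
    (Nat.div (Nat.mul x (nat_lit 100000000000)) (nat_lit 16777216)))) (nat_lit 100000000000)

def cube (E : ℕ) : ℕ := mD (mD E E) E
def ivE (E : ℕ) : ℕ := Nat.div (nat_lit 100000000000000) E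
def chE (E : ℕ) : ℕ := Nat.div (Nat.add E (ivE E)) (nat_lit 2)
def shU (E : ℕ) : ℕ := Nat.succ (Nat.div (Nat.sub E (ivE E)) (nat_lit 2))
def shL (E : ℕ) : ℕ := Nat.div (Nat.sub E (Nat.succ (ivE E))) (nat_lit 2)
def vLo (E d : ℕ) : ℕ := Nat.sub (chE E) (mU (shU E) d)
def vHi (E d : ℕ) : ℕ := Nat.add (chE E) (mD (shL E) d)
def vOk (E d : ℕ) : Bool := Nat.ble (nat_lit 10000000) E && Nat.ble (mU (shU E) d) (chE E)

def gamL (a b v : ℕ) : ℕ :=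
  sqL (Nat.add (Nat.add (Nat.mul a a) (Nat.mul b b)) (Nat.mul (Nat.mul (nat_lit 2) (mD a b)) v))

def xok (gs W Gc G1 G3 x : ℕ) : Bool :=
  Nat.ble (100 * x * gs + (100 + x) * (100 + x) * W) (10000 * Gc + 200 * x * G3 + x * x * G1)

def tend1 (x1 x2 gs W Gc G1 G3 : ℕ) : Bool :=
  Nat.ble (gs + 2 * W) (2 * G3) && (xok gs W Gc G1 G3 x1 && xok gs W Gc G1 G3 x2)

def tend (x1 x2 ca cb ka kb gs W v1 v3 : ℕ) : Bool :=
  tend1 x1 x2 gs W (gamL ca cb v1) (gamL ka kb v1) (gamL ka kb v3)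

def tok1 (T1 T2 x1 x2 ca cb ka kb gs Cp Cm d1 d2 E : ℕ) : Bool :=
  (vOk E d1 && vOk (cube E) (3 * d1)) &&
    (tend x1 x2 ca cb ka kb gs (T1 + Cp - Cm) (vLo E d1) (vLo (cube E) (3 * d1)) &&
      tend x1 x2 ca cb ka kb gs (T2 + Cp - Cm) (vHi E d2) (vHi (cube E) (3 * d2)))

noncomputable def tok (T1 T2 x1 x2 ca cb ka kb k2a k2b gs Cp Cm : ℕ) : Bool :=
  Nat.ble (gs * gs) (4 * mD k2a k2b * cube (expL T1)) &&
    tok1 T1 T2 x1 x2 ca cb ka kb gs Cp Cm ((T1 + T2) / 2 - T1) (T2 - (T1 + T2) / 2)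
      (expL ((T1 + T2) / 2))

def rng (ca cb ka kb l1 l2 p1 : ℕ) : Bool :=
  (Nat.ble ca 80000000 && Nat.ble cb 80000000) && (Nat.ble ka 80000000 && Nat.ble kb 80000000) &&
    (Nat.blt 0 l1 && Nat.ble l2 10000000 && Nat.blt 0 p1)

/-- Certificates. -/
inductive Tr where
  | sT (c : ℕ) (a b : Tr)
  | sX (c : ℕ) (a b : Tr)
  | sL (c : ℕ) (a b : Tr)
  | sP (c : ℕ) (a b : Tr)
  | lN (ca cb ka kb Cp Cm thr : ℕ)
  | lG (ca cb ka kb k2a k2b ga gb Cp Cm a0 a1 a2 a3 a4 b0 b1 b2 b3 b4 thr : ℕ)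
  | nc

noncomputable def check : Tr → ℕ → ℕ → ℕ → ℕ → ℕ → ℕ → ℕ → ℕ → Bool
  | .sT c a b, T1, T2, x1, x2, l1, l2, p1, p2 =>
      check a T1 c x1 x2 l1 l2 p1 p2 && check b c T2 x1 x2 l1 l2 p1 p2
  | .sX c a b, T1, T2, x1, x2, l1, l2, p1, p2 =>
      check a T1 T2 x1 c l1 l2 p1 p2 && check b T1 T2 c x2 l1 l2 p1 p2
  | .sL c a b, T1, T2, x1, x2, l1, l2, p1, p2 =>
      check a T1 T2 x1 x2 l1 c p1 p2 && check b T1 T2 x1 x2 c l2 p1 p2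
  | .sP c a b, T1, T2, x1, x2, l1, l2, p1, p2 =>
      check a T1 T2 x1 x2 l1 l2 p1 c && check b T1 T2 x1 x2 l1 l2 c p2
  | .lN ca cb ka kb Cp Cm thr, T1, T2, x1, x2, l1, l2, p1, p2 =>
      (rng ca cb ka kb l1 l2 p1 && tok T1 T2 x1 x2 ca cb ka kb 0 0 0 Cp Cm) &&
        fine (boxok (evN ca ka) (evN cb kb) Cp Cm) thr 24 l1 l2 p1 p2
  | .lG ca cb ka kb k2a k2b ga gb Cp Cm a0 a1 a2 a3 a4 b0 b1 b2 b3 b4 thr,
      T1, T2, x1, x2, l1, l2, p1, p2 =>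
      (rng ca cb (ka + k2a) (kb + k2b) l1 l2 p1 &&
        tok T1 T2 x1 x2 ca cb ka kb k2a k2b (ga + gb) Cp Cm) &&
        fine (boxok (evG ca (ka + k2a) ga a0 a1 a2 a3 a4) (evG cb (kb + k2b) gb b0 b1 b2 b3 b4)
          Cp Cm) thr 24 l1 l2 p1 p2
  | .nc, T1, _, _, x2, l1, _, _, p2 =>
      (Nat.ble 23000000 T1 && Nat.ble x2 10) && (Nat.ble 8200000 l1 && Nat.ble p2 4700000)

end Pool.Agent.Lib.MP_14b623_gt.Chk
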