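import Pool.Agent.Lib.MP_14b623_gt.FinNum

/-! Soundness of the lower bound for one end. -/

namespace Pool.Agent.Lib.MP_14b623_gt.Chk

open Real

structure Good (φ l : ℝ) (hm m V hp : ℕ) : Prop where
  low : IsLow φ l (R hm)
  mle : R m ≤ φ / l - R hm
  Vge : Dfc φ l / 3 ≤ R V
  Vpos : 0 < V
  up : IsUp φ l (R hp)

lemma conv_aux {A y y1 y2 : ℝ} (h0 : 0 < y1) (h1 : y1 ≤ y) (h2 : y ≤ y2) :
    A / y + y ≤ max (A / y1 + y1) (A / y2 + y2) := by
  have hy : 0 < y := h0.trans_le h1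
  have hy2 : 0 < y2 := hy.trans_le h2
  rcases le_total A (y * y2) with h | h
  · refine le_trans ?_ (le_max_right _ _)
    have : A / y2 + y2 - (A / y + y) = (y2 - y) * (y * y2 - A) / (y * y2) := by
      field_simp; ring
    have h3 : 0 ≤ (y2 - y) * (y * y2 - A) / (y * y2) :=
      div_nonneg (mul_nonneg (by linarith) (by linarith)) (by positivity)
    linarith
  · refine le_trans ?_ (le_max_left _ _)
    have : A / y1 + y1 - (A / y + y) = (y - y1) * (A - y * y1) / (y * y1) := by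
      field_simp; ring
    have h4 : y * y1 ≤ y * y2 := by gcongr; linarith
    have h3 : 0 ≤ (y - y1) * (A - y * y1) / (y * y1) :=
      div_nonneg (mul_nonneg (by linarith) (by linarith)) (by positivity)
    linarith

lemma sin_low {l : ℝ} (h1 : l ≤ 1) : (1 - l) - 1.645 * (1 - l) ^ 3 ≤ sin (π * l) / π := by
  have h2 : sin (π * l) = sin (π * (1 - l)) := by
    rw [mul_sub, mul_one, sin_pi_sub]
  have hy : 0 ≤ 1 - l := by linarith
  have h3 := sin_ge_sub_cube (x := π * (1 - l)) (by positivity)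
  rw [h2, le_div_iff₀ pi_pos]
  refine le_trans ?_ h3
  have h4 : π ^ 2 ≤ 9.87 := by nlinarith [pi_lt_d4, pi_pos]
  have h5 : 0 ≤ π * (1 - l) ^ 3 := by positivity
  nlinarith

lemma sin_nonneg' {l : ℝ} (h0 : 0 ≤ l) (h1 : l ≤ 1) : 0 ≤ sin (π * l) :=
  sin_nonneg_of_nonneg_of_le_pi (by positivity) (by nlinarith [pi_pos])

lemma cub_aux {y a b : ℝ} (h0 : 0 ≤ b) (h1 : b ≤ y) (h2 : y ≤ a) :
    a - 1.645 * a ^ 3 ≤ y - 1.645 * y ^ 3 ∨ b - 1.645 * b ^ 3 ≤ y - 1.645 * y ^ 3 := by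
  rcases le_total (1.645 * (y ^ 2 + y * b + b ^ 2)) 1 with h | h
  · right
    have := mul_nonneg (sub_nonneg.2 h1) (sub_nonneg.2 h)
    nlinarith
  · left
    have h3 : y * b ≤ y * a := mul_le_mul_of_nonneg_left (h1.trans h2) (h0.trans h1)
    have h4 : b ^ 2 ≤ a ^ 2 := pow_le_pow_left₀ h0 (h1.trans h2) 2
    have h5 : 0 ≤ 1.645 * (y ^ 2 + y * a + a ^ 2) - 1 := by linarith
    have := mul_nonneg (sub_nonneg.2 h2) h5
    nlinarith

lemma R_U : R 10000000 = 1 := by unfold R; norm_num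

lemma R_zero : R 0 = 0 := by unfold R; norm_num

lemma low_zero {φ l M J Z : ℝ} (hφ : 0 < φ) (e : EndD φ l M J Z) : IsLow φ l 0 :=
  Or.inl (div_nonneg (sin_nonneg' e.lpos.le e.lle) (by positivity))

lemma bnd_sound {φ l M J Z y : ℝ} (hφ : 0 < φ) (e : EndD φ l M J Z)
    {kont : ℕ → ℕ → ℕ → ℕ → ℕ} {l1 l2 p1 p2 : ℕ}
    (a1 : 0 < l1) (a2 : l2 ≤ 10000000) (a3 : 0 < p1) (b1 : R l1 ≤ l) (b2 : l ≤ R l2)
    (b3 : R p1 ≤ φ) (b4 : φ ≤ R p2)
    (hk : ∀ hm m V hp, Good φ l hm m V hp → R (kont hm m V hp) ≤ y) :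
    R (bnd kont l1 l2 p1 p2) ≤ y := by
  have hl := e.lpos
  have c1 := R_pos a1
  have c2 : 0 < R l2 := hl.trans_le b2
  have c3 := R_pos a3
  have c4 : 0 < R p2 := hφ.trans_le b4
  have hw : R (dD p1 l2) ≤ φ / l := (dD_le _ _).trans (by gcongr)
  have hw0 : 0 < dD p1 l2 := by
    have h2 : 0 < l2 := by rw [← R_lt, R_zero]; exact c2
    change 0 < p1 * 10000000 / l2
    exact Nat.div_pos (by nlinarith) h2
  have hq1 : φ / l ≤ R (dU p2 l1) := le_trans (by gcongr) (dU_ge _ _)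
  have hD : Dfc φ l + 1 ≤ R (mx (sqs (dU p2 l1) l1) (sqs (dU p2 l2) l2)) := by
    rw [R_mx]
    have h1 := conv_aux (A := R p2 ^ 2) (y := l ^ 2) (y1 := R l1 ^ 2) (y2 := R l2 ^ 2)
      (by positivity) (by gcongr) (by gcongr)
    have h2 : (φ / l) ^ 2 ≤ R p2 ^ 2 / l ^ 2 := by rw [← div_pow]; gcongr
    have h3 : R p2 ^ 2 / R l1 ^ 2 ≤ R (dU p2 l1) ^ 2 := by
      rw [← div_pow]; gcongr; exact dU_ge _ _
    have h4 : R p2 ^ 2 / R l2 ^ 2 ≤ R (dU p2 l2) ^ 2 := by
      rw [← div_pow]; gcongr; exact dU_ge _ _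
    have h5 := sqs_ge (dU p2 l1) l1
    have h6 := sqs_ge (dU p2 l2) l2
    have h7 : max (R p2 ^ 2 / R l1 ^ 2 + R l1 ^ 2) (R p2 ^ 2 / R l2 ^ 2 + R l2 ^ 2) ≤
        max (R (sqs (dU p2 l1) l1)) (R (sqs (dU p2 l2) l2)) :=
      max_le_max (by linarith) (by linarith)
    unfold Dfc
    linarith
  unfold bnd bnd0 bnd1
  generalize mx (sqs (dU p2 l1) l1) (sqs (dU p2 l2) l2) = dm at hD ⊢
  generalize dD p1 l2 = w1 at hw hw0 ⊢
  generalize dU p2 l1 = q1 at hq1 ⊢
  have hdm : 10000000 ≤ dm := by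
    rw [← R_le, R_U]; linarith [e.D0]
  have hb : Nat.blt dm (nat_lit 10000000) = false := by
    cases h : Nat.blt dm (nat_lit 10000000)
    · rfl
    · have : dm < 10000000 := Nat.blt_eq.mp h
      omega
  rw [hb, cond_false]
  have hDD : Dfc φ l ≤ R (Nat.sub dm (nat_lit 10000000)) := by
    change _ ≤ R (dm - 10000000)
    rw [R_sub hdm, R_U]; linarith
  generalize Nat.sub dm (nat_lit 10000000) = D at hDD ⊢
  unfold bnd2
  have hsup : osc φ l ≤ R (Nat.add (dU D (Nat.mul (nat_lit 2) w1))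
      (sqU (Nat.mul D (nat_lit 15000000)))) := by
    change _ ≤ R (dU D (2 * w1) + sqU (D * 15000000))
    rw [R_add]
    have h0 := R_pos hw0
    have h1 : Dfc φ l / (2 * (φ / l)) ≤ R (dU D (2 * w1)) := by
      refine le_trans ?_ (dU_ge _ _)
      rw [R_mul]; push_cast
      have := R_nonneg D
      gcongr
    have h2 : √(3 * Dfc φ l / 2) ≤ R (sqU (D * 15000000)) := by
      apply sqrt_le_sqU
      rw [mul_comm D, R_mul]; push_cast; linarith
    unfold osc; linarith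
  generalize Nat.add (dU D (Nat.mul (nat_lit 2) w1)) (sqU (Nat.mul D (nat_lit 15000000))) = sup
    at hsup ⊢
  unfold bnd3 bnd4
  have hA : IsLow φ l (R (Nat.sub w1 sup)) := by
    change IsLow φ l (R (w1 - sup))
    rcases le_total sup w1 with h | h
    · rw [R_sub h]; right; linarith
    · rw [Nat.sub_eq_zero_of_le h, R_zero]; exact low_zero hφ e
  have hB : IsLow φ l (R (dD (mn (sF (Nat.sub (nat_lit 10000000) l1))
      (sF (Nat.sub (nat_lit 10000000) l2))) p2)) := by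
    left
    change R (dD (mn (sF (10000000 - l1)) (sF (10000000 - l2))) p2) ≤ _
    have h0 : 0 ≤ sin (π * l) / π := div_nonneg (sin_nonneg' hl.le e.lle) pi_pos.le
    have h1 : l1 ≤ 10000000 := by rw [← R_le, R_U]; linarith [e.lle]
    have h2 : R (10000000 - l1) = 1 - R l1 := by rw [R_sub h1, R_U]
    have h3 : R (10000000 - l2) = 1 - R l2 := by rw [R_sub a2, R_U]
    have h4 := sin_low e.lle
    have h5 : R (mn (sF (10000000 - l1)) (sF (10000000 - l2))) ≤ sin (π * l) / π := by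
      rw [R_mn]
      have h6 : 0 ≤ 1 - R l2 := by rw [← h3]; exact R_nonneg _
      rcases cub_aux (y := 1 - l) (a := 1 - R l1) h6 (by linarith) (by linarith) with h | h
      · exact (min_le_left _ _).trans (sF_le _ h0 (by rw [h2]; linarith))
      · exact (min_le_right _ _).trans (sF_le _ h0 (by rw [h3]; linarith))
    refine (dD_le _ _).trans ?_
    rw [← div_div]
    gcongr
  have hm : IsLow φ l (R (mx (Nat.sub w1 sup) (dD (mn (sF (Nat.sub (nat_lit 10000000) l1))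
      (sF (Nat.sub (nat_lit 10000000) l2))) p2))) := by
    rw [mx_eq, max_def]; split_ifs
    · exact hB
    · exact hA
  generalize mx (Nat.sub w1 sup) (dD (mn (sF (Nat.sub (nat_lit 10000000) l1))
      (sF (Nat.sub (nat_lit 10000000) l2))) p2) = hm' at hm ⊢
  apply hk
  refine ⟨hm, ?_, ?_, Nat.succ_pos _, ?_⟩
  · exact R_sub_le (by linarith [e.low _ hm]) (by linarith)
  · have := R_div_ge D 3
    change _ ≤ R (D / 3 + 1)
    push_cast at this; linarith
  · rw [mn_eq, min_def]; split_ifs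
    · left; exact R_U.ge
    · right
      change _ ≤ R (q1 + sup)
      rw [R_add]; linarith

lemma tt_nonneg {φ l M J Z hm x : ℝ} (e : EndD φ l M J Z) (h : IsLow φ l hm) (hx : 0 ≤ x) :
    0 ≤ tt φ l hm x := by
  have h1 : 0 ≤ φ / l - hm := by linarith [e.low _ h]
  have h2 := e.D0
  unfold tt; positivity

lemma tf_le {φ l M J Z : ℝ} (e : EndD φ l M J Z) {hm m V hp : ℕ} (G : Good φ l hm m V hp)
    (x : ℕ) : R (tf m V x) ≤ tt φ l (R hm) (R x) := by
  have h0 := tt_nonneg e G.low (R_nonneg x)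
  have ha := mD_le x m
  unfold tf tf1
  generalize mD x m = a at ha ⊢
  change R (m * a / (a + V)) ≤ _
  rcases Nat.eq_zero_or_pos a with rfl | hpos
  · simpa [R_zero] using h0
  have h1 : R (m * a / (a + V)) ≤ R m * R a / (R a + R V) := by
    refine (R_div_le _ _).trans (le_of_eq ?_)
    have : (0 : ℝ) < a := by exact_mod_cast hpos
    have : (0 : ℝ) ≤ V := Nat.cast_nonneg V
    unfold R; push_cast; field_simp
  refine h1.trans ?_
  have h2 := R_pos hpos
  have h3 := R_pos G.Vpos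
  have h4 := G.mle
  have h5 := G.Vge
  have h6 := e.D0
  have h7 := R_nonneg m
  have h8 := R_nonneg x
  unfold tt
  set μ := φ / l - R hm
  have h9 : R a ≤ R x * μ := ha.trans (by gcongr)
  have h10 : 0 < R x * μ + Dfc φ l / 3 := by linarith
  rw [div_le_div_iff₀ (by linarith) h10]
  have h11 : R a * (R x * μ + Dfc φ l / 3) ≤ R x * μ * (R a + R V) := by
    have : R a * (Dfc φ l / 3) ≤ R x * μ * R V := by gcongr; linarith
    nlinarith
  calc R m * R a * (R x * μ + Dfc φ l / 3) = R m * (R a * (R x * μ + Dfc φ l / 3)) := by ring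
    _ ≤ μ * (R x * μ * (R a + R V)) := by gcongr; linarith
    _ = _ := by ring

/-- The data of one end entering the final inequality. -/
structure EndQ (φ l M J Z c k g cr : ℝ) : Prop where
  hφ : 0 < φ
  e : EndD φ l M J Z
  c0 : 0 ≤ c
  k0 : 0 ≤ k
  g0 : 0 ≤ g
  cr0 : 0 ≤ cr
  c8 : c ≤ 8
  k8 : k ≤ 8
  hZ : l - M ≤ M → (l - M) / 2 - cr ≤ Z

/-- The quantity bounded from below. -/
def Qv (l M J c k g cr : ℝ) : ℝ := J + g * cr - c * M - k * (l - M)

/-- The affine function of the energy ratio. -/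
noncomputable def Gv (l c k hm x t γ ρ : ℝ) : ℝ :=
  hm - (1 - ρ) * x + ρ * t + γ * (1 - ρ) / 2 - ρ * (c * l) - (1 - ρ) * (k * l)

lemma low_le_J {φ l M J Z hm : ℝ} (e : EndD φ l M J Z) (h : IsLow φ l hm) : hm ≤ J := by
  have := e.main hm 1 (|1 - hm| + 1) 0 0 h (Or.inl le_rfl) le_rfl (by positivity)
    (by linarith [le_abs_self (1 - hm)]) le_rfl (by simp [tt])
  simpa [tt] using this

lemma EndQ.nonneg {φ l M J Z c k g cr : ℝ} (q : EndQ φ l M J Z c k g cr) :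
    0 ≤ 8 + Qv l M J c k g cr := by
  have h1 := low_le_J q.e (low_zero q.hφ q.e)
  have h2 := mul_nonneg q.g0 q.cr0
  have h3 : c * M ≤ 8 * M := mul_le_mul_of_nonneg_right q.c8 q.e.M0
  have h4 : k * (l - M) ≤ 8 * (l - M) :=
    mul_le_mul_of_nonneg_right q.k8 (by linarith [q.e.Mle])
  unfold Qv
  linarith [q.e.lle]

lemma EndQ.core {φ l M J Z c k g cr hm hp H x γ : ℝ} (q : EndQ φ l M J Z c k g cr)
    (h1 : IsLow φ l hm) (h2 : IsUp φ l hp) (hx : 0 ≤ x) (hH : 0 < H) (h3 : hp - hm + x ≤ H)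
    (h4 : 0 ≤ γ) (h5 : γ * H ≤ M / l * (x + tt φ l hm x) ^ 2) (h6 : γ ≤ g * l)
    (h7 : γ = 0 ∨ l - M ≤ M) :
    Gv l c k hm x (tt φ l hm x) γ (M / l) ≤ Qv l M J c k g cr := by
  have hl := q.e.lpos
  have h := q.e.main hm hp H x γ h1 h2 hx hH h3 h4 h5
  have h8 : γ * (1 - M / l) / 2 ≤ γ * Z / l + g * cr := by
    rcases h7 with rfl | h7
    · simpa using mul_nonneg q.g0 q.cr0
    · have h9 := q.hZ h7
      have h10 : γ * (1 - M / l) / 2 = γ * ((l - M) / 2) / l := by field_simp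
      have h11 : γ * cr / l ≤ g * cr := by
        rw [div_le_iff₀ hl]
        nlinarith [mul_le_mul_of_nonneg_right h6 q.cr0]
      have h12 : γ * ((l - M) / 2) / l ≤ γ * (Z + cr) / l := by gcongr; linarith
      have h13 : γ * (Z + cr) / l = γ * Z / l + γ * cr / l := by ring
      linarith
  have h14 : M / l * (c * l) = c * M := by field_simp
  have h15 : (1 - M / l) * (k * l) = k * (l - M) := by field_simp
  unfold Gv Qv
  rw [h14, h15]
  linarith

lemma Gv_or {l c k hm x t γ ρ a b Q : ℝ} (h : Gv l c k hm x t γ ρ ≤ Q) (ha : a ≤ ρ)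
    (hb : ρ ≤ b) : Gv l c k hm x t γ a ≤ Q ∨ Gv l c k hm x t γ b ≤ Q := by
  rcases le_total 0 (x + t - γ / 2 - c * l + k * l) with h0 | h0
  · left
    have := mul_nonneg (sub_nonneg.2 ha) h0
    unfold Gv at h ⊢; nlinarith
  · right
    have := mul_nonneg (sub_nonneg.2 hb) (neg_nonneg.2 h0)
    unfold Gv at h ⊢; nlinarith

lemma ep_le {l c k t Q : ℝ} {hm cl kl x t' gam r : ℕ} (hr : r ≤ 100) (ht : R t' ≤ t)
    (hc : c * l ≤ R cl) (hk : k * l ≤ R kl) (h0 : 0 ≤ 8 + Q)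
    (h : Gv l c k (R hm) (R x) t (R gam) (r / 100) ≤ Q) :
    R (ep hm cl kl x t' gam r) ≤ 8 + Q := by
  change R ((100 * (hm + 80000000) + r * t' + (100 - r) * gam / 2 -
    ((100 - r) * (x + kl) + r * cl)) / 100) ≤ _
  refine (R_div_le _ _).trans ?_
  push_cast
  rw [div_le_iff₀ (by norm_num)]
  apply R_sub_le (by linarith)
  have h1 := R_div_le ((100 - r) * gam) 2
  have h2 : R 80000000 = 8 := by unfold R; norm_num
  simp only [R_add, R_mul, h2] at h1 ⊢
  rw [Nat.cast_sub hr] at h1 ⊢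
  push_cast at h1 ⊢
  have h3 : (0 : ℝ) ≤ r := Nat.cast_nonneg r
  have h4 : (0 : ℝ) ≤ 100 - r := by
    have : (r : ℝ) ≤ 100 := by exact_mod_cast hr
    linarith
  have h5 := mul_le_mul_of_nonneg_left ht h3
  have h6 := mul_le_mul_of_nonneg_left hc h3
  have h7 := mul_le_mul_of_nonneg_left hk h4
  unfold Gv at h
  nlinarith

lemma gm_core {φ l M J Z c k g cr : ℝ} (q : EndQ φ l M J Z c k g cr) {hm m V hp : ℕ}
    (G : Good φ l hm m V hp) {gc : ℕ} (hg : R gc ≤ g * l) (x : ℕ) {r : ℕ} (hr : 50 ≤ r)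
    (h : (r : ℝ) / 100 ≤ M / l) :
    Gv l c k (R hm) (R x) (tt φ l (R hm) (R x)) (R (gm gc hm hp x (tf m V x) r)) (M / l)
      ≤ Qv l M J c k g cr := by
  have hl := q.e.lpos
  have ht := tf_le q.e G x
  have hH : R hp - R hm + R x ≤ R (hp + x - hm + 1) := by
    have := R_sub_ge (hp + x) hm
    rw [R_succ]; rw [R_add] at this; linarith
  have hH0 : 0 < R (hp + x - hm + 1) := R_pos (Nat.succ_pos _)
  have e1 : gm gc hm hp x (tf m V x) r =
      mn gc ((x + tf m V x) * (x + tf m V x) / (hp + x - hm + 1) * r / 100) := rfl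
  rw [e1]
  refine q.core G.low G.up (R_nonneg x) hH0 hH (R_nonneg _) ?_ ?_ (Or.inr ?_)
  · rw [R_mn]
    generalize hp + x - hm + 1 = H at hH0 ⊢
    have h1 := R_div_le ((x + tf m V x) * (x + tf m V x) / H * r) 100
    have h2 := R_div_le ((x + tf m V x) * (x + tf m V x)) H
    have h3 : R ((x + tf m V x) * (x + tf m V x)) / H * R H = R (x + tf m V x) ^ 2 := by
      have : (H : ℝ) ≠ 0 := by
        intro h0; unfold R at hH0; rw [h0] at hH0; simp at hH0
      unfold R; push_cast; field_simp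
    rw [mul_comm _ r, R_mul] at h1
    have h4 : (0 : ℝ) ≤ r := Nat.cast_nonneg r
    have h5 : R (x + tf m V x) ≤ R x + tt φ l (R hm) (R x) := by rw [R_add]; linarith
    have h6 := R_nonneg (x + tf m V x)
    calc min (R gc) (R ((x + tf m V x) * (x + tf m V x) / H * r / 100)) * R H
        ≤ R ((x + tf m V x) * (x + tf m V x) / H * r / 100) * R H := by
          gcongr; exact min_le_right _ _
      _ ≤ (r * (R ((x + tf m V x) * (x + tf m V x)) / H) / 100) * R H := by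
          gcongr
          rw [mul_comm _ r]
          refine h1.trans ?_
          push_cast; gcongr
      _ = r / 100 * R (x + tf m V x) ^ 2 := by rw [← h3]; ring
      _ ≤ _ := by
          gcongr
          exact div_nonneg q.e.M0 hl.le
  · rw [R_mn]; exact (min_le_left _ _).trans hg
  · have h1 : (50 : ℝ) ≤ r := by exact_mod_cast hr
    have h2 : (1 : ℝ) / 2 ≤ M / l := by linarith
    rw [le_div_iff₀ hl] at h2; linarith

lemma pc_sound {φ l M J Z c k g cr : ℝ} (q : EndQ φ l M J Z c k g cr) {hm m V hp : ℕ}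
    (G : Good φ l hm m V hp) {cl kl gc : ℕ} (hc : c * l ≤ R cl) (hk : k * l ≤ R kl)
    (hg : R gc ≤ g * l) (x : ℕ) {r1 r2 : ℕ} (h0 : 50 ≤ r1) (h1 : r1 ≤ 100) (h2 : r2 ≤ 100)
    (h3 : (r1 : ℝ) / 100 ≤ M / l) (h4 : M / l ≤ (r2 : ℝ) / 100) :
    R (pc cl kl gc hm m V hp x r1 r2) ≤ 8 + Qv l M J c k g cr := by
  have ht := tf_le q.e G x
  unfold pc pc1 pe
  rw [R_mn]
  rcases Gv_or (gm_core q G hg x h0 h3) h3 h4 with h | h
  · exact (min_le_left _ _).trans (ep_le h1 ht hc hk q.nonneg h)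
  · exact (min_le_right _ _).trans (ep_le h2 ht hc hk q.nonneg h)

lemma pc0_sound {φ l M J Z c k g cr : ℝ} (q : EndQ φ l M J Z c k g cr) {hm m V hp : ℕ}
    (G : Good φ l hm m V hp) {cl kl : ℕ} (hc : c * l ≤ R cl) (hk : k * l ≤ R kl)
    (x : ℕ) {r2 : ℕ} (h2 : r2 ≤ 100) (h4 : M / l ≤ (r2 : ℝ) / 100) :
    R (pc0 cl kl hm m V x r2) ≤ 8 + Qv l M J c k g cr := by
  have ht := tf_le q.e G x
  have hl := q.e.lpos
  have h5 : 0 ≤ M / l := div_nonneg q.e.M0 hl.le
  have h6 := q.core (γ := 0) (H := |R hp - R hm + R x| + 1) G.low G.up (R_nonneg x)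
    (by positivity) (by linarith [le_abs_self (R hp - R hm + R x)]) le_rfl
    (by rw [zero_mul]; positivity) (mul_nonneg q.g0 hl.le) (Or.inl rfl)
  change R (mn (ep hm cl kl x (tf m V x) 0 0) (ep hm cl kl x (tf m V x) 0 r2)) ≤ _
  rw [R_mn]
  rw [← R_zero] at h6
  rcases Gv_or (a := ((0 : ℕ) : ℝ) / 100) h6 (by simpa using h5) h4 with h | h
  · exact (min_le_left _ _).trans (ep_le (by norm_num) ht hc hk q.nonneg h)
  · exact (min_le_right _ _).trans (ep_le h2 ht hc hk q.nonneg h)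

lemma ratio_le {φ l M J Z : ℝ} (e : EndD φ l M J Z) : M / l ≤ ((100 : ℕ) : ℝ) / 100 := by
  rw [div_le_iff₀ e.lpos]; push_cast; linarith [e.Mle]

lemma four_sound {φ l M J Z c k g cr : ℝ} (q : EndQ φ l M J Z c k g cr) {hm m V hp : ℕ}
    (G : Good φ l hm m V hp) {cl kl gc : ℕ} (hc : c * l ≤ R cl) (hk : k * l ≤ R kl)
    (hg : R gc ≤ g * l) (x0 x1 x2 x3 : ℕ) (h : M / l ≤ ((92 : ℕ) : ℝ) / 100) :
    R (mn (mn (pc0 cl kl hm m V x0 50) (pc cl kl gc hm m V hp x1 50 70))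
      (mn (pc cl kl gc hm m V hp x2 70 82) (pc cl kl gc hm m V hp x3 82 92)))
      ≤ 8 + Qv l M J c k g cr := by
  simp only [R_mn]
  rcases le_total (M / l) (((70 : ℕ) : ℝ) / 100) with h1 | h1
  · refine (min_le_left _ _).trans ?_
    rcases le_total (M / l) (((50 : ℕ) : ℝ) / 100) with h2 | h2
    · exact (min_le_left _ _).trans (pc0_sound q G hc hk x0 (by norm_num) h2)
    · exact (min_le_right _ _).trans
        (pc_sound q G hc hk hg x1 (by norm_num) (by norm_num) (by norm_num) h2 h1)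
  · refine (min_le_right _ _).trans ?_
    rcases le_total (M / l) (((82 : ℕ) : ℝ) / 100) with h2 | h2
    · exact (min_le_left _ _).trans
        (pc_sound q G hc hk hg x2 (by norm_num) (by norm_num) (by norm_num) h1 h2)
    · exact (min_le_right _ _).trans
        (pc_sound q G hc hk hg x3 (by norm_num) (by norm_num) (by norm_num) h2 h)

lemma mU_bound {c l : ℝ} {c' l2 : ℕ} (hc : c ≤ R c') (hl : 0 ≤ l) (h : l ≤ R l2) :
    c * l ≤ R (mU c' l2) :=
  le_trans (mul_le_mul hc h hl (R_nonneg _)) (mU_ge _ _)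

lemma mD_bound {g l : ℝ} {g' l1 : ℕ} (hg : R g' ≤ g) (h : R l1 ≤ l) : R (mD g' l1) ≤ g * l :=
  (mD_le _ _).trans (mul_le_mul hg h (R_nonneg _) ((R_nonneg _).trans hg))

lemma evN_sound {φ l M J Z g cr : ℝ} {c k : ℕ} (q : EndQ φ l M J Z (R c) (R k) g cr)
    {l1 l2 p1 p2 : ℕ} (a1 : 0 < l1) (a2 : l2 ≤ 10000000) (a3 : 0 < p1) (b1 : R l1 ≤ l)
    (b2 : l ≤ R l2) (b3 : R p1 ≤ φ) (b4 : φ ≤ R p2) :
    R (evN c k l1 l2 p1 p2) ≤ 8 + Qv l M J (R c) (R k) g cr :=
  bnd_sound q.hφ q.e a1 a2 a3 b1 b2 b3 b4 fun _ _ _ _ G =>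
    pc0_sound q G (mU_bound le_rfl q.e.lpos.le b2) (mU_bound le_rfl q.e.lpos.le b2) _
      (r2 := 100) le_rfl (ratio_le q.e)

lemma evG_sound {φ l M J Z cr : ℝ} {c k g : ℕ} (q : EndQ φ l M J Z (R c) (R k) (R g) cr)
    (x0 x1 x2 x3 x4 : ℕ)
    {l1 l2 p1 p2 : ℕ} (a1 : 0 < l1) (a2 : l2 ≤ 10000000) (a3 : 0 < p1) (b1 : R l1 ≤ l)
    (b2 : l ≤ R l2) (b3 : R p1 ≤ φ) (b4 : φ ≤ R p2) :
    R (evG c k g x0 x1 x2 x3 x4 l1 l2 p1 p2) ≤ 8 + Qv l M J (R c) (R k) (R g) cr := by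
  refine bnd_sound q.hφ q.e a1 a2 a3 b1 b2 b3 b4 fun hm m V hp G => ?_
  have hc := mU_bound (c' := c) le_rfl q.e.lpos.le b2
  have hk := mU_bound (c' := k) le_rfl q.e.lpos.le b2
  have hg := mD_bound (g' := g) le_rfl b1
  unfold kG
  rw [R_mn]
  rcases le_total (M / l) (((92 : ℕ) : ℝ) / 100) with h1 | h1
  · exact (min_le_left _ _).trans (four_sound q G hc hk hg x0 x1 x2 x3 h1)
  · exact (min_le_right _ _).trans (pc_sound q G hc hk hg x4 (r1 := 92) (r2 := 100)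
      (by norm_num) (by norm_num) (by norm_num) h1 (ratio_le q.e))

lemma tt_ge {φ l M J Z hm x : ℝ} (e : EndD φ l M J Z) (h : IsLow φ l hm) (hx : 0 < x) :
    φ / l - Dfc φ l / (3 * x) ≤ hm + tt φ l hm x := by
  have h1 : 0 ≤ φ / l - hm := by linarith [e.low _ h]
  have h2 := e.D0
  unfold tt
  set μ := φ / l - hm with hμ
  have h3 : φ / l = hm + μ := by rw [hμ]; ring
  have h4 : μ - Dfc φ l / (3 * x) ≤ x * μ ^ 2 / (x * μ + Dfc φ l / 3) := by
    rcases h1.eq_or_lt with h5 | h5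
    · rw [← h5]
      have : 0 ≤ Dfc φ l / (3 * x) := by positivity
      simp only [mul_zero, ne_eq, OfNat.ofNat_ne_zero, not_false_eq_true, zero_pow, zero_add,
        zero_div]
      linarith
    · have h6 : 0 < x * μ + Dfc φ l / 3 := by positivity
      rw [le_div_iff₀ h6]
      have h7 : (μ - Dfc φ l / (3 * x)) * (x * μ + Dfc φ l / 3) =
          x * μ ^ 2 - Dfc φ l ^ 2 / (9 * x) := by field_simp; ring
      have h8 : 0 ≤ Dfc φ l ^ 2 / (9 * x) := by positivity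
      linarith
  linarith

lemma evC_sound {φ l M J Z c cr : ℝ} (q : EndQ φ l M J Z c 0.109 0.5 cr) (hc' : c ≤ 0.66277)
    {l1 l2 p1 p2 : ℕ} (a1 : 0 < l1) (a2 : l2 ≤ 10000000) (a3 : 0 < p1) (b1 : R l1 ≤ l)
    (b2 : l ≤ R l2) (b3 : R p1 ≤ φ) (b4 : φ ≤ R p2)
    (hn : Qv l M J c 0.109 0.5 cr < φ / l - Dfc φ l / 1.35 - c * l) :
    R (evC l1 l2 p1 p2) ≤ 8 + Qv l M J c 0.109 0.5 cr := by
  refine bnd_sound q.hφ q.e a1 a2 a3 b1 b2 b3 b4 fun hm m V hp G => ?_
  have hc := mU_bound (c := c) (c' := 6627700) (hc'.trans (by unfold R; norm_num)) q.e.lpos.le b2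
  have hk := mU_bound (c := 0.109) (c' := 1090000) (by unfold R; norm_num) q.e.lpos.le b2
  have hg := mD_bound (g := 0.5) (g' := 5000000) (by unfold R; norm_num) b1
  unfold kC
  rw [R_mn]
  rcases le_total (M / l) (((92 : ℕ) : ℝ) / 100) with h1 | h1
  · exact (min_le_left _ _).trans (four_sound q G hc hk hg _ _ _ _ h1)
  · refine (min_le_right _ _).trans ?_
    rcases Gv_or (gm_core q G hg 4500000 (r := 92) (by norm_num) h1) h1 (ratio_le q.e) with h | h
    · exact ep_le (r := 92) (by norm_num) (tf_le q.e G 4500000) hc hk q.nonneg h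
    · exfalso
      have h2 := tt_ge q.e G.low (x := R 4500000) (R_pos (by norm_num))
      have h3 : 3 * R 4500000 = 1.35 := by unfold R; norm_num
      rw [h3] at h2
      unfold Gv at h
      push_cast at h
      norm_num at h
      linarith

end Pool.Agent.Lib.MP_14b623_gt.Chk
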