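import Pool.Agent.Lib.MP_14b623_gt.FinEnd

/-! The master inequality and the conditions depending on the conformal modulus. -/

namespace Pool.Agent.Lib.MP_14b623_gt.Chk

open Real

/-- A hypothetical counterexample. -/
structure Bad (τ T φ la lb Ma Mb Ja Jb Za Zb φ' s Y x : ℝ) : Prop where
  h1 : 1.199675 < τ
  h2 : τ < 1.199685
  hτ : τ * sinh τ = cosh τ
  hT : 0 < T
  hφ : 0 < φ
  ha : EndD φ la Ma Ja Za
  hb : EndD φ lb Mb Jb Zb
  hh : HolD T φ la lb Ma Mb Za Zb φ' s Y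
  hJ : φ * T = Ja + Jb
  hab : lb ≤ la
  hL : la + lb < 2 / τ
  x0 : 0 ≤ x
  hs : 2 * s = x ^ 2 * φ'
  hY : x * φ' ≤ Y

/-- The cross term. -/
noncomputable def crs (T la lb Ma Mb Y : ℝ) : ℝ :=
  exp (-(3 * T / 2)) * √((la - Ma) * (lb - Mb)) + Y

variable {τ T φ la lb Ma Mb Ja Jb Za Zb φ' s Y x : ℝ}

lemma Bad.crs_nonneg (B : Bad τ T φ la lb Ma Mb Ja Jb Za Zb φ' s Y x) :
    0 ≤ crs T la lb Ma Mb Y := by
  have := B.hh.Y0
  unfold crs; positivity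

lemma Bad.qa (B : Bad τ T φ la lb Ma Mb Ja Jb Za Zb φ' s Y x) {c k g : ℝ} (c0 : 0 ≤ c)
    (k0 : 0 ≤ k) (g0 : 0 ≤ g) (c8 : c ≤ 8) (k8 : k ≤ 8) :
    EndQ φ la Ma Ja Za c k g (crs T la lb Ma Mb Y) :=
  ⟨B.hφ, B.ha, c0, k0, g0, B.crs_nonneg, c8, k8, fun h => by
    have := B.hh.h5a h; unfold crs; linarith⟩

lemma Bad.qb (B : Bad τ T φ la lb Ma Mb Ja Jb Za Zb φ' s Y x) {c k g : ℝ} (c0 : 0 ≤ c)
    (k0 : 0 ≤ k) (g0 : 0 ≤ g) (c8 : c ≤ 8) (k8 : k ≤ 8) :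
    EndQ φ lb Mb Jb Zb c k g (crs T la lb Ma Mb Y) :=
  ⟨B.hφ, B.hb, c0, k0, g0, B.crs_nonneg, c8, k8, fun h => by
    have := B.hh.h5b h; unfold crs; linarith⟩

lemma amgm {p q a b g : ℝ} (hp : 0 ≤ p) (hq : 0 ≤ q) (ha : 0 ≤ a) (hb : 0 ≤ b)
    (h : g ^ 2 ≤ 4 * a * b) : g * √(p * q) ≤ a * p + b * q := by
  apply le_trans (le_abs_self _)
  apply abs_le_of_sq_le_sq' _ (by positivity) |>.2 |> fun h' => h'
  rw [sq_abs, mul_pow, sq_sqrt (by positivity)]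
  have h1 : g ^ 2 * (p * q) ≤ 4 * a * b * (p * q) := by gcongr
  nlinarith [sq_nonneg (a * p - b * q)]

lemma Bad.master (B : Bad τ T φ la lb Ma Mb Ja Jb Za Zb φ' s Y x)
    {ca cb ka kb k2a k2b ga gb C W Gc G1 G3 : ℝ} (ca0 : 0 ≤ ca) (cb0 : 0 ≤ cb) (ka0 : 0 ≤ ka)
    (kb0 : 0 ≤ kb) (k2a0 : 0 ≤ k2a) (k2b0 : 0 ≤ k2b)
    (hA : ((ga + gb) * exp (-(3 * T / 2))) ^ 2 ≤ 4 * k2a * k2b)
    (hc : Gc ≤ Gam ca cb (cosh T)) (h1 : G1 ≤ Gam ka kb (cosh T))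
    (h3 : G3 ≤ Gam ka kb (cosh (3 * T))) (W0 : 0 ≤ W) (hW : T + C ≤ W)
    (hB : ga + gb + 2 * W ≤ 2 * G3)
    (hC : x * (ga + gb) + (1 + x) ^ 2 * W ≤ Gc + 2 * x * G3 + x ^ 2 * G1) :
    Qv la Ma Ja ca (ka + k2a) ga (crs T la lb Ma Mb Y) +
      Qv lb Mb Jb cb (kb + k2b) gb (crs T la lb Ma Mb Y) + C * φ ≤ 0 := by
  have e1 := B.hh.h3 ca cb ca0 cb0
  have e2 := B.hh.h4 ka kb ka0 kb0
  have e3 := amgm (p := la - Ma) (q := lb - Mb) (by linarith [B.ha.Mle]) (by linarith [B.hb.Mle])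
    k2a0 k2b0 hA
  have p0 := B.hh.p0
  have s0 := B.hh.s0
  have Y0 := B.hh.Y0
  have e4 : φ' * Gc ≤ φ' * Gam ca cb (cosh T) := by gcongr
  have e5 : 2 * s * G1 ≤ 2 * s * Gam ka kb (cosh T) := by gcongr
  have e6 : 2 * Y * G3 ≤ 2 * Y * Gam ka kb (cosh (3 * T)) := by gcongr
  have e7 : φ * (T + C) ≤ φ * W := by gcongr; exact B.hφ.le
  have e8 : φ * W ≤ (φ' + 2 * s + 2 * Y) * W := by gcongr; exact B.hh.h1
  have e9 := mul_le_mul_of_nonneg_left hC p0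
  have e10 := mul_le_mul_of_nonneg_left hB (sub_nonneg.2 B.hY)
  have e11 := B.hJ
  rw [B.hs] at e2 e5 e8
  unfold Qv crs
  nlinarith

lemma cosh_ge_tan {E tm t : ℝ} (h1 : 1 ≤ E) (h2 : E ≤ exp tm) :
    (E + 1 / E) / 2 + (E - 1 / E) / 2 * (t - tm) ≤ cosh t := by
  have hE : 0 < E := by linarith
  have h3 : log E ≤ tm := (log_le_iff_le_exp hE).2 h2
  have h4 : exp t = E * exp (t - log E) := by rw [exp_sub, exp_log hE]; field_simp
  have h5 : exp (-t) = 1 / E * exp (log E - t) := by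
    rw [exp_sub, exp_log hE, exp_neg]; field_simp
  have h6 := add_one_le_exp (t - log E)
  have h7 := add_one_le_exp (log E - t)
  have h8 : 1 / E ≤ E := by rw [div_le_iff₀ hE]; nlinarith
  have h9 : 0 < 1 / E := by positivity
  rw [cosh_eq, h4, h5]
  have h10 := mul_le_mul_of_nonneg_left h6 hE.le
  have h11 := mul_le_mul_of_nonneg_left h7 h9.le
  have h12 := mul_nonneg (sub_nonneg.2 h8) (sub_nonneg.2 h3)
  nlinarith

lemma lin_sound {E d1 d2 : ℕ} {tm t μ : ℝ} (hv : vOk E d1 = true) (hE : R E ≤ exp tm)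
    (m0 : 0 ≤ μ) (m1 : μ ≤ 1) (ht : t - tm = -((1 - μ) * R d1) + μ * R d2) :
    (1 - μ) * R (vLo E d1) + μ * R (vHi E d2) ≤ cosh t := by
  unfold vOk at hv
  rw [Bool.and_eq_true] at hv
  have v1 : 10000000 ≤ E := Nat.le_of_ble_eq_true hv.1
  have v2 : mU (shU E) d1 ≤ chE E := Nat.le_of_ble_eq_true hv.2
  have h1 : 1 ≤ R E := by rw [← R_U]; exact R_le.2 v1
  have h2 := cosh_ge_tan (t := t) h1 hE
  have i1 : R (ivE E) ≤ 1 / R E := by
    have := dD_le 10000000 E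
    rwa [R_U] at this
  have i2 : 1 / R E ≤ R (ivE E + 1) := by
    have := dU_ge 10000000 E
    rwa [R_U] at this
  have i3 : 1 / R E ≤ R E := by rw [div_le_iff₀ (by linarith)]; nlinarith
  have c1 : R (chE E) ≤ (R E + 1 / R E) / 2 := by
    have := R_div_le (E + ivE E) 2
    rw [R_add] at this
    change R ((E + ivE E) / 2) ≤ _
    push_cast at this; linarith
  have c2 : (R E - 1 / R E) / 2 ≤ R (shU E) := by
    have := R_div_ge (E - ivE E) 2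
    have h3 := R_sub_ge E (ivE E)
    change _ ≤ R ((E - ivE E) / 2 + 1)
    push_cast at this; linarith
  have c3 : R (shL E) ≤ (R E - 1 / R E) / 2 := by
    have := R_div_le (E - (ivE E + 1)) 2
    have h3 : R (E - (ivE E + 1)) ≤ R E - 1 / R E := R_sub_le (by linarith) (by linarith)
    change R ((E - (ivE E + 1)) / 2) ≤ _
    push_cast at this; linarith
  have d1' : R (vLo E d1) ≤ (R E + 1 / R E) / 2 - (R E - 1 / R E) / 2 * R d1 := by
    change R (chE E - mU (shU E) d1) ≤ _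
    rw [R_sub v2]
    have := mU_ge (shU E) d1
    have h3 := mul_le_mul_of_nonneg_right c2 (R_nonneg d1)
    linarith
  have d2' : R (vHi E d2) ≤ (R E + 1 / R E) / 2 + (R E - 1 / R E) / 2 * R d2 := by
    change R (chE E + mD (shL E) d2) ≤ _
    rw [R_add]
    have := mD_le (shL E) d2
    have h3 := mul_le_mul_of_nonneg_right c3 (R_nonneg d2)
    linarith
  rw [ht] at h2
  have h4 := mul_le_mul_of_nonneg_left d1' (sub_nonneg.2 m1)
  have h5 := mul_le_mul_of_nonneg_left d2' m0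
  nlinarith

lemma gamL_sq (a b v : ℕ) : R (gamL a b v) ^ 2 ≤ R a ^ 2 + R b ^ 2 + 2 * R a * R b * R v := by
  refine (sqL_sq_le _).trans ?_
  change R (a * a + b * b + 2 * mD a b * v) / 10000000 ≤ _
  have h1 := mD_le a b
  have h2 : R (a * a + b * b + 2 * mD a b * v) / 10000000 =
      R a ^ 2 + R b ^ 2 + 2 * R (mD a b) * R v := by unfold R; push_cast; ring
  have h3 := mul_le_mul_of_nonneg_right h1 (R_nonneg v)
  rw [h2]; linarith

lemma gam_interp (a b v0 v1 : ℕ) {μ v : ℝ} (m0 : 0 ≤ μ) (m1 : μ ≤ 1)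
    (h : (1 - μ) * R v0 + μ * R v1 ≤ v) :
    (1 - μ) * R (gamL a b v0) + μ * R (gamL a b v1) ≤ Gam (R a) (R b) v := by
  unfold Gam
  apply le_sqrt_of_sq_le
  have h1 := mul_le_mul_of_nonneg_left (gamL_sq a b v0) (sub_nonneg.2 m1)
  have h2 := mul_le_mul_of_nonneg_left (gamL_sq a b v1) m0
  have h3 : 0 ≤ 2 * R a * R b := by have := R_nonneg a; have := R_nonneg b; positivity
  have h4 := mul_le_mul_of_nonneg_left h h3
  have h5 := mul_nonneg (mul_nonneg m0 (sub_nonneg.2 m1))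
    (sq_nonneg (R (gamL a b v0) - R (gamL a b v1)))
  nlinarith

lemma xok_sound {gs W Gc G1 G3 x : ℕ} (h : xok gs W Gc G1 G3 x = true) :
    (x / 100 : ℝ) * R gs + (1 + x / 100) ^ 2 * R W ≤
      R Gc + 2 * (x / 100) * R G3 + (x / 100) ^ 2 * R G1 := by
  have h1 : 100 * x * gs + (100 + x) * (100 + x) * W ≤ 10000 * Gc + 200 * x * G3 + x * x * G1 :=
    Nat.le_of_ble_eq_true h
  have h2 := R_le.2 h1
  simp only [R_add, R_mul] at h2
  push_cast at h2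
  nlinarith

lemma quad_interp {x x1 x2 gs W Gc G1 G3 : ℝ} (h0 : 0 ≤ x1) (h1 : x1 ≤ x) (h2 : x ≤ x2)
    (hB : gs + 2 * W ≤ 2 * G3)
    (q1 : x1 * gs + (1 + x1) ^ 2 * W ≤ Gc + 2 * x1 * G3 + x1 ^ 2 * G1)
    (q2 : x2 * gs + (1 + x2) ^ 2 * W ≤ Gc + 2 * x2 * G3 + x2 ^ 2 * G1) :
    x * gs + (1 + x) ^ 2 * W ≤ Gc + 2 * x * G3 + x ^ 2 * G1 := by
  have k1 : 0 ≤ 2 * G3 - gs - 2 * W + (x + x1) * (G1 - W) →
      x * gs + (1 + x) ^ 2 * W ≤ Gc + 2 * x * G3 + x ^ 2 * G1 := fun h => by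
    have := mul_nonneg (sub_nonneg.2 h1) h
    nlinarith
  rcases le_total 0 (G1 - W) with h3 | h3
  · apply k1
    have := mul_nonneg (by linarith : 0 ≤ x + x1) h3
    linarith
  rcases le_total 0 (2 * G3 - gs - 2 * W + (x + x1) * (G1 - W)) with h | h
  · exact k1 h
  · have h4 := mul_nonneg (sub_nonneg.2 (h1.trans h2)) (neg_nonneg.2 h3)
    have h5 : 0 ≤ -(2 * G3 - gs - 2 * W + (x + x2) * (G1 - W)) := by nlinarith
    have := mul_nonneg (sub_nonneg.2 h2) h5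
    nlinarith

lemma tend_sound {x1 x2 ca cb ka kb gs W v1 v3 : ℕ} (h : tend x1 x2 ca cb ka kb gs W v1 v3 = true) :
    R gs + 2 * R W ≤ 2 * R (gamL ka kb v3) ∧
    ((x1 / 100 : ℝ) * R gs + (1 + x1 / 100) ^ 2 * R W ≤ R (gamL ca cb v1) +
      2 * (x1 / 100) * R (gamL ka kb v3) + (x1 / 100) ^ 2 * R (gamL ka kb v1)) ∧
    ((x2 / 100 : ℝ) * R gs + (1 + x2 / 100) ^ 2 * R W ≤ R (gamL ca cb v1) +
      2 * (x2 / 100) * R (gamL ka kb v3) + (x2 / 100) ^ 2 * R (gamL ka kb v1)) := by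
  unfold tend tend1 at h
  simp only [Bool.and_eq_true] at h
  refine ⟨?_, xok_sound h.2.1, xok_sound h.2.2⟩
  have h1 := R_le.2 (Nat.le_of_ble_eq_true h.1)
  simp only [R_add, R_mul] at h1
  exact_mod_cast h1

lemma exists_mu {a b t : ℝ} (h1 : a ≤ t) (h2 : t ≤ b) :
    ∃ μ, 0 ≤ μ ∧ μ ≤ 1 ∧ t = (1 - μ) * a + μ * b := by
  rcases (h1.trans h2).eq_or_lt with h | h
  · exact ⟨0, le_rfl, zero_le_one, by linarith⟩
  · have h3 : 0 < b - a := by linarith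
    refine ⟨(t - a) / (b - a), div_nonneg (by linarith) h3.le, ?_, ?_⟩
    · rw [div_le_one h3]; linarith
    · field_simp; ring

lemma Bad.tok_sound (B : Bad τ T φ la lb Ma Mb Ja Jb Za Zb φ' s Y x)
    {T1 T2 x1 x2 ca cb ka kb k2a k2b ga gb Cp Cm : ℕ}
    (h : tok T1 T2 x1 x2 ca cb ka kb k2a k2b (ga + gb) Cp Cm = true)
    (t1 : R T1 ≤ T) (t2 : T ≤ R T2) (y1 : (x1 / 100 : ℝ) ≤ x) (y2 : x ≤ x2 / 100) :
    Qv la Ma Ja (R ca) (R (ka + k2a)) (R ga) (crs T la lb Ma Mb Y) +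
      Qv lb Mb Jb (R cb) (R (kb + k2b)) (R gb) (crs T la lb Ma Mb Y) + (R Cp - R Cm) * φ ≤ 0 := by
  unfold tok tok1 at h
  simp only [Bool.and_eq_true] at h
  obtain ⟨hA, ⟨v1, v3⟩, e1, e2⟩ := h
  obtain ⟨μ, m0, m1, hμ⟩ := exists_mu t1 t2
  have t12 : T1 ≤ T2 := R_le.1 (t1.trans t2)
  have d1 : R ((T1 + T2) / 2 - T1) = R ((T1 + T2) / 2) - R T1 := R_sub (by omega)
  have d2 : R (T2 - (T1 + T2) / 2) = R T2 - R ((T1 + T2) / 2) := R_sub (by omega)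
  have hE := expL_le ((T1 + T2) / 2)
  have l1 := lin_sound (d2 := T2 - (T1 + T2) / 2) (t := T) v1 hE m0 m1
    (by rw [d1, d2, hμ]; ring)
  have l3 := lin_sound (d2 := 3 * (T2 - (T1 + T2) / 2)) (t := 3 * T) v3 (cube_le hE) m0 m1
    (by rw [R_mul, R_mul, d1, d2, hμ]; push_cast; ring)
  obtain ⟨a1, a2, a3⟩ := tend_sound e1
  obtain ⟨b1, b2, b3⟩ := tend_sound e2
  have g1 := gam_interp ca cb _ _ m0 m1 l1
  have g2 := gam_interp ka kb _ _ m0 m1 l1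
  have g3 := gam_interp ka kb _ _ m0 m1 l3
  have w1 := R_sub_ge (T1 + Cp) Cm
  have w2 := R_sub_ge (T2 + Cp) Cm
  have n1 := R_nonneg (T1 + Cp - Cm)
  have n2 := R_nonneg (T2 + Cp - Cm)
  have m2 : 0 ≤ 1 - μ := by linarith
  rw [R_add] at w1 w2 a1 a2 a3 b1 b2 b3
  rw [R_add, R_add]
  generalize R (T1 + Cp - Cm) = W1 at *
  generalize R (T2 + Cp - Cm) = W2 at *
  generalize R (gamL ca cb (vLo _ _)) = A1 at a2 a3 g1
  generalize R (gamL ca cb (vHi _ _)) = A2 at b2 b3 g1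
  generalize R (gamL ka kb (vLo (cube _) _)) = C1 at a1 a2 a3 g3
  generalize R (gamL ka kb (vHi (cube _) _)) = C2 at b1 b2 b3 g3
  generalize R (gamL ka kb (vLo _ _)) = B1 at a2 a3 g2
  generalize R (gamL ka kb (vHi _ _)) = B2 at b2 b3 g2
  have hB : R ga + R gb + 2 * ((1 - μ) * W1 + μ * W2) ≤ 2 * ((1 - μ) * C1 + μ * C2) := by
    have := add_le_add (mul_le_mul_of_nonneg_left a1 m2) (mul_le_mul_of_nonneg_left b1 m0)
    linarith
  refine B.master (R_nonneg _) (R_nonneg _) (R_nonneg _) (R_nonneg _) (R_nonneg _) (R_nonneg _)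
    ?_ g1 g2 g3 (W := (1 - μ) * W1 + μ * W2) (by positivity) ?_ hB ?_
  · have h1 : (ga + gb) * (ga + gb) ≤ 4 * mD k2a k2b * cube (expL T1) := Nat.le_of_ble_eq_true hA
    have h2 : (R ga + R gb) ^ 2 ≤ 4 * R (mD k2a k2b) * R (cube (expL T1)) := by
      have h3 : (((ga + gb) * (ga + gb) : ℕ) : ℝ) ≤ (4 * mD k2a k2b * cube (expL T1) : ℕ) := by
        exact_mod_cast h1
      unfold R; push_cast at h3; nlinarith
    have h3 : R (cube (expL T1)) ≤ exp (3 * T) :=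
      (cube_le (expL_le T1)).trans (exp_le_exp.2 (by linarith))
    have h4 := mD_le k2a k2b
    have h5 := R_nonneg (mD k2a k2b)
    have h6 : exp (-(3 * T / 2)) ^ 2 * exp (3 * T) = 1 := by
      rw [sq, ← exp_add, ← exp_add, exp_eq_one_iff]; ring
    have h7 : (R ga + R gb) ^ 2 ≤ 4 * (R k2a * R k2b) * exp (3 * T) :=
      h2.trans (by
        have := R_nonneg (cube (expL T1))
        have := mul_nonneg (R_nonneg k2a) (R_nonneg k2b)
        gcongr)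
    have h8 := mul_le_mul_of_nonneg_left h7 (sq_nonneg (exp (-(3 * T / 2))))
    calc _ = exp (-(3 * T / 2)) ^ 2 * (R ga + R gb) ^ 2 := by ring
      _ ≤ _ := h8
      _ = 4 * R k2a * R k2b * (exp (-(3 * T / 2)) ^ 2 * exp (3 * T)) := by ring
      _ = _ := by rw [h6, mul_one]
  · have := add_le_add (mul_le_mul_of_nonneg_left w1 m2) (mul_le_mul_of_nonneg_left w2 m0)
    rw [hμ]; linarith
  · refine quad_interp (by positivity) y1 y2 hB ?_ ?_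
    · have := add_le_add (mul_le_mul_of_nonneg_left a2 m2) (mul_le_mul_of_nonneg_left b2 m0)
      linarith
    · have := add_le_add (mul_le_mul_of_nonneg_left a3 m2) (mul_le_mul_of_nonneg_left b3 m0)
      linarith

end Pool.Agent.Lib.MP_14b623_gt.Chk
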