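import Pool.Agent.Lib.MP_14b623_gt.Basic
import Pool.Agent.Lib.MP_14b623_gt.FinDef

/-! Soundness of the fixed point arithmetic. -/

namespace Pool.Agent.Lib.MP_14b623_gt.Chk

open Real

/-- The real number represented by `n`. -/
noncomputable def R (n : ℕ) : ℝ := (n : ℝ) / 10000000

lemma R_nonneg (n : ℕ) : 0 ≤ R n := by unfold R; positivity

lemma R_pos {n : ℕ} (h : 0 < n) : 0 < R n := by
  unfold R; have : (0 : ℝ) < n := by exact_mod_cast h
  positivity

lemma R_le {a b : ℕ} : R a ≤ R b ↔ a ≤ b := by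
  unfold R; rw [div_le_div_iff_of_pos_right (by norm_num)]; exact Nat.cast_le

lemma R_lt {a b : ℕ} : R a < R b ↔ a < b := by
  unfold R; rw [div_lt_div_iff_of_pos_right (by norm_num)]; exact Nat.cast_lt

lemma R_add (a b : ℕ) : R (a + b) = R a + R b := by unfold R; push_cast; ring

lemma R_mul (a b : ℕ) : R (a * b) = a * R b := by unfold R; push_cast; ring

lemma R_succ (a : ℕ) : R (a + 1) = R a + 1 / 10000000 := by unfold R; push_cast; ring

lemma R_sub_ge (a b : ℕ) : R a - R b ≤ R (a - b) := by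
  have : a ≤ a - b + b := by omega
  have := R_le.2 this
  rw [R_add] at this; linarith

lemma R_sub {a b : ℕ} (h : b ≤ a) : R (a - b) = R a - R b := by
  have : a = a - b + b := by omega
  conv_rhs => rw [this, R_add]
  ring

lemma R_sub_le {a b : ℕ} {y : ℝ} (h0 : 0 ≤ y) (h : R a - R b ≤ y) : R (a - b) ≤ y := by
  rcases le_total b a with h1 | h1
  · rw [R_sub h1]; exact h
  · rw [Nat.sub_eq_zero_of_le h1]; simpa [R] using h0

lemma R_div_le (a b : ℕ) : R (a / b) ≤ R a / b := by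
  unfold R
  have : ((a / b : ℕ) : ℝ) ≤ a / b := Nat.cast_div_le
  calc ((a / b : ℕ) : ℝ) / 10000000 ≤ (a / b) / 10000000 := by gcongr
    _ = _ := by ring

lemma cast_div_ge (a b : ℕ) : (a : ℝ) / b ≤ ((a / b : ℕ) : ℝ) + 1 := by
  rcases Nat.eq_zero_or_pos b with rfl | hb
  · simp
  · have h : a < (a / b + 1) * b := by
      have := Nat.lt_div_mul_add (a := a) hb
      nlinarith
    have hb' : (0 : ℝ) < b := by exact_mod_cast hb
    rw [div_le_iff₀ hb']
    exact_mod_cast h.le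

lemma R_div_ge (a b : ℕ) : R a / b ≤ R (a / b + 1) := by
  unfold R
  have := cast_div_ge a b
  push_cast
  calc (a : ℝ) / 10000000 / b = (a / b) / 10000000 := by ring
    _ ≤ _ := by gcongr

lemma mD_le (a b : ℕ) : R (mD a b) ≤ R a * R b := by
  have := R_div_le (a * b) 10000000
  refine le_trans this (le_of_eq ?_)
  unfold R; push_cast; ring

lemma mU_ge (a b : ℕ) : R a * R b ≤ R (mU a b) := by
  have := R_div_ge (a * b) 10000000
  refine le_trans (le_of_eq ?_) this
  unfold R; push_cast; ring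

lemma dD_le (a b : ℕ) : R (dD a b) ≤ R a / R b := by
  have := R_div_le (a * 10000000) b
  refine le_trans this (le_of_eq ?_)
  unfold R; push_cast
  rcases eq_or_ne (b : ℝ) 0 with h | h
  · simp [h]
  · field_simp

lemma dU_ge (a b : ℕ) : R a / R b ≤ R (dU a b) := by
  have := R_div_ge (a * 10000000) b
  refine le_trans (le_of_eq ?_) this
  unfold R; push_cast
  rcases eq_or_ne (b : ℝ) 0 with h | h
  · simp [h]
  · field_simp

lemma mn_eq (a b : ℕ) : mn a b = min a b := by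
  change a - (a - b) = min a b
  omega

lemma mx_eq (a b : ℕ) : mx a b = max a b := by
  change a + (b - a) = max a b
  omega

lemma R_mn (a b : ℕ) : R (mn a b) = min (R a) (R b) := by
  rw [mn_eq]
  rcases le_total a b with h | h
  · rw [min_eq_left h, min_eq_left (R_le.2 h)]
  · rw [min_eq_right h, min_eq_right (R_le.2 h)]

lemma R_mx (a b : ℕ) : R (mx a b) = max (R a) (R b) := by
  rw [mx_eq]
  rcases le_total a b with h | h
  · rw [max_eq_right h, max_eq_right (R_le.2 h)]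
  · rw [max_eq_left h, max_eq_left (R_le.2 h)]

lemma sqU_sq (n : ℕ) : n ≤ sqU n * sqU n := by
  unfold sqU sqU1
  cases h : Nat.ble n (Nat.mul (sq0 n) (sq0 n))
  · simp only [cond_false, Nat.succ_eq_add_one]; nlinarith
  · simp only [cond_true]; exact Nat.le_of_ble_eq_true h

lemma sqL_sq (n : ℕ) : sqL n * sqL n ≤ n := by
  unfold sqL sqL1
  cases h : Nat.ble (Nat.mul (Nat.div n (nw n (sq0 n))) (Nat.div n (nw n (sq0 n)))) n
  · simp only [cond_false]; exact Nat.zero_le _
  · simp only [cond_true]; exact Nat.le_of_ble_eq_true h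

lemma sqrt_le_sqU {y : ℝ} {n : ℕ} (h : y ≤ R n / 10000000) : √y ≤ R (sqU n) := by
  apply Real.sqrt_le_iff.2 ⟨R_nonneg _, h.trans ?_⟩
  have : (n : ℝ) ≤ sqU n * sqU n := by exact_mod_cast sqU_sq n
  unfold R
  calc (n : ℝ) / 10000000 / 10000000 ≤ (sqU n * sqU n) / 10000000 / 10000000 := by gcongr
    _ = _ := by ring

lemma sqL_sq_le (n : ℕ) : R (sqL n) ^ 2 ≤ R n / 10000000 := by
  have : (sqL n : ℝ) * sqL n ≤ n := by exact_mod_cast sqL_sq n
  unfold R
  calc ((sqL n : ℝ) / 10000000) ^ 2 = (sqL n * sqL n) / 10000000 / 10000000 := by ring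
    _ ≤ _ := by gcongr

lemma sF_le (n : ℕ) {z : ℝ} (h0 : 0 ≤ z) (h : R n - 1.645 * R n ^ 3 ≤ z) : R (sF n) ≤ z := by
  apply R_sub_le h0
  have h1 := mU_ge n n
  have h2 := mU_ge (mU n n) n
  have h3 := R_div_ge (mU (mU n n) n * 1645) 1000
  have h4 : R (mU (mU n n) n * 1645) = 1645 * R (mU (mU n n) n) := by
    rw [mul_comm, R_mul]; norm_num
  have h5 := R_nonneg n
  have h6 : R n ^ 3 ≤ R (mU (mU n n) n) := by nlinarith
  rw [h4] at h3
  change R n - R (mU (mU n n) n * 1645 / 1000 + 1) ≤ z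
  push_cast at h3
  linarith

lemma sqs_ge (q l : ℕ) : R q ^ 2 + R l ^ 2 ≤ R (sqs q l) := by
  have := R_div_ge (q * q + l * l) 10000000
  refine le_trans (le_of_eq ?_) this
  unfold R; push_cast; ring

lemma sqIt_le (n : ℕ) : ∀ (a : ℕ) (y : ℝ), (a : ℝ) ≤ 1000000000000000000 * exp y →
    (sqIt n a : ℝ) ≤ 1000000000000000000 * exp (2 ^ n * y) := by
  induction n with
  | zero => intro a y h; simpa [sqIt] using h
  | succ n ih =>
    intro a y h
    have h1 : sqIt (n + 1) a = sqIt n (a * a / 1000000000000000000) := rfl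
    rw [h1, pow_succ, mul_assoc]
    apply ih
    have h2 : ((a * a / 1000000000000000000 : ℕ) : ℝ) ≤ ((a * a : ℕ) : ℝ) / (1000000000000000000 : ℕ) :=
      Nat.cast_div_le
    refine h2.trans ?_
    push_cast
    rw [div_le_iff₀ (by norm_num), two_mul, exp_add]
    have h3 : (0 : ℝ) ≤ a := Nat.cast_nonneg a
    nlinarith [mul_self_le_mul_self h3 h]

lemma expL_le (x : ℕ) : R (expL x) ≤ exp (R x) := by
  have h0 : ((x * 100000000000 / 16777216 : ℕ) : ℝ) ≤ ((x * 100000000000 : ℕ) : ℝ) / (16777216 : ℕ) :=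
    Nat.cast_div_le
  have h1 := sqIt_le 24 (1000000000000000000 + x * 100000000000 / 16777216) (R x / 16777216) (by
    have := add_one_le_exp (R x / 16777216)
    push_cast at h0 ⊢
    unfold R at this ⊢
    linarith)
  have h2 : (2 : ℝ) ^ 24 * (R x / 16777216) = R x := by ring
  rw [h2] at h1
  have h3 := R_div_le (sqIt 24 (1000000000000000000 + x * 100000000000 / 16777216)) 100000000000
  refine le_trans h3 ?_
  unfold R
  push_cast
  rw [div_div, div_le_iff₀ (by norm_num)]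
  unfold R at h1
  linarith

lemma cube_le {E : ℕ} {y : ℝ} (h : R E ≤ exp y) : R (cube E) ≤ exp (3 * y) := by
  have h1 := mD_le (mD E E) E
  have h2 := mD_le E E
  have h3 := R_nonneg E
  have h4 : exp (3 * y) = exp y * exp y * exp y := by rw [← exp_add, ← exp_add]; ring_nf
  rw [h4]
  calc R (cube E) ≤ R (mD E E) * R E := h1
    _ ≤ R E * R E * R E := by gcongr
    _ ≤ _ := by gcongr

lemma fine_sound {P : ℕ → ℕ → ℕ → ℕ → Bool} {C : Prop} {l φ : ℝ} (thr : ℕ)
    (hP : ∀ l1 l2 p1 p2, 0 < l1 → l2 ≤ 10000000 → 0 < p1 → R l1 ≤ l → l ≤ R l2 → R p1 ≤ φ →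
      φ ≤ R p2 → P l1 l2 p1 p2 = true → C) (n : ℕ) :
    ∀ l1 l2 p1 p2, 0 < l1 → l2 ≤ 10000000 → 0 < p1 → R l1 ≤ l → l ≤ R l2 → R p1 ≤ φ →
      φ ≤ R p2 → fine P thr n l1 l2 p1 p2 = true → C := by
  induction n with
  | zero => exact hP
  | succ n ih =>
    intro l1 l2 p1 p2 a1 a2 a3 b1 b2 b3 b4 h
    change fstep P (fine P thr n) thr l1 l2 p1 p2 = true at h
    have c1 : l1 ≤ l2 := R_le.1 (b1.trans b2)
    have c2 : p1 ≤ p2 := R_le.1 (b3.trans b4)
    unfold fstep at h
    rw [Bool.or_eq_true] at h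
    rcases h with h | h
    · rw [Bool.and_eq_true] at h
      exact hP _ _ _ _ a1 a2 a3 b1 b2 b3 b4 h.2
    · have e1 : Nat.div (Nat.add l1 l2) (nat_lit 2) = (l1 + l2) / 2 := rfl
      have e2 : Nat.div (Nat.add p1 p2) (nat_lit 2) = (p1 + p2) / 2 := rfl
      rw [e1, e2] at h
      cases hb : Nat.ble (Nat.sub p2 p1) (Nat.sub l2 l1)
      · rw [hb, cond_false, Bool.and_eq_true] at h
        rcases le_total φ (R ((p1 + p2) / 2)) with h' | h'
        · exact ih _ _ _ _ a1 a2 a3 b1 b2 b3 h' h.1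
        · exact ih _ _ _ _ a1 a2 (by omega) b1 b2 h' b4 h.2
      · rw [hb, cond_true, Bool.and_eq_true] at h
        rcases le_total l (R ((l1 + l2) / 2)) with h' | h'
        · exact ih _ _ _ _ a1 (by omega) a3 b1 h' b3 b4 h.1
        · exact ih _ _ _ _ (by omega) a2 a3 h' b2 b3 b4 h.2

end Pool.Agent.Lib.MP_14b623_gt.Chk
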