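import Pool.Agent.Lib.MP_14b623_gt.FinMaster

/-! A priori bounds and the region near the critical catenoid. -/

namespace Pool.Agent.Lib.MP_14b623_gt.Chk

open Real

variable {τ T φ la lb Ma Mb Ja Jb Za Zb φ' s Y x : ℝ}

lemma le_of_sq {a b : ℝ} (h : a ^ 2 ≤ b ^ 2) (hb : 0 ≤ b) : a ≤ b :=
  (abs_le_of_sq_le_sq' h hb).2

lemma Gam_self {c t : ℝ} (hc : 0 ≤ c) : Gam c c (cosh t) = 2 * c * cosh (t / 2) := by
  unfold Gam
  have h1 : cosh t = 2 * cosh (t / 2) ^ 2 - 1 := by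
    have := cosh_two_mul (t / 2)
    rw [show 2 * (t / 2) = t by ring] at this
    rw [this]; linarith [cosh_sq (t / 2)]
  have h2 := cosh_pos (t / 2)
  rw [h1, show c ^ 2 + c ^ 2 + 2 * c * c * (2 * cosh (t / 2) ^ 2 - 1) =
    (2 * c * cosh (t / 2)) ^ 2 by ring, sqrt_sq (by positivity)]

lemma cosh_ge_tan' {a t : ℝ} (ha : 0 ≤ a) : cosh a + sinh a * (t - a) ≤ cosh t := by
  have h := cosh_ge_tan (E := exp a) (tm := a) (t := t) (one_le_exp ha) le_rfl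
  rw [cosh_eq a, sinh_eq, exp_neg, ← one_div]
  exact h

/-- The constant `σ = 1 / sinh τ`. -/
lemma Bad.sigma (B : Bad τ T φ la lb Ma Mb Ja Jb Za Zb φ' s Y x) :
    ∃ σ l0 : ℝ, 0.6627 ≤ σ ∧ σ ≤ 0.66277 ∧ 0.83355 ≤ l0 ∧ l0 ≤ 0.83356 ∧
      σ ^ 2 * l0 ^ 2 = 1 - l0 ^ 2 ∧ la + lb < 2 * l0 ∧ ∀ t, t ≤ σ * cosh t := by
  have h1 := B.h1
  have h2 := B.h2
  have hτ : 0 < τ := by linarith
  have hS : 0 < sinh τ := sinh_pos_iff.2 hτ
  have h3 : (1 / sinh τ) ^ 2 = τ ^ 2 - 1 := by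
    have := cosh_sq τ
    rw [← B.hτ] at this
    field_simp; linarith
  have h4 : 0 < 1 / sinh τ := by positivity
  refine ⟨1 / sinh τ, 1 / τ, ?_, ?_, ?_, ?_, ?_, ?_, fun t => ?_⟩
  · apply le_of_sq _ h4.le
    rw [h3]; nlinarith
  · apply le_of_sq _ (by norm_num)
    rw [h3]; nlinarith
  · rw [le_div_iff₀ hτ]; linarith
  · rw [div_le_iff₀ hτ]; linarith
  · rw [h3]; field_simp
  · have := B.hL
    rw [mul_one_div]; exact this
  · have := cosh_ge_tan' (t := t) hτ.le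
    rw [← B.hτ] at this
    rw [one_div, inv_mul_eq_div, le_div_iff₀ hS]; linarith

lemma Bad.phi_le (B : Bad τ T φ la lb Ma Mb Ja Jb Za Zb φ' s Y x) :
    φ * (2 * cosh (T / 2)) ≤ la + lb := by
  have e1 := B.hh.h3 1 1 zero_le_one zero_le_one
  have e2 := B.hh.h4 1 1 zero_le_one zero_le_one
  rw [Gam_self zero_le_one] at e1 e2
  rw [Gam_self zero_le_one] at e2
  have hT := B.hT
  have e3 : cosh (T / 2) ≤ cosh (3 * T / 2) := by
    rw [cosh_le_cosh, abs_of_pos (by positivity), abs_of_pos (by positivity)]; linarith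
  have e4 := mul_le_mul_of_nonneg_left e3 B.hh.Y0
  have e5 := mul_le_mul_of_nonneg_right B.hh.h1 (cosh_pos (T / 2)).le
  nlinarith

lemma phi_sq_ge {φ l M J Z : ℝ} (e : EndD φ l M J Z) : l ^ 2 * (1 - l ^ 2) ≤ φ ^ 2 := by
  have h := e.D0
  have hl := e.lpos
  unfold Dfc at h
  have h1 : 1 - l ^ 2 ≤ φ ^ 2 / l ^ 2 := by rw [← div_pow]; linarith
  rw [le_div_iff₀ (by positivity)] at h1
  linarith

lemma Bad.lb_ge (B : Bad τ T φ la lb Ma Mb Ja Jb Za Zb φ' s Y x) : 0.29 ≤ lb := by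
  by_contra h
  have h := not_le.1 h
  obtain ⟨σ, l0, s1, s2, -, -, -, -, s3⟩ := B.sigma
  have hl := B.hb.lpos
  have hφ := B.hφ
  have a1 := low_le_J B.ha (low_zero hφ B.ha)
  have a2 := low_le_J B.hb (hm := sin (π * lb) / (π * φ)) (Or.inl le_rfl)
  have a3 : sin (π * lb) / (π * lb) ≤ sin (π * lb) / (π * φ) := by
    have := sin_nonneg' hl.le B.hb.lle
    have := B.hb.phile
    gcongr
  have a4 : 1 - 1.645 * lb ^ 2 ≤ sin (π * lb) / (π * lb) := by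
    have h3 := sin_ge_sub_cube (x := π * lb) (by positivity)
    rw [le_div_iff₀ (by positivity)]
    refine le_trans ?_ h3
    have h4 : π ^ 2 ≤ 9.87 := by nlinarith [pi_lt_d4, pi_pos]
    have h5 : 0 ≤ π * lb ^ 3 := by positivity
    nlinarith
  have a5 := s3 (T / 2)
  have a6 := B.phi_le
  have a7 : φ * T ≤ σ * (la + lb) := by
    have b1 := mul_le_mul_of_nonneg_left a5 hφ.le
    have b2 := mul_le_mul_of_nonneg_left a6 (by linarith : 0 ≤ σ)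
    nlinarith
  have a8 : σ * (la + lb) ≤ 0.66277 * 1.29 := by
    have := B.ha.lle
    have := B.ha.lpos
    gcongr; linarith
  have a9 := B.hJ
  nlinarith

lemma Bad.lb_le (B : Bad τ T φ la lb Ma Mb Ja Jb Za Zb φ' s Y x) : lb ≤ 0.83356 := by
  obtain ⟨σ, l0, -, -, -, s2, -, s3, -⟩ := B.sigma
  linarith [B.hab]

lemma Bad.sum_le (B : Bad τ T φ la lb Ma Mb Ja Jb Za Zb φ' s Y x) : la + lb ≤ 1.66712 := by
  obtain ⟨σ, l0, -, -, -, s2, -, s3, -⟩ := B.sigma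
  linarith

lemma Bad.phi_ge (B : Bad τ T φ la lb Ma Mb Ja Jb Za Zb φ' s Y x) : 0.27 ≤ φ := by
  have h1 := B.lb_ge
  have h2 := B.lb_le
  have h3 := phi_sq_ge B.hb
  apply le_of_sq _ B.hφ.le
  have h4 : 0.0841 ≤ lb ^ 2 := by nlinarith
  have h5 : lb ^ 2 ≤ 0.7 := by nlinarith
  nlinarith

lemma exp_ge_poly {t : ℝ} (ht : 0 ≤ t) :
    1 + t + t ^ 2 / 2 + t ^ 3 / 6 + t ^ 4 / 24 + t ^ 5 / 120 + t ^ 6 / 720 + t ^ 7 / 5040
      + t ^ 8 / 40320 ≤ exp t := by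
  have := sum_le_exp_of_nonneg ht 9
  simp only [Finset.sum_range_succ, Finset.sum_range_zero, Nat.factorial] at this
  norm_num at this
  linarith

lemma Bad.T_le (B : Bad τ T φ la lb Ma Mb Ja Jb Za Zb φ' s Y x) : T ≤ 3 := by
  by_contra h
  have h := not_le.1 h
  have h1 := B.lb_ge
  have h2 := B.lb_le
  have h3 := phi_sq_ge B.hb
  have h4 := B.phi_le
  have h5 : 4.4815 ≤ exp 1.5 := by
    have := exp_ge_poly (t := 1.5) (by norm_num)
    norm_num at this ⊢; linarith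
  have h6 := cosh_ge_tan (E := 4.4815) (tm := 1.5) (t := T / 2) (by norm_num) h5
  have h7 : 4.7046 ≤ 2 * cosh (T / 2) := by norm_num at h6 ⊢; nlinarith
  have h8 : φ * 4.7046 ≤ 1 + lb := by
    have := mul_le_mul_of_nonneg_left h7 B.hφ.le
    linarith [B.ha.lle]
  have h9 : (φ * 4.7046) ^ 2 ≤ (1 + lb) ^ 2 := by
    have := B.hφ
    gcongr
  have h10 : 22.13 * (lb ^ 2 * (1 - lb)) * (1 + lb) ≤ (1 + lb) * (1 + lb) := by nlinarith
  have h11 : 22.13 * (lb ^ 2 * (1 - lb)) ≤ 1 + lb := le_of_mul_le_mul_right h10 (by linarith)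
  nlinarith [mul_nonneg (mul_nonneg (sub_nonneg.2 h1) (sub_nonneg.2 h2)) (by linarith : 0 ≤ lb + 0.2)]

lemma Bad.x_le (B : Bad τ T φ la lb Ma Mb Ja Jb Za Zb φ' s Y x) (h : φ' = 0 → x = 0) :
    x ≤ 1 := by
  rcases B.hh.p0.eq_or_lt with h1 | h1
  · rw [h h1.symm]; norm_num
  · have h2 := B.hh.h2a
    rw [B.hs] at h2
    have h3 : x ^ 2 ≤ 1 := by
      by_contra h4
      nlinarith [not_le.1 h4]
    nlinarith [B.x0]

lemma nc_end {σ l0 φ l : ℝ} (s1 : 0.6627 ≤ σ) (s2 : σ ≤ 0.66277) (s3 : 0.83355 ≤ l0)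
    (s4 : l0 ≤ 0.83356) (s5 : σ ^ 2 * l0 ^ 2 = 1 - l0 ^ 2) (l1 : 0.82 ≤ l) (l2 : l ≤ 0.84712)
    (p1 : σ * l0 ^ 2 ≤ φ) (p2 : φ ≤ 0.47) (D0 : 0 ≤ Dfc φ l) :
    2.08 * (l0 - l) ≤ φ / l - Dfc φ l / 1.35 - σ * l := by
  have hl : 0 < l := by linarith
  have w2 : φ / l ≤ 0.6 := by rw [div_le_iff₀ hl]; linarith
  have p0 : 0 ≤ φ := le_trans (by positivity) p1
  have w0 : 0 ≤ φ / l := by positivity
  have w3 : σ * (2 * l0 - l) ≤ φ / l := by
    rw [le_div_iff₀ hl]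
    nlinarith [mul_nonneg (by linarith : 0 ≤ σ) (sq_nonneg (l0 - l))]
  unfold Dfc at D0 ⊢
  generalize φ / l = w at *
  rcases le_total l l0 with h | h
  · obtain ⟨d, rfl⟩ : ∃ d, l = l0 - d := ⟨l0 - l, by ring⟩
    have d0 : 0 ≤ d := by linarith
    have d1 : d ≤ 0.01356 := by linarith
    set v := σ * (l0 - d) + 2.08 * d with hv
    have v0 : v ≤ 0.6 := by rw [hv]; nlinarith
    have v1 : v ^ 2 ≤ 1 - (l0 - d) ^ 2 := by
      have e1 : σ * (2.08 - σ) ≤ 0.9394 := by nlinarith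
      have e2 : (2.08 - σ) ^ 2 ≤ 2.01 := by nlinarith
      have e3 : 2 * l0 * (σ * (2.08 - σ)) + (2.08 - σ) ^ 2 * d + d ≤ 2 * l0 := by nlinarith
      have e4 := mul_le_mul_of_nonneg_left e3 d0
      rw [hv]; nlinarith
    have v2 : v ≤ w := le_of_sq (by linarith) w0
    have v3 := mul_nonneg (sub_nonneg.2 v2) (by linarith : 0 ≤ 1.35 - (w + v))
    have v4 : w ^ 2 + (l0 - d) ^ 2 - 1 ≤ 1.35 * (w - v) := by nlinarith
    have v5 : (w ^ 2 + (l0 - d) ^ 2 - 1) / 1.35 ≤ w - v := by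
      rw [div_le_iff₀ (by norm_num)]; linarith
    linarith
  · obtain ⟨d, rfl⟩ : ∃ d, l = l0 + d := ⟨l - l0, by ring⟩
    have d0 : 0 ≤ d := by linarith
    have d1 : d ≤ 0.01358 := by linarith
    set v := σ * (2 * l0 - (l0 + d)) with hv
    have v3 := mul_nonneg (sub_nonneg.2 w3) (by linarith : 0 ≤ 1.35 - (w + v))
    have e1 : 0.4391 ≤ σ ^ 2 := by nlinarith
    have e2 : σ ^ 2 ≤ 0.44 := by nlinarith
    have e3 : 2 * l0 * (1 - σ ^ 2) + (1 + σ ^ 2) * d ≤ 1.35 * (2.08 - 2 * σ) := by nlinarith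
    have e4 := mul_le_mul_of_nonneg_left e3 d0
    have v4 : w ^ 2 + (l0 + d) ^ 2 - 1 ≤ 1.35 * (w - σ * (l0 + d) + 2.08 * d) := by
      rw [hv] at v3; nlinarith
    have v5 : (w ^ 2 + (l0 + d) ^ 2 - 1) / 1.35 ≤ w - σ * (l0 + d) + 2.08 * d := by
      rw [div_le_iff₀ (by norm_num)]; linarith
    linarith

lemma nc_Q (okC : fine boxC 100000 24 8200000 8471200 4604000 4700000 = true)
    {σ l0 φ l M J Z cr : ℝ} (q : EndQ φ l M J Z σ 0.109 0.5 cr) (s1 : 0.6627 ≤ σ)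
    (s2 : σ ≤ 0.66277) (s3 : 0.83355 ≤ l0)
    (s4 : l0 ≤ 0.83356) (s5 : σ ^ 2 * l0 ^ 2 = 1 - l0 ^ 2) (l1 : 0.82 ≤ l) (l2 : l ≤ 0.84712)
    (p1 : σ * l0 ^ 2 ≤ φ) (p2 : φ ≤ 0.47) :
    2.08 * (l0 - l) ≤ Qv l M J σ 0.109 0.5 cr := by
  have h1 := nc_end s1 s2 s3 s4 s5 l1 l2 p1 p2 q.e.D0
  by_contra hn
  have hn := not_le.1 hn
  have p3 : 0.4604 ≤ φ := by
    have : 0.6948 ≤ l0 ^ 2 := by nlinarith
    nlinarith
  refine fine_sound (P := boxC) (C := False) (l := l) (φ := φ) 100000 ?_ 24 _ _ _ _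
    (by norm_num) (by norm_num) (by norm_num) ?_ ?_ ?_ ?_ okC
  · intro l1' l2' p1' p2' a1 a2 a3 b1 b2 b3 b4 h
    have h2 := evC_sound q s2 a1 a2 a3 b1 b2 b3 b4 (by linarith)
    have h3 : 97338048 ≤ evC l1' l2' p1' p2' + mD 20800000 l1' := Nat.le_of_ble_eq_true h
    have h4 := R_le.2 h3
    have h5 := mD_bound (g := 2.08) (g' := 20800000) (by unfold R; norm_num) b1
    rw [R_add] at h4
    have h6 : R 97338048 = 9.7338048 := by unfold R; norm_num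
    linarith
  all_goals unfold R; norm_num; linarith

lemma Bad.nc (B : Bad τ T φ la lb Ma Mb Ja Jb Za Zb φ' s Y x)
    (okC : fine boxC 100000 24 8200000 8471200 4604000 4700000 = true)
    (t1 : 2.3 ≤ T) (x1 : x ≤ 0.1) (l1 : 0.82 ≤ lb) (p2 : φ ≤ 0.47) : False := by
  obtain ⟨σ, l0, s1, s2, s3, s4, s5, s6, s7⟩ := B.sigma
  have hab := B.hab
  have p1 : σ * l0 ^ 2 ≤ φ := by
    apply le_of_sq _ B.hφ.le
    have h1 := phi_sq_ge B.hb
    have h2 : lb ^ 2 ≤ l0 ^ 2 := by gcongr; linarith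
    have h3 : 0.6 ≤ lb ^ 2 := by nlinarith
    have h4 : (σ * l0 ^ 2) ^ 2 = l0 ^ 2 * (1 - l0 ^ 2) := by rw [← s5]; ring
    have h5 := mul_nonneg (sub_nonneg.2 h2) (by linarith : 0 ≤ l0 ^ 2 + lb ^ 2 - 1)
    rw [h4]; nlinarith
  have qa := nc_Q okC (B.qa (c := σ) (k := 0.109) (g := 0.5) (by linarith) (by norm_num)
    (by norm_num) (by linarith) (by norm_num)) s1 s2 s3 s4 s5 (by linarith) (by linarith) p1 p2
  have qb := nc_Q okC (B.qb (c := σ) (k := 0.109) (g := 0.5) (by linarith) (by norm_num)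
    (by norm_num) (by linarith) (by norm_num)) s1 s2 s3 s4 s5 (by linarith) (by linarith) p1 p2
  have e1 : 5.612 ≤ exp 1.725 := by
    have := exp_ge_poly (t := 1.725) (by norm_num)
    norm_num at this ⊢; linarith
  have e2 : 31.494 ≤ exp 3.45 := by
    rw [show (3.45 : ℝ) = 1.725 + 1.725 by norm_num, exp_add]; nlinarith
  have e3 := cosh_ge_tan (E := 31.494) (tm := 3.45) (t := 3 * T / 2) (by norm_num) e2
  have e4 : 1 + 2.1 * T ≤ 0.372 * cosh (3 * T / 2) := by norm_num at e3 ⊢; nlinarith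
  have e5 : exp (-(3 * T / 2)) ≤ 0.032 := by
    have h1 : exp 3.45 ≤ exp (3 * T / 2) := exp_le_exp.2 (by linarith)
    rw [exp_neg, inv_le_comm₀ (exp_pos _) (by norm_num)]
    refine le_trans (by norm_num) (e2.trans h1)
  have x0 := B.x0
  have hm := B.master (ca := σ) (cb := σ) (ka := 0.093) (kb := 0.093) (k2a := 0.016)
    (k2b := 0.016) (ga := 0.5) (gb := 0.5) (C := 0) (W := T) (Gc := T) (G1 := 0)
    (G3 := (1 + 2.1 * T) / 2) (by linarith) (by linarith) (by norm_num) (by norm_num)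
    (by norm_num) (by norm_num)
    (by have := exp_pos (-(3 * T / 2)); nlinarith)
    (by rw [Gam_self (by linarith)]; linarith [s7 (T / 2)])
    (by unfold Gam; positivity)
    (by rw [Gam_self (by norm_num)]; linarith) B.hT.le (by linarith) (by linarith)
    (by nlinarith [mul_nonneg (mul_nonneg x0 (sub_nonneg.2 x1)) B.hT.le])
  rw [show (0.093 : ℝ) + 0.016 = 0.109 by norm_num] at hm
  linarith

end Pool.Agent.Lib.MP_14b623_gt.Chk
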