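import Pool.Agent.Lib.MP_14b623_gt.GLin

namespace Pool.Agent.Lib.MP_14b623_gt

open Set MeasureTheory Filter Topology Function
open scoped InnerProductSpace Manifold ContDiff

/-! The conormal fields of a minimal patch are divergence free. -/

/-- The algebraic heart. `a, b` are the first derivatives, `p = X₀₀`, `q = X₀₁`, `r = X₁₁`;
`E₀ = 2⟪p, a⟫`, `F₀ = ⟪p, b⟫ + ⟪a, q⟫`, `G₀ = 2⟪q, b⟫`, `E₁ = 2⟪q, a⟫`, `F₁ = ⟪q, b⟫ + ⟪a, r⟫`,
`G₁ = 2⟪r, b⟫`, `D = E G - F²`; the vector below is `J³ (∂₀ w₀ + ∂₁ w₁)`. It is orthogonal to `a` and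
to `b` by `ring`, and to every normal `N` by minimality; decompose the vector itself as a normal
(it is orthogonal to `a` and `b`), so its inner product with itself vanishes. -/
lemma div_alg (a b p q r : E3) (E F G D D0 D1 : ℝ) (hE : E = ⟪a, a⟫_ℝ) (hF : F = ⟪a, b⟫_ℝ)
    (hG : G = ⟪b, b⟫_ℝ) (hD : D = E * G - F ^ 2)
    (hD0 : D0 = 2 * ⟪p, a⟫_ℝ * G + E * (2 * ⟪q, b⟫_ℝ) - 2 * F * (⟪p, b⟫_ℝ + ⟪a, q⟫_ℝ))
    (hD1 : D1 = 2 * ⟪q, a⟫_ℝ * G + E * (2 * ⟪r, b⟫_ℝ) - 2 * F * (⟪q, b⟫_ℝ + ⟪a, r⟫_ℝ))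
    (hmin : ∀ N : E3, ⟪N, a⟫_ℝ = 0 → ⟪N, b⟫_ℝ = 0 →
      E * ⟪N, r⟫_ℝ - 2 * F * ⟪N, q⟫_ℝ + G * ⟪N, p⟫_ℝ = 0) :
    D • ((2 * ⟪q, b⟫_ℝ) • a + G • p - (⟪p, b⟫_ℝ + ⟪a, q⟫_ℝ) • b - F • q) -
        (D0 / 2) • (G • a - F • b) +
      (D • ((2 * ⟪q, a⟫_ℝ) • b + E • r - (⟪q, b⟫_ℝ + ⟪a, r⟫_ℝ) • a - F • q) -
        (D1 / 2) • (E • b - F • a)) = 0 := by
  obtain ⟨V, hV⟩ : ∃ V : E3, V =
    D • ((2 * ⟪q, b⟫_ℝ) • a + G • p - (⟪p, b⟫_ℝ + ⟪a, q⟫_ℝ) • b - F • q) -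
        (D0 / 2) • (G • a - F • b) +
      (D • ((2 * ⟪q, a⟫_ℝ) • b + E • r - (⟪q, b⟫_ℝ + ⟪a, r⟫_ℝ) • a - F • q) -
        (D1 / 2) • (E • b - F • a)) := ⟨_, rfl⟩
  have hF' : ⟪b, a⟫_ℝ = F := by rw [hF, real_inner_comm]
  have h1 : ⟪V, a⟫_ℝ = 0 := by
    simp only [hV, inner_add_left, inner_sub_left, real_inner_smul_left, ← hE, hF']
    rw [hD0, hD1, hD, real_inner_comm q a, real_inner_comm r a]
    ring
  have h2 : ⟪V, b⟫_ℝ = 0 := by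
    simp only [hV, inner_add_left, inner_sub_left, real_inner_smul_left, ← hG, ← hF]
    rw [hD0, hD1, hD, real_inner_comm q a, real_inner_comm r a]
    ring
  have h3 := hmin V h1 h2
  have h4 : ⟪V, V⟫_ℝ = 0 := by
    nth_rewrite 2 [hV]
    simp only [inner_add_right, inner_sub_right, real_inner_smul_right, h1, h2]
    linear_combination D * h3
  exact hV ▸ inner_self_eq_zero.1 h4

namespace Patch

variable {T : Set E2} {X : E2 → E3} (P : Patch T X)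
include P

omit P in
lemma gdiv_quot {d : ℝ → ℝ} {d' : ℝ} {v : ℝ → E3} {v' : E3} (hd : HasDerivAt d d' 0)
    (hv : HasDerivAt v v' 0) (h0 : 0 < d 0) :
    HasDerivAt (fun t => (√(d t))⁻¹ • v t) ((√(d 0))⁻¹ ^ 3 • (d 0 • v' - (d' / 2) • v 0)) 0 := by
  have h1 := Real.sqrt_pos.2 h0
  have h2 := Real.sq_sqrt h0.le
  refine (((hd.sqrt h0.ne').inv h1.ne').smul hv).congr_deriv ?_
  simp only [Pi.inv_apply]
  generalize √(d 0) = s at h1 h2 ⊢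
  rw [← h2]
  match_scalars <;> field_simp

lemma gdiv_pos {y : E2} (hy : y ∈ T) :
    0 < ⟪pd 0 X y, pd 0 X y⟫_ℝ * ⟪pd 1 X y, pd 1 X y⟫_ℝ - ⟪pd 0 X y, pd 1 X y⟫_ℝ ^ 2 :=
  gram_pos (P.inj y hy)

lemma gdiv_line {f : E2 → E3} (hf : ContDiffOn ℝ 1 f T) {y : E2} (hy : y ∈ T) (h0 : 0 < y 0)
    (i : Fin 2) : HasDerivAt (fun t : ℝ => f (y + t • ev i)) (pd i f y) 0 := by
  have h1 : HasDerivAt (fun t : ℝ => y + t • ev i) (ev i) 0 := by
    simpa using ((hasDerivAt_id (0 : ℝ)).smul_const (ev i)).const_add y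
  exact ((rel_hasFDeriv P.nhds hf le_rfl hy).hasFDerivAt (HP_mem_nhds h0)).comp_hasDerivAt_of_eq 0
    h1 (by simp)

/-- `rel_contDiff` and `ContDiffOn.clm_apply`. -/
lemma contDiffOn_pd (i : Fin 2) : ContDiffOn ℝ 1 (pd i X) T :=
  (rel_contDiff P.sub P.nhds P.smooth (by norm_num)).clm_apply contDiffOn_const

lemma contDiffOn_areaEl : ContDiffOn ℝ 1 (areaEl X) T :=
  ((((P.contDiffOn_pd 0).inner ℝ (P.contDiffOn_pd 0)).mul
    ((P.contDiffOn_pd 1).inner ℝ (P.contDiffOn_pd 1))).sub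
      (((P.contDiffOn_pd 0).inner ℝ (P.contDiffOn_pd 1)).pow 2)).sqrt
    fun _ hy => (P.gdiv_pos hy).ne'

lemma contDiffOn_w0 : ContDiffOn ℝ 1 (fun y => wv0 (pd 0 X y) (pd 1 X y)) T :=
  (P.contDiffOn_areaEl.inv fun y hy => (jac_pos (P.inj y hy)).ne').smul
    ((((P.contDiffOn_pd 1).inner ℝ (P.contDiffOn_pd 1)).smul (P.contDiffOn_pd 0)).sub
      (((P.contDiffOn_pd 0).inner ℝ (P.contDiffOn_pd 1)).smul (P.contDiffOn_pd 1)))

lemma contDiffOn_w1 : ContDiffOn ℝ 1 (fun y => wv1 (pd 0 X y) (pd 1 X y)) T :=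
  (P.contDiffOn_areaEl.inv fun y hy => (jac_pos (P.inj y hy)).ne').smul
    ((((P.contDiffOn_pd 0).inner ℝ (P.contDiffOn_pd 0)).smul (P.contDiffOn_pd 1)).sub
      (((P.contDiffOn_pd 0).inner ℝ (P.contDiffOn_pd 1)).smul (P.contDiffOn_pd 0)))

/-- Symmetry of second derivatives at interior points (`ContDiffAt.isSymmSndFDerivAt`; near `y`
`fderivWithin ℝ X HP = fderiv ℝ X` by `fderivWithin_of_mem_nhds`). -/
lemma pd_symm {y : E2} (hy : y ∈ T) (h0 : 0 < y 0) : pd 0 (pd 1 X) y = pd 1 (pd 0 X) y := by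
  have h1 := ((P.smooth y hy).mono_of_mem_nhdsWithin (P.nhds y hy)).isSymmSndFDerivWithinAt
    (by simp) uniqueDiffOn_HP (subset_closure (mem_interior_iff_mem_nhds.2 (HP_mem_nhds h0)))
    (P.sub hy)
  have h2 := (rel_hasFDeriv P.nhds (rel_contDiff (m := 1) P.sub P.nhds P.smooth (by norm_num))
    le_rfl hy).differentiableWithinAt
  have h3 : ∀ i j, pd j (pd i X) y =
      fderivWithin ℝ (fderivWithin ℝ X HP) HP y (ev j) (ev i) := fun i j => by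
    have h4 := fderivWithin_clm_apply (uniqueDiffOn_HP y (P.sub hy)) h2
      (differentiableWithinAt_const (ev i))
    refine (congrArg (fun L : E2 →L[ℝ] E3 => L (ev j)) h4).trans ?_
    simp
  rw [h3, h3, h1.eq]

/-- Compute both derivatives along the lines `t ↦ y + t • ev i` or with `HasFDerivWithinAt`
(`.inner`, `.sqrt`, `.inv`/`.smul`), then use `div_alg`. -/
lemma div_w {y : E2} (hy : y ∈ T) (h0 : 0 < y 0) :
    pd 0 (fun y => wv0 (pd 0 X y) (pd 1 X y)) y + pd 1 (fun y => wv1 (pd 0 X y) (pd 1 X y)) y = 0 := by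
  have a0 := P.gdiv_line (P.contDiffOn_pd 0) hy h0 0
  have b0 := P.gdiv_line (P.contDiffOn_pd 1) hy h0 0
  have a1 := P.gdiv_line (P.contDiffOn_pd 0) hy h0 1
  have b1 := P.gdiv_line (P.contDiffOn_pd 1) hy h0 1
  rw [P.pd_symm hy h0] at b0
  have hD := P.gdiv_pos hy
  have u0 := (P.gdiv_line P.contDiffOn_w0 hy h0 0).unique (gdiv_quot
    (((a0.inner ℝ a0).mul (b0.inner ℝ b0)).sub ((a0.inner ℝ b0).pow 2))
    (((b0.inner ℝ b0).smul a0).sub ((a0.inner ℝ b0).smul b0)) (by simpa using hD))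
  have u1 := (P.gdiv_line P.contDiffOn_w1 hy h0 1).unique (gdiv_quot
    (((a1.inner ℝ a1).mul (b1.inner ℝ b1)).sub ((a1.inner ℝ b1).pow 2))
    (((a1.inner ℝ a1).smul b1).sub ((a1.inner ℝ b1).smul a1)) (by simpa using hD))
  have h := div_alg (pd 0 X y) (pd 1 X y) (pd 0 (pd 0 X) y) (pd 1 (pd 0 X) y) (pd 1 (pd 1 X) y)
    _ _ _ _ _ _ rfl rfl rfl rfl rfl rfl (P.minimal y hy)
  rw [u0, u1]
  simp only [zero_smul, add_zero]
  rw [← smul_add]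
  refine smul_eq_zero_of_right _ (Eq.trans ?_ h)
  rw [real_inner_comm (pd 0 (pd 0 X) y) (pd 0 X y), real_inner_comm (pd 1 (pd 0 X) y) (pd 1 X y),
    real_inner_comm (pd 1 (pd 0 X) y) (pd 0 X y), real_inner_comm (pd 1 (pd 1 X) y) (pd 1 X y)]
  match_scalars <;> ring

/-- `‖X ∘ ln‖ = 1` near `s` (`rel_line_open`) gives `⟪X, X₁⟫ = 0`; `t ↦ ‖X (y + t e₀)‖²` has a
maximum at `t = 0` on `t ≥ 0` small, so `⟪X, X₀⟫ ≤ 0`; conclude with `wv0_bdry`. -/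
lemma w0_bdry {y : E2} (hy : y ∈ T) (h0 : y 0 = 0) :
    wv0 (pd 0 X y) (pd 1 X y) = -(‖pd 1 X y‖ • X y) := by
  obtain ⟨v, hv⟩ := P.orth y hy h0
  have h1 := (rel_hasFDeriv P.nhds P.smooth (by norm_num) hy).norm_sq
  have h2 : IsLocalMaxOn (fun z => ‖X z‖ ^ 2) HP y :=
    mem_of_superset (P.nhds y hy) fun z hz =>
      pow_le_pow_left₀ (norm_nonneg _) ((P.ball z hz).trans (P.bdry y hy h0).ge) 2
  have h3 : ∀ u : E2, 0 ≤ u 0 → u ∈ posTangentConeAt HP y := fun u hu =>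
    mem_posTangentConeAt_of_segment_subset
      (convex_HP.segment_subset (P.sub hy) (add_nonneg (P.sub hy) hu : 0 ≤ y 0 + u 0))
  have h4 := h2.hasFDerivWithinAt_nonpos h1 (h3 (ev 0) (by simp))
  have h5 := h2.hasFDerivWithinAt_eq_zero h1 (h3 (ev 1) (by simp)) (h3 _ (by simp))
  simp only [smul_apply, ContinuousLinearMap.comp_apply, innerSL_apply_apply,
    nsmul_eq_mul, Nat.cast_ofNat] at h4 h5
  exact wv0_bdry (P.inj y hy) hv (P.bdry y hy h0) (by linarith) (by linarith)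

/-- Derivative along the boundary line. -/
lemma hasDerivAt_line {s : ℝ} (hs : ln s ∈ T) :
    HasDerivAt (fun s => X (ln s)) (pd 1 X (ln s)) s :=
  (rel_hasFDeriv P.nhds P.smooth (by norm_num) hs).comp_hasDerivAt s (hasDerivAt_ln s)
    (.of_forall ln_mem)

end Patch

end Pool.Agent.Lib.MP_14b623_gt
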