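import Pool.Agent.Lib.MP_14b623_gt.GBase

namespace Pool.Agent.Lib.MP_14b623_gt

open Set MeasureTheory Filter Topology Function
open scoped InnerProductSpace Manifold ContDiff

/-! Green's formula on the half plane for fields with compact support. -/

/-- A function vanishing on `T \ K` has zero derivative there (`K` is closed). -/
lemma fderivWithin_zero_off {T K : Set E2} (hn : ∀ y ∈ T, T ∈ 𝓝[HP] y) (hK : IsCompact K)
    {A : E2 → ℝ} (z : ∀ y ∈ T \ K, A y = 0) {y : E2} (hy : y ∈ T \ K) :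
    fderivWithin ℝ A HP y = 0 := by
  have e : A =ᶠ[𝓝[HP] y] fun _ => 0 := by
    filter_upwards [hn y hy.1, mem_nhdsWithin_of_mem_nhds (hK.isClosed.isOpen_compl.mem_nhds hy.2)]
      with w h1 h2 using z w ⟨h1, h2⟩
  rw [e.fderivWithin_eq (z y hy), fderivWithin_fun_const, Pi.zero_apply]

/-- Continuous on `T`, zero off the compact set `K ⊆ T`: integrable on `T`
(`ContinuousOn.integrableOn_compact`, `IntegrableOn.of_forall_diff_eq_zero`). -/
lemma integrableOn_of_compact {T K : Set E2} (hT : MeasurableSet T) (hK : IsCompact K)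
    (hKT : K ⊆ T) {f : E2 → ℝ} (hf : ContinuousOn f T) (z : ∀ y ∈ T \ K, f y = 0) :
    IntegrableOn f T :=
  ((hf.mono hKT).integrableOn_compact hK).of_forall_sdiff_eq_zero hT z

/-- The same on the boundary line (`ln` is a closed embedding, `ln ⁻¹' K` is compact). -/
lemma integrableOn_line {T K : Set E2} (hT : MeasurableSet T) (hK : IsCompact K)
    (hKT : K ⊆ T) {f : E2 → ℝ} (hf : ContinuousOn f T) (z : ∀ y ∈ T \ K, f y = 0) :
    IntegrableOn (fun s => f (ln s)) {s : ℝ | ln s ∈ T} := by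
  have h1 : IsClosedEmbedding ln := isClosedEmbedding_smul_left (c := ev 1) (by simp)
  exact (((hf.mono hKT).comp continuous_ln.continuousOn (mapsTo_preimage _ _)).integrableOn_compact
    (h1.isCompact_preimage hK)).of_forall_sdiff_eq_zero (continuous_ln.measurable hT)
      fun s hs => z _ hs

lemma ae_pos_of_sub {T : Set E2} (hT : MeasurableSet T) (hs : T ⊆ HP) :
    ∀ᵐ y ∂(volume.restrict T), y ∈ T ∧ 0 < y 0 := by
  have h1 := Measure.addHaar_submodule (volume : Measure E2)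
    (LinearMap.ker (EuclideanSpace.proj (𝕜 := ℝ) (0 : Fin 2) : E2 →L[ℝ] ℝ).toLinearMap) fun e => by
      have h : ev 0 0 = 0 := (Submodule.eq_top_iff'.1 e (ev 0) :)
      simp at h
  filter_upwards [ae_restrict_mem hT, ae_restrict_of_ae (measure_eq_zero_iff_ae_notMem.1 h1)]
    with y h2 h3 using ⟨h2, lt_of_le_of_ne (hs h2) fun e => h3 e.symm⟩

lemma GGreen_zero {T K : Set E2} {F : Type*} [Zero F] {A : E2 → F} (z : ∀ y ∈ T \ K, A y = 0)
    {y : E2} (hy : y ∉ K) : T.indicator A y = 0 :=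
  indicator_apply_eq_zero.2 fun h => z y ⟨h, hy⟩

lemma GGreen_ext {T K : Set E2} (hn : ∀ y ∈ T, T ∈ 𝓝[HP] y) (hK : IsCompact K) (hKT : K ⊆ T)
    {A : E2 → ℝ} (h : ContDiffOn ℝ 1 A T) (z : ∀ y ∈ T \ K, A y = 0) (y : E2) :
    HasFDerivWithinAt (T.indicator A) (T.indicator (fderivWithin ℝ A HP) y) HP y := by
  by_cases hy : y ∈ T
  · rw [indicator_of_mem hy]
    refine (rel_hasFDeriv hn h le_rfl hy).congr_of_eventuallyEq ?_ (indicator_of_mem hy _)
    filter_upwards [hn y hy] with w hw using indicator_of_mem hw _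
  · rw [indicator_of_notMem hy]
    refine (hasFDerivWithinAt_const (0 : ℝ) y HP).congr_of_eventuallyEq ?_
      (indicator_of_notMem hy _)
    filter_upwards [mem_nhdsWithin_of_mem_nhds
      (hK.isClosed.isOpen_compl.mem_nhds fun h => hy (hKT h))] with w hw using GGreen_zero z hw

/-- Coordinates on the plane. -/
noncomputable def GGreen_phi : (ℝ × ℝ) ≃L[ℝ] E2 :=
  (ContinuousLinearEquiv.finTwoArrow ℝ ℝ).symm.trans (EuclideanSpace.equiv (Fin 2) ℝ).symm

lemma GGreen_phi0 (p : ℝ × ℝ) : GGreen_phi p 0 = p.1 := rfl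

lemma GGreen_phi1 (p : ℝ × ℝ) : GGreen_phi p 1 = p.2 := rfl

lemma GGreen_mp : MeasurePreserving GGreen_phi :=
  (PiLp.volume_preserving_toLp (Fin 2)).comp ((volume_preserving_finTwoArrow ℝ).symm _)

/-- Extend by zero: `B = indicator T A` (= `indicator K A`) is continuous on `HP` and differentiable
at the interior points of `HP`, with derivative `indicator T (fderivWithin ℝ A HP)`; transport to
`ℝ × ℝ` by `(a, b) ↦ a • ev 0 + b • ev 1` (measure preserving: `PiLp.volume_preserving_toLp`,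
`volume_preserving_finTwoArrow`, or `EuclideanSpace.volume_preserving_measurableEquiv`), apply
`integral_divergence_prod_Icc_of_hasFDerivAt_of_le` on `[0, R] × [-R, R]` with `K ⊆ ball 0 R`.
The line `y 0 = 0` is a null set. -/
theorem green_half {T K : Set E2} (hs : T ⊆ HP) (hn : ∀ y ∈ T, T ∈ 𝓝[HP] y) (hK : IsCompact K)
    (hKT : K ⊆ T) {A0 A1 : E2 → ℝ} (h0 : ContDiffOn ℝ 1 A0 T) (h1 : ContDiffOn ℝ 1 A1 T)
    (z0 : ∀ y ∈ T \ K, A0 y = 0) (z1 : ∀ y ∈ T \ K, A1 y = 0) :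
    ∫ y in T, (fderivWithin ℝ A0 HP y (ev 0) + fderivWithin ℝ A1 HP y (ev 1)) =
      -∫ s in {s : ℝ | ln s ∈ T}, A0 (ln s) := by
  obtain ⟨R, hR, hKR⟩ := hK.isBounded.subset_ball_lt 0 0
  have hT := rel_meas hs hn
  have hb : ∀ p : ℝ × ℝ, GGreen_phi p ∈ K → 0 ≤ p.1 ∧ |p.1| < R ∧ |p.2| < R := fun p hp =>
    ⟨hs (hKT hp), (PiLp.norm_apply_le (GGreen_phi p) 0).trans_lt (mem_ball_zero_iff.1 (hKR hp)),
      (PiLp.norm_apply_le (GGreen_phi p) 1).trans_lt (mem_ball_zero_iff.1 (hKR hp))⟩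
  have e0 : GGreen_phi (1, 0) = ev 0 := by
    ext i
    fin_cases i <;> simp [GGreen_phi0, GGreen_phi1]
  have e1 : GGreen_phi (0, 1) = ev 1 := by
    ext i
    fin_cases i <;> simp [GGreen_phi0, GGreen_phi1]
  have e2 : ∀ s, GGreen_phi (0, s) = ln s := fun s => (ln_eq rfl).symm
  set D : E2 → ℝ := fun y => fderivWithin ℝ A0 HP y (ev 0) + fderivWithin ℝ A1 HP y (ev 1) with hD
  have zD : ∀ y ∈ T \ K, D y = 0 := fun y hy => by
    simp [hD, fderivWithin_zero_off hn hK z0 hy, fderivWithin_zero_off hn hK z1 hy]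
  have iD : Integrable fun p => T.indicator D (GGreen_phi p) :=
    GGreen_mp.integrable_comp_of_integrable ((integrable_indicator_iff hT).2
      (integrableOn_of_compact hT hK hKT
        (((rel_contDiff hs hn h0 (m := 0) (by simp)).continuousOn.clm_apply continuousOn_const).add
          ((rel_contDiff hs hn h1 (m := 0) (by simp)).continuousOn.clm_apply continuousOn_const))
        zD))
  have hc : ∀ {A : E2 → ℝ}, ContDiffOn ℝ 1 A T → (∀ y ∈ T \ K, A y = 0) →
      ContinuousOn (fun p => T.indicator A (GGreen_phi p)) (Icc (0, -R) (R, R)) := fun h z =>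
    ContinuousOn.comp (t := HP) (fun y _ => (GGreen_ext hn hK hKT h z y).continuousWithinAt)
      GGreen_phi.continuous.continuousOn fun p hp => hp.1.1
  have hd : ∀ {A : E2 → ℝ}, ContDiffOn ℝ 1 A T → (∀ y ∈ T \ K, A y = 0) →
      ∀ p ∈ Ioo (0 : ℝ) R ×ˢ Ioo (-R) R, HasFDerivAt (fun p => T.indicator A (GGreen_phi p))
        ((T.indicator (fderivWithin ℝ A HP) (GGreen_phi p)).comp
          (GGreen_phi : (ℝ × ℝ) →L[ℝ] E2)) p := fun h z p hp =>
    ((GGreen_ext hn hK hKT h z _).hasFDerivAt (HP_mem_nhds hp.1.1)).comp p GGreen_phi.hasFDerivAt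
  have e3 : (fun p => ((T.indicator (fderivWithin ℝ A0 HP) (GGreen_phi p)).comp
      (GGreen_phi : (ℝ × ℝ) →L[ℝ] E2)) (1, 0) + ((T.indicator (fderivWithin ℝ A1 HP)
        (GGreen_phi p)).comp (GGreen_phi : (ℝ × ℝ) →L[ℝ] E2)) (0, 1)) =
      fun p => T.indicator D (GGreen_phi p) := funext fun p => by
    by_cases hp : GGreen_phi p ∈ T <;> simp [hp, e0, e1, hD]
  have key := integral_divergence_prod_Icc_of_hasFDerivAt_of_le _ _ _ _ (0, -R) (R, R)
    ⟨hR.le, by simpa using hR.le⟩ (hc h0 z0) (hc h1 z1) (hd h0 z0) (hd h1 z1)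
    (e3 ▸ iD.integrableOn)
  have b1 : ∀ x, T.indicator A1 (GGreen_phi (x, R)) = 0 := fun x =>
    GGreen_zero z1 fun h => (le_abs_self R).not_gt (hb _ h).2.2
  have b2 : ∀ x, T.indicator A1 (GGreen_phi (x, -R)) = 0 := fun x =>
    GGreen_zero z1 fun h => (neg_neg R ▸ neg_le_abs (-R)).not_gt (hb _ h).2.2
  have b3 : ∀ x, T.indicator A0 (GGreen_phi (R, x)) = 0 := fun x =>
    GGreen_zero z0 fun h => (le_abs_self R).not_gt (hb _ h).2.1
  have b5 : ∀ p ∉ Icc ((0, -R) : ℝ × ℝ) (R, R), T.indicator D (GGreen_phi p) = 0 := fun p hp =>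
    GGreen_zero zD fun h => hp ⟨⟨(hb p h).1, (abs_lt.1 (hb p h).2.2).1.le⟩,
      ⟨(abs_lt.1 (hb p h).2.1).2.le, (abs_lt.1 (hb p h).2.2).2.le⟩⟩
  rw [e3, setIntegral_eq_integral_of_forall_compl_eq_zero b5,
    GGreen_mp.integral_comp GGreen_phi.toHomeomorph.measurableEmbedding, integral_indicator hT]
    at key
  simp only [b1, b2, b3, e2, intervalIntegral.integral_zero, sub_zero, add_zero, zero_sub] at key
  have b4 : ∀ s ∉ Ioc (-R) R, T.indicator A0 (ln s) = 0 := fun s hs' => GGreen_zero z0 fun h => hs'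
    ⟨(abs_lt.1 (hb (0, s) (e2 s ▸ h)).2.2).1, (abs_lt.1 (hb (0, s) (e2 s ▸ h)).2.2).2.le⟩
  rw [key, intervalIntegral.integral_of_le (by linarith),
    setIntegral_eq_integral_of_forall_compl_eq_zero b4,
    ← integral_indicator (rel_line_open hs hn).measurableSet]
  rfl

end Pool.Agent.Lib.MP_14b623_gt
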