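import Pool.Agent.Lib.MP_14b623_gt.GChart
import Pool.Agent.Lib.MP_14b623_gt.GGreen
import Pool.Agent.Lib.MP_14b623_gt.GDiv

namespace Pool.Agent.Lib.MP_14b623_gt

open Set MeasureTheory Filter Topology Function
open scoped InnerProductSpace Manifold ContDiff

/-! The area measure. -/

variable {M : Type} [TopologicalSpace M] [ChartedSpace (EuclideanHalfSpace 2) M]
  [IsManifold (𝓡∂ 2) ∞ M] [MeasurableSpace M] [BorelSpace M] {φ : M → E3}

omit [IsManifold (𝓡∂ 2) ∞ M] [MeasurableSpace M] [BorelSpace M] in
lemma garea_target (p : M) : MeasurableSet (ch p).target := rel_meas (ch_sub p) (ch_nhds p)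

omit [IsManifold (𝓡∂ 2) ∞ M] in
lemma garea_source (p : M) : MeasurableSet (ch p).source :=
  (isOpen_extChartAt_source p).measurableSet

omit [IsManifold (𝓡∂ 2) ∞ M] in
lemma garea_symm (p : M) : AEMeasurable (ch p).symm (volume.restrict (ch p).target) :=
  (continuousOn_extChartAt_symm p).aemeasurable (garea_target p)

omit [IsManifold (𝓡∂ 2) ∞ M] in
lemma garea_image (p : M) {s : Set M} (hs : MeasurableSet s) :
    MeasurableSet (ch p '' (s ∩ (ch p).source)) := by
  rw [inter_comm, PartialEquiv.image_source_inter_eq', ← Subtype.image_preimage_coe]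
  exact (garea_target p).subtype_image
    ((continuousOn_iff_continuous_domRestrict.1 (continuousOn_extChartAt_symm p)).measurable hs)

omit [IsManifold (𝓡∂ 2) ∞ M] in
/-- `Measure.map_apply_of_aemeasurable` (`(ch p).symm` is continuous on the target),
`withDensity_apply₀`; the set on the right is `target ∩ symm ⁻¹' s`, it is measurable. -/
lemma chartArea_apply (φ : M → E3) (p : M) {s : Set M} (hs : MeasurableSet s) :
    chartArea φ p s = ∫⁻ y in ch p '' (s ∩ (ch p).source),
      ENNReal.ofReal (areaEl (inChart φ p) y) := by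
  rw [chartArea, Measure.map_apply_of_aemeasurable
      ((garea_symm p).mono_ac (withDensity_absolutelyContinuous _ _)) hs,
    withDensity_apply₀ _ ((garea_symm p).nullMeasurableSet_preimage hs),
    Measure.restrict_restrict' (garea_target p), inter_comm s,
    PartialEquiv.image_source_inter_eq', inter_comm]

omit [IsManifold (𝓡∂ 2) ∞ M] in
lemma garea_inter (φ : M → E3) (p : M) {s : Set M} (hs : MeasurableSet s) :
    chartArea φ p (s ∩ (ch p).source) = chartArea φ p s := by
  rw [chartArea_apply φ p hs, chartArea_apply φ p (hs.inter (garea_source p)), inter_assoc,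
    inter_self]

/-- Change of variables `lintegral_image_eq_lintegral_abs_det_fderiv_mul` for
`τ = ch q ∘ (ch p).symm` on `ch p '' s`, with `ch_trans`, `ch_chain`, `jac_comp`. -/
lemma chartArea_compat (h : IsFBMS φ) (p q : M) {s : Set M} (hs : MeasurableSet s)
    (hp : s ⊆ (ch p).source) (hq : s ⊆ (ch q).source) : chartArea φ p s = chartArea φ q s := by
  have hS := garea_image p hs
  rw [chartArea_apply φ p hs, chartArea_apply φ q hs, inter_eq_left.2 hq]
  rw [inter_eq_left.2 hp] at hS ⊢
  have hτ : ∀ x ∈ s, (ch q ∘ (ch p).symm) (ch p x) = ch q x := fun x hx =>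
    congrArg (ch q) ((ch p).left_inv (hp hx))
  have hsub : ch p '' s ⊆ HP := by
    rintro _ ⟨x, hx, rfl⟩
    exact ch_sub p ((ch p).map_source (hp hx))
  have h1 : ch q '' s = (ch q ∘ (ch p).symm) '' (ch p '' s) := by
    rw [image_image]
    exact (image_congr hτ).symm
  rw [h1, lintegral_image_eq_lintegral_abs_det_fderiv_mul volume hS
    (f' := fun y => fderivWithin ℝ (ch q ∘ (ch p).symm) HP y)]
  · refine setLIntegral_congr_fun hS ?_
    rintro _ ⟨x, hx, rfl⟩
    have h2 := ch_chain (f := φ) (hp hx) (hq hx) (rel_hasFDeriv (ch_nhds q) (h.patch q).smooth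
      one_le_two ((ch q).map_source (hq hx))).differentiableWithinAt
    have h3 : areaEl (inChart φ p) (ch p x) =
        |(fderivWithin ℝ (ch q ∘ (ch p).symm) HP (ch p x)).det| *
          areaEl (inChart φ q) (ch q x) := by
      rw [areaEl_eq, areaEl_eq, pd_eq, pd_eq, pd_eq, pd_eq, inChart, h2]
      exact jac_comp _ _
    beta_reduce
    rw [hτ x hx, h3, ENNReal.ofReal_mul (abs_nonneg _)]
  · rintro _ ⟨x, hx, rfl⟩
    exact (ch_trans (hp hx) (hq hx)).hasFDerivWithinAt.mono hsub
  · rintro _ ⟨x, hx, rfl⟩ _ ⟨x', hx', rfl⟩ h2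
    rw [hτ x hx, hτ x' hx'] at h2
    rw [(ch q).injOn (hq hx) (hq hx') h2]

/-- `≥`: `le_iSup` and `chartArea φ p` is carried by the source. `≤`: the measure
`ν = chartArea φ p + (areaMeasure φ).restrict (ch p).sourceᶜ` dominates every `chartArea φ q`
(split `s` along the source of `p`, `chartArea_compat` and `chartArea_apply`), so
`areaMeasure φ ≤ ν` by `iSup_le`; restrict to the source. -/
lemma areaMeasure_restrict (h : IsFBMS φ) (p : M) :
    (areaMeasure φ).restrict (ch p).source = chartArea φ p := by
  have hU := garea_source p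
  have h1 : (chartArea φ p).restrict (ch p).source = chartArea φ p :=
    Measure.ext fun s hs => by rw [Measure.restrict_apply hs, garea_inter φ p hs]
  have h2 : ∀ q, chartArea φ q ≤ areaMeasure φ := fun q => le_iSup (chartArea φ) q
  refine le_antisymm ?_ (h1.symm.le.trans (Measure.restrict_mono subset_rfl (h2 p)))
  have h3 : areaMeasure φ ≤ chartArea φ p + (areaMeasure φ).restrict (ch p).sourceᶜ := by
    refine iSup_le fun q => Measure.le_iff.2 fun s hs => ?_
    rw [Measure.add_apply, Measure.restrict_apply hs, ← measure_inter_add_sdiff s hU]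
    refine add_le_add ?_ (h2 q _)
    rw [← garea_inter φ q (hs.inter hU), chartArea_compat h q p ((hs.inter hU).inter
      (garea_source q)) inter_subset_right (inter_subset_left.trans inter_subset_right)]
    exact measure_mono (inter_subset_left.trans inter_subset_left)
  refine (Measure.restrict_mono subset_rfl h3).trans_eq ?_
  rw [Measure.restrict_add, h1, Measure.restrict_restrict hU, inter_compl_self,
    Measure.restrict_empty, add_zero]

/-- Every point has a compact neighbourhood `N` inside its chart source; `ch p '' N` is compact and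
`areaEl` is continuous on it, so `N` has finite measure; finitely many `N` cover `M`. -/
lemma areaMeasure_finite [T2Space M] [CompactSpace M] (h : IsFBMS φ) :
    IsFiniteMeasure (areaMeasure φ) := by
  have : IsLocallyFiniteMeasure (areaMeasure φ) := ⟨fun p => by
    obtain ⟨N, hN, h1, h2⟩ := exists_compact_subset (isOpen_extChartAt_source (I := 𝓡∂ 2) p)
      (mem_extChartAt_source p)
    refine ⟨N, mem_interior_iff_mem_nhds.1 h1, ?_⟩
    rw [← Measure.restrict_eq_self _ h2, areaMeasure_restrict h p,
      chartArea_apply φ p hN.measurableSet, inter_eq_left.2 h2]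
    refine Integrable.lintegral_lt_top (ContinuousOn.integrableOn_compact
      (hN.image_of_continuousOn ((continuousOn_extChartAt p).mono h2))
      ((h.patch p).contDiffOn_areaEl.continuousOn.mono ?_))
    rintro _ ⟨x, hx, rfl⟩
    exact (ch p).map_source (h2 hx)⟩
  exact ⟨isCompact_univ.measure_lt_top⟩

/-- Integrals of functions carried by one chart (`integral_map`, `integral_withDensity_eq_integral_smul₀`
or the `toReal` versions; on the source `f = (f ∘ symm) ∘ ch p` is continuous, so `f` is a.e. strongly
measurable for `chartArea φ p`, which is `(areaMeasure φ).restrict source`). -/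
lemma integral_chart (h : IsFBMS φ) (p : M) {f : M → ℝ} (hf : ContinuousOn f (ch p).source)
    (hz : ∀ x ∉ (ch p).source, f x = 0)
    (hi : IntegrableOn (fun y => f ((ch p).symm y) * areaEl (inChart φ p) y) (ch p).target) :
    Integrable f (areaMeasure φ) ∧ ∫ x, f x ∂areaMeasure φ =
      ∫ y in (ch p).target, f ((ch p).symm y) * areaEl (inChart φ p) y := by
  have h1 : AEStronglyMeasurable f (chartArea φ p) :=
    areaMeasure_restrict h p ▸ hf.aestronglyMeasurable (garea_source p)
  have h2 := (garea_symm p).mono_ac (withDensity_absolutelyContinuous _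
    fun y => ENNReal.ofReal (areaEl (inChart φ p) y))
  have h3 : AEMeasurable (fun y => ENNReal.ofReal (areaEl (inChart φ p) y))
      (volume.restrict (ch p).target) :=
    ((h.patch p).contDiffOn_areaEl.continuousOn.aemeasurable (garea_target p)).ennreal_ofReal
  have h4 : ∀ᵐ y ∂(volume.restrict (ch p).target),
      ENNReal.ofReal (areaEl (inChart φ p) y) < ⊤ :=
    Eventually.of_forall fun _ => ENNReal.ofReal_lt_top
  have h5 : (fun y => (ENNReal.ofReal (areaEl (inChart φ p) y)).toReal • f ((ch p).symm y)) =
      fun y => f ((ch p).symm y) * areaEl (inChart φ p) y := funext fun y => by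
    rw [ENNReal.toReal_ofReal (r := areaEl (inChart φ p) y) (Real.sqrt_nonneg _), smul_eq_mul,
      mul_comm]
  constructor
  · refine IntegrableOn.integrable_of_forall_notMem_eq_zero ?_ hz
    rw [IntegrableOn, areaMeasure_restrict h p]
    exact (integrable_map_measure h1 h2).2
      ((integrable_withDensity_iff_integrable_smul₀' h3 h4).2 (h5 ▸ hi))
  · rw [← setIntegral_eq_integral_of_forall_compl_eq_zero hz, areaMeasure_restrict h p, ← h5,
      ← integral_withDensity_eq_integral_toReal_smul₀ h3 h4]
    exact integral_map h2 h1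

end Pool.Agent.Lib.MP_14b623_gt
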