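import Pool.Agent.Lib.MP_14b623_gt.GLoop
import Pool.Agent.Lib.MP_14b623_gt.Defs

/-! One dimensional atlases, closed curves and line integrals. -/

namespace Pool.Agent.Lib.MP_14b623_gt

open Set MeasureTheory Filter Topology Function
open scoped InnerProductSpace

variable {M : Type*} [TopologicalSpace M]

/-- Regular parametrisations of pieces of `K` with differentiable transitions. -/
structure LineAtlas (φ : M → E3) (K : Set M) where
  I : M → Set ℝ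
  β : M → ℝ → M
  v : M → ℝ → E3
  opn : ∀ q, IsOpen (I q)
  inj : ∀ q, InjOn (β q) (I q)
  cont : ∀ q, ContinuousOn (β q) (I q)
  mem : ∀ q, ∀ s ∈ I q, β q s ∈ K
  der : ∀ q, ∀ s ∈ I q, HasDerivAt (fun s => φ (β q s)) (v q s) s
  vc : ∀ q, ContinuousOn (v q) (I q)
  vne : ∀ q, ∀ s ∈ I q, v q s ≠ 0
  cover : ∀ b ∈ K, ∃ s ∈ I b, β b s = b ∧ ∀ U ∈ 𝓝 s, β b '' U ∈ 𝓝[K] b
  trans : ∀ p q, ∀ s ∈ I p, β p s ∈ β q '' I q →
    ∃ k : ℝ → ℝ, ∀ᶠ r in 𝓝 s, DifferentiableAt ℝ k r ∧ k r ∈ I q ∧ β p r = β q (k r)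

lemma gline_arc {J : Set ℝ} (hJ : IsOpen J) {s₀ : ℝ} (hs : s₀ ∈ J) {u : ℝ → ℝ}
    (hu : ContinuousOn u J) (hp : ∀ s ∈ J, 0 < u s) :
    ∃ ε > 0, ∃ E S : ℝ → ℝ, E 0 = s₀ ∧ (∀ t, E (S t) = t) ∧ Differentiable ℝ S ∧
      (∀ σ ∈ Ioo (-ε) ε, E σ ∈ J ∧ S (E σ) = σ ∧ HasDerivAt E (u (E σ))⁻¹ σ) ∧
      ∀ U ∈ 𝓝 (0 : ℝ), E '' U ∈ 𝓝 s₀ := by
  obtain ⟨δ, hδ, hb⟩ := Metric.isOpen_iff.1 hJ s₀ hs
  set ρ := δ / 2 with hρ
  have hρ0 : 0 < ρ := half_pos hδ
  have hI : Icc (s₀ - ρ) (s₀ + ρ) ⊆ J := fun x hx => hb (by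
    rw [Metric.mem_ball, Real.dist_eq, abs_lt]
    constructor <;> linarith [hx.1, hx.2])
  set cl : ℝ → ℝ := fun s => max (s₀ - ρ) (min s (s₀ + ρ)) with hcl
  have hc1 : Continuous cl := by fun_prop
  have hc2 : ∀ s, cl s ∈ J := fun s =>
    hI ⟨le_max_left _ _, max_le (by linarith) (min_le_right _ _)⟩
  have hc3 : ∀ s ∈ Ioo (s₀ - ρ) (s₀ + ρ), cl s = s := fun s hs => by
    simp only [hcl]
    rw [min_eq_left hs.2.le, max_eq_right hs.1.le]
  have hw : Continuous fun s => u (cl s) := hu.comp_continuous hc1 hc2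
  set S : ℝ → ℝ := fun t => ∫ x in s₀..t, u (cl x) with hSdef
  have hS : ∀ t, HasStrictDerivAt S (u (cl t)) t := fun t => hw.integral_hasStrictDerivAt s₀ t
  have hm : StrictMono S := strictMono_of_deriv_pos fun t => by
    rw [(hS t).hasDerivAt.deriv]; exact hp _ (hc2 t)
  have hcS : Continuous S := continuous_iff_continuousAt.2 fun t => (hS t).hasDerivAt.continuousAt
  have h0 : S s₀ = 0 := by simp [hSdef]
  have hl : ∀ t, invFun S (S t) = t := leftInverse_invFun hm.injective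
  have h1 : S (s₀ - ρ) < 0 := h0 ▸ hm (by linarith)
  have h2 : 0 < S (s₀ + ρ) := h0 ▸ hm (by linarith)
  refine ⟨min (-S (s₀ - ρ)) (S (s₀ + ρ)), lt_min (by linarith) h2, invFun S, S,
    by rw [← h0, hl], hl, fun t => (hS t).hasDerivAt.differentiableAt, fun σ hσ => ?_,
    fun U hU => ?_⟩
  · have h3 : σ ∈ Ioo (S (s₀ - ρ)) (S (s₀ + ρ)) :=
      ⟨by linarith [hσ.1, min_le_left (-S (s₀ - ρ)) (S (s₀ + ρ))],
        by linarith [hσ.2, min_le_right (-S (s₀ - ρ)) (S (s₀ + ρ))]⟩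
    obtain ⟨t, ht, rfl⟩ := intermediate_value_Ioo (show s₀ - ρ ≤ s₀ + ρ by linarith)
      hcS.continuousOn h3
    rw [hl]
    refine ⟨hI (Ioo_subset_Icc_self ht), rfl, ?_⟩
    have := (hS t).to_local_left_inverse (hp _ (hc2 t)).ne' (Eventually.of_forall hl)
    rw [hc3 t ht] at this
    exact this.hasDerivAt
  · have : S ⁻¹' U ∈ 𝓝 s₀ := hcS.continuousAt.preimage_mem_nhds (by rwa [h0])
    exact mem_of_superset this fun t ht => ⟨S t, ht, hl t⟩

lemma gline_affine {f₁ f₂ T₁ T₂ : ℝ → E3} {h : ℝ → ℝ}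
    (H : ∀ᶠ r in 𝓝 (0 : ℝ), HasDerivAt f₁ (T₁ r) r ∧ ‖T₁ r‖ = 1 ∧ DifferentiableAt ℝ h r ∧
      HasDerivAt f₂ (T₂ (h r)) (h r) ∧ ‖T₂ (h r)‖ = 1 ∧ f₁ r = f₂ (h r))
    (c₁ : ContinuousAt T₁ 0) (c₂ : ContinuousAt T₂ (h 0)) :
    ∃ σ : ℝ, (σ = 1 ∨ σ = -1) ∧ ∀ᶠ r in 𝓝 (0 : ℝ), h r = h 0 + σ * r := by
  have h1 : ∀ᶠ r in 𝓝 (0 : ℝ), DifferentiableAt ℝ h r ∧ deriv h r = ⟪T₁ r, T₂ (h r)⟫_ℝ ∧
      (deriv h r = 1 ∨ deriv h r = -1) := by
    filter_upwards [H.eventually_nhds] with r hr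
    obtain ⟨a1, a2, a3, a4, a5, -⟩ := hr.self_of_nhds
    have a6 : HasDerivAt f₁ (deriv h r • T₂ (h r)) r :=
      (a4.scomp r a3.hasDerivAt).congr_of_eventuallyEq (hr.mono fun x hx => hx.2.2.2.2.2)
    have a7 := a1.unique a6
    refine ⟨a3, ?_, ?_⟩
    · rw [a7, real_inner_smul_left, real_inner_self_eq_norm_sq, a5]; ring
    · rw [a7, norm_smul, a5, mul_one, Real.norm_eq_abs] at a2
      exact eq_or_eq_neg_of_abs_eq a2
  have hc : ContinuousAt (fun r => ⟪T₁ r, T₂ (h r)⟫_ℝ) 0 :=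
    c₁.inner (c₂.comp h1.self_of_nhds.1.continuousAt)
  obtain ⟨-, e1, e2⟩ := h1.self_of_nhds
  refine ⟨deriv h 0, e2, ?_⟩
  have h2 : ∀ᶠ r in 𝓝 (0 : ℝ), HasDerivAt h (deriv h 0) r := by
    filter_upwards [h1, Metric.tendsto_nhds.1 hc 1 one_pos] with r hr h3
    rw [← hr.2.1, ← e1, Real.dist_eq, abs_lt] at h3
    have : deriv h r = deriv h 0 := by
      rcases hr.2.2 with h4 | h4 <;> rcases e2 with h5 | h5 <;> linarith [h3.1, h3.2]
    exact this ▸ hr.1.hasDerivAt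
  obtain ⟨δ, hδ, h3⟩ := Metric.eventually_nhds_iff_ball.1 h2
  have h4 : ∀ r ∈ Metric.ball (0 : ℝ) δ, HasDerivAt (fun r => h r - deriv h 0 * r) 0 r :=
    fun r hr => by
      have := (h3 r hr).fun_sub ((hasDerivAt_id r).const_mul (deriv h 0))
      rwa [mul_one, sub_self] at this
  filter_upwards [Metric.ball_mem_nhds 0 hδ] with r hr
  have := Metric.isOpen_ball.is_const_of_deriv_eq_zero (convex_ball (0 : ℝ) δ).isPreconnected
    (fun x hx => (h4 x hx).differentiableAt.differentiableWithinAt) (fun x hx => (h4 x hx).deriv)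
    hr (Metric.mem_ball_self hδ)
  linarith

namespace LineAtlas

variable {φ : M → E3} {K : Set M} (L : LineAtlas φ K)

/-- A regular simple closed curve in `K`, of period one, with velocity `g'`. -/
structure Good (γ : ℝ → M) (g' : ℝ → E3) : Prop where
  der : ∀ t, HasDerivAt (fun t => φ (γ t)) (g' t) t
  cont : Continuous g'
  ne : ∀ t, g' t ≠ 0
  per : Periodic γ 1
  inj : InjOn γ (Ico 0 1)
  mem : ∀ t, γ t ∈ K
  loc : ∀ q t, γ t ∈ L.β q '' L.I q →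
    ∃ k : ℝ → ℝ, DifferentiableAt ℝ k t ∧ ∀ᶠ r in 𝓝 t, k r ∈ L.I q ∧ γ r = L.β q (k r)

lemma der_local {γ : ℝ → M} {t : ℝ} {b : M} {j j' : ℝ → ℝ}
    (H : ∀ᶠ r in 𝓝 t, j r ∈ L.I b ∧ γ r = L.β b (j r) ∧ HasDerivAt j (j' r) r) :
    ∀ᶠ r in 𝓝 t, HasDerivAt (fun t => φ (γ t)) (j' r • L.v b (j r)) r := by
  filter_upwards [H.eventually_nhds] with r hr
  obtain ⟨a1, -, a3⟩ := hr.self_of_nhds
  exact ((L.der b _ a1).scomp r a3).congr_of_eventuallyEq
    (hr.mono fun x hx => by simp only [hx.2.1, comp_apply])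

lemma good_of_local {γ : ℝ → M} (hper : Periodic γ 1) (hinj : InjOn γ (Ico 0 1))
    (hne : ∀ t, deriv (fun t => φ (γ t)) t ≠ 0)
    (H : ∀ t, ∃ (b : M) (j j' : ℝ → ℝ), ContinuousAt j' t ∧
      ∀ᶠ r in 𝓝 t, j r ∈ L.I b ∧ γ r = L.β b (j r) ∧ HasDerivAt j (j' r) r) :
    L.Good γ (deriv fun t => φ (γ t)) where
  der t := by
    obtain ⟨b, j, j', -, h⟩ := H t
    exact (L.der_local h).self_of_nhds.differentiableAt.hasDerivAt
  cont := continuous_iff_continuousAt.2 fun t => by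
    obtain ⟨b, j, j', hc, h⟩ := H t
    obtain ⟨a1, -, a3⟩ := h.self_of_nhds
    have h1 : ContinuousAt (fun r => j' r • L.v b (j r)) t :=
      hc.smul (((L.vc b).continuousAt ((L.opn b).mem_nhds a1)).comp a3.continuousAt)
    exact h1.congr ((L.der_local h).mono fun r hr => hr.deriv.symm)
  ne := hne
  per := hper
  inj := hinj
  mem t := by
    obtain ⟨b, j, j', -, h⟩ := H t
    obtain ⟨a1, a2, -⟩ := h.self_of_nhds
    exact a2 ▸ L.mem b _ a1
  loc q t hq := by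
    obtain ⟨b, j, j', -, h⟩ := H t
    obtain ⟨a1, a2, a3⟩ := h.self_of_nhds
    obtain ⟨k, hk⟩ := L.trans b q _ a1 (a2 ▸ hq)
    refine ⟨fun r => k (j r), hk.self_of_nhds.1.comp t a3.differentiableAt, ?_⟩
    filter_upwards [h, a3.continuousAt.eventually hk] with r h1 h2
    exact ⟨h2.2.1, h1.2.1.trans h2.2.2⟩

/-- Through every point of `K` there is a regular simple closed curve in `K`. -/
theorem exists_good [T2Space M] (hK : IsCompact K) {x : M} (hx : x ∈ K) :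
    ∃ (γ : ℝ → M) (g' : ℝ → E3), γ 0 = x ∧ Continuous γ ∧ L.Good γ g' := by
  choose! s₀ hs1 hs2 hs3 using L.cover
  have hup : ∀ q, ∀ s ∈ L.I q, 0 < ‖L.v q s‖ := fun q s hs => norm_pos_iff.2 (L.vne q s hs)
  choose! ε hε E S h0 hES hS hE hU using fun b (hb : b ∈ K) =>
    gline_arc (L.opn b) (hs1 b hb) (L.vc b).norm (hup b)
  have hT : ∀ b ∈ K, ∀ σ ∈ Ioo (-ε b) (ε b), HasDerivAt (fun σ => φ (L.β b (E b σ)))
      (‖L.v b (E b σ)‖⁻¹ • L.v b (E b σ)) σ := fun b hb σ hσ =>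
    (L.der b _ (hE b hb σ hσ).1).scomp σ (hE b hb σ hσ).2.2
  have hT1 : ∀ b ∈ K, ∀ σ ∈ Ioo (-ε b) (ε b), ‖‖L.v b (E b σ)‖⁻¹ • L.v b (E b σ)‖ = 1 :=
    fun b hb σ hσ => by
      rw [norm_smul, norm_inv, norm_norm, inv_mul_cancel₀ (hup b _ (hE b hb σ hσ).1).ne']
  have hvc : ∀ b ∈ K, ∀ σ ∈ Ioo (-ε b) (ε b), ContinuousAt (fun σ => L.v b (E b σ)) σ :=
    fun b hb σ hσ => ((L.vc b).continuousAt ((L.opn b).mem_nhds (hE b hb σ hσ).1)).comp
      (hE b hb σ hσ).2.2.continuousAt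
  have hic : ∀ b ∈ K, ∀ σ ∈ Ioo (-ε b) (ε b), ContinuousAt (fun σ => ‖L.v b (E b σ)‖⁻¹) σ :=
    fun b hb σ hσ => (hvc b hb σ hσ).norm.inv₀ (hup b _ (hE b hb σ hσ).1).ne'
  let A : IsoAtlas K :=
    { ε := ε
      α := fun b σ => L.β b (E b σ)
      pos := hε
      zero := fun b hb => by rw [h0 b hb, hs2 b hb]
      cont := fun b hb σ hσ => (((L.cont b).continuousAt ((L.opn b).mem_nhds
        (hE b hb σ hσ).1)).comp (hE b hb σ hσ).2.2.continuousAt).continuousWithinAt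
      inj := fun b hb σ hσ τ hτ h => by
        have := L.inj b (hE b hb σ hσ).1 (hE b hb τ hτ).1 h
        rw [← (hE b hb σ hσ).2.1, this, (hE b hb τ hτ).2.1]
      mem := fun b hb σ hσ => L.mem b _ (hE b hb σ hσ).1
      nhds := fun b hb U hU' => by
        have := hs3 b hb _ (hU b hb U hU')
        rwa [image_image] at this
      trans := fun b hb b' hb' s hs t ht h => by
        obtain ⟨k, hk⟩ := L.trans b b' _ (hE b hb s hs).1 ⟨_, (hE b' hb' t ht).1, h.symm⟩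
        have e1 : k (E b s) = E b' t :=
          L.inj b' hk.self_of_nhds.2.1 (hE b' hb' t ht).1 (hk.self_of_nhds.2.2.symm.trans h)
        have e2 : S b' (k (E b (s + 0))) = t := by rw [add_zero, e1, (hE b' hb' t ht).2.1]
        have t1 : ∀ᶠ r in 𝓝 (0 : ℝ), s + r ∈ Ioo (-ε b) (ε b) :=
          (IsoAtlas.tend_add s).eventually (isOpen_Ioo.mem_nhds hs)
        have t2 := ((hE b hb s hs).2.2.continuousAt.tendsto.comp (IsoAtlas.tend_add s)).eventually hk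
        have t3 : ∀ᶠ r in 𝓝 (0 : ℝ), DifferentiableAt ℝ (fun r => S b' (k (E b (s + r)))) r := by
          filter_upwards [t1, t2] with r h1 h2
          exact (hS b' hb' _).comp r (h2.1.comp r
            ((hE b hb _ h1).2.2.comp_const_add s r).differentiableAt)
        have t4 : ∀ᶠ r in 𝓝 (0 : ℝ), S b' (k (E b (s + r))) ∈ Ioo (-ε b') (ε b') :=
          t3.self_of_nhds.continuousAt.eventually (isOpen_Ioo.mem_nhds
            (by show S b' (k (E b (s + 0))) ∈ _; rw [e2]; exact ht))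
        have t5 : ∀ᶠ r in 𝓝 (0 : ℝ),
            L.β b (E b (s + r)) = L.β b' (E b' (S b' (k (E b (s + r))))) := by
          filter_upwards [t2] with r h2
          rw [hES b' hb']
          exact h2.2.2
        obtain ⟨σ, hσ, h3⟩ := gline_affine (f₁ := fun r => φ (L.β b (E b (s + r))))
          (f₂ := fun σ => φ (L.β b' (E b' σ)))
          (T₁ := fun r => ‖L.v b (E b (s + r))‖⁻¹ • L.v b (E b (s + r)))
          (T₂ := fun σ => ‖L.v b' (E b' σ)‖⁻¹ • L.v b' (E b' σ))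
          (h := fun r => S b' (k (E b (s + r)))) (by
            filter_upwards [t1, t3, t4, t5] with r h1 h3 h4 h5
            exact ⟨(hT b hb _ h1).comp_const_add s r, hT1 b hb _ h1, h3, hT b' hb' _ h4,
              hT1 b' hb' _ h4, by rw [h5]⟩)
          (ContinuousAt.comp (f := fun r => s + r)
            (g := fun σ => ‖L.v b (E b σ)‖⁻¹ • L.v b (E b σ))
            (by rw [add_zero]; exact (hic b hb s hs).smul (hvc b hb s hs)) (by fun_prop))
          (by rw [e2]; exact (hic b' hb' t ht).smul (hvc b' hb' t ht))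
        refine ⟨σ, hσ, ?_⟩
        filter_upwards [t5, h3] with r h5 h6
        rw [h5, h6, e2] }
  obtain ⟨γ, P, hP, hγ0, hgeo, hper, hinj⟩ := IsoAtlas.exists_loop (A := A) hK hx
  have hloc : ∀ t, ∃ (b : M) (j j' : ℝ → ℝ), ContinuousAt j' t ∧ j' t ≠ 0 ∧
      ∀ᶠ r in 𝓝 t, j r ∈ L.I b ∧ γ (P * r) = L.β b (j r) ∧ HasDerivAt j (j' r) r := by
    intro t
    obtain ⟨b, hb, s, hs, σ, hσ, h⟩ := hgeo (P * t)
    have hs' : s ∈ Ioo (-ε b) (ε b) := hs
    have hσ0 : σ ≠ 0 := by rcases hσ with rfl | rfl <;> norm_num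
    have ha : ∀ r, HasDerivAt (fun r => s + σ * (P * r - P * t)) (σ * P) r := fun r => by
      have := ((((hasDerivAt_id r).const_mul P).sub_const (P * t)).const_mul σ).const_add s
      rwa [mul_one] at this
    have e0 : s + σ * (P * t - P * t) = s := by ring
    have t0 : Tendsto (fun r => P * r - P * t) (𝓝 t) (𝓝 0) := by
      have : Continuous fun r : ℝ => P * r - P * t := by fun_prop
      simpa using this.tendsto t
    refine ⟨b, fun r => E b (s + σ * (P * r - P * t)),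
      fun r => ‖L.v b (E b (s + σ * (P * r - P * t)))‖⁻¹ * (σ * P), ?_, ?_, ?_⟩
    · exact (ContinuousAt.comp (f := fun r => s + σ * (P * r - P * t))
        (g := fun σ => ‖L.v b (E b σ)‖⁻¹) (by rw [e0]; exact hic b hb s hs')
        (ha t).continuousAt).mul continuousAt_const
    · beta_reduce
      rw [e0]
      exact mul_ne_zero (inv_ne_zero (hup b _ (hE b hb s hs').1).ne') (mul_ne_zero hσ0 hP.ne')
    · filter_upwards [t0.eventually h, (ha t).continuousAt.eventually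
        (isOpen_Ioo.mem_nhds (e0.symm ▸ hs'))] with r h1 h2
      rw [add_sub_cancel] at h1
      exact ⟨(hE b hb _ h2).1, h1, (hE b hb _ h2).2.2.comp r (ha r)⟩
  have hc : Continuous γ := continuous_iff_continuousAt.2 fun t => (hgeo t).continuousAt
  refine ⟨fun t => γ (P * t), _, by simpa using hγ0, hc.comp (by fun_prop),
    L.good_of_local (fun t => ?_) (fun a ha b hb hab => ?_) (fun t => ?_) fun t => ?_⟩
  · rw [mul_add, mul_one, hper]
  · have := hinj ⟨mul_nonneg hP.le ha.1, by nlinarith [ha.2]⟩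
      ⟨mul_nonneg hP.le hb.1, by nlinarith [hb.2]⟩ hab
    exact mul_left_cancel₀ hP.ne' this
  · obtain ⟨b, j, j', -, h1, h2⟩ := hloc t
    rw [(L.der_local (γ := fun t => γ (P * t)) h2).self_of_nhds.deriv]
    exact smul_ne_zero h1 (L.vne b _ h2.self_of_nhds.1)
  · obtain ⟨b, j, j', h0, -, h2⟩ := hloc t
    exact ⟨b, j, j', h0, h2⟩

variable {L}

lemma Good.integral_eq {γ : ℝ → M} {g' : ℝ → E3} (h : L.Good γ g') (q : M) {F : M → ℝ}
    (hz : ∀ x ∈ K, x ∉ L.β q '' L.I q → F x = 0) :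
    ∃ W : Set ℝ, MeasurableSet W ∧ W ⊆ L.I q ∧ (∀ s ∈ W, ∃ t, L.β q s = γ t) ∧
      ∫ t in (0 : ℝ)..1, F (γ t) * ‖g' t‖ = ∫ s in W, F (L.β q s) * ‖L.v q s‖ := by
  set S : Set ℝ := {t | t ∈ Ioo (0 : ℝ) 1 ∧ γ t ∈ L.β q '' L.I q} with hS
  set k : ℝ → ℝ := fun t => invFunOn (L.β q) (L.I q) (γ t) with hk
  have h1 : ∀ t ∈ S, k t ∈ L.I q ∧ L.β q (k t) = γ t := fun t ht => invFunOn_pos ht.2
  have h2 : ∀ t ∈ S, S ∈ 𝓝 t ∧ DifferentiableAt ℝ k t := fun t ht => by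
    obtain ⟨j, hj, hj'⟩ := h.loc q t ht.2
    refine ⟨?_, hj.congr_of_eventuallyEq ?_⟩
    · filter_upwards [hj', isOpen_Ioo.mem_nhds ht.1] with r h3 h4
      exact ⟨h4, _, h3.1, h3.2.symm⟩
    · filter_upwards [hj'] with r h3
      simp only [hk, h3.2]
      exact (L.inj q).leftInvOn_invFunOn h3.1
  have hO : IsOpen S := isOpen_iff_mem_nhds.2 fun t ht => (h2 t ht).1
  have h3 : InjOn k S := fun a ha b hb hab =>
    h.inj (Ioo_subset_Ico_self ha.1) (Ioo_subset_Ico_self hb.1)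
      (by rw [← (h1 a ha).2, ← (h1 b hb).2, hab])
  have h4 : ∀ t ∈ S, g' t = deriv k t • L.v q (k t) := fun t ht => by
    refine (h.der t).unique (((L.der q _ (h1 t ht).1).scomp t
      (h2 t ht).2.hasDerivAt).congr_of_eventuallyEq ?_)
    filter_upwards [(h2 t ht).1] with r hr
    simp only [comp_apply, (h1 r hr).2]
  refine ⟨k '' S, hO.measurableSet.image_of_continuousOn_injOn
    (fun t ht => (h2 t ht).2.continuousAt.continuousWithinAt) h3, ?_, ?_, ?_⟩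
  · rintro _ ⟨t, ht, rfl⟩
    exact (h1 t ht).1
  · rintro _ ⟨t, ht, rfl⟩
    exact ⟨t, (h1 t ht).2⟩
  · rw [integral_image_eq_integral_abs_deriv_smul hO.measurableSet
      (fun t ht => (h2 t ht).2.hasDerivAt.hasDerivWithinAt) h3,
      intervalIntegral.integral_of_le zero_le_one, integral_Ioc_eq_integral_Ioo,
      setIntegral_eq_of_subset_of_forall_sdiff_eq_zero (s := S) measurableSet_Ioo
        (fun t ht => ht.1) fun t ht => by
          rw [hz _ (h.mem t) fun h5 => ht.2 ⟨ht.1, h5⟩, zero_mul]]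
    refine setIntegral_congr_fun hO.measurableSet fun t ht => ?_
    simp only [h4 t ht, (h1 t ht).2, norm_smul, Real.norm_eq_abs, smul_eq_mul]
    ring

/-- Integrals over disjoint curves are bounded by the integral over the parameter line. -/
theorem sum_le {ι : Type*} [Fintype ι] {γ : ι → ℝ → M} {g' : ι → ℝ → E3}
    (h : ∀ i, L.Good (γ i) (g' i)) (hd : ∀ i j, i ≠ j → ∀ s t, γ i s ≠ γ j t) (q : M) {F : M → ℝ}
    (h0 : ∀ x ∈ K, 0 ≤ F x) (hz : ∀ x ∈ K, x ∉ L.β q '' L.I q → F x = 0)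
    (hi : IntegrableOn (fun s => F (L.β q s) * ‖L.v q s‖) (L.I q)) :
    ∑ i, ∫ t in (0 : ℝ)..1, F (γ i t) * ‖g' i t‖ ≤ ∫ s in L.I q, F (L.β q s) * ‖L.v q s‖ := by
  choose W h1 h2 h3 h4 using fun i => (h i).integral_eq q hz
  simp only [h4]
  rw [← integral_iUnion_fintype h1 (fun i j hij => disjoint_left.2 fun s hs hs' => ?_)
    fun i => hi.mono_set (h2 i)]
  · refine setIntegral_mono_set hi ?_ (iUnion_subset h2).eventuallyLE
    filter_upwards [ae_restrict_mem (L.opn q).measurableSet] with s hs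
    exact mul_nonneg (h0 _ (L.mem q s hs)) (norm_nonneg _)
  · obtain ⟨a, ha⟩ := h3 i s hs
    obtain ⟨b, hb⟩ := h3 j s hs'
    exact hd i j hij a b (ha.symm.trans hb)

end LineAtlas

end Pool.Agent.Lib.MP_14b623_gt
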