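import Pool.Agent.Lib.MP_14b623_gt.GFirst
import Pool.Agent.Lib.MP_14b623_gt.GLine

/-! The boundary of a free boundary minimal surface as a one dimensional atlas. -/

namespace Pool.Agent.Lib.MP_14b623_gt

open Set MeasureTheory Filter Topology Function
open scoped InnerProductSpace Manifold ContDiff

lemma LineAtlas.Good.continuous {M : Type*} [TopologicalSpace M] {φ : M → E3} {K : Set M}
    {L : LineAtlas φ K} {γ : ℝ → M} {g' : ℝ → E3} (h : L.Good γ g') : Continuous γ :=
  continuous_iff_continuousAt.2 fun t => by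
    obtain ⟨s, hs, e, -⟩ := L.cover _ (h.mem t)
    obtain ⟨k, hk, hk'⟩ := h.loc (γ t) t ⟨s, hs, e⟩
    exact (((L.cont _).continuousAt ((L.opn _).mem_nhds hk'.self_of_nhds.1)).comp
      hk.continuousAt).congr (hk'.mono fun r hr => hr.2.symm)

variable {M : Type} [TopologicalSpace M] [ChartedSpace (EuclideanHalfSpace 2) M]
  [IsManifold (𝓡∂ 2) ∞ M]

lemma bdry_eq {p x : M} (hx : x ∈ (ch p).source) (hb : x ∈ (𝓡∂ 2).boundary M) :
    ln (ch p x 1) ∈ (ch p).target ∧ x = (ch p).symm (ln (ch p x 1)) := by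
  rw [ln_eq ((bdry_iff hx).1 hb), (ch p).left_inv hx]
  exact ⟨(ch p).map_source hx, rfl⟩

lemma bdry_ln {q : M} {s : ℝ} (hs : ln s ∈ (ch q).target) :
    (ch q).symm (ln s) ∈ (𝓡∂ 2).boundary M :=
  (bdry_iff ((ch q).map_target hs)).2 (by rw [(ch q).right_inv hs, ln_zero])

/-- The boundary lines of the charts. -/
noncomputable def IsFBMS.atlas {φ : M → E3} (h : IsFBMS φ) :
    LineAtlas φ ((𝓡∂ 2).boundary M) where
  I q := {s | ln s ∈ (ch q).target}
  β q s := (ch q).symm (ln s)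
  v q s := pd 1 (inChart φ q) (ln s)
  opn q := rel_line_open (ch_sub q) (ch_nhds q)
  inj q a ha b hb hab := by
    have := (ch q).symm.injOn ha hb hab
    rw [← ln_one a, this, ln_one]
  cont q := (continuousOn_extChartAt_symm q).comp continuous_ln.continuousOn fun _ hs => hs
  mem q s hs := bdry_ln hs
  der q s hs := (h.patch q).hasDerivAt_line hs
  vc q :=
    ((h.patch q).contDiffOn_pd 1).continuousOn.comp continuous_ln.continuousOn fun _ hs => hs
  vne q s hs h0 := by
    have := (h.patch q).inj _ hs (h0.trans (map_zero _).symm)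
    simp at this
  cover b hb := by
    obtain ⟨h1, h2⟩ := bdry_eq (mem_extChartAt_source b) hb
    refine ⟨_, h1, h2.symm, fun U hU => ?_⟩
    have h3 : ContinuousAt (fun x => ch b x 1) b :=
      (EuclideanSpace.proj (𝕜 := ℝ) (1 : Fin 2)).continuous.continuousAt.comp
        (continuousAt_extChartAt b)
    filter_upwards [nhdsWithin_le_nhds (h3 hU),
      nhdsWithin_le_nhds (extChartAt_source_mem_nhds (I := 𝓡∂ 2) b), self_mem_nhdsWithin]
      with x h4 h5 h6
    exact ⟨_, h4, (bdry_eq h5 h6).2.symm⟩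
  trans p q s hs hq := by
    obtain ⟨s', hs', e⟩ := hq
    have hx : (ch p).symm (ln s) ∈ (ch q).source := e ▸ (ch q).map_target hs'
    have h1 : ∀ᶠ r in 𝓝 s, ln r ∈ (ch p).target :=
      (rel_line_open (ch_sub p) (ch_nhds p)).mem_nhds hs
    have h2 : ∀ᶠ r in 𝓝 s, (ch p).symm (ln r) ∈ (ch q).source :=
      (((continuousOn_extChartAt_symm p).comp continuous_ln.continuousOn
        fun _ hs => hs).continuousAt h1).eventually (extChartAt_source_mem_nhds' hx)
    refine ⟨fun r => ch q ((ch p).symm (ln r)) 1, ?_⟩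
    filter_upwards [h1, h2] with r h1 h2
    refine ⟨?_, bdry_eq h2 (bdry_ln h1)⟩
    have h3 := ch_trans ((ch p).map_target h1) h2
    rw [(ch p).right_inv h1] at h3
    have h4 := h3.comp r (hasDerivAt_ln r).differentiableAt.differentiableWithinAt
      (fun z (_ : z ∈ univ) => ln_mem z)
    rw [differentiableWithinAt_univ] at h4
    exact (EuclideanSpace.proj (𝕜 := ℝ) (1 : Fin 2)).differentiableAt.comp r h4

lemma IsBdryCurve.good {φ : M → E3} (h : IsFBMS φ) {c : ℝ → M} (hc : IsBdryCurve φ c) :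
    h.atlas.Good c (deriv (φ ∘ c)) := by
  refine h.atlas.good_of_local hc.periodic hc.inj hc.regular fun t => ?_
  have : IsManifold (𝓡∂ 2) 2 M := IsManifold.of_le (n := ∞)
    (WithTop.coe_le_coe.2 (le_top : (2 : ℕ∞) ≤ ⊤))
  have h1 : ContDiffAt ℝ 2 (ch (c t) ∘ c) t :=
    contMDiffAt_iff_contDiffAt.1 (contMDiffAt_extChartAt.comp t (hc.smooth t))
  have h2 : ContDiffAt ℝ 1 (fun r => ch (c t) (c r) 1) t :=
    (EuclideanSpace.proj (𝕜 := ℝ) (1 : Fin 2)).contDiff.contDiffAt.comp t (h1.of_le (by norm_num))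
  obtain ⟨f', u, hu, h3, h4⟩ := contDiffAt_one_iff.1 h2
  refine ⟨c t, fun r => ch (c t) (c r) 1, fun r => f' r 1,
    (h3.continuousAt hu).clm_apply continuousAt_const, ?_⟩
  filter_upwards [hu, hc.smooth.continuous.continuousAt.eventually
    (extChartAt_source_mem_nhds (I := 𝓡∂ 2) (c t))] with r h5 h6
  exact ⟨(bdry_eq h6 (hc.mem r)).1, (bdry_eq h6 (hc.mem r)).2, (h4 r h5).hasDerivAt⟩

variable [T2Space M] [CompactSpace M]

/-- Distinct boundary components carry disjoint regular closed curves. -/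
lemma IsFBMS.exists_curves {φ : M → E3} (h : IsFBMS φ) {n : ℕ}
    (hn : (n : ℕ∞) ≤ ENat.card (ConnectedComponents ((𝓡∂ 2).boundary M))) :
    ∃ (γ : Fin n → ℝ → M) (g' : Fin n → ℝ → E3), (∀ i, h.atlas.Good (γ i) (g' i)) ∧
      ∀ i j, i ≠ j → ∀ s t, γ i s ≠ γ j t := by
  obtain ⟨f⟩ : Nonempty (Fin n ↪ ConnectedComponents ((𝓡∂ 2).boundary M)) := by
    rcases finite_or_infinite (ConnectedComponents ((𝓡∂ 2).boundary M)) with hf | hf
    · have := Fintype.ofFinite (ConnectedComponents ((𝓡∂ 2).boundary M))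
      rw [ENat.card_eq_coe_fintype_card, Nat.cast_le] at hn
      exact Function.Embedding.nonempty_of_card_le (by simpa using hn)
    · exact ⟨Fin.valEmbedding.trans (Infinite.natEmbedding _)⟩
  choose x hx using fun i => ConnectedComponents.surjective_coe (f i)
  have hK : IsCompact ((𝓡∂ 2).boundary M) :=
    (ModelWithCorners.isClosed_boundary (I := 𝓡∂ 2) (M := M) (n := ∞) (by simp)).isCompact
  choose γ g' h0 hc hg using fun i => h.atlas.exists_good hK (x i).2
  have key : ∀ i t, ConnectedComponents.mk (⟨γ i t, (hg i).mem t⟩ : (𝓡∂ 2).boundary M) = f i :=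
    fun i t => by
      have h1 : Continuous fun t =>
          ConnectedComponents.mk (⟨γ i t, (hg i).mem t⟩ : (𝓡∂ 2).boundary M) :=
        ConnectedComponents.continuous_coe.comp ((hc i).subtype_mk _)
      rw [← hx i, (isPreconnected_range h1).subsingleton (mem_range_self t) (mem_range_self 0)]
      congr 1
      exact Subtype.ext (h0 i)
  refine ⟨γ, g', hg, fun i j hij s t e => hij (f.injective ?_)⟩
  rw [← key i s, ← key j t]
  congr 1
  exact Subtype.ext e

variable [MeasurableSpace M] [BorelSpace M]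

/-- First variation, read on disjoint boundary curves. -/
theorem IsFBMS.key {φ : M → E3} (h : IsFBMS φ) {η : E3 → E3} (hη : DivLe η)
    (h0 : ∀ x : E3, ‖x‖ = 1 → 0 ≤ ⟪η x, x⟫_ℝ) {ι : Type*} [Fintype ι] {γ : ι → ℝ → M}
    {g' : ι → ℝ → E3} (hg : ∀ i, h.atlas.Good (γ i) (g' i))
    (hd : ∀ i j, i ≠ j → ∀ s t, γ i s ≠ γ j t) :
    ∑ i, ∫ t in (0 : ℝ)..1, ⟪η (φ (γ i t)), φ (γ i t)⟫_ℝ * ‖g' i t‖ ≤ surfaceArea φ := by
  obtain ⟨F, ρ, hρ, hρ0, hs, h1⟩ := exists_pou (M := M)
  have hφ : Continuous φ := h.smooth.continuous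
  have hψ : Continuous fun x => ⟪η (φ x), φ x⟫_ℝ := (continuous_iff_continuousAt.2 fun x =>
    (hη.smooth _ (h.inBall x)).continuousAt.comp hφ.continuousAt).inner hφ
  refine le_trans ?_ (first_variation h hη hρ hρ0 hs h1)
  have e : ∀ i, ∫ t in (0 : ℝ)..1, ⟪η (φ (γ i t)), φ (γ i t)⟫_ℝ * ‖g' i t‖ =
      ∑ q ∈ F, ∫ t in (0 : ℝ)..1, ρ q (γ i t) * ⟪η (φ (γ i t)), φ (γ i t)⟫_ℝ * ‖g' i t‖ :=
    fun i => by
      have hi : ∀ q ∈ F, IntervalIntegrable
          (fun t => ρ q (γ i t) * ⟪η (φ (γ i t)), φ (γ i t)⟫_ℝ * ‖g' i t‖) volume 0 1 :=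
        fun q _ => ((((hρ q).continuous.mul hψ).comp (hg i).continuous).mul
          (hg i).cont.norm).intervalIntegrable 0 1
      rw [← intervalIntegral.integral_finsetSum hi]
      refine intervalIntegral.integral_congr fun t _ => ?_
      simp only [← Finset.sum_mul, h1, one_mul]
  simp only [e]
  rw [Finset.sum_comm]
  refine Finset.sum_le_sum fun q _ => ?_
  refine LineAtlas.sum_le hg hd q (F := fun x => ρ q x * ⟪η (φ x), φ x⟫_ℝ)
    (fun x hx => mul_nonneg (hρ0 q x) (h0 _ (h.bdry x hx))) (fun x hx hx' => ?_) ?_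
  · rw [image_eq_zero_of_notMem_tsupport (f := ρ q) (x := x) fun h2 => hx' ?_, zero_mul]
    exact ⟨_, (bdry_eq (hs q h2) hx).1, (bdry_eq (hs q h2) hx).2.symm⟩
  · refine integrableOn_line (K := ch q '' tsupport (ρ q))
      (f := fun y => ρ q ((ch q).symm y) * ⟪η (φ ((ch q).symm y)), φ ((ch q).symm y)⟫_ℝ *
        ‖pd 1 (inChart φ q) y‖) (rel_meas (ch_sub q) (ch_nhds q))
      ((isClosed_tsupport _).isCompact.image_of_continuousOn
        ((continuousOn_extChartAt q).mono (hs q))) ?_ ?_ fun y hy => ?_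
    · rintro _ ⟨x, hx, rfl⟩
      exact (ch q).map_source (hs q hx)
    · exact (((hρ q).continuous.mul hψ).comp_continuousOn (continuousOn_extChartAt_symm q)).mul
        ((h.patch q).contDiffOn_pd 1).continuousOn.norm
    · rw [image_eq_zero_of_notMem_tsupport fun h2 => hy.2 ⟨_, h2, (ch q).right_inv hy.1⟩,
        zero_mul, zero_mul]

end Pool.Agent.Lib.MP_14b623_gt
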