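import Pool.Agent.Lib.MP_14b623_gt.Defs
import Mathlib.Geometry.Manifold.Instances.Real
import Mathlib.Geometry.Manifold.MFDeriv.Defs
import Mathlib.MeasureTheory.Measure.Haar.InnerProductSpace
import Mathlib.MeasureTheory.Measure.WithDensity

/-!
Immersed free boundary minimal surfaces in the closed unit ball of `ℝ³`, defined on an arbitrary
surface with boundary `M` (a manifold modelled on the closed half plane).
-/

namespace Pool.Agent.Lib.MP_14b623_gt

open Set MeasureTheory
open scoped Manifold InnerProductSpace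

/-- The Euclidean plane. -/
abbrev E2 := EuclideanSpace ℝ (Fin 2)

/-- Partial derivative in the `i`-th coordinate, taken within the closed half plane `0 ≤ y 0`. -/
noncomputable def pd (i : Fin 2) (X : E2 → E3) (y : E2) : E3 :=
  fderivWithin ℝ X {z : E2 | 0 ≤ z 0} y (EuclideanSpace.single i 1)

/-- Coefficients `g i j` of the first fundamental form of `X` at `y`. -/
noncomputable def fff (X : E2 → E3) (i j : Fin 2) (y : E2) : ℝ := ⟪pd i X y, pd j X y⟫_ℝ

/-- The area element `√(E G - F²)` of `X` at `y`. -/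
noncomputable def areaEl (X : E2 → E3) (y : E2) : ℝ :=
  √(fff X 0 0 y * fff X 1 1 y - fff X 0 1 y ^ 2)

/-- The differential at `x` of a vector valued map `φ` on a manifold, applied to `v`. -/
noncomputable def mder {E F H M : Type} [NormedAddCommGroup E] [NormedSpace ℝ E]
    [NormedAddCommGroup F] [NormedSpace ℝ F] [TopologicalSpace H] (I : ModelWithCorners ℝ E H)
    [TopologicalSpace M] [ChartedSpace H M] (φ : M → F) (x : M) (v : E) : F :=
  mfderiv I 𝓘(ℝ, F) φ x v

variable {M : Type} [TopologicalSpace M] [ChartedSpace (EuclideanHalfSpace 2) M]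

/-- The map `φ` read in the chart of `M` at the point `p`. -/
noncomputable def inChart (φ : M → E3) (p : M) : E2 → E3 := φ ∘ (extChartAt (𝓡∂ 2) p).symm

/-- `φ : M → ℝ³` is an immersed free boundary minimal surface in the closed unit ball: a `C²`
immersion into the ball which sends `∂M` into the unit sphere, has vanishing mean curvature
(`E g - 2 F f + G e = 0` in every chart, for the second fundamental form `e, f, g` with respect to
any normal vector `N`), and meets the sphere orthogonally along `∂M` (the normal `φ x` of the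
sphere is tangent to the surface, so it is the conormal up to sign). -/
structure IsFBMS (φ : M → E3) : Prop where
  smooth : ContMDiff (𝓡∂ 2) 𝓘(ℝ, E3) 2 φ
  immersion : ∀ x : M, Function.Injective (mder (𝓡∂ 2) φ x)
  inBall : ∀ x : M, ‖φ x‖ ≤ 1
  bdry : ∀ x ∈ (𝓡∂ 2).boundary M, ‖φ x‖ = 1
  minimal : ∀ p : M, ∀ y ∈ (extChartAt (𝓡∂ 2) p).target, ∀ N : E3,
    ⟪N, pd 0 (inChart φ p) y⟫_ℝ = 0 → ⟪N, pd 1 (inChart φ p) y⟫_ℝ = 0 →
    fff (inChart φ p) 0 0 y * ⟪N, pd 1 (pd 1 (inChart φ p)) y⟫_ℝ
      - 2 * fff (inChart φ p) 0 1 y * ⟪N, pd 1 (pd 0 (inChart φ p)) y⟫_ℝ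
      + fff (inChart φ p) 1 1 y * ⟪N, pd 0 (pd 0 (inChart φ p)) y⟫_ℝ = 0
  orth : ∀ x ∈ (𝓡∂ 2).boundary M, ∃ v, mder (𝓡∂ 2) φ x v = φ x

/-- `c : ℝ → M` is a regular simple closed curve of class `C²` in `∂M`, of period one; its image is
a connected component of `∂M`. -/
structure IsBdryCurve (φ : M → E3) (c : ℝ → M) : Prop where
  smooth : ContMDiff 𝓘(ℝ, ℝ) (𝓡∂ 2) 2 c
  periodic : Function.Periodic c 1
  inj : InjOn c (Ico 0 1)
  mem : ∀ t, c t ∈ (𝓡∂ 2).boundary M
  regular : ∀ t, deriv (φ ∘ c) t ≠ 0

/-- Length of the closed curve `φ ∘ c`. -/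
noncomputable def curveLength (φ : M → E3) (c : ℝ → M) : ℝ :=
  ∫ t in (0 : ℝ)..1, ‖deriv (φ ∘ c) t‖

variable [MeasurableSpace M]

/-- The measure `√(E G - F²) dy₀ dy₁` on the domain of the chart at `p`. -/
noncomputable def chartArea (φ : M → E3) (p : M) : Measure M :=
  ((volume.restrict (extChartAt (𝓡∂ 2) p).target).withDensity
    fun y => ENNReal.ofReal (areaEl (inChart φ p) y)).map (extChartAt (𝓡∂ 2) p).symm

/-- The area measure of the induced metric: the least measure on `M` above all the chart
measures (which agree where charts overlap). -/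
noncomputable def areaMeasure (φ : M → E3) : Measure M := ⨆ p : M, chartArea φ p

/-- The area of `M` in the metric induced by `φ`. -/
noncomputable def surfaceArea (φ : M → E3) : ℝ := (areaMeasure φ univ).toReal

end Pool.Agent.Lib.MP_14b623_gt
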