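import Mathlib
import Pool.Agent.Lib.MP_14b623_gt.GDefs

/-! Internal definitions for the first variation formula. -/

namespace Pool.Agent.Lib.MP_14b623_gt

open Set MeasureTheory Filter Topology
open scoped InnerProductSpace

/-- The closed half plane. -/
abbrev HP : Set E2 := {z : E2 | 0 ≤ z 0}

/-- Coordinate vectors of the plane. -/
noncomputable abbrev ev (i : Fin 2) : E2 := EuclideanSpace.single i 1

/-- The boundary line of the half plane. -/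
noncomputable def ln (s : ℝ) : E2 := s • ev 1

/-- Area factor of the pair `a, b`. -/
noncomputable def jac (a b : E3) : ℝ := √(⟪a, a⟫_ℝ * ⟪b, b⟫_ℝ - ⟪a, b⟫_ℝ ^ 2)

/-- `J g^{0j} X_j`. -/
noncomputable def wv0 (a b : E3) : E3 := (jac a b)⁻¹ • (⟪b, b⟫_ℝ • a - ⟪a, b⟫_ℝ • b)

/-- `J g^{1j} X_j`. -/
noncomputable def wv1 (a b : E3) : E3 := (jac a b)⁻¹ • (⟪a, a⟫_ℝ • b - ⟪a, b⟫_ℝ • a)

/-- Derivative of a function with differential `L` along the tangential part of `z`, for a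
parametrisation with differential `A`. -/
noncomputable def dv (A : E2 →L[ℝ] E3) (L : E2 →L[ℝ] ℝ) (z : E3) : ℝ :=
  (L (ev 0) * ⟪z, wv0 (A (ev 0)) (A (ev 1))⟫_ℝ + L (ev 1) * ⟪z, wv1 (A (ev 0)) (A (ev 1))⟫_ℝ) /
    jac (A (ev 0)) (A (ev 1))

/-- A piece of a free boundary minimal surface over a relatively open subset of the half plane. -/
structure Patch (T : Set E2) (X : E2 → E3) : Prop where
  sub : T ⊆ HP
  nhds : ∀ y ∈ T, T ∈ 𝓝[HP] y
  smooth : ContDiffOn ℝ 2 X T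
  inj : ∀ y ∈ T, Function.Injective (fderivWithin ℝ X HP y)
  ball : ∀ y ∈ T, ‖X y‖ ≤ 1
  bdry : ∀ y ∈ T, y 0 = 0 → ‖X y‖ = 1
  minimal : ∀ y ∈ T, ∀ N : E3, ⟪N, pd 0 X y⟫_ℝ = 0 → ⟪N, pd 1 X y⟫_ℝ = 0 →
    fff X 0 0 y * ⟪N, pd 1 (pd 1 X) y⟫_ℝ - 2 * fff X 0 1 y * ⟪N, pd 1 (pd 0 X) y⟫_ℝ
      + fff X 1 1 y * ⟪N, pd 0 (pd 0 X) y⟫_ℝ = 0
  orth : ∀ y ∈ T, y 0 = 0 → ∃ v, fderivWithin ℝ X HP y v = X y

/-- A `C¹` vector field on the ball whose divergence along every plane is at most one. -/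
structure DivLe (η : E3 → E3) : Prop where
  smooth : ∀ x : E3, ‖x‖ ≤ 1 → ContDiffAt ℝ 1 η x
  le : ∀ x : E3, ‖x‖ ≤ 1 → ∀ u v : E3, ‖u‖ = 1 → ‖v‖ = 1 → ⟪u, v⟫_ℝ = 0 →
    ⟪fderiv ℝ η x u, u⟫_ℝ + ⟪fderiv ℝ η x v, v⟫_ℝ ≤ 1

lemma areaEl_eq (X : E2 → E3) (y : E2) : areaEl X y = jac (pd 0 X y) (pd 1 X y) := rfl

lemma pd_eq (i : Fin 2) (X : E2 → E3) (y : E2) : pd i X y = fderivWithin ℝ X HP y (ev i) := rfl

@[simp] lemma ln_zero (s : ℝ) : ln s 0 = 0 := by simp [ln]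

@[simp] lemma ln_one (s : ℝ) : ln s 1 = s := by simp [ln]

lemma ln_mem (s : ℝ) : ln s ∈ HP := by simp

lemma ln_eq {y : E2} (h : y 0 = 0) : ln (y 1) = y := by
  ext i
  fin_cases i
  · simpa using h.symm
  · simp

lemma hasDerivAt_ln (s : ℝ) : HasDerivAt ln (ev 1) s := by
  have := (hasDerivAt_id s).smul_const (ev 1)
  rw [one_smul] at this
  exact this

lemma continuous_ln : Continuous ln :=
  continuous_iff_continuousAt.2 fun s => (hasDerivAt_ln s).continuousAt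

lemma e2_eq (y : E2) : y = y 0 • ev 0 + y 1 • ev 1 := by
  ext i
  fin_cases i <;> simp

lemma convex_HP : Convex ℝ HP := fun x hx y hy a b ha hb _ => by
  have hx' : 0 ≤ x 0 := hx
  have hy' : 0 ≤ y 0 := hy
  change 0 ≤ a * x 0 + b * y 0
  positivity

lemma isClosed_HP : IsClosed HP :=
  isClosed_le continuous_const (EuclideanSpace.proj (𝕜 := ℝ) (0 : Fin 2)).continuous

lemma isOpen_pos : IsOpen {y : E2 | 0 < y 0} :=
  isOpen_lt continuous_const (EuclideanSpace.proj (𝕜 := ℝ) (0 : Fin 2)).continuous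

lemma HP_mem_nhds {y : E2} (h : 0 < y 0) : HP ∈ 𝓝 y :=
  mem_of_superset (isOpen_pos.mem_nhds h) fun z (hz : 0 < z 0) => (hz.le : 0 ≤ z 0)

lemma uniqueDiffOn_HP : UniqueDiffOn ℝ HP :=
  uniqueDiffOn_convex convex_HP ⟨ev 0, mem_interior_iff_mem_nhds.2 (HP_mem_nhds (by simp))⟩

section rel

variable {T : Set E2} (hs : T ⊆ HP) (hn : ∀ y ∈ T, T ∈ 𝓝[HP] y)
include hs hn

lemma rel_nhds {y : E2} (hy : y ∈ T) : 𝓝[T] y = 𝓝[HP] y :=
  le_antisymm (nhdsWithin_mono _ hs) (nhdsWithin_le_iff.2 (hn y hy))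

lemma rel_open : ∃ U : Set E2, IsOpen U ∧ T = U ∩ HP := by
  choose! U h1 h2 h3 using fun y hy => mem_nhdsWithin.1 (hn y hy)
  refine ⟨⋃ y ∈ T, U y, isOpen_biUnion h1, Subset.antisymm (fun y hy => ⟨?_, hs hy⟩) ?_⟩
  · exact mem_biUnion hy (h2 y hy)
  · rintro z ⟨hz, hz'⟩
    obtain ⟨y, hy, hz⟩ := mem_iUnion₂.1 hz
    exact h3 y hy ⟨hz, hz'⟩

lemma rel_meas : MeasurableSet T := by
  obtain ⟨U, hU, rfl⟩ := rel_open hs hn
  exact hU.measurableSet.inter isClosed_HP.measurableSet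

lemma rel_unique : UniqueDiffOn ℝ T := by
  obtain ⟨U, hU, rfl⟩ := rel_open hs hn
  rw [inter_comm]
  exact uniqueDiffOn_HP.inter hU

lemma rel_line_open : IsOpen {s : ℝ | ln s ∈ T} := by
  obtain ⟨U, hU, rfl⟩ := rel_open hs hn
  have : {s : ℝ | ln s ∈ U ∩ HP} = ln ⁻¹' U := by
    ext s
    exact ⟨fun h => h.1, fun h => ⟨h, ln_mem s⟩⟩
  rw [this]
  exact hU.preimage continuous_ln

lemma rel_fderiv {F : Type*} [NormedAddCommGroup F] [NormedSpace ℝ F] (f : E2 → F) {y : E2}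
    (hy : y ∈ T) : fderivWithin ℝ f T y = fderivWithin ℝ f HP y :=
  fderivWithin_congr_set (nhdsWithin_eq_iff_eventuallyEq.1 (rel_nhds hs hn hy))

omit hs in
lemma rel_hasFDeriv {F : Type*} [NormedAddCommGroup F] [NormedSpace ℝ F] {f : E2 → F}
    {n : WithTop ℕ∞} (hf : ContDiffOn ℝ n f T) (h1 : 1 ≤ n) {y : E2} (hy : y ∈ T) :
    HasFDerivWithinAt f (fderivWithin ℝ f HP y) HP y :=
  (((hf.differentiableOn (by rintro rfl; simp at h1)) y hy).mono_of_mem_nhdsWithin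
    (hn y hy)).hasFDerivWithinAt

/-- The one sided derivative of a `C^{m+1}` map is `C^m`. -/
lemma rel_contDiff {F : Type*} [NormedAddCommGroup F] [NormedSpace ℝ F] {f : E2 → F}
    {m n : WithTop ℕ∞} (hf : ContDiffOn ℝ n f T) (h : m + 1 ≤ n) :
    ContDiffOn ℝ m (fderivWithin ℝ f HP) T :=
  (hf.fderivWithin (rel_unique hs hn) h).congr fun _ hy => (rel_fderiv hs hn f hy).symm

end rel

end Pool.Agent.Lib.MP_14b623_gt
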