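import Pool.Agent.Lib.MP_14b623_gt.GCDefs
import Pool.Agent.Lib.MP_14b623_gt.GCDefsEq

/-! Kronecker substitution: the digits of the packed value are the coefficients. -/

namespace Pool.Agent.Lib.MP_14b623_gt

open Finset

open Polynomial in
/-- A pair of ghost polynomials over the natural numbers describes both values. -/
def GKron_gh (f : ℕ → ℕ → ℕ × ℕ) (g : ℝ → ℝ → ℝ) : Prop :=
  ∃ P R : ℕ[X][X], (∀ x y : ℕ, f x y =
      (eval₂RingHom (evalRingHom y) x P, eval₂RingHom (evalRingHom y) x R)) ∧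
    ∀ x y : ℝ, g x y = eval₂RingHom (eval₂RingHom (Nat.castRingHom ℝ) y) x P
      - eval₂RingHom (eval₂RingHom (Nat.castRingHom ℝ) y) x R

theorem GKron_c (z : ℤ) : GKron_gh (fun _ _ => pC z) (fun _ _ => z) := by
  cases z with
  | ofNat n => exact ⟨n, 0, fun x y => by simp [pC], fun x y => by simp⟩
  | negSucc n =>
    exact ⟨0, (n + 1 : ℕ), fun x y => by simp only [pC, map_natCast, map_zero]; rfl,
      fun x y => by simp only [map_natCast, map_zero, Int.cast_negSucc, zero_sub]⟩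

theorem GKron_add {f f' : ℕ → ℕ → ℕ × ℕ} {g g' : ℝ → ℝ → ℝ} (h : GKron_gh f g)
    (h' : GKron_gh f' g') :
    GKron_gh (fun x y => pAdd (f x y) (f' x y)) (fun x y => g x y + g' x y) := by
  obtain ⟨P, R, h1, h2⟩ := h
  obtain ⟨P', R', h1', h2'⟩ := h'
  refine ⟨P + P', R + R', fun x y => ?_, fun x y => ?_⟩
  · simp only [h1, h1', pAdd, map_add, Nat.add_eq]
  · simp only [h2, h2', map_add]; ring

theorem GKron_mul {f f' : ℕ → ℕ → ℕ × ℕ} {g g' : ℝ → ℝ → ℝ} (h : GKron_gh f g)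
    (h' : GKron_gh f' g') :
    GKron_gh (fun x y => pMul (f x y) (f' x y)) (fun x y => g x y * g' x y) := by
  obtain ⟨P, R, h1, h2⟩ := h
  obtain ⟨P', R', h1', h2'⟩ := h'
  refine ⟨P * P' + R * R', P * R' + R * P', fun x y => ?_, fun x y => ?_⟩
  · simp only [h1, h1', pMul, map_add, map_mul, Nat.add_eq, Nat.mul_eq]
  · simp only [h2, h2', map_add, map_mul]; ring

theorem GKron_zero : GKron_gh (fun _ _ => (0, 0)) (fun _ _ => 0) :=
  ⟨0, 0, fun x y => by simp, fun x y => by simp⟩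

theorem GKron_h1 {f : ℕ → ℕ → ℕ × ℕ} {g : ℝ → ℝ → ℝ} (h : GKron_gh f g) (l : List ℤ) :
    GKron_gh (fun x y => pH1 (f x y) l) (fun x y => ev1 l (g x y)) := by
  induction l with
  | nil => exact GKron_zero
  | cons c cs ih => exact GKron_add (GKron_c c) (GKron_mul h ih)

theorem GKron_h2 {f f' : ℕ → ℕ → ℕ × ℕ} {g g' : ℝ → ℝ → ℝ} (h : GKron_gh f g)
    (h' : GKron_gh f' g') (L : List (List ℤ)) :
    GKron_gh (fun x y => pH2 (f x y) (f' x y) L) (fun x y => ev2 L (g x y) (g' x y)) := by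
  induction L with
  | nil => exact GKron_zero
  | cons r rs ih => exact GKron_add (GKron_h1 h' r) (GKron_mul h ih)

open Polynomial in
theorem GKron_ex (E : Ex) : GKron_gh (fun x y => E.n x y) (fun x y => E.r x y) := by
  induction E with
  | c z => exact GKron_c z
  | x => exact ⟨X, 0, fun x y => by simp [Ex.n], fun x y => by simp [Ex.r]⟩
  | y => exact ⟨C X, 0, fun x y => by simp [Ex.n], fun x y => by simp [Ex.r]⟩
  | add a b ha hb => exact GKron_add ha hb
  | mul a b ha hb => exact GKron_mul ha hb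
  | neg a ha =>
    obtain ⟨P, R, h1, h2⟩ := ha
    refine ⟨R, P, fun x y => ?_, fun x y => ?_⟩
    · have := h1 x y
      simp only [Ex.n] at this ⊢
      rw [this]
    · have := h2 x y
      simp only [Ex.r] at this ⊢
      rw [this, neg_sub]
  | hor L u q hu hq => exact GKron_h2 hu hq L

open Polynomial in
theorem GKron_le (p : ℕ[X]) (b k : ℕ) : p.coeff k * b ^ k ≤ p.eval b := by
  by_cases hk : k ∈ p.support
  · rw [eval_eq_sum, Polynomial.sum]
    exact single_le_sum (f := fun i => p.coeff i * b ^ i) (fun _ _ => Nat.zero_le _) hk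
  · rw [notMem_support_iff.1 hk, zero_mul]
    exact Nat.zero_le _

open Polynomial in
theorem GKron_dig (b k : ℕ) : ∀ p : ℕ[X], (∀ i, p.coeff i < b) →
    p.eval b / b ^ k % b = p.coeff k := by
  have e : ∀ p : ℕ[X], p.eval b = p.coeff 0 + b * p.divX.eval b := fun p => by
    conv_lhs => rw [← divX_mul_X_add p]
    simp only [eval_add, eval_mul, eval_X, eval_C]
    ring
  induction k with
  | zero =>
    intro p hp
    rw [pow_zero, Nat.div_one, e, Nat.add_mul_mod_self_left, Nat.mod_eq_of_lt (hp 0)]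
  | succ k ih =>
    intro p hp
    have hb : 0 < b := (Nat.zero_le _).trans_lt (hp 0)
    rw [pow_succ', ← Nat.div_div_eq_div_mul, e, Nat.add_mul_div_left _ _ hb,
      Nat.div_eq_of_lt (hp 0), zero_add, ih _ fun i => by rw [coeff_divX]; exact hp _, coeff_divX]

open Polynomial in
theorem GKron_deg (p : ℕ[X]) {b n : ℕ} (hb : 0 < b) (h : p.eval b < b ^ (n + 1)) :
    p.natDegree < n + 1 := by
  refine Nat.lt_succ_of_le (natDegree_le_iff_coeff_eq_zero.2 fun i hi => ?_)
  by_contra h0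
  exact absurd ((Nat.pow_le_pow_right hb hi).trans
    ((Nat.le_mul_of_pos_left _ (Nat.pos_of_ne_zero h0)).trans (GKron_le p b i))) (not_le.2 h)

open Polynomial in
theorem GKron_core (P : ℕ[X][X]) (n m w e : ℕ) (he : e ≤ w)
    (h1 : eval₂RingHom (evalRingHom 1) 1 P < 2 ^ e)
    (h2 : eval₂RingHom (evalRingHom (2 ^ w)) 1 P < 2 ^ (w * (m + 1)))
    (h3 : eval₂RingHom (evalRingHom (2 ^ w)) (2 ^ (w * (m + 1))) P <
      2 ^ (w * ((n + 1) * (m + 1)))) :
    (∀ k, dig w (eval₂RingHom (evalRingHom (2 ^ w)) (2 ^ (w * (m + 1))) P) k < 2 ^ e) ∧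
    ∀ x y : ℝ, eval₂RingHom (eval₂RingHom (Nat.castRingHom ℝ) y) x P =
      ∑ i ∈ range (n + 1), ∑ j ∈ range (m + 1),
        (dig w (eval₂RingHom (evalRingHom (2 ^ w)) (2 ^ (w * (m + 1))) P) (i * (m + 1) + j) : ℝ)
          * x ^ i * y ^ j := by
  simp only [coe_eval₂RingHom, ← eval_map, dig, pow_mul] at h1 h2 h3 ⊢
  have hw : 2 ^ e ≤ 2 ^ w := Nat.pow_le_pow_right two_pos he
  have hB : 0 < 2 ^ w := Nat.two_pow_pos w
  generalize 2 ^ w = B at *
  have row : ∀ y i : ℕ, (P.coeff i).eval y ≤ (P.map (evalRingHom y)).eval 1 := fun y i => by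
    simpa using GKron_le (P.map (evalRingHom y)) 1 i
  have hc : ∀ i j, (P.coeff i).coeff j < 2 ^ e := fun i j => by
    have := GKron_le (P.coeff i) 1 j
    rw [one_pow, mul_one] at this
    exact (this.trans (row 1 i)).trans_lt h1
  have hr : ∀ i, (P.coeff i).eval B < B ^ (m + 1) := fun i => (row B i).trans_lt h2
  have hd : ∀ i j, j < m + 1 → (P.map (evalRingHom B)).eval (B ^ (m + 1)) /
      B ^ (i * (m + 1) + j) % B = (P.coeff i).coeff j := fun i j hj => by
    have k1 := GKron_dig (B ^ (m + 1)) i (P.map (evalRingHom B)) fun i => by simpa using hr i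
    obtain ⟨l, hl⟩ := Nat.exists_eq_add_of_lt hj
    rw [coeff_map, coe_evalRingHom] at k1
    rw [← GKron_dig B j (P.coeff i) fun j => (hc i j).trans_le hw, ← k1,
      pow_add B (i * (m + 1)), mul_comm i,
      pow_mul, ← Nat.div_div_eq_div_mul]
    generalize (P.map (evalRingHom B)).eval (B ^ (m + 1)) / (B ^ (m + 1)) ^ i = a
    rw [hl, add_assoc, pow_add, Nat.mod_mul_right_div_self,
      Nat.mod_mod_of_dvd _ (dvd_pow_self B l.succ_ne_zero)]
  refine ⟨fun k => ?_, fun x y => ?_⟩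
  · have := hd (k / (m + 1)) (k % (m + 1)) (Nat.mod_lt _ m.succ_pos)
    rw [Nat.div_add_mod'] at this
    rw [this]
    exact hc _ _
  · rw [← pow_mul, mul_comm (n + 1), pow_mul] at h3
    have d1 := GKron_deg _ (pow_pos hB _) h3
    have d2 : P.natDegree < n + 1 := by
      refine Nat.lt_succ_of_le (natDegree_le_iff_coeff_eq_zero.2 fun i hi => ?_)
      have z := coeff_eq_zero_of_natDegree_lt (d1.trans_le hi)
      rw [coeff_map, coe_evalRingHom] at z
      ext j
      have := GKron_le (P.coeff i) B j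
      rw [z, Nat.le_zero, mul_eq_zero] at this
      exact this.resolve_right (pow_pos hB j).ne'
    rw [eval_map, eval₂_eq_sum_range' _ d2]
    refine sum_congr rfl fun i _ => ?_
    rw [coe_eval₂RingHom, eval₂_eq_sum_range' _ (GKron_deg _ hB (hr i)), sum_mul]
    refine sum_congr rfl fun j hj => ?_
    rw [hd i j (mem_range.1 hj), Nat.coe_castRingHom]
    ring

/-- Sketch. By induction on `E` (and on the lists for `hor`) there are `P, R : ℕ[X][X]` such that
for every commutative semiring evaluation `ev f x y := eval₂RingHom (eval₂RingHom f y) x` one has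
`E.n x y = (ev x y P, ev x y R)` over `ℕ` and `E.r x y = ev x y P - ev x y R` over `ℝ`.
For `P` with `P(1,1) < 2^e ≤ 2^w`, `P(1,B) < B^S`, `P(B^S,B) < B^((n+1) S)` (`B = 2^w`, `S = m+1`):
all coefficients are `≤ P(1,1)`, each row value `(P.coeff i)(B) ≤ P(1,B) < B^S`; a polynomial over
`ℕ` with coefficients `< b` has `eval b p / b^k % b = coeff k` (induction with `divX`), used for
`b = B^S` and `b = B`; coefficients with `j ≥ S` or `i > n` vanish, and digit `i S + j` of
`P(B^S,B)` is the coefficient `(i,j)`. -/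
theorem Ex.kron (E : Ex) (n m w e : ℕ) (he : e ≤ w)
    (h : exOk w (w * (m + 1)) (w * ((n + 1) * (m + 1))) e E = true) :
    (∀ k, dig w (E.n (2 ^ (w * (m + 1))) (2 ^ w)).1 k < 2 ^ e) ∧
    (∀ k, dig w (E.n (2 ^ (w * (m + 1))) (2 ^ w)).2 k < 2 ^ e) ∧
    (E.n (2 ^ (w * (m + 1))) (2 ^ w)).1 < 2 ^ (w * ((n + 1) * (m + 1))) ∧
    (E.n (2 ^ (w * (m + 1))) (2 ^ w)).2 < 2 ^ (w * ((n + 1) * (m + 1))) ∧
    ∀ x y : ℝ, E.r x y = ∑ i ∈ range (n + 1), ∑ j ∈ range (m + 1),
      ((dig w (E.n (2 ^ (w * (m + 1))) (2 ^ w)).1 (i * (m + 1) + j) : ℝ)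
        - dig w (E.n (2 ^ (w * (m + 1))) (2 ^ w)).2 (i * (m + 1) + j)) * x ^ i * y ^ j := by
  obtain ⟨P, R, h1, h2⟩ := GKron_ex E
  simp only [exOk, Bool.and_eq_true, Nat.blt_eq] at h
  simp only [h1] at h ⊢
  obtain ⟨⟨⟨⟨⟨a1, a2⟩, a3⟩, a4⟩, a5⟩, a6⟩ := h
  obtain ⟨b1, b2⟩ := GKron_core P n m w e he a1 a3 a5
  obtain ⟨c1, c2⟩ := GKron_core R n m w e he a2 a4 a6
  refine ⟨b1, c1, a5, a6, fun x y => ?_⟩
  rw [show E.r x y = _ from h2 x y, b2, c2, ← sum_sub_distrib]
  refine sum_congr rfl fun i _ => ?_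
  rw [← sum_sub_distrib]
  exact sum_congr rfl fun j _ => by ring

end Pool.Agent.Lib.MP_14b623_gt
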