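import Pool.Agent.Lib.MP_14b623_gt.GDig
import Pool.Agent.Lib.MP_14b623_gt.GKron

/-! De Casteljau operators on sequences and soundness of the checker. -/

namespace Pool.Agent.Lib.MP_14b623_gt

open Finset

/-- `α + β E_s`, where `E_s` is the shift by `s`. -/
noncomputable def op (s : ℕ) (α β : ℝ) (c : ℕ → ℝ) : ℕ → ℝ := fun k => α * c k + β * c (k + s)

theorem op_comm (s s' : ℕ) (α β α' β' : ℝ) (n m : ℕ) (c : ℕ → ℝ) :
    (op s α β)^[n] ((op s' α' β')^[m] c) = (op s' α' β')^[m] ((op s α β)^[n] c) := by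
  have h : Function.Commute (op s α β) (op s' α' β') := fun c => funext fun k => by
    simp only [op, add_right_comm k s s']
    ring
  exact h.iterate_iterate n m c

theorem gBern_succ (s : ℕ) (α β : ℝ) (c : ℕ → ℝ) (n k : ℕ) : (op s α β)^[n + 1] c k =
    α * (op s α β)^[n] c k + β * (op s α β)^[n] c (k + s) := by
  rw [Function.iterate_succ_apply']
  rfl

theorem gBern_idx (k s j : ℕ) : k + s + j * s = k + (j + 1) * s := by ring

theorem gBern_comm (s : ℕ) (α β α' β' : ℝ) (c : ℕ → ℝ) (n k : ℕ) :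
    (op s α β)^[n] (op s α' β' c) k =
      α' * (op s α β)^[n] c k + β' * (op s α β)^[n] c (k + s) :=
  congrFun (op_comm s s α β α' β' n 1 c) k

theorem op_mono {s : ℕ} {α β : ℝ} (hα : 0 ≤ α) (hβ : 0 ≤ β) {c d : ℕ → ℝ} (n k : ℕ)
    (h : ∀ j ≤ n, c (k + j * s) ≤ d (k + j * s)) :
    (op s α β)^[n] c k ≤ (op s α β)^[n] d k := by
  induction n generalizing k with
  | zero => simpa using h 0 le_rfl
  | succ n ih =>
    rw [gBern_succ, gBern_succ]
    refine add_le_add (mul_le_mul_of_nonneg_left (ih k fun j hj => h j (hj.trans n.le_succ)) hα)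
      (mul_le_mul_of_nonneg_left (ih _ fun j hj => ?_) hβ)
    rw [gBern_idx]
    exact h _ (Nat.succ_le_succ hj)

theorem op_sub_const (s : ℕ) (t Q : ℝ) (c : ℕ → ℝ) (n k : ℕ) :
    (op s (1 - t) t)^[n] (fun j => c j - Q) k = (op s (1 - t) t)^[n] c k - Q := by
  induction n generalizing k with
  | zero => rfl
  | succ n ih =>
    rw [gBern_succ, gBern_succ, ih, ih]
    ring

/-- Left subdivision; prove it for `l (k + (r₀ + r) s) ≤ F^[r₀ + r] c k`, with conclusion
`D^[n] l (k + r₀ s) ≤ G^[n] (F^[r₀] c) k`, using linearity of `G^[n]` and `G = (1 - t) + t F`. -/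
theorem op_left {s : ℕ} {α β t : ℝ} (h0 : 0 ≤ t) (h1 : t ≤ 1) {c l : ℕ → ℝ} (n k : ℕ)
    (h : ∀ r ≤ n, l (k + r * s) ≤ (op s α β)^[r] c k) :
    (op s (1 - t) t)^[n] l k ≤ (op s (1 - t + t * α) (t * β))^[n] c k := by
  have key : ∀ (c : ℕ → ℝ) (k' : ℕ), (∀ r ≤ n, l (k' + r * s) ≤ (op s α β)^[r] c k) →
      (op s (1 - t) t)^[n] l k' ≤ (op s (1 - t + t * α) (t * β))^[n] c k := by
    clear h
    induction n with
    | zero => exact fun c k' h => by simpa using h 0 le_rfl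
    | succ n ih =>
      intro c k' h
      have a1 := ih c k' fun r hr => h r (hr.trans n.le_succ)
      have a2 := ih (op s α β c) (k' + s) fun r hr => by
        rw [gBern_idx]
        exact h _ (Nat.succ_le_succ hr)
      rw [gBern_comm] at a2
      rw [gBern_succ, gBern_succ]
      nlinarith [mul_le_mul_of_nonneg_left a1 (sub_nonneg.2 h1), mul_le_mul_of_nonneg_left a2 h0]
  exact key c k h

/-- Right subdivision at one half: `(1 - t) F + t E_s = op s ((1 - t) / 2) ((1 + t) / 2)`. -/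
theorem op_right {s : ℕ} {t : ℝ} (h0 : 0 ≤ t) (h1 : t ≤ 1) {c l : ℕ → ℝ} (n k : ℕ)
    (h : ∀ j ≤ n, l (k + j * s) ≤ (op s (1 / 2) (1 / 2))^[n - j] c (k + j * s)) :
    (op s (1 - t) t)^[n] l k ≤ (op s ((1 - t) / 2) ((1 + t) / 2))^[n] c k := by
  induction n generalizing c k with
  | zero => simpa using h 0 le_rfl
  | succ n ih =>
    have a1 := ih (c := op s (1 / 2) (1 / 2) c) k fun j hj => by
      have h2 := h j (hj.trans n.le_succ)
      rwa [Nat.succ_sub hj] at h2
    have a2 := ih (c := c) (k + s) fun j hj => by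
      have h2 := h _ (Nat.succ_le_succ hj)
      rwa [Nat.succ_sub_succ, ← gBern_idx] at h2
    rw [gBern_comm] at a1
    rw [gBern_succ, gBern_succ]
    nlinarith [mul_le_mul_of_nonneg_left a1 (sub_nonneg.2 h1), mul_le_mul_of_nonneg_left a2 h0]

theorem op_binom (s : ℕ) (x : ℝ) (c : ℕ → ℝ) (n k : ℕ) :
    (op s 1 x)^[n] c k = ∑ j ∈ range (n + 1), (n.choose j : ℝ) * x ^ j * c (k + j * s) := by
  induction n generalizing k with
  | zero => simp
  | succ n ih =>
    have h := sum_choose_succ_mul (R := ℝ) (fun j _ => x ^ j * c (k + j * s)) n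
    simp only [← mul_assoc] at h
    rw [gBern_succ, ih, ih, h, one_mul, mul_sum]
    refine congrArg _ (sum_congr rfl fun j _ => ?_)
    rw [gBern_idx]
    ring

/-- Value at `(x, y)` of the Bernstein form stored in block `b` of `V`. -/
noncomputable def bval (n m w V b : ℕ) (x y : ℝ) : ℝ :=
  (op (m + 1) (1 - x) x)^[n] ((op 1 (1 - y) y)^[m] fun k => (dig w V k : ℝ))
    (b * ((n + 1) * (m + 1)))

theorem gBern_const (s : ℕ) (t Q : ℝ) (n k : ℕ) : (op s (1 - t) t)^[n] (fun _ => Q) k = Q := by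
  induction n generalizing k with
  | zero => rfl
  | succ n ih =>
    rw [gBern_succ, ih, ih]
    ring

theorem gBern_avg {w V : ℕ} (hw : 1 ≤ w) (hV : Bd w V (w - 1)) (c s r : ℕ) :
    Bd w ((avg (rep (2 ^ (w - 1) - 1) w c) (w * s))^[r] V) (w - 1) ∧
      ∀ k, (dig w ((avg (rep (2 ^ (w - 1) - 1) w c) (w * s))^[r] V) k : ℝ) ≤
        (op s (1 / 2) (1 / 2))^[r] (fun k => (dig w V k : ℝ)) k := by
  induction r with
  | zero => exact ⟨hV, fun k => le_rfl⟩
  | succ r ih =>
    rw [Function.iterate_succ_apply']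
    refine ⟨bd_avg hw _ c s, fun k => ?_⟩
    have h := (Nat.cast_le (α := ℝ)).2 (dig_avg hw ih.1 c s k)
    rw [Nat.cast_mul, Nat.cast_add, Nat.cast_ofNat] at h
    rw [gBern_succ]
    linarith [ih.2 k, ih.2 (k + s)]

theorem gBern_left {w V C s n k : ℕ} (hw : 1 ≤ w) (hV : Bd w V (w - 1)) (hb : Base w C s n k)
    (c : ℕ) {x : ℝ} (h0 : 0 ≤ x) (h1 : x ≤ 1 / 2) :
    (op s (1 - 2 * x) (2 * x))^[n] (fun k =>
      (dig w (lev (avg (rep (2 ^ (w - 1) - 1) w c) (w * s)) C (w * s) n V) k : ℝ)) k ≤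
      (op s (1 - x) x)^[n] (fun k => (dig w V k : ℝ)) k := by
  have h := op_left (t := 2 * x) (by linarith) (by linarith) n k (l := fun k =>
    (dig w (lev (avg (rep (2 ^ (w - 1) - 1) w c) (w * s)) C (w * s) n V) k : ℝ)) fun r hr => by
      rw [dig_lev _ hb V r hr]
      exact (gBern_avg hw hV c s r).2 k
  rwa [show 2 * x * (1 / 2) = x by ring, show 1 - 2 * x + x = 1 - x by ring] at h

theorem gBern_right {w V C s n k : ℕ} (hw : 1 ≤ w) (hV : Bd w V (w - 1)) (hb : Base w C s n k)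
    (c : ℕ) {x : ℝ} (h0 : 1 / 2 ≤ x) (h1 : x ≤ 1) :
    (op s (1 - (2 * x - 1)) (2 * x - 1))^[n] (fun k =>
      (dig w (rig (avg (rep (2 ^ (w - 1) - 1) w c) (w * s)) C (w * s) n V) k : ℝ)) k ≤
      (op s (1 - x) x)^[n] (fun k => (dig w V k : ℝ)) k := by
  have h := op_right (t := 2 * x - 1) (by linarith) (by linarith) n k (l := fun k =>
    (dig w (rig (avg (rep (2 ^ (w - 1) - 1) w c) (w * s)) C (w * s) n V) k : ℝ)) fun r hr => by
      rw [dig_rig _ hb V r hr]
      exact (gBern_avg hw hV c s _).2 _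
  rwa [show (1 - (2 * x - 1)) / 2 = 1 - x by ring, show (1 + (2 * x - 1)) / 2 = x by ring] at h

/-- Induction on the tree. Leaf: all digits of the block have the bit `2^(w-2)`. Node: the point
lies in one half; `dig_lev`, `dig_rig`, `dig_avg`, `op_left` with `α = β = 1/2`, `op_right`,
`op_mono`, and `op_comm` for the first variable. -/
theorem chk_sound (n m nb w : ℕ) (hw : 2 ≤ w) (t : BTr) (V : ℕ) (hV : Bd w V (w - 1))
    (h : chk n m nb w (w * (m + 1)) (w * ((n + 1) * (m + 1)))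
      (rep (2 ^ (w - 1) - 1) w (nb * ((n + 1) * (m + 1)))) (mskX n m nb w) (mskY n m nb w)
      (rep (2 ^ (w - 2)) w ((n + 1) * (m + 1))) t V = true)
    (x y : ℝ) (hx0 : 0 ≤ x) (hx1 : x ≤ 1) (hy0 : 0 ≤ y) (hy1 : y ≤ 1) :
    ∃ b < nb, (2 : ℝ) ^ (w - 2) ≤ bval n m w V b x y := by
  have hw1 : 1 ≤ w := one_le_two.trans hw
  induction t generalizing V x y with
  | l b =>
    rw [chk, Bool.and_eq_true, Nat.blt_eq, Nat.beq_eq] at h
    refine ⟨b, h.1, ?_⟩
    have h1 : ∀ k < (n + 1) * (m + 1), 2 ^ (w - 2) ≤ dig w V (k + b * ((n + 1) * (m + 1))) :=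
      fun k hk => by
        have h2 := congrArg (dig w · k) h.2
        rw [dig_land, dig_rep_one (Nat.pow_lt_pow_right one_lt_two (by omega)), if_pos hk,
          Nat.mul_eq, mul_left_comm, dig_shiftRight] at h2
        exact h2 ▸ Nat.and_le_left
    rw [← gBern_const (m + 1) x (2 ^ (w - 2)) n (b * ((n + 1) * (m + 1)))]
    refine op_mono (sub_nonneg.2 hx1) hx0 _ _ fun i hi => ?_
    rw [← gBern_const 1 y (2 ^ (w - 2)) m (b * ((n + 1) * (m + 1)) + i * (m + 1))]
    refine op_mono (sub_nonneg.2 hy1) hy0 _ _ fun j hj => ?_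
    rw [mul_one, add_assoc, add_comm]
    exact_mod_cast h1 (i * (m + 1) + j) (by nlinarith)
  | h s t ihs iht =>
    rw [chk, Bool.and_eq_true] at h
    rcases le_total x (1 / 2) with hx | hx
    · obtain ⟨b, hb, h1⟩ := ihs _ (bd_lev _ _ _ _ _ _ fun r _ => (gBern_avg hw1 hV _ _ r).1) h.1
        (2 * x) y (by linarith) (by linarith) hy0 hy1
      refine ⟨b, hb, h1.trans ?_⟩
      rw [bval, bval, op_comm, op_comm (m + 1)]
      refine op_mono (sub_nonneg.2 hy1) hy0 _ _ fun j hj => ?_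
      rw [mul_one]
      exact gBern_left hw1 hV (base_mskX n m nb b j hb hj) _ hx0 hx
    · obtain ⟨b, hb, h1⟩ := iht _ (bd_rig _ _ _ _ _ _ fun r _ => (gBern_avg hw1 hV _ _ r).1) h.2
        (2 * x - 1) y (by linarith) (by linarith) hy0 hy1
      refine ⟨b, hb, h1.trans ?_⟩
      rw [bval, bval, op_comm, op_comm (m + 1)]
      refine op_mono (sub_nonneg.2 hy1) hy0 _ _ fun j hj => ?_
      rw [mul_one]
      exact gBern_right hw1 hV (base_mskX n m nb b j hb hj) _ hx hx1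
  | v s t ihs iht =>
    rw [chk, Bool.and_eq_true] at h
    have e : ∀ b < nb, ∀ i ≤ n, Base w (mskY n m nb w) 1 m
        (b * ((n + 1) * (m + 1)) + i * (m + 1)) := fun b hb i hi => by
      rw [← mul_assoc, ← add_mul]
      exact base_mskY n m nb _ (by nlinarith)
    have a1 := bd_lev (w := w) _ (mskY n m nb w) 1 m V _ fun r _ =>
      (gBern_avg hw1 hV (nb * ((n + 1) * (m + 1))) 1 r).1
    have a2 := bd_rig (w := w) _ (mskY n m nb w) 1 m V _ fun r _ =>
      (gBern_avg hw1 hV (nb * ((n + 1) * (m + 1))) 1 r).1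
    rw [mul_one] at a1 a2
    rcases le_total y (1 / 2) with hy | hy
    · obtain ⟨b, hb, h1⟩ := ihs _ a1 h.1 x (2 * y) hx0 hx1 (by linarith) (by linarith)
      refine ⟨b, hb, h1.trans (op_mono (sub_nonneg.2 hx1) hx0 _ _ fun i hi => ?_)⟩
      have h2 := gBern_left hw1 hV (e b hb i hi) (nb * ((n + 1) * (m + 1))) hy0 hy
      rwa [mul_one] at h2
    · obtain ⟨b, hb, h1⟩ := iht _ a2 h.2 x (2 * y - 1) hx0 hx1 (by linarith) (by linarith)
      refine ⟨b, hb, h1.trans (op_mono (sub_nonneg.2 hx1) hx0 _ _ fun i hi => ?_)⟩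
      have h2 := gBern_right hw1 hV (e b hb i hi) (nb * ((n + 1) * (m + 1))) hy hy1
      rwa [mul_one] at h2

end Pool.Agent.Lib.MP_14b623_gt
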