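import Mathlib
import Pool.Agent.Lib.MP_14b623_gt.Defs

/-! Definitions for the certificate checker: polynomial expressions in two variables, their
Kronecker packing, and de Casteljau subdivision on packed Bernstein coefficients. -/

namespace Pool.Agent.Lib.MP_14b623_gt

/-- Horner evaluation of an integer coefficient list. -/
noncomputable def ev1 : List ℤ → ℝ → ℝ
  | [], _ => 0
  | c :: cs, q => c + q * ev1 cs q

/-- Horner evaluation in two variables: outer index for `u`, inner index for `q`. -/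
noncomputable def ev2 : List (List ℤ) → ℝ → ℝ → ℝ
  | [], _, _ => 0
  | r :: rs, u, q => ev1 r q + u * ev2 rs u q

/-- Multiply the entry of index `k` by `k₀ + k`. -/
def wt1 : ℤ → List ℤ → List ℤ
  | _, [] => []
  | k, c :: cs => (k * c) :: wt1 (k + 1) cs

/-- The operator `u ∂_u` (for `j₀ = 0`). -/
def wJ : ℤ → List (List ℤ) → List (List ℤ)
  | _, [] => []
  | j, r :: rs => r.map (fun c => j * c) :: wJ (j + 1) rs

/-- The operator `q ∂_q`. -/
def wK (L : List (List ℤ)) : List (List ℤ) := L.map (wt1 0)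

/-- Polynomial expressions in two variables with integer coefficients. -/
inductive Ex where
  | c (z : ℤ) : Ex
  | x : Ex
  | y : Ex
  | add (a b : Ex) : Ex
  | mul (a b : Ex) : Ex
  | neg (a : Ex) : Ex
  | hor (L : List (List ℤ)) (u q : Ex) : Ex

/-- Real value of an expression. -/
noncomputable def Ex.r (x y : ℝ) : Ex → ℝ
  | .c z => z
  | .x => x
  | .y => y
  | .add a b => a.r x y + b.r x y
  | .mul a b => a.r x y * b.r x y
  | .neg a => -a.r x y
  | .hor L u q => ev2 L (u.r x y) (q.r x y)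

/-- An integer as a formal difference of natural numbers. -/
def pC : ℤ → ℕ × ℕ
  | .ofNat n => (n, 0)
  | .negSucc n => (0, Nat.succ n)

/-- Sum of formal differences. -/
def pAdd (a b : ℕ × ℕ) : ℕ × ℕ := (Nat.add a.1 b.1, Nat.add a.2 b.2)

/-- Product of formal differences. -/
def pMul (a b : ℕ × ℕ) : ℕ × ℕ :=
  (Nat.add (Nat.mul a.1 b.1) (Nat.mul a.2 b.2), Nat.add (Nat.mul a.1 b.2) (Nat.mul a.2 b.1))

/-- Horner scheme on formal differences. -/
def pH1 (q : ℕ × ℕ) : List ℤ → ℕ × ℕ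
  | [] => (0, 0)
  | c :: cs => pAdd (pC c) (pMul q (pH1 q cs))

/-- Horner scheme in two variables on formal differences. -/
def pH2 (u q : ℕ × ℕ) : List (List ℤ) → ℕ × ℕ
  | [] => (0, 0)
  | r :: rs => pAdd (pH1 q r) (pMul u (pH2 u q rs))

/-- Value of an expression at natural numbers, as a formal difference without cancellation. -/
def Ex.n (x y : ℕ) : Ex → ℕ × ℕ
  | .c z => pC z
  | .x => (x, 0)
  | .y => (y, 0)
  | .add a b => pAdd (a.n x y) (b.n x y)
  | .mul a b => pMul (a.n x y) (b.n x y)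
  | .neg a => ((a.n x y).2, (a.n x y).1)
  | .hor L u q => pH2 (u.n x y) (q.n x y) L

/-- Digit `k` of `V` in base `2 ^ w`. -/
def dig (w V k : ℕ) : ℕ := V / 2 ^ (w * k) % 2 ^ w

/-- `cnt` copies of the pattern `d`, at distance `sw` bits. -/
def rep (d sw : ℕ) : ℕ → ℕ
  | 0 => 0
  | c + 1 => Nat.add d (Nat.shiftLeft (rep d sw c) sw)

/-- Concatenation of blocks of `sw` bits. -/
def cat (sw : ℕ) : List ℕ → ℕ
  | [] => 0
  | v :: vs => Nat.add v (Nat.shiftLeft (cat sw vs) sw)

/-- Digitwise average (rounded down) of `V` and its shift. -/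
def avg (M sw V : ℕ) : ℕ :=
  Nat.land (Nat.shiftRight (Nat.add V (Nat.shiftRight V sw)) 1) M

/-- Digitwise sum of `V` and its shift. -/
def dbl (sw V : ℕ) : ℕ := Nat.add V (Nat.shiftRight V sw)

/-- Collect the first entries of the successive levels. -/
def lev (st : ℕ → ℕ) (C sw : ℕ) : ℕ → ℕ → ℕ
  | 0, T => Nat.land T C
  | n + 1, T => Nat.lor (Nat.land T C) (Nat.shiftLeft (lev st C sw n (st T)) sw)

/-- Collect the last entries of the successive levels. -/
def rig (st : ℕ → ℕ) (C sw : ℕ) : ℕ → ℕ → ℕ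
  | 0, T => Nat.land T C
  | n + 1, T => Nat.lor (Nat.land T (Nat.shiftLeft C (Nat.mul (n + 1) sw))) (rig st C sw n (st T))

/-- Multiply the entries of index `i` by `i ! (N - i) !`; the counter is `N - i`. -/
def wgt (C sw N : ℕ) : ℕ → ℕ → ℕ
  | 0, T => Nat.mul (Nat.land T C) (Nat.factorial N)
  | n + 1, T => Nat.lor
      (Nat.mul (Nat.land T C) (Nat.mul (Nat.factorial (N - (n + 1))) (Nat.factorial (n + 1))))
      (Nat.shiftLeft (wgt C sw N n (Nat.shiftRight T sw)) sw)

/-- Subdivision trees. -/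
inductive BTr where
  | l (b : ℕ) : BTr
  | h (s t : BTr) : BTr
  | v (s t : BTr) : BTr

/-- Check a subdivision tree on packed Bernstein coefficients. -/
def chk (n m nb w Sw Nw M Cx Cy TQ : ℕ) : BTr → ℕ → Bool
  | .l b, V => Nat.blt b nb && Nat.beq (Nat.land (Nat.shiftRight V (Nat.mul b Nw)) TQ) TQ
  | .h s t, V => chk n m nb w Sw Nw M Cx Cy TQ s (lev (avg M Sw) Cx Sw n V) &&
      chk n m nb w Sw Nw M Cx Cy TQ t (rig (avg M Sw) Cx Sw n V)
  | .v s t, V => chk n m nb w Sw Nw M Cx Cy TQ s (lev (avg M w) Cy w m V) &&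
      chk n m nb w Sw Nw M Cx Cy TQ t (rig (avg M w) Cy w m V)

/-- From packed monomial coefficients to packed Bernstein coefficients times `n ! m !`. -/
def conv (n m w Sw Cx Cy V : ℕ) : ℕ :=
  lev (dbl w) Cy w m (lev (dbl Sw) Cx Sw n (wgt Cy w m m (wgt Cx Sw n n V)))

/-- Size conditions for one expression. -/
def exOk (w Sw Nw e : ℕ) (E : Ex) : Bool :=
  Nat.blt (E.n 1 1).1 (2 ^ e) && Nat.blt (E.n 1 1).2 (2 ^ e) &&
  Nat.blt (E.n 1 (2 ^ w)).1 (2 ^ Sw) && Nat.blt (E.n 1 (2 ^ w)).2 (2 ^ Sw) &&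
  Nat.blt (E.n (2 ^ Sw) (2 ^ w)).1 (2 ^ Nw) && Nat.blt (E.n (2 ^ Sw) (2 ^ w)).2 (2 ^ Nw)

/-- The mask of the entries with first index zero. -/
def mskX (n m nb w : ℕ) : ℕ := rep (rep (2 ^ w - 1) w (m + 1)) (w * ((n + 1) * (m + 1))) nb

/-- The mask of the entries with second index zero. -/
def mskY (n m nb w : ℕ) : ℕ := rep (2 ^ w - 1) (w * (m + 1)) (nb * (n + 1))

/-- The packed, biased Bernstein coefficients of a list of expressions. -/
def start (n m w : ℕ) (Es : List Ex) : ℕ :=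
  Nat.add
    (conv n m w (w * (m + 1)) (mskX n m Es.length w) (mskY n m Es.length w)
      (cat (w * ((n + 1) * (m + 1))) (Es.map fun E => (E.n (2 ^ (w * (m + 1))) (2 ^ w)).1)))
    (Nat.sub (rep (2 ^ (w - 2)) w (Es.length * ((n + 1) * (m + 1))))
      (conv n m w (w * (m + 1)) (mskX n m Es.length w) (mskY n m Es.length w)
        (cat (w * ((n + 1) * (m + 1))) (Es.map fun E => (E.n (2 ^ (w * (m + 1))) (2 ^ w)).2))))

/-- The whole check: at each point of the unit square one of the expressions is nonnegative. -/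
def job (n m w e g : ℕ) (Es : List Ex) (t : BTr) : Bool :=
  Nat.blt (Nat.factorial n) (2 ^ g) && Nat.blt (Nat.factorial m) (2 ^ g) &&
  Nat.ble (e + g + g + n + m + 2) w &&
  Es.all (exOk w (w * (m + 1)) (w * ((n + 1) * (m + 1))) e) &&
  chk n m Es.length w (w * (m + 1)) (w * ((n + 1) * (m + 1)))
    (rep (2 ^ (w - 1) - 1) w (Es.length * ((n + 1) * (m + 1))))
    (mskX n m Es.length w) (mskY n m Es.length w) (rep (2 ^ (w - 2)) w ((n + 1) * (m + 1))) t
    (start n m w Es)

end Pool.Agent.Lib.MP_14b623_gt
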