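import Pool.Agent.Lib.MP_14b623_gt.GBase

namespace Pool.Agent.Lib.MP_14b623_gt

open Set MeasureTheory Filter Topology Function
open scoped InnerProductSpace Manifold ContDiff

/-! Charts of a surface with boundary. -/

variable {M : Type} [TopologicalSpace M] [ChartedSpace (EuclideanHalfSpace 2) M]

/-- The extended chart at `p`. -/
noncomputable abbrev ch (p : M) : PartialEquiv M E2 := extChartAt (𝓡∂ 2) p

lemma range_I : range (𝓡∂ 2) = HP := range_modelWithCornersEuclideanHalfSpace 2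

lemma ch_sub (p : M) : (ch p).target ⊆ HP :=
  range_I ▸ extChartAt_target_subset_range p

lemma ch_nhds (p : M) : ∀ y ∈ (ch p).target, (ch p).target ∈ 𝓝[HP] y := fun _ hy =>
  range_I ▸ extChartAt_target_mem_nhdsWithin_of_mem hy

lemma gchart_mem (p x : M) : ch p x ∈ HP := range_I ▸ mem_range_self _

variable [IsManifold (𝓡∂ 2) ∞ M]

/-- `contMDiffOn_extChartAt_symm`, `contMDiffOn_iff_contDiffOn`. -/
lemma contDiffOn_ch {F : Type*} [NormedAddCommGroup F] [NormedSpace ℝ F] {n : WithTop ℕ∞}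
    (hn : n ≤ ∞) {f : M → F} (hf : ContMDiff (𝓡∂ 2) 𝓘(ℝ, F) n f) (p : M) :
    ContDiffOn ℝ n (f ∘ (ch p).symm) (ch p).target := by
  have : IsManifold (𝓡∂ 2) n M := IsManifold.of_le hn
  exact contMDiffOn_iff_contDiffOn.1 (hf.comp_contMDiffOn (contMDiffOn_extChartAt_symm p))

/-- `ModelWithCorners.isBoundaryPoint_iff_of_mem_atlas`. -/
lemma bdry_iff {p x : M} (hx : x ∈ (ch p).source) :
    x ∈ (𝓡∂ 2).boundary M ↔ ch p x 0 = 0 := by
  have h1 := (𝓡∂ 2).isInteriorPoint_iff_of_mem_atlas (n := ∞) (by simp)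
    (chart_mem_atlas (EuclideanHalfSpace 2) p) (by simpa using hx : x ∈ _)
  have h2 : ch p x ∈ interior (ch p).target ↔ 0 < ch p x 0 := by
    refine ⟨fun h => ?_, fun h => mem_interior_iff_mem_nhds.2 ?_⟩
    · have h3 := interior_mono (extChartAt_target_subset_range (I := 𝓡∂ 2) p) h
      rwa [interior_range_modelWithCornersEuclideanHalfSpace] at h3
    · rw [← nhdsWithin_eq_nhds.2 (HP_mem_nhds h)]
      exact ch_nhds p _ ((ch p).map_source hx)
  have h3 : 0 ≤ ch p x 0 := gchart_mem p x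
  refine ((𝓡∂ 2).isBoundaryPoint_iff_not_isInteriorPoint x).trans ((h1.trans h2).not.trans ?_)
  exact ⟨fun h => le_antisymm (not_lt.1 h) h3, fun h => h.not_gt⟩

/-- The transition map is differentiable within the half plane
(`contDiffWithinAt_ext_coord_change`). -/
lemma ch_trans {p q x : M} (hp : x ∈ (ch p).source) (hq : x ∈ (ch q).source) :
    DifferentiableWithinAt ℝ (ch q ∘ (ch p).symm) HP (ch p x) := by
  have h := contDiffWithinAt_ext_coord_change (I := 𝓡∂ 2) (n := ∞) q p (y := ch p x)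
    ⟨(ch p).map_source hp, show (ch p).symm (ch p x) ∈ (ch q).source by rwa [(ch p).left_inv hp]⟩
  rw [range_I] at h
  exact h.differentiableWithinAt (by simp)

/-- Near `ch p x`, within the half plane, points are in the target and come from the source of `q`. -/
lemma ch_event {p q x : M} (hp : x ∈ (ch p).source) (hq : x ∈ (ch q).source) :
    ∀ᶠ y in 𝓝[HP] (ch p x), y ∈ (ch p).target ∧ (ch p).symm y ∈ (ch q).source := by
  refine Eventually.and (ch_nhds p _ ((ch p).map_source hp)) (nhdsWithin_le_nhds ?_)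
  refine continuousAt_extChartAt_symm' hp ?_
  rw [(ch p).left_inv hp]
  exact extChartAt_source_mem_nhds' hq

/-- Chain rule for a change of chart: `f ∘ (ch p).symm = (f ∘ (ch q).symm) ∘ τ` near `ch p x` within
`HP` (`ch_event`); `HasFDerivWithinAt.comp_of_tendsto` or `.comp` after shrinking the domain. -/
lemma ch_chain {F : Type*} [NormedAddCommGroup F] [NormedSpace ℝ F] {f : M → F} {p q x : M}
    (hp : x ∈ (ch p).source) (hq : x ∈ (ch q).source)
    (hf : DifferentiableWithinAt ℝ (f ∘ (ch q).symm) HP (ch q x)) :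
    fderivWithin ℝ (f ∘ (ch p).symm) HP (ch p x) =
      (fderivWithin ℝ (f ∘ (ch q).symm) HP (ch q x)).comp
        (fderivWithin ℝ (ch q ∘ (ch p).symm) HP (ch p x)) := by
  have h0 : (ch q ∘ (ch p).symm) (ch p x) = ch q x := congrArg (ch q) ((ch p).left_inv hp)
  have h1 : f ∘ (ch p).symm =ᶠ[𝓝[HP] (ch p x)] (f ∘ (ch q).symm) ∘ (ch q ∘ (ch p).symm) :=
    (ch_event hp hq).mono fun y hy => congrArg f ((ch q).left_inv hy.2).symm
  rw [h1.fderivWithin_eq_of_mem (gchart_mem p x), fderivWithin_comp _ (h0 ▸ hf) (ch_trans hp hq)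
    (fun y _ => gchart_mem q _) (uniqueDiffOn_HP _ (gchart_mem p x)), h0]

/-- `mfderiv` is the derivative in the chart at the point itself. -/
lemma mfderiv_eq {φ : M → E3} (hφ : ContMDiff (𝓡∂ 2) 𝓘(ℝ, E3) 2 φ) (x : M) (v : E2) :
    mfderiv (𝓡∂ 2) 𝓘(ℝ, E3) φ x v = fderivWithin ℝ (inChart φ x) HP (ch x x) v := by
  rw [(hφ.mdifferentiableAt (by simp)).mfderiv, range_I]
  rfl

/-- The derivative of the transition map is bijective: apply `ch_chain` to `f = ch p`, for which
`f ∘ (ch p).symm` is the identity near `ch p x` within `HP`. -/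
lemma ch_trans_bij {p q x : M} (hp : x ∈ (ch p).source) (hq : x ∈ (ch q).source) :
    Bijective (fderivWithin ℝ (ch q ∘ (ch p).symm) HP (ch p x)) := by
  have h1 := ch_chain (f := ch p) hp hq (ch_trans hq hp)
  have h2 : ch p ∘ (ch p).symm =ᶠ[𝓝[HP] (ch p x)] id :=
    (ch_event hp hq).mono fun y hy => (ch p).right_inv hy.1
  rw [h2.fderivWithin_eq_of_mem (gchart_mem p x),
    fderivWithin_id (uniqueDiffOn_HP _ (gchart_mem p x))] at h1
  have h3 : Injective (fderivWithin ℝ (ch q ∘ (ch p).symm) HP (ch p x)) :=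
    LeftInverse.injective fun v => (DFunLike.congr_fun h1 v).symm
  exact ⟨h3, (LinearMap.injective_iff_surjective
    (f := (fderivWithin ℝ (ch q ∘ (ch p).symm) HP (ch p x)).toLinearMap)).1 h3⟩

theorem IsFBMS.patch {φ : M → E3} (h : IsFBMS φ) (p : M) :
    Patch (ch p).target (inChart φ p) := by
  have hs : ∀ q : M, ContDiffOn ℝ 2 (inChart φ q) (ch q).target := fun q =>
    contDiffOn_ch (WithTop.coe_le_coe.2 (le_top : (2 : ℕ∞) ≤ ⊤)) h.smooth q
  have key : ∀ x ∈ (ch p).source, ∀ v, fderivWithin ℝ (inChart φ p) HP (ch p x) v =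
      mfderiv (𝓡∂ 2) 𝓘(ℝ, E3) φ x (fderivWithin ℝ (ch x ∘ (ch p).symm) HP (ch p x) v) :=
    fun x hx v => by
      rw [mfderiv_eq h.smooth]
      exact DFunLike.congr_fun (ch_chain (f := φ) hx (mem_extChartAt_source x)
        (rel_hasFDeriv (ch_nhds x) (hs x) (by norm_num)
          (mem_extChartAt_target x)).differentiableWithinAt) v
  refine ⟨ch_sub p, ch_nhds p, hs p, fun y hy => ?_, fun y _ => h.inBall _, fun y hy h0 => ?_,
    h.minimal p, fun y hy h0 => ?_⟩
  all_goals
    obtain ⟨x, hx, rfl⟩ : ∃ x ∈ (ch p).source, ch p x = y :=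
      ⟨_, (ch p).map_target hy, (ch p).right_inv hy⟩
  · intro v w hvw
    rw [key x hx, key x hx] at hvw
    exact (ch_trans_bij hx (mem_extChartAt_source x)).1 (h.immersion x hvw)
  · have e : inChart φ p (ch p x) = φ x := congrArg φ ((ch p).left_inv hx)
    rw [e]
    exact h.bdry x ((bdry_iff hx).2 h0)
  · have e : inChart φ p (ch p x) = φ x := congrArg φ ((ch p).left_inv hx)
    obtain ⟨v, hv⟩ := h.orth x ((bdry_iff hx).2 h0)
    obtain ⟨w, hw⟩ := (ch_trans_bij hx (mem_extChartAt_source x)).2 v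
    exact ⟨w, by rw [key x hx, hw, e]; exact hv⟩

end Pool.Agent.Lib.MP_14b623_gt
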