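import Pool.Agent.Lib.MP_14b623_gt.TCurveF

/-! Closed curves on the unit sphere: a second order Wirtinger inequality around the mean axis. -/

namespace Pool.Agent.Lib.MP_14b623_gt

open Set Real Function
open scoped ComplexConjugate InnerProductSpace

/-- Wirtinger: a closed spherical curve with vanishing mean has speed at least one. -/
lemma gcurve_wirt0 (γ γ' : ℝ → V) (l : ℝ) (hd : ∀ σ, HasDerivAt γ (γ' σ) σ)
    (hc : Continuous γ') (hp : Periodic γ (2 * π)) (hs : ∀ σ, dot (γ σ) (γ σ) = 1)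
    (hv : ∀ σ, dot (γ' σ) (γ' σ) = l ^ 2) (h0 : ∀ i, av (fun σ => γ σ i) = 0) : 1 ≤ l ^ 2 := by
  have hc0 : Continuous γ := continuous_iff_continuousAt.2 fun θ => (hd θ).continuousAt
  have hder : ∀ (i : Fin 3) (n : ℤ), fc (fun s => ((γ' s i : ℝ) : ℂ)) n =
      Complex.I * n * fc (fun s => ((γ s i : ℝ) : ℂ)) n := by
    intro i n
    refine fc_deriv (fun θ => (hasDerivAt_coord (hd θ) i).ofReal_comp) (tcurvef_cont hc i) ?_ n
    have := hp 0
    rw [zero_add] at this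
    simp only [this]
  refine hasSum_le (fun n => Finset.sum_le_sum fun i _ => ?_) (tcurvef_sq hc0 hs) (tcurvef_sq hc hv)
  rw [hder, norm_mul, norm_mul, Complex.norm_I, one_mul, mul_pow, Complex.norm_intCast, sq_abs]
  rcases eq_or_ne n 0 with rfl | hn
  · rw [fc_zero, cav_ofReal, h0]; simp
  · have h1 : (1 : ℝ) ≤ (n : ℝ) ^ 2 := by
      have : (1 : ℤ) ≤ n ^ 2 := by nlinarith [sq_pos_of_ne_zero hn, Int.one_le_abs hn, sq_abs n]
      exact_mod_cast this
    nlinarith [sq_nonneg ‖fc (fun s => ((γ s i : ℝ) : ℂ)) n‖]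

lemma gcurve_dir (m : E3) : ∃ e : E3, ‖e‖ = 1 ∧ m = ‖m‖ • e := by
  rcases eq_or_ne m 0 with rfl | hm
  · exact ⟨EuclideanSpace.single 0 1, by simp, by simp⟩
  · have := norm_ne_zero_iff.2 hm
    refine ⟨‖m‖⁻¹ • m, ?_, ?_⟩
    · rw [norm_smul, norm_inv, norm_norm, inv_mul_cancel₀ this]
    · rw [smul_smul, mul_inv_cancel₀ this, one_smul]

lemma gcurve_basis {e : E3} (he : ‖e‖ = 1) :
    ∃ b : OrthonormalBasis (Fin 3) ℝ E3, b 2 = e := by
  have h : Orthonormal ℝ (({2} : Set (Fin 3)).domRestrict fun _ : Fin 3 => e) := by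
    refine ⟨fun _ => he, fun i j hij => ?_⟩
    exact absurd (Subtype.ext (i.2.trans j.2.symm)) hij
  obtain ⟨b, hb⟩ := h.exists_orthonormalBasis_extension_of_card_eq (by simp)
  exact ⟨b, hb 2 rfl⟩

lemma gcurve_dot (b : OrthonormalBasis (Fin 3) ℝ E3) (x : E3) :
    dot (fun i => ⟪b i, x⟫_ℝ) (fun i => ⟪b i, x⟫_ℝ) = ‖x‖ ^ 2 := by
  rw [← b.sum_sq_inner_right x, Fin.sum_univ_three, dot]
  ring

/-- Version with period `2π` and constant speed `l`. -/
theorem curve_bound_2pi (g g' : ℝ → E3) (l : ℝ) (hd : ∀ t, HasDerivAt g (g' t) t)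
    (hc : Continuous g') (hp : Periodic g (2 * π)) (h1 : ∀ t, ‖g t‖ = 1) (h0 : ∀ t, ‖g' t‖ = l)
    (hl : l ≤ 13 / 20) : ∃ e : E3, ‖e‖ = 1 ∧ ∀ c : ℝ, 0 ≤ c → c ≤ 6 / 5 →
      0 ≤ ∫ t in (0 : ℝ)..(2 * π),
        ((⟪g t, e⟫_ℝ - √(1 - l ^ 2)) - c * (⟪g t, e⟫_ℝ - √(1 - l ^ 2)) ^ 2) := by
  have hc0 : Continuous g := continuous_iff_continuousAt.2 fun θ => (hd θ).continuousAt
  have hl0 : 0 ≤ l := h0 0 ▸ norm_nonneg _
  have hpi := two_pi_pos
  set m : E3 := (2 * π)⁻¹ • ∫ t in (0 : ℝ)..(2 * π), g t with hm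
  obtain ⟨e, he, hme⟩ := gcurve_dir m
  obtain ⟨b, hb⟩ := gcurve_basis he
  have hav : ∀ v : E3, av (fun σ => ⟪v, g σ⟫_ℝ) = ‖m‖ * ⟪v, e⟫_ℝ := by
    intro v
    have h := (innerSL ℝ v).intervalIntegral_comp_comm (μ := MeasureTheory.volume)
      (hc0.intervalIntegrable 0 (2 * π))
    simp only [innerSL_apply_apply] at h
    rw [← real_inner_smul_right, ← hme, hm, real_inner_smul_right, av, h]
    ring
  have hD : ∀ σ, HasDerivAt (fun σ => (fun i => ⟪b i, g σ⟫_ℝ : V)) (fun i => ⟪b i, g' σ⟫_ℝ) σ :=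
    fun σ => hasDerivAt_pi.2 fun i => (innerSL ℝ (b i)).hasFDerivAt.comp_hasDerivAt σ (hd σ)
  have hC : Continuous fun σ => (fun i => ⟪b i, g' σ⟫_ℝ : V) :=
    continuous_pi fun i => continuous_const.inner hc
  have hP : Periodic (fun σ => (fun i => ⟪b i, g σ⟫_ℝ : V)) (2 * π) := fun σ => by
    simp only [hp σ]
  have hS : ∀ σ, dot (fun i => ⟪b i, g σ⟫_ℝ) (fun i => ⟪b i, g σ⟫_ℝ) = 1 := fun σ => by
    rw [gcurve_dot, h1, one_pow]
  have hV : ∀ σ, dot (fun i => ⟪b i, g' σ⟫_ℝ) (fun i => ⟪b i, g' σ⟫_ℝ) = l ^ 2 := fun σ => by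
    rw [gcurve_dot, h0]
  have e0 : ⟪b 0, e⟫_ℝ = 0 := by rw [← hb]; exact b.orthonormal.2 (by decide)
  have e1 : ⟪b 1, e⟫_ℝ = 0 := by rw [← hb]; exact b.orthonormal.2 (by decide)
  have e2 : ⟪b 2, e⟫_ℝ = 1 := by rw [hb, real_inner_self_eq_norm_sq, he, one_pow]
  have hw : 0 < ‖m‖ := by
    refine lt_of_le_of_ne (norm_nonneg _) fun h => ?_
    have := gcurve_wirt0 _ _ l hD hC hP hS hV fun i => by rw [hav, ← h, zero_mul]
    nlinarith
  obtain ⟨k1, k2, -⟩ := curve_fourier _ _ l ‖m‖ hD hC hP hS hV (by nlinarith) hw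
    (by rw [hav, e0, mul_zero]) (by rw [hav, e1, mul_zero]) (by rw [hav, e2, mul_one])
  have k3 := hav e
  rw [real_inner_self_eq_norm_sq, he, one_pow, mul_one] at k3
  simp only [hb] at k2
  set w := ‖m‖ with hwdef
  set s0 := √(1 - l ^ 2) with hs0
  have hs2 : s0 ^ 2 = 1 - l ^ 2 := sq_sqrt (by nlinarith)
  have hs8 : 3 / 4 ≤ s0 := le_sqrt_of_sq_le (by nlinarith)
  have hws : s0 ≤ w := by nlinarith
  have hcs : Continuous fun σ => ⟪e, g σ⟫_ℝ := continuous_const.inner hc0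
  have hw1 : w ≤ 1 := by
    rw [← k3, av, div_le_one hpi]
    have h2 : ∫ θ in (0 : ℝ)..(2 * π), ⟪e, g θ⟫_ℝ ≤ ∫ _ in (0 : ℝ)..(2 * π), (1 : ℝ) := by
      refine intervalIntegral.integral_mono_on hpi.le (hcs.intervalIntegrable _ _)
        (continuous_const.intervalIntegrable _ _) fun x _ => ?_
      have := real_inner_le_norm e (g x)
      rwa [he, h1, one_mul] at this
    simpa using h2
  refine ⟨e, he, fun c hc0' hc1 => ?_⟩
  have h4 : ∀ t, (⟪g t, e⟫_ℝ - s0) - c * (⟪g t, e⟫_ℝ - s0) ^ 2 =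
      ((1 - 2 * c * (w - s0)) * ⟪e, g t⟫_ℝ - c * (⟪e, g t⟫_ℝ - w) ^ 2) +
        (2 * c * (w - s0) * w - c * (w - s0) ^ 2 - s0) := fun t => by
    rw [real_inner_comm]; ring
  simp only [h4]
  have hA : Continuous fun t => (1 - 2 * c * (w - s0)) * ⟪e, g t⟫_ℝ := hcs.const_mul _
  have hB : Continuous fun t => c * (⟪e, g t⟫_ℝ - w) ^ 2 :=
    ((hcs.sub continuous_const).pow 2).const_mul _
  have hAB : Continuous fun t => (1 - 2 * c * (w - s0)) * ⟪e, g t⟫_ℝ - c * (⟪e, g t⟫_ℝ - w) ^ 2 :=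
    hA.sub hB
  rw [intervalIntegral.integral_add (hAB.intervalIntegrable _ _)
      (continuous_const.intervalIntegrable _ _),
    intervalIntegral.integral_sub (hA.intervalIntegrable _ _) (hB.intervalIntegrable _ _),
    intervalIntegral.integral_const_mul, intervalIntegral.integral_const_mul,
    intervalIntegral.integral_const, smul_eq_mul]
  rw [av, div_eq_iff hpi.ne'] at k3
  rw [av, div_le_iff₀ hpi] at k2
  rw [k3]
  have k4 := mul_le_mul_of_nonneg_left k2 hc0'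
  have k5 : 0 ≤ (w - s0) * (1 - c * ((4 * w - 2 * s0) / 3)) :=
    mul_nonneg (by linarith) (by nlinarith)
  have k6 : w ^ 2 + l ^ 2 - 1 = (w - s0) * (w + s0) := by nlinarith
  rw [k6] at k4
  have k7 := mul_nonneg k5 hpi.le
  nlinarith

/-- Version for unit speed curves of period (length) `P`. -/
theorem curve_bound_unit (g g' : ℝ → E3) (P : ℝ) (hP : 0 < P) (hd : ∀ t, HasDerivAt g (g' t) t)
    (hc : Continuous g') (hp : Periodic g P) (h1 : ∀ t, ‖g t‖ = 1) (h0 : ∀ t, ‖g' t‖ = 1)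
    (hl : P / (2 * π) ≤ 13 / 20) : ∃ e : E3, ‖e‖ = 1 ∧ ∀ c : ℝ, 0 ≤ c → c ≤ 6 / 5 →
      0 ≤ ∫ t in (0 : ℝ)..P, ((⟪g t, e⟫_ℝ - √(1 - (P / (2 * π)) ^ 2)) -
        c * (⟪g t, e⟫_ℝ - √(1 - (P / (2 * π)) ^ 2)) ^ 2) := by
  have hpi := two_pi_pos
  set l := P / (2 * π) with hl'
  have hl0 : 0 < l := div_pos hP hpi
  have hlP : l * (2 * π) = P := div_mul_cancel₀ _ hpi.ne'
  obtain ⟨e, he, h⟩ := curve_bound_2pi (fun σ => g (l * σ)) (fun σ => l • g' (l * σ)) l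
    (fun σ => by
      have := (hd (l * σ)).scomp σ ((hasDerivAt_id σ).const_mul l)
      simpa [Function.comp_def] using this)
    ((hc.comp (continuous_const.mul continuous_id)).const_smul l)
    (fun σ => by simp only [mul_add, hlP, hp _]) (fun σ => h1 _)
    (fun σ => by rw [norm_smul, h0, mul_one, Real.norm_eq_abs, abs_of_pos hl0]) hl
  refine ⟨e, he, fun c h2 h3 => ?_⟩
  have h4 := h c h2 h3
  have h5 := intervalIntegral.integral_comp_mul_left (a := 0) (b := 2 * π)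
    (fun t => (⟪g t, e⟫_ℝ - √(1 - l ^ 2)) - c * (⟪g t, e⟫_ℝ - √(1 - l ^ 2)) ^ 2) hl0.ne'
  rw [h5, mul_zero, hlP, smul_eq_mul] at h4
  exact nonneg_of_mul_nonneg_right h4 (inv_pos.2 hl0)

/-- Version for regular `C¹` curves of period one. -/
theorem curve_bound (g g' : ℝ → E3) (hd : ∀ t, HasDerivAt g (g' t) t) (hc : Continuous g')
    (hp : Periodic g 1) (h1 : ∀ t, ‖g t‖ = 1) (h0 : ∀ t, g' t ≠ 0) (lam : ℝ)
    (hlam : lam = (∫ t in (0 : ℝ)..1, ‖g' t‖) / (2 * π)) (hl : lam ≤ 13 / 20) :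
    ∃ e : E3, ‖e‖ = 1 ∧ ∀ c : ℝ, 0 ≤ c → c ≤ 6 / 5 →
      0 ≤ ∫ t in (0 : ℝ)..1, ((⟪g t, e⟫_ℝ - √(1 - lam ^ 2)) -
        c * (⟪g t, e⟫_ℝ - √(1 - lam ^ 2)) ^ 2) * ‖g' t‖ := by
  have hc0 : Continuous g := continuous_iff_continuousAt.2 fun θ => (hd θ).continuousAt
  have hu : Continuous fun t => ‖g' t‖ := hc.norm
  have hpos : ∀ t, 0 < ‖g' t‖ := fun t => norm_pos_iff.2 (h0 t)
  have hp' : Periodic g' 1 := fun t => by
    have h2 := (hd (t + 1)).comp_add_const t 1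
    have h3 : (fun x => g (x + 1)) = g := funext hp
    rw [h3] at h2
    exact h2.unique (hd t)
  set P := ∫ t in (0 : ℝ)..1, ‖g' t‖ with hPdef
  have hP : 0 < P := intervalIntegral.intervalIntegral_pos_of_pos (hu.intervalIntegrable _ _)
    hpos one_pos
  set S : ℝ → ℝ := fun t => ∫ x in (0 : ℝ)..t, ‖g' x‖ with hSdef
  have hS : ∀ t, HasDerivAt S ‖g' t‖ t := fun t => (hu.integral_hasStrictDerivAt 0 t).hasDerivAt
  have hS0 : S 0 = 0 := by simp [hSdef]
  have hSp : ∀ t, S (t + 1) = S t + P := fun t => by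
    have hpu : Periodic (fun t => ‖g' t‖) 1 := fun t => by simp only [hp' t]
    have h2 := hpu.intervalIntegral_add_eq t 0
    rw [zero_add] at h2
    simp only [hSdef]
    rw [← intervalIntegral.integral_add_adjacent_intervals (b := t) (hu.intervalIntegrable _ _)
      (hu.intervalIntegrable _ _), h2]
  have hm : StrictMono S := strictMono_of_deriv_pos fun t => by rw [(hS t).deriv]; exact hpos t
  have hcS : Continuous S := continuous_iff_continuousAt.2 fun t => (hS t).continuousAt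
  have hper : Periodic (fun t => S t - P * t) 1 := fun t => by
    beta_reduce
    rw [hSp]; ring
  have hn : ∀ n : ℤ, S n = n * P := fun n => by
    have := hper.int_mul_eq n
    beta_reduce at this
    rw [hS0, mul_one] at this
    linarith
  have hsurj : Surjective S := by
    refine hcS.surjective (hm.monotone.tendsto_atTop_atTop fun b => ?_)
      (hm.monotone.tendsto_atBot_atBot fun b => ?_)
    · refine ⟨_, le_of_le_of_eq ?_ (hn ⌈b / P⌉).symm⟩
      exact (div_le_iff₀ hP).1 (Int.le_ceil _)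
    · refine ⟨_, (hn ⌊b / P⌋).trans_le ?_⟩
      exact (le_div_iff₀ hP).1 (Int.floor_le _)
  let E : ℝ ≃o ℝ := hm.orderIsoOfSurjective S hsurj
  have hr : ∀ σ, S (E.symm σ) = σ := fun σ => E.apply_symm_apply σ
  have hli : ∀ t, E.symm (S t) = t := fun t => E.symm_apply_apply t
  have hcE : Continuous E.symm := E.symm.continuous
  have hdE : ∀ σ, HasDerivAt E.symm (‖g' (E.symm σ)‖⁻¹) σ := fun σ =>
    HasDerivAt.of_local_left_inverse hcE.continuousAt (hS (E.symm σ)) (hpos _).ne'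
      (Filter.Eventually.of_forall hr)
  have hEp : ∀ σ, E.symm (σ + P) = E.symm σ + 1 := fun σ => by
    conv_lhs => rw [← hr σ, ← hSp, hli]
  obtain ⟨e, he, h⟩ := curve_bound_unit (fun σ => g (E.symm σ))
    (fun σ => ‖g' (E.symm σ)‖⁻¹ • g' (E.symm σ)) P hP
    (fun σ => (hd (E.symm σ)).scomp σ (hdE σ))
    (((hu.comp hcE).inv₀ fun σ => (hpos _).ne').smul (hc.comp hcE))
    (fun σ => by simp only [hEp, hp _]) (fun σ => h1 _)
    (fun σ => by rw [norm_smul, norm_inv, norm_norm, inv_mul_cancel₀ (hpos _).ne'])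
    (hlam ▸ hl)
  refine ⟨e, he, fun c h2 h3 => ?_⟩
  have h4 := h c h2 h3
  rw [← hlam] at h4
  have hci : Continuous fun σ => ⟪g (E.symm σ), e⟫_ℝ - √(1 - lam ^ 2) :=
    ((hc0.comp hcE).inner continuous_const).sub continuous_const
  have h5 := intervalIntegral.integral_comp_mul_deriv (a := 0) (b := 1)
    (g := fun σ => (⟪g (E.symm σ), e⟫_ℝ - √(1 - lam ^ 2)) -
      c * (⟪g (E.symm σ), e⟫_ℝ - √(1 - lam ^ 2)) ^ 2) (fun t _ => hS t) hu.continuousOn
    (hci.sub ((hci.pow 2).const_mul c))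
  have h6 : S 1 = P := rfl
  rw [hS0, h6] at h5
  rw [← h5] at h4
  simpa only [comp_apply, hli] using h4

end Pool.Agent.Lib.MP_14b623_gt
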