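import Pool.Agent.Lib.MP_14b623_gt.GCDefs

/-! Digitwise description of the packed operations. -/

namespace Pool.Agent.Lib.MP_14b623_gt

/-- Position `k` is selected by the mask `C`, its neighbours `k ± d s` (`1 ≤ d ≤ n`) are not. -/
def Base (w C s n k : ℕ) : Prop :=
  dig w C k = 2 ^ w - 1 ∧
    ∀ d k', 1 ≤ d → d ≤ n → (k' = k + d * s ∨ k' + d * s = k) → dig w C k' = 0

/-- All digits are below `2 ^ e`. -/
def Bd (w V e : ℕ) : Prop := ∀ k, dig w V k < 2 ^ e

variable {w : ℕ}

theorem dig_lt (w V k : ℕ) : dig w V k < 2 ^ w := by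
  exact Nat.mod_lt _ (Nat.two_pow_pos w)

theorem GDig_zero (w V : ℕ) : dig w V 0 = V % 2 ^ w := by
  simp [dig]

theorem GDig_succ (w V k : ℕ) : dig w V (k + 1) = dig w (V / 2 ^ w) k := by
  unfold dig
  rw [Nat.div_div_eq_div_mul, ← pow_add, show w * (k + 1) = w + w * k by ring]

theorem GDig_of_zero (w k : ℕ) : dig w 0 k = 0 := by
  simp [dig]

theorem GDig_testBit (w V k i : ℕ) :
    (dig w V k).testBit i = (decide (i < w) && V.testBit (i + w * k)) := by
  unfold dig
  rw [Nat.testBit_mod_two_pow, Nat.testBit_div_two_pow]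

theorem GDig_cons_zero {x : ℕ} (hx : x < 2 ^ w) (y : ℕ) : dig w (x + 2 ^ w * y) 0 = x := by
  rw [GDig_zero, Nat.add_mul_mod_self_left, Nat.mod_eq_of_lt hx]

theorem GDig_cons_succ {x : ℕ} (hx : x < 2 ^ w) (y k : ℕ) :
    dig w (x + 2 ^ w * y) (k + 1) = dig w y k := by
  rw [GDig_succ, Nat.add_mul_div_left _ _ (Nat.two_pow_pos w), Nat.div_eq_of_lt hx, Nat.zero_add]

theorem GDig_le (hw : 1 ≤ w) : ∀ b a : ℕ, (∀ k, dig w b k ≤ dig w a k) → b ≤ a := by
  intro b
  induction b using Nat.strong_induction_on with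
  | _ b ih =>
    intro a h
    rcases Nat.eq_zero_or_pos b with hb | hb
    · omega
    · have h2 : 1 < 2 ^ w := Nat.one_lt_two_pow (by omega)
      have h1 : b / 2 ^ w ≤ a / 2 ^ w := by
        apply ih _ (Nat.div_lt_self hb h2)
        intro k
        rw [← GDig_succ, ← GDig_succ]
        exact h (k + 1)
      have h0 := h 0
      rw [GDig_zero, GDig_zero] at h0
      have ea := Nat.div_add_mod a (2 ^ w)
      have eb := Nat.div_add_mod b (2 ^ w)
      have := Nat.mul_le_mul_left (2 ^ w) h1
      omega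

/-- Induction on `k`, generalizing `a b`. -/
theorem dig_add {a b : ℕ} (h : ∀ k, dig w a k + dig w b k < 2 ^ w) (k : ℕ) :
    dig w (a + b) k = dig w a k + dig w b k := by
  induction k generalizing a b with
  | zero =>
    have h0 := h 0
    rw [GDig_zero, GDig_zero] at h0
    rw [GDig_zero, GDig_zero, GDig_zero, Nat.add_mod, Nat.mod_eq_of_lt h0]
  | succ k ih =>
    have h0 := h 0
    rw [GDig_zero, GDig_zero] at h0
    rw [GDig_succ, GDig_succ, GDig_succ, Nat.add_div_eq_of_add_mod_lt h0]
    apply ih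
    intro j
    rw [← GDig_succ, ← GDig_succ]
    exact h (j + 1)

theorem GDig_sub_eq {a b B : ℕ} (h0 : b % B ≤ a % B) (h1 : b / B ≤ a / B) :
    a - b = (a % B - b % B) + B * (a / B - b / B) := by
  have ea := Nat.div_add_mod a B
  have eb := Nat.div_add_mod b B
  have := Nat.mul_le_mul_left B h1
  rw [Nat.mul_sub]
  omega

theorem dig_sub {a b : ℕ} (h : ∀ k, dig w b k ≤ dig w a k) (k : ℕ) :
    dig w (a - b) k = dig w a k - dig w b k := by
  rcases Nat.eq_zero_or_pos w with hw | hw
  · subst hw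
    simp [dig, Nat.mod_one]
  induction k generalizing a b with
  | zero =>
    have hs : ∀ j, dig w (b / 2 ^ w) j ≤ dig w (a / 2 ^ w) j := fun j => by
      rw [← GDig_succ, ← GDig_succ]; exact h (j + 1)
    have h0 := h 0
    rw [GDig_zero, GDig_zero] at h0
    rw [GDig_sub_eq h0 (GDig_le hw _ _ hs),
      GDig_cons_zero (lt_of_le_of_lt (Nat.sub_le _ _) (Nat.mod_lt _ (Nat.two_pow_pos w))),
      GDig_zero, GDig_zero]
  | succ k ih =>
    have hs : ∀ j, dig w (b / 2 ^ w) j ≤ dig w (a / 2 ^ w) j := fun j => by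
      rw [← GDig_succ, ← GDig_succ]; exact h (j + 1)
    have h0 := h 0
    rw [GDig_zero, GDig_zero] at h0
    rw [GDig_sub_eq h0 (GDig_le hw _ _ hs),
      GDig_cons_succ (lt_of_le_of_lt (Nat.sub_le _ _) (Nat.mod_lt _ (Nat.two_pow_pos w))),
      ih hs, GDig_succ, GDig_succ]

theorem dig_mul {a f : ℕ} (h : ∀ k, dig w a k * f < 2 ^ w) (k : ℕ) :
    dig w (a * f) k = dig w a k * f := by
  have e : ∀ a : ℕ, a * f = a % 2 ^ w * f + 2 ^ w * (a / 2 ^ w * f) := fun a => by
    conv_lhs => rw [← Nat.div_add_mod a (2 ^ w)]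
    ring
  induction k generalizing a with
  | zero =>
    have h0 := h 0
    rw [GDig_zero] at h0
    rw [e a, GDig_cons_zero h0, GDig_zero]
  | succ k ih =>
    have h0 := h 0
    rw [GDig_zero] at h0
    rw [e a, GDig_cons_succ h0, GDig_succ]
    apply ih
    intro j
    rw [← GDig_succ]
    exact h (j + 1)

theorem dig_shiftRight (V s k : ℕ) : dig w (Nat.shiftRight V (w * s)) k = dig w V (k + s) := by
  apply Nat.eq_of_testBit_eq
  intro i
  rw [GDig_testBit, GDig_testBit, Nat.shiftRight_eq, Nat.testBit_shiftRight,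
    show w * s + (i + w * k) = i + w * (k + s) by ring]

theorem dig_shiftLeft (V s k : ℕ) :
    dig w (Nat.shiftLeft V (w * s)) k = if k < s then 0 else dig w V (k - s) := by
  apply Nat.eq_of_testBit_eq
  intro i
  rw [GDig_testBit, Nat.shiftLeft_eq', Nat.testBit_shiftLeft]
  by_cases hi : i < w
  · split_ifs with hk
    · have : w * (k + 1) ≤ w * s := Nat.mul_le_mul_left w hk
      have h2 : ¬ (i + w * k ≥ w * s) := by
        rw [Nat.mul_add] at this
        omega
      simp [h2]
    · obtain ⟨t, rfl⟩ := Nat.exists_eq_add_of_le (Nat.le_of_not_lt hk)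
      rw [GDig_testBit, Nat.add_sub_cancel_left,
        show i + w * (s + t) - w * s = i + w * t by rw [Nat.mul_add]; omega]
      have h2 : i + w * (s + t) ≥ w * s := by rw [Nat.mul_add]; omega
      simp [h2]
  · split_ifs with hk
    · simp [hi]
    · rw [GDig_testBit]
      simp [hi]

theorem dig_land (a b k : ℕ) : dig w (Nat.land a b) k = dig w a k &&& dig w b k := by
  apply Nat.eq_of_testBit_eq
  intro i
  rw [Nat.testBit_and, GDig_testBit, GDig_testBit, GDig_testBit, Nat.land_eq, Nat.testBit_and]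
  cases decide (i < w) <;> simp

theorem dig_lor (a b k : ℕ) : dig w (Nat.lor a b) k = dig w a k ||| dig w b k := by
  apply Nat.eq_of_testBit_eq
  intro i
  rw [Nat.testBit_or, GDig_testBit, GDig_testBit, GDig_testBit, Nat.lor_eq, Nat.testBit_or]
  cases decide (i < w) <;> simp

theorem GDig_rep_succ (d sw c : ℕ) : rep d sw (c + 1) = d + 2 ^ sw * rep d sw c := by
  rw [rep, Nat.add_eq, Nat.shiftLeft_eq', Nat.shiftLeft_eq, Nat.mul_comm]

theorem GDig_cat_cons (sw v : ℕ) (vs : List ℕ) :
    cat sw (v :: vs) = v + 2 ^ sw * cat sw vs := by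
  rw [cat, Nat.add_eq, Nat.shiftLeft_eq', Nat.shiftLeft_eq, Nat.mul_comm]

theorem GDig_block_lo {x s j : ℕ} (hx : x < 2 ^ (w * s)) (y : ℕ) (hj : j < s) :
    dig w (x + 2 ^ (w * s) * y) j = dig w x j := by
  apply Nat.eq_of_testBit_eq
  intro i
  rw [GDig_testBit, GDig_testBit, Nat.add_comm x, Nat.testBit_two_pow_mul_add _ hx]
  by_cases hi : i < w
  · have : w * (j + 1) ≤ w * s := Nat.mul_le_mul_left w hj
    rw [Nat.mul_add] at this
    rw [if_pos (by omega)]
  · simp [hi]

theorem GDig_block_hi {x s : ℕ} (hx : x < 2 ^ (w * s)) (y k : ℕ) :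
    dig w (x + 2 ^ (w * s) * y) (k + s) = dig w y k := by
  apply Nat.eq_of_testBit_eq
  intro i
  rw [GDig_testBit, GDig_testBit, Nat.add_comm x, Nat.testBit_two_pow_mul_add _ hx,
    if_neg (by rw [Nat.mul_add]; omega),
    show i + w * (k + s) - w * s = i + w * k by rw [Nat.mul_add]; omega]

theorem rep_lt {d s : ℕ} (hd : d < 2 ^ (w * s)) (c : ℕ) : rep d (w * s) c < 2 ^ (w * (s * c)) := by
  induction c with
  | zero => simp [rep]
  | succ c ih =>
    rw [GDig_rep_succ, show w * (s * (c + 1)) = w * s + w * (s * c) by ring, pow_add]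
    have := Nat.mul_le_mul_left (2 ^ (w * s)) (Nat.succ_le_of_lt ih)
    rw [Nat.mul_succ] at this
    omega

theorem dig_rep {d s : ℕ} (hd : d < 2 ^ (w * s)) (c t j : ℕ) (hj : j < s) :
    dig w (rep d (w * s) c) (t * s + j) = if t < c then dig w d j else 0 := by
  induction c generalizing t with
  | zero => simp [rep, GDig_of_zero]
  | succ c ih =>
    rw [GDig_rep_succ]
    cases t with
    | zero => rw [Nat.zero_mul, Nat.zero_add, GDig_block_lo hd _ hj, if_pos (Nat.succ_pos c)]
    | succ t =>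
      rw [show (t + 1) * s + j = t * s + j + s by ring, GDig_block_hi hd, ih t]
      simp only [Nat.add_lt_add_iff_right]

theorem dig_rep_one {d : ℕ} (hd : d < 2 ^ w) (c t : ℕ) :
    dig w (rep d w c) t = if t < c then d else 0 := by
  have h := dig_rep (w := w) (d := d) (s := 1) (by rwa [Nat.mul_one]) c t 0 Nat.one_pos
  rw [Nat.mul_one, Nat.mul_one, Nat.add_zero, GDig_zero, Nat.mod_eq_of_lt hd] at h
  exact h

theorem dig_cat {s : ℕ} (l : List ℕ) (hl : ∀ v ∈ l, v < 2 ^ (w * s)) (t j : ℕ) (hj : j < s) :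
    dig w (cat (w * s) l) (t * s + j) = dig w (l.getD t 0) j := by
  induction l generalizing t with
  | nil => simp [cat, GDig_of_zero]
  | cons v vs ih =>
    have hv : v < 2 ^ (w * s) := hl v List.mem_cons_self
    rw [GDig_cat_cons]
    cases t with
    | zero => rw [Nat.zero_mul, Nat.zero_add, GDig_block_lo hv _ hj, List.getD_cons_zero]
    | succ t =>
      rw [show (t + 1) * s + j = t * s + j + s by ring, GDig_block_hi hv,
        ih (fun u hu => hl u (List.mem_cons_of_mem _ hu)) t, List.getD_cons_succ]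

theorem GDig_ones_lt (w : ℕ) : 2 ^ w - 1 < 2 ^ w := Nat.sub_lt (Nat.two_pow_pos w) Nat.one_pos

theorem GDig_mskX (n m nb t j d : ℕ) (hj : j ≤ m) (hd : d ≤ n) :
    dig w (mskX n m nb w) (t * ((n + 1) * (m + 1)) + (j + d * (m + 1)))
      = if t < nb then (if j + d * (m + 1) < m + 1 then 2 ^ w - 1 else 0) else 0 := by
  have h1 : rep (2 ^ w - 1) w (m + 1) < 2 ^ (w * ((n + 1) * (m + 1))) := by
    have h := rep_lt (w := w) (d := 2 ^ w - 1) (s := 1)
      (by rw [Nat.mul_one]; exact GDig_ones_lt w) (m + 1)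
    rw [Nat.mul_one] at h
    refine lt_of_lt_of_le h (Nat.pow_le_pow_right (by norm_num) ?_)
    exact Nat.mul_le_mul_left w (Nat.mul_le_mul_right _ (by omega))
  have h2 : j + d * (m + 1) < (n + 1) * (m + 1) := by
    have := Nat.mul_le_mul_right (m + 1) hd
    rw [Nat.add_mul n 1]
    omega
  unfold mskX
  rw [dig_rep h1 nb t _ h2, dig_rep_one (GDig_ones_lt w)]

theorem GDig_mskY (n m nb t j : ℕ) (hj : j ≤ m) :
    dig w (mskY n m nb w) (t * (m + 1) + j)
      = if t < nb * (n + 1) then (if j = 0 then 2 ^ w - 1 else 0) else 0 := by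
  have h1 : 2 ^ w - 1 < 2 ^ (w * (m + 1)) :=
    lt_of_lt_of_le (GDig_ones_lt w)
      (Nat.pow_le_pow_right (by norm_num) (by rw [Nat.mul_add]; omega))
  unfold mskY
  rw [dig_rep h1 _ t j (by omega)]
  congr 1
  cases j with
  | zero => rw [GDig_zero, Nat.mod_eq_of_lt (GDig_ones_lt w), if_pos rfl]
  | succ j =>
    rw [GDig_succ, Nat.div_eq_of_lt (GDig_ones_lt w), GDig_of_zero, if_neg (Nat.succ_ne_zero j)]

theorem base_mskX (n m nb b j : ℕ) (hb : b < nb) (hj : j ≤ m) :
    Base w (mskX n m nb w) (m + 1) n (b * ((n + 1) * (m + 1)) + j) := by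
  refine ⟨?_, ?_⟩
  · have := GDig_mskX (w := w) n m nb b j 0 hj (Nat.zero_le n)
    rw [Nat.zero_mul, Nat.add_zero j] at this
    rw [this, if_pos hb, if_pos (by omega)]
  · intro d k' hd1 hdn hk
    have key : ∀ t d', 1 ≤ d' → d' ≤ n →
        dig w (mskX n m nb w) (t * ((n + 1) * (m + 1)) + (j + d' * (m + 1))) = 0 := by
      intro t d' h1 h2
      rw [GDig_mskX n m nb t j d' hj h2]
      have : 1 * (m + 1) ≤ d' * (m + 1) := Nat.mul_le_mul_right _ h1
      rw [if_neg (show ¬ (j + d' * (m + 1) < m + 1) by omega)]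
      simp
    rcases hk with hk | hk
    · rw [hk, Nat.add_assoc]
      exact key b d hd1 hdn
    · have h1 : 1 * (m + 1) ≤ d * (m + 1) := Nat.mul_le_mul_right _ hd1
      cases b with
      | zero => omega
      | succ b =>
        obtain ⟨u, rfl⟩ := Nat.exists_eq_add_of_le hdn
        have e : k' = b * ((d + u + 1) * (m + 1)) + (j + (u + 1) * (m + 1)) := by
          have : (b + 1) * ((d + u + 1) * (m + 1))
              = b * ((d + u + 1) * (m + 1)) + (u + 1) * (m + 1) + d * (m + 1) := by ring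
          omega
        rw [e]
        exact key b (u + 1) (by omega) (by omega)

theorem base_mskY (n m nb t : ℕ) (ht : t < nb * (n + 1)) :
    Base w (mskY n m nb w) 1 m (t * (m + 1)) := by
  refine ⟨?_, ?_⟩
  · have := GDig_mskY (w := w) n m nb t 0 (Nat.zero_le m)
    rw [Nat.add_zero] at this
    rw [this, if_pos ht, if_pos rfl]
  · intro d k' hd1 hdm hk
    rw [Nat.mul_one] at hk
    rcases hk with hk | hk
    · rw [hk, GDig_mskY n m nb t d hdm, if_neg (show ¬ d = 0 by omega)]
      simp
    · cases t with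
      | zero => omega
      | succ t =>
        have e : k' = t * (m + 1) + (m + 1 - d) := by
          rw [Nat.add_mul t 1] at hk
          omega
        rw [e, GDig_mskY n m nb t _ (by omega), if_neg (show ¬ m + 1 - d = 0 by omega)]
        simp

/-- With `U = V + (V >>> w s)`: digit `k` of `U >>> 1` is `U / B^k / 2 % B`, and masking with
`2^(w-1) - 1` leaves `U / B^k % B / 2`; where the mask has digit `0` the result is `0`. -/
theorem dig_avg (hw : 1 ≤ w) {V : ℕ} (hV : Bd w V (w - 1)) (c s k : ℕ) :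
    2 * dig w (avg (rep (2 ^ (w - 1) - 1) w c) (w * s) V) k ≤ dig w V k + dig w V (k + s) := by
  have hM : 2 ^ (w - 1) - 1 < 2 ^ w :=
    lt_of_lt_of_le (GDig_ones_lt _) (Nat.pow_le_pow_right (by norm_num) (Nat.sub_le _ _))
  have hp : 2 ^ w = 2 ^ (w - 1) + 2 ^ (w - 1) := by
    obtain ⟨u, rfl⟩ := Nat.exists_eq_add_of_le hw
    rw [Nat.add_sub_cancel_left, pow_add]
    omega
  have hU : dig w (V + Nat.shiftRight V (w * s)) k = dig w V k + dig w V (k + s) := by
    rw [dig_add, dig_shiftRight]
    intro j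
    rw [dig_shiftRight, hp]
    exact Nat.add_lt_add (hV j) (hV (j + s))
  unfold avg
  rw [dig_land, dig_rep_one hM, Nat.add_eq, ← hU]
  split_ifs with hk
  · have e : ∀ U : ℕ, dig w (Nat.shiftRight U 1) k &&& (2 ^ (w - 1) - 1) = dig w U k / 2 := by
      intro U
      apply Nat.eq_of_testBit_eq
      intro i
      rw [Nat.testBit_and, Nat.testBit_two_pow_sub_one, Nat.testBit_div_two, GDig_testBit,
        GDig_testBit, Nat.shiftRight_eq, Nat.testBit_shiftRight,
        show 1 + (i + w * k) = i + 1 + w * k by ring]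
      by_cases hi : i + 1 < w
      · have h1 : i < w := by omega
        have h2 : i < w - 1 := by omega
        simp [hi, h1, h2]
      · have h2 : ¬ i < w - 1 := by omega
        simp [hi, h2]
    rw [e]
    omega
  · simp

theorem bd_avg (hw : 1 ≤ w) (V c s : ℕ) :
    Bd w (avg (rep (2 ^ (w - 1) - 1) w c) (w * s) V) (w - 1) := by
  have hM : 2 ^ (w - 1) - 1 < 2 ^ w :=
    lt_of_lt_of_le (GDig_ones_lt _) (Nat.pow_le_pow_right (by norm_num) (Nat.sub_le _ _))
  intro k
  unfold avg
  rw [dig_land, dig_rep_one hM]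
  refine lt_of_le_of_lt Nat.and_le_right ?_
  split_ifs
  · exact GDig_ones_lt _
  · exact Nat.two_pow_pos _

theorem dig_dbl {V e : ℕ} (he : e + 1 ≤ w) (hV : Bd w V e) (s k : ℕ) :
    dig w (dbl (w * s) V) k = dig w V k + dig w V (k + s) := by
  unfold dbl
  rw [Nat.add_eq, dig_add, dig_shiftRight]
  intro j
  rw [dig_shiftRight]
  have h1 := hV j
  have h2 := hV (j + s)
  have h3 : 2 ^ (e + 1) ≤ 2 ^ w := Nat.pow_le_pow_right (by norm_num) he
  rw [pow_succ] at h3
  omega

theorem bd_dbl {V e : ℕ} (he : e + 1 ≤ w) (hV : Bd w V e) (s : ℕ) :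
    Bd w (dbl (w * s) V) (e + 1) := by
  intro k
  rw [dig_dbl he hV, pow_succ]
  have h1 := hV k
  have h2 := hV (k + s)
  omega

theorem dig_lev_zero (st : ℕ → ℕ) {C s n k : ℕ}
    (h : ∀ d ≤ n, d * s ≤ k → dig w C (k - d * s) = 0) (T : ℕ) :
    dig w (lev st C (w * s) n T) k = 0 := by
  induction n generalizing k T with
  | zero =>
    have h0 := h 0 (Nat.zero_le _) (by omega)
    rw [Nat.zero_mul, Nat.sub_zero] at h0
    rw [lev, dig_land, h0, Nat.and_zero]
  | succ n ih =>
    have h0 := h 0 (Nat.zero_le _) (by omega)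
    rw [Nat.zero_mul, Nat.sub_zero] at h0
    rw [lev, dig_lor, dig_land, h0, Nat.and_zero, Nat.zero_or, dig_shiftLeft]
    split_ifs with hk
    · rfl
    · apply ih
      intro d hd hds
      have e : (d + 1) * s = d * s + s := by ring
      have := h (d + 1) (by omega) (by omega)
      rwa [show k - (d + 1) * s = k - s - d * s by omega] at this

theorem mskY_zero (n m nb k d : ℕ) (hk : nb * ((n + 1) * (m + 1)) ≤ k) (hd : d ≤ m) :
    dig w (mskY n m nb w) (k - d) = 0 := by
  have e := Nat.div_add_mod (k - d) (m + 1)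
  have hj : (k - d) % (m + 1) < m + 1 := Nat.mod_lt _ (Nat.succ_pos m)
  rw [← e, Nat.mul_comm (m + 1), GDig_mskY n m nb _ _ (by omega)]
  split_ifs with h1 h2
  · exfalso
    have h3 := Nat.mul_le_mul_left (m + 1) (Nat.succ_le_of_lt h1)
    rw [Nat.mul_succ] at h3
    have h4 : (m + 1) * (nb * (n + 1)) = nb * ((n + 1) * (m + 1)) := by ring
    omega
  · rfl
  · rfl

theorem GDig_and_ones (V k : ℕ) : dig w V k &&& (2 ^ w - 1) = dig w V k := by
  rw [Nat.and_two_pow_sub_one_eq_mod, Nat.mod_eq_of_lt (dig_lt w V k)]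

theorem GDig_below {C s n k n' : ℕ} (hb : Base w C s n k) (hn : n' + 1 ≤ n) (hk : ¬ k < s) :
    ∀ d ≤ n', d * s ≤ k - s → dig w C (k - s - d * s) = 0 := by
  intro d hd hds
  have e : (d + 1) * s = d * s + s := by ring
  exact hb.2 (d + 1) _ (by omega) (by omega) (Or.inr (by omega))

theorem dig_lev (st : ℕ → ℕ) {C s n k : ℕ} (hb : Base w C s n k) (T r : ℕ) (hr : r ≤ n) :
    dig w (lev st C (w * s) n T) (k + r * s) = dig w (st^[r] T) k := by
  have key : ∀ r n' T, r ≤ n' → n' ≤ n →
      dig w (lev st C (w * s) n' T) (k + r * s) = dig w (st^[r] T) k := by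
    intro r
    induction r with
    | zero =>
      intro n' T _ hn
      rw [Nat.zero_mul, Nat.add_zero, Function.iterate_zero_apply]
      cases n' with
      | zero => rw [lev, dig_land, hb.1, GDig_and_ones]
      | succ n' =>
        rw [lev, dig_lor, dig_land, hb.1, GDig_and_ones, dig_shiftLeft]
        split_ifs with hk
        · exact Nat.or_zero _
        · rw [dig_lev_zero st (GDig_below hb hn hk), Nat.or_zero]
    | succ r ih =>
      intro n' T hr hn
      cases n' with
      | zero => omega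
      | succ n' =>
        have e : (r + 1) * s = r * s + s := by ring
        rw [lev, dig_lor, dig_land, hb.2 (r + 1) _ (by omega) (by omega) (Or.inl rfl),
          Nat.and_zero, Nat.zero_or, dig_shiftLeft, if_neg (by omega),
          show k + (r + 1) * s - s = k + r * s by omega, ih n' _ (by omega) (by omega),
          Function.iterate_succ_apply]
  exact key r n T hr le_rfl

theorem bd_lev (st : ℕ → ℕ) (C s n T e : ℕ) (h : ∀ r ≤ n, Bd w (st^[r] T) e) :
    Bd w (lev st C (w * s) n T) e := by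
  induction n generalizing T with
  | zero =>
    intro k
    rw [lev, dig_land]
    exact lt_of_le_of_lt Nat.and_le_left (h 0 le_rfl k)
  | succ n ih =>
    intro k
    rw [lev, dig_lor, dig_land, dig_shiftLeft]
    apply Nat.or_lt_two_pow
    · exact lt_of_le_of_lt Nat.and_le_left (h 0 (Nat.zero_le _) k)
    · split_ifs
      · exact Nat.two_pow_pos _
      · exact ih (st T) (fun r hr => h (r + 1) (by omega)) _

theorem GDig_mask {C s n k i j : ℕ} (hb : Base w C s n k) (hi : i ≤ n) (hj : j ≤ n) :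
    dig w (Nat.shiftLeft C (w * (i * s))) (k + j * s) = if j = i then 2 ^ w - 1 else 0 := by
  rw [dig_shiftLeft]
  rcases lt_trichotomy j i with h | h | h
  · obtain ⟨u, rfl⟩ := Nat.exists_eq_add_of_lt h
    have e : (j + u + 1) * s = j * s + (u + 1) * s := by ring
    rw [if_neg (show ¬ j = j + u + 1 by omega)]
    split_ifs with h1
    · rfl
    · exact hb.2 (u + 1) _ (by omega) (by omega) (Or.inr (by omega))
  · subst h
    rw [if_neg (by omega), if_pos rfl, Nat.add_sub_cancel, hb.1]
  · obtain ⟨u, rfl⟩ := Nat.exists_eq_add_of_lt h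
    have e : (i + u + 1) * s = i * s + (u + 1) * s := by ring
    rw [if_neg (by omega), if_neg (show ¬ i + u + 1 = i by omega)]
    exact hb.2 (u + 1) _ (by omega) (by omega) (Or.inl (by omega))

theorem dig_rig (st : ℕ → ℕ) {C s n k : ℕ} (hb : Base w C s n k) (T j : ℕ) (hj : j ≤ n) :
    dig w (rig st C (w * s) n T) (k + j * s) = dig w (st^[n - j] T) (k + j * s) := by
  have key : ∀ n' T j, n' ≤ n → j ≤ n →
      dig w (rig st C (w * s) n' T) (k + j * s)
        = if j ≤ n' then dig w (st^[n' - j] T) (k + j * s) else 0 := by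
    intro n'
    induction n' with
    | zero =>
      intro T j _ hj
      rw [rig, dig_land]
      split_ifs with h0
      · obtain rfl : j = 0 := by omega
        rw [Nat.zero_mul, Nat.add_zero, hb.1, GDig_and_ones]
        rfl
      · rw [hb.2 j _ (by omega) hj (Or.inl rfl), Nat.and_zero]
    | succ n' ih =>
      intro T j hn hj
      rw [rig, dig_lor, dig_land, Nat.mul_eq,
        show (n' + 1) * (w * s) = w * ((n' + 1) * s) by ring,
        GDig_mask hb hn hj, ih _ j (by omega) hj]
      by_cases h1 : j = n' + 1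
      · subst h1
        rw [if_pos rfl, if_neg (by omega), if_pos le_rfl, GDig_and_ones, Nat.or_zero,
          Nat.sub_self, Function.iterate_zero_apply]
      · rw [if_neg h1, Nat.and_zero, Nat.zero_or]
        by_cases h2 : j ≤ n'
        · rw [if_pos h2, if_pos (by omega), show n' + 1 - j = n' - j + 1 by omega,
            Function.iterate_succ_apply]
        · rw [if_neg h2, if_neg (by omega)]
  rw [key n T j le_rfl hj, if_pos hj]

theorem bd_rig (st : ℕ → ℕ) (C s n T e : ℕ) (h : ∀ r ≤ n, Bd w (st^[r] T) e) :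
    Bd w (rig st C (w * s) n T) e := by
  induction n generalizing T with
  | zero =>
    intro k
    rw [rig, dig_land]
    exact lt_of_le_of_lt Nat.and_le_left (h 0 le_rfl k)
  | succ n ih =>
    intro k
    rw [rig, dig_lor, dig_land]
    apply Nat.or_lt_two_pow
    · exact lt_of_le_of_lt Nat.and_le_left (h 0 (Nat.zero_le _) k)
    · exact ih (st T) (fun r hr => h (r + 1) (by omega)) _

theorem GDig_mul_lt {x f e g : ℕ} (hx : x < 2 ^ e) (hf : f < 2 ^ g) : x * f < 2 ^ (e + g) := by
  rw [pow_add]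
  exact Nat.mul_lt_mul'' hx hf

theorem GDig_land_mul {T C f e g : ℕ} (hT : Bd w T e) (hf : f < 2 ^ g) (he : e + g ≤ w) (k : ℕ) :
    dig w (Nat.mul (Nat.land T C) f) k = (dig w T k &&& dig w C k) * f := by
  rw [Nat.mul_eq, dig_mul, dig_land]
  intro j
  rw [dig_land]
  exact lt_of_lt_of_le (GDig_mul_lt (lt_of_le_of_lt Nat.and_le_left (hT j)) hf)
    (Nat.pow_le_pow_right (by norm_num) he)

theorem GDig_fac {N i g : ℕ} (hi : i ≤ N) (hg : N.factorial < 2 ^ g) :
    Nat.mul (N - i).factorial i.factorial < 2 ^ g := by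
  rw [Nat.mul_eq, Nat.mul_comm]
  exact lt_of_le_of_lt
    (Nat.le_of_dvd N.factorial_pos (Nat.factorial_mul_factorial_dvd_factorial hi)) hg

theorem GDig_bd_shift {T e : ℕ} (hT : Bd w T e) (s : ℕ) :
    Bd w (Nat.shiftRight T (w * s)) e := fun k => by
  rw [dig_shiftRight]
  exact hT _

theorem GDig_wgt_zero {C s N e g : ℕ} (hg : N.factorial < 2 ^ g) (he : e + g ≤ w) :
    ∀ n k T, n ≤ N → Bd w T e → (∀ d ≤ n, d * s ≤ k → dig w C (k - d * s) = 0) →
      dig w (wgt C (w * s) N n T) k = 0 := by
  intro n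
  induction n with
  | zero =>
    intro k T _ hT h
    have h0 := h 0 (Nat.zero_le _) (by omega)
    rw [Nat.zero_mul, Nat.sub_zero] at h0
    rw [wgt, GDig_land_mul hT hg he, h0, Nat.and_zero, Nat.zero_mul]
  | succ n ih =>
    intro k T hn hT h
    have h0 := h 0 (Nat.zero_le _) (by omega)
    rw [Nat.zero_mul, Nat.sub_zero] at h0
    rw [wgt, dig_lor, GDig_land_mul hT (GDig_fac hn hg) he, h0, Nat.and_zero, Nat.zero_mul,
      Nat.zero_or, dig_shiftLeft]
    split_ifs with hk
    · rfl
    · apply ih _ _ (by omega) (GDig_bd_shift hT s)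
      intro d hd hds
      have e' : (d + 1) * s = d * s + s := by ring
      have := h (d + 1) (by omega) (by omega)
      rwa [show k - (d + 1) * s = k - s - d * s by omega] at this

/-- Generalize to the counter `n ≤ N`: digit `k + r s` of `wgt C (w s) N n T` is
`dig T (k + r s) * ((N - n + r)! (n - r)!)`; use `a ! * b ! ≤ (a + b)!`. -/
theorem dig_wgt {C s n k T e g : ℕ} (hb : Base w C s n k) (hT : Bd w T e)
    (hg : n.factorial < 2 ^ g) (he : e + g ≤ w) (r : ℕ) (hr : r ≤ n) :
    dig w (wgt C (w * s) n n T) (k + r * s)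
      = dig w T (k + r * s) * (r.factorial * (n - r).factorial) := by
  have key : ∀ r n' T, Bd w T e → r ≤ n' → n' ≤ n →
      dig w (wgt C (w * s) n n' T) (k + r * s)
        = dig w T (k + r * s) * ((n - n' + r).factorial * (n' - r).factorial) := by
    intro r
    induction r with
    | zero =>
      intro n' T hT _ hn
      rw [Nat.zero_mul, Nat.add_zero, Nat.add_zero, Nat.sub_zero]
      cases n' with
      | zero =>
        rw [wgt, GDig_land_mul hT hg he, hb.1, GDig_and_ones, Nat.sub_zero, Nat.factorial_zero,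
          Nat.mul_one]
      | succ n' =>
        rw [wgt, dig_lor, GDig_land_mul hT (GDig_fac hn hg) he, hb.1, GDig_and_ones,
          dig_shiftLeft, Nat.mul_eq]
        split_ifs with hk
        · exact Nat.or_zero _
        · rw [GDig_wgt_zero hg he n' _ _ (by omega) (GDig_bd_shift hT s) (GDig_below hb hn hk),
            Nat.or_zero]
    | succ r ih =>
      intro n' T hT hr hn
      cases n' with
      | zero => omega
      | succ n' =>
        have e' : (r + 1) * s = r * s + s := by ring
        rw [wgt, dig_lor, GDig_land_mul hT (GDig_fac hn hg) he,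
          hb.2 (r + 1) _ (by omega) (by omega) (Or.inl rfl),
          Nat.and_zero, Nat.zero_mul, Nat.zero_or, dig_shiftLeft, if_neg (by omega),
          show k + (r + 1) * s - s = k + r * s by omega,
          ih n' _ (GDig_bd_shift hT s) (by omega) (by omega), dig_shiftRight,
          show k + r * s + s = k + (r + 1) * s by omega,
          show n - n' + r = n - (n' + 1) + (r + 1) by omega,
          show n' - r = n' + 1 - (r + 1) by omega]
  rw [key r n T hT hr le_rfl, Nat.sub_self, Nat.zero_add]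

theorem bd_wgt {C s n T e g : ℕ} (hT : Bd w T e) (hg : n.factorial < 2 ^ g) (he : e + g ≤ w) :
    Bd w (wgt C (w * s) n n T) (e + g) := by
  have key : ∀ n' T, n' ≤ n → Bd w T e → Bd w (wgt C (w * s) n n' T) (e + g) := by
    intro n'
    induction n' with
    | zero =>
      intro T _ hT k
      rw [wgt, GDig_land_mul hT hg he]
      exact GDig_mul_lt (lt_of_le_of_lt Nat.and_le_left (hT k)) hg
    | succ n' ih =>
      intro T hn hT k
      rw [wgt, dig_lor, GDig_land_mul hT (GDig_fac hn hg) he, dig_shiftLeft]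
      apply Nat.or_lt_two_pow
      · exact GDig_mul_lt (lt_of_le_of_lt Nat.and_le_left (hT k)) (GDig_fac hn hg)
      · split_ifs
        · exact Nat.two_pow_pos _
        · exact ih _ (by omega) (GDig_bd_shift hT s) _
  exact key n T le_rfl hT

end Pool.Agent.Lib.MP_14b623_gt
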