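import Pool.Agent.Lib.MP_14b623_gt.GGreen
import Pool.Agent.Lib.MP_14b623_gt.GDiv

namespace Pool.Agent.Lib.MP_14b623_gt

open Set MeasureTheory Filter Topology Function
open scoped InnerProductSpace Manifold ContDiff

/-! The first variation inequality in one chart. -/

namespace Patch

variable {T K : Set E2} {X : E2 → E3} (P : Patch T X) {η : E3 → E3} (hη : DivLe η) {r : E2 → ℝ}
  (hr : ContDiffOn ℝ 1 r T)
include P hη

lemma contDiffOn_eta : ContDiffOn ℝ 1 (fun y => η (X y)) T := fun y hy =>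
  (hη.smooth _ (P.ball y hy)).comp_contDiffWithinAt y ((P.smooth y hy).of_le (by norm_num))

include hr

lemma continuousOn_dv :
    ContinuousOn (fun y => dv (fderivWithin ℝ X HP y) (fderivWithin ℝ r HP y) (η (X y))) T := by
  have hL : ContinuousOn (fderivWithin ℝ r HP) T :=
    (rel_contDiff P.sub P.nhds (m := 0) hr (by norm_num)).continuousOn
  have he := (P.contDiffOn_eta hη).continuousOn
  exact (((hL.clm_apply continuousOn_const).mul (he.inner P.contDiffOn_w0.continuousOn)).add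
    ((hL.clm_apply continuousOn_const).mul (he.inner P.contDiffOn_w1.continuousOn))).div
      P.contDiffOn_areaEl.continuousOn fun y hy => (jac_pos (P.inj y hy)).ne'

lemma glocal_deriv {w : E2 → E3} (hw : ContDiffOn ℝ 1 w T) {y : E2} (hy : y ∈ T) (v : E2) :
    fderivWithin ℝ (fun y => r y * ⟪η (X y), w y⟫_ℝ) HP y v =
      fderivWithin ℝ r HP y v * ⟪η (X y), w y⟫_ℝ +
        r y * (⟪fderiv ℝ η (X y) (fderivWithin ℝ X HP y v), w y⟫_ℝ +
          ⟪η (X y), fderivWithin ℝ w HP y v⟫_ℝ) := by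
  have h1 := rel_hasFDeriv P.nhds hr le_rfl hy
  have h2 := rel_hasFDeriv P.nhds hw le_rfl hy
  have h0 := ((hη.smooth _ (P.ball y hy)).differentiableAt one_ne_zero).hasFDerivAt
  have h3 := h0.comp_hasFDerivWithinAt y (rel_hasFDeriv P.nhds P.smooth (by norm_num) hy)
  have h4 := (h1.mul (h3.inner ℝ h2)).fderivWithin (uniqueDiffOn_HP y (P.sub hy))
  refine (DFunLike.congr_fun h4 v).trans ?_
  simp only [add_apply, smul_apply, smul_eq_mul,
    ContinuousLinearMap.comp_apply, ContinuousLinearMap.prod_apply, fderivInnerCLM_apply,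
    Function.comp_apply]
  ring

/-- Apply `green_half` to `Aᵢ = r ⟪η X, wᵢ⟫`. At interior points
`∂₀A₀ + ∂₁A₁ = J dv + r (⟪Dη X₀, w₀⟫ + ⟪Dη X₁, w₁⟫) + r ⟪η, ∂₀w₀ + ∂₁w₁⟫ ≤ (r + dv) J` by `div_w`
and `trace_le`; on the line `A₀ = - r ⟪η X, X⟫ ‖X₁‖` by `w0_bdry`; `integral_mono_ae` with
`ae_pos_of_sub` and `integrableOn_of_compact`. -/
theorem local_fv (hK : IsCompact K) (hKT : K ⊆ T) (hr0 : ∀ y ∈ T, 0 ≤ r y)
    (hz : ∀ y ∈ T \ K, r y = 0) :
    ∫ s in {s : ℝ | ln s ∈ T}, r (ln s) * ⟪η (X (ln s)), X (ln s)⟫_ℝ * ‖pd 1 X (ln s)‖ ≤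
      ∫ y in T, (r y + dv (fderivWithin ℝ X HP y) (fderivWithin ℝ r HP y) (η (X y))) *
        areaEl X y := by
  have hT := rel_meas P.sub P.nhds
  have he := P.contDiffOn_eta hη
  have c0 := hr.mul (he.inner ℝ P.contDiffOn_w0)
  have c1 := hr.mul (he.inner ℝ P.contDiffOn_w1)
  have z : ∀ f : E2 → ℝ, ∀ y ∈ T \ K, r y * f y = 0 := fun f y hy => by rw [hz y hy, zero_mul]
  have hg := green_half P.sub P.nhds hK hKT c0 c1 (z _) (z _)
  have hl : ∫ s in {s : ℝ | ln s ∈ T}, r (ln s) * ⟪η (X (ln s)), X (ln s)⟫_ℝ * ‖pd 1 X (ln s)‖ =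
      -∫ s in {s : ℝ | ln s ∈ T},
        r (ln s) * ⟪η (X (ln s)), wv0 (pd 0 X (ln s)) (pd 1 X (ln s))⟫_ℝ := by
    rw [← integral_neg]
    refine setIntegral_congr_fun (rel_line_open P.sub P.nhds).measurableSet fun s hs => ?_
    simp only [P.w0_bdry hs (ln_zero s), inner_neg_right, inner_smul_right]
    ring
  rw [hl, ← hg]
  refine integral_mono_ae (integrableOn_of_compact hT hK hKT ?_ fun y hy => ?_)
    (integrableOn_of_compact hT hK hKT ?_ fun y hy => ?_) ?_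
  · exact ((rel_contDiff P.sub P.nhds (m := 0) c0 (by norm_num)).continuousOn.clm_apply
      continuousOn_const).add
      ((rel_contDiff P.sub P.nhds (m := 0) c1 (by norm_num)).continuousOn.clm_apply
        continuousOn_const)
  · rw [fderivWithin_zero_off P.nhds hK (z _) hy, fderivWithin_zero_off P.nhds hK (z _) hy]
    simp
  · exact (hr.continuousOn.add (P.continuousOn_dv hη hr)).mul P.contDiffOn_areaEl.continuousOn
  · rw [fderivWithin_zero_off P.nhds hK hz hy, dv_zero, hz y hy, add_zero, zero_mul]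
  filter_upwards [ae_pos_of_sub hT P.sub] with y ⟨hy, h0⟩
  rw [P.glocal_deriv hη hr P.contDiffOn_w0 hy, P.glocal_deriv hη hr P.contDiffOn_w1 hy]
  have a1 := mul_le_mul_of_nonneg_left (trace_le (P.inj y hy) _ (hη.le _ (P.ball y hy))) (hr0 y hy)
  have a2 := congrArg (fun v => r y * ⟪η (X y), v⟫_ℝ) (P.div_w hy h0)
  have a3 := div_mul_cancel₀ (fderivWithin ℝ r HP y (ev 0) *
    ⟪η (X y), wv0 (pd 0 X y) (pd 1 X y)⟫_ℝ + fderivWithin ℝ r HP y (ev 1) *
      ⟪η (X y), wv1 (pd 0 X y) (pd 1 X y)⟫_ℝ) (jac_pos (P.inj y hy)).ne'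
  simp only [inner_add_right, inner_zero_right, pd_eq, areaEl_eq, dv] at a2 a3 ⊢
  linarith

end Patch

end Pool.Agent.Lib.MP_14b623_gt
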