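import Pool.Agent.Lib.MP_14b623_gt.GArea
import Pool.Agent.Lib.MP_14b623_gt.GLocal

namespace Pool.Agent.Lib.MP_14b623_gt

open Set MeasureTheory Filter Topology Function
open scoped InnerProductSpace Manifold ContDiff

/-! The first variation inequality on the whole surface. -/

variable {M : Type} [TopologicalSpace M] [ChartedSpace (EuclideanHalfSpace 2) M]
  [IsManifold (𝓡∂ 2) ∞ M] [T2Space M] [CompactSpace M]

/-- A finite smooth partition of unity subordinate to chart sources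
(`SmoothPartitionOfUnity.exists_isSubordinate_chartAt_source`, `LocallyFinite.finite_nonempty_of_compact`,
`finsum_eq_sum_of_support_subset`). -/
lemma exists_pou : ∃ (F : Finset M) (ρ : M → M → ℝ),
    (∀ q, ContMDiff (𝓡∂ 2) 𝓘(ℝ, ℝ) ∞ (ρ q)) ∧ (∀ q x, 0 ≤ ρ q x) ∧
    (∀ q, tsupport (ρ q) ⊆ (ch q).source) ∧ ∀ x, ∑ q ∈ F, ρ q x = 1 := by
  obtain ⟨f, hf⟩ := SmoothPartitionOfUnity.exists_isSubordinate_chartAt_source (𝓡∂ 2) M
  have hfin := f.locallyFinite.finite_nonempty_of_compact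
  refine ⟨hfin.toFinset, fun q x => f q x, fun q => (f q).contMDiff, fun q x => f.nonneg q x,
    fun q => ?_, fun x => ?_⟩
  · rw [extChartAt_source]
    exact hf q
  · refine f.sum_finsupport' x (mem_univ x) fun i hi => ?_
    rw [Set.Finite.mem_toFinset]
    exact ⟨x, (f.mem_finsupport x).1 hi⟩

/-- The chart independent derivative of `f` along the tangential part of `η`. -/
noncomputable def dM (φ : M → E3) (η : E3 → E3) (f : M → ℝ) (x : M) : ℝ :=
  dv (fderivWithin ℝ (inChart φ x) HP (ch x x)) (fderivWithin ℝ (f ∘ (ch x).symm) HP (ch x x))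
    (η (φ x))

omit [T2Space M] [CompactSpace M] in
lemma GFirst_diff {f : M → ℝ} (hf : ContMDiff (𝓡∂ 2) 𝓘(ℝ, ℝ) ∞ f) {q x : M}
    (hx : x ∈ (ch q).source) : DifferentiableWithinAt ℝ (f ∘ (ch q).symm) HP (ch q x) :=
  (rel_hasFDeriv (ch_nhds q) (contDiffOn_ch le_rfl hf q) (by simp)
    ((ch q).map_source hx)).differentiableWithinAt

omit [T2Space M] [CompactSpace M] in
/-- `ch_chain` for `φ` and `f`, `dv_comp`. -/
lemma dM_eq {φ : M → E3} (h : IsFBMS φ) (η : E3 → E3) {f : M → ℝ}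
    (hf : ContMDiff (𝓡∂ 2) 𝓘(ℝ, ℝ) ∞ f) {q x : M} (hx : x ∈ (ch q).source) :
    dM φ η f x = dv (fderivWithin ℝ (inChart φ q) HP (ch q x))
      (fderivWithin ℝ (f ∘ (ch q).symm) HP (ch q x)) (η (φ x)) := by
  have hxx : x ∈ (ch x).source := mem_extChartAt_source x
  have h1 : DifferentiableWithinAt ℝ (φ ∘ (ch q).symm) HP (ch q x) :=
    (rel_hasFDeriv (ch_nhds q) (h.patch q).smooth (by norm_num)
      ((ch q).map_source hx)).differentiableWithinAt
  have e1 : fderivWithin ℝ (inChart φ x) HP (ch x x) =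
      (fderivWithin ℝ (inChart φ q) HP (ch q x)).comp
        (fderivWithin ℝ (ch q ∘ (ch x).symm) HP (ch x x)) := ch_chain hxx hx h1
  have e2 := ch_chain hxx hx (GFirst_diff hf hx)
  have hi := (h.patch x).inj _ ((ch x).map_source hxx)
  unfold dM
  rw [e1] at hi
  rw [e1, e2]
  exact dv_comp ((h.patch q).inj _ ((ch q).map_source hx)) hi _ _

omit [T2Space M] [CompactSpace M] in
/-- `f ∘ (ch x).symm` vanishes near `ch x x` within `HP`. -/
lemma dM_zero (φ : M → E3) (η : E3 → E3) {f : M → ℝ} {x : M} (hx : x ∉ tsupport f) :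
    dM φ η f x = 0 := by
  have h1 : f =ᶠ[𝓝 x] 0 := notMem_tsupport_iff_eventuallyEq.1 hx
  have h2 : Tendsto (ch x).symm (𝓝 (ch x x)) (𝓝 x) := by
    have := continuousAt_extChartAt_symm (I := 𝓡∂ 2) x
    rwa [ContinuousAt, extChartAt_to_inv] at this
  have h3 : (f ∘ (ch x).symm) =ᶠ[𝓝 (ch x x)] fun _ => (0 : ℝ) := h2.eventually h1
  unfold dM
  rw [h3.fderivWithin_eq_of_nhds, fderivWithin_fun_const]
  exact dv_zero _ _

omit [T2Space M] [CompactSpace M] in
/-- `dv_sum`, `fderivWithin_fun_sum`, the sum is constant. -/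
lemma dM_sum (φ : M → E3) (η : E3 → E3) {F : Finset M} {ρ : M → M → ℝ}
    (hρ : ∀ q, ContMDiff (𝓡∂ 2) 𝓘(ℝ, ℝ) ∞ (ρ q)) (h1 : ∀ x, ∑ q ∈ F, ρ q x = 1) (x : M) :
    ∑ q ∈ F, dM φ η (ρ q) x = 0 := by
  have hxx : x ∈ (ch x).source := mem_extChartAt_source x
  have hu : UniqueDiffWithinAt ℝ HP (ch x x) :=
    uniqueDiffOn_HP _ (ch_sub x ((ch x).map_source hxx))
  unfold dM
  rw [← dv_sum, ← fderivWithin_fun_sum hu fun q _ => GFirst_diff (hρ q) hxx]
  have : (fun y => ∑ q ∈ F, (ρ q ∘ (ch x).symm) y) = fun _ => (1 : ℝ) := by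
    funext y
    exact h1 _
  rw [this, fderivWithin_fun_const]
  exact dv_zero _ _

variable [MeasurableSpace M] [BorelSpace M]

/-- One chart of the first variation inequality. -/
lemma GFirst_chart {φ : M → E3} (h : IsFBMS φ) {η : E3 → E3} (hη : DivLe η) {f : M → ℝ}
    (hf : ContMDiff (𝓡∂ 2) 𝓘(ℝ, ℝ) ∞ f) (h0 : ∀ x, 0 ≤ f x) {q : M}
    (hs : tsupport f ⊆ (ch q).source) :
    Integrable (fun x => f x + dM φ η f x) (areaMeasure φ) ∧
    ∫ s in {s : ℝ | ln s ∈ (ch q).target},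
      f ((ch q).symm (ln s)) * ⟪η (inChart φ q (ln s)), inChart φ q (ln s)⟫_ℝ *
        ‖pd 1 (inChart φ q) (ln s)‖ ≤ ∫ x, (f x + dM φ η f x) ∂areaMeasure φ := by
  have P := h.patch q
  have hr : ContDiffOn ℝ 1 (f ∘ (ch q).symm) (ch q).target :=
    (contDiffOn_ch le_rfl hf q).of_le (by simp)
  have hK : IsCompact (ch q '' tsupport f) :=
    (isClosed_tsupport f).isCompact.image_of_continuousOn
      ((continuousOn_extChartAt (I := 𝓡∂ 2) q).mono hs)
  have hKT : ch q '' tsupport f ⊆ (ch q).target := by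
    rintro _ ⟨x, hx, rfl⟩
    exact (ch q).map_source (hs hx)
  have hz : ∀ y ∈ (ch q).target \ ch q '' tsupport f, (f ∘ (ch q).symm) y = 0 := by
    rintro y ⟨hy, hy'⟩
    exact image_eq_zero_of_notMem_tsupport (f := f) fun hc => hy' ⟨_, hc, (ch q).right_inv hy⟩
  have hloc := P.local_fv hη hr hK hKT (fun y _ => h0 _) hz
  have hdv := P.continuousOn_dv hη hr
  have key : ∀ y ∈ (ch q).target, dM φ η f ((ch q).symm y) =
      dv (fderivWithin ℝ (inChart φ q) HP y) (fderivWithin ℝ (f ∘ (ch q).symm) HP y)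
        (η (inChart φ q y)) := by
    intro y hy
    rw [dM_eq h η hf ((ch q).map_target hy), (ch q).right_inv hy]
    rfl
  have hmeas : MeasurableSet (ch q).target := rel_meas (ch_sub q) (ch_nhds q)
  have hcont : ContinuousOn (fun x => f x + dM φ η f x) (ch q).source := by
    refine hf.continuous.continuousOn.add ?_
    refine (hdv.comp (continuousOn_extChartAt (I := 𝓡∂ 2) q)
      fun x hx => (ch q).map_source hx).congr fun x hx => ?_
    have := key _ ((ch q).map_source hx)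
    rwa [(ch q).left_inv hx] at this
  have hzero : ∀ x ∉ (ch q).source, f x + dM φ η f x = 0 := by
    intro x hx
    have hx' : x ∉ tsupport f := fun hc => hx (hs hc)
    rw [image_eq_zero_of_notMem_tsupport hx', dM_zero φ η hx', add_zero]
  have hint : IntegrableOn (fun y => (f ((ch q).symm y) + dM φ η f ((ch q).symm y)) *
      areaEl (inChart φ q) y) (ch q).target := by
    refine integrableOn_of_compact hmeas hK hKT ?_ ?_
    · refine ((hr.continuousOn.add hdv).mul P.contDiffOn_areaEl.continuousOn).congr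
        fun y hy => ?_
      simp only [key y hy]
      rfl
    · intro y hy
      have h1 : f ((ch q).symm y) = 0 := hz y hy
      rw [key y hy.1, fderivWithin_zero_off (ch_nhds q) hK hz hy, dv_zero, h1, add_zero, zero_mul]
  obtain ⟨i1, i2⟩ := integral_chart h q hcont hzero hint
  refine ⟨i1, ?_⟩
  rw [i2]
  refine le_of_le_of_eq hloc (setIntegral_congr_fun hmeas fun y hy => ?_)
  simp only [key y hy]
  rfl

/-- `Patch.local_fv` in the chart at `q` with `r = ρ q ∘ (ch q).symm`, `K = ch q '' tsupport (ρ q)`;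
`integral_chart` for `f = ρ q + dM φ η (ρ q)`; the sum of these functions is `1`. -/
theorem first_variation {φ : M → E3} (h : IsFBMS φ) {η : E3 → E3} (hη : DivLe η) {F : Finset M}
    {ρ : M → M → ℝ} (hρ : ∀ q, ContMDiff (𝓡∂ 2) 𝓘(ℝ, ℝ) ∞ (ρ q)) (h0 : ∀ q x, 0 ≤ ρ q x)
    (hs : ∀ q, tsupport (ρ q) ⊆ (ch q).source) (h1 : ∀ x, ∑ q ∈ F, ρ q x = 1) :
    ∑ q ∈ F, ∫ s in {s : ℝ | ln s ∈ (ch q).target},
      ρ q ((ch q).symm (ln s)) * ⟪η (inChart φ q (ln s)), inChart φ q (ln s)⟫_ℝ *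
        ‖pd 1 (inChart φ q) (ln s)‖ ≤ surfaceArea φ := by
  have := areaMeasure_finite h
  have H := fun q => GFirst_chart h hη (hρ q) (h0 q) (hs q)
  refine (Finset.sum_le_sum fun q _ => (H q).2).trans_eq ?_
  rw [← integral_finsetSum _ fun q _ => (H q).1]
  have e : (fun x => ∑ q ∈ F, (ρ q x + dM φ η (ρ q) x)) = fun _ => (1 : ℝ) := by
    funext x
    rw [Finset.sum_add_distrib, h1, dM_sum φ η hρ h1, add_zero]
  rw [e, integral_const, smul_eq_mul, mul_one]
  rfl

end Pool.Agent.Lib.MP_14b623_gt
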