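import Pool.Agent.Lib.MP_14b623_gt.GBase

namespace Pool.Agent.Lib.MP_14b623_gt

open Set MeasureTheory Filter Topology Function
open scoped InnerProductSpace Manifold ContDiff

/-! Linear algebra of the first fundamental form. -/

lemma GLin_map {F : Type*} [NormedAddCommGroup F] [NormedSpace ℝ F] (A : E2 →L[ℝ] F) (v : E2) :
    A v = v 0 • A (ev 0) + v 1 • A (ev 1) := by
  conv_lhs => rw [e2_eq v, map_add, map_smul, map_smul]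

lemma GLin_pos {A : E2 →L[ℝ] E3} (hA : Injective A) {v : E2} {i : Fin 2} (h : v i ≠ 0) :
    0 < ⟪A v, A v⟫_ℝ := by
  refine real_inner_self_pos.2 fun e => h ?_
  rw [hA (e.trans (map_zero A).symm)]
  rfl

lemma GLin_ev {A : E2 →L[ℝ] E3} (hA : Injective A) (i : Fin 2) : 0 < ⟪A (ev i), A (ev i)⟫_ℝ :=
  GLin_pos hA (i := i) (by simp)

lemma GLin_norm {u : E3} (h : ⟪u, u⟫_ℝ = 1) : ‖u‖ = 1 := by
  rw [norm_eq_sqrt_real_inner, h, Real.sqrt_one]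

/-- Gram determinant of an injective map: if it were `≤ 0`, `A (G e₀ - F e₁)` has squared norm
`G (E G - F²) ≤ 0`, so `G e₀ - F e₁ = 0`, but `G = |A e₁|² ≠ 0`. -/
lemma gram_pos {A : E2 →L[ℝ] E3} (hA : Injective A) :
    0 < ⟪A (ev 0), A (ev 0)⟫_ℝ * ⟪A (ev 1), A (ev 1)⟫_ℝ - ⟪A (ev 0), A (ev 1)⟫_ℝ ^ 2 := by
  have hG := GLin_ev hA 1
  have h := GLin_pos hA (v := ⟪A (ev 1), A (ev 1)⟫_ℝ • ev 0 - ⟪A (ev 0), A (ev 1)⟫_ℝ • ev 1)
    (i := 0) (by simpa only [PiLp.sub_apply, PiLp.smul_apply, PiLp.single_apply, if_true,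
      zero_ne_one, if_false, smul_eq_mul, mul_one, mul_zero, sub_zero] using hG.ne')
  simp only [map_sub, map_smul, inner_sub_left, inner_sub_right, real_inner_smul_left,
    real_inner_smul_right, real_inner_comm (A (ev 0)) (A (ev 1))] at h
  refine pos_of_mul_pos_left (b := ⟪A (ev 1), A (ev 1)⟫_ℝ) ?_ hG.le
  linarith

lemma jac_pos {A : E2 →L[ℝ] E3} (hA : Injective A) : 0 < jac (A (ev 0)) (A (ev 1)) :=
  Real.sqrt_pos.2 (gram_pos hA)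

lemma jac_sq {A : E2 →L[ℝ] E3} (hA : Injective A) : jac (A (ev 0)) (A (ev 1)) ^ 2 =
    ⟪A (ev 0), A (ev 0)⟫_ℝ * ⟪A (ev 1), A (ev 1)⟫_ℝ - ⟪A (ev 0), A (ev 1)⟫_ℝ ^ 2 :=
  Real.sq_sqrt (gram_pos hA).le

/-- Determinant in coordinates (`LinearMap.det_toLin`/`Matrix.det_fin_two` with the basis
`PiLp.basisFun` or `EuclideanSpace.basisFun`). -/
lemma det_e2 (τ : E2 →L[ℝ] E2) :
    τ.det = τ (ev 0) 0 * τ (ev 1) 1 - τ (ev 1) 0 * τ (ev 0) 1 := by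
  rw [ContinuousLinearMap.det, ← LinearMap.det_toMatrix (EuclideanSpace.basisFun (Fin 2) ℝ).toBasis,
    Matrix.det_fin_two]
  simp [LinearMap.toMatrix_apply]

/-- Write `τ eᵢ` with `e2_eq`, expand the inner products, `√(d² g) = |d| √g`. -/
lemma jac_comp (A : E2 →L[ℝ] E3) (τ : E2 →L[ℝ] E2) :
    jac (A (τ (ev 0))) (A (τ (ev 1))) = |τ.det| * jac (A (ev 0)) (A (ev 1)) := by
  rw [jac, jac, ← Real.sqrt_sq_eq_abs, ← Real.sqrt_mul (sq_nonneg _), det_e2,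
    GLin_map A (τ (ev 0)), GLin_map A (τ (ev 1))]
  congr 1
  simp only [inner_add_left, inner_add_right, real_inner_smul_left, real_inner_smul_right,
    real_inner_comm (A (ev 0)) (A (ev 1))]
  ring

/-- `dv A L z = L w` where `A w` is the tangential part of `z`. In coordinates
`dv = (L₀ (G z₀ - F z₁) + L₁ (E z₁ - F z₀)) / (E G - F²)`, `zᵢ = ⟪z, A eᵢ⟫`. -/
lemma dv_eq {A : E2 →L[ℝ] E3} (hA : Injective A) (L : E2 →L[ℝ] ℝ) (z : E3) (w : E2)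
    (hw : ∀ v, ⟪A w, A v⟫_ℝ = ⟪z, A v⟫_ℝ) : dv A L z = L w := by
  have hJ := (jac_pos hA).ne'
  have h0 := hw (ev 0)
  have h1 := hw (ev 1)
  rw [GLin_map A w] at h0 h1
  simp only [inner_add_left, real_inner_smul_left, real_inner_comm (A (ev 0)) (A (ev 1))] at h0 h1
  rw [GLin_map L w]
  simp only [dv, wv0, wv1, inner_sub_right, real_inner_smul_right, ← h0, ← h1, smul_eq_mul]
  field_simp
  rw [jac_sq hA]
  ring

lemma exists_tan {A : E2 →L[ℝ] E3} (hA : Injective A) (z : E3) :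
    ∃ w : E2, ∀ v, ⟪A w, A v⟫_ℝ = ⟪z, A v⟫_ℝ := by
  have hJ := (gram_pos hA).ne'
  refine ⟨(⟪A (ev 0), A (ev 0)⟫_ℝ * ⟪A (ev 1), A (ev 1)⟫_ℝ - ⟪A (ev 0), A (ev 1)⟫_ℝ ^ 2)⁻¹ •
    ((⟪A (ev 1), A (ev 1)⟫_ℝ * ⟪z, A (ev 0)⟫_ℝ - ⟪A (ev 0), A (ev 1)⟫_ℝ * ⟪z, A (ev 1)⟫_ℝ) • ev 0 +
    (⟪A (ev 0), A (ev 0)⟫_ℝ * ⟪z, A (ev 1)⟫_ℝ - ⟪A (ev 0), A (ev 1)⟫_ℝ * ⟪z, A (ev 0)⟫_ℝ) • ev 1),
    fun v => ?_⟩
  rw [GLin_map A v]
  simp only [map_add, map_smul, inner_add_left, inner_add_right, real_inner_smul_left,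
    real_inner_smul_right, real_inner_comm (A (ev 0)) (A (ev 1))]
  field_simp
  ring

/-- Chart invariance: `τ` is injective, hence surjective; use `exists_tan` and `dv_eq`. -/
lemma dv_comp {A : E2 →L[ℝ] E3} {τ : E2 →L[ℝ] E2} (hA : Injective A)
    (hτ : Injective (A.comp τ)) (L : E2 →L[ℝ] ℝ) (z : E3) :
    dv (A.comp τ) (L.comp τ) z = dv A L z := by
  have h1 : Surjective τ := (LinearMap.injective_iff_surjective (f := (τ : E2 →ₗ[ℝ] E2))).1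
    (Injective.of_comp (f := A) hτ)
  obtain ⟨w, hw⟩ := exists_tan hA z
  obtain ⟨w, rfl⟩ := h1 w
  rw [dv_eq hA L z _ hw, dv_eq hτ (L.comp τ) z w fun v => hw (τ v)]
  rfl

lemma dv_sum {ι : Type*} (F : Finset ι) (A : E2 →L[ℝ] E3) (L : ι → E2 →L[ℝ] ℝ) (z : E3) :
    dv A (∑ i ∈ F, L i) z = ∑ i ∈ F, dv A (L i) z := by
  simp only [dv, _root_.sum_apply, Finset.sum_mul, ← Finset.sum_add_distrib,
    Finset.sum_div]

lemma dv_zero (A : E2 →L[ℝ] E3) (z : E3) : dv A 0 z = 0 := by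
  simp [dv]

/-- Gram-Schmidt: `u = a / √E`, `v = (E b - F a) / (√E J)`; the left side is `J` times the trace
of `L` on the plane. -/
lemma trace_le {A : E2 →L[ℝ] E3} (hA : Injective A) (L : E3 →L[ℝ] E3)
    (hL : ∀ u v : E3, ‖u‖ = 1 → ‖v‖ = 1 → ⟪u, v⟫_ℝ = 0 → ⟪L u, u⟫_ℝ + ⟪L v, v⟫_ℝ ≤ 1) :
    ⟪L (A (ev 0)), wv0 (A (ev 0)) (A (ev 1))⟫_ℝ + ⟪L (A (ev 1)), wv1 (A (ev 0)) (A (ev 1))⟫_ℝ ≤
      jac (A (ev 0)) (A (ev 1)) := by
  have hJ := jac_pos hA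
  have hJ2 := jac_sq hA
  have hE := GLin_ev hA 0
  simp only [wv0, wv1]
  generalize jac (A (ev 0)) (A (ev 1)) = J at hJ hJ2 ⊢
  generalize A (ev 0) = a at hJ2 hE ⊢
  generalize A (ev 1) = b at hJ2 ⊢
  obtain ⟨s, hs, hs2⟩ : ∃ s : ℝ, 0 < s ∧ ⟪a, a⟫_ℝ = s ^ 2 :=
    ⟨_, Real.sqrt_pos.2 hE, (Real.sq_sqrt hE.le).symm⟩
  have hG : ⟪b, b⟫_ℝ = (J ^ 2 + ⟪a, b⟫_ℝ ^ 2) / s ^ 2 := by
    rw [eq_div_iff (pow_pos hs 2).ne', hJ2, hs2]
    ring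
  have h := hL (s⁻¹ • a) ((s * J)⁻¹ • (⟪a, a⟫_ℝ • b - ⟪a, b⟫_ℝ • a)) (GLin_norm ?_) (GLin_norm ?_) ?_
  · refine le_of_eq_of_le ?_ ((mul_le_mul_of_nonneg_left h hJ.le).trans_eq (mul_one J))
    simp only [map_sub, map_smul, inner_sub_left, inner_sub_right, real_inner_smul_left,
      real_inner_smul_right, hs2, hG]
    field_simp
    ring
  all_goals
    simp only [inner_sub_left, inner_sub_right, real_inner_smul_left, real_inner_smul_right,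
      real_inner_comm a b, hs2, hG]
    field_simp
  all_goals ring

/-- At a boundary point: `x = A v` is a unit vector orthogonal to `b = A e₁` with `⟪x, a⟫ ≤ 0`.
Then `x = v₀ a + v₁ b`, `v₁ G = - v₀ F`, so `G x = v₀ (G a - F b)`, `v₀² J² = G`, and
`1 = ⟪x, x⟫ = v₀ ⟪x, a⟫` gives `v₀ < 0`. -/
lemma wv0_bdry {A : E2 →L[ℝ] E3} (hA : Injective A) {x : E3} {v : E2} (hv : A v = x)
    (hx : ‖x‖ = 1) (h1 : ⟪x, A (ev 1)⟫_ℝ = 0) (h0 : ⟪x, A (ev 0)⟫_ℝ ≤ 0) :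
    wv0 (A (ev 0)) (A (ev 1)) = -(‖A (ev 1)‖ • x) := by
  have hJ := jac_pos hA
  have hJ2 := jac_sq hA
  have hx2 : ⟪x, x⟫_ℝ = 1 := by rw [real_inner_self_eq_norm_sq, hx, one_pow]
  have hb := real_inner_self_eq_norm_sq (A (ev 1))
  have hb0 := norm_nonneg (A (ev 1))
  rw [GLin_map A v] at hv
  simp only [wv0]
  generalize jac (A (ev 0)) (A (ev 1)) = J at hJ hJ2 ⊢
  generalize A (ev 0) = a at hJ2 hv h0 ⊢
  generalize A (ev 1) = b at hJ2 hv h1 hb hb0 ⊢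
  generalize v 0 = p at hv
  generalize v 1 = q at hv
  have e1 : p * ⟪x, a⟫_ℝ = 1 := by
    rw [← hx2]
    conv_rhs => rw [← congrArg (fun y => ⟪x, y⟫_ℝ) hv]
    simp only [inner_add_right, real_inner_smul_right, h1, mul_zero, add_zero]
  have e2 : ⟪x, a⟫_ℝ = p * ⟪a, a⟫_ℝ + q * ⟪a, b⟫_ℝ := by
    rw [← hv]
    simp only [inner_add_left, real_inner_smul_left, real_inner_comm a b]
  have e3 : p * ⟪a, b⟫_ℝ + q * ⟪b, b⟫_ℝ = 0 := by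
    rw [← h1, ← hv]
    simp only [inner_add_left, real_inner_smul_left]
  have hp : p < 0 := by
    by_contra h
    have := mul_nonpos_of_nonneg_of_nonpos (not_lt.1 h) h0
    linarith
  have e4 : ⟪b, b⟫_ℝ = (p * J) ^ 2 := by
    rw [mul_pow, hJ2]
    linear_combination (-⟪b, b⟫_ℝ) * e1 + p * ⟪b, b⟫_ℝ * e2 + p * ⟪a, b⟫_ℝ * e3
  have e5 : ‖b‖ = -(p * J) := by
    rw [← sq_eq_sq₀ hb0 (neg_nonneg.2 (mul_neg_of_neg_of_pos hp hJ).le), ← hb, e4, neg_sq]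
  have e6 : ⟪a, b⟫_ℝ = -(p * q * J ^ 2) := by
    refine mul_left_cancel₀ hp.ne ?_
    linear_combination e3 - q * e4
  rw [e5, ← hv, e4, e6]
  match_scalars <;> field_simp

end Pool.Agent.Lib.MP_14b623_gt
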