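import Mathlib

/-! A compact set with an atlas of arcs whose transitions are `r ↦ c ± r` carries a simple closed
curve through every point. -/

namespace Pool.Agent.Lib.MP_14b623_gt

open Set Filter Topology Function

variable {M : Type*} [TopologicalSpace M]

/-- Arcs `α b : (-ε b, ε b) → K` with isometric transitions. -/
structure IsoAtlas (K : Set M) where
  ε : M → ℝ
  α : M → ℝ → M
  pos : ∀ b ∈ K, 0 < ε b
  zero : ∀ b ∈ K, α b 0 = b
  cont : ∀ b ∈ K, ContinuousOn (α b) (Ioo (-ε b) (ε b))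
  inj : ∀ b ∈ K, InjOn (α b) (Ioo (-ε b) (ε b))
  mem : ∀ b ∈ K, ∀ s ∈ Ioo (-ε b) (ε b), α b s ∈ K
  nhds : ∀ b ∈ K, ∀ U ∈ 𝓝 (0 : ℝ), α b '' U ∈ 𝓝[K] b
  trans : ∀ b ∈ K, ∀ b' ∈ K, ∀ s ∈ Ioo (-ε b) (ε b), ∀ t ∈ Ioo (-ε b') (ε b'), α b s = α b' t →
    ∃ σ : ℝ, (σ = 1 ∨ σ = -1) ∧ ∀ᶠ r in 𝓝 (0 : ℝ), α b (s + r) = α b' (t + σ * r)

namespace IsoAtlas

variable {K : Set M} (A : IsoAtlas K)

/-- Near `t` the curve `γ` runs through an arc of the atlas with unit speed. -/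
def GeoAt (γ : ℝ → M) (t : ℝ) : Prop :=
  ∃ b ∈ K, ∃ s ∈ Ioo (-A.ε b) (A.ε b), ∃ σ : ℝ, (σ = 1 ∨ σ = -1) ∧
    ∀ᶠ r in 𝓝 (0 : ℝ), γ (t + r) = A.α b (s + σ * r)

variable {A}

lemma tend_mul (σ : ℝ) : Tendsto (fun r : ℝ => σ * r) (𝓝 0) (𝓝 0) := by
  have : Continuous fun r : ℝ => σ * r := by fun_prop
  simpa using this.tendsto 0

lemma tend_add (t : ℝ) : Tendsto (fun r : ℝ => t + r) (𝓝 0) (𝓝 t) := by
  have : Continuous fun r : ℝ => t + r := by fun_prop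
  simpa using this.tendsto 0

lemma tend_sub (t : ℝ) : Tendsto (fun r : ℝ => r - t) (𝓝 t) (𝓝 0) := by
  have : Continuous fun r : ℝ => r - t := by fun_prop
  simpa using this.tendsto t

lemma sign_mul {σ τ : ℝ} (h : σ = 1 ∨ σ = -1) (h' : τ = 1 ∨ τ = -1) :
    σ * τ = 1 ∨ σ * τ = -1 := by
  rcases h with rfl | rfl <;> rcases h' with rfl | rfl <;> simp

lemma sign_sq {σ : ℝ} (h : σ = 1 ∨ σ = -1) : σ * σ = 1 := by
  rcases h with rfl | rfl <;> simp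

lemma GeoAt.congr {γ γ' : ℝ → M} {t : ℝ} (h : A.GeoAt γ t) (he : γ' =ᶠ[𝓝 t] γ) :
    A.GeoAt γ' t := by
  obtain ⟨b, hb, s, hs, σ, hσ, h⟩ := h
  refine ⟨b, hb, s, hs, σ, hσ, ?_⟩
  filter_upwards [h, (tend_add t).eventually he] with r h1 h2
  rw [h2, h1]

lemma GeoAt.affine {γ : ℝ → M} {c τ t : ℝ} (hτ : τ = 1 ∨ τ = -1) (h : A.GeoAt γ (c + τ * t)) :
    A.GeoAt (fun r => γ (c + τ * r)) t := by
  obtain ⟨b, hb, s, hs, σ, hσ, h⟩ := h
  refine ⟨b, hb, s, hs, σ * τ, sign_mul hσ hτ, ?_⟩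
  filter_upwards [(tend_mul τ).eventually h] with r h1
  rw [mul_add, ← add_assoc, h1, mul_assoc]

lemma geoAt_arc {b : M} (hb : b ∈ K) {s : ℝ} (hs : s ∈ Ioo (-A.ε b) (A.ε b)) :
    A.GeoAt (A.α b) s :=
  ⟨b, hb, s, hs, 1, Or.inl rfl, Eventually.of_forall fun r => by rw [one_mul]⟩

lemma GeoAt.mem {γ : ℝ → M} {t : ℝ} (h : A.GeoAt γ t) : γ t ∈ K := by
  obtain ⟨b, hb, s, hs, σ, -, h⟩ := h
  have := h.self_of_nhds
  rw [add_zero, mul_zero, add_zero] at this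
  exact this ▸ A.mem b hb s hs

lemma GeoAt.continuousAt {γ : ℝ → M} {t : ℝ} (h : A.GeoAt γ t) : ContinuousAt γ t := by
  obtain ⟨b, hb, s, hs, σ, -, h⟩ := h
  have h1 : ContinuousAt (A.α b) s := (A.cont b hb).continuousAt (isOpen_Ioo.mem_nhds hs)
  have h2 : ContinuousAt (fun r => A.α b (s + σ * (r - t))) t := by
    refine ContinuousAt.comp (by simpa using h1) (by fun_prop)
  refine h2.congr ?_
  filter_upwards [(tend_sub t).eventually h] with r h3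
  rw [← h3, add_sub_cancel]

lemma GeoAt.alt {γ γ' : ℝ → M} {t t' : ℝ} (h : A.GeoAt γ t) (h' : A.GeoAt γ' t')
    (he : γ t = γ' t') :
    ∃ σ : ℝ, (σ = 1 ∨ σ = -1) ∧ ∀ᶠ r in 𝓝 (0 : ℝ), γ (t + r) = γ' (t' + σ * r) := by
  obtain ⟨b, hb, s, hs, σ, hσ, h⟩ := h
  obtain ⟨b', hb', s', hs', σ', hσ', h'⟩ := h'
  have e1 := h.self_of_nhds
  have e2 := h'.self_of_nhds
  rw [add_zero, mul_zero, add_zero] at e1 e2
  obtain ⟨τ, hτ, h2⟩ := A.trans b hb b' hb' s hs s' hs' (by rw [← e1, ← e2, he])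
  refine ⟨σ' * (τ * σ), sign_mul hσ' (sign_mul hτ hσ), ?_⟩
  filter_upwards [h, (tend_mul σ).eventually h2, (tend_mul (σ' * (τ * σ))).eventually h']
    with r h3 h4 h5
  rw [h3, h4, h5]
  congr 2
  have := sign_sq hσ'
  linear_combination (-(τ * σ * r)) * this

lemma GeoAt.locinj {γ : ℝ → M} {t : ℝ} (h : A.GeoAt γ t) :
    ∃ η > 0, InjOn γ (Ioo (t - η) (t + η)) := by
  obtain ⟨b, hb, s, hs, σ, hσ, h⟩ := h
  have h1 : ∀ᶠ r in 𝓝 (0 : ℝ), s + σ * r ∈ Ioo (-A.ε b) (A.ε b) :=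
    ((tend_add s).comp (tend_mul σ)).eventually (isOpen_Ioo.mem_nhds hs)
  obtain ⟨η, hη, h2⟩ := Metric.eventually_nhds_iff.1 (h.and h1)
  refine ⟨η, hη, fun x hx y hy hxy => ?_⟩
  have hx' := h2 (y := x - t) (by rw [Real.dist_eq, sub_zero, abs_lt]; constructor <;> linarith [hx.1, hx.2])
  have hy' := h2 (y := y - t) (by rw [Real.dist_eq, sub_zero, abs_lt]; constructor <;> linarith [hy.1, hy.2])
  rw [add_sub_cancel] at hx' hy'
  have h3 := A.inj b hb hx'.2 hy'.2 (by rw [← hx'.1, ← hy'.1, hxy])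
  rcases hσ with rfl | rfl <;> linarith

variable [T2Space M]

/-- Uniqueness. -/
lemma geo_unique {γ γ' : ℝ → M} {U : Set ℝ} (hU : IsPreconnected U) (h : ∀ t ∈ U, A.GeoAt γ t)
    (h' : ∀ t ∈ U, A.GeoAt γ' t) {t₀ : ℝ} (ht₀ : t₀ ∈ U) (he : γ =ᶠ[𝓝 t₀] γ') : EqOn γ γ' U := by
  have key : U ⊆ {t | γ =ᶠ[𝓝 t] γ'} := by
    refine hU.subset_of_closure_inter_subset isOpen_setOfPred_eventually_nhds ⟨t₀, ht₀, he⟩ ?_
    rintro t ⟨ht, htU⟩
    have hfr : ∃ᶠ x in 𝓝 t, γ =ᶠ[𝓝 x] γ' := mem_closure_iff_frequently.1 ht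
    have h0 : γ t = γ' t := tendsto_nhds_unique_of_frequently_eq (h t htU).continuousAt
      (h' t htU).continuousAt (hfr.mono fun x hx => hx.self_of_nhds)
    obtain ⟨σ, hσ, h1⟩ := (h t htU).alt (h' t htU) h0
    rcases hσ with rfl | rfl
    · filter_upwards [(tend_sub t).eventually h1] with r h2
      simpa using h2
    · exfalso
      obtain ⟨η, hη, h2⟩ := (h' t htU).locinj
      have h3 : ∀ᶠ x in 𝓝 t, γ x = γ' (2 * t - x) ∧ x ∈ Ioo (t - η) (t + η) := by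
        filter_upwards [(tend_sub t).eventually h1, Ioo_mem_nhds (show t - η < t by linarith)
          (show t < t + η by linarith)] with r h4 h5
        refine ⟨?_, h5⟩
        rw [add_sub_cancel] at h4
        rw [h4]; congr 1; ring
      obtain ⟨x, hx1, hx2⟩ := (hfr.and_eventually h3.eventually_nhds).exists
      have h4 : ∀ᶠ y in 𝓝 x, y = t := by
        filter_upwards [hx1, hx2] with y h5 h6
        have := h2 h6.2 (show 2 * t - y ∈ Ioo (t - η) (t + η) from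
          ⟨by linarith [h6.2.2], by linarith [h6.2.1]⟩) (by rw [← h5, h6.1])
        linarith
      obtain ⟨ρ, hρ, h5⟩ := Metric.eventually_nhds_iff.1 h4
      have e1 := h5 (y := x) (by simpa using hρ)
      have e2 := h5 (y := x + ρ / 2) (by
        rw [Real.dist_eq, add_sub_cancel_left, abs_of_pos (by linarith)]; linarith)
      linarith
  exact fun t ht => (key ht).self_of_nhds

omit [T2Space M] in
lemma exists_cover (hK : IsCompact K) (η : M → ℝ) (hη : ∀ b ∈ K, 0 < η b) :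
    ∃ F : Finset M, (∀ b ∈ F, b ∈ K) ∧ ∀ x ∈ K, ∃ b ∈ F, ∃ s ∈ Ioo (-η b) (η b), A.α b s = x := by
  obtain ⟨F, h1, h2⟩ := hK.elim_nhdsWithin_subcover (fun b => A.α b '' Ioo (-η b) (η b))
    fun b hb => A.nhds b hb _ (Ioo_mem_nhds (by linarith [hη b hb]) (hη b hb))
  refine ⟨F, h1, fun x hx => ?_⟩
  obtain ⟨b, hb, hx⟩ := mem_iUnion₂.1 (h2 hx)
  exact ⟨b, hb, hx⟩

omit [T2Space M] in
lemma exists_radius (hK : IsCompact K) : ∃ δ > 0, ∀ x ∈ K, ∃ β : ℝ → M, β 0 = x ∧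
    ∀ t ∈ Ioo (-δ) δ, A.GeoAt β t := by
  obtain ⟨F, h1, h2⟩ := exists_cover (A := A) hK (fun b => A.ε b / 2)
    fun b hb => half_pos (A.pos b hb)
  obtain ⟨δ, hδ, h3⟩ : ∃ δ > 0, ∀ b ∈ F, δ ≤ A.ε b / 2 := by
    rcases F.eq_empty_or_nonempty with rfl | hF
    · exact ⟨1, one_pos, by simp⟩
    · obtain ⟨b, hb, h⟩ := F.exists_min_image (fun b => A.ε b / 2) hF
      exact ⟨_, half_pos (A.pos b (h1 b hb)), h⟩
  refine ⟨δ, hδ, fun x hx => ?_⟩
  obtain ⟨b, hb, s, hs, rfl⟩ := h2 x hx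
  refine ⟨fun r => A.α b (s + 1 * r), by simp, fun t ht => ?_⟩
  have := h3 b hb
  exact (geoAt_arc (h1 b hb) ⟨by linarith [hs.1, ht.1], by linarith [hs.2, ht.2]⟩).affine
    (Or.inl rfl)

lemma extend_right {δ : ℝ} (hδ : 0 < δ) (hβ : ∀ x ∈ K, ∃ β : ℝ → M, β 0 = x ∧
    ∀ t ∈ Ioo (-δ) δ, A.GeoAt β t) {γ : ℝ → M} {a b : ℝ} (hab : a < b)
    (h : ∀ t ∈ Ioo a b, A.GeoAt γ t) :
    ∃ γ' : ℝ → M, (∀ t ∈ Ioo a (b + δ / 2), A.GeoAt γ' t) ∧ ∀ t < b, γ' t = γ t := by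
  classical
  set t₁ := max (b - δ / 2) ((a + b) / 2) with ht₁
  have h1 : b - δ / 2 ≤ t₁ := le_max_left _ _
  have h2 : (a + b) / 2 ≤ t₁ := le_max_right _ _
  have h3 : t₁ < b := max_lt (by linarith) (by linarith)
  have hm : t₁ ∈ Ioo a b := ⟨by linarith, h3⟩
  obtain ⟨β, hβ0, hβ⟩ := hβ _ (h t₁ hm).mem
  obtain ⟨σ, hσ, h4⟩ := (h t₁ hm).alt (hβ 0 ⟨by linarith, hδ⟩) hβ0.symm
  have h5 : ∀ t ∈ Ioo (t₁ - δ) (t₁ + δ), A.GeoAt (fun r => β (-(σ * t₁) + σ * r)) t := by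
    intro t ht
    refine GeoAt.affine hσ (hβ _ ?_)
    rcases hσ with rfl | rfl <;> constructor <;> linarith [ht.1, ht.2]
  have h6 : EqOn γ (fun r => β (-(σ * t₁) + σ * r)) (Ico t₁ b) := by
    refine geo_unique isPreconnected_Ico (fun t ht => h t ⟨by linarith [ht.1], ht.2⟩)
      (fun t ht => h5 t ⟨by linarith [ht.1], by linarith [ht.2]⟩) ⟨le_rfl, h3⟩ ?_
    filter_upwards [(tend_sub t₁).eventually h4] with r h7
    rw [add_sub_cancel] at h7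
    rw [h7]; congr 1; ring
  refine ⟨fun t => if t < b then γ t else β (-(σ * t₁) + σ * t), fun t ht => ?_,
    fun t ht => if_pos ht⟩
  rcases lt_or_ge t b with htb | htb
  · refine (h t ⟨ht.1, htb⟩).congr ?_
    filter_upwards [Iio_mem_nhds htb] with r hr
    exact if_pos hr
  · refine (h5 t ⟨by linarith, by linarith [ht.2]⟩).congr ?_
    filter_upwards [Ioi_mem_nhds (h3.trans_le htb)] with r hr
    split_ifs with h7
    · exact h6 ⟨le_of_lt hr, h7⟩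
    · rfl

lemma extend_both {δ : ℝ} (hδ : 0 < δ) (hβ : ∀ x ∈ K, ∃ β : ℝ → M, β 0 = x ∧
    ∀ t ∈ Ioo (-δ) δ, A.GeoAt β t) {γ : ℝ → M} {T : ℝ} (hT : 0 < T)
    (h : ∀ t ∈ Ioo (-T) T, A.GeoAt γ t) :
    ∃ γ' : ℝ → M, (∀ t ∈ Ioo (-(T + δ / 2)) (T + δ / 2), A.GeoAt γ' t) ∧ γ' =ᶠ[𝓝 0] γ := by
  obtain ⟨γ₁, h1, h2⟩ := extend_right hδ hβ (show -T < T by linarith) h
  obtain ⟨γ₂, h3, h4⟩ := extend_right hδ hβ (γ := fun r => γ₁ (0 + -1 * r))
    (show -(T + δ / 2) < T by linarith) fun t ht =>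
      GeoAt.affine (Or.inr rfl) (h1 _ ⟨by linarith [ht.2], by linarith [ht.1]⟩)
  refine ⟨fun r => γ₂ (0 + -1 * r), fun t ht =>
    GeoAt.affine (Or.inr rfl) (h3 _ ⟨by linarith [ht.2], by linarith [ht.1]⟩), ?_⟩
  filter_upwards [Ioo_mem_nhds (show -T < 0 by linarith) hT] with r hr
  rw [h4 _ (by linarith [hr.1]), h2 _ (by linarith [hr.2])]
  congr 1; ring

lemma exists_geo (hK : IsCompact K) {x : M} (hx : x ∈ K) :
    ∃ γ : ℝ → M, γ 0 = x ∧ ∀ t, A.GeoAt γ t := by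
  obtain ⟨δ, hδ, hβ⟩ := exists_radius (A := A) hK
  obtain ⟨β, hβ0, hβ1⟩ := hβ x hx
  have hT : ∀ n : ℕ, 0 < δ + n * (δ / 2) := fun n => by positivity
  have key : ∀ n : ℕ, ∃ γ : ℝ → M,
      (∀ t ∈ Ioo (-(δ + n * (δ / 2))) (δ + n * (δ / 2)), A.GeoAt γ t) ∧ γ =ᶠ[𝓝 0] β := by
    intro n
    induction n with
    | zero => exact ⟨β, by simpa using hβ1, EventuallyEq.rfl⟩
    | succ n ih =>
      obtain ⟨γ, h1, h2⟩ := ih
      obtain ⟨γ', h3, h4⟩ := extend_both hδ hβ (hT n) h1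
      have e : δ + ((n + 1 : ℕ) : ℝ) * (δ / 2) = δ + n * (δ / 2) + δ / 2 := by push_cast; ring
      exact ⟨γ', e ▸ h3, h4.trans h2⟩
  choose γ h1 h2 using key
  have hN : ∀ t : ℝ, ∃ n : ℕ, t ∈ Ioo (-(δ + n * (δ / 2))) (δ + n * (δ / 2)) := fun t => by
    obtain ⟨n, hn⟩ := exists_nat_ge (|t| / (δ / 2))
    rw [div_le_iff₀ (half_pos hδ)] at hn
    exact ⟨n, abs_lt.1 (by linarith)⟩
  choose N hN using hN
  have hle : ∀ m n : ℕ, m ≤ n → EqOn (γ m) (γ n) (Ioo (-(δ + m * (δ / 2))) (δ + m * (δ / 2))) := by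
    intro m n hmn
    have : (m : ℝ) * (δ / 2) ≤ n * (δ / 2) := by gcongr
    exact geo_unique isPreconnected_Ioo (h1 m)
      (fun t ht => h1 n t ⟨by linarith [ht.1], by linarith [ht.2]⟩)
      (t₀ := 0) ⟨by linarith [hT m], hT m⟩ ((h2 m).trans (h2 n).symm)
  have hev : ∀ t, (fun r => γ (N r) r) =ᶠ[𝓝 t] γ (N t) := fun t => by
    filter_upwards [isOpen_Ioo.mem_nhds (hN t)] with r hr
    rcases le_total (N r) (N t) with h | h
    · exact hle _ _ h (hN r)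
    · exact (hle _ _ h hr).symm
  exact ⟨fun r => γ (N r) r, ((h2 (N 0)).self_of_nhds).trans hβ0,
    fun t => (h1 _ t (hN t)).congr (hev t)⟩

lemma not_injective (hK : IsCompact K) {γ : ℝ → M} (h : ∀ t, A.GeoAt γ t) : ¬ Injective γ := by
  intro hi
  obtain ⟨F, h1, h2⟩ := exists_cover (A := A) hK (fun b => min (A.ε b / 3) (1 / 4))
    fun b hb => lt_min (by linarith [A.pos b hb]) (by norm_num)
  choose c hc s hs he using fun n : ℕ => h2 (γ n) (h n).mem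
  obtain ⟨n, m, hnm, hb⟩ := Finite.exists_ne_map_eq_of_infinite
    (fun n : ℕ => (⟨c n, hc n⟩ : F))
  have hb' : c n = c m := congrArg Subtype.val hb
  have hK' := h1 _ (hc n)
  have p1 := min_le_left (A.ε (c n) / 3) (1 / 4)
  have p2 := min_le_right (A.ε (c n) / 3) (1 / 4)
  have p3 := A.pos _ hK'
  have q1 := hs n
  have q2 := hs m
  rw [← hb'] at q2
  set η := min (A.ε (c n) / 3) (1 / 4)
  obtain ⟨σ, hσ, h3⟩ := (geoAt_arc hK' (s := s n) ⟨by linarith [q1.1], by linarith [q1.2]⟩).alt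
    (h n) (he n)
  have h4 : EqOn (A.α (c n)) (fun r => γ ((n - σ * s n) + σ * r)) (Ioo (-η) η) := by
    refine geo_unique isPreconnected_Ioo
      (fun t ht => geoAt_arc hK' ⟨by linarith [ht.1], by linarith [ht.2]⟩)
      (fun t _ => GeoAt.affine hσ (h _)) q1 ?_
    filter_upwards [(tend_sub (s n)).eventually h3] with r h5
    rw [add_sub_cancel] at h5
    rw [h5]; congr 1; ring
  have h5 := h4 q2
  rw [hb', he m] at h5
  have h6 := hi h5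
  have h7 : |(m : ℝ) - n| < 1 := by
    rw [abs_lt]
    rcases hσ with rfl | rfl <;> constructor <;> linarith [q1.1, q1.2, q2.1, q2.2]
  have h8 : |(m : ℤ) - n| < 1 := by exact_mod_cast h7
  rw [Int.abs_lt_one_iff] at h8
  omega

lemma period_of_eq {γ : ℝ → M} (h : ∀ t, A.GeoAt γ t) {t₁ t₂ : ℝ} (h12 : t₁ < t₂)
    (he : γ t₁ = γ t₂) : Periodic γ (t₂ - t₁) := by
  obtain ⟨σ, hσ, h1⟩ := (h t₁).alt (h t₂) he
  have h2 : EqOn γ (fun r => γ ((t₂ - σ * t₁) + σ * r)) univ := by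
    refine geo_unique isPreconnected_univ (fun t _ => h t) (fun t _ => GeoAt.affine hσ (h _))
      (mem_univ t₁) ?_
    filter_upwards [(tend_sub t₁).eventually h1] with r h5
    rw [add_sub_cancel] at h5
    rw [h5]; congr 1; ring
  rcases hσ with rfl | rfl
  · intro t
    rw [h2 (mem_univ t)]
    beta_reduce
    congr 1; ring
  · exfalso
    obtain ⟨η, hη, h3⟩ := (h ((t₁ + t₂) / 2)).locinj
    have h4 := h2 (mem_univ ((t₁ + t₂) / 2 + η / 2))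
    have := h3 ⟨by linarith, by linarith⟩ ⟨by linarith, by linarith⟩ h4
    linarith

/-- A simple closed curve through every point. -/
theorem exists_loop (hK : IsCompact K) {x : M} (hx : x ∈ K) :
    ∃ (γ : ℝ → M) (P : ℝ), 0 < P ∧ γ 0 = x ∧ (∀ t, A.GeoAt γ t) ∧ Periodic γ P ∧
      InjOn γ (Ico 0 P) := by
  obtain ⟨γ, h0, h⟩ := exists_geo (A := A) hK hx
  have hc : Continuous γ := continuous_iff_continuousAt.2 fun t => (h t).continuousAt
  obtain ⟨η, hη, hi⟩ := (h 0).locinj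
  have hlow : ∀ P, 0 < P → γ P = γ 0 → η ≤ P := fun P hP he => by
    by_contra hlt
    have := hi ⟨by linarith, by linarith⟩ ⟨by linarith, by linarith⟩ he
    linarith
  have hper : ∀ t₁ t₂, t₁ < t₂ → γ t₁ = γ t₂ → t₂ - t₁ ∈ {P | η ≤ P ∧ γ P = γ 0} := by
    intro t₁ t₂ h12 he
    have h1 := period_of_eq h h12 he 0
    rw [zero_add] at h1
    exact ⟨hlow _ (by linarith) h1, h1⟩
  have hcl : IsClosed {P | η ≤ P ∧ γ P = γ 0} :=
    isClosed_Ici.inter (isClosed_eq hc continuous_const)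
  have hne : {P | η ≤ P ∧ γ P = γ 0}.Nonempty := by
    obtain ⟨a, b, hab, hne⟩ := not_injective_iff.1 (not_injective hK h)
    rcases lt_or_gt_of_ne hne with h1 | h1
    · exact ⟨_, hper a b h1 hab⟩
    · exact ⟨_, hper b a h1 hab.symm⟩
  have hbd : BddBelow {P | η ≤ P ∧ γ P = γ 0} := ⟨η, fun P hP => hP.1⟩
  have hmem := hcl.csInf_mem hne hbd
  set P := sInf {P | η ≤ P ∧ γ P = γ 0}
  have hP : 0 < P := hη.trans_le hmem.1
  refine ⟨γ, P, hP, h0, h, by simpa using period_of_eq h hP hmem.2.symm, fun a ha b hb hab => ?_⟩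
  rcases lt_trichotomy a b with h1 | h1 | h1
  · have := csInf_le hbd (hper a b h1 hab)
    linarith [ha.1, hb.2]
  · exact h1
  · have := csInf_le hbd (hper b a h1 hab.symm)
    linarith [hb.1, ha.2]

end IsoAtlas

end Pool.Agent.Lib.MP_14b623_gt
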