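import Pool.Agent.Lib.MP_14b623_gt.CvxBasic

namespace Pool.Agent.Lib.MP_14b623_gt

open Set Real Function
open scoped ComplexConjugate InnerProductSpace

lemma tcat_f_eq (t : ℝ) :
    t * sinh t - cosh t = ((t - 1) * exp (2 * t) - (t + 1)) * exp (-t) / 2 := by
  have h : exp (2 * t) * exp (-t) = exp t := by rw [← exp_add]; congr 1; ring
  rw [sinh_eq, cosh_eq]
  linear_combination (-(t - 1) / 2) * h

lemma tcat_exp_lo : (11.0159 : ℝ) < exp (2 * 1.199685) := by
  have e : exp (2 * 1.199685 : ℝ) = exp 1 * exp 1 * exp 0.39937 := by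
    rw [← exp_add, ← exp_add]; norm_num
  have h1 := exp_one_gt_d9
  have h2 := Real.sum_le_exp_of_nonneg (x := 0.39937) (by norm_num) 9
  have h3 : (1.490885 : ℝ) < exp 0.39937 := by
    refine lt_of_lt_of_le ?_ h2
    simp only [Finset.sum_range_succ, Finset.sum_range_zero, Nat.factorial]
    norm_num
  have h4 : (2.7182818283 : ℝ) * 2.7182818283 < exp 1 * exp 1 :=
    mul_lt_mul'' h1 h1 (by norm_num) (by norm_num)
  have h5 := mul_lt_mul'' h4 h3 (by norm_num) (by norm_num)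
  rw [e]
  refine lt_trans ?_ h5
  norm_num

lemma tcat_exp_hi : exp (2 * 1.199675) < (11.0162 : ℝ) := by
  have e : exp (2 * 1.199675 : ℝ) = exp 1 * exp 1 * exp 0.39935 := by
    rw [← exp_add, ← exp_add]; norm_num
  have h1 := exp_one_lt_d9
  have h2 := Real.exp_bound' (x := 0.39935) (by norm_num) (by norm_num) (n := 9) (by norm_num)
  have h3 : exp 0.39935 < (1.490856 : ℝ) := by
    refine lt_of_le_of_lt h2 ?_
    simp only [Finset.sum_range_succ, Finset.sum_range_zero, Nat.factorial]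
    norm_num
  have h4 : exp 1 * exp 1 < (2.7182818286 : ℝ) * 2.7182818286 :=
    mul_lt_mul'' h1 h1 (exp_pos _).le (exp_pos _).le
  have h5 := mul_lt_mul'' h4 h3 (by positivity) (exp_pos _).le
  rw [e]
  refine lt_trans h5 ?_
  norm_num

theorem exists_tau : ∃ τ : ℝ, 1.199675 < τ ∧ τ < 1.199685 ∧ τ * sinh τ = cosh τ := by
  have hc : Continuous fun t : ℝ => t * sinh t - cosh t := by fun_prop
  have ha : (1.199675 : ℝ) * sinh 1.199675 - cosh 1.199675 < 0 := by
    rw [tcat_f_eq]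
    have := tcat_exp_hi
    refine div_neg_of_neg_of_pos (mul_neg_of_neg_of_pos ?_ (exp_pos _)) two_pos
    linarith
  have hb : 0 < (1.199685 : ℝ) * sinh 1.199685 - cosh 1.199685 := by
    rw [tcat_f_eq]
    have := tcat_exp_lo
    refine div_pos (mul_pos ?_ (exp_pos _)) two_pos
    linarith
  obtain ⟨τ, hτ, h⟩ := intermediate_value_Ioo (show (1.199675 : ℝ) ≤ 1.199685 by norm_num)
    hc.continuousOn (show (0 : ℝ) ∈ Ioo _ _ from ⟨ha, hb⟩)
  exact ⟨τ, hτ.1, hτ.2, sub_eq_zero.1 h⟩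

/-- Maps with separated variables. -/
noncomputable def tcatG (a b u v : ℝ → ℝ) (p : ℝ × ℝ) : E3 :=
  !₂[a p.1 * u p.2, a p.1 * v p.2, b p.1]

lemma tcat_hasDerivAt {f g h : ℝ → ℝ} {f' g' h' x : ℝ} (hf : HasDerivAt f f' x)
    (hg : HasDerivAt g g' x) (hh : HasDerivAt h h' x) :
    HasDerivAt (fun y => (!₂[f y, g y, h y] : E3)) !₂[f', g', h'] x := by
  have h1 : HasDerivAt (fun y => (![f y, g y, h y] : Fin 3 → ℝ)) ![f', g', h'] x := by
    refine hasDerivAt_pi.2 fun i => ?_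
    fin_cases i
    · exact hf
    · exact hg
    · exact hh
  exact (EuclideanSpace.equiv (Fin 3) ℝ).symm.hasFDerivAt.comp_hasDerivAt x h1

lemma tcat_diff {a b u v : ℝ → ℝ} (ha : Differentiable ℝ a) (hb : Differentiable ℝ b)
    (hu : Differentiable ℝ u) (hv : Differentiable ℝ v) : Differentiable ℝ (tcatG a b u v) := by
  refine differentiable_euclidean.2 fun i => ?_
  fin_cases i
  · exact (ha.comp differentiable_fst).mul (hu.comp differentiable_snd)
  · exact (ha.comp differentiable_fst).mul (hv.comp differentiable_snd)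
  · exact hb.comp differentiable_fst

lemma tcat_dT {a b u v a' b' : ℝ → ℝ} (ha : ∀ t, HasDerivAt a (a' t) t)
    (hb : ∀ t, HasDerivAt b (b' t) t) (hu : Differentiable ℝ u) (hv : Differentiable ℝ v) :
    dT (tcatG a b u v) = tcatG a' b' u v := by
  funext p
  have h1 := (tcat_diff (fun t => (ha t).differentiableAt) (fun t => (hb t).differentiableAt)
    hu hv p).hasFDerivAt
  have h2 : HasDerivAt (fun t : ℝ => (t, p.2)) ((1 : ℝ), (0 : ℝ)) p.1 :=
    (hasDerivAt_id p.1).prodMk (hasDerivAt_const p.1 p.2)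
  have h3 := h1.comp_hasDerivAt_of_eq p.1 h2 rfl
  have h4 := tcat_hasDerivAt ((ha p.1).mul_const (u p.2)) ((ha p.1).mul_const (v p.2)) (hb p.1)
  exact h3.unique h4

lemma tcat_dS {a b u v u' v' : ℝ → ℝ} (ha : Differentiable ℝ a) (hb : Differentiable ℝ b)
    (hu : ∀ t, HasDerivAt u (u' t) t) (hv : ∀ t, HasDerivAt v (v' t) t) :
    dS (tcatG a b u v) = tcatG a (fun _ => 0) u' v' := by
  funext p
  have h1 := (tcat_diff ha hb (fun t => (hu t).differentiableAt)
    (fun t => (hv t).differentiableAt) p).hasFDerivAt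
  have h2 : HasDerivAt (fun t : ℝ => (p.1, t)) ((0 : ℝ), (1 : ℝ)) p.2 :=
    (hasDerivAt_const p.2 p.1).prodMk (hasDerivAt_id p.2)
  have h3 := h1.comp_hasDerivAt_of_eq p.2 h2 rfl
  have h4 := tcat_hasDerivAt ((hu p.2).const_mul (a p.1)) ((hv p.2).const_mul (a p.1))
    (hasDerivAt_const p.2 (b p.1))
  exact h3.unique h4

lemma tcat_eq (c : ℝ) : catenoid c = tcatG (fun t => c * cosh t) (fun t => c * t) cos sin := rfl

lemma tcat_T (c : ℝ) : dT (catenoid c) = tcatG (fun t => c * sinh t) (fun _ => c) cos sin := by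
  rw [tcat_eq]
  exact tcat_dT (fun t => (hasDerivAt_cosh t).const_mul c)
    (fun t => by simpa using (hasDerivAt_id t).const_mul c) differentiable_cos differentiable_sin

lemma tcat_S (c : ℝ) :
    dS (catenoid c) = tcatG (fun t => c * cosh t) (fun _ => 0) (fun t => -sin t) cos := by
  rw [tcat_eq]
  exact tcat_dS (by fun_prop) (by fun_prop) hasDerivAt_cos hasDerivAt_sin

lemma tcat_TT (c : ℝ) :
    dT (dT (catenoid c)) = tcatG (fun t => c * cosh t) (fun _ => 0) cos sin := by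
  rw [tcat_T]
  exact tcat_dT (fun t => (hasDerivAt_sinh t).const_mul c) (fun t => hasDerivAt_const t c)
    differentiable_cos differentiable_sin

lemma tcat_SS (c : ℝ) : dS (dS (catenoid c)) =
    tcatG (fun t => c * cosh t) (fun _ => 0) (fun t => -cos t) (fun t => -sin t) := by
  rw [tcat_S]
  exact tcat_dS (by fun_prop) (by fun_prop) (fun t => (hasDerivAt_sin t).neg) hasDerivAt_cos

lemma tcat_inner (x y : E3) : ⟪x, y⟫_ℝ = x 0 * y 0 + x 1 * y 1 + x 2 * y 2 := by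
  rw [PiLp.inner_apply, Fin.sum_univ_three]
  simp only [RCLike.inner_apply, conj_trivial]
  ring

lemma tcat_G0 (a b u v : ℝ → ℝ) (p : ℝ × ℝ) : tcatG a b u v p 0 = a p.1 * u p.2 := rfl

lemma tcat_G1 (a b u v : ℝ → ℝ) (p : ℝ × ℝ) : tcatG a b u v p 1 = a p.1 * v p.2 := rfl

lemma tcat_G2 (a b u v : ℝ → ℝ) (p : ℝ × ℝ) : tcatG a b u v p 2 = b p.1 := rfl

lemma tcat_gE (c : ℝ) (p : ℝ × ℝ) : gE (catenoid c) p = c ^ 2 * cosh p.1 ^ 2 := by
  rw [gE, tcat_T, tcat_inner, tcat_G0, tcat_G1, tcat_G2, cosh_sq]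
  linear_combination (c ^ 2 * sinh p.1 ^ 2) * sin_sq_add_cos_sq p.2

lemma tcat_gG (c : ℝ) (p : ℝ × ℝ) : gG (catenoid c) p = c ^ 2 * cosh p.1 ^ 2 := by
  rw [gG, tcat_S, tcat_inner, tcat_G0, tcat_G1, tcat_G2]
  linear_combination (c ^ 2 * cosh p.1 ^ 2) * sin_sq_add_cos_sq p.2

lemma tcat_gF (c : ℝ) (p : ℝ × ℝ) : gF (catenoid c) p = 0 := by
  rw [gF, tcat_T, tcat_S, tcat_inner, tcat_G0, tcat_G1, tcat_G2, tcat_G0, tcat_G1, tcat_G2]
  ring

lemma tcat_norm (c : ℝ) (p : ℝ × ℝ) : ‖catenoid c p‖ ^ 2 = c ^ 2 * (cosh p.1 ^ 2 + p.1 ^ 2) := by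
  rw [← real_inner_self_eq_norm_sq, tcat_eq, tcat_inner, tcat_G0, tcat_G1, tcat_G2]
  linear_combination (c ^ 2 * cosh p.1 ^ 2) * sin_sq_add_cos_sq p.2

lemma tcat_one {τ : ℝ} (h : τ * sinh τ = cosh τ) :
    (sinh τ / cosh τ ^ 2) ^ 2 * (cosh τ ^ 2 + τ ^ 2) = 1 := by
  have hc := (cosh_pos τ).ne'
  have h2 := cosh_sq τ
  field_simp
  linear_combination (τ * sinh τ + cosh τ) * h - cosh τ ^ 2 * h2

theorem catenoid_isFBM {τ : ℝ} (h0 : 0 < τ) (h : τ * sinh τ = cosh τ) :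
    IsFBMAnnulus (-τ) τ (catenoid (sinh τ / cosh τ ^ 2)) := by
  have h1 := tcat_one h
  have hc : 0 < sinh τ / cosh τ ^ 2 := div_pos (sinh_pos_iff.2 h0) (pow_pos (cosh_pos τ) 2)
  generalize sinh τ / cosh τ ^ 2 = c at h1 hc
  refine ⟨by linarith, ?_, fun t θ => ?_, fun p _ => ?_, fun p hp => ?_, fun p hp => ?_,
    fun p _ N _ _ => ?_, fun p hp => ?_⟩
  · refine contDiff_euclidean.2 fun i => ?_
    fin_cases i
    · exact (contDiff_const.mul (contDiff_cosh.comp contDiff_fst)).mul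
        (contDiff_cos.comp contDiff_snd)
    · exact (contDiff_const.mul (contDiff_cosh.comp contDiff_fst)).mul
        (contDiff_sin.comp contDiff_snd)
    · exact contDiff_const.mul contDiff_fst
  · simp only [catenoid, cos_add_two_pi, sin_add_two_pi]
  · rw [tcat_gE, tcat_gG, tcat_gF]
    have := cosh_pos p.1
    have h2 : 0 < c ^ 2 * cosh p.1 ^ 2 := by positivity
    nlinarith [mul_pos h2 h2]
  · have ha : |p.1| ≤ |τ| := by
      rw [abs_of_pos h0]
      exact abs_le.2 hp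
    have h2 : cosh p.1 ^ 2 ≤ cosh τ ^ 2 :=
      pow_le_pow_left₀ (cosh_pos _).le (cosh_le_cosh.2 ha) 2
    have h3 : p.1 ^ 2 ≤ τ ^ 2 := sq_le_sq.2 ha
    have h4 : ‖catenoid c p‖ ^ 2 ≤ 1 := by
      rw [tcat_norm, ← h1]
      exact mul_le_mul_of_nonneg_left (add_le_add h2 h3) (sq_nonneg c)
    exact (pow_le_one_iff_of_nonneg (norm_nonneg _) two_ne_zero).1 h4
  · have h4 : ‖catenoid c p‖ ^ 2 = 1 := by
      rw [tcat_norm, ← h1]
      rcases hp with hp | hp
      · rw [hp, cosh_neg, neg_sq]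
      · rw [hp]
    exact (pow_eq_one_iff_of_nonneg (norm_nonneg _) two_ne_zero).1 h4
  · rw [tcat_gE, tcat_gG, tcat_gF, tcat_SS, tcat_TT, tcat_inner N, tcat_inner N (tcatG _ _ cos _ _),
      tcat_G0, tcat_G1, tcat_G2, tcat_G0, tcat_G1, tcat_G2]
    ring
  · have hs : p.1 * sinh p.1 = cosh p.1 ∧ p.1 ≠ 0 := by
      rcases hp with hp | hp
      · rw [hp, sinh_neg, cosh_neg, neg_mul_neg]
        exact ⟨h, by linarith⟩
      · rw [hp]
        exact ⟨h, h0.ne'⟩
    obtain ⟨hs, hne⟩ := hs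
    refine ⟨1 / p.1, ?_⟩
    rw [tcat_gF, zero_div, zero_smul, sub_zero, tcat_T, tcat_eq]
    ext i
    fin_cases i
    · change c * sinh p.1 * cos p.2 = 1 / p.1 * (c * cosh p.1 * cos p.2)
      rw [← hs]
      field_simp
    · change c * sinh p.1 * sin p.2 = 1 / p.1 * (c * cosh p.1 * sin p.2)
      rw [← hs]
      field_simp
    · change c = 1 / p.1 * (c * p.1)
      field_simp

theorem catenoid_area {τ : ℝ} (h0 : 0 < τ) (h : τ * sinh τ = cosh τ) :
    area (-τ) τ (catenoid (sinh τ / cosh τ ^ 2)) = 2 * π / τ := by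
  have e1 : ∀ c t : ℝ, (∫ θ in (0 : ℝ)..(2 * π), √(gE (catenoid c) (t, θ) * gG (catenoid c) (t, θ)
      - gF (catenoid c) (t, θ) ^ 2)) = 2 * π * c ^ 2 * cosh t ^ 2 := by
    intro c t
    have e : ∀ θ : ℝ, √(gE (catenoid c) (t, θ) * gG (catenoid c) (t, θ)
        - gF (catenoid c) (t, θ) ^ 2) = c ^ 2 * cosh t ^ 2 := by
      intro θ
      rw [tcat_gE, tcat_gG, tcat_gF, zero_pow two_ne_zero, sub_zero,
        sqrt_mul_self (by positivity)]
    simp only [e, intervalIntegral.integral_const, smul_eq_mul]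
    ring
  have e2 : ∀ k : ℝ, ∫ t in (-τ)..τ, k * cosh t ^ 2 = k * (τ + sinh τ * cosh τ) := by
    intro k
    have hd : ∀ t ∈ uIcc (-τ) τ, HasDerivAt (fun t => k * ((t + sinh t * cosh t) / 2))
        (k * cosh t ^ 2) t := by
      intro t _
      have := (((hasDerivAt_id t).fun_add
        ((hasDerivAt_sinh t).fun_mul (hasDerivAt_cosh t))).div_const 2).const_mul k
      refine this.congr_deriv ?_
      linear_combination (-k / 2) * cosh_sq t
    rw [intervalIntegral.integral_eq_sub_of_hasDerivAt hd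
      (Continuous.intervalIntegrable (by fun_prop) _ _), sinh_neg, cosh_neg]
    ring
  unfold area
  simp only [e1]
  rw [e2]
  have hc := (cosh_pos τ).ne'
  have h2 := cosh_sq τ
  have h3 : τ + sinh τ * cosh τ = τ * cosh τ ^ 2 := by
    linear_combination (-sinh τ) * h - τ * h2
  rw [h3]
  field_simp
  linear_combination (τ * sinh τ + cosh τ) * h

end Pool.Agent.Lib.MP_14b623_gt
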