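import Pool.Agent.Lib.MP_14b623_gt.GAtlas
import Pool.Agent.Lib.MP_14b623_gt.GCurve
import Pool.Agent.Lib.MP_14b623_gt.TCat

/-! From the certificate to the area bounds. -/

namespace Pool.Agent.Lib.MP_14b623_gt

open Set MeasureTheory Filter Topology Function Real
open scoped InnerProductSpace Manifold ContDiff

/-- The certificate for curves of length at most `2 π l₀`. -/
def CertUpTo (l₀ : ℝ) : Prop :=
  ∀ l : ℝ, 0 < l → l ≤ l₀ → ∀ e : E3, ‖e‖ = 1 → ∃ (z : E3 → E3) (A B : ℝ),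
    (∀ x : E3, ‖x‖ ≤ 1 → ContDiffAt ℝ 1 z x) ∧
    (∀ x : E3, ‖x‖ ≤ 1 → ∀ u v : E3, ‖u‖ = 1 → ‖v‖ = 1 → ⟪u, v⟫_ℝ = 0 →
      0 ≤ ⟪fderiv ℝ z x u, u⟫_ℝ + ⟪fderiv ℝ z x v, v⟫_ℝ) ∧ 0 ≤ B ∧ 83356 / 100000 ≤ l * A ∧
    ∀ x : E3, ‖x‖ = 1 → 0 ≤ 1 / 2 - ⟪z x, x⟫_ℝ ∧
      A + B * ((⟪x, e⟫_ℝ - √(1 - l ^ 2)) - 6 / 5 * (⟪x, e⟫_ℝ - √(1 - l ^ 2)) ^ 2) ≤
        1 / 2 - ⟪z x, x⟫_ℝ

lemma divLe_sub {z : E3 → E3} (h1 : ∀ x : E3, ‖x‖ ≤ 1 → ContDiffAt ℝ 1 z x)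
    (h2 : ∀ x : E3, ‖x‖ ≤ 1 → ∀ u v : E3, ‖u‖ = 1 → ‖v‖ = 1 → ⟪u, v⟫_ℝ = 0 →
      0 ≤ ⟪fderiv ℝ z x u, u⟫_ℝ + ⟪fderiv ℝ z x v, v⟫_ℝ) :
    DivLe fun x => (1 / 2 : ℝ) • x - z x where
  smooth x hx := (contDiffAt_id.const_smul _).sub (h1 x hx)
  le x hx u v hu hv huv := by
    have h3 : HasFDerivAt (fun x => (1 / 2 : ℝ) • x - z x)
        ((1 / 2 : ℝ) • ContinuousLinearMap.id ℝ E3 - fderiv ℝ z x) x :=
      ((hasFDerivAt_id x).const_smul (1 / 2 : ℝ)).sub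
        ((h1 x hx).differentiableAt one_ne_zero).hasFDerivAt
    have h4 := h2 x hx u v hu hv huv
    simp only [h3.fderiv, sub_apply, smul_apply,
      ContinuousLinearMap.id_apply, inner_sub_left, real_inner_smul_left,
      real_inner_self_eq_norm_sq, hu, hv]
    linarith

lemma inner_half_sub (w : E3) {x : E3} (hx : ‖x‖ = 1) :
    ⟪(1 / 2 : ℝ) • x - w, x⟫_ℝ = 1 / 2 - ⟪w, x⟫_ℝ := by
  rw [inner_sub_left, real_inner_smul_left, real_inner_self_eq_norm_sq, hx]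
  ring

variable {M : Type} [TopologicalSpace M] [ChartedSpace (EuclideanHalfSpace 2) M]
  [IsManifold (𝓡∂ 2) ∞ M] [T2Space M] [CompactSpace M] [MeasurableSpace M] [BorelSpace M]

/-- The total length of disjoint boundary curves is at most twice the area. -/
theorem IsFBMS.sum_length {φ : M → E3} (h : IsFBMS φ) {ι : Type*} [Fintype ι] {γ : ι → ℝ → M}
    {g' : ι → ℝ → E3} (hg : ∀ i, h.atlas.Good (γ i) (g' i))
    (hd : ∀ i j, i ≠ j → ∀ s t, γ i s ≠ γ j t) :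
    ∑ i, ∫ t in (0 : ℝ)..1, ‖g' i t‖ ≤ 2 * surfaceArea φ := by
  have h1 := h.key (divLe_sub (z := fun _ => 0) (fun _ _ => contDiffAt_const) (by simp))
    (fun x hx => by rw [inner_half_sub _ hx]; simp) hg hd
  have h2 : ∀ i t, ⟪(1 / 2 : ℝ) • φ (γ i t) - 0, φ (γ i t)⟫_ℝ = 1 / 2 := fun i t => by
    rw [inner_half_sub _ (h.bdry _ ((hg i).mem t))]; simp
  simp only [h2, intervalIntegral.integral_const_mul, ← Finset.mul_sum] at h1
  linarith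

theorem IsFBMS.short {φ : M → E3} (h : IsFBMS φ) {l₀ : ℝ} (hc : CertUpTo l₀) (hl : l₀ ≤ 13 / 20)
    {γ : ℝ → M} {g' : ℝ → E3} (hg : h.atlas.Good γ g')
    (hL : ∫ t in (0 : ℝ)..1, ‖g' t‖ ≤ 2 * π * l₀) : 2 * π * (83356 / 100000) ≤ surfaceArea φ := by
  set L := ∫ t in (0 : ℝ)..1, ‖g' t‖ with hLdef
  have hL0 : 0 < L := intervalIntegral.intervalIntegral_pos_of_pos
    (hg.cont.norm.intervalIntegrable 0 1) (fun t => norm_pos_iff.2 (hg.ne t)) one_pos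
  have hπ : 0 < 2 * π := by positivity
  have hl1 : L / (2 * π) ≤ l₀ := by rwa [div_le_iff₀' hπ]
  have h1 : ∀ t, ‖φ (γ t)‖ = 1 := fun t => h.bdry _ (hg.mem t)
  obtain ⟨e, he, hcb⟩ := curve_bound (fun t => φ (γ t)) g' hg.der hg.cont
    (fun t => by simp only [hg.per t]) h1 hg.ne _ rfl (hl1.trans hl)
  obtain ⟨z, A, B, z1, z2, hB, hA, hz⟩ := hc _ (div_pos hL0 hπ) hl1 e he
  have h2 := h.key (divLe_sub z1 z2) (fun x hx => by rw [inner_half_sub _ hx]; exact (hz x hx).1)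
    (ι := Unit) (γ := fun _ => γ) (g' := fun _ => g') (fun _ => hg) fun _ _ hij => (hij rfl).elim
  have h3 := hcb (6 / 5) (by norm_num) le_rfl
  rw [Fintype.sum_unique] at h2
  set s := √(1 - (L / (2 * π)) ^ 2)
  have hφ : Continuous fun t => φ (γ t) := h.smooth.continuous.comp hg.continuous
  have hn := hg.cont.norm
  have hzc : Continuous fun t => z (φ (γ t)) := continuous_iff_continuousAt.2 fun t =>
    ContinuousAt.comp (f := fun t => φ (γ t)) (z1 _ (h1 t).le).continuousAt hφ.continuousAt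
  have c0 : Continuous fun t => ⟪φ (γ t), e⟫_ℝ - s :=
    (hφ.inner continuous_const).sub continuous_const
  have c1 : Continuous fun t =>
      B * (((⟪φ (γ t), e⟫_ℝ - s) - 6 / 5 * (⟪φ (γ t), e⟫_ℝ - s) ^ 2) * ‖g' t‖) :=
    continuous_const.mul ((c0.sub (continuous_const.mul (c0.pow 2))).mul hn)
  have c2 : Continuous fun t => A * ‖g' t‖ := continuous_const.mul hn
  have c3 : Continuous fun t => (1 / 2 : ℝ) • φ (γ t) - z (φ (γ t)) :=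
    (hφ.const_smul (1 / 2 : ℝ)).sub hzc
  have c4 : Continuous fun t => ⟪(1 / 2 : ℝ) • φ (γ t) - z (φ (γ t)), φ (γ t)⟫_ℝ * ‖g' t‖ :=
    (c3.inner hφ).mul hn
  have h4 : ∫ t in (0 : ℝ)..1, (A * ‖g' t‖ +
      B * (((⟪φ (γ t), e⟫_ℝ - s) - 6 / 5 * (⟪φ (γ t), e⟫_ℝ - s) ^ 2) * ‖g' t‖)) ≤
      ∫ t in (0 : ℝ)..1, ⟪(1 / 2 : ℝ) • φ (γ t) - z (φ (γ t)), φ (γ t)⟫_ℝ * ‖g' t‖ := by
    refine intervalIntegral.integral_mono_on zero_le_one ((c2.add c1).intervalIntegrable _ _)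
      (c4.intervalIntegrable _ _) fun t _ => ?_
    rw [inner_half_sub _ (h1 t), ← mul_assoc, ← add_mul]
    exact mul_le_mul_of_nonneg_right (hz _ (h1 t)).2 (norm_nonneg _)
  rw [intervalIntegral.integral_add (c2.intervalIntegrable _ _) (c1.intervalIntegrable _ _),
    intervalIntegral.integral_const_mul, intervalIntegral.integral_const_mul, ← hLdef] at h4
  have h5 : A * L = 2 * π * (L / (2 * π) * A) := by field_simp
  have h6 := mul_le_mul_of_nonneg_left hA hπ.le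
  have h7 := mul_nonneg hB h3
  linarith

omit [TopologicalSpace M] [ChartedSpace (EuclideanHalfSpace 2) M] [IsManifold (𝓡∂ 2) ∞ M]
  [T2Space M] [CompactSpace M] [MeasurableSpace M] [BorelSpace M] in
lemma exists_cat : ∃ c τ : ℝ, 0 < c ∧ IsFBMAnnulus (-τ) τ (catenoid c) ∧
    area (-τ) τ (catenoid c) ≤ 2 * π * (83356 / 100000) := by
  obtain ⟨τ, h1, -, h3⟩ := exists_tau
  have h0 : 0 < τ := by linarith
  refine ⟨_, τ, div_pos (sinh_pos_iff.2 h0) (pow_pos (cosh_pos τ) 2), catenoid_isFBM h0 h3, ?_⟩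
  rw [catenoid_area h0 h3, div_le_iff₀ h0, mul_assoc (2 * π)]
  exact le_mul_of_one_le_right (by positivity) (by linarith)

theorem IsFBMS.three {φ : M → E3} (h : IsFBMS φ) {l₀ : ℝ} (hc : CertUpTo l₀) (hl : l₀ ≤ 13 / 20)
    (hl' : 5558 / 10000 ≤ l₀)
    (h3 : 3 ≤ ENat.card (ConnectedComponents ((𝓡∂ 2).boundary M))) :
    2 * π * (83356 / 100000) ≤ surfaceArea φ := by
  obtain ⟨γ, g', hg, hd⟩ := h.exists_curves (n := 3) h3
  by_contra hlt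
  have h1 := h.sum_length hg hd
  have h2 : ∀ i, 2 * π * l₀ < ∫ t in (0 : ℝ)..1, ‖g' i t‖ := fun i =>
    not_le.1 fun hi => hlt (h.short hc hl (hg i) hi)
  rw [Fin.sum_univ_three] at h1
  nlinarith [h2 0, h2 1, h2 2, pi_pos, not_le.1 hlt]

end Pool.Agent.Lib.MP_14b623_gt
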