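import Pool.Agent.Lib.MP_14b623_gt.MMain
import Pool.Agent.Lib.MP_14b623_gt.GCert

/-! Every smooth immersed free boundary minimal surface of genus zero in the unit ball that is not
an equatorial disc has at least the area of the critical catenoid. -/

namespace Pool.Agent.Lib.MP_14b623_gt.GenusZero

open scoped Manifold ContDiff

theorem result : ∃ c τ : ℝ, 0 < c ∧ IsFBMAnnulus (-τ) τ (catenoid c) ∧
    ∀ (M : Type) [TopologicalSpace M] [T2Space M] [CompactSpace M]
      [ChartedSpace (EuclideanHalfSpace 2) M] [IsManifold (𝓡∂ 2) ∞ M]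
      [MeasurableSpace M] [BorelSpace M] (φ : M → E3), IsFBMS φ →
      ContMDiff (𝓡∂ 2) 𝓘(ℝ, E3) ∞ φ → IsGenusZero M → ¬ IsEquatorialDisc (Set.range φ) →
      area (-τ) τ (catenoid c) ≤ surfaceArea φ :=
  genus_zero cert (by norm_num) (by norm_num)

end Pool.Agent.Lib.MP_14b623_gt.GenusZero
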