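import Pool.Agent.Lib.MP_14b623_gt.ITr

/-! Conformality and invariance of the area. -/

namespace Pool.Agent.Lib.MP_14b623_gt

open Set Real Filter Topology
open scoped ContDiff InnerProductSpace

variable {A B T : ℝ} {X : ℝ × ℝ → E3} {Ψ : ℝ × ℝ → ℝ × ℝ}

theorem conf_comp (Φ : Frame A B X) (hs : ContDiff ℝ ∞ X) (hΨ : Rep T A B Ψ)
    (hz : ∀ p : ℝ × ℝ, p.1 ∈ Icc 0 T → zf (Φ.μ (Ψ p)) (pS Ψ p) ≠ 0 ∧
      zf (Φ.μ (Ψ p)) (pT Ψ p) = Complex.I * zf (Φ.μ (Ψ p)) (pS Ψ p)) :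
    IsConformal 0 T (X ∘ Ψ) ∧ ∀ p : ℝ × ℝ, p.1 ∈ Icc 0 T → 0 < jdet Ψ p := by
  have key : ∀ p : ℝ × ℝ, p.1 ∈ Icc 0 T →
      (pT Ψ p).2 + Φ.m₁ (Ψ p) * (pT Ψ p).1 = -(Φ.m₂ (Ψ p) * (pS Ψ p).1) ∧
      Φ.m₂ (Ψ p) * (pT Ψ p).1 = (pS Ψ p).2 + Φ.m₁ (Ψ p) * (pS Ψ p).1 ∧
      0 < ((pS Ψ p).2 + Φ.m₁ (Ψ p) * (pS Ψ p).1) ^ 2 + (Φ.m₂ (Ψ p) * (pS Ψ p).1) ^ 2 := by
    intro p hp
    obtain ⟨h0, h1⟩ := hz p hp
    have hre : ∀ v : ℝ × ℝ, (zf (Φ.μ (Ψ p)) v).re = v.2 + Φ.m₁ (Ψ p) * v.1 := fun v => by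
      simp [zf, Φ.μ_re]
    have him : ∀ v : ℝ × ℝ, (zf (Φ.μ (Ψ p)) v).im = Φ.m₂ (Ψ p) * v.1 := fun v => by
      simp [zf, Φ.μ_im]
    have h2 := congrArg Complex.re h1
    have h3 := congrArg Complex.im h1
    have h4 := Complex.normSq_pos.2 h0
    rw [Complex.I_mul_re, hre, him] at h2
    rw [Complex.I_mul_im, hre, him] at h3
    rw [Complex.normSq_apply, hre, him] at h4
    exact ⟨h2, h3, by nlinarith⟩
  refine ⟨fun p hp => ?_, fun p hp => ?_⟩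
  · obtain ⟨h2, h3, -⟩ := key p hp
    obtain ⟨e1, e2, e3⟩ := fff_comp hs hΨ.smooth p
    have hq := hΨ.maps p hp
    rw [e1, e2, e3, Φ.gE_eq hq, Φ.gF_eq hq, Φ.gG_eq hq]
    constructor
    · linear_combination Φ.ρ (Ψ p) ^ 2 * ((pT Ψ p).2 + Φ.m₁ (Ψ p) * (pT Ψ p).1
          - Φ.m₂ (Ψ p) * (pS Ψ p).1) * h2 + Φ.ρ (Ψ p) ^ 2 * (Φ.m₂ (Ψ p) * (pT Ψ p).1
          + ((pS Ψ p).2 + Φ.m₁ (Ψ p) * (pS Ψ p).1)) * h3
    · linear_combination Φ.ρ (Ψ p) ^ 2 * ((pS Ψ p).2 + Φ.m₁ (Ψ p) * (pS Ψ p).1) * h2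
          + Φ.ρ (Ψ p) ^ 2 * (Φ.m₂ (Ψ p) * (pS Ψ p).1) * h3
  · obtain ⟨h2, h3, h4⟩ := key p hp
    have h5 : Φ.m₂ (Ψ p) * jdet Ψ p = ((pS Ψ p).2 + Φ.m₁ (Ψ p) * (pS Ψ p).1) ^ 2
        + (Φ.m₂ (Ψ p) * (pS Ψ p).1) ^ 2 := by
      unfold jdet
      linear_combination (-(Φ.m₂ (Ψ p) * (pS Ψ p).1)) * h2
        + ((pS Ψ p).2 + Φ.m₁ (Ψ p) * (pS Ψ p).1) * h3
    exact (mul_pos_iff_of_pos_left (Φ.m₂_pos _)).1 (h5 ▸ h4)

theorem int_comp {j : ℝ × ℝ → ℝ} (hj : ContDiff ℝ ∞ j) (pj : Per2 j) (hΨ : Rep T A B Ψ) :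
    ∫ s in (0 : ℝ)..T, ∫ φ in (0 : ℝ)..(2 * π), j (Ψ (s, φ)) * jdet Ψ (s, φ) =
      ∫ t in A..B, ∫ θ in (0 : ℝ)..(2 * π), j (t, θ) := by
  have hs := hΨ.smooth
  obtain ⟨b, hb⟩ : ∃ b, b = prim A j := ⟨_, rfl⟩
  have sb : ContDiff ℝ ∞ b := hb ▸ sm_prim hj A
  have pb : Per2 b := hb ▸ pj.prim A
  have tb : ∀ p, pT b p = j p := fun p => hb ▸ pT_prim hj A p
  have sc : ContDiff ℝ ∞ (b ∘ Ψ) := sb.comp hs
  have sS : ContDiff ℝ ∞ fun p => (pS Ψ p).2 := (sm_pS hs).snd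
  have sT : ContDiff ℝ ∞ fun p => (pT Ψ p).2 := (sm_pT hs).snd
  have pc : Per2 (b ∘ Ψ) := fun s φ => by
    have e : Ψ (s, φ) + (0, 2 * π) = ((Ψ (s, φ)).1, (Ψ (s, φ)).2 + 2 * π) := by ext <;> simp
    rw [Function.comp_apply, hΨ.per, e, pb]
    rfl
  have pQ : Per2 fun p => (b ∘ Ψ) p * (pT Ψ p).2 := fun s φ => by
    have e := per_fderiv hΨ.per s φ
    change (b ∘ Ψ) (s, φ + 2 * π) * (fderiv ℝ Ψ (s, φ + 2 * π) (1, 0)).2 = _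
    rw [pc, e]
    rfl
  have h1 := stokes (P := fun p => (b ∘ Ψ) p * (pS Ψ p).2) (sm_one (sc.mul sS))
    (sm_one (sc.mul sT)) pQ 0 T
  have h2 : ∀ s φ : ℝ, pT (fun p => (b ∘ Ψ) p * (pS Ψ p).2) (s, φ)
      - pS (fun p => (b ∘ Ψ) p * (pT Ψ p).2) (s, φ) = j (Ψ (s, φ)) * jdet Ψ (s, φ) := by
    intro s φ
    have d1 := (hasDerivAt_pT (sm_diff sc (s, φ))).mul
      (hasDerivAt_pT (sm_diff (sm_pS hs) (s, φ))).snd
    have d2 := (hasDerivAt_pS (sm_diff sc (s, φ))).mul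
      (hasDerivAt_pS (sm_diff (sm_pT hs) (s, φ))).snd
    have e1 := pT_of_hasDerivAt (sm_diff (sc.mul sS) (s, φ)) d1
    have e2 := pS_of_hasDerivAt (sm_diff (sc.mul sT) (s, φ)) d2
    obtain ⟨c1, c2⟩ := pT_comp sb hs (s, φ)
    rw [e1, e2, c1, c2, pT_pS_comm (sm_two hs), tb]
    unfold jdet
    simp only [smul_eq_mul]
    ring
  simp only [h2] at h1
  have h3 : ∀ φ : ℝ, (b ∘ Ψ) (0, φ) = 0 := fun φ => by
    have e : Ψ (0, φ) = (A, (Ψ (0, φ)).2) := by rw [← hΨ.left φ]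
    rw [Function.comp_apply, e, hb, prim_left]
  have h4 : ∀ φ : ℝ, (b ∘ Ψ) (T, φ) = b (B, (Ψ (T, φ)).2) := fun φ => by
    rw [Function.comp_apply, ← hΨ.right φ]
  have cb : Continuous fun θ : ℝ => b (B, θ) := sb.continuous.comp (by fun_prop)
  have h5 := intervalIntegral.integral_comp_mul_deriv (a := 0) (b := 2 * π)
    (f := fun φ => (Ψ (T, φ)).2) (f' := fun φ => (pS Ψ (T, φ)).2) (g := fun θ => b (B, θ))
    (fun φ _ => (hasDerivAt_pS (sm_diff hs (T, φ))).snd)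
    (sS.continuous.comp (by fun_prop : Continuous fun φ : ℝ => (T, φ))).continuousOn cb
  have h6 : (Ψ (T, 2 * π)).2 = (Ψ (T, 0)).2 + 2 * π := by
    have e := hΨ.per T 0
    rw [zero_add] at e
    rw [e]
    rfl
  have h7 := (pb.periodic B).intervalIntegral_add_eq (Ψ (T, 0)).2 0
  have h8 := stokes (P := b) (Q := fun _ => (0 : ℝ)) (sm_one sb) contDiff_const
    (fun _ _ => rfl) A B
  have h9 : ∀ p, pS (fun _ : ℝ × ℝ => (0 : ℝ)) p = 0 := fun p => by simp [pS]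
  have h10 : ∀ θ, b (A, θ) = 0 := fun θ => by rw [hb, prim_left]
  simp only [h9, tb, h10, sub_zero, intervalIntegral.integral_zero] at h8
  simp only [h3, h4, zero_mul, intervalIntegral.integral_zero, sub_zero] at h1
  rw [zero_add] at h7
  simp only [Function.comp_apply, h6] at h5
  rw [h1, h8, h5, h7]

theorem area_comp (Φ : Frame A B X) (hAB : A < B) (hs : ContDiff ℝ ∞ X) (hΨ : Rep T A B Ψ)
    (hj : ∀ p : ℝ × ℝ, p.1 ∈ Icc 0 T → 0 < jdet Ψ p) : area 0 T (X ∘ Ψ) = area A B X := by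
  have h := int_comp (j := fun p => Φ.ρ p ^ 2 * Φ.m₂ p) ((Φ.sρ.pow 2).mul Φ.sm₂)
    (fun t θ => by simp only [Φ.pρ t θ, Φ.pm₂ t θ]) hΨ
  unfold area
  refine Eq.trans ?_ (h.trans ?_)
  · refine intervalIntegral.integral_congr fun s hs' => ?_
    rw [uIcc_of_le hΨ.pos.le] at hs'
    refine intervalIntegral.integral_congr fun φ _ => ?_
    have hp : ((s, φ) : ℝ × ℝ).1 ∈ Icc 0 T := hs'
    have h1 := hj _ hp
    rw [disc_comp hs hΨ.smooth, Real.sqrt_mul' _ (sq_nonneg _), Φ.sqrt_eq (hΨ.maps _ hp),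
      Real.sqrt_sq h1.le]
  · refine intervalIntegral.integral_congr fun t ht => ?_
    rw [uIcc_of_le hAB.le] at ht
    refine intervalIntegral.integral_congr fun θ _ => ?_
    have hp : ((t, θ) : ℝ × ℝ).1 ∈ Icc A B := ht
    exact (Φ.sqrt_eq hp).symm

end Pool.Agent.Lib.MP_14b623_gt
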