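import Pool.Agent.Lib.MP_14b623_gt.Defs
import Pool.Agent.Lib.MP_42bfd7_mp.ParInt

/-! Calculus on the cylinder `ℝ × ℝ / 2π`. -/

namespace Pool.Agent.Lib.MP_14b623_gt

open Set Real Filter Topology
open scoped ContDiff InnerProductSpace

variable {V : Type} [NormedAddCommGroup V] [NormedSpace ℝ V]

/-- Partial derivative in `t`. -/
noncomputable def pT (f : ℝ × ℝ → V) (p : ℝ × ℝ) : V := fderiv ℝ f p (1, 0)

/-- Partial derivative in `θ`. -/
noncomputable def pS (f : ℝ × ℝ → V) (p : ℝ × ℝ) : V := fderiv ℝ f p (0, 1)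

/-- Periodicity in `θ`. -/
def Per2 {V : Type} (f : ℝ × ℝ → V) : Prop := ∀ t θ : ℝ, f (t, θ + 2 * π) = f (t, θ)

theorem dT_eq (X : ℝ × ℝ → E3) : dT X = pT X := rfl

theorem dS_eq (X : ℝ × ℝ → E3) : dS X = pS X := rfl

theorem fderiv_eq_pT_pS (f : ℝ × ℝ → V) (p v : ℝ × ℝ) :
    fderiv ℝ f p v = v.1 • pT f p + v.2 • pS f p := by
  rw [pT, pS, ← map_smul, ← map_smul, ← map_add]
  congr 1
  ext <;> simp

theorem sm_pT {f : ℝ × ℝ → V} (hf : ContDiff ℝ ∞ f) : ContDiff ℝ ∞ (pT f) :=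
  (hf.fderiv_right (m := ∞) le_rfl).clm_apply contDiff_const

theorem sm_pS {f : ℝ × ℝ → V} (hf : ContDiff ℝ ∞ f) : ContDiff ℝ ∞ (pS f) :=
  (hf.fderiv_right (m := ∞) le_rfl).clm_apply contDiff_const

theorem sm_diff {f : ℝ × ℝ → V} (hf : ContDiff ℝ ∞ f) : Differentiable ℝ f :=
  hf.differentiable (by simp)

theorem hasDerivAt_pT {f : ℝ × ℝ → V} {t θ : ℝ} (hf : DifferentiableAt ℝ f (t, θ)) :
    HasDerivAt (fun s => f (s, θ)) (pT f (t, θ)) t :=
  hf.hasFDerivAt.comp_hasDerivAt t ((hasDerivAt_id t).prodMk (hasDerivAt_const t θ))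

theorem hasDerivAt_pS {f : ℝ × ℝ → V} {t θ : ℝ} (hf : DifferentiableAt ℝ f (t, θ)) :
    HasDerivAt (fun s => f (t, s)) (pS f (t, θ)) θ :=
  hf.hasFDerivAt.comp_hasDerivAt θ ((hasDerivAt_const θ t).prodMk (hasDerivAt_id θ))

/-- `pT` is determined by the restriction to the line `θ = const`. -/
theorem pT_of_hasDerivAt {f : ℝ × ℝ → V} {t θ : ℝ} (hf : DifferentiableAt ℝ f (t, θ)) {v : V}
    (h : HasDerivAt (fun s => f (s, θ)) v t) : pT f (t, θ) = v := (hasDerivAt_pT hf).unique h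

theorem pS_of_hasDerivAt {f : ℝ × ℝ → V} {t θ : ℝ} (hf : DifferentiableAt ℝ f (t, θ)) {v : V}
    (h : HasDerivAt (fun s => f (t, s)) v θ) : pS f (t, θ) = v := (hasDerivAt_pS hf).unique h

theorem pT_congr {f g : ℝ × ℝ → V} {p : ℝ × ℝ} (h : f =ᶠ[𝓝 p] g) : pT f p = pT g p := by
  rw [pT, pT, h.fderiv_eq]

theorem pS_congr {f g : ℝ × ℝ → V} {p : ℝ × ℝ} (h : f =ᶠ[𝓝 p] g) : pS f p = pS g p := by
  rw [pS, pS, h.fderiv_eq]

/-- Functions that agree on a circle `t = const` have the same `θ` derivative there. -/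
theorem pS_congr_line {f g : ℝ × ℝ → V} {t θ : ℝ} (hf : DifferentiableAt ℝ f (t, θ))
    (hg : DifferentiableAt ℝ g (t, θ)) (h : ∀ s, f (t, s) = g (t, s)) :
    pS f (t, θ) = pS g (t, θ) :=
  pS_of_hasDerivAt hf (by simpa only [h] using hasDerivAt_pS hg)

theorem strip_mem_nhds {a b : ℝ} {p : ℝ × ℝ} (hp : p.1 ∈ Ioo a b) :
    ∀ᶠ q : ℝ × ℝ in 𝓝 p, q.1 ∈ Ioo a b :=
  continuous_fst.continuousAt.eventually_mem (isOpen_Ioo.mem_nhds hp)

theorem pT_pS_comm {f : ℝ × ℝ → V} (hf : ContDiff ℝ 2 f) (p : ℝ × ℝ) :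
    pT (pS f) p = pS (pT f) p := by
  have h1 : DifferentiableAt ℝ (fderiv ℝ f) p :=
    (hf.fderiv_right (m := 1) (by norm_num)).differentiable one_ne_zero p
  have h2 : ∀ v w, fderiv ℝ (fun q => fderiv ℝ f q v) p w = fderiv ℝ (fderiv ℝ f) p w v :=
    fun v w => by rw [fderiv_clm_apply h1 (differentiableAt_const v)]; simp
  exact (h2 _ _).trans (((hf.contDiffAt.isSymmSndFDerivAt (by simp)).eq _ _).trans (h2 _ _).symm)

theorem sm_two {f : ℝ × ℝ → V} (hf : ContDiff ℝ ∞ f) : ContDiff ℝ 2 f :=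
  contDiff_infty.1 hf 2

theorem sm_one {f : ℝ × ℝ → V} (hf : ContDiff ℝ ∞ f) : ContDiff ℝ 1 f :=
  contDiff_infty.1 hf 1

/-- The derivative of a map that commutes with the period up to a constant is periodic. -/
theorem per_fderiv {f : ℝ × ℝ → V} {c : V} (h : ∀ t θ, f (t, θ + 2 * π) = f (t, θ) + c) :
    Per2 (fderiv ℝ f) := fun t θ => by
  have e : (fun q : ℝ × ℝ => f (q + (0, 2 * π))) = fun q => f q + c := funext fun q => by
    rw [← h q.1 q.2]
    congr 1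
    ext <;> simp
  have h1 := fderiv_comp_add_right (𝕜 := ℝ) (f := f) (x := (t, θ)) (0, 2 * π)
  rw [e, fderiv_add_const] at h1
  simpa using h1.symm

theorem Per2.pT {f : ℝ × ℝ → V} (h : Per2 f) : Per2 (pT f) := fun t θ => by
  rw [MP_14b623_gt.pT, per_fderiv (c := 0) (fun t θ => by rw [h, add_zero]) t θ]
  rfl

theorem Per2.pS {f : ℝ × ℝ → V} (h : Per2 f) : Per2 (pS f) := fun t θ => by
  rw [MP_14b623_gt.pS, per_fderiv (c := 0) (fun t θ => by rw [h, add_zero]) t θ]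
  rfl

theorem Per2.periodic {V : Type} {f : ℝ × ℝ → V} (h : Per2 f) (t : ℝ) :
    Function.Periodic (fun θ => f (t, θ)) (2 * π) := h t

/-- Every value is taken on the fundamental domain. -/
theorem Per2.exists_mem {V : Type} {f : ℝ × ℝ → V} (h : Per2 f) (p : ℝ × ℝ) :
    ∃ θ ∈ Icc 0 (2 * π), f p = f (p.1, θ) := by
  obtain ⟨θ, h1, h2⟩ := (h.periodic p.1).exists_mem_Ico₀ two_pi_pos p.2
  exact ⟨θ, Ico_subset_Icc_self h1, h2⟩

theorem Per2.exists_min {f : ℝ × ℝ → ℝ} (h : Per2 f) (hc : Continuous f) {a b : ℝ} (hab : a ≤ b) :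
    ∃ p : ℝ × ℝ, p.1 ∈ Icc a b ∧ ∀ q : ℝ × ℝ, q.1 ∈ Icc a b → f p ≤ f q := by
  obtain ⟨p, hp, h1⟩ := ((isCompact_Icc (a := a) (b := b)).prod
    (isCompact_Icc (a := 0) (b := 2 * π))).exists_isMinOn
      ⟨(a, 0), ⟨le_rfl, hab⟩, le_rfl, two_pi_pos.le⟩ hc.continuousOn
  refine ⟨p, hp.1, fun q hq => ?_⟩
  obtain ⟨θ, h2, h3⟩ := h.exists_mem q
  rw [h3]
  exact h1 (mk_mem_prod hq h2)

theorem Per2.exists_bound {V : Type} [NormedAddCommGroup V] {f : ℝ × ℝ → V} (h : Per2 f)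
    (hc : Continuous f) (a b : ℝ) : ∃ C : ℝ, 0 < C ∧ ∀ q : ℝ × ℝ, q.1 ∈ Icc a b → ‖f q‖ ≤ C := by
  obtain ⟨C, hC⟩ := ((isCompact_Icc (a := a) (b := b)).prod
    (isCompact_Icc (a := 0) (b := 2 * π))).exists_bound_of_continuousOn hc.continuousOn
  refine ⟨max C 1, lt_max_of_lt_right one_pos, fun q hq => ?_⟩
  obtain ⟨θ, h2, h3⟩ := h.exists_mem q
  rw [h3]
  exact (hC _ (mk_mem_prod hq h2)).trans (le_max_left _ _)

theorem Per2.exists_pos_le {f : ℝ × ℝ → ℝ} (h : Per2 f) (hc : Continuous f) {a b : ℝ}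
    (hab : a ≤ b) (h0 : ∀ q : ℝ × ℝ, q.1 ∈ Icc a b → 0 < f q) :
    ∃ c : ℝ, 0 < c ∧ ∀ q : ℝ × ℝ, q.1 ∈ Icc a b → c ≤ f q := by
  obtain ⟨p, hp, h1⟩ := h.exists_min hc hab
  exact ⟨f p, h0 p hp, h1⟩

/-- Positivity on a closed strip extends to a larger strip. -/
theorem Per2.exists_nhds {f : ℝ × ℝ → ℝ} (h : Per2 f) (hc : Continuous f) {a b : ℝ}
    (hab : a ≤ b) (h0 : ∀ q : ℝ × ℝ, q.1 ∈ Icc a b → 0 < f q) :
    ∃ ε : ℝ, 0 < ε ∧ ∀ q : ℝ × ℝ, q.1 ∈ Icc (a - ε) (b + ε) → 0 < f q := by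
  obtain ⟨u, v, hu, -, h1, h2, h3⟩ := generalized_tube_lemma (isCompact_Icc (a := a) (b := b))
    (isCompact_Icc (a := 0) (b := 2 * π)) (isOpen_lt continuous_const hc) fun q hq => h0 q hq.1
  obtain ⟨δ, hδ, h4⟩ := isCompact_Icc.exists_cthickening_subset_open hu h1
  refine ⟨δ, hδ, fun q hq => ?_⟩
  obtain ⟨θ, h5, h6⟩ := h.exists_mem q
  rw [h6]
  refine h3 (mk_mem_prod (h4 (Metric.mem_cthickening_of_dist_le q.1 (max a (min q.1 b)) δ _
    ⟨le_max_left _ _, max_le hab (min_le_right _ _)⟩ ?_)) (h2 h5))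
  rw [Real.dist_eq, abs_le, max_def, min_def]
  split_ifs <;> constructor <;> linarith [hq.1, hq.2]

/-- A smooth map of the line into a small neighbourhood of `[a, b]` that is the identity near
`[a, b]`. -/
theorem exists_squeeze (a b : ℝ) (hab : a ≤ b) {ε : ℝ} (hε : 0 < ε) :
    ∃ χ : ℝ → ℝ, ContDiff ℝ ∞ χ ∧ (∀ t, χ t ∈ Ioo (a - ε) (b + ε)) ∧
      ∀ t ∈ Icc (a - ε / 2) (b + ε / 2), χ t = t := by
  let β : ContDiffBump ((a + b) / 2) := ⟨(b - a) / 2 + ε / 2, (b - a) / 2 + ε, by linarith,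
    by linarith⟩
  refine ⟨fun t => (a + b) / 2 + β t * (t - (a + b) / 2),
    contDiff_const.add (β.contDiff.mul (contDiff_id.sub contDiff_const)), fun t => ?_,
    fun t ht => ?_⟩
  · have h1 : |β t * (t - (a + b) / 2)| < (b - a) / 2 + ε := by
      by_cases h : dist t ((a + b) / 2) < (b - a) / 2 + ε
      · rw [abs_mul, abs_of_nonneg β.nonneg]
        exact (mul_le_of_le_one_left (abs_nonneg _) β.le_one).trans_lt h
      · rw [β.zero_of_le_dist (not_lt.1 h), zero_mul, abs_zero]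
        linarith
    rw [abs_lt] at h1
    constructor <;> linarith [h1.1, h1.2]
  · have h1 : β t = 1 := β.one_of_mem_closedBall (by
      rw [Metric.mem_closedBall, Real.dist_eq, abs_le]
      constructor <;> dsimp only [β] <;> linarith [ht.1, ht.2])
    simp [h1]

/-- Stokes' formula on the cylinder. -/
theorem stokes [CompleteSpace V] {P Q : ℝ × ℝ → V} (hP : ContDiff ℝ 1 P) (hQ : ContDiff ℝ 1 Q)
    (pQ : Per2 Q) (a b : ℝ) :
    ∫ t in a..b, ∫ θ in (0 : ℝ)..(2 * π), (pT P (t, θ) - pS Q (t, θ)) =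
      (∫ θ in (0 : ℝ)..(2 * π), P (b, θ)) - ∫ θ in (0 : ℝ)..(2 * π), P (a, θ) := by
  have c1 : Continuous (pT P) := (hP.continuous_fderiv one_ne_zero).clm_apply continuous_const
  have c2 : Continuous (pS Q) := (hQ.continuous_fderiv one_ne_zero).clm_apply continuous_const
  have c3 := hP.continuous
  have h1 : ∀ t, ∫ θ in (0 : ℝ)..(2 * π), (pT P (t, θ) - pS Q (t, θ)) =
      ∫ θ in (0 : ℝ)..(2 * π), pT P (t, θ) := fun t => by
    rw [intervalIntegral.integral_sub (Continuous.intervalIntegrable (by fun_prop) _ _)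
      (Continuous.intervalIntegrable (by fun_prop) _ _),
      intervalIntegral.integral_eq_sub_of_hasDerivAt
        (fun θ _ => hasDerivAt_pS (hQ.differentiable one_ne_zero (t, θ)))
        (Continuous.intervalIntegrable (by fun_prop) _ _), ← pQ t 0, zero_add, sub_self, sub_zero]
  have h2 : ∀ θ, ∫ t in a..b, pT P (t, θ) = P (b, θ) - P (a, θ) := fun θ =>
    intervalIntegral.integral_eq_sub_of_hasDerivAt
      (fun t _ => hasDerivAt_pT (hP.differentiable one_ne_zero (t, θ)))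
      (Continuous.intervalIntegrable (by fun_prop) _ _)
  have h3 : MeasureTheory.IntegrableOn (Function.uncurry fun t θ => pT P (t, θ))
      (uIcc a b ×ˢ uIcc 0 (2 * π)) :=
    c1.continuousOn.integrableOn_compact (isCompact_uIcc.prod isCompact_uIcc)
  simp only [h1]
  rw [MeasureTheory.intervalIntegral_intervalIntegral_swap
    (h3.mono_set (prod_mono uIoc_subset_uIcc uIoc_subset_uIcc))]
  simp only [h2]
  exact intervalIntegral.integral_sub (Continuous.intervalIntegrable (by fun_prop) _ _)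
    (Continuous.intervalIntegrable (by fun_prop) _ _)

/-- The primitive in `t`. -/
noncomputable def prim (a : ℝ) (f : ℝ × ℝ → V) (p : ℝ × ℝ) : V := ∫ τ in a..p.1, f (τ, p.2)

theorem prim_left (a θ : ℝ) (f : ℝ × ℝ → V) : prim a f (a, θ) = 0 :=
  intervalIntegral.integral_same

theorem Per2.prim {f : ℝ × ℝ → V} (h : Per2 f) (a : ℝ) : Per2 (prim a f) := fun t θ => by
  simp only [MP_14b623_gt.prim, h _ θ]

theorem sm_prim [CompleteSpace V] {f : ℝ × ℝ → V} (hf : ContDiff ℝ ∞ f) (a : ℝ) :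
    ContDiff ℝ ∞ (prim a f) := by
  have h1 : ContDiff ℝ ∞ fun q : (ℝ × ℝ) × ℝ => (q.1.1 - a) • f (a + (q.1.1 - a) * q.2, q.1.2) :=
    ContDiff.smul (by fun_prop) (hf.comp (by fun_prop))
  have h2 := MP_42bfd7_mp.contDiffOn_parInt (a := 0) (b := 1) isOpen_univ isOpen_univ
    (subset_univ _) h1.contDiffOn
  rw [contDiffOn_univ] at h2
  have e : prim a f = fun y : ℝ × ℝ => ∫ u in (0 : ℝ)..1, (y.1 - a) • f (a + (y.1 - a) * u, y.2) :=
    funext fun y => by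
      rw [intervalIntegral.integral_smul,
        intervalIntegral.smul_integral_comp_add_mul (fun τ => f (τ, y.2))]
      simp [prim]
  rw [e]
  exact h2

theorem pT_prim [CompleteSpace V] {f : ℝ × ℝ → V} (hf : ContDiff ℝ ∞ f) (a : ℝ) (p : ℝ × ℝ) :
    pT (prim a f) p = f p := by
  have hc : Continuous fun τ => f (τ, p.2) := hf.continuous.comp (by fun_prop)
  exact pT_of_hasDerivAt (sm_diff (sm_prim hf a) _)
    (intervalIntegral.integral_hasDerivAt_right (hc.intervalIntegrable _ _)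
      (hc.stronglyMeasurableAtFilter _ _) hc.continuousAt)

theorem pS_prim [CompleteSpace V] {f : ℝ × ℝ → V} (hf : ContDiff ℝ ∞ f) (a : ℝ) (p : ℝ × ℝ) :
    pS (prim a f) p = prim a (pS f) p := by
  have h1 : ContDiff ℝ ∞ fun q : ℝ × ℝ => f (q.2, q.1) := hf.comp (by fun_prop)
  obtain ⟨h2, h3⟩ := MP_42bfd7_mp.hasFDerivAt_parInt (a := a) (b := p.1) isOpen_univ isOpen_univ
    (subset_univ _) h1.contDiffOn (mem_univ p.2)
  have h4 := h2.hasFDerivAt.hasDerivAt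
  rw [h3] at h4
  refine (pS_of_hasDerivAt (sm_diff (sm_prim hf a) _) h4).trans ?_
  refine intervalIntegral.integral_congr fun τ _ => ?_
  exact pT_of_hasDerivAt (sm_diff h1 _) (hasDerivAt_pS (sm_diff hf _))

end Pool.Agent.Lib.MP_14b623_gt
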