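import Pool.Agent.Lib.MP_14b623_gt.IBas

/-! Adapted orthonormal frames, the Beltrami coefficient and the Hopf function. -/

namespace Pool.Agent.Lib.MP_14b623_gt

open Set Real Filter Topology
open scoped ContDiff InnerProductSpace

/-- An orthonormal frame on the whole plane, adapted to `X` on the open set `U`. -/
structure Fr0 (X : ℝ × ℝ → E3) where
  e₁ : ℝ × ℝ → E3
  e₂ : ℝ × ℝ → E3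
  N : ℝ × ℝ → E3
  ρ : ℝ × ℝ → ℝ
  m₁ : ℝ × ℝ → ℝ
  m₂ : ℝ × ℝ → ℝ
  U : Set (ℝ × ℝ)
  U_open : IsOpen U
  s₁ : ContDiff ℝ ∞ e₁
  s₂ : ContDiff ℝ ∞ e₂
  sN : ContDiff ℝ ∞ N
  sρ : ContDiff ℝ ∞ ρ
  sm₁ : ContDiff ℝ ∞ m₁
  sm₂ : ContDiff ℝ ∞ m₂
  o11 : ∀ p, ⟪e₁ p, e₁ p⟫_ℝ = 1
  o22 : ∀ p, ⟪e₂ p, e₂ p⟫_ℝ = 1
  oNN : ∀ p, ⟪N p, N p⟫_ℝ = 1
  o12 : ∀ p, ⟪e₁ p, e₂ p⟫_ℝ = 0
  oN1 : ∀ p, ⟪N p, e₁ p⟫_ℝ = 0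
  oN2 : ∀ p, ⟪N p, e₂ p⟫_ℝ = 0
  ρ_pos : ∀ p, 0 < ρ p
  m₂_pos : ∀ p, 0 < m₂ p
  hS : ∀ p ∈ U, pS X p = ρ p • e₁ p
  hT : ∀ p ∈ U, pT X p = (ρ p * m₁ p) • e₁ p + (ρ p * m₂ p) • e₂ p

namespace Fr0

variable {X : ℝ × ℝ → E3} (Φ : Fr0 X)

/-- The Beltrami coefficient: `dθ + μ dt` is a form of type `(1, 0)`. -/
noncomputable def μ (p : ℝ × ℝ) : ℂ := Φ.m₁ p + Φ.m₂ p * Complex.I

/-- The second fundamental form on `∂_θ` and `e₁ - i e₂`. -/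
noncomputable def k (p : ℝ × ℝ) : ℂ :=
  (-⟪pS Φ.N p, Φ.e₁ p⟫_ℝ : ℝ) + (⟪pS Φ.N p, Φ.e₂ p⟫_ℝ : ℝ) * Complex.I

/-- The second fundamental form on `∂_t` and `e₁ - i e₂`. -/
noncomputable def l (p : ℝ × ℝ) : ℂ :=
  (-⟪pT Φ.N p, Φ.e₁ p⟫_ℝ : ℝ) + (⟪pT Φ.N p, Φ.e₂ p⟫_ℝ : ℝ) * Complex.I

/-- The Hopf function. -/
noncomputable def q (p : ℝ × ℝ) : ℂ := Φ.ρ p * Φ.k p

/-- The connection form on `∂_t`. -/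
noncomputable def ωT (p : ℝ × ℝ) : ℝ := ⟪pT Φ.e₁ p, Φ.e₂ p⟫_ℝ

/-- The connection form on `∂_θ`. -/
noncomputable def ωS (p : ℝ × ℝ) : ℝ := ⟪pS Φ.e₁ p, Φ.e₂ p⟫_ℝ

theorem μ_re (p : ℝ × ℝ) : (Φ.μ p).re = Φ.m₁ p := by simp [μ]

theorem μ_im (p : ℝ × ℝ) : (Φ.μ p).im = Φ.m₂ p := by simp [μ]

theorem sm_cx {u v : ℝ × ℝ → ℝ} (hu : ContDiff ℝ ∞ u) (hv : ContDiff ℝ ∞ v) :
    ContDiff ℝ ∞ fun p => ((u p : ℂ) + (v p : ℂ) * Complex.I) :=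
  (Complex.ofRealCLM.contDiff.comp hu).add
    ((Complex.ofRealCLM.contDiff.comp hv).mul contDiff_const)

theorem sμ : ContDiff ℝ ∞ Φ.μ := sm_cx Φ.sm₁ Φ.sm₂

theorem sk : ContDiff ℝ ∞ Φ.k := sm_cx ((sm_pS Φ.sN).inner ℝ Φ.s₁).neg ((sm_pS Φ.sN).inner ℝ Φ.s₂)

theorem sl : ContDiff ℝ ∞ Φ.l := sm_cx ((sm_pT Φ.sN).inner ℝ Φ.s₁).neg ((sm_pT Φ.sN).inner ℝ Φ.s₂)

theorem sq : ContDiff ℝ ∞ Φ.q := (Complex.ofRealCLM.contDiff.comp Φ.sρ).mul Φ.sk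

theorem sωT : ContDiff ℝ ∞ Φ.ωT := (sm_pT Φ.s₁).inner ℝ Φ.s₂

theorem sωS : ContDiff ℝ ∞ Φ.ωS := (sm_pS Φ.s₁).inner ℝ Φ.s₂

theorem gG_eq {p : ℝ × ℝ} (hp : p ∈ Φ.U) : gG X p = Φ.ρ p ^ 2 := by
  rw [gG, dS_eq, Φ.hS p hp, real_inner_smul_left, real_inner_smul_right, Φ.o11]
  ring

theorem gF_eq {p : ℝ × ℝ} (hp : p ∈ Φ.U) : gF X p = Φ.ρ p ^ 2 * Φ.m₁ p := by
  rw [gF, dS_eq, dT_eq, Φ.hS p hp, Φ.hT p hp]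
  simp only [inner_add_left, real_inner_smul_left, real_inner_smul_right, Φ.o11,
    real_inner_comm (Φ.e₁ p) (Φ.e₂ p), Φ.o12]
  ring

theorem gE_eq {p : ℝ × ℝ} (hp : p ∈ Φ.U) :
    gE X p = Φ.ρ p ^ 2 * (Φ.m₁ p ^ 2 + Φ.m₂ p ^ 2) := by
  rw [gE, dT_eq, Φ.hT p hp]
  simp only [inner_add_left, inner_add_right, real_inner_smul_left, real_inner_smul_right, Φ.o11,
    Φ.o22, real_inner_comm (Φ.e₁ p) (Φ.e₂ p), Φ.o12]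
  ring

theorem sqrt_eq {p : ℝ × ℝ} (hp : p ∈ Φ.U) :
    √(gE X p * gG X p - gF X p ^ 2) = Φ.ρ p ^ 2 * Φ.m₂ p := by
  have h := Φ.m₂_pos p
  rw [Φ.gE_eq hp, Φ.gF_eq hp, Φ.gG_eq hp, Real.sqrt_eq_iff_mul_self_eq_of_pos
    (mul_pos (pow_pos (Φ.ρ_pos p) 2) h)]
  ring

end Fr0

/-- A periodic frame adapted to `X` near the strip `A ≤ t ≤ B`. -/
structure Frame (A B : ℝ) (X : ℝ × ℝ → E3) extends Fr0 X where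
  p₁ : Per2 e₁
  p₂ : Per2 e₂
  pN : Per2 N
  pρ : Per2 ρ
  pm₁ : Per2 m₁
  pm₂ : Per2 m₂
  mem_Ioo : ∀ {p : ℝ × ℝ}, p.1 ∈ Icc A B → p ∈ U

namespace Frame

variable {A B : ℝ} {X : ℝ × ℝ → E3} (Φ : Frame A B X)

theorem pμ : Per2 Φ.μ := fun t θ => by rw [Fr0.μ, Fr0.μ, Φ.pm₁, Φ.pm₂]

theorem pq : Per2 Φ.q := fun t θ => by rw [Fr0.q, Fr0.q, Fr0.k, Fr0.k, Φ.pρ, Φ.pN.pS, Φ.p₁, Φ.p₂]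

theorem pωT : Per2 Φ.ωT := fun t θ => by rw [Fr0.ωT, Fr0.ωT, Φ.p₁.pT, Φ.p₂]

theorem gG_eq {p : ℝ × ℝ} (hp : p.1 ∈ Icc A B) : gG X p = Φ.ρ p ^ 2 :=
  Φ.toFr0.gG_eq (Φ.mem_Ioo hp)

theorem gF_eq {p : ℝ × ℝ} (hp : p.1 ∈ Icc A B) : gF X p = Φ.ρ p ^ 2 * Φ.m₁ p :=
  Φ.toFr0.gF_eq (Φ.mem_Ioo hp)

theorem gE_eq {p : ℝ × ℝ} (hp : p.1 ∈ Icc A B) :
    gE X p = Φ.ρ p ^ 2 * (Φ.m₁ p ^ 2 + Φ.m₂ p ^ 2) := Φ.toFr0.gE_eq (Φ.mem_Ioo hp)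

theorem sqrt_eq {p : ℝ × ℝ} (hp : p.1 ∈ Icc A B) :
    √(gE X p * gG X p - gF X p ^ 2) = Φ.ρ p ^ 2 * Φ.m₂ p := Φ.toFr0.sqrt_eq (Φ.mem_Ioo hp)

end Frame

/-- A change of parameters of the cylinder that maps `[0, T]` to `[A, B]`. -/
structure Rep (T A B : ℝ) (Ψ : ℝ × ℝ → ℝ × ℝ) : Prop where
  pos : 0 < T
  smooth : ContDiff ℝ ∞ Ψ
  per : ∀ s φ, Ψ (s, φ + 2 * π) = Ψ (s, φ) + (0, 2 * π)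
  maps : ∀ p : ℝ × ℝ, p.1 ∈ Icc 0 T → (Ψ p).1 ∈ Icc A B
  left : ∀ φ, (Ψ (0, φ)).1 = A
  right : ∀ φ, (Ψ (T, φ)).1 = B

/-- The Jacobian determinant. -/
noncomputable def jdet (Ψ : ℝ × ℝ → ℝ × ℝ) (p : ℝ × ℝ) : ℝ :=
  (pT Ψ p).1 * (pS Ψ p).2 - (pT Ψ p).2 * (pS Ψ p).1

/-- The form `dθ + μ dt` on a vector. -/
noncomputable def zf (μ : ℂ) (v : ℝ × ℝ) : ℂ := v.2 + μ * v.1

/-- A conformal coordinate `W = φ + i s` for the structure `dθ + μ dt` on the strip. -/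
structure Coord (A B T : ℝ) (μ W : ℝ × ℝ → ℂ) : Prop where
  lt : A < B
  smooth : ContDiff ℝ ∞ W
  per : ∀ t θ, W (t, θ + 2 * π) = W (t, θ) + 2 * π
  im_pos : ∀ p : ℝ × ℝ, p.1 ∈ Icc A B → 0 < (μ p).im
  bel : ∀ p : ℝ × ℝ, p.1 ∈ Icc A B → pT W p = μ p * pS W p
  ne : ∀ p : ℝ × ℝ, p.1 ∈ Icc A B → pS W p ≠ 0
  left : ∀ θ, (W (A, θ)).im = 0
  right : ∀ θ, (W (B, θ)).im = T
  re_pos : ∀ p : ℝ × ℝ, p.1 = A ∨ p.1 = B → 0 < (pS W p).re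

/-- The real Jacobian of a complex function. -/
noncomputable def cjac (W : ℝ × ℝ → ℂ) (p : ℝ × ℝ) : ℝ :=
  (pT W p).im * (pS W p).re - (pT W p).re * (pS W p).im

/-- Behaviour of a coordinate on a slightly larger strip. -/
structure Wide (A B T ε η : ℝ) (W : ℝ × ℝ → ℂ) : Prop where
  ε_pos : 0 < ε
  η_pos : 0 < η
  T_pos : 0 < T
  jac : ∀ p : ℝ × ℝ, p.1 ∈ Icc (A - ε) (B + ε) → 0 < cjac W p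
  lt_A : ∀ p : ℝ × ℝ, p.1 ∈ Ico (A - ε) A → (W p).im < 0
  gt_A : ∀ p : ℝ × ℝ, p.1 ∈ Ioc A (B + ε) → 0 < (W p).im
  lt_B : ∀ p : ℝ × ℝ, p.1 ∈ Ico (A - ε) B → (W p).im < T
  gt_B : ∀ p : ℝ × ℝ, p.1 ∈ Ioc B (B + ε) → T < (W p).im
  low : ∀ θ, (W (A - ε, θ)).im ≤ -η
  high : ∀ θ, T + η ≤ (W (B + ε, θ)).im

end Pool.Agent.Lib.MP_14b623_gt
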