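import Pool.Agent.Lib.MP_14b623_gt.IDefs

/-! Existence of an adapted frame. -/

namespace Pool.Agent.Lib.MP_14b623_gt

open Set Real Filter Topology
open scoped ContDiff InnerProductSpace

/-- The cross product. -/
noncomputable def ifraCr (u v : E3) : E3 :=
  !₂[u 1 * v 2 - u 2 * v 1, u 2 * v 0 - u 0 * v 2, u 0 * v 1 - u 1 * v 0]

theorem ifra_inner (u v : E3) : ⟪u, v⟫_ℝ = u 0 * v 0 + u 1 * v 1 + u 2 * v 2 := by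
  simp [PiLp.inner_apply, Fin.sum_univ_three, mul_comm]

theorem ifra_cr (u v : E3) :
    ⟪ifraCr u v, ifraCr u v⟫_ℝ = ⟪u, u⟫_ℝ * ⟪v, v⟫_ℝ - ⟪u, v⟫_ℝ ^ 2 ∧
      ⟪ifraCr u v, u⟫_ℝ = 0 ∧ ⟪ifraCr u v, v⟫_ℝ = 0 := by
  have h0 : ifraCr u v 0 = u 1 * v 2 - u 2 * v 1 := rfl
  have h1 : ifraCr u v 1 = u 2 * v 0 - u 0 * v 2 := rfl
  have h2 : ifraCr u v 2 = u 0 * v 1 - u 1 * v 0 := rfl
  simp only [ifra_inner, h0, h1, h2]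
  exact ⟨by ring, by ring, by ring⟩

theorem ifra_sm {u v : ℝ × ℝ → E3} (hu : ContDiff ℝ ∞ u) (hv : ContDiff ℝ ∞ v) :
    ContDiff ℝ ∞ fun p => ifraCr (u p) (v p) := by
  have h1 := contDiff_euclidean.1 hu
  have h2 := contDiff_euclidean.1 hv
  refine contDiff_euclidean.2 fun i => ?_
  fin_cases i <;> exact ((h1 _).mul (h2 _)).sub ((h1 _).mul (h2 _))

theorem ifra_pos {a b : E3} (h : 0 < ⟪a, a⟫_ℝ * ⟪b, b⟫_ℝ - ⟪a, b⟫_ℝ ^ 2) : 0 < ⟪b, b⟫_ℝ := by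
  refine real_inner_self_nonneg.lt_of_ne fun e => ?_
  rw [← e, mul_zero] at h
  linarith [sq_nonneg ⟪a, b⟫_ℝ]

theorem ifra_gs {a b : E3} {ρ J : ℝ} (hρ : 0 < ρ) (hJ : 0 < J) (h1 : ρ ^ 2 = ⟪b, b⟫_ℝ)
    (h2 : J ^ 2 = ⟪a, a⟫_ℝ * ⟪b, b⟫_ℝ - ⟪a, b⟫_ℝ ^ 2) {e₁ e₂ : E3} (d₁ : e₁ = ρ⁻¹ • b)
    (d₂ : e₂ = (ρ * (J / ⟪b, b⟫_ℝ))⁻¹ • (a - (⟪a, b⟫_ℝ / ⟪b, b⟫_ℝ) • b)) :
    ⟪e₁, e₁⟫_ℝ = 1 ∧ ⟪e₂, e₂⟫_ℝ = 1 ∧ ⟪e₁, e₂⟫_ℝ = 0 ∧ b = ρ • e₁ ∧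
      a = (ρ * (⟪a, b⟫_ℝ / ⟪b, b⟫_ℝ)) • e₁ + (ρ * (J / ⟪b, b⟫_ℝ)) • e₂ := by
  have h3 : ⟪a, a⟫_ℝ = (J ^ 2 + ⟪a, b⟫_ℝ ^ 2) / ρ ^ 2 := by
    rw [eq_div_iff (by positivity), h2, h1]
    ring
  have h4 : ρ * (J / ⟪b, b⟫_ℝ) ≠ 0 := by
    rw [← h1]
    positivity
  subst d₁ d₂
  refine ⟨?_, ?_, ?_, ?_, ?_⟩
  · rw [real_inner_smul_left, real_inner_smul_right, ← h1]
    field_simp
  · simp only [real_inner_smul_left, real_inner_smul_right, inner_sub_left, inner_sub_right,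
      real_inner_comm a b]
    rw [h3, ← h1]
    field_simp
    ring
  · simp only [real_inner_smul_left, real_inner_smul_right, inner_sub_right, real_inner_comm a b]
    rw [← h1]
    field_simp
    ring
  · rw [smul_inv_smul₀ hρ.ne']
  · rw [smul_inv_smul₀ h4, smul_smul, mul_right_comm, mul_inv_cancel₀ hρ.ne', one_mul,
      add_sub_cancel]

/-- The frame of two independent vector fields that agree with `pT X`, `pS X` on `U`. -/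
theorem exists_fr0 {X a b : ℝ × ℝ → E3} (sa : ContDiff ℝ ∞ a) (sb : ContDiff ℝ ∞ b)
    (hD : ∀ p, 0 < ⟪a p, a p⟫_ℝ * ⟪b p, b p⟫_ℝ - ⟪a p, b p⟫_ℝ ^ 2) {U : Set (ℝ × ℝ)}
    (hU : IsOpen U) (ea : ∀ p ∈ U, pT X p = a p ∧ pS X p = b p) :
    ∃ Φ : Fr0 X, Φ.U = U ∧ ∀ p p', a p = a p' → b p = b p' → Φ.e₁ p = Φ.e₁ p' ∧ Φ.e₂ p = Φ.e₂ p' ∧
      Φ.N p = Φ.N p' ∧ Φ.ρ p = Φ.ρ p' ∧ Φ.m₁ p = Φ.m₁ p' ∧ Φ.m₂ p = Φ.m₂ p' := by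
  have hG := fun p => ifra_pos (hD p)
  have sG := sb.inner ℝ sb
  have sρ := sG.sqrt fun p => (hG p).ne'
  have sm₁ := (sa.inner ℝ sb).div sG fun p => (hG p).ne'
  have sm₂ := ((((sa.inner ℝ sa).mul sG).sub ((sa.inner ℝ sb).pow 2)).sqrt
    fun p => (hD p).ne').div sG fun p => (hG p).ne'
  have hρ := fun p => Real.sqrt_pos.2 (hG p)
  have hm := fun p => div_pos (Real.sqrt_pos.2 (hD p)) (hG p)
  have s₁ := (sρ.inv fun p => (hρ p).ne').smul sb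
  have s₂ := ((sρ.mul sm₂).inv fun p => (mul_pos (hρ p) (hm p)).ne').smul (sa.sub (sm₁.smul sb))
  have o := fun p => ifra_gs (hρ p) (Real.sqrt_pos.2 (hD p)) (Real.sq_sqrt (hG p).le)
    (Real.sq_sqrt (hD p).le) rfl rfl
  refine ⟨{
    U := U
    U_open := hU
    s₁ := s₁
    s₂ := s₂
    sN := ifra_sm s₁ s₂
    sρ := sρ
    sm₁ := sm₁
    sm₂ := sm₂
    o11 := fun p => (o p).1
    o22 := fun p => (o p).2.1
    oNN := fun p => (ifra_cr _ _).1.trans ((congrArg₂ (· - · ^ 2)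
      (congrArg₂ (· * ·) (o p).1 (o p).2.1) (o p).2.2.1).trans (by norm_num))
    o12 := fun p => (o p).2.2.1
    oN1 := fun p => (ifra_cr _ _).2.1
    oN2 := fun p => (ifra_cr _ _).2.2
    ρ_pos := hρ
    m₂_pos := hm
    hS := fun p hp => (ea p hp).2.trans (o p).2.2.2.1
    hT := fun p hp => (ea p hp).1.trans (o p).2.2.2.2, .. }, rfl, fun p p' h1 h2 => ?_⟩
  simp only [Pi.smul_apply', Pi.inv_apply, Pi.div_apply, h1, h2, and_self]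

theorem exists_frame {A B : ℝ} {X : ℝ × ℝ → E3} (h : IsFBMAnnulus A B X)
    (hs : ContDiff ℝ ∞ X) : Nonempty (Frame A B X) := by
  have pX : Per2 X := h.periodic
  have sT := sm_pT hs
  have sS := sm_pS hs
  obtain ⟨ε, hε, h0⟩ := Per2.exists_nhds (f := fun p => ⟪pT X p, pT X p⟫_ℝ * ⟪pS X p, pS X p⟫_ℝ -
    ⟪pT X p, pS X p⟫_ℝ ^ 2) (fun t θ => by simp only [pX.pT t θ, pX.pS t θ])
    (((sT.inner ℝ sT).mul (sS.inner ℝ sS)).sub ((sT.inner ℝ sS).pow 2)).continuous h.lt.le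
    h.immersion
  obtain ⟨χ, sχ, h1, h2⟩ := exists_squeeze A B h.lt.le hε
  have sc : ContDiff ℝ ∞ fun p : ℝ × ℝ => (χ p.1, p.2) := (sχ.comp contDiff_fst).prodMk contDiff_snd
  obtain ⟨Φ, hU, h3⟩ := exists_fr0 (X := X) (sT.comp sc) (sS.comp sc)
    (fun p => h0 (χ p.1, p.2) (Ioo_subset_Icc_self (h1 p.1)))
    (isOpen_Ioo.preimage continuous_fst : IsOpen (Prod.fst ⁻¹' Ioo (A - ε / 2) (B + ε / 2)))
    fun p hp => by simp only [Function.comp, h2 _ (Ioo_subset_Icc_self hp), and_self]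
  have h4 := fun t θ => h3 (t, θ + 2 * π) (t, θ) (pX.pT _ θ) (pX.pS _ θ)
  exact ⟨⟨Φ, fun t θ => (h4 t θ).1, fun t θ => (h4 t θ).2.1, fun t θ => (h4 t θ).2.2.1,
    fun t θ => (h4 t θ).2.2.2.1, fun t θ => (h4 t θ).2.2.2.2.1, fun t θ => (h4 t θ).2.2.2.2.2,
    fun hp => hU ▸ ⟨by linarith [hp.1], by linarith [hp.2]⟩⟩⟩

end Pool.Agent.Lib.MP_14b623_gt
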