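import Pool.Agent.Lib.MP_14b623_gt.IDefs

/-! Structure equations of an orthonormal frame. -/

namespace Pool.Agent.Lib.MP_14b623_gt

open Set Real Filter Topology
open scoped ContDiff InnerProductSpace

theorem pT_inner {f g : ℝ × ℝ → E3} (hf : ContDiff ℝ ∞ f) (hg : ContDiff ℝ ∞ g) (p : ℝ × ℝ) :
    pT (fun q => ⟪f q, g q⟫_ℝ) p = ⟪pT f p, g p⟫_ℝ + ⟪f p, pT g p⟫_ℝ :=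
  (fderiv_inner_apply ℝ (sm_diff hf p) (sm_diff hg p) _).trans (add_comm _ _)

theorem pS_inner {f g : ℝ × ℝ → E3} (hf : ContDiff ℝ ∞ f) (hg : ContDiff ℝ ∞ g) (p : ℝ × ℝ) :
    pS (fun q => ⟪f q, g q⟫_ℝ) p = ⟪pS f p, g p⟫_ℝ + ⟪f p, pS g p⟫_ℝ :=
  (fderiv_inner_apply ℝ (sm_diff hf p) (sm_diff hg p) _).trans (add_comm _ _)

theorem ifrb_cx {u v : ℝ × ℝ → ℝ} (hu : ContDiff ℝ ∞ u) (hv : ContDiff ℝ ∞ v) (p w : ℝ × ℝ) :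
    fderiv ℝ (fun q => ((u q : ℂ) + (v q : ℂ) * Complex.I)) p w =
      fderiv ℝ u p w + fderiv ℝ v p w * Complex.I := by
  have h : HasFDerivAt (fun q => ((u q : ℂ) + (v q : ℂ) * Complex.I)) _ p :=
    (Complex.ofRealCLM.hasFDerivAt.comp p (sm_diff hu p).hasFDerivAt).add
      ((Complex.ofRealCLM.hasFDerivAt.comp p (sm_diff hv p).hasFDerivAt).mul_const Complex.I)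
  rw [h.fderiv]
  simp [mul_comm]

theorem pT_cx {u v : ℝ × ℝ → ℝ} (hu : ContDiff ℝ ∞ u) (hv : ContDiff ℝ ∞ v) (p : ℝ × ℝ) :
    pT (fun q => ((u q : ℂ) + (v q : ℂ) * Complex.I)) p = pT u p + pT v p * Complex.I :=
  ifrb_cx hu hv p _

theorem pS_cx {u v : ℝ × ℝ → ℝ} (hu : ContDiff ℝ ∞ u) (hv : ContDiff ℝ ∞ v) (p : ℝ × ℝ) :
    pS (fun q => ((u q : ℂ) + (v q : ℂ) * Complex.I)) p = pS u p + pS v p * Complex.I :=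
  ifrb_cx hu hv p _

theorem ifrb_T {f g : ℝ × ℝ → E3} (hf : ContDiff ℝ ∞ f) (hg : ContDiff ℝ ∞ g) {c : ℝ}
    (h : ∀ q, ⟪f q, g q⟫_ℝ = c) (p : ℝ × ℝ) : ⟪pT f p, g p⟫_ℝ + ⟪pT g p, f p⟫_ℝ = 0 := by
  rw [real_inner_comm (f p), ← pT_inner hf hg]
  simp [h, pT]

theorem ifrb_S {f g : ℝ × ℝ → E3} (hf : ContDiff ℝ ∞ f) (hg : ContDiff ℝ ∞ g) {c : ℝ}
    (h : ∀ q, ⟪f q, g q⟫_ℝ = c) (p : ℝ × ℝ) : ⟪pS f p, g p⟫_ℝ + ⟪pS g p, f p⟫_ℝ = 0 := by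
  rw [real_inner_comm (f p), ← pS_inner hf hg]
  simp [h, pS]

theorem ifrb_negT (u : ℝ × ℝ → ℝ) (p : ℝ × ℝ) : pT (fun q => -u q) p = -pT u p := by
  simp [pT, fderiv_fun_neg]

theorem ifrb_negS (u : ℝ × ℝ → ℝ) (p : ℝ × ℝ) : pS (fun q => -u q) p = -pS u p := by
  simp [pS, fderiv_fun_neg]

namespace Fr0

variable {X : ℝ × ℝ → E3} (Φ : Fr0 X)

theorem parseval (p : ℝ × ℝ) (v w : E3) : ⟪v, w⟫_ℝ = ⟪v, Φ.e₁ p⟫_ℝ * ⟪w, Φ.e₁ p⟫_ℝ +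
    ⟪v, Φ.e₂ p⟫_ℝ * ⟪w, Φ.e₂ p⟫_ℝ + ⟪v, Φ.N p⟫_ℝ * ⟪w, Φ.N p⟫_ℝ := by
  have h : Orthonormal ℝ ![Φ.e₁ p, Φ.e₂ p, Φ.N p] := by
    have h21 := (real_inner_comm _ _).trans (Φ.o12 p)
    have h1N := (real_inner_comm _ _).trans (Φ.oN1 p)
    have h2N := (real_inner_comm _ _).trans (Φ.oN2 p)
    rw [orthonormal_iff_ite]
    intro i j
    fin_cases i <;> fin_cases j
    exacts [Φ.o11 p, Φ.o12 p, h1N, h21, Φ.o22 p, h2N, Φ.oN1 p, Φ.oN2 p, Φ.oNN p]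
  have h1 := (OrthonormalBasis.mk h
    (h.linearIndependent.span_eq_top_of_card_eq_finrank (by simp)).ge).sum_inner_mul_inner v w
  rw [← h1, Fin.sum_univ_three, OrthonormalBasis.coe_mk]
  simp only [real_inner_comm _ w]
  rfl

theorem ifrb_l (p : ℝ × ℝ) :
    (Φ.l p).re = -⟪pT Φ.N p, Φ.e₁ p⟫_ℝ ∧ (Φ.l p).im = ⟪pT Φ.N p, Φ.e₂ p⟫_ℝ := by
  simp [l]

theorem ifrb_k (p : ℝ × ℝ) :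
    (Φ.k p).re = -⟪pS Φ.N p, Φ.e₁ p⟫_ℝ ∧ (Φ.k p).im = ⟪pS Φ.N p, Φ.e₂ p⟫_ℝ := by
  simp [k]

theorem rel_T (p : ℝ × ℝ) : ⟪pT Φ.e₁ p, Φ.e₁ p⟫_ℝ = 0 ∧ ⟪pT Φ.e₂ p, Φ.e₂ p⟫_ℝ = 0 ∧
    ⟪pT Φ.N p, Φ.N p⟫_ℝ = 0 ∧ ⟪pT Φ.e₂ p, Φ.e₁ p⟫_ℝ = -Φ.ωT p ∧
    ⟪pT Φ.e₁ p, Φ.N p⟫_ℝ = (Φ.l p).re ∧ ⟪pT Φ.e₂ p, Φ.N p⟫_ℝ = -(Φ.l p).im := by
  have h1 := ifrb_T Φ.s₁ Φ.s₁ Φ.o11 p
  have h2 := ifrb_T Φ.s₂ Φ.s₂ Φ.o22 p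
  have h3 := ifrb_T Φ.sN Φ.sN Φ.oNN p
  have h4 := ifrb_T Φ.s₁ Φ.s₂ Φ.o12 p
  have h5 := ifrb_T Φ.sN Φ.s₁ Φ.oN1 p
  have h6 := ifrb_T Φ.sN Φ.s₂ Φ.oN2 p
  rw [(Φ.ifrb_l p).1, (Φ.ifrb_l p).2, ωT]
  refine ⟨?_, ?_, ?_, ?_, ?_, ?_⟩ <;> linarith

theorem rel_S (p : ℝ × ℝ) : ⟪pS Φ.e₁ p, Φ.e₁ p⟫_ℝ = 0 ∧ ⟪pS Φ.e₂ p, Φ.e₂ p⟫_ℝ = 0 ∧
    ⟪pS Φ.N p, Φ.N p⟫_ℝ = 0 ∧ ⟪pS Φ.e₂ p, Φ.e₁ p⟫_ℝ = -Φ.ωS p ∧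
    ⟪pS Φ.e₁ p, Φ.N p⟫_ℝ = (Φ.k p).re ∧ ⟪pS Φ.e₂ p, Φ.N p⟫_ℝ = -(Φ.k p).im := by
  have h1 := ifrb_S Φ.s₁ Φ.s₁ Φ.o11 p
  have h2 := ifrb_S Φ.s₂ Φ.s₂ Φ.o22 p
  have h3 := ifrb_S Φ.sN Φ.sN Φ.oNN p
  have h4 := ifrb_S Φ.s₁ Φ.s₂ Φ.o12 p
  have h5 := ifrb_S Φ.sN Φ.s₁ Φ.oN1 p
  have h6 := ifrb_S Φ.sN Φ.s₂ Φ.oN2 p
  rw [(Φ.ifrb_k p).1, (Φ.ifrb_k p).2, ωS]
  refine ⟨?_, ?_, ?_, ?_, ?_, ?_⟩ <;> linarith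

/-- The Codazzi equation. -/
theorem codazzi (p : ℝ × ℝ) : pT Φ.k p - pS Φ.l p =
    Complex.I * Φ.ωT p * Φ.k p - Complex.I * Φ.ωS p * Φ.l p := by
  obtain ⟨a1, a2, a3, a4, -, -⟩ := Φ.rel_T p
  obtain ⟨b1, b2, b3, b4, -, -⟩ := Φ.rel_S p
  have hk := pT_cx ((sm_pS Φ.sN).inner ℝ Φ.s₁).neg ((sm_pS Φ.sN).inner ℝ Φ.s₂) p
  have hl := pS_cx ((sm_pT Φ.sN).inner ℝ Φ.s₁).neg ((sm_pT Φ.sN).inner ℝ Φ.s₂) p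
  rw [ifrb_negT, pT_inner (sm_pS Φ.sN) Φ.s₁, pT_inner (sm_pS Φ.sN) Φ.s₂,
    pT_pS_comm (sm_two Φ.sN), Φ.parseval p (pS Φ.N p) (pT Φ.e₁ p),
    Φ.parseval p (pS Φ.N p) (pT Φ.e₂ p), a1, a2, b3, a4] at hk
  rw [ifrb_negS, pS_inner (sm_pT Φ.sN) Φ.s₁, pS_inner (sm_pT Φ.sN) Φ.s₂,
    Φ.parseval p (pT Φ.N p) (pS Φ.e₁ p), Φ.parseval p (pT Φ.N p) (pS Φ.e₂ p), b1, b2, a3, b4] at hl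
  rw [show pT Φ.k p = _ from hk, show pS Φ.l p = _ from hl, k, l, ωT, ωS]
  push_cast
  linear_combination (↑⟪pS Φ.e₁ p, Φ.e₂ p⟫_ℝ * ↑⟪pT Φ.N p, Φ.e₂ p⟫_ℝ -
    ↑⟪pT Φ.e₁ p, Φ.e₂ p⟫_ℝ * ↑⟪pS Φ.N p, Φ.e₂ p⟫_ℝ) * Complex.I_mul_I

/-- The Gauss equation. -/
theorem gauss (p : ℝ × ℝ) : pT Φ.ωS p - pS Φ.ωT p =
    (Φ.l p).re * (Φ.k p).im - (Φ.k p).re * (Φ.l p).im := by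
  obtain ⟨a1, a2, -, -, a5, a6⟩ := Φ.rel_T p
  obtain ⟨b1, b2, -, -, b5, b6⟩ := Φ.rel_S p
  have h1 := pT_inner (sm_pS Φ.s₁) Φ.s₂ p
  have h2 := pS_inner (sm_pT Φ.s₁) Φ.s₂ p
  rw [pT_pS_comm (sm_two Φ.s₁), Φ.parseval p (pS Φ.e₁ p), b1, a2, b5, a6] at h1
  rw [Φ.parseval p (pT Φ.e₁ p), a1, b2, a5, b6] at h2
  rw [show pT Φ.ωS p = _ from h1, show pS Φ.ωT p = _ from h2]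
  ring

end Fr0

end Pool.Agent.Lib.MP_14b623_gt
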