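import Pool.Agent.Lib.MP_14b623_gt.IFrB

/-! The Beltrami equation of the Hopf function of a minimal surface. -/

namespace Pool.Agent.Lib.MP_14b623_gt

open Set Real Filter Topology
open scoped ContDiff InnerProductSpace

theorem ifrc_smul {u : ℝ × ℝ → ℝ} {f : ℝ × ℝ → E3} (hu : ContDiff ℝ ∞ u) (hf : ContDiff ℝ ∞ f)
    (p v : ℝ × ℝ) :
    fderiv ℝ (fun q => u q • f q) p v = u p • fderiv ℝ f p v + fderiv ℝ u p v • f p := by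
  rw [fderiv_fun_smul (sm_diff hu p) (sm_diff hf p)]
  rfl

theorem ifrc_mul {F : Type} [NormedCommRing F] [NormedAlgebra ℝ F] {f g : ℝ × ℝ → F}
    (hf : ContDiff ℝ ∞ f) (hg : ContDiff ℝ ∞ g) (p v : ℝ × ℝ) :
    fderiv ℝ (fun q => f q * g q) p v = f p * fderiv ℝ g p v + g p * fderiv ℝ f p v := by
  rw [fderiv_fun_mul (sm_diff hf p) (sm_diff hg p)]
  rfl

theorem ifrc_re {u : ℝ × ℝ → ℝ} (hu : ContDiff ℝ ∞ u) (p v : ℝ × ℝ) :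
    fderiv ℝ (fun q => (u q : ℂ)) p v = (fderiv ℝ u p v : ℝ) :=
  congrArg (· v) (Complex.ofRealCLM.hasFDerivAt.comp p (sm_diff hu p).hasFDerivAt).fderiv

namespace Fr0

variable {X : ℝ × ℝ → E3} (Φ : Fr0 X)

theorem ifrc_S {p : ℝ × ℝ} (hp : p ∈ Φ.U) (v : ℝ × ℝ) : fderiv ℝ (pS X) p v =
    Φ.ρ p • fderiv ℝ Φ.e₁ p v + fderiv ℝ Φ.ρ p v • Φ.e₁ p := by
  rw [← ifrc_smul Φ.sρ Φ.s₁, EventuallyEq.fderiv_eq (Eventually.mono (Φ.U_open.mem_nhds hp) Φ.hS)]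

theorem ifrc_T {p : ℝ × ℝ} (hp : p ∈ Φ.U) (v : ℝ × ℝ) : fderiv ℝ (pT X) p v =
    ((Φ.ρ p * Φ.m₁ p) • fderiv ℝ Φ.e₁ p v +
      (Φ.ρ p * fderiv ℝ Φ.m₁ p v + Φ.m₁ p * fderiv ℝ Φ.ρ p v) • Φ.e₁ p) +
    ((Φ.ρ p * Φ.m₂ p) • fderiv ℝ Φ.e₂ p v +
      (Φ.ρ p * fderiv ℝ Φ.m₂ p v + Φ.m₂ p * fderiv ℝ Φ.ρ p v) • Φ.e₂ p) := by
  rw [← ifrc_mul Φ.sρ Φ.sm₁, ← ifrc_mul Φ.sρ Φ.sm₂, ← ifrc_smul (Φ.sρ.mul Φ.sm₁) Φ.s₁,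
    ← ifrc_smul (Φ.sρ.mul Φ.sm₂) Φ.s₂,
    EventuallyEq.fderiv_eq (Eventually.mono (Φ.U_open.mem_nhds hp) Φ.hT)]
  exact congrArg (· v) (fderiv_fun_add (sm_diff ((Φ.sρ.mul Φ.sm₁).smul Φ.s₁) p)
    (sm_diff ((Φ.sρ.mul Φ.sm₂).smul Φ.s₂) p))

theorem torsion (hs : ContDiff ℝ ∞ X) {p : ℝ × ℝ} (hp : p ∈ Φ.U) :
    pT Φ.ρ p = pS Φ.ρ p * Φ.m₁ p + Φ.ρ p * pS Φ.m₁ p - Φ.ρ p * Φ.m₂ p * Φ.ωS p ∧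
    Φ.ρ p * Φ.ωT p = Φ.ρ p * Φ.m₁ p * Φ.ωS p + pS Φ.ρ p * Φ.m₂ p + Φ.ρ p * pS Φ.m₂ p ∧
    (Φ.l p).re = Φ.m₁ p * (Φ.k p).re - Φ.m₂ p * (Φ.k p).im := by
  have e : Φ.ρ p • pT Φ.e₁ p + pT Φ.ρ p • Φ.e₁ p = ((Φ.ρ p * Φ.m₁ p) • pS Φ.e₁ p +
      (Φ.ρ p * pS Φ.m₁ p + Φ.m₁ p * pS Φ.ρ p) • Φ.e₁ p) + ((Φ.ρ p * Φ.m₂ p) • pS Φ.e₂ p +
      (Φ.ρ p * pS Φ.m₂ p + Φ.m₂ p * pS Φ.ρ p) • Φ.e₂ p) :=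
    (Φ.ifrc_S hp _).symm.trans ((pT_pS_comm (sm_two hs) p).trans (Φ.ifrc_T hp _))
  obtain ⟨t1, -, -, -, t5, -⟩ := Φ.rel_T p
  obtain ⟨s1, s2, -, s4, s5, s6⟩ := Φ.rel_S p
  have e1 := congrArg (⟪·, Φ.e₁ p⟫_ℝ) e
  have e2 := congrArg (⟪·, Φ.e₂ p⟫_ℝ) e
  have e3 := congrArg (⟪·, Φ.N p⟫_ℝ) e
  simp only [inner_add_left, real_inner_smul_left, t1, t5, s1, s2, s4, s5, s6, Φ.o11, Φ.o22, Φ.o12,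
    real_inner_comm (Φ.e₁ p) (Φ.e₂ p), real_inner_comm (Φ.N p) (Φ.e₁ p),
    real_inner_comm (Φ.N p) (Φ.e₂ p), Φ.oN1, Φ.oN2] at e1 e2 e3
  refine ⟨by linear_combination e1, ?_, mul_left_cancel₀ (Φ.ρ_pos p).ne' (by linear_combination e3)⟩
  rw [ωT, ωS]
  linear_combination e2

theorem l_eq0 (hs : ContDiff ℝ ∞ X) {p : ℝ × ℝ} (hp : p ∈ Φ.U)
    (h : ∀ N : E3, ⟪N, dT X p⟫_ℝ = 0 → ⟪N, dS X p⟫_ℝ = 0 →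
      gE X p * ⟪N, dS (dS X) p⟫_ℝ - 2 * gF X p * ⟪N, dS (dT X) p⟫_ℝ
        + gG X p * ⟪N, dT (dT X) p⟫_ℝ = 0) : Φ.l p = Φ.μ p * Φ.k p := by
  have t3 := (Φ.torsion hs hp).2.2
  obtain ⟨-, -, -, -, t5, t6⟩ := Φ.rel_T p
  obtain ⟨-, -, -, -, s5, s6⟩ := Φ.rel_S p
  have e := h (Φ.N p)
    (by simp [dT_eq, Φ.hT p hp, inner_add_right, real_inner_smul_right, Φ.oN1, Φ.oN2])
    (by simp [dS_eq, Φ.hS p hp, real_inner_smul_right, Φ.oN1])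
  have e1 : dS (dS X) p = Φ.ρ p • pS Φ.e₁ p + pS Φ.ρ p • Φ.e₁ p := Φ.ifrc_S hp _
  have e2 : dS (dT X) p = Φ.ρ p • pT Φ.e₁ p + pT Φ.ρ p • Φ.e₁ p :=
    (pT_pS_comm (sm_two hs) p).symm.trans (Φ.ifrc_S hp _)
  have e3 : dT (dT X) p = ((Φ.ρ p * Φ.m₁ p) • pT Φ.e₁ p + _ • Φ.e₁ p) +
    ((Φ.ρ p * Φ.m₂ p) • pT Φ.e₂ p + _ • Φ.e₂ p) := Φ.ifrc_T hp _
  rw [real_inner_comm] at t5 t6 s5
  rw [e1, e2, e3, Φ.gE_eq hp, Φ.gF_eq hp, Φ.gG_eq hp] at e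
  simp only [inner_add_right, real_inner_smul_right, t5, t6, s5, Φ.oN1, Φ.oN2] at e
  refine Complex.ext (by rw [Complex.mul_re, μ_re, μ_im, t3]) ?_
  rw [Complex.mul_im, μ_re, μ_im]
  refine mul_left_cancel₀ (mul_pos (pow_pos (Φ.ρ_pos p) 3) (Φ.m₂_pos p)).ne' ?_
  rw [t3] at e
  linear_combination -e

theorem beltrami0 (hs : ContDiff ℝ ∞ X) {p : ℝ × ℝ} (hp : p ∈ Φ.U)
    (h : ∀ᶠ s in 𝓝 p.2, Φ.l (p.1, s) = Φ.μ (p.1, s) * Φ.k (p.1, s)) :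
    pT Φ.q p = Φ.μ p * pS Φ.q p + 2 * pS Φ.μ p * Φ.q p := by
  obtain ⟨t1, t2, -⟩ := Φ.torsion hs hp
  have c : ContDiff ℝ ∞ fun q => (Φ.ρ q : ℂ) := Complex.ofRealCLM.contDiff.comp Φ.sρ
  have e1 : pS Φ.l p = Φ.μ p * pS Φ.k p + Φ.k p * pS Φ.μ p :=
    (pS_of_hasDerivAt (sm_diff Φ.sl _) ((hasDerivAt_pS
      (sm_diff (Φ.sμ.mul Φ.sk) _)).congr_of_eventuallyEq h)).trans (ifrc_mul Φ.sμ Φ.sk _ _)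
  have e2 : pT Φ.q p = Φ.ρ p * pT Φ.k p + Φ.k p * (pT Φ.ρ p : ℝ) :=
    (ifrc_mul c Φ.sk _ _).trans (by rw [ifrc_re Φ.sρ]; rfl)
  have e3 : pS Φ.q p = Φ.ρ p * pS Φ.k p + Φ.k p * (pS Φ.ρ p : ℝ) :=
    (ifrc_mul c Φ.sk _ _).trans (by rw [ifrc_re Φ.sρ]; rfl)
  have e4 : pS Φ.μ p = pS Φ.m₁ p + pS Φ.m₂ p * Complex.I := pS_cx Φ.sm₁ Φ.sm₂ p
  have e5 := Φ.codazzi p
  have t1' := congrArg ((↑) : ℝ → ℂ) t1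
  have t2' := congrArg ((↑) : ℝ → ℂ) t2
  push_cast at t1' t2'
  rw [e1, show Φ.l p = Φ.μ p * Φ.k p from h.self_of_nhds] at e5
  rw [e2, e3, q]
  rw [e4, μ] at e5 ⊢
  linear_combination Φ.ρ p * e5 + Φ.k p * t1' + Complex.I * Φ.k p * t2' -
    Φ.ρ p * Φ.ωS p * Φ.m₂ p * Φ.k p * Complex.I_mul_I

end Fr0

namespace Frame

variable {A B : ℝ} {X : ℝ × ℝ → E3} (Φ : Frame A B X)

theorem beltrami (h : IsFBMAnnulus A B X) (hs : ContDiff ℝ ∞ X) {p : ℝ × ℝ}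
    (hp : p.1 ∈ Icc A B) : pT Φ.q p = Φ.μ p * pS Φ.q p + 2 * pS Φ.μ p * Φ.q p :=
  Φ.beltrami0 hs (Φ.mem_Ioo hp) (Eventually.of_forall fun s =>
    Φ.l_eq0 hs (Φ.mem_Ioo hp) (h.minimal (p.1, s) hp))

end Frame

end Pool.Agent.Lib.MP_14b623_gt
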