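import Pool.Agent.Lib.MP_14b623_gt.IFrC

/-! The frame along the boundary; the annulus is not flat. -/

namespace Pool.Agent.Lib.MP_14b623_gt

open Set Real Filter Topology
open scoped ContDiff InnerProductSpace

namespace Frame

variable {A B : ℝ} {X : ℝ × ℝ → E3} (Φ : Frame A B X)

theorem ifrd_key (h : IsFBMAnnulus A B X) (hs : ContDiff ℝ ∞ X) {t θ : ℝ} (ht : t = A ∨ t = B) :
    ∃ c : ℝ, c ≠ 0 ∧ HasDerivAt (fun s => ⟪X (s, θ), X (s, θ)⟫_ℝ) (2 * c) t ∧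
      (0 < c → Φ.e₂ (t, θ) = X (t, θ)) ∧ (c < 0 → Φ.e₂ (t, θ) = -X (t, θ)) := by
  have hp : ((t, θ) : ℝ × ℝ).1 ∈ Icc A B := by
    rcases ht with rfl | rfl
    exacts [left_mem_Icc.2 h.lt.le, right_mem_Icc.2 h.lt.le]
  obtain ⟨c, hc⟩ := h.orth (t, θ) ht
  have h0 := Φ.ρ_pos (t, θ)
  have h1 := mul_pos h0 (Φ.m₂_pos (t, θ))
  have hT := Φ.hT _ (Φ.mem_Ioo hp)
  rw [dT_eq, dS_eq, hT, Φ.hS _ (Φ.mem_Ioo hp), Φ.gF_eq hp, Φ.gG_eq hp,
    mul_div_cancel_left₀ _ (pow_ne_zero 2 h0.ne'), smul_smul, mul_comm (Φ.m₁ _),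
    add_sub_cancel_left] at hc
  obtain ⟨a, ha⟩ : ∃ a, a = Φ.ρ (t, θ) * Φ.m₂ (t, θ) := ⟨_, rfl⟩
  rw [← ha] at hc h1 hT
  have h2 : ⟪X (t, θ), X (t, θ)⟫_ℝ = 1 := by
    rw [real_inner_self_eq_norm_sq, h.bdry (t, θ) ht, one_pow]
  have h3 : a * a = c * c := by
    have h4 := congrArg (fun v => ⟪v, v⟫_ℝ) hc
    simpa only [real_inner_smul_left, real_inner_smul_right, Φ.o22, h2, mul_one] using h4
  have h4 : c ≠ 0 := fun h5 => h1.ne' (by simpa [h5] using h3)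
  have h5 : ⟪X (t, θ), Φ.e₁ (t, θ)⟫_ℝ = 0 := by
    have h6 := congrArg (fun v => ⟪v, Φ.e₁ (t, θ)⟫_ℝ) hc
    simp only [real_inner_smul_left, real_inner_comm (Φ.e₁ _) (Φ.e₂ _), Φ.o12, mul_zero] at h6
    exact (mul_eq_zero.1 h6.symm).resolve_left h4
  have h6 : ⟪X (t, θ), pT X (t, θ)⟫_ℝ = c := by
    rw [hT, hc, inner_add_right, real_inner_smul_right, real_inner_smul_right, h5, h2]
    ring
  refine ⟨c, h4, ?_, fun h7 => ?_, fun h7 => ?_⟩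
  · have h7 := hasDerivAt_pT (sm_diff hs (t, θ))
    refine (h7.inner ℝ h7).congr_deriv ?_
    rw [real_inner_comm (X _) (pT X _), h6]
    ring
  · rw [← (mul_self_inj_of_nonneg h1.le h7.le).1 h3] at hc
    exact smul_right_injective _ h1.ne' hc
  · have h8 : a = -c := (mul_self_inj_of_nonneg h1.le (by linarith)).1 (by rw [h3]; ring)
    rw [← neg_neg c, ← h8, neg_smul, ← smul_neg] at hc
    exact smul_right_injective _ h1.ne' hc

theorem bdry_eq (h : IsFBMAnnulus A B X) (hs : ContDiff ℝ ∞ X) (θ : ℝ) :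
    Φ.e₂ (A, θ) = -X (A, θ) ∧ Φ.e₂ (B, θ) = X (B, θ) := by
  have hle : ∀ s ∈ Icc A B, ⟪X (s, θ), X (s, θ)⟫_ℝ ≤ 1 := fun s hs => by
    rw [real_inner_self_eq_norm_sq]
    exact pow_le_one₀ (norm_nonneg _) (h.inBall (s, θ) hs)
  have he : ∀ t, t = A ∨ t = B → ⟪X (t, θ), X (t, θ)⟫_ℝ = 1 := fun t ht => by
    rw [real_inner_self_eq_norm_sq, h.bdry (t, θ) ht, one_pow]
  have hmax : ∀ t, t = A ∨ t = B →
      IsLocalMaxOn (fun s => ⟪X (s, θ), X (s, θ)⟫_ℝ) (Icc A B) t := fun t ht =>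
    IsMaxOn.localize fun s hs => (hle s hs).trans_eq (he t ht).symm
  have hAB := h.lt
  constructor
  · obtain ⟨c, h0, h1, -, h2⟩ := Φ.ifrd_key h hs (θ := θ) (Or.inl rfl)
    have h3 := (hmax A (Or.inl rfl)).hasFDerivWithinAt_nonpos h1.hasFDerivAt.hasFDerivWithinAt
      (sub_mem_posTangentConeAt_of_segment_subset (y := B) (segment_eq_Icc hAB.le).le)
    simp only [ContinuousLinearMap.toSpanSingleton_apply, smul_eq_mul] at h3
    exact h2 (lt_of_le_of_ne (by nlinarith) h0)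
  · obtain ⟨c, h0, h1, h2, -⟩ := Φ.ifrd_key h hs (θ := θ) (Or.inr rfl)
    have h3 := (hmax B (Or.inr rfl)).hasFDerivWithinAt_nonpos h1.hasFDerivAt.hasFDerivWithinAt
      (sub_mem_posTangentConeAt_of_segment_subset (y := A)
        ((segment_symm ℝ B A).trans (segment_eq_Icc hAB.le)).le)
    simp only [ContinuousLinearMap.toSpanSingleton_apply, smul_eq_mul] at h3
    exact h2 (lt_of_le_of_ne (by nlinarith) h0.symm)

theorem bdry_rel (h : IsFBMAnnulus A B X) (hs : ContDiff ℝ ∞ X) (θ : ℝ) :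
    (Φ.q (A, θ)).im = 0 ∧ (Φ.q (B, θ)).im = 0 ∧ Φ.ωS (A, θ) = Φ.ρ (A, θ) ∧
      Φ.ωS (B, θ) = -Φ.ρ (B, θ) := by
  have hA : pS Φ.e₂ (A, θ) = -(Φ.ρ (A, θ) • Φ.e₁ (A, θ)) := by
    rw [← Φ.hS _ (Φ.mem_Ioo (left_mem_Icc.2 h.lt.le))]
    refine pS_of_hasDerivAt (sm_diff Φ.s₂ _) ?_
    simpa only [fun s => (Φ.bdry_eq h hs s).1] using (hasDerivAt_pS (sm_diff hs (A, θ))).fun_neg
  have hB : pS Φ.e₂ (B, θ) = Φ.ρ (B, θ) • Φ.e₁ (B, θ) := by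
    rw [← Φ.hS _ (Φ.mem_Ioo (right_mem_Icc.2 h.lt.le))]
    exact pS_congr_line (sm_diff Φ.s₂ _) (sm_diff hs _) fun s => (Φ.bdry_eq h hs s).2
  obtain ⟨-, -, -, a1, -, a2⟩ := Φ.rel_S (A, θ)
  obtain ⟨-, -, -, b1, -, b2⟩ := Φ.rel_S (B, θ)
  rw [hA, inner_neg_left, real_inner_smul_left, Φ.o11, mul_one] at a1
  rw [hA, inner_neg_left, real_inner_smul_left, real_inner_comm, Φ.oN1, mul_zero] at a2
  rw [hB, real_inner_smul_left, Φ.o11, mul_one] at b1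
  rw [hB, real_inner_smul_left, real_inner_comm, Φ.oN1, mul_zero] at b2
  refine ⟨?_, ?_, by linarith, by linarith⟩
  · rw [Fr0.q, Complex.im_ofReal_mul, neg_inj.1 a2.symm, mul_zero]
  · rw [Fr0.q, Complex.im_ofReal_mul, neg_eq_zero.1 b2.symm, mul_zero]

theorem not_flat (h : IsFBMAnnulus A B X) (hs : ContDiff ℝ ∞ X) :
    ∃ p : ℝ × ℝ, p.1 ∈ Icc A B ∧ Φ.q p ≠ 0 := by
  by_contra h0
  push Not at h0
  have h1 := stokes (sm_one Φ.sωS) (sm_one Φ.sωT) Φ.pωT A B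
  have h2 : ∫ t in A..B, ∫ θ in (0 : ℝ)..(2 * π), (pT Φ.ωS (t, θ) - pS Φ.ωT (t, θ)) = 0 := by
    rw [intervalIntegral.integral_congr (g := fun _ => 0) fun t ht => ?_,
      intervalIntegral.integral_zero]
    rw [uIcc_of_le h.lt.le] at ht
    have h3 : ∀ θ, Φ.k (t, θ) = 0 := fun θ => (mul_eq_zero.1 (h0 (t, θ) ht)).resolve_left
      (Complex.ofReal_ne_zero.2 (Φ.ρ_pos _).ne')
    simp [Φ.gauss, h3]
  have h3 : ∀ t, 0 < ∫ θ in (0 : ℝ)..(2 * π), Φ.ρ (t, θ) := fun t =>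
    intervalIntegral.intervalIntegral_pos_of_pos
      ((Φ.sρ.continuous.comp (Continuous.prodMk_right t)).intervalIntegrable _ _)
      (fun θ => Φ.ρ_pos _) two_pi_pos
  simp only [h2, fun θ => (Φ.bdry_rel h hs θ).2.2.1, fun θ => (Φ.bdry_rel h hs θ).2.2.2,
    intervalIntegral.integral_neg] at h1
  linarith [h3 A, h3 B]

end Frame

end Pool.Agent.Lib.MP_14b623_gt
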