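import Pool.Agent.Lib.MP_14b623_gt.IVb

/-! The inverse of the coordinate. -/

namespace Pool.Agent.Lib.MP_14b623_gt

open Set Real Filter Topology
open scoped ContDiff InnerProductSpace

theorem Coord.exists_inv {A B T ε η : ℝ} {μ W : ℝ × ℝ → ℂ} (h : Coord A B T μ W)
    (hw : Wide A B T ε η W) : ∃ Ψ₀ : ℂ → ℝ × ℝ, ∀ z : ℂ, z.im ∈ Ioo (-η) (T + η) →
      ContDiffAt ℝ ∞ Ψ₀ z ∧ (Ψ₀ z).1 ∈ Icc (A - ε) (B + ε) ∧ W (Ψ₀ z) = z := by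
  have hb : ∀ z : ℂ, ∃ p : ℝ × ℝ, z.im ∈ Ioo (-η) (T + η) →
      p.1 ∈ Icc (A - ε) (B + ε) ∧ W p = z := fun z => by
    by_cases hz : z.im ∈ Ioo (-η) (T + η)
    · obtain ⟨p, hp, -⟩ := h.bij hw hz
      exact ⟨p, fun _ => hp⟩
    · exact ⟨0, fun h => (hz h).elim⟩
  choose Ψ₀ hΨ using hb
  refine ⟨Ψ₀, fun z hz => ⟨?_, hΨ z hz⟩⟩
  obtain ⟨h1, h2⟩ := hΨ z hz
  have h3 : (Ψ₀ z).1 ∈ Ioo (A - ε) (B + ε) := by
    refine ⟨h1.1.lt_of_ne fun e => ?_, h1.2.lt_of_ne fun e => ?_⟩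
    · have := hw.low (Ψ₀ z).2
      rw [e, Prod.mk.eta, h2] at this
      exact this.not_gt hz.1
    · have := hw.high (Ψ₀ z).2
      rw [← e, Prod.mk.eta, h2] at this
      exact this.not_gt hz.2
  obtain ⟨L, hL⟩ := equiv_of_cjac (hw.jac _ h1).ne'
  have hW : ContDiffAt ℝ ∞ W (Ψ₀ z) := h.smooth.contDiffAt
  have hd : HasFDerivAt W (L : ℝ × ℝ →L[ℝ] ℂ) (Ψ₀ z) := hL ▸ (sm_diff h.smooth _).hasFDerivAt
  have hn : (∞ : WithTop ℕ∞) ≠ 0 := by simp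
  have h4 := hW.to_localInverse hd hn
  have h5 : ∀ᶠ y in 𝓝 (W (Ψ₀ z)), W (hW.localInverse hd hn y) = y :=
    (hW.hasStrictFDerivAt' hd hn).eventually_right_inverse
  have h6 := hW.localInverse_apply_image hd hn
  rw [h2] at h4 h5 h6
  refine h4.congr_of_eventuallyEq ?_
  have h7 : ∀ᶠ y in 𝓝 z, (hW.localInverse hd hn y).1 ∈ Ioo (A - ε) (B + ε) :=
    h4.continuousAt.fst.eventually_mem (isOpen_Ioo.mem_nhds (by rw [h6]; exact h3))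
  have h8 : ∀ᶠ y : ℂ in 𝓝 z, y.im ∈ Ioo (-η) (T + η) :=
    Complex.continuous_im.continuousAt.eventually_mem (isOpen_Ioo.mem_nhds hz)
  filter_upwards [h5, h7, h8] with y a b c
  exact (h.bij hw c).unique (hΨ y c) ⟨Ioo_subset_Icc_self b, a⟩

theorem Coord.exists_rep {A B T : ℝ} {μ W : ℝ × ℝ → ℂ} (h : Coord A B T μ W) :
    ∃ Ψ : ℝ × ℝ → ℝ × ℝ, Rep T A B Ψ ∧ ∀ p : ℝ × ℝ, p.1 ∈ Icc 0 T →
      zf (μ (Ψ p)) (pS Ψ p) ≠ 0 ∧ zf (μ (Ψ p)) (pT Ψ p) = Complex.I * zf (μ (Ψ p)) (pS Ψ p) := by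
  obtain ⟨ε, η, hw⟩ := h.wide
  obtain ⟨Ψ₀, hΨ⟩ := h.exists_inv hw
  obtain ⟨χ, c1, c2, c3⟩ := exists_squeeze 0 T hw.T_pos.le hw.η_pos
  have hη := hw.η_pos
  obtain ⟨Z, hZ⟩ : ∃ Z : ℝ × ℝ → ℂ, Z = fun p => (p.2 : ℂ) + (χ p.1 : ℂ) * Complex.I := ⟨_, rfl⟩
  have hi : ∀ p, (Z p).im = χ p.1 := fun p => by simp [hZ]
  have hm : ∀ p, (Z p).im ∈ Ioo (-η) (T + η) := fun p => by
    rw [hi, ← zero_sub]
    exact c2 _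
  have sZ : ContDiff ℝ ∞ Z := hZ ▸ Fr0.sm_cx contDiff_snd (c1.comp contDiff_fst)
  have sΨ : ContDiff ℝ ∞ (Ψ₀ ∘ Z) :=
    contDiff_iff_contDiffAt.2 fun p => (hΨ _ (hm p)).1.comp p sZ.contDiffAt
  have hid : ∀ p : ℝ × ℝ, p.1 ∈ Icc 0 T → (W (Ψ₀ (Z p))).im = p.1 := fun p hp => by
    rw [(hΨ _ (hm p)).2.2, hi, c3 _ ⟨by linarith [hp.1], by linarith [hp.2]⟩]
  have maps : ∀ p : ℝ × ℝ, p.1 ∈ Icc 0 T → (Ψ₀ (Z p)).1 ∈ Icc A B := fun p hp =>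
    ⟨not_lt.1 fun hl => (hw.lt_A _ ⟨(hΨ _ (hm p)).2.1.1, hl⟩).not_ge (hp.1.trans_eq (hid p hp).symm),
      not_lt.1 fun hl => (hw.gt_B _ ⟨hl, (hΨ _ (hm p)).2.1.2⟩).not_ge ((hid p hp).trans_le hp.2)⟩
  refine ⟨Ψ₀ ∘ Z, ⟨hw.T_pos, sΨ, fun s φ => ?_, maps, fun φ => ?_, fun φ => ?_⟩, fun p hp => ?_⟩
  · refine (h.bij hw (hm (s, φ + 2 * π))).unique (hΨ _ (hm _)).2
      ⟨by simpa using (hΨ _ (hm (s, φ))).2.1, ?_⟩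
    have h1 := h.per (Ψ₀ (Z (s, φ))).1 (Ψ₀ (Z (s, φ))).2
    rw [Prod.mk.eta, (hΨ _ (hm _)).2.2] at h1
    refine Eq.trans (congrArg W (Prod.ext (by exact add_zero _) (by rfl))) (h1.trans ?_)
    simp only [hZ]
    push_cast
    ring
  · have h0 : ((0, φ) : ℝ × ℝ).1 ∈ Icc 0 T := ⟨le_rfl, hw.T_pos.le⟩
    exact le_antisymm (not_lt.1 fun hl => (hw.gt_A _ ⟨hl, (hΨ _ (hm _)).2.1.2⟩).ne' (hid _ h0))
      (maps _ h0).1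
  · have h0 : ((T, φ) : ℝ × ℝ).1 ∈ Icc 0 T := ⟨hw.T_pos.le, le_rfl⟩
    exact le_antisymm (maps _ h0).2
      (not_lt.1 fun hl => (hw.lt_B _ ⟨(hΨ _ (hm _)).2.1.1, hl⟩).ne (hid _ h0))
  · have h1 : W ∘ (Ψ₀ ∘ Z) =ᶠ[𝓝 p] fun q => (q.2 : ℂ) + (q.1 : ℂ) * Complex.I := by
      filter_upwards [strip_mem_nhds (a := 0 - η / 2) (b := T + η / 2) (p := p)
        ⟨by linarith [hp.1], by linarith [hp.2]⟩] with q hq
      refine (hΨ _ (hm q)).2.2.trans ?_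
      simp only [hZ, c3 _ (Ioo_subset_Icc_self hq)]
    have h2 := ((Complex.ofRealCLM.hasFDerivAt.comp p hasFDerivAt_snd).add
      ((Complex.ofRealCLM.hasFDerivAt.comp p hasFDerivAt_fst).mul_const Complex.I)).congr_of_eventuallyEq
        h1
    have h3 := ((sm_diff h.smooth _).hasFDerivAt.comp p (sm_diff sΨ p).hasFDerivAt).unique h2
    have key : ∀ v : ℝ × ℝ, pS W ((Ψ₀ ∘ Z) p) * zf (μ ((Ψ₀ ∘ Z) p)) (fderiv ℝ (Ψ₀ ∘ Z) p v) =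
        v.2 + v.1 * Complex.I := fun v => by
      have h4 := DFunLike.congr_fun h3 v
      rw [ContinuousLinearMap.comp_apply, fderiv_eq_pT_pS, h.bel ((Ψ₀ ∘ Z) p) (maps p hp)] at h4
      refine Eq.trans ?_ (h4.trans (by simp [mul_comm]))
      simp only [zf, Complex.real_smul, Function.comp_apply]
      ring
    have k1 : pS W ((Ψ₀ ∘ Z) p) * zf (μ ((Ψ₀ ∘ Z) p)) (pT (Ψ₀ ∘ Z) p) = Complex.I :=
      (key (1, 0)).trans (by simp)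
    have k2 : pS W ((Ψ₀ ∘ Z) p) * zf (μ ((Ψ₀ ∘ Z) p)) (pS (Ψ₀ ∘ Z) p) = 1 :=
      (key (0, 1)).trans (by simp)
    exact ⟨right_ne_zero_of_mul (k2.trans_ne one_ne_zero),
      mul_left_cancel₀ (h.ne _ (maps p hp)) (k1.trans (by rw [mul_left_comm]; exact
        ((congrArg _ k2).trans (mul_one _)).symm))⟩

end Pool.Agent.Lib.MP_14b623_gt
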