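import Pool.Agent.Lib.MP_14b623_gt.IWa

/-! The conformal coordinate. -/

namespace Pool.Agent.Lib.MP_14b623_gt

open Set Real Filter Topology
open scoped ContDiff InnerProductSpace

theorem iwb_sign {g : ℝ → ℝ} (hg : Continuous g) (h0 : ∀ θ, g θ ≠ 0) {a : ℝ} (ha : 0 < g a)
    (θ : ℝ) : 0 < g θ := by
  by_contra h
  obtain ⟨x, hx⟩ := intermediate_value_univ θ a hg ⟨not_lt.1 h, ha.le⟩
  exact h0 x hx

theorem iwb_re {f : ℝ → ℂ} (hf : Continuous f) (a b : ℝ) :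
    (∫ θ in a..b, f θ).re = ∫ θ in a..b, (f θ).re :=
  (Complex.reCLM.intervalIntegral_comp_comm (hf.intervalIntegrable a b)).symm

theorem iwb_im {f : ℝ → ℂ} (hf : Continuous f) (h : ∀ θ, (f θ).im = 0) (a b : ℝ) :
    (∫ θ in a..b, f θ).im = 0 := by
  refine (Complex.imCLM.intervalIntegral_comp_comm (hf.intervalIntegrable a b)).symm.trans ?_
  simp [h]

theorem pos_of_sq_real {f : ℝ → ℂ} (hf : Continuous f) (h0 : ∀ θ, f θ ≠ 0)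
    (h1 : ∀ θ, (f θ ^ 2).im = 0) (h2 : 0 < (∫ θ in (0 : ℝ)..(2 * π), f θ).re) (θ : ℝ) :
    (f θ).im = 0 ∧ 0 < (f θ).re := by
  have e1 : ∀ θ, (f θ).re * (f θ).im = 0 := fun θ => by
    have h := h1 θ
    rw [sq, Complex.mul_im] at h
    linarith
  have e2 : ∀ θ, (f θ ^ 2).re = (f θ).re ^ 2 - (f θ).im ^ 2 := fun θ => by
    rw [sq, Complex.mul_re]
    ring
  obtain ⟨a, ha⟩ : ∃ a, 0 < (f a).re := by
    by_contra h
    rw [iwb_re hf, ← neg_neg (∫ θ in (0 : ℝ)..(2 * π), (f θ).re), ← intervalIntegral.integral_neg,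
      neg_pos] at h2
    exact h2.not_ge (intervalIntegral.integral_nonneg two_pi_pos.le fun u _ =>
      neg_nonneg.2 (not_lt.1 fun e => h ⟨u, e⟩))
  have h3 : ∀ θ, 0 < (f θ ^ 2).re := iwb_sign (g := fun θ => (f θ ^ 2).re) (a := a) (by fun_prop)
    (fun θ e => pow_ne_zero 2 (h0 θ) (Complex.ext e (h1 θ))) (by
      rw [e2, (mul_eq_zero.1 (e1 a)).resolve_left ha.ne']
      simpa using pow_pos ha 2)
  have h4 : ∀ θ, (f θ).re ≠ 0 := fun θ e => by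
    have h := h3 θ
    rw [e2, e] at h
    nlinarith [sq_nonneg (f θ).im]
  exact ⟨(mul_eq_zero.1 (e1 θ)).resolve_left (h4 θ),
    iwb_sign (g := fun θ => (f θ).re) (by fun_prop) h4 ha θ⟩

theorem iwb_pot {A B : ℝ} {r μ : ℝ × ℝ → ℂ} (hr : ContDiff ℝ ∞ r) (hμ : ContDiff ℝ ∞ μ)
    (pr : Per2 r) (pμ : Per2 μ)
    (hb : ∀ p : ℝ × ℝ, p.1 ∈ Icc A B → pT r p = pS (fun p => μ p * r p) p) :
    ∃ W : ℝ × ℝ → ℂ, ContDiff ℝ ∞ W ∧
      (∀ t θ, W (t, θ + 2 * π) = W (t, θ) + ∫ σ in (0 : ℝ)..(2 * π), r (A, σ)) ∧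
      (∀ p, pT W p = μ p * r p) ∧ (∀ p : ℝ × ℝ, p.1 ∈ Icc A B → pS W p = r p) ∧
      W (A, 0) = 0 := by
  have s1 : ContDiff ℝ ∞ fun p : ℝ × ℝ => r (A, p.1) := hr.comp (by fun_prop)
  have s2 : ContDiff ℝ ∞ fun p => μ p * r p := hμ.mul hr
  have s3 : ContDiff ℝ ∞ fun p : ℝ × ℝ =>
      prim 0 (fun p : ℝ × ℝ => r (A, p.1)) (p.2, 0) + prim A (fun p => μ p * r p) p :=
    ((sm_prim s1 0).comp (by fun_prop)).add (sm_prim s2 A)
  have c1 : Continuous fun σ => r (A, σ) := hr.continuous.comp (by fun_prop)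
  have p2 : Per2 fun p => μ p * r p := fun t θ => congrArg₂ (· * ·) (pμ t θ) (pr t θ)
  refine ⟨_, s3, fun t θ => ?_, fun ⟨t, θ⟩ => ?_, fun ⟨t, θ⟩ ht => ?_, ?_⟩
  · have h := (pr.periodic A).intervalIntegral_add_eq_add 0 θ fun a b => c1.intervalIntegrable a b
    rw [zero_add] at h
    rw [p2.prim A, add_right_comm]
    exact congrArg (· + _) h
  · refine (pT_of_hasDerivAt (sm_diff s3 _)
      ((hasDerivAt_pT (sm_diff (sm_prim s2 A) (t, θ))).const_add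
        (prim 0 (fun p : ℝ × ℝ => r (A, p.1)) (θ, 0)))).trans ?_
    rw [pT_prim s2]
  · refine (pS_of_hasDerivAt (sm_diff s3 _) ((hasDerivAt_pT (sm_diff (sm_prim s1 0) _)).add
      (hasDerivAt_pS (sm_diff (sm_prim s2 A) _)))).trans ?_
    have c2 : Continuous fun τ => pT r (τ, θ) := (sm_pT hr).continuous.comp (by fun_prop)
    rw [pT_prim s1, pS_prim s2, prim, ← intervalIntegral.integral_congr (f := fun τ => pT r (τ, θ))
      fun τ h => hb (τ, θ) (uIcc_subset_Icc ⟨le_rfl, ht.1.trans ht.2⟩ ht h),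
      intervalIntegral.integral_eq_sub_of_hasDerivAt
        (fun τ _ => hasDerivAt_pT (sm_diff hr (τ, θ))) (c2.intervalIntegrable _ _), add_sub_cancel]
  · rw [prim_left, prim_left, add_zero]

theorem coord_of_root {A B : ℝ} (hAB : A < B) {r μ : ℝ × ℝ → ℂ} (hr : ContDiff ℝ ∞ r)
    (hμ : ContDiff ℝ ∞ μ) (pr : Per2 r) (pμ : Per2 μ)
    (him : ∀ p : ℝ × ℝ, p.1 ∈ Icc A B → 0 < (μ p).im)
    (h0 : ∀ p : ℝ × ℝ, p.1 ∈ Icc A B → r p ≠ 0)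
    (hb : ∀ p : ℝ × ℝ, p.1 ∈ Icc A B → pT r p = pS (fun p => μ p * r p) p)
    (hA : ∀ θ, (r (A, θ)).im = 0 ∧ 0 < (r (A, θ)).re) (hB : ∀ θ, (r (B, θ) ^ 2).im = 0) :
    ∃ (T : ℝ) (W : ℝ × ℝ → ℂ), Coord A B T μ W := by
  obtain ⟨W, s1, w1, w2, w3, w4⟩ := iwb_pot hr hμ pr pμ hb
  have c1 : ∀ t, Continuous fun σ => r (t, σ) := fun t => hr.continuous.comp (by fun_prop)
  have mA : A ∈ Icc A B := ⟨le_rfl, hAB.le⟩
  have mB : B ∈ Icc A B := ⟨hAB.le, le_rfl⟩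
  have f1 : ∀ t ∈ Icc A B, ∀ θ, ∫ σ in (0 : ℝ)..θ, r (t, σ) = W (t, θ) - W (t, 0) :=
    fun t ht θ => intervalIntegral.integral_eq_sub_of_hasDerivAt
      (fun σ _ => w3 (t, σ) ht ▸ hasDerivAt_pS (sm_diff s1 (t, σ))) ((c1 t).intervalIntegrable _ _)
  obtain ⟨P, hP⟩ : ∃ P, P = ∫ σ in (0 : ℝ)..(2 * π), r (A, σ) := ⟨_, rfl⟩
  have P1 : P.im = 0 := hP ▸ iwb_im (c1 A) (fun θ => (hA θ).1) _ _
  have P2 : 0 < P.re := by
    rw [hP, iwb_re (c1 A)]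
    exact intervalIntegral.intervalIntegral_pos_of_pos
      ((Complex.continuous_re.comp (c1 A)).intervalIntegrable _ _) (fun θ => (hA θ).2) two_pi_pos
  rw [← hP] at w1
  have hB' := pos_of_sq_real (c1 B) (fun θ => h0 (B, θ) mB) hB (by
    rwa [f1 B mB, ← zero_add (2 * π), w1, add_sub_cancel_left])
  have f2 : ∀ t ∈ Icc A B, (∀ θ, (r (t, θ)).im = 0) → ∀ θ, (W (t, θ)).im = (W (t, 0)).im :=
    fun t ht h θ => by rw [← sub_eq_zero, ← Complex.sub_im, ← f1 t ht, iwb_im (c1 t) h]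
  obtain ⟨c, hc⟩ : ∃ c, c = 2 * π / P.re := ⟨_, rfl⟩
  have c0 : 0 < c := hc ▸ div_pos two_pi_pos P2
  have s2 : ContDiff ℝ ∞ fun p => (c : ℂ) * W p := contDiff_const.mul s1
  have d1 : ∀ p, pT (fun p => (c : ℂ) * W p) p = c * pT W p := fun ⟨t, θ⟩ =>
    pT_of_hasDerivAt (sm_diff s2 _) ((hasDerivAt_pT (sm_diff s1 _)).const_mul _)
  have d2 : ∀ p, pS (fun p => (c : ℂ) * W p) p = c * pS W p := fun ⟨t, θ⟩ =>
    pS_of_hasDerivAt (sm_diff s2 _) ((hasDerivAt_pS (sm_diff s1 _)).const_mul _)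
  refine ⟨c * (W (B, 0)).im, _, hAB, s2, fun t θ => ?_, him, fun p hp => ?_, fun p hp => ?_,
    fun θ => ?_, fun θ => ?_, fun ⟨t, θ⟩ hp => ?_⟩
  · have e : (c : ℂ) * P = ((2 * π : ℝ) : ℂ) := Complex.ext
      (by rw [Complex.re_ofReal_mul, hc, div_mul_cancel₀ _ P2.ne', Complex.ofReal_re])
      (by rw [Complex.im_ofReal_mul, P1, mul_zero, Complex.ofReal_im])
    rw [w1, mul_add, e, Complex.ofReal_mul, Complex.ofReal_ofNat]
  · rw [d1, d2, w2, w3 p hp, mul_left_comm]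
  · rw [d2, w3 p hp]
    exact mul_ne_zero (Complex.ofReal_ne_zero.2 c0.ne') (h0 p hp)
  · rw [Complex.im_ofReal_mul, f2 A mA fun θ => (hA θ).1, w4, Complex.zero_im, mul_zero]
  · rw [Complex.im_ofReal_mul, f2 B mB fun θ => (hB' θ).1]
  · rcases hp with rfl | rfl
    · rw [d2, w3 _ mA, Complex.re_ofReal_mul]
      exact mul_pos c0 (hA θ).2
    · rw [d2, w3 _ mB, Complex.re_ofReal_mul]
      exact mul_pos c0 (hB' θ).2

theorem iwb_coord {A B : ℝ} (hAB : A < B) {q μ : ℝ × ℝ → ℂ} (hq : ContDiff ℝ ∞ q)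
    (hμ : ContDiff ℝ ∞ μ) (pq : Per2 q) (pμ : Per2 μ)
    (him : ∀ p : ℝ × ℝ, p.1 ∈ Icc A B → 0 < (μ p).im)
    (h0 : ∀ p : ℝ × ℝ, p.1 ∈ Icc A B → q p ≠ 0)
    (hb : ∀ p : ℝ × ℝ, p.1 ∈ Icc A B → pT q p = μ p * pS q p + 2 * pS μ p * q p)
    (hA : ∀ θ, (q (A, θ)).im = 0) (hB : ∀ θ, (q (B, θ)).im = 0) (h : 0 < (q (A, 0)).re) :
    ∃ (T : ℝ) (W : ℝ × ℝ → ℂ), Coord A B T μ W := by
  have c1 : Continuous fun σ => q (A, σ) := hq.continuous.comp (by fun_prop)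
  obtain ⟨r, r1, r2, r3, r4⟩ := exists_root hAB hq hμ pq h0 hb fun θ => ⟨hA θ,
    iwb_sign (Complex.continuous_re.comp c1)
      (fun σ e => h0 (A, σ) ⟨le_rfl, hAB.le⟩ (Complex.ext e (hA σ))) h θ⟩
  refine coord_of_root hAB r1 hμ r2 pμ him (fun p hp e => h0 p hp ?_) (fun p hp => (r3 p hp).2) r4
    fun θ => by rw [(r3 (B, θ) ⟨hAB.le, le_rfl⟩).1, hB]
  rw [← (r3 p hp).1, e, zero_pow two_ne_zero]

theorem exists_coord {A B : ℝ} (hAB : A < B) {q μ : ℝ × ℝ → ℂ} (hq : ContDiff ℝ ∞ q)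
    (hμ : ContDiff ℝ ∞ μ) (pq : Per2 q) (pμ : Per2 μ)
    (him : ∀ p : ℝ × ℝ, p.1 ∈ Icc A B → 0 < (μ p).im)
    (h0 : ∀ p : ℝ × ℝ, p.1 ∈ Icc A B → q p ≠ 0)
    (hb : ∀ p : ℝ × ℝ, p.1 ∈ Icc A B → pT q p = μ p * pS q p + 2 * pS μ p * q p)
    (hA : ∀ θ, (q (A, θ)).im = 0) (hB : ∀ θ, (q (B, θ)).im = 0) :
    ∃ (T : ℝ) (W : ℝ × ℝ → ℂ), Coord A B T μ W := by
  rcases lt_trichotomy (q (A, 0)).re 0 with h | h | h
  · refine iwb_coord hAB (q := fun p => -q p) hq.neg hμ (fun t θ => congrArg Neg.neg (pq t θ)) pμ him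
      (fun p hp => neg_ne_zero.2 (h0 p hp)) (fun p hp => ?_) (fun θ => by simp [hA])
      (fun θ => by simp [hB]) (by simpa using h)
    have e1 : pT (fun p => -q p) p = -pT q p := by rw [pT, fderiv_fun_neg]; rfl
    have e2 : pS (fun p => -q p) p = -pS q p := by rw [pS, fderiv_fun_neg]; rfl
    rw [e1, e2, hb p hp]
    ring
  · exact absurd (Complex.ext h (hA 0)) (h0 (A, 0) ⟨le_rfl, hAB.le⟩)
  · exact iwb_coord hAB hq hμ pq pμ him h0 hb hA hB h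

end Pool.Agent.Lib.MP_14b623_gt
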