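import Pool.Agent.Lib.MP_14b623_gt.IFrA
import Pool.Agent.Lib.MP_14b623_gt.IFrD
import Pool.Agent.Lib.MP_14b623_gt.IZc
import Pool.Agent.Lib.MP_14b623_gt.IWb
import Pool.Agent.Lib.MP_14b623_gt.IVc
import Pool.Agent.Lib.MP_14b623_gt.IAr

/-! Isothermal coordinates on a free boundary minimal annulus. -/

namespace Pool.Agent.Lib.MP_14b623_gt

open Set Real Filter Topology
open scoped ContDiff InnerProductSpace

/-- Every smooth free boundary minimal annulus has a conformal parametrisation. -/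
theorem exists_isothermal {A B : ℝ} {X : ℝ × ℝ → E3} (h : IsFBMAnnulus A B X)
    (hs : ContDiff ℝ ∞ X) : ∃ (T : ℝ) (Y : ℝ × ℝ → E3), IsFBMAnnulus 0 T Y ∧ IsConformal 0 T Y ∧
      area 0 T Y = area A B X := by
  obtain ⟨Φ⟩ := exists_frame h hs
  have him : ∀ p : ℝ × ℝ, p.1 ∈ Icc A B → 0 < (Φ.μ p).im := fun p _ => Φ.μ_im p ▸ Φ.m₂_pos p
  have hA := fun θ => (Φ.bdry_rel h hs θ).1
  have hB := fun θ => (Φ.bdry_rel h hs θ).2.1
  obtain ⟨C, hC⟩ := z_energy (c := fun p => 2 * pS Φ.μ p) h.lt Φ.sq Φ.sμ.continuous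
    (continuous_const.mul (sm_pS Φ.sμ).continuous) Φ.pq Φ.pμ
    (fun t θ => congrArg (2 * ·) (Φ.pμ.pS t θ)) him (fun p hp => Φ.beltrami h hs hp) hA hB
  obtain ⟨p', hp', h1⟩ := Φ.not_flat h hs
  obtain ⟨T, W, hW⟩ := exists_coord h.lt Φ.sq Φ.sμ Φ.pq Φ.pμ him
    (fun p hp h0 => h1 (z_cone h.lt Φ.sq Φ.pq hC hp hp' h0)) (fun p hp => Φ.beltrami h hs hp) hA hB
  obtain ⟨Ψ, hΨ, hz⟩ := hW.exists_rep
  obtain ⟨h2, h3⟩ := conf_comp Φ hs hΨ hz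
  exact ⟨T, X ∘ Ψ, fbm_comp h hs hΨ fun p hp => (h3 p hp).ne', h2, area_comp Φ h.lt hs hΨ h3⟩

end Pool.Agent.Lib.MP_14b623_gt
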