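import Pool.Agent.Lib.MP_14b623_gt.IDefs

/-! Change of parameters of a free boundary minimal annulus. -/

namespace Pool.Agent.Lib.MP_14b623_gt

open Set Real Filter Topology
open scoped ContDiff InnerProductSpace

variable {A B T : ℝ} {X : ℝ × ℝ → E3} {Ψ : ℝ × ℝ → ℝ × ℝ}

theorem pT_comp {V : Type} [NormedAddCommGroup V] [NormedSpace ℝ V] {f : ℝ × ℝ → V}
    (hf : ContDiff ℝ ∞ f) (hΨ : ContDiff ℝ ∞ Ψ) (p : ℝ × ℝ) :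
    pT (f ∘ Ψ) p = (pT Ψ p).1 • pT f (Ψ p) + (pT Ψ p).2 • pS f (Ψ p) ∧
    pS (f ∘ Ψ) p = (pS Ψ p).1 • pT f (Ψ p) + (pS Ψ p).2 • pS f (Ψ p) := by
  have h := fderiv_comp p (sm_diff hf (Ψ p)) (sm_diff hΨ p)
  exact ⟨(congrArg (fun L : ℝ × ℝ →L[ℝ] V => L (1, 0)) h).trans (fderiv_eq_pT_pS f _ _),
    (congrArg (fun L : ℝ × ℝ →L[ℝ] V => L (0, 1)) h).trans (fderiv_eq_pT_pS f _ _)⟩

/-- The first fundamental form after the change of parameters. -/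
theorem fff_comp (hs : ContDiff ℝ ∞ X) (hΨ : ContDiff ℝ ∞ Ψ) (p : ℝ × ℝ) :
    gE (X ∘ Ψ) p = gE X (Ψ p) * (pT Ψ p).1 ^ 2 + 2 * gF X (Ψ p) * (pT Ψ p).1 * (pT Ψ p).2 +
      gG X (Ψ p) * (pT Ψ p).2 ^ 2 ∧
    gG (X ∘ Ψ) p = gE X (Ψ p) * (pS Ψ p).1 ^ 2 + 2 * gF X (Ψ p) * (pS Ψ p).1 * (pS Ψ p).2 +
      gG X (Ψ p) * (pS Ψ p).2 ^ 2 ∧
    gF (X ∘ Ψ) p = gE X (Ψ p) * (pT Ψ p).1 * (pS Ψ p).1 +
      gF X (Ψ p) * ((pT Ψ p).1 * (pS Ψ p).2 + (pT Ψ p).2 * (pS Ψ p).1) +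
      gG X (Ψ p) * (pT Ψ p).2 * (pS Ψ p).2 := by
  simp only [gE, gF, gG, dT_eq, dS_eq, (pT_comp hs hΨ p).1, (pT_comp hs hΨ p).2, inner_add_left,
    inner_add_right, real_inner_smul_left, real_inner_smul_right,
    real_inner_comm (pT X (Ψ p)) (pS X (Ψ p))]
  exact ⟨by ring, by ring, by ring⟩

theorem disc_comp (hs : ContDiff ℝ ∞ X) (hΨ : ContDiff ℝ ∞ Ψ) (p : ℝ × ℝ) :
    gE (X ∘ Ψ) p * gG (X ∘ Ψ) p - gF (X ∘ Ψ) p ^ 2 =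
      (gE X (Ψ p) * gG X (Ψ p) - gF X (Ψ p) ^ 2) * jdet Ψ p ^ 2 := by
  obtain ⟨h1, h2, h3⟩ := fff_comp hs hΨ p
  rw [h1, h2, h3, jdet]
  ring

theorem itr_inner {u : ℝ × ℝ → ℝ × ℝ} {F G Y : ℝ × ℝ → E3} (hu : ContDiff ℝ ∞ u)
    (hF : ContDiff ℝ ∞ F) (hG : ContDiff ℝ ∞ G) (hY : ∀ q, Y q = (u q).1 • F q + (u q).2 • G q)
    {p : ℝ × ℝ} {N : E3} (h1 : ⟪N, F p⟫_ℝ = 0) (h2 : ⟪N, G p⟫_ℝ = 0) (v : ℝ × ℝ) :
    ⟪N, fderiv ℝ Y p v⟫_ℝ = (u p).1 * ⟪N, fderiv ℝ F p v⟫_ℝ + (u p).2 * ⟪N, fderiv ℝ G p v⟫_ℝ := by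
  have h3 := (((sm_diff hu.fst p).hasFDerivAt.smul (sm_diff hF p).hasFDerivAt).add
    ((sm_diff hu.snd p).hasFDerivAt.smul (sm_diff hG p).hasFDerivAt)).fderiv
  rw [show Y = (fun q => (u q).1) • F + (fun q => (u q).2) • G from funext hY, h3]
  simp [inner_add_right, real_inner_smul_right, h1, h2]

theorem itr_fst (hΨ : ContDiff ℝ ∞ Ψ) {t θ c : ℝ} (h : ∀ φ, (Ψ (t, φ)).1 = c) :
    (pS Ψ (t, θ)).1 = 0 := by
  have h1 : HasDerivAt (fun φ => (Ψ (t, φ)).1) (pS Ψ (t, θ)).1 θ :=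
    (ContinuousLinearMap.fst ℝ ℝ ℝ).hasFDerivAt.comp_hasDerivAt θ
      (hasDerivAt_pS (sm_diff hΨ (t, θ)))
  simp only [h] at h1
  exact h1.unique (hasDerivAt_const θ c)

theorem fbm_comp (h : IsFBMAnnulus A B X) (hs : ContDiff ℝ ∞ X) (hΨ : Rep T A B Ψ)
    (hj : ∀ p : ℝ × ℝ, p.1 ∈ Icc 0 T → jdet Ψ p ≠ 0) : IsFBMAnnulus 0 T (X ∘ Ψ) := by
  have sΨ := hΨ.smooth
  have hb : ∀ p : ℝ × ℝ, p.1 = 0 ∨ p.1 = T → (Ψ p).1 = A ∨ (Ψ p).1 = B := by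
    rintro ⟨t, θ⟩ (rfl | rfl)
    exacts [.inl (hΨ.left θ), .inr (hΨ.right θ)]
  refine ⟨hΨ.pos, sm_two (hs.comp sΨ), fun t θ => ?_, fun p hp => ?_,
    fun p hp => h.inBall _ (hΨ.maps p hp), fun p hp => h.bdry _ (hb p hp), fun p hp N n1 n2 => ?_,
    fun p hp => ?_⟩
  · have h1 := h.periodic (Ψ (t, θ)).1 (Ψ (t, θ)).2
    rw [Function.comp_apply, hΨ.per, Function.comp_apply, ← h1]
    congr 1
    ext <;> simp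
  · rw [disc_comp hs sΨ]
    exact mul_pos (h.immersion _ (hΨ.maps p hp)) (sq_pos_of_ne_zero (hj p hp))
  · have hd := hj p hp
    rw [dT_eq, (pT_comp hs sΨ p).1, inner_add_right, real_inner_smul_right,
      real_inner_smul_right] at n1
    rw [dS_eq, (pT_comp hs sΨ p).2, inner_add_right, real_inner_smul_right,
      real_inner_smul_right] at n2
    have m1 : ⟪N, pT X (Ψ p)⟫_ℝ = 0 := mul_left_cancel₀ hd (by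
      rw [jdet]
      linear_combination (pS Ψ p).2 * n1 - (pT Ψ p).2 * n2)
    have m2 : ⟪N, pS X (Ψ p)⟫_ℝ = 0 := mul_left_cancel₀ hd (by
      rw [jdet]
      linear_combination (pT Ψ p).1 * n2 - (pS Ψ p).1 * n1)
    have hm := h.minimal _ (hΨ.maps p hp) N m1 m2
    have sT := sm_pT hs
    have sS := sm_pS hs
    have a1 := itr_inner (sm_pT sΨ) (sT.comp sΨ) (sS.comp sΨ) (fun q => (pT_comp hs sΨ q).1) m1 m2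
    have a2 := itr_inner (sm_pS sΨ) (sT.comp sΨ) (sS.comp sΨ) (fun q => (pT_comp hs sΨ q).2) m1 m2
    have b1 : ⟪N, pT (pT (X ∘ Ψ)) p⟫_ℝ = _ * ⟪N, pT _ p⟫_ℝ + _ * ⟪N, pT _ p⟫_ℝ := a1 (1, 0)
    have b2 : ⟪N, pS (pT (X ∘ Ψ)) p⟫_ℝ = _ * ⟪N, pS _ p⟫_ℝ + _ * ⟪N, pS _ p⟫_ℝ := a1 (0, 1)
    have b3 : ⟪N, pS (pS (X ∘ Ψ)) p⟫_ℝ = _ * ⟪N, pS _ p⟫_ℝ + _ * ⟪N, pS _ p⟫_ℝ := a2 (0, 1)
    obtain ⟨f1, f2, f3⟩ := fff_comp hs sΨ p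
    rw [f1, f2, f3]
    simp only [dT_eq, dS_eq] at hm ⊢
    rw [b1, b2, b3]
    simp only [(pT_comp sT sΨ p).1, (pT_comp sT sΨ p).2, (pT_comp sS sΨ p).1, (pT_comp sS sΨ p).2,
      inner_add_right, real_inner_smul_right, pT_pS_comm (sm_two hs)]
    linear_combination ((pT Ψ p).1 * (pS Ψ p).2 - (pT Ψ p).2 * (pS Ψ p).1) ^ 2 * hm
  · have hp' : p.1 ∈ Icc 0 T := by
      rcases hp with e | e <;> rw [e]
      exacts [left_mem_Icc.2 hΨ.pos.le, right_mem_Icc.2 hΨ.pos.le]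
    have h0 : (pS Ψ p).1 = 0 := by
      obtain ⟨t, θ⟩ := p
      rcases hp with rfl | rfl
      exacts [itr_fst sΨ hΨ.left, itr_fst sΨ hΨ.right]
    have hd := hj p hp'
    rw [jdet, h0, mul_zero, sub_zero] at hd
    have h1 := right_ne_zero_of_mul hd
    have hG : gG X (Ψ p) ≠ 0 := fun e => by
      have h2 := h.immersion _ (hΨ.maps p hp')
      rw [e, mul_zero] at h2
      linarith [sq_nonneg (gF X (Ψ p))]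
    obtain ⟨c, hc⟩ := h.orth _ (hb p hp)
    obtain ⟨-, f2, f3⟩ := fff_comp hs sΨ p
    refine ⟨(pT Ψ p).1 * c, ?_⟩
    rw [f2, f3, dT_eq, dS_eq, (pT_comp hs sΨ p).1, (pT_comp hs sΨ p).2, h0, mul_smul,
      Function.comp_apply, ← hc, dT_eq, dS_eq]
    match_scalars <;> field_simp <;> ring

end Pool.Agent.Lib.MP_14b623_gt
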