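import Pool.Agent.Lib.MP_14b623_gt.IDefs

/-! The imaginary part of the coordinate. -/

namespace Pool.Agent.Lib.MP_14b623_gt

open Set Real Filter Topology
open scoped ContDiff InnerProductSpace

theorem iva_left {g : ℝ → ℝ} {d x a : ℝ} (hd : HasDerivAt g d x) (h0 : 0 < d) (ha : a < x) :
    ∃ s ∈ Ioo a x, g s < g x := by
  have h1 : Tendsto (slope g x) (𝓝[<] x) (𝓝 d) :=
    (hasDerivAt_iff_tendsto_slope.1 hd).mono_left (nhdsLT_le_nhdsNE x)
  obtain ⟨s, h2, h3⟩ := ((h1.eventually (lt_mem_nhds h0)).and (Ioo_mem_nhdsLT ha)).exists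
  refine ⟨s, h3, ?_⟩
  rw [slope_def_field] at h2
  by_contra h4
  have := div_nonpos_of_nonneg_of_nonpos (sub_nonneg.2 (not_lt.1 h4)) (sub_nonpos.2 h3.2.le)
  exact absurd h2 (not_lt.2 this)

theorem iva_right {g : ℝ → ℝ} {d x b : ℝ} (hd : HasDerivAt g d x) (h0 : 0 < d) (hb : x < b) :
    ∃ s ∈ Ioo x b, g x < g s := by
  have h1 : Tendsto (slope g x) (𝓝[>] x) (𝓝 d) :=
    (hasDerivAt_iff_tendsto_slope.1 hd).mono_left (nhdsGT_le_nhdsNE x)
  obtain ⟨s, h2, h3⟩ := ((h1.eventually (lt_mem_nhds h0)).and (Ioo_mem_nhdsGT hb)).exists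
  refine ⟨s, h3, ?_⟩
  rw [slope_def_field] at h2
  by_contra h4
  have := div_nonpos_of_nonpos_of_nonneg (sub_nonpos.2 (not_lt.1 h4)) (sub_nonneg.2 h3.1.le)
  exact absurd h2 (not_lt.2 this)

namespace Coord

variable {A B T : ℝ} {μ W : ℝ × ℝ → ℂ}

theorem iva_dT (h : Coord A B T μ W) (t θ : ℝ) :
    HasDerivAt (fun s => (W (s, θ)).im) (pT W (t, θ)).im t :=
  Complex.imCLM.hasFDerivAt.comp_hasDerivAt t (hasDerivAt_pT (sm_diff h.smooth _))

theorem iva_dS (h : Coord A B T μ W) (t θ : ℝ) :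
    HasDerivAt (fun s => (W (t, s)).im) (pS W (t, θ)).im θ :=
  Complex.imCLM.hasFDerivAt.comp_hasDerivAt θ (hasDerivAt_pS (sm_diff h.smooth _))

theorem iva_per (h : Coord A B T μ W) : Per2 fun p => (W p).im := fun t θ => by
  simp [h.per]

theorem iva_cont (h : Coord A B T μ W) : Continuous fun p => (W p).im :=
  Complex.continuous_im.comp h.smooth.continuous

theorem iva_perT (h : Coord A B T μ W) : Per2 (pT W) := fun t θ => by
  rw [pT, per_fderiv h.per t θ]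
  rfl

theorem iva_perS (h : Coord A B T μ W) : Per2 (pS W) := fun t θ => by
  rw [pS, per_fderiv h.per t θ]
  rfl

theorem pT_im_pos (h : Coord A B T μ W) {p : ℝ × ℝ} (hp : p.1 = A ∨ p.1 = B) :
    (pS W p).im = 0 ∧ 0 < (pT W p).im := by
  obtain ⟨t, θ⟩ := p
  have hp' : (t, θ).1 ∈ Icc A B := by
    rcases hp with e | e <;> rw [e]
    · exact ⟨le_rfl, h.lt.le⟩
    · exact ⟨h.lt.le, le_rfl⟩
  have h1 : (pS W (t, θ)).im = 0 := by
    rcases hp with e | e
    · obtain rfl : t = A := e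
      refine (h.iva_dS t θ).unique ?_
      simp only [h.left]
      exact hasDerivAt_const θ 0
    · obtain rfl : t = B := e
      refine (h.iva_dS t θ).unique ?_
      simp only [h.right]
      exact hasDerivAt_const θ T
  refine ⟨h1, ?_⟩
  rw [h.bel _ hp', Complex.mul_im, h1, mul_zero, zero_add]
  exact mul_pos (h.im_pos _ hp') (h.re_pos _ hp)

theorem jac_pos (h : Coord A B T μ W) {p : ℝ × ℝ} (hp : p.1 ∈ Icc A B) : 0 < cjac W p := by
  have e : cjac W p = (μ p).im * Complex.normSq (pS W p) := by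
    rw [cjac, h.bel p hp, Complex.mul_im, Complex.mul_re, Complex.normSq_apply]
    ring
  rw [e]
  exact mul_pos (h.im_pos p hp) (Complex.normSq_pos.2 (h.ne p hp))

theorem iva_crit (h : Coord A B T μ W) {σ : ℝ} (hσ : σ ≠ 0) {p : ℝ × ℝ} (hp : p.1 ∈ Ioo A B)
    (hm : ∀ q : ℝ × ℝ, q.1 ∈ Icc A B → σ * (W p).im ≤ σ * (W q).im) : False := by
  obtain ⟨t, θ⟩ := p
  have h1 : IsLocalMin (fun s => σ * (W (s, θ)).im) t := by
    filter_upwards [Ioo_mem_nhds hp.1 hp.2] with s hs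
    exact hm (s, θ) (Ioo_subset_Icc_self hs)
  have h2 : IsLocalMin (fun s => σ * (W (t, s)).im) θ :=
    Eventually.of_forall fun s => hm (t, s) (Ioo_subset_Icc_self hp)
  have h3 := h1.hasDerivAt_eq_zero ((h.iva_dT t θ).const_mul σ)
  have h4 := h2.hasDerivAt_eq_zero ((h.iva_dS t θ).const_mul σ)
  have h5 := h.jac_pos (p := (t, θ)) (Ioo_subset_Icc_self hp)
  rw [cjac, (mul_eq_zero.1 h3).resolve_left hσ, (mul_eq_zero.1 h4).resolve_left hσ] at h5
  simp at h5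

theorem im_mem (h : Coord A B T μ W) {p : ℝ × ℝ} (hp : p.1 ∈ Icc A B) :
    (A < p.1 → 0 < (W p).im) ∧ (p.1 < B → (W p).im < T) := by
  have kA : ∀ r : ℝ × ℝ, r.1 ∈ Icc A B →
      (∀ q : ℝ × ℝ, q.1 ∈ Icc A B → (W r).im ≤ (W q).im) → r.1 = A := by
    rintro ⟨t, θ⟩ hr hm
    by_contra hne
    have h1 : A < t := lt_of_le_of_ne hr.1 (Ne.symm hne)
    rcases eq_or_lt_of_le hr.2 with e | e
    · obtain ⟨s, h2, h3⟩ := iva_left (h.iva_dT t θ) (h.pT_im_pos (Or.inr e)).2 h1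
      exact absurd h3 (not_lt.2 (hm (s, θ) ⟨h2.1.le, h2.2.le.trans hr.2⟩))
    · exact h.iva_crit one_ne_zero (p := (t, θ)) ⟨h1, e⟩ fun q hq => by
        simpa only [one_mul] using hm q hq
  have kB : ∀ r : ℝ × ℝ, r.1 ∈ Icc A B →
      (∀ q : ℝ × ℝ, q.1 ∈ Icc A B → (W q).im ≤ (W r).im) → r.1 = B := by
    rintro ⟨t, θ⟩ hr hm
    by_contra hne
    have h1 : t < B := lt_of_le_of_ne hr.2 hne
    rcases eq_or_lt_of_le hr.1 with e | e
    · obtain ⟨s, h2, h3⟩ := iva_right (h.iva_dT t θ) (h.pT_im_pos (Or.inl e.symm)).2 h1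
      exact absurd h3 (not_lt.2 (hm (s, θ) ⟨hr.1.trans h2.1.le, h2.2.le⟩))
    · exact h.iva_crit (σ := -1) (by norm_num) (p := (t, θ)) ⟨e, h1⟩ fun q hq => by
        linarith [hm q hq]
  constructor
  · intro hA
    obtain ⟨r, hr, hm⟩ := h.iva_per.exists_min h.iva_cont h.lt.le
    have e : (W r).im = 0 := by
      have := kA r hr hm
      obtain ⟨t, θ⟩ := r
      obtain rfl : t = A := this
      exact h.left θ
    by_contra hn
    exact hA.ne' (kA p hp fun q hq => (not_lt.1 hn).trans (e ▸ hm q hq))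
  · intro hB
    have hper : Per2 fun p => -(W p).im := fun t θ => congrArg Neg.neg (h.iva_per t θ)
    obtain ⟨r, hr, hm⟩ := hper.exists_min h.iva_cont.neg h.lt.le
    have hm' : ∀ q : ℝ × ℝ, q.1 ∈ Icc A B → (W q).im ≤ (W r).im := fun q hq =>
      neg_le_neg_iff.1 (hm q hq)
    have e : (W r).im = T := by
      have := kB r hr hm'
      obtain ⟨t, θ⟩ := r
      obtain rfl : t = B := this
      exact h.right θ
    by_contra hn
    exact hB.ne (kB p hp fun q hq => (e ▸ hm' q hq).trans (not_lt.1 hn))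

theorem iva_mono (h : Coord A B T μ W) {c : ℝ} (hc : c = A ∨ c = B) :
    ∃ ε : ℝ, 0 < ε ∧ ∀ θ, StrictMonoOn (fun s => (W (s, θ)).im) (Icc (c - ε) (c + ε)) := by
  have hper : Per2 fun p => (pT W p).im := fun t θ => congrArg Complex.im (h.iva_perT t θ)
  obtain ⟨ε, h0, h1⟩ := hper.exists_nhds
    (Complex.continuous_im.comp (sm_pT h.smooth).continuous) (le_refl c) fun q hq =>
      (h.pT_im_pos (by rw [le_antisymm hq.2 hq.1]; exact hc)).2
  refine ⟨ε, h0, fun θ => strictMonoOn_of_deriv_pos (convex_Icc _ _)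
    (fun s _ => (h.iva_dT s θ).continuousAt.continuousWithinAt) fun s hs => ?_⟩
  rw [(h.iva_dT s θ).deriv]
  exact h1 (s, θ) (interior_subset hs)

theorem wide (h : Coord A B T μ W) : ∃ ε η, Wide A B T ε η W := by
  have hper : Per2 (cjac W) := fun t θ => by rw [cjac, cjac, h.iva_perT, h.iva_perS]
  have cT := (sm_pT h.smooth).continuous
  have cS := (sm_pS h.smooth).continuous
  have hc : Continuous (cjac W) :=
    ((Complex.continuous_im.comp cT).mul (Complex.continuous_re.comp cS)).sub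
      ((Complex.continuous_re.comp cT).mul (Complex.continuous_im.comp cS))
  obtain ⟨e1, p1, j1⟩ := hper.exists_nhds hc h.lt.le fun q hq => h.jac_pos hq
  obtain ⟨e2, p2, j2⟩ := h.iva_mono (Or.inl rfl)
  obtain ⟨e3, p3, j3⟩ := h.iva_mono (Or.inr rfl)
  obtain ⟨ε, hε, l1, l2, l3⟩ : ∃ ε : ℝ, 0 < ε ∧ ε ≤ e1 ∧ ε ≤ e2 ∧ ε ≤ e3 :=
    ⟨min e1 (min e2 e3), lt_min p1 (lt_min p2 p3), min_le_left _ _,
      (min_le_right _ _).trans (min_le_left _ _), (min_le_right _ _).trans (min_le_right _ _)⟩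
  have hT : 0 < T := by
    have := (h.im_mem (p := (B, 0)) ⟨h.lt.le, le_rfl⟩).1 h.lt
    rwa [h.right] at this
  have kA : ∀ p : ℝ × ℝ, p.1 ∈ Ico (A - ε) A → (W p).im < 0 := by
    rintro ⟨t, θ⟩ ⟨a, b⟩
    have := j2 θ (a := t) (b := A) ⟨by linarith, by linarith⟩ ⟨by linarith, by linarith⟩ b
    simpa only [h.left] using this
  have kB : ∀ p : ℝ × ℝ, p.1 ∈ Ioc B (B + ε) → T < (W p).im := by
    rintro ⟨t, θ⟩ ⟨a, b⟩
    have := j3 θ (a := B) (b := t) ⟨by linarith, by linarith⟩ ⟨by linarith, by linarith⟩ a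
    simpa only [h.right] using this
  have q1 : Per2 fun p => -(W p).im := fun t θ => congrArg Neg.neg (h.iva_per t θ)
  have q2 : Per2 fun p => (W p).im - T := fun t θ => congrArg (· - T) (h.iva_per t θ)
  obtain ⟨c1, r1, s1⟩ := q1.exists_pos_le h.iva_cont.neg (le_refl (A - ε)) fun q hq =>
    neg_pos.2 (kA q ⟨hq.1, by linarith [hq.2]⟩)
  obtain ⟨c2, r2, s2⟩ := q2.exists_pos_le (h.iva_cont.sub continuous_const) (le_refl (B + ε))
    fun q hq => sub_pos.2 (kB q ⟨by linarith [hq.1], hq.2⟩)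
  refine ⟨ε, min c1 c2, hε, lt_min r1 r2, hT, fun p hp => j1 p ⟨by linarith [hp.1],
    by linarith [hp.2]⟩, kA, fun p hp => ?_, fun p hp => ?_, kB, fun θ => ?_, fun θ => ?_⟩
  · rcases le_or_gt p.1 B with e | e
    · exact (h.im_mem ⟨hp.1.le, e⟩).1 hp.1
    · exact hT.trans (kB p ⟨e, hp.2⟩)
  · rcases le_or_gt A p.1 with e | e
    · exact (h.im_mem ⟨e, hp.2.le⟩).2 hp.2
    · exact (kA p ⟨hp.1, e⟩).trans hT
  · have := s1 (A - ε, θ) ⟨le_rfl, le_rfl⟩
    linarith [min_le_left c1 c2]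
  · have := s2 (B + ε, θ) ⟨le_rfl, le_rfl⟩
    linarith [min_le_right c1 c2]

end Coord

end Pool.Agent.Lib.MP_14b623_gt
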