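import Pool.Agent.Lib.MP_14b623_gt.IVa

/-! The coordinate is a bijection onto a strip. -/

namespace Pool.Agent.Lib.MP_14b623_gt

open Set Real Filter Topology
open scoped ContDiff InnerProductSpace

theorem uniq_of_proper {E Y : Type} [TopologicalSpace E] [T2Space E] [TopologicalSpace Y]
    [T2Space Y] {f : E → Y} (hf : IsProperMap f) {D : Set Y} (hD : IsPreconnected D)
    (hl : IsLocalHomeomorphOn f (f ⁻¹' D)) {y₀ : Y} (h0 : y₀ ∈ D) (h1 : ∃! x, f x = y₀) :
    ∀ y ∈ D, ∃! x, f x = y := by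
  have h2 : ∀ y ∈ D, y ∈ interior {y | ∃! x, f x = y} ∪ interior {y | ∃! x, f x = y}ᶜ := by
    intro y hy
    by_cases h : ∃! x, f x = y
    · obtain ⟨x, rfl, hx⟩ := h
      obtain ⟨e, he, rfl⟩ := hl x hy
      refine .inl (mem_interior_iff_mem_nhds.2 (mem_of_superset (inter_mem
        (e.open_target.mem_nhds (e.map_source he)) ((hf.isClosedMap _
          e.open_source.isClosed_compl).isOpen_compl.mem_nhds ?_)) fun z hz =>
            ⟨e.symm z, e.right_inv hz.1, fun w hw => ?_⟩))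
      · rintro ⟨w, hw, e'⟩
        exact hw (hx w e' ▸ he)
      · rw [← hw, e.left_inv (not_not.1 fun h => hz.2 ⟨w, h, hw⟩)]
    refine .inr (mem_interior_iff_mem_nhds.2 ?_)
    by_cases h' : y ∈ range f
    · obtain ⟨x, rfl⟩ := h'
      obtain ⟨x', h3, h4⟩ : ∃ x', f x' = f x ∧ x' ≠ x := by
        by_contra! h3
        exact h ⟨x, rfl, h3⟩
      obtain ⟨U, V, hU, hV, h5⟩ := t2_separation_nhds h4
      have h6 := image_mem_map (m := f) hU
      have h7 := image_mem_map (m := f) hV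
      rw [hl.map_nhds_eq (show f x' ∈ D from h3 ▸ hy), h3] at h6
      rw [hl.map_nhds_eq hy] at h7
      refine mem_of_superset (inter_mem h6 h7) ?_
      rintro z ⟨⟨a, ha, e⟩, b, hb, e'⟩ hz
      exact disjoint_left.1 h5 ha (hz.unique e' e ▸ hb)
    · exact mem_of_superset (hf.isClosedMap.isClosed_range.isOpen_compl.mem_nhds h')
        fun z hz h => hz h.exists
  exact fun y hy => interior_subset (s := {y | ∃! x, f x = y})
    (hD.subset_left_of_subset_union isOpen_interior isOpen_interior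
      (disjoint_compl_right.mono interior_subset interior_subset) h2
      ⟨y₀, h0, (h2 y₀ h0).resolve_right fun h => interior_subset h h1⟩ hy)

theorem equiv_of_cjac {W : ℝ × ℝ → ℂ} {p : ℝ × ℝ} (h : cjac W p ≠ 0) :
    ∃ L : (ℝ × ℝ) ≃L[ℝ] ℂ, (L : ℝ × ℝ →L[ℝ] ℂ) = fderiv ℝ W p := by
  have h1 : Function.Injective (fderiv ℝ W p).toLinearMap :=
    (injective_iff_map_eq_zero _).2 fun v hv => by
      have h2 := (fderiv_eq_pT_pS W p v).symm.trans hv
      have h3 := congrArg Complex.re h2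
      have h4 := congrArg Complex.im h2
      simp only [Complex.add_re, Complex.smul_re, Complex.add_im, Complex.smul_im, smul_eq_mul,
        Complex.zero_re, Complex.zero_im] at h3 h4
      refine Prod.ext (mul_left_cancel₀ h ?_) (mul_left_cancel₀ h ?_) <;> rw [cjac]
      · linear_combination (norm := (simp; ring1)) (pS W p).re * h4 - (pS W p).im * h3
      · linear_combination (norm := (simp; ring1)) (pT W p).im * h3 - (pT W p).re * h4
  exact ⟨(LinearMap.linearEquivOfInjective _ h1 (by simp)).toContinuousLinearEquiv, rfl⟩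

theorem Coord.bij {A B T ε η : ℝ} {μ W : ℝ × ℝ → ℂ} (h : Coord A B T μ W)
    (hw : Wide A B T ε η W) {z : ℂ} (hz : z.im ∈ Ioo (-η) (T + η)) :
    ∃! p : ℝ × ℝ, p.1 ∈ Icc (A - ε) (B + ε) ∧ W p = z := by
  have hab : A - ε ≤ B + ε := by linarith [h.lt, hw.ε_pos]
  have hW := h.smooth.continuous
  let c : ℝ → ℝ := fun t => max (A - ε) (min t (B + ε))
  let f : ℝ × ℝ → ℂ := fun p => W (c p.1, p.2) + (p.1 - c p.1 : ℝ) * Complex.I
  have hc : ∀ t, c t ∈ Icc (A - ε) (B + ε) := fun t =>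
    ⟨le_max_left _ _, max_le hab (min_le_right _ _)⟩
  have e : ∀ p : ℝ × ℝ, p.1 ∈ Icc (A - ε) (B + ε) → f p = W p := fun p hp => by
    simp [f, c, min_eq_left hp.2, max_eq_right hp.1]
  have hD : ∀ p, (f p).im ∈ Ioo (-η) (T + η) → p.1 ∈ Ioo (A - ε) (B + ε) := fun p hp => by
    constructor <;> by_contra! h1
    · have := hw.low p.2
      simp [f, c, max_eq_left ((min_le_left _ _).trans h1)] at hp
      linarith [hp.1]
    · have := hw.high p.2
      simp [f, c, min_eq_right h1, max_eq_right hab] at hp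
      linarith [hp.2]
  have hf : Continuous f := by fun_prop
  obtain ⟨C, -, hC⟩ := Per2.exists_bound (f := fun p => W p - p.2 - p.1 * Complex.I)
    (fun t θ => by simp [h.per]) (by fun_prop) (A - ε) (B + ε)
  have h0 : ∀ θ, ((A, θ) : ℝ × ℝ).1 ∈ Icc (A - ε) (B + ε) := fun _ =>
    ⟨by linarith [hw.ε_pos], by linarith [hw.ε_pos, h.lt]⟩
  obtain ⟨p, hp, hu⟩ := uniq_of_proper (f := f) (D := {z | z.im ∈ Ioo (-η) (T + η)})
    (isProperMap_iff_isCompact_preimage.2 ⟨hf, fun K hK => by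
      obtain ⟨R, hR⟩ := hK.isBounded.exists_norm_le
      refine Metric.isCompact_of_isClosed_isBounded (hK.isClosed.preimage hf)
        (isBounded_iff_forall_norm_le.2 ⟨R + C, fun p hp => ?_⟩)
      have h1 := (norm_sub_le _ _).trans (add_le_add (hR _ hp) (hC (c p.1, p.2) (hc _)))
      exact max_le (le_trans (le_of_eq (by simp [f])) ((Complex.abs_im_le_norm _).trans h1))
        (le_trans (le_of_eq (by simp [f])) ((Complex.abs_re_le_norm _).trans h1))⟩)
    ((convex_Ioo _ _).linear_preimage Complex.imLm).isPreconnected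
    (.mk _ _ fun p hp => by
      obtain ⟨L, hL⟩ := equiv_of_cjac (hw.jac p (Ioo_subset_Icc_self (hD p hp))).ne'
      have h1 : HasFDerivAt W (L : ℝ × ℝ →L[ℝ] ℂ) p := hL ▸ (sm_diff h.smooth p).hasFDerivAt
      exact ⟨((sm_one h.smooth).contDiffAt.toOpenPartialHomeomorph W h1 one_ne_zero).restrOpen _
        (isOpen_Ioo.preimage continuous_fst), ⟨ContDiffAt.mem_toOpenPartialHomeomorph_source ..,
        hD p hp⟩, fun q hq => e q (Ioo_subset_Icc_self hq.2)⟩)
    (y₀ := W (A, 0)) (by simpa [h.left] using ⟨hw.η_pos, add_pos hw.T_pos hw.η_pos⟩)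
    ⟨(A, 0), e _ (h0 0), fun q (hq : f q = _) => by
      have h1 := Ioo_subset_Icc_self (hD q (by
        simpa [hq, h.left] using ⟨hw.η_pos, add_pos hw.T_pos hw.η_pos⟩))
      rw [e q h1] at hq
      have h2 : (W q).im = 0 := by rw [hq, h.left]
      obtain ⟨t, θ⟩ := q
      obtain rfl : t = A := le_antisymm (not_lt.1 fun h3 => (hw.gt_A _ ⟨h3, h1.2⟩).ne' h2)
        (not_lt.1 fun h3 => (hw.lt_A _ ⟨h1.1, h3⟩).ne h2)
      exact Prod.ext rfl ((strictMono_of_hasDerivAt_pos (fun s => Complex.reCLM.hasFDerivAt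
        |>.comp_hasDerivAt s (hasDerivAt_pS (sm_diff h.smooth (t, s))))
        fun s => h.re_pos _ (.inl rfl)).injective (congrArg Complex.re hq))⟩ z hz
  have h1 := Ioo_subset_Icc_self (hD p (hp ▸ hz))
  exact ⟨p, ⟨h1, e p h1 ▸ hp⟩, fun q hq => hu q ((e q hq.1).trans hq.2)⟩

end Pool.Agent.Lib.MP_14b623_gt
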