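import Pool.Agent.Lib.MP_14b623_gt.IDefs

/-! The square root of the Hopf function and the conformal coordinate. -/

namespace Pool.Agent.Lib.MP_14b623_gt

open Set Real Filter Topology
open scoped ContDiff InnerProductSpace

theorem iwa_root {A : ℝ} {q : ℝ × ℝ → ℂ} (hq : ContDiff ℝ ∞ q) (pq : Per2 q) (h0 : ∀ p, q p ≠ 0)
    (hA : ∀ θ, (q (A, θ)).im = 0 ∧ 0 < (q (A, θ)).re) :
    ∃ r : ℝ × ℝ → ℂ, ContDiff ℝ ∞ r ∧ Per2 r ∧ (∀ p, r p ^ 2 = q p) ∧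
      ∀ θ, (r (A, θ)).im = 0 ∧ 0 < (r (A, θ)).re := by
  have hg : ContDiff ℝ ∞ fun p => pT q p * (q p)⁻¹ := (sm_pT hq).mul (hq.inv h0)
  have hP := sm_prim hg A
  have hs : ContDiff ℝ ∞ fun p : ℝ × ℝ => √(q (A, p.2)).re :=
    (Complex.reCLM.contDiff.comp (hq.comp (contDiff_const.prodMk contDiff_snd))).sqrt
      fun p => (hA p.2).2.ne'
  have pg : Per2 fun p => pT q p * (q p)⁻¹ := fun t θ => by simp only [pq.pT t θ, pq t θ]
  refine ⟨fun p => (√(q (A, p.2)).re : ℝ) * Complex.exp (prim A (fun p => pT q p * (q p)⁻¹) p / 2),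
    (Complex.ofRealCLM.contDiff.comp hs).mul (hP.div_const 2).cexp,
    fun t θ => by simp only [pq A θ, pg.prim A t θ], fun ⟨t, θ⟩ => ?_, fun θ => ?_⟩
  · have h1 : ∀ s, HasDerivAt (fun s => Complex.exp (prim A (fun p => pT q p * (q p)⁻¹) (s, θ)) *
        (q (s, θ))⁻¹) 0 s := fun s => by
      refine ((hasDerivAt_pT (sm_diff hP (s, θ))).cexp.fun_mul
        ((hasDerivAt_pT (sm_diff hq (s, θ))).fun_inv (h0 _))).congr_deriv ?_
      have := h0 (s, θ)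
      rw [pT_prim hg]
      field_simp
      ring
    have h2 := is_const_of_deriv_eq_zero (fun s => (h1 s).differentiableAt)
      (fun s => (h1 s).deriv) t A
    have h3 : q (A, θ) = ((q (A, θ)).re : ℂ) := Complex.ext rfl (hA θ).1
    rw [prim_left, Complex.exp_zero, one_mul, mul_inv_eq_iff_eq_mul₀ (h0 _)] at h2
    rw [mul_pow, ← Complex.ofReal_pow, Real.sq_sqrt (hA θ).2.le, ← Complex.exp_nat_mul,
      Nat.cast_ofNat, mul_div_cancel₀ _ two_ne_zero, h2, ← h3, mul_inv_cancel_left₀ (h0 _)]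
  · simpa [prim_left] using (hA θ).2

theorem exists_root {A B : ℝ} (hAB : A < B) {q μ : ℝ × ℝ → ℂ} (hq : ContDiff ℝ ∞ q)
    (hμ : ContDiff ℝ ∞ μ) (pq : Per2 q) (h0 : ∀ p : ℝ × ℝ, p.1 ∈ Icc A B → q p ≠ 0)
    (hb : ∀ p : ℝ × ℝ, p.1 ∈ Icc A B → pT q p = μ p * pS q p + 2 * pS μ p * q p)
    (hA : ∀ θ, (q (A, θ)).im = 0 ∧ 0 < (q (A, θ)).re) :
    ∃ r : ℝ × ℝ → ℂ, ContDiff ℝ ∞ r ∧ Per2 r ∧
      (∀ p : ℝ × ℝ, p.1 ∈ Icc A B → r p ^ 2 = q p ∧ pT r p = pS (fun p => μ p * r p) p) ∧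
      ∀ θ, (r (A, θ)).im = 0 ∧ 0 < (r (A, θ)).re := by
  obtain ⟨ε, hε, h1⟩ := Per2.exists_nhds (f := fun p => ‖q p‖) (fun t θ => by simp only [pq t θ])
    hq.continuous.norm hAB.le fun p hp => norm_pos_iff.2 (h0 p hp)
  obtain ⟨χ, hχ, h2, h3⟩ := exists_squeeze A B hAB.le hε
  obtain ⟨r, hr, pr, h4, h5⟩ := iwa_root (A := A) (q := fun p => q (χ p.1, p.2))
    (hq.comp ((hχ.comp contDiff_fst).prodMk contDiff_snd)) (fun t θ => pq _ _)
    (fun p => norm_pos_iff.1 (h1 _ (Ioo_subset_Icc_self (h2 p.1)))) fun θ => by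
      simpa only [h3 A ⟨by linarith, by linarith⟩] using hA θ
  refine ⟨r, hr, pr, fun ⟨t, θ⟩ hp => ?_, h5⟩
  have h6 : (fun p => r p ^ 2) =ᶠ[𝓝 (t, θ)] q :=
    (strip_mem_nhds (a := A - ε / 2) (b := B + ε / 2) (p := (t, θ))
      ⟨by linarith [hp.1], by linarith [hp.2]⟩).mono fun p hp => by
        simp only [h4, h3 _ (Ioo_subset_Icc_self hp)]
  have h7 : r (t, θ) ^ 2 = q (t, θ) := h6.self_of_nhds
  have d := sm_diff hr (t, θ)
  have dμ := sm_diff hμ (t, θ)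
  have h8 := hb _ hp
  rw [← pT_congr h6, ← pS_congr h6, ← h7,
    pT_of_hasDerivAt (d.fun_pow 2) ((hasDerivAt_pT d).fun_pow 2),
    pS_of_hasDerivAt (d.fun_pow 2) ((hasDerivAt_pS d).fun_pow 2)] at h8
  refine ⟨h7, ?_⟩
  rw [pS_of_hasDerivAt (dμ.fun_mul d) ((hasDerivAt_pS dμ).fun_mul (hasDerivAt_pS d))]
  have h9 : r (t, θ) ≠ 0 := fun e => h0 _ hp (by rw [← h7, e, zero_pow two_ne_zero])
  apply mul_left_cancel₀ (mul_ne_zero two_ne_zero h9)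
  simp only [Nat.cast_ofNat, Nat.add_one_sub_one, pow_one] at h8
  linear_combination h8

end Pool.Agent.Lib.MP_14b623_gt
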