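import Pool.Agent.Lib.MP_14b623_gt.IDefs

/-! A weighted Jacobian integral vanishes; the logarithmic energy is bounded. -/

namespace Pool.Agent.Lib.MP_14b623_gt

open Set Real Filter Topology
open scoped ContDiff InnerProductSpace

theorem iza_arg {u v u' v' δ : ℝ} {f g : ℝ → ℝ} {t : ℝ} (hδ : 0 < δ) (hf : HasDerivAt f u' t)
    (hg : HasDerivAt g v' t) (hu : f t = u) (hv : g t = v) :
    HasDerivAt (fun s => arctan (g s / √(f s ^ 2 + δ)) / √(f s ^ 2 + δ))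
      (v' / (u ^ 2 + v ^ 2 + δ) + -(v / (u ^ 2 + v ^ 2 + δ) + arctan (v / √(u ^ 2 + δ)) /
        √(u ^ 2 + δ)) * (u / (u ^ 2 + δ)) * u') t := by
  subst hu hv
  have h0 : 0 < f t ^ 2 + δ := by positivity
  have h1 := ((hf.fun_pow 2).add_const δ).sqrt h0.ne'
  have h2 : 0 < √(f t ^ 2 + δ) := Real.sqrt_pos.2 h0
  refine (((hg.fun_div h1 h2.ne').arctan).fun_div h1 h2.ne').congr_deriv ?_
  have h3 := Real.sq_sqrt h0.le
  generalize arctan (g t / √(f t ^ 2 + δ)) = a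
  rw [show f t ^ 2 + g t ^ 2 + δ = √(f t ^ 2 + δ) ^ 2 + g t ^ 2 by rw [h3]; ring]
  generalize √(f t ^ 2 + δ) = s at h2 h3 ⊢
  rw [← h3]
  field_simp
  ring

theorem iza_mul {f g : ℝ × ℝ → ℝ} (hf : ContDiff ℝ ∞ f) (hg : ContDiff ℝ ∞ g) (p : ℝ × ℝ) :
    pT (fun q => f q * g q) p = pT f p * g p + f p * pT g p ∧
    pS (fun q => f q * g q) p = pS f p * g p + f p * pS g p :=
  ⟨pT_of_hasDerivAt (sm_diff (hf.mul hg) _)
      ((hasDerivAt_pT (sm_diff hf _)).fun_mul (hasDerivAt_pT (sm_diff hg _))),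
    pS_of_hasDerivAt (sm_diff (hf.mul hg) _)
      ((hasDerivAt_pS (sm_diff hf _)).fun_mul (hasDerivAt_pS (sm_diff hg _)))⟩

theorem iza_clm {q : ℝ × ℝ → ℂ} (hq : ContDiff ℝ ∞ q) (L : ℂ →L[ℝ] ℝ) (p : ℝ × ℝ) :
    pT (fun p => L (q p)) p = L (pT q p) ∧ pS (fun p => L (q p)) p = L (pS q p) :=
  ⟨pT_of_hasDerivAt (sm_diff (L.contDiff.comp hq) _)
      (L.hasFDerivAt.comp_hasDerivAt _ (hasDerivAt_pT (sm_diff hq _))),
    pS_of_hasDerivAt (sm_diff (L.contDiff.comp hq) _)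
      (L.hasFDerivAt.comp_hasDerivAt _ (hasDerivAt_pS (sm_diff hq _)))⟩

theorem z_jac {A B : ℝ} {u v : ℝ × ℝ → ℝ} (hu : ContDiff ℝ ∞ u) (hv : ContDiff ℝ ∞ v)
    (pu : Per2 u) (pv : Per2 v) (hA : ∀ θ, v (A, θ) = 0) (hB : ∀ θ, v (B, θ) = 0) {δ : ℝ}
    (hδ : 0 < δ) : ∫ t in A..B, ∫ θ in (0 : ℝ)..(2 * π),
      (pT v (t, θ) * pS u (t, θ) - pS v (t, θ) * pT u (t, θ)) /
        (u (t, θ) ^ 2 + v (t, θ) ^ 2 + δ) = 0 := by
  have h0 : ∀ p, u p ^ 2 + δ ≠ 0 := fun p => by positivity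
  have h1 : ContDiff ℝ ∞ fun p => √(u p ^ 2 + δ) := ((hu.pow 2).add contDiff_const).sqrt h0
  have h2 : ∀ p, √(u p ^ 2 + δ) ≠ 0 := fun p => by positivity
  obtain ⟨g, hg⟩ : ∃ g : ℝ × ℝ → ℝ,
      g = fun p => arctan (v p / √(u p ^ 2 + δ)) / √(u p ^ 2 + δ) := ⟨_, rfl⟩
  have sg : ContDiff ℝ ∞ g := hg ▸ (hv.div h1 h2).arctan.div h1 h2
  have pg : Per2 g := fun t θ => by simp only [hg, pu t θ, pv t θ]
  have h3 := stokes (sm_one (sg.mul (sm_pS hu))) (sm_one (sg.mul (sm_pT hu)))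
    (fun t θ => by simp only [pg t θ, pu.pT t θ]) A B
  have h4 : ∀ t, (∀ θ, v (t, θ) = 0) → ∀ θ, g (t, θ) = 0 := fun t h θ => by simp [hg, h]
  simp only [h4 A hA, h4 B hB, zero_mul, intervalIntegral.integral_zero, sub_zero] at h3
  rw [← h3]
  congr 1
  funext t
  congr 1
  funext θ
  have e1 := pT_of_hasDerivAt (sm_diff sg (t, θ)) (by
    rw [hg]
    exact iza_arg hδ (hasDerivAt_pT (sm_diff hu _)) (hasDerivAt_pT (sm_diff hv _)) rfl rfl)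
  have e2 := pS_of_hasDerivAt (sm_diff sg (t, θ)) (by
    rw [hg]
    exact iza_arg hδ (hasDerivAt_pS (sm_diff hu _)) (hasDerivAt_pS (sm_diff hv _)) rfl rfl)
  rw [(iza_mul sg (sm_pS hu) _).1, (iza_mul sg (sm_pT hu) _).2, pT_pS_comm (sm_two hu), e1, e2]
  ring

theorem z_alg {m K : ℝ} (hm : 0 < m) : ∃ M M' : ℝ, 0 ≤ M' ∧ ∀ μ c q x y : ℂ, m ≤ μ.im →
    ‖μ‖ ≤ K → ‖c‖ ≤ K → y = μ * x + c * q →
      ‖y‖ ^ 2 + ‖x‖ ^ 2 ≤ M * (y.im * x.re - y.re * x.im) + M' * ‖q‖ ^ 2 := by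
  refine ⟨2 * (2 * K ^ 2 + 1) / m, 2 * K ^ 2 + (2 * K ^ 2 + 1) * K ^ 2 / m ^ 2, by positivity,
    fun μ c q x y h1 h2 h3 h4 => ?_⟩
  have hx := norm_nonneg x
  have hq := norm_nonneg q
  have hK : 0 ≤ K := (norm_nonneg _).trans h2
  have h5 : ‖c * q‖ ≤ K * ‖q‖ := (norm_mul _ _).trans_le (by gcongr)
  have h6 : ‖y‖ ≤ K * ‖x‖ + K * ‖q‖ := by
    rw [h4]
    exact (norm_add_le _ _).trans (add_le_add ((norm_mul _ _).trans_le (by gcongr)) h5)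
  have h7 : ‖y‖ ^ 2 ≤ 2 * K ^ 2 * ‖x‖ ^ 2 + 2 * K ^ 2 * ‖q‖ ^ 2 :=
    (pow_le_pow_left₀ (norm_nonneg _) h6 2).trans (by nlinarith [sq_nonneg (K * ‖x‖ - K * ‖q‖)])
  have h8 : y.im * x.re - y.re * x.im = μ.im * ‖x‖ ^ 2 + ((starRingEnd ℂ) x * (c * q)).im := by
    rw [h4, Complex.sq_norm, Complex.normSq_apply]
    simp
    ring
  have h9 : -(‖x‖ * (K * ‖q‖)) ≤ ((starRingEnd ℂ) x * (c * q)).im := by
    refine (neg_le_neg ?_).trans (neg_le_of_abs_le (Complex.abs_im_le_norm _))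
    rw [norm_mul, Complex.norm_conj]
    gcongr
  have h10 : m * ‖x‖ ^ 2 - ‖x‖ * (K * ‖q‖) ≤ y.im * x.re - y.re * x.im := by
    have := mul_le_mul_of_nonneg_right h1 (sq_nonneg ‖x‖)
    linarith
  have h11 : ‖x‖ ^ 2 ≤ 2 / m * (m * ‖x‖ ^ 2 - ‖x‖ * (K * ‖q‖)) + K ^ 2 / m ^ 2 * ‖q‖ ^ 2 := by
    have e : 2 / m * (m * ‖x‖ ^ 2 - ‖x‖ * (K * ‖q‖)) + K ^ 2 / m ^ 2 * ‖q‖ ^ 2 =
        ‖x‖ ^ 2 + (‖x‖ - K / m * ‖q‖) ^ 2 := by
      field_simp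
      ring
    rw [e]
    linarith [sq_nonneg (‖x‖ - K / m * ‖q‖)]
  have h12 := mul_le_mul_of_nonneg_left
    (h11.trans (add_le_add_left (mul_le_mul_of_nonneg_left h10 (by positivity)) _))
    (show 0 ≤ 2 * K ^ 2 + 1 by positivity)
  refine le_trans (b := (2 * K ^ 2 + 1) * ‖x‖ ^ 2 + 2 * K ^ 2 * ‖q‖ ^ 2) (by linarith)
    ((add_le_add_left h12 _).trans_eq ?_)
  ring

theorem z_energy {A B : ℝ} (hAB : A < B) {q μ c : ℝ × ℝ → ℂ} (hq : ContDiff ℝ ∞ q)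
    (hμ : Continuous μ) (hc : Continuous c) (pq : Per2 q) (pμ : Per2 μ) (pc : Per2 c)
    (him : ∀ p : ℝ × ℝ, p.1 ∈ Icc A B → 0 < (μ p).im)
    (hb : ∀ p : ℝ × ℝ, p.1 ∈ Icc A B → pT q p = μ p * pS q p + c p * q p)
    (hA : ∀ θ, (q (A, θ)).im = 0) (hB : ∀ θ, (q (B, θ)).im = 0) :
    ∃ C : ℝ, ∀ δ : ℝ, 0 < δ → ∫ t in A..B, ∫ θ in (0 : ℝ)..(2 * π),
      (‖pT q (t, θ)‖ ^ 2 + ‖pS q (t, θ)‖ ^ 2) / (‖q (t, θ)‖ ^ 2 + δ) ≤ C := by
  obtain ⟨m, hm, h1⟩ := Per2.exists_pos_le (f := fun p => (μ p).im)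
    (fun t θ => congrArg Complex.im (pμ t θ)) (Complex.continuous_im.comp hμ) hAB.le him
  obtain ⟨K₁, -, h2⟩ := pμ.exists_bound hμ A B
  obtain ⟨K₂, -, h3⟩ := pc.exists_bound hc A B
  obtain ⟨M, M', hM, h4⟩ := z_alg (K := max K₁ K₂) hm
  refine ⟨(B - A) * (2 * π * M'), fun δ hδ => ?_⟩
  have su : ContDiff ℝ ∞ fun p => Complex.reCLM (q p) := Complex.reCLM.contDiff.comp hq
  have sv : ContDiff ℝ ∞ fun p => Complex.imCLM (q p) := Complex.imCLM.contDiff.comp hq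
  have h5 := z_jac su sv (fun t θ => by simp only [pq t θ]) (fun t θ => by simp only [pq t θ])
    hA hB hδ
  simp only [fun L p => (iza_clm hq L p).1, fun L p => (iza_clm hq L p).2] at h5
  simp only [Complex.reCLM_apply, Complex.imCLM_apply] at h5
  have e : ∀ p, (q p).re ^ 2 + (q p).im ^ 2 = ‖q p‖ ^ 2 := fun p => by
    rw [Complex.sq_norm, Complex.normSq_apply]
    ring
  simp only [e] at h5
  have c0 := hq.continuous
  have c1 := (sm_pT hq).continuous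
  have c2 := (sm_pS hq).continuous
  have h0 : ∀ p, ‖q p‖ ^ 2 + δ ≠ 0 := fun p => by positivity
  obtain ⟨J, hJ⟩ : ∃ J : ℝ × ℝ → ℝ, J = fun p => ((pT q p).im * (pS q p).re -
      (pS q p).im * (pT q p).re) / (‖q p‖ ^ 2 + δ) := ⟨_, rfl⟩
  obtain ⟨E, hE⟩ : ∃ E : ℝ × ℝ → ℝ, E = fun p =>
      (‖pT q p‖ ^ 2 + ‖pS q p‖ ^ 2) / (‖q p‖ ^ 2 + δ) := ⟨_, rfl⟩
  have cJ : Continuous J := hJ ▸ Continuous.div (by fun_prop) (by fun_prop) h0
  have cE : Continuous E := hE ▸ Continuous.div (by fun_prop) (by fun_prop) h0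
  have h6 : ∀ p : ℝ × ℝ, p.1 ∈ Icc A B → E p ≤ M * J p + M' := fun p hp => by
    have h7 := h4 _ _ _ _ _ (h1 p hp) ((h2 p hp).trans (le_max_left _ _))
      ((h3 p hp).trans (le_max_right _ _)) (hb p hp)
    have h8 : 0 < ‖q p‖ ^ 2 + δ := by positivity
    simp only [hE, hJ]
    rw [div_le_iff₀ h8, add_mul, mul_assoc, div_mul_cancel₀ _ h8.ne']
    nlinarith [mul_nonneg hM hδ.le]
  have h7 : ∫ t in A..B, ∫ θ in (0 : ℝ)..(2 * π), J (t, θ) = 0 := by simpa only [hJ] using h5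
  have cI : ∀ {f : ℝ × ℝ → ℝ}, Continuous f →
      Continuous fun t => ∫ θ in (0 : ℝ)..(2 * π), f (t, θ) := fun {f} hf =>
    intervalIntegral.continuous_parametric_intervalIntegral_of_continuous'
      (f := fun t θ => f (t, θ)) hf _ _
  have h8 : ∀ t ∈ Icc A B, ∫ θ in (0 : ℝ)..(2 * π), E (t, θ) ≤
      M * (∫ θ in (0 : ℝ)..(2 * π), J (t, θ)) + 2 * π * M' := fun t ht => by
    refine (intervalIntegral.integral_mono_on two_pi_pos.le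
      (Continuous.intervalIntegrable (by fun_prop) _ _)
      (Continuous.intervalIntegrable (by fun_prop) _ _) fun θ _ => h6 (t, θ) ht).trans_eq ?_
    rw [intervalIntegral.integral_add (Continuous.intervalIntegrable (by fun_prop) _ _)
      intervalIntegrable_const, intervalIntegral.integral_const_mul]
    simp
  have cJ' := cI cJ
  have h9 := intervalIntegral.integral_mono_on (μ := MeasureTheory.volume) hAB.le
    ((cI cE).intervalIntegrable _ _) (Continuous.intervalIntegrable (by fun_prop) _ _) h8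
  rw [intervalIntegral.integral_add (Continuous.intervalIntegrable (by fun_prop) _ _)
    intervalIntegrable_const, intervalIntegral.integral_const_mul, h7] at h9
  simpa only [hE, mul_zero, zero_add, intervalIntegral.integral_const, smul_eq_mul] using h9

end Pool.Agent.Lib.MP_14b623_gt
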