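import Pool.Agent.Lib.MP_14b623_gt.MDefs
import Pool.Agent.Lib.MP_14b623_gt.GBase
import Pool.Agent.Lib.MP_88c759_an.Mink.SExt

/-! Smooth extension over the boundary. -/

namespace Pool.Agent.Lib.MP_14b623_gt

open Set Real Filter Topology Function
open scoped ContDiff InnerProductSpace

/-- Extension to the left. -/
theorem ext_left {X : ℝ × ℝ → E3} (hX : ContDiffOn ℝ ∞ X (Icc 0 1 ×ˢ univ))
    (hp : ∀ t ∈ Icc (0 : ℝ) 1, ∀ θ, X (t, θ + 2 * π) = X (t, θ)) :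
    ∃ Y : ℝ × ℝ → E3, ContDiff ℝ ∞ Y ∧ Per2 Y ∧
      ∀ p : ℝ × ℝ, p.1 ∈ Icc (0 : ℝ) (1 / 2) → Y p = X p := by
  obtain ⟨a, b, hab⟩ := Mink.S.exists_coef
  obtain ⟨g, hg⟩ : ∃ g : ℝ × ℝ → E3, g = fun q => smoothTransition (3 - 4 * q.1) • X q := ⟨_, rfl⟩
  have h0 : ∀ q : ℝ × ℝ, 3 / 4 ≤ q.1 → g q = 0 := fun q hq => by
    simp only [hg]
    rw [smoothTransition.zero_of_nonpos (by linarith), zero_smul]
  have h1 : ContDiffOn ℝ ∞ g (Ici 0 ×ˢ univ) := fun q hq => by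
    rcases lt_or_ge q.1 1 with h | h
    · have h2 : ContDiffOn ℝ ∞ g (Icc 0 1 ×ˢ univ) := hg ▸ (smoothTransition.contDiff.comp
        (contDiff_const.sub (contDiff_const.mul contDiff_fst))).contDiffOn.smul hX
      refine (h2 q ⟨⟨hq.1, h.le⟩, trivial⟩).mono_of_mem_nhdsWithin ?_
      filter_upwards [self_mem_nhdsWithin, nhdsWithin_le_nhds
        (continuous_fst.continuousAt.eventually_lt continuousAt_const h)] with z h3 h4
      exact ⟨⟨h3.1, h4.le⟩, trivial⟩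
    · refine (contDiffAt_const.congr_of_eventuallyEq (f := fun _ => 0) ?_).contDiffWithinAt
      exact (continuousAt_const.eventually_lt continuous_fst.continuousAt
        (show (3 / 4 : ℝ) < q.1 by linarith)).mono fun z hz => h0 z hz.le
  have h2 : ∀ t, 0 ≤ t → ∀ θ, g (t, θ + 2 * π) = g (t, θ) := fun t ht θ => by
    rcases le_total t 1 with h | h
    · simp only [hg, hp t ⟨ht, h⟩]
    · rw [h0 _ (by simp only; linarith), h0 _ (by simp only; linarith)]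
  refine ⟨Mink.S.Ex a b 0 g, contDiff_iff_contDiffAt.2 fun q => ?_, fun t θ => ?_, fun q hq => ?_⟩
  · refine (Mink.S.Ex_contDiffOn hab (S := Icc (q.2 - 1) (q.2 + 1)) ⟨isCompact_Icc, convex_Icc _ _,
      by rw [interior_Icc]; exact nonempty_Ioo.2 (by linarith)⟩
      ⟨h1.mono (prod_mono_right (subset_univ _)), _, fun z _ hz => h0 z hz⟩).contDiffAt ?_
    exact prod_mem_nhds univ_mem (Icc_mem_nhds (by linarith) (by linarith))
  · simp only [Mink.S.Ex, Mink.S.T, Mink.S.rf_apply]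
    split_ifs with h
    · exact h2 t h θ
    · exact tsum_congr fun i => by rw [h2 _ (by nlinarith [hab.one i])]
  · rw [Mink.S.Ex_pos 0 hq.1, hg]
    simp only
    rw [smoothTransition.one_of_one_le (by linarith [hq.2]), one_smul]

theorem ext_strip {X : ℝ × ℝ → E3} (hX : ContDiffOn ℝ ∞ X (Icc 0 1 ×ˢ univ))
    (hp : ∀ t ∈ Icc (0 : ℝ) 1, ∀ θ, X (t, θ + 2 * π) = X (t, θ)) :
    ∃ Y : ℝ × ℝ → E3, ContDiff ℝ ∞ Y ∧ Per2 Y ∧ EqOn Y X (Icc 0 1 ×ˢ univ) := by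
  have hr : ContDiff ℝ ∞ fun q : ℝ × ℝ => (1 - q.1, q.2) :=
    (contDiff_const.sub contDiff_fst).prodMk contDiff_snd
  obtain ⟨Y₀, s0, p0, e0⟩ := ext_left hX hp
  obtain ⟨Y₁, s1, p1, e1⟩ := ext_left (X := fun q => X (1 - q.1, q.2))
    (hX.comp hr.contDiffOn fun q hq => ⟨⟨by linarith [hq.1.2], by linarith [hq.1.1]⟩, trivial⟩)
    fun t ht θ => hp _ ⟨by linarith [ht.2], by linarith [ht.1]⟩ θ
  have h1 : ∀ q : ℝ × ℝ, q.1 ∈ Icc (1 / 2 : ℝ) 1 → Y₁ (1 - q.1, q.2) = X q := fun q hq => by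
    rw [e1 _ ⟨by linarith [hq.2], by linarith [hq.1]⟩]
    simp
  have h2 : EqOn (fun q : ℝ × ℝ => if q.1 ≤ 1 / 2 then Y₀ q else Y₁ (1 - q.1, q.2)) X
      (Icc 0 1 ×ˢ univ) := fun q hq => by
    simp only
    split_ifs with h
    · exact e0 q ⟨hq.1.1, h⟩
    · exact h1 q ⟨(not_le.1 h).le, hq.1.2⟩
  refine ⟨_, contDiff_iff_contDiffAt.2 fun q => ?_, fun t θ => ?_, h2⟩
  · rcases lt_trichotomy q.1 (1 / 2) with h | h | h
    · exact s0.contDiffAt.congr_of_eventuallyEq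
        ((continuous_fst.continuousAt.eventually_lt continuousAt_const h).mono
          fun z hz => if_pos hz.le)
    · exact (hX.congr h2).contDiffAt
        (prod_mem_nhds (Icc_mem_nhds (by linarith) (by linarith)) univ_mem)
    · exact (s1.comp hr).contDiffAt.congr_of_eventuallyEq
        ((continuousAt_const.eventually_lt continuous_fst.continuousAt h).mono
          fun z hz => if_neg (not_le.2 hz))
  · simp only [p0 t θ, p1 (1 - t) θ]

theorem ext_disc {X : E2 → E3} (hX : ContDiffOn ℝ ∞ X (Metric.closedBall 0 1)) :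
    ∃ Y : E2 → E3, ContDiff ℝ ∞ Y ∧ EqOn Y X (Metric.closedBall 0 1) := by
  obtain ⟨F, h1, h2⟩ := Mink.S.ext_ball (S := (univ : Set ℝ)) isClosed_univ convex_univ (by simp)
    (f := fun q : E2 × ℝ => X q.1) (hX.comp contDiff_fst.contDiffOn fun q hq => hq.1)
  rw [univ_prod_univ, contDiffOn_univ] at h1
  exact ⟨fun x => F (x, 0), h1.comp (contDiff_id.prodMk contDiff_const),
    fun x hx => h2 ⟨hx, trivial⟩⟩

/-- The identification of `ℝ × ℝ` with the Euclidean plane. -/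
noncomputable def toE2 : ℝ × ℝ →L[ℝ] E2 :=
  (ContinuousLinearMap.fst ℝ ℝ ℝ).smulRight (ev 0) + (ContinuousLinearMap.snd ℝ ℝ ℝ).smulRight (ev 1)

@[simp] theorem toE2_zero (p : ℝ × ℝ) : toE2 p 0 = p.1 := by simp [toE2]

@[simp] theorem toE2_one (p : ℝ × ℝ) : toE2 p 1 = p.2 := by simp [toE2]

theorem toE2_norm_sq (p : ℝ × ℝ) : ‖toE2 p‖ ^ 2 = p.1 ^ 2 + p.2 ^ 2 := by
  rw [EuclideanSpace.real_norm_sq_eq, Fin.sum_univ_two, toE2_zero, toE2_one]

theorem toE2_inj : Injective toE2 := fun p q h =>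
  Prod.ext (by rw [← toE2_zero, h, toE2_zero]) (by rw [← toE2_one, h, toE2_one])

theorem toE2_coord (y : E2) : toE2 (y 0, y 1) = y := by
  ext i
  fin_cases i <;> simp

end Pool.Agent.Lib.MP_14b623_gt
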