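import Pool.Agent.Lib.MP_14b623_gt.GArea
import Pool.Agent.Lib.MP_14b623_gt.MExt

/-! The area of an injective parametrisation is at most the area of the surface. -/

namespace Pool.Agent.Lib.MP_14b623_gt

open Set Real MeasureTheory Filter Topology Function
open scoped InnerProductSpace Manifold ContDiff

variable {M : Type} [TopologicalSpace M] [ChartedSpace (EuclideanHalfSpace 2) M]
  [IsManifold (𝓡∂ 2) ∞ M] [MeasurableSpace M] [BorelSpace M] [T2Space M] {φ : M → E3}

/-- One chart. Sketch: `F '' A` is measurable (`MeasurableSet.image_of_continuousOn_injOn`), its area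
is `chartArea φ q (F '' A)` (`areaMeasure_restrict`), `chartArea_apply`; `τ = ch q ∘ F` is
differentiable at the points of `A` and injective on `A`;
`lintegral_image_eq_lintegral_abs_det_fderiv_mul`; `φ ∘ F = inChart φ q ∘ τ` near each point of `A`,
`τ` maps into `HP`, chain rule `HasFDerivWithinAt.comp_hasFDerivAt` (or `.comp_of_tendsto`) with
`rel_hasFDeriv`, then `jac_comp`, `ENNReal.ofReal_mul`. -/
theorem lint_chart (h : IsFBMS φ) {U A : Set E2} (hU : IsOpen U) {F : E2 → M}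
    (hF : ContMDiffOn 𝓘(ℝ, E2) (𝓡∂ 2) ∞ F U) (hi : InjOn F U) (hA : MeasurableSet A) (hAU : A ⊆ U)
    {q : M} (hq : MapsTo F A (ch q).source) :
    ∫⁻ y in A, ENNReal.ofReal (jac (fderiv ℝ (φ ∘ F) y (ev 0)) (fderiv ℝ (φ ∘ F) y (ev 1))) =
      areaMeasure φ (F '' A) := by
  have hm : MeasurableSet (F '' A) :=
    hA.image_of_continuousOn_injOn (hF.continuousOn.mono hAU) (hi.mono hAU)
  have hs : F '' A ⊆ (ch q).source := hq.image_subset
  have hc : ∀ y ∈ A, ContMDiffAt 𝓘(ℝ, E2) (𝓡∂ 2) ∞ F y := fun y hy =>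
    hF.contMDiffAt (hU.mem_nhds (hAU hy))
  have hd : ∀ y ∈ A, HasFDerivAt (ch q ∘ F) (fderiv ℝ (ch q ∘ F) y) y := fun y hy =>
    ((contMDiffAt_iff_contDiffAt.1 ((contMDiffAt_extChartAt' (I := 𝓡∂ 2) (n := ∞)
      (by simpa using hq hy)).comp y (hc y hy))).differentiableAt (by simp)).hasFDerivAt
  rw [← Measure.restrict_eq_self _ hs, areaMeasure_restrict h q, chartArea_apply φ q hm,
    inter_eq_left.2 hs, ← image_comp, lintegral_image_eq_lintegral_abs_det_fderiv_mul volume hA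
      (fun y hy => (hd y hy).hasFDerivWithinAt)
      fun y hy y' hy' e => hi (hAU hy) (hAU hy') ((ch q).injOn (hq hy) (hq hy') e)]
  refine setLIntegral_congr_fun hA fun y hy => ?_
  have h1 : φ ∘ F =ᶠ[𝓝 y] inChart φ q ∘ (ch q ∘ F) :=
    ((hc y hy).continuousAt.eventually_mem (extChartAt_source_mem_nhds' (hq hy))).mono
      fun z hz => congrArg φ ((ch q).left_inv hz).symm
  have h2 := (rel_hasFDeriv (ch_nhds q) (h.patch q).smooth one_le_two
    ((ch q).map_source (hq hy))).comp_hasFDerivAt y (hd y hy)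
    (Eventually.of_forall fun z => gchart_mem q (F z))
  beta_reduce
  rw [h1.fderiv_eq, h2.fderiv, ← ENNReal.ofReal_mul (abs_nonneg _), areaEl_eq, pd_eq, pd_eq,
    ← jac_comp]
  rfl

/-- Sketch: finitely (or countably) many chart sources cover `M`; enumerate them by `q : ℕ → M`
(`M` may be assumed nonempty, else `U` is empty), `A n = disjointed (fun n => U ∩ F ⁻¹' source (q n)) n`;
`lintegral_iUnion`, `lint_chart`, `measure_iUnion` for the disjoint measurable sets `F '' A n`. -/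
theorem lint_le [CompactSpace M] (h : IsFBMS φ) {U : Set E2} (hU : IsOpen U) {F : E2 → M}
    (hF : ContMDiffOn 𝓘(ℝ, E2) (𝓡∂ 2) ∞ F U) (hi : InjOn F U) :
    ∫⁻ y in U, ENNReal.ofReal (jac (fderiv ℝ (φ ∘ F) y (ev 0)) (fderiv ℝ (φ ∘ F) y (ev 1))) ≤
      areaMeasure φ univ := by
  rcases U.eq_empty_or_nonempty with rfl | ⟨y0, -⟩
  · simp
  obtain ⟨t, ht⟩ := isCompact_univ.elim_finite_subcover (fun p : M => (ch p).source)
    (fun p => isOpen_extChartAt_source p) fun x _ => mem_iUnion.2 ⟨x, mem_extChartAt_source x⟩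
  obtain ⟨q, hq⟩ := (t.countable_toSet.insert (F y0)).exists_eq_range (insert_nonempty _ _)
  have hm : ∀ n, MeasurableSet (U ∩ F ⁻¹' (ch (q n)).source) := fun n =>
    (hF.continuousOn.isOpen_inter_preimage hU (isOpen_extChartAt_source _)).measurableSet
  set A := disjointed fun n => U ∩ F ⁻¹' (ch (q n)).source with hA
  have h1 : ∀ n, A n ⊆ U ∩ F ⁻¹' (ch (q n)).source := fun n => disjointed_subset _ n
  have h2 : ∀ n, MeasurableSet (A n) := MeasurableSet.disjointed hm
  have h3 : ∀ n, A n ⊆ U := fun n => (h1 n).trans inter_subset_left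
  have h4 : U = ⋃ n, A n := by
    rw [hA, iUnion_disjointed]
    refine Subset.antisymm (fun y hy => ?_) (iUnion_subset fun n => inter_subset_left)
    obtain ⟨p, hp, hy'⟩ := mem_iUnion₂.1 (ht (mem_univ (F y)))
    obtain ⟨n, rfl⟩ : p ∈ range q := hq ▸ mem_insert_of_mem _ hp
    exact mem_iUnion.2 ⟨n, hy, hy'⟩
  have h5 : Pairwise (Disjoint on A) := disjoint_disjointed _
  conv_lhs => rw [h4]
  rw [lintegral_iUnion h2 h5, tsum_congr fun n => lint_chart h hU hF hi (h2 n) (h3 n)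
    (q := q n) fun y hy => (h1 n hy).2, ← measure_iUnion (fun i j hij => (disjoint_image_image
      fun a ha b hb e => (h5 hij).ne_of_mem ha hb (hi (h3 i ha) (h3 j hb) e)))
    fun n => (h2 n).image_of_continuousOn_injOn (hF.continuousOn.mono (h3 n)) (hi.mono (h3 n))]
  exact measure_mono (subset_univ _)

omit [IsManifold (𝓡∂ 2) ∞ M] [MeasurableSpace M] [BorelSpace M] [T2Space M] in
/-- Sketch: the iterated integral is the integral over `Ioo 0 1 ×ˢ Ioo 0 (2 π)`
(`intervalIntegral.integral_of_le`, `integral_Ioc_eq_integral_Ioo`, `setIntegral_prod`,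
`ofReal_integral_eq_lintegral_ofReal`); the map `y ↦ (y 0, y 1)` is measure preserving
(`volume_preserving_finTwoArrow`, `PiLp.volume_preserving_ofLp`, as in `GGreen`),
`MeasurePreserving.setLIntegral_comp_preimage`. -/
theorem ofReal_iter {j : ℝ × ℝ → ℝ} (hj : Continuous j) (h0 : ∀ p, 0 ≤ j p) :
    ENNReal.ofReal (∫ t in (0 : ℝ)..1, ∫ θ in (0 : ℝ)..(2 * π), j (t, θ)) =
      ∫⁻ y in {y : E2 | y 0 ∈ Ioo (0 : ℝ) 1 ∧ y 1 ∈ Ioo 0 (2 * π)}, ENNReal.ofReal (j (y 0, y 1)) := by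
  have hi : IntegrableOn j (Ioo (0 : ℝ) 1 ×ˢ Ioo 0 (2 * π)) (volume.prod volume) :=
    (hj.continuousOn.integrableOn_compact (isCompact_Icc.prod isCompact_Icc)).mono_set
      (prod_mono Ioo_subset_Icc_self Ioo_subset_Icc_self)
  have hp : MeasurePreserving (fun y : E2 => (y 0, y 1)) volume (volume.prod volume) :=
    (volume_preserving_finTwoArrow ℝ).comp (PiLp.volume_preserving_ofLp (Fin 2))
  simp only [intervalIntegral.integral_of_le zero_le_one,
    intervalIntegral.integral_of_le two_pi_pos.le, integral_Ioc_eq_integral_Ioo]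
  rw [← setIntegral_prod j hi, ofReal_integral_eq_lintegral_ofReal hi (Eventually.of_forall h0),
    ← hp.setLIntegral_comp_preimage (measurableSet_Ioo.prod measurableSet_Ioo)
      hj.measurable.ennreal_ofReal]
  rfl

/-- Sketch: `lint_le` for `F' y = F (y 0, y 1)`; near a point of the open rectangle
`φ ∘ F' = X ∘ (y ↦ (y 0, y 1))`, whose derivatives along `ev 0`, `ev 1` are `dT X`, `dS X`;
`ofReal_iter`, `areaMeasure_finite`, `ENNReal.ofReal_le_iff_le_toReal`. -/
theorem area_le [CompactSpace M] (h : IsFBMS φ) {F : ℝ × ℝ → M}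
    (hF : ContMDiffOn 𝓘(ℝ, ℝ × ℝ) (𝓡∂ 2) ∞ F (Ioo 0 1 ×ˢ Ioo 0 (2 * π)))
    (hi : InjOn F (Ioo 0 1 ×ˢ Ioo 0 (2 * π))) {X : ℝ × ℝ → E3} (hX : ContDiff ℝ ∞ X)
    (he : EqOn X (φ ∘ F) (Ioo 0 1 ×ˢ Ioo 0 (2 * π))) : area 0 1 X ≤ surfaceArea φ := by
  let L : E2 →L[ℝ] ℝ × ℝ :=
    (EuclideanSpace.proj (𝕜 := ℝ) (0 : Fin 2)).prod (EuclideanSpace.proj (𝕜 := ℝ) (1 : Fin 2))
  have hL : ∀ y, L y = (y 0, y 1) := fun y => rfl
  have hU : IsOpen (L ⁻¹' (Ioo 0 1 ×ˢ Ioo 0 (2 * π))) :=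
    (isOpen_Ioo.prod isOpen_Ioo).preimage L.continuous
  have h1 := lint_le h hU (F := F ∘ L) (hF.comp L.contMDiff.contMDiffOn fun y hy => hy)
    fun y hy y' hy' e => by rw [← toE2_coord y, ← toE2_coord y', ← hL, ← hL, hi hy hy' e]
  have c1 : Continuous (dT X) := (sm_pT hX).continuous
  have c2 : Continuous (dS X) := (sm_pS hX).continuous
  have h2 := ofReal_iter (j := fun p => √(gE X p * gG X p - gF X p ^ 2))
    (((c1.inner c1).mul (c2.inner c2)).sub ((c1.inner c2).pow 2)).sqrt fun p => Real.sqrt_nonneg _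
  have := areaMeasure_finite h
  refine (ENNReal.ofReal_le_iff_le_toReal (measure_ne_top _ _)).1 (h2.trans_le (le_of_eq_of_le
    (setLIntegral_congr_fun hU.measurableSet fun y hy => ?_) h1))
  have h3 : φ ∘ F ∘ L =ᶠ[𝓝 y] X ∘ L :=
    Filter.eventually_of_mem (hU.mem_nhds hy) fun z hz => (he hz).symm
  have h4 : L (ev 0) = (1, 0) := by rw [hL]; simp
  have h5 : L (ev 1) = (0, 1) := by rw [hL]; simp
  beta_reduce
  rw [h3.fderiv_eq, ((sm_diff hX _).hasFDerivAt.comp y L.hasFDerivAt).fderiv,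
    ContinuousLinearMap.comp_apply, ContinuousLinearMap.comp_apply, h4, h5]
  rfl

end Pool.Agent.Lib.MP_14b623_gt
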