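import Pool.Agent.Lib.MP_14b623_gt.ZDefs
import Pool.Agent.Lib.MP_14b623_gt.GChart

/-! The boundary of a surface of genus zero. -/

namespace Pool.Agent.Lib.MP_14b623_gt

open Set Filter Topology Function
open scoped InnerProductSpace Manifold ContDiff

variable {M : Type} [TopologicalSpace M] [ChartedSpace (EuclideanHalfSpace 2) M]

/-- The data of `IsGenusZero`. -/
structure GZ {k : ℕ} (c : Fin k → E2) (r : Fin k → ℝ) (ι : M → E2) (κ : E2 → M) : Prop where
  pos : ∀ j, 0 < r j ∧ ‖c j‖ + r j < 1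
  far : ∀ i j, i ≠ j → r i + r j < dist (c i) (c j)
  sι : ContMDiff (𝓡∂ 2) 𝓘(ℝ, E2) ∞ ι
  sκ : ContMDiffOn 𝓘(ℝ, E2) (𝓡∂ 2) ∞ κ (holedDisc c r)
  mem : ∀ x, ι x ∈ holedDisc c r
  left : ∀ x, κ (ι x) = x
  right : ∀ z ∈ holedDisc c r, ι (κ z) = z

theorem IsGenusZero.gz (h : IsGenusZero M) :
    ∃ (k : ℕ) (c : Fin k → E2) (r : Fin k → ℝ) (ι : M → E2) (κ : E2 → M), GZ c r ι κ := by
  obtain ⟨k, c, r, ι, κ, h1, h2, h3, h4, h5, h6, h7⟩ := h
  exact ⟨k, c, r, ι, κ, h1, h2, h3, h4, h5, h6, h7⟩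

theorem mem_holedDisc {k : ℕ} {c : Fin k → E2} {r : Fin k → ℝ} {z : E2} :
    z ∈ holedDisc c r ↔ ‖z‖ ≤ 1 ∧ ∀ j, r j ≤ dist z (c j) := by
  simp [holedDisc]

theorem mbd_surj (A B : E2 →L[ℝ] E2) (h : ∀ v, B (A v) = v) : Surjective A :=
  (LinearMap.injective_iff_surjective (f := A.toLinearMap)).1 (LeftInverse.injective h)

namespace GZ

variable [IsManifold (𝓡∂ 2) ∞ M] {k : ℕ} {c : Fin k → E2} {r : Fin k → ℝ} {ι : M → E2}
  {κ : E2 → M} (G : GZ c r ι κ)
include G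

theorem surj_ι (x : M) : Surjective (mfderiv (𝓡∂ 2) 𝓘(ℝ, E2) ι x) := by
  have h1 := ((G.sκ _ (G.mem x)).mdifferentiableWithinAt (by simp)).hasMFDerivWithinAt
  have h2 := (G.sι.mdifferentiableAt (x := x) (by simp)).hasMFDerivAt
  have h3 := h1.comp x (h2.hasMFDerivWithinAt (s := univ)) fun y _ => G.mem y
  rw [hasMFDerivWithinAt_univ, show κ ∘ ι = id from funext G.left] at h3
  exact mbd_surj _ _ fun v => DFunLike.congr_fun (hasMFDerivAt_unique h3 (hasMFDerivAt_id x)) v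

theorem bdry_of_min {g : E2 → ℝ} {L : E2 →L[ℝ] ℝ} {x : M} (hg : HasFDerivAt g L (ι x))
    (hL : L ≠ 0) (hm : ∀ x', g (ι x) ≤ g (ι x')) : x ∈ (𝓡∂ 2).boundary M := by
  refine ((𝓡∂ 2).isBoundaryPoint_iff_not_isInteriorPoint x).2 fun hx => hL ?_
  have h1 : HasFDerivAt (ι ∘ (ch x).symm) (mfderiv (𝓡∂ 2) 𝓘(ℝ, E2) ι x) (ch x x) :=
    (G.sι.mdifferentiableAt (x := x) (by simp)).hasMFDerivAt.2.hasFDerivAt
      (mem_interior_iff_mem_nhds.1 hx)
  have h2 : (ι ∘ (ch x).symm) (ch x x) = ι x := congrArg ι (extChartAt_to_inv x)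
  have h3 := IsLocalMin.hasFDerivAt_eq_zero (f := g ∘ ι ∘ (ch x).symm)
    (.of_forall fun z => (congrArg g h2).trans_le (hm _)) ((h2 ▸ hg :).comp _ h1)
  refine ContinuousLinearMap.ext fun v => ?_
  obtain ⟨u, rfl⟩ := G.surj_ι x v
  exact DFunLike.congr_fun h3 u

theorem bdry_of_outer {x : M} (hx : ‖ι x‖ = 1) : x ∈ (𝓡∂ 2).boundary M := by
  refine G.bdry_of_min (hasFDerivAt_id (ι x)).norm_sq.neg (fun h => ?_) fun y => ?_
  · simpa [hx] using DFunLike.congr_fun h (ι x)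
  · have h := (mem_holedDisc.1 (G.mem y)).1
    simp only [Pi.neg_apply, id, hx]
    nlinarith [norm_nonneg (ι y)]

theorem bdry_of_inner {x : M} {j : Fin k} (hx : dist (ι x) (c j) = r j) :
    x ∈ (𝓡∂ 2).boundary M := by
  rw [dist_eq_norm] at hx
  refine G.bdry_of_min ((hasFDerivAt_id (ι x)).sub_const (c j)).norm_sq (fun h => ?_) fun y => ?_
  · have h1 := DFunLike.congr_fun h (ι x - c j)
    simp only [id, ContinuousLinearMap.comp_id, two_smul, add_apply,
      innerSL_apply_apply, real_inner_self_eq_norm_sq, hx, zero_apply] at h1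
    nlinarith [(G.pos j).1]
  · have h := (mem_holedDisc.1 (G.mem y)).2 j
    rw [dist_eq_norm] at h
    simp only [id, hx]
    exact pow_le_pow_left₀ (G.pos j).1.le h 2

theorem circle_of_bdry {x : M} (hx : x ∈ (𝓡∂ 2).boundary M) :
    ‖ι x‖ = 1 ∨ ∃ j, dist (ι x) (c j) = r j := by
  by_contra! h
  obtain ⟨h1, h2⟩ := mem_holedDisc.1 (G.mem x)
  have h3 : holedDisc c r ∈ 𝓝 (ι x) := by
    filter_upwards [continuous_norm.continuousAt.eventually_lt_const (h1.lt_of_ne h.1),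
      eventually_all.2 fun j => (continuous_id.dist continuous_const).continuousAt.eventually_const_lt
        ((h2 j).lt_of_ne' (h.2 j))] with z h4 h5
    exact mem_holedDisc.2 ⟨h4.le, fun j => (h5 j).le⟩
  have h4 := (G.sκ.contMDiffAt h3).mdifferentiableAt (by simp)
  have h5 := ((G.sι.mdifferentiableAt (x := κ (ι x)) (by simp)).hasMFDerivAt.comp _
    h4.hasMFDerivAt).congr_of_eventuallyEq (f₁ := id)
    (mem_of_superset h3 fun z hz => (G.right z hz).symm)
  have h6 := h4.isInteriorPoint_of_surjective_mfderiv (mbd_surj _ _ fun v =>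
    DFunLike.congr_fun (hasMFDerivAt_unique h5 (hasMFDerivAt_id _)) v)
    BoundarylessManifold.isInteriorPoint
  rw [G.left] at h6
  exact ((𝓡∂ 2).isBoundaryPoint_iff_not_isInteriorPoint x).1 hx h6

theorem three (hk : 2 ≤ k) : 3 ≤ ENat.card (ConnectedComponents ((𝓡∂ 2).boundary M)) := by
  have out : ∀ j, ∀ z : E2, dist z (c j) = r j → ‖z‖ < 1 := fun j z h => by
    linarith [norm_le_norm_add_norm_sub' z (c j), dist_eq_norm z (c j), (G.pos j).2]
  have inn : ∀ i j, i ≠ j → ∀ z : E2, dist z (c j) = r j → r i < dist z (c i) :=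
    fun i j h z hz => by linarith [G.far i j h, dist_triangle_left (c i) (c j) z]
  have hι : Continuous fun x : (𝓡∂ 2).boundary M => ι x :=
    G.sι.continuous.comp continuous_subtype_val
  have cl : ∀ j, IsClopen {x : (𝓡∂ 2).boundary M | dist (ι x) (c j) = r j} := fun j => by
    refine ⟨isClosed_eq (hι.dist continuous_const) continuous_const, ?_⟩
    have h : IsOpen ({x : (𝓡∂ 2).boundary M | ‖ι x‖ < 1} ∩
        ⋂ i ∈ {i | i ≠ j}, {x | r i < dist (ι x) (c i)}) :=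
      (isOpen_lt hι.norm continuous_const).inter ((toFinite _).isOpen_biInter fun i _ =>
        isOpen_lt continuous_const (hι.dist continuous_const))
    convert h using 1
    refine Set.ext fun x => ⟨fun hx => ⟨out j _ hx, mem_iInter₂.2 fun i hi => inn i j hi _ hx⟩,
      fun hx => ?_⟩
    obtain h1 | ⟨i, h1⟩ := G.circle_of_bdry x.2
    · exact absurd h1 (ne_of_lt hx.1)
    · by_cases h2 : i = j
      · exact h2 ▸ h1
      · exact absurd h1 (ne_of_gt (mem_iInter₂.1 hx.2 i h2))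
  have n0 : ‖ev 0‖ = 1 := by simp [ev]
  have ex : ∀ j, ∃ x : (𝓡∂ 2).boundary M, dist (ι x) (c j) = r j := fun j => by
    have h1 : dist (c j + r j • ev 0) (c j) = r j := by
      simp [norm_smul, n0, abs_of_pos (G.pos j).1]
    have h2 := G.right _ (mem_holedDisc.2 ⟨(out j _ h1).le, fun i => by
      by_cases h : i = j
      exacts [h ▸ h1.ge, (inn i j h _ h1).le]⟩)
    exact ⟨⟨_, G.bdry_of_inner (h2 ▸ h1 :)⟩, (h2 ▸ h1 :)⟩
  obtain ⟨a, ha⟩ : ∃ x : (𝓡∂ 2).boundary M, ‖ι x‖ = 1 := by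
    have h2 := G.right _ (mem_holedDisc.2 ⟨n0.le, fun i => by
      linarith [norm_le_norm_add_norm_sub' (ev 0) (c i), dist_eq_norm (ev 0) (c i), (G.pos i).2]⟩)
    exact ⟨⟨_, G.bdry_of_outer (h2 ▸ n0 :)⟩, (h2 ▸ n0 :)⟩
  choose b hb using ex
  have key : ∀ j, ∀ x : (𝓡∂ 2).boundary M, ConnectedComponents.mk x = .mk (b j) →
      dist (ι x) (c j) = r j := fun j x h =>
    (cl j).connectedComponent_subset (hb j) (ConnectedComponents.coe_eq_coe'.1 h)
  have h1 : ∀ j, ConnectedComponents.mk a ≠ .mk (b j) := fun j h => (out j _ (key j _ h)).ne ha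
  have h2 : Injective fun j => ConnectedComponents.mk (b j) := fun i j h =>
    by_contra fun h3 => (inn i j h3 _ (key j _ h)).ne' (hb i)
  refine le_trans ?_ (ENat.card_le_card_of_injective (Option.injective_iff.2 ⟨h2, ?_⟩ :
    Injective fun o : Option (Fin k) => ConnectedComponents.mk (o.elim a b)))
  · rw [ENat.card_eq_coe_fintype_card, Fintype.card_option, Fintype.card_fin]
    exact_mod_cast Nat.succ_le_succ hk
  · rintro ⟨j, h⟩
    exact h1 j h.symm

end GZ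

end Pool.Agent.Lib.MP_14b623_gt
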