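import Pool.Agent.Lib.MP_14b623_gt.MExt

/-! A parametrisation of the region between two nested circles. -/

namespace Pool.Agent.Lib.MP_14b623_gt

open Set Real Filter Topology Function
open scoped ContDiff InnerProductSpace

/-- The circles with centre `(1 - t) c` and radius `(1 - t) r + t`. -/
noncomputable def ringP (c : E2) (r : ℝ) (p : ℝ × ℝ) : E2 :=
  (1 - p.1) • c + ((1 - p.1) * r + p.1) • toE2 (cos p.2, sin p.2)

variable {c : E2} {r : ℝ}

theorem norm_circ (θ : ℝ) : ‖toE2 (cos θ, sin θ)‖ = 1 := by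
  rw [← pow_eq_one_iff_of_nonneg (norm_nonneg _) two_ne_zero, toE2_norm_sq, cos_sq_add_sin_sq]

theorem ringP_smooth (c : E2) (r : ℝ) : ContDiff ℝ ∞ (ringP c r) := by
  unfold ringP
  fun_prop

theorem ringP_per (c : E2) (r : ℝ) : Per2 (ringP c r) := by
  intro t θ
  simp only [ringP, cos_add_two_pi, sin_add_two_pi]

theorem mring_pos (h0 : 0 < r) {t : ℝ} (ht : t ∈ Icc (0 : ℝ) 1) : 0 < (1 - t) * r + t := by
  rcases ht.1.eq_or_lt with e | e
  · simpa [← e] using h0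
  · exact add_pos_of_nonneg_of_pos (mul_nonneg (sub_nonneg.2 ht.2) h0.le) e

theorem mring_norm (h0 : 0 < r) {t : ℝ} (ht : t ∈ Icc (0 : ℝ) 1) (θ : ℝ) :
    ‖((1 - t) * r + t) • toE2 (cos θ, sin θ)‖ = (1 - t) * r + t := by
  rw [norm_smul, norm_circ, mul_one, Real.norm_of_nonneg (mring_pos h0 ht).le]

theorem ringP_norm_le (h0 : 0 < r) (h1 : ‖c‖ + r < 1) {p : ℝ × ℝ} (hp : p.1 ∈ Icc (0 : ℝ) 1) :
    ‖ringP c r p‖ ≤ 1 := by
  refine (norm_add_le _ _).trans ?_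
  rw [mring_norm h0 hp, norm_smul, Real.norm_of_nonneg (sub_nonneg.2 hp.2)]
  nlinarith [hp.2]

/-- Sketch: `ringP - c = ρ • e - t • c`, of norm at least `ρ - t ‖c‖ = r + t (1 - r - ‖c‖)`. -/
theorem ringP_dist_ge (h0 : 0 < r) (h1 : ‖c‖ + r < 1) {p : ℝ × ℝ} (hp : p.1 ∈ Icc (0 : ℝ) 1) :
    r ≤ dist (ringP c r p) c := by
  have e : ringP c r p - c = ((1 - p.1) * r + p.1) • toE2 (cos p.2, sin p.2) - p.1 • c := by
    rw [ringP]
    module
  have h2 := norm_sub_norm_le (((1 - p.1) * r + p.1) • toE2 (cos p.2, sin p.2)) (p.1 • c)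
  rw [mring_norm h0 hp, norm_smul, Real.norm_of_nonneg hp.1] at h2
  rw [dist_eq_norm, e]
  nlinarith [hp.1]

theorem ringP_left (h0 : 0 < r) {p : ℝ × ℝ} (hp : p.1 = 0) : dist (ringP c r p) c = r := by
  simp [ringP, hp, norm_smul, norm_circ, h0.le]

theorem ringP_right {p : ℝ × ℝ} (hp : p.1 = 1) : ‖ringP c r p‖ = 1 := by
  simp [ringP, hp, norm_circ]

/-- Sketch: `pT = -c + (1 - r) • e`, `pS = ρ • toE2 (-sin θ, cos θ)` (`pT_of_hasDerivAt`,
`pS_of_hasDerivAt`, `fderiv_eq_pT_pS`); if `v.1 • pT + v.2 • pS = 0`, the product with `e` gives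
`v.1 (1 - r - ⟪c, e⟫) = 0`, so `v.1 = 0`, then `v.2 = 0`. -/
theorem ringP_inj_fderiv (h0 : 0 < r) (h1 : ‖c‖ + r < 1) {p : ℝ × ℝ}
    (hp : p.1 ∈ Icc (0 : ℝ) 1) : Injective (fderiv ℝ (ringP c r) p) := by
  obtain ⟨t, θ⟩ := p
  have hd := sm_diff (ringP_smooth c r) (t, θ)
  have h2 : pT (ringP c r) (t, θ) = (-1 : ℝ) • c + (-1 * r + 1) • toE2 (cos θ, sin θ) :=
    pT_of_hasDerivAt hd ((((hasDerivAt_id t).const_sub 1).smul_const c).add
      (((((hasDerivAt_id t).const_sub 1).mul_const r).add (hasDerivAt_id t)).smul_const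
        (toE2 (cos θ, sin θ))))
  have h3 : pS (ringP c r) (t, θ) = ((1 - t) * r + t) • toE2 (-sin θ, cos θ) :=
    pS_of_hasDerivAt hd (((toE2.hasFDerivAt.comp_hasDerivAt θ
      ((hasDerivAt_cos θ).prodMk (hasDerivAt_sin θ))).const_smul ((1 - t) * r + t)).const_add
        ((1 - t) • c))
  refine (injective_iff_map_eq_zero _).2 fun v hv => ?_
  rw [fderiv_eq_pT_pS, h2, h3] at hv
  have a0 := congrArg (fun y : E2 => y 0) hv
  have a1 := congrArg (fun y : E2 => y 1) hv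
  simp only [PiLp.add_apply, PiLp.smul_apply, toE2_zero, toE2_one, smul_eq_mul,
    PiLp.zero_apply] at a0 a1
  have h4 := real_inner_le_norm c (toE2 (cos θ, sin θ))
  rw [norm_circ, mul_one] at h4
  simp only [PiLp.inner_apply, Fin.sum_univ_two, toE2_zero, toE2_one, RCLike.inner_apply,
    conj_trivial] at h4
  have h5 := cos_sq_add_sin_sq θ
  have h6 : v.1 = 0 := (mul_eq_zero.1 (show v.1 * (1 - r - (cos θ * c 0 + sin θ * c 1)) = 0 by
    linear_combination cos θ * a0 + sin θ * a1 - v.1 * (1 - r) * h5)).resolve_right (by linarith)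
  rw [h6] at a0 a1
  refine Prod.ext h6 ((mul_eq_zero.1 (show v.2 * ((1 - t) * r + t) = 0 by
    linear_combination cos θ * a1 - sin θ * a0 - v.2 * ((1 - t) * r + t) * h5)).resolve_right
      (mring_pos h0 hp).ne')

theorem mring_ne (h0 : 0 < r) (h1 : ‖c‖ + r < 1) {p q : ℝ × ℝ} (hp : p.1 ∈ Icc (0 : ℝ) 1)
    (hq : q.1 ∈ Icc (0 : ℝ) 1) (h : p.1 < q.1) : ringP c r p ≠ ringP c r q := fun e => by
  have e1 : ((1 - q.1) * r + q.1) • toE2 (cos q.2, sin q.2) =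
      (q.1 - p.1) • c + ((1 - p.1) * r + p.1) • toE2 (cos p.2, sin p.2) := by
    rw [ringP, ringP] at e
    linear_combination (norm := module) -e
  have h2 := norm_add_le ((q.1 - p.1) • c) (((1 - p.1) * r + p.1) • toE2 (cos p.2, sin p.2))
  rw [← e1, mring_norm h0 hp, mring_norm h0 hq, norm_smul,
    Real.norm_of_nonneg (sub_pos.2 h).le] at h2
  nlinarith

/-- Sketch: if `t < t'` then `ρ' • e' = (t' - t) • c + ρ • e` gives `ρ' ≤ (t' - t) ‖c‖ + ρ`, but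
`ρ' - ρ = (t' - t) (1 - r)`. So `t = t'`, `cos θ = cos θ'`, `sin θ = sin θ'`, and `θ - θ'` is a multiple
of `2 π` (`Real.cos_eq_one_iff_of_lt_of_lt` for `θ - θ'`). -/
theorem ringP_injOn (h0 : 0 < r) (h1 : ‖c‖ + r < 1) :
    InjOn (ringP c r) (Ioo 0 1 ×ˢ Ioo 0 (2 * π)) := by
  rintro ⟨t, θ⟩ ⟨h2, h3⟩ ⟨t', θ'⟩ ⟨h4, h5⟩ e
  have h6 := Ioo_subset_Icc_self h2
  have h7 := Ioo_subset_Icc_self h4
  obtain rfl : t = t' := le_antisymm (not_lt.1 fun h => mring_ne h0 h1 h7 h6 h e.symm)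
    (not_lt.1 fun h => mring_ne h0 h1 h6 h7 h e)
  have h8 := toE2_inj (smul_right_injective _ (mring_pos h0 h6).ne' (add_left_cancel e))
  have h9 : cos (θ - θ') = 1 := by
    rw [cos_sub, ← show cos θ = cos θ' from congrArg Prod.fst h8,
      ← show sin θ = sin θ' from congrArg Prod.snd h8]
    linear_combination cos_sq_add_sin_sq θ
  rw [Real.cos_eq_one_iff_of_lt_of_lt (by linarith [h3.1, h5.2]) (by linarith [h3.2, h5.1]),
    sub_eq_zero] at h9
  rw [h9]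

end Pool.Agent.Lib.MP_14b623_gt
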