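import Pool.Agent.Lib.MP_14b623_gt.CvxBasic

namespace Pool.Agent.Lib.MP_14b623_gt

open Set Real Function
open scoped ComplexConjugate InnerProductSpace

/-- The density in the Laplacian of `log (|X - y|² + ε²) / 2`. -/
noncomputable def Ann0.bump (S : Ann0) (y : V) (ε t θ : ℝ) : ℝ :=
  2 * ε ^ 2 * S.u t θ ^ 2 / (dot (S.X t θ - y) (S.X t θ - y) + ε ^ 2) ^ 2

lemma tbre2_dot_nonneg (v : V) : 0 ≤ dot v v := by
  simp only [dot]
  nlinarith [mul_self_nonneg (v 0), mul_self_nonneg (v 1), mul_self_nonneg (v 2)]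

lemma tbre2_inner {K a δ : ℝ} (c : ℝ) (hK : 0 < K) (ha : 0 < a) (hδ : 0 ≤ δ) :
    2 * arctan (K * δ / a) / (K * a ^ 3) ≤
      ∫ x in (c - δ)..(c + δ), 2 / (K ^ 2 * (x - c) ^ 2 + a ^ 2) ^ 2 := by
  have hpos : ∀ x : ℝ, 0 < K ^ 2 * (x - c) ^ 2 + a ^ 2 := fun x => by positivity
  have hd : ∀ x : ℝ, HasDerivAt
      (fun x => (x - c) / (a ^ 2 * (K ^ 2 * (x - c) ^ 2 + a ^ 2)) +
        arctan (K * (x - c) / a) / (K * a ^ 3))
      (2 / (K ^ 2 * (x - c) ^ 2 + a ^ 2) ^ 2) x := by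
    intro x
    have h1 : HasDerivAt (fun x : ℝ => x - c) 1 x := (hasDerivAt_id x).sub_const c
    have h2 : HasDerivAt (fun x : ℝ => a ^ 2 * (K ^ 2 * (x - c) ^ 2 + a ^ 2))
        (a ^ 2 * (K ^ 2 * (2 * (x - c)))) x := by
      have := (((h1.fun_pow 2).const_mul (K ^ 2)).add_const (a ^ 2)).const_mul (a ^ 2)
      exact this.congr_deriv (by simp)
    have h3 := h1.fun_div h2 (mul_pos (pow_pos ha 2) (hpos x)).ne'
    have h4 := (((h1.const_mul K).div_const a).arctan).div_const (K * a ^ 3)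
    refine (h3.fun_add h4).congr_deriv ?_
    have := (hpos x).ne'
    have h5 : a ^ 2 + K ^ 2 * (x - c) ^ 2 ≠ 0 := by rw [add_comm]; exact this
    field_simp
    ring
  rw [intervalIntegral.integral_eq_sub_of_hasDerivAt (fun x _ => hd x)
    (Continuous.intervalIntegrable (by
      refine continuous_const.div (by fun_prop) fun x => (pow_pos (hpos x) 2).ne') _ _)]
  have e1 : c + δ - c = δ := by ring
  have e2 : c - δ - c = -δ := by ring
  simp only [e1, e2, mul_neg, neg_div, arctan_neg, even_two, Even.neg_pow]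
  have : 0 ≤ δ / (a ^ 2 * (K ^ 2 * δ ^ 2 + a ^ 2)) := by positivity
  have e3 : 2 * arctan (K * δ / a) / (K * a ^ 3) =
      arctan (K * δ / a) / (K * a ^ 3) + arctan (K * δ / a) / (K * a ^ 3) := by ring
  linarith

lemma tbre2_outer {K ε : ℝ} (d B : ℝ) (hε : 0 < ε) :
    ∫ t in (B - d)..B, ε ^ 2 / √(K ^ 2 * (t - B) ^ 2 + ε ^ 2) ^ 3 =
      d / √(K ^ 2 * d ^ 2 + ε ^ 2) := by
  have hpos : ∀ x : ℝ, 0 < K ^ 2 * (x - B) ^ 2 + ε ^ 2 := fun x => by positivity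
  have hd : ∀ x : ℝ, HasDerivAt (fun x => (x - B) / √(K ^ 2 * (x - B) ^ 2 + ε ^ 2))
      (ε ^ 2 / √(K ^ 2 * (x - B) ^ 2 + ε ^ 2) ^ 3) x := by
    intro x
    have h1 : HasDerivAt (fun x : ℝ => x - B) 1 x := (hasDerivAt_id x).sub_const B
    have h2 : HasDerivAt (fun x : ℝ => K ^ 2 * (x - B) ^ 2 + ε ^ 2)
        (K ^ 2 * (2 * (x - B))) x := by
      have := ((h1.fun_pow 2).const_mul (K ^ 2)).add_const (ε ^ 2)
      exact this.congr_deriv (by simp)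
    have hs : 0 < √(K ^ 2 * (x - B) ^ 2 + ε ^ 2) := sqrt_pos.2 (hpos x)
    have h3 := h1.fun_div (h2.sqrt (hpos x).ne') hs.ne'
    refine h3.congr_deriv ?_
    have hq := sq_sqrt (hpos x).le
    set r := √(K ^ 2 * (x - B) ^ 2 + ε ^ 2)
    have : ε ^ 2 = r ^ 2 - K ^ 2 * (x - B) ^ 2 := by linarith
    rw [this]
    field_simp
  rw [intervalIntegral.integral_eq_sub_of_hasDerivAt (fun x _ => hd x)
    (Continuous.intervalIntegrable (by
      refine continuous_const.div (by fun_prop)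
        fun x => (pow_pos (sqrt_pos.2 (hpos x)) 3).ne') _ _)]
  have e2 : B - d - B = -d := by ring
  simp only [e2, sub_self, zero_div, neg_div, even_two, Even.neg_pow]
  ring

lemma tbre2_model {f : ℝ → ℝ → ℝ} (hf : Continuous (uncurry f)) (h0 : ∀ t θ, 0 ≤ f t θ)
    {K L ε δ d B c : ℝ} (hK : 0 < K) (hL : 0 ≤ L) (hε : 0 < ε) (hd : 0 < d) (hdδ : d ≤ δ)
    (hlow : ∀ t ∈ Icc (B - δ) B, ∀ θ ∈ Icc (c - δ) (c + δ),
      2 * ε ^ 2 * L / (K ^ 2 * ((t - B) ^ 2 + (θ - c) ^ 2) + ε ^ 2) ^ 2 ≤ f t θ) :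
    2 * arctan (K * δ / √(K ^ 2 * d ^ 2 + ε ^ 2)) * L / K * (d / √(K ^ 2 * d ^ 2 + ε ^ 2)) ≤
      ∫ t in (B - δ)..B, ∫ θ in (c - δ)..(c + δ), f t θ := by
  have hδ : 0 ≤ δ := by linarith
  have hF : Continuous fun t => ∫ θ in (c - δ)..(c + δ), f t θ :=
    intervalIntegral.continuous_parametric_intervalIntegral_of_continuous' hf _ _
  have hF0 : ∀ t, 0 ≤ ∫ θ in (c - δ)..(c + δ), f t θ := fun t =>
    intervalIntegral.integral_nonneg (by linarith) fun θ _ => h0 t θ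
  have hpos : ∀ x : ℝ, 0 < K ^ 2 * (x - B) ^ 2 + ε ^ 2 := fun x => by positivity
  refine le_trans ?_ (intervalIntegral.integral_mono_interval (a := B - d) (b := B)
    (by linarith) (by linarith) le_rfl (Filter.Eventually.of_forall hF0)
    (hF.intervalIntegrable _ _))
  rw [← tbre2_outer d B hε, ← intervalIntegral.integral_const_mul]
  refine intervalIntegral.integral_mono_on (by linarith)
    (Continuous.intervalIntegrable (continuous_const.mul (by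
      refine continuous_const.div (by fun_prop)
        fun x => (pow_pos (sqrt_pos.2 (hpos x)) 3).ne')) _ _) (hF.intervalIntegrable _ _) ?_
  intro t ht
  have hs : 0 < √(K ^ 2 * (t - B) ^ 2 + ε ^ 2) := sqrt_pos.2 (hpos t)
  have hq := sq_sqrt (hpos t).le
  have hle : √(K ^ 2 * (t - B) ^ 2 + ε ^ 2) ≤ √(K ^ 2 * d ^ 2 + ε ^ 2) := by
    refine sqrt_le_sqrt ?_
    have : (t - B) ^ 2 ≤ d ^ 2 := sq_le_sq' (by linarith [ht.1]) (by linarith [ht.2])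
    nlinarith [sq_nonneg K]
  set a := √(K ^ 2 * (t - B) ^ 2 + ε ^ 2)
  have h1 := tbre2_inner c hK hs hδ
  have h2 : arctan (K * δ / √(K ^ 2 * d ^ 2 + ε ^ 2)) ≤ arctan (K * δ / a) :=
    arctan_strictMono.monotone (div_le_div_of_nonneg_left (by positivity) hs hle)
  have hpos2 : ∀ x : ℝ, 0 < K ^ 2 * (x - c) ^ 2 + a ^ 2 := fun x => by positivity
  calc 2 * arctan (K * δ / √(K ^ 2 * d ^ 2 + ε ^ 2)) * L / K * (ε ^ 2 / a ^ 3)
      = ε ^ 2 * L * (2 * arctan (K * δ / √(K ^ 2 * d ^ 2 + ε ^ 2)) / (K * a ^ 3)) := by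
        field_simp
    _ ≤ ε ^ 2 * L * (2 * arctan (K * δ / a) / (K * a ^ 3)) := by gcongr
    _ ≤ ε ^ 2 * L * ∫ x in (c - δ)..(c + δ), 2 / (K ^ 2 * (x - c) ^ 2 + a ^ 2) ^ 2 := by gcongr
    _ ≤ ∫ θ in (c - δ)..(c + δ), f t θ := by
        rw [← intervalIntegral.integral_const_mul]
        refine intervalIntegral.integral_mono_on (by linarith)
          (Continuous.intervalIntegrable (continuous_const.mul (by
            refine continuous_const.div (by fun_prop) fun x => (pow_pos (hpos2 x) 2).ne')) _ _)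
          ((hf.uncurry_left t).intervalIntegrable _ _) fun θ hθ => ?_
        refine le_trans (le_of_eq ?_) (hlow t ⟨by linarith [ht.1], ht.2⟩ θ hθ)
        rw [hq]
        ring

/-- Local comparison of the surface with its tangent plane. -/
lemma tbre2_near (S : Ann0) (c κ : ℝ) (hκ : 0 < κ) :
    ∃ δ > 0, ∀ t ∈ Icc (S.B - δ) S.B, ∀ θ ∈ Icc (c - δ) (c + δ), S.A ≤ t →
      S.u S.B c ^ 2 - κ ≤ S.u t θ ^ 2 ∧
      dot (S.X t θ - S.X S.B c) (S.X t θ - S.X S.B c) ≤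
        (S.u S.B c ^ 2 + 2 * κ) * ((t - S.B) ^ 2 + (θ - c) ^ 2) := by
  have cu : Continuous fun p : ℝ × ℝ => S.u p.1 p.2 ^ 2 := S.cu.pow 2
  have cm : Continuous fun q : (ℝ × ℝ) × ℝ => dot (S.Xt q.1.1 q.1.2) (S.Xs S.B q.2) :=
    continuous_dot (S.cXt.comp continuous_fst) ((S.cXs.uncurry_left _).comp continuous_snd)
  obtain ⟨δ₁, hδ₁, h1⟩ := Metric.continuousAt_iff.1 (cu.continuousAt (x := (S.B, c))) κ hκ
  obtain ⟨δ₂, hδ₂, h2⟩ := Metric.continuousAt_iff.1 (cm.continuousAt (x := ((S.B, c), c))) κ hκ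
  have hm1 : min δ₁ δ₂ / 2 < δ₁ := by linarith [min_le_left δ₁ δ₂, lt_min hδ₁ hδ₂]
  have hm2 : min δ₁ δ₂ / 2 < δ₂ := by linarith [min_le_right δ₁ δ₂, lt_min hδ₁ hδ₂]
  have hm0 : 0 < min δ₁ δ₂ / 2 := by linarith [lt_min hδ₁ hδ₂]
  refine ⟨min δ₁ δ₂ / 2, hm0, ?_⟩
  generalize min δ₁ δ₂ / 2 = δ at hm0 hm1 hm2
  have k1 : ∀ t θ, |t - S.B| ≤ δ → |θ - c| ≤ δ → |S.u t θ ^ 2 - S.u S.B c ^ 2| < κ := by
    intro t θ ht hθ
    have := h1 (x := (t, θ)) (by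
      rw [Prod.dist_eq, Real.dist_eq, Real.dist_eq]
      exact max_lt (by linarith) (by linarith))
    rwa [Real.dist_eq] at this
  have k2 : ∀ t θ ζ, |t - S.B| ≤ δ → |θ - c| ≤ δ → |ζ - c| ≤ δ →
      |dot (S.Xt t θ) (S.Xs S.B ζ)| < κ := by
    intro t θ ζ ht hθ hζ
    have := h2 (x := ((t, θ), ζ)) (by
      rw [Prod.dist_eq, Prod.dist_eq, Real.dist_eq, Real.dist_eq, Real.dist_eq]
      exact max_lt (max_lt (by linarith) (by linarith)) (by linarith))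
    rwa [Real.dist_eq, S.eTS _ S.memB, sub_zero] at this
  intro t ht θ hθ hA
  have ht' : |t - S.B| ≤ δ := abs_le.2 ⟨by linarith [ht.1], by linarith [ht.2]⟩
  have hθ' : |θ - c| ≤ δ := abs_le.2 ⟨by linarith [hθ.1], by linarith [hθ.2]⟩
  refine ⟨by linarith [(abs_lt.1 (k1 t θ ht' hθ')).1], ?_⟩
  set v := S.X t θ - S.X S.B c with hv
  have mv : ∀ (g g' : ℝ → V) (p q : ℝ), (∀ x, HasDerivAt g (g' x) x) →
      ∃ ξ ∈ uIcc p q, dot v (g q) - dot v (g p) = (q - p) * dot v (g' ξ) := by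
    intro g g' p q hg
    have hd : ∀ x, HasDerivAt (fun x => dot v (g x)) (dot v (g' x)) x := fun x =>
      (hasDerivAt_dot (hasDerivAt_const x v) (hg x)).congr_deriv (by simp [dot])
    rcases lt_trichotomy p q with h | h | h
    · obtain ⟨ξ, hξ, e⟩ := exists_hasDerivAt_eq_slope (fun x => dot v (g x)) _ h
        (fun x _ => (hd x).continuousAt.continuousWithinAt) fun x _ => hd x
      refine ⟨ξ, by rw [uIcc_of_le h.le]; exact Ioo_subset_Icc_self hξ, ?_⟩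
      rw [e, mul_div_cancel₀ _ (sub_ne_zero.2 h.ne')]
    · exact ⟨p, left_mem_uIcc, by rw [h]; ring⟩
    · obtain ⟨ξ, hξ, e⟩ := exists_hasDerivAt_eq_slope (fun x => dot v (g x)) _ h
        (fun x _ => (hd x).continuousAt.continuousWithinAt) fun x _ => hd x
      refine ⟨ξ, by rw [uIcc_of_ge h.le]; exact Ioo_subset_Icc_self hξ, ?_⟩
      rw [e]
      have := sub_ne_zero.2 h.ne'
      field_simp
      ring
  obtain ⟨ξ, hξ, e1⟩ := mv (fun x => S.X x θ) (fun x => S.Xt x θ) S.B t fun x => S.dXt x θ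
  obtain ⟨ζ, hζ, e2⟩ := mv (S.X S.B) (S.Xs S.B) c θ fun x => S.dXs S.B x
  have hξ' : |ξ - S.B| ≤ δ := (abs_sub_left_of_mem_uIcc hξ).trans ht'
  have hζ' : |ζ - c| ≤ δ := (abs_sub_left_of_mem_uIcc hζ).trans hθ'
  rw [uIcc_of_ge ht.2] at hξ
  have a1 := S.eT ξ ⟨hA.trans hξ.1, hξ.2⟩ θ
  have a2 := S.eS S.B S.memB ζ
  have a3 := abs_lt.1 (k1 ξ θ hξ' hθ')
  have a4 := abs_lt.1 (k1 S.B ζ (by simpa using hm0.le) hζ')
  have a5 := abs_lt.1 (k2 ξ θ ζ hξ' hθ' hζ')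
  have e3 : dot v v = dot v (S.X t θ) - dot v (S.X S.B c) := by
    simp only [hv, dot, Pi.sub_apply]; ring
  set P := S.Xt ξ θ
  set Q := S.Xs S.B ζ
  set s := t - S.B
  set x := θ - c
  have e4 := tbre2_dot_nonneg (v - (s • P + x • Q))
  have e5 : dot (v - (s • P + x • Q)) (v - (s • P + x • Q)) =
      dot v v - 2 * (s * dot v P + x * dot v Q) +
        (s ^ 2 * dot P P + x ^ 2 * dot Q Q + 2 * s * x * dot P Q) := by
    simp only [dot, Pi.sub_apply, Pi.add_apply, Pi.smul_apply, smul_eq_mul]; ring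
  have b1 : s ^ 2 * dot P P ≤ s ^ 2 * (S.u S.B c ^ 2 + κ) :=
    mul_le_mul_of_nonneg_left (by linarith) (sq_nonneg _)
  have b2 : x ^ 2 * dot Q Q ≤ x ^ 2 * (S.u S.B c ^ 2 + κ) :=
    mul_le_mul_of_nonneg_left (by linarith) (sq_nonneg _)
  have b3 : 2 * s * x * dot P Q ≤ κ * (s ^ 2 + x ^ 2) := by
    nlinarith [mul_nonneg (sq_nonneg (s - x)) (show 0 ≤ κ + dot P Q by linarith),
      mul_nonneg (sq_nonneg (s + x)) (show 0 ≤ κ - dot P Q by linarith)]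
  nlinarith

theorem Ann0.bump_local (S : Ann0) (θ₀ η δ₀ : ℝ) (hη : 0 < η) (hδ₀ : 0 < δ₀) :
    ∃ δ, 0 < δ ∧ δ ≤ δ₀ ∧ δ ≤ S.B - S.A ∧ ∃ ε₀ > 0, ∀ ε, 0 < ε → ε ≤ ε₀ →
      π - η ≤ ∫ t in (S.B - δ)..S.B, ∫ θ in (θ₀ - δ)..(θ₀ + δ), S.bump (S.X S.B θ₀) ε t θ := by
  have hU : 0 < S.u S.B θ₀ ^ 2 := pow_pos (S.upos _ S.memB _) 2
  obtain ⟨κ, hκ, hκU, hκη⟩ : ∃ κ, 0 < κ ∧ κ ≤ S.u S.B θ₀ ^ 2 ∧
      π - η < π * ((S.u S.B θ₀ ^ 2 - κ) / (S.u S.B θ₀ ^ 2 + 2 * κ)) := by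
    generalize S.u S.B θ₀ ^ 2 = U at hU
    have hc : ContinuousAt (fun κ : ℝ => π * ((U - κ) / (U + 2 * κ))) 0 :=
      continuousAt_const.mul (ContinuousAt.div (by fun_prop) (by fun_prop) (by simpa using hU.ne'))
    have h1 : ∀ᶠ κ in nhds (0 : ℝ), π - η < π * ((U - κ) / (U + 2 * κ)) :=
      hc.eventually (lt_mem_nhds (by simp [div_self hU.ne', hη]))
    have h2 : ∀ᶠ κ in nhds (0 : ℝ), κ < U := gt_mem_nhds hU
    obtain ⟨κ, h3, h4⟩ := (((h1.and h2).filter_mono nhdsWithin_le_nhds).and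
      (self_mem_nhdsWithin (s := Ioi (0 : ℝ)))).exists
    exact ⟨κ, h4, h3.2.le, h3.1⟩
  obtain ⟨δ₁, hδ₁, hn⟩ := tbre2_near S θ₀ κ hκ
  have hAB := S.hAB
  obtain ⟨δ, hδ, d0, d1, d2⟩ : ∃ δ, 0 < δ ∧ δ ≤ δ₀ ∧ δ ≤ S.B - S.A ∧ δ ≤ δ₁ :=
    ⟨min δ₀ (min (S.B - S.A) δ₁), lt_min hδ₀ (lt_min (by linarith) hδ₁), min_le_left _ _,
      (min_le_right _ _).trans (min_le_left _ _), (min_le_right _ _).trans (min_le_right _ _)⟩
  refine ⟨δ, hδ, d0, d1, ?_⟩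
  set L := S.u S.B θ₀ ^ 2 - κ with hLdef
  have hL : 0 ≤ L := by linarith
  have hQ : 0 < S.u S.B θ₀ ^ 2 + 2 * κ := by linarith
  have hK := sqrt_pos.2 hQ
  have hK2 := sq_sqrt hQ.le
  set K := √(S.u S.B θ₀ ^ 2 + 2 * κ)
  rw [← hK2] at hn hκη
  obtain ⟨T, hT, hT1⟩ : ∃ T : ℝ, π - η < 2 * arctan T * (L / K ^ 2) ∧ 1 ≤ T := by
    have h1 : Filter.Tendsto (fun T : ℝ => 2 * arctan T * (L / K ^ 2)) Filter.atTop
        (nhds (2 * (π / 2) * (L / K ^ 2))) :=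
      ((tendsto_nhds_of_tendsto_nhdsWithin tendsto_arctan_atTop).const_mul 2).mul_const _
    have h2 := h1.eventually (lt_mem_nhds (show π - η < 2 * (π / 2) * (L / K ^ 2) by linarith))
    exact (h2.and (Filter.eventually_ge_atTop 1)).exists
  have hd : 0 < δ / T := by positivity
  have hdδ : δ / T ≤ δ := div_le_self hδ.le hT1
  have hTd : T = δ / (δ / T) := by field_simp
  generalize δ / T = d at hd hdδ hTd
  have hc : Continuous fun ε : ℝ =>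
      2 * arctan (K * δ / √(K ^ 2 * d ^ 2 + ε ^ 2)) * L / K * (d / √(K ^ 2 * d ^ 2 + ε ^ 2)) := by
    have h0 : ∀ ε : ℝ, √(K ^ 2 * d ^ 2 + ε ^ 2) ≠ 0 := fun ε => (sqrt_pos.2 (by positivity)).ne'
    have h1 : Continuous fun ε : ℝ => √(K ^ 2 * d ^ 2 + ε ^ 2) := by fun_prop
    exact (((continuous_const.mul (continuous_arctan.comp (continuous_const.div h1 h0))).mul
      continuous_const).div_const _).mul (continuous_const.div h1 h0)
  have hval : 2 * arctan (K * δ / √(K ^ 2 * d ^ 2 + 0 ^ 2)) * L / K *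
      (d / √(K ^ 2 * d ^ 2 + 0 ^ 2)) = 2 * arctan T * (L / K ^ 2) := by
    have : √(K ^ 2 * d ^ 2 + 0 ^ 2) = K * d := by
      rw [show K ^ 2 * d ^ 2 + 0 ^ 2 = (K * d) ^ 2 by ring, sqrt_sq (by positivity)]
    rw [this, mul_div_mul_left _ _ hK.ne', ← hTd]
    field_simp
  obtain ⟨r, hr, hball⟩ := Metric.eventually_nhds_iff.1
    ((hc.continuousAt (x := 0)).eventually (lt_mem_nhds (hval ▸ hT)))
  refine ⟨r / 2, by positivity, fun ε hε hεr => ?_⟩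
  have h1 := hball (y := ε) (by rw [Real.dist_eq, sub_zero, abs_of_pos hε]; linarith)
  refine h1.le.trans (tbre2_model (f := S.bump (S.X S.B θ₀) ε) ?_ ?_ hK hL hε hd hdδ ?_)
  · have cX : Continuous fun p : ℝ × ℝ => S.X p.1 p.2 - S.X S.B θ₀ := S.cX.sub continuous_const
    refine (continuous_const.mul (S.cu.pow 2)).div
      (((continuous_dot cX cX).add continuous_const).pow 2) fun p => ?_
    have := tbre2_dot_nonneg (S.X p.1 p.2 - S.X S.B θ₀)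
    positivity
  · intro t θ
    unfold Ann0.bump
    positivity
  · intro t ht θ hθ
    obtain ⟨h2, h3⟩ := hn t ⟨by linarith [ht.1], ht.2⟩ θ
      ⟨by linarith [hθ.1], by linarith [hθ.2]⟩ (by linarith [ht.1])
    have := tbre2_dot_nonneg (S.X t θ - S.X S.B θ₀)
    unfold Ann0.bump
    gcongr

end Pool.Agent.Lib.MP_14b623_gt
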