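import Pool.Agent.Lib.MP_14b623_gt.TDiv
import Pool.Agent.Lib.MP_14b623_gt.TBre2

namespace Pool.Agent.Lib.MP_14b623_gt

open Set Real Function
open scoped ComplexConjugate InnerProductSpace

lemma tbre1_dot_nonneg (v : V) : 0 ≤ dot v v := by
  simp only [dot]; nlinarith [sq_nonneg (v 0), sq_nonneg (v 1), sq_nonneg (v 2)]

lemma tbre1_bessel {a b v : V} {u : ℝ} (hu : 0 < u) (ha : dot a a = u ^ 2) (hb : dot b b = u ^ 2)
    (hab : dot a b = 0) : dot a v ^ 2 + dot b v ^ 2 ≤ u ^ 2 * dot v v := by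
  have h := det3_mul_det3 a b v a b v
  rw [ha, hb, hab, dot_comm b a, hab, dot_comm v a, dot_comm v b] at h
  have h0 : 0 ≤ det3 a b v * det3 a b v := mul_self_nonneg _
  have h1 : 0 ≤ u ^ 2 * (u ^ 2 * dot v v - (dot a v ^ 2 + dot b v ^ 2)) := by
    rw [h] at h0; nlinarith
  have h2 := (mul_nonneg_iff_of_pos_left (pow_pos hu 2)).1 h1
  linarith

lemma tbre1_deriv {X X1 : ℝ → V} {X2 : V} {x : ℝ} (y : V) {ε : ℝ} (hε : 0 < ε)
    (h1 : HasDerivAt X (X1 x) x) (h2 : HasDerivAt X1 X2 x) :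
    HasDerivAt (fun s => dot (X1 s) (X s - y) / (dot (X s - y) (X s - y) + ε ^ 2))
      ((dot X2 (X x - y) + dot (X1 x) (X1 x)) / (dot (X x - y) (X x - y) + ε ^ 2)
        - 2 * dot (X1 x) (X x - y) ^ 2 / (dot (X x - y) (X x - y) + ε ^ 2) ^ 2) x := by
  have hv : HasDerivAt (fun s => X s - y) (X1 x) x := h1.sub_const y
  have hn := hasDerivAt_dot h2 hv
  have hd := (hasDerivAt_dot hv hv).add_const (ε ^ 2)
  have hρ : dot (X x - y) (X x - y) + ε ^ 2 ≠ 0 :=
    (add_pos_of_nonneg_of_pos (tbre1_dot_nonneg _) (pow_pos hε 2)).ne'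
  refine (hn.fun_div hd hρ).congr_deriv ?_
  rw [dot_comm (X x - y) (X1 x)]
  field_simp
  ring

lemma tbre1_cont {f : ℝ → ℝ → ℝ} (hf : Continuous (uncurry f)) (c d : ℝ) :
    Continuous fun t => ∫ θ in c..d, f t θ :=
  intervalIntegral.continuous_parametric_intervalIntegral_of_continuous' hf c d

lemma tbre1_mono {f : ℝ → ℝ → ℝ} (hf : Continuous (uncurry f)) (h0 : ∀ t θ, 0 ≤ f t θ)
    {a a' b' b c c' d' d : ℝ} (h1 : a ≤ a') (h2 : a' ≤ b') (h3 : b' ≤ b) (h4 : c ≤ c')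
    (h5 : c' ≤ d') (h6 : d' ≤ d) :
    ∫ t in a'..b', ∫ θ in c'..d', f t θ ≤ ∫ t in a..b, ∫ θ in c..d, f t θ := by
  calc ∫ t in a'..b', ∫ θ in c'..d', f t θ ≤ ∫ t in a'..b', ∫ θ in c..d, f t θ := by
        refine intervalIntegral.integral_mono_on h2 ((tbre1_cont hf _ _).intervalIntegrable _ _)
          ((tbre1_cont hf _ _).intervalIntegrable _ _) fun t _ => ?_
        exact intervalIntegral.integral_mono_interval h4 h5 h6
          (Filter.Eventually.of_forall fun θ => h0 t θ)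
          ((hf.uncurry_left t).intervalIntegrable _ _)
    _ ≤ _ := by
        refine intervalIntegral.integral_mono_interval h1 h2 h3
          (Filter.Eventually.of_forall fun t => ?_) ((tbre1_cont hf _ _).intervalIntegrable _ _)
        exact intervalIntegral.integral_nonneg (by linarith) fun θ _ => h0 t θ

lemma tbre1_bump_cont (S : Ann0) (y : V) {ε : ℝ} (hε : 0 < ε) :
    Continuous (uncurry (S.bump y ε)) := by
  have hX : Continuous fun p : ℝ × ℝ => S.X p.1 p.2 := S.cX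
  have hu : Continuous fun p : ℝ × ℝ => S.u p.1 p.2 := S.cu
  change Continuous fun p : ℝ × ℝ => 2 * ε ^ 2 * S.u p.1 p.2 ^ 2 /
    (dot (S.X p.1 p.2 - y) (S.X p.1 p.2 - y) + ε ^ 2) ^ 2
  refine Continuous.div (by fun_prop) (by fun_prop) fun p => ?_
  exact (pow_pos (add_pos_of_nonneg_of_pos (tbre1_dot_nonneg _) (pow_pos hε 2)) 2).ne'

lemma tbre1_bump_nonneg (S : Ann0) (y : V) (ε t θ : ℝ) : 0 ≤ S.bump y ε t θ := by
  unfold Ann0.bump; positivity

lemma tbre1_bdry {x y : V} {u ε : ℝ} (hx : dot x x = 1) (hy : dot y y = 1) (hu : 0 < u)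
    (hε : 0 < ε) : dot (u • x) (x - y) / (dot (x - y) (x - y) + ε ^ 2) ≤ u / 2 := by
  have hρ : 0 < dot (x - y) (x - y) + ε ^ 2 :=
    add_pos_of_nonneg_of_pos (tbre1_dot_nonneg _) (pow_pos hε 2)
  have e : dot (u • x) (x - y) = u / 2 * dot (x - y) (x - y) := by
    simp only [dot, Pi.smul_apply, Pi.sub_apply, smul_eq_mul] at hx hy ⊢
    linear_combination (u / 2) * hx - (u / 2) * hy
  rw [div_le_iff₀ hρ, e]
  have : 0 ≤ u / 2 * ε ^ 2 := by positivity
  nlinarith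

theorem Ann0.bump_upper (S : Ann0) (y : V) (hy : dot y y = 1) (ε : ℝ) (hε : 0 < ε) :
    ∫ t in S.A..S.B, ∫ θ in (0 : ℝ)..(2 * π), S.bump y ε t θ ≤
      π * (S.curveA.len + S.curveB.len) := by
  have hX : Continuous fun p : ℝ × ℝ => S.X p.1 p.2 := S.cX
  have hXt : Continuous fun p : ℝ × ℝ => S.Xt p.1 p.2 := S.cXt
  have hXs : Continuous fun p : ℝ × ℝ => S.Xs p.1 p.2 := S.cXs
  have hXtt : Continuous fun p : ℝ × ℝ => S.Xtt p.1 p.2 := S.cXtt
  have hXss : Continuous fun p : ℝ × ℝ => S.Xss p.1 p.2 := S.cXss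
  have hρ : ∀ t θ, 0 < dot (S.X t θ - y) (S.X t θ - y) + ε ^ 2 := fun t θ =>
    add_pos_of_nonneg_of_pos (tbre1_dot_nonneg _) (pow_pos hε 2)
  set ft : ℝ → ℝ → ℝ := fun t θ =>
    dot (S.Xt t θ) (S.X t θ - y) / (dot (S.X t θ - y) (S.X t θ - y) + ε ^ 2) with hft
  set fs : ℝ → ℝ → ℝ := fun t θ =>
    dot (S.Xs t θ) (S.X t θ - y) / (dot (S.X t θ - y) (S.X t θ - y) + ε ^ 2) with hfs
  set ftt : ℝ → ℝ → ℝ := fun t θ =>
    (dot (S.Xtt t θ) (S.X t θ - y) + dot (S.Xt t θ) (S.Xt t θ)) /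
        (dot (S.X t θ - y) (S.X t θ - y) + ε ^ 2)
      - 2 * dot (S.Xt t θ) (S.X t θ - y) ^ 2 / (dot (S.X t θ - y) (S.X t θ - y) + ε ^ 2) ^ 2
    with hftt
  set fss : ℝ → ℝ → ℝ := fun t θ =>
    (dot (S.Xss t θ) (S.X t θ - y) + dot (S.Xs t θ) (S.Xs t θ)) /
        (dot (S.X t θ - y) (S.X t θ - y) + ε ^ 2)
      - 2 * dot (S.Xs t θ) (S.X t θ - y) ^ 2 / (dot (S.X t θ - y) (S.X t θ - y) + ε ^ 2) ^ 2
    with hfss
  have cft : Continuous (uncurry ft) := by
    change Continuous fun p : ℝ × ℝ => dot (S.Xt p.1 p.2) (S.X p.1 p.2 - y) /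
      (dot (S.X p.1 p.2 - y) (S.X p.1 p.2 - y) + ε ^ 2)
    exact Continuous.div (by fun_prop) (by fun_prop) fun p => (hρ _ _).ne'
  have cftt : Continuous (uncurry ftt) := by
    change Continuous fun p : ℝ × ℝ =>
      (dot (S.Xtt p.1 p.2) (S.X p.1 p.2 - y) + dot (S.Xt p.1 p.2) (S.Xt p.1 p.2)) /
        (dot (S.X p.1 p.2 - y) (S.X p.1 p.2 - y) + ε ^ 2)
      - 2 * dot (S.Xt p.1 p.2) (S.X p.1 p.2 - y) ^ 2 /
        (dot (S.X p.1 p.2 - y) (S.X p.1 p.2 - y) + ε ^ 2) ^ 2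
    exact (Continuous.div (by fun_prop) (by fun_prop) fun p => (hρ _ _).ne').sub
      (Continuous.div (by fun_prop) (by fun_prop) fun p => (pow_pos (hρ _ _) 2).ne')
  have cfss : Continuous (uncurry fss) := by
    change Continuous fun p : ℝ × ℝ =>
      (dot (S.Xss p.1 p.2) (S.X p.1 p.2 - y) + dot (S.Xs p.1 p.2) (S.Xs p.1 p.2)) /
        (dot (S.X p.1 p.2 - y) (S.X p.1 p.2 - y) + ε ^ 2)
      - 2 * dot (S.Xs p.1 p.2) (S.X p.1 p.2 - y) ^ 2 /
        (dot (S.X p.1 p.2 - y) (S.X p.1 p.2 - y) + ε ^ 2) ^ 2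
    exact (Continuous.div (by fun_prop) (by fun_prop) fun p => (hρ _ _).ne').sub
      (Continuous.div (by fun_prop) (by fun_prop) fun p => (pow_pos (hρ _ _) 2).ne')
  have dtt : ∀ t θ, HasDerivAt (fun t => ft t θ) (ftt t θ) t := fun t θ =>
    tbre1_deriv (X := fun t => S.X t θ) (X1 := fun t => S.Xt t θ) y hε (S.dXt t θ) (S.dXtt t θ)
  have dss : ∀ t θ, HasDerivAt (fs t) (fss t θ) θ := fun t θ =>
    tbre1_deriv (X := S.X t) (X1 := S.Xs t) y hε (S.dXs t θ) (S.dXss t θ)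
  have ps : ∀ t, fs t (2 * π) = fs t 0 := fun t => by
    have e1 := S.pX t 0
    have e2 := S.pXs t 0
    rw [zero_add] at e1 e2
    simp only [hfs, e1, e2]
  have hdiv := div_strip cft cftt cfss dtt dss ps S.A S.B
  have h2π : (0 : ℝ) ≤ 2 * π := by positivity
  have hcs : Continuous (uncurry fun t θ => ftt t θ + fss t θ) := cftt.add cfss
  have hle : ∫ t in S.A..S.B, ∫ θ in (0 : ℝ)..(2 * π), S.bump y ε t θ ≤
      ∫ t in S.A..S.B, ∫ θ in (0 : ℝ)..(2 * π), (ftt t θ + fss t θ) := by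
    refine intervalIntegral.integral_mono_on S.hAB.le
      ((tbre1_cont (tbre1_bump_cont S y hε) _ _).intervalIntegrable _ _)
      ((tbre1_cont hcs _ _).intervalIntegrable _ _) fun t ht => ?_
    refine intervalIntegral.integral_mono_on h2π
      (((tbre1_bump_cont S y hε).uncurry_left t).intervalIntegrable _ _)
      ((hcs.uncurry_left t).intervalIntegrable _ _) fun θ _ => ?_
    have hb := tbre1_bessel (v := S.X t θ - y) (S.upos t ht θ) (S.eT t ht θ) (S.eS t ht θ)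
      (S.eTS t ht θ)
    have hh : dot (S.Xtt t θ) (S.X t θ - y) + dot (S.Xss t θ) (S.X t θ - y) = 0 := by
      have h0 := congrFun (S.harm t ht θ) 0
      have h1 := congrFun (S.harm t ht θ) 1
      have h2 := congrFun (S.harm t ht θ) 2
      simp only [Pi.add_apply, Pi.zero_apply] at h0 h1 h2
      simp only [dot]
      linear_combination (S.X t θ - y) 0 * h0 + (S.X t θ - y) 1 * h1 + (S.X t θ - y) 2 * h2
    simp only [hftt, hfss, Ann0.bump, S.eT t ht θ, S.eS t ht θ]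
    have hr := hρ t θ
    generalize dot (S.X t θ - y) (S.X t θ - y) = w at hb hr ⊢
    generalize dot (S.Xt t θ) (S.X t θ - y) = a at hb ⊢
    generalize dot (S.Xs t θ) (S.X t θ - y) = b at hb ⊢
    generalize dot (S.Xtt t θ) (S.X t θ - y) = c at hh ⊢
    generalize dot (S.Xss t θ) (S.X t θ - y) = d at hh ⊢
    generalize S.u t θ = u at hb ⊢
    have e : (c + u ^ 2) / (w + ε ^ 2) - 2 * a ^ 2 / (w + ε ^ 2) ^ 2 +
        ((d + u ^ 2) / (w + ε ^ 2) - 2 * b ^ 2 / (w + ε ^ 2) ^ 2) =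
        2 * ε ^ 2 * u ^ 2 / (w + ε ^ 2) ^ 2 +
          2 * (u ^ 2 * w - (a ^ 2 + b ^ 2)) / (w + ε ^ 2) ^ 2 := by
      have hd : d = -c := by linarith
      rw [hd]
      field_simp
      ring
    rw [e]
    have : 0 ≤ 2 * (u ^ 2 * w - (a ^ 2 + b ^ 2)) / (w + ε ^ 2) ^ 2 :=
      div_nonneg (by linarith) (by positivity)
    linarith
  have hB : ∫ θ in (0 : ℝ)..(2 * π), ft S.B θ ≤ ∫ θ in (0 : ℝ)..(2 * π), S.u S.B θ / 2 := by
    refine intervalIntegral.integral_mono_on h2π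
      ((cft.uncurry_left _).intervalIntegrable _ _)
      (((S.cu.uncurry_left _).div_const 2).intervalIntegrable _ _) fun θ _ => ?_
    simp only [hft, S.nB θ]
    exact tbre1_bdry (S.bB θ) hy (S.upos _ S.memB θ) hε
  have hA : ∫ θ in (0 : ℝ)..(2 * π), -ft S.A θ ≤ ∫ θ in (0 : ℝ)..(2 * π), S.u S.A θ / 2 := by
    refine intervalIntegral.integral_mono_on h2π
      ((cft.uncurry_left _).neg.intervalIntegrable _ _)
      (((S.cu.uncurry_left _).div_const 2).intervalIntegrable _ _) fun θ _ => ?_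
    have h := tbre1_bdry (S.bA θ) hy (S.upos _ S.memA θ) hε
    have e : dot (-(S.u S.A θ • S.X S.A θ)) (S.X S.A θ - y) =
        -dot (S.u S.A θ • S.X S.A θ) (S.X S.A θ - y) := by
      simp only [dot, Pi.neg_apply]; ring
    simp only [hft, S.nA θ, e, neg_div, neg_neg]
    exact h
  rw [intervalIntegral.integral_neg] at hA
  rw [intervalIntegral.integral_div] at hA hB
  have eA : π * S.curveA.len = (∫ θ in (0 : ℝ)..(2 * π), S.u S.A θ) / 2 := by
    simp only [SCurve.len, av, Ann0.curveA]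
    field_simp
  have eB : π * S.curveB.len = (∫ θ in (0 : ℝ)..(2 * π), S.u S.B θ) / 2 := by
    simp only [SCurve.len, av, Ann0.curveB]
    field_simp
  rw [mul_add, eA, eB]
  linarith

theorem Ann0.brendle (S : Ann0) (h : ¬ S.curveB.Simple) : 2 ≤ S.curveA.len + S.curveB.len := by
  simp only [SCurve.Simple, not_forall, not_not] at h
  obtain ⟨s, t, h1, h2, h3⟩ := h
  change S.X S.B s = S.X S.B t at h3
  by_contra hL
  rw [not_le] at hL
  set L := S.curveA.len + S.curveB.len with hLdef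
  have hη : 0 < π * (2 - L) / 4 := by have := pi_pos; have : 0 < 2 - L := by linarith
                                      positivity
  set δ₀ := min (t - s) (s + 2 * π - t) / 2 with hδ₀
  have hδ₀pos : 0 < δ₀ := by
    have : 0 < min (t - s) (s + 2 * π - t) := lt_min (by linarith) (by linarith)
    positivity
  have hd1 : 2 * δ₀ ≤ t - s := by
    have := min_le_left (t - s) (s + 2 * π - t); linarith
  have hd2 : 2 * δ₀ ≤ s + 2 * π - t := by
    have := min_le_right (t - s) (s + 2 * π - t); linarith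
  obtain ⟨δ₁, hδ₁, hδ₁0, hδ₁AB, ε₁, hε₁, H1⟩ := S.bump_local s _ δ₀ hη hδ₀pos
  obtain ⟨δ₂, hδ₂, hδ₂0, hδ₂AB, ε₂, hε₂, H2⟩ := S.bump_local t _ δ₀ hη hδ₀pos
  have hε : 0 < min ε₁ ε₂ := lt_min hε₁ hε₂
  have K1 := H1 _ hε (min_le_left _ _)
  have K2 := H2 _ hε (min_le_right _ _)
  rw [← h3] at K2
  set ε := min ε₁ ε₂
  set y := S.X S.B s
  have hup := S.bump_upper y (S.bB s) ε hε
  have hc := tbre1_bump_cont S y hε
  have h0 := tbre1_bump_nonneg S y ε
  have hsplit : ∀ τ, ∫ θ in (0 : ℝ)..(2 * π), S.bump y ε τ θ =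
      (∫ θ in (s - δ₀)..(s + δ₀), S.bump y ε τ θ) +
        ∫ θ in (s + δ₀)..(s - δ₀ + 2 * π), S.bump y ε τ θ := by
    intro τ
    have hp : Periodic (S.bump y ε τ) (2 * π) := fun θ => by
      simp only [Ann0.bump, S.pX τ θ, S.pu τ θ]
    have := hp.intervalIntegral_add_eq 0 (s - δ₀)
    rw [zero_add] at this
    rw [this, intervalIntegral.integral_add_adjacent_intervals
      ((hc.uncurry_left τ).intervalIntegrable _ _) ((hc.uncurry_left τ).intervalIntegrable _ _)]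
  simp only [hsplit] at hup
  rw [intervalIntegral.integral_add ((tbre1_cont hc _ _).intervalIntegrable _ _)
    ((tbre1_cont hc _ _).intervalIntegrable _ _)] at hup
  have M1 := tbre1_mono hc h0 (a := S.A) (a' := S.B - δ₁) (b' := S.B) (b := S.B)
    (c := s - δ₀) (c' := s - δ₁) (d' := s + δ₁) (d := s + δ₀) (by linarith) (by linarith) le_rfl
    (by linarith) (by linarith) (by linarith)
  have M2 := tbre1_mono hc h0 (a := S.A) (a' := S.B - δ₂) (b' := S.B) (b := S.B)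
    (c := s + δ₀) (c' := t - δ₂) (d' := t + δ₂) (d := s - δ₀ + 2 * π) (by linarith) (by linarith)
    le_rfl (by linarith) (by linarith) (by linarith)
  have hπ := pi_pos
  nlinarith

end Pool.Agent.Lib.MP_14b623_gt
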