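import Pool.Agent.Lib.MP_14b623_gt.CvxBasic

namespace Pool.Agent.Lib.MP_14b623_gt

open Set Real Function
open scoped ComplexConjugate InnerProductSpace

theorem tseqc_quad {α β γ p q : ℝ} (hα : 0 < α) (h : γ ^ 2 ≤ α * β) :
    2 * γ * (p * q) ≤ α * p ^ 2 + β * q ^ 2 := by
  refine le_of_mul_le_mul_left ?_ hα
  nlinarith [sq_nonneg (α * p - γ * q), mul_nonneg (sub_nonneg.2 h) (sq_nonneg q)]

theorem tseqc_congr {α : Type} [AddCommMonoid α] [TopologicalSpace α] {f g : ℕ → α} {a b : α}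
    (h : HasSum f a) (h1 : ∀ n, g n = f n) (h2 : b = a) : HasSum g b := by
  rw [funext h1, h2]
  exact h

theorem tseqc_tel (K : ℕ) : ∑ n ∈ Finset.range K, 1 / (((n : ℝ) + 2) ^ 2 - 1) =
    3 / 4 - (1 / ((K : ℝ) + 1) + 1 / ((K : ℝ) + 2)) / 2 := by
  induction K with
  | zero => norm_num
  | succ K ih =>
    rw [Finset.sum_range_succ, ih]
    have h0 : (0 : ℝ) ≤ K := Nat.cast_nonneg K
    have h1 : ((K : ℝ) + 2) ^ 2 - 1 = (K + 1) * (K + 3) := by ring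
    rw [h1]
    push_cast
    field_simp
    ring

theorem tseqc_sup {h e : ℕ → ℝ} {D : ℝ} (h0 : ∀ n, 0 ≤ h n)
    (he : ∀ n : ℕ, 2 * (((n : ℝ) + 2) ^ 2 - 1) * h n ^ 2 ≤ e n) (hD : HasSum e D) :
    Summable h ∧ ∀ S, HasSum (fun n => 2 * h n) S → S ≤ √(3 * D / 2) := by
  have hk : ∀ n : ℕ, 0 < ((n : ℝ) + 2) ^ 2 - 1 := fun n => by
    have : (0 : ℝ) ≤ n := Nat.cast_nonneg n
    nlinarith
  have e0 : ∀ n, 0 ≤ e n := fun n =>
    le_trans (mul_nonneg (mul_nonneg zero_le_two (hk n).le) (sq_nonneg _)) (he n)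
  have hD0 : 0 ≤ D := hD.nonneg e0
  have key : ∀ t : ℝ, 0 < t → ∀ K, ∑ n ∈ Finset.range K, 2 * h n ≤ t * D / 2 + 3 / (4 * t) := by
    intro t ht K
    have h1 : ∀ n : ℕ, 2 * h n ≤ t / 2 * e n + 1 / t * (1 / (((n : ℝ) + 2) ^ 2 - 1)) := by
      intro n
      have h2 := hk n
      have h3 := he n
      set k := ((n : ℝ) + 2) ^ 2 - 1
      have h4 : 2 * h n ≤ t * k * h n ^ 2 + 1 / (t * k) := by
        have h5 : 0 < t * k := mul_pos ht h2
        have h6 : t * k * h n ^ 2 + 1 / (t * k) - 2 * h n = (t * k * h n - 1) ^ 2 / (t * k) := by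
          field_simp
          ring
        have h7 : 0 ≤ (t * k * h n - 1) ^ 2 / (t * k) := div_nonneg (sq_nonneg _) h5.le
        linarith
      have h8 : 1 / t * (1 / k) = 1 / (t * k) := by field_simp
      nlinarith
    have h2 : ∑ n ∈ Finset.range K, e n ≤ D := sum_le_hasSum _ (fun n _ => e0 n) hD
    have h3 : ∑ n ∈ Finset.range K, 1 / (((n : ℝ) + 2) ^ 2 - 1) ≤ 3 / 4 := by
      rw [tseqc_tel]
      have : 0 ≤ (1 / ((K : ℝ) + 1) + 1 / ((K : ℝ) + 2)) / 2 := by positivity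
      linarith
    calc _ ≤ ∑ n ∈ Finset.range K, (t / 2 * e n + 1 / t * (1 / (((n : ℝ) + 2) ^ 2 - 1))) :=
          Finset.sum_le_sum fun n _ => h1 n
      _ = t / 2 * ∑ n ∈ Finset.range K, e n +
          1 / t * ∑ n ∈ Finset.range K, 1 / (((n : ℝ) + 2) ^ 2 - 1) := by
          rw [Finset.sum_add_distrib, Finset.mul_sum, Finset.mul_sum]
      _ ≤ t / 2 * D + 1 / t * (3 / 4) := by gcongr
      _ = _ := by field_simp
  have hn : ∀ n, 0 ≤ 2 * h n := fun n => mul_nonneg zero_le_two (h0 n)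
  refine ⟨(summable_mul_left_iff two_ne_zero).1 (summable_of_sum_range_le hn (key 1 one_pos)),
    fun S hS => ?_⟩
  by_contra hlt
  push Not at hlt
  have hS0 : 0 < S := lt_of_le_of_lt (Real.sqrt_nonneg _) hlt
  have h1 := Real.tsum_le_of_sum_range_le hn (key (3 / (2 * S)) (by positivity))
  rw [hS.tsum_eq] at h1
  have h2 : 3 * D / 2 < S ^ 2 := (Real.sqrt_lt' hS0).1 hlt
  have h3 : 3 / (2 * S) * D / 2 + 3 / (4 * (3 / (2 * S))) = (3 * D / 2 + S ^ 2) / (2 * S) := by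
    field_simp
    ring
  rw [h3, le_div_iff₀ (by positivity)] at h1
  nlinarith

theorem tseqc_first {p e : ℕ → ℝ} {c : ℕ → ℂ} {D : ℝ} {Z : ℂ}
    (he : ∀ n : ℕ, e n = 2 * (((n : ℝ) + 2) ^ 2 - 1) * p n ^ 2) (hD : HasSum e D)
    (hc : ∀ n, ‖c n‖ ≤ p (n + 1) * p n)
    (hZ : HasSum (fun n : ℕ => (((n : ℂ) + 1) * (n + 4)) * c n) Z) :
    (2 * ‖Z‖) ^ 2 ≤ (D - e 0) * D := by
  have e0 : ∀ n, 0 ≤ e n := fun n => by
    have : (0 : ℝ) ≤ n := Nat.cast_nonneg n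
    rw [he]
    exact mul_nonneg (by nlinarith) (sq_nonneg _)
  have h1 := (hasSum_nat_add_iff' 1).2 hD
  have h2 := (hasSum_nat_add_iff' 2).2 hD
  have h3 := (hasSum_nat_add_iff' 1).2 hZ
  simp only [Finset.sum_range_succ, Finset.sum_range_zero, zero_add] at h1 h2 h3
  have hR : 0 ≤ D - (e 0 + e 1) := h2.nonneg fun n => e0 _
  have h4 := tsum_of_norm_bounded (f := fun n : ℕ =>
      ((((n + 1 : ℕ) : ℂ) + 1) * (((n + 1 : ℕ) : ℂ) + 4)) * c (n + 1))
    ((h1.add h2).div_const 4) (fun n => by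
      have hn : (0 : ℝ) ≤ n := Nat.cast_nonneg n
      have a1 : ‖(((n + 1 : ℕ) : ℂ) + 1) * (((n + 1 : ℕ) : ℂ) + 4)‖ = ((n : ℝ) + 2) * (n + 5) := by
        have : (((n + 1 : ℕ) : ℂ) + 1) * (((n + 1 : ℕ) : ℂ) + 4) =
            ((((n : ℝ) + 2) * (n + 5) : ℝ) : ℂ) := by
          push_cast
          ring
        rw [this, Complex.norm_real, Real.norm_of_nonneg (by positivity)]
      have a2 := tseqc_quad (α := ((n : ℝ) + 2) * (n + 4)) (β := ((n : ℝ) + 3) * (n + 5))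
        (γ := ((n : ℝ) + 2) * (n + 5)) (p := p (n + 1)) (q := p (n + 2)) (by positivity) (by
          have : 0 ≤ ((n : ℝ) + 2) * (n + 5) := by positivity
          nlinarith)
      have a3 := mul_le_mul_of_nonneg_left (hc (n + 1))
        (show 0 ≤ ((n : ℝ) + 2) * (n + 5) by positivity)
      rw [norm_mul, a1, he, he]
      push_cast
      nlinarith)
  rw [h3.tsum_eq, Nat.cast_zero, zero_add, zero_add, one_mul] at h4
  have h5 : ‖Z‖ ≤ ‖Z - 4 * c 0‖ + 4 * ‖c 0‖ := by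
    have a1 := norm_add_le (Z - 4 * c 0) (4 * c 0)
    rw [sub_add_cancel, norm_mul] at a1
    simpa using a1
  have h6 := hc 0
  have a0 : e 0 = 6 * p 0 ^ 2 := by rw [he]; norm_num
  have a1 : e 1 = 16 * p 1 ^ 2 := by rw [he]; norm_num
  rw [zero_add] at h6
  obtain ⟨R, rfl⟩ : ∃ R, D = R + (e 0 + e 1) := ⟨D - (e 0 + e 1), by ring⟩
  rw [add_sub_cancel_right] at hR
  have h7 : 2 * ‖Z‖ ≤ 8 * (p 1 * p 0) + 8 * p 1 ^ 2 + R := by linarith
  refine (pow_le_pow_left₀ (by positivity) h7 2).trans ?_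
  rw [a0, a1]
  have b1 : 0 ≤ p 1 ^ 2 * (2 * (p 0 - 2 * p 1) ^ 2 + 4 * p 1 ^ 2) := by positivity
  have b2 : 0 ≤ R * (2 * p 0 ^ 2 + 4 * (p 0 - 2 * p 1) ^ 2) := by positivity
  nlinarith

theorem seq_curve (X : ℤ → Fin 3 → ℂ) (l w : ℝ) (hw : 0 < w) (hl : l ^ 2 ≤ 1)
    (hconj : ∀ n i, X (-n) i = conj (X n i))
    (h00 : X 0 0 = 0) (h01 : X 0 1 = 0) (h02 : X 0 2 = w)
    (hN : HasSum (fun n : ℤ => ∑ i, ‖X n i‖ ^ 2) 1)
    (hL : HasSum (fun n : ℤ => (n : ℝ) ^ 2 * ∑ i, ‖X n i‖ ^ 2) (l ^ 2))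
    (hA : HasSum (fun n : ℤ => ∑ i, X (n + 1) i * conj (X n i)) 0)
    (hB : HasSum (fun n : ℤ => (n : ℂ) * (n + 1) * ∑ i, X (n + 1) i * conj (X n i)) 0) :
    0 ≤ w ^ 2 + l ^ 2 - 1 ∧
    (∀ E, HasSum (fun n : ℤ => ‖X n 2‖ ^ 2) E → E - w ^ 2 ≤ (w ^ 2 + l ^ 2 - 1) / 3) ∧
    Summable (fun n : ℤ => ‖X n 2‖) ∧
    ∑' n : ℤ, ‖X n 2‖ ≤ w + (w ^ 2 + l ^ 2 - 1) / (2 * w) + √(3 * (w ^ 2 + l ^ 2 - 1) / 2) := by
  have hneg : ∀ n i, ‖X (-n) i‖ = ‖X n i‖ := fun n i => by rw [hconj, Complex.norm_conj]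
  obtain ⟨M, hM⟩ : ∃ M : ℕ → ℝ, ∀ n : ℕ, M n = ∑ i, ‖X n i‖ ^ 2 := ⟨_, fun _ => rfl⟩
  obtain ⟨h, hh⟩ : ∃ h : ℕ → ℝ, ∀ n : ℕ, h n = ‖X n 2‖ := ⟨_, fun _ => rfl⟩
  obtain ⟨c, hc⟩ : ∃ c : ℕ → ℂ, ∀ n : ℕ, c n = ∑ i, X (n + 1) i * conj (X n i) :=
    ⟨_, fun _ => rfl⟩
  have M0 : ∀ n, 0 ≤ M n := fun n => by rw [hM]; positivity
  have h0 : ∀ n, 0 ≤ h n := fun n => by rw [hh]; positivity
  have hhM : ∀ n, h n ^ 2 ≤ M n := fun n => by
    rw [hh, hM]
    exact Finset.single_le_sum (f := fun i => ‖X n i‖ ^ 2) (fun i _ => sq_nonneg _)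
      (Finset.mem_univ 2)
  have hw0 : ‖X 0 2‖ = w := by rw [h02, Complex.norm_real, Real.norm_of_nonneg hw.le]
  have hN0 : ∑ i, ‖X 0 i‖ ^ 2 = w ^ 2 := by
    rw [Fin.sum_univ_three, h00, h01, hw0]
    simp
  have hM0 : M 0 = w ^ 2 := by rw [hM]; exact hN0
  have hh0 : h 0 = w := by rw [hh]; exact hw0
  have s1 : HasSum (fun n : ℕ => M n + M n) (1 + w ^ 2) := by
    have := hN.nat_add_neg
    simp only [hneg, ← hM, hN0] at this
    exact this
  have s2 : HasSum (fun n : ℕ => (n : ℝ) ^ 2 * M n + (n : ℝ) ^ 2 * M n) (l ^ 2) := by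
    have := hL.nat_add_neg
    simp only [hneg, ← hM, Int.cast_neg, neg_sq, Int.cast_natCast, Int.cast_zero] at this
    simpa using this
  obtain ⟨e, he⟩ : ∃ e : ℕ → ℝ, ∀ n : ℕ, e n = 2 * (((n : ℝ) + 2) ^ 2 - 1) * M (n + 2) :=
    ⟨_, fun _ => rfl⟩
  have hD : HasSum e (w ^ 2 + l ^ 2 - 1) := by
    have := (hasSum_nat_add_iff' 2).2 (s2.sub s1)
    simp only [Finset.sum_range_succ, Finset.sum_range_zero, hM0] at this
    refine tseqc_congr this (fun n => ?_) ?_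
    · rw [he]
      push_cast
      ring
    · push_cast
      ring
  have hk : ∀ n : ℕ, 3 ≤ ((n : ℝ) + 2) ^ 2 - 1 := fun n => by
    have : (0 : ℝ) ≤ n := Nat.cast_nonneg n
    nlinarith
  have e0 : ∀ n, 0 ≤ e n := fun n => by
    rw [he]
    exact mul_nonneg (by linarith [hk n]) (M0 _)
  have hD0 : 0 ≤ w ^ 2 + l ^ 2 - 1 := hD.nonneg e0
  have hcs : ∀ n : ℕ, ∑ i, X (-((n : ℤ) + 1) + 1) i * conj (X (-((n : ℤ) + 1)) i) = c n := by
    intro n
    rw [hc]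
    refine Finset.sum_congr rfl fun i _ => ?_
    rw [show -((n : ℤ) + 1) + 1 = -n by ring, hconj, hconj, Complex.conj_conj, mul_comm]
  have s3 : HasSum (fun n : ℕ => c n + c n) 0 := by
    have := hA.nat_add_neg_add_one
    simp only [hcs, ← hc] at this
    exact this
  have s4 : HasSum (fun n : ℕ => (n : ℂ) * (n + 1) * c n + (n : ℂ) * (n + 1) * c n) 0 := by
    have := hB.nat_add_neg_add_one
    simp only [hcs, ← hc] at this
    refine tseqc_congr this (fun n => ?_) rfl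
    push_cast
    ring
  have hc0 : c 0 = w * X 1 2 := by
    rw [hc, Fin.sum_univ_three]
    simp [h00, h01, h02, mul_comm]
  have hZ : HasSum (fun n : ℕ => (((n : ℂ) + 1) * (n + 4)) * c (n + 2)) (2 * (w * X 1 2)) := by
    have := (hasSum_nat_add_iff' 2).2 ((s4.div_const 2).sub s3)
    simp only [Finset.sum_range_succ, Finset.sum_range_zero, hc0] at this
    refine tseqc_congr this (fun n => ?_) ?_
    · push_cast
      ring
    · push_cast
      ring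
  have hcb : ∀ n, ‖c n‖ ≤ √(M (n + 1)) * √(M n) := by
    intro n
    rw [hc, hM, hM]
    refine (norm_sum_le _ _).trans ?_
    simp only [norm_mul, Complex.norm_conj]
    exact Real.sum_mul_le_sqrt_mul_sqrt _ _ _
  have hY := tseqc_first (p := fun n => √(M (n + 2)))
    (fun n => by rw [he, Real.sq_sqrt (M0 _)]) hD (fun n => hcb (n + 2)) hZ
  have hY1 : ‖2 * ((w : ℂ) * X 1 2)‖ = 2 * (w * h 1) := by
    rw [norm_mul, norm_mul, Complex.norm_real, Real.norm_of_nonneg hw.le, hh]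
    simp
  rw [hY1] at hY
  have he0 : e 0 ≤ w ^ 2 + l ^ 2 - 1 := le_hasSum hD 0 fun n _ => e0 n
  obtain ⟨t1, t2⟩ := tseqc_sup (h := fun n => h (n + 2)) (fun n => h0 _) (fun n => by
    rw [he]
    exact mul_le_mul_of_nonneg_left (hhM _) (by linarith [hk n])) hD
  have t3 : Summable h := (summable_nat_add_iff 2).1 t1
  have t4 : Summable fun n : ℤ => ‖X n 2‖ := by
    refine Summable.of_nat_of_neg ?_ ?_
    · simpa only [← hh] using t3
    · simpa only [hneg, ← hh] using t3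
  set D := w ^ 2 + l ^ 2 - 1 with hDdef
  refine ⟨hD0, fun E hE => ?_, t4, ?_⟩
  · have a1 : HasSum (fun n : ℕ => h n ^ 2 + h n ^ 2) (E + w ^ 2) := by
      have := hE.nat_add_neg
      simp only [hneg, ← hh, hw0] at this
      exact this
    have a2 := (hasSum_nat_add_iff' 3).2 a1
    have a3 := ((hasSum_nat_add_iff' 1).2 hD).div_const 8
    simp only [Finset.sum_range_succ, Finset.sum_range_zero, hh0, zero_add] at a2 a3
    have a4 := hasSum_le (fun n => by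
      have hn : (0 : ℝ) ≤ n := Nat.cast_nonneg n
      have b1 := hhM (n + 3)
      have b2 := M0 (n + 3)
      have b3 : 0 ≤ ((n : ℝ) ^ 2 + 6 * n) * M (n + 3) := by positivity
      rw [he]
      push_cast
      rw [show n + 1 + 2 = n + 3 from rfl]
      nlinarith) a2 a3
    have a5 : e 0 = 6 * M 2 := by rw [he]; norm_num
    have a6 := hhM 2
    have a7 : 16 * h 1 ^ 2 ≤ D - e 0 := by
      refine le_of_mul_le_mul_right ?_ (pow_pos hw 2)
      have : (D - e 0) * D ≤ (D - e 0) * w ^ 2 :=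
        mul_le_mul_of_nonneg_left (by linarith) (by linarith)
      nlinarith
    linarith
  · have a1 : HasSum (fun n : ℕ => h n + h n) (∑' n : ℤ, ‖X n 2‖ + w) := by
      have := t4.hasSum.nat_add_neg
      simp only [hneg, ← hh, hw0] at this
      exact this
    have a2 := (hasSum_nat_add_iff' 2).2 a1
    simp only [Finset.sum_range_succ, Finset.sum_range_zero, hh0, ← two_mul] at a2
    have a3 := t2 _ a2
    have a4 : 2 * h 1 ≤ D / (2 * w) := by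
      rw [le_div_iff₀ (by positivity)]
      refine abs_le_of_sq_le_sq' ?_ hD0 |>.2
      nlinarith [mul_nonneg (e0 0) hD0]
    linarith

end Pool.Agent.Lib.MP_14b623_gt
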