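import Pool.Agent.Lib.MP_14b623_gt.TFour
import Pool.Agent.Lib.MP_14b623_gt.TSeqC

namespace Pool.Agent.Lib.MP_14b623_gt

open Set Real Function
open scoped ComplexConjugate InnerProductSpace

lemma tcurvef_cont {δ : ℝ → V} (hc : Continuous δ) (i : Fin 3) :
    Continuous fun s => ((δ s i : ℝ) : ℂ) :=
  Complex.continuous_ofReal.comp ((continuous_apply i).comp hc)

lemma tcurvef_sq {δ : ℝ → V} (hc : Continuous δ) {r : ℝ} (hr : ∀ σ, dot (δ σ) (δ σ) = r) :
    HasSum (fun n : ℤ => ∑ i, ‖fc (fun s => ((δ s i : ℝ) : ℂ)) n‖ ^ 2) r := by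
  have h := hasSum_sum (s := (Finset.univ : Finset (Fin 3)))
    fun i _ => fc_parseval_sq (tcurvef_cont hc i)
  convert h using 1
  simp only [av]
  have hci : ∀ i : Fin 3, Continuous fun θ => ‖((δ θ i : ℝ) : ℂ)‖ ^ 2 :=
    fun i => ((tcurvef_cont hc i).norm).pow 2
  rw [← Finset.sum_div, ← intervalIntegral.integral_finsetSum
    (f := fun (i : Fin 3) θ => ‖((δ θ i : ℝ) : ℂ)‖ ^ 2)
    fun i _ => (hci i).intervalIntegrable _ _]
  have : ∀ θ, ∑ i, ‖((δ θ i : ℝ) : ℂ)‖ ^ 2 = r := by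
    intro θ
    rw [← hr θ]
    simp only [Fin.sum_univ_three, Complex.norm_real, Real.norm_eq_abs, sq_abs, dot]
    ring
  simp only [this, intervalIntegral.integral_const, smul_eq_mul]
  have := pi_pos
  field_simp
  ring

lemma tcurvef_shift {δ : ℝ → V} (hc : Continuous δ) {r : ℝ} (hr : ∀ σ, dot (δ σ) (δ σ) = r) :
    HasSum (fun n : ℤ => ∑ i, fc (fun s => ((δ s i : ℝ) : ℂ)) (n + 1) *
      conj (fc (fun s => ((δ s i : ℝ) : ℂ)) n)) 0 := by
  have he : Continuous fun θ : ℝ => Complex.exp (((-1 : ℤ) : ℂ) * θ * Complex.I) := by fun_prop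
  have hm : ∀ i : Fin 3, Continuous fun θ : ℝ =>
      ((δ θ i : ℝ) : ℂ) * Complex.exp (((-1 : ℤ) : ℂ) * θ * Complex.I) :=
    fun i => (tcurvef_cont hc i).mul he
  have hm2 : ∀ i : Fin 3, Continuous fun θ : ℝ =>
      (((δ θ i : ℝ) : ℂ) * Complex.exp (((-1 : ℤ) : ℂ) * θ * Complex.I)) *
        conj ((δ θ i : ℝ) : ℂ) :=
    fun i => (hm i).mul (Complex.continuous_conj.comp (tcurvef_cont hc i))
  have h := hasSum_sum (s := (Finset.univ : Finset (Fin 3)))
    fun i _ => fc_parseval (hm i) (tcurvef_cont hc i)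
  convert h using 1
  · funext n
    refine Finset.sum_congr rfl fun i _ => ?_
    have := fc_shift (fun s => ((δ s i : ℝ) : ℂ)) (-1) n
    rw [sub_neg_eq_add] at this
    rw [← this]
  · simp only [cav]
    rw [← Finset.sum_div, ← intervalIntegral.integral_finsetSum
      (f := fun (i : Fin 3) (θ : ℝ) =>
        (((δ θ i : ℝ) : ℂ) * Complex.exp (((-1 : ℤ) : ℂ) * θ * Complex.I)) *
          conj ((δ θ i : ℝ) : ℂ))
      fun i _ => (hm2 i).intervalIntegrable _ _]
    have h1 : ∀ θ : ℝ, ∑ i, (((δ θ i : ℝ) : ℂ) * Complex.exp (((-1 : ℤ) : ℂ) * θ * Complex.I)) *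
        conj ((δ θ i : ℝ) : ℂ) = (r : ℂ) * Complex.exp (-Complex.I * θ) := by
      intro θ
      rw [← hr θ]
      have : ((-1 : ℤ) : ℂ) * θ * Complex.I = -Complex.I * θ := by push_cast; ring
      simp only [Fin.sum_univ_three, Complex.conj_ofReal, dot, this]
      push_cast
      ring
    have h2 : ∫ θ in (0 : ℝ)..(2 * π), (r : ℂ) * Complex.exp (-Complex.I * θ) = 0 := by
      rw [intervalIntegral.integral_const_mul,
        integral_exp_mul_complex (neg_ne_zero.2 Complex.I_ne_zero)]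
      have : Complex.exp (-Complex.I * ((2 * π : ℝ) : ℂ)) = 1 := by
        have h3 : -Complex.I * ((2 * π : ℝ) : ℂ) = -(2 * π * Complex.I) := by push_cast; ring
        rw [h3, Complex.exp_neg, Complex.exp_two_pi_mul_I, inv_one]
      rw [this]
      simp
    symm
    rw [div_eq_zero_iff]
    left
    rw [← h2]
    exact intervalIntegral.integral_congr fun θ _ => h1 θ

theorem curve_fourier (γ γ' : ℝ → V) (l w : ℝ) (hd : ∀ σ, HasDerivAt γ (γ' σ) σ)
    (hc : Continuous γ') (hp : Periodic γ (2 * π)) (hs : ∀ σ, dot (γ σ) (γ σ) = 1)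
    (hv : ∀ σ, dot (γ' σ) (γ' σ) = l ^ 2) (hl : l ^ 2 ≤ 1) (hw : 0 < w)
    (h0 : av (fun σ => γ σ 0) = 0) (h1 : av (fun σ => γ σ 1) = 0) (h2 : av (fun σ => γ σ 2) = w) :
    0 ≤ w ^ 2 + l ^ 2 - 1 ∧ av (fun σ => (γ σ 2 - w) ^ 2) ≤ (w ^ 2 + l ^ 2 - 1) / 3 ∧
    ∀ σ, |γ σ 2 - w| ≤ (w ^ 2 + l ^ 2 - 1) / (2 * w) + √(3 * (w ^ 2 + l ^ 2 - 1) / 2) := by
  have hc0 : Continuous γ := continuous_iff_continuousAt.2 fun θ => (hd θ).continuousAt
  have hder : ∀ (i : Fin 3) (n : ℤ), fc (fun s => ((γ' s i : ℝ) : ℂ)) n =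
      Complex.I * n * fc (fun s => ((γ s i : ℝ) : ℂ)) n := by
    intro i n
    refine fc_deriv (fun θ => (hasDerivAt_coord (hd θ) i).ofReal_comp) (tcurvef_cont hc i) ?_ n
    have := hp 0
    rw [zero_add] at this
    simp only [this]
  have hz : ∀ i : Fin 3, fc (fun s => ((γ s i : ℝ) : ℂ)) 0 = (av (fun σ => γ σ i) : ℝ) :=
    fun i => by rw [fc_zero, cav_ofReal]
  obtain ⟨k1, k2, k3, k4⟩ := seq_curve (fun n i => fc (fun s => ((γ s i : ℝ) : ℂ)) n) l w hw hl
    (fun n i => by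
      have := fc_conj (fun s => ((γ s i : ℝ) : ℂ)) (-n)
      simp only [Complex.conj_ofReal, neg_neg] at this
      exact this)
    (by rw [hz, h0]; simp) (by rw [hz, h1]; simp) (by rw [hz, h2])
    (tcurvef_sq hc0 hs)
    (by
      convert tcurvef_sq hc hv using 2 with n
      rw [Finset.mul_sum]
      refine Finset.sum_congr rfl fun i _ => ?_
      rw [hder, norm_mul, norm_mul, Complex.norm_I, one_mul, mul_pow, Complex.norm_intCast, sq_abs])
    (tcurvef_shift hc0 hs)
    (by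
      convert tcurvef_shift hc hv using 2 with n
      rw [Finset.mul_sum]
      refine Finset.sum_congr rfl fun i _ => ?_
      rw [hder, hder]
      simp only [map_mul, Complex.conj_I, map_intCast]
      push_cast
      linear_combination (-((n : ℂ) * (n + 1) * fc (fun s => ((γ s i : ℝ) : ℂ)) (n + 1) *
        conj (fc (fun s => ((γ s i : ℝ) : ℂ)) n))) * (-Complex.I_mul_I))
  have hc2 : Continuous fun σ => γ σ 2 := (continuous_apply 2).comp hc0
  refine ⟨k1, ?_, fun σ => ?_⟩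
  · have h3 := k2 _ (fc_parseval_sq (tcurvef_cont hc0 2))
    refine le_trans (le_of_eq ?_) h3
    simp only [Complex.norm_real, Real.norm_eq_abs, sq_abs]
    have h4 : ∀ σ, (γ σ 2 - w) ^ 2 = (γ σ 2) ^ 2 - (2 * w) * γ σ 2 + w ^ 2 := fun σ => by ring
    simp only [av] at h2 ⊢
    simp only [h4]
    have hA : Continuous fun σ => γ σ 2 ^ 2 := hc2.pow 2
    have hB : Continuous fun σ => 2 * w * γ σ 2 := hc2.const_mul _
    have hC : Continuous fun σ => γ σ 2 ^ 2 - 2 * w * γ σ 2 := hA.sub hB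
    have hD : Continuous fun _ : ℝ => w ^ 2 := continuous_const
    rw [intervalIntegral.integral_add (hC.intervalIntegrable _ _) (hD.intervalIntegrable _ _),
      intervalIntegral.integral_sub (hA.intervalIntegrable _ _) (hB.intervalIntegrable _ _),
      intervalIntegral.integral_const_mul, intervalIntegral.integral_const, smul_eq_mul]
    have hpi := pi_pos
    rw [div_eq_iff (by positivity)] at h2
    rw [h2]
    field_simp
    ring
  · have hper : Periodic (fun s => ((γ s 2 : ℝ) : ℂ)) (2 * π) := fun s => by simp only [hp s]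
    have h3 := fc_pointwise (tcurvef_cont hc0 2) hper k3 σ
    have h4 := h3.update 0 0
    have h5 := k3.hasSum.update 0 0
    simp only [hz, h2] at h4 h5
    have h6 := h4.norm_le_of_bounded h5 (fun n => by
      by_cases hn : n = 0
      · subst hn
        simp
      · rw [update_of_ne hn, update_of_ne hn, norm_mul]
        have : ‖Complex.exp ((n : ℂ) * σ * Complex.I)‖ = 1 := by
          have h7 : (n : ℂ) * σ * Complex.I = ((n * σ : ℝ) : ℂ) * Complex.I := by push_cast; ring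
          rw [h7, Complex.norm_exp_ofReal_mul_I]
        rw [this, mul_one])
    have h8 : (0 : ℂ) - (w : ℂ) * Complex.exp (((0 : ℤ) : ℂ) * σ * Complex.I) + ((γ σ 2 : ℝ) : ℂ) =
        ((γ σ 2 - w : ℝ) : ℂ) := by
      simp only [Int.cast_zero, zero_mul, Complex.exp_zero]
      push_cast
      ring
    rw [h8, Complex.norm_real, Real.norm_eq_abs, Complex.norm_real, Real.norm_eq_abs,
      abs_of_pos hw] at h6
    linarith

end Pool.Agent.Lib.MP_14b623_gt
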