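import Pool.Agent.Lib.MP_14b623_gt.CvxBasic

namespace Pool.Agent.Lib.MP_14b623_gt

open Set Real Function
open scoped ComplexConjugate InnerProductSpace

/-- A function with `f' ^ 2 ≤ l ^ 2 (1 - f ^ 2)` and `f σ₀ = 1` satisfies
`arccos (f s) ≤ l |s - σ₀|`. -/
lemma TSinc_arccos_le (f f' : ℝ → ℝ) (l σ₀ : ℝ) (hl0 : 0 < l)
    (hd : ∀ s, HasDerivAt f (f' s) s) (hb : ∀ s, f' s ^ 2 ≤ l ^ 2 * (1 - f s ^ 2))
    (h0 : f σ₀ = 1) (s : ℝ) : arccos (f s) ≤ l * |s - σ₀| := by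
  have hf1 : ∀ t, f t ^ 2 ≤ 1 := by
    intro t
    have h1 : 0 ≤ l ^ 2 * (1 - f t ^ 2) := le_trans (sq_nonneg _) (hb t)
    have h2 : 0 < l ^ 2 := by positivity
    by_contra h7
    have : l ^ 2 * (1 - f t ^ 2) < 0 := mul_neg_of_pos_of_neg h2 (by linarith)
    linarith
  have key : ∀ r ∈ Ioo (0 : ℝ) 1, arccos (r * f s) ≤ arccos r + l * |s - σ₀| := by
    intro r hr
    have hr2 : r ^ 2 < 1 := by nlinarith [hr.1, hr.2]
    have hlt : ∀ t, (r * f t) ^ 2 < 1 := by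
      intro t
      have := hf1 t
      have h3 : 0 ≤ r ^ 2 := sq_nonneg r
      calc (r * f t) ^ 2 = r ^ 2 * f t ^ 2 := by ring
        _ ≤ r ^ 2 * 1 := mul_le_mul_of_nonneg_left this h3
        _ < 1 := by linarith
    have hder : ∀ t, HasDerivAt (fun x => arccos (r * f x))
        (-(1 / √(1 - (r * f t) ^ 2)) * (r * f' t)) t := by
      intro t
      have h1 : r * f t ≠ -1 := by
        intro h; have := hlt t; rw [h] at this; norm_num at this
      have h2 : r * f t ≠ 1 := by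
        intro h; have := hlt t; rw [h] at this; norm_num at this
      have h3 := (hasDerivAt_arccos h1 h2).comp t ((hd t).const_mul r)
      exact h3
    have hbound : ∀ t, ‖-(1 / √(1 - (r * f t) ^ 2)) * (r * f' t)‖ ≤ l := by
      intro t
      have hpos : 0 < 1 - (r * f t) ^ 2 := by linarith [hlt t]
      have hsq : 0 < √(1 - (r * f t) ^ 2) := Real.sqrt_pos.2 hpos
      rw [Real.norm_eq_abs]
      apply abs_le_of_sq_le_sq' _ hl0.le |> fun h => abs_le.2 h
      rw [mul_pow, neg_sq, div_pow, one_pow, Real.sq_sqrt hpos.le, one_div, inv_mul_le_iff₀ hpos]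
      have h4 := hb t
      have h5 : 0 ≤ r ^ 2 := sq_nonneg r
      have h6 : r ^ 2 * f' t ^ 2 ≤ r ^ 2 * (l ^ 2 * (1 - f t ^ 2)) :=
        mul_le_mul_of_nonneg_left h4 h5
      have h7 : 0 ≤ l ^ 2 * (1 - r ^ 2) := mul_nonneg (sq_nonneg l) (by linarith)
      nlinarith
    have hmv := Convex.norm_image_sub_le_of_norm_hasDerivWithin_le (𝕜 := ℝ) (s := univ)
      (f := fun x => arccos (r * f x))
      (f' := fun t => -(1 / √(1 - (r * f t) ^ 2)) * (r * f' t)) (C := l) (x := σ₀) (y := s)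
      (fun t _ => (hder t).hasDerivWithinAt) (fun t _ => hbound t) convex_univ
      (mem_univ _) (mem_univ _)
    simp only [h0, mul_one, Real.norm_eq_abs] at hmv
    linarith [le_abs_self (arccos (r * f s) - arccos r)]
  have hcl : IsClosed {r : ℝ | arccos (r * f s) ≤ arccos r + l * |s - σ₀|} :=
    isClosed_le (by fun_prop) (by fun_prop)
  have hsub : closure (Ioo (0 : ℝ) 1) ⊆ {r : ℝ | arccos (r * f s) ≤ arccos r + l * |s - σ₀|} :=
    hcl.closure_subset_iff.2 key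
  rw [closure_Ioo zero_ne_one] at hsub
  have := hsub (right_mem_Icc.2 zero_le_one)
  simpa using this

theorem curve_sinc (γ γ' : ℝ → V) (l : ℝ) (hd : ∀ σ, HasDerivAt γ (γ' σ) σ)
    (hp : Periodic γ (2 * π)) (hs : ∀ σ, dot (γ σ) (γ σ) = 1)
    (hv : ∀ σ, dot (γ' σ) (γ' σ) = l ^ 2) (hl0 : 0 < l) (hl1 : l ≤ 1) (σ₀ : ℝ) :
    sin (π * l) / (π * l) ≤ av fun σ => dot (γ σ) (γ σ₀) := by
  have horth : ∀ s, dot (γ s) (γ' s) = 0 := by
    intro s
    have h1 := hasDerivAt_dot (hd s) (hd s)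
    have h2 : HasDerivAt (fun y => dot (γ y) (γ y)) 0 s := by
      simp only [hs]; exact hasDerivAt_const s 1
    have h3 := h1.unique h2
    rw [dot_comm (γ' s)] at h3
    linarith
  have hfd : ∀ s, HasDerivAt (fun y => dot (γ y) (γ σ₀)) (dot (γ' s) (γ σ₀)) s := by
    intro s
    have h1 := hasDerivAt_dot (hd s) (hasDerivAt_const s (γ σ₀))
    refine h1.congr_deriv ?_
    simp [dot]
  have hb : ∀ s, dot (γ' s) (γ σ₀) ^ 2 ≤ l ^ 2 * (1 - dot (γ s) (γ σ₀) ^ 2) := by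
    intro s
    have h1 := det3_mul_det3 (γ s) (γ' s) (γ σ₀) (γ s) (γ' s) (γ σ₀)
    rw [hs s, hs σ₀, hv s, horth s, dot_comm (γ' s) (γ s), horth s, dot_comm (γ σ₀) (γ' s),
      dot_comm (γ σ₀) (γ s)] at h1
    nlinarith [mul_self_nonneg (det3 (γ s) (γ' s) (γ σ₀))]
  have harc := TSinc_arccos_le (fun y => dot (γ y) (γ σ₀)) (fun s => dot (γ' s) (γ σ₀)) l σ₀
    hl0 hfd hb (hs σ₀)
  have hcont : Continuous fun y => dot (γ y) (γ σ₀) :=
    continuous_iff_continuousAt.2 fun s => (hfd s).continuousAt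
  have hcos : ∀ s ∈ Icc (σ₀ - π) (σ₀ - π + 2 * π), cos (l * (s - σ₀)) ≤ dot (γ s) (γ σ₀) := by
    intro s hs'
    have h1 : |s - σ₀| ≤ π := abs_le.2 ⟨by linarith [hs'.1], by linarith [hs'.2]⟩
    have h2 : l * |s - σ₀| ≤ π := by
      nlinarith [abs_nonneg (s - σ₀), pi_pos]
    have h3 : cos (l * (s - σ₀)) = cos (l * |s - σ₀|) := by
      rw [← Real.cos_abs (l * (s - σ₀)), abs_mul, abs_of_pos hl0]
    have h4 : dot (γ s) (γ σ₀) ^ 2 ≤ 1 := by
      have h5 : 0 ≤ l ^ 2 * (1 - dot (γ s) (γ σ₀) ^ 2) := le_trans (sq_nonneg _) (hb s)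
      have h6 : 0 < l ^ 2 := by positivity
      by_contra h7
      have : l ^ 2 * (1 - dot (γ s) (γ σ₀) ^ 2) < 0 := mul_neg_of_pos_of_neg h6 (by linarith)
      linarith
    have h5 : -1 ≤ dot (γ s) (γ σ₀) ∧ dot (γ s) (γ σ₀) ≤ 1 := by
      constructor <;> nlinarith
    rw [h3, ← Real.cos_arccos h5.1 h5.2]
    exact Real.cos_le_cos_of_nonneg_of_le_pi (Real.arccos_nonneg _) h2 (harc s)
  have hper : Periodic (fun y => dot (γ y) (γ σ₀)) (2 * π) := fun y => by simp only [hp y]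
  have hshift := hper.intervalIntegral_add_eq 0 (σ₀ - π)
  rw [zero_add] at hshift
  have hint : ∫ s in (σ₀ - π)..(σ₀ - π + 2 * π), cos (l * (s - σ₀)) = 2 * sin (π * l) / l := by
    have hder : ∀ s ∈ uIcc (σ₀ - π) (σ₀ - π + 2 * π),
        HasDerivAt (fun y => sin (l * (y - σ₀)) / l) (cos (l * (s - σ₀))) s := by
      intro s _
      have h1 : HasDerivAt (fun y => l * (y - σ₀)) (l * 1) s :=
        ((hasDerivAt_id s).sub_const σ₀).const_mul l
      refine (h1.sin.div_const l).congr_deriv ?_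
      field_simp
    rw [intervalIntegral.integral_eq_sub_of_hasDerivAt hder
      (Continuous.intervalIntegrable (by fun_prop) _ _)]
    have e1 : l * (σ₀ - π + 2 * π - σ₀) = π * l := by ring
    have e2 : l * (σ₀ - π - σ₀) = -(π * l) := by ring
    rw [e1, e2, Real.sin_neg]
    ring
  have hmono : ∫ s in (σ₀ - π)..(σ₀ - π + 2 * π), cos (l * (s - σ₀))
      ≤ ∫ s in (σ₀ - π)..(σ₀ - π + 2 * π), dot (γ s) (γ σ₀) :=
    intervalIntegral.integral_mono_on (by linarith [pi_pos])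
      (Continuous.intervalIntegrable (by fun_prop) _ _) (hcont.intervalIntegrable _ _) hcos
  unfold av
  rw [hshift, le_div_iff₀ (by positivity)]
  refine le_trans (le_of_eq ?_) (hint ▸ hmono)
  have := pi_pos
  field_simp

end Pool.Agent.Lib.MP_14b623_gt
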