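import Pool.Agent.Lib.MP_14b623_gt.TRepar
import Pool.Agent.Lib.MP_14b623_gt.TCurveF
import Pool.Agent.Lib.MP_14b623_gt.TSinc

namespace Pool.Agent.Lib.MP_14b623_gt

open Set Real Function
open scoped ComplexConjugate InnerProductSpace

lemma tcurve2_dot_av {F : ℝ → V} (hF : Continuous F) (x : V) :
    dot (fun i => av fun θ => F θ i) x = av fun θ => dot (F θ) x := by
  have hi : ∀ i : Fin 3, IntervalIntegrable (fun θ => F θ i * x i) MeasureTheory.volume 0 (2 * π) :=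
    fun i => (by fun_prop : Continuous fun θ => F θ i * x i).intervalIntegrable _ _
  simp only [dot, av]
  rw [intervalIntegral.integral_add ((hi 0).add (hi 1)) (hi 2),
    intervalIntegral.integral_add (hi 0) (hi 1)]
  simp only [intervalIntegral.integral_mul_const]
  ring

theorem SCurve.sinc (c : SCurve) (hl : c.len ≤ 1) (θ₀ : ℝ) :
    sin (π * c.len) / π ≤ dot (fun i => av fun θ => c.u θ * c.g θ i) (c.g θ₀) := by
  obtain ⟨d, ϑ, hu, -, hsurj, -, -, hg, -, -, hav⟩ := c.exists_repar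
  obtain ⟨σ₀, rfl⟩ := hsurj θ₀
  have hc0 := c.c0
  have hcu := c.cu
  have hpos := c.len_pos
  have h := curve_sinc d.g d.g1 c.len d.d1 d.p0 d.sph (fun σ => by rw [d.speed, hu]) hpos hl σ₀
  have e1 := tcurve2_dot_av (F := fun θ => c.u θ • c.g θ) (by fun_prop) (c.g (ϑ σ₀))
  have e2 := hav (fun θ => dot (c.g θ) (c.g (ϑ σ₀))) (by fun_prop)
  have e3 : (fun θ => dot (c.u θ • c.g θ) (c.g (ϑ σ₀))) =
      fun θ => c.u θ * dot (c.g θ) (c.g (ϑ σ₀)) := by
    funext θ; simp only [dot, Pi.smul_apply, smul_eq_mul]; ring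
  simp only [Pi.smul_apply, smul_eq_mul] at e1
  rw [e1, e3, e2]
  simp only [hg] at h
  have e4 : sin (π * c.len) / π = c.len * (sin (π * c.len) / (π * c.len)) := by
    field_simp
  rw [e4]
  exact mul_le_mul_of_nonneg_left h hpos.le

theorem SCurve.bounds (c : SCurve) (hl : c.len ≤ 1) (φ : ℝ) (hφ : 0 < φ)
    (h0 : av (fun θ => c.u θ * c.g θ 0) = 0) (h1 : av (fun θ => c.u θ * c.g θ 1) = 0)
    (h2 : av (fun θ => c.u θ * c.g θ 2) = φ) :
    0 ≤ Dfc φ c.len ∧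
    av (fun θ => c.u θ * (c.g θ 2 - φ / c.len) ^ 2) ≤ c.len * (Dfc φ c.len / 3) ∧
    ∀ θ, |c.g θ 2 - φ / c.len| ≤ osc φ c.len := by
  obtain ⟨d, ϑ, hu, -, hsurj, -, -, hg, -, -, hav⟩ := c.exists_repar
  have hc0 := c.c0
  have hpos := c.len_pos
  have k0 := hav (fun θ => c.g θ 0) (by fun_prop)
  have k1 := hav (fun θ => c.g θ 1) (by fun_prop)
  have k2 := hav (fun θ => c.g θ 2) (by fun_prop)
  rw [h0] at k0
  rw [h1] at k1
  rw [h2] at k2
  have H := curve_fourier d.g d.g1 c.len (φ / c.len) d.d1 d.c1 d.p0 d.sph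
    (fun σ => by rw [d.speed, hu]) (by nlinarith) (div_pos hφ hpos)
    (by simp only [hg]; exact (mul_eq_zero.1 k0.symm).resolve_left hpos.ne')
    (by simp only [hg]; exact (mul_eq_zero.1 k1.symm).resolve_left hpos.ne')
    (by simp only [hg]; rw [eq_div_iff hpos.ne', k2]; ring)
  simp only [hg] at H
  obtain ⟨H1, H2, H3⟩ := H
  refine ⟨H1, ?_, fun θ => ?_⟩
  · rw [hav (fun θ => (c.g θ 2 - φ / c.len) ^ 2) (by fun_prop)]
    exact mul_le_mul_of_nonneg_left H2 hpos.le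
  · obtain ⟨σ, rfl⟩ := hsurj θ
    exact H3 σ

end Pool.Agent.Lib.MP_14b623_gt
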