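import Pool.Agent.Lib.MP_14b623_gt.CvxBasic

namespace Pool.Agent.Lib.MP_14b623_gt

open Set Real Function
open scoped ComplexConjugate InnerProductSpace

lemma tend_av_mono {f g : ℝ → ℝ} (cf : Continuous f) (cg : Continuous g) (h : ∀ θ, f θ ≤ g θ) :
    av f ≤ av g := by
  unfold av
  have hp : (0 : ℝ) < 2 * π := by positivity
  exact div_le_div_of_nonneg_right (intervalIntegral.integral_mono_on hp.le
    (cf.intervalIntegrable _ _) (cg.intervalIntegrable _ _) fun x _ => h x) hp.le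

lemma tend_av_add {f g : ℝ → ℝ} (cf : Continuous f) (cg : Continuous g) :
    av (fun θ => f θ + g θ) = av f + av g := by
  unfold av
  rw [intervalIntegral.integral_add (cf.intervalIntegrable _ _) (cg.intervalIntegrable _ _),
    add_div]

lemma tend_av_mul (c : ℝ) (f : ℝ → ℝ) : av (fun θ => c * f θ) = c * av f := by
  unfold av
  rw [intervalIntegral.integral_const_mul, mul_div_assoc]

lemma tend_av_const (c : ℝ) : av (fun _ => c) = c := by
  unfold av
  have hp : (0 : ℝ) < 2 * π := by positivity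
  rw [intervalIntegral.integral_const, smul_eq_mul, sub_zero]
  field_simp

lemma tend_lin {f f1 f2 f3 f4 f5 : ℝ → ℝ} (cf : Continuous f) (k1 : Continuous f1)
    (k2 : Continuous f2) (k3 : Continuous f3) (k4 : Continuous f4) (k5 : Continuous f5)
    (c0 c1 c2 c3 c4 c5 : ℝ)
    (hp : ∀ θ, c0 + c1 * f1 θ + c2 * f2 θ + c3 * f3 θ + c4 * f4 θ + c5 * f5 θ ≤ f θ) :
    c0 + c1 * av f1 + c2 * av f2 + c3 * av f3 + c4 * av f4 + c5 * av f5 ≤ av f := by
  have h := tend_av_mono (by fun_prop) cf hp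
  rw [tend_av_add (by fun_prop) (by fun_prop), tend_av_add (by fun_prop) (by fun_prop),
    tend_av_add (by fun_prop) (by fun_prop), tend_av_add (by fun_prop) (by fun_prop),
    tend_av_add (by fun_prop) (by fun_prop), tend_av_const, tend_av_mul, tend_av_mul,
    tend_av_mul, tend_av_mul, tend_av_mul] at h
  exact h

lemma tend_point {k H u y τ q : ℝ} (hk : 0 < k) (hkH : k ≤ H) (hu : 0 < u) (hy : y ^ 2 ≤ u)
    (hq : 1 / k ≤ q) : 2 * τ * y - τ ^ 2 * (u * q) + τ ^ 2 * ((u - y ^ 2) / H) ≤ k := by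
  have h1 : (u - y ^ 2) / H ≤ (u - y ^ 2) / k :=
    div_le_div_of_nonneg_left (by linarith) hk hkH
  have h2 : u / k ≤ u * q := by
    have := mul_le_mul_of_nonneg_left hq hu.le
    rwa [mul_one_div] at this
  have h3 : 2 * τ * y - τ ^ 2 * (y ^ 2 / k) ≤ k := by
    have e : k - (2 * τ * y - τ ^ 2 * (y ^ 2 / k)) = (k - τ * y) ^ 2 / k := by
      field_simp
      ring
    have : 0 ≤ (k - τ * y) ^ 2 / k := by positivity
    linarith
  have h4 : (u - y ^ 2) / k = u / k - y ^ 2 / k := sub_div _ _ _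
  have h5 : 0 ≤ τ ^ 2 := sq_nonneg τ
  have h6 := mul_le_mul_of_nonneg_left h1 h5
  have h7 := mul_le_mul_of_nonneg_left h2 h5
  rw [h4] at h6
  nlinarith

lemma tend_inv {k x x1 : ℝ} (hx : 0 < x) (hx1 : 0 < x1) (hk : x ≤ k) :
    1 / k ≤ 1 / x1 - (k - x1) / x1 ^ 2 + (k - x1) ^ 2 / (x * x1 ^ 2) := by
  have hk0 : 0 < k := lt_of_lt_of_le hx hk
  have e : 1 / x1 - (k - x1) / x1 ^ 2 + (k - x1) ^ 2 / (x * x1 ^ 2) - 1 / k
      = (k - x1) ^ 2 * (k - x) / (k * x * x1 ^ 2) := by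
    field_simp
    ring
  have : 0 ≤ (k - x1) ^ 2 * (k - x) / (k * x * x1 ^ 2) := by
    have : 0 ≤ k - x := by linarith
    positivity
  linarith

lemma tend_coef {x m W : ℝ} (hx : 0 < x) (hm : 0 ≤ m) (hW : 0 ≤ W) :
    ∃ α β δ : ℝ, 0 ≤ δ ∧ (α + δ * W) * (x + x * m ^ 2 / (x * m + W)) ≤ 1 ∧
      ∀ d : ℝ, -m ≤ d → 1 / (d + m + x) ≤ α + β * d + δ * d ^ 2 := by
  rcases hm.eq_or_lt with h0 | hm
  · subst h0
    refine ⟨1 / x, 0, 0, le_rfl, ?_, fun d hd => ?_⟩
    · simp [hx.ne']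
    · simp only [zero_mul, add_zero]
      exact one_div_le_one_div_of_le hx (by linarith)
  · have hx1 : 0 < x + m + W / m := by positivity
    refine ⟨1 / (x + m + W / m) + (W / m) / (x + m + W / m) ^ 2
        + (W / m) ^ 2 / (x * (x + m + W / m) ^ 2),
      -1 / (x + m + W / m) ^ 2 - 2 * (W / m) / (x * (x + m + W / m) ^ 2),
      1 / (x * (x + m + W / m) ^ 2), by positivity, le_of_eq ?_, fun d hd => ?_⟩
    · have h1 : 0 < x * m + W := by positivity
      have h2 : x + m + W / m = (x * m + m ^ 2 + W) / m := by field_simp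
      have h3 : 0 < x * m + m ^ 2 + W := by positivity
      rw [h2]
      field_simp
      ring
    · refine (tend_inv hx hx1 (by linarith : x ≤ d + m + x)).trans (le_of_eq ?_)
      generalize W / m = r at hx1 ⊢
      field_simp
      ring

theorem endD_of_fun {u h y : ℝ → ℝ} {φ l M : ℝ} (cu : Continuous u) (ch : Continuous h)
    (cy : Continuous y) (upos : ∀ θ, 0 < u θ) (hl : av u = l) (hl1 : l ≤ 1) (hφ : 0 < φ)
    (hφe : av (fun θ => u θ * h θ) = φ) (h1 : ∀ θ, h θ ≤ 1)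
    (hsin : ∀ θ, sin (π * l) / π ≤ φ * h θ) (hD : 0 ≤ Dfc φ l)
    (hvar : av (fun θ => u θ * (h θ - φ / l) ^ 2) ≤ l * (Dfc φ l / 3))
    (hosc : ∀ θ, |h θ - φ / l| ≤ osc φ l) (hy : ∀ θ, y θ ^ 2 ≤ u θ) (hM0 : 0 ≤ M) (hMl : M ≤ l)
    (hyM : av y = √M) : EndD φ l M (av h) (l - av fun θ => y θ ^ 2) := by
  have hφl : φ ≤ l := by
    rw [← hφe, ← hl]
    exact tend_av_mono (by fun_prop) cu fun θ => by nlinarith [upos θ, h1 θ]
  have hl0 : 0 < l := lt_of_lt_of_le hφ hφl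
  have hZ : 0 ≤ l - av fun θ => y θ ^ 2 := by
    have := tend_av_mono (f := fun θ => y θ ^ 2) (by fun_prop) cu hy
    linarith
  have hlow : ∀ hm, IsLow φ l hm → ∀ θ, hm ≤ h θ := by
    intro hm hh θ
    rcases hh with hh | hh
    · refine hh.trans ?_
      rw [← div_div, div_le_iff₀ hφ]
      linarith [hsin θ]
    · linarith [(abs_le.1 (hosc θ)).1]
  have hup : ∀ hp, IsUp φ l hp → ∀ θ, h θ ≤ hp := by
    intro hp hh θ
    rcases hh with hh | hh
    · linarith [h1 θ]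
    · linarith [(abs_le.1 (hosc θ)).2]
  have hlw : ∀ hm, IsLow φ l hm → hm ≤ φ / l := by
    intro hm hh
    rw [le_div_iff₀ hl0, ← hφe, ← hl, ← tend_av_mul]
    exact tend_av_mono (by fun_prop) (by fun_prop) fun θ => by
      nlinarith [upos θ, hlow hm hh θ]
  refine ⟨hl0, hl1, hM0, hMl, hZ, hφl, hD, hlw, ?_⟩
  intro hm hp H x γ hlo hu hx hH hHx hγ hγH
  rcases hx.eq_or_lt with h0 | hx
  · subst h0
    have ht : tt φ l hm 0 = 0 := by simp [tt]
    rw [ht] at hγH ⊢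
    have hγ0 : γ = 0 := by
      have : γ * H ≤ 0 := by simpa using hγH
      nlinarith
    have := tend_av_mono continuous_const ch (hlow hm hlo)
    rw [tend_av_const] at this
    simpa [hγ0] using this
  have hm0 : 0 ≤ φ / l - hm := by linarith [hlw hm hlo]
  have hW : 0 ≤ Dfc φ l / 3 := by linarith
  obtain ⟨α, β, δ, hδ, hαδ, hq⟩ := tend_coef hx hm0 hW
  have htt : x * (φ / l - hm) ^ 2 / (x * (φ / l - hm) + Dfc φ l / 3) = tt φ l hm x := rfl
  have ht0 : 0 ≤ tt φ l hm x := by rw [← htt]; positivity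
  rw [htt] at hαδ
  generalize tt φ l hm x = t at *
  generalize Dfc φ l / 3 = W at *
  have hwl : φ = φ / l * l := by field_simp
  generalize φ / l = w at *
  obtain ⟨τ, hτ⟩ : ∃ τ, τ = √M * (x + t) / l := ⟨_, rfl⟩
  have hs : √M ^ 2 = M := Real.sq_sqrt hM0
  have key := tend_lin (f := h) (f1 := y) (f2 := fun θ => y θ ^ 2) (f3 := u)
    (f4 := fun θ => u θ * h θ) (f5 := fun θ => u θ * (h θ - w) ^ 2) ch cy (by fun_prop) cu
    (by fun_prop) (by fun_prop) (hm - x) (2 * τ) (-(τ ^ 2 / H))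
    (-(τ ^ 2 * α) + τ ^ 2 * β * w + τ ^ 2 / H) (-(τ ^ 2 * β)) (-(τ ^ 2 * δ)) (fun θ => by
      have a1 := hlow hm hlo θ
      have a2 := hup hp hu θ
      have a3 := hq (h θ - w) (by linarith)
      have a4 := tend_point (k := h θ - w + (w - hm) + x) (H := H) (τ := τ) (by linarith)
        (by linarith) (upos θ) (hy θ) a3
      have a5 : τ ^ 2 * ((u θ - y θ ^ 2) / H) = τ ^ 2 / H * u θ - τ ^ 2 / H * y θ ^ 2 := by ring
      rw [a5] at a4
      linarith)
  rw [hyM, hl, hφe] at key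
  generalize (av fun θ => y θ ^ 2) = Y at *
  generalize (av fun θ => u θ * (h θ - w) ^ 2) = Q at *
  have e1 : τ * √M = M / l * (x + t) := by
    rw [hτ]
    field_simp
    rw [hs]
  have e2 : τ ^ 2 * l = M / l * (x + t) ^ 2 := by
    rw [hτ]
    field_simp
    rw [hs]
  have hMl0 : 0 ≤ M / l := by positivity
  have hxt : 0 < x + t := by linarith
  have b1 : τ ^ 2 * δ * Q ≤ τ ^ 2 * δ * (l * W) :=
    mul_le_mul_of_nonneg_left hvar (by positivity)
  have b2 : τ ^ 2 * l * (α + δ * W) ≤ M / l * (x + t) := by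
    rw [e2]
    have := mul_le_mul_of_nonneg_left hαδ (mul_nonneg hMl0 hxt.le)
    nlinarith
  have b3 : γ * (l - Y) / l ≤ τ ^ 2 / H * (l - Y) := by
    have : γ / l ≤ τ ^ 2 / H := by
      rw [div_le_div_iff₀ hl0 hH]
      linarith
    have := mul_le_mul_of_nonneg_right this hZ
    calc γ * (l - Y) / l = γ / l * (l - Y) := by ring
      _ ≤ _ := this
  rw [hwl] at key
  nlinarith

end Pool.Agent.Lib.MP_14b623_gt
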