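import Pool.Agent.Lib.MP_14b623_gt.TGlue1

namespace Pool.Agent.Lib.MP_14b623_gt

open Set Real Function
open scoped ComplexConjugate InnerProductSpace

lemma tglue2_basis (F : E3) :
    ∃ b : OrthonormalBasis (Fin 3) ℝ E3,
      ⟪b 0, F⟫_ℝ = 0 ∧ ⟪b 1, F⟫_ℝ = 0 ∧ 0 ≤ ⟪b 2, F⟫_ℝ := by
  by_cases hF : F = 0
  · exact ⟨EuclideanSpace.basisFun (Fin 3) ℝ, by simp [hF]⟩
  have hn : 0 < ‖F‖ := norm_pos_iff.2 hF
  have ho : Orthonormal ℝ (({2} : Set (Fin 3)).domRestrict fun _ : Fin 3 => (‖F‖⁻¹ : ℝ) • F) := by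
    refine ⟨fun i => ?_, fun i j hij => ?_⟩
    · simp only [domRestrict_apply]
      rw [norm_smul, norm_inv, norm_norm, inv_mul_cancel₀ hn.ne']
    · exact absurd (Subsingleton.elim i j) hij
  obtain ⟨b, hb⟩ := ho.exists_orthonormalBasis_extension_of_card_eq (by simp)
  have h2 : F = ‖F‖ • b 2 := by
    rw [hb 2 rfl, smul_smul, mul_inv_cancel₀ hn.ne', one_smul]
  have key : ∀ i, ⟪b i, F⟫_ℝ = ‖F‖ * ⟪b i, b 2⟫_ℝ := fun i => by
    conv_lhs => rw [h2]
    rw [real_inner_smul_right]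
  refine ⟨b, ?_, ?_, ?_⟩
  · rw [key, b.orthonormal.2 (by decide), mul_zero]
  · rw [key, b.orthonormal.2 (by decide), mul_zero]
  · rw [key]
    exact mul_nonneg hn.le real_inner_self_nonneg

theorem exists_ann0 {A B : ℝ} {X : ℝ × ℝ → E3} (h : IsFBMAnnulus A B X)
    (hc : IsConformal A B X) :
    ∃ S : Ann0, S.Vertical ∧
      area A B X = ∫ t in S.A..S.B, ∫ θ in (0 : ℝ)..(2 * π), S.u t θ ^ 2 := by
  obtain ⟨b, b0, b1, b2⟩ := tglue2_basis (∫ θ in (0 : ℝ)..(2 * π), dT X (B, θ))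
  obtain ⟨S, hA, hB, hXt, hu⟩ := exists_ann0_of_basis h hc b
  have hcont : Continuous fun θ : ℝ => dT X (B, θ) := by
    have h1 : Continuous (fderiv ℝ X) := h.smooth.continuous_fderiv (by norm_num)
    unfold dT
    fun_prop
  have key : ∀ i, av (fun θ => S.Xt S.B θ i) =
      ⟪b i, ∫ θ in (0 : ℝ)..(2 * π), dT X (B, θ)⟫_ℝ / (2 * π) := by
    intro i
    have := (innerSL ℝ (b i)).intervalIntegral_comp_comm
      (hcont.intervalIntegrable (μ := MeasureTheory.volume) 0 (2 * π))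
    simp only [innerSL_apply_apply] at this
    simp only [av, hXt, hB, this]
  refine ⟨S, ⟨by rw [key, b0, zero_div], by rw [key, b1, zero_div], ?_⟩, ?_⟩
  · unfold Ann0.phi
    rw [key]
    positivity
  · rw [hA, hB]
    refine intervalIntegral.integral_congr fun t ht => ?_
    rw [uIcc_of_le h.lt.le] at ht
    refine intervalIntegral.integral_congr fun θ _ => ?_
    obtain ⟨h1, h2⟩ := hc (t, θ) ht
    have h3 : gE X (t, θ) = S.u t θ ^ 2 := by rw [hu, gE, real_inner_self_eq_norm_sq]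
    simp only [← h1, h2, h3]
    rw [show S.u t θ ^ 2 * S.u t θ ^ 2 - 0 ^ 2 = (S.u t θ ^ 2) ^ 2 by ring, sqrt_sq (sq_nonneg _)]

end Pool.Agent.Lib.MP_14b623_gt
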