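import Pool.Agent.Lib.MP_14b623_gt.THolo

namespace Pool.Agent.Lib.MP_14b623_gt

open Set Real Function
open scoped ComplexConjugate InnerProductSpace

/-- The derivative of `u • g` along a spherical curve. -/
lemma thopf_deriv (c : SCurve) (θ : ℝ) :
    HasDerivAt (fun θ => c.u θ • c.g θ)
      (c.u θ • c.g1 θ + (dot (c.g1 θ) (c.g2 θ) / c.u θ) • c.g θ) θ :=
  (c.hasDerivAt_u θ).smul (c.d1 θ)

lemma thopf_alg (c : SCurve) (θ : ℝ) (Y : V)
    (hY : Y = c.u θ • c.g1 θ + (dot (c.g1 θ) (c.g2 θ) / c.u θ) • c.g θ) :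
    dot (c.g2 θ) Y = 0 ∧
      c.kap θ ^ 2 = (dot (c.g2 θ) (c.g2 θ) - dot Y Y) * c.u θ ^ 2 := by
  have hu : c.u θ ≠ 0 := (c.upos θ).ne'
  have h1 := c.sph θ
  have h2 := c.orth θ
  have h3 := c.speed θ
  have h4 := c.dot_g_g2 θ
  set a := dot (c.g1 θ) (c.g2 θ) with ha
  have e1 : dot (c.g2 θ) Y = c.u θ * dot (c.g1 θ) (c.g2 θ)
      + a / c.u θ * dot (c.g θ) (c.g2 θ) := by
    rw [hY]
    simp only [dot, Pi.add_apply, Pi.smul_apply, smul_eq_mul]; ring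
  have e2 : dot Y Y = c.u θ ^ 2 * dot (c.g1 θ) (c.g1 θ)
      + 2 * c.u θ * (a / c.u θ) * dot (c.g θ) (c.g1 θ)
      + (a / c.u θ) ^ 2 * dot (c.g θ) (c.g θ) := by
    rw [hY]
    simp only [dot, Pi.add_apply, Pi.smul_apply, smul_eq_mul]; ring
  have e3 := det3_mul_det3 (c.g θ) (c.g1 θ) (c.g2 θ) (c.g θ) (c.g1 θ) (c.g2 θ)
  rw [dot_comm (c.g1 θ) (c.g θ), dot_comm (c.g2 θ) (c.g θ), dot_comm (c.g2 θ) (c.g1 θ),
    h1, h2, h3, h4, ← ha] at e3
  constructor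
  · rw [e1, h4, ← ha]; field_simp; ring
  · rw [e2, h1, h2, h3, sq, SCurve.kap, e3]; field_simp; ring

/-- The square of the Hopf differential. -/
noncomputable def Ann0.thopfPsi (S : Ann0) (z : ℂ) : ℂ :=
  S.Phi1 0 z ^ 2 + S.Phi1 1 z ^ 2 + S.Phi1 2 z ^ 2

lemma Ann0.thopf_re (S : Ann0) (z : ℂ) : (S.thopfPsi z).re =
    dot (S.Xtt z.re z.im) (S.Xtt z.re z.im) - dot (S.Xts z.re z.im) (S.Xts z.re z.im) := by
  simp only [Ann0.thopfPsi, Ann0.Phi1, dot, sq, Complex.add_re, Complex.mul_re, Complex.sub_re,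
    Complex.sub_im, Complex.mul_im, Complex.ofReal_re, Complex.ofReal_im, Complex.I_re,
    Complex.I_im]
  ring

lemma Ann0.thopf_im (S : Ann0) (z : ℂ) : (S.thopfPsi z).im =
    -2 * dot (S.Xtt z.re z.im) (S.Xts z.re z.im) := by
  simp only [Ann0.thopfPsi, Ann0.Phi1, dot, sq, Complex.add_im, Complex.mul_re, Complex.sub_re,
    Complex.sub_im, Complex.mul_im, Complex.ofReal_re, Complex.ofReal_im, Complex.I_re,
    Complex.I_im]
  ring

lemma Ann0.thopf_XtsB (S : Ann0) (θ : ℝ) : S.Xts S.B θ = S.curveB.u θ • S.curveB.g1 θ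
    + (dot (S.curveB.g1 θ) (S.curveB.g2 θ) / S.curveB.u θ) • S.curveB.g θ := by
  have h1 := S.dXts S.B θ
  have h2 := thopf_deriv S.curveB θ
  have e : S.Xt S.B = fun θ => S.curveB.u θ • S.curveB.g θ := by
    funext θ; exact S.nB θ
  rw [e] at h1
  exact h1.unique h2

lemma Ann0.thopf_XtsA (S : Ann0) (θ : ℝ) : S.Xts S.A θ = S.curveA.u θ • S.curveA.g1 θ
    + (dot (S.curveA.g1 θ) (S.curveA.g2 θ) / S.curveA.u θ) • S.curveA.g θ := by
  have h1 := S.dXts S.A θ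
  have h2 := thopf_deriv S.curveA θ
  have e : S.Xt S.A = fun θ => S.curveA.u θ • S.curveA.g θ := by
    funext θ
    rw [S.nA θ]
    simp [Ann0.curveA]
  rw [e] at h1
  exact h1.unique h2

lemma Ann0.thopf_B (S : Ann0) (z : ℂ) (hz : z.re = S.B) :
    (S.thopfPsi z).im = 0 ∧
      S.curveB.kap z.im ^ 2 = (S.thopfPsi z).re * S.u S.B z.im ^ 2 := by
  obtain ⟨h1, h2⟩ := thopf_alg S.curveB z.im _ (S.thopf_XtsB z.im)
  have h3 : S.Xtt S.B z.im = -S.curveB.g2 z.im :=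
    eq_neg_of_add_eq_zero_left (S.harm _ S.memB z.im)
  rw [S.thopf_re, S.thopf_im, hz, h3]
  constructor
  · have : dot (-S.curveB.g2 z.im) (S.Xts S.B z.im) = -dot (S.curveB.g2 z.im) (S.Xts S.B z.im) := by
      simp only [dot, Pi.neg_apply]; ring
    rw [this, h1]; ring
  · have : dot (-S.curveB.g2 z.im) (-S.curveB.g2 z.im)
        = dot (S.curveB.g2 z.im) (S.curveB.g2 z.im) := by
      simp only [dot, Pi.neg_apply]; ring
    rw [this, h2]; rfl

lemma Ann0.thopf_A (S : Ann0) (z : ℂ) (hz : z.re = S.A) :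
    (S.thopfPsi z).im = 0 ∧
      S.curveA.kap z.im ^ 2 = (S.thopfPsi z).re * S.u S.A z.im ^ 2 := by
  obtain ⟨h1, h2⟩ := thopf_alg S.curveA z.im _ (S.thopf_XtsA z.im)
  have h3 : S.Xtt S.A z.im = S.curveA.g2 z.im :=
    eq_neg_of_add_eq_zero_left (S.harm _ S.memA z.im)
  rw [S.thopf_re, S.thopf_im, hz, h3]
  constructor
  · rw [h1]; ring
  · rw [h2]; rfl

lemma Ann0.thopf_cont (S : Ann0) : Continuous S.thopfPsi :=
  (((S.continuous_Phi1 0).pow 2).add ((S.continuous_Phi1 1).pow 2)).add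
    ((S.continuous_Phi1 2).pow 2)

lemma Ann0.thopf_diff (S : Ann0) :
    DifferentiableOn ℂ S.thopfPsi {z | S.A < z.re ∧ z.re < S.B} :=
  (((S.differentiableOn_Phi1 0).pow 2).add ((S.differentiableOn_Phi1 1).pow 2)).add
    ((S.differentiableOn_Phi1 2).pow 2)

lemma Ann0.thopf_per (S : Ann0) (z : ℂ) :
    S.thopfPsi (z + 2 * π * Complex.I) = S.thopfPsi z := by
  simp only [Ann0.thopfPsi, S.Phi1_periodic]

lemma Ann0.thopf_im_le (S : Ann0) (k : ℝ) (z : ℂ) (h1 : S.A ≤ z.re) (h2 : z.re ≤ S.B) :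
    k * (S.thopfPsi z).im ≤ 0 := by
  have hn : ∀ w : ℂ, ‖Complex.exp (-(k : ℂ) * Complex.I * S.thopfPsi w)‖
      = Real.exp (k * (S.thopfPsi w).im) := by
    intro w
    rw [Complex.norm_exp]
    congr 1
    simp
  have := strip_max (f := fun w => Complex.exp (-(k : ℂ) * Complex.I * S.thopfPsi w))
    (A := S.A) (B := S.B) (C := 1)
    ((continuous_const.mul S.thopf_cont).cexp)
    (((differentiableOn_const _).mul S.thopf_diff).cexp)
    (fun w => by simp only [S.thopf_per])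
    (fun w hw => by rw [hn, (S.thopf_A w hw).1]; simp)
    (fun w hw => by rw [hn, (S.thopf_B w hw).1]; simp) z h1 h2
  rw [hn] at this
  exact Real.exp_le_one_iff.1 this

lemma Ann0.thopf_const (S : Ann0) :
    ∃ c : ℂ, ∀ z : ℂ, S.A ≤ z.re → z.re ≤ S.B → S.thopfPsi z = c := by
  have hU : IsOpen {z : ℂ | S.A < z.re ∧ z.re < S.B} :=
    (isOpen_lt continuous_const Complex.continuous_re).inter
      (isOpen_lt Complex.continuous_re continuous_const)
  have hconv : Convex ℝ {z : ℂ | S.A < z.re ∧ z.re < S.B} :=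
    (convex_halfSpace_re_gt S.A).inter (convex_halfSpace_re_lt S.B)
  have hne : ({z : ℂ | S.A < z.re ∧ z.re < S.B} : Set ℂ).Nonempty := by
    refine ⟨(((S.A + S.B) / 2 : ℝ) : ℂ), ?_, ?_⟩
    · rw [Complex.ofReal_re]; linarith [S.hAB]
    · rw [Complex.ofReal_re]; linarith [S.hAB]
  obtain ⟨c, hc⟩ := AnalyticOnNhd.eq_const_of_im_eq_const (c₀ := 0)
    (S.thopf_diff.analyticOnNhd hU) (fun z hz => by
      have a1 := S.thopf_im_le 1 z hz.1.le hz.2.le
      have a2 := S.thopf_im_le (-1) z hz.1.le hz.2.le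
      linarith) hU ⟨hne, hconv.isPreconnected⟩
  refine ⟨c, fun z h1 h2 => ?_⟩
  have hcl : IsClosed {t : ℝ | S.thopfPsi ((t : ℂ) + z.im * Complex.I) = c} :=
    isClosed_eq (S.thopf_cont.comp (Complex.continuous_ofReal.add continuous_const))
      continuous_const
  have hsub : Ioo S.A S.B ⊆ {t : ℝ | S.thopfPsi ((t : ℂ) + z.im * Complex.I) = c} := by
    intro t ht
    apply hc
    constructor
    · simpa using ht.1
    · simpa using ht.2
  have hmem : z.re ∈ closure (Ioo S.A S.B) := by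
    rw [closure_Ioo S.hAB.ne]; exact ⟨h1, h2⟩
  have := hcl.closure_subset_iff.2 hsub hmem
  simpa [Complex.re_add_im] using this

theorem Ann0.hopf (S : Ann0) : ∃ c : ℝ, (∀ θ, S.curveB.kap θ ^ 2 = c * S.u S.B θ ^ 2) ∧
    ∀ θ, S.curveA.kap θ ^ 2 = c * S.u S.A θ ^ 2 := by
  obtain ⟨c, hc⟩ := S.thopf_const
  refine ⟨c.re, fun θ => ?_, fun θ => ?_⟩
  · have h := (S.thopf_B ⟨S.B, θ⟩ rfl).2
    rw [hc _ S.hAB.le le_rfl] at h
    exact h
  · have h := (S.thopf_A ⟨S.A, θ⟩ rfl).2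
    rw [hc _ le_rfl S.hAB.le] at h
    exact h

end Pool.Agent.Lib.MP_14b623_gt
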