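import Pool.Agent.Lib.MP_14b623_gt.TFour

namespace Pool.Agent.Lib.MP_14b623_gt

open Set Real Function
open scoped ComplexConjugate InnerProductSpace

lemma tseqa_av_add {f g : ℝ → ℝ} (hf : Continuous f) (hg : Continuous g) :
    av (fun θ => f θ + g θ) = av f + av g := by
  simp only [av]
  rw [intervalIntegral.integral_add (hf.intervalIntegrable _ _) (hg.intervalIntegrable _ _)]
  ring

lemma tseqa_av_mul (c : ℝ) (f : ℝ → ℝ) : av (fun θ => c * f θ) = c * av f := by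
  simp only [av]
  rw [intervalIntegral.integral_const_mul]
  ring

lemma tseqa_av_mono {f g : ℝ → ℝ} (hf : Continuous f) (hg : Continuous g) (h : ∀ θ, f θ ≤ g θ) :
    av f ≤ av g := by
  simp only [av]
  refine div_le_div_of_nonneg_right ?_ two_pi_pos.le
  exact intervalIntegral.integral_mono_on two_pi_pos.le (hf.intervalIntegrable _ _)
    (hg.intervalIntegrable _ _) fun θ _ => h θ

lemma tseqa_cav_mul (c : ℂ) (f : ℝ → ℂ) : cav (fun θ => c * f θ) = c * cav f := by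
  simp only [cav]
  rw [intervalIntegral.integral_const_mul]
  ring

lemma tseqa_shift (f : ℝ → ℂ) (n : ℤ) :
    fc (fun θ => f θ * Complex.exp (θ * Complex.I)) n = fc f (n - 1) := by
  have := fc_shift f 1 n
  simpa using this

lemma tseqa_norm_sq (a : ℂ) (n : ℤ) (t : ℝ) :
    ‖a * (Real.exp (((n : ℝ) + 1 / 2) * t) : ℝ)‖ ^ 2
      = ‖a‖ ^ 2 * Real.exp ((2 * (n : ℝ) + 1) * t) := by
  rw [norm_mul, Complex.norm_real, Real.norm_eq_abs, mul_pow, sq_abs, ← Real.exp_nat_mul]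
  congr 2
  push_cast
  ring

lemma tseqa_energy {A B φ : ℝ} {u : ℝ → ℝ → ℝ} (P : Spin A B φ u) (t : ℝ) (ht : t ∈ Icc A B) :
    HasSum (fun n : ℤ => (‖P.a n‖ ^ 2 + ‖P.b n‖ ^ 2) * Real.exp ((2 * (n : ℝ) + 1) * t))
      (av (u t)) := by
  have h1 := fc_parseval_sq (P.c1 t ht)
  have h2 := fc_parseval_sq (P.c2 t ht)
  have hc1 := P.c1 t ht
  have hc2 := P.c2 t ht
  have h := h1.add h2
  rw [← tseqa_av_add (by fun_prop) (by fun_prop)] at h
  have e : (fun θ => ‖P.g1 t θ‖ ^ 2 + ‖P.g2 t θ‖ ^ 2) = u t := funext (P.hu t ht)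
  rw [e] at h
  convert h using 2 with n
  rw [P.ha t ht, P.hb t ht, tseqa_norm_sq, tseqa_norm_sq]
  ring

lemma tseqa_pair {f g : ℝ → ℂ} (hf : Continuous f) (hg : Continuous g) {a b : ℤ → ℂ} {t : ℝ}
    (ha : ∀ n : ℤ, fc f n = a n * (Real.exp (((n : ℝ) + 1 / 2) * t) : ℝ))
    (hb : ∀ n : ℤ, fc g n = b n * (Real.exp (((n : ℝ) + 1 / 2) * t) : ℝ)) :
    HasSum (fun n : ℤ => a n * b (-n - 1))
      (cav fun θ => f θ * g θ * Complex.exp (θ * Complex.I)) := by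
  have h := fc_bilin hf (g := fun θ => g θ * Complex.exp (θ * Complex.I)) (by fun_prop)
  simp only [← mul_assoc] at h
  convert h using 2 with n
  rw [tseqa_shift, ha, hb]
  have : Real.exp (((n : ℝ) + 1 / 2) * t) * Real.exp ((((-n - 1 : ℤ) : ℝ) + 1 / 2) * t) = 1 := by
    rw [← Real.exp_add, Real.exp_eq_one_iff]
    push_cast
    ring
  have h2 : ((Real.exp (((n : ℝ) + 1 / 2) * t) : ℝ) : ℂ) *
      (Real.exp ((((-n - 1 : ℤ) : ℝ) + 1 / 2) * t) : ℝ) = 1 := by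
    rw [← Complex.ofReal_mul, this, Complex.ofReal_one]
  linear_combination (-(a n * b (-n - 1))) * h2

theorem Spin.seqD {A B φ : ℝ} {u : ℝ → ℝ → ℝ} (P : Spin A B φ u) (hAB : A < B) :
    SeqD A B φ (av (u A)) (av (u B)) P.a P.b := by
  have hA : A ∈ Icc A B := left_mem_Icc.2 hAB.le
  have hB : B ∈ Icc A B := right_mem_Icc.2 hAB.le
  refine ⟨tseqa_energy P A hA, tseqa_energy P B hB, ?_, ?_, ?_⟩
  · rw [← P.z11]
    exact tseqa_pair (P.c1 B hB) (P.c1 B hB) (P.ha B hB) (P.ha B hB)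
  · rw [← P.z22]
    exact tseqa_pair (P.c2 B hB) (P.c2 B hB) (P.hb B hB) (P.hb B hB)
  · have h := (tseqa_pair (P.c2 B hB) (P.c1 B hB) (P.hb B hB) (P.ha B hB)).mul_left 2
    rw [← tseqa_cav_mul] at h
    rw [← P.z12]
    have e1 : (fun n : ℤ => 2 * P.a (-n - 1) * P.b n) = fun n => 2 * (P.b n * P.a (-n - 1)) := by
      funext n
      ring
    have e2 : (fun θ => 2 * P.g1 B θ * P.g2 B θ * Complex.exp (θ * Complex.I)) =
        fun θ => 2 * (P.g2 B θ * P.g1 B θ * Complex.exp (θ * Complex.I)) := by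
      funext θ
      ring
    rw [e1, e2]
    exact h

lemma tseqa_cs (α β x y : ℂ) :
    ‖α * x + β * y‖ ^ 2 ≤ (‖α‖ ^ 2 + ‖β‖ ^ 2) * (‖x‖ ^ 2 + ‖y‖ ^ 2) := by
  have h : ‖α * x + β * y‖ ≤ ‖α‖ * ‖x‖ + ‖β‖ * ‖y‖ := by
    calc ‖α * x + β * y‖ ≤ ‖α * x‖ + ‖β * y‖ := norm_add_le _ _
      _ = _ := by rw [norm_mul, norm_mul]
  have h2 : ‖α * x + β * y‖ ^ 2 ≤ (‖α‖ * ‖x‖ + ‖β‖ * ‖y‖) ^ 2 :=
    pow_le_pow_left₀ (norm_nonneg _) h 2
  nlinarith [sq_nonneg (‖α‖ * ‖y‖ - ‖β‖ * ‖x‖)]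

theorem Spin.exists_y {A B φ : ℝ} {u : ℝ → ℝ → ℝ} (P : Spin A B φ u) (t : ℝ) (ht : t ∈ Icc A B)
    (hM : 0 < mainM P.a P.b t) :
    Summable (fun n : ℤ => ‖parP P.a P.b t n‖ ^ 2) ∧
    ∑' n : ℤ, ‖parP P.a P.b t n‖ ^ 2 ≤ mainM P.a P.b t * av (u t) ∧
    ∃ y : ℝ → ℝ, Continuous y ∧ (∀ θ, y θ ^ 2 ≤ u t θ) ∧ av y = √(mainM P.a P.b t) ∧
      mainM P.a P.b t * av (fun θ => y θ ^ 2) ≤
        (mainM P.a P.b t * av (u t) + mainM P.a P.b t ^ 2) / 2 +
          ∑' n : ℕ, ‖parP P.a P.b t (n + 1)‖ * ‖parP P.a P.b t (-(n + 1))‖ := by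
  have hc1 := P.c1 t ht
  have hc2 := P.c2 t ht
  set M := mainM P.a P.b t with hMdef
  set α : ℂ := conj (P.a (-1)) * (Real.exp (-(t / 2)) : ℝ) with hα
  set β : ℂ := conj (P.b 0) * (Real.exp (t / 2) : ℝ) with hβ
  set Q : ℝ → ℂ := fun θ => α * (P.g1 t θ * Complex.exp (θ * Complex.I)) + β * P.g2 t θ with hQ
  have hQc : Continuous Q := by
    simp only [hQ]
    fun_prop
  have huc : Continuous (u t) := by
    have e : (fun θ => ‖P.g1 t θ‖ ^ 2 + ‖P.g2 t θ‖ ^ 2) = u t := funext (P.hu t ht)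
    rw [← e]
    fun_prop
  have hfc : ∀ n, fc Q n = parP P.a P.b t n := by
    intro n
    simp only [hQ]
    rw [fc_add (by fun_prop) (by fun_prop), fc_const_mul, fc_const_mul, tseqa_shift,
      P.ha t ht, P.hb t ht, parP, hα, hβ]
    have e1 : Real.exp (((n : ℝ) - 1) * t)
        = Real.exp (-(t / 2)) * Real.exp ((((n - 1 : ℤ) : ℝ) + 1 / 2) * t) := by
      rw [← Real.exp_add]
      congr 1
      push_cast
      ring
    have e2 : Real.exp (((n : ℝ) + 1) * t)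
        = Real.exp (t / 2) * Real.exp (((n : ℝ) + 1 / 2) * t) := by
      rw [← Real.exp_add]
      congr 1
      ring
    rw [e1, e2, Complex.ofReal_mul, Complex.ofReal_mul]
    ring
  have hαβ : ‖α‖ ^ 2 + ‖β‖ ^ 2 = M := by
    rw [hα, hβ, hMdef, mainM, norm_mul, norm_mul, Complex.norm_real, Complex.norm_real,
      Real.norm_eq_abs, Real.norm_eq_abs, mul_pow, mul_pow, sq_abs, sq_abs, ← Real.exp_nat_mul,
      ← Real.exp_nat_mul, Complex.norm_conj, Complex.norm_conj]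
    have e1 : ((2 : ℕ) : ℝ) * -(t / 2) = -t := by push_cast; ring
    have e2 : ((2 : ℕ) : ℝ) * (t / 2) = t := by push_cast; ring
    rw [e1, e2]
    ring
  have hQle : ∀ θ, ‖Q θ‖ ^ 2 ≤ M * u t θ := by
    intro θ
    have h := tseqa_cs α β (P.g1 t θ * Complex.exp (θ * Complex.I)) (P.g2 t θ)
    rw [hαβ, norm_mul, Complex.norm_exp_ofReal_mul_I, mul_one, P.hu t ht] at h
    exact h
  have hP0 : parP P.a P.b t 0 = (M : ℝ) := by
    rw [hMdef, mainM, parP]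
    simp only [Int.cast_zero, zero_sub, zero_add, neg_mul, one_mul]
    rw [Complex.conj_mul', Complex.conj_mul']
    push_cast
    ring
  have hpars := fc_parseval_sq hQc
  simp only [hfc] at hpars
  have havle : av (fun θ => ‖Q θ‖ ^ 2) ≤ M * av (u t) := by
    rw [← tseqa_av_mul]
    exact tseqa_av_mono (by fun_prop) (by fun_prop) hQle
  have hsq : 0 < √M := sqrt_pos.2 hM
  have hsq2 : √M ^ 2 = M := sq_sqrt hM.le
  refine ⟨hpars.summable, by rw [hpars.tsum_eq]; exact havle,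
    fun θ => (√M)⁻¹ * (Q θ).re, by fun_prop, fun θ => ?_, ?_, ?_⟩
  · have h1 : (Q θ).re ^ 2 ≤ ‖Q θ‖ ^ 2 := by
      rw [← sq_abs]
      exact pow_le_pow_left₀ (abs_nonneg _) (Complex.abs_re_le_norm _) 2
    rw [mul_pow, inv_pow, hsq2, inv_mul_le_iff₀ hM]
    exact h1.trans (hQle θ)
  · rw [tseqa_av_mul, ← cav_re hQc, ← fc_zero, hfc, hP0, Complex.ofReal_re]
    field_simp
    exact hsq2.symm
  · have e1 : M * av (fun θ => ((√M)⁻¹ * (Q θ).re) ^ 2)
        = (av (fun θ => ‖Q θ‖ ^ 2) + av (fun θ => (Q θ * Q θ).re)) / 2 := by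
      rw [← tseqa_av_mul, ← tseqa_av_add (by fun_prop) (by fun_prop), div_eq_inv_mul,
        ← tseqa_av_mul]
      congr 1
      funext θ
      rw [mul_pow, inv_pow, hsq2, Complex.mul_re, Complex.sq_norm, Complex.normSq_apply]
      field_simp
      ring
    have hb := fc_bilin hQc hQc
    simp only [hfc] at hb
    have hn : Summable fun n : ℤ => ‖parP P.a P.b t n * parP P.a P.b t (-n)‖ :=
      summable_norm_iff.2 hb.summable
    have e2 : av (fun θ => (Q θ * Q θ).re)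
        ≤ ∑' n : ℤ, ‖parP P.a P.b t n * parP P.a P.b t (-n)‖ := by
      rw [← cav_re (f := fun θ => Q θ * Q θ) (by fun_prop), ← hb.tsum_eq]
      exact (Complex.re_le_norm _).trans (norm_tsum_le_tsum_norm hn)
    have hi1 : Function.Injective fun n : ℕ => (n : ℤ) + 1 := fun a b h => by
      simp only at h; omega
    have hi2 : Function.Injective fun n : ℕ => -((n : ℤ) + 1) := fun a b h => by
      simp only at h; omega
    have e3 := tsum_of_add_one_of_neg_add_one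
      (f := fun n : ℤ => ‖parP P.a P.b t n * parP P.a P.b t (-n)‖)
      (hn.comp_injective hi1) (hn.comp_injective hi2)
    have e4 : ∑' n : ℕ, ‖parP P.a P.b t (-(n + 1)) * parP P.a P.b t (-(-(n + 1)))‖
        = ∑' n : ℕ, ‖parP P.a P.b t (n + 1)‖ * ‖parP P.a P.b t (-(n + 1))‖ := by
      congr 1
      funext n
      rw [neg_neg, norm_mul, mul_comm]
    have e5 : ∑' n : ℕ, ‖parP P.a P.b t (n + 1) * parP P.a P.b t (-(n + 1))‖
        = ∑' n : ℕ, ‖parP P.a P.b t (n + 1)‖ * ‖parP P.a P.b t (-(n + 1))‖ := by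
      congr 1
      funext n
      rw [norm_mul]
    have e6 : ‖parP P.a P.b t 0 * parP P.a P.b t (-0)‖ = M ^ 2 := by
      rw [neg_zero, hP0, norm_mul, Complex.norm_real, Real.norm_eq_abs, abs_mul_abs_self, sq]
    rw [e4, e5, e6] at e3
    rw [e1]
    linarith

end Pool.Agent.Lib.MP_14b623_gt
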