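import Pool.Agent.Lib.MP_14b623_gt.TSeqH

namespace Pool.Agent.Lib.MP_14b623_gt

open Set Real Function
open scoped ComplexConjugate InnerProductSpace

theorem tseqp_pos_part {f : ℤ → ℝ} (hf : ∀ n, 0 ≤ f n) (hs : Summable f) (N : ℕ) :
    f 0 + ∑ n ∈ Finset.range N, f ((n : ℤ) + 1) ≤ ∑' n, f n := by
  classical
  have hinj : Function.Injective (fun n : ℕ => (n : ℤ) + 1) := by
    intro x y h; simpa using h
  have h1 := hs.sum_le_tsum (insert 0 ((Finset.range N).map ⟨_, hinj⟩)) (fun i _ => hf i)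
  rw [Finset.sum_insert, Finset.sum_map] at h1
  · simpa using h1
  · simp only [Finset.mem_map, Finset.mem_range, Function.Embedding.coeFn_mk, not_exists, not_and]
    intro x _ hx
    omega

theorem tseqp_neg_part {f : ℤ → ℝ} {l : ℝ} (hf : ∀ n, 0 ≤ f n) (hs : HasSum f l) (N : ℕ) :
    f 0 + f (-1) + ∑ n ∈ Finset.range N, f (-(n : ℤ) - 2) ≤ l := by
  classical
  have hinj : Function.Injective (fun n : ℕ => -(n : ℤ) - 2) := by
    intro x y h; simpa using h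
  have h1 := sum_le_hasSum (insert 0 (insert (-1) ((Finset.range N).map ⟨_, hinj⟩)))
    (fun i _ => hf i) hs
  rw [Finset.sum_insert, Finset.sum_insert, Finset.sum_map] at h1
  · simpa [add_assoc] using h1
  · simp only [Finset.mem_map, Finset.mem_range, Function.Embedding.coeFn_mk, not_exists, not_and]
    intro x _ hx
    omega
  · simp only [Finset.mem_insert, Finset.mem_map, Finset.mem_range, Function.Embedding.coeFn_mk,
      not_or, not_exists, not_and]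
    refine ⟨by norm_num, ?_⟩
    intro x _ hx
    omega

theorem tseqp_parP_zero (a b : ℤ → ℂ) (t : ℝ) : ‖parP a b t 0‖ = mainM a b t := by
  have : parP a b t 0 = ((mainM a b t : ℝ) : ℂ) := by
    simp only [parP, mainM, zero_sub, Int.cast_zero, zero_add, one_mul, neg_mul]
    rw [Complex.conj_mul', Complex.conj_mul']
    push_cast
    ring
  rw [this, Complex.norm_real, Real.norm_of_nonneg]
  unfold mainM
  positivity

theorem tseqp_exp_le {A B : ℝ} (hAB : A < B) (k : ℝ) (hk : 3 ≤ k) :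
    exp (-(k * B)) ≤ exp (-(3 * (B - A))) * exp (-(k * A)) := by
  rw [← exp_add]
  apply exp_le_exp.2
  nlinarith

theorem tseqp_cs (x y z w p q : ℝ) (hp : 0 < p) (hq : 0 < q) :
    (x * z + y * w) ^ 2 ≤ (y ^ 2 * q + x ^ 2 * p) * (z ^ 2 / p + w ^ 2 / q) := by
  have h : (y ^ 2 * q + x ^ 2 * p) * (z ^ 2 / p + w ^ 2 / q) - (x * z + y * w) ^ 2
      = (y * q * z - x * p * w) ^ 2 / (p * q) := by
    field_simp
    ring
  have h2 : 0 ≤ (y * q * z - x * p * w) ^ 2 / (p * q) := by positivity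
  linarith

/-- The remainder bound for the negative modes beyond the first. -/
theorem tseqp_tail (a b : ℤ → ℂ) {A B : ℝ} (hAB : A < B) (n : ℕ) :
    ‖parP a b B (-(((n + 1 : ℕ) : ℤ) + 1))‖ ^ 2 ≤ mainM a b B * exp (-(3 * (B - A))) *
      (‖a (-((n + 1 : ℕ) : ℤ) - 2)‖ ^ 2 * exp ((2 * ((-((n + 1 : ℕ) : ℤ) - 2 : ℤ) : ℝ) + 1) * A)
        + ‖b (-(n : ℤ) - 2)‖ ^ 2 * exp ((2 * ((-(n : ℤ) - 2 : ℤ) : ℝ) + 1) * A)) := by
  have e1 : (-(((n + 1 : ℕ) : ℤ) + 1)) - 1 = -((n + 1 : ℕ) : ℤ) - 2 := by ring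
  have e2 : (-(((n + 1 : ℕ) : ℤ) + 1)) = -(n : ℤ) - 2 := by push_cast; ring
  have hn : (0 : ℝ) ≤ n := Nat.cast_nonneg n
  have hle : ‖parP a b B (-(((n + 1 : ℕ) : ℤ) + 1))‖ ≤
      ‖a (-1)‖ * (‖a (-((n + 1 : ℕ) : ℤ) - 2)‖ * exp (-((n + 3) * B)))
        + ‖b 0‖ * (‖b (-(n : ℤ) - 2)‖ * exp (-((n + 1) * B))) := by
    unfold parP
    rw [e1]
    refine (norm_add_le _ _).trans (le_of_eq ?_)
    rw [e2]
    simp only [norm_mul, Complex.norm_real, RCLike.norm_conj, Real.norm_of_nonneg (exp_pos _).le]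
    push_cast
    have f1 : ((-(n : ℝ) - 2 - 1) * B) = -((n + 3) * B) := by ring
    have f2 : ((-(n : ℝ) - 2 + 1) * B) = -((n + 1) * B) := by ring
    rw [f1, f2]
    ring
  have h2 := tseqp_cs ‖a (-1)‖ ‖b 0‖ (‖a (-((n + 1 : ℕ) : ℤ) - 2)‖ * exp (-((n + 3) * B)))
    (‖b (-(n : ℤ) - 2)‖ * exp (-((n + 1) * B))) (exp (-B)) (exp B) (exp_pos _) (exp_pos _)
  have g1 : (‖a (-((n + 1 : ℕ) : ℤ) - 2)‖ * exp (-((n + 3) * B))) ^ 2 / exp (-B)
      = ‖a (-((n + 1 : ℕ) : ℤ) - 2)‖ ^ 2 * exp (-((2 * n + 5) * B)) := by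
    rw [mul_pow, mul_div_assoc, ← exp_nat_mul, ← exp_sub]
    congr 2
    push_cast
    ring
  have g2 : (‖b (-(n : ℤ) - 2)‖ * exp (-((n + 1) * B))) ^ 2 / exp B
      = ‖b (-(n : ℤ) - 2)‖ ^ 2 * exp (-((2 * n + 3) * B)) := by
    rw [mul_pow, mul_div_assoc, ← exp_nat_mul, ← exp_sub]
    congr 2
    push_cast
    ring
  rw [g1, g2] at h2
  have k1 := tseqp_exp_le hAB (2 * n + 5) (by linarith)
  have k2 := tseqp_exp_le hAB (2 * n + 3) (by linarith)
  have m1 : ((2 * ((-((n + 1 : ℕ) : ℤ) - 2 : ℤ) : ℝ) + 1) * A) = -((2 * n + 5) * A) := by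
    push_cast; ring
  have m2 : ((2 * ((-(n : ℤ) - 2 : ℤ) : ℝ) + 1) * A) = -((2 * n + 3) * A) := by
    push_cast; ring
  rw [m1, m2]
  have hM : 0 ≤ mainM a b B := by unfold mainM; positivity
  calc ‖parP a b B (-(((n + 1 : ℕ) : ℤ) + 1))‖ ^ 2
      ≤ (‖a (-1)‖ * (‖a (-((n + 1 : ℕ) : ℤ) - 2)‖ * exp (-((n + 3) * B)))
        + ‖b 0‖ * (‖b (-(n : ℤ) - 2)‖ * exp (-((n + 1) * B)))) ^ 2 := by
        gcongr
    _ ≤ mainM a b B * (‖a (-((n + 1 : ℕ) : ℤ) - 2)‖ ^ 2 * exp (-((2 * n + 5) * B))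
          + ‖b (-(n : ℤ) - 2)‖ ^ 2 * exp (-((2 * n + 3) * B))) := h2
    _ ≤ mainM a b B * (‖a (-((n + 1 : ℕ) : ℤ) - 2)‖ ^ 2 *
            (exp (-(3 * (B - A))) * exp (-((2 * n + 5) * A)))
          + ‖b (-(n : ℤ) - 2)‖ ^ 2 * (exp (-(3 * (B - A))) * exp (-((2 * n + 3) * A)))) := by
        gcongr
    _ = _ := by ring

theorem tseqp_head (a b : ℤ → ℂ) (B : ℝ) :
    ‖parP a b B (-(((0 : ℕ) : ℤ) + 1))‖ ≤
      ‖a (-1)‖ * ‖a (-2)‖ * exp (-(2 * B)) + ‖b 0‖ * ‖b (-1)‖ := by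
  unfold parP
  refine (norm_add_le _ _).trans (le_of_eq ?_)
  simp only [norm_mul, Complex.norm_real, RCLike.norm_conj, Real.norm_of_nonneg (exp_pos _).le]
  have f1 : ((((-(((0 : ℕ) : ℤ) + 1) : ℤ) : ℝ) - 1) * B) = -(2 * B) := by push_cast; ring
  have f2 : ((((-(((0 : ℕ) : ℤ) + 1) : ℤ) : ℝ) + 1) * B) = 0 := by push_cast; ring
  rw [f1, f2, exp_zero]
  norm_num

theorem SeqD.par_B {A B φ lA lB : ℝ} {a b : ℤ → ℂ} (h : SeqD A B φ lA lB a b) (hAB : A < B)
    (hs : Summable fun n : ℤ => ‖parP a b B n‖ ^ 2)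
    (hle : ∑' n : ℤ, ‖parP a b B n‖ ^ 2 ≤ mainM a b B * lB)
    (hG : lB - mainM a b B ≤ mainM a b B) :
    ∑' n : ℕ, ‖parP a b B (n + 1)‖ * ‖parP a b B (-(n + 1))‖ ≤ mainM a b B *
      (exp (-(3 * (B - A) / 2)) * √((lA - mainM a b A) * (lB - mainM a b B)) + highY a b) := by
  set M := mainM a b B with hMdef
  set GA := lA - mainM a b A with hGA
  set GB := lB - M with hGB
  have hM : 0 ≤ M := by rw [hMdef]; unfold mainM; positivity
  have hGA0 : 0 ≤ GA := by have := h.mainM_le.1; linarith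
  have hGB0 : 0 ≤ GB := by have := h.mainM_le.2; linarith
  have hsm := h.small_le
  have hY1 : ‖b 0‖ * ‖b (-1)‖ ≤ highY a b := by
    have : 0 ≤ ‖a 0‖ * ‖a (-1)‖ := by positivity
    linarith
  have hY0 : 0 ≤ highY a b := le_trans (by positivity) hY1
  have hpos : ∀ N : ℕ, ∑ n ∈ Finset.range N, ‖parP a b B (n + 1)‖ ^ 2 ≤ M * GB := by
    intro N
    have h1 := tseqp_pos_part (f := fun n : ℤ => ‖parP a b B n‖ ^ 2) (fun n => by positivity) hs N
    simp only [tseqp_parP_zero] at h1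
    rw [← hMdef] at h1
    rw [hGB]
    nlinarith
  let R : ℕ → ℝ := fun n => match n with
    | 0 => ‖a (-1)‖ * ‖a (-2)‖ * exp (-(2 * B))
    | (k + 1) => ‖parP a b B (-(((k + 1 : ℕ) : ℤ) + 1))‖
  have hR : ∀ K : ℕ, ∑ n ∈ Finset.range (K + 1), R n ^ 2 ≤ M * exp (-(3 * (B - A))) * GA := by
    intro K
    have hneg := tseqp_neg_part
      (f := fun n : ℤ => (‖a n‖ ^ 2 + ‖b n‖ ^ 2) * Real.exp ((2 * (n : ℝ) + 1) * A))
      (fun n => by positivity) h.sA (K + 1)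
    have hE : 0 ≤ M * exp (-(3 * (B - A))) := by positivity
    let α : ℕ → ℝ := fun n => ‖a (-(n : ℤ) - 2)‖ ^ 2 * exp ((2 * ((-(n : ℤ) - 2 : ℤ) : ℝ) + 1) * A)
    let β : ℕ → ℝ := fun n => ‖b (-(n : ℤ) - 2)‖ ^ 2 * exp ((2 * ((-(n : ℤ) - 2 : ℤ) : ℝ) + 1) * A)
    have hαβ : ∑ n ∈ Finset.range (K + 1), α n + ∑ n ∈ Finset.range (K + 1), β n ≤ GA := by
      rw [← Finset.sum_add_distrib]
      have e : ∑ n ∈ Finset.range (K + 1), (α n + β n) = ∑ n ∈ Finset.range (K + 1),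
          (‖a (-(n : ℤ) - 2)‖ ^ 2 + ‖b (-(n : ℤ) - 2)‖ ^ 2) *
            exp ((2 * ((-(n : ℤ) - 2 : ℤ) : ℝ) + 1) * A) := by
        refine Finset.sum_congr rfl fun n _ => ?_
        simp only [α, β]
        ring
      rw [e]
      have z1 : ((2 * ((0 : ℤ) : ℝ) + 1) * A) = A := by push_cast; ring
      have z2 : ((2 * ((-1 : ℤ) : ℝ) + 1) * A) = -A := by push_cast; ring
      simp only [z1, z2] at hneg
      have p1 : 0 ≤ ‖a 0‖ ^ 2 * exp A := by positivity
      have p2 : 0 ≤ ‖b (-1)‖ ^ 2 * exp (-A) := by positivity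
      rw [hGA]
      unfold mainM
      nlinarith
    have h0 : R 0 ^ 2 ≤ M * exp (-(3 * (B - A))) * α 0 := by
      simp only [R, α]
      have k1 := tseqp_exp_le hAB 3 le_rfl
      have m1 : ((2 * ((-((0 : ℕ) : ℤ) - 2 : ℤ) : ℝ) + 1) * A) = -(3 * A) := by
        push_cast; ring
      have m2 : (-((0 : ℕ) : ℤ) - 2) = -2 := by norm_num
      rw [m1, m2]
      have e3 : (‖a (-1)‖ * ‖a (-2)‖ * exp (-(2 * B))) ^ 2
          = (‖a (-1)‖ ^ 2 * exp (-B)) * (‖a (-2)‖ ^ 2 * exp (-(3 * B))) := by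
        have : exp (-(2 * B)) ^ 2 = exp (-B) * exp (-(3 * B)) := by
          rw [← exp_nat_mul, ← exp_add]; congr 1; push_cast; ring
        rw [mul_pow, mul_pow, this]; ring
      have e4 : ‖a (-1)‖ ^ 2 * exp (-B) ≤ M := by
        rw [hMdef]; unfold mainM
        have : 0 ≤ ‖b 0‖ ^ 2 * exp B := by positivity
        linarith
      rw [e3]
      calc (‖a (-1)‖ ^ 2 * exp (-B)) * (‖a (-2)‖ ^ 2 * exp (-(3 * B)))
          ≤ M * (‖a (-2)‖ ^ 2 * (exp (-(3 * (B - A))) * exp (-(3 * A)))) := by gcongr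
        _ = _ := by ring
    have hS : ∑ n ∈ Finset.range K, R (n + 1) ^ 2 ≤
        ∑ n ∈ Finset.range K, M * exp (-(3 * (B - A))) * (α (n + 1) + β n) :=
      Finset.sum_le_sum fun n _ => tseqp_tail a b hAB n
    rw [← Finset.mul_sum, Finset.sum_add_distrib] at hS
    rw [Finset.sum_range_succ' (fun n => R n ^ 2)]
    rw [Finset.sum_range_succ' α, Finset.sum_range_succ β] at hαβ
    have hβK : 0 ≤ β K := by simp only [β]; positivity
    have : M * exp (-(3 * (B - A))) * (∑ n ∈ Finset.range K, α (n + 1)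
        + ∑ n ∈ Finset.range K, β n + α 0) ≤ M * exp (-(3 * (B - A))) * GA := by
      apply mul_le_mul_of_nonneg_left _ hE
      linarith
    nlinarith
  have hsq : √(M * GB) ≤ M := by
    rw [Real.sqrt_le_left hM]
    nlinarith
  have hprod : √(M * GB) * √(M * exp (-(3 * (B - A))) * GA)
      = M * (exp (-(3 * (B - A) / 2)) * √(GA * GB)) := by
    rw [← Real.sqrt_mul (by positivity)]
    have e : M * GB * (M * exp (-(3 * (B - A))) * GA)
        = (M * exp (-(3 * (B - A) / 2))) ^ 2 * (GA * GB) := by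
      have : exp (-(3 * (B - A) / 2)) ^ 2 = exp (-(3 * (B - A))) := by
        rw [← exp_nat_mul]; congr 1; push_cast; ring
      rw [mul_pow, this]; ring
    rw [e, Real.sqrt_mul (by positivity), Real.sqrt_sq (by positivity)]
    ring
  apply Real.tsum_le_of_sum_range_le (fun n => by positivity)
  intro N
  rcases N with _ | K
  · simp only [Finset.range_zero, Finset.sum_empty]
    positivity
  have hcs := Real.sum_mul_le_sqrt_mul_sqrt (Finset.range (K + 1))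
    (fun n : ℕ => ‖parP a b B (n + 1)‖) R
  have hcs2 : ∑ n ∈ Finset.range (K + 1), ‖parP a b B (n + 1)‖ * R n
      ≤ √(M * GB) * √(M * exp (-(3 * (B - A))) * GA) := by
    refine hcs.trans ?_
    gcongr
    · exact hpos (K + 1)
    · exact hR K
  have hP1 : ‖parP a b B (((0 : ℕ) : ℤ) + 1)‖ ≤ M := by
    have h1 := hpos 1
    rw [Finset.sum_range_one] at h1
    exact (Real.le_sqrt_of_sq_le h1).trans hsq
  have hsplit : ∑ n ∈ Finset.range (K + 1), ‖parP a b B (n + 1)‖ * ‖parP a b B (-(n + 1))‖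
      ≤ ∑ n ∈ Finset.range (K + 1), ‖parP a b B (n + 1)‖ * R n + M * highY a b := by
    rw [Finset.sum_range_succ', Finset.sum_range_succ' (fun n : ℕ => ‖parP a b B (n + 1)‖ * R n)]
    have e : ∑ n ∈ Finset.range K, ‖parP a b B (((n + 1 : ℕ) : ℤ) + 1)‖ *
          ‖parP a b B (-(((n + 1 : ℕ) : ℤ) + 1))‖
        = ∑ n ∈ Finset.range K, ‖parP a b B (((n + 1 : ℕ) : ℤ) + 1)‖ * R (n + 1) := rfl
    rw [e]
    have h1 := tseqp_head a b B
    have h2 : ‖parP a b B (((0 : ℕ) : ℤ) + 1)‖ * ‖parP a b B (-(((0 : ℕ) : ℤ) + 1))‖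
        ≤ ‖parP a b B (((0 : ℕ) : ℤ) + 1)‖ * (R 0 + highY a b) := by
      apply mul_le_mul_of_nonneg_left _ (norm_nonneg _)
      simp only [R]
      linarith
    have h3 : ‖parP a b B (((0 : ℕ) : ℤ) + 1)‖ * highY a b ≤ M * highY a b :=
      mul_le_mul_of_nonneg_right hP1 hY0
    nlinarith
  rw [hprod] at hcs2
  linarith

theorem tseqp_flip {A B φ lA lB : ℝ} {a b : ℤ → ℂ} (h : SeqD A B φ lA lB a b) :
    SeqD (-B) (-A) φ lB lA (fun n => b (-n - 1)) (fun n => a (-n - 1)) := by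
  let e : ℤ ≃ ℤ := ⟨fun n => -n - 1, fun n => -n - 1, fun n => by ring, fun n => by ring⟩
  refine ⟨?_, ?_, ?_, ?_, ?_⟩
  · have := (e.hasSum_iff).2 h.sB
    refine this.congr' ?_ |>.trans le_rfl
    exact Filter.Eventually.of_forall fun s => Finset.sum_congr rfl fun n _ => by
      simp only [e, Function.comp, Equiv.coe_fn_mk]
      rw [add_comm]
      congr 2
      push_cast; ring
  · have := (e.hasSum_iff).2 h.sA
    refine this.congr' ?_ |>.trans le_rfl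
    exact Filter.Eventually.of_forall fun s => Finset.sum_congr rfl fun n _ => by
      simp only [e, Function.comp, Equiv.coe_fn_mk]
      rw [add_comm]
      congr 2
      push_cast; ring
  · convert h.s22 using 2 with n
    have : -(-n - 1) - 1 = n := by ring
    rw [this, mul_comm]
  · convert h.s11 using 2 with n
    have : -(-n - 1) - 1 = n := by ring
    rw [this, mul_comm]
  · convert h.s12 using 2 with n
    have : -(-n - 1) - 1 = n := by ring
    rw [this]; ring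

theorem tseqp_flip_mainM (a b : ℤ → ℂ) (t : ℝ) :
    mainM (fun n => b (-n - 1)) (fun n => a (-n - 1)) (-t) = mainM a b t := by
  simp only [mainM, neg_neg]
  norm_num
  ring

theorem tseqp_flip_parP (a b : ℤ → ℂ) (t : ℝ) (n : ℤ) :
    parP (fun n => b (-n - 1)) (fun n => a (-n - 1)) (-t) n = parP a b t (-n) := by
  simp only [parP]
  have e1 : -(n - 1) - 1 = -n := by ring
  have e2 : (-(-1) - 1 : ℤ) = 0 := by norm_num
  have e3 : (-0 - 1 : ℤ) = -1 := by norm_num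
  have f1 : ((n : ℝ) - 1) * -t = (((-n : ℤ) : ℝ) + 1) * t := by push_cast; ring
  have f2 : ((n : ℝ) + 1) * -t = (((-n : ℤ) : ℝ) - 1) * t := by push_cast; ring
  rw [e1, e2, e3, f1, f2, add_comm]

theorem tseqp_flip_highY (a b : ℤ → ℂ) :
    highY (fun n => b (-n - 1)) (fun n => a (-n - 1)) = highY a b := by
  simp only [highY]
  refine tsum_congr fun n => ?_
  have e1 : -((n : ℤ) + 1) - 1 = -n - 2 := by ring
  have e2 : -(-(n : ℤ) - 2) - 1 = n + 1 := by ring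
  rw [e1, e2, mul_comm, add_comm (‖b _‖ ^ 2), add_comm (‖b (-(n : ℤ) - 2)‖ ^ 2)]

theorem SeqD.par_A {A B φ lA lB : ℝ} {a b : ℤ → ℂ} (h : SeqD A B φ lA lB a b) (hAB : A < B)
    (hs : Summable fun n : ℤ => ‖parP a b A n‖ ^ 2)
    (hle : ∑' n : ℤ, ‖parP a b A n‖ ^ 2 ≤ mainM a b A * lA)
    (hG : lA - mainM a b A ≤ mainM a b A) :
    ∑' n : ℕ, ‖parP a b A (n + 1)‖ * ‖parP a b A (-(n + 1))‖ ≤ mainM a b A *
      (exp (-(3 * (B - A) / 2)) * √((lA - mainM a b A) * (lB - mainM a b B)) + highY a b) := by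
  have h' := tseqp_flip h
  have hs' : Summable fun n : ℤ =>
      ‖parP (fun n => b (-n - 1)) (fun n => a (-n - 1)) (-A) n‖ ^ 2 := by
    simp only [tseqp_flip_parP]
    exact (Equiv.neg ℤ).summable_iff.2 hs
  have hle' : ∑' n : ℤ, ‖parP (fun n => b (-n - 1)) (fun n => a (-n - 1)) (-A) n‖ ^ 2
      ≤ mainM (fun n => b (-n - 1)) (fun n => a (-n - 1)) (-A) * lA := by
    simp only [tseqp_flip_parP, tseqp_flip_mainM]
    have := (Equiv.neg ℤ).tsum_eq (fun n : ℤ => ‖parP a b A n‖ ^ 2)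
    simp only [Equiv.neg_apply] at this
    rw [this]
    exact hle
  have key := h'.par_B (by linarith) hs' hle' (by simpa only [tseqp_flip_mainM] using hG)
  simp only [tseqp_flip_parP, tseqp_flip_mainM, tseqp_flip_highY, neg_neg] at key
  have e : -A - -B = B - A := by ring
  rw [e, mul_comm (lB - mainM a b B)] at key
  refine le_trans (le_of_eq ?_) key
  exact tsum_congr fun n => mul_comm _ _

end Pool.Agent.Lib.MP_14b623_gt
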