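import Pool.Agent.Lib.MP_14b623_gt.CvxBasic

namespace Pool.Agent.Lib.MP_14b623_gt

open Set Real Function
open scoped ComplexConjugate InnerProductSpace

lemma cav_ofReal (f : ℝ → ℝ) : cav (fun θ => (f θ : ℂ)) = (av f : ℝ) := by
  unfold cav av
  rw [intervalIntegral.integral_ofReal]
  push_cast
  rfl

lemma tfour_cav_conj (f : ℝ → ℂ) : cav (fun θ => conj (f θ)) = conj (cav f) := by
  unfold cav
  have h : (∫ θ in (0 : ℝ)..(2 * π), conj (f θ)) = conj (∫ θ in (0 : ℝ)..(2 * π), f θ) := by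
    simp only [intervalIntegral, integral_conj, map_sub]
  rw [h, map_div₀]
  simp [Complex.conj_ofReal, map_ofNat]

lemma tfour_cav_add {f g : ℝ → ℂ} (hf : Continuous f) (hg : Continuous g) :
    cav (fun θ => f θ + g θ) = cav f + cav g := by
  unfold cav
  rw [intervalIntegral.integral_add (hf.intervalIntegrable _ _) (hg.intervalIntegrable _ _)]
  ring

lemma tfour_cav_const_mul (c : ℂ) (f : ℝ → ℂ) : cav (fun θ => c * f θ) = c * cav f := by
  unfold cav
  rw [intervalIntegral.integral_const_mul]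
  ring

lemma cav_re {f : ℝ → ℂ} (hf : Continuous f) : (cav f).re = av fun θ => (f θ).re := by
  have h : ((av fun θ => (f θ).re : ℝ) : ℂ) = ((cav f).re : ℂ) := by
    rw [← cav_ofReal, Complex.re_eq_add_conj, ← tfour_cav_conj,
      ← tfour_cav_add (g := fun θ => conj (f θ)) hf (Complex.continuous_conj.comp hf)]
    have : (fun θ => ((f θ).re : ℂ)) = fun θ => (1 / 2 : ℂ) * (f θ + conj (f θ)) := by
      funext θ
      rw [Complex.re_eq_add_conj]
      ring
    rw [this, tfour_cav_const_mul]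
    ring
  exact_mod_cast h.symm

lemma fc_zero (f : ℝ → ℂ) : fc f 0 = cav f := by
  unfold fc
  simp

lemma fc_add {f g : ℝ → ℂ} (hf : Continuous f) (hg : Continuous g) (n : ℤ) :
    fc (fun θ => f θ + g θ) n = fc f n + fc g n := by
  unfold fc
  rw [← tfour_cav_add (by fun_prop) (by fun_prop)]
  congr 1
  funext θ
  ring

lemma fc_const_mul (c : ℂ) (f : ℝ → ℂ) (n : ℤ) : fc (fun θ => c * f θ) n = c * fc f n := by
  unfold fc
  rw [← tfour_cav_const_mul]
  congr 1
  funext θ
  ring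

lemma fc_conj (f : ℝ → ℂ) (n : ℤ) : fc (fun θ => conj (f θ)) n = conj (fc f (-n)) := by
  unfold fc
  rw [← tfour_cav_conj]
  congr 1
  funext θ
  rw [map_mul, ← Complex.exp_conj]
  congr 2
  simp [Complex.conj_ofReal]

lemma fc_shift (f : ℝ → ℂ) (m n : ℤ) :
    fc (fun θ => f θ * Complex.exp ((m : ℂ) * θ * Complex.I)) n = fc f (n - m) := by
  unfold fc
  congr 1
  funext θ
  rw [mul_assoc, ← Complex.exp_add]
  congr 2
  push_cast
  ring

lemma tfour_fc_eq (f : ℝ → ℂ) (n : ℤ) :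
    fc f n = fourierCoeffOn Real.two_pi_pos f n := by
  rw [fourierCoeffOn_eq_integral]
  unfold fc cav
  have hπ : (π : ℂ) ≠ 0 := by exact_mod_cast Real.pi_ne_zero
  have : (fun x : ℝ => (fourier (-n) (x : AddCircle (2 * π - 0)) : ℂ) • f x)
      = fun θ : ℝ => f θ * Complex.exp (-(n : ℂ) * θ * Complex.I) := by
    funext θ
    rw [fourier_coe_apply, smul_eq_mul, mul_comm]
    congr 2
    push_cast
    field_simp
    ring
  rw [this, Complex.real_smul, div_eq_inv_mul]
  congr 1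
  push_cast
  simp

theorem fc_parseval_sq {f : ℝ → ℂ} (hf : Continuous f) :
    HasSum (fun n : ℤ => ‖fc f n‖ ^ 2) (av fun θ => ‖f θ‖ ^ 2) := by
  have hL2 : MeasureTheory.MemLp f 2 (MeasureTheory.volume.restrict (Ioc (0 : ℝ) (2 * π))) := by
    obtain ⟨C, hC⟩ := (isCompact_Icc (a := (0 : ℝ)) (b := 2 * π)).exists_bound_of_continuousOn
      hf.continuousOn
    refine MeasureTheory.MemLp.of_bound hf.aestronglyMeasurable C ?_
    filter_upwards [MeasureTheory.ae_restrict_mem measurableSet_Ioc] with x hx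
    exact hC x (Ioc_subset_Icc_self hx)
  have h := hasSum_sq_fourierCoeffOn Real.two_pi_pos hL2
  simp only [← tfour_fc_eq] at h
  convert h using 1
  unfold av
  rw [smul_eq_mul, sub_zero]
  ring

lemma tfour_polar (a b : ℂ) :
    a * conj b = (1 / 4 : ℂ) * (((‖a + b‖ ^ 2 : ℝ) : ℂ) - ((‖a + (-1) * b‖ ^ 2 : ℝ) : ℂ)
      + Complex.I * ((‖a + Complex.I * b‖ ^ 2 : ℝ) : ℂ)
      - Complex.I * ((‖a + (-Complex.I) * b‖ ^ 2 : ℝ) : ℂ)) := by
  simp only [← Complex.normSq_eq_norm_sq, Complex.normSq_eq_conj_mul_self, map_add, map_mul,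
    map_neg, map_one, Complex.conj_I]
  have h : Complex.I ^ 2 = -1 := Complex.I_sq
  linear_combination (1 / 2 : ℂ) * (a * conj b - conj a * b) * h

lemma tfour_parseval_c {f g : ℝ → ℂ} (hf : Continuous f) (hg : Continuous g) (c : ℂ) :
    HasSum (fun n : ℤ => ((‖fc f n + c * fc g n‖ ^ 2 : ℝ) : ℂ))
      (cav fun θ => ((‖f θ + c * g θ‖ ^ 2 : ℝ) : ℂ)) := by
  have h := fc_parseval_sq (f := fun θ => f θ + c * g θ) (by fun_prop)
  rw [cav_ofReal]
  have h2 := Complex.hasSum_ofReal.2 h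
  convert h2 using 4 with n
  rw [fc_add hf (by fun_prop), fc_const_mul]

theorem fc_parseval {f g : ℝ → ℂ} (hf : Continuous f) (hg : Continuous g) :
    HasSum (fun n : ℤ => fc f n * conj (fc g n)) (cav fun θ => f θ * conj (g θ)) := by
  have h1 := tfour_parseval_c hf hg 1
  have h2 := tfour_parseval_c hf hg (-1)
  have h3 := tfour_parseval_c hf hg Complex.I
  have h4 := tfour_parseval_c hf hg (-Complex.I)
  simp only [one_mul] at h1
  have h := (((h1.sub h2).add (h3.mul_left Complex.I)).sub (h4.mul_left Complex.I)).mul_left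
    (1 / 4 : ℂ)
  have e : (fun θ => f θ * conj (g θ)) = fun θ => (1 / 4 : ℂ) *
      (((((‖f θ + g θ‖ ^ 2 : ℝ) : ℂ) + (-1) * ((‖f θ + (-1) * g θ‖ ^ 2 : ℝ) : ℂ))
      + Complex.I * ((‖f θ + Complex.I * g θ‖ ^ 2 : ℝ) : ℂ))
      + (-Complex.I) * ((‖f θ + (-Complex.I) * g θ‖ ^ 2 : ℝ) : ℂ)) := by
    funext θ
    rw [tfour_polar]
    ring
  have e2 : (fun n : ℤ => fc f n * conj (fc g n)) = fun n => (1 / 4 : ℂ) *
      (((‖fc f n + fc g n‖ ^ 2 : ℝ) : ℂ) - ((‖fc f n + (-1) * fc g n‖ ^ 2 : ℝ) : ℂ)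
      + Complex.I * ((‖fc f n + Complex.I * fc g n‖ ^ 2 : ℝ) : ℂ)
      - Complex.I * ((‖fc f n + (-Complex.I) * fc g n‖ ^ 2 : ℝ) : ℂ)) := by
    funext n
    exact tfour_polar _ _
  rw [e2, e, tfour_cav_const_mul, tfour_cav_add (by fun_prop) (by fun_prop),
    tfour_cav_add (by fun_prop) (by fun_prop), tfour_cav_add (by fun_prop) (by fun_prop),
    tfour_cav_const_mul, tfour_cav_const_mul, tfour_cav_const_mul]
  have e3 : ∀ a b c d : ℂ, (1 / 4 : ℂ) * (a + -1 * b + Complex.I * c + -Complex.I * d)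
      = (1 / 4 : ℂ) * (a - b + Complex.I * c - Complex.I * d) := fun a b c d => by ring
  rw [e3]
  exact h

theorem fc_bilin {f g : ℝ → ℂ} (hf : Continuous f) (hg : Continuous g) :
    HasSum (fun n : ℤ => fc f n * fc g (-n)) (cav fun θ => f θ * g θ) := by
  have h := fc_parseval hf (g := fun θ => conj (g θ)) (Complex.continuous_conj.comp hg)
  simpa only [fc_conj, Complex.conj_conj] using h

theorem fc_deriv {f f' : ℝ → ℂ} (hd : ∀ θ, HasDerivAt f (f' θ) θ) (hc : Continuous f')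
    (hp : f (2 * π) = f 0) (n : ℤ) : fc f' n = Complex.I * n * fc f n := by
  have hf : Continuous f := continuous_iff_continuousAt.2 fun θ => (hd θ).continuousAt
  have he : ∀ θ : ℝ, HasDerivAt (fun θ : ℝ => Complex.exp (-(n : ℂ) * θ * Complex.I))
      (Complex.exp (-(n : ℂ) * θ * Complex.I) * (-(n : ℂ) * Complex.I)) θ := by
    intro θ
    have h1 : HasDerivAt (fun θ : ℝ => -(n : ℂ) * θ * Complex.I) (-(n : ℂ) * Complex.I) θ := by
      simpa using ((Complex.ofRealCLM.hasDerivAt (x := θ)).const_mul (-(n : ℂ))).mul_const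
        Complex.I
    exact h1.cexp
  have hprod : ∀ θ ∈ uIcc (0 : ℝ) (2 * π),
      HasDerivAt (fun θ : ℝ => f θ * Complex.exp (-(n : ℂ) * θ * Complex.I))
      (f' θ * Complex.exp (-(n : ℂ) * θ * Complex.I)
        + (-(n : ℂ) * Complex.I) * (f θ * Complex.exp (-(n : ℂ) * θ * Complex.I))) θ := by
    intro θ _
    refine ((hd θ).mul (he θ)).congr_deriv ?_
    ring
  have hI := intervalIntegral.integral_eq_sub_of_hasDerivAt hprod
    (Continuous.intervalIntegrable (by fun_prop) _ _)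
  have h2 : Complex.exp (-(n : ℂ) * ((2 * π : ℝ) : ℂ) * Complex.I) = 1 := by
    have := Complex.exp_int_mul_two_pi_mul_I (-n)
    rw [← this]
    congr 1
    push_cast
    ring
  rw [h2, hp] at hI
  have h0 : cav (fun θ => f' θ * Complex.exp (-(n : ℂ) * θ * Complex.I)
        + (-(n : ℂ) * Complex.I) * (f θ * Complex.exp (-(n : ℂ) * θ * Complex.I))) = 0 := by
    unfold cav
    rw [hI]
    simp
  rw [tfour_cav_add (by fun_prop) (by fun_prop), tfour_cav_const_mul] at h0
  unfold fc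
  linear_combination h0

theorem fc_pointwise {f : ℝ → ℂ} (hf : Continuous f) (hp : Periodic f (2 * π))
    (hs : Summable fun n : ℤ => ‖fc f n‖) (θ : ℝ) :
    HasSum (fun n : ℤ => fc f n * Complex.exp ((n : ℂ) * θ * Complex.I)) (f θ) := by
  have : Fact (0 < 2 * π) := ⟨Real.two_pi_pos⟩
  have hπ : (π : ℂ) ≠ 0 := by exact_mod_cast Real.pi_ne_zero
  let F : C(AddCircle (2 * π), ℂ) :=
    ⟨hp.lift, continuous_coinduced_dom.2 hf⟩
  have hF : ∀ x : ℝ, F (x : AddCircle (2 * π)) = f x := fun x => hp.lift_coe x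
  have hc : ∀ n : ℤ, fourierCoeff F n = fc f n := by
    intro n
    rw [fourierCoeff_eq_intervalIntegral _ _ 0, zero_add]
    unfold fc cav
    have : (fun x : ℝ => (fourier (-n) (x : AddCircle (2 * π)) : ℂ) • F (x : AddCircle (2 * π)))
        = fun θ : ℝ => f θ * Complex.exp (-(n : ℂ) * θ * Complex.I) := by
      funext θ
      rw [fourier_coe_apply, smul_eq_mul, mul_comm, hF]
      congr 2
      push_cast
      field_simp
    rw [this, Complex.real_smul, div_eq_inv_mul _ (2 * (π : ℂ))]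
    congr 1
    push_cast
    simp
  have hs' : Summable (fourierCoeff F) := by
    have : fourierCoeff F = fc f := funext hc
    rw [this]
    exact hs.of_norm
  have h := has_pointwise_sum_fourier_series_of_summable hs' (θ : AddCircle (2 * π))
  rw [hF] at h
  convert h using 2 with n
  rw [hc, fourier_coe_apply, smul_eq_mul]
  congr 2
  push_cast
  field_simp

end Pool.Agent.Lib.MP_14b623_gt
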