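import Pool.Agent.Lib.MP_14b623_gt.TSpin1
import Pool.Agent.Lib.MP_14b623_gt.TFour

namespace Pool.Agent.Lib.MP_14b623_gt

open Set Real Function
open scoped ComplexConjugate InnerProductSpace

lemma tspin2_rect {G : ℂ → ℂ} {A B : ℝ} (hc : Continuous G)
    (hd : DifferentiableOn ℂ G {z | A < z.re ∧ z.re < B})
    (hp : ∀ z : ℂ, z.re ∈ Icc A B → G (z + 2 * π * Complex.I) = G z) {t : ℝ} (ht : t ∈ Icc A B) :
    ∫ θ in (0 : ℝ)..(2 * π), G (t + θ * Complex.I)
      = ∫ θ in (0 : ℝ)..(2 * π), G (B + θ * Complex.I) := by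
  have key := Complex.integral_boundary_rect_eq_zero_of_continuousOn_of_differentiableOn G
    (⟨t, 0⟩ : ℂ) (⟨B, 2 * π⟩ : ℂ) hc.continuousOn (hd.mono (by
      intro z hz
      have h1 := hz.1
      simp only [mem_preimage, min_eq_left ht.2, max_eq_right ht.2] at h1
      exact ⟨lt_of_le_of_lt ht.1 h1.1, h1.2⟩))
  have e : (∫ x : ℝ in t..B, G (x + ((2 * π : ℝ) : ℂ) * Complex.I))
      = ∫ x : ℝ in t..B, G (x + ((0 : ℝ) : ℂ) * Complex.I) := by
    refine intervalIntegral.integral_congr fun x hx => ?_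
    rw [uIcc_of_le ht.2] at hx
    have := hp (x : ℂ) (by simpa using ⟨ht.1.trans hx.1, hx.2⟩)
    simpa using this
  simp only [] at key
  rw [e, sub_self, zero_add, ← smul_sub, smul_eq_zero] at key
  rcases key with key | key
  · exact absurd key Complex.I_ne_zero
  · exact (sub_eq_zero.1 key).symm

/-- The twisted restriction of a spinor component to a circle. -/
noncomputable def tspin2g (ψ : ℂ → ℂ) (t θ : ℝ) : ℂ :=
  ψ (t + θ * Complex.I) * Complex.exp (-(θ * Complex.I) / 2)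

/-- The Fourier mode of a spinor component. -/
noncomputable def tspin2a (ψ : ℂ → ℂ) (B : ℝ) (n : ℤ) : ℂ :=
  cav fun θ => ψ (B + θ * Complex.I) * Complex.exp (-((n : ℂ) + 1 / 2) * (B + θ * Complex.I))

lemma tspin2_cont {ψ : ℂ → ℂ} (hc : Continuous ψ) (t : ℝ) : Continuous (tspin2g ψ t) := by
  unfold tspin2g
  fun_prop

lemma tspin2_norm (ψ : ℂ → ℂ) (t θ : ℝ) : ‖tspin2g ψ t θ‖ = ‖ψ (t + θ * Complex.I)‖ := by
  simp [tspin2g, Complex.norm_exp]

lemma tspin2_mul (ψ χ : ℂ → ℂ) (t θ : ℝ) :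
    tspin2g ψ t θ * tspin2g χ t θ * Complex.exp (θ * Complex.I)
      = ψ (t + θ * Complex.I) * χ (t + θ * Complex.I) := by
  have : Complex.exp (-(θ * Complex.I) / 2) * Complex.exp (-(θ * Complex.I) / 2)
      * Complex.exp (θ * Complex.I) = 1 := by
    rw [← Complex.exp_add, ← Complex.exp_add]
    have : -((θ : ℂ) * Complex.I) / 2 + -(θ * Complex.I) / 2 + θ * Complex.I = 0 := by ring
    rw [this, Complex.exp_zero]
  unfold tspin2g
  linear_combination ψ (t + θ * Complex.I) * χ (t + θ * Complex.I) * this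

lemma tspin2_fc {ψ : ℂ → ℂ} {A B : ℝ} (hc : Continuous ψ)
    (hd : DifferentiableOn ℂ ψ {z | A < z.re ∧ z.re < B})
    (hp : ∀ z : ℂ, z.re ∈ Icc A B → ψ (z + 2 * π * Complex.I) = -1 * ψ z) (t : ℝ)
    (ht : t ∈ Icc A B) (n : ℤ) :
    fc (tspin2g ψ t) n = tspin2a ψ B n * (Real.exp (((n : ℝ) + 1 / 2) * t) : ℝ) := by
  have key := tspin2_rect (G := fun z => ψ z * Complex.exp (-((n : ℂ) + 1 / 2) * z))
    (by fun_prop) (hd.mul (by fun_prop)) (fun z hz => by
      have h1 : Complex.exp (-((n : ℂ) + 1 / 2) * (z + 2 * π * Complex.I))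
          = -Complex.exp (-((n : ℂ) + 1 / 2) * z) := by
        have : -((n : ℂ) + 1 / 2) * (z + 2 * π * Complex.I)
            = -((n : ℂ) + 1 / 2) * z + ((-n - 1 : ℤ) : ℂ) * (2 * π * Complex.I)
              + π * Complex.I := by
          push_cast; ring
        rw [this, Complex.exp_add, Complex.exp_add, Complex.exp_int_mul_two_pi_mul_I,
          Complex.exp_pi_mul_I]
        ring
      simp only [hp z hz, h1]
      ring) ht
  unfold tspin2a fc cav
  rw [← key, div_mul_eq_mul_div, ← intervalIntegral.integral_mul_const]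
  congr 1
  refine intervalIntegral.integral_congr fun θ _ => ?_
  simp only [tspin2g, Complex.ofReal_exp, mul_assoc, ← Complex.exp_add]
  congr 2
  push_cast
  ring

lemma tspin2_avXs (S : Ann0) (t : ℝ) (i : Fin 3) : av (fun θ => S.Xs t θ i) = 0 := by
  have h := intervalIntegral.integral_eq_sub_of_hasDerivAt (a := 0) (b := 2 * π)
    (f := fun θ => S.X t θ i) (f' := fun θ => S.Xs t θ i)
    (fun θ _ => hasDerivAt_coord (S.dXs t θ) i)
    (((continuous_apply i).comp (S.cXs.uncurry_left t)).intervalIntegrable _ _)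
  have hp := S.pX t 0
  rw [zero_add] at hp
  simp only [av, h, hp, sub_self, zero_div]

lemma tspin2_cavPhi (S : Ann0) (t : ℝ) (i : Fin 3) :
    cav (fun θ => S.Phi i (t + θ * Complex.I)) = (av fun θ => S.Xt t θ i : ℝ) := by
  have c1 : Continuous fun θ => ((S.Xt t θ i : ℝ) : ℂ) :=
    Complex.continuous_ofReal.comp ((continuous_apply i).comp (S.cXt.uncurry_left t))
  have c2 : Continuous fun θ => -Complex.I * ((S.Xs t θ i : ℝ) : ℂ) :=
    continuous_const.mul
      (Complex.continuous_ofReal.comp ((continuous_apply i).comp (S.cXs.uncurry_left t)))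
  have e : (fun θ : ℝ => S.Phi i (t + θ * Complex.I))
      = fun θ => ((S.Xt t θ i : ℝ) : ℂ) + -Complex.I * ((S.Xs t θ i : ℝ) : ℂ) := by
    funext θ
    simp [Ann0.Phi, sub_eq_add_neg]
  rw [e, ← fc_zero, fc_add c1 c2, fc_const_mul, fc_zero, fc_zero, cav_ofReal, cav_ofReal,
    tspin2_avXs]
  simp

lemma tspin2_comb (S : Ann0) (hV : S.Vertical) (α β : ℂ) :
    cav (fun θ => α * S.Phi 0 (S.B + θ * Complex.I) + β * S.Phi 1 (S.B + θ * Complex.I)) = 0 := by
  have c0 : Continuous fun θ : ℝ => α * S.Phi 0 (S.B + θ * Complex.I) :=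
    continuous_const.mul ((S.continuous_Phi 0).comp (by fun_prop))
  have c1 : Continuous fun θ : ℝ => β * S.Phi 1 (S.B + θ * Complex.I) :=
    continuous_const.mul ((S.continuous_Phi 1).comp (by fun_prop))
  rw [← fc_zero, fc_add c0 c1, fc_const_mul, fc_const_mul, fc_zero, fc_zero, tspin2_cavPhi,
    tspin2_cavPhi, hV.1, hV.2.1]
  simp

theorem Ann0.spin_of_psi (S : Ann0) (hV : S.Vertical) {ψ₁ ψ₂ : ℂ → ℂ}
    (h : S.IsPsi ψ₁ ψ₂ (-1)) : Nonempty (Spin S.A S.B S.phi S.u) := by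
  have hB : ∀ θ : ℝ, ((S.B : ℂ) + θ * Complex.I).re ∈ Icc S.A S.B := fun θ => by
    simpa using S.hAB.le
  refine ⟨⟨tspin2g ψ₁, tspin2g ψ₂, tspin2a ψ₁ S.B, tspin2a ψ₂ S.B,
    fun t _ => tspin2_cont h.c1 t, fun t _ => tspin2_cont h.c2 t, fun t ht θ => ?_,
    tspin2_fc h.c1 h.d1 h.p1, tspin2_fc h.c2 h.d2 h.p2, ?_, ?_, ?_⟩⟩
  · have := h.hu (t + θ * Complex.I) (by simpa using ht)
    simpa [tspin2_norm] using this
  · rw [← tspin2_comb S hV (1 / 2) (-Complex.I / 2)]
    congr 1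
    funext θ
    rw [tspin2_mul, ← sq, h.e1 _ (hB θ)]
    ring
  · rw [← tspin2_comb S hV (-1 / 2) (-Complex.I / 2)]
    congr 1
    funext θ
    rw [tspin2_mul, ← sq, h.e2 _ (hB θ)]
    ring
  · rw [Ann0.phi, ← tspin2_cavPhi]
    congr 1
    funext θ
    rw [← h.e3 _ (hB θ), mul_assoc 2, mul_assoc 2, tspin2_mul, mul_assoc]

end Pool.Agent.Lib.MP_14b623_gt
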