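import Pool.Agent.Lib.MP_14b623_gt.TSpin1

namespace Pool.Agent.Lib.MP_14b623_gt

open Set Real Function
open scoped ComplexConjugate InnerProductSpace

lemma twind_pos {f : ℝ → ℝ} (hf : Continuous f) {a b : ℝ} (ha : 0 < f a)
    (hne : ∀ x ∈ uIcc a b, f x ≠ 0) : 0 < f b := by
  by_contra h
  obtain ⟨x, hx, h0⟩ := intermediate_value_uIcc (a := a) (b := b) hf.continuousOn
    (show (0 : ℝ) ∈ uIcc (f a) (f b) from mem_uIcc.2 (Or.inr ⟨not_lt.1 h, ha.le⟩))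
  exact hne x hx h0

lemma twind_right {f : ℝ → ℝ} {f' x : ℝ} (h : HasDerivAt f f' x) (h0 : f x = 0) (hp : 0 < f')
    {y : ℝ} (hy : x < y) : ∃ z, x < z ∧ z < y ∧ 0 < f z := by
  have h1 := (hasDerivAt_iff_tendsto_slope.1 h).eventually (lt_mem_nhds hp)
  have h2 : ∀ᶠ z in nhdsWithin x (Ioi x), 0 < slope f x z :=
    h1.filter_mono (nhdsWithin_mono _ fun z hz => ne_of_gt hz)
  obtain ⟨z, hz1, hz2⟩ := (h2.and (Ioo_mem_nhdsGT hy)).exists
  refine ⟨z, hz2.1, hz2.2, ?_⟩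
  rw [slope_def_field, h0, sub_zero] at hz1
  exact (div_pos_iff_of_pos_right (sub_pos.2 hz2.1)).1 hz1

lemma twind_left {f : ℝ → ℝ} {f' x : ℝ} (h : HasDerivAt f f' x) (h0 : f x = 0) (hp : 0 < f')
    {y : ℝ} (hy : y < x) : ∃ z, y < z ∧ z < x ∧ f z < 0 := by
  have h1 := (hasDerivAt_iff_tendsto_slope.1 h).eventually (lt_mem_nhds hp)
  have h2 : ∀ᶠ z in nhdsWithin x (Iio x), 0 < slope f x z :=
    h1.filter_mono (nhdsWithin_mono _ fun z hz => ne_of_lt hz)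
  obtain ⟨z, hz1, hz2⟩ := (h2.and (Ioo_mem_nhdsLT hy)).exists
  refine ⟨z, hz2.1, hz2.2, ?_⟩
  rw [slope_def_field, h0, sub_zero] at hz1
  by_contra hc
  exact absurd hz1 (not_lt.2 (div_nonpos_of_nonneg_of_nonpos (not_lt.1 hc) (sub_nonpos.2 hz2.2.le)))

theorem wind_lemma (ξ ζ' : ℝ → ℂ) (hc : Continuous ξ) (h0 : ∀ θ, ξ θ ≠ 0)
    (hp : ξ (2 * π) = ξ 0) (hp' : ζ' (2 * π) = ζ' 0)
    (hd : ∀ θ, HasDerivAt (fun θ => ξ θ ^ 2) (ζ' θ) θ)
    (hpos : ∀ θ, 0 < (conj (ξ θ ^ 2) * ζ' θ).im) :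
    ∃ θ₁ θ₂, 0 < θ₁ ∧ θ₁ < θ₂ ∧ θ₂ < 2 * π ∧ (ξ θ₁ ^ 2 * conj (ξ 0 ^ 2)).im = 0 ∧
      (ξ θ₂ ^ 2 * conj (ξ 0 ^ 2)).im = 0 := by
  by_contra hcon
  set Q : ℝ → ℝ := fun θ => (ξ θ ^ 2 * conj (ξ 0 ^ 2)).im with hQ
  set p : ℝ → ℝ := fun θ => (ξ θ * conj (ξ 0)).re with hpd
  set q : ℝ → ℝ := fun θ => (ξ θ * conj (ξ 0)).im with hqd
  have cp : Continuous p := Complex.continuous_re.comp (hc.mul continuous_const)
  have cq : Continuous q := Complex.continuous_im.comp (hc.mul continuous_const)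
  have eQ : ∀ θ, Q θ = 2 * p θ * q θ := fun θ => by
    have : ξ θ ^ 2 * conj (ξ 0 ^ 2) = (ξ θ * conj (ξ 0)) * (ξ θ * conj (ξ 0)) := by
      rw [map_pow]; ring
    simp only [hQ, hpd, hqd]
    rw [this, Complex.mul_im]
    ring
  have cQ : Continuous Q := by
    rw [show Q = fun θ => 2 * p θ * q θ from funext eQ]
    fun_prop
  have dQ : ∀ θ, HasDerivAt Q ((ζ' θ * conj (ξ 0 ^ 2)).im) θ := fun θ =>
    Complex.imCLM.hasFDerivAt.comp_hasDerivAt θ ((hd θ).mul_const _)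
  have p0 : 0 < p 0 := by
    simp only [hpd, Complex.mul_conj, Complex.ofReal_re]
    exact Complex.normSq_pos.2 (h0 0)
  have p2 : 0 < p (2 * π) := by simpa only [hpd, hp] using p0
  have Q0 : Q 0 = 0 := by simp only [hQ, Complex.mul_conj, Complex.ofReal_im]
  have Q2 : Q (2 * π) = 0 := by simpa only [hQ, hp] using Q0
  have d0 : 0 < (ζ' 0 * conj (ξ 0 ^ 2)).im := by rw [mul_comm]; exact hpos 0
  obtain ⟨a, a1, a2, a3⟩ := twind_right (dQ 0) Q0 d0 pi_pos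
  obtain ⟨b, b1, b2, b3⟩ := twind_left (dQ (2 * π)) Q2 (by rw [hp']; exact d0)
    (show π < 2 * π by linarith [pi_pos])
  obtain ⟨z, hz, z0⟩ := intermediate_value_Ioo' (show a ≤ b by linarith) cQ.continuousOn
    (show (0 : ℝ) ∈ Ioo (Q b) (Q a) from ⟨b3, a3⟩)
  have nl : ∀ x, 0 < x → x < z → Q x ≠ 0 := fun x h1 h2 h3 =>
    hcon ⟨x, z, h1, h2, by linarith [hz.2], h3, z0⟩
  have nr : ∀ x, z < x → x < 2 * π → Q x ≠ 0 := fun x h1 h2 h3 =>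
    hcon ⟨z, x, by linarith [hz.1], h1, h2, z0, h3⟩
  have Ql : ∀ x, 0 < x → x < z → 0 < Q x := fun x h1 h2 =>
    twind_pos cQ a3 fun y hy => nl y (lt_of_lt_of_le (lt_min a1 h1) hy.1)
      (lt_of_le_of_lt hy.2 (max_lt hz.1 h2))
  have Qr : ∀ x, z < x → x < 2 * π → Q x < 0 := fun x h1 h2 =>
    neg_pos.1 (twind_pos cQ.neg (neg_pos.2 b3) fun y hy => neg_ne_zero.2
      (nr y (lt_of_lt_of_le (lt_min hz.2 h1) hy.1) (lt_of_le_of_lt hy.2 (max_lt b2 h2))))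
  have pl : ∀ x, 0 < x → x < z → 0 < p x := fun x h1 h2 =>
    twind_pos cp p0 fun y hy h3 => by
      rw [uIcc_of_le h1.le] at hy
      rcases hy.1.eq_or_lt with rfl | h4
      · exact p0.ne' h3
      · exact nl y h4 (lt_of_le_of_lt hy.2 h2) (by rw [eQ, h3]; ring)
  have pr : ∀ x, z < x → x < 2 * π → 0 < p x := fun x h1 h2 =>
    twind_pos cp p2 fun y hy h3 => by
      rw [uIcc_of_ge h2.le] at hy
      rcases hy.2.eq_or_lt with rfl | h4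
      · exact p2.ne' h3
      · exact nr y (lt_of_lt_of_le h1 hy.1) h4 (by rw [eQ, h3]; ring)
  have z1 : 0 < z := by linarith [hz.1]
  have z2 : z < 2 * π := by linarith [hz.2]
  have qz : q z = 0 := by
    rcases lt_trichotomy (q z) 0 with h | h | h
    · have h2 : ∀ᶠ x in nhdsWithin z (Iio z), q x < 0 :=
        (cq.continuousAt.eventually (gt_mem_nhds h)).filter_mono nhdsWithin_le_nhds
      obtain ⟨x, x1, x2⟩ := (h2.and (Ioo_mem_nhdsLT z1)).exists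
      have := Ql x x2.1 x2.2
      rw [eQ] at this
      nlinarith [pl x x2.1 x2.2]
    · exact h
    · have h2 : ∀ᶠ x in nhdsWithin z (Ioi z), 0 < q x :=
        (cq.continuousAt.eventually (lt_mem_nhds h)).filter_mono nhdsWithin_le_nhds
      obtain ⟨x, x1, x2⟩ := (h2.and (Ioo_mem_nhdsGT z2)).exists
      have := Qr x x2.1 x2.2
      rw [eQ] at this
      nlinarith [pr x x2.1 x2.2]
  have w0 : ξ z * conj (ξ 0) = (p z : ℂ) := Complex.ext (by simp [hpd]) (by simpa [hqd] using qz)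
  have pz : p z ≠ 0 := fun h => by
    rw [h] at w0
    have h1 : ξ z = 0 ∨ ξ 0 = 0 := by simpa using w0
    exact h1.elim (h0 z) (h0 0)
  have dz : 0 < (ζ' z * conj (ξ 0 ^ 2)).im := by
    have e1 : ((Complex.normSq (ξ z ^ 2) : ℝ) : ℂ) * (ζ' z * conj (ξ 0 ^ 2)) =
        ((p z ^ 2 : ℝ) : ℂ) * (conj (ξ z ^ 2) * ζ' z) := by
      rw [← Complex.mul_conj, Complex.ofReal_pow, ← w0, map_pow, map_pow]
      ring
    have e2 := congrArg Complex.im e1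
    rw [Complex.im_ofReal_mul, Complex.im_ofReal_mul] at e2
    have e3 : 0 < Complex.normSq (ξ z ^ 2) := Complex.normSq_pos.2 (pow_ne_zero _ (h0 z))
    have e4 : 0 < p z ^ 2 * (conj (ξ z ^ 2) * ζ' z).im := mul_pos (by positivity) (hpos z)
    rw [← e2] at e4
    exact (mul_pos_iff_of_pos_left e3).1 e4
  obtain ⟨x, x1, x2, x3⟩ := twind_left (dQ z) z0 dz z1
  linarith [Ql x x1 x2]

lemma twind_main (f f' g r : ℝ → ℂ) (u : ℝ → ℝ) (cg : Continuous g) (hu : ∀ θ, 0 < u θ)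
    (hd : ∀ θ, HasDerivAt f (f' θ) θ) (pf : f (2 * π) = f 0) (pf' : f' (2 * π) = f' 0)
    (pg : g (2 * π) = g 0) (he : ∀ θ, (u θ : ℂ) * f θ = g θ ^ 2 + r θ)
    (hr : ∀ θ, Complex.normSq (r θ) < Complex.normSq (g θ ^ 2))
    (hpos : ∀ θ, 0 < (conj (f θ) * f' θ).im) :
    ∃ θ₁ θ₂, 0 < θ₁ ∧ θ₁ < θ₂ ∧ θ₂ < 2 * π ∧ (f θ₁ * conj (f 0)).im = 0 ∧
      (f θ₂ * conj (f 0)).im = 0 := by
  have cf : Continuous f := continuous_iff_continuousAt.2 fun θ => (hd θ).continuousAt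
  have g2 : ∀ θ, g θ ^ 2 ≠ 0 := fun θ h => by
    have := hr θ
    rw [h, map_zero] at this
    exact absurd this (not_lt.2 (Complex.normSq_nonneg _))
  have hre : ∀ θ, 0 < (f θ / g θ ^ 2).re := fun θ => by
    have e1 : (u θ : ℂ) * (f θ / g θ ^ 2) = 1 + r θ / g θ ^ 2 := by
      rw [← mul_div_assoc, he, add_div, div_self (g2 θ)]
    have e2 := congrArg Complex.re e1
    rw [Complex.re_ofReal_mul, Complex.add_re, Complex.one_re] at e2
    have e3 : ‖r θ / g θ ^ 2‖ < 1 := by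
      rw [norm_div, div_lt_one (norm_pos_iff.2 (g2 θ))]
      have := hr θ
      rw [Complex.normSq_eq_norm_sq, Complex.normSq_eq_norm_sq] at this
      exact lt_of_pow_lt_pow_left₀ 2 (norm_nonneg _) this
    have e4 := (abs_le.1 (Complex.abs_re_le_norm (r θ / g θ ^ 2))).1
    have e5 : 0 < u θ * (f θ / g θ ^ 2).re := by linarith
    exact (mul_pos_iff_of_pos_left (hu θ)).1 e5
  have hsq : ∀ θ, (g θ * (f θ / g θ ^ 2) ^ ((2 : ℕ) : ℂ)⁻¹) ^ 2 = f θ := fun θ => by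
    rw [mul_pow, Complex.cpow_nat_inv_pow _ two_ne_zero, mul_div_cancel₀ _ (g2 θ)]
  have f0 : ∀ θ, f θ ≠ 0 := fun θ h => by
    have := hre θ
    simp [h] at this
  have := wind_lemma (fun θ => g θ * (f θ / g θ ^ 2) ^ ((2 : ℕ) : ℂ)⁻¹) f'
    (cg.mul ((cf.div (cg.pow 2) g2).cpow continuous_const fun θ => Or.inl (hre θ)))
    (fun θ h => f0 θ (by rw [← hsq θ, h]; simp)) (by simp only [pf, pg]) pf'
    (fun θ => by simpa only [hsq] using hd θ) (fun θ => by simpa only [hsq] using hpos θ)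
  simpa only [hsq] using this

lemma twind_det {a b c : V} (h0 : a 0 * a 0 + a 1 * a 1 ≠ 0) (h1 : b 1 * a 0 - b 0 * a 1 = 0)
    (h2 : c 1 * a 0 - c 0 * a 1 = 0) : det3 a b c = 0 := by
  have h3 : b 0 * c 1 - b 1 * c 0 = 0 := by
    apply mul_left_cancel₀ h0
    linear_combination (a 0 * b 0 + a 1 * b 1) * h2 - (a 0 * c 0 + a 1 * c 1) * h1
  unfold det3
  linear_combination c 2 * h1 - b 2 * h2 + a 2 * h3

theorem Ann0.not_isPsi_one (S : Ann0) {ψ₁ ψ₂ : ℂ → ℂ}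
    (h3 : ∀ θ₁ θ₂, 0 < θ₁ → θ₁ < θ₂ → θ₂ < 2 * π →
      det3 (S.X S.B 0) (S.X S.B θ₁) (S.X S.B θ₂) ≠ 0)
    (hn : ∀ θ, S.X S.B θ 0 * S.Xs S.B θ 1 - S.X S.B θ 1 * S.Xs S.B θ 0 ≠ 0) :
    ¬ S.IsPsi ψ₁ ψ₂ 1 := by
  intro hP
  set z : ℝ → ℂ := fun θ => (S.B : ℂ) + θ * Complex.I with hz
  have zre : ∀ θ, (z θ).re = S.B := fun θ => by simp [hz]
  have zim : ∀ θ, (z θ).im = θ := fun θ => by simp [hz]
  have zm : ∀ θ, (z θ).re ∈ Icc S.A S.B := fun θ => by rw [zre]; exact S.memB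
  have cz : Continuous z := by rw [hz]; fun_prop
  have z2 : z (2 * π) = z 0 + 2 * π * Complex.I := by simp [hz]
  have q1 : ψ₁ (z (2 * π)) = ψ₁ (z 0) := by rw [z2, hP.p1 _ (zm 0), one_mul]
  have q2 : ψ₂ (z (2 * π)) = ψ₂ (z 0) := by rw [z2, hP.p2 _ (zm 0), one_mul]
  have hu : ∀ θ, 0 < S.u S.B θ := S.upos _ S.memB
  have e1 : ∀ θ, ψ₁ (z θ) ^ 2 = ⟨(S.u S.B θ * S.X S.B θ 0 - S.Xs S.B θ 1) / 2,
      -(S.Xs S.B θ 0 + S.u S.B θ * S.X S.B θ 1) / 2⟩ := fun θ => by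
    rw [hP.e1 _ (zm θ)]
    simp only [Ann0.Phi, zre, zim, S.nB θ, Pi.smul_apply, smul_eq_mul]
    apply Complex.ext <;> simp <;> ring
  have e2 : ∀ θ, ψ₂ (z θ) ^ 2 = ⟨-(S.u S.B θ * S.X S.B θ 0 + S.Xs S.B θ 1) / 2,
      (S.Xs S.B θ 0 - S.u S.B θ * S.X S.B θ 1) / 2⟩ := fun θ => by
    rw [hP.e2 _ (zm θ)]
    simp only [Ann0.Phi, zre, zim, S.nB θ, Pi.smul_apply, smul_eq_mul]
    apply Complex.ext <;> simp <;> ring
  have dX : ∀ (i : Fin 3) θ, HasDerivAt (fun θ => (S.X S.B θ i : ℂ)) (S.Xs S.B θ i : ℂ) θ :=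
    fun i θ => (hasDerivAt_pi.1 (S.dXs S.B θ) i).ofReal_comp
  have pX : S.X S.B (2 * π) = S.X S.B 0 := by simpa using S.pX S.B 0
  have pXs : S.Xs S.B (2 * π) = S.Xs S.B 0 := by simpa using S.pXs S.B 0
  have cn : Continuous fun θ => S.X S.B θ 0 * S.Xs S.B θ 1 - S.X S.B θ 1 * S.Xs S.B θ 0 := by
    have c1 := S.cX.uncurry_left S.B
    have c2 := S.cXs.uncurry_left S.B
    fun_prop
  have a0 : S.X S.B 0 0 * S.X S.B 0 0 + S.X S.B 0 1 * S.X S.B 0 1 ≠ 0 := fun h => by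
    have k0 : S.X S.B 0 0 = 0 := by nlinarith [mul_self_nonneg (S.X S.B 0 0), mul_self_nonneg (S.X S.B 0 1)]
    have k1 : S.X S.B 0 1 = 0 := by nlinarith [mul_self_nonneg (S.X S.B 0 0), mul_self_nonneg (S.X S.B 0 1)]
    exact hn 0 (by rw [k0, k1]; ring)
  rcases (hn 0).lt_or_gt with h | h
  · have hs : ∀ θ, 0 < -(S.X S.B θ 0 * S.Xs S.B θ 1 - S.X S.B θ 1 * S.Xs S.B θ 0) := fun θ =>
      twind_pos cn.neg (neg_pos.2 h) fun y _ => neg_ne_zero.2 (hn y)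
    obtain ⟨θ₁, θ₂, t1, t2, t3, t4, t5⟩ := twind_main
      (fun θ => (S.X S.B θ 0 : ℂ) - S.X S.B θ 1 * Complex.I)
      (fun θ => (S.Xs S.B θ 0 : ℂ) - S.Xs S.B θ 1 * Complex.I) (fun θ => ψ₁ (z θ))
      (fun θ => -conj (ψ₂ (z θ) ^ 2)) (S.u S.B) (hP.c1.comp cz) hu
      (fun θ => (dX 0 θ).sub ((dX 1 θ).mul_const _)) (by simp only [pX]) (by simp only [pXs]) q1
      (fun θ => by rw [e1, e2]; apply Complex.ext <;> simp <;> ring)
      (fun θ => by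
        rw [Complex.normSq_neg, Complex.normSq_conj, e1, e2, Complex.normSq_mk, Complex.normSq_mk]
        nlinarith [mul_pos (hu θ) (hs θ)])
      (fun θ => by have := hs θ; simp; linarith)
    simp at t4 t5
    exact h3 θ₁ θ₂ t1 t2 t3 (twind_det a0 (by linarith) (by linarith))
  · have hs : ∀ θ, 0 < S.X S.B θ 0 * S.Xs S.B θ 1 - S.X S.B θ 1 * S.Xs S.B θ 0 := fun θ =>
      twind_pos cn h fun y _ => hn y
    obtain ⟨θ₁, θ₂, t1, t2, t3, t4, t5⟩ := twind_main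
      (fun θ => (S.X S.B θ 0 : ℂ) + S.X S.B θ 1 * Complex.I)
      (fun θ => (S.Xs S.B θ 0 : ℂ) + S.Xs S.B θ 1 * Complex.I)
      (fun θ => Complex.I * ψ₂ (z θ))
      (fun θ => conj (ψ₁ (z θ) ^ 2)) (S.u S.B) (continuous_const.mul (hP.c2.comp cz)) hu
      (fun θ => (dX 0 θ).add ((dX 1 θ).mul_const _)) (by simp only [pX]) (by simp only [pXs])
      (by simp only [q2])
      (fun θ => by rw [mul_pow, Complex.I_sq, e1, e2]; apply Complex.ext <;> simp <;> ring)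
      (fun θ => by
        rw [mul_pow, Complex.I_sq, neg_one_mul, Complex.normSq_neg, Complex.normSq_conj, e1, e2,
          Complex.normSq_mk, Complex.normSq_mk]
        nlinarith [mul_pos (hu θ) (hs θ)])
      (fun θ => by have := hs θ; simp; linarith)
    simp at t4 t5
    exact h3 θ₁ θ₂ t1 t2 t3 (twind_det a0 (by linarith) (by linarith))

end Pool.Agent.Lib.MP_14b623_gt
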