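import Pool.Agent.Lib.MP_14b623_gt.TCurve1
import Pool.Agent.Lib.MP_14b623_gt.TCurve2
import Pool.Agent.Lib.MP_14b623_gt.THopf
import Pool.Agent.Lib.MP_14b623_gt.TBre1
import Pool.Agent.Lib.MP_14b623_gt.TWind
import Pool.Agent.Lib.MP_14b623_gt.TSpin2
import Pool.Agent.Lib.MP_14b623_gt.TSeqA
import Pool.Agent.Lib.MP_14b623_gt.TSeqP
import Pool.Agent.Lib.MP_14b623_gt.TEnd
import Pool.Agent.Lib.MP_14b623_gt.TCat
import Pool.Agent.Lib.MP_14b623_gt.TGlue2
import Pool.Agent.Lib.MP_14b623_gt.Fin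

namespace Pool.Agent.Lib.MP_14b623_gt

open Set Real Function

/-- Exchange of the two spinor components. -/
def Spin.swap {A B φ : ℝ} {u : ℝ → ℝ → ℝ} (P : Spin A B φ u) : Spin A B φ u where
  g1 := P.g2
  g2 := P.g1
  a := P.b
  b := P.a
  c1 := P.c2
  c2 := P.c1
  hu t ht θ := by rw [add_comm]; exact P.hu t ht θ
  ha := P.hb
  hb := P.ha
  z11 := P.z22
  z22 := P.z11
  z12 := by rw [← P.z12]; congr 1; funext θ; ring

lemma av_neg (f : ℝ → ℝ) : av (fun θ => -f θ) = -av f := by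
  simp only [av, intervalIntegral.integral_neg]; ring

lemma av_zero : av (fun _ => 0) = 0 := by simp [av]

lemma mainM_nonneg (a b : ℤ → ℂ) (t : ℝ) : 0 ≤ mainM a b t := by unfold mainM; positivity

lemma sin_pos_of_len {l : ℝ} (h0 : 0 < l) (h1 : l < 1) : 0 < sin (π * l) / π :=
  div_pos (sin_pos_of_pos_of_lt_pi (by positivity) (by nlinarith [pi_pos])) pi_pos

lemma coord_le_one {x : V} (hx : dot x x = 1) (i : Fin 3) : x i ≤ 1 := by
  simp only [dot] at hx
  fin_cases i <;> simp only [Fin.reduceFinMk, Fin.zero_eta, Fin.mk_one] <;>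
    nlinarith [sq_nonneg (x 0), sq_nonneg (x 1), sq_nonneg (x 2), sq_nonneg (x 0 - 1),
      sq_nonneg (x 1 - 1), sq_nonneg (x 2 - 1)]

/-- The end data of one boundary circle. -/
lemma end_of_curve {A B φ : ℝ} {u : ℝ → ℝ → ℝ} (P : Spin A B φ u) (t : ℝ) (ht : t ∈ Icc A B)
    (c : SCurve) (hu : c.u = u t) (hl : c.len < 1) (hφ : 0 < φ)
    (h0 : av (fun θ => c.u θ * c.g θ 0) = 0) (h1 : av (fun θ => c.u θ * c.g θ 1) = 0)
    (h2 : av (fun θ => c.u θ * c.g θ 2) = φ) (hM : mainM P.a P.b t ≤ c.len) (R : ℝ)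
    (hR : Summable (fun n : ℤ => ‖parP P.a P.b t n‖ ^ 2) →
      ∑' n : ℤ, ‖parP P.a P.b t n‖ ^ 2 ≤ mainM P.a P.b t * c.len →
      c.len - mainM P.a P.b t ≤ mainM P.a P.b t →
      ∑' n : ℕ, ‖parP P.a P.b t (n + 1)‖ * ‖parP P.a P.b t (-(n + 1))‖ ≤ mainM P.a P.b t * R) :
    ∃ Z, EndD φ c.len (mainM P.a P.b t) (av fun θ => c.g θ 2) Z ∧
      (c.len - mainM P.a P.b t ≤ mainM P.a P.b t → (c.len - mainM P.a P.b t) / 2 - R ≤ Z) := by
  obtain ⟨hD, hvar, hosc⟩ := c.bounds hl.le φ hφ h0 h1 h2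
  have hsin : ∀ θ, sin (π * c.len) / π ≤ φ * c.g θ 2 := by
    intro θ
    have := c.sinc hl.le θ
    simp only [dot, h0, h1, h2] at this
    linarith
  have hg : Continuous fun θ => c.g θ 2 := (continuous_apply 2).comp c.c0
  have hlen : av (u t) = c.len := by rw [← hu]; rfl
  rcases (mainM_nonneg P.a P.b t).eq_or_lt with hM0 | hM0
  · refine ⟨_, endD_of_fun (y := fun _ => 0) c.cu hg continuous_const c.upos rfl hl.le hφ h2
      (fun θ => coord_le_one (c.sph θ) 2) hsin hD hvar hosc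
      (fun θ => by simpa using (c.upos θ).le) hM0.le hM (by rw [← hM0, av_zero, sqrt_zero]), ?_⟩
    intro h
    have := c.len_pos
    linarith
  · obtain ⟨hs, hle, y, hyc, hyu, hyM, hy2⟩ := P.exists_y t ht hM0
    rw [hlen] at hle hy2
    refine ⟨_, endD_of_fun c.cu hg hyc c.upos rfl hl.le hφ h2
      (fun θ => coord_le_one (c.sph θ) 2) hsin hD hvar hosc
      (fun θ => by rw [hu]; exact hyu θ) hM0.le hM hyM, ?_⟩
    intro h
    have h3 := hR hs hle h
    have : mainM P.a P.b t * av (fun θ => y θ ^ 2) ≤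
        mainM P.a P.b t * ((c.len + mainM P.a P.b t) / 2 + R) := by nlinarith
    have := le_of_mul_le_mul_left this hM0
    linarith

namespace Ann0

variable (S : Ann0)

lemma cenB (i : Fin 3) :
    av (fun θ => S.curveB.u θ * S.curveB.g θ i) = av fun θ => S.Xt S.B θ i := by
  congr 1; funext θ; simp [curveB, S.nB θ]

lemma cenA (i : Fin 3) :
    av (fun θ => S.curveA.u θ * S.curveA.g θ i) = av fun θ => S.Xt S.B θ i := by
  rw [← S.flux_const S.A S.memA]
  congr 1; funext θ; simp [curveA, S.nA θ]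

lemma simple_of_lt (h : S.curveA.len + S.curveB.len < 2) :
    S.curveA.Simple ∧ S.curveB.Simple := by
  constructor
  · by_contra hs
    have h1 : ¬ S.flip.curveB.Simple := by
      intro h'
      apply hs
      intro s t h1 h2 h3
      refine h' s t h1 h2 ?_
      simpa [flip, curveB, curveA] using h3
    have h2 := S.flip.brendle h1
    have e1 : S.flip.curveA.len = S.curveB.len := by simp [flip, curveA, curveB, SCurve.len]
    have e2 : S.flip.curveB.len = S.curveA.len := by simp [flip, curveA, curveB, SCurve.len]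
    linarith
  · by_contra hs
    linarith [S.brendle hs]

theorem main_spin {τ : ℝ} (h1 : 1.199675 < τ) (h2 : τ < 1.199685) (hτ : τ * sinh τ = cosh τ)
    (hV : S.Vertical) (hφ : 0 < S.phi) (hA : S.curveA.len < 1) (hB : S.curveB.len < 1)
    (P : Spin S.A S.B S.phi S.u) (hP : ‖P.a 0‖ * ‖P.b (-1)‖ ≤ ‖P.a (-1)‖ * ‖P.b 0‖) :
    2 / τ ≤ S.curveA.len + S.curveB.len := by
  have hD : SeqD S.A S.B S.phi S.curveA.len S.curveB.len P.a P.b := P.seqD S.hAB
  obtain ⟨hMA, hMB⟩ := hD.mainM_le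
  obtain ⟨Za, hZa, hZa'⟩ := end_of_curve P S.A S.memA S.curveA rfl hA hφ
    (by rw [S.cenA]; exact hV.1) (by rw [S.cenA]; exact hV.2.1) (S.cenA 2) hMA _
    (hD.par_A S.hAB)
  obtain ⟨Zb, hZb, hZb'⟩ := end_of_curve P S.B S.memB S.curveB rfl hB hφ
    (by rw [S.cenB]; exact hV.1) (by rw [S.cenB]; exact hV.2.1) (S.cenB 2) hMB _
    (hD.par_B S.hAB)
  have hY := hD.small_le
  have hY0 : 0 ≤ highY P.a P.b := le_trans (by positivity) hY
  refine fin_main (φ' := 2 * (‖P.a (-1)‖ * ‖P.b 0‖)) (s := ‖P.a 0‖ * ‖P.b (-1)‖)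
    (Y := highY P.a P.b) h1 h2 hτ (sub_pos.2 S.hAB) hφ hZa hZb
    ⟨by positivity, by positivity, hY0, hD.flux_le, by linarith, ?_,
      fun x y hx hy => main_budget _ _ _ _ x y hx hy,
      fun x y hx hy => hD.rest_budget S.hAB x y hx hy,
      fun h => by linarith [hZa' h], fun h => by linarith [hZb' h]⟩ ?_
  · have h3 : (‖P.a 0‖ * ‖P.a (-1)‖ + ‖P.b 0‖ * ‖P.b (-1)‖) ^ 2 ≤ highY P.a P.b ^ 2 :=
      pow_le_pow_left₀ (by positivity) hY 2
    nlinarith [sq_nonneg (‖P.a 0‖ * ‖P.a (-1)‖ - ‖P.b 0‖ * ‖P.b (-1)‖)]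
  · have h3 := S.closing 2
    have e : av (fun θ => S.curveA.g θ 2) = -av fun θ => S.X S.A θ 2 := by
      rw [← av_neg]; rfl
    rw [e]
    change _ = _ + av fun θ => S.X S.B θ 2
    unfold phi
    linarith

theorem main {τ : ℝ} (h1 : 1.199675 < τ) (h2 : τ < 1.199685) (hτ : τ * sinh τ = cosh τ)
    (hV : S.Vertical) : 2 / τ ≤ S.curveA.len + S.curveB.len := by
  by_contra hcon
  push Not at hcon
  have h2τ : 2 / τ < 2 := by rw [div_lt_iff₀ (by linarith)]; linarith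
  obtain ⟨hsA, hsB⟩ := S.simple_of_lt (hcon.trans h2τ)
  obtain ⟨c, hcB, hcA⟩ := S.hopf
  have hlen : ∀ c : SCurve, (∀ i, av (fun θ => c.u θ * c.g θ i) = 0) → 1 ≤ c.len := by
    intro c hc
    by_contra hl
    push Not at hl
    have h3 := c.sinc hl.le 0
    have h4 := sin_pos_of_len c.len_pos hl
    simp only [dot, hc] at h3
    linarith
  by_cases hc : c = 0
  · have hz : ∀ i, av (fun θ => S.curveB.u θ * S.curveB.g θ i) = 0 :=
      S.curveB.flat fun θ => by simpa [hc] using hcB θ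
    have h3 := hlen _ hz
    have h4 := hlen S.curveA fun i => by rw [S.cenA, ← S.cenB, hz]
    linarith
  have hkB : ∀ θ, S.curveB.kap θ ≠ 0 := by
    intro θ h
    have := hcB θ
    rw [h] at this
    exact mul_ne_zero hc (pow_pos (S.upos _ S.memB θ) 2).ne' (by linarith)
  have hkA : ∀ θ, S.curveA.kap θ ≠ 0 := by
    intro θ h
    have := hcA θ
    rw [h] at this
    exact mul_ne_zero hc (pow_pos (S.upos _ S.memA θ) 2).ne' (by linarith)
  obtain ⟨hA, -, -⟩ := S.curveA.simple_facts hkA hsA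
  obtain ⟨hB, h3, hn⟩ := S.curveB.simple_facts hkB hsB
  have hsin : ∀ c : SCurve, c.len < 1 →
      (∀ i, av (fun θ => c.u θ * c.g θ i) = av fun θ => S.Xt S.B θ i) →
      ∀ θ, 0 < S.phi * c.g θ 2 := by
    intro c hl hc θ
    have h3 := c.sinc hl.le θ
    have h4 := sin_pos_of_len c.len_pos hl
    simp only [dot, hc, hV.1, hV.2.1] at h3
    unfold phi
    linarith
  have hφ : 0 < S.phi := by
    rcases hV.2.2.eq_or_lt with h | h
    · have := hsin _ hB S.cenB 0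
      rw [← h] at this
      simp at this
    · exact h
  have hposA : ∀ θ, 0 < S.Xt S.A θ 2 := by
    intro θ
    have h4 := (mul_pos_iff_of_pos_left hφ).1 (hsin _ hA S.cenA θ)
    have h5 := mul_pos (S.upos _ S.memA θ) h4
    simpa [curveA, S.nA θ] using h5
  have hposB : ∀ θ, 0 < S.Xt S.B θ 2 := by
    intro θ
    have h4 := (mul_pos_iff_of_pos_left hφ).1 (hsin _ hB S.cenB θ)
    have h5 := mul_pos (S.upos _ S.memB θ) h4
    simpa [curveB, S.nB θ] using h5
  obtain ⟨ψ₁, ψ₂, ε, hε, hψ⟩ := S.exists_psi hposA hposB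
  rcases hε with rfl | rfl
  · refine S.not_isPsi_one h3 (fun θ h => hn θ ?_) hψ
    simp only [det3, S.cenB, hV.1, hV.2.1]
    change S.X S.B θ 0 * (S.Xs S.B θ 1 * _ - _) - S.X S.B θ 1 * (S.Xs S.B θ 0 * _ - _) + _ = 0
    linear_combination (av fun θ => S.Xt S.B θ 2) * h
  obtain ⟨P⟩ := S.spin_of_psi hV hψ
  rcases le_total (‖P.a 0‖ * ‖P.b (-1)‖) (‖P.a (-1)‖ * ‖P.b 0‖) with h | h
  · linarith [S.main_spin h1 h2 hτ hV hφ hA hB P h]
  · linarith [S.main_spin h1 h2 hτ hV hφ hA hB P.swap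
      (by simpa [Spin.swap, mul_comm] using h)]

end Ann0

theorem main_result : ∃ c τ : ℝ, 0 < c ∧ IsFBMAnnulus (-τ) τ (catenoid c) ∧
    ∀ (A B : ℝ) (X : ℝ × ℝ → E3), IsFBMAnnulus A B X → IsConformal A B X →
      area (-τ) τ (catenoid c) ≤ area A B X := by
  obtain ⟨τ, h1, h2, hτ⟩ := exists_tau
  have h0 : 0 < τ := by linarith
  refine ⟨sinh τ / cosh τ ^ 2, τ, div_pos (sinh_pos_iff.2 h0) (pow_pos (cosh_pos τ) 2),
    catenoid_isFBM h0 hτ, fun A B X hX hc => ?_⟩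
  obtain ⟨S, hV, ha⟩ := exists_ann0 hX hc
  rw [catenoid_area h0 hτ, ha, S.area_eq]
  have := S.main h1 h2 hτ hV
  calc 2 * π / τ = π * (2 / τ) := by ring
    _ ≤ _ := mul_le_mul_of_nonneg_left this pi_pos.le

end Pool.Agent.Lib.MP_14b623_gt
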