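import Pool.Agent.Lib.MP_14b623_gt.MPar
import Pool.Agent.Lib.MP_14b623_gt.MBd
import Pool.Agent.Lib.MP_14b623_gt.MArea
import Pool.Agent.Lib.MP_14b623_gt.MRing
import Pool.Agent.Lib.MP_14b623_gt.IMain
import Pool.Agent.Lib.MP_14b623_gt.Main

/-! The annulus: from the surface to a parametrisation on the cylinder. -/

namespace Pool.Agent.Lib.MP_14b623_gt

open Set Real Filter Topology Function
open scoped InnerProductSpace Manifold ContDiff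

/-- The area bound for conformal annuli with the explicit constant. -/
theorem conformal_bound {τ : ℝ} (h1 : 1.199675 < τ) (h2 : τ < 1.199685) (hτ : τ * sinh τ = cosh τ)
    {A B : ℝ} {X : ℝ × ℝ → E3} (hX : IsFBMAnnulus A B X) (hc : IsConformal A B X) :
    2 * π / τ ≤ area A B X := by
  obtain ⟨S, hV, ha⟩ := exists_ann0 hX hc
  rw [ha, S.area_eq]
  have := S.main h1 h2 hτ hV
  calc 2 * π / τ = π * (2 / τ) := by ring
    _ ≤ _ := mul_le_mul_of_nonneg_left this pi_pos.le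

/-- The area bound for smooth annuli in arbitrary coordinates. -/
theorem smooth_bound {τ : ℝ} (h1 : 1.199675 < τ) (h2 : τ < 1.199685) (hτ : τ * sinh τ = cosh τ)
    {A B : ℝ} {X : ℝ × ℝ → E3} (hX : IsFBMAnnulus A B X) (hs : ContDiff ℝ ∞ X) :
    2 * π / τ ≤ area A B X := by
  obtain ⟨T, Y, hY, hc, ha⟩ := exists_isothermal hX hs
  exact ha ▸ conformal_bound h1 h2 hτ hY hc

theorem span_prod (w : ℝ × ℝ) : ∃ s t : ℝ, w = s • ((1, 0) : ℝ × ℝ) + t • ((0, 1) : ℝ × ℝ) :=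
  ⟨w.1, w.2, by ext <;> simp⟩

variable {M : Type} [TopologicalSpace M] [ChartedSpace (EuclideanHalfSpace 2) M]
  [IsManifold (𝓡∂ 2) ∞ M] [MeasurableSpace M] [BorelSpace M] [T2Space M] [CompactSpace M]
  {φ : M → E3}

theorem annulus_param {c : Fin 1 → E2} {r : Fin 1 → ℝ} {ι : M → E2} {κ : E2 → M} (G : GZ c r ι κ)
    (h : IsFBMS φ) (hφ : ContMDiff (𝓡∂ 2) 𝓘(ℝ, E3) ∞ φ) :
    ∃ X : ℝ × ℝ → E3, IsFBMAnnulus 0 1 X ∧ ContDiff ℝ ∞ X ∧ area 0 1 X ≤ surfaceArea φ := by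
  obtain ⟨h0, h1⟩ := G.pos 0
  set z := ringP (c 0) (r 0) with hz
  have hzs : ContDiff ℝ ∞ z := ringP_smooth _ _
  have hm : ∀ p : ℝ × ℝ, p.1 ∈ Icc (0 : ℝ) 1 → z p ∈ holedDisc c r := fun p hp =>
    mem_holedDisc.2 ⟨ringP_norm_le h0 h1 hp, fun j => by
      rw [Subsingleton.elim j 0]
      exact ringP_dist_ge h0 h1 hp⟩
  have hF : ContMDiffOn 𝓘(ℝ, ℝ × ℝ) (𝓡∂ 2) ∞ (κ ∘ z) (Icc 0 1 ×ˢ univ) :=
    G.sκ.comp hzs.contMDiff.contMDiffOn fun p hp => hm p hp.1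
  have hι : ∀ p : ℝ × ℝ, p.1 ∈ Icc (0 : ℝ) 1 → ι ((κ ∘ z) p) = z p := fun p hp =>
    G.right _ (hm p hp)
  have P : Par (Icc (0 : ℝ) 1 ×ˢ (univ : Set ℝ)) (κ ∘ z) :=
    Par.of_left (by simp) ((uniqueDiffOn_Icc one_pos).prod uniqueDiffOn_univ) hF G.sι
      (fun p hp => hι p hp.1) (sm_diff hzs) fun p hp => ringP_inj_fderiv h0 h1 hp.1
  obtain ⟨X, hX, pX, he⟩ := ext_strip (P.contDiffOn hφ) fun t _ θ => by
    simp only [comp_apply, hz, ringP_per (c 0) (r 0) t θ]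
  have hb : ∀ p : ℝ × ℝ, p.1 = 0 ∨ p.1 = 1 →
      p.1 ∈ Icc (0 : ℝ) 1 ∧ (κ ∘ z) p ∈ (𝓡∂ 2).boundary M := by
    rintro p (hp | hp)
    · have h2 : p.1 ∈ Icc (0 : ℝ) 1 := by simp [hp]
      exact ⟨h2, G.bdry_of_inner (j := 0) (by rw [hι p h2]; exact ringP_left h0 hp)⟩
    · have h2 : p.1 ∈ Icc (0 : ℝ) 1 := by simp [hp]
      exact ⟨h2, G.bdry_of_outer (by rw [hι p h2]; exact ringP_right hp)⟩
  have hsub : Ioo (0 : ℝ) 1 ×ˢ Ioo 0 (2 * π) ⊆ Icc (0 : ℝ) 1 ×ˢ (univ : Set ℝ) :=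
    prod_mono Ioo_subset_Icc_self (subset_univ _)
  refine ⟨X, fbm_of one_pos hX pX (fun p hp => P.inj_fderiv h hφ hX he ⟨hp, trivial⟩)
    (fun p hp => ?_) (fun p hp => ?_) (fun p hp => P.minAt h hφ he ?_ span_prod)
    (fun p hp => P.tangent h hφ hX he ⟨(hb p hp).1, trivial⟩ (hb p hp).2), hX,
    area_le h (hF.mono hsub) (fun p hp q hq hpq => ringP_injOn h0 h1 hp hq ?_) hX (he.mono hsub)⟩
  · rw [he ⟨hp, trivial⟩]
    exact h.inBall _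
  · rw [he ⟨(hb p hp).1, trivial⟩]
    exact h.bdry _ (hb p hp).2
  · exact prod_mem_nhds (Icc_mem_nhds hp.1 hp.2) univ_mem
  · rw [← hz, ← hι p (hsub hp).1, ← hι q (hsub hq).1, hpq]

end Pool.Agent.Lib.MP_14b623_gt
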