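import Pool.Agent.Lib.MP_14b623_gt.MDefs

/-! The minimal surface equation under a change of parameters. -/

namespace Pool.Agent.Lib.MP_14b623_gt

open Set Real Filter Topology Function
open scoped ContDiff InnerProductSpace

variable {V W : Type} [NormedAddCommGroup V] [NormedSpace ℝ V] [NormedAddCommGroup W]
  [NormedSpace ℝ W]

/-- Sketch: `Filter.EventuallyEq.fderiv` and `Filter.EventuallyEq.fderiv_eq`. -/
theorem d2_congr {X Y : V → E3} {p : V} (h : X =ᶠ[𝓝 p] Y) (u v : V) :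
    d2 X p u v = d2 Y p u v := by
  have h1 : (fun q => fderiv ℝ X q u) =ᶠ[𝓝 p] fun q => fderiv ℝ Y q u :=
    (h.fderiv (𝕜 := ℝ)).mono fun q hq => by simp only [hq]
  rw [d2, d2, h1.fderiv_eq]

theorem MinAt.congr {X Y : V → E3} {p u v : V} (h : X =ᶠ[𝓝 p] Y) (hm : MinAt X p u v) :
    MinAt Y p u v := by
  intro N
  rw [← h.fderiv_eq, ← d2_congr h, ← d2_congr h, ← d2_congr h]
  exact hm N

/-- Sketch: `fderiv_clm_apply`; `fderiv ℝ X` is differentiable at `p` by `ContDiffAt.fderiv_right`. -/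
theorem d2_eq {X : V → E3} {p : V} (hX : ContDiffAt ℝ 2 X p) (u v : V) :
    d2 X p u v = fderiv ℝ (fderiv ℝ X) p v u := by
  have h1 : DifferentiableAt ℝ (fderiv ℝ X) p :=
    (hX.fderiv_right (m := 1) (by norm_num)).differentiableAt one_ne_zero
  rw [d2, fderiv_clm_apply h1 (differentiableAt_const u)]
  simp

/-- Sketch: `d2_eq`, `ContDiffAt.isSymmSndFDerivAt`. -/
theorem d2_symm {X : V → E3} {p : V} (hX : ContDiffAt ℝ 2 X p) (u v : V) :
    d2 X p u v = d2 X p v u := by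
  rw [d2_eq hX, d2_eq hX]
  exact (hX.isSymmSndFDerivAt (by simp)).eq _ _

/-- Sketch: near `p`, `fderiv (X ∘ τ) q u = fderiv X (τ q) (fderiv τ q u)` (`ContDiffAt.eventually`,
`fderiv_comp`); differentiate with `HasFDerivAt.clm_apply`. -/
theorem d2_comp {X : W → E3} {τ : V → W} {p : V} (hX : ContDiffAt ℝ 2 X (τ p))
    (hτ : ContDiffAt ℝ 2 τ p) (u v : V) :
    d2 (X ∘ τ) p u v = d2 X (τ p) (fderiv ℝ τ p u) (fderiv ℝ τ p v) +
      fderiv ℝ X (τ p) (fderiv ℝ (fun q => fderiv ℝ τ q u) p v) := by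
  have h0 : DifferentiableAt ℝ τ p := hτ.differentiableAt two_ne_zero
  have h1 : DifferentiableAt ℝ (fderiv ℝ X) (τ p) :=
    (hX.fderiv_right (m := 1) (by norm_num)).differentiableAt one_ne_zero
  have h2 : DifferentiableAt ℝ (fun q => fderiv ℝ τ q u) p :=
    ((hτ.fderiv_right (m := 1) (by norm_num)).differentiableAt one_ne_zero).clm_apply
      (differentiableAt_const u)
  have h3 : (fun q => fderiv ℝ (X ∘ τ) q u) =ᶠ[𝓝 p]
      fun q => fderiv ℝ X (τ q) (fderiv ℝ τ q u) := by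
    filter_upwards [hτ.eventually (by simp),
      h0.continuousAt.eventually (hX.eventually (by simp))] with q hq hq'
    rw [fderiv_comp q (hq'.differentiableAt two_ne_zero) (hq.differentiableAt two_ne_zero),
      ContinuousLinearMap.comp_apply]
  have h4 := ((h1.hasFDerivAt.comp p h0.hasFDerivAt).clm_apply h2.hasFDerivAt).fderiv
  rw [d2, h3.fderiv_eq, d2_eq hX]
  refine (congrArg (fun L => L v) h4).trans ?_
  simp [add_comm]

/-- Change of the pair of vectors. Sketch: write `a`, `b` in terms of `u`, `v`; a vector normal to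
`DX a`, `DX b` is normal to `DX u`, `DX v` by `hs`; by `d2_eq` (bilinear) and `d2_symm` the
expression for `a, b` is the squared determinant times the expression for `u, v` (`ring` after
generalising the inner products). -/
theorem MinAt.basis {X : V → E3} {p u v a b : V} (hX : ContDiffAt ℝ 2 X p)
    (ha : ∃ s t : ℝ, a = s • u + t • v) (hb : ∃ s t : ℝ, b = s • u + t • v)
    (hs : ∀ w : V, ∃ s t : ℝ, w = s • a + t • b) (hm : MinAt X p u v) : MinAt X p a b := by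
  intro N h1 h2
  have h0 : ∀ w, ⟪N, fderiv ℝ X p w⟫_ℝ = 0 := fun w => by
    obtain ⟨s, t, rfl⟩ := hs w
    rw [map_add, map_smul, map_smul, inner_add_right, inner_smul_right, inner_smul_right, h1, h2]
    simp
  have h3 := hm N (h0 u) (h0 v)
  have h4 := d2_symm hX u v
  obtain ⟨s, t, rfl⟩ := ha
  obtain ⟨s', t', rfl⟩ := hb
  simp only [d2_eq hX] at h3 h4 ⊢
  simp only [map_add, map_smul, add_apply, smul_apply,
    inner_add_left, inner_add_right, real_inner_smul_left, real_inner_smul_right, ← h4,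
    real_inner_comm (fderiv ℝ X p u) (fderiv ℝ X p v)]
  linear_combination (s * t' - t * s') ^ 2 * h3

/-- Sketch: `MinAt.basis` for `a = Dτ u`, `b = Dτ v`, then `d2_comp`; the extra terms are tangent,
so `N` kills them (`hs`). -/
theorem MinAt.comp {X : W → E3} {τ : V → W} {p u v : V} {u' v' : W}
    (hX : ContDiffAt ℝ 2 X (τ p)) (hτ : ContDiffAt ℝ 2 τ p)
    (hsp : ∀ w : W, ∃ s t : ℝ, w = s • u' + t • v')
    (hs : ∀ w : W, ∃ s t : ℝ, w = s • fderiv ℝ τ p u + t • fderiv ℝ τ p v)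
    (hm : MinAt X (τ p) u' v') : MinAt (X ∘ τ) p u v := by
  have h0 := fderiv_comp p (hX.differentiableAt two_ne_zero) (hτ.differentiableAt two_ne_zero)
  intro N h1 h2
  simp only [h0, ContinuousLinearMap.comp_apply] at h1 h2 ⊢
  have h3 : ∀ w, ⟪N, fderiv ℝ X (τ p) w⟫_ℝ = 0 := fun w => by
    obtain ⟨s, t, rfl⟩ := hs w
    rw [map_add, map_smul, map_smul, inner_add_right, inner_smul_right, inner_smul_right, h1, h2]
    simp
  simp only [d2_comp hX hτ, inner_add_right, h3, add_zero]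
  exact hm.basis hX (hsp _) (hsp _) hs N h1 h2

/-- Sketch: with `a = DX u`, `b = DX v`, `D = E G - F²` the field
`N' p = D • N - (G ⟪N, a⟫ - F ⟪N, b⟫) • a - (E ⟪N, b⟫ - F ⟪N, a⟫) • b` is continuous, normal at every
point, and `N' q = D q • N`. The minimal expression for `N'` is continuous and vanishes on `S`, so
on its closure (`IsClosed.closure_subset_iff`, `isClosed_eq`). -/
theorem MinAt.closure {X : V → E3} (hX : ContDiff ℝ 2 X) {S : Set V} {u v q : V}
    (hS : ∀ p ∈ S, MinAt X p u v) (hq : q ∈ closure S)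
    (hD : 0 < ⟪fderiv ℝ X q u, fderiv ℝ X q u⟫_ℝ * ⟪fderiv ℝ X q v, fderiv ℝ X q v⟫_ℝ -
      ⟪fderiv ℝ X q u, fderiv ℝ X q v⟫_ℝ ^ 2) : MinAt X q u v := by
  intro N h1 h2
  have c1 : ∀ w, ContDiff ℝ 1 fun p => fderiv ℝ X p w := fun w =>
    (hX.fderiv_right (m := 1) (by norm_num)).clm_apply contDiff_const
  have c2 : ∀ w w', Continuous fun p => d2 X p w w' := fun w w' =>
    ((c1 w).continuous_fderiv one_ne_zero).clm_apply continuous_const
  have ca := (c1 u).continuous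
  have cb := (c1 v).continuous
  let N' : V → E3 := fun p =>
    (⟪fderiv ℝ X p u, fderiv ℝ X p u⟫_ℝ * ⟪fderiv ℝ X p v, fderiv ℝ X p v⟫_ℝ -
      ⟪fderiv ℝ X p u, fderiv ℝ X p v⟫_ℝ ^ 2) • N -
    (⟪fderiv ℝ X p v, fderiv ℝ X p v⟫_ℝ * ⟪N, fderiv ℝ X p u⟫_ℝ -
      ⟪fderiv ℝ X p u, fderiv ℝ X p v⟫_ℝ * ⟪N, fderiv ℝ X p v⟫_ℝ) • fderiv ℝ X p u -
    (⟪fderiv ℝ X p u, fderiv ℝ X p u⟫_ℝ * ⟪N, fderiv ℝ X p v⟫_ℝ -
      ⟪fderiv ℝ X p u, fderiv ℝ X p v⟫_ℝ * ⟪N, fderiv ℝ X p u⟫_ℝ) • fderiv ℝ X p v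
  have cN : Continuous N' := by
    have i1 := ca.inner (𝕜 := ℝ) ca
    have i2 := ca.inner (𝕜 := ℝ) cb
    have i3 := cb.inner (𝕜 := ℝ) cb
    have i4 := (continuous_const (y := N)).inner (𝕜 := ℝ) ca
    have i5 := (continuous_const (y := N)).inner (𝕜 := ℝ) cb
    exact ((((i1.mul i3).sub (i2.pow 2)).smul continuous_const).sub
      (((i3.mul i4).sub (i2.mul i5)).smul ca)).sub (((i1.mul i5).sub (i2.mul i4)).smul cb)
  have key := (isClosed_eq (g := fun _ => (0 : ℝ))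
    ((((ca.inner (𝕜 := ℝ) ca).mul (cN.inner (𝕜 := ℝ) (c2 v v))).sub
      ((continuous_const (y := (2 : ℝ)).mul (ca.inner (𝕜 := ℝ) cb)).mul
        (cN.inner (𝕜 := ℝ) (c2 u v)))).add
      ((cb.inner (𝕜 := ℝ) cb).mul (cN.inner (𝕜 := ℝ) (c2 u u))))
    continuous_const).closure_subset_iff.2 (fun p hp => hS p hp (N' p) (by
      simp only [N', inner_sub_left, real_inner_smul_left,
        real_inner_comm (fderiv ℝ X p u) (fderiv ℝ X p v)]
      ring) (by
      simp only [N', inner_sub_left, real_inner_smul_left]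
      ring)) hq
  simp only [mem_ofPred_eq, Pi.add_apply, Pi.sub_apply, Pi.mul_apply, N', h1, h2, mul_zero,
    sub_zero, zero_smul, real_inner_smul_left] at key
  refine mul_left_cancel₀ hD.ne' ?_
  linear_combination key

/-- Sketch: if not, `A (G • (1, 0) - F • (0, 1))` has squared norm `G (E G - F²) ≤ 0`, so
`G = 0`, but `G = ‖A (0, 1)‖²` (compare `gram_pos` in `GLin`). -/
theorem gram_pos_prod {A : ℝ × ℝ →L[ℝ] E3} (hA : Injective A) :
    0 < ⟪A (1, 0), A (1, 0)⟫_ℝ * ⟪A (0, 1), A (0, 1)⟫_ℝ - ⟪A (1, 0), A (0, 1)⟫_ℝ ^ 2 := by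
  have h0 : ∀ w, w ≠ 0 → 0 < ⟪A w, A w⟫_ℝ := fun w hw =>
    real_inner_self_pos.2 fun e => hw (hA (e.trans (map_zero A).symm))
  have hG := h0 (0, 1) (by simp)
  have h1 := h0 (⟪A (0, 1), A (0, 1)⟫_ℝ • (1, 0) - ⟪A (1, 0), A (0, 1)⟫_ℝ • (0, 1)) fun e => by
    have := congrArg Prod.fst e
    simp only [Prod.fst_sub, Prod.smul_fst, smul_eq_mul, mul_one, mul_zero, sub_zero,
      Prod.fst_zero] at this
    exact hG.ne' this
  simp only [map_sub, map_smul, inner_sub_left, inner_sub_right, real_inner_smul_left,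
    real_inner_smul_right, real_inner_comm (A (1, 0)) (A (0, 1))] at h1
  refine pos_of_mul_pos_left (b := ⟪A (0, 1), A (0, 1)⟫_ℝ) ?_ hG.le
  linarith

/-- Sketch: `minimal` by `MinAt.closure` for `S = Ioo A B ×ˢ univ`; `orth`: `‖X‖ = 1` on the circle
gives `⟪X, pS X⟫ = 0` (`hasDerivAt_pS`); `X = v.1 • a + v.2 • b` (`fderiv_eq_pT_pS`), so
`v.1 F + v.2 G = 0`, `v.1 ≠ 0` (else `X = 0`), and `a - (F / G) • b = v.1⁻¹ • X`. -/
theorem fbm_of {A B : ℝ} (hAB : A < B) {X : ℝ × ℝ → E3} (hX : ContDiff ℝ ∞ X) (hp : Per2 X)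
    (hi : ∀ p : ℝ × ℝ, p.1 ∈ Icc A B → Injective (fderiv ℝ X p))
    (hb : ∀ p : ℝ × ℝ, p.1 ∈ Icc A B → ‖X p‖ ≤ 1)
    (h1 : ∀ p : ℝ × ℝ, p.1 = A ∨ p.1 = B → ‖X p‖ = 1)
    (hm : ∀ p : ℝ × ℝ, p.1 ∈ Ioo A B → MinAt X p (1, 0) (0, 1))
    (ht : ∀ p : ℝ × ℝ, p.1 = A ∨ p.1 = B → ∃ v, fderiv ℝ X p v = X p) : IsFBMAnnulus A B X := by
  have hI : ∀ p : ℝ × ℝ, p.1 = A ∨ p.1 = B → p.1 ∈ Icc A B := fun p hp => by
    rcases hp with e | e <;> rw [e]
    exacts [left_mem_Icc.2 hAB.le, right_mem_Icc.2 hAB.le]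
  refine ⟨hAB, sm_two hX, hp, fun p hp => gram_pos_prod (hi p hp), hb, h1, fun p hp => ?_,
    fun p hp => ?_⟩
  · refine MinAt.closure (sm_two hX) (S := Ioo A B ×ˢ univ) (fun q hq => hm q hq.1) ?_
      (gram_pos_prod (hi p hp))
    rw [closure_prod_eq, closure_Ioo hAB.ne, closure_univ]
    exact ⟨hp, mem_univ _⟩
  · obtain ⟨t, θ⟩ := p
    obtain ⟨v, hv⟩ := ht _ hp
    have hd := hasDerivAt_pS (sm_diff hX (t, θ))
    have h2 := hd.inner ℝ hd
    have h3 : (fun s => ⟪X (t, s), X (t, s)⟫_ℝ) = fun _ => 1 := funext fun s => by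
      rw [real_inner_self_eq_norm_sq, h1 (t, s) hp, one_pow]
    rw [h3] at h2
    have h4 := h2.unique (hasDerivAt_const θ 1)
    rw [fderiv_eq_pT_pS] at hv
    have hG : gG X (t, θ) ≠ 0 := fun e => by
      have := gram_pos_prod (hi _ (hI _ hp))
      change 0 < gE X (t, θ) * gG X (t, θ) - gF X (t, θ) ^ 2 at this
      rw [e, mul_zero, zero_sub] at this
      exact (sq_nonneg _).not_gt (neg_pos.1 this)
    have h5 : v.1 * gF X (t, θ) + v.2 * gG X (t, θ) = 0 := by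
      rw [real_inner_comm (X (t, θ)), ← hv, inner_add_left, real_inner_smul_left,
        real_inner_smul_left] at h4
      change _ * gF X (t, θ) + _ * gG X (t, θ) + (_ * gF X (t, θ) + _ * gG X (t, θ)) = 0 at h4
      linarith
    have h6 : v.1 ≠ 0 := fun e => by
      rw [e, zero_mul, zero_add, mul_eq_zero] at h5
      have h7 := h1 _ hp
      rw [← hv, e, h5.resolve_right hG, zero_smul, zero_smul, add_zero, norm_zero] at h7
      exact zero_ne_one h7
    refine ⟨v.1⁻¹, ?_⟩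
    rw [← hv, smul_add, smul_smul, smul_smul, inv_mul_cancel₀ h6, one_smul, sub_eq_add_neg,
      ← neg_smul, dT_eq, dS_eq]
    congr 2
    field_simp
    linarith

end Pool.Agent.Lib.MP_14b623_gt
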