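import Pool.Agent.Lib.MP_14b623_gt.ZDefs
import Pool.Agent.Lib.MP_14b623_gt.GBase

/-! A flat free boundary disc fills an equatorial disc. -/

namespace Pool.Agent.Lib.MP_14b623_gt

open Set Real Filter Topology Function
open scoped ContDiff InnerProductSpace

/-- Sketch: `P = (ℝ ∙ e)ᗮ` has dimension two (`Submodule.finrank_orthogonal_span_singleton`),
`f = orthogonalProjection P ∘ X`; on the disc `(f y : E3) = X y`. For `‖y‖ < 1` the derivative of `X`
has values in `P` (differentiate `⟪e, X⟫ = 0`), so `fderiv f y` is injective, hence onto, and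
`map f (𝓝 y) = 𝓝 (f y)` (`HasStrictFDerivAt.map_nhds_eq_of_surj`). So `u = f '' ball 0 1` is open; it
meets `ball 0 1` (a neighbourhood of `f 0` contains `s • f 0`, `s < 1`); its closure lies in the compact
set `K = f '' closedBall 0 1`, and points of `K` of norm `< 1` lie in `u`.
`IsPreconnected.subset_of_closure_inter_subset` gives `ball 0 1 ⊆ u`, so `closedBall 0 1 ⊆ K`
(`closure_ball`). -/
theorem onto_disc {X : E2 → E3} (hX : ContDiff ℝ ∞ X)
    (hi : ∀ y : E2, ‖y‖ < 1 → Injective (fderiv ℝ X y)) (hb : ∀ y : E2, ‖y‖ ≤ 1 → ‖X y‖ ≤ 1)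
    (h1 : ∀ y : E2, ‖y‖ = 1 → ‖X y‖ = 1) {e : E3} (he : e ≠ 0)
    (h0 : ∀ y : E2, ‖y‖ ≤ 1 → ⟪e, X y⟫_ℝ = 0) :
    IsEquatorialDisc (X '' Metric.closedBall 0 1) := by
  have : Fact (Module.finrank ℝ E3 = 2 + 1) := ⟨by simp⟩
  have hP : Module.finrank ℝ (ℝ ∙ e)ᗮ = 2 := Submodule.finrank_orthogonal_span_singleton he
  obtain ⟨ρ, hρ⟩ : ∃ ρ : E3 →L[ℝ] (ℝ ∙ e)ᗮ, ∀ v, ⟪e, v⟫_ℝ = 0 → (ρ v : E3) = v :=
    ⟨(ℝ ∙ e)ᗮ.orthogonalProjectionOnto, fun v hv => Submodule.starProjection_eq_self_iff.2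
      (Submodule.mem_orthogonal_singleton_iff_inner_right.2 hv)⟩
  have hm : ∀ v, ⟪e, v⟫_ℝ = 0 → ‖ρ v‖ = ‖v‖ := fun v hv => by
    rw [Submodule.coe_norm, hρ v hv]
  have hn : ∀ y : E2, ‖y‖ ≤ 1 → ‖ρ (X y)‖ = ‖X y‖ := fun y hy => hm _ (h0 y hy)
  have hc : Continuous fun y => ρ (X y) := ρ.continuous.comp hX.continuous
  have hu : IsOpen ((fun y => ρ (X y)) '' Metric.ball 0 1) := by
    rw [isOpen_iff_mem_nhds]
    rintro _ ⟨y, hy, rfl⟩
    have hy' := Metric.isOpen_ball.mem_nhds hy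
    have hd := hX.hasStrictFDerivAt (x := y) (by simp)
    have hd0 : ∀ v, ⟪e, fderiv ℝ X y v⟫_ℝ = 0 := fun v => by
      have e1 := (innerSL ℝ e).hasFDerivAt.comp y hd.hasFDerivAt
      have e2 : HasFDerivAt (innerSL ℝ e ∘ X) (0 : E2 →L[ℝ] ℝ) y :=
        (hasFDerivAt_const (0 : ℝ) y).congr_of_eventuallyEq
          (mem_of_superset hy' fun z hz => h0 z (mem_ball_zero_iff.1 hz).le)
      exact DFunLike.congr_fun (e1.unique e2) v
    have hinj : Injective (ρ.comp (fderiv ℝ X y)).toLinearMap := fun v w h =>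
      hi y (mem_ball_zero_iff.1 hy)
        ((hρ _ (hd0 v)).symm.trans ((congrArg Subtype.val h).trans (hρ _ (hd0 w))))
    have hs := (LinearMap.injective_iff_surjective_of_finrank_eq_finrank (by simp [hP])).1 hinj
    rw [← (ρ.hasStrictFDerivAt.comp y hd).map_nhds_eq_of_surj (LinearMap.range_eq_top.2 hs)]
    exact image_mem_map hy'
  have hK : IsClosed ((fun y => ρ (X y)) '' Metric.closedBall 0 1) :=
    ((isCompact_closedBall 0 1).image hc).isClosed
  have hsub : (fun y => ρ (X y)) '' Metric.ball 0 1 ⊆ Metric.ball 0 1 := by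
    rw [← interior_closedBall (0 : (ℝ ∙ e)ᗮ) one_ne_zero]
    refine interior_maximal ?_ hu
    rintro _ ⟨y, hy, rfl⟩
    have := (mem_ball_zero_iff.1 hy).le
    exact mem_closedBall_zero_iff.2 ((hn y this).trans_le (hb y this))
  have hb' : Metric.ball 0 1 ⊆ (fun y => ρ (X y)) '' Metric.ball 0 1 := by
    refine (convex_ball 0 1).isPreconnected.subset_of_closure_inter_subset hu
      ⟨_, hsub ⟨0, Metric.mem_ball_self one_pos, rfl⟩, 0, Metric.mem_ball_self one_pos, rfl⟩ ?_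
    rintro z ⟨hz, hz'⟩
    obtain ⟨y, hy, rfl⟩ := closure_minimal (image_mono Metric.ball_subset_closedBall) hK hz
    have hy1 := mem_closedBall_zero_iff.1 hy
    refine ⟨y, mem_ball_zero_iff.2 (hy1.lt_of_ne fun e1 => ?_), rfl⟩
    exact (mem_ball_zero_iff.1 hz').ne ((hn y hy1).trans (h1 y e1))
  refine ⟨e, he, Subset.antisymm ?_ ?_⟩
  · rintro _ ⟨y, hy, rfl⟩
    exact ⟨hb y (mem_closedBall_zero_iff.1 hy), h0 y (mem_closedBall_zero_iff.1 hy)⟩
  · rintro x ⟨hx, hx'⟩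
    have : ρ x ∈ closure (Metric.ball (0 : (ℝ ∙ e)ᗮ) 1) := by
      rw [closure_ball _ one_ne_zero]
      exact mem_closedBall_zero_iff.2 ((hm x hx').trans_le hx)
    obtain ⟨y, hy, e1⟩ := closure_minimal (hb'.trans (image_mono Metric.ball_subset_closedBall))
      hK this
    exact ⟨y, hy, (hρ _ (h0 y (mem_closedBall_zero_iff.1 hy))).symm.trans
      ((congrArg Subtype.val e1).trans (hρ x hx'))⟩

end Pool.Agent.Lib.MP_14b623_gt
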