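import Pool.Agent.Lib.MP_14b623_gt.MPar
import Pool.Agent.Lib.MP_14b623_gt.MBd
import Pool.Agent.Lib.MP_14b623_gt.MExt
import Pool.Agent.Lib.MP_14b623_gt.MOnto
import Pool.Agent.Lib.MP_14b623_gt.DMain

/-! The disc: the image is an equatorial disc. -/

namespace Pool.Agent.Lib.MP_14b623_gt

open Set Real Filter Topology Function Metric
open scoped InnerProductSpace Manifold ContDiff

theorem norm_toE2_le {p : ℝ × ℝ} (hp : p ∈ Dsc) : ‖toE2 p‖ ≤ 1 := by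
  have h : ‖toE2 p‖ ^ 2 ≤ 1 := (toE2_norm_sq p).trans_le hp
  nlinarith [norm_nonneg (toE2 p)]

theorem norm_toE2_eq {p : ℝ × ℝ} (hp : p.1 ^ 2 + p.2 ^ 2 = 1) : ‖toE2 p‖ = 1 := by
  have h : ‖toE2 p‖ ^ 2 = 1 := (toE2_norm_sq p).trans hp
  nlinarith [norm_nonneg (toE2 p)]

theorem span_e2 (w : E2) : ∃ s t : ℝ, w = s • ev 0 + t • ev 1 := ⟨_, _, e2_eq w⟩

theorem toE2_ev0 : toE2 (1, 0) = ev 0 := by simp [toE2]

theorem toE2_ev1 : toE2 (0, 1) = ev 1 := by simp [toE2]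

/-- From the Euclidean plane to Cartesian coordinates. -/
theorem fbmDisc_of {X : E2 → E3} (hX : ContDiff ℝ ∞ X)
    (hi : ∀ y : E2, ‖y‖ ≤ 1 → Injective (fderiv ℝ X y)) (hb : ∀ y : E2, ‖y‖ ≤ 1 → ‖X y‖ ≤ 1)
    (h1 : ∀ y : E2, ‖y‖ = 1 → ‖X y‖ = 1)
    (hm : ∀ y : E2, ‖y‖ < 1 → MinAt X y (ev 0) (ev 1))
    (ht : ∀ y : E2, ‖y‖ = 1 → ∃ v, fderiv ℝ X y v = X y) : IsFBMDisc (X ∘ toE2) := by
  have hd : ∀ p v, fderiv ℝ (X ∘ toE2) p v = fderiv ℝ X (toE2 p) (toE2 v) := fun p v => by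
    rw [fderiv_comp p (hX.differentiable (by simp) _) toE2.differentiableAt, toE2.fderiv]
    rfl
  have h2 : ContDiff ℝ 2 X := contDiff_infty.1 hX 2
  have hg : ∀ p ∈ Dsc, Injective (fderiv ℝ (X ∘ toE2) p) := fun p hp v w hvw =>
    toE2_inj (hi _ (norm_toE2_le hp) (by rw [← hd, ← hd, hvw]))
  refine ⟨hX.comp toE2.contDiff, fun p hp => gram_pos_prod (hg p hp),
    fun p hp => hb _ (norm_toE2_le hp), fun p hp => h1 _ (norm_toE2_eq hp), fun p hp => ?_,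
    fun p hp => ?_⟩
  · refine (minAt_iff _ _).1 (MinAt.comp h2.contDiffAt toE2.contDiff.contDiffAt span_e2
      (by simpa only [toE2.fderiv, toE2_ev0, toE2_ev1] using span_e2) ?_)
    refine MinAt.closure h2 (S := ball 0 1) (fun y hy => hm y (mem_ball_zero_iff.1 hy)) ?_ ?_
    · rw [closure_ball _ one_ne_zero]
      exact mem_closedBall_zero_iff.2 (norm_toE2_le hp)
    · have := gram_pos_prod (hg p hp)
      rwa [hd, hd, toE2_ev0, toE2_ev1] at this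
  · obtain ⟨v, hv⟩ := ht _ (norm_toE2_eq hp)
    exact ⟨(v 0, v 1), by rw [hd, toE2_coord, hv]; rfl⟩

variable {M : Type} [TopologicalSpace M] [ChartedSpace (EuclideanHalfSpace 2) M]
  [IsManifold (𝓡∂ 2) ∞ M] {φ : M → E3}

theorem disc_equatorial {c : Fin 0 → E2} {r : Fin 0 → ℝ} {ι : M → E2} {κ : E2 → M}
    (G : GZ c r ι κ) (h : IsFBMS φ) (hφ : ContMDiff (𝓡∂ 2) 𝓘(ℝ, E3) ∞ φ) :
    IsEquatorialDisc (range φ) := by
  have hD : holedDisc c r = closedBall 0 1 := by simp [holedDisc]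
  have hκ := G.sκ
  have hr := G.right
  have hmem := G.mem
  rw [hD] at hκ hr hmem
  have P : Par (closedBall (0 : E2) 1) κ :=
    Par.of_left (z := id) (by simp) (uniqueDiffOn_convex (convex_closedBall _ _)
      ⟨0, mem_interior_iff_mem_nhds.2 (closedBall_mem_nhds _ one_pos)⟩) hκ G.sι hr
      differentiable_id fun p _ => by simpa using injective_id
  obtain ⟨X, hX, he⟩ := ext_disc (P.contDiffOn hφ)
  have hb : ∀ y : E2, ‖y‖ = 1 → y ∈ closedBall (0 : E2) 1 ∧ κ y ∈ (𝓡∂ 2).boundary M := fun y hy =>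
    ⟨mem_closedBall_zero_iff.2 hy.le, G.bdry_of_outer
      (by rw [hr y (mem_closedBall_zero_iff.2 hy.le), hy])⟩
  have hi : ∀ y : E2, ‖y‖ ≤ 1 → Injective (fderiv ℝ X y) := fun y hy =>
    P.inj_fderiv h hφ hX he (mem_closedBall_zero_iff.2 hy)
  have h0 : ∀ y : E2, ‖y‖ ≤ 1 → ‖X y‖ ≤ 1 := fun y hy => by
    rw [he (mem_closedBall_zero_iff.2 hy)]
    exact h.inBall _
  have h1 : ∀ y : E2, ‖y‖ = 1 → ‖X y‖ = 1 := fun y hy => by
    rw [he (hb y hy).1]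
    exact h.bdry _ (hb y hy).2
  obtain ⟨e, he0, hf⟩ := (fbmDisc_of hX hi h0 h1
    (fun y hy => P.minAt h hφ he (mem_of_superset (isOpen_ball.mem_nhds (mem_ball_zero_iff.2 hy))
      ball_subset_closedBall) span_e2)
    fun y hy => P.tangent h hφ hX he (hb y hy).1 (hb y hy).2).flat
  have hR : range φ = X '' closedBall 0 1 := by
    refine Subset.antisymm ?_ ?_
    · rintro _ ⟨x, rfl⟩
      exact ⟨ι x, hmem x, by rw [he (hmem x), comp_apply, G.left]⟩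
    · rintro _ ⟨y, hy, rfl⟩
      exact ⟨κ y, (he hy).symm⟩
  rw [hR]
  refine onto_disc hX (fun y hy => hi y hy.le) h0 h1 he0 fun y hy => ?_
  have := hf (y 0, y 1) (by
    change y 0 ^ 2 + y 1 ^ 2 ≤ 1
    have h3 := toE2_norm_sq (y 0, y 1)
    rw [toE2_coord] at h3
    rw [← h3]
    nlinarith [norm_nonneg y])
  rwa [comp_apply, toE2_coord] at this

end Pool.Agent.Lib.MP_14b623_gt
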