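import Pool.Agent.Lib.MP_14b623_gt.MAnn
import Pool.Agent.Lib.MP_14b623_gt.MDisc
import Pool.Agent.Lib.MP_14b623_gt.GMain

/-! Surfaces of genus zero. -/

namespace Pool.Agent.Lib.MP_14b623_gt

open Set Real Filter Topology Function
open scoped InnerProductSpace Manifold ContDiff

theorem genus_zero {l₀ : ℝ} (hc : CertUpTo l₀) (hl : l₀ ≤ 13 / 20) (hl' : 5558 / 10000 ≤ l₀) :
    ∃ c τ : ℝ, 0 < c ∧ IsFBMAnnulus (-τ) τ (catenoid c) ∧
    ∀ (M : Type) [TopologicalSpace M] [T2Space M] [CompactSpace M]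
      [ChartedSpace (EuclideanHalfSpace 2) M] [IsManifold (𝓡∂ 2) ∞ M]
      [MeasurableSpace M] [BorelSpace M] (φ : M → E3), IsFBMS φ →
      ContMDiff (𝓡∂ 2) 𝓘(ℝ, E3) ∞ φ → IsGenusZero M → ¬ IsEquatorialDisc (Set.range φ) →
      area (-τ) τ (catenoid c) ≤ surfaceArea φ := by
  obtain ⟨τ, h1, h2, hτ⟩ := exists_tau
  have h0 : 0 < τ := by linarith
  refine ⟨_, τ, div_pos (sinh_pos_iff.2 h0) (pow_pos (cosh_pos τ) 2), catenoid_isFBM h0 hτ, ?_⟩
  intro M _ _ _ _ _ _ _ φ h hφ hM hne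
  rw [catenoid_area h0 hτ]
  obtain ⟨k, c, r, ι, κ, G⟩ := hM.gz
  match k, c, r, G with
  | 0, _, _, G => exact (hne (disc_equatorial G h hφ)).elim
  | 1, _, _, G =>
    obtain ⟨X, hX, hs, ha⟩ := annulus_param G h hφ
    exact (smooth_bound h1 h2 hτ hX hs).trans ha
  | k + 2, _, _, G =>
    refine le_trans ?_ (h.three hc hl hl' (G.three (by omega)))
    rw [div_le_iff₀ h0, mul_assoc (2 * π)]
    exact le_mul_of_one_le_right (by positivity) (by linarith)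

end Pool.Agent.Lib.MP_14b623_gt
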