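import Pool.Agent.Lib.MP_14b623_gt.MBase
import Pool.Agent.Lib.MP_14b623_gt.GChart

/-! Parametrisations of a surface with boundary by subsets of a plane. -/

namespace Pool.Agent.Lib.MP_14b623_gt

open Set Filter Topology Function
open scoped InnerProductSpace Manifold ContDiff

variable {M : Type} [TopologicalSpace M] [ChartedSpace (EuclideanHalfSpace 2) M]
  {V : Type} [NormedAddCommGroup V] [NormedSpace ℝ V]

/-- A smooth immersion of a subset of a plane into `M`. -/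
structure Par (S : Set V) (F : V → M) : Prop where
  dim : Module.finrank ℝ V = 2
  ud : UniqueDiffOn ℝ S
  smooth : ContMDiffOn 𝓘(ℝ, V) (𝓡∂ 2) ∞ F S
  inj : ∀ p ∈ S, Injective (mfderivWithin 𝓘(ℝ, V) (𝓡∂ 2) F S p)

/-- Chain rule for a map that agrees on `S` with a composition through `M`. -/
theorem mpar_chain {W : Type} [NormedAddCommGroup W] [NormedSpace ℝ W] {S : Set V} {F : V → M}
    {p : V} (hp : p ∈ S) (ud : UniqueDiffWithinAt ℝ S p)
    (hF : MDifferentiableWithinAt 𝓘(ℝ, V) (𝓡∂ 2) F S p) {g : M → W}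
    (hg : MDifferentiableAt (𝓡∂ 2) 𝓘(ℝ, W) g (F p)) {X : V → W} (hX : DifferentiableAt ℝ X p)
    (he : EqOn X (g ∘ F) S) (v : V) :
    fderiv ℝ X p v = mfderiv (𝓡∂ 2) 𝓘(ℝ, W) g (F p) (mfderivWithin 𝓘(ℝ, V) (𝓡∂ 2) F S p v) := by
  have h1 := hg.hasMFDerivAt.comp_hasMFDerivWithinAt p hF.hasMFDerivWithinAt
  have h2 := (hasMFDerivWithinAt_iff_hasFDerivWithinAt.1 h1).congr he (he hp)
  exact DFunLike.congr_fun (ud.eq hX.hasFDerivAt.hasFDerivWithinAt h2) v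

/-- In the open half plane the one sided derivatives are the usual ones. -/
theorem mpar_pd {Z : E2 → E3} {y : E2} (hy : 0 < y 0) (i : Fin 2) :
    pd i Z y = fderiv ℝ Z y (ev i) := by
  rw [pd_eq, fderivWithin_of_mem_nhds (HP_mem_nhds hy)]

theorem mpar_pd2 {Z : E2 → E3} {y : E2} (hy : 0 < y 0) (i j : Fin 2) :
    pd j (pd i Z) y = d2 Z y (ev i) (ev j) := by
  have h : pd i Z =ᶠ[𝓝 y] fun q => fderiv ℝ Z q (ev i) :=
    (isOpen_pos.eventually_mem hy).mono fun q hq => mpar_pd hq i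
  rw [mpar_pd hy, h.fderiv_eq]
  rfl

variable [IsManifold (𝓡∂ 2) ∞ M]

/-- Sketch: `HasMFDerivAt.comp_hasMFDerivWithinAt` for `ι ∘ F`, which is `z` on `S`
(`HasMFDerivWithinAt.congr_mono`); uniqueness `UniqueMDiffWithinAt.eq`
(`uniqueMDiffWithinAt_iff_uniqueDiffWithinAt`); so `Dι ∘ DF = fderiv z p` is injective. -/
theorem Par.of_left {S : Set V} {F : V → M} (dim : Module.finrank ℝ V = 2)
    (ud : UniqueDiffOn ℝ S) (hF : ContMDiffOn 𝓘(ℝ, V) (𝓡∂ 2) ∞ F S) {ι : M → E2}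
    (hι : ContMDiff (𝓡∂ 2) 𝓘(ℝ, E2) ∞ ι) {z : V → E2} (hz : ∀ p ∈ S, ι (F p) = z p)
    (hd : Differentiable ℝ z) (hi : ∀ p ∈ S, Injective (fderiv ℝ z p)) : Par S F := by
  refine ⟨dim, ud, hF, fun p hp => ?_⟩
  intro v w hvw
  refine hi p hp ?_
  have h := mpar_chain hp (ud p hp) ((hF p hp).mdifferentiableWithinAt (by simp))
    (hι.mdifferentiableAt (by simp)) (hd p) (fun q hq => (hz q hq).symm)
  rw [h v, h w, hvw]

namespace Par

variable {S : Set V} {F : V → M} (P : Par S F) {φ : M → E3}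
include P

/-- Sketch: an injective linear map between spaces of dimension two
(`LinearMap.injective_iff_surjective_of_finrank_eq_finrank`; `FiniteDimensional` from
`Module.finite_of_finrank_pos`). -/
theorem surj {p : V} (hp : p ∈ S) : Surjective (mfderivWithin 𝓘(ℝ, V) (𝓡∂ 2) F S p) := by
  have : FiniteDimensional ℝ V := Module.finite_of_finrank_pos (by rw [P.dim]; norm_num)
  let L : V →ₗ[ℝ] E2 := (mfderivWithin 𝓘(ℝ, V) (𝓡∂ 2) F S p : V →L[ℝ] E2).toLinearMap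
  exact (LinearMap.injective_iff_surjective_of_finrank_eq_finrank (f := L)
    (by rw [P.dim]; simp)).1 (P.inj p hp)

theorem contDiffOn (hφ : ContMDiff (𝓡∂ 2) 𝓘(ℝ, E3) ∞ φ) : ContDiffOn ℝ ∞ (φ ∘ F) S := by
  exact contMDiffOn_iff_contDiffOn.1 (hφ.comp_contMDiffOn P.smooth)

/-- Sketch: chain rule `HasMFDerivAt.comp_hasMFDerivWithinAt`, `hasMFDerivWithinAt_iff_hasFDerivWithinAt`,
uniqueness of the derivative within `S`. -/
theorem fderiv_eq (hφ : ContMDiff (𝓡∂ 2) 𝓘(ℝ, E3) ∞ φ) {X : V → E3} (hX : ContDiff ℝ ∞ X)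
    (he : EqOn X (φ ∘ F) S) {p : V} (hp : p ∈ S) (v : V) :
    fderiv ℝ X p v = mfderiv (𝓡∂ 2) 𝓘(ℝ, E3) φ (F p) (mfderivWithin 𝓘(ℝ, V) (𝓡∂ 2) F S p v) := by
  exact mpar_chain hp (P.ud p hp) ((P.smooth p hp).mdifferentiableWithinAt (by simp))
    (hφ.mdifferentiableAt (by simp)) (hX.differentiable (by simp) p) he v

theorem inj_fderiv (h : IsFBMS φ) (hφ : ContMDiff (𝓡∂ 2) 𝓘(ℝ, E3) ∞ φ) {X : V → E3}
    (hX : ContDiff ℝ ∞ X) (he : EqOn X (φ ∘ F) S) {p : V} (hp : p ∈ S) :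
    Injective (fderiv ℝ X p) := by
  intro v w hvw
  rw [P.fderiv_eq hφ hX he hp, P.fderiv_eq hφ hX he hp] at hvw
  exact P.inj p hp (h.immersion _ hvw)

theorem tangent (h : IsFBMS φ) (hφ : ContMDiff (𝓡∂ 2) 𝓘(ℝ, E3) ∞ φ) {X : V → E3}
    (hX : ContDiff ℝ ∞ X) (he : EqOn X (φ ∘ F) S) {p : V} (hp : p ∈ S)
    (hb : F p ∈ (𝓡∂ 2).boundary M) : ∃ v, fderiv ℝ X p v = X p := by
  obtain ⟨w, hw⟩ := h.orth _ hb
  obtain ⟨v, hv⟩ := P.surj hp w
  exact ⟨v, by rw [P.fderiv_eq hφ hX he hp, hv, he hp]; exact hw⟩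

/-- Sketch: `x = F p` is an interior point
(`MDifferentiableAt.isInteriorPoint_of_surjective_mfderiv`, `mfderivWithin_of_mem_nhds`), so
`0 < ch x x 0` (`bdry_iff`, `ch_sub`) and the target is a neighbourhood of `y = ch x x`
(`ch_nhds`, `HP_mem_nhds`). `τ = ch x ∘ F` is `C²` at `p` with `fderiv τ p = mfderiv F p`
(unfold `mfderiv`, `writtenInExtChartAt`, or `hasMFDerivAt_extChartAt`), `Z = inChart φ x` is `C²` at
`y` (`contDiffOn_ch`), `pd i Z = fderiv Z · (ev i)` near `y` (`fderivWithin_of_mem_nhds`), so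
`h.minimal x y` is `MinAt Z y (ev 0) (ev 1)`; `X = Z ∘ τ` near `p`; `MinAt.comp`, `MinAt.congr`,
`e2_eq`. -/
theorem minAt (h : IsFBMS φ) (hφ : ContMDiff (𝓡∂ 2) 𝓘(ℝ, E3) ∞ φ) {X : V → E3}
    (he : EqOn X (φ ∘ F) S) {p : V} (hp : S ∈ 𝓝 p) {u v : V}
    (hsp : ∀ w : V, ∃ s t : ℝ, w = s • u + t • v) : MinAt X p u v := by
  have hpS : p ∈ S := mem_of_mem_nhds hp
  have hF : ContMDiffAt 𝓘(ℝ, V) (𝓡∂ 2) ∞ F p := (P.smooth p hpS).contMDiffAt hp
  have hFd := hF.mdifferentiableAt (by simp)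
  have hsurj : Surjective (mfderiv 𝓘(ℝ, V) (𝓡∂ 2) F p) := by
    rw [← mfderivWithin_of_mem_nhds hp]
    exact P.surj hpS
  have hint : (𝓡∂ 2).IsInteriorPoint (F p) :=
    hFd.isInteriorPoint_of_surjective_mfderiv hsurj BoundarylessManifold.isInteriorPoint
  have hsrc : F p ∈ (ch (F p)).source := mem_extChartAt_source _
  have htg : ch (F p) (F p) ∈ (ch (F p)).target := mem_extChartAt_target _
  have hy : 0 < ch (F p) (F p) 0 := by
    refine lt_of_le_of_ne (gchart_mem (F p) (F p)) fun h0 => ?_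
    exact ((𝓡∂ 2).isBoundaryPoint_iff_not_isInteriorPoint _).1 ((bdry_iff hsrc).2 h0.symm) hint
  have hT : (ch (F p)).target ∈ 𝓝 (ch (F p) (F p)) := by
    rw [← nhdsWithin_eq_nhds.2 (HP_mem_nhds hy)]
    exact ch_nhds _ _ htg
  have h2 : (2 : WithTop ℕ∞) ≤ ∞ := WithTop.coe_le_coe.2 (le_top : (2 : ℕ∞) ≤ ⊤)
  have hZ : ContDiffAt ℝ 2 (inChart φ (F p)) (ch (F p) (F p)) :=
    ((contDiffOn_ch le_rfl hφ (F p)).contDiffAt hT).of_le h2
  have hτ : ContDiffAt ℝ 2 (ch (F p) ∘ F) p :=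
    (contMDiffAt_iff_contDiffAt.1 (contMDiffAt_extChartAt.comp p hF)).of_le h2
  have hD : ∀ w : V, fderiv ℝ (ch (F p) ∘ F) p w = mfderiv 𝓘(ℝ, V) (𝓡∂ 2) F p w := by
    intro w
    have h3 := mpar_chain (S := univ) (mem_univ p) uniqueDiffWithinAt_univ
      hFd.mdifferentiableWithinAt (g := ch (F p))
      (mdifferentiableAt_extChartAt (mem_chart_source _ _)) (hτ.differentiableAt (by norm_num))
      (fun _ _ => rfl) w
    rw [h3, mfderivWithin_univ, mfderiv_extChartAt_self]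
    rfl
  have hm : MinAt (inChart φ (F p)) (ch (F p) (F p)) (ev 0) (ev 1) := by
    intro N h0 h1
    have h3 := h.minimal (F p) _ htg N (by rwa [mpar_pd hy]) (by rwa [mpar_pd hy])
    simp only [fff] at h3
    rw [mpar_pd2 hy, mpar_pd2 hy, mpar_pd2 hy, mpar_pd hy, mpar_pd hy] at h3
    exact h3
  have hc : MinAt (inChart φ (F p) ∘ (ch (F p) ∘ F)) p u v := by
    refine MinAt.comp (τ := ch (F p) ∘ F) hZ hτ (fun w => ⟨w 0, w 1, e2_eq w⟩) (fun w => ?_) hm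
    obtain ⟨w', hw'⟩ := hsurj w
    obtain ⟨s, t, rfl⟩ := hsp w'
    refine ⟨s, t, ?_⟩
    rw [← map_smul, ← map_smul, ← map_add, hD]
    exact hw'.symm
  refine MinAt.congr ?_ hc
  have h4 : ∀ᶠ q in 𝓝 p, F q ∈ (ch (F p)).source :=
    hF.continuousAt (extChartAt_source_mem_nhds (F p))
  filter_upwards [h4, hp] with q hq hqS
  rw [he hqS]
  exact congrArg φ ((ch (F p)).left_inv hq)

end Par

end Pool.Agent.Lib.MP_14b623_gt
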