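import Pool.Agent.Lib.MP_14b623_gt.GLin

/-! Cross product, trace and curl in `ℝ³`. -/

namespace Pool.Agent.Lib.MP_14b623_gt

open Set Function
open scoped InnerProductSpace

/-- The cross product. -/
noncomputable def cr (u v : E3) : E3 :=
  !₂[u 1 * v 2 - u 2 * v 1, u 2 * v 0 - u 0 * v 2, u 0 * v 1 - u 1 * v 0]

/-- Coordinate vectors of space. -/
noncomputable abbrev e3 (i : Fin 3) : E3 := EuclideanSpace.single i 1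

/-- The trace of a linear map of space. -/
noncomputable def tr3 (L : E3 →L[ℝ] E3) : ℝ := L (e3 0) 0 + L (e3 1) 1 + L (e3 2) 2

/-- The curl of a vector field with differential `L`. -/
noncomputable def curl (L : E3 →L[ℝ] E3) : E3 :=
  !₂[L (e3 1) 2 - L (e3 2) 1, L (e3 2) 0 - L (e3 0) 2, L (e3 0) 1 - L (e3 1) 0]

lemma cr0 (u v : E3) : cr u v 0 = u 1 * v 2 - u 2 * v 1 := rfl
lemma cr1 (u v : E3) : cr u v 1 = u 2 * v 0 - u 0 * v 2 := rfl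
lemma cr2 (u v : E3) : cr u v 2 = u 0 * v 1 - u 1 * v 0 := rfl
lemma curl0 (L : E3 →L[ℝ] E3) : curl L 0 = L (e3 1) 2 - L (e3 2) 1 := rfl
lemma curl1 (L : E3 →L[ℝ] E3) : curl L 1 = L (e3 2) 0 - L (e3 0) 2 := rfl
lemma curl2 (L : E3 →L[ℝ] E3) : curl L 2 = L (e3 0) 1 - L (e3 1) 0 := rfl

lemma inner3 (u v : E3) : ⟪u, v⟫_ℝ = u 0 * v 0 + u 1 * v 1 + u 2 * v 2 := by
  simp [PiLp.inner_apply, Fin.sum_univ_three, mul_comm]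

lemma ext3 {u v : E3} (h0 : u 0 = v 0) (h1 : u 1 = v 1) (h2 : u 2 = v 2) : u = v := by
  ext i
  fin_cases i
  exacts [h0, h1, h2]

lemma map3 (L : E3 →L[ℝ] E3) (u : E3) (i : Fin 3) :
    L u i = u 0 * L (e3 0) i + u 1 * L (e3 1) i + u 2 * L (e3 2) i := by
  have h : u = u 0 • e3 0 + u 1 • e3 1 + u 2 • e3 2 := ext3 (by simp) (by simp) (by simp)
  conv_lhs => rw [h]
  simp

lemma continuous_cr {α : Type*} [TopologicalSpace α] {u v : α → E3} (hu : Continuous u)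
    (hv : Continuous v) : Continuous fun p => cr (u p) (v p) := by
  unfold cr
  fun_prop

lemma continuous_curl : Continuous curl := by
  unfold curl
  fun_prop

lemma continuous_tr3 : Continuous tr3 := by
  unfold tr3
  fun_prop

lemma inner_cr_self (a b : E3) :
    ⟪cr a b, cr a b⟫_ℝ = ⟪a, a⟫_ℝ * ⟪b, b⟫_ℝ - ⟪a, b⟫_ℝ ^ 2 := by
  simp only [inner3, cr0, cr1, cr2]
  ring

lemma inner_cr_left (a b : E3) : ⟪cr a b, a⟫_ℝ = 0 := by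
  simp only [inner3, cr0, cr1, cr2]
  ring

lemma inner_cr_right (a b : E3) : ⟪cr a b, b⟫_ℝ = 0 := by
  simp only [inner3, cr0, cr1, cr2]
  ring

lemma inner_cr_assoc (a b c : E3) : ⟪cr a b, c⟫_ℝ = ⟪a, cr b c⟫_ℝ := by
  simp only [inner3, cr0, cr1, cr2]
  ring

lemma cr_swap (a b : E3) : cr b a = -cr a b := by
  refine ext3 ?_ ?_ ?_ <;> simp only [cr0, cr1, cr2, PiLp.neg_apply] <;> ring

lemma inner_curl (L : E3 →L[ℝ] E3) (a b : E3) :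
    ⟪curl L, cr a b⟫_ℝ = ⟪L a, b⟫_ℝ - ⟪L b, a⟫_ℝ := by
  simp only [inner3, cr0, cr1, cr2, curl0, curl1, curl2, map3 L a, map3 L b]
  ring

/-- A vector orthogonal to `a` and `b` is proportional to `a × b`. -/
lemma smul_normal {a b n : E3} (ha : ⟪n, a⟫_ℝ = 0) (hb : ⟪n, b⟫_ℝ = 0) :
    (⟪a, a⟫_ℝ * ⟪b, b⟫_ℝ - ⟪a, b⟫_ℝ ^ 2) • n = ⟪n, cr a b⟫_ℝ • cr a b := by
  rw [inner3] at ha hb
  refine ext3 ?_ ?_ ?_ <;> simp only [PiLp.smul_apply, smul_eq_mul, inner3, cr0, cr1, cr2]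
  · linear_combination (a 0 * (b 0 * b 0 + b 1 * b 1 + b 2 * b 2) -
      b 0 * (a 0 * b 0 + a 1 * b 1 + a 2 * b 2)) * ha + (b 0 * (a 0 * a 0 + a 1 * a 1 + a 2 * a 2) -
      a 0 * (a 0 * b 0 + a 1 * b 1 + a 2 * b 2)) * hb
  · linear_combination (a 1 * (b 0 * b 0 + b 1 * b 1 + b 2 * b 2) -
      b 1 * (a 0 * b 0 + a 1 * b 1 + a 2 * b 2)) * ha + (b 1 * (a 0 * a 0 + a 1 * a 1 + a 2 * a 2) -
      a 1 * (a 0 * b 0 + a 1 * b 1 + a 2 * b 2)) * hb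
  · linear_combination (a 2 * (b 0 * b 0 + b 1 * b 1 + b 2 * b 2) -
      b 2 * (a 0 * b 0 + a 1 * b 1 + a 2 * b 2)) * ha + (b 2 * (a 0 * a 0 + a 1 * a 1 + a 2 * a 2) -
      a 2 * (a 0 * b 0 + a 1 * b 1 + a 2 * b 2)) * hb

/-- A unit normal of the plane spanned by `a, b` is `± a × b / J`. -/
lemma normal_eq {a b n : E3} (hJ : 0 < ⟪a, a⟫_ℝ * ⟪b, b⟫_ℝ - ⟪a, b⟫_ℝ ^ 2) (hn : ‖n‖ = 1)
    (ha : ⟪n, a⟫_ℝ = 0) (hb : ⟪n, b⟫_ℝ = 0) :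
    (⟪n, cr a b⟫_ℝ / jac a b) ^ 2 = 1 ∧ cr a b = ⟪n, cr a b⟫_ℝ • n := by
  have h1 := smul_normal ha hb
  have h2 := congrArg (fun w => ⟪n, w⟫_ℝ) h1
  simp only [real_inner_smul_right, real_inner_self_eq_norm_sq n, hn] at h2
  have h3 : jac a b ^ 2 = _ := Real.sq_sqrt hJ.le
  refine ⟨?_, ?_⟩
  · rw [div_pow, h3, div_eq_one_iff_eq hJ.ne']
    linarith
  · have h4 : ⟪n, cr a b⟫_ℝ ≠ 0 := fun e => by
      rw [e] at h2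
      linarith
    refine smul_right_injective E3 h4 ?_
    simp only [smul_smul]
    rw [← h1, ← h2]
    simp

/-- The conormal fields are rotated tangent vectors. -/
lemma inner_cr_wv {a b n : E3} (ha : ⟪n, a⟫_ℝ = 0) (hb : ⟪n, b⟫_ℝ = 0) (V : E3) :
    ⟪cr V n, wv0 a b⟫_ℝ = ⟪n, cr a b⟫_ℝ / jac a b * ⟪V, b⟫_ℝ ∧
      ⟪cr V n, wv1 a b⟫_ℝ = -(⟪n, cr a b⟫_ℝ / jac a b * ⟪V, a⟫_ℝ) := by
  rw [inner3] at ha hb
  simp only [wv0, wv1, real_inner_smul_right, inner_sub_right, div_eq_inv_mul, mul_assoc,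
    ← mul_neg]
  refine ⟨congrArg _ ?_, congrArg _ ?_⟩ <;> simp only [inner3, cr0, cr1, cr2]
  · linear_combination (-(V 0 * (a 1 * b 2 - a 2 * b 1) + V 1 * (a 2 * b 0 - a 0 * b 2) +
      V 2 * (a 0 * b 1 - a 1 * b 0))) * hb
  · linear_combination (V 0 * (a 1 * b 2 - a 2 * b 1) + V 1 * (a 2 * b 0 - a 0 * b 2) +
      V 2 * (a 0 * b 1 - a 1 * b 0)) * ha

/-- The trace on the plane spanned by `a, b`. -/
lemma trace_wv {a b n : E3} (hJ : 0 < ⟪a, a⟫_ℝ * ⟪b, b⟫_ℝ - ⟪a, b⟫_ℝ ^ 2) (hn : ‖n‖ = 1)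
    (ha : ⟪n, a⟫_ℝ = 0) (hb : ⟪n, b⟫_ℝ = 0) (L : E3 →L[ℝ] E3) :
    ⟪L a, wv0 a b⟫_ℝ + ⟪L b, wv1 a b⟫_ℝ = (tr3 L - ⟪L n, n⟫_ℝ) * jac a b := by
  have h0 : 0 < jac a b := Real.sqrt_pos.2 hJ
  have h3 : jac a b ^ 2 = _ := Real.sq_sqrt hJ.le
  obtain ⟨h1, h2⟩ := normal_eq hJ hn ha hb
  have h4 : ⟪L a, ⟪b, b⟫_ℝ • a - ⟪a, b⟫_ℝ • b⟫_ℝ + ⟪L b, ⟪a, a⟫_ℝ • b - ⟪a, b⟫_ℝ • a⟫_ℝ =
      (⟪a, a⟫_ℝ * ⟪b, b⟫_ℝ - ⟪a, b⟫_ℝ ^ 2) * tr3 L - ⟪L (cr a b), cr a b⟫_ℝ := by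
    simp only [real_inner_smul_right, inner_sub_right]
    simp only [inner3, cr0, cr1, cr2, tr3, map3 L a, map3 L b, map3 L (cr a b)]
    ring
  rw [h2, map_smul, real_inner_smul_left, real_inner_smul_right, ← h3] at h4
  rw [div_pow, div_eq_one_iff_eq (pow_pos h0 2).ne'] at h1
  simp only [wv0, wv1, real_inner_smul_right (r := (jac a b)⁻¹)]
  rw [← mul_add, h4]
  field_simp
  linear_combination (-⟪L n, n⟫_ℝ) * h1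

end Pool.Agent.Lib.MP_14b623_gt
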