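import Pool.Agent.Lib.MP_14b623_gt.SAlg
import Pool.Agent.Lib.MP_14b623_gt.SDiv

/-! Divergence of ambient fields and of rotated ambient fields in one patch. -/

namespace Pool.Agent.Lib.MP_14b623_gt

open Set MeasureTheory Filter Topology Function
open scoped InnerProductSpace Manifold ContDiff

namespace Patch

variable {T : Set E2} {X : E2 → E3} (P : Patch T X) {ζ : E3 → E3}
  (hζ : ∀ y ∈ T, ContDiffAt ℝ 1 ζ (X y))
include P hζ

lemma contDiffOn_field : ContDiffOn ℝ 1 (fun y => ζ (X y)) T := fun y hy =>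
  (hζ y hy).comp_contDiffWithinAt y ((P.smooth y hy).of_le (by norm_num))

lemma hasFDeriv_inner {w : E2 → E3} (hw : ContDiffOn ℝ 1 w T) {y : E2} (hy : y ∈ T) (v : E2) :
    fderivWithin ℝ (fun y => ⟪ζ (X y), w y⟫_ℝ) HP y v =
      ⟪fderiv ℝ ζ (X y) (fderivWithin ℝ X HP y v), w y⟫_ℝ +
        ⟪ζ (X y), fderivWithin ℝ w HP y v⟫_ℝ := by
  have h2 := rel_hasFDeriv P.nhds hw le_rfl hy
  have h0 := ((hζ y hy).differentiableAt one_ne_zero).hasFDerivAt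
  have h3 := h0.comp_hasFDerivWithinAt y (rel_hasFDeriv P.nhds P.smooth (by norm_num) hy)
  have h4 := (h3.inner ℝ h2).fderivWithin (uniqueDiffOn_HP y (P.sub hy))
  refine (DFunLike.congr_fun h4 v).trans ?_
  simp only [ContinuousLinearMap.comp_apply, ContinuousLinearMap.prod_apply, fderivInnerCLM_apply,
    Function.comp_apply]
  ring

variable {n : E2 → E3} (hn : ∀ y ∈ T, ‖n y‖ = 1 ∧ ∀ i, ⟪n y, pd i X y⟫_ℝ = 0)
include hn

lemma divOn_field : DivOn T X (fun y => ζ (X y))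
    fun y => tr3 (fderiv ℝ ζ (X y)) - ⟪fderiv ℝ ζ (X y) (n y), n y⟫_ℝ where
  c0 := (P.contDiffOn_field hζ).inner ℝ P.contDiffOn_w0
  c1 := (P.contDiffOn_field hζ).inner ℝ P.contDiffOn_w1
  eq y hy h0 := by
    rw [P.hasFDeriv_inner hζ P.contDiffOn_w0 hy, P.hasFDeriv_inner hζ P.contDiffOn_w1 hy]
    have a1 := trace_wv (P.gdiv_pos hy) (hn y hy).1 ((hn y hy).2 0) ((hn y hy).2 1)
      (fderiv ℝ ζ (X y))
    have a2 := congrArg (fun v => ⟪ζ (X y), v⟫_ℝ) (P.div_w hy h0)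
    simp only [inner_add_right, inner_zero_right, pd_eq, areaEl_eq] at a1 a2 ⊢
    linarith

lemma divOn_curl (hc : ContinuousOn n T) : DivOn T X (fun y => cr (ζ (X y)) (n y))
    fun y => ⟪curl (fderiv ℝ ζ (X y)), n y⟫_ℝ := by
  set σ : E2 → ℝ := fun y => ⟪n y, cr (pd 0 X y) (pd 1 X y)⟫_ℝ / jac (pd 0 X y) (pd 1 X y) with hσ
  have h1 := fun y hy => normal_eq (P.gdiv_pos hy) (hn y hy).1 ((hn y hy).2 0) ((hn y hy).2 1)
  have h2 : ContinuousOn σ T := by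
    refine (hc.inner ?_).div P.contDiffOn_areaEl.continuousOn fun y hy =>
      (jac_pos (P.inj y hy)).ne'
    exact (continuous_cr continuous_fst continuous_snd).comp_continuousOn
      ((P.contDiffOn_pd 0).continuousOn.prodMk (P.contDiffOn_pd 1).continuousOn)
  have h3 : ∀ y ∈ T, ∀ᶠ z in 𝓝[T] y, z ∈ T ∧ σ z = σ y := fun y hy => by
    filter_upwards [self_mem_nhdsWithin, Metric.tendsto_nhds.1 (h2 y hy) 1 one_pos] with z hz h
    rw [Real.dist_eq, abs_lt] at h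
    refine ⟨hz, ?_⟩
    rcases sq_eq_one_iff.1 (show σ z ^ 2 = 1 from (h1 z hz).1) with e | e <;>
      rcases sq_eq_one_iff.1 (show σ y ^ 2 = 1 from (h1 y hy).1) with e' | e' <;>
        linarith [h.1, h.2]
  have e0 : ∀ y ∈ T, (fun z => ⟪cr (ζ (X z)) (n z), wv0 (pd 0 X z) (pd 1 X z)⟫_ℝ) =ᶠ[𝓝[T] y]
      fun z => σ y * ⟪ζ (X z), pd 1 X z⟫_ℝ := fun y hy => (h3 y hy).mono fun z hz => by
    rw [← hz.2]
    exact (inner_cr_wv ((hn z hz.1).2 0) ((hn z hz.1).2 1) _).1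
  have e1 : ∀ y ∈ T, (fun z => ⟪cr (ζ (X z)) (n z), wv1 (pd 0 X z) (pd 1 X z)⟫_ℝ) =ᶠ[𝓝[T] y]
      fun z => -σ y * ⟪ζ (X z), pd 0 X z⟫_ℝ := fun y hy => (h3 y hy).mono fun z hz => by
    rw [← hz.2]
    exact (inner_cr_wv ((hn z hz.1).2 0) ((hn z hz.1).2 1) _).2.trans (neg_mul _ _).symm
  have c := fun i => (P.contDiffOn_field hζ).inner ℝ (P.contDiffOn_pd i)
  refine ⟨fun y hy => (contDiffWithinAt_const.mul (c 1 y hy)).congr_of_eventuallyEq_of_mem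
    (e0 y hy) hy, fun y hy => (contDiffWithinAt_const.mul (c 0 y hy)).congr_of_eventuallyEq_of_mem
    (e1 y hy) hy, fun y hy h0 => ?_⟩
  have f0 := e0 y hy
  have f1 := e1 y hy
  rw [rel_nhds P.sub P.nhds hy] at f0 f1
  rw [f0.fderivWithin_eq_of_mem (P.sub hy), f1.fderivWithin_eq_of_mem (P.sub hy),
    P.fderiv_mul contDiffOn_const (c 1) hy, P.fderiv_mul contDiffOn_const (c 0) hy,
    P.hasFDeriv_inner hζ (P.contDiffOn_pd 1) hy, P.hasFDeriv_inner hζ (P.contDiffOn_pd 0) hy]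
  have a1 := inner_curl (fderiv ℝ ζ (X y)) (pd 0 X y) (pd 1 X y)
  have a2 := congrArg (fun v => ⟪ζ (X y), v⟫_ℝ) (P.pd_symm hy h0)
  have a3 : σ y ^ 2 = 1 := (h1 y hy).1
  have a4 : σ y * jac (pd 0 X y) (pd 1 X y) = ⟪n y, cr (pd 0 X y) (pd 1 X y)⟫_ℝ :=
    div_mul_cancel₀ _ (jac_pos (P.inj y hy)).ne'
  rw [(h1 y hy).2, real_inner_smul_right, ← a4] at a1
  simp only [fderivWithin_fun_const, Pi.zero_apply, zero_apply, zero_mul, zero_add, areaEl_eq,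
    ← pd_eq]
  linear_combination (-σ y) * a1 + σ y * a2 +
    jac (pd 0 X y) (pd 1 X y) * ⟪curl (fderiv ℝ ζ (X y)), n y⟫_ℝ * a3

end Patch

end Pool.Agent.Lib.MP_14b623_gt
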