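import Pool.Agent.Lib.MP_14b623_gt.GMain
import Pool.Agent.Lib.MP_14b623_gt.GCert

/-! Every immersed free boundary minimal surface in the unit ball with a boundary curve of length
at most four has at least the area of the critical catenoid. -/

namespace Pool.Agent.Lib.MP_14b623_gt.ShortBoundary

open scoped Manifold ContDiff

theorem result : ∃ c τ : ℝ, 0 < c ∧ IsFBMAnnulus (-τ) τ (catenoid c) ∧
    ∀ (M : Type) [TopologicalSpace M] [T2Space M] [CompactSpace M]
      [ChartedSpace (EuclideanHalfSpace 2) M] [IsManifold (𝓡∂ 2) ∞ M]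
      [MeasurableSpace M] [BorelSpace M] (φ : M → E3), IsFBMS φ →
      ∀ γ : ℝ → M, IsBdryCurve φ γ → curveLength φ γ ≤ 4 →
      area (-τ) τ (catenoid c) ≤ surfaceArea φ := by
  obtain ⟨c, τ, h1, h2, h3⟩ := exists_cat
  exact ⟨c, τ, h1, h2, fun M _ _ _ _ _ _ _ φ h γ hγ hL =>
    h3.trans (h.short cert (by norm_num) (hγ.good h)
      (hL.trans (by linarith [Real.pi_gt_d6])))⟩

end Pool.Agent.Lib.MP_14b623_gt.ShortBoundary
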