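import Pool.Agent.Lib.MP_14b623_gt.TCvxB

namespace Pool.Agent.Lib.MP_14b623_gt

open Set Real Function
open scoped ComplexConjugate InnerProductSpace

open Filter Topology in
lemma tcvxc_right_lt {f : ℝ → ℝ} {f' x : ℝ} (h : HasDerivAt f f' x) (hf : f' < 0) :
    ∀ᶠ y in 𝓝[>] x, f y < f x := by
  have h1 := (hasDerivAt_iff_tendsto_slope_left_right.1 h).2
  filter_upwards [h1.eventually (gt_mem_nhds hf), self_mem_nhdsWithin] with y hy hxy
  rw [slope_def_field, div_neg_iff] at hy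
  have hxy' : x < y := hxy
  rcases hy with hy | hy <;> linarith [hy.1, hy.2]

open Filter Topology in
lemma tcvxc_left_lt {f : ℝ → ℝ} {f' x : ℝ} (h : HasDerivAt f f' x) (hf : 0 < f') :
    ∀ᶠ y in 𝓝[<] x, f y < f x := by
  have h1 := (hasDerivAt_iff_tendsto_slope_left_right.1 h).1
  filter_upwards [h1.eventually (lt_mem_nhds hf), self_mem_nhdsWithin] with y hy hxy
  rw [slope_def_field, div_pos_iff] at hy
  have hxy' : y < x := hxy
  rcases hy with hy | hy <;> linarith [hy.1, hy.2]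

lemma tcvxc_nonpos {f : ℝ → ℝ} {f' x a : ℝ} (h : HasDerivAt f f' x) (ha : a < x)
    (hm : ∀ y ∈ Ioo a x, f x ≤ f y) : f' ≤ 0 := by
  by_contra hf
  obtain ⟨y, h1, h2⟩ := ((tcvxc_left_lt h (not_le.1 hf)).and (Ioo_mem_nhdsLT ha)).exists
  exact absurd (hm y h2) (not_le.2 h1)

lemma tcvxc_nonneg {f : ℝ → ℝ} {f' x b : ℝ} (h : HasDerivAt f f' x) (hb : x < b)
    (hm : ∀ y ∈ Ioo x b, f x ≤ f y) : 0 ≤ f' := by
  by_contra hf
  obtain ⟨y, h1, h2⟩ := ((tcvxc_right_lt h (not_le.1 hf)).and (Ioo_mem_nhdsGT hb)).exists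
  exact absurd (hm y h2) (not_le.2 h1)

lemma tcvxc_closure {f : ℝ → ℝ} (hf : Continuous f) {a b : ℝ} (hab : a < b)
    (h : ∀ y ∈ Ioo a b, 0 < f y) : ∀ y ∈ Icc a b, 0 ≤ f y := by
  have h1 : closure (Ioo a b) ⊆ {y | 0 ≤ f y} :=
    closure_minimal (fun y hy => (h y hy).le) (isClosed_le continuous_const hf)
  rw [closure_Ioo hab.ne] at h1
  exact fun y hy => h1 hy

lemma tcvxc_contF (c : SCurve) (p : ℝ) : Continuous (c.F p) :=
  continuous_iff_continuousAt.2 fun s => (c.hasDerivAt_F_right p s).continuousAt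

lemma tcvxc_F_neg (c : SCurve) (m : ℝ) {s t : ℝ} (h : c.g s = -c.g t) : c.F m s = -c.F m t := by
  simp only [SCurve.F, h, det3, Pi.neg_apply]; ring

lemma tcvxc_case (c : SCurve) (hk : ∀ θ, 0 < c.kap θ) (hs : c.Simple) {D s1 : ℝ} (hD0 : 0 < D)
    (hDπ : D ≤ π) (hmin : ∀ a b, b ≠ a → |b - a| < D → 0 < c.F a b)
    (hle : c.F s1 (s1 + D) ≤ 0) : False := by
  have hπ := pi_pos
  have hge : ∀ a, 0 ≤ c.F a (a + D) := fun a =>
    tcvxc_closure (tcvxc_contF c a) (show a < a + D by linarith)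
      (fun y hy => hmin a y hy.1.ne' (abs_lt.2 ⟨by linarith [hy.1], by linarith [hy.2]⟩))
      _ ⟨by linarith, le_rfl⟩
  have h0 : c.F s1 (s1 + D) = 0 := le_antisymm hle (hge s1)
  have hsum : det3 (c.g s1) (c.g2 s1) (c.g (s1 + D)) +
      det3 (c.g s1) (c.g1 s1) (c.g1 (s1 + D)) = 0 := by
    refine IsLocalMin.hasDerivAt_eq_zero ?_ (c.hasDerivAt_F_diag s1 D)
    refine Filter.Eventually.of_forall fun a => ?_
    change c.F s1 (s1 + D) ≤ c.F a (a + D)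
    rw [h0]
    exact hge a
  obtain ⟨s2, hs2⟩ : ∃ s2, s2 = s1 + D := ⟨_, rfl⟩
  rw [← hs2] at h0 hsum
  have h12 : s1 < s2 := by linarith
  have hin : ∀ a ∈ Ioo s1 s2, ∀ b ∈ Icc s1 s2, b ≠ a → 0 < c.F a b := fun a ha b hb hne =>
    hmin a b hne (abs_lt.2 ⟨by linarith [ha.2, hb.1], by linarith [ha.1, hb.2]⟩)
  have hd2 : det3 (c.g s1) (c.g1 s1) (c.g1 s2) ≤ 0 := by
    refine tcvxc_nonpos (c.hasDerivAt_F_right s1 s2) h12 fun y hy => ?_
    rw [h0]
    exact (hmin s1 y hy.1.ne' (abs_lt.2 ⟨by linarith [hy.1], by linarith [hy.2]⟩)).le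
  have hu1 : 0 < c.u s1 ^ 2 := pow_pos (c.upos s1) 2
  have hu2 : 0 < c.u s2 ^ 2 := pow_pos (c.upos s2) 2
  have hF1 := c.F_left_eq s1 (c.g s2)
  have h0' : det3 (c.g s1) (c.g1 s1) (c.g s2) = 0 := h0
  rw [h0', mul_zero, zero_sub] at hF1
  have hβne : dot (c.g1 s1) (c.g s2) ≠ 0 := by
    intro hβ
    rcases c.eq_or_eq_neg s1 (c.g s2) (c.sph s2) h0' hβ with h | h
    · exact hs s1 s2 h12 (by linarith) h.symm
    · have hm : (s1 + s2) / 2 ∈ Ioo s1 s2 := ⟨by linarith, by linarith⟩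
      have a1 := hin _ hm s1 ⟨le_rfl, h12.le⟩ hm.1.ne
      have a2 := hin _ hm s2 ⟨h12.le, le_rfl⟩ hm.2.ne'
      rw [tcvxc_F_neg c _ h] at a2
      linarith
  have hβ : dot (c.g1 s1) (c.g s2) < 0 := by
    refine lt_of_le_of_ne ?_ hβne
    by_contra hb
    have a1 := mul_pos (hk s1) (not_le.1 hb)
    have a2 : 0 ≤ c.u s1 ^ 2 * det3 (c.g s1) (c.g2 s1) (c.g s2) :=
      mul_nonneg hu1.le (by linarith)
    linarith
  have hd2' : det3 (c.g s1) (c.g1 s1) (c.g1 s2) < 0 := by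
    have a1 := mul_pos (hk s1) (neg_pos.2 hβ)
    have a2 : 0 < c.u s1 ^ 2 * det3 (c.g s1) (c.g2 s1) (c.g s2) := by linarith
    have a3 := (mul_pos_iff_of_pos_left hu1).1 a2
    linarith
  have h21 : 0 < c.F s2 s1 := by
    have e := c.decomp s1 (c.g s2) h0'
    have e2 : c.F s2 s1 = dot (c.g1 s1) (c.g s2) / c.u s1 ^ 2 *
        det3 (c.g s1) (c.g1 s1) (c.g1 s2) := by
      unfold SCurve.F
      generalize dot (c.g s1) (c.g s2) = α at e
      generalize dot (c.g1 s1) (c.g s2) / c.u s1 ^ 2 = β at e ⊢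
      rw [e]
      simp only [det3, Pi.add_apply, Pi.smul_apply, smul_eq_mul]
      ring
    rw [e2]
    exact mul_pos_of_neg_of_neg (div_neg_of_neg_of_pos hβ hu1) hd2'
  obtain ⟨t1, ht1, ht1'⟩ := ((tcvxc_right_lt (c.hasDerivAt_F_right s1 s2) hd2').and
    (Ioo_mem_nhdsGT (show s2 < s1 + 2 * π by linarith))).exists
  obtain ⟨t0, rfl⟩ : ∃ t0, t1 = t0 + 2 * π := ⟨t1 - 2 * π, by ring⟩
  rw [h0, c.F_add_right] at ht1
  have ht0a : s2 < t0 + 2 * π := ht1'.1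
  have ht0b : t0 < s1 := by linarith [ht1'.2]
  obtain ⟨η, hη, haway⟩ : ∃ η > 0, ∀ m ∈ Icc s1 s2, ∀ s ∈ Ioo (s1 - η) s1, 0 < c.F m s := by
    have hO : IsOpen {q : ℝ × ℝ | 0 < c.F q.1 q.2} := isOpen_lt continuous_const c.continuous_F
    obtain ⟨η, hη, hb⟩ := Metric.isOpen_iff.1 hO (s2, s1) h21
    refine ⟨η, hη, fun m hm s hs' => ?_⟩
    by_cases hmη : m ≤ s2 - η
    · exact hmin m s (by linarith [hm.1, hs'.2] : s < m).ne
        (abs_lt.2 ⟨by linarith [hs'.1], by linarith [hm.1, hs'.2]⟩)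
    · refine hb (show (m, s) ∈ Metric.ball (s2, s1) η from ?_)
      rw [Metric.mem_ball, Prod.dist_eq, max_lt_iff, Real.dist_eq, Real.dist_eq]
      exact ⟨abs_lt.2 ⟨by linarith [not_le.1 hmη], by linarith [hm.2]⟩,
        abs_lt.2 ⟨by linarith [hs'.1], by linarith [hs'.2]⟩⟩
  have ht0c : t0 ≤ s1 - η := by
    by_contra h
    have := haway s1 ⟨le_rfl, h12.le⟩ t0 ⟨not_le.1 h, ht0b⟩
    linarith
  have hK : IsCompact ((Icc s1 s2 ×ˢ Icc t0 (s1 - η)) ∩ {q : ℝ × ℝ | c.F q.1 q.2 ≤ 0}) :=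
    (isCompact_Icc.prod isCompact_Icc).inter_right (isClosed_le c.continuous_F continuous_const)
  obtain ⟨⟨m, s0⟩, ⟨⟨hm, hs0⟩, hF0⟩, hmax⟩ := hK.exists_isMaxOn
    ⟨(s1, t0), ⟨⟨le_rfl, h12.le⟩, ⟨le_rfl, ht0c⟩⟩, ht1.le⟩ continuous_snd.continuousOn
  have hm1 : s1 ≤ m := hm.1
  have hm2 : m ≤ s2 := hm.2
  have hs0a : t0 ≤ s0 := hs0.1
  have hs0b : s0 ≤ s1 - η := hs0.2
  have hF0' : c.F m s0 ≤ 0 := hF0
  have hs01 : s0 < s1 := by linarith
  have hpos : ∀ m' ∈ Icc s1 s2, ∀ s ∈ Ioo s0 s1, 0 < c.F m' s := by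
    intro m' hm' s hs'
    by_cases h : s ≤ s1 - η
    · by_contra hn
      have : s ≤ s0 := hmax (a := (m', s)) ⟨⟨hm', ⟨by linarith [hs'.1], h⟩⟩, not_lt.1 hn⟩
      linarith [hs'.1]
    · exact haway m' hm' s ⟨not_le.1 h, hs'.2⟩
  have hnn : ∀ m' ∈ Icc s1 s2, 0 ≤ c.F m' s0 := fun m' hm' =>
    tcvxc_closure (tcvxc_contF c m') hs01 (hpos m' hm') s0 ⟨le_rfl, hs01.le⟩
  have hz : c.F m s0 = 0 := le_antisymm hF0' (hnn m ⟨hm1, hm2⟩)
  have hz' : det3 (c.g m) (c.g1 m) (c.g s0) = 0 := hz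
  have hγne : dot (c.g1 m) (c.g s0) ≠ 0 := by
    intro hγ
    rcases c.eq_or_eq_neg m (c.g s0) (c.sph s0) hz' hγ with h | h
    · exact hs s0 m (by linarith) (by linarith) h
    · obtain ⟨m', hm', hne⟩ : ∃ m' ∈ Ioo s1 s2, m ≠ m' := by
        by_cases e : m = s1 + D / 3
        · exact ⟨s1 + 2 * D / 3, ⟨by linarith, by linarith⟩, by rw [e]; intro e'; linarith⟩
        · exact ⟨s1 + D / 3, ⟨by linarith, by linarith⟩, e⟩
      have a1 := hin m' hm' m ⟨hm1, hm2⟩ hne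
      have a2 := hnn m' (Ioo_subset_Icc_self hm')
      rw [tcvxc_F_neg c _ h] at a2
      linarith
  have hum : 0 < c.u m ^ 2 := pow_pos (c.upos m) 2
  have hFm := c.F_left_eq m (c.g s0)
  rw [hz', mul_zero, zero_sub] at hFm
  have hright : m < s2 → dot (c.g1 m) (c.g s0) < 0 := by
    intro h
    refine lt_of_le_of_ne ?_ hγne
    have a0 := tcvxc_nonneg (c.hasDerivAt_F_left m s0) h fun y hy => by
      rw [hz]
      exact hnn y ⟨by linarith [hy.1], hy.2.le⟩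
    by_contra hb
    have a1 := mul_pos (hk m) (not_le.1 hb)
    have a2 := mul_nonneg hum.le a0
    linarith
  have hleft : s1 < m → 0 < dot (c.g1 m) (c.g s0) := by
    intro h
    refine lt_of_le_of_ne ?_ hγne.symm
    have a0 := tcvxc_nonpos (c.hasDerivAt_F_left m s0) h fun y hy => by
      rw [hz]
      exact hnn y ⟨hy.1.le, by linarith [hy.2]⟩
    by_contra hb
    have a1 := mul_pos (hk m) (neg_pos.2 (not_le.1 hb))
    have a2 := mul_nonneg hum.le (neg_nonneg.2 a0)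
    linarith
  rcases hm1.eq_or_lt with e1 | e1
  · subst e1
    have a1 := hright h12
    have a2 := c.rev.no_ahead (fun θ => by rw [c.rev_kap]; exact hk _) (SCurve.rev_simple hs)
      (-s1) (-s0) (by linarith) (by linarith) (by rw [c.rev_F, neg_neg, neg_neg]; exact hz)
      (fun s hs' => by
        rw [c.rev_F, neg_neg]
        exact hpos s1 ⟨le_rfl, h12.le⟩ (-s) ⟨by linarith [hs'.2], by linarith [hs'.1]⟩)
    have e : dot (c.rev.g1 (-s1)) (c.rev.g (-s0)) = -dot (c.g1 s1) (c.g s0) := by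
      simp only [SCurve.rev, neg_neg, dot, Pi.neg_apply]
      ring
    rw [e] at a2
    linarith
  · have a1 := hleft e1
    rcases hm2.eq_or_lt with e2 | e2
    · subst e2
      have e := c.decomp m (c.g s0) hz'
      have e3 : c.F s1 s0 = dot (c.g m) (c.g s0) * det3 (c.g s1) (c.g1 s1) (c.g m) +
          dot (c.g1 m) (c.g s0) / c.u m ^ 2 * det3 (c.g s1) (c.g1 s1) (c.g1 m) := by
        unfold SCurve.F
        generalize dot (c.g m) (c.g s0) = α at e ⊢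
        generalize dot (c.g1 m) (c.g s0) / c.u m ^ 2 = β at e ⊢
        rw [e]
        simp only [det3, Pi.add_apply, Pi.smul_apply, smul_eq_mul]
        ring
      have a2 := hnn s1 ⟨le_rfl, h12.le⟩
      have a3 := mul_neg_of_pos_of_neg (div_pos a1 hum) hd2'
      rw [e3, h0', mul_zero, zero_add] at a2
      linarith
    · linarith [hright e2]

lemma tcvxc_reduce (c : SCurve) (a d : ℝ) :
    ∃ a' ∈ Icc (0 : ℝ) (2 * π), c.F a' (a' + d) = c.F a (a + d) := by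
  refine ⟨toIcoMod two_pi_pos 0 a, ?_, ?_⟩
  · have := toIcoMod_mem_Ico two_pi_pos 0 a
    rw [zero_add] at this
    exact Ico_subset_Icc_self this
  · simp only [SCurve.F, toIcoMod]
    rw [c.p0.sub_zsmul_eq, c.p1.sub_zsmul_eq, sub_add_eq_add_sub, c.p0.sub_zsmul_eq]

theorem SCurve.convex_of_simple (c : SCurve) (hk : ∀ θ, 0 < c.kap θ) (hs : c.Simple) (p s : ℝ)
    (h1 : p < s) (h2 : s < p + 2 * π) : 0 < c.F p s := by
  by_contra hcon
  have hπ := pi_pos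
  obtain ⟨δ, hδ, hloc⟩ := c.cvx_local hk
  have hcont : Continuous fun q : ℝ × ℝ => c.F q.1 (q.1 + q.2) :=
    c.continuous_F.comp (continuous_fst.prodMk (continuous_fst.add continuous_snd))
  have hK : IsCompact ((Icc (0 : ℝ) (2 * π) ×ˢ Icc (-π) π) ∩
      ({q : ℝ × ℝ | δ ≤ |q.2|} ∩ {q : ℝ × ℝ | c.F q.1 (q.1 + q.2) ≤ 0})) :=
    (isCompact_Icc.prod isCompact_Icc).inter_right
      ((isClosed_le continuous_const continuous_snd.abs).inter (isClosed_le hcont continuous_const))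
  have hmem : ∀ a d, d ≠ 0 → |d| ≤ π → c.F a (a + d) ≤ 0 →
      ∃ a', (a', d) ∈ (Icc (0 : ℝ) (2 * π) ×ˢ Icc (-π) π) ∩
        ({q : ℝ × ℝ | δ ≤ |q.2|} ∩ {q : ℝ × ℝ | c.F q.1 (q.1 + q.2) ≤ 0}) := by
    intro a d hd hdπ hF
    obtain ⟨a', ha', e⟩ := tcvxc_reduce c a d
    refine ⟨a', ⟨ha', abs_le.1 hdπ⟩, ?_, ?_⟩
    · by_contra h
      have h' : |d| < δ := not_le.1 h
      have := hloc a (a + d) (by simpa using hd) (by rw [add_sub_cancel_left]; exact h'.le)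
      linarith
    · change c.F a' (a' + d) ≤ 0
      rw [e]
      exact hF
  have hne : ∃ d, d ≠ 0 ∧ |d| ≤ π ∧ c.F p (p + d) ≤ 0 := by
    by_cases h : s - p ≤ π
    · exact ⟨s - p, by linarith, abs_le.2 ⟨by linarith, h⟩, by
        rw [add_sub_cancel]; exact not_lt.1 hcon⟩
    · refine ⟨s - p - 2 * π, by linarith, abs_le.2 ⟨by linarith [not_le.1 h], by linarith⟩, ?_⟩
      rw [← c.F_add_right, show p + (s - p - 2 * π) + 2 * π = s by ring]
      exact not_lt.1 hcon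
  obtain ⟨d0, hd0, hd0', hF0⟩ := hne
  obtain ⟨a0, ha0⟩ := hmem p d0 hd0 hd0' hF0
  obtain ⟨⟨a, d⟩, ⟨⟨-, hd⟩, hδd, hF⟩, hmin⟩ := hK.exists_isMinOn ⟨_, ha0⟩
    continuous_snd.abs.continuousOn
  have hdπ : |d| ≤ π := abs_le.2 hd
  have hδd' : δ ≤ |d| := hδd
  have hF' : c.F a (a + d) ≤ 0 := hF
  have hmin' : ∀ a b, b ≠ a → |b - a| < |d| → 0 < c.F a b := by
    intro a' b hne hlt
    by_contra hn
    obtain ⟨a'', h⟩ := hmem a' (b - a') (sub_ne_zero.2 hne) (by linarith)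
      (by rw [add_sub_cancel]; exact not_lt.1 hn)
    have : |d| ≤ |b - a'| := hmin h
    linarith
  rcases le_total 0 d with h | h
  · refine tcvxc_case c hk hs (D := |d|) (s1 := a) (by linarith) hdπ hmin' ?_
    rwa [abs_of_nonneg h]
  · refine tcvxc_case c.rev (fun θ => by rw [c.rev_kap]; exact hk _) (SCurve.rev_simple hs)
      (D := |d|) (s1 := -a) (by linarith) hdπ (fun a' b hne hlt => ?_) ?_
    · rw [c.rev_F]
      refine hmin' _ _ (fun e => hne (neg_injective e)) ?_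
      rwa [neg_sub_neg, abs_sub_comm]
    · rw [c.rev_F, neg_neg, abs_of_nonpos h, show -(-a + -d) = a + d by ring]
      exact hF'

end Pool.Agent.Lib.MP_14b623_gt
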