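import Pool.Agent.Lib.MP_14b623_gt.CvxBasic

namespace Pool.Agent.Lib.MP_14b623_gt

open Set Real Function
open scoped ComplexConjugate InnerProductSpace

/-- Cross product. -/
def tcvxd_cr (a b : V) : V :=
  ![a 1 * b 2 - a 2 * b 1, a 2 * b 0 - a 0 * b 2, a 0 * b 1 - a 1 * b 0]

lemma tcvxd_dot_cr (a b x : V) : dot x (tcvxd_cr a b) = det3 a b x := by
  simp only [dot, det3, tcvxd_cr, Matrix.cons_val_zero, Matrix.cons_val_one, Matrix.cons_val]
  ring

lemma tcvxd_cr_cr (a b : V) :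
    dot (tcvxd_cr a b) (tcvxd_cr a b) = dot a a * dot b b - dot a b ^ 2 := by
  simp only [dot, tcvxd_cr, Matrix.cons_val_zero, Matrix.cons_val_one, Matrix.cons_val]
  ring

lemma tcvxd_det_cr (a b x y : V) : det3 a b (tcvxd_cr x y) = det3 x y (tcvxd_cr a b) := by
  simp only [det3, tcvxd_cr, Matrix.cons_val_zero, Matrix.cons_val_one, Matrix.cons_val]
  ring

lemma tcvxd_id (A B x y : V) :
    det3 A B y * dot B x - det3 A B x * dot B y =
      dot B B * det3 x y A - dot A B * det3 x y B := by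
  simp only [det3, dot]
  ring

lemma tcvxd_gram {A B x y : V} {l : ℝ} (hA : dot A A = 1) (hAB : dot A B = 0)
    (hB : dot B B = l ^ 2) (hx : dot x x = 1) (hxy : dot x y = 0) (hy : dot y y = l ^ 2) :
    (l * det3 A B x) ^ 2 + det3 A B y ^ 2 = l ^ 4 - det3 x y (tcvxd_cr A B) ^ 2 := by
  have h := det3_mul_det3 x y (tcvxd_cr A B) x y (tcvxd_cr A B)
  rw [dot_comm y x, dot_comm (tcvxd_cr A B) x, dot_comm (tcvxd_cr A B) y, hx, hxy, hy,
    tcvxd_cr_cr, tcvxd_dot_cr, tcvxd_dot_cr, hA, hAB, hB] at h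
  linear_combination h

lemma tcvxd_arctan {f g : ℝ → ℝ} {f' g' x : ℝ} (hf : HasDerivAt f f' x) (hg : HasDerivAt g g' x)
    (h0 : g x ≠ 0) :
    HasDerivAt (fun y => arctan (f y / g y))
      ((f' * g x - f x * g') / (g x ^ 2 + f x ^ 2)) x := by
  refine (hf.fun_div hg h0).arctan.congr_deriv ?_
  have : g x ^ 2 + f x ^ 2 ≠ 0 := by positivity
  field_simp

theorem SCurve.len_lt_one_of_const (d : SCurve) (l : ℝ) (hu : ∀ σ, d.u σ = l)
    (hk : ∀ σ, 0 < d.kap σ) (h1 : ∀ σ ∈ Ioo 0 (2 * π), 0 < d.F 0 σ)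
    (h2 : ∀ σ ∈ Ioo 0 (2 * π), 0 < d.F σ 0) : l < 1 := by
  have hl : 0 < l := hu 0 ▸ d.upos 0
  have hsp : ∀ σ, dot (d.g1 σ) (d.g1 σ) = l ^ 2 := fun σ => by rw [d.speed, hu]
  have h12 : ∀ σ, dot (d.g1 σ) (d.g2 σ) = 0 := fun σ => by
    have h := d.hasDerivAt_u σ
    rw [show d.u = fun _ => l from funext hu] at h
    exact (div_eq_zero_iff.1 (h.unique (hasDerivAt_const σ l))).resolve_right hl.ne'
  obtain ⟨P, hP⟩ : ∃ P : ℝ → ℝ, P = fun s => l * s +
      arctan (det3 (d.g 0) (d.g1 0) (d.g1 s) / (l * d.F 0 s)) -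
      arctan (det3 (d.g s) (d.g1 s) (d.g1 0) / (l * d.F s 0)) := ⟨_, rfl⟩
  have hD : ∀ s ∈ Ioo 0 (2 * π), ∃ P' < 0, HasDerivAt P P' s := by
    intro s hs
    have ha := h1 s hs
    have hG := h2 s hs
    have db : HasDerivAt (fun s => det3 (d.g 0) (d.g1 0) (d.g1 s))
        (det3 (d.g 0) (d.g1 0) (d.g2 s)) s :=
      (hasDerivAt_det3 (hasDerivAt_const s (d.g 0)) (hasDerivAt_const s (d.g1 0))
        (d.d2 s)).congr_deriv (by simp only [det3, Pi.zero_apply]; ring)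
    have dK : HasDerivAt (fun s => det3 (d.g s) (d.g1 s) (d.g1 0))
        (det3 (d.g s) (d.g2 s) (d.g1 0)) s :=
      (hasDerivAt_det3 (d.d1 s) (d.d2 s) (hasDerivAt_const s (d.g1 0))).congr_deriv
        (by simp only [det3, Pi.zero_apply]; ring)
    have e1 := tcvxd_arctan db ((d.hasDerivAt_F_right 0 s).const_mul l) (by positivity)
    have e2 := tcvxd_arctan dK ((d.hasDerivAt_F_left s 0).const_mul l) (by positivity)
    refine ⟨_, ?_, hP ▸ (((hasDerivAt_id' s).const_mul l).fun_add e1).fun_sub e2⟩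
    have i1 := tcvxd_gram (d.sph 0) (d.orth 0) (hsp 0) (d.sph s) (d.orth s) (hsp s)
    have i2 := tcvxd_gram (d.sph s) (d.orth s) (hsp s) (d.sph 0) (d.orth 0) (hsp 0)
    rw [tcvxd_det_cr] at i2
    have i3 := det3_mul_det3 (d.g s) (d.g1 s) (d.g2 s) (d.g s) (d.g1 s)
      (tcvxd_cr (d.g 0) (d.g1 0))
    rw [dot_comm (d.g1 s) (d.g s), dot_comm (d.g2 s) (d.g s), dot_comm (d.g2 s) (d.g1 s),
      d.sph, d.orth, hsp, h12, d.dot_g_g2, hu, tcvxd_dot_cr, tcvxd_dot_cr, tcvxd_dot_cr] at i3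
    have i4 := tcvxd_id (d.g s) (d.g1 s) (d.g 0) (d.g1 0)
    rw [hsp, d.orth] at i4
    have i5 := d.F_left_eq s (d.g 0)
    have i6 := d.F_left_eq s (d.g1 0)
    rw [hu, h12] at i5 i6
    have hκ := hk s
    simp only [SCurve.F, SCurve.kap] at ha hG hκ i5 i6 ⊢
    generalize det3 (d.g s) (d.g1 s) (tcvxd_cr (d.g 0) (d.g1 0)) = m at *
    generalize det3 (d.g 0) (d.g1 0) (d.g s) = a at *
    generalize det3 (d.g 0) (d.g1 0) (d.g1 s) = b at *
    generalize det3 (d.g 0) (d.g1 0) (d.g2 s) = b' at *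
    generalize det3 (d.g s) (d.g1 s) (d.g 0) = G at *
    generalize det3 (d.g s) (d.g1 s) (d.g1 0) = K at *
    generalize det3 (d.g s) (d.g2 s) (d.g 0) = G' at *
    generalize det3 (d.g s) (d.g2 s) (d.g1 0) = K' at *
    generalize det3 (d.g s) (d.g1 s) (d.g2 s) = κ at *
    generalize dot (d.g1 s) (d.g 0) = x at *
    generalize dot (d.g1 s) (d.g1 0) = y at *
    have hpos : 0 < (l * a) ^ 2 + b ^ 2 := by positivity
    have hm : m < l ^ 2 := by
      by_contra hm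
      have := pow_le_pow_left₀ (by positivity) (not_lt.1 hm) 2
      nlinarith
    rw [i2, ← i1, add_sub_assoc, ← sub_div, ← sub_neg, sub_neg, ← lt_neg_iff_add_neg',
      div_lt_iff₀ hpos]
    have key : l ^ 2 * ((b' * (l * a) - b * (l * b) - (K' * (l * G) - K * (l * G'))) +
        l * 1 * ((l * a) ^ 2 + b ^ 2)) = l * κ * a * (m - l ^ 2) := by
      linear_combination (-(l * a)) * i3 - (l * G) * i6 + (l * K) * i5 - (l * κ) * i4
    have h3 : l * κ * a * (m - l ^ 2) < 0 :=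
      mul_neg_of_pos_of_neg (by positivity) (by linarith)
    rw [← key] at h3
    have := neg_of_mul_neg_right h3 (by positivity)
    linarith
  have hanti : StrictAntiOn P (Ioo 0 (2 * π)) := by
    refine strictAntiOn_of_deriv_neg (convex_Ioo _ _) (fun s hs => ?_) fun s hs => ?_
    · obtain ⟨_, -, h⟩ := hD s hs
      exact h.continuousAt.continuousWithinAt
    · obtain ⟨_, h0, h⟩ := hD s (interior_subset hs)
      rwa [h.deriv]
  have hπ := pi_pos
  have hη : P (3 * π / 2) < P (π / 2) :=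
    hanti ⟨by linarith, by linarith⟩ ⟨by linarith, by linarith⟩ (by linarith)
  have hb : ∀ s, l * s - π < P s ∧ P s < l * s + π := fun s => by
    rw [hP]
    constructor <;> linarith [arctan_lt_pi_div_two
      (det3 (d.g 0) (d.g1 0) (d.g1 s) / (l * d.F 0 s)), neg_pi_div_two_lt_arctan
      (det3 (d.g 0) (d.g1 0) (d.g1 s) / (l * d.F 0 s)), arctan_lt_pi_div_two
      (det3 (d.g s) (d.g1 s) (d.g1 0) / (l * d.F s 0)), neg_pi_div_two_lt_arctan
      (det3 (d.g s) (d.g1 s) (d.g1 0) / (l * d.F s 0))]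
  obtain ⟨e, he0, he1, he2⟩ : ∃ e, 0 < e ∧ e < π / 2 ∧
      2 * (l * e) ≤ P (π / 2) - P (3 * π / 2) := by
    refine ⟨min (π / 4) ((P (π / 2) - P (3 * π / 2)) / (2 * l)), lt_min (by linarith)
      (div_pos (by linarith) (by linarith)), (min_le_left _ _).trans_lt (by linarith), ?_⟩
    have := (le_div_iff₀ (by linarith : 0 < 2 * l)).1
      (min_le_right (π / 4) ((P (π / 2) - P (3 * π / 2)) / (2 * l)))
    linarith
  have k1 : P (π / 2) < P e :=
    hanti ⟨he0, by linarith⟩ ⟨by linarith, by linarith⟩ he1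
  have k2 : P (2 * π - e) < P (3 * π / 2) :=
    hanti ⟨by linarith, by linarith⟩ ⟨by linarith, by linarith⟩ (by linarith)
  have k3 := (hb e).2
  have k4 := (hb (2 * π - e)).1
  have : l * π < 1 * π := by linarith
  exact lt_of_mul_lt_mul_right this hπ.le

theorem SCurve.three_point (c : SCurve) (h1 : ∀ σ ∈ Ioo 0 (2 * π), 0 < c.F 0 σ)
    (h2 : ∀ σ ∈ Ioo 0 (2 * π), 0 < c.F σ 0) (θ₁ θ₂ : ℝ) (ha : 0 < θ₁) (hb : θ₁ < θ₂)
    (hc : θ₂ < 2 * π) : 0 < det3 (c.g 0) (c.g θ₁) (c.g θ₂) := by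
  have hu : 0 < c.u 0 ^ 2 := pow_pos (c.upos 0) 2
  have hD : ∀ s ∈ Ioo 0 (2 * π), ∃ r' < 0,
      HasDerivAt (fun s => dot (c.g1 0) (c.g s) / c.F 0 s) r' s := by
    intro s hs
    have e := (hasDerivAt_dot (hasDerivAt_const s (c.g1 0)) (c.d1 s)).fun_div
      (c.hasDerivAt_F_right 0 s) (h1 s hs).ne'
    refine ⟨_, div_neg_of_neg_of_pos ?_ (pow_pos (h1 s hs) 2), e⟩
    have i := tcvxd_id (c.g 0) (c.g1 0) (c.g s) (c.g1 s)
    rw [c.speed, c.orth] at i
    have z : dot (0 : V) (c.g s) = 0 := by simp [dot]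
    have := mul_pos hu (h2 s hs)
    simp only [SCurve.F] at this ⊢
    rw [z]
    linarith
  have hanti : StrictAntiOn (fun s => dot (c.g1 0) (c.g s) / c.F 0 s) (Ioo 0 (2 * π)) := by
    refine strictAntiOn_of_deriv_neg (convex_Ioo _ _) (fun s hs => ?_) fun s hs => ?_
    · obtain ⟨_, -, h⟩ := hD s hs
      exact h.continuousAt.continuousWithinAt
    · obtain ⟨_, h0, h⟩ := hD s (interior_subset hs)
      rwa [h.deriv]
  have m1 : θ₁ ∈ Ioo 0 (2 * π) := ⟨ha, hb.trans hc⟩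
  have m2 : θ₂ ∈ Ioo 0 (2 * π) := ⟨ha.trans hb, hc⟩
  have k := (div_lt_div_iff₀ (h1 _ m2) (h1 _ m1)).1 (hanti m1 m2 hb)
  have i := tcvxd_id (c.g 0) (c.g1 0) (c.g θ₁) (c.g θ₂)
  rw [c.speed, c.orth] at i
  have e : det3 (c.g θ₁) (c.g θ₂) (c.g 0) = det3 (c.g 0) (c.g θ₁) (c.g θ₂) := by
    simp only [det3]; ring
  rw [e] at i
  simp only [SCurve.F] at k
  exact (mul_pos_iff_of_pos_left hu).1 (by linarith)

end Pool.Agent.Lib.MP_14b623_gt
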