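import Pool.Agent.Lib.MP_14b623_gt.TRepar
import Pool.Agent.Lib.MP_14b623_gt.TCvxC
import Pool.Agent.Lib.MP_14b623_gt.TCvxD

namespace Pool.Agent.Lib.MP_14b623_gt

open Set Real Function
open scoped ComplexConjugate InnerProductSpace

lemma tcurve1_av3 {f g h : ℝ → ℝ} (hf : Continuous f) (hg : Continuous g) (hh : Continuous h)
    (α β γ : ℝ) :
    av (fun θ => α * f θ + β * g θ + γ * h θ) = α * av f + β * av g + γ * av h := by
  unfold av
  rw [intervalIntegral.integral_add, intervalIntegral.integral_add,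
    intervalIntegral.integral_const_mul, intervalIntegral.integral_const_mul,
    intervalIntegral.integral_const_mul]
  · ring
  all_goals exact Continuous.intervalIntegrable (by fun_prop) _ _

lemma tcurve1_centroid (c : SCurve) (p : ℝ) :
    det3 (c.g p) (c.g1 p) (fun i => av fun θ => c.u θ * c.g θ i)
      = av fun θ => c.u θ * c.F p θ := by
  have h0 := c.c0
  have hu := c.cu
  have key := tcurve1_av3 (f := fun θ => c.u θ * c.g θ 0) (g := fun θ => c.u θ * c.g θ 1)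
    (h := fun θ => c.u θ * c.g θ 2) (by fun_prop) (by fun_prop) (by fun_prop)
    (c.g p 1 * c.g1 p 2 - c.g p 2 * c.g1 p 1) (c.g p 2 * c.g1 p 0 - c.g p 0 * c.g1 p 2)
    (c.g p 0 * c.g1 p 1 - c.g p 1 * c.g1 p 0)
  have e : (fun θ => c.u θ * c.F p θ) = fun θ =>
      (c.g p 1 * c.g1 p 2 - c.g p 2 * c.g1 p 1) * (c.u θ * c.g θ 0)
        + (c.g p 2 * c.g1 p 0 - c.g p 0 * c.g1 p 2) * (c.u θ * c.g θ 1)
        + (c.g p 0 * c.g1 p 1 - c.g p 1 * c.g1 p 0) * (c.u θ * c.g θ 2) := by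
    funext θ
    simp only [SCurve.F, det3]
    ring
  rw [e, key]
  simp only [det3]
  ring

lemma tcurve1_pos (c : SCurve) (hk : ∀ θ, 0 < c.kap θ) (hs : c.Simple) :
    c.len < 1 ∧
    (∀ θ₁ θ₂, 0 < θ₁ → θ₁ < θ₂ → θ₂ < 2 * π → 0 < det3 (c.g 0) (c.g θ₁) (c.g θ₂)) ∧
    ∀ p, 0 < det3 (c.g p) (c.g1 p) (fun i => av fun θ => c.u θ * c.g θ i) := by
  have hF := c.convex_of_simple hk hs
  have h1 : ∀ σ ∈ Ioo 0 (2 * π), 0 < c.F 0 σ := fun σ hσ => hF 0 σ hσ.1 (by linarith [hσ.2])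
  have h2 : ∀ σ ∈ Ioo 0 (2 * π), 0 < c.F σ 0 := fun σ hσ => by
    rw [← c.F_add_right σ 0]
    exact hF σ _ (by linarith [hσ.2]) (by linarith [hσ.1])
  refine ⟨?_, c.three_point h1 h2, fun p => ?_⟩
  · obtain ⟨d, ϑ, hu, hmono, -, h0, hper, hg, hg1, hkap, -⟩ := c.exists_repar
    have hq : ∀ σ, 0 < c.len / c.u (ϑ σ) := fun σ => div_pos c.len_pos (c.upos _)
    have hdF : ∀ a b, d.F a b = (c.len / c.u (ϑ a)) * c.F (ϑ a) (ϑ b) := by
      intro a b
      simp only [SCurve.F, hg, hg1, det3, Pi.smul_apply, smul_eq_mul]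
      ring
    have hmem : ∀ σ ∈ Ioo 0 (2 * π), ϑ σ ∈ Ioo 0 (2 * π) := by
      intro σ hσ
      have e := hper 0
      rw [zero_add, h0, zero_add] at e
      exact ⟨h0 ▸ hmono hσ.1, e ▸ hmono hσ.2⟩
    refine d.len_lt_one_of_const c.len hu (fun σ => ?_) (fun σ hσ => ?_) (fun σ hσ => ?_)
    · rw [hkap]
      exact mul_pos (pow_pos (hq σ) 3) (hk _)
    · rw [hdF]
      refine mul_pos (hq 0) ?_
      rw [h0]
      exact h1 _ (hmem σ hσ)
    · rw [hdF]
      refine mul_pos (hq σ) ?_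
      rw [h0]
      exact h2 _ (hmem σ hσ)
  · rw [tcurve1_centroid]
    have hper : Periodic (fun θ => c.u θ * c.F p θ) (2 * π) := fun θ => by
      simp only [c.pu θ, c.F_add_right]
    have hc : Continuous fun θ => c.u θ * c.F p θ :=
      c.cu.mul (c.continuous_F.comp (continuous_const.prodMk continuous_id))
    have e := hper.intervalIntegral_add_eq 0 p
    rw [zero_add] at e
    unfold av
    rw [e]
    refine div_pos ?_ two_pi_pos
    exact intervalIntegral.intervalIntegral_pos_of_pos_on (hc.intervalIntegrable _ _)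
      (fun θ hθ => mul_pos (c.upos θ) (hF p θ hθ.1 hθ.2)) (by linarith [two_pi_pos])

theorem SCurve.simple_facts (c : SCurve) (hk : ∀ θ, c.kap θ ≠ 0) (hs : c.Simple) :
    c.len < 1 ∧
    (∀ θ₁ θ₂, 0 < θ₁ → θ₁ < θ₂ → θ₂ < 2 * π → det3 (c.g 0) (c.g θ₁) (c.g θ₂) ≠ 0) ∧
    ∀ p, det3 (c.g p) (c.g1 p) (fun i => av fun θ => c.u θ * c.g θ i) ≠ 0 := by
  by_cases hpos : ∀ θ, 0 < c.kap θ
  · obtain ⟨h1, h2, h3⟩ := tcurve1_pos c hpos hs
    exact ⟨h1, fun a b ha hb hc => (h2 a b ha hb hc).ne', fun p => (h3 p).ne'⟩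
  · push Not at hpos
    obtain ⟨θ₀, h0⟩ := hpos
    have hneg : ∀ θ, 0 < c.neg.kap θ := by
      intro θ
      rw [c.neg_kap, neg_pos]
      by_contra hθ
      obtain ⟨s, hs0⟩ := intermediate_value_univ θ₀ θ c.continuous_kap ⟨h0, not_lt.1 hθ⟩
      exact hk s hs0
    obtain ⟨h1, h2, h3⟩ := tcurve1_pos c.neg hneg (SCurve.neg_simple hs)
    refine ⟨h1, fun a b ha hb hc h => ?_, fun p h => ?_⟩
    · have := h2 a b ha hb hc
      have e : det3 (c.neg.g 0) (c.neg.g a) (c.neg.g b) = -det3 (c.g 0) (c.g a) (c.g b) := by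
        simp only [SCurve.neg, det3, Pi.neg_apply]
        ring
      rw [e, h, neg_zero] at this
      exact lt_irrefl _ this
    · have := h3 p
      rw [tcurve1_centroid] at this h
      have e : (fun θ => c.neg.u θ * c.neg.F p θ) = fun θ => -(c.u θ * c.F p θ) := by
        funext θ
        rw [c.neg_F, mul_neg]
        rfl
      rw [e] at this
      unfold av at this h
      rw [intervalIntegral.integral_neg, neg_div, h, neg_zero] at this
      exact lt_irrefl _ this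

theorem SCurve.flat (c : SCurve) (hk : ∀ θ, c.kap θ = 0) (i : Fin 3) :
    av (fun θ => c.u θ * c.g θ i) = 0 := by
  have hd : ∀ θ, HasDerivAt (fun θ => -(c.g1 θ i / c.u θ)) (c.u θ * c.g θ i) θ := by
    intro θ
    have hu := (c.upos θ).ne'
    have h := ((hasDerivAt_coord (c.d2 θ) i).fun_div (c.hasDerivAt_u θ) hu).fun_neg
    refine h.congr_deriv ?_
    have e := congrFun (c.decomp θ (c.g2 θ) (hk θ)) i
    rw [c.dot_g_g2] at e
    simp only [Pi.add_apply, Pi.smul_apply, smul_eq_mul] at e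
    rw [e]
    field_simp
    ring
  have h0 := c.c0
  have hu := c.cu
  have h := intervalIntegral.integral_eq_sub_of_hasDerivAt (a := 0) (b := 2 * π)
    (fun θ _ => hd θ) (Continuous.intervalIntegrable (by fun_prop) _ _)
  have p1 := c.p1 0
  have pu := c.pu 0
  rw [zero_add] at p1 pu
  simp only [av, h, p1, pu, sub_self, zero_div]

end Pool.Agent.Lib.MP_14b623_gt
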