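import Pool.Agent.Lib.MP_14b623_gt.CvxBasic

namespace Pool.Agent.Lib.MP_14b623_gt

open Set Real Function
open scoped ComplexConjugate InnerProductSpace

/-- First zero of a continuous function which starts positive and ends nonpositive. -/
lemma tcvxb_first_zero {f : ℝ → ℝ} (hf : Continuous f) {x y : ℝ} (hxy : x ≤ y) (hx : 0 < f x)
    (hy : f y ≤ 0) : ∃ b, x < b ∧ b ≤ y ∧ f b = 0 ∧ ∀ s, x ≤ s → s < b → 0 < f s := by
  have hK : IsCompact (Icc x y ∩ {s | f s ≤ 0}) :=
    isCompact_Icc.inter_right (isClosed_le hf continuous_const)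
  obtain ⟨b, ⟨⟨hb1, hb2⟩, hb3⟩, hmin⟩ := hK.exists_isLeast ⟨y, ⟨hxy, le_rfl⟩, hy⟩
  have hb3' : f b ≤ 0 := hb3
  have hpos : ∀ s, x ≤ s → s < b → 0 < f s := by
    intro s h1 h2
    by_contra h
    have : b ≤ s := hmin ⟨⟨h1, h2.le.trans hb2⟩, not_lt.1 h⟩
    linarith
  have hxb : x < b := by
    rcases hb1.eq_or_lt with h | h
    · rw [← h] at hb3'; linarith
    · exact h
  refine ⟨b, hxb, hb2, le_antisymm hb3' ?_, hpos⟩
  have hcl : b ∈ closure (Ico x b) := by
    rw [closure_Ico hxb.ne]; exact ⟨hxb.le, le_rfl⟩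
  have hsub : Ico x b ⊆ {s | 0 ≤ f s} := fun s hs => (hpos s hs.1 hs.2).le
  exact (isClosed_le continuous_const hf).closure_subset_iff.2 hsub hcl

lemma tcvxb_left_neg {f : ℝ → ℝ} {D x : ℝ} (h : HasDerivAt f D x) (hD : 0 < D) :
    ∀ᶠ a in nhds x, a < x → f a < f x := by
  have h1 := (hasDerivAt_iff_tendsto_slope.1 h).eventually (lt_mem_nhds hD)
  rw [eventually_nhdsWithin_iff] at h1
  filter_upwards [h1] with a ha hax
  have := ha hax.ne
  rw [slope_def_field, div_pos_iff] at this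
  rcases this with h' | h' <;> linarith [h'.1, h'.2]

lemma tcvxb_right_neg {f : ℝ → ℝ} {D x : ℝ} (h : HasDerivAt f D x) (hD : D < 0) :
    ∀ᶠ a in nhds x, x < a → f a < f x := by
  have h1 := (hasDerivAt_iff_tendsto_slope.1 h).eventually (gt_mem_nhds hD)
  rw [eventually_nhdsWithin_iff] at h1
  filter_upwards [h1] with a ha hax
  have := ha hax.ne'
  rw [slope_def_field, div_neg_iff] at this
  rcases this with h' | h' <;> linarith [h'.1, h'.2]

theorem SCurve.no_ahead (c : SCurve) (hk : ∀ θ, 0 < c.kap θ) (hs : c.Simple) (p q : ℝ)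
    (hpq : p < q) (hq : q < p + 2 * π) (h0 : c.F p q = 0) (hpos : ∀ s ∈ Ioo p q, 0 < c.F p s) :
    dot (c.g1 p) (c.g q) ≤ 0 := by
  by_contra hb0
  rw [not_le] at hb0
  obtain ⟨δ, hδ, hloc⟩ := c.cvx_local hk
  have hc0 := c.c0
  have hc1 := c.c1
  have hcF := c.continuous_F
  have hcFr : ∀ a, Continuous (c.F a) := fun a =>
    hcF.comp (Continuous.prodMk continuous_const continuous_id)
  have hcD : Continuous fun z : ℝ × ℝ => dot (c.g1 z.1) (c.g z.2) := by fun_prop
  set T : Set (ℝ × ℝ) := {z | p ≤ z.1 ∧ z.1 < z.2 ∧ z.2 ≤ q ∧ c.F z.1 z.2 = 0 ∧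
    (∀ s, z.1 < s → s < z.2 → 0 < c.F z.1 s) ∧ 0 < dot (c.g1 z.1) (c.g z.2)} with hT
  have hpT : (p, q) ∈ T := ⟨le_rfl, hpq, le_rfl, h0, fun s h1 h2 => hpos s ⟨h1, h2⟩, hb0⟩
  have hTsub : T ⊆ (Icc p q ×ˢ Icc p q) ∩ ({z | z.1 + δ ≤ z.2} ∩ ({z | c.F z.1 z.2 = 0} ∩
      {z | 0 ≤ dot (c.g1 z.1) (c.g z.2)})) := by
    rintro ⟨a, b⟩ ⟨h1, h2, h3, h4, -, h6⟩
    simp only at h1 h2 h3 h4 h6
    refine ⟨⟨⟨h1, by linarith⟩, ⟨by linarith, h3⟩⟩, ?_, h4, h6.le⟩
    by_contra h
    simp only [mem_ofPred_eq, not_le] at h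
    have := hloc a b h2.ne' (abs_le.2 ⟨by linarith, by linarith⟩)
    linarith
  have hKc : IsCompact ((Icc p q ×ˢ Icc p q) ∩ ({z : ℝ × ℝ | z.1 + δ ≤ z.2} ∩
      ({z | c.F z.1 z.2 = 0} ∩ {z | 0 ≤ dot (c.g1 z.1) (c.g z.2)}))) := by
    refine (isCompact_Icc.prod isCompact_Icc).inter_right ?_
    refine (isClosed_le (by fun_prop) (by fun_prop)).inter ?_
    exact (isClosed_eq hcF continuous_const).inter (isClosed_le continuous_const hcD)
  have hclsub := hKc.isClosed.closure_subset_iff.2 hTsub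
  have hclc : IsCompact (closure T) := hKc.of_isClosed_subset isClosed_closure hclsub
  obtain ⟨⟨P, Q⟩, hPQ, hmax⟩ := hclc.exists_isMaxOn ⟨_, subset_closure hpT⟩
    continuous_fst.continuousOn
  have hmax' : ∀ z ∈ T, z.1 ≤ P := fun z hz => hmax (subset_closure hz)
  obtain ⟨⟨⟨hP1, hP2⟩, ⟨hQ1, hQ2⟩⟩, hPδ, hF0, hD0⟩ := hclsub hPQ
  simp only [mem_ofPred_eq] at hP1 hP2 hQ1 hQ2 hPδ hF0 hD0
  have hPδ' : 0 < c.F P (P + δ) :=
    hloc P (P + δ) (by linarith) (abs_le.2 ⟨by linarith, by linarith⟩)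
  obtain ⟨r, hr1, hr2, hr0, hrpos⟩ := tcvxb_first_zero (hcFr P) hPδ hPδ' hF0.le
  have hrpos' : ∀ s, P < s → s < r → 0 < c.F P s := by
    intro s h1 h2
    by_cases h : s ≤ P + δ
    · exact hloc P s h1.ne' (abs_le.2 ⟨by linarith, by linarith⟩)
    · exact hrpos s (by linarith) h2
  have hder := c.hasDerivAt_F_left P r
  have hdeq : c.u P ^ 2 * det3 (c.g P) (c.g2 P) (c.g r) = -(c.kap P * dot (c.g1 P) (c.g r)) := by
    have := c.F_left_eq P (c.g r)
    have h' : det3 (c.g P) (c.g1 P) (c.g r) = 0 := hr0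
    rw [h'] at this
    linarith
  have hu2 : 0 < c.u P ^ 2 := pow_pos (c.upos P) 2
  have hβ0 : 0 ≤ dot (c.g1 P) (c.g r) := by
    rcases hr2.eq_or_lt with h | h
    · rw [h]; exact hD0
    by_contra hneg
    rw [not_le] at hneg
    have hDpos : 0 < det3 (c.g P) (c.g2 P) (c.g r) := by
      have : 0 < c.u P ^ 2 * det3 (c.g P) (c.g2 P) (c.g r) := by
        rw [hdeq]; nlinarith [hk P]
      exact (pos_iff_pos_of_mul_pos this).1 hu2
    have h1 := tcvxb_left_neg hder hDpos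
    have hfst : Filter.Tendsto (fun z : ℝ × ℝ => z.1) (nhds (P, Q)) (nhds P) :=
      continuous_fst.tendsto (P, Q)
    have hsnd : Filter.Tendsto (fun z : ℝ × ℝ => z.2) (nhds (P, Q)) (nhds Q) :=
      continuous_snd.tendsto (P, Q)
    have h2 := hfst.eventually h1
    have h3 := hfst.eventually (gt_mem_nhds (show P < r by linarith))
    have h4 := hsnd.eventually (lt_mem_nhds h)
    obtain ⟨⟨a, b⟩, hab, ⟨h5, h6⟩, h7⟩ :=
      (mem_closure_iff_frequently.1 hPQ |>.and_eventually ((h2.and h3).and h4)).exists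
    simp only at h5 h6 h7
    have h8 : 0 < c.F a r := hab.2.2.2.2.1 r h6 h7
    have h9 : a ≤ P := hmax' _ hab
    rcases h9.eq_or_lt with h10 | h10
    · rw [h10] at h8; linarith
    · have := h5 h10
      linarith
  have hβ : 0 < dot (c.g1 P) (c.g r) := by
    rcases hβ0.eq_or_lt with h | h
    swap
    · exact h
    exfalso
    have hFnn : ∀ s, p ≤ s → s ≤ q → 0 ≤ c.F p s := by
      intro s h1 h2
      rcases h1.eq_or_lt with h3 | h3
      · rw [← h3, c.F_self]
      rcases h2.eq_or_lt with h4 | h4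
      · rw [h4, h0]
      exact (hpos s ⟨h3, h4⟩).le
    rcases c.eq_or_eq_neg P (c.g r) (c.sph r) hr0 h.symm with h1 | h1
    · exact hs P r (by linarith) (by linarith) h1.symm
    · have h2 : c.F p r = -c.F p P := by
        simp only [SCurve.F, h1, det3, Pi.neg_apply]; ring
      have h3 := hFnn P hP1 hP2
      have h4 := hFnn r (by linarith) (by linarith)
      have h5 : P = p := by
        by_contra h5
        have := hpos P ⟨lt_of_le_of_ne hP1 (Ne.symm h5), by linarith⟩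
        linarith
      have h6 : r = q := by
        by_contra h6
        have := hpos r ⟨by linarith, lt_of_le_of_ne (by linarith) h6⟩
        linarith
      rw [h5, h6] at h
      linarith
  have hDneg : det3 (c.g P) (c.g2 P) (c.g r) < 0 := by
    have : c.u P ^ 2 * det3 (c.g P) (c.g2 P) (c.g r) < 0 := by
      rw [hdeq]; nlinarith [hk P]
    by_contra h
    rw [not_lt] at h
    nlinarith
  have e1 := tcvxb_right_neg hder hDneg
  have hopen : ∀ᶠ z in nhds (P, r), 0 < dot (c.g1 z.1) (c.g z.2) :=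
    hcD.continuousAt.eventually (lt_mem_nhds hβ)
  obtain ⟨ε, hε, hεb⟩ := Metric.eventually_nhds_iff.1 hopen
  set η := min (ε / 2) (δ / 4) with hη
  have hη0 : 0 < η := lt_min (by linarith) (by linarith)
  have hη1 : η ≤ ε / 2 := min_le_left _ _
  have hη2 : η ≤ δ / 4 := min_le_right _ _
  have e2 : ∀ᶠ a in nhds P, ∀ s ∈ Icc (P + δ / 2) (r - η), 0 < c.F a s := by
    refine isCompact_Icc.eventually_forall_of_forall_eventually fun s hs' => ?_
    have : 0 < c.F P s := hrpos' s (by linarith [hs'.1]) (by linarith [hs'.2])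
    exact hcF.continuousAt.eventually (lt_mem_nhds (show 0 < c.F (P, s).1 (P, s).2 from this))
  have e3 : ∀ᶠ a in nhds P, a < P + η := gt_mem_nhds (by linarith)
  have e4 : ∃ᶠ a in nhds P, P < a := by
    have : P ∈ closure (Ioi P) := by rw [closure_Ioi]; exact le_refl P
    exact mem_closure_iff_frequently.1 this
  obtain ⟨a, ha0, ⟨ha1, ha2⟩, ha3⟩ := (e4.and_eventually ((e1.and e2).and e3)).exists
  have ha1' : c.F a r < 0 := by
    have := ha1 ha0
    simp only [hr0] at this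
    exact this
  have hapos : ∀ s, a < s → s ≤ r - η → 0 < c.F a s := by
    intro s h1 h2
    by_cases h : s ≤ a + δ
    · exact hloc a s h1.ne' (abs_le.2 ⟨by linarith, by linarith⟩)
    · exact ha2 s ⟨by linarith, h2⟩
  obtain ⟨b, hb1, hb2, hb3, hb4⟩ := tcvxb_first_zero (hcFr a) (show r - η ≤ r by linarith)
    (hapos (r - η) (by linarith) le_rfl) ha1'.le
  have hab : (a, b) ∈ T := by
    refine ⟨by simp only; linarith, by simp only; linarith, by simp only; linarith, hb3, ?_, ?_⟩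
    · intro s h1 h2
      by_cases h : s ≤ r - η
      · exact hapos s h1 h
      · exact hb4 s (by linarith) h2
    · refine hεb (y := (a, b)) ?_
      rw [Prod.dist_eq, max_lt_iff, Real.dist_eq, Real.dist_eq]
      exact ⟨abs_lt.2 ⟨by simp only; linarith, by simp only; linarith⟩,
        abs_lt.2 ⟨by simp only; linarith, by simp only; linarith⟩⟩
  have := hmax' _ hab
  simp only at this
  linarith

end Pool.Agent.Lib.MP_14b623_gt
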