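import Pool.Agent.Lib.MP_14b623_gt.CvxBasic

namespace Pool.Agent.Lib.MP_14b623_gt

open Set Real Function
open scoped ComplexConjugate InnerProductSpace

/-- Coordinates with respect to an orthonormal basis. -/
noncomputable def tglue1_co (b : OrthonormalBasis (Fin 3) ℝ E3) : E3 →L[ℝ] V :=
  ContinuousLinearMap.pi fun i => innerSL ℝ (b i)

lemma tglue1_co_apply (b : OrthonormalBasis (Fin 3) ℝ E3) (v : E3) (i : Fin 3) :
    tglue1_co b v i = ⟪b i, v⟫_ℝ := rfl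

lemma tglue1_dot (b : OrthonormalBasis (Fin 3) ℝ E3) (v w : E3) :
    dot (tglue1_co b v) (tglue1_co b w) = ⟪v, w⟫_ℝ := by
  rw [← b.sum_inner_mul_inner v w, Fin.sum_univ_three]
  simp only [dot, tglue1_co_apply, real_inner_comm v]

lemma tglue1_dT {Y : ℝ × ℝ → E3} (h : ContDiff ℝ 1 Y) (t θ : ℝ) :
    HasDerivAt (fun t => Y (t, θ)) (dT Y (t, θ)) t := by
  have h1 : HasFDerivAt Y (fderiv ℝ Y (t, θ)) (t, θ) :=
    (h.differentiable one_ne_zero (t, θ)).hasFDerivAt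
  have h2 : HasDerivAt (fun t : ℝ => (t, θ)) ((1, 0) : ℝ × ℝ) t :=
    (hasDerivAt_id t).prodMk (hasDerivAt_const t θ)
  exact h1.comp_hasDerivAt t h2

lemma tglue1_dS {Y : ℝ × ℝ → E3} (h : ContDiff ℝ 1 Y) (t θ : ℝ) :
    HasDerivAt (fun θ => Y (t, θ)) (dS Y (t, θ)) θ := by
  have h1 : HasFDerivAt Y (fderiv ℝ Y (t, θ)) (t, θ) :=
    (h.differentiable one_ne_zero (t, θ)).hasFDerivAt
  have h2 : HasDerivAt (fun θ : ℝ => (t, θ)) ((0, 1) : ℝ × ℝ) θ :=
    (hasDerivAt_const θ t).prodMk (hasDerivAt_id θ)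
  exact h1.comp_hasDerivAt θ h2

lemma tglue1_c1 {Y : ℝ × ℝ → E3} (h : ContDiff ℝ 2 Y) (v : ℝ × ℝ) :
    ContDiff ℝ 1 fun p => fderiv ℝ Y p v :=
  (h.fderiv_right (m := 1) (by norm_num)).clm_apply contDiff_const

lemma tglue1_c0 {Y : ℝ × ℝ → E3} (h : ContDiff ℝ 1 Y) (v : ℝ × ℝ) :
    Continuous fun p => fderiv ℝ Y p v :=
  (h.continuous_fderiv one_ne_zero).clm_apply continuous_const

lemma tglue1_symm {Y : ℝ × ℝ → E3} (h : ContDiff ℝ 2 Y) (p : ℝ × ℝ) :
    dT (dS Y) p = dS (dT Y) p := by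
  have hd : DifferentiableAt ℝ (fderiv ℝ Y) p :=
    (h.fderiv_right (m := 1) (by norm_num)).differentiable one_ne_zero p
  have key : ∀ v w : ℝ × ℝ, fderiv ℝ (fun q => fderiv ℝ Y q v) p w =
      fderiv ℝ (fderiv ℝ Y) p w v := by
    intro v w
    rw [fderiv_clm_apply hd (differentiableAt_const v)]
    simp
  have hs : IsSymmSndFDerivAt ℝ Y p := h.contDiffAt.isSymmSndFDerivAt (by simp)
  change fderiv ℝ (fun q => fderiv ℝ Y q (0, 1)) p (1, 0) =
    fderiv ℝ (fun q => fderiv ℝ Y q (1, 0)) p (0, 1)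
  rw [key, key, hs.eq]

lemma tglue1_per {Y : ℝ × ℝ → E3} (h : ∀ t θ : ℝ, Y (t, θ + 2 * π) = Y (t, θ)) (t θ : ℝ) :
    fderiv ℝ Y (t, θ + 2 * π) = fderiv ℝ Y (t, θ) := by
  have h1 : (fun x => Y (x + ((0 : ℝ), 2 * π))) = Y := by
    funext x
    rw [← h x.1 x.2]
    congr 1
    ext <;> simp
  have h2 := fderiv_comp_add_right (𝕜 := ℝ) (f := Y) (x := (t, θ)) ((0 : ℝ), 2 * π)
  rw [h1] at h2
  rw [h2]
  congr 1
  ext <;> simp

lemma tglue1_perT {Y : ℝ × ℝ → E3} (h : ∀ t θ : ℝ, Y (t, θ + 2 * π) = Y (t, θ)) (t θ : ℝ) :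
    dT Y (t, θ + 2 * π) = dT Y (t, θ) := by
  unfold dT
  rw [tglue1_per h]

lemma tglue1_perS {Y : ℝ × ℝ → E3} (h : ∀ t θ : ℝ, Y (t, θ + 2 * π) = Y (t, θ)) (t θ : ℝ) :
    dS Y (t, θ + 2 * π) = dS Y (t, θ) := by
  unfold dS
  rw [tglue1_per h]

lemma tglue1_zero {A B t f' : ℝ} {f : ℝ → ℝ} (hAB : A < B) (ht : t ∈ Icc A B)
    (hf : HasDerivAt f f' t) (h0 : ∀ s ∈ Icc A B, f s = 0) : f' = 0 :=
  (uniqueDiffOn_Icc hAB t ht).eq_deriv _ hf.hasDerivWithinAt
    ((hasDerivWithinAt_const t (Icc A B) (0 : ℝ)).congr h0 (h0 t ht))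

lemma tglue1_zero' {t f' : ℝ} {f : ℝ → ℝ} (hf : HasDerivAt f f' t) (h0 : ∀ s, f s = 0) :
    f' = 0 := by
  have : f = fun _ => 0 := funext h0
  rw [this] at hf
  exact hf.unique (hasDerivAt_const t 0)

lemma tglue1_pos {A B : ℝ} {X : ℝ × ℝ → E3} (h : IsFBMAnnulus A B X) (hc : IsConformal A B X)
    {p : ℝ × ℝ} (hp : p.1 ∈ Icc A B) : 0 < gE X p := by
  have h1 := h.immersion p hp
  rw [← (hc p hp).1, (hc p hp).2] at h1
  have h2 : 0 ≤ gE X p := real_inner_self_nonneg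
  rcases h2.eq_or_lt with e | e
  · rw [← e] at h1
    norm_num at h1
  · exact e

lemma tglue1_harm {A B : ℝ} {X : ℝ × ℝ → E3} (h : IsFBMAnnulus A B X) (hc : IsConformal A B X)
    {t : ℝ} (ht : t ∈ Icc A B) (θ : ℝ) : dT (dT X) (t, θ) + dS (dS X) (t, θ) = 0 := by
  have cT : ContDiff ℝ 1 (dT X) := tglue1_c1 h.smooth _
  have cS : ContDiff ℝ 1 (dS X) := tglue1_c1 h.smooth _
  have att := tglue1_dT cT t θ
  have ats := tglue1_dS cT t θ
  have ast := tglue1_dT cS t θ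
  have ass := tglue1_dS cS t θ
  rw [tglue1_symm h.smooth] at ast
  have h1 := tglue1_zero' ((ats.inner ℝ ats).fun_sub (ass.inner ℝ ass))
    (fun s => sub_eq_zero.2 (hc (t, s) ht).1)
  have h2 := tglue1_zero' (ats.inner ℝ ass) (fun s => (hc (t, s) ht).2)
  have h3 := tglue1_zero h.lt ht ((att.inner ℝ att).fun_sub (ast.inner ℝ ast))
    (fun s hs => sub_eq_zero.2 (hc (s, θ) hs).1)
  have h4 := tglue1_zero h.lt ht (att.inner ℝ ast) (fun s hs => (hc (s, θ) hs).2)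
  have hm := h.minimal (t, θ) ht (dT (dT X) (t, θ) + dS (dS X) (t, θ))
  have hE := tglue1_pos h hc (p := (t, θ)) ht
  rw [← (hc (t, θ) ht).1, (hc (t, θ) ht).2] at hm
  generalize dT (dT X) (t, θ) = xtt at *
  generalize dS (dT X) (t, θ) = xts at *
  generalize dS (dS X) (t, θ) = xss at *
  generalize dT X (t, θ) = xt at *
  generalize dS X (t, θ) = xs at *
  have e1 := real_inner_comm xt xtt
  have e2 := real_inner_comm xt xts
  have e3 := real_inner_comm xt xss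
  have e4 := real_inner_comm xs xtt
  have e5 := real_inner_comm xs xts
  have e6 := real_inner_comm xs xss
  have h5 := hm (by rw [inner_add_left]; linarith) (by rw [inner_add_left]; linarith)
  have h6 : gE X (t, θ) * ⟪xtt + xss, xtt + xss⟫_ℝ = 0 := by
    rw [inner_add_right]
    linarith
  exact inner_self_eq_zero.1 ((mul_eq_zero.1 h6).resolve_left hE.ne')

lemma tglue1_bd {A B : ℝ} {X : ℝ × ℝ → E3} (h : IsFBMAnnulus A B X) (hc : IsConformal A B X)
    {t t' : ℝ} (ht : t ∈ Icc A B) (ht' : t' ∈ Icc A B) (hb : t = A ∨ t = B) (θ : ℝ) :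
    ∃ c : ℝ, dT X (t, θ) = c • X (t, θ) ∧ |c| = ‖dT X (t, θ)‖ ∧ (t' - t) * c ≤ 0 := by
  obtain ⟨c, hc1⟩ := h.orth (t, θ) hb
  rw [(hc (t, θ) ht).2, zero_div, zero_smul, sub_zero] at hc1
  have hn := h.bdry (t, θ) hb
  refine ⟨c, hc1, by rw [hc1, norm_smul, hn, mul_one, Real.norm_eq_abs], ?_⟩
  have hd := tglue1_dT (h.smooth.of_le (by norm_num)) t θ
  have hd2 := hd.inner ℝ hd
  have hmax : IsLocalMaxOn (fun s => ⟪X (s, θ), X (s, θ)⟫_ℝ) (Icc A B) t := by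
    refine IsMaxOn.localize fun s hs => ?_
    change ⟪X (s, θ), X (s, θ)⟫_ℝ ≤ ⟪X (t, θ), X (t, θ)⟫_ℝ
    rw [real_inner_self_eq_norm_sq, real_inner_self_eq_norm_sq, hn]
    exact pow_le_pow_left₀ (norm_nonneg _) (h.inBall (s, θ) hs) 2
  have h1 := hmax.hasFDerivWithinAt_nonpos hd2.hasDerivWithinAt.hasFDerivWithinAt
    (sub_mem_posTangentConeAt_of_segment_subset ((convex_Icc A B).segment_subset ht ht'))
  rw [hc1, inner_smul_right, inner_smul_left, real_inner_self_eq_norm_sq, hn] at h1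
  simp only [ContinuousLinearMap.toSpanSingleton_apply, smul_eq_mul, conj_trivial] at h1
  linarith

theorem exists_ann0_of_basis {A B : ℝ} {X : ℝ × ℝ → E3} (h : IsFBMAnnulus A B X)
    (hc : IsConformal A B X) (b : OrthonormalBasis (Fin 3) ℝ E3) :
    ∃ S : Ann0, S.A = A ∧ S.B = B ∧ (∀ t θ i, S.Xt t θ i = ⟪b i, dT X (t, θ)⟫_ℝ) ∧
      ∀ t θ, S.u t θ = ‖dT X (t, θ)‖ := by
  have c1 : ContDiff ℝ 1 X := h.smooth.of_le (by norm_num)
  have cT : ContDiff ℝ 1 (dT X) := tglue1_c1 h.smooth _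
  have cS : ContDiff ℝ 1 (dS X) := tglue1_c1 h.smooth _
  have cL := (tglue1_co b).continuous
  have dL : ∀ {f : ℝ → E3} {f' : E3} {x : ℝ}, HasDerivAt f f' x →
      HasDerivAt (fun y => tglue1_co b (f y)) (tglue1_co b f') x :=
    fun hf => (tglue1_co b).hasFDerivAt.comp_hasDerivAt _ hf
  have pT := tglue1_perT h.periodic
  have pS := tglue1_perS h.periodic
  have mA : A ∈ Icc A B := left_mem_Icc.2 h.lt.le
  have mB : B ∈ Icc A B := right_mem_Icc.2 h.lt.le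
  refine ⟨{
    A := A
    B := B
    hAB := h.lt
    X := fun t θ => tglue1_co b (X (t, θ))
    Xt := fun t θ => tglue1_co b (dT X (t, θ))
    Xs := fun t θ => tglue1_co b (dS X (t, θ))
    Xtt := fun t θ => tglue1_co b (dT (dT X) (t, θ))
    Xts := fun t θ => tglue1_co b (dS (dT X) (t, θ))
    Xss := fun t θ => tglue1_co b (dS (dS X) (t, θ))
    u := fun t θ => ‖dT X (t, θ)‖
    cX := cL.comp c1.continuous
    cXt := cL.comp cT.continuous
    cXs := cL.comp cS.continuous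
    cXtt := cL.comp (tglue1_c0 cT _)
    cXts := cL.comp (tglue1_c0 cT _)
    cXss := cL.comp (tglue1_c0 cS _)
    cu := cT.continuous.norm
    dXt := fun t θ => dL (tglue1_dT c1 t θ)
    dXs := fun t θ => dL (tglue1_dS c1 t θ)
    dXtt := fun t θ => dL (tglue1_dT cT t θ)
    dXts := fun t θ => dL (tglue1_dS cT t θ)
    dXst := fun t θ => dL (tglue1_symm h.smooth (t, θ) ▸ tglue1_dT cS t θ)
    dXss := fun t θ => dL (tglue1_dS cS t θ)
    pX := fun t θ => congrArg (tglue1_co b) (h.periodic t θ)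
    pXt := fun t θ => congrArg (tglue1_co b) (pT t θ)
    pXs := fun t θ => congrArg (tglue1_co b) (pS t θ)
    pXtt := fun t θ => congrArg (tglue1_co b) (tglue1_perT pT t θ)
    pXts := fun t θ => congrArg (tglue1_co b) (tglue1_perS pT t θ)
    pXss := fun t θ => congrArg (tglue1_co b) (tglue1_perS pS t θ)
    pu := fun t θ => congrArg norm (pT t θ)
    upos := ?_
    eT := ?_
    eS := ?_
    eTS := ?_
    harm := ?_
    bA := ?_
    bB := ?_
    nA := ?_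
    nB := ?_ }, rfl, rfl, fun _ _ _ => rfl, fun _ _ => rfl⟩
  · intro t ht θ
    have h1 := tglue1_pos h hc (p := (t, θ)) ht
    rw [gE, real_inner_self_eq_norm_sq] at h1
    exact lt_of_le_of_ne (norm_nonneg _) fun e => by
      rw [← e] at h1
      norm_num at h1
  · intro t _ θ
    rw [tglue1_dot, real_inner_self_eq_norm_sq]
  · intro t ht θ
    rw [tglue1_dot, ← real_inner_self_eq_norm_sq]
    exact (hc (t, θ) ht).1.symm
  · intro t ht θ
    rw [tglue1_dot]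
    exact (hc (t, θ) ht).2
  · intro t ht θ
    rw [← map_add, tglue1_harm h hc ht θ, map_zero]
  · intro θ
    rw [tglue1_dot, real_inner_self_eq_norm_sq, h.bdry (A, θ) (Or.inl rfl), one_pow]
  · intro θ
    rw [tglue1_dot, real_inner_self_eq_norm_sq, h.bdry (B, θ) (Or.inr rfl), one_pow]
  · intro θ
    obtain ⟨c, h1, h2, h3⟩ := tglue1_bd h hc mA mB (Or.inl rfl) θ
    have h4 : c ≤ 0 := by
      have := h.lt
      nlinarith
    rw [← h2, abs_of_nonpos h4, h1, map_smul, neg_smul, neg_neg]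
  · intro θ
    obtain ⟨c, h1, h2, h3⟩ := tglue1_bd h hc mB mA (Or.inr rfl) θ
    have h4 : 0 ≤ c := by
      have := h.lt
      nlinarith
    rw [← h2, abs_of_nonneg h4, h1, map_smul]

end Pool.Agent.Lib.MP_14b623_gt
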