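import Pool.Agent.Lib.MP_14b623_gt.CvxBasic

namespace Pool.Agent.Lib.MP_14b623_gt

open Set Real Function
open scoped ComplexConjugate InnerProductSpace

lemma tholo_cont {f : ℝ → ℝ → V} (hf : Continuous (uncurry f)) (i : Fin 3) :
    Continuous (fun p : ℝ × ℝ => ((f p.1 p.2 i : ℝ) : ℂ)) :=
  Complex.continuous_ofReal.comp ((continuous_apply i).comp hf)

lemma tholo_contC {f : ℝ → ℝ → V} (hf : Continuous (uncurry f)) (i : Fin 3) :
    Continuous (fun z : ℂ => ((f z.re z.im i : ℝ) : ℂ)) :=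
  (tholo_cont hf i).comp (Complex.continuous_re.prodMk Complex.continuous_im)

lemma Ann0.continuous_Phi (S : Ann0) (i : Fin 3) : Continuous (S.Phi i) :=
  (tholo_contC S.cXt i).sub (continuous_const.mul (tholo_contC S.cXs i))

lemma Ann0.continuous_Phi1 (S : Ann0) (i : Fin 3) : Continuous (S.Phi1 i) :=
  (tholo_contC S.cXtt i).sub (continuous_const.mul (tholo_contC S.cXts i))

lemma tholo_re (z : ℂ) : (z + 2 * π * Complex.I).re = z.re := by simp

lemma tholo_im (z : ℂ) : (z + 2 * π * Complex.I).im = z.im + 2 * π := by simp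

lemma Ann0.Phi_periodic (S : Ann0) (i : Fin 3) (z : ℂ) :
    S.Phi i (z + 2 * π * Complex.I) = S.Phi i z := by
  simp only [Ann0.Phi, tholo_re, tholo_im]
  rw [S.pXt, S.pXs]

lemma Ann0.Phi1_periodic (S : Ann0) (i : Fin 3) (z : ℂ) :
    S.Phi1 i (z + 2 * π * Complex.I) = S.Phi1 i z := by
  simp only [Ann0.Phi1, tholo_re, tholo_im]
  rw [S.pXtt, S.pXts]

/-- Continuous directional derivatives satisfying the Cauchy-Riemann equation at a point give a
complex derivative there. -/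
lemma tholo_cr {f f1 f2 : ℝ → ℝ → ℂ} (h1 : ∀ t s, HasDerivAt (fun t => f t s) (f1 t s) t)
    (h2 : ∀ t s, HasDerivAt (f t) (f2 t s) s) (c1 : Continuous (uncurry f1))
    (c2 : Continuous (uncurry f2)) (z : ℂ) (hcr : f2 z.re z.im = Complex.I * f1 z.re z.im) :
    HasDerivAt (fun w : ℂ => f w.re w.im) (f1 z.re z.im) z := by
  have cs : Continuous (fun c : ℂ => ContinuousLinearMap.toSpanSingleton ℝ c) :=
    (ContinuousLinearMap.toSpanSingletonCLE (𝕜 := ℝ) (E := ℂ)).continuous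
  have H := hasStrictFDerivAt_uncurry_coprod (𝕜 := ℝ) (u := ((z.re, z.im) : ℝ × ℝ)) (f := f)
    (f₁ := fun t s => ContinuousLinearMap.toSpanSingleton ℝ (f1 t s))
    (f₂ := fun t s => ContinuousLinearMap.toSpanSingleton ℝ (f2 t s))
    (Filter.Eventually.of_forall fun v => (h1 v.1 v.2).hasFDerivAt)
    (Filter.Eventually.of_forall fun v => (h2 v.1 v.2).hasFDerivAt)
    (cs.comp c1).continuousAt (cs.comp c2).continuousAt
  have H2 := H.hasFDerivAt.comp z
    (Complex.equivRealProdCLM : ℂ →L[ℝ] ℝ × ℝ).hasFDerivAt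
  rw [hasDerivAt_iff_hasFDerivAt]
  refine hasFDerivAt_of_restrictScalars ℝ H2 ?_
  ext w
  have hw := Complex.re_add_im w
  simp [HasUncurry.uncurry, hcr]
  linear_combination (-f1 z.re z.im) * hw

theorem Ann0.hasDerivAt_Phi (S : Ann0) (i : Fin 3) (z : ℂ) (h1 : S.A < z.re) (h2 : z.re < S.B) :
    HasDerivAt (S.Phi i) (S.Phi1 i z) z := by
  have hh : S.Xss z.re z.im i = -S.Xtt z.re z.im i := by
    have := congrFun (S.harm z.re ⟨h1.le, h2.le⟩ z.im) i
    simp only [Pi.add_apply, Pi.zero_apply] at this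
    linarith
  refine tholo_cr (f := fun t s => (S.Xt t s i : ℂ) - Complex.I * (S.Xs t s i : ℂ))
    (f1 := fun t s => (S.Xtt t s i : ℂ) - Complex.I * (S.Xts t s i : ℂ))
    (f2 := fun t s => (S.Xts t s i : ℂ) - Complex.I * (S.Xss t s i : ℂ)) ?_ ?_ ?_ ?_ z ?_
  · intro t s
    exact (hasDerivAt_coord (S.dXtt t s) i).ofReal_comp.fun_sub
      ((hasDerivAt_coord (S.dXst t s) i).ofReal_comp.const_mul Complex.I)
  · intro t s
    exact (hasDerivAt_coord (S.dXts t s) i).ofReal_comp.fun_sub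
      ((hasDerivAt_coord (S.dXss t s) i).ofReal_comp.const_mul Complex.I)
  · exact (tholo_cont S.cXtt i).sub (continuous_const.mul (tholo_cont S.cXts i))
  · exact (tholo_cont S.cXts i).sub (continuous_const.mul (tholo_cont S.cXss i))
  · simp only [hh]
    push_cast
    linear_combination (S.Xts z.re z.im i : ℂ) * Complex.I_mul_I

theorem Ann0.differentiableOn_Phi1 (S : Ann0) (i : Fin 3) :
    DifferentiableOn ℂ (S.Phi1 i) {z | S.A < z.re ∧ z.re < S.B} := by
  have ho : IsOpen {z : ℂ | S.A < z.re ∧ z.re < S.B} :=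
    (isOpen_lt continuous_const Complex.continuous_re).inter
      (isOpen_lt Complex.continuous_re continuous_const)
  have hd : DifferentiableOn ℂ (S.Phi i) {z | S.A < z.re ∧ z.re < S.B} := fun z hz =>
    (S.hasDerivAt_Phi i z hz.1 hz.2).differentiableAt.differentiableWithinAt
  refine (hd.deriv ho).congr fun z hz => ?_
  exact (S.hasDerivAt_Phi i z hz.1 hz.2).deriv.symm

theorem strip_max {f : ℂ → ℂ} {A B C : ℝ} (hc : Continuous f)
    (hd : DifferentiableOn ℂ f {z | A < z.re ∧ z.re < B})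
    (hp : ∀ z, f (z + 2 * π * Complex.I) = f z)
    (hA : ∀ z : ℂ, z.re = A → ‖f z‖ ≤ C) (hB : ∀ z : ℂ, z.re = B → ‖f z‖ ≤ C)
    (z : ℂ) (h1 : A ≤ z.re) (h2 : z.re ≤ B) : ‖f z‖ ≤ C := by
  rcases (h1.trans h2).eq_or_lt with hAB | hAB
  · exact hA z (le_antisymm (hAB ▸ h2) h1)
  have hK : IsCompact (Icc A B ×ℂ Icc (0 : ℝ) (2 * π)) := isCompact_Icc.reProdIm isCompact_Icc
  obtain ⟨M, hM⟩ := hK.exists_bound_of_continuousOn hc.continuousOn
  have hper : ∀ t : ℝ, Periodic (fun s : ℝ => f (t + s * Complex.I)) (2 * π) := by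
    intro t s
    have := hp (t + s * Complex.I)
    simp only
    rw [← this]
    congr 1
    push_cast
    ring
  have hbd : ∀ w : ℂ, A ≤ w.re → w.re ≤ B → ‖f w‖ ≤ M := by
    intro w hw1 hw2
    obtain ⟨s, hs, hs'⟩ := (hper w.re).exists_mem_Ico₀ two_pi_pos w.im
    simp only [Complex.re_add_im] at hs'
    rw [hs']
    refine hM _ ?_
    rw [Complex.mem_reProdIm]
    refine ⟨by simpa using ⟨hw1, hw2⟩, by simpa using ⟨hs.1, hs.2.le⟩⟩
  refine PhragmenLindelof.vertical_strip (a := A) (b := B) ⟨hd, hc.continuousOn⟩ ?_ hA hB h1 h2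
  refine ⟨0, div_pos pi_pos (sub_pos.2 hAB), 0, ?_⟩
  refine Asymptotics.IsBigO.of_bound M ?_
  refine Filter.Eventually.filter_mono inf_le_right ?_
  rw [Filter.eventually_principal]
  intro w hw
  simpa using hbd w hw.1.le hw.2.le

end Pool.Agent.Lib.MP_14b623_gt
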