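import Pool.Agent.Lib.MP_14b623_gt.CvxBasic

namespace Pool.Agent.Lib.MP_14b623_gt

open Set Real Function
open scoped ComplexConjugate InnerProductSpace

lemma SCurve.len_pos (c : SCurve) : 0 < c.len := by
  unfold SCurve.len av
  exact div_pos (intervalIntegral.intervalIntegral_pos_of_pos (c.cu.intervalIntegrable _ _)
    c.upos two_pi_pos) two_pi_pos

/-- The normalised arc length function. -/
lemma trepar_arc (c : SCurve) : ∃ S : ℝ → ℝ, (∀ t, HasDerivAt S (c.u t / c.len) t) ∧ S 0 = 0 ∧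
    ∀ t, S (t + 2 * π) = S t + 2 * π := by
  have hl := c.len_pos
  refine ⟨fun t => (∫ x in (0 : ℝ)..t, c.u x) / c.len, fun t => ?_, by simp, fun t => ?_⟩
  · exact (c.cu.integral_hasStrictDerivAt 0 t).hasDerivAt.div_const _
  · have h1 : ∫ x in (0 : ℝ)..(2 * π), c.u x = c.len * (2 * π) := by
      unfold SCurve.len av
      rw [div_mul_cancel₀ _ two_pi_pos.ne']
    have h2 := c.pu.intervalIntegral_add_eq t 0
    rw [zero_add, h1] at h2
    beta_reduce
    rw [← intervalIntegral.integral_add_adjacent_intervals (b := t) (c.cu.intervalIntegrable _ _)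
      (c.cu.intervalIntegrable _ _), h2, add_div, mul_div_cancel_left₀ _ hl.ne']

/-- Its inverse. -/
lemma trepar_inv (c : SCurve) : ∃ S ϑ : ℝ → ℝ, (∀ t, HasDerivAt S (c.u t / c.len) t) ∧ S 0 = 0 ∧
    (∀ t, S (t + 2 * π) = S t + 2 * π) ∧ (∀ t, ϑ (S t) = t) ∧ (∀ σ, S (ϑ σ) = σ) ∧
    StrictMono ϑ ∧ ∀ σ, HasDerivAt ϑ (c.len / c.u (ϑ σ)) σ := by
  obtain ⟨S, hS, h0, hp⟩ := trepar_arc c
  have hl := c.len_pos
  have hpos : ∀ t, 0 < c.u t / c.len := fun t => div_pos (c.upos t) hl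
  have hm : StrictMono S := strictMono_of_deriv_pos fun t => by rw [(hS t).deriv]; exact hpos t
  have hc : Continuous S := continuous_iff_continuousAt.2 fun t => (hS t).continuousAt
  have hper : Periodic (fun t => S t - t) (2 * π) := fun t => by
    beta_reduce
    rw [hp]; ring
  have hn : ∀ n : ℤ, S (n * (2 * π)) = n * (2 * π) := fun n => by
    have := hper.int_mul_eq n
    beta_reduce at this
    rw [h0] at this
    linarith
  have hsurj : Surjective S := by
    refine hc.surjective (hm.monotone.tendsto_atTop_atTop fun b => ?_)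
      (hm.monotone.tendsto_atBot_atBot fun b => ?_)
    · refine ⟨_, le_of_le_of_eq ?_ (hn ⌈b / (2 * π)⌉).symm⟩
      exact (div_le_iff₀ two_pi_pos).1 (Int.le_ceil _)
    · refine ⟨_, (hn ⌊b / (2 * π)⌋).trans_le ?_⟩
      exact (le_div_iff₀ two_pi_pos).1 (Int.floor_le _)
  let e : ℝ ≃o ℝ := hm.orderIsoOfSurjective S hsurj
  have h1 : ∀ σ, S (e.symm σ) = σ := fun σ => e.apply_symm_apply σ
  refine ⟨S, e.symm, hS, h0, hp, fun t => e.symm_apply_apply t, h1, e.symm.strictMono,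
    fun σ => ?_⟩
  have := HasDerivAt.of_local_left_inverse e.symm.continuous.continuousAt (hS (e.symm σ))
    (hpos _).ne' (Filter.Eventually.of_forall h1)
  rwa [inv_div] at this

theorem SCurve.exists_repar (c : SCurve) : ∃ (d : SCurve) (ϑ : ℝ → ℝ),
    (∀ σ, d.u σ = c.len) ∧ StrictMono ϑ ∧ Surjective ϑ ∧ ϑ 0 = 0 ∧
    (∀ σ, ϑ (σ + 2 * π) = ϑ σ + 2 * π) ∧ (∀ σ, d.g σ = c.g (ϑ σ)) ∧
    (∀ σ, d.g1 σ = (c.len / c.u (ϑ σ)) • c.g1 (ϑ σ)) ∧
    (∀ σ, d.kap σ = (c.len / c.u (ϑ σ)) ^ 3 * c.kap (ϑ σ)) ∧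
    ∀ f : ℝ → ℝ, Continuous f → av (fun θ => c.u θ * f θ) = c.len * av fun σ => f (ϑ σ) := by
  obtain ⟨S, ϑ, hS, h0, hp, hl, hr, hm, hd⟩ := trepar_inv c
  have hlen := c.len_pos
  have hc : Continuous ϑ := continuous_iff_continuousAt.2 fun σ => (hd σ).continuousAt
  have hper : ∀ σ, ϑ (σ + 2 * π) = ϑ σ + 2 * π := fun σ => by
    conv_lhs => rw [← hr σ, ← hp, hl]
  have hne : ∀ t, c.u t ≠ 0 := fun t => (c.upos t).ne'
  have c1 := c.c1
  have c2 := c.c2
  have cu := c.cu
  let d : SCurve :=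
    { g := fun σ => c.g (ϑ σ)
      g1 := fun σ => (c.len / c.u (ϑ σ)) • c.g1 (ϑ σ)
      g2 := fun σ => (c.len / c.u (ϑ σ)) ^ 2 • c.g2 (ϑ σ) -
        (c.len ^ 2 * dot (c.g1 (ϑ σ)) (c.g2 (ϑ σ)) / c.u (ϑ σ) ^ 4) • c.g1 (ϑ σ)
      u := fun _ => c.len
      d1 := fun σ => (c.d1 (ϑ σ)).scomp σ (hd σ)
      d2 := fun σ => by
        have h1 : HasDerivAt (fun σ => c.u (ϑ σ)) _ σ := (c.hasDerivAt_u (ϑ σ)).comp σ (hd σ)
        have h2 := (hasDerivAt_const σ c.len).fun_div h1 (hne _)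
        have h3 : HasDerivAt (fun σ => c.g1 (ϑ σ)) _ σ := (c.d2 (ϑ σ)).scomp σ (hd σ)
        refine (h2.fun_smul h3).congr_deriv ?_
        have := hne (ϑ σ)
        funext i
        simp only [Pi.add_apply, Pi.sub_apply, Pi.smul_apply, smul_eq_mul]
        field_simp
        ring
      c2 := by
        refine Continuous.sub (Continuous.smul (Continuous.pow (continuous_const.div
          (cu.comp hc) fun σ => hne _) 2) (c2.comp hc)) (Continuous.smul (Continuous.div
            (continuous_const.mul (continuous_dot (c1.comp hc) (c2.comp hc)))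
            ((cu.comp hc).pow 4) fun σ => pow_ne_zero 4 (hne _)) (c1.comp hc))
      cu := continuous_const
      p0 := fun σ => by simp only [hper, c.p0 _]
      p1 := fun σ => by simp only [hper, c.p1 _, c.pu _]
      p2 := fun σ => by simp only [hper, c.p1 _, c.p2 _, c.pu _]
      pu := fun _ => rfl
      sph := fun σ => c.sph _
      upos := fun _ => hlen
      speed := fun σ => by
        have h1 : dot ((c.len / c.u (ϑ σ)) • c.g1 (ϑ σ)) ((c.len / c.u (ϑ σ)) • c.g1 (ϑ σ)) =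
            (c.len / c.u (ϑ σ)) ^ 2 * dot (c.g1 (ϑ σ)) (c.g1 (ϑ σ)) := by
          simp only [dot, Pi.smul_apply, smul_eq_mul]
          ring
        rw [h1, c.speed, div_pow, div_mul_cancel₀ _ (pow_ne_zero 2 (hne _))] }
  refine ⟨d, ϑ, fun _ => rfl, hm, fun t => ⟨S t, hl t⟩, ?_, hper, fun _ => rfl, fun _ => rfl,
    fun σ => ?_, fun f hf => ?_⟩
  · conv_lhs => rw [← h0, hl]
  · simp only [SCurve.kap, d, det3, Pi.sub_apply, Pi.smul_apply, smul_eq_mul]
    ring
  · have h1 := intervalIntegral.integral_comp_mul_deriv (a := 0) (b := 2 * π)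
      (g := fun σ => f (ϑ σ)) (fun t _ => hS t) (cu.div_const _).continuousOn (hf.comp hc)
    have h2 : S (2 * π) = 2 * π := by
      have := hp 0
      rwa [zero_add, h0, zero_add] at this
    rw [h0, h2] at h1
    unfold av
    rw [← h1, ← mul_div_assoc, ← intervalIntegral.integral_const_mul]
    congr 2
    funext t
    simp only [comp_apply, hl]
    field_simp

end Pool.Agent.Lib.MP_14b623_gt
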