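import Pool.Agent.Lib.MP_14b623_gt.CvxBasic

namespace Pool.Agent.Lib.MP_14b623_gt

open Set Real Function
open scoped ComplexConjugate InnerProductSpace

lemma tseqh_split {E : Type} [NormedAddCommGroup E] {f : ℤ → E} {s : E} (h : HasSum f s) :
    HasSum (fun n : ℕ => f (n + 1) + f (-n - 2)) (s - (f 0 + f (-1))) := by
  have h1 := (hasSum_nat_add_iff' 1).2 h.nat_add_neg_add_one
  simp only [Finset.range_one, Finset.sum_singleton, Nat.cast_zero, zero_add] at h1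
  have e : (fun n : ℕ => f (n + 1) + f (-n - 2)) =
      fun n : ℕ => f ((n + 1 : ℕ) : ℤ) + f (-(((n + 1 : ℕ) : ℤ) + 1)) := by
    funext n
    congr 2
    push_cast
    ring
  rw [e]
  exact h1

lemma tseqh_core (k A B p q x y : ℝ) (hx : 0 ≤ x) (hy : 0 ≤ y) :
    2 * (p * q) * Gam x y (cosh (k * (B - A))) ≤
      x * (p ^ 2 * Real.exp (k * A) + q ^ 2 * Real.exp (-(k * A))) +
        y * (p ^ 2 * Real.exp (k * B) + q ^ 2 * Real.exp (-(k * B))) := by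
  have ha : 0 ≤ x * Real.exp (k * A) + y * Real.exp (k * B) := by positivity
  have hb : 0 ≤ x * Real.exp (-(k * A)) + y * Real.exp (-(k * B)) := by positivity
  have e1 : Real.exp (k * A) * Real.exp (-(k * A)) = 1 := by rw [← Real.exp_add]; simp
  have e2 : Real.exp (k * B) * Real.exp (-(k * B)) = 1 := by rw [← Real.exp_add]; simp
  have e3 : Real.exp (k * (B - A)) = Real.exp (k * B) * Real.exp (-(k * A)) := by
    rw [← Real.exp_add]; congr 1; ring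
  have e4 : Real.exp (-(k * (B - A))) = Real.exp (k * A) * Real.exp (-(k * B)) := by
    rw [← Real.exp_add]; congr 1; ring
  have e : Gam x y (cosh (k * (B - A))) = √(x * Real.exp (k * A) + y * Real.exp (k * B)) *
      √(x * Real.exp (-(k * A)) + y * Real.exp (-(k * B))) := by
    rw [← Real.sqrt_mul ha, Gam, Real.cosh_eq, e3, e4]
    congr 1
    linear_combination (-x ^ 2) * e1 - y ^ 2 * e2
  rw [e]
  have s1 := Real.sq_sqrt ha
  have s2 := Real.sq_sqrt hb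
  generalize √(x * Real.exp (k * A) + y * Real.exp (k * B)) = u at s1 ⊢
  generalize √(x * Real.exp (-(k * A)) + y * Real.exp (-(k * B))) = v at s2 ⊢
  have h := sq_nonneg (p * u - q * v)
  have e5 : x * (p ^ 2 * Real.exp (k * A) + q ^ 2 * Real.exp (-(k * A))) +
      y * (p ^ 2 * Real.exp (k * B) + q ^ 2 * Real.exp (-(k * B))) = p ^ 2 * u ^ 2 + q ^ 2 * v ^ 2 := by
    rw [s1, s2]; ring
  rw [e5]
  nlinarith

lemma tseqh_cs (p q r s : ℝ) : p * r + q * s ≤ √(p ^ 2 + q ^ 2) * √(r ^ 2 + s ^ 2) := by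
  rw [← Real.sqrt_mul (by positivity)]
  exact Real.le_sqrt_of_sq_le (by nlinarith [sq_nonneg (p * s - q * r)])

lemma tseqh_high {t l : ℝ} {a b : ℤ → ℂ}
    (h : HasSum (fun n : ℤ => (‖a n‖ ^ 2 + ‖b n‖ ^ 2) * Real.exp ((2 * (n : ℝ) + 1) * t)) l) :
    HasSum (fun n : ℕ =>
      √(‖a (n + 1)‖ ^ 2 + ‖b (n + 1)‖ ^ 2) ^ 2 * Real.exp ((2 * (n : ℝ) + 3) * t) +
      √(‖a (-n - 2)‖ ^ 2 + ‖b (-n - 2)‖ ^ 2) ^ 2 * Real.exp (-((2 * (n : ℝ) + 3) * t)))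
      (l - mainM a b t - (‖a 0‖ ^ 2 * Real.exp t + ‖b (-1)‖ ^ 2 * Real.exp (-t))) := by
  have h1 := tseqh_split h
  convert h1 using 1
  · rfl
  · funext n
    rw [Real.sq_sqrt (by positivity), Real.sq_sqrt (by positivity)]
    congr 3 <;> push_cast <;> ring
  · have e1 : (2 * ((0 : ℤ) : ℝ) + 1) * t = t := by push_cast; ring
    have e2 : (2 * ((-1 : ℤ) : ℝ) + 1) * t = -t := by push_cast; ring
    rw [e1, e2, mainM]
    ring

theorem SeqD.summable_high {A B φ lA lB : ℝ} {a b : ℤ → ℂ} (h : SeqD A B φ lA lB a b) :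
    Summable fun n : ℕ =>
      √(‖a (n + 1)‖ ^ 2 + ‖b (n + 1)‖ ^ 2) * √(‖a (-n - 2)‖ ^ 2 + ‖b (-n - 2)‖ ^ 2) := by
  refine Summable.of_nonneg_of_le (fun n => by positivity) (fun n => ?_) (tseqh_high h.sB).summable
  have h1 := tseqh_core (2 * (n : ℝ) + 3) B B (√(‖a (n + 1)‖ ^ 2 + ‖b (n + 1)‖ ^ 2))
    (√(‖a (-n - 2)‖ ^ 2 + ‖b (-n - 2)‖ ^ 2)) 0 1 le_rfl zero_le_one
  have e : Gam 0 1 (cosh ((2 * (n : ℝ) + 3) * (B - B))) = 1 := by simp [Gam]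
  rw [e] at h1
  have h2 : 0 ≤ √(‖a (n + 1)‖ ^ 2 + ‖b (n + 1)‖ ^ 2) * √(‖a (-n - 2)‖ ^ 2 + ‖b (-n - 2)‖ ^ 2) := by
    positivity
  linarith

lemma tseqh_small {a : ℤ → ℂ} (h : HasSum (fun n : ℤ => a n * a (-n - 1)) 0)
    (hs : Summable fun n : ℕ => ‖a (n + 1)‖ * ‖a (-n - 2)‖) :
    ‖a 0‖ * ‖a (-1)‖ ≤ ∑' n : ℕ, ‖a (n + 1)‖ * ‖a (-n - 2)‖ := by
  have h1 := (tseqh_split h).norm_le_of_bounded (hs.hasSum.mul_left 2) (fun n => by
    have e1 : -((n : ℤ) + 1) - 1 = -n - 2 := by ring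
    have e2 : -(-(n : ℤ) - 2) - 1 = n + 1 := by ring
    rw [e1, e2, mul_comm (a (-n - 2)), ← two_mul, norm_mul, norm_mul, Complex.norm_two])
  have e1 : -(0 : ℤ) - 1 = -1 := by ring
  have e2 : -(-1 : ℤ) - 1 = 0 := by ring
  rw [e1, e2, zero_sub, norm_neg, mul_comm (a (-1)), ← two_mul, norm_mul, norm_mul,
    Complex.norm_two] at h1
  linarith

theorem SeqD.small_le {A B φ lA lB : ℝ} {a b : ℤ → ℂ} (h : SeqD A B φ lA lB a b) :
    ‖a 0‖ * ‖a (-1)‖ + ‖b 0‖ * ‖b (-1)‖ ≤ highY a b := by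
  have hs := h.summable_high
  have hc : ∀ n : ℕ, ‖a (n + 1)‖ * ‖a (-n - 2)‖ + ‖b (n + 1)‖ * ‖b (-n - 2)‖ ≤
      √(‖a (n + 1)‖ ^ 2 + ‖b (n + 1)‖ ^ 2) * √(‖a (-n - 2)‖ ^ 2 + ‖b (-n - 2)‖ ^ 2) :=
    fun n => tseqh_cs _ _ _ _
  have ha : Summable fun n : ℕ => ‖a (n + 1)‖ * ‖a (-n - 2)‖ :=
    Summable.of_nonneg_of_le (fun n => by positivity)
      (fun n => le_trans (le_add_of_nonneg_right (by positivity)) (hc n)) hs
  have hb : Summable fun n : ℕ => ‖b (n + 1)‖ * ‖b (-n - 2)‖ :=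
    Summable.of_nonneg_of_le (fun n => by positivity)
      (fun n => le_trans (le_add_of_nonneg_left (by positivity)) (hc n)) hs
  have h1 := hasSum_le hc (ha.hasSum.add hb.hasSum) hs.hasSum
  have h2 := tseqh_small h.s11 ha
  have h3 := tseqh_small h.s22 hb
  unfold highY
  linarith

lemma tseqh_main {t l : ℝ} {a b : ℤ → ℂ}
    (h : HasSum (fun n : ℤ => (‖a n‖ ^ 2 + ‖b n‖ ^ 2) * Real.exp ((2 * (n : ℝ) + 1) * t)) l) :
    mainM a b t ≤ l := by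
  have h1 := (tseqh_high h).nonneg (fun n => by positivity)
  have h2 : 0 ≤ ‖a 0‖ ^ 2 * Real.exp t + ‖b (-1)‖ ^ 2 * Real.exp (-t) := by positivity
  linarith

theorem SeqD.mainM_le {A B φ lA lB : ℝ} {a b : ℤ → ℂ} (h : SeqD A B φ lA lB a b) :
    mainM a b A ≤ lA ∧ mainM a b B ≤ lB := ⟨tseqh_main h.sA, tseqh_main h.sB⟩

theorem SeqD.flux_le {A B φ lA lB : ℝ} {a b : ℤ → ℂ} (h : SeqD A B φ lA lB a b) :
    φ ≤ 2 * (‖a (-1)‖ * ‖b 0‖) + 2 * (‖a 0‖ * ‖b (-1)‖) + 2 * highY a b := by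
  have h1 := (tseqh_split h.s12).norm_le_of_bounded (h.summable_high.hasSum.mul_left 2) (fun n => by
    have e1 : -((n : ℤ) + 1) - 1 = -n - 2 := by ring
    have e2 : -(-(n : ℤ) - 2) - 1 = n + 1 := by ring
    rw [e1, e2]
    refine (norm_add_le _ _).trans ?_
    have h2 := tseqh_cs ‖a (n + 1)‖ ‖b (n + 1)‖ ‖b (-n - 2)‖ ‖a (-n - 2)‖
    rw [add_comm (‖b (-n - 2)‖ ^ 2)] at h2
    simp only [norm_mul, Complex.norm_two]
    linarith)
  have e1 : -(0 : ℤ) - 1 = -1 := by ring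
  have e2 : -(-1 : ℤ) - 1 = 0 := by ring
  rw [e1, e2] at h1
  have h2 : ‖(φ : ℂ)‖ ≤ ‖(φ : ℂ) - (2 * a (-1) * b 0 + 2 * a 0 * b (-1))‖ +
      (‖2 * a (-1) * b 0‖ + ‖2 * a 0 * b (-1)‖) := by
    refine le_trans ?_ (add_le_add_right (norm_add_le _ _) _)
    simpa using norm_add_le ((φ : ℂ) - (2 * a (-1) * b 0 + 2 * a 0 * b (-1)))
      (2 * a (-1) * b 0 + 2 * a 0 * b (-1))
  simp only [norm_mul, Complex.norm_two, Complex.norm_real, Real.norm_eq_abs] at h2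
  have h3 := le_abs_self φ
  unfold highY
  linarith

theorem main_budget (A B : ℝ) (a b : ℤ → ℂ) (x y : ℝ) (hx : 0 ≤ x) (hy : 0 ≤ y) :
    2 * (‖a (-1)‖ * ‖b 0‖) * Gam x y (cosh (B - A)) ≤ x * mainM a b A + y * mainM a b B := by
  have h := tseqh_core 1 A B ‖b 0‖ ‖a (-1)‖ x y hx hy
  simp only [one_mul] at h
  rw [mul_comm ‖a (-1)‖]
  exact h

theorem SeqD.rest_budget {A B φ lA lB : ℝ} {a b : ℤ → ℂ} (h : SeqD A B φ lA lB a b)
    (hAB : A < B) (x y : ℝ) (hx : 0 ≤ x) (hy : 0 ≤ y) :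
    2 * (‖a 0‖ * ‖b (-1)‖) * Gam x y (cosh (B - A)) + 2 * highY a b * Gam x y (cosh (3 * (B - A)))
      ≤ x * (lA - mainM a b A) + y * (lB - mainM a b B) := by
  have h1 := tseqh_core 1 A B ‖a 0‖ ‖b (-1)‖ x y hx hy
  simp only [one_mul] at h1
  have h2 := hasSum_le (fun n => ?_)
    ((h.summable_high.hasSum.mul_left 2).mul_right (Gam x y (cosh (3 * (B - A)))))
    (((tseqh_high h.sA).mul_left x).add ((tseqh_high h.sB).mul_left y))
  · unfold highY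
    linarith
  · refine le_trans (mul_le_mul_of_nonneg_left ?_ (by positivity)) (tseqh_core _ _ _ _ _ _ _ hx hy)
    have hn : (0 : ℝ) ≤ n := Nat.cast_nonneg n
    have h3 : cosh (3 * (B - A)) ≤ cosh ((2 * (n : ℝ) + 3) * (B - A)) := by
      rw [Real.cosh_le_cosh, abs_of_nonneg (by linarith), abs_of_nonneg (by nlinarith)]
      nlinarith
    have h4 : 0 ≤ 2 * x * y := by positivity
    exact Real.sqrt_le_sqrt (by nlinarith)

end Pool.Agent.Lib.MP_14b623_gt
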