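import Pool.Agent.Lib.MP_14b623_gt.THolo

namespace Pool.Agent.Lib.MP_14b623_gt

open Set Real Function
open scoped ComplexConjugate InnerProductSpace

/-- A spinor representation of `Φ` on the closed strip, with monodromy `ε`. -/
structure Ann0.IsPsi (S : Ann0) (ψ₁ ψ₂ : ℂ → ℂ) (ε : ℂ) : Prop where
  c1 : Continuous ψ₁
  c2 : Continuous ψ₂
  d1 : DifferentiableOn ℂ ψ₁ {z | S.A < z.re ∧ z.re < S.B}
  d2 : DifferentiableOn ℂ ψ₂ {z | S.A < z.re ∧ z.re < S.B}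
  e1 : ∀ z : ℂ, z.re ∈ Icc S.A S.B → ψ₁ z ^ 2 = (S.Phi 0 z - Complex.I * S.Phi 1 z) / 2
  e2 : ∀ z : ℂ, z.re ∈ Icc S.A S.B → ψ₂ z ^ 2 = -(S.Phi 0 z + Complex.I * S.Phi 1 z) / 2
  e3 : ∀ z : ℂ, z.re ∈ Icc S.A S.B → 2 * ψ₁ z * ψ₂ z = S.Phi 2 z
  hu : ∀ z : ℂ, z.re ∈ Icc S.A S.B → ‖ψ₁ z‖ ^ 2 + ‖ψ₂ z‖ ^ 2 = S.u z.re z.im
  p1 : ∀ z : ℂ, z.re ∈ Icc S.A S.B → ψ₁ (z + 2 * π * Complex.I) = ε * ψ₁ z
  p2 : ∀ z : ℂ, z.re ∈ Icc S.A S.B → ψ₂ (z + 2 * π * Complex.I) = ε * ψ₂ z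

lemma tspin1_diff_of_exp {O : Set ℂ} (hO : IsOpen O) {l h : ℂ → ℂ}
    (hl : Continuous l) (hh : DifferentiableOn ℂ h O)
    (he : ∀ z ∈ O, Complex.exp (l z) = h z) : DifferentiableOn ℂ l O := by
  intro z hz
  have h0 : h z ≠ 0 := he z hz ▸ Complex.exp_ne_zero _
  have h1 : DifferentiableAt ℂ (fun w => l z + Complex.log (h w / h z)) z :=
    (((hh.differentiableAt (hO.mem_nhds hz)).div_const _).clog (by simp [h0])).const_add _
  refine (h1.congr_of_eventuallyEq ?_).differentiableWithinAt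
  have h2 : ∀ᶠ w in nhds z, ‖l w - l z‖ < Real.pi := by
    have := hl.continuousAt.eventually (Metric.ball_mem_nhds (l z) Real.pi_pos)
    simpa only [Metric.mem_ball, dist_eq_norm] using this
  filter_upwards [h2, hO.mem_nhds hz] with w h3 hw
  have h4 := abs_lt.1 ((Complex.abs_im_le_norm _).trans_lt h3)
  rw [← he w hw, ← he z hz, ← Complex.exp_sub, Complex.log_exp h4.1 h4.2.le]
  ring

lemma tspin1_exists_log {h : ℂ → ℂ} (hc : Continuous h) (h0 : ∀ z, h z ≠ 0) :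
    ∃ l : ℂ → ℂ, Continuous l ∧ ∀ z, Complex.exp (l z) = h z := by
  have := (convex_univ : Convex ℝ (univ : Set ℂ)).contractibleSpace univ_nonempty
  obtain ⟨l, hl, el⟩ := Complex.exists_continuousOn_eqOn_exp_comp (U := (univ : Set ℂ))
    (inferInstanceAs (SimplyConnectedSpace (univ : Set ℂ))) isOpen_univ hc.continuousOn (by
      rintro ⟨z, -, h1⟩
      exact h0 z h1)
  exact ⟨l, continuousOn_univ.1 hl, fun z => el (mem_univ z)⟩

lemma tspin1_lower {f : ℝ → ℝ} (hc : Continuous f) (hp : Periodic f (2 * π))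
    (h0 : ∀ θ, 0 < f θ) : ∃ m, 0 < m ∧ ∀ θ, m ≤ f θ := by
  obtain ⟨m, ⟨θ₀, rfl⟩, hm⟩ :=
    (hp.compact_of_continuous two_pi_pos.ne' hc).exists_isLeast (range_nonempty f)
  exact ⟨f θ₀, h0 θ₀, fun θ => hm ⟨θ, rfl⟩⟩

lemma tspin1_re (S : Ann0) (i : Fin 3) (z : ℂ) : (S.Phi i z).re = S.Xt z.re z.im i := by
  simp [Ann0.Phi]

lemma tspin1_im (S : Ann0) (i : Fin 3) (z : ℂ) : (S.Phi i z).im = -S.Xs z.re z.im i := by
  simp [Ann0.Phi]

lemma tspin1_diffOn (S : Ann0) (i : Fin 3) :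
    DifferentiableOn ℂ (S.Phi i) {z | S.A < z.re ∧ z.re < S.B} := fun z hz =>
  (S.hasDerivAt_Phi i z hz.1 hz.2).differentiableAt.differentiableWithinAt

lemma tspin1_ne (S : Ann0) (hA : ∀ θ, 0 < S.Xt S.A θ 2) (hB : ∀ θ, 0 < S.Xt S.B θ 2) {z : ℂ}
    (hz : z.re ∈ Icc S.A S.B) : S.Phi 2 z ≠ 0 := by
  obtain ⟨m, hm, hm'⟩ := tspin1_lower (f := fun θ => S.Xt S.A θ 2)
    ((continuous_apply 2).comp (S.cXt.uncurry_left _)) (fun θ => congrFun (S.pXt _ θ) 2) hA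
  obtain ⟨n, hn, hn'⟩ := tspin1_lower (f := fun θ => S.Xt S.B θ 2)
    ((continuous_apply 2).comp (S.cXt.uncurry_left _)) (fun θ => congrFun (S.pXt _ θ) 2) hB
  have h1 := strip_max (f := fun z => Complex.exp (-S.Phi 2 z)) (A := S.A) (B := S.B)
    (C := Real.exp (-min m n)) (S.continuous_Phi 2).neg.cexp (tspin1_diffOn S 2).neg.cexp
    (fun z => by simp only [S.Phi_periodic])
    (fun w hw => by
      rw [Complex.norm_exp, Complex.neg_re, tspin1_re, hw]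
      exact exp_le_exp.2 (neg_le_neg ((min_le_left _ _).trans (hm' _))))
    (fun w hw => by
      rw [Complex.norm_exp, Complex.neg_re, tspin1_re, hw]
      exact exp_le_exp.2 (neg_le_neg ((min_le_right _ _).trans (hn' _)))) z hz.1 hz.2
  intro h0
  rw [h0, neg_zero, Complex.exp_zero, norm_one, one_le_exp_iff] at h1
  have := lt_min hm hn
  linarith

lemma tspin1_null (S : Ann0) {z : ℂ} (hz : z.re ∈ Icc S.A S.B) :
    S.Phi 0 z ^ 2 + S.Phi 1 z ^ 2 + S.Phi 2 z ^ 2 = 0 := by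
  have h1 := congrArg ((↑) : ℝ → ℂ) (S.eT _ hz z.im)
  have h2 := congrArg ((↑) : ℝ → ℂ) (S.eS _ hz z.im)
  have h3 := congrArg ((↑) : ℝ → ℂ) (S.eTS _ hz z.im)
  simp only [dot] at h1 h2 h3
  push_cast at h1 h2 h3
  simp only [Ann0.Phi]
  linear_combination h1 - h2 - 2 * Complex.I * h3 + ((S.Xs z.re z.im 0 : ℂ) ^ 2 +
    (S.Xs z.re z.im 1 : ℂ) ^ 2 + (S.Xs z.re z.im 2 : ℂ) ^ 2) * Complex.I_sq

lemma tspin1_prod (S : Ann0) {z : ℂ} (hz : z.re ∈ Icc S.A S.B) :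
    (S.Phi 0 z - Complex.I * S.Phi 1 z) / 2 * (-(S.Phi 0 z + Complex.I * S.Phi 1 z) / 2) =
      S.Phi 2 z ^ 2 / 4 := by
  linear_combination (-1 / 4 : ℂ) * tspin1_null S hz + S.Phi 1 z ^ 2 / 4 * Complex.I_sq

lemma tspin1_norm (S : Ann0) {z : ℂ} (hz : z.re ∈ Icc S.A S.B) {a b : ℂ}
    (h1 : a ^ 2 = (S.Phi 0 z - Complex.I * S.Phi 1 z) / 2)
    (h2 : b ^ 2 = -(S.Phi 0 z + Complex.I * S.Phi 1 z) / 2) (h3 : 2 * a * b = S.Phi 2 z) :
    ‖a‖ ^ 2 + ‖b‖ ^ 2 = S.u z.re z.im := by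
  have k1 : (‖a‖ ^ 2) ^ 2 = ((S.Xt z.re z.im 0 - S.Xs z.re z.im 1) ^ 2 +
      (S.Xs z.re z.im 0 + S.Xt z.re z.im 1) ^ 2) / 4 := by
    rw [← norm_pow, h1, Complex.sq_norm, Complex.normSq_apply]
    simp only [Complex.div_ofNat_re, Complex.div_ofNat_im, Complex.sub_re, Complex.sub_im,
      Complex.mul_re, Complex.mul_im, Complex.I_re, Complex.I_im, tspin1_re, tspin1_im]
    ring
  have k2 : (‖b‖ ^ 2) ^ 2 = ((S.Xt z.re z.im 0 + S.Xs z.re z.im 1) ^ 2 +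
      (S.Xt z.re z.im 1 - S.Xs z.re z.im 0) ^ 2) / 4 := by
    rw [← norm_pow, h2, Complex.sq_norm, Complex.normSq_apply]
    simp only [Complex.div_ofNat_re, Complex.div_ofNat_im, Complex.neg_re, Complex.neg_im,
      Complex.add_re, Complex.add_im,
      Complex.mul_re, Complex.mul_im, Complex.I_re, Complex.I_im, tspin1_re, tspin1_im]
    ring
  have k3 : 4 * ‖a‖ ^ 2 * ‖b‖ ^ 2 = S.Xt z.re z.im 2 ^ 2 + S.Xs z.re z.im 2 ^ 2 := by
    have e : ‖2 * a * b‖ ^ 2 = 4 * ‖a‖ ^ 2 * ‖b‖ ^ 2 := by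
      rw [norm_mul, norm_mul, Complex.norm_ofNat]
      ring
    rw [← e, h3, Complex.sq_norm, Complex.normSq_apply, tspin1_re, tspin1_im]
    ring
  have e1 := S.eT _ hz z.im
  have e2 := S.eS _ hz z.im
  simp only [dot] at e1 e2
  refine (pow_left_inj₀ (by positivity) (S.upos _ hz z.im).le two_ne_zero).1 ?_
  linear_combination k1 + k2 + (1 / 2) * k3 + (1 / 2) * e1 + (1 / 2) * e2

/-- Retraction of the plane onto the closed strip. -/
noncomputable def tspin1_clamp (A B : ℝ) (z : ℂ) : ℂ :=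
  ((max A (min B z.re) : ℝ) : ℂ) + (z.im : ℂ) * Complex.I

lemma tspin1_clamp_cont (A B : ℝ) : Continuous (tspin1_clamp A B) := by
  unfold tspin1_clamp
  fun_prop

lemma tspin1_clamp_mem {A B : ℝ} (h : A ≤ B) (z : ℂ) : (tspin1_clamp A B z).re ∈ Icc A B := by
  have e : (tspin1_clamp A B z).re = max A (min B z.re) := by simp [tspin1_clamp]
  rw [e]
  exact ⟨le_max_left _ _, max_le h (min_le_left _ _)⟩

lemma tspin1_clamp_eq {A B : ℝ} {z : ℂ} (hz : z.re ∈ Icc A B) : tspin1_clamp A B z = z := by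
  rw [tspin1_clamp, min_eq_right hz.2, max_eq_right hz.1, Complex.re_add_im]

lemma tspin1_clamp_add (A B : ℝ) (z : ℂ) :
    tspin1_clamp A B (z + 2 * π * Complex.I) = tspin1_clamp A B z + 2 * π * Complex.I := by
  have e1 : (z + 2 * π * Complex.I).re = z.re := by simp
  have e2 : (z + 2 * π * Complex.I).im = z.im + 2 * π := by simp
  rw [tspin1_clamp, tspin1_clamp, e1, e2]
  push_cast
  ring

theorem Ann0.exists_psi (S : Ann0) (hA : ∀ θ, 0 < S.Xt S.A θ 2) (hB : ∀ θ, 0 < S.Xt S.B θ 2) :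
    ∃ ψ₁ ψ₂ ε, (ε = 1 ∨ ε = -1) ∧ S.IsPsi ψ₁ ψ₂ ε := by
  have hO : IsOpen {z : ℂ | S.A < z.re ∧ z.re < S.B} :=
    (isOpen_lt continuous_const Complex.continuous_re).inter
      (isOpen_lt Complex.continuous_re continuous_const)
  have hcl := tspin1_clamp_cont S.A S.B
  have hmem := tspin1_clamp_mem S.hAB.le
  let a : ℂ → ℂ := fun z => -(S.Phi 0 z + Complex.I * S.Phi 1 z) / 2
  have hac : Continuous a :=
    ((S.continuous_Phi 0).add (continuous_const.mul (S.continuous_Phi 1))).neg.div_const _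
  have had : DifferentiableOn ℂ a {z : ℂ | S.A < z.re ∧ z.re < S.B} :=
    ((tspin1_diffOn S 0).add ((tspin1_diffOn S 1).const_mul _)).neg.div_const _
  have ha0 : ∀ z : ℂ, z.re ∈ Icc S.A S.B → a z ≠ 0 := fun z hz h0 => by
    have h1 := tspin1_prod S hz
    change _ * a z = _ at h1
    rw [h0, mul_zero, eq_comm, div_eq_zero_iff, pow_eq_zero_iff two_ne_zero] at h1
    rcases h1 with h1 | h1
    · exact tspin1_ne S hA hB hz h1
    · norm_num at h1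
  obtain ⟨L, hL, eL⟩ := tspin1_exists_log (hac.comp hcl) (fun z => ha0 _ (hmem z))
  have hLd : DifferentiableOn ℂ L {z : ℂ | S.A < z.re ∧ z.re < S.B} :=
    tspin1_diff_of_exp hO hL had (fun z hz => by
      rw [eL, comp_apply, tspin1_clamp_eq ⟨hz.1.le, hz.2.le⟩])
  let ψ : ℂ → ℂ := fun z => Complex.exp (L z / 2)
  have hψc : Continuous ψ := (hL.div_const _).cexp
  have hψ0 : ∀ z, ψ z ≠ 0 := fun z => Complex.exp_ne_zero _
  have hψd : DifferentiableOn ℂ ψ {z : ℂ | S.A < z.re ∧ z.re < S.B} := (hLd.div_const _).cexp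
  have hψ2 : ∀ z, ψ z ^ 2 = a (tspin1_clamp S.A S.B z) := fun z => by
    change Complex.exp (L z / 2) ^ 2 = _
    rw [sq, ← Complex.exp_add, add_halves, eL, comp_apply]
  obtain ⟨ε, hε, hper⟩ : ∃ ε : ℂ, (ε = 1 ∨ ε = -1) ∧
      ∀ z, ψ (z + 2 * π * Complex.I) = ε * ψ z := by
    have h1 := IsPreconnected.eq_or_eq_neg_of_sq_eq (S := (univ : Set ℂ))
      (f := fun z => ψ (z + 2 * π * Complex.I)) (g := ψ) isPreconnected_univ
      (hψc.comp (continuous_id.add continuous_const)).continuousOn hψc.continuousOn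
      (fun z _ => by
        change ψ (z + 2 * π * Complex.I) ^ 2 = ψ z ^ 2
        rw [hψ2, hψ2, tspin1_clamp_add]
        simp only [a, S.Phi_periodic])
      (fun _ => hψ0 _)
    rcases h1 with h1 | h1
    · exact ⟨1, Or.inl rfl, fun z => by rw [one_mul]; exact h1 (mem_univ z)⟩
    · exact ⟨-1, Or.inr rfl, fun z => by rw [neg_one_mul]; exact h1 (mem_univ z)⟩
  have hε2 : ε * ε = 1 := by rcases hε with h | h <;> simp [h]
  let χ : ℂ → ℂ := fun z => S.Phi 2 (tspin1_clamp S.A S.B z) / (2 * ψ z)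
  have e2 : ∀ z : ℂ, z.re ∈ Icc S.A S.B →
      ψ z ^ 2 = -(S.Phi 0 z + Complex.I * S.Phi 1 z) / 2 := fun z hz => by
    rw [hψ2, tspin1_clamp_eq hz]
  have e3 : ∀ z : ℂ, z.re ∈ Icc S.A S.B → 2 * χ z * ψ z = S.Phi 2 z := fun z hz => by
    have := hψ0 z
    simp only [χ, tspin1_clamp_eq hz]
    field_simp
  have e1 : ∀ z : ℂ, z.re ∈ Icc S.A S.B →
      χ z ^ 2 = (S.Phi 0 z - Complex.I * S.Phi 1 z) / 2 := fun z hz => by
    refine mul_right_cancel₀ (pow_ne_zero 2 (hψ0 z)) ?_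
    conv_rhs => rw [e2 z hz, tspin1_prod S hz, ← e3 z hz]
    ring
  refine ⟨χ, ψ, ε, hε, ((S.continuous_Phi 2).comp hcl).div (continuous_const.mul hψc)
    (fun z => mul_ne_zero two_ne_zero (hψ0 z)), hψc, ?_, hψd, e1, e2, e3,
    fun z hz => tspin1_norm S hz (e1 z hz) (e2 z hz) (e3 z hz), fun z _ => ?_, fun z _ => hper z⟩
  · refine ((tspin1_diffOn S 2).div (hψd.const_mul 2)
      (fun z _ => mul_ne_zero two_ne_zero (hψ0 z))).congr (fun z hz => ?_)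
    simp only [χ, tspin1_clamp_eq ⟨hz.1.le, hz.2.le⟩]
    rfl
  · have := hψ0 z
    have h0 : ε ≠ 0 := left_ne_zero_of_mul_eq_one hε2
    simp only [χ, tspin1_clamp_add, S.Phi_periodic, hper]
    field_simp
    linear_combination (-S.Phi 2 (tspin1_clamp S.A S.B z)) * hε2

end Pool.Agent.Lib.MP_14b623_gt
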