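import Pool.Agent.Lib.MP_14b623_gt.GMain
import Pool.Agent.Lib.MP_14b623_gt.GCert

/-! Every immersed free boundary minimal surface in the unit ball with at least three boundary
components, of any genus, has at least the area of the critical catenoid. -/

namespace Pool.Agent.Lib.MP_14b623_gt.ThreeBoundary


open scoped Manifold ContDiff

theorem result : ∃ c τ : ℝ, 0 < c ∧ IsFBMAnnulus (-τ) τ (catenoid c) ∧
    ∀ (M : Type) [TopologicalSpace M] [T2Space M] [CompactSpace M]
      [ChartedSpace (EuclideanHalfSpace 2) M] [IsManifold (𝓡∂ 2) ∞ M]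
      [MeasurableSpace M] [BorelSpace M] (φ : M → E3), IsFBMS φ →
      3 ≤ ENat.card (ConnectedComponents ((𝓡∂ 2).boundary M)) →
      area (-τ) τ (catenoid c) ≤ surfaceArea φ := by
  obtain ⟨c, τ, h1, h2, h3⟩ := exists_cat
  exact ⟨c, τ, h1, h2, fun M _ _ _ _ _ _ _ φ h hb =>
    h3.trans (h.three cert (by norm_num) (by norm_num) hb)⟩

end Pool.Agent.Lib.MP_14b623_gt.ThreeBoundary
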