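import Pool.Agent.Lib.MP_14b623_gt.GDefs

/-! Surfaces of genus zero and equatorial discs. -/

namespace Pool.Agent.Lib.MP_14b623_gt

open Set
open scoped Manifold InnerProductSpace ContDiff

/-- The closed unit disc with the open round discs of centres `c j` and radii `r j` removed. -/
def holedDisc {k : ℕ} (c : Fin k → E2) (r : Fin k → ℝ) : Set E2 :=
  Metric.closedBall 0 1 \ ⋃ j, Metric.ball (c j) (r j)

/-- `M` is a compact orientable connected surface of genus zero with nonempty boundary: it is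
diffeomorphic (`ι` and its inverse `κ` are smooth up to the boundary) to the closed unit disc with
`k ≥ 0` open round discs removed, whose closures are pairwise disjoint and lie in the open unit
disc. -/
def IsGenusZero (M : Type) [TopologicalSpace M] [ChartedSpace (EuclideanHalfSpace 2) M] : Prop :=
  ∃ (k : ℕ) (c : Fin k → E2) (r : Fin k → ℝ) (ι : M → E2) (κ : E2 → M),
    (∀ j, 0 < r j ∧ ‖c j‖ + r j < 1) ∧ (∀ i j, i ≠ j → r i + r j < dist (c i) (c j)) ∧
    ContMDiff (𝓡∂ 2) 𝓘(ℝ, E2) ∞ ι ∧ ContMDiffOn 𝓘(ℝ, E2) (𝓡∂ 2) ∞ κ (holedDisc c r) ∧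
    (∀ x, ι x ∈ holedDisc c r) ∧ (∀ x, κ (ι x) = x) ∧ ∀ z ∈ holedDisc c r, ι (κ z) = z

/-- `S` is the intersection of the closed unit ball with a plane through the origin. -/
def IsEquatorialDisc (S : Set E3) : Prop :=
  ∃ e : E3, e ≠ 0 ∧ S = {x | ‖x‖ ≤ 1 ∧ ⟪e, x⟫_ℝ = 0}

end Pool.Agent.Lib.MP_14b623_gt
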